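import Pool.Agent.Lib.MP_fc2ced_ag.BaseA

/-!
The basic theory: `(B, N, D)` goes to the motive of the presheaf `Sec N / Sec (N and D)`.
-/

open CategoryTheory CategoryTheory.Limits CategoryTheory.Pretriangulated

set_option linter.unusedSectionVars false

namespace Pool.Agent.Lib.MP_fc2ced_ag

open Mot

variable {k : Type} [Field k] [CharZero k]

section

variable {A B : Type} [CommRing A] [Algebra k A] [CommRing B] [Algebra k B]

/-- A correspondence, as a morphism of represented presheaves. -/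
def Obj.ofCorr (ρ : Corr k A B) : Obj.sm k A ⟶ Obj.sm k B :=
  ⟨ρ.1, fun φ _ => IsCorr.mem_sp ρ.2 φ, fun _ _ h => h.elim⟩

theorem Obj.isCorr (f : Obj.sm k A ⟶ Obj.sm k B) : IsCorr k (A := A) (B := B) f.1 :=
  IsCorr.of_mem_sp fun φ => f.2.n φ trivial

end

/-- Composition, on morphisms modulo dead ones. -/
def qcomp {X Y M N : Obj k} (f : X ⟶ Y) (g : M ⟶ N) :
    (Y ⟶ M) ⧸ dead Y M →+ (X ⟶ N) ⧸ dead X N :=
  QuotientAddGroup.map _ _
    { toFun h := f ≫ h ≫ g
      map_zero' := by simp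
      map_add' _ _ := by simp } fun _ h => comp_dead f (dead_comp h g)

@[simp] theorem qcomp_mk {X Y M N : Obj k} (f : X ⟶ Y) (g : M ⟶ N) (h : Y ⟶ M) :
    qcomp f g (h : (Y ⟶ M) ⧸ dead Y M) = ((f ≫ h ≫ g : X ⟶ N) : (X ⟶ N) ⧸ dead X N) := rfl

theorem mk_eq_of_dead {X M : Obj k} {f g : X ⟶ M} (h : f - g ∈ dead X M) :
    (g : (X ⟶ M) ⧸ dead X M) = f :=
  ((QuotientAddGroup.eq_iff_sub_mem (N := dead X M)).2 h).symm

instance (U : (SmAff k).FullSubcategory) : IsDomain U.obj.A := U.property.1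

instance (U : (SmAff k).FullSubcategory) : Algebra.Smooth k U.obj.A := U.property.2

/-- The presheaf with transfers of an object. -/
def psh (M : Obj k) : PST k :=
  ⟨{ obj X := AddCommGrpCat.of ((Obj.sm k X.unop.obj.A ⟶ M) ⧸ dead _ M)
     map f := AddCommGrpCat.ofHom (qcomp (Obj.ofCorr f.unop.hom) (𝟙 M))
     map_id _ := AddCommGrpCat.ext fun x => QuotientAddGroup.induction_on x fun _ => rfl
     map_comp _ _ := AddCommGrpCat.ext fun x => QuotientAddGroup.induction_on x fun _ => rfl },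
    ⟨fun {_ _ f g} => AddCommGrpCat.ext fun x => QuotientAddGroup.induction_on x fun h =>
      congrArg (QuotientAddGroup.mk' _)
        (Preadditive.add_comp _ _ _ (Obj.ofCorr f.unop.hom) (Obj.ofCorr g.unop.hom) (h ≫ 𝟙 M)) |>.trans
          (map_add _ _ _)⟩⟩

variable (k) in
/-- The functor from objects to presheaves with transfers. -/
def Psh : Obj k ⥤ PST k where
  obj := psh
  map g := ObjectProperty.homMk
    { app _ := AddCommGrpCat.ofHom (qcomp (𝟙 _) g)
      naturality _ _ _ := AddCommGrpCat.ext fun x => QuotientAddGroup.induction_on x fun _ => rfl }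
  map_id _ := ObjectProperty.hom_ext _ (NatTrans.ext (funext fun _ =>
    AddCommGrpCat.ext fun x => QuotientAddGroup.induction_on x fun _ => rfl))
  map_comp _ _ := ObjectProperty.hom_ext _ (NatTrans.ext (funext fun _ =>
    AddCommGrpCat.ext fun x => QuotientAddGroup.induction_on x fun _ => rfl))

instance : (Psh k).Additive := ⟨fun {_ N f g} => ObjectProperty.hom_ext _ (NatTrans.ext
  (funext fun X => AddCommGrpCat.ext fun x => QuotientAddGroup.induction_on x fun h =>
    congrArg (QuotientAddGroup.mk' (dead (Obj.sm k X.unop.obj.A) N))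
      (show 𝟙 _ ≫ h ≫ (f + g) = 𝟙 _ ≫ h ≫ f + 𝟙 _ ≫ h ≫ g by simp) |>.trans (map_add _ _ _)))⟩

theorem shortExact_of_app {S : ShortComplex (PST k)}
    (h1 : ∀ X, Function.Injective (S.f.hom.app X))
    (h2 : ∀ X, ∀ y, S.g.hom.app X y = 0 → ∃ x, S.f.hom.app X x = y)
    (h3 : ∀ X, Function.Surjective (S.g.hom.app X)) : S.ShortExact := by
  refine ShortExact.reflects_shortExact_of_faithful (ObjectProperty.ι _) ?_
  have J : JointlyReflectIsomorphisms
      fun X => (evaluation (SmAff k).FullSubcategoryᵒᵖ AddCommGrpCat.{0}).obj X :=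
    ⟨fun f h => have : ∀ X, IsIso (f.app X) := h; NatIso.isIso_of_isIso_app f⟩
  refine (J.shortExact_iff _).2 fun X => ?_
  exact ShortComplex.ShortExact.mk' ((ShortComplex.ab_exact_iff _).2 (h2 X))
    ((AddCommGrpCat.mono_iff_injective _).2 (h1 X)) ((AddCommGrpCat.epi_iff_surjective _).2 (h3 X))

namespace Tri

variable {M₁ M₂ M₃ : Obj k} {α : M₂.B →ₐ[k] M₁.B} {β : M₃.B →ₐ[k] M₂.B} (T : Tri M₁ M₂ M₃ α β)

/-- The sequence of presheaves. -/
noncomputable def sc : ShortComplex (PST k) :=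
  ShortComplex.mk ((Psh k).map T.i) ((Psh k).map T.p) (by
    rw [← Functor.map_comp]
    exact ObjectProperty.hom_ext _ (NatTrans.ext (funext fun _ => AddCommGrpCat.ext fun x =>
      QuotientAddGroup.induction_on x fun h => (QuotientAddGroup.eq_zero_iff _).2
        (comp_dead _ (comp_dead h T.dead_ip)))))

theorem sc_shortExact : T.sc.ShortExact := by
  refine shortExact_of_app (fun X => (injective_iff_map_eq_zero (qcomp (𝟙 _) T.i)).2 fun x => ?_)
    (fun X y => ?_) fun X y => ?_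
  · refine QuotientAddGroup.induction_on x fun f hf => (QuotientAddGroup.eq_zero_iff _).2 ?_
    exact T.dead_of_i ((QuotientAddGroup.eq_zero_iff _).1 hf)
  · refine QuotientAddGroup.induction_on y fun f hf => ?_
    obtain ⟨g, hg⟩ := T.exists_lift_i (f := f) ((QuotientAddGroup.eq_zero_iff _).1 hf)
    exact ⟨QuotientAddGroup.mk g, mk_eq_of_dead hg⟩
  · refine QuotientAddGroup.induction_on y fun f => ?_
    obtain ⟨g, hg⟩ := T.exists_lift_p f
    exact ⟨QuotientAddGroup.mk g, mk_eq_of_dead hg⟩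

end Tri

section Rep

variable (X : Cor k) {X' : Cor k}

/-- The comparison with the represented presheaf. -/
def toPsh : (L k).obj X ⟶ (Psh k).obj (Obj.sm k X.A) :=
  ObjectProperty.homMk
    { app U := AddCommGrpCat.ofHom ((QuotientAddGroup.mk' _).comp
        ({ toFun := Obj.ofCorr, map_zero' := rfl, map_add' _ _ := rfl } :
          Corr k U.unop.obj.A X.A →+ (Obj.sm k U.unop.obj.A ⟶ Obj.sm k X.A)))
      naturality _ _ _ := rfl }

instance isIso_toPsh : IsIso (toPsh X) := by
  have h (U : (SmAff k).FullSubcategoryᵒᵖ) : IsIso ((toPsh X).hom.app U) := by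
    refine (ConcreteCategory.isIso_iff_bijective _).2 ⟨?_, fun y => ?_⟩
    · refine (injective_iff_map_eq_zero ((toPsh X).hom.app U).hom).2 fun ρ h => ?_
      have h1 := Sp.eq_zero (P := Pr.top.and .bot) (fun _ h => h.2)
        ((QuotientAddGroup.eq_zero_iff _).1 h (gpt k U.unop.obj.A) trivial)
      exact Subtype.ext (LinearMap.ext fun b => gpt_inj (k := k) U.unop.obj.A
        (congr($h1 b).trans (map_zero _).symm))
    · exact QuotientAddGroup.induction_on y fun f => ⟨⟨f.1, Obj.isCorr f⟩, rfl⟩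
  exact (ObjectProperty.isIso_hom_iff (toPsh X)).1 (NatIso.isIso_of_isIso_app (toPsh X).hom)

variable {X} in
theorem toPsh_nat (f : X ⟶ X') :
    (L k).map f ≫ toPsh X' = toPsh X ≫ (Psh k).map (Obj.ofCorr f) := rfl

theorem coker_aux {C : Type*} [Category C] [Abelian C] {S : ShortComplex C} (h : S.ShortExact)
    {X Y : C} (o : X ⟶ Y) (e : Y ⟶ S.X₂) (he : IsIso e) (p : X ⟶ S.X₁) (hp : Epi p)
    (w : o ≫ e = p ≫ S.f) : ∃ c : cokernel o ≅ S.X₃, cokernel.π o ≫ c.hom = e ≫ S.g := by
  have w' : o ≫ e ≫ S.g = 0 := by rw [reassoc_of% w, S.zero, comp_zero]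
  have := h.epi_g
  have hc : IsColimit (CokernelCofork.ofπ _ w') :=
    CokernelCofork.IsColimit.ofπ' _ _ fun {Z} t ht => ⟨h.exact.desc (inv e ≫ t) (by
      rw [← cancel_epi p, ← reassoc_of% w, IsIso.hom_inv_id_assoc, ht, comp_zero]), by
      rw [Category.assoc, h.exact.g_desc, IsIso.hom_inv_id_assoc]⟩
  exact ⟨IsColimit.coconePointUniqueUpToIso (colimit.isColimit _) hc,
    IsColimit.comp_coconePointUniqueUpToIso_hom (colimit.isColimit _) hc .one⟩

/-- The quotient by an open subset is the cokernel. -/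
theorem exists_cokernel_iso (f : X.A) :
    ∃ c : cokernel ((L k).map (incl X f)) ≅ (Psh k).obj (Obj.rel k f),
      cokernel.π _ ≫ c.hom = toPsh X ≫ (Psh k).map (Obj.tri_loc f).p :=
  coker_aux (Obj.tri_loc (k := k) f).sc_shortExact _ (toPsh X) (isIso_toPsh X)
    (toPsh (away X f) ≫ (Psh k).map (Obj.isE_loc f).hom)
    (epi_comp' inferInstance (Obj.isE_loc (k := k) f).tri.sc_shortExact.epi_g) rfl

end Rep

theorem Mot.Gen.isIso_mot {F G : PST k} {u : F ⟶ G} (h : Gen k F G u) :
    IsIso ((mot (Gen k)).map u) := by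
  obtain ⟨Z, v, w, hT⟩ := distinguished_cocone_triangle ((DerivedCategory.singleFunctor _ 0).map u)
  exact (Thick (Gen k)).trW.Q_inverts _ (ObjectProperty.trW.mk _ hT
    (ObjectProperty.le_triangEnvelope _ _ ⟨F, G, u, h, v, w, hT⟩))

theorem Gn.isIso_mot {X Y : Obj k} {u : X ⟶ Y} (h : Gn u) :
    IsIso ((mot (Gen k)).map ((Psh k).map u)) := by
  rcases h with ⟨B⟩ | ⟨B, B', f, h⟩
  · have := (Gen.line (k := k) ⟨B⟩ ‹_›).isIso_mot
    have e := toPsh_nat (proj (k := k) ⟨B⟩)
    rw [← IsIso.inv_comp_eq] at e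
    change IsIso ((mot (Gen k)).map ((Psh k).map (Obj.ofCorr (proj (k := k) ⟨B⟩))))
    rw [← e, Functor.map_comp, Functor.map_comp]
    exact IsIso.comp_isIso' inferInstance (IsIso.comp_isIso' this inferInstance)
  · have := h.smooth
    have := h.etale
    obtain ⟨c, hc⟩ := exists_cokernel_iso (k := k) ⟨B⟩ f
    obtain ⟨c', hc'⟩ := exists_cokernel_iso (k := k) ⟨B'⟩ (algebraMap B B' f)
    have hb : Function.Bijective (Ideal.quotientMap ((Ideal.span {f}).map (algebraMap B B'))
        (algebraMap B B') Ideal.le_comap_map) := by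
      have e : (Ideal.span {f}).map (algebraMap B B') = Ideal.span {algebraMap B B' f} := by
        rw [Ideal.map_span, Set.image_singleton]
      refine ⟨(injective_iff_map_eq_zero _).2 fun x hx => ?_, fun y => ?_⟩
      · obtain ⟨b, rfl⟩ := Ideal.Quotient.mk_surjective x
        obtain ⟨ρ⟩ := h.retr
        obtain ⟨d, hd⟩ := Ideal.mem_span_singleton.1 (e ▸ Ideal.Quotient.eq_zero_iff_mem.1 hx)
        have h1 := congrArg ρ hd
        rw [map_mul, ρ.commutes, ρ.commutes] at h1
        refine h1.trans ?_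
        rw [show algebraMap B (B ⧸ Ideal.span {f}) f = 0 from
          Ideal.Quotient.eq_zero_iff_mem.2 (Ideal.mem_span_singleton_self f), zero_mul]
      · obtain ⟨b', rfl⟩ := Ideal.Quotient.mk_surjective y
        obtain ⟨b, hb⟩ := h.surj b'
        exact ⟨Ideal.Quotient.mk _ b,
          (Ideal.Quotient.eq.2 (e ▸ Ideal.mem_span_singleton.2 hb)).symm⟩
    let v : (Psh k).obj (Obj.rel k (algebraMap B B' f)) ⟶ (Psh k).obj (Obj.rel k f) :=
      (Psh k).map (Obj.relMap (IsScalarTower.toAlgHom k B B') f)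
    have := (Gen.nis (k := k) ⟨B⟩ ⟨B'⟩ (IsScalarTower.toAlgHom k B B') f (algebraMap B B' f)
      ⟨h.smooth, RingHom.etale_algebraMap.2 h.etale, rfl, hb⟩ (c'.hom ≫ v ≫ c.inv) (by
      rw [Induced, reassoc_of% hc', ← cancel_mono c.hom]
      simp only [Category.assoc, Iso.inv_hom_id, Category.comp_id, hc]
      rfl)).isIso_mot
    change IsIso ((mot (Gen k)).map v)
    rw [show v = c'.inv ≫ (c'.hom ≫ v ≫ c.inv) ≫ c.hom by simp, Functor.map_comp,
      Functor.map_comp]
    infer_instance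

instance : (mot (Gen k)).Additive := by unfold mot; infer_instance

variable (k) in
/-- The basic theory. -/
noncomputable def base : Theory k where
  F := Psh k ⋙ mot (Gen k)
  δ T := ((Thick (Gen k)).trW.Q.mapTriangle.obj T.sc_shortExact.singleTriangle).mor₃
  dist T := (Thick (Gen k)).trW.Q.map_distinguished _
    T.sc_shortExact.singleTriangle_distinguished
  nat T _ _ _ _ _ T' a b c h1 h2 :=
    ((Thick (Gen k)).trW.Q.mapTriangle.map (ShortComplex.ShortExact.singleTriangle.map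
      T.sc_shortExact T'.sc_shortExact ⟨(Psh k).map a, (Psh k).map b, (Psh k).map c,
        ((Psh k).map_comp _ _).symm.trans (h1 ▸ (Psh k).map_comp _ _),
        ((Psh k).map_comp _ _).symm.trans (h2 ▸ (Psh k).map_comp _ _)⟩)).comm₃
  gen _ h := h.isIso_mot

theorem exists_base : ∃ Θ : Theory k, ∀ (X X' : Cor k) (f : Obj.sm k X.A ⟶ Obj.sm k X'.A),
    Θ.F.map f = 0 → ∃ τ : X ⟶ X', Corr.tr τ = f.1 ∧ Killed (Gen k) ((L k).map τ) :=
  ⟨base k, fun X X' f hf => ⟨⟨f.1, Obj.isCorr f⟩, rfl, by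
    have h : (mot (Gen k)).map ((Psh k).map (Obj.ofCorr ⟨f.1, Obj.isCorr f⟩)) = 0 := hf
    rw [Killed, Functor.map_zero, ← cancel_mono ((mot (Gen k)).map (toPsh X')),
      ← Functor.map_comp, toPsh_nat, Functor.map_comp, h, comp_zero, zero_comp]⟩⟩

end Pool.Agent.Lib.MP_fc2ced_ag
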