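import Pool.Agent.Lib.MP_fc2ced_ag.Univ

-- part Pool.Agent.Lib.MP_fc2ced_ag.PlusA
section

/-!
Toolkit, first part: absolutely integrally closed domains, lifting of points, normality of smooth
domains, traces as sums of points.
-/

open CategoryTheory
open scoped TensorProduct Polynomial

set_option linter.unusedSectionVars false

namespace Pool.Agent.Lib.MP_fc2ced_ag

variable {k : Type} [Field k] [CharZero k]

/-- Integral elements of an extension domain come from the ring. -/
theorem Aic.mem_range (O : Aic k) {L : Type} [CommRing L] [IsDomain L] [Algebra O L] {x : L}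
    (hx : IsIntegral O x) : ∃ y, algebraMap O L y = x := by
  obtain ⟨p, hp, hx⟩ := hx
  rw [← Polynomial.aeval_def] at hx
  induction hn : p.natDegree generalizing p with
  | zero =>
    rw [hp.natDegree_eq_zero.1 hn] at hx
    simp at hx
  | succ n ih =>
    obtain ⟨a, ha⟩ := O.root p hp (Polynomial.natDegree_pos_iff_degree_pos.1 (by omega))
    obtain ⟨q, rfl⟩ := Polynomial.dvd_iff_isRoot.2 ha
    have hq : q.Monic := (Polynomial.monic_X_sub_C a).of_mul_monic_left hp
    rw [(Polynomial.monic_X_sub_C a).natDegree_mul hq, Polynomial.natDegree_X_sub_C] at hn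
    rw [map_mul, mul_eq_zero] at hx
    rcases hx with hx | hx
    · exact ⟨a, (sub_eq_zero.1 (by simpa using hx)).symm⟩
    · exact ih q hq hx (by omega)

instance Aic.isIntegrallyClosed (O : Aic k) : IsIntegrallyClosed O :=
  (isIntegrallyClosed_iff (FractionRing O)).2 O.mem_range

instance Aic.isAlgClosed_frac (O : Aic k) : IsAlgClosed (FractionRing O) := by
  refine IsAlgClosed.of_exists_root _ fun p hp hi => ?_
  obtain ⟨z, hz⟩ := IsAlgClosed.exists_aeval_eq_zero (AlgebraicClosure (FractionRing O)) p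
    (Polynomial.degree_pos_of_irreducible hi).ne'
  have ha : IsAlgebraic O z :=
    (IsFractionRing.isAlgebraic_iff O (FractionRing O) _).2 ⟨p, hp.ne_zero, hz⟩
  obtain ⟨d, hd, hi⟩ := ha.exists_integral_multiple
  obtain ⟨y, hy⟩ := O.mem_range hi
  have hd' : algebraMap O (FractionRing O) d ≠ 0 := by simpa using hd
  refine ⟨algebraMap O _ y / algebraMap O _ d, ?_⟩
  have : z = algebraMap (FractionRing O) _ (algebraMap O _ y / algebraMap O _ d) := by
    rw [map_div₀, eq_div_iff (by simpa using hd), ← IsScalarTower.algebraMap_apply,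
      ← IsScalarTower.algebraMap_apply, hy, Algebra.smul_def, mul_comm]
  rw [this, Polynomial.aeval_algebraMap_apply] at hz
  simpa using hz

variable (k) in
/-- An algebraically closed field. -/
abbrev Aic.ofField (Ω : Type) [Field Ω] [IsAlgClosed Ω] [Algebra k Ω] : Aic k :=
  ⟨Ω, fun p _ hp => IsAlgClosed.exists_root p hp.ne'⟩

theorem integralClosure_root {A Ω : Type} [CommRing A] [Field Ω] [IsAlgClosed Ω] [Algebra A Ω]
    (p : (integralClosure A Ω)[X]) (hp : p.Monic) (hd : 0 < p.degree) : ∃ x, p.IsRoot x := by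
  obtain ⟨z, hz⟩ := IsAlgClosed.exists_aeval_eq_zero_of_injective Ω
    (R := integralClosure A Ω) Subtype.val_injective p hd.ne'
  have hi : IsIntegral A z := isIntegral_trans (A := integralClosure A Ω) z ⟨p, hp, hz⟩
  refine ⟨⟨z, hi⟩, Subtype.val_injective ?_⟩
  have := Polynomial.aeval_algebraMap_apply Ω (⟨z, hi⟩ : integralClosure A Ω) p
  rw [Polynomial.coe_aeval_eq_eval] at this
  exact this.symm.trans hz

variable (k) in
/-- The absolute integral closure of a domain. -/
noncomputable abbrev Aic.plus (A : Type) [CommRing A] [IsDomain A] [Algebra k A] : Aic k :=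
  { O := integralClosure A (AlgebraicClosure (FractionRing A))
    root := integralClosure_root }

/-- A point in the fraction field whose values are integral is a point. -/
theorem Aic.exists_of_isIntegral (O : Aic k) {C : Type} [CommRing C] [Algebra k C]
    (y : C →ₐ[k] FractionRing O) (h : ∀ c, IsIntegral O (y c)) :
    ∃ ψ : C →ₐ[k] O, (IsScalarTower.toAlgHom k O _).comp ψ = y := by
  choose f hf using fun c => O.mem_range (h c)
  have inj := IsFractionRing.injective O (FractionRing O)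
  exact ⟨{ toFun := f
           map_one' := inj (by simp [hf])
           map_mul' := fun a b => inj (by simp [hf])
           map_zero' := inj (by simp [hf])
           map_add' := fun a b => inj (by simp [hf])
           commutes' := fun r => inj (by
             rw [hf, AlgHom.commutes, ← IsScalarTower.algebraMap_apply]) }, AlgHom.ext hf⟩

theorem exists_lift_field {A C Ω : Type} [CommRing A] [CommRing C] [Algebra A C]
    [Algebra.IsIntegral A C] (h : Function.Injective (algebraMap A C)) [Field Ω] [IsAlgClosed Ω]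
    (φ : A →+* Ω) : ∃ ψ : C →+* Ω, ψ.comp (algebraMap A C) = φ := by
  have : (RingHom.ker φ).IsPrime := RingHom.ker_isPrime φ
  obtain ⟨Q, -, hQ, hP⟩ := Ideal.exists_ideal_over_prime_of_isIntegral (RingHom.ker φ)
    (⊥ : Ideal C) (by
      rw [← RingHom.ker_eq_comap_bot, (RingHom.injective_iff_ker_eq_bot _).1 h]; exact bot_le)
  have : Q.LiesOver (RingHom.ker φ) := ⟨hP.symm⟩
  let _ : Algebra (A ⧸ RingHom.ker φ) Ω := φ.kerLift.toAlgebra
  have : FaithfulSMul (A ⧸ RingHom.ker φ) Ω :=
    (faithfulSMul_iff_algebraMap_injective _ _).2 φ.kerLift_injective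
  have : Module.IsTorsionFree (A ⧸ RingHom.ker φ) (C ⧸ Q) :=
    Module.isTorsionFree_iff_faithfulSMul.2 inferInstance
  let ψ : (C ⧸ Q) →ₐ[A ⧸ RingHom.ker φ] Ω := IsAlgClosed.lift
  refine ⟨ψ.toRingHom.comp (Ideal.Quotient.mk Q), RingHom.ext fun a => ?_⟩
  exact ψ.commutes (Ideal.Quotient.mk _ a)

/-- Points lift along injective integral homomorphisms. -/
theorem Aic.lift (O : Aic k) {A C : Type} [CommRing A] [Algebra k A] [CommRing C] [Algebra k C]
    [Algebra A C] [IsScalarTower k A C] [Algebra.IsIntegral A C]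
    (h : Function.Injective (algebraMap A C)) (φ : A →ₐ[k] O) :
    ∃ ψ : C →ₐ[k] O, ψ.comp (IsScalarTower.toAlgHom k A C) = φ := by
  obtain ⟨ψ, hψ⟩ := exists_lift_field h
    ((algebraMap O (FractionRing O)).comp (φ : A →+* O))
  have e : ∀ a, ψ (algebraMap A C a) = algebraMap O _ (φ a) := fun a => congr($hψ a)
  obtain ⟨χ, hχ⟩ := O.exists_of_isIntegral (C := C)
    ⟨ψ, fun r => (congrArg ψ (IsScalarTower.algebraMap_apply k A C r)).trans <| by
      rw [e, φ.commutes, ← IsScalarTower.algebraMap_apply]⟩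
    fun c => (Algebra.IsIntegral.isIntegral (R := A) c).map_of_comp_eq (φ : A →+* O) ψ hψ.symm
  refine ⟨χ, AlgHom.ext fun a => IsFractionRing.injective O (FractionRing O) ?_⟩
  exact (congr($hχ (algebraMap A C a))).trans (e a)

/-- Smooth base change of a normal domain is integrally closed in the generic fibre. -/
theorem exists_eq_tmul_one (P B : Type) [CommRing P] [IsDomain P] [IsIntegrallyClosed P]
    [CommRing B] [Algebra P B] [Algebra.Smooth P B] {x : B ⊗[P] FractionRing P}
    (hx : IsIntegral B x) : ∃ b : B, algebraMap B _ b = x := by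
  obtain ⟨y, hy⟩ := (TensorProduct.toIntegralClosure_bijective_of_smooth (R := P) (S := B)
    (B := FractionRing P)).2 ⟨x, hx⟩
  obtain rfl : (Algebra.TensorProduct.map (.id B B) (integralClosure P _).val) y = x :=
    congr(($hy).1)
  clear hy hx
  induction y with
  | zero => exact ⟨0, by simp⟩
  | tmul b c =>
    obtain ⟨a, ha⟩ := (isIntegrallyClosed_iff (FractionRing P)).1 ‹_› c.2
    refine ⟨a • b, ?_⟩
    rw [Algebra.TensorProduct.map_tmul, Subalgebra.coe_val, ← ha, Algebra.algebraMap_eq_smul_one a,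
      ← TensorProduct.smul_tmul]
    rfl
  | add x y hx hy =>
    obtain ⟨a, ha⟩ := hx
    obtain ⟨b, hb⟩ := hy
    exact ⟨a + b, by rw [map_add, map_add, ha, hb]⟩

attribute [local instance] Algebra.TensorProduct.rightAlgebra in
theorem normal_of_etale (P B : Type) [CommRing P] [IsDomain P] [IsIntegrallyClosed P]
    [CommRing B] [IsDomain B] [Algebra P B] [Algebra.Etale P B] : IsIntegrallyClosed B := by
  have hM : Algebra.algebraMapSubmonoid B (nonZeroDivisors P) ≤ nonZeroDivisors B := by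
    rintro _ ⟨a, ha, rfl⟩
    refine mem_nonZeroDivisors_of_ne_zero ?_
    rw [Algebra.algebraMap_eq_smul_one]
    exact smul_ne_zero (nonZeroDivisors.ne_zero ha) one_ne_zero
  let L := B ⊗[P] FractionRing P
  have : IsDomain L := IsLocalization.isDomain_of_le_nonZeroDivisors L hM
  have : Module.Finite (FractionRing P) (FractionRing P ⊗[P] B) :=
    Algebra.FormallyUnramified.finite_of_free _ _
  have : Module.Finite (FractionRing P) L :=
    .equiv (Algebra.TensorProduct.commRight P (FractionRing P) B).toLinearEquiv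
  let _ : Field L := (isField_of_isIntegral_of_isField' (R := FractionRing P)
    (Field.toIsField _)).toField
  have inj := IsLocalization.injective L hM
  have : FaithfulSMul B L := (faithfulSMul_iff_algebraMap_injective _ _).2 inj
  have : IsFractionRing B L := .of_field _ _ fun z => by
    obtain ⟨⟨x, y⟩, h⟩ := IsLocalization.surj (Algebra.algebraMapSubmonoid B (nonZeroDivisors P)) z
    exact ⟨x, y, eq_div_of_mul_eq (IsLocalization.map_units L y).ne_zero h⟩
  exact (isIntegrallyClosed_iff L).2 (exists_eq_tmul_one P B)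

variable (k) in
theorem normal_of_smooth (A : Type) [CommRing A] [IsDomain A] [Algebra k A] [Algebra.Smooth k A] :
    IsIntegrallyClosed A := by
  refine .of_localization_maximal fun p _ _ => ?_
  obtain ⟨f, hf, n, _, _, _⟩ :=
    Algebra.IsSmoothAt.exists_isStandardEtale_mvPolynomial (R := k) (p := p)
  have h0 : f ≠ 0 := fun h => hf (h ▸ p.zero_mem)
  have : IsDomain (Localization.Away f) :=
    IsLocalization.isDomain_localization (powers_le_nonZeroDivisors_of_noZeroDivisors h0)
  have := normal_of_etale (MvPolynomial (Fin n) k) (Localization.Away f)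
  have hle : Submonoid.powers f ≤ p.primeCompl := Submonoid.powers_le.2 hf
  let _ := IsLocalization.localizationAlgebraOfSubmonoidLe (Localization.Away f)
    (Localization.AtPrime p) _ _ hle
  have := IsLocalization.localization_isScalarTower_of_submonoid_le (Localization.Away f)
    (Localization.AtPrime p) _ _ hle
  have := IsLocalization.isLocalization_of_submonoid_le (Localization.Away f)
    (Localization.AtPrime p) _ _ hle
  refine isIntegrallyClosed_of_isLocalization (R := Localization.Away f) _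
    (p.primeCompl.map (algebraMap A (Localization.Away f))) ?_
  rintro _ ⟨a, ha, rfl⟩
  refine mem_nonZeroDivisors_of_ne_zero fun h => ha ?_
  rw [(map_eq_zero_iff _ (IsLocalization.injective _
    (powers_le_nonZeroDivisors_of_noZeroDivisors h0))).1 h]
  exact p.zero_mem

/-- The trace is additive in short exact sequences. -/
theorem trace_add_of_exact {K : Type} [Field K] {U V W : Type} [AddCommGroup U] [Module K U]
    [AddCommGroup V] [Module K V] [AddCommGroup W] [Module K W] [FiniteDimensional K V]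
    {i : U →ₗ[K] V} {π : V →ₗ[K] W} (hi : Function.Injective i) (hπ : Function.Surjective π)
    (hex : Function.Exact i π) {f₁ : U →ₗ[K] U} {f : V →ₗ[K] V} {f₂ : W →ₗ[K] W}
    (h1 : f ∘ₗ i = i ∘ₗ f₁) (h2 : π ∘ₗ f = f₂ ∘ₗ π) :
    LinearMap.trace K V f = LinearMap.trace K U f₁ + LinearMap.trace K W f₂ := by
  have := FiniteDimensional.of_injective i hi
  have := Module.Finite.of_surjective π hπ
  obtain ⟨s, hs⟩ := π.exists_rightInverse_of_surjective (LinearMap.range_eq_top.2 hπ)
  obtain ⟨r, hr⟩ := i.exists_leftInverse_of_injective (LinearMap.ker_eq_bot.2 hi)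
  have hs' : ∀ w, π (s w) = w := fun w => congr($hs w)
  have hr' : ∀ u, r (i u) = u := fun u => congr($hr u)
  have e : f = (f ∘ₗ i) ∘ₗ (r ∘ₗ (LinearMap.id - s ∘ₗ π)) + (f ∘ₗ s) ∘ₗ π := by
    ext v
    obtain ⟨u, hu⟩ := (hex (v - s (π v))).1 (by simp [hs'])
    simp only [LinearMap.add_apply, LinearMap.comp_apply, LinearMap.sub_apply, LinearMap.id_apply]
    rw [← hu, hr', hu, ← map_add, sub_add_cancel]
  rw [e, map_add, LinearMap.trace_comp_comm' _ (f ∘ₗ i), LinearMap.trace_comp_comm' _ (f ∘ₗ s)]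
  congr 2
  · ext u
    simp [h1, hr', hex.apply_apply_eq_zero]
  · rw [← LinearMap.comp_assoc, h2, LinearMap.comp_assoc, hs, LinearMap.comp_id]

theorem exists_point_quot (Ω : Type) [Field Ω] [IsAlgClosed Ω] (E : Type) [CommRing E]
    [Algebra Ω E] (V : Type) [AddCommGroup V] [Module Ω V] [Module E V] [IsScalarTower Ω E V]
    [FiniteDimensional Ω V] [Nontrivial V] : ∃ (y : E →ₐ[Ω] Ω) (π : V →ₗ[Ω] Ω),
      Function.Surjective π ∧ ∀ x v, π (x • v) = y x * π v := by
  have : Module.Finite E V := .of_restrictScalars_finite Ω E V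
  obtain ⟨M, hM, -⟩ := (eq_top_or_exists_le_coatom (⊥ : Submodule E V)).resolve_left bot_ne_top
  obtain ⟨I, hI, ⟨e⟩⟩ := isSimpleModule_iff_quot_maximal.1 (isSimpleModule_iff_isCoatom.2 hM)
  let g : V →ₗ[E] E ⧸ I := e.toLinearMap ∘ₗ M.mkQ
  have hg : Function.Surjective g := e.surjective.comp M.mkQ_surjective
  have : Module.Finite Ω (E ⧸ I) := .of_surjective (g.restrictScalars Ω) hg
  let j := (AlgEquiv.ofBijective (Algebra.ofId Ω (E ⧸ I))
    IsAlgClosed.algebraMap_bijective_of_isIntegral).symm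
  refine ⟨j.toAlgHom.comp (Ideal.Quotient.mkₐ Ω I), j.toLinearMap ∘ₗ g.restrictScalars Ω,
    j.surjective.comp hg, fun x v => ?_⟩
  simp [← map_mul, Algebra.smul_def]

theorem exists_sum_points_aux (Ω : Type) [Field Ω] [IsAlgClosed Ω] (E : Type) [CommRing E]
    [Algebra Ω E] (n : ℕ) (V : Type) [AddCommGroup V] [Module Ω V] [Module E V]
    [IsScalarTower Ω E V] [FiniteDimensional Ω V] (hn : Module.finrank Ω V = n) :
    ∃ y : Fin n → (E →ₐ[Ω] Ω), (∀ i, ∀ x ∈ Module.annihilator E V, y i x = 0) ∧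
      ∀ x : E, LinearMap.trace Ω V ((LinearMap.lsmul E V x).restrictScalars Ω) = ∑ i, y i x := by
  induction n generalizing V with
  | zero =>
    have := Module.finrank_zero_iff.1 hn
    exact ⟨Fin.elim0, fun i => i.elim0, fun x => by
      rw [Subsingleton.elim (LinearMap.restrictScalars _ _) 0]; simp⟩
  | succ n ih =>
    have := Module.nontrivial_of_finrank_eq_succ hn
    obtain ⟨y, π, hπ, hy⟩ := exists_point_quot Ω E V
    let M : Submodule E V :=
      { carrier := {v | π v = 0}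
        add_mem' := fun h h' => by simp_all
        zero_mem' := by simp
        smul_mem' := fun x v h => by simp_all }
    have hi : Function.Injective (M.subtype.restrictScalars Ω) := Subtype.val_injective
    have hex : Function.Exact (M.subtype.restrictScalars Ω) π := fun v =>
      ⟨fun h => ⟨⟨v, h⟩, rfl⟩, fun ⟨w, h⟩ => h ▸ w.2⟩
    have := FiniteDimensional.of_injective _ hi
    have hd : Module.finrank Ω M = n := by
      have h1 := π.finrank_range_add_finrank_ker
      rw [LinearMap.range_eq_top.2 hπ, hex.linearMap_ker_eq, LinearMap.finrank_range_of_inj hi,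
        finrank_top, Module.finrank_self, hn] at h1
      omega
    obtain ⟨z, hz, hz'⟩ := ih M hd
    refine ⟨Fin.cons y z, fun i x hx => ?_, fun x => ?_⟩
    · rw [Module.mem_annihilator] at hx
      refine Fin.cases ?_ (fun i => hz i x (Module.mem_annihilator.2 fun m =>
        Subtype.ext (hx m.1))) i
      obtain ⟨v, hv⟩ := hπ 1
      simpa [hx, hv, eq_comm] using hy x v
    · rw [trace_add_of_exact hi hπ hex (f₁ := (LinearMap.lsmul E M x).restrictScalars Ω)
        (f₂ := y x • LinearMap.id) rfl (LinearMap.ext fun v => by simp [hy]), hz', add_comm]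
      simp [Fin.sum_univ_succ]

/-- The trace on a finite-dimensional module is a sum of points of its support. -/
theorem exists_sum_points (Ω : Type) [Field Ω] [IsAlgClosed Ω] (E : Type) [CommRing E]
    [Algebra Ω E] (V : Type) [AddCommGroup V] [Module Ω V] [Module E V] [IsScalarTower Ω E V]
    [FiniteDimensional Ω V] : ∃ y : Fin (Module.finrank Ω V) → (E →ₐ[Ω] Ω),
      (∀ i, ∀ x ∈ Module.annihilator E V, y i x = 0) ∧
      ∀ x : E, LinearMap.trace Ω V ((LinearMap.lsmul E V x).restrictScalars Ω) = ∑ i, y i x :=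
  exists_sum_points_aux Ω E _ V rfl

end Pool.Agent.Lib.MP_fc2ced_ag
end

-- part Pool.Agent.Lib.MP_fc2ced_ag.Plus
section

/-!
Toolkit, second part: traces, transfers, components.
-/

open CategoryTheory
open scoped TensorProduct Polynomial

set_option linter.unusedSectionVars false

namespace Pool.Agent.Lib.MP_fc2ced_ag

variable {k : Type} [Field k] [CharZero k]

/-- At a geometric point the trace of a finite free algebra is a sum of points. -/
theorem exists_trace_eq_sum (B C Ω : Type) [CommRing B] [CommRing C] [Algebra B C]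
    [Module.Free B C] [Module.Finite B C] [Field Ω] [IsAlgClosed Ω] [Algebra B Ω] :
    ∃ (n : ℕ) (y : Fin n → (C →ₐ[B] Ω)), ∀ c, algebraMap B Ω (Algebra.trace B C c) = ∑ i, y i c := by
  obtain ⟨y, -, hy⟩ := exists_sum_points Ω (Ω ⊗[B] C) (Ω ⊗[B] C)
  refine ⟨_, fun i => ((y i).restrictScalars B).comp Algebra.TensorProduct.includeRight,
    fun c => ?_⟩
  rw [Algebra.trace_apply, ← LinearMap.trace_baseChange]
  exact (congrArg _ (Algebra.baseChange_lmul c)).trans (hy (1 ⊗ₜ c))

section Trace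

variable {B C : Type} [CommRing B] [Algebra k B] [CommRing C] [Algebra k C] [Algebra B C]
  [IsScalarTower k B C] [Module.Free B C] [Module.Finite B C]

theorem trace_mem_sp (P : Pr k B) {O : Aic k} (φ : B →ₐ[k] O) (h : P.p φ) :
    φ.toLinearMap ∘ₗ (Algebra.trace B C).restrictScalars k ∈
      Sp (P.comap (IsScalarTower.toAlgHom k B C)) O := by
  let _ : Algebra B O := (φ : B →+* O).toAlgebra
  have : IsScalarTower k B (FractionRing O) := .of_algebraMap_eq fun r => by
    rw [IsScalarTower.algebraMap_apply k O, ← φ.commutes, IsScalarTower.algebraMap_apply B O]; rfl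
  have inj := IsFractionRing.injective O (FractionRing O)
  obtain ⟨n, y, hy⟩ := exists_trace_eq_sum B C (FractionRing O)
  choose ψ hψ using fun i => O.exists_of_isIntegral ((y i).restrictScalars k) fun c =>
    ((Algebra.IsIntegral.isIntegral (R := B) c).map (y i)).tower_top
  have e : ∀ i c, algebraMap O _ (ψ i c) = y i c := fun i c => congr($(hψ i) c)
  have : φ.toLinearMap ∘ₗ (Algebra.trace B C).restrictScalars k = ∑ i, (ψ i).toLinearMap :=
    LinearMap.ext fun c => inj ((hy c).trans (by simp [e]))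
  rw [this]
  refine sum_mem fun i _ => Sp.pt ?_
  have : (ψ i).comp (IsScalarTower.toAlgHom k B C) = φ :=
    AlgHom.ext fun b => inj ((e i _).trans ((y i).commutes b))
  rwa [Pr.comap_p, this]

variable (C) in
/-- The pull-back of the conditions along a homomorphism. -/
abbrev Obj.pull (N D : Pr k B) : Obj k :=
  ⟨C, N.comap (IsScalarTower.toAlgHom k B C), D.comap (IsScalarTower.toAlgHom k B C)⟩

variable (C) in
/-- A finite free cover has a transfer. -/
theorem exists_transfer [Nontrivial C] (N D : Pr k B) :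
    ∃ (s : (⟨B, N, D⟩ : Obj k) ⟶ Obj.pull C N D) (p : Obj.pull C N D ⟶ ⟨B, N, D⟩),
      UIso (s ≫ p) := by
  have : Nontrivial B := (algebraMap B C).domain_nontrivial
  refine ⟨⟨(Algebra.trace B C).restrictScalars k, fun φ h => trace_mem_sp N φ h,
    fun φ h h' => trace_mem_sp (N.and D) φ ⟨h, h'⟩⟩,
    Obj.ofAlg (IsScalarTower.toAlgHom k B C) (fun _ h => h) fun _ _ h => h, ?_⟩
  have hn : (Module.finrank B C : ℚ) ≠ 0 := by
    simpa [Module.finrank_eq_zero_iff_of_free] using not_subsingleton C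
  convert UIso.smul hn UIso.id using 1
  refine Obj.hom_ext (LinearMap.ext fun b => (Algebra.trace_algebraMap b).trans ?_)
  rw [Obj.smul_val, Rat.cast_natCast, Nat.cast_smul_eq_nsmul]
  rfl

end Trace

/-- A finite cover of a normal domain by a domain has a transfer. -/
theorem exists_transfer_normal (A C : Type) [CommRing A] [IsDomain A] [IsIntegrallyClosed A]
    [Algebra k A] [CommRing C] [IsDomain C] [Algebra k C] [Algebra A C] [IsScalarTower k A C]
    [Module.Finite A C] (h : Function.Injective (algebraMap A C)) :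
    ∃ (s : Obj.sm k A ⟶ Obj.sm k C) (p : Obj.sm k C ⟶ Obj.sm k A), UIso (s ≫ p) := by
  let K := FractionRing A
  let Ω := AlgebraicClosure K
  have inj := IsFractionRing.injective A K
  have : Nontrivial (K ⊗[A] C) :=
    (Algebra.TensorProduct.includeLeft_injective (S := A) (A := K) h).nontrivial
  obtain ⟨n, y, hy⟩ := exists_trace_eq_sum K (K ⊗[A] C) Ω
  let z : Fin n → (C →ₐ[A] Ω) := fun i =>
    ((y i).restrictScalars A).comp Algebra.TensorProduct.includeRight
  have hz : ∀ i c, IsIntegral A (z i c) := fun i c =>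
    (Algebra.IsIntegral.isIntegral (R := A) c).map (z i)
  choose t ht using fun c : C => (isIntegrallyClosed_iff K).1 ‹_›
    (x := Algebra.trace K (K ⊗[A] C) (1 ⊗ₜ c))
    ((isIntegral_algebraMap_iff (algebraMap K Ω).injective).1
      (by rw [hy]; exact IsIntegral.sum _ fun i _ => hz i c))
  let τ : C →ₗ[k] A :=
    { toFun := t
      map_add' := fun a b => inj (by simp [ht, TensorProduct.tmul_add])
      map_smul' := fun r a => inj (by
        rw [RingHom.id_apply, ← algebraMap_smul A r, ← algebraMap_smul A r, ht, smul_eq_mul,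
          map_mul, ht, TensorProduct.tmul_smul, ← algebraMap_smul K, map_smul, smul_eq_mul]) }
  let w : Fin n → (C →ₐ[k] Aic.plus k A) := fun i =>
    ((z i).codRestrict (integralClosure A Ω) (hz i)).restrictScalars k
  have hw : ∀ c, algebraMap A (Aic.plus k A) (t c) = ∑ i, w i c := fun c => Subtype.ext (by
    rw [AddSubmonoidClass.coe_finsetSum]
    exact ((IsScalarTower.algebraMap_apply A K Ω _).trans (by rw [ht]; rfl)).trans (hy _))
  refine ⟨⟨τ, fun {O} φ _ => ?_, fun _ _ h => h.elim⟩,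
    Obj.smMap (IsScalarTower.toAlgHom k A C), ?_⟩
  · obtain ⟨ψ, rfl⟩ := O.lift (C := Aic.plus k A)
      (fun a b e => inj ((algebraMap K Ω).injective congr(($e).1))) φ
    have : (ψ.comp (IsScalarTower.toAlgHom k A _)).toLinearMap ∘ₗ τ =
        ∑ i, (ψ.comp (w i)).toLinearMap := LinearMap.ext fun c => by
      exact (congrArg ψ (hw c)).trans (by simp)
    rw [this]
    exact sum_mem fun i _ => Sp.pt trivial
  · have hn : (Module.finrank K (K ⊗[A] C) : ℚ) ≠ 0 := by
      exact_mod_cast (Module.finrank_pos (R := K) (M := K ⊗[A] C)).ne'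
    convert UIso.smul hn UIso.id using 1
    refine Obj.hom_ext (LinearMap.ext fun a => inj ?_)
    refine (ht (algebraMap A C a)).trans ?_
    have : (1 : K) ⊗ₜ[A] algebraMap A C a = algebraMap K (K ⊗[A] C) (algebraMap A K a) := by
      rw [← IsScalarTower.algebraMap_apply, Algebra.TensorProduct.algebraMap_apply']
    rw [this, Algebra.trace_algebraMap, Obj.smul_val, Rat.cast_natCast, Nat.cast_smul_eq_nsmul,
      ← map_nsmul]
    rfl

attribute [local instance] Algebra.TensorProduct.rightAlgebra in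
/-- Connected components of an etale algebra over a normal domain are irreducible. -/
theorem exists_component (P B : Type) [CommRing P] [IsDomain P] [IsIntegrallyClosed P]
    [CommRing B] [Algebra P B] [Algebra.Etale P B] {Ω : Type} [Field Ω] (ψ : B →+* Ω)
    (h : Function.Injective (ψ.comp (algebraMap P B))) :
    ∃ e : B, e * e = e ∧ ψ e = 1 ∧ ∀ b, ψ b = 0 → e * b = 0 := by
  let K := FractionRing P
  have : Module.Finite K (K ⊗[P] B) := Algebra.FormallyUnramified.finite_of_free _ _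
  have : IsArtinianRing (K ⊗[P] B) := .of_finite K _
  have : IsReduced (K ⊗[P] B) := Algebra.FormallyUnramified.isReduced_of_field K _
  have : IsSemisimpleRing (K ⊗[P] B) := IsArtinianRing.isSemisimpleRing_of_isReduced _
  have : IsSemisimpleRing (B ⊗[P] K) :=
    (Algebra.TensorProduct.comm P K B).toRingEquiv.isSemisimpleRing
  let χ : B ⊗[P] K →+* Ω := IsLocalization.lift
    (M := Algebra.algebraMapSubmonoid B (nonZeroDivisors P)) (g := ψ) (by
      rintro ⟨_, a, ha, rfl⟩
      exact IsUnit.mk0 _ ((map_ne_zero_iff _ h).2 (nonZeroDivisors.ne_zero ha)))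
  have hχ : ∀ b, χ (algebraMap B _ b) = ψ b := IsLocalization.lift_eq _
  have inj : Function.Injective (algebraMap B (B ⊗[P] K)) :=
    Algebra.TensorProduct.includeLeft_injective (S := P) (IsFractionRing.injective P K)
  obtain ⟨e, he, hI⟩ := IsSemisimpleRing.ideal_eq_span_idempotent (RingHom.ker χ)
  obtain ⟨b, rfl⟩ := exists_eq_tmul_one P B (x := e)
    ⟨Polynomial.X ^ 2 - Polynomial.X, by monicity!, by simp [sq, he.eq]⟩
  have hb : b * b = b := inj (by rw [map_mul, he.eq])
  refine ⟨1 - b, by linear_combination hb, ?_, fun c hc => inj ?_⟩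
  · have : ψ b = 0 := by
      rw [← hχ, ← RingHom.mem_ker, hI]; exact Ideal.mem_span_singleton_self _
    simp [this]
  · rw [← hχ, ← RingHom.mem_ker, hI, Ideal.mem_span_singleton] at hc
    obtain ⟨d, hd⟩ := hc
    rw [map_mul, hd, ← mul_assoc, ← map_mul, sub_mul, hb, one_mul, sub_self, map_zero, zero_mul]

/-- An open and closed subset is a retract. -/
theorem exists_retract_idem {B : Type} [CommRing B] [Algebra k B] {e : B} (he : e * e = e) :
    ∃ (s : Obj.loc k e ⟶ Obj.sm k B) (p : Obj.sm k B ⟶ Obj.loc k e), UIso (s ≫ p) := by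
  have key : ∀ {O : Aic k} (φ : B →ₐ[k] O), φ e = 0 ∨ φ e = 1 := fun φ =>
    IsIdempotentElem.iff_eq_zero_or_one.1 (by rw [IsIdempotentElem, ← map_mul, he])
  refine ⟨Obj.ofAlg (.id k B) (fun _ _ => trivial) fun _ _ h => h,
    ⟨LinearMap.mulLeft k e, fun φ _ => ?_, fun _ _ h => h.elim⟩,
    .of_null_sub (.dead fun φ h => ?_) .id⟩
  · rcases key φ with h | h
    · rw [show φ.toLinearMap ∘ₗ LinearMap.mulLeft k e = 0 from LinearMap.ext fun b => by simp [h]]
      exact zero_mem _
    · rw [show φ.toLinearMap ∘ₗ LinearMap.mulLeft k e = φ.toLinearMap from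
        LinearMap.ext fun b => by simp [h]]
      exact Sp.pt (show IsUnit (φ e) from h ▸ isUnit_one)
  · have h1 : φ e = 1 := (key φ).resolve_left (IsUnit.ne_zero h)
    refine (congrArg (· ∈ _) (LinearMap.ext fun b => ?_)).mpr (zero_mem _)
    change φ (e * b - b) = 0
    simp [h1]

end Pool.Agent.Lib.MP_fc2ced_ag
end

-- part Pool.Agent.Lib.MP_fc2ced_ag.BaseA
section

/-!
Combinations of points: independence, descent, and the exactness statements behind `Tri`.
-/

open CategoryTheory Polynomial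

set_option linter.unusedSectionVars false

namespace Pool.Agent.Lib.MP_fc2ced_ag

variable {k : Type} [Field k] [CharZero k]

section SpS

variable {B C : Type} [CommRing B] [Algebra k B] [CommRing C] [Algebra k C] {O O' : Aic k}

/-- Rational linear combinations of the points of a set. -/
def SpS (S : Set (B →ₐ[k] O)) : AddSubgroup (B →ₗ[k] O) :=
  AddSubgroup.closure {l | ∃ (q : ℚ) (y : B →ₐ[k] O), y ∈ S ∧ l = (q : k) • y.toLinearMap}

theorem Sp_eq (P : Pr k B) (O : Aic k) : Sp P O = SpS {y : B →ₐ[k] O | P.p y} := rfl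

variable {S S' : Set (B →ₐ[k] O)}

theorem SpS.pt {y : B →ₐ[k] O} (h : y ∈ S) : y.toLinearMap ∈ SpS S :=
  AddSubgroup.subset_closure ⟨1, y, h, by simp⟩

theorem SpS.smul (q : ℚ) (l : B →ₗ[k] O) (hl : l ∈ SpS S) : (q : k) • l ∈ SpS S :=
  AddSubgroup.closure_induction
    (fun _ ⟨p, y, hy, hl⟩ => AddSubgroup.subset_closure
      ⟨q * p, y, hy, by rw [hl, smul_smul, Rat.cast_mul]⟩)
    (by rw [smul_zero]; exact zero_mem _) (fun _ _ _ _ h1 h2 => by rw [smul_add]; exact add_mem h1 h2)
    (fun _ _ h => by rw [smul_neg]; exact neg_mem h) hl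

theorem SpS.ind {V : Type} [AddCommGroup V] [Module k V] {H : AddSubgroup V}
    (hH : ∀ (q : ℚ) v, v ∈ H → (q : k) • v ∈ H) (f : (B →ₗ[k] O) →ₗ[k] V)
    (hf : ∀ y ∈ S, f y.toLinearMap ∈ H) {l : B →ₗ[k] O} (hl : l ∈ SpS S) : f l ∈ H :=
  AddSubgroup.closure_induction
    (fun _ ⟨q, y, hy, hl⟩ => by rw [hl, map_smul]; exact hH _ _ (hf y hy))
    (by rw [map_zero]; exact zero_mem _) (fun _ _ _ _ h1 h2 => by rw [map_add]; exact add_mem h1 h2)
    (fun _ _ h => by rw [map_neg]; exact neg_mem h) hl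

theorem SpS.le (h : S ⊆ S') {l : B →ₗ[k] O} (hl : l ∈ SpS S) : l ∈ SpS S' :=
  SpS.ind SpS.smul LinearMap.id (fun _ hy => SpS.pt (h hy)) hl

theorem SpS.pre (γ : C →ₐ[k] B) {T : Set (C →ₐ[k] O)} (h : ∀ y ∈ S, y.comp γ ∈ T)
    {l : B →ₗ[k] O} (hl : l ∈ SpS S) : l ∘ₗ γ.toLinearMap ∈ SpS T :=
  SpS.ind SpS.smul (LinearMap.lcomp k O γ.toLinearMap) (fun y hy => SpS.pt (h y hy)) hl

theorem SpS.post (g : O →ₐ[k] O') {T : Set (B →ₐ[k] O')} (h : ∀ y ∈ S, g.comp y ∈ T)
    {l : B →ₗ[k] O} (hl : l ∈ SpS S) : g.toLinearMap ∘ₗ l ∈ SpS T :=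
  SpS.ind SpS.smul (LinearMap.llcomp k B O O' g.toLinearMap) (fun y hy => SpS.pt (h y hy)) hl

/-- Splitting a combination of points: the points that come from `S`, and those in `T'`. -/
theorem SpS.split (γ : C →ₐ[k] B) {T T' : Set (C →ₐ[k] O)}
    (h : ∀ z ∈ T, (∃ y ∈ S, y.comp γ = z) ∨ z ∈ T') {l : C →ₗ[k] O} (hl : l ∈ SpS T) :
    ∃ m ∈ SpS S, l - m ∘ₗ γ.toLinearMap ∈ SpS T' := by
  refine AddSubgroup.closure_induction ?_ ⟨0, zero_mem _, by simp [zero_mem]⟩ ?_ ?_ hl
  · rintro _ ⟨q, z, hz, rfl⟩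
    rcases h z hz with ⟨y, hy, rfl⟩ | hz
    · refine ⟨_, SpS.smul q _ (SpS.pt hy), ?_⟩
      rw [LinearMap.smul_comp, ← AlgHom.comp_toLinearMap, sub_self]
      exact zero_mem _
    · exact ⟨0, zero_mem _, by simpa using SpS.smul q _ (SpS.pt hz)⟩
  · rintro l l' _ _ ⟨m, hm, e⟩ ⟨m', hm', e'⟩
    refine ⟨m + m', add_mem hm hm', ?_⟩
    rw [LinearMap.add_comp, add_sub_add_comm]
    exact add_mem e e'
  · rintro l _ ⟨m, hm, e⟩
    refine ⟨-m, neg_mem hm, ?_⟩
    rw [LinearMap.neg_comp, neg_sub_neg, ← neg_sub]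
    exact neg_mem e

theorem SpS.mem_span {l : B →ₗ[k] O} (hl : l ∈ SpS S) :
    l ∈ Submodule.span k (AlgHom.toLinearMap '' S) :=
  SpS.ind (H := (Submodule.span k (AlgHom.toLinearMap '' S)).toAddSubgroup)
    (fun _ _ hv => Submodule.smul_mem _ _ hv) LinearMap.id
    (fun y hy => Submodule.subset_span ⟨y, hy, rfl⟩) hl

/-- Independence of points. -/
theorem SpS.eq_zero (γ : C →ₐ[k] B) {T : Set (C →ₐ[k] O)}
    (inj : ∀ y ∈ S, ∀ y' ∈ S, y.comp γ = y'.comp γ → y = y') (dis : ∀ y ∈ S, y.comp γ ∉ T)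
    {m : B →ₗ[k] O} (hm : m ∈ SpS S) (h : m ∘ₗ γ.toLinearMap ∈ SpS T) : m = 0 := by
  have li := linearIndependent_algHom_toLinearMap' k C O
  have h0 : m ∘ₗ γ.toLinearMap = 0 := by
    have h1 : m ∘ₗ γ.toLinearMap ∈ SpS ((fun y : B →ₐ[k] O => y.comp γ) '' S) :=
      SpS.pre γ (fun y hy => Set.mem_image_of_mem _ hy) hm
    have hd : Disjoint ((fun y : B →ₐ[k] O => y.comp γ) '' S) T :=
      Set.disjoint_left.2 (by rintro _ ⟨y, hy, rfl⟩; exact dis y hy)
    exact (Submodule.disjoint_def.1 (li.disjoint_span_image hd)) _ (SpS.mem_span h1)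
      (SpS.mem_span h)
  obtain ⟨c, hc, rfl⟩ := (Finsupp.mem_span_image_iff_linearCombination k).1 (SpS.mem_span hm)
  have h2 : Finsupp.linearCombination k (AlgHom.toLinearMap : (C →ₐ[k] O) → _)
      (c.mapDomain fun y => y.comp γ) = 0 := by
    rw [Finsupp.linearCombination_mapDomain, ← h0]
    exact (Finsupp.apply_linearCombination k (LinearMap.lcomp k O γ.toLinearMap)
      (AlgHom.toLinearMap : (B →ₐ[k] O) → _) c).symm
  have h3 := linearIndependent_iff.1 li _ h2
  have h4 : c = 0 := Finsupp.mapDomain_injOn S (fun y hy y' hy' => inj y hy y' hy')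
    ((Finsupp.mem_supported k c).1 hc) (by simp) (h3.trans Finsupp.mapDomain_zero.symm)
  rw [h4, map_zero]

end SpS

section Descent

variable (A : Type) [CommRing A] [IsDomain A] [Algebra k A]

variable (k) in
/-- The generic geometric point. -/
noncomputable def gpt : A →ₐ[k] Aic.plus k A :=
  IsScalarTower.toAlgHom k A (integralClosure A (AlgebraicClosure (FractionRing A)))

theorem gpt_inj : Function.Injective (gpt k A) := fun x y h => by
  have h1 : algebraMap A (AlgebraicClosure (FractionRing A)) x =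
      algebraMap A (AlgebraicClosure (FractionRing A)) y := congrArg Subtype.val h
  rw [IsScalarTower.algebraMap_apply A (FractionRing A),
    IsScalarTower.algebraMap_apply A (FractionRing A) _ y] at h1
  exact IsFractionRing.injective A (FractionRing A) ((algebraMap (FractionRing A) _).injective h1)

theorem gpt_lift {O : Aic k} (φ : A →ₐ[k] O) :
    ∃ ψ : Aic.plus k A →ₐ[k] O, ψ.comp (gpt k A) = φ :=
  Aic.lift O (C := integralClosure A (AlgebraicClosure (FractionRing A))) (gpt_inj (k := k) A) φ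

/-- Elements fixed by the Galois group descend. -/
theorem gpt_fixed [Algebra.Smooth k A] (x : Aic.plus k A)
    (h : ∀ g : Aic.plus k A ≃ₐ[k] Aic.plus k A, g.toAlgHom.comp (gpt k A) = gpt k A → g x = x) :
    ∃ a, gpt k A a = x := by
  have := normal_of_smooth k A
  have : CharZero A := charZero_of_injective_algebraMap (algebraMap k A).injective
  have h1 : (x.1 : AlgebraicClosure (FractionRing A)) ∈
      Set.range (algebraMap (FractionRing A) (AlgebraicClosure (FractionRing A))) :=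
    (InfiniteGalois.mem_range_algebraMap_iff_fixed _).2 fun f =>
      congrArg Subtype.val (h (((f.restrictScalars A).mapIntegralClosure).restrictScalars k)
        (AlgHom.ext fun a => ((f.restrictScalars A).mapIntegralClosure).commutes a))
  obtain ⟨y, hy⟩ := h1
  have h2 : IsIntegral A y := by
    have h3 : IsIntegral A x.1 := x.2
    rw [← hy] at h3
    exact (isIntegral_algHom_iff (IsScalarTower.toAlgHom A (FractionRing A) _)
      (algebraMap (FractionRing A) _).injective).1 h3
  obtain ⟨a, rfl⟩ := IsIntegrallyClosed.isIntegral_iff.1 h2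
  exact ⟨a, Subtype.ext (by rw [← hy]; exact IsScalarTower.algebraMap_apply _ _ _ _)⟩

variable {A} {B C : Type} [CommRing B] [Algebra k B] [CommRing C] [Algebra k C]

theorem Sp.of_gpt {P : Pr k B} {τ : B →ₗ[k] A} (h : (gpt k A).toLinearMap ∘ₗ τ ∈ Sp P _)
    {O : Aic k} (φ : A →ₐ[k] O) : φ.toLinearMap ∘ₗ τ ∈ Sp P O := by
  obtain ⟨ψ, rfl⟩ := gpt_lift A φ
  exact Sp.post ψ h

/-- Lifting sections modulo the points that satisfy `Q`. -/
theorem descend [Algebra.Smooth k A] (γ : C →ₐ[k] B) (N D : Pr k B) (Q : Pr k C)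
    (inj : ∀ {O : Aic k} (y y' : B →ₐ[k] O), N.p y → ¬ D.p y → N.p y' →
      y.comp γ = y'.comp γ → y = y')
    (dis : ∀ {O : Aic k} (y : B →ₐ[k] O), N.p y → ¬ D.p y → ¬ Q.p (y.comp γ))
    {τ : C →ₗ[k] A} {T : Set (C →ₐ[k] Aic.plus k A)} (hτ : (gpt k A).toLinearMap ∘ₗ τ ∈ SpS T)
    (hT : ∀ z ∈ T, (∃ y, (N.p y ∧ ¬ D.p y) ∧ y.comp γ = z) ∨ Q.p z) :
    ∃ σ : B →ₗ[k] A, (∀ {O : Aic k} (φ : A →ₐ[k] O), φ.toLinearMap ∘ₗ σ ∈ Sp N O) ∧
      ∀ {O : Aic k} (φ : A →ₐ[k] O),
        φ.toLinearMap ∘ₗ (τ - σ ∘ₗ γ.toLinearMap) ∈ Sp Q O := by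
  obtain ⟨m, hm, e⟩ := SpS.split (S := {y | N.p y ∧ ¬ D.p y}) γ (T' := {z | Q.p z}) hT hτ
  have hfix (g : Aic.plus k A ≃ₐ[k] Aic.plus k A) (hg : g.toAlgHom.comp (gpt k A) = gpt k A) :
      g.toAlgHom.toLinearMap ∘ₗ m - m = 0 := by
    have hm' : g.toAlgHom.toLinearMap ∘ₗ m ∈ SpS {y | N.p y ∧ ¬ D.p y} := by
      refine SpS.post g.toAlgHom (fun y hy => ?_) hm
      refine ⟨N.mono _ _ hy.1, fun hd => hy.2 ?_⟩
      have h1 := D.mono g.symm.toAlgHom _ hd
      rwa [show g.symm.toAlgHom.comp (g.toAlgHom.comp y) = y from AlgHom.ext fun _ => by simp] at h1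
    refine SpS.eq_zero (S := {y | N.p y ∧ ¬ D.p y}) γ (T := {z | Q.p z})
      (fun y hy y' hy' => inj y y' hy.1 hy.2 hy'.1) (fun y hy => dis y hy.1 hy.2)
      (sub_mem hm' hm) ?_
    have h1 := sub_mem e (Sp.post (P := Q) g.toAlgHom e)
    have h2 : g.toAlgHom.toLinearMap ∘ₗ (gpt k A).toLinearMap ∘ₗ τ =
        (gpt k A).toLinearMap ∘ₗ τ := by
      rw [← LinearMap.comp_assoc, ← AlgHom.comp_toLinearMap, hg]
    rw [LinearMap.comp_sub, h2, sub_sub_sub_cancel_left] at h1
    rw [LinearMap.sub_comp]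
    exact h1
  have hr (b : B) : ∃ a, gpt k A a = m b :=
    gpt_fixed A _ fun g hg => sub_eq_zero.1 congr($(hfix g hg) b)
  choose s hs using hr
  let σ : B →ₗ[k] A :=
    { toFun := s
      map_add' x y := gpt_inj (k := k) A (by rw [map_add, hs, hs, hs, map_add])
      map_smul' c x := gpt_inj (k := k) A (by rw [map_smul, hs, hs, map_smul]; rfl) }
  have hσ : (gpt k A).toLinearMap ∘ₗ σ = m := LinearMap.ext hs
  refine ⟨σ, fun φ => Sp.of_gpt ?_ φ, fun φ => Sp.of_gpt ?_ φ⟩
  · rw [hσ]; exact SpS.le (fun _ hy => hy.1) hm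
  · rw [LinearMap.comp_sub, ← LinearMap.comp_assoc _ σ, hσ]; exact e

end Descent

section Corr

variable {A B : Type} [CommRing A] [Algebra k A] [CommRing B] [Algebra k B] {τ : B →ₗ[k] A}

theorem Mot.IsCorr.mem_sp (h : Mot.IsCorr k τ) {O : Aic k} (φ : A →ₐ[k] O) :
    φ.toLinearMap ∘ₗ τ ∈ Sp .top O := by
  let j := IsScalarTower.toAlgHom k O (FractionRing O)
  have hj : Function.Injective j := IsFractionRing.injective O (FractionRing O)
  have h1 : ∃ l ∈ Sp (.top : Pr k B) O, j.toLinearMap ∘ₗ l = (j.comp φ).toLinearMap ∘ₗ τ := by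
    refine AddSubgroup.closure_induction ?_ ⟨0, zero_mem _, by simp⟩ ?_ ?_
      (h (FractionRing O) (j.comp φ))
    · rintro _ ⟨q, y, hy, rfl⟩
      obtain ⟨ψ, rfl⟩ := Aic.exists_of_isIntegral O y fun b => by
        have h2 : (j.comp φ).range ≤ j.range := by rintro _ ⟨a, rfl⟩; exact ⟨φ a, rfl⟩
        exact (hy b).map_of_comp_eq
          (((AlgEquiv.ofInjective j hj).symm.toAlgHom.comp (Subalgebra.inclusion h2)).toRingHom)
          (RingHom.id _) (RingHom.ext fun x => congrArg Subtype.val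
            ((AlgEquiv.ofInjective j hj).apply_symm_apply (Subalgebra.inclusion h2 x)))
      exact ⟨_, Sp.smul q _ (Sp.pt (y := ψ) trivial), by rw [LinearMap.comp_smul]; rfl⟩
    · rintro _ _ _ _ ⟨l, hl, rfl⟩ ⟨l', hl', rfl⟩
      exact ⟨l + l', add_mem hl hl', LinearMap.comp_add _ _ _⟩
    · rintro _ _ ⟨l, hl, rfl⟩
      exact ⟨-l, neg_mem hl, LinearMap.comp_neg _ _⟩
  obtain ⟨l, hl, e⟩ := h1
  rwa [show φ.toLinearMap ∘ₗ τ = l from LinearMap.ext fun b => hj congr($e b).symm]

theorem Mot.IsCorr.of_mem_sp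
    (h : ∀ {O : Aic k} (φ : A →ₐ[k] O), φ.toLinearMap ∘ₗ τ ∈ Sp .top O) :
    Mot.IsCorr k τ := by
  intro Ω _ _ _ x
  let O : Aic k :=
    { O := integralClosure x.range Ω
      root := fun p hp hd => by
        have hd' : (p.map (algebraMap (integralClosure x.range Ω) Ω)).degree ≠ 0 := by
          rw [hp.degree_map]; exact hd.ne'
        obtain ⟨z, hz⟩ := IsAlgClosed.exists_root _ hd'
        have hz' : IsIntegral (integralClosure x.range Ω) z :=
          ⟨p, hp, by rwa [IsRoot.def, Polynomial.eval_map] at hz⟩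
        refine ⟨⟨z, isIntegral_trans (R := x.range) z hz'⟩, Subtype.val_injective ?_⟩
        rw [IsRoot.def, Polynomial.eval_map] at hz
        exact (eval₂_at_apply (algebraMap (integralClosure x.range Ω) Ω) _).symm.trans hz }
  let v : O →ₐ[k] Ω := ((integralClosure x.range Ω).val).restrictScalars k
  let φ : A →ₐ[k] O := (IsScalarTower.toAlgHom k x.range (integralClosure x.range Ω)).comp
    x.rangeRestrict
  have e : x.toLinearMap ∘ₗ τ = v.toLinearMap ∘ₗ φ.toLinearMap ∘ₗ τ := rfl
  rw [e]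
  refine AddSubgroup.closure_induction ?_ (by simp [zero_mem]) ?_ ?_ (h φ)
  · rintro _ ⟨q, y, -, rfl⟩
    exact AddSubgroup.subset_closure ⟨q, v.comp y, fun b => (y b).2, by
      rw [LinearMap.comp_smul]; rfl⟩
  · intro _ _ _ _ h1 h2
    rw [LinearMap.comp_add]; exact add_mem h1 h2
  · intro _ _ h1
    rw [LinearMap.comp_neg]; exact neg_mem h1

end Corr

/-- The morphisms with values in dead points. -/
def dead (M M' : Obj k) : AddSubgroup (M ⟶ M') where
  carrier := {f | ∀ {O : Aic k} (φ : M.B →ₐ[k] O), M.N.p φ →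
    φ.toLinearMap ∘ₗ f.1 ∈ Sp (M'.N.and M'.D) O}
  zero_mem' := fun _ _ => by simp [zero_mem]
  add_mem' h1 h2 _ φ h := by
    rw [Obj.add_val, LinearMap.comp_add]; exact add_mem (h1 φ h) (h2 φ h)
  neg_mem' h1 _ φ h := by rw [Obj.neg_val, LinearMap.comp_neg]; exact neg_mem (h1 φ h)

section

variable {M M' M'' : Obj k}

theorem dead_comp {f : M ⟶ M'} (hf : f ∈ dead M M') (g : M' ⟶ M'') : f ≫ g ∈ dead M M'' :=
  fun φ h => Sp.comp (P := M'.N.and M'.D) (fun y hy => g.2.d y hy.1 hy.2) (hf φ h)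

theorem comp_dead (f : M ⟶ M') {g : M' ⟶ M''} (hg : g ∈ dead M' M'') : f ≫ g ∈ dead M M'' :=
  fun φ h => Sp.comp (fun y hy => hg y hy) (f.2.n φ h)

end

namespace Tri

variable {M₁ M₂ M₃ : Obj k} {α : M₂.B →ₐ[k] M₁.B} {β : M₃.B →ₐ[k] M₂.B} (T : Tri M₁ M₂ M₃ α β)

theorem dead_ip : T.i ≫ T.p ∈ dead M₁ M₃ := fun φ h =>
  Sp.pt (y := (φ.comp α).comp β)
    ⟨T.n₂ _ (T.n₁ φ h), (T.d₂ _ (T.n₁ φ h)).2 (.inr ⟨φ, h, rfl⟩)⟩

theorem dead_of_i {X : Obj k} {f : X ⟶ M₁} (hf : f ≫ T.i ∈ dead X M₂) : f ∈ dead X M₁ :=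
  fun {O} φ h => by
    obtain ⟨m, hm, e⟩ := SpS.split (S := {y | M₁.N.p y ∧ ¬ M₁.D.p y}) (.id k _)
      (T' := {y | (M₁.N.and M₁.D).p y})
      (fun z hz => (em (M₁.D.p z)).symm.imp (fun hd => ⟨z, ⟨hz, hd⟩, rfl⟩) fun hd => ⟨hz, hd⟩)
      (f.2.n φ h)
    have h0 : m = 0 := by
      refine SpS.eq_zero α (T := {y | (M₂.N.and M₂.D).p y})
        (fun y hy y' hy' => T.inj₁ y y' hy.1 hy.2 hy'.1)
        (fun y hy hd => hy.2 ((T.d₁ y hy.1).2 hd.2)) hm ?_
      have h1 := sub_mem (hf φ h) (SpS.pre α (T := {y | (M₂.N.and M₂.D).p y})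
        (fun y hy => ⟨T.n₁ y hy.1, (T.d₁ y hy.1).1 hy.2⟩) e)
      rw [LinearMap.sub_comp] at h1
      simpa [LinearMap.comp_assoc, Sp_eq] using h1
    simpa [h0, Sp_eq] using e

variable {A : Type} [CommRing A] [IsDomain A] [Algebra k A] [Algebra.Smooth k A]

theorem exists_lift_p (f : Obj.sm k A ⟶ M₃) :
    ∃ g : Obj.sm k A ⟶ M₂, f - g ≫ T.p ∈ dead _ M₃ := by
  obtain ⟨σ, h1, h2⟩ := descend β M₂.N (M₃.D.comap β) (M₃.N.and M₃.D) T.inj₂
    (fun y _ hd h => hd h.2) (f.2.n (gpt k A) trivial) fun z hz =>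
      (em (M₃.D.p z)).symm.imp (fun hd => by
        obtain ⟨y, hy, rfl⟩ := T.surj z hz hd
        exact ⟨y, ⟨hy, hd⟩, rfl⟩) fun hd => ⟨hz, hd⟩
  exact ⟨⟨σ, fun φ _ => h1 φ, fun _ _ h => h.elim⟩, fun φ _ => h2 φ⟩

theorem exists_lift_i {f : Obj.sm k A ⟶ M₂} (hf : f ≫ T.p ∈ dead _ M₃) :
    ∃ g : Obj.sm k A ⟶ M₁, f - g ≫ T.i ∈ dead _ M₂ := by
  have T' : Tri ⟨M₂.B, M₂.N, M₃.D.comap β⟩ M₃ ⟨M₃.B, M₃.N, .top⟩ β (.id k _) :=
    ⟨T.n₂, fun _ _ => Iff.rfl, T.inj₂, fun _ h => h, fun ψ h =>
      iff_of_true trivial ((em _).imp_right (T.surj ψ h)), fun _ _ _ h => (h trivial).elim,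
      fun _ _ h => (h trivial).elim⟩
  have h0 := T'.dead_of_i (X := Obj.sm k A) (f := ⟨f.1, f.2.n, fun _ _ h => h.elim⟩) hf
    (gpt k A) trivial
  obtain ⟨σ, h1, h2⟩ := descend α M₁.N M₁.D (M₂.N.and M₂.D) T.inj₁
    (fun y hy hd h => hd ((T.d₁ y hy).2 h.2)) h0 fun z hz =>
      (em (M₂.D.p z)).symm.imp (fun hd => by
        obtain ⟨y, hy, rfl⟩ := ((T.d₂ z hz.1).1 hz.2).resolve_left hd
        exact ⟨y, ⟨hy, mt (T.d₁ y hy).1 hd⟩, rfl⟩) fun hd => ⟨hz.1, hd⟩
  exact ⟨⟨σ, fun φ _ => h1 φ, fun _ _ h => h.elim⟩, fun φ _ => h2 φ⟩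

end Tri

end Pool.Agent.Lib.MP_fc2ced_ag
end
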