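import Mathlib

/-!
Motives with rational coefficients over a field `k` of characteristic zero.

A finite correspondence from a smooth affine variety `Spec A` to `Spec B` is recorded by its trace
map `B → A` (in characteristic zero this map determines the correspondence, and composition of
correspondences is composition of trace maps).
-/

open CategoryTheory CategoryTheory.Limits CategoryTheory.Pretriangulated
open scoped TensorProduct

namespace Pool.Agent.Lib.MP_fc2ced_ag.Mot

section Verdier

variable {𝒜 : Type 1} [Category.{1} 𝒜] [Abelian 𝒜]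

/-- The map `u` of cokernels is induced by `c`. -/
def Induced {X X' Y Y' : 𝒜} {a : X' ⟶ X} {b : Y' ⟶ Y} (c : X ⟶ Y)
    (u : cokernel a ⟶ cokernel b) : Prop := cokernel.π a ≫ u = c ≫ cokernel.π b

variable [HasDerivedCategory.{1} 𝒜] (W : ∀ F G : 𝒜, (F ⟶ G) → Prop)

/-- The thick subcategory of the derived category generated by the cones of the maps in `W`. -/
def Thick : ObjectProperty (DerivedCategory 𝒜) :=
  ObjectProperty.triangEnvelope fun Z => ∃ (F G : 𝒜) (u : F ⟶ G), W F G u ∧ ∃ v w,
    Triangle.mk (Z := Z) ((DerivedCategory.singleFunctor 𝒜 0).map u) v w ∈ distTriang _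

/-- The functor to the Verdier quotient of the derived category by `Thick W`. -/
noncomputable def mot : 𝒜 ⥤ (Thick W).trW.Localization :=
  DerivedCategory.singleFunctor 𝒜 0 ⋙ (Thick W).trW.Q

/-- The map `u` becomes zero in the Verdier quotient. -/
def Killed {F G : 𝒜} (u : F ⟶ G) : Prop := (mot W).map u = (mot W).map 0

end Verdier

section
variable {C D : Type*} [Category C] [Category D] [Preadditive C] [Abelian D]

open ZeroObject in
instance : (additiveFunctor C D).ContainsZero :=
  ⟨0, isZero_zero _, inferInstanceAs (Functor.Additive (0 : C ⥤ D))⟩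

instance : (additiveFunctor C D).IsClosedUnderSubobjects where
  prop_of_mono {F G} i _ (hG : G.Additive) := ⟨fun {X Y f g} => by
    simp [← cancel_mono (i.app Y)]⟩

instance : (additiveFunctor C D).IsClosedUnderQuotients where
  prop_of_epi {F G} p _ (hF : F.Additive) := ⟨fun {X Y f g} => by
    rw [← cancel_epi (p.app X), Preadditive.comp_add, ← p.naturality, ← p.naturality,
      ← p.naturality, F.map_add, Preadditive.add_comp]⟩

instance : (additiveFunctor C D).IsClosedUnderFiniteProducts :=
  .of_isClosedUnderLimitsOfShape fun (J : Type) _ => ⟨fun F ⟨⟨p, hp⟩⟩ => ⟨fun {X Y f g} =>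
    (isLimitOfPreserves ((evaluation C D).obj Y) p.isLimit).hom_ext fun j => by
      have : (p.diag.obj j).Additive := hp j
      simp⟩⟩

end

section Presheaves

variable {C : Type 1} [Category.{0} C] [Preadditive C] (P : ObjectProperty C)

/-- Additive presheaves of abelian groups on the full subcategory defined by `P`. -/
abbrev AddPsh := (additiveFunctor P.FullSubcategoryᵒᵖ AddCommGrpCat.{0}).FullSubcategory

theorem additive_rep (X : C) : additiveFunctor P.FullSubcategoryᵒᵖ AddCommGrpCat.{0}
    ((preadditiveYoneda ⋙ (Functor.whiskeringLeft _ _ _).obj P.ι.op).obj X) :=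
  inferInstanceAs (P.ι.op ⋙ preadditiveYoneda.obj X).Additive

/-- The presheaf `U ↦ Hom(U, X)` represented by an object `X` of the ambient category. -/
def rep : C ⥤ AddPsh P :=
  ObjectProperty.lift _ (preadditiveYoneda ⋙ (Functor.whiskeringLeft _ _ _).obj P.ι.op)
    (additive_rep P)

end Presheaves

variable (k : Type) [Field k] [CharZero k]

section
variable {A B C : Type} [CommRing A] [Algebra k A] [CommRing B] [Algebra k B] [CommRing C]
  [Algebra k C]

variable (B) in
/-- The rational linear combinations of points `y` of `Spec B` that are integral over `x(A)`. -/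
def cycles {Ω : Type} [Field Ω] [Algebra k Ω] (x : A →ₐ[k] Ω) : AddSubgroup (B →ₗ[k] Ω) :=
  AddSubgroup.closure {l : B →ₗ[k] Ω | ∃ (q : ℚ) (y : B →ₐ[k] Ω),
    (∀ b, IsIntegral x.range (y b)) ∧ l = (q : k) • y.toLinearMap}

/-- `τ : B → A` is the trace map of a finite correspondence with rational coefficients from
`Spec A` to `Spec B`: at each geometric point `x` of `Spec A`, the functional `x ∘ τ` is a rational
linear combination of geometric points `y` of `Spec B` that are integral over `x(A)`. -/
def IsCorr (τ : B →ₗ[k] A) : Prop :=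
  ∀ (Ω : Type) [Field Ω] [IsAlgClosed Ω] [Algebra k Ω] (x : A →ₐ[k] Ω),
    x.toLinearMap ∘ₗ τ ∈ cycles k B x

variable {k}

theorem IsCorr.algHom (φ : B →ₐ[k] A) : IsCorr k φ.toLinearMap := fun _ _ _ _ x =>
  AddSubgroup.subset_closure ⟨1, x.comp φ, fun b =>
    isIntegral_algebraMap (x := (⟨x (φ b), _, rfl⟩ : x.range)), by ext; simp⟩

theorem IsCorr.comp {τ : B →ₗ[k] A} {σ : C →ₗ[k] B} (hτ : IsCorr k τ) (hσ : IsCorr k σ) :
    IsCorr k (τ ∘ₗ σ) := fun Ω _ _ _ x => by
  rw [← LinearMap.comp_assoc]
  refine AddSubgroup.closure_induction (fun l ⟨q, y, hy, hl⟩ => ?_) (by simp [zero_mem])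
    (fun _ _ _ _ h1 h2 => by rw [LinearMap.add_comp]; exact add_mem h1 h2)
    (fun _ _ h => by rw [LinearMap.neg_comp]; exact neg_mem h) (hτ Ω x)
  rw [hl, LinearMap.smul_comp]
  refine AddSubgroup.closure_induction (fun l ⟨p, z, hz, hl⟩ => ?_)
    (by rw [smul_zero]; exact zero_mem _)
    (fun _ _ _ _ h1 h2 => by rw [smul_add]; exact add_mem h1 h2)
    (fun _ _ h => by rw [smul_neg]; exact neg_mem h) (hσ Ω y)
  refine AddSubgroup.subset_closure ⟨q * p, z, fun c => ?_, by rw [hl, smul_smul, Rat.cast_mul]⟩
  have h : y.range ≤ (integralClosure x.range Ω).restrictScalars k := by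
    rintro _ ⟨b, rfl⟩
    exact hy b
  exact isIntegral_trans (R := x.range) (A := integralClosure x.range Ω) (z c)
    ((hz c).map_of_comp_eq (Subalgebra.inclusion h).toRingHom (RingHom.id Ω) rfl)

theorem IsCorr.zero : IsCorr k (0 : B →ₗ[k] A) := fun _ _ _ _ _ => by simp [zero_mem]

theorem IsCorr.add {τ σ : B →ₗ[k] A} (h1 : IsCorr k τ) (h2 : IsCorr k σ) : IsCorr k (τ + σ) :=
  fun Ω _ _ _ x => by rw [LinearMap.comp_add]; exact add_mem (h1 Ω x) (h2 Ω x)

theorem IsCorr.neg {τ : B →ₗ[k] A} (h : IsCorr k τ) : IsCorr k (-τ) :=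
  fun Ω _ _ _ x => by rw [LinearMap.comp_neg]; exact neg_mem (h Ω x)

variable (k A B) in
/-- The group of finite correspondences with rational coefficients from `Spec A` to `Spec B`. -/
def corr : AddSubgroup (B →ₗ[k] A) where
  carrier := {τ | IsCorr k τ}
  zero_mem' := IsCorr.zero
  add_mem' := IsCorr.add
  neg_mem' := IsCorr.neg

variable (k A B) in
/-- The same group, as a type. -/
def Corr : Type := corr k A B

instance : AddCommGroup (Corr k A B) := (corr k A B).toAddCommGroup

/-- The trace map of a correspondence. -/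
def Corr.tr (f : Corr k A B) : B →ₗ[k] A := f.1

/-- The graph of a morphism of schemes. -/
def graph (φ : B →ₐ[k] A) : Corr k A B := ⟨φ.toLinearMap, IsCorr.algHom φ⟩

/-- Composition of correspondences. -/
def Corr.comp (f : Corr k A B) (g : Corr k B C) : Corr k A C := ⟨f.1 ∘ₗ g.1, IsCorr.comp f.2 g.2⟩

variable (k A) in
/-- The identity correspondence. -/
def Corr.id : Corr k A A := graph (AlgHom.id k A)

theorem Corr.id_comp (f : Corr k A B) : (Corr.id k A).comp f = f :=
  Subtype.ext (LinearMap.id_comp f.1)

theorem Corr.comp_id (f : Corr k A B) : f.comp (Corr.id k B) = f :=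
  Subtype.ext (LinearMap.comp_id f.1)

theorem Corr.assoc {D : Type} [CommRing D] [Algebra k D] (f : Corr k A B) (g : Corr k B C)
    (h : Corr k C D) : (f.comp g).comp h = f.comp (g.comp h) :=
  Subtype.ext (LinearMap.comp_assoc h.1 g.1 f.1)

theorem Corr.add_comp (f g : Corr k A B) (h : Corr k B C) :
    (f + g).comp h = f.comp h + g.comp h := Subtype.ext (LinearMap.add_comp h.1 g.1 f.1)

theorem Corr.comp_add (f : Corr k A B) (g h : Corr k B C) :
    f.comp (g + h) = f.comp g + f.comp h := Subtype.ext (LinearMap.comp_add g.1 h.1 f.1)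

/-- A Nisnevich square: `Spec B → Spec A` is etale, with smooth target, and is an isomorphism over
the zero scheme of the function `f`, whose pull-back is `g`. -/
def IsNis (φ : A →ₐ[k] B) (f : A) (g : B) : Prop :=
  Algebra.Smooth k A ∧ φ.toRingHom.Etale ∧ φ f = g ∧ Function.Bijective
    (Ideal.quotientMap ((Ideal.span {f}).map φ.toRingHom) φ.toRingHom Ideal.le_comap_map)

end

/-- Affine schemes over `k`, given by their rings of functions. -/
structure Cor where
  A : Type
  [ring : CommRing A]
  [alg : Algebra k A]

attribute [instance] Cor.ring Cor.alg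

/-- The category of affine schemes and finite correspondences. -/
instance : Category (Cor k) where
  Hom X Y := Corr k X.A Y.A
  id X := Corr.id k X.A
  comp := Corr.comp
  id_comp := Corr.id_comp
  comp_id := Corr.comp_id
  assoc := Corr.assoc

instance : Preadditive (Cor k) where
  homGroup X Y := (inferInstance : AddCommGroup (Corr k X.A Y.A))
  add_comp _ _ _ := Corr.add_comp
  comp_add _ _ _ := Corr.comp_add

/-- Connected smooth affine varieties. -/
def SmAff : ObjectProperty (Cor k) := fun X => IsDomain X.A ∧ Algebra.Smooth k X.A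

/-- Presheaves with transfers: additive contravariant functors on connected smooth affine
varieties and finite correspondences. -/
def PST : Type 1 := AddPsh (SmAff k)

instance : Category.{1} (PST k) := ObjectProperty.FullSubcategory.category _

noncomputable instance : Abelian (PST k) := (inferInstance : Abelian (AddPsh (SmAff k)))

noncomputable instance : HasDerivedCategory.{1} (PST k) := HasDerivedCategory.standard _

/-- The presheaf with transfers represented by an affine scheme. -/
def L : Cor k ⥤ PST k := rep (SmAff k)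

section
variable {k} (X : Cor k)

/-- The product with the affine line. -/
noncomputable def line : Cor k := ⟨Polynomial X.A⟩

/-- The projection from the product with the affine line. -/
noncomputable def proj : line X ⟶ X := graph (Polynomial.CAlgHom : X.A →ₐ[k] Polynomial X.A)

/-- The open subset where `f` is invertible. -/
noncomputable def away (f : X.A) : Cor k := ⟨Localization.Away f⟩

/-- The inclusion of the open subset where `f` is invertible. -/
noncomputable def incl (f : X.A) : away X f ⟶ X :=
  graph (IsScalarTower.toAlgHom k X.A (Localization.Away f))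

end

/-- The maps of presheaves that are inverted in the category of motives: the projections
`X × 𝔸¹ → X`, and the excision maps `X' / X'_f → X / X_f` of Nisnevich squares. -/
inductive Gen : ∀ F G : PST k, (F ⟶ G) → Prop
  | line (X : Cor k) (h : Algebra.Smooth k X.A) : Gen _ _ ((L k).map (proj X))
  | nis (X X' : Cor k) (φ : X.A →ₐ[k] X'.A) (f : X.A) (f' : X'.A) (h : IsNis φ f f')
      (u : cokernel ((L k).map (incl X' f')) ⟶ cokernel ((L k).map (incl X f)))
      (hu : Induced ((L k).map (graph φ : X' ⟶ X)) u) : Gen _ _ u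

/-- The idempotents `e_λ`: the primitive central idempotents of the group algebra. -/
structure IsBlock {G : Type} [Group G] (e : MonoidAlgebra ℚ G) : Prop where
  ne : e ≠ 0
  idem : e * e = e
  central : ∀ r, r * e = e * r
  prim : ∀ e', e' * e' = e' → (∀ r, r * e' = e' * r) → e' * e = 0 ∨ e' * e = e

section
variable (B : Type) [CommRing B] [Algebra k B]

/-- The ring of functions on `X ^ n`, for `X = Spec B`. -/
def Pow (n : ℕ) : Type := ⨂[k] _ : Fin n, B

noncomputable instance (n : ℕ) : CommRing (Pow k B n) := PiTensorProduct.instCommRing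

noncomputable instance (n : ℕ) : Algebra k (Pow k B n) := PiTensorProduct.instAlgebra

/-- A permutation of the factors of `X ^ n`. -/
noncomputable def permute {n : ℕ} (σ : Equiv.Perm (Fin n)) : Pow k B n →ₗ[k] Pow k B n :=
  (PiTensorProduct.reindex k (fun _ => B) σ).toLinearMap

/-- The action of `e` on the functions on `X ^ n`, by permutations of the factors. -/
noncomputable def permAct {n : ℕ} (e : MonoidAlgebra ℚ (Equiv.Perm (Fin n))) :
    Pow k B n →ₗ[k] Pow k B n := ∑ σ, (e.coeff σ : k) • permute k B σ

/-- The idempotent `1 - π` of the multiplicative group, where `π` is the constant map with value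
one. It cuts out the Tate motive `ℚ(1)[1]`. -/
noncomputable def tate : LaurentPolynomial k →ₗ[k] LaurentPolynomial k :=
  LinearMap.id - Algebra.linearMap k _ ∘ₗ
    (AddMonoidAlgebra.lift k k ℤ 1 : LaurentPolynomial k →ₐ[k] k).toLinearMap

/-- The idempotent `(1 - π) ^ (⊗ m)` of `𝔾_m ^ m`. -/
noncomputable def tatePow (m : ℕ) :
    Pow k (LaurentPolynomial k) m →ₗ[k] Pow k (LaurentPolynomial k) m :=
  PiTensorProduct.map fun _ => tate k

/-- The scheme `X ^ n × 𝔾_m ^ m`, for `X = Spec B`. -/
noncomputable def Pw (n m : ℕ) : Cor k := ⟨Pow k B n ⊗[k] Pow k (LaurentPolynomial k) m⟩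

/-- The idempotent `e ⊗ (1 - π) ^ (⊗ m)` of `X ^ n × 𝔾_m ^ m`. -/
noncomputable def idem {n : ℕ} (e : MonoidAlgebra ℚ (Equiv.Perm (Fin n))) (m : ℕ) :
    (Pw k B n m).A →ₗ[k] (Pw k B n m).A := TensorProduct.map (permAct k B e) (tatePow k m)

/-- The motive of `X = Spec B` is Schur-finite in geometric motives (where the Tate motive is
inverted): for some `n ≥ 1`, some idempotent `e_λ` of `ℚ[𝔖_n]` and some `m`, the idempotent
`e_λ ⊗ (1 - π) ^ (⊗ m)` of `X ^ n × 𝔾_m ^ m`, which cuts out `S_λ(M(X))(m)[m]`, is zero in the
category of effective motives, the Verdier quotient of the derived category of presheaves with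
transfers by the cones of the maps `Gen`. -/
def SchurFinite : Prop :=
  ∃ (n m : ℕ) (e : MonoidAlgebra ℚ (Equiv.Perm (Fin n))), 0 < n ∧ IsBlock e ∧
    ∃ τ : Pw k B n m ⟶ Pw k B n m, Corr.tr τ = idem k B e m ∧ Killed (Gen k) ((L k).map τ)

end

end Pool.Agent.Lib.MP_fc2ced_ag.Mot
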