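import Pool.Agent.Lib.MP_fc2ced_ag.EDefs

/-!
Absolutely integrally closed domains, lifting of points, normality of smooth domains (adapted
from the characteristic zero files of helper27).
-/

open CategoryTheory
open scoped TensorProduct Polynomial

namespace Pool.Agent.Lib.MP_fc2ced_ag.E

variable {k : Type} [Field k]

/-- Integral elements of an extension domain come from the ring. -/
theorem Aic.mem_range (O : Aic k) {L : Type} [CommRing L] [IsDomain L] [Algebra O L] {x : L}
    (hx : IsIntegral O x) : ∃ y, algebraMap O L y = x := by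
  obtain ⟨p, hp, hx⟩ := hx
  rw [← Polynomial.aeval_def] at hx
  induction hn : p.natDegree generalizing p with
  | zero =>
    rw [hp.natDegree_eq_zero.1 hn] at hx
    simp at hx
  | succ n ih =>
    obtain ⟨a, ha⟩ := O.root p hp (Polynomial.natDegree_pos_iff_degree_pos.1 (by omega))
    obtain ⟨q, rfl⟩ := Polynomial.dvd_iff_isRoot.2 ha
    have hq : q.Monic := (Polynomial.monic_X_sub_C a).of_mul_monic_left hp
    rw [(Polynomial.monic_X_sub_C a).natDegree_mul hq, Polynomial.natDegree_X_sub_C] at hn
    rw [map_mul, mul_eq_zero] at hx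
    rcases hx with hx | hx
    · exact ⟨a, (sub_eq_zero.1 (by simpa using hx)).symm⟩
    · exact ih q hq hx (by omega)

instance Aic.isIntegrallyClosed (O : Aic k) : IsIntegrallyClosed O :=
  (isIntegrallyClosed_iff (FractionRing O)).2 O.mem_range

instance Aic.isAlgClosed_frac (O : Aic k) : IsAlgClosed (FractionRing O) := by
  refine IsAlgClosed.of_exists_root _ fun p hp hi => ?_
  obtain ⟨z, hz⟩ := IsAlgClosed.exists_aeval_eq_zero (AlgebraicClosure (FractionRing O)) p
    (Polynomial.degree_pos_of_irreducible hi).ne'
  have ha : IsAlgebraic O z :=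
    (IsFractionRing.isAlgebraic_iff O (FractionRing O) _).2 ⟨p, hp.ne_zero, hz⟩
  obtain ⟨d, hd, hi⟩ := ha.exists_integral_multiple
  obtain ⟨y, hy⟩ := O.mem_range hi
  have hd' : algebraMap O (FractionRing O) d ≠ 0 := by simpa using hd
  refine ⟨algebraMap O _ y / algebraMap O _ d, ?_⟩
  have : z = algebraMap (FractionRing O) _ (algebraMap O _ y / algebraMap O _ d) := by
    rw [map_div₀, eq_div_iff (by simpa using hd), ← IsScalarTower.algebraMap_apply,
      ← IsScalarTower.algebraMap_apply, hy, Algebra.smul_def, mul_comm]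
  rw [this, Polynomial.aeval_algebraMap_apply] at hz
  simpa using hz

variable (k) in
/-- An algebraically closed field. -/
abbrev Aic.ofField (Ω : Type) [Field Ω] [IsAlgClosed Ω] [Algebra k Ω] : Aic k :=
  ⟨Ω, fun p _ hp => IsAlgClosed.exists_root p hp.ne'⟩

theorem integralClosure_root {A Ω : Type} [CommRing A] [Field Ω] [IsAlgClosed Ω] [Algebra A Ω]
    (p : (integralClosure A Ω)[X]) (hp : p.Monic) (hd : 0 < p.degree) : ∃ x, p.IsRoot x := by
  obtain ⟨z, hz⟩ := IsAlgClosed.exists_aeval_eq_zero_of_injective Ω
    (R := integralClosure A Ω) Subtype.val_injective p hd.ne'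
  have hi : IsIntegral A z := isIntegral_trans (A := integralClosure A Ω) z ⟨p, hp, hz⟩
  refine ⟨⟨z, hi⟩, Subtype.val_injective ?_⟩
  have := Polynomial.aeval_algebraMap_apply Ω (⟨z, hi⟩ : integralClosure A Ω) p
  rw [Polynomial.coe_aeval_eq_eval] at this
  exact this.symm.trans hz

variable (k) in
/-- The absolute integral closure of a domain. -/
noncomputable abbrev Aic.plus (A : Type) [CommRing A] [IsDomain A] [Algebra k A] : Aic k :=
  { O := integralClosure A (AlgebraicClosure (FractionRing A))
    root := integralClosure_root }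

/-- A point in the fraction field whose values are integral is a point. -/
theorem Aic.exists_of_isIntegral (O : Aic k) {C : Type} [CommRing C] [Algebra k C]
    (y : C →ₐ[k] FractionRing O) (h : ∀ c, IsIntegral O (y c)) :
    ∃ ψ : C →ₐ[k] O, (IsScalarTower.toAlgHom k O _).comp ψ = y := by
  choose f hf using fun c => O.mem_range (h c)
  have inj := IsFractionRing.injective O (FractionRing O)
  exact ⟨{ toFun := f
           map_one' := inj (by simp [hf])
           map_mul' := fun a b => inj (by simp [hf])
           map_zero' := inj (by simp [hf])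
           map_add' := fun a b => inj (by simp [hf])
           commutes' := fun r => inj (by
             rw [hf, AlgHom.commutes, ← IsScalarTower.algebraMap_apply]) }, AlgHom.ext hf⟩

theorem exists_lift_field {A C Ω : Type} [CommRing A] [CommRing C] [Algebra A C]
    [Algebra.IsIntegral A C] (h : Function.Injective (algebraMap A C)) [Field Ω] [IsAlgClosed Ω]
    (φ : A →+* Ω) : ∃ ψ : C →+* Ω, ψ.comp (algebraMap A C) = φ := by
  have : (RingHom.ker φ).IsPrime := RingHom.ker_isPrime φ
  obtain ⟨Q, -, hQ, hP⟩ := Ideal.exists_ideal_over_prime_of_isIntegral (RingHom.ker φ)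
    (⊥ : Ideal C) (by
      rw [← RingHom.ker_eq_comap_bot, (RingHom.injective_iff_ker_eq_bot _).1 h]; exact bot_le)
  have : Q.LiesOver (RingHom.ker φ) := ⟨hP.symm⟩
  let _ : Algebra (A ⧸ RingHom.ker φ) Ω := φ.kerLift.toAlgebra
  have : FaithfulSMul (A ⧸ RingHom.ker φ) Ω :=
    (faithfulSMul_iff_algebraMap_injective _ _).2 φ.kerLift_injective
  have : Module.IsTorsionFree (A ⧸ RingHom.ker φ) (C ⧸ Q) :=
    Module.isTorsionFree_iff_faithfulSMul.2 inferInstance
  let ψ : (C ⧸ Q) →ₐ[A ⧸ RingHom.ker φ] Ω := IsAlgClosed.lift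
  refine ⟨ψ.toRingHom.comp (Ideal.Quotient.mk Q), RingHom.ext fun a => ?_⟩
  exact ψ.commutes (Ideal.Quotient.mk _ a)

/-- Points lift along injective integral homomorphisms. -/
theorem Aic.lift (O : Aic k) {A C : Type} [CommRing A] [Algebra k A] [CommRing C] [Algebra k C]
    [Algebra A C] [IsScalarTower k A C] [Algebra.IsIntegral A C]
    (h : Function.Injective (algebraMap A C)) (φ : A →ₐ[k] O) :
    ∃ ψ : C →ₐ[k] O, ψ.comp (IsScalarTower.toAlgHom k A C) = φ := by
  obtain ⟨ψ, hψ⟩ := exists_lift_field h
    ((algebraMap O (FractionRing O)).comp (φ : A →+* O))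
  have e : ∀ a, ψ (algebraMap A C a) = algebraMap O _ (φ a) := fun a => congr($hψ a)
  obtain ⟨χ, hχ⟩ := O.exists_of_isIntegral (C := C)
    ⟨ψ, fun r => (congrArg ψ (IsScalarTower.algebraMap_apply k A C r)).trans <| by
      rw [e, φ.commutes, ← IsScalarTower.algebraMap_apply]⟩
    fun c => (Algebra.IsIntegral.isIntegral (R := A) c).map_of_comp_eq (φ : A →+* O) ψ hψ.symm
  refine ⟨χ, AlgHom.ext fun a => IsFractionRing.injective O (FractionRing O) ?_⟩
  exact (congr($hχ (algebraMap A C a))).trans (e a)

/-- Smooth base change of a normal domain is integrally closed in the generic fibre. -/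
theorem exists_eq_tmul_one (P B : Type) [CommRing P] [IsDomain P] [IsIntegrallyClosed P]
    [CommRing B] [Algebra P B] [Algebra.Smooth P B] {x : B ⊗[P] FractionRing P}
    (hx : IsIntegral B x) : ∃ b : B, algebraMap B _ b = x := by
  obtain ⟨y, hy⟩ := (TensorProduct.toIntegralClosure_bijective_of_smooth (R := P) (S := B)
    (B := FractionRing P)).2 ⟨x, hx⟩
  obtain rfl : (Algebra.TensorProduct.map (.id B B) (integralClosure P _).val) y = x :=
    congr(($hy).1)
  clear hy hx
  induction y with
  | zero => exact ⟨0, by simp⟩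
  | tmul b c =>
    obtain ⟨a, ha⟩ := (isIntegrallyClosed_iff (FractionRing P)).1 ‹_› c.2
    refine ⟨a • b, ?_⟩
    rw [Algebra.TensorProduct.map_tmul, Subalgebra.coe_val, ← ha, Algebra.algebraMap_eq_smul_one a,
      ← TensorProduct.smul_tmul]
    rfl
  | add x y hx hy =>
    obtain ⟨a, ha⟩ := hx
    obtain ⟨b, hb⟩ := hy
    exact ⟨a + b, by rw [map_add, map_add, ha, hb]⟩

attribute [local instance] Algebra.TensorProduct.rightAlgebra in
theorem normal_of_etale (P B : Type) [CommRing P] [IsDomain P] [IsIntegrallyClosed P]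
    [CommRing B] [IsDomain B] [Algebra P B] [Algebra.Etale P B] : IsIntegrallyClosed B := by
  have hM : Algebra.algebraMapSubmonoid B (nonZeroDivisors P) ≤ nonZeroDivisors B := by
    rintro _ ⟨a, ha, rfl⟩
    refine mem_nonZeroDivisors_of_ne_zero ?_
    rw [Algebra.algebraMap_eq_smul_one]
    exact smul_ne_zero (nonZeroDivisors.ne_zero ha) one_ne_zero
  let L := B ⊗[P] FractionRing P
  have : IsDomain L := IsLocalization.isDomain_of_le_nonZeroDivisors L hM
  have : Module.Finite (FractionRing P) (FractionRing P ⊗[P] B) :=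
    Algebra.FormallyUnramified.finite_of_free _ _
  have : Module.Finite (FractionRing P) L :=
    .equiv (Algebra.TensorProduct.commRight P (FractionRing P) B).toLinearEquiv
  let _ : Field L := (isField_of_isIntegral_of_isField' (R := FractionRing P)
    (Field.toIsField _)).toField
  have inj := IsLocalization.injective L hM
  have : FaithfulSMul B L := (faithfulSMul_iff_algebraMap_injective _ _).2 inj
  have : IsFractionRing B L := .of_field _ _ fun z => by
    obtain ⟨⟨x, y⟩, h⟩ := IsLocalization.surj (Algebra.algebraMapSubmonoid B (nonZeroDivisors P)) z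
    exact ⟨x, y, eq_div_of_mul_eq (IsLocalization.map_units L y).ne_zero h⟩
  exact (isIntegrallyClosed_iff L).2 (exists_eq_tmul_one P B)

variable (k) in
theorem normal_of_smooth (A : Type) [CommRing A] [IsDomain A] [Algebra k A] [Algebra.Smooth k A] :
    IsIntegrallyClosed A := by
  refine .of_localization_maximal fun p _ _ => ?_
  obtain ⟨f, hf, n, _, _, _⟩ :=
    Algebra.IsSmoothAt.exists_isStandardEtale_mvPolynomial (R := k) (p := p)
  have h0 : f ≠ 0 := fun h => hf (h ▸ p.zero_mem)
  have : IsDomain (Localization.Away f) :=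
    IsLocalization.isDomain_localization (powers_le_nonZeroDivisors_of_noZeroDivisors h0)
  have := normal_of_etale (MvPolynomial (Fin n) k) (Localization.Away f)
  have hle : Submonoid.powers f ≤ p.primeCompl := Submonoid.powers_le.2 hf
  let _ := IsLocalization.localizationAlgebraOfSubmonoidLe (Localization.Away f)
    (Localization.AtPrime p) _ _ hle
  have := IsLocalization.localization_isScalarTower_of_submonoid_le (Localization.Away f)
    (Localization.AtPrime p) _ _ hle
  have := IsLocalization.isLocalization_of_submonoid_le (Localization.Away f)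
    (Localization.AtPrime p) _ _ hle
  refine isIntegrallyClosed_of_isLocalization (R := Localization.Away f) _
    (p.primeCompl.map (algebraMap A (Localization.Away f))) ?_
  rintro _ ⟨a, ha, rfl⟩
  refine mem_nonZeroDivisors_of_ne_zero fun h => ha ?_
  rw [(map_eq_zero_iff _ (IsLocalization.injective _
    (powers_le_nonZeroDivisors_of_noZeroDivisors h0))).1 h]
  exact p.zero_mem

instance Aic.expChar (p : ℕ) [Fact p.Prime] [CharP k p] (O : Aic k) : ExpChar O p :=
  have : CharP O p := charP_of_injective_algebraMap (algebraMap k O).injective p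
  inferInstance

end Pool.Agent.Lib.MP_fc2ced_ag.E
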