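import Pool.Agent.Lib.MP_fc2ced_ag.EOb
import Pool.Agent.Lib.MP_fc2ced_ag.EAic

/-! Descent from the absolute integral closure of a normal domain: sections lift along pointwise
surjections. -/

open Function Polynomial

namespace Pool.Agent.Lib.MP_fc2ced_ag.E

variable {k : Type} [Field k] {F : Type} [Field F]

theorem prod_perm {α β : Type} [CommMonoid β] {T : Finset α} {ρ : α → α} (inj : Injective ρ)
    (hT : ∀ t ∈ T, ρ t ∈ T) (φ : α → β) : ∏ t ∈ T, φ (ρ t) = ∏ t ∈ T, φ t :=
  Finset.prod_nbij ρ hT inj.injOn (Finset.surjOn_of_injOn_of_card_le ρ hT inj.injOn le_rfl)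
    fun _ _ => rfl

theorem sum_perm {α β : Type} [AddCommMonoid β] {T : Finset α} {ρ : α → α} (inj : Injective ρ)
    (hT : ∀ t ∈ T, ρ t ∈ T) (φ : α → β) : ∑ t ∈ T, φ (ρ t) = ∑ t ∈ T, φ t :=
  Finset.sum_nbij ρ hT inj.injOn (Finset.surjOn_of_injOn_of_card_le ρ hT inj.injOn le_rfl)
    fun _ _ => rfl

/-- The orbit polynomial. -/
theorem exists_of_invariant {R D G : Type} [CommRing R] [CommRing D] [IsDomain D]
    (ρ : G → R →+* R) (inj : ∀ g, Injective (ρ g)) (T : Finset R) (hT : ∀ g, ∀ t ∈ T, ρ g t ∈ T)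
    (ψ ψ' : R →+* D) (h : ∀ a, (∀ g, ρ g a = a) → ψ a = ψ' a) {f : R} (hf : f ∈ T) :
    ∃ t ∈ T, ψ' f = ψ t := by
  have h1 (g : G) : (∏ t ∈ T, (X - C t)).map (ρ g) = ∏ t ∈ T, (X - C t) := by
    rw [Polynomial.map_prod, ← prod_perm (inj g) (hT g) fun t => X - C t]
    simp
  have h2 : (∏ t ∈ T, (X - C t)).map ψ = (∏ t ∈ T, (X - C t)).map ψ' := by
    ext n
    rw [coeff_map, coeff_map]
    exact h _ fun g => by rw [← coeff_map, h1]
  have h3 := congrArg (Polynomial.eval (ψ' f)) h2
  simp only [Polynomial.map_prod, Polynomial.map_sub, map_X, map_C, eval_prod, eval_sub, eval_X,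
    eval_C] at h3
  rw [Finset.prod_eq_zero (f := fun t => ψ' f - ψ' t) hf (sub_self _),
    Finset.prod_eq_zero_iff] at h3
  exact h3.imp fun t ht => ⟨ht.1, sub_eq_zero.1 ht.2⟩

section Plus

variable (A : Type) [CommRing A] [IsDomain A]

/-- The absolute integral closure. -/
noncomputable abbrev Plus := integralClosure A (AlgebraicClosure (FractionRing A))

theorem Plus.inj : Injective (algebraMap A (Plus A)) := fun a b h => by
  have h' : algebraMap A (AlgebraicClosure (FractionRing A)) a = algebraMap A _ b :=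
    congrArg Subtype.val h
  rw [IsScalarTower.algebraMap_apply A (FractionRing A),
    IsScalarTower.algebraMap_apply A (FractionRing A) _ b] at h'
  exact IsFractionRing.injective A (FractionRing A) ((algebraMap (FractionRing A) _).injective h')

variable {A}

theorem Plus.finite_orbit (S : Finset (Plus A)) :
    (Set.range fun (g : Plus A ≃ₐ[A] Plus A) (s : S) => g s).Finite := by
  refine (Set.Finite.pi' (t := fun s : S => (minpoly A s.1).rootSet (Plus A))
    fun s => rootSet_finite _ _).subset ?_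
  rintro _ ⟨g, rfl⟩ s
  have hs : IsIntegral A s.1 := integralClosure.isIntegral _
  rw [(minpoly.monic hs).mem_rootSet, aeval_algHom_apply, minpoly.aeval, map_zero]

theorem Plus.finite_range {W : Type} (S : Finset (Plus A)) (φ : (Plus A ≃ₐ[A] Plus A) → W)
    (h : ∀ g g', (∀ s ∈ S, g s = g' s) → φ g = φ g') : (Set.range φ).Finite := by
  classical
  refine ((Plus.finite_orbit S).image fun t =>
    if h : t ∈ Set.range fun (g : Plus A ≃ₐ[A] Plus A) (s : S) => g s then φ h.choose
    else φ 1).subset ?_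
  rintro _ ⟨g, rfl⟩
  have hg : (fun s : S => g s) ∈ Set.range fun (g : Plus A ≃ₐ[A] Plus A) (s : S) => g s :=
    ⟨g, rfl⟩
  exact ⟨_, hg, (dif_pos hg).trans (h _ _ fun s hs => congrFun hg.choose_spec ⟨s, hs⟩)⟩

variable [IsIntegrallyClosed A] {O : Type} [CommRing O] [IsDomain O]

/-- Two lifts of a point agree on invariant elements. -/
theorem Plus.eq_of_invariant (y y' : Plus A →+* O)
    (h : y.comp (algebraMap A _) = y'.comp (algebraMap A _)) (a : Plus A)
    (ha : ∀ g : Plus A ≃ₐ[A] Plus A, g a = a) : y a = y' a := by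
  have hi : IsIntegral A a := integralClosure.isIntegral _
  have hi' : IsIntegral A a.1 := a.2
  have hm : (minpoly A a).map (algebraMap A (Plus A)) = (X - C a) ^ (minpoly A a).natDegree := by
    apply Polynomial.map_injective (algebraMap (Plus A) (AlgebraicClosure (FractionRing A)))
      Subtype.val_injective
    rw [Polynomial.map_map, ← IsScalarTower.algebraMap_eq]
    have hmon := (minpoly.monic hi).map (algebraMap A (AlgebraicClosure (FractionRing A)))
    rw [(IsAlgClosed.splits _).eq_prod_roots_of_monic hmon,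
      Multiset.eq_replicate.2 ⟨IsAlgClosed.card_roots_eq_natDegree, fun b hb => ?_⟩]
    · simp [(minpoly.monic hi).natDegree_map]
      rfl
    · have hb' : aeval b (minpoly (FractionRing A) a.1) = 0 := by
        rw [minpoly.isIntegrallyClosed_eq_field_fractions' _ hi', aeval_map_algebraMap,
          ← minpoly.algebraMap_eq (A := A) (B := Plus A) Subtype.val_injective a] at *
        rw [mem_roots hmon.ne_zero, IsRoot.def, eval_map_algebraMap] at hb
        exact hb
      obtain ⟨σ, hσ⟩ := minpoly.exists_algEquiv_of_root' (hi'.tower_top.isAlgebraic) hb'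
      exact hσ.symm.trans congr($(ha (σ.restrictScalars A).mapIntegralClosure).1)
  have h1 : ((minpoly A a).map (algebraMap A (Plus A))).map y =
      ((minpoly A a).map (algebraMap A (Plus A))).map y' := by
    rw [Polynomial.map_map, Polynomial.map_map, h]
  have h2 := congrArg (Polynomial.eval (y' a)) h1
  rw [hm] at h2
  simp only [Polynomial.map_pow, Polynomial.map_sub, map_X, map_C, eval_pow, eval_sub, eval_X,
    eval_C, sub_self] at h2
  rw [zero_pow (minpoly.natDegree_pos hi).ne'] at h2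
  exact (sub_eq_zero.1 (pow_eq_zero_iff (minpoly.natDegree_pos hi).ne' |>.1 h2)).symm

/-- Two lifts of a point are conjugate on every finite set. -/
theorem Plus.exists_aut (y y' : Plus A →+* O)
    (h : y.comp (algebraMap A _) = y'.comp (algebraMap A _)) (S : Finset (Plus A)) :
    ∃ g : Plus A ≃ₐ[A] Plus A, ∀ s ∈ S, y' s = y (g s) := by
  classical
  let f : MvPolynomial (Plus A) (Plus A) := ∑ s ∈ S, MvPolynomial.monomial (.single s 1) s
  let ρ (g : Plus A ≃ₐ[A] Plus A) : MvPolynomial (Plus A) (Plus A) →+* _ :=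
    MvPolynomial.map (g : Plus A →+* Plus A)
  have hc {D : Type} [CommRing D] (ψ : Plus A →+* D) (s) (hs : s ∈ S) :
      (MvPolynomial.map ψ f).coeff (.single s 1) = ψ s := by
    simp only [f, map_sum, MvPolynomial.map_monomial, MvPolynomial.coeff_sum,
      MvPolynomial.coeff_monomial, Finsupp.single_left_inj one_ne_zero]
    simp [hs]
  have hfin := Plus.finite_range S (fun g => ρ g f) fun g g' h => by
    simp only [f, ρ, map_sum, MvPolynomial.map_monomial]
    exact Finset.sum_congr rfl fun s hs => congrArg _ (h s hs)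
  have hmul (g g' : Plus A ≃ₐ[A] Plus A) : ρ g (ρ g' f) = ρ (g * g') f :=
    MvPolynomial.map_map _ _ _
  obtain ⟨t, ht, e⟩ := exists_of_invariant ρ (fun g => MvPolynomial.map_injective _ g.injective)
    hfin.toFinset (fun g t ht => by
      obtain ⟨g', rfl⟩ := hfin.mem_toFinset.1 ht
      exact hfin.mem_toFinset.2 ⟨g * g', (hmul g g').symm⟩)
    (MvPolynomial.map y) (MvPolynomial.map y') (fun a ha => MvPolynomial.ext _ _ fun m => by
      rw [MvPolynomial.coeff_map, MvPolynomial.coeff_map]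
      exact Plus.eq_of_invariant y y' h _ fun g =>
        (MvPolynomial.coeff_map _ _ _).symm.trans (congrArg (MvPolynomial.coeff m) (ha g)))
    (f := f) (hfin.mem_toFinset.2 ⟨1, MvPolynomial.map_id f⟩)
  obtain ⟨g, rfl⟩ := hfin.mem_toFinset.1 ht
  refine ⟨g, fun s hs => ?_⟩
  have := congrArg (MvPolynomial.coeff (.single s 1)) e
  rwa [MvPolynomial.map_map, hc _ s hs, hc _ s hs] at this

end Plus

/-- Sections lift along pointwise surjections. -/
theorem Surj.exists_sec [CharZero F] {M N : Ob k F} {p : M ⟶ N} (hp : Surj p) (A : Type)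
    [CommRing A] [IsDomain A] [Algebra k A] [IsIntegrallyClosed A]
    (s : ∀ O : Aic k, (A →ₐ[k] O) → N.V O)
    (hs : ∀ (O O' : Aic k) (g : O →ₐ[k] O') (x : A →ₐ[k] O), N.map g (s O x) = s O' (g.comp x)) :
    ∃ t : ∀ O : Aic k, (A →ₐ[k] O) → M.V O,
      (∀ (O O' : Aic k) (g : O →ₐ[k] O') (x : A →ₐ[k] O), M.map g (t O x) = t O' (g.comp x)) ∧
        ∀ O x, p.1 O (t O x) = s O x := by
  classical
  let P := Aic.plus k A
  let η : A →ₐ[k] P := IsScalarTower.toAlgHom k A (Plus A)
  let r (g : Plus A ≃ₐ[A] Plus A) : P →ₐ[k] P := g.toAlgHom.restrictScalars k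
  have hη (g) : (r g).comp η = η := AlgHom.ext g.commutes
  have hmul (g g') (v : M.V P) : M.map (r g) (M.map (r g') v) = M.map (r (g * g')) v :=
    M.map_map _ _ _
  have hone (v : M.V P) : M.map (r 1) v = v := congr($(M.map_id P) v)
  obtain ⟨c, hc⟩ := hp P (s P η)
  obtain ⟨S, hS⟩ := M.fin P c
  have hfin := Plus.finite_range S (fun g => M.map (r g) c) fun g g' h => hS P _ _ h
  have hcard : (hfin.toFinset.card : F) ≠ 0 :=
    Nat.cast_ne_zero.2 (Finset.card_ne_zero.2 ⟨_, hfin.mem_toFinset.2 ⟨1, rfl⟩⟩)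
  obtain ⟨d, hd, hinv⟩ : ∃ d : M.V P, p.1 P d = s P η ∧ ∀ g, M.map (r g) d = d := by
    refine ⟨(hfin.toFinset.card : F)⁻¹ • ∑ t ∈ hfin.toFinset, t, ?_, fun g => ?_⟩
    · rw [map_smul, map_sum, Finset.sum_congr rfl (g := fun _ => s P η) fun t ht => ?_,
        Finset.sum_const, ← Nat.cast_smul_eq_nsmul F, smul_smul, inv_mul_cancel₀ hcard, one_smul]
      obtain ⟨g, rfl⟩ := hfin.mem_toFinset.1 ht
      rw [Ob.nat, hc, hs, hη]
    · rw [map_smul, map_sum]
      refine congrArg _ (sum_perm (LeftInverse.injective (g := M.map (r g⁻¹)) fun v => by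
        rw [hmul, inv_mul_cancel, hone]) (fun t ht => ?_) fun t => t)
      obtain ⟨g', rfl⟩ := hfin.mem_toFinset.1 ht
      exact hfin.mem_toFinset.2 ⟨g * g', (hmul g g' c).symm⟩
  have key (O : Aic k) (y y' : P →ₐ[k] O) (h : y.comp η = y'.comp η) : M.map y d = M.map y' d := by
    obtain ⟨T, hT⟩ := M.fin P d
    obtain ⟨g, hg⟩ := Plus.exists_aut (A := A) y.toRingHom y'.toRingHom
      (RingHom.ext fun a => congr($h a)) T
    rw [hT O y' (y.comp (r g)) hg, ← M.map_map, hinv]
  choose L hL using fun (O : Aic k) (x : A →ₐ[k] O) => O.lift (C := Plus A) (Plus.inj A) x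
  refine ⟨fun O x => M.map (O := P) (L O x) d, fun O O' g x => ?_, fun O x => ?_⟩
  · rw [M.map_map]
    exact key O' _ _ (by rw [AlgHom.comp_assoc, hL, hL])
  · rw [Ob.nat, hd, hs, hL]

end Pool.Agent.Lib.MP_fc2ced_ag.E
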