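import Pool.Agent.Lib.MP_fc2ced_ag.ETh
import Pool.Agent.Lib.MP_fc2ced_ag.EAic
import Pool.Agent.Lib.MP_fc2ced_ag.EBaseA

/-! The basic theory. -/

open CategoryTheory CategoryTheory.Limits CategoryTheory.Pretriangulated

namespace Pool.Agent.Lib.MP_fc2ced_ag.E

variable {k : Type} [Field k]

/-- The underlying functor to types. -/
def Fn.toFun (X : Fn k) : Aic k ⥤ Type where
  obj := X.X
  map g := ↾(X.map g)
  map_id O := by ext x; exact X.map_id O x
  map_comp f g := by ext x; exact X.map_comp f g x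

theorem Fn.isMap_top {X Y : Fn k} (t : X.toFun ⟶ Y.toFun) :
    Pair.IsMap X.top Y.top fun O x => t.app O x :=
  ⟨fun _ _ g x _ => (congr($(t.naturality g) x)).symm, fun _ _ h => h, fun _ _ _ h => h⟩

noncomputable section

variable {F F' F'' : Type} [Field F] [CharZero F] [Field F'] [CharZero F'] [Field F'']
  [CharZero F'']

/-- An object as a functor to vector spaces. -/
def Ob.toF (M : Ob k F) : Aic k ⥤ ModuleCat.{0} F where
  obj O := ModuleCat.of F (M.V O)
  map g := ModuleCat.ofHom (M.map g)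
  map_id O := ModuleCat.hom_ext (M.map_id O)
  map_comp f g := ModuleCat.hom_ext (M.map_comp f g)

variable (k F) in
/-- The underlying functor to rational vector spaces. -/
def Und : Ob k F ⥤ Aic k ⥤ ModuleCat.{0} ℚ where
  obj M := M.toF ⋙ ModuleCat.restrictScalars (algebraMap ℚ F)
  map {M N} f := Functor.whiskerRight (G := M.toF) (H := N.toF)
    { app O := ModuleCat.ofHom (f.1 O)
      naturality O O' g := ModuleCat.hom_ext (f.2 O O' g) } _

instance : (Und k F).Additive := ⟨rfl⟩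

/-- Sections. -/
abbrev Sec (X : (SmCor k)ᵒᵖ) (V : Aic k ⥤ ModuleCat.{0} ℚ) : Type 1 :=
  pts k (SmAff.A X.unop) ⋙ ModuleCat.free ℚ ⟶ V

theorem rep_map_app {V W : Aic k ⥤ ModuleCat.{0} ℚ} (f : V ⟶ W) (X : (SmCor k)ᵒᵖ) (s : Sec X V) :
    ((rep k).map f).hom.app X s = (s ≫ f : Sec X W) := rfl

instance : (rep k).Additive := ⟨fun {V _ f g} => ObjectProperty.hom_ext _ (NatTrans.ext
  (funext fun X => AddCommGrpCat.ext fun (s : Sec X V) => Preadditive.comp_add _ _ _ s f g))⟩

instance : (mot k).Additive := by unfold mot toVerdier; infer_instance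

theorem free_ext {X : Aic k ⥤ Type} {V : Aic k ⥤ ModuleCat.{0} ℚ}
    {f g : X ⋙ ModuleCat.free ℚ ⟶ V}
    (h : ∀ O x, f.app O (ModuleCat.freeMk x) = g.app O (ModuleCat.freeMk x)) : f = g :=
  NatTrans.ext (funext fun O => ModuleCat.free_hom_ext (h O))

/-- The natural map given by a natural family. -/
def freeLift {X : Aic k ⥤ Type} {V : Aic k ⥤ ModuleCat.{0} ℚ} (s : ∀ O, X.obj O → V.obj O)
    (hs : ∀ O O' (g : O ⟶ O') x, V.map g (s O x) = s O' (X.map g x)) :
    X ⋙ ModuleCat.free ℚ ⟶ V where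
  app O := ModuleCat.freeDesc (↾(s O))
  naturality O O' g := ModuleCat.free_hom_ext fun x => by
    simp only [Functor.comp_map, ModuleCat.hom_comp, LinearMap.comp_apply]
    erw [ModuleCat.free_map_apply, ModuleCat.freeDesc_apply, ModuleCat.freeDesc_apply]
    exact (hs O O' g x).symm

theorem freeLift_mk {X : Aic k ⥤ Type} {V : Aic k ⥤ ModuleCat.{0} ℚ} (s : ∀ O, X.obj O → V.obj O)
    (hs : ∀ O O' (g : O ⟶ O') x, V.map g (s O x) = s O' (X.map g x)) (O : Aic k) (x : X.obj O) :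
    (freeLift s hs).app O (ModuleCat.freeMk x) = s O x := ModuleCat.freeDesc_apply _ _

theorem nat_mk {X : Aic k ⥤ Type} {V : Aic k ⥤ ModuleCat.{0} ℚ} (f : X ⋙ ModuleCat.free ℚ ⟶ V)
    (O O' : Aic k) (g : O ⟶ O') (x : X.obj O) :
    V.map g (f.app O (ModuleCat.freeMk x)) = f.app O' (ModuleCat.freeMk (X.map g x)) := by
  have := congr($(f.naturality g) (ModuleCat.freeMk x))
  simp only [Functor.comp_map, ModuleCat.hom_comp, LinearMap.comp_apply] at this
  erw [ModuleCat.free_map_apply] at this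
  exact this.symm

variable (k F) in
/-- The functor from objects to presheaves with transfers. -/
abbrev Psh : Ob k F ⥤ PST k := Und k F ⋙ rep k

theorem comp_und {M N : Ob k F} (p : M ⟶ N) {V : Aic k ⥤ ModuleCat.{0} ℚ}
    (s : V ⟶ (Und k F).obj M) (O : Aic k) (v : V.obj O) :
    (s ≫ (Und k F).map p).app O v = p.1 O (s.app O v) := rfl

theorem Surj.exists_comp {M N : Ob k F} {p : M ⟶ N} (hp : Surj p) (X : (SmCor k)ᵒᵖ)
    (s : Sec X ((Und k F).obj N)) : ∃ t : Sec X ((Und k F).obj M), t ≫ (Und k F).map p = s := by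
  have := normal_of_smooth k (SmAff.A X.unop)
  obtain ⟨t, h1, h2⟩ := hp.exists_sec (SmAff.A X.unop) (fun O x => s.app O (ModuleCat.freeMk x))
    (nat_mk s)
  refine ⟨freeLift (V := (Und k F).obj M) t h1, free_ext fun O x => ?_⟩
  rw [comp_und, freeLift_mk, h2]

theorem Surj.surj_app {M N : Ob k F} {p : M ⟶ N} (hp : Surj p) (X : (SmCor k)ᵒᵖ) :
    Function.Surjective (((rep k).map ((Und k F).map p)).hom.app X) := fun s =>
  (hp.exists_comp X s).imp fun t ht => (rep_map_app _ X t).trans ht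

theorem Surj.epi {M N : Ob k F} {p : M ⟶ N} (hp : Surj p) : Epi ((Psh k F).map p) := by
  have (X : (SmCor k)ᵒᵖ) : Epi (((rep k).map ((Und k F).map p)).hom.app X) :=
    (AddCommGrpCat.epi_iff_surjective _).2 (hp.surj_app X)
  have : Epi ((ObjectProperty.ι _).map ((rep k).map ((Und k F).map p))) :=
    NatTrans.epi_of_epi_app ((rep k).map ((Und k F).map p)).hom
  exact (ObjectProperty.ι _).epi_of_epi_map this

theorem shortExact_of_app {S : ShortComplex (PST k)}
    (h1 : ∀ X, Function.Injective (S.f.hom.app X))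
    (h2 : ∀ X, ∀ y, S.g.hom.app X y = 0 → ∃ x, S.f.hom.app X x = y)
    (h3 : ∀ X, Function.Surjective (S.g.hom.app X)) : S.ShortExact := by
  refine ShortExact.reflects_shortExact_of_faithful (ObjectProperty.ι _) ?_
  have J : JointlyReflectIsomorphisms
      fun X => (evaluation (SmCor k)ᵒᵖ AddCommGrpCat.{1}).obj X :=
    ⟨fun f h => have : ∀ X, IsIso (f.app X) := h; NatIso.isIso_of_isIso_app f⟩
  refine (J.shortExact_iff _).2 fun X => ?_
  exact ShortComplex.ShortExact.mk' ((ShortComplex.ab_exact_iff _).2 (h2 X))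
    ((AddCommGrpCat.mono_iff_injective _).2 (h1 X)) ((AddCommGrpCat.epi_iff_surjective _).2 (h3 X))

namespace Ses

variable {M₁ M₂ M₃ : Ob k F} {i : M₁ ⟶ M₂} {p : M₂ ⟶ M₃} (T : Ses i p)

/-- The sequence of presheaves. -/
def sc : ShortComplex (PST k) :=
  ShortComplex.mk ((Psh k F).map i) ((Psh k F).map p) (by
    rw [← Functor.map_comp, T.zero, Functor.map_zero])

include T in
theorem comp_inj {V : Aic k ⥤ ModuleCat.{0} ℚ} {s s' : V ⟶ (Und k F).obj M₁}
    (h : s ≫ (Und k F).map i = s' ≫ (Und k F).map i) : s = s' :=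
  NatTrans.ext (funext fun O => ModuleCat.hom_ext (LinearMap.ext fun v => T.inj O
    ((comp_und i s O v).symm.trans (congr(($h).app O v).trans (comp_und i s' O v)))))

include T in
theorem exists_comp {X : Aic k ⥤ Type} (s : X ⋙ ModuleCat.free ℚ ⟶ (Und k F).obj M₂)
    (hs : s ≫ (Und k F).map p = 0) : ∃ t, t ≫ (Und k F).map i = s := by
  choose t ht using fun O x => (T.exact O (s.app O (ModuleCat.freeMk x))).1
    ((comp_und p s O _).symm.trans congr(($hs).app O (ModuleCat.freeMk x)))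
  have h1 (O O' : Aic k) (g : O ⟶ O') (x) : M₁.map g (t O x) = t O' (X.map g x) :=
    T.inj O' (by rw [Ob.nat, ht, ht]; exact nat_mk s O O' g x)
  refine ⟨freeLift (V := (Und k F).obj M₁) t h1, free_ext fun O x => ?_⟩
  rw [comp_und, freeLift_mk, ht]

theorem sc_shortExact : T.sc.ShortExact :=
  shortExact_of_app (fun X s s' h => T.comp_inj
    ((rep_map_app _ X s).symm.trans (h.trans (rep_map_app _ X s'))))
    (fun X s hs => (T.exists_comp s ((rep_map_app _ X s).symm.trans hs)).imp fun t ht =>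
      (rep_map_app _ X t).trans ht) T.surj.surj_app

end Ses

section Coef

variable {X X' : Fn k} {P : Pair X} {P' : Pair X'}

theorem mapRange_cl (l : F →ₗ[ℚ] F') {O : Aic k} (x : X.X O) (c : F) :
    Finsupp.mapRange.linearMap l (c • P.cl F x) = l c • P.cl F' x := by
  unfold Pair.cl
  split_ifs <;> simp

theorem mapRange_lf (l : F →ₗ[ℚ] F') {O O' : Aic k} (e : X.X O → X'.X O') (v : P.Live O →₀ F) :
    Finsupp.mapRange.linearMap l (P.lf (fun x => P'.cl F (e x)) v) =
      P.lf (fun x => P'.cl F' (e x)) (Finsupp.mapRange.linearMap l v) := by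
  induction v using Finsupp.induction_linear with
  | zero => simp
  | add _ _ h1 h2 => simp only [map_add, h1, h2]
  | single x c =>
    rw [← Finsupp.smul_single_one, ← Pair.cl_live, mapRange_cl, LinearMap.map_smul,
      LinearMap.map_smul,
      Pair.lf_cl x.2.1 fun h => (x.2.2 h).elim, Pair.lf_cl x.2.1 fun h => (x.2.2 h).elim,
      mapRange_cl]

/-- The elements of the underlying functor. -/
def undL (M : Ob k F) (N : Ob k F') (O : Aic k) [Module ℚ (M.V O)] [Module ℚ (N.V O)]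
    (f : M.V O →ₗ[ℚ] N.V O) : ((Und k F).obj M).obj O ⟶ ((Und k F').obj N).obj O :=
  ModuleCat.ofHom (X := ((Und k F).obj M).obj O) (Y := ((Und k F').obj N).obj O)
    (AddMonoidHom.toRatLinearMap f.toAddMonoidHom)

variable (P) in
/-- A linear map on coefficients. -/
def coef (l : F →ₗ[ℚ] F') : (Und k F).obj (P.ob F) ⟶ (Und k F').obj (P.ob F') where
  app O := undL (P.ob F) (P.ob F') O (Finsupp.mapRange.linearMap l)
  naturality _ _ g := ModuleCat.hom_ext (LinearMap.ext fun v => mapRange_lf l (X.map g) v)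

theorem coef_app (l : F →ₗ[ℚ] F') (O : Aic k) (v : P.Live O →₀ F) :
    (coef P l).app O v = Finsupp.mapRange.linearMap l v := rfl

theorem coef_nat {e : ∀ ⦃O⦄, X.X O → X'.X O} (h : Pair.IsMap P P' e) (l : F →ₗ[ℚ] F') :
    coef P l ≫ (Und k F').map (h.hom F') = (Und k F).map (h.hom F) ≫ coef P' l :=
  NatTrans.ext (funext fun O => ModuleCat.hom_ext (LinearMap.ext fun v =>
    (mapRange_lf l (@e O) v).symm))

theorem coef_total {ι : Type} [Fintype ι] (b : Module.Basis ι ℚ F) :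
    ∑ i, coef P (b.coord i) ≫ coef P (LinearMap.toSpanSingleton ℚ F (b i)) = 𝟙 _ := by
  refine NatTrans.ext (funext fun O => ModuleCat.hom_ext (LinearMap.ext fun
    (v : P.Live O →₀ F) => ?_))
  rw [NatTrans.app_sum, ModuleCat.hom_sum, LinearMap.sum_apply]
  refine Finsupp.ext fun x => (Finsupp.finsetSum_apply _ _ _).trans ?_
  exact b.sum_repr (v x)

variable (X) in
/-- The comparison with the free functor. -/
def toUnd : X.toFun ⋙ ModuleCat.free ℚ ⟶ (Und k ℚ).obj (X.top.ob ℚ) :=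
  freeLift (fun _ x => X.top.cl ℚ x) fun _ _ g _ => Pair.map_cl g trivial

theorem toUnd_mk (O : Aic k) (x : X.X O) :
    (toUnd X).app O (ModuleCat.freeMk x) = X.top.cl ℚ x := freeLift_mk _ _ _ _

variable (X) in
instance isIso_toUnd : IsIso (toUnd X) := by
  have (O : Aic k) : IsIso ((toUnd X).app O) := by
    refine (ConcreteCategory.isIso_iff_bijective _).2 ?_
    let e : X.X O ≃ X.top.Live O :=
      ⟨fun x => ⟨x, trivial, id⟩, fun x => x.1, fun _ => rfl, fun _ => rfl⟩
    let φ : (X.X O →₀ ℚ) →+ (X.top.Live O →₀ ℚ) := ((toUnd X).app O).hom.toAddMonoidHom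
    have h (v : X.X O →₀ ℚ) : (toUnd X).app O v = Finsupp.domCongr e v := by
      change φ v = _
      induction v using Finsupp.induction_linear with
      | zero => simp
      | add _ _ h1 h2 => rw [map_add, map_add, h1, h2]
      | single x c =>
        rw [Finsupp.domCongr_apply, Finsupp.equivMapDomain_single, ← Finsupp.smul_single_one,
          map_rat_smul, ← Finsupp.smul_single_one (e x)]
        exact congrArg _ ((toUnd_mk O x).trans (X.top.cl_live (e x)))
    rw [show ⇑((toUnd X).app O) = Finsupp.domCongr e from funext h]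
    exact (Finsupp.domCongr e).bijective
  exact NatIso.isIso_of_isIso_app _

theorem toUnd_nat {e : ∀ ⦃O⦄, X.X O → X'.X O} (h : Pair.IsMap X.top X'.top e)
    (t : X.toFun ⟶ X'.toFun) (ht : ∀ O x, t.app O x = e x) :
    Functor.whiskerRight t (ModuleCat.free ℚ) ≫ toUnd X' = toUnd X ≫ (Und k ℚ).map (h.hom ℚ) :=
  free_ext fun O x => by
    rw [comp_und, toUnd_mk, h.hom_cl trivial, ← ht, ← toUnd_mk]
    exact congrArg ((toUnd X').app O) (ModuleCat.free_map_apply _ _)

end Coef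

theorem isIso_of_sum {D : Type*} [Category D] [Preadditive D] {ι : Type} [Fintype ι]
    {X Y X₀ Y₀ : D} {u : X ⟶ Y} (u₀ : X₀ ⟶ Y₀) [IsIso u₀] (s : ι → (X ⟶ X₀))
    (p : ι → (X₀ ⟶ X)) (s' : ι → (Y ⟶ Y₀)) (p' : ι → (Y₀ ⟶ Y)) (h : ∑ i, s i ≫ p i = 𝟙 X)
    (h' : ∑ i, s' i ≫ p' i = 𝟙 Y) (e : ∀ i, s i ≫ u₀ = u ≫ s' i)
    (e' : ∀ i, p i ≫ u = u₀ ≫ p' i) : IsIso u := by
  refine ⟨∑ i, s' i ≫ inv u₀ ≫ p i, ?_, ?_⟩
  · rw [Preadditive.comp_sum, ← h]
    exact Finset.sum_congr rfl fun i _ => by rw [← reassoc_of% e i, IsIso.hom_inv_id_assoc]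
  · rw [Preadditive.sum_comp, ← h']
    exact Finset.sum_congr rfl fun i _ => by simp [e' i]

theorem isIso_of_rat [FiniteDimensional ℚ F] {D : Type*} [Category D] [Preadditive D]
    (Ψ : (Aic k ⥤ ModuleCat.{0} ℚ) ⥤ D) [Ψ.Additive] {X X' : Fn k} {P : Pair X} {P' : Pair X'}
    {e : ∀ ⦃O⦄, X.X O → X'.X O} (h : Pair.IsMap P P' e)
    (h₀ : IsIso (Ψ.map ((Und k ℚ).map (h.hom ℚ)))) : IsIso (Ψ.map ((Und k F).map (h.hom F))) := by
  let b := Module.finBasis ℚ F
  refine isIso_of_sum (Ψ.map ((Und k ℚ).map (h.hom ℚ))) (fun i => Ψ.map (coef P (b.coord i)))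
    (fun i => Ψ.map (coef P (LinearMap.toSpanSingleton ℚ F (b i))))
    (fun i => Ψ.map (coef P' (b.coord i)))
    (fun i => Ψ.map (coef P' (LinearMap.toSpanSingleton ℚ F (b i)))) ?_ ?_ (fun i => ?_)
    fun i => ?_
  · simp only [← Ψ.map_comp, ← Ψ.map_sum, coef_total, Ψ.map_id]
  · simp only [← Ψ.map_comp, ← Ψ.map_sum, coef_total, Ψ.map_id]
  · rw [← Ψ.map_comp, ← Ψ.map_comp, coef_nat]
  · rw [← Ψ.map_comp, ← Ψ.map_comp, coef_nat]

/-- Finite direct sums. -/
@[reducible] def Ob.pi {ι : Type} [Fintype ι] (M : ι → Ob k F) : Ob k F where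
  V O := ∀ i, (M i).V O
  map g := LinearMap.pi fun i => (M i).map g ∘ₗ LinearMap.proj i
  map_id O := by ext; simp [Ob.map_id]
  map_comp f g := by ext; simp [Ob.map_comp]
  fin O v := by
    classical
    choose S hS using fun i => (M i).fin O (v i)
    exact ⟨Finset.univ.biUnion S, fun O' f g h => funext fun i => hS i O' f g fun s hs =>
      h s (Finset.mem_biUnion.2 ⟨i, Finset.mem_univ _, hs⟩)⟩

/-- The projections. -/
def Ob.proj {ι : Type} [Fintype ι] (M : ι → Ob k F) (i : ι) : Ob.pi M ⟶ M i :=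
  ⟨fun _ => LinearMap.proj i, fun _ _ _ => rfl⟩

theorem eq_zero_of_jointly {ι : Type} [Fintype ι] {M : ι → Ob k F} {N : Ob k F}
    (q : ∀ i, M i ⟶ N) (h : ∀ O v, v ∈ ⨆ i, LinearMap.range ((q i).1 O)) {Z : PST k}
    (g : (Psh k F).obj N ⟶ Z) (hg : ∀ i, (Psh k F).map (q i) ≫ g = 0) : g = 0 := by
  classical
  have hs : Surj (∑ i, Ob.proj M i ≫ q i) := fun O v => by
    refine (iSup_le (a := LinearMap.range ((∑ i, Ob.proj M i ≫ q i).1 O)) ?_) (h O v)
    rintro i _ ⟨w, rfl⟩
    refine ⟨Pi.single i w, ?_⟩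
    rw [Ob.sum_app, LinearMap.sum_apply, Finset.sum_eq_single i]
    · exact congrArg ((q i).1 O) (Pi.single_eq_same (M := fun j => (M j).V O) i w)
    · exact fun j _ hj => (congrArg ((q j).1 O)
        (Pi.single_eq_of_ne (M := fun j => (M j).V O) hj w)).trans (map_zero _)
    · simp
  have := hs.epi
  rw [← cancel_epi ((Psh k F).map (∑ i, Ob.proj M i ≫ q i)), comp_zero, Functor.map_sum,
    Preadditive.sum_comp]
  exact Finset.sum_eq_zero fun i _ => by rw [Functor.map_comp, Category.assoc, hg, comp_zero]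

theorem coker_aux {C : Type*} [Category C] [Abelian C] {S : ShortComplex C} (h : S.ShortExact)
    {X Y : C} (o : X ⟶ Y) (e : Y ⟶ S.X₂) (he : IsIso e) (p : X ⟶ S.X₁) (hp : Epi p)
    (w : o ≫ e = p ≫ S.f) : ∃ c : cokernel o ≅ S.X₃, cokernel.π o ≫ c.hom = e ≫ S.g := by
  have w' : o ≫ e ≫ S.g = 0 := by rw [reassoc_of% w, S.zero, comp_zero]
  have := h.epi_g
  have hc : IsColimit (CokernelCofork.ofπ _ w') :=
    CokernelCofork.IsColimit.ofπ' _ _ fun {Z} t ht => ⟨h.exact.desc (inv e ≫ t) (by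
      rw [← cancel_epi p, ← reassoc_of% w, IsIso.hom_inv_id_assoc, ht, comp_zero]), by
      rw [Category.assoc, h.exact.g_desc, IsIso.hom_inv_id_assoc]⟩
  exact ⟨IsColimit.coconePointUniqueUpToIso (colimit.isColimit _) hc,
    IsColimit.comp_coconePointUniqueUpToIso_hom (colimit.isColimit _) hc .one⟩

section Rep

variable {B B' : Type} [CommRing B] [Algebra k B] [Algebra.FiniteType k B] [CommRing B']
  [Algebra k B'] [Algebra.FiniteType k B']

variable (k B) in
/-- The comparison with the represented presheaf. -/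
def toPsh : L k B ⟶ (Psh k ℚ).obj ((Fn.spec k B).top.ob ℚ) := (rep k).map (toUnd (.spec k B))

variable (B) in
instance isIso_toPsh : IsIso (toPsh k B) :=
  @Functor.map_isIso _ _ _ _ _ _ (rep k) _ (isIso_toUnd (.spec k B))

theorem toPsh_nat (φ : B' →ₐ[k] B) :
    Lalg φ ≫ toPsh k B' = toPsh k B ≫ (Psh k ℚ).map ((isMap_top φ).hom ℚ) :=
  ((rep k).map_comp _ _).symm.trans ((congrArg (rep k).map (toUnd_nat (isMap_top φ)
    { app _ := ↾fun x => AlgHom.comp x φ } fun _ _ => rfl)).trans ((rep k).map_comp _ _))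

theorem isMap_relP {ι : Type} (f : ι → B) :
    Pair.IsMap (Fn.spec k B).top (relP k f) fun _ x => x :=
  Pair.isMap_id (fun _ _ h => h) fun _ _ _ h => h.elim

/-- The quotient by an open subset is the cokernel. -/
theorem exists_cokernel_iso {c : ℕ} (f : Fin c → B) :
    ∃ e : Lrel k f ≅ (Psh k ℚ).obj ((relP k f).ob ℚ),
      Lproj k f ≫ e.hom = toPsh k B ≫ (Psh k ℚ).map ((isMap_relP f).hom ℚ) := by
  let P : Pair (.spec k B) := ⟨fun _ x => ∃ i, IsUnit (x (f i)), fun _ _ => False,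
    fun _ _ g _ h => h.imp fun _ h => h.map g, fun _ _ _ _ h => h⟩
  have h₁ : Pair.IsMap P (Fn.spec k B).top fun _ x => x :=
    Pair.isMap_id (fun _ _ _ => trivial) fun _ _ _ h => h
  have T : Ses (h₁.hom ℚ) ((isMap_relP f).hom ℚ) := Pair.ses h₁ (isMap_relP f)
    (fun _ _ _ h => h) (fun _ _ _ => ⟨.inr, fun h => h.elim False.elim id⟩) fun _ _ _ _ => trivial
  have (i : Fin c) : Algebra.FiniteType k (Localization.Away (f i)) := .trans ‹_› inferInstance
  have h₂ (i : Fin c) : Pair.IsMap (Fn.spec k (Localization.Away (f i))).top P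
      fun _ x => x.comp (IsScalarTower.toAlgHom k B _) :=
    ⟨fun _ _ _ _ _ => rfl, fun _ x _ => ⟨i, (IsLocalization.Away.algebraMap_isUnit (f i)).map x⟩,
      fun _ _ _ h => h⟩
  refine coker_aux T.sc_shortExact (Lopen k f) (toPsh k B) (isIso_toPsh B)
    (Sigma.desc fun i => toPsh k _ ≫ (Psh k ℚ).map ((h₂ i).hom ℚ)) ?_ ?_
  · refine Preadditive.epi_of_cancel_zero _ fun g hg =>
      eq_zero_of_jointly (fun i => (h₂ i).hom ℚ) (fun O v => ?_) g fun i => ?_
    · induction v using Finsupp.induction_linear with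
      | zero => exact zero_mem _
      | add _ _ h1 h2 => exact add_mem h1 h2
      | single x a =>
        obtain ⟨i, hi⟩ := x.2.1
        rw [← Finsupp.smul_single_one, ← Pair.cl_live]
        refine Submodule.smul_mem _ _ (Submodule.mem_iSup_of_mem i
          ⟨Pair.cl ℚ _ (IsLocalization.Away.liftAlgHom (f i) hi), ?_⟩)
        rw [(h₂ i).hom_cl trivial]
        exact congrArg _ (AlgHom.ext fun b => IsLocalization.Away.lift_eq (f i) hi b)
    · have := Sigma.ι _ i ≫= hg
      rw [Sigma.ι_desc_assoc, comp_zero, Category.assoc] at this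
      exact (cancel_epi (toPsh k _)).1 (this.trans comp_zero.symm)
  · refine Sigma.hom_ext _ _ fun i => ?_
    rw [Lopen, Sigma.ι_desc_assoc, Sigma.ι_desc_assoc, Category.assoc]
    refine (toPsh_nat _).trans (toPsh k _ ≫= (congrArg (Psh k ℚ).map
      (Pair.hom_ext fun O x hx _ => ?_)).trans ((Psh k ℚ).map_comp _ (h₁.hom ℚ)))
    rw [Ob.comp_apply, (h₂ i).hom_cl hx, h₁.hom_cl ((h₂ i).n x hx), Pair.IsMap.hom_cl _ hx]

end Rep

theorem Gen.isIso_mot {V W : PST k} {u : V ⟶ W} (h : Gen k u) : IsIso ((mot k).map u) := by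
  obtain ⟨Z, v, w, hT⟩ := distinguished_cocone_triangle ((DerivedCategory.singleFunctor _ 0).map u)
  exact (Thick (Gen k)).trW.Q_inverts _ (ObjectProperty.trW.mk _ hT
    (ObjectProperty.le_triangEnvelope _ _ (.inr ⟨V, W, u, h, v, w, hT⟩)))

theorem isIso_mot_of_rat [FiniteDimensional ℚ F] (m : PST k ⥤ DM k) [m.Additive] {X X' : Fn k}
    {P : Pair X} {P' : Pair X'} {e : ∀ ⦃O⦄, X.X O → X'.X O} (h : Pair.IsMap P P' e)
    (h₀ : IsIso (m.map ((Psh k ℚ).map (h.hom ℚ)))) :
    IsIso (m.map ((Psh k F).map (h.hom F))) := isIso_of_rat (rep k ⋙ m) h h₀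

theorem isIso_mot_conj {V W V' W' : PST k} {u : V ⟶ W} {v : V' ⟶ W'} (h : Gen k u) (a : V ⟶ V')
    (b : W ⟶ W') [IsIso a] [IsIso b] (e : u ≫ b = a ≫ v) : IsIso ((mot k).map v) := by
  have := h.isIso_mot
  rw [← IsIso.inv_comp_eq] at e
  rw [← e, Functor.map_comp, Functor.map_comp]
  infer_instance

theorem Gn.isIso_mot [FiniteDimensional ℚ F] {X Y : Ob k F} {u : X ⟶ Y} (h : Gn k F u) :
    IsIso ((mot k).map ((Psh k F).map u)) := by
  rcases h with ⟨B⟩ | ⟨B, B', c, f, h⟩
  · exact isIso_mot_of_rat _ _ (isIso_mot_conj (.line B) _ _ (toPsh_nat _))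
  · refine isIso_mot_of_rat _ _ ?_
    have := h.etale
    obtain ⟨e, he⟩ := exists_cokernel_iso (k := k) f
    obtain ⟨e', he'⟩ := exists_cokernel_iso (k := k) fun i => algebraMap B B' (f i)
    let v : (Psh k ℚ).obj ((relP k fun i => algebraMap B B' (f i)).ob ℚ) ⟶
        (Psh k ℚ).obj ((relP k f).ob ℚ) :=
      (Psh k ℚ).map ((isMap_rel (IsScalarTower.toAlgHom k B B') f).hom ℚ)
    refine isIso_mot_conj (v := v) (.nis B B' c f (nisData_iff.1 h) (e'.hom ≫ v ≫ e.inv) ?_)
      e'.hom e.hom (by simp)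
    rw [reassoc_of% he', ← cancel_mono e.hom]
    simp only [Category.assoc, Iso.inv_hom_id, Category.comp_id, he]
    rw [reassoc_of% toPsh_nat]
    refine toPsh k _ ≫= ((Psh k ℚ).map_comp _ _).symm.trans
      ((congrArg (Psh k ℚ).map (Pair.hom_ext fun O x hx _ => ?_)).trans ((Psh k ℚ).map_comp _ _))
    rw [Ob.comp_apply, Ob.comp_apply, Pair.IsMap.hom_cl _ hx, Pair.IsMap.hom_cl _ hx,
      (isMap_relP f).hom_cl trivial]
    exact (isMap_rel (IsScalarTower.toAlgHom k B B') f).hom_cl trivial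

open ZeroObject in
theorem exists_delta {C D : Type*} [Category C] [Abelian C] [HasDerivedCategory C] [Category D]
    [HasZeroObject D] [HasShift D ℤ] [Preadditive D] [∀ n : ℤ, (shiftFunctor D n).Additive]
    [Pretriangulated D] (Q : DerivedCategory C ⥤ D) [Q.CommShift ℤ] [Q.IsTriangulated]
    (m : C ⥤ D) (hm : m = DerivedCategory.singleFunctor C 0 ⋙ Q) :
    ∃ δ : ∀ {S : ShortComplex C}, S.ShortExact → (m.obj S.X₃ ⟶ (m.obj S.X₁)⟦(1 : ℤ)⟧),
      (∀ {S : ShortComplex C} (h : S.ShortExact),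
        Triangle.mk (m.map S.f) (m.map S.g) (δ h) ∈ distTriang D) ∧
      ∀ {S S' : ShortComplex C} (h : S.ShortExact) (h' : S'.ShortExact) (φ : S ⟶ S'),
        δ h ≫ (m.map φ.τ₁)⟦(1 : ℤ)⟧' = m.map φ.τ₃ ≫ δ h' := by
  subst hm
  exact ⟨fun h => (Q.mapTriangle.obj h.singleTriangle).mor₃,
    fun h => Q.map_distinguished _ h.singleTriangle_distinguished, fun h h' φ =>
      (Q.mapTriangle.map (ShortComplex.ShortExact.singleTriangle.map h h' φ)).comm₃⟩

theorem exists_theory (m : PST k ⥤ DM k) [m.Additive]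
    (hm : m = DerivedCategory.singleFunctor _ 0 ⋙ (Thick (Gen k)).trW.Q)
    (gen : ∀ {X Y : Ob k F} (u : X ⟶ Y), Gn k F u → IsIso (m.map ((Psh k F).map u))) :
    ∃ Θ : Theory k F, ∀ {X Y : Ob k F} (f : X ⟶ Y), Θ.Φ.map f = 0 →
      m.map ((Psh k F).map f) = 0 := by
  obtain ⟨δ, h1, h2⟩ := exists_delta (Thick (Gen k)).trW.Q m hm
  exact ⟨{
    Φ := Psh k F ⋙ m
    δ T := δ T.sc_shortExact
    dist T := h1 T.sc_shortExact
    nat T _ _ _ _ _ T' a b c e1 e2 := h2 T.sc_shortExact T'.sc_shortExact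
      ⟨(Psh k F).map a, (Psh k F).map b, (Psh k F).map c,
        ((Psh k F).map_comp _ _).symm.trans (e1 ▸ (Psh k F).map_comp _ _),
        ((Psh k F).map_comp _ _).symm.trans (e2 ▸ (Psh k F).map_comp _ _)⟩
    gen := gen }, fun _ h => h⟩

theorem sum_toUnd (X : Fn k) {ι : Type} [Fintype ι] (t : ι → (X.toFun ⟶ X.toFun)) (c : ι → F)
    (l : F →ₗ[ℚ] ℚ) :
    (∑ i, l (c i) • Functor.whiskerRight (t i) (ModuleCat.free ℚ)) ≫ toUnd X =
      (toUnd X ≫ coef X.top (Algebra.linearMap ℚ F)) ≫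
        (Und k F).map (∑ i, c i • (Fn.isMap_top (t i)).hom F) ≫ coef X.top l := by
  have h (i : ι) : (l (c i) • Functor.whiskerRight (t i) (ModuleCat.free ℚ)) ≫ toUnd X =
      (toUnd X ≫ coef X.top (Algebra.linearMap ℚ F)) ≫
        (Und k F).map (c i • (Fn.isMap_top (t i)).hom F) ≫ coef X.top l := by
    rw [Linear.smul_comp, toUnd_nat (Fn.isMap_top (t i)) (t i) fun _ _ => rfl]
    refine free_ext fun O x => ?_
    have h1 : (toUnd X ≫ coef X.top (Algebra.linearMap ℚ F)).app O (ModuleCat.freeMk x) =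
        X.top.cl F x := by
      have := mapRange_cl (P := X.top) (Algebra.linearMap ℚ F) x 1
      rw [one_smul, Algebra.linearMap_apply, map_one, one_smul] at this
      exact (congrArg ((coef X.top (Algebra.linearMap ℚ F)).app O) (toUnd_mk O x)).trans this
    have h2 : (toUnd X ≫ (Und k ℚ).map ((Fn.isMap_top (t i)).hom ℚ)).app O (ModuleCat.freeMk x) =
        X.top.cl ℚ ((t i).app O x) := by
      rw [comp_und, toUnd_mk, Pair.IsMap.hom_cl _ trivial]
    have h3 := comp_und (c i • (Fn.isMap_top (t i)).hom F)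
      (toUnd X ≫ coef X.top (Algebra.linearMap ℚ F)) O (ModuleCat.freeMk x)
    rw [h1, Ob.smul_app, LinearMap.smul_apply, Pair.IsMap.hom_cl _ trivial] at h3
    refine Eq.trans ?_ ((congrArg ((coef X.top l).app O) h3).trans (mapRange_cl l _ _)).symm
    exact congrArg (l (c i) • ·) h2
  rw [Preadditive.sum_comp, Functor.map_sum, Preadditive.sum_comp, Preadditive.comp_sum]
  exact Finset.sum_congr rfl fun i _ => h i

end

theorem exists_base (k F : Type) [Field k] [Field F] [CharZero F] [FiniteDimensional ℚ F] :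
    ∃ Θ : Theory k F, ∀ (X : Fn k) (ι : Type) [Fintype ι] (t : ι → (X.toFun ⟶ X.toFun))
      (c : ι → F) (l : F →ₗ[ℚ] ℚ), Θ.Φ.map (∑ i, c i • (Fn.isMap_top (t i)).hom F) = 0 →
        Vanishes (Gen k) ((rep k).map (comb (fun i => l (c i)) t)) :=
  (exists_theory (mot k) rfl fun _ h => h.isIso_mot).imp fun Θ hΘ X ι _ t c l h => by
    have h' : (mot k).map ((rep k).map ((Und k F).map
      (∑ i, c i • (Fn.isMap_top (t i)).hom F))) = 0 := hΘ _ h
    rw [Vanishes, comb, ← cancel_mono ((mot k).map ((rep k).map (toUnd X))), ← Functor.map_comp,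
      ← Functor.map_comp, sum_toUnd, Functor.map_comp, Functor.map_comp (rep k) _ (coef _ l),
      Functor.map_comp, Functor.map_comp (mot k) _ ((rep k).map (coef _ l)), h', zero_comp,
      comp_zero, zero_comp]

end Pool.Agent.Lib.MP_fc2ced_ag.E
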