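import Mathlib

/-! The Deligne-Lusztig varieties of general linear and unitary groups attached to sequences of
elements of the Weyl group, as smooth affine schemes. -/

open MvPolynomial Matrix

namespace Pool.Agent.Lib.MP_fc2ced_ag.E

noncomputable section

/-- The Frobenius map on a pair `(x, y)` with `y = x⁻¹`. For `tw = false` it is `x ↦ x^{(q)}`
(raise all entries to the power `q`; fixed points `GL_n(𝔽_q)`), for `tw = true` it is
`x ↦ J (x^{(q)})^{-T} J` with `J` antidiagonal (fixed points the unitary group `U_n(𝔽_q)`). -/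
def frob {R : Type} [CommRing R] {n : ℕ} (tw : Bool) (q : ℕ) (x y : Matrix (Fin n) (Fin n) R) :
    Matrix (Fin n) (Fin n) R :=
  Matrix.of fun i j => if tw then y j.rev i.rev ^ q else x i j ^ q

/-- The entries of the equations for matrices `x, y, u 1, …, u m`: `x y = 1`, each `u l` is upper
unitriangular, and `y F(x) = P_(w 1) (u 1) ⋯ P_(w m) (u m)` with `P_w` the permutation matrix. -/
def dlEqs {R : Type} [CommRing R] {n m : ℕ} (tw : Bool) (q : ℕ) (w : Fin m → Equiv.Perm (Fin n))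
    (x y : Matrix (Fin n) (Fin n) R) (u : Fin m → Matrix (Fin n) (Fin n) R) : Set R :=
  {f | ∃ i j, f = (x * y - 1) i j ∨ (∃ l, j ≤ i ∧ f = (u l - 1) i j) ∨
    f = (y * frob tw q x y - (List.ofFn fun l => (w l).permMatrix R * u l).prod) i j}

/-- The generic matrices. -/
def gen (k : Type) [Field k] (n : ℕ) {ι : Type} (b : ι) :
    Matrix (Fin n) (Fin n) (MvPolynomial (ι × Fin n × Fin n) k) :=
  Matrix.of fun i j => X (b, i, j)

/-- The ideal generated by the equations `dlEqs` for generic matrices. -/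
def dlIdeal (k : Type) [Field k] {n m : ℕ} (tw : Bool) (q : ℕ) (w : Fin m → Equiv.Perm (Fin n)) :
    Ideal (MvPolynomial ((Bool ⊕ Fin m) × Fin n × Fin n) k) :=
  Ideal.span (dlEqs tw q w (gen k n (.inl false)) (gen k n (.inl true)) fun l => gen k n (.inr l))

/-- The ring of functions of the Deligne-Lusztig variety
`{(g, u) ∈ GL_n × U ^ m : g⁻¹ F(g) = P_(w 1) (u 1) ⋯ P_(w m) (u m)}`, with coordinates the entries
of `g`, of `g⁻¹` and of the `u l`. -/
abbrev DLRing (k : Type) [Field k] {n m : ℕ} (tw : Bool) (q : ℕ)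
    (w : Fin m → Equiv.Perm (Fin n)) : Type :=
  MvPolynomial ((Bool ⊕ Fin m) × Fin n × Fin n) k ⧸ dlIdeal k tw q w

theorem frob_map {R S : Type} [CommRing R] [CommRing S] (φ : R →+* S) {n : ℕ} (tw : Bool)
    (q : ℕ) (x y : Matrix (Fin n) (Fin n) R) :
    (frob tw q x y).map φ = frob tw q (x.map φ) (y.map φ) := by
  ext i j
  cases tw <;> simp [frob]

theorem permMatrix_map {R S : Type} [CommRing R] [CommRing S] (φ : R →+* S) {n : ℕ}
    (w : Equiv.Perm (Fin n)) : (w.permMatrix R).map φ = w.permMatrix S := by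
  ext i j
  simp [Equiv.Perm.permMatrix, PEquiv.toMatrix_apply, apply_ite φ]

theorem word_map {R S : Type} [CommRing R] [CommRing S] (φ : R →+* S) {n m : ℕ}
    (w : Fin m → Equiv.Perm (Fin n)) (u : Fin m → Matrix (Fin n) (Fin n) R) :
    (List.ofFn fun l => (w l).permMatrix R * u l).prod.map φ =
      (List.ofFn fun l => (w l).permMatrix S * (u l).map φ).prod := by
  have := map_list_prod φ.mapMatrix (List.ofFn fun l => (w l).permMatrix R * u l)
  simpa [List.map_ofFn, Function.comp_def, permMatrix_map, Matrix.map_mul] using this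

/-- The equations. -/
def DLEq {R : Type} [CommRing R] {n m : ℕ} (tw : Bool) (q : ℕ) (w : Fin m → Equiv.Perm (Fin n))
    (x y : Matrix (Fin n) (Fin n) R) (u : Fin m → Matrix (Fin n) (Fin n) R) : Prop :=
  x * y = 1 ∧ (∀ l i j, j ≤ i → u l i j = if i = j then 1 else 0) ∧
    y * frob tw q x y = (List.ofFn fun l => (w l).permMatrix R * u l).prod

theorem dlEqs_iff {R S : Type} [CommRing R] [CommRing S] (φ : R →+* S) {n m : ℕ} (tw : Bool)
    (q : ℕ) (w : Fin m → Equiv.Perm (Fin n)) (x y : Matrix (Fin n) (Fin n) R)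
    (u : Fin m → Matrix (Fin n) (Fin n) R) : (∀ f ∈ dlEqs tw q w x y u, φ f = 0) ↔
      DLEq tw q w (x.map φ) (y.map φ) fun l => (u l).map φ := by
  have e (a b : Matrix (Fin n) (Fin n) R) (i j) :
      φ ((a - b) i j) = 0 ↔ a.map φ i j = b.map φ i j := by simp [sub_eq_zero]
  have e1 : (1 : Matrix (Fin n) (Fin n) R).map φ = 1 := φ.mapMatrix.map_one
  rw [DLEq, ← frob_map, ← word_map, ← Matrix.map_mul, ← Matrix.map_mul, ← e1]
  refine ⟨fun h => ⟨Matrix.ext fun i j => (e ..).1 (h _ ⟨i, j, .inl rfl⟩), fun l i j hij => ?_,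
    Matrix.ext fun i j => (e ..).1 (h _ ⟨i, j, .inr (.inr rfl)⟩)⟩, ?_⟩
  · rw [(e ..).1 (h _ ⟨i, j, .inr (.inl ⟨l, hij, rfl⟩)⟩), e1, one_apply]
  · rintro ⟨h1, h2, h3⟩ _ ⟨i, j, rfl | ⟨l, hij, rfl⟩ | rfl⟩ <;> rw [e]
    exacts [by rw [h1], by rw [h2 l i j hij, e1, one_apply], by rw [h3]]

theorem dlIdeal_le_ker_iff {k : Type} [Field k] {n m : ℕ} (tw : Bool) (q : ℕ)
    (w : Fin m → Equiv.Perm (Fin n)) {R : Type} [CommRing R] [Algebra k R]
    (z : (Bool ⊕ Fin m) × Fin n × Fin n → R) : (∀ f ∈ dlIdeal k tw q w, aeval z f = 0) ↔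
      DLEq tw q w (of fun i j => z (.inl false, i, j)) (of fun i j => z (.inl true, i, j))
        fun l => of fun i j => z (.inr l, i, j) := by
  have hg (b) : (gen k n b).map (aeval z : _ →ₐ[k] R).toRingHom = of fun i j => z (b, i, j) := by
    ext i j; simp [gen]
  simp only [← hg]
  rw [← dlEqs_iff]
  exact Ideal.span_le (I := RingHom.ker (aeval z : _ →ₐ[k] R).toRingHom)

/-- Points of `k[ι]/I` lift along square-zero ideals. -/
def PtLifts {k : Type} [Field k] {ι : Type} (I : Ideal (MvPolynomial ι k)) : Prop :=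
  ∀ (B : Type) [CommRing B] [Algebra k B] (J : Ideal B), J ^ 2 = ⊥ → ∀ z : ι → B ⧸ J,
    (∀ f ∈ I, aeval z f = 0) →
      ∃ z' : ι → B, (∀ f ∈ I, aeval z' f = 0) ∧ ∀ i, Ideal.Quotient.mk J (z' i) = z i

theorem PtLifts.smooth {k : Type} [Field k] {ι : Type} [Finite ι] {I : Ideal (MvPolynomial ι k)}
    (h : PtLifts I) : Algebra.Smooth k (MvPolynomial ι k ⧸ I) := by
  refine ⟨Algebra.FormallySmooth.of_comp_surjective fun B _ _ J hJ φ => ?_,
    Algebra.FinitePresentation.quotient (IsNoetherian.noetherian I)⟩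
  have e : ∀ f, aeval (fun i => φ (Ideal.Quotient.mk I (X i))) f = φ (Ideal.Quotient.mk I f) :=
    fun f => by
      have : aeval (fun i => φ (Ideal.Quotient.mk I (X i))) = φ.comp (Ideal.Quotient.mkₐ k I) :=
        MvPolynomial.algHom_ext fun i => by simp
      rw [this]; rfl
  obtain ⟨z', h1, h2⟩ := h B J hJ (fun i => φ (Ideal.Quotient.mk I (X i))) fun f hf => by
    rw [e, Ideal.Quotient.eq_zero_iff_mem.2 hf, map_zero]
  refine ⟨Ideal.Quotient.liftₐ I (aeval z') h1, Ideal.Quotient.algHom_ext k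
    (MvPolynomial.algHom_ext fun i => ?_)⟩
  simpa using h2 i

theorem frob_congr {k : Type} [Field k] (p : ℕ) [Fact p.Prime] [CharP k p] {r : ℕ} (hr : 1 ≤ r)
    {B : Type} [CommRing B] [Algebra k B] (J : Ideal B) (hJ : J ^ 2 = ⊥) {n : ℕ} (tw : Bool)
    {x y x' y' : Matrix (Fin n) (Fin n) B}
    (hx : x.map (Ideal.Quotient.mk J) = x'.map (Ideal.Quotient.mk J))
    (hy : y.map (Ideal.Quotient.mk J) = y'.map (Ideal.Quotient.mk J)) :
    frob tw (p ^ r) x y = frob tw (p ^ r) x' y' := by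
  nontriviality B
  have : CharP B p := charP_of_injective_algebraMap (algebraMap k B).injective p
  have key : ∀ a b : B, Ideal.Quotient.mk J a = Ideal.Quotient.mk J b →
      a ^ p ^ r = b ^ p ^ r := fun a b h => by
    rw [← sub_eq_zero, ← sub_pow_char_pow]
    have h2 : (a - b) ^ 2 = 0 := by
      have := Ideal.pow_mem_pow (Ideal.Quotient.eq.1 h) 2
      rwa [hJ, Ideal.mem_bot] at this
    have : 2 ≤ p ^ r := (Fact.out : p.Prime).two_le.trans (Nat.le_self_pow (by omega) p)
    exact pow_eq_zero_of_le this h2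
  ext i j
  cases tw
  · exact key _ _ (congrFun (congrFun hx i) j)
  · exact key _ _ (congrFun (congrFun hy j.rev) i.rev)

theorem dl_lifts (k : Type) [Field k] (p : ℕ) [Fact p.Prime] [CharP k p] {r : ℕ} (hr : 1 ≤ r)
    {n m : ℕ} (tw : Bool) (w : Fin m → Equiv.Perm (Fin n)) :
    PtLifts (dlIdeal k tw (p ^ r) w) := by
  intro B _ _ J hJ z hz
  rw [dlIdeal_le_ker_iff] at hz
  obtain ⟨h1, h2, h3⟩ := hz
  set x := Matrix.of fun i j => z (.inl false, i, j) with hx
  set y := Matrix.of fun i j => z (.inl true, i, j) with hy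
  set π := Ideal.Quotient.mk J with hπ
  obtain ⟨s, hs⟩ := (Ideal.Quotient.mk_surjective (I := J)).hasRightInverse
  have hm : ∀ a : Matrix (Fin n) (Fin n) (B ⧸ J), (a.map s).map π = a := fun a => by
    ext i j; exact hs _
  have hu : ∀ a : Matrix (Fin n) (Fin n) B, IsUnit (a.map π) → IsUnit a := fun a ha => by
    rw [Matrix.isUnit_iff_isUnit_det] at ha ⊢
    have : (a.map π).det = π a.det := (RingHom.map_det π a).symm
    rw [this] at ha
    exact (IsNilpotent.isUnit_quotient_mk_iff ⟨2, hJ⟩).1 ha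
  set F := frob tw (p ^ r) (x.map s) (y.map s) with hF
  have hFm : F.map π = frob tw (p ^ r) x y := by rw [hF, frob_map, hm, hm]
  set u : Fin m → Matrix (Fin n) (Fin n) B := fun l =>
    Matrix.of fun i j => if j ≤ i then (if i = j then 1 else 0) else s (z (.inr l, i, j)) with hu'
  have hum (l) : (u l).map π = of fun i j => z (.inr l, i, j) := by
    ext i j
    by_cases hij : j ≤ i
    · simpa [hu', hij, apply_ite π] using (h2 l i j hij).symm
    · simp [hu', hij, hπ, hs _]
  set W := (List.ofFn fun l => (w l).permMatrix B * u l).prod with hW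
  have hWm : W.map π = y * frob tw (p ^ r) x y := by simp only [hW, word_map, hum, h3]
  have hWu : IsUnit W := by
    refine List.prod_isUnit fun a ha => ?_
    obtain ⟨l, rfl⟩ := (List.mem_ofFn' _ _).1 ha
    rw [Matrix.isUnit_iff_isUnit_det, det_mul, det_permutation,
      Matrix.det_of_isUpperTriangular (fun i j (hij : j < i) => by simp [hu', hij.le, hij.ne'])]
    simpa [hu'] using ((w l).sign.isUnit.map (Int.castRingHom B))
  have hFu : IsUnit F := by
    have : IsUnit (W.map π) := hWu.map π.mapMatrix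
    rw [hWm, ← hFm] at this
    exact hu _ (isUnit_of_mul_isUnit_right this)
  obtain ⟨F, hFF⟩ := hFu
  obtain ⟨W, hWW⟩ := hWu
  set y' : Matrix (Fin n) (Fin n) B := W * (F⁻¹ : Units _) with hy'
  set x' : Matrix (Fin n) (Fin n) B := F * (W⁻¹ : Units _) with hx'
  have hxy : x' * y' = 1 := by simp [hx', hy', mul_assoc]
  have hym : y'.map π = y := by
    have h3 : F.val.map π * (F⁻¹).val.map π = 1 := by
      rw [← Matrix.map_mul]; simp
    rw [hy', Matrix.map_mul, hWW, hWm, ← hFm, ← hFF, mul_assoc, h3, mul_one]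
  have hxm : x'.map π = x := by
    have h3 : x'.map π * y = 1 := by rw [← hym, ← Matrix.map_mul, hxy]; simp
    have h4 : y * x = 1 := mul_eq_one_comm.1 h1
    rw [← mul_one (x'.map π), ← h4, ← mul_assoc, h3, one_mul]
  refine ⟨fun s => Sum.elim (fun b => cond b y' x') u s.1 s.2.1 s.2.2, ?_, ?_⟩
  · rw [dlIdeal_le_ker_iff]
    refine ⟨hxy, fun l i j hij => if_pos hij, ?_⟩
    change y' * frob tw (p ^ r) x' y' = (List.ofFn fun l => (w l).permMatrix B * u l).prod
    rw [frob_congr (k := k) p hr J hJ tw (hxm.trans (hm x).symm) (hym.trans (hm y).symm), ← hF,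
      ← hFF, hy', mul_assoc, Units.inv_mul, mul_one, hWW]
  · rintro ⟨(_ | _) | l, i, j⟩
    exacts [congrFun (congrFun hxm i) j, congrFun (congrFun hym i) j,
      congrFun (congrFun (hum l) i) j]

theorem smooth_DLRing (k : Type) [Field k] (p : ℕ) [Fact p.Prime] [CharP k p] (r : ℕ) [NeZero r]
    {n m : ℕ} (tw : Bool) (w : Fin m → Equiv.Perm (Fin n)) :
    Algebra.Smooth k (DLRing k tw (p ^ r) w) :=
  (dl_lifts k p NeZero.one_le tw w).smooth

end

end Pool.Agent.Lib.MP_fc2ced_ag.E
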