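import Mathlib

/-!
Motives with rational coefficients over a field `k` of any characteristic.

A finite correspondence with rational coefficients from a normal variety `X` to `Y` is the same as
a rule, natural in the absolutely integrally closed domain `O` over `k`, that sends each `O`-point
of `X` to a finite rational linear combination of `O`-points of `Y` (Suslin-Voevodsky).
-/

open CategoryTheory CategoryTheory.Limits CategoryTheory.Pretriangulated Polynomial

namespace Pool.Agent.Lib.MP_fc2ced_ag.E

noncomputable section

variable (k : Type) [Field k]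

/-- Absolutely integrally closed domains over `k`: every monic polynomial of positive degree has
a root. -/
structure Aic where
  O : Type
  [ring : CommRing O]
  [alg : Algebra k O]
  [dom : IsDomain O]
  root : ∀ p : O[X], p.Monic → 0 < p.degree → ∃ x, p.IsRoot x

attribute [instance] Aic.ring Aic.alg Aic.dom

instance : CoeSort (Aic k) Type := ⟨Aic.O⟩

instance : Category (Aic k) where
  Hom O O' := O →ₐ[k] O'
  id O := AlgHom.id k O
  comp f g := g.comp f

/-- The functor of points of `Spec B`. -/
def pts (B : Type) [CommRing B] [Algebra k B] : Aic k ⥤ Type where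
  obj O := B →ₐ[k] O
  map g := ↾fun x => AlgHom.comp g x

section
variable (B O : Type) [CommRing B] [Algebra k B] [CommRing O] [Algebra k O] (n m : ℕ)

/-- The `O`-points of `X ^ n × 𝔾_m ^ m` for `X = Spec B`. -/
abbrev PowPt := (Fin n → (B →ₐ[k] O)) × (Fin m → Oˣ)

variable {k B O n m} in
/-- Change of the ring of values. -/
def PowPt.map {O' : Type} [CommRing O'] [Algebra k O'] (g : O →ₐ[k] O') (x : PowPt k B O n m) :
    PowPt k B O' n m :=
  (fun i => g.comp (x.1 i), fun j => Units.map g.toRingHom.toMonoidHom (x.2 j))

variable {k B O n m} in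
/-- Permute the factors `X` by `σ`, and replace by one the coordinates on the factors `𝔾_m` with
index in `S`. -/
def PowPt.twist (σ : Equiv.Perm (Fin n)) (S : Finset (Fin m)) (x : PowPt k B O n m) :
    PowPt k B O n m :=
  (fun i => x.1 (σ.symm i), fun j => if j ∈ S then 1 else x.2 j)

/-- The functor of points of `X ^ n × 𝔾_m ^ m` for `X = Spec B`. -/
def powPts : Aic k ⥤ Type where
  obj O := PowPt k B O n m
  map g := ↾PowPt.map g

end

/-- Connected smooth affine varieties over `k`, given by their rings of functions. -/
structure SmAff where
  A : Type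
  [ring : CommRing A]
  [alg : Algebra k A]
  [dom : IsDomain A]
  [smooth : Algebra.Smooth k A]

attribute [instance] SmAff.ring SmAff.alg SmAff.dom SmAff.smooth

/-- Connected smooth affine varieties and finite correspondences: the morphisms from `X` to `Y` are
the natural linear maps `ℚ[X(O)] → ℚ[Y(O)]`. -/
abbrev SmCor := InducedCategory (Aic k ⥤ ModuleCat.{0} ℚ)
  fun X : SmAff k => pts k X.A ⋙ ModuleCat.free ℚ

instance catSmCor : Category (SmCor k) := InducedCategory.instCategory

instance addSmCor : Preadditive (SmCor k) := Preadditive.inducedCategory _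

/-- Presheaves with transfers: additive contravariant functors on finite correspondences. -/
abbrev PST := (additiveFunctor (SmCor k)ᵒᵖ AddCommGrpCat.{1}).FullSubcategory

section
variable {C D : Type*} [Category C] [Category D] [Preadditive C] [Abelian D]

open ZeroObject in
instance : (additiveFunctor C D).ContainsZero :=
  ⟨0, isZero_zero _, inferInstanceAs (Functor.Additive (0 : C ⥤ D))⟩

instance : (additiveFunctor C D).IsClosedUnderSubobjects where
  prop_of_mono {F G} i _ (hG : G.Additive) := ⟨fun {X Y f g} => by
    simp [← cancel_mono (i.app Y)]⟩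

instance : (additiveFunctor C D).IsClosedUnderQuotients where
  prop_of_epi {F G} p _ (hF : F.Additive) := ⟨fun {X Y f g} => by
    rw [← cancel_epi (p.app X), Preadditive.comp_add, ← p.naturality, ← p.naturality,
      ← p.naturality, F.map_add, Preadditive.add_comp]⟩

instance : (additiveFunctor C D).IsClosedUnderFiniteProducts :=
  .of_isClosedUnderLimitsOfShape fun (J : Type) _ => ⟨fun F ⟨⟨p, hp⟩⟩ => ⟨fun {X Y f g} =>
    (isLimitOfPreserves ((evaluation C D).obj Y) p.isLimit).hom_ext fun j => by
      have : (p.diag.obj j).Additive := hp j
      simp⟩⟩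

end

instance catPST : Category (PST k) := ObjectProperty.FullSubcategory.category _

instance abPST : Abelian (PST k) := inferInstance

/-- The presheaf with transfers `U ↦ Hom(ℚ[U], V)`. For `V = ℚ[X]` it is the presheaf of finite
correspondences to `X`. -/
def rep : (Aic k ⥤ ModuleCat.{0} ℚ) ⥤ PST k :=
  ObjectProperty.lift _ (preadditiveYoneda ⋙ (Functor.whiskeringLeft _ _ _).obj
    (inducedFunctor fun X : SmAff k => pts k X.A ⋙ ModuleCat.free ℚ).op) fun V =>
      inferInstanceAs (Functor.Additive (_ ⋙ preadditiveYoneda.obj V))

variable {k}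

section
variable {B B' : Type} [CommRing B] [Algebra k B] [CommRing B'] [Algebra k B']

variable (k B) in
/-- The presheaf with transfers represented by `Spec B`. -/
abbrev L : PST k := (rep k).obj (pts k B ⋙ ModuleCat.free ℚ)

/-- The map of represented presheaves given by a morphism `Spec B → Spec B'`. -/
def Lalg (φ : B' →ₐ[k] B) : L k B ⟶ L k B' :=
  (rep k).map (Functor.whiskerRight
    ({ app _ := ↾fun x => AlgHom.comp x φ } : pts k B ⟶ pts k B') (ModuleCat.free ℚ))

variable (k) in
/-- The inclusions of the open subsets where one of the functions `f i` is invertible. -/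
def Lopen {c : ℕ} (f : Fin c → B) : ∐ (fun i => L k (Localization.Away (f i))) ⟶ L k B :=
  Sigma.desc fun _ => Lalg (IsScalarTower.toAlgHom k B _)

variable (k) in
/-- The presheaf `X / (X - Z)` for the zero scheme `Z` of the functions `f i` on `X = Spec B`. -/
def Lrel {c : ℕ} (f : Fin c → B) : PST k := cokernel (Lopen k f)

variable (k) in
/-- The projection `X → X / (X - Z)`. -/
def Lproj {c : ℕ} (f : Fin c → B) : L k B ⟶ Lrel k f := cokernel.π _

variable (B') in
/-- The map `Spec B' → Spec B` is an isomorphism over the zero scheme of the functions `f i`. -/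
def IsoOver [Algebra B B'] {c : ℕ} (f : Fin c → B) : Prop :=
  Function.Bijective (Ideal.quotientMap ((Ideal.span (Set.range f)).map (algebraMap B B'))
    (algebraMap B B') Ideal.le_comap_map)

end

variable (k)

/-- The maps of presheaves that are inverted in the category of motives: the projections
`X × 𝔸¹ → X`, and the excision maps `X' / (X' - Z') → X / (X - Z)` for an etale map `X' → X` that
is an isomorphism over the zero scheme `Z` of functions `f i`. -/
inductive Gen : MorphismProperty (PST k)
  | line (B : Type) [CommRing B] [Algebra k B] [Algebra.Smooth k B] :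
      Gen (Lalg (Polynomial.CAlgHom : B →ₐ[k] B[X]))
  | nis (B B' : Type) [CommRing B] [Algebra k B] [Algebra.Smooth k B] [CommRing B'] [Algebra k B']
      [Algebra B B'] [IsScalarTower k B B'] [Algebra.Etale B B'] (c : ℕ) (f : Fin c → B)
      (h : IsoOver B' f) (u : Lrel k (fun i => algebraMap B B' (f i)) ⟶ Lrel k f)
      (hu : Lproj k _ ≫ u = Lalg (IsScalarTower.toAlgHom k B B') ≫ Lproj k f) : Gen u

section
variable {A : Type 2} [Category.{1} A] [Abelian A] [HasDerivedCategory.{2} A]
  (W : MorphismProperty A)

/-- The zero objects and the cones of the maps in `W`. -/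
def Cones : ObjectProperty (DerivedCategory A) := fun Z => IsZero Z ∨ ∃ (F G : A) (u : F ⟶ G),
  W u ∧ ∃ v w, Triangle.mk (Z := Z) ((DerivedCategory.singleFunctor A 0).map u) v w ∈ distTriang _

/-- The thick subcategory of the derived category generated by the cones of the maps in `W`. -/
def Thick : ObjectProperty (DerivedCategory A) := (Cones W).triangEnvelope

open ZeroObject in
instance : (Thick W).IsTriangulated := by
  have : (Cones W).Nonempty := ⟨0, .inl (isZero_zero _)⟩
  unfold Thick
  infer_instance

/-- The Verdier quotient of the derived category by the thick subcategory `Thick W`. -/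
abbrev Verdier := (Thick W).trW.Localization

/-- The functor to the Verdier quotient. -/
def toVerdier : A ⥤ Verdier W := DerivedCategory.singleFunctor A 0 ⋙ (Thick W).trW.Q

/-- The map `f` becomes zero in the Verdier quotient. -/
def Vanishes {X Y : A} (f : X ⟶ Y) : Prop := (toVerdier W).map f = 0

end

instance derPST : HasDerivedCategory (PST k) := HasDerivedCategory.standard _

/-- Effective motives: the Verdier quotient of the derived category of presheaves with transfers
by the thick subcategory generated by the cones of the maps `Gen`. -/
abbrev DM := Verdier (Gen k)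

/-- The motive of a presheaf with transfers. -/
abbrev mot : PST k ⥤ DM k := toVerdier (Gen k)

/-- The idempotents `e_λ`: the primitive central idempotents of the group algebra. -/
structure IsBlock {G : Type} [Group G] (e : MonoidAlgebra ℚ G) : Prop where
  ne : e ≠ 0
  idem : e * e = e
  central : ∀ r, r * e = e * r
  prim : ∀ e', e' * e' = e' → (∀ r, r * e' = e' * r) → e' * e = 0 ∨ e' * e = e

/-- The linear combination `∑ c i • t i` of self-maps of a functor `X`, acting on `ℚ[X]`. -/
def comb {C : Type 1} [Category.{0} C] {X : C ⥤ Type} {ι : Type} [Fintype ι] (c : ι → ℚ)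
    (t : ι → (X ⟶ X)) : X ⋙ ModuleCat.free ℚ ⟶ X ⋙ ModuleCat.free ℚ :=
  ∑ i, c i • Functor.whiskerRight (t i) (ModuleCat.free ℚ)

section
variable (B : Type) [CommRing B] [Algebra k B]

/-- The endomorphism of `X ^ n × 𝔾_m ^ m` that permutes the factors `X` by `σ` and is the constant
map with value one on the factors `𝔾_m` with index in `S`. -/
def twist {n m : ℕ} (σ : Equiv.Perm (Fin n)) (S : Finset (Fin m)) :
    powPts k B n m ⟶ powPts k B n m where
  app _ := ↾PowPt.twist σ S
  naturality _ _ _ := by
    ext x
    refine Prod.ext rfl (funext fun j => ?_)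
    by_cases h : j ∈ S <;> simp [powPts, PowPt.twist, PowPt.map, h]

/-- The motive of `X = Spec B` is Schur-finite in geometric motives (where the Tate motive is
inverted): for some `n ≥ 1`, some idempotent `e_λ` of `ℚ[𝔖_n]` and some `m`, the idempotent
`e_λ ⊗ (1 - π) ^ (⊗ m)` of `X ^ n × 𝔾_m ^ m` (`π` the constant map with value one), which cuts out
`S_λ(M(X))(m)[m]`, is zero in `DM`. -/
def SchurFinite : Prop :=
  ∃ (n m : ℕ) (e : MonoidAlgebra ℚ (Equiv.Perm (Fin n))), 0 < n ∧ IsBlock e ∧
    Vanishes (Gen k) ((rep k).map (comb
      (fun x : Equiv.Perm (Fin n) × Finset (Fin m) => e.coeff x.1 * (-1) ^ x.2.card)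
      fun x => twist k B x.1 x.2))

end

end

end Pool.Agent.Lib.MP_fc2ced_ag.E
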