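import Mathlib

-- part Pool.Agent.Lib.MP_fc2ced_ag.EGrp
section

/-! Frobenius maps, unitriangular, monomial and elementary matrices in `GL_n`. -/

open Matrix

namespace Pool.Agent.Lib.MP_fc2ced_ag.E

noncomputable section

variable {n : ℕ} {R S : Type} [CommRing R] [CommRing S]

/-- The map induced by a homomorphism of rings. -/
abbrev gm (φ : R →+* S) : GL (Fin n) R →* GL (Fin n) S := GeneralLinearGroup.map φ

theorem gm_apply (φ : R →+* S) (g : GL (Fin n) R) (i j : Fin n) : gm φ g i j = φ (g i j) := rfl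

/-- The automorphism `g ↦ J g^{-T} J`. -/
def iot : GL (Fin n) R →* GL (Fin n) R where
  toFun g := ⟨of fun i j => (g⁻¹ : GL (Fin n) R) j.rev i.rev, of fun i j => g j.rev i.rev,
    by
      ext i j
      have := congrFun (congrFun g.mul_inv j.rev) i.rev
      rw [mul_apply, ← Equiv.sum_comp Fin.revPerm] at this
      simpa [mul_apply, mul_comm, one_apply, eq_comm] using this,
    by
      ext i j
      have := congrFun (congrFun g.inv_mul j.rev) i.rev
      rw [mul_apply, ← Equiv.sum_comp Fin.revPerm] at this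
      simpa [mul_apply, mul_comm, one_apply, eq_comm] using this⟩
  map_one' := by ext i j; simp [one_apply, eq_comm]
  map_mul' g h := by
    ext i j
    change (((g * h)⁻¹ : GL (Fin n) R) : Matrix _ _ R) j.rev i.rev = _
    rw [_root_.mul_inv_rev, Units.val_mul, Units.val_mul, mul_apply, mul_apply,
      ← Equiv.sum_comp Fin.revPerm]
    simp [mul_comm]

theorem iot_apply (g : GL (Fin n) R) (i j : Fin n) :
    iot g i j = (g⁻¹ : GL (Fin n) R) j.rev i.rev := rfl

theorem iot_inv_apply (g : GL (Fin n) R) (i j : Fin n) :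
    ((iot g)⁻¹ : GL (Fin n) R) i j = g j.rev i.rev := rfl

@[simp] theorem iot_iot (g : GL (Fin n) R) : iot (iot g) = g := by
  ext i j
  rw [iot_apply, iot_inv_apply, Fin.rev_rev, Fin.rev_rev]

theorem map_iot (φ : R →+* S) (g : GL (Fin n) R) : gm φ (iot g) = iot (gm φ g) := by
  ext i j
  rw [gm_apply, iot_apply, iot_apply, ← map_inv, gm_apply]

/-- The Frobenius map of the general linear group (`tw = false`) or of the unitary group
(`tw = true`) over the field with `p ^ r` elements. -/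
def Fr (p r : ℕ) (tw : Bool) [ExpChar R p] : GL (Fin n) R →* GL (Fin n) R :=
  (gm (iterateFrobenius R p r)).comp (if tw then iot else .id _)

section Fr
variable {p r : ℕ} {tw : Bool} [ExpChar R p]

theorem Fr_apply (g : GL (Fin n) R) (i j : Fin n) : Fr p r tw g i j =
    if tw then (g⁻¹ : GL (Fin n) R) j.rev i.rev ^ p ^ r else g i j ^ p ^ r := by
  cases tw <;> rfl

theorem map_Fr [ExpChar S p] (φ : R →+* S) (g : GL (Fin n) R) :
    gm φ (Fr p r tw g) = Fr p r tw (gm φ g) := by
  ext i j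
  rw [gm_apply, Fr_apply, Fr_apply, ← map_inv, gm_apply,
    gm_apply]
  cases tw <;> simp

theorem iot_Fr (g : GL (Fin n) R) : iot (Fr p r tw g) = Fr p r tw (iot g) := by
  cases tw <;> simp [Fr, map_iot]

end Fr

variable (n R) in
/-- Upper unitriangular matrices. -/
def Uni : Subgroup (GL (Fin n) R) where
  carrier := {u | ∀ i j, j ≤ i → u i j = if i = j then 1 else 0}
  one_mem' i j _ := by simp [one_apply]
  mul_mem' {u v} hu hv i j hij := by
    rw [Units.val_mul, mul_apply, Finset.sum_eq_single i]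
    · rw [hu i i le_rfl, hv i j hij]; simp
    · intro l _ hl
      rcases le_total l i with h | h
      · rw [hu i l h, if_neg hl.symm, zero_mul]
      · rw [hv l j (hij.trans h), if_neg (fun e : l = j => hl (le_antisymm (e ▸ hij) h)), mul_zero]
    · simp
  inv_mem' {u} hu i j hij := by
    have ht : (u : Matrix (Fin n) (Fin n) R).BlockTriangular id := fun i j h => by
      have h : j < i := h
      rw [hu i j h.le, if_neg h.ne']
    have : Invertible (u : Matrix (Fin n) (Fin n) R) := u.invertible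
    have hi : ((u⁻¹ : GL (Fin n) R) : Matrix (Fin n) (Fin n) R).BlockTriangular id := by
      rw [GeneralLinearGroup.coe_inv]; exact blockTriangular_inv_of_blockTriangular ht
    rcases hij.lt_or_eq with h | rfl
    · rw [hi h, if_neg h.ne']
    · have := congrFun (congrFun u.mul_inv j) j
      rw [mul_apply, Finset.sum_eq_single j, hu j j le_rfl] at this
      · simpa using this
      · intro l _ hl
        rcases hl.lt_or_gt with h | h
        · rw [ht h, zero_mul]
        · rw [hi h, mul_zero]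
      · simp

theorem mem_Uni {u : GL (Fin n) R} :
    u ∈ Uni n R ↔ ∀ i j, j ≤ i → u i j = if i = j then 1 else 0 := Iff.rfl

theorem map_mem_Uni (φ : R →+* S) {u : GL (Fin n) R} (hu : u ∈ Uni n R) : gm φ u ∈ Uni n S :=
  fun i j h => by rw [gm_apply, hu i j h]; split_ifs <;> simp

theorem iot_mem_Uni {u : GL (Fin n) R} (hu : u ∈ Uni n R) : iot u ∈ Uni n R := fun i j h => by
  rw [iot_apply, (Uni n R).inv_mem hu _ _ (Fin.rev_le_rev.2 h)]
  simp [eq_comm]

theorem Fr_mem_Uni {p r : ℕ} {tw : Bool} [ExpChar R p] {u : GL (Fin n) R} (hu : u ∈ Uni n R) :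
    Fr p r tw u ∈ Uni n R := by
  cases tw
  · exact map_mem_Uni (iterateFrobenius R p r) hu
  · exact map_mem_Uni (iterateFrobenius R p r) (iot_mem_Uni hu)

/-- The monomial matrix that sends `e_j` to `d j • e_(v j)`. -/
def mon (v : Equiv.Perm (Fin n)) (d : Fin n → Rˣ) : GL (Fin n) R :=
  ⟨of fun i j => if i = v j then d j else 0, of fun i j => if j = v i then ((d i)⁻¹ : Rˣ) else 0,
    by
      ext i j
      obtain ⟨i, rfl⟩ := v.surjective i
      rw [mul_apply, Finset.sum_eq_single i]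
      · simp [one_apply, eq_comm]
      · intro l _ hl
        simp [hl.symm]
      · simp,
    by
      ext i j
      simp only [mul_apply, of_apply, ite_mul, zero_mul, Finset.sum_ite_eq', Finset.mem_univ,
        if_true, one_apply, v.injective.eq_iff]
      split_ifs with h
      · simp [h]
      · simp⟩

theorem mon_apply (v : Equiv.Perm (Fin n)) (d : Fin n → Rˣ) (i j : Fin n) :
    mon v d i j = if i = v j then (d j : R) else 0 := rfl

theorem mon_mul (v v' : Equiv.Perm (Fin n)) (d d' : Fin n → Rˣ) :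
    mon v d * mon v' d' = mon (v * v') fun j => d (v' j) * d' j := by
  ext i j
  simp [mul_apply, mon_apply]

theorem mon_one : mon (1 : Equiv.Perm (Fin n)) (1 : Fin n → Rˣ) = 1 := by
  ext i j; simp [mon_apply, one_apply]

theorem mon_inv (v : Equiv.Perm (Fin n)) (d : Fin n → Rˣ) :
    (mon v d)⁻¹ = mon v⁻¹ fun j => (d (v⁻¹ j))⁻¹ := by
  rw [inv_eq_iff_mul_eq_one, mon_mul, ← mon_one]
  congr 1
  · simp
  · ext j; simp

theorem map_mon (φ : R →+* S) (v : Equiv.Perm (Fin n)) (d : Fin n → Rˣ) :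
    gm φ (mon v d) = mon v fun j => Units.map φ.toMonoidHom (d j) := by
  ext i j
  rw [gm_apply, mon_apply, mon_apply]
  split_ifs <;> simp

theorem iot_mon (v : Equiv.Perm (Fin n)) (d : Fin n → Rˣ) :
    iot (mon v d) = mon (Fin.revPerm * v * Fin.revPerm) fun j => (d j.rev)⁻¹ := by
  ext i j
  change (if i.rev = v j.rev then (((d j.rev)⁻¹ : Rˣ) : R) else 0) = _
  simp [mon_apply, Fin.rev_eq_iff]

/-- The elementary matrix `1 + c E_(a b)`. -/
def el {a b : Fin n} (h : a ≠ b) (c : R) : GL (Fin n) R :=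
  ⟨transvection a b c, transvection a b (-c), by rw [transvection_mul_transvection_same _ _ h]; simp,
    by rw [transvection_mul_transvection_same _ _ h]; simp⟩

theorem el_val {a b : Fin n} (h : a ≠ b) (c : R) :
    (el h c : Matrix (Fin n) (Fin n) R) = transvection a b c := rfl

theorem el_inv {a b : Fin n} (h : a ≠ b) (c : R) : (el h c)⁻¹ = el h (-c) := by
  ext; simp [el]

theorem el_mul {a b : Fin n} (h : a ≠ b) (c c' : R) : el h c * el h c' = el h (c + c') :=
  Units.ext (transvection_mul_transvection_same _ _ h c c')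

theorem el_zero {a b : Fin n} (h : a ≠ b) : el h (0 : R) = 1 := Units.ext (transvection_zero _ _)

theorem el_apply {a b : Fin n} (h : a ≠ b) (c : R) (i j : Fin n) :
    el h c i j = (if i = j then 1 else 0) + if a = i ∧ b = j then c else 0 := by
  simp [el, transvection, one_apply, single_apply]

theorem el_mem_Uni {a b : Fin n} (h : a < b) (c : R) : el h.ne c ∈ Uni n R := fun i j hij => by
  rw [el_apply, if_neg (c := a = i ∧ b = j), add_zero]
  rintro ⟨rfl, rfl⟩
  exact h.not_ge hij

theorem mon_mul_el (v : Equiv.Perm (Fin n)) (d : Fin n → Rˣ) {a b : Fin n} (h : a ≠ b) (c : R) :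
    mon v d * el h c = el (v.injective.ne h) (d a * c * (d b)⁻¹) * mon v d := by
  ext i j
  simp only [Units.val_mul, mul_apply, el_apply, mon_apply, mul_add, add_mul,
    Finset.sum_add_distrib, mul_ite, ite_mul, mul_zero, zero_mul, mul_one, one_mul, ite_and,
    Finset.sum_ite_eq, Finset.sum_ite_eq', Finset.mem_univ, if_true, v.injective.eq_iff]
  congr 1
  by_cases h1 : b = j
  · subst h1
    by_cases h2 : i = v a <;> simp [h2, eq_comm]
  · simp [h1]

theorem Fr_mon {p r : ℕ} {tw : Bool} [ExpChar R p] (v : Equiv.Perm (Fin n)) (d : Fin n → Rˣ) :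
    Fr p r tw (mon v d) = mon (if tw then Fin.revPerm * v * Fin.revPerm else v)
      fun j => (if tw then (d j.rev)⁻¹ else d j) ^ p ^ r := by
  cases tw
  · refine (map_mon (iterateFrobenius R p r) v d).trans ?_
    congr 1
  · change gm (iterateFrobenius R p r) (iot (mon v d)) = _
    rw [iot_mon, map_mon]
    congr 1

variable (n R) in
/-- The finite group of fixed points of the Frobenius map. -/
abbrev Fix (p r : ℕ) (tw : Bool) [ExpChar R p] : Subgroup (GL (Fin n) R) :=
  (Fr p r tw).eqLocus (MonoidHom.id _)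

end

end Pool.Agent.Lib.MP_fc2ced_ag.E
end

-- part Pool.Agent.Lib.MP_fc2ced_ag.EConvA
section

/-! Group theory of simple reflections in `GL_n`. -/

open Matrix

namespace Pool.Agent.Lib.MP_fc2ced_ag.E.Conv

noncomputable section

variable {n : ℕ} {R : Type} [CommRing R] {a b : Fin n}

theorem conj_apply (v : Equiv.Perm (Fin n)) (d : Fin n → Rˣ) (u : GL (Fin n) R) (i j : Fin n) :
    (mon v d * u * (mon v d)⁻¹ : GL (Fin n) R) (v i) (v j) = d i * u i j * ((d j)⁻¹ : Rˣ) := by
  rw [mon_inv]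
  simp only [Units.val_mul, mul_apply, mon_apply, v.injective.eq_iff, ite_mul, mul_ite, zero_mul,
    mul_zero, Finset.sum_ite_eq, Finset.sum_ite_eq', Finset.mem_univ, if_true,
    Equiv.Perm.coe_inv, Equiv.symm_apply_apply]

theorem conj_mem (v : Equiv.Perm (Fin n)) (d : Fin n → Rˣ) {u : GL (Fin n) R}
    (h : ∀ i j, v j ≤ v i → u i j = if i = j then 1 else 0) :
    mon v d * u * (mon v d)⁻¹ ∈ Uni n R := fun i j hij => by
  obtain ⟨i, rfl⟩ := v.surjective i
  obtain ⟨j, rfl⟩ := v.surjective j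
  rw [conj_apply, h i j hij]
  by_cases e : i = j <;> simp [e]

theorem conj_el (v : Equiv.Perm (Fin n)) (d : Fin n → Rˣ) (h : a ≠ b) (hv : v a < v b) (c : R) :
    mon v d * el h c * (mon v d)⁻¹ ∈ Uni n R := by
  rw [mon_mul_el, mul_inv_cancel_right]
  exact el_mem_Uni hv _

theorem mon_mem {v : Equiv.Perm (Fin n)} {d : Fin n → Rˣ} [Nontrivial R] :
    mon v d ∈ Uni n R ↔ v = 1 ∧ ∀ j, d j = 1 := by
  refine ⟨fun h => ?_, fun h => ?_⟩
  · have key (j : Fin n) : j = v j ∧ d j = 1 := by
      have := h j j le_rfl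
      rw [mon_apply, if_pos rfl] at this
      split_ifs at this with e
      · exact ⟨e, Units.ext this⟩
      · exact absurd this zero_ne_one
    exact ⟨Equiv.ext fun j => (key j).1.symm, fun j => (key j).2⟩
  · rw [h.1, show d = 1 from funext h.2, mon_one]
    exact one_mem _

variable (a b) in
/-- The permutation matrix of a transposition. -/
def sw : GL (Fin n) R := mon (Equiv.swap a b) 1

theorem sw_mul_sw : (sw a b * sw a b : GL (Fin n) R) = 1 := by
  rw [sw, mon_mul, ← mon_one]
  congr 1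
  · simp
  · ext; simp

theorem sw_inv : (sw a b : GL (Fin n) R)⁻¹ = sw a b := inv_eq_of_mul_eq_one_right sw_mul_sw

theorem sw_conj_mem (h : a ⋖ b) {u : GL (Fin n) R} (hu : u ∈ Uni n R) (h0 : u a b = 0) :
    sw a b * u * (sw a b)⁻¹ ∈ Uni n R := by
  refine conj_mem _ _ fun i j hij => ?_
  rcases le_or_gt j i with h1 | h1
  · exact hu i j h1
  have h2 : (b : ℕ) = a + 1 := by
    by_contra e
    have h3 : (a : ℕ) < b := h.lt
    exact h.2 (c := ⟨a + 1, by omega⟩) (by simp [Fin.lt_def]) (by simp only [Fin.lt_def]; omega)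
  have : i = a ∧ j = b := by
    rw [Equiv.swap_apply_def, Equiv.swap_apply_def] at hij
    split_ifs at hij <;> simp only [Fin.le_def, Fin.lt_def, Fin.ext_iff] at * <;> omega
  obtain ⟨rfl, rfl⟩ := this
  rw [h0, if_neg h1.ne]

theorem sw_conj_apply (h : a < b) {u : GL (Fin n) R} (hu : u ∈ Uni n R) :
    (sw a b * u * (sw a b)⁻¹ : GL (Fin n) R) a b = 0 := by
  have := conj_apply (Equiv.swap a b) 1 u b a
  rw [Equiv.swap_apply_left, Equiv.swap_apply_right, hu b a h.le, if_neg h.ne'] at this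
  simpa [sw] using this

theorem el_mul_apply (h : a < b) {u : GL (Fin n) R} (hu : u ∈ Uni n R) (c : R) :
    (el h.ne c * u : GL (Fin n) R) a b = u a b + c := by
  rw [Units.val_mul, el_val, transvection_mul_apply_same, hu b b le_rfl, if_pos rfl, mul_one]

theorem mul_el_apply (h : a < b) {u : GL (Fin n) R} (hu : u ∈ Uni n R) (c : R) :
    (u * el h.ne c : GL (Fin n) R) a b = u a b + c := by
  rw [Units.val_mul, el_val, mul_transvection_apply_same, hu a a le_rfl, if_pos rfl, mul_one]

theorem left_mem (h : a ⋖ b) (u : Uni n R) :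
    sw a b * (el h.ne (-u.1 a b) * u.1) * (sw a b)⁻¹ ∈ Uni n R :=
  sw_conj_mem h (mul_mem (el_mem_Uni h.lt _) u.2) (by rw [el_mul_apply h.lt u.2, add_neg_cancel])

theorem right_mem (h : a ⋖ b) (u : Uni n R) :
    sw a b * (u.1 * el h.ne (-u.1 a b)) * (sw a b)⁻¹ ∈ Uni n R :=
  sw_conj_mem h (mul_mem u.2 (el_mem_Uni h.lt _)) (by rw [mul_el_apply h.lt u.2, add_neg_cancel])

variable (a b) in
/-- The diagonal part of the big cell of `SL_2`. -/
def dg (e : Rˣ) (j : Fin n) : Rˣ := if j = a then e else if j = b then -e⁻¹ else 1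

theorem el_mul_sw (h : a ≠ b) (e : Rˣ) : el h (e : R) * sw a b =
    el h.symm ((e⁻¹ : Rˣ) : R) * mon 1 (dg a b e) * el h ((e⁻¹ : Rˣ) : R) := by
  ext i j
  simp only [Units.val_mul, el_val]
  by_cases hi : i = a
  · subst hi
    rw [transvection_mul_apply_same]
    by_cases hj : j = b
    · subst hj
      rw [mul_transvection_apply_same, transvection_mul_apply_of_ne _ _ _ _ h,
        transvection_mul_apply_of_ne _ _ _ _ h]
      simp [sw, mon_apply, dg, h, h.symm]
    · rw [mul_transvection_apply_of_ne _ _ _ _ hj, transvection_mul_apply_of_ne _ _ _ _ h]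
      by_cases hj' : j = i
      · subst hj'; simp [sw, mon_apply, dg, h]
      · simp [sw, mon_apply, Equiv.swap_apply_of_ne_of_ne hj' hj, Ne.symm hj, Ne.symm hj']
  · rw [transvection_mul_apply_of_ne _ _ _ _ hi]
    by_cases hi' : i = b
    · subst hi'
      by_cases hj : j = i
      · subst hj
        rw [mul_transvection_apply_same, transvection_mul_apply_same, transvection_mul_apply_same]
        simp [sw, mon_apply, dg, h, h.symm]
      · rw [mul_transvection_apply_of_ne _ _ _ _ hj, transvection_mul_apply_same]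
        by_cases hj' : j = a
        · subst hj'; simp [sw, mon_apply, dg, h.symm]
        · simp [sw, mon_apply, Equiv.swap_apply_of_ne_of_ne hj' hj, Ne.symm hj, Ne.symm hj']
    · by_cases hj : j = b
      · subst hj
        rw [mul_transvection_apply_same, transvection_mul_apply_of_ne _ _ _ _ hi',
          transvection_mul_apply_of_ne _ _ _ _ hi']
        simp [sw, mon_apply, hi, hi']
      · rw [mul_transvection_apply_of_ne _ _ _ _ hj, transvection_mul_apply_of_ne _ _ _ _ hi']
        by_cases hj' : j = a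
        · subst hj'; simp [sw, mon_apply, hi, hi']
        · simp [sw, mon_apply, Equiv.swap_apply_of_ne_of_ne hj' hj, dg, hj, hj']

/-- Induction along reduced words. -/
theorem perm_induction {p : Equiv.Perm (Fin n) → Prop} (h1 : p 1)
    (hs : ∀ v a b, a ⋖ b → v⁻¹ a < v⁻¹ b → p v → p (Equiv.swap a b * v)) (v : Equiv.Perm (Fin n)) :
    p v := by
  suffices H : ∀ (f : Lex (Fin n → Fin n)) (v : Equiv.Perm (Fin n)), toLex ⇑v⁻¹ = f → p v from
    H _ v rfl
  intro f
  induction f using WellFoundedLT.induction with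
  | ind f ih =>
    rintro v rfl
    by_cases hm : Monotone ⇑v⁻¹
    · rwa [inv_eq_one.1 ((Equiv.Perm.monotone_iff _).1 hm)]
    rw [monotone_iff_forall_covBy] at hm
    push Not at hm
    obtain ⟨a, b, hab, hv⟩ := hm
    have e : ∀ i, (Equiv.swap a b * v)⁻¹ i = v⁻¹ (Equiv.swap a b i) := fun i => by simp
    rw [← Equiv.swap_mul_self_mul a b v]
    refine hs _ a b hab (by simpa only [e, Equiv.swap_apply_left, Equiv.swap_apply_right] using hv)
      (ih _ ⟨a, fun j hj => ?_, ?_⟩ _ rfl)
    · exact (e j).trans (by rw [Equiv.swap_apply_of_ne_of_ne hj.ne (hj.trans hab.lt).ne]; rfl)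
    · exact lt_of_eq_of_lt ((e a).trans (by rw [Equiv.swap_apply_left])) hv

end

end Pool.Agent.Lib.MP_fc2ced_ag.E.Conv
end

-- part Pool.Agent.Lib.MP_fc2ced_ag.EPur
section

/-! Etale neighbourhoods of a complete intersection. -/

open MvPolynomial

namespace Pool.Agent.Lib.MP_fc2ced_ag.E

open scoped TensorProduct

/-- unique lifting property of a ring map -/
def Lifts {A B : Type} [CommRing A] [CommRing B] (f : A →+* B) : Prop :=
  ∀ (R : Type) [CommRing R] (J : Ideal R), J ^ 2 = ⊥ → ∀ (g : A →+* R) (φ : B →+* R ⧸ J),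
    φ.comp f = (Ideal.Quotient.mk J).comp g →
      ∃! ψ : B →+* R, (Ideal.Quotient.mk J).comp ψ = φ ∧ ψ.comp f = g

theorem etale_iff_lifts {A B : Type} [CommRing A] [CommRing B] (f : A →+* B) :
    f.Etale ↔ Lifts f ∧ f.FinitePresentation := by
  let _ := f.toAlgebra
  have h1 : f.Etale ↔ Algebra.FormallyEtale A B ∧ f.FinitePresentation :=
    Algebra.etale_iff A B
  rw [h1, Algebra.FormallyEtale.iff_comp_bijective]
  refine and_congr_left fun _ => ⟨fun h R _ J hJ g φ hφ => ?_, fun h R _ _ J hJ => ?_⟩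
  · let _ := g.toAlgebra
    let φ' : B →ₐ[A] R ⧸ J := { φ with commutes' := fun a => RingHom.congr_fun hφ a }
    obtain ⟨ψ, hψ, hu⟩ := (Function.bijective_iff_existsUnique _).1 (h J hJ) φ'
    refine ⟨ψ.toRingHom, ⟨RingHom.ext fun b => AlgHom.congr_fun hψ b,
      RingHom.ext fun a => ψ.commutes a⟩, fun ψ' hψ' => ?_⟩
    let ψ'' : B →ₐ[A] R := { ψ' with commutes' := fun a => RingHom.congr_fun hψ'.2 a }
    have := hu ψ'' (AlgHom.ext fun b => RingHom.congr_fun hψ'.1 b)
    exact RingHom.ext fun b => AlgHom.congr_fun this b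
  · refine (Function.bijective_iff_existsUnique _).2 fun φ => ?_
    obtain ⟨ψ, hψ, hu⟩ := h R J hJ (algebraMap A R) φ.toRingHom (RingHom.ext fun a => φ.commutes a)
    refine ⟨{ ψ with commutes' := fun a => RingHom.congr_fun hψ.2 a },
      AlgHom.ext fun b => RingHom.congr_fun hψ.1 b, fun ψ' hψ' => ?_⟩
    have := hu ψ'.toRingHom ⟨RingHom.ext fun b => AlgHom.congr_fun hψ' b,
      RingHom.ext fun a => ψ'.commutes a⟩
    exact AlgHom.ext fun b => RingHom.congr_fun this b

variable {Y B : Type} [CommRing Y] [CommRing B] [Algebra Y B] {ι : Type} [Finite ι]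

omit [Finite ι] in
theorem aeval_comp_C (x : ι → B) :
    (aeval x : MvPolynomial ι Y →ₐ[Y] B).toRingHom.comp C = algebraMap Y B := by
  ext y
  simp

theorem fp_of_etale (x : ι → B) (hx : (aeval x : MvPolynomial ι Y →ₐ[Y] B).toRingHom.Etale) :
    Algebra.FinitePresentation Y B := by
  rw [← RingHom.finitePresentation_algebraMap, ← aeval_comp_C (Y := Y) x]
  refine RingHom.FinitePresentation.comp ((etale_iff_lifts _).1 hx).2 ?_
  rw [← algebraMap_eq, RingHom.finitePresentation_algebraMap]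
  infer_instance

omit [Finite ι] in
/-- lifting with prescribed values on the coordinates -/
theorem lift_coord (x : ι → B) (hx : (aeval x : MvPolynomial ι Y →ₐ[Y] B).toRingHom.Etale)
    {R : Type} [CommRing R] (J : Ideal R) (hJ : J ^ 2 = ⊥) (g : Y →+* R) (t : ι → R)
    (φ : B →+* R ⧸ J) (h1 : ∀ y, φ (algebraMap Y B y) = Ideal.Quotient.mk J (g y))
    (h2 : ∀ i, φ (x i) = Ideal.Quotient.mk J (t i)) :
    ∃! ψ : B →+* R, (Ideal.Quotient.mk J).comp ψ = φ ∧ (∀ y, ψ (algebraMap Y B y) = g y) ∧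
      ∀ i, ψ (x i) = t i := by
  obtain ⟨ψ, hψ, hu⟩ := ((etale_iff_lifts _).1 hx).1 R J hJ (eval₂Hom g t) φ (by
    ext
    · simp [h1]
    · simp [h2])
  refine ⟨ψ, ⟨hψ.1, fun y => ?_, fun i => ?_⟩, fun ψ' hψ' => hu ψ' ⟨hψ'.1, ?_⟩⟩
  · simpa using RingHom.congr_fun hψ.2 (C y)
  · simpa using RingHom.congr_fun hψ.2 (X i)
  · ext
    · simp [hψ'.2.1]
    · simp [hψ'.2.2]

theorem pow_eq_of_mk {R : Type} [CommRing R] (J : Ideal R) (hJ : J ^ 2 = ⊥) {p : ℕ} (hp : p.Prime)
    (h0 : (p : R) = 0) {a b : R} (h : Ideal.Quotient.mk J a = Ideal.Quotient.mk J b) :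
    a ^ p = b ^ p := by
  have h1 : a - b ∈ J := Ideal.Quotient.eq.1 h
  have h2 : (a - b) ^ 2 = 0 := by
    have := Ideal.pow_mem_pow h1 2
    rwa [hJ, Ideal.mem_bot] at this
  have h3 : (a - b) ^ p = 0 := pow_eq_zero_of_le hp.two_le h2
  obtain ⟨r, hr⟩ := exists_add_pow_prime_eq hp b (a - b)
  rw [add_sub_cancel, h3, h0] at hr
  simpa using hr

/-- Perturbing etale coordinates by combinations of `p`-th powers gives etale coordinates. -/
theorem etale_sub_pow (p : ℕ) (hp : p.Prime) (h0 : (p : Y) = 0) (x Ψ : ι → B)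
    (hx : (aeval x : MvPolynomial ι Y →ₐ[Y] B).toRingHom.Etale)
    (hΨ : ∀ i, Ψ i ∈ Submodule.span Y (Set.range fun b : B => b ^ p)) :
    (aeval (x - Ψ) : MvPolynomial ι Y →ₐ[Y] B).toRingHom.Etale := by
  refine (etale_iff_lifts _).2 ⟨fun R _ J hJ g φ hφ => ?_, ?_⟩
  · have h1 : ∀ y, φ (algebraMap Y B y) = Ideal.Quotient.mk J (g.comp C y) := fun y => by
      simpa using RingHom.congr_fun hφ (C y)
    have h2 : ∀ i, φ (x i - Ψ i) = Ideal.Quotient.mk J (g (X i)) := fun i => by
      simpa using RingHom.congr_fun hφ (X i)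
    have hR : (p : R) = 0 := by rw [← map_natCast (g.comp C) p, h0, map_zero]
    have hag : ∀ ψ ψ' : B →+* R, (Ideal.Quotient.mk J).comp ψ = φ →
        (Ideal.Quotient.mk J).comp ψ' = φ → (∀ y, ψ (algebraMap Y B y) = g.comp C y) →
        (∀ y, ψ' (algebraMap Y B y) = g.comp C y) → ∀ i, ψ (Ψ i) = ψ' (Ψ i) := by
      intro ψ ψ' e1 e2 e3 e4 i
      refine Submodule.span_induction (p := fun b _ => ψ b = ψ' b) ?_ ?_ ?_ ?_ (hΨ i)
      · rintro _ ⟨b, rfl⟩
        rw [map_pow, map_pow]
        exact pow_eq_of_mk J hJ hp hR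
          ((RingHom.congr_fun e1 b).trans (RingHom.congr_fun e2 b).symm)
      · rw [map_zero, map_zero]
      · intro a b _ _ ha hb
        rw [map_add, map_add, ha, hb]
      · intro y b _ hb
        rw [Algebra.smul_def, map_mul, map_mul, hb, e3, e4]
    choose t ht using fun i => Ideal.Quotient.mk_surjective (φ (x i))
    obtain ⟨ψ₀, ⟨a1, a2, -⟩, -⟩ := lift_coord x hx J hJ (g.comp C) t φ h1 fun i => (ht i).symm
    obtain ⟨ψ, ⟨b1, b2, b3⟩, hu⟩ := lift_coord x hx J hJ (g.comp C)
      (fun i => g (X i) + ψ₀ (Ψ i)) φ h1 fun i => by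
        rw [map_add, ← h2, show Ideal.Quotient.mk J (ψ₀ (Ψ i)) = φ (Ψ i) from
          RingHom.congr_fun a1 _, ← map_add, sub_add_cancel]
    refine ⟨ψ, ⟨b1, ?_⟩, fun ψ' hψ' => ?_⟩
    · ext y
      · simpa using b2 y
      · simp [b3, hag ψ ψ₀ b1 a1 b2 a2]
    · have c2 : ∀ y, ψ' (algebraMap Y B y) = g.comp C y := fun y => by
        simpa using RingHom.congr_fun hψ'.2 (C y)
      refine hu ψ' ⟨hψ'.1, c2, fun i => ?_⟩
      have c3 : ψ' (x i) - ψ' (Ψ i) = g (X i) := by
        simpa using RingHom.congr_fun hψ'.2 (X i)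
      rw [← hag ψ' ψ₀ hψ'.1 a1 c2 a2, ← c3, sub_add_cancel]
  · refine RingHom.FinitePresentation.of_comp_finiteType C ?_ ?_
    · rw [aeval_comp_C, RingHom.finitePresentation_algebraMap]
      exact fp_of_etale x hx
    · rw [← algebraMap_eq, RingHom.finiteType_algebraMap]
      infer_instance

/-- The zero scheme of etale coordinates is etale over the base. -/
theorem etale_quot (f : ι → B) (hf : (aeval f : MvPolynomial ι Y →ₐ[Y] B).toRingHom.Etale) :
    Algebra.Etale Y (B ⧸ Ideal.span (Set.range f)) := by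
  rw [← RingHom.etale_algebraMap]
  refine (etale_iff_lifts _).2 ⟨fun R _ J hJ g φ hφ => ?_, ?_⟩
  · have hz : ∀ i, Ideal.Quotient.mk (Ideal.span (Set.range f)) (f i) = 0 := fun i =>
      Ideal.Quotient.eq_zero_iff_mem.2 (Ideal.subset_span ⟨i, rfl⟩)
    obtain ⟨ψ, ⟨b1, b2, b3⟩, hu⟩ := lift_coord f hf J hJ g 0 (φ.comp (Ideal.Quotient.mk _))
      (fun y => RingHom.congr_fun hφ y) fun i => by simp [hz]
    have hk : ∀ a ∈ Ideal.span (Set.range f), ψ a = 0 := by
      intro a ha
      refine (Ideal.span_le (I := RingHom.ker ψ)).2 ?_ ha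
      rintro _ ⟨i, rfl⟩
      exact b3 i
    refine ⟨Ideal.Quotient.lift _ ψ hk, ⟨?_, ?_⟩, fun ψ' hψ' => ?_⟩
    · exact Ideal.Quotient.ringHom_ext (RingHom.ext fun b => RingHom.congr_fun b1 b)
    · exact RingHom.ext fun y => b2 y
    · have := hu (ψ'.comp (Ideal.Quotient.mk _)) ⟨by rw [← hψ'.1]; rfl,
        fun y => RingHom.congr_fun hψ'.2 y, fun i => by simp [hz]⟩
      exact Ideal.Quotient.ringHom_ext (RingHom.ext fun b => RingHom.congr_fun this b)
  · rw [RingHom.finitePresentation_algebraMap]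
    have := fp_of_etale f hf
    exact Algebra.FinitePresentation.quotient (Submodule.fg_span (Set.finite_range f))

theorem quotientMap_bij {A B' : Type} [CommRing A] [CommRing B'] (I : Ideal A) (f : A →+* B')
    (h1 : ∀ a, f a ∈ I.map f → a ∈ I) (h2 : ∀ z, ∃ a, f a - z ∈ I.map f) :
    Function.Bijective (Ideal.quotientMap (I.map f) f Ideal.le_comap_map) := by
  constructor
  · rw [injective_iff_map_eq_zero]
    intro a ha
    obtain ⟨a, rfl⟩ := Ideal.Quotient.mk_surjective a
    rw [Ideal.quotientMap_mk, Ideal.Quotient.eq_zero_iff_mem] at ha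
    exact Ideal.Quotient.eq_zero_iff_mem.2 (h1 a ha)
  · intro z
    obtain ⟨z, rfl⟩ := Ideal.Quotient.mk_surjective z
    obtain ⟨a, ha⟩ := h2 z
    exact ⟨Ideal.Quotient.mk I a, by rw [Ideal.quotientMap_mk]; exact Ideal.Quotient.eq.2 ha⟩

omit [Finite ι] in
theorem sub_C_mem {A : Type} [CommRing A] (q : MvPolynomial ι A) :
    q - C (constantCoeff q) ∈ Ideal.span (Set.range (X : ι → MvPolynomial ι A)) := by
  rw [← Ideal.Quotient.eq]
  have : Ideal.Quotient.mk (Ideal.span (Set.range (X : ι → MvPolynomial ι A))) =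
      (Ideal.Quotient.mk _).comp (C.comp constantCoeff) := by
    ext i
    · simp
    · simp
  exact RingHom.congr_fun this q

omit [Finite ι] in
theorem etale_map {A : Type} [CommRing A] [Algebra Y A] [Algebra.Etale Y A] :
    (MvPolynomial.map (σ := ι) (algebraMap Y A)).Etale := by
  let _ : Algebra (MvPolynomial ι Y) (MvPolynomial ι A) := MvPolynomial.algebraMvPolynomial
  exact RingHom.Etale.isStableUnderBaseChange Y A (MvPolynomial ι Y) (MvPolynomial ι A)
    (RingHom.etale_algebraMap.2 inferInstance)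

theorem etale_cancel {R A W : Type} [CommRing R] [CommRing A] [CommRing W] (u : R →+* A)
    (v : A →+* W) (hu : u.Etale) (huv : (v.comp u).Etale) : v.Etale := by
  algebraize [u, v, v.comp u]
  exact Algebra.Etale.of_restrictScalars R A W

/-- the general form, for an etale quotient `A` of `B` -/
theorem exists_nis_aux {A : Type} [CommRing A] [Algebra Y A] [Algebra.Etale Y A] (π : B →ₐ[Y] A)
    (hπ : Function.Surjective π) :
    ∃ θ : B ⊗[Y] A, Algebra.TensorProduct.lift π (AlgHom.id Y A) (fun _ _ => .all _ _) θ = 1 ∧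
      ∀ (D : Type) [CommRing D] (u : A →+* D) (ρ : B ⊗[Y] A →+* D),
        (∀ b, ρ (b ⊗ₜ 1) = u (π b)) → IsUnit (ρ θ) → ∀ a, ρ (1 ⊗ₜ a) = u a := by
  obtain ⟨e, he1, he2⟩ := (Algebra.FormallyUnramified.iff_exists_tensorProduct
    (R := Y) (S := A)).1 inferInstance
  obtain ⟨θ, rfl⟩ := Algebra.TensorProduct.map_surjective π (AlgHom.id Y A) hπ
    Function.surjective_id e
  refine ⟨θ, ?_, fun D _ u ρ h1 h2 a => ?_⟩
  · rw [← he2]
    have : Algebra.TensorProduct.lift π (AlgHom.id Y A) (fun _ _ => .all _ _) =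
        (Algebra.TensorProduct.lmul' Y).comp (Algebra.TensorProduct.map π (AlgHom.id Y A)) := by
      ext <;> simp
    exact AlgHom.congr_fun this θ
  · let _ : Algebra Y D := (u.comp (algebraMap Y A)).toAlgebra
    let u' : A →ₐ[Y] D := { u with commutes' := fun _ => rfl }
    have hv : ∀ y, ρ (1 ⊗ₜ algebraMap Y A y) = u (algebraMap Y A y) := fun y => by
      rw [← π.commutes, ← h1, π.commutes, Algebra.algebraMap_eq_smul_one,
        Algebra.algebraMap_eq_smul_one, TensorProduct.smul_tmul]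
    let v' : A →ₐ[Y] D :=
      { ρ.comp (Algebra.TensorProduct.includeRight (R := Y) (A := B) (B := A)).toRingHom with
        commutes' := hv }
    let σ : A ⊗[Y] A →ₐ[Y] D := Algebra.TensorProduct.lift u' v' fun _ _ => .all _ _
    have hσ : σ.toRingHom.comp (Algebra.TensorProduct.map π (AlgHom.id Y A)).toRingHom = ρ := by
      refine Algebra.TensorProduct.ringHom_ext ?_ ?_
      · ext b
        simp [σ, u', h1]
      · ext b
        simp [σ, v']
    have h3 := congrArg σ (he1 a)
    rw [map_mul, map_zero,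
      show σ (Algebra.TensorProduct.map π (AlgHom.id Y A) θ) = ρ θ from RingHom.congr_fun hσ θ,
      h2.mul_left_eq_zero, map_sub, sub_eq_zero] at h3
    simpa [σ, u', v', ← Algebra.TensorProduct.one_def] using h3

/-- `Spec B` and `Z × 𝔸^ι` have a common etale neighbourhood of the zero scheme `Z` of `f`. -/
theorem exists_nis_pair (f : ι → B) (hf : (aeval f : MvPolynomial ι Y →ₐ[Y] B).toRingHom.Etale) :
    ∃ (B' : Type) (_ : CommRing B') (α : B →+* B')
      (β : MvPolynomial ι (B ⧸ Ideal.span (Set.range f)) →+* B'), α.Etale ∧ β.Etale ∧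
      (∀ i, β (X i) = α (f i)) ∧ (∀ y : Y, β (algebraMap Y _ y) = α (algebraMap Y B y)) ∧
      Function.Bijective (Ideal.quotientMap ((Ideal.span (Set.range f)).map α) α
        Ideal.le_comap_map) ∧
      Function.Bijective (Ideal.quotientMap ((Ideal.span (Set.range X)).map β) β
        Ideal.le_comap_map) := by
  have := etale_quot f hf
  obtain ⟨I, hI⟩ : ∃ I, I = Ideal.span (Set.range f) := ⟨_, rfl⟩
  rw [← hI] at this ⊢
  have hz : ∀ i, Ideal.Quotient.mk I (f i) = 0 := fun i =>
    Ideal.Quotient.eq_zero_iff_mem.2 (hI ▸ Ideal.subset_span ⟨i, rfl⟩)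
  obtain ⟨θ, h1, h2⟩ := exists_nis_aux (Ideal.Quotient.mkₐ Y I) Ideal.Quotient.mk_surjective
  set μ := Algebra.TensorProduct.lift (Ideal.Quotient.mkₐ Y I) (AlgHom.id Y (B ⧸ I))
    (fun _ _ => Commute.all _ _) with hμ
  let j := algebraMap (B ⊗[Y] (B ⧸ I)) (Localization.Away θ)
  let α₀ := algebraMap B (B ⊗[Y] (B ⧸ I))
  let β₀ : MvPolynomial ι (B ⧸ I) →+* B ⊗[Y] (B ⧸ I) := eval₂Hom
    (Algebra.TensorProduct.includeRight (R := Y) (A := B) (B := B ⧸ I)).toRingHom
    fun i => f i ⊗ₜ 1
  have hα₀ : ∀ b, α₀ b = b ⊗ₜ 1 := fun _ => rfl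
  have hβX : ∀ i, β₀ (X i) = f i ⊗ₜ 1 := fun i => eval₂Hom_X' _ _ _
  have hβC : ∀ a, β₀ (C a) = 1 ⊗ₜ a := fun a => eval₂Hom_C _ _ _
  have hY : ∀ y, β₀ (C (algebraMap Y _ y)) = α₀ (algebraMap Y B y) := fun y => by
    rw [hβC, hα₀, Algebra.algebraMap_eq_smul_one, Algebra.algebraMap_eq_smul_one,
      TensorProduct.smul_tmul]
  have ej : j.Etale := RingHom.etale_algebraMap.2 inferInstance
  have eα : α₀.Etale := RingHom.etale_algebraMap.2 inferInstance
  have eβ : β₀.Etale := by
    refine etale_cancel (MvPolynomial.map (σ := ι) (algebraMap Y (B ⧸ I))) β₀ etale_map ?_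
    have : β₀.comp (MvPolynomial.map (σ := ι) (algebraMap Y (B ⧸ I))) =
        α₀.comp (aeval f : MvPolynomial ι Y →ₐ[Y] B).toRingHom := by
      refine MvPolynomial.ringHom_ext (fun y => ?_) fun i => ?_
      · simpa using hY y
      · simp [hβX, hα₀]
    rw [this]
    exact RingHom.Etale.stableUnderComposition _ _ hf eα
  have hK : (Ideal.span (Set.range X)).map (j.comp β₀) = I.map (j.comp α₀) := by
    refine Eq.trans ?_ (congrArg (Ideal.map (j.comp α₀)) hI).symm
    rw [Ideal.map_span, Ideal.map_span, ← Set.range_comp, ← Set.range_comp]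
    congr 2
    funext i
    simp [hβX, hα₀]
  let pr : Localization.Away θ →+* B ⧸ I :=
    IsLocalization.Away.lift θ (g := μ.toRingHom) (by
      rw [show μ.toRingHom θ = 1 from h1]; exact isUnit_one)
  have hpr : ∀ w, pr (j w) = μ w := fun w => IsLocalization.Away.lift_eq _ _ _
  have hker : ∀ z ∈ I.map (j.comp α₀), pr z = 0 := by
    intro z hz'
    refine (Ideal.map_le_iff_le_comap (K := RingHom.ker pr)).2 (fun b hb => ?_) hz'
    rw [Ideal.mem_comap, RingHom.mem_ker, RingHom.comp_apply, hpr, hα₀]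
    simpa [hμ] using Ideal.Quotient.eq_zero_iff_mem.2 hb
  let u := Ideal.quotientMap (I.map (j.comp α₀)) (j.comp α₀) Ideal.le_comap_map
  let ρ := (Ideal.Quotient.mk (I.map (j.comp α₀))).comp j
  have hu : ∀ b, ρ (b ⊗ₜ 1) = u (Ideal.Quotient.mkₐ Y I b) := fun b => rfl
  have hv := h2 _ u ρ hu ((IsLocalization.Away.algebraMap_isUnit θ).map
    (Ideal.Quotient.mk (I.map (j.comp α₀))))
  have hρ : ρ = u.comp μ.toRingHom := by
    refine Algebra.TensorProduct.ringHom_ext ?_ ?_
    · refine RingHom.ext fun b => ?_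
      simpa [hμ] using hu b
    · refine RingHom.ext fun a => ?_
      simpa [hμ] using hv a
  have hsurj : ∀ z, ∃ a, u a = Ideal.Quotient.mk _ z := by
    intro z
    obtain ⟨n, w, hw⟩ := IsLocalization.Away.surj θ z
    refine ⟨μ w, ?_⟩
    have h3 : ρ θ = 1 := by
      rw [hρ, RingHom.comp_apply, show μ.toRingHom θ = 1 from h1, map_one]
    have h4 := congrArg (Ideal.Quotient.mk (I.map (j.comp α₀))) hw
    rw [map_mul, map_pow] at h4
    change _ * ρ θ ^ n = ρ w at h4
    rw [h3, one_pow, mul_one, hρ] at h4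
    exact h4.symm
  refine ⟨Localization.Away θ, inferInstance, j.comp α₀, j.comp β₀,
    RingHom.Etale.stableUnderComposition _ _ eα ej, RingHom.Etale.stableUnderComposition _ _ eβ ej,
    fun i => congrArg j (hβX i), fun y => congrArg j (hY y), quotientMap_bij _ _ ?_ ?_,
    quotientMap_bij _ _ ?_ ?_⟩
  · intro b hb
    have h3 := hker _ hb
    rw [RingHom.comp_apply, hpr, hα₀] at h3
    exact Ideal.Quotient.eq_zero_iff_mem.1 (by simpa [hμ] using h3)
  · intro z
    obtain ⟨a, ha⟩ := hsurj z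
    obtain ⟨b, rfl⟩ := Ideal.Quotient.mk_surjective a
    exact ⟨b, Ideal.Quotient.eq.1 ha⟩
  · intro q hq
    rw [hK] at hq
    have h3 := hker _ hq
    have h4 : μ.toRingHom.comp β₀ = constantCoeff := by
      refine MvPolynomial.ringHom_ext (fun a => ?_) fun i => ?_
      · simp [hβC, hμ]
      · simp [hβX, hμ, hz]
    rw [RingHom.comp_apply, hpr, show μ (β₀ q) = constantCoeff q from RingHom.congr_fun h4 q] at h3
    simpa [h3] using sub_C_mem q
  · intro z
    obtain ⟨a, ha⟩ := hsurj z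
    refine ⟨C a, ?_⟩
    rw [hK, ← Ideal.Quotient.eq, ← ha, ← hv, RingHom.comp_apply, hβC]
    rfl

end Pool.Agent.Lib.MP_fc2ced_ag.E
end

-- part Pool.Agent.Lib.MP_fc2ced_ag.ELangA
section

/-! Commutative algebra for Lang's theorem: integral maps and points in absolutely integrally
closed domains; a matrix over a field is conjugate to its transpose. -/

open Matrix Polynomial

namespace Pool.Agent.Lib.MP_fc2ced_ag.E.Lang

/-- Roots of monic polynomials over an absolutely integrally closed ring are rational. -/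
theorem mem_range_of_root {O L : Type} [CommRing O] [Nontrivial O] [CommRing L] [IsDomain L]
    (root : ∀ f : O[X], f.Monic → 0 < f.degree → ∃ x, f.IsRoot x) (ι : O →+* L) {x : L}
    (f : O[X]) (hf : f.Monic) (hx : f.eval₂ ι x = 0) : x ∈ ι.range := by
  induction hd : f.natDegree using Nat.strong_induction_on generalizing f with
  | _ d ih =>
    by_cases h0 : 0 < f.degree
    · obtain ⟨a, ha⟩ := root f hf h0
      have hm := mul_divByMonic_eq_iff_isRoot.2 ha
      have hg : (f /ₘ (X - C a)).Monic := (monic_X_sub_C a).of_mul_monic_left (by rwa [hm])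
      rw [← hm, eval₂_mul, mul_eq_zero] at hx
      rcases hx with hx | hx
      · rw [eval₂_sub, eval₂_X, eval₂_C, sub_eq_zero] at hx
        exact ⟨a, hx.symm⟩
      · refine ih _ ?_ _ hg hx rfl
        rw [← hd, natDegree_divByMonic _ (monic_X_sub_C a), natDegree_X_sub_C]
        have := natDegree_pos_iff_degree_pos.2 h0
        omega
    · rw [hf.degree_le_zero_iff_eq_one.1 (not_lt.1 h0), eval₂_one] at hx
      exact absurd hx one_ne_zero

/-- Points in algebraically closed fields lift along injective integral maps. -/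
theorem lift_field {A B L : Type} [CommRing A] [CommRing B] [Field L] [IsAlgClosed L]
    (φ : A →+* B) (hφ : φ.IsIntegral) (hi : Function.Injective φ) (ψ : A →+* L) :
    ∃ ψ' : B →+* L, ψ'.comp φ = ψ := by
  let := φ.toAlgebra
  have : Algebra.IsIntegral A B := ⟨hφ⟩
  have := RingHom.ker_isPrime ψ
  obtain ⟨Q, -, hQ, hc⟩ := Ideal.exists_ideal_over_prime_of_isIntegral (RingHom.ker ψ)
    (⊥ : Ideal B) (by
      rw [← RingHom.ker_eq_comap_bot]
      exact ((RingHom.injective_iff_ker_eq_bot φ).1 hi).trans_le bot_le)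
  have hk : ∀ a ∈ Q.comap (algebraMap A B), ψ a = 0 := fun a ha => by rwa [hc] at ha
  let : Algebra (A ⧸ Q.comap (algebraMap A B)) L := (Ideal.Quotient.lift _ ψ hk).toAlgebra
  have : Module.IsTorsionFree (A ⧸ Q.comap (algebraMap A B)) L :=
    Module.isTorsionFree_iff_algebraMap_injective.2
      (RingHom.lift_injective_of_ker_le_ideal _ hk hc.ge)
  have : Module.IsTorsionFree (A ⧸ Q.comap (algebraMap A B)) (B ⧸ Q) :=
    Module.isTorsionFree_iff_algebraMap_injective.2 Ideal.algebraMap_quotient_injective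
  let l : (B ⧸ Q) →ₐ[A ⧸ Q.comap (algebraMap A B)] L := IsAlgClosed.lift
  refine ⟨l.toRingHom.comp (Ideal.Quotient.mk Q), RingHom.ext fun a => ?_⟩
  exact l.commutes (Ideal.Quotient.mk _ a)

/-- Points in absolutely integrally closed domains lift along injective integral maps. -/
theorem lift_point {A B O : Type} [CommRing A] [CommRing B] [CommRing O] [IsDomain O]
    (root : ∀ f : O[X], f.Monic → 0 < f.degree → ∃ x, f.IsRoot x)
    (φ : A →+* B) (hφ : φ.IsIntegral) (hi : Function.Injective φ) (ψ : A →+* O) :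
    ∃ ψ' : B →+* O, ψ'.comp φ = ψ := by
  let L := AlgebraicClosure (FractionRing O)
  let ι : O →+* L := (algebraMap (FractionRing O) L).comp (algebraMap O (FractionRing O))
  have hι : Function.Injective ι :=
    (algebraMap (FractionRing O) L).injective.comp (IsFractionRing.injective O _)
  obtain ⟨χ, hχ⟩ := lift_field φ hφ hi (ι.comp ψ)
  have hr : ∀ b, χ b ∈ ι.range := by
    intro b
    obtain ⟨f, hf, hb⟩ := hφ b
    refine mem_range_of_root root ι (f.map ψ) (hf.map ψ) ?_
    rw [eval₂_map, ← hχ, ← hom_eval₂, hb, map_zero]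
  choose g hg using hr
  refine ⟨⟨⟨⟨g, hι ?_⟩, fun a b => hι ?_⟩, hι ?_, fun a b => hι ?_⟩, RingHom.ext fun a => hι ?_⟩
  · rw [hg, map_one, map_one]
  · rw [map_mul, hg, hg, hg, map_mul]
  · rw [hg, map_zero, map_zero]
  · rw [map_add, hg, hg, hg, map_add]
  · exact (hg _).trans (congrArg (fun f : A →+* L => f a) hχ)

/-- An integral endomorphism of a Noetherian domain is injective. -/
theorem injective_of_integral {A : Type} [CommRing A] [IsDomain A] [IsNoetherianRing A]
    (φ : A →+* A) (hφ : φ.IsIntegral) : Function.Injective φ := by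
  by_contra hn
  let I : ℕ → Ideal A := fun m => Nat.rec ⊥ (fun _ J => J.comap φ) m
  have hp : ∀ m, (I m).IsPrime := fun m => by
    induction m with
    | zero => exact Ideal.isPrime_bot
    | succ m ih => exact Ideal.comap_isPrime φ _
  have hlt : ∀ m, I m < I (m + 1) := fun m => by
    induction m with
    | zero =>
      refine bot_lt_iff_ne_bot.2 fun h => hn ((RingHom.injective_iff_ker_eq_bot _).2 ?_)
      rw [RingHom.ker_eq_comap_bot]
      exact h
    | succ m ih =>
      obtain ⟨x, hx1, hx2⟩ := SetLike.exists_of_lt ih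
      have := hp m
      exact @Ideal.comap_lt_comap_of_integral_mem_sdiff A _ A _ _ _ φ.toAlgebra _ ih.le x
        ⟨hx1, hx2⟩ (hφ x)
  obtain ⟨m, hm⟩ := monotone_stabilizes_iff_noetherian.2 (inferInstance : IsNoetherian A A)
    ⟨I, monotone_nat_of_le_succ fun m => (hlt m).le⟩
  exact (hlt m).ne (hm (m + 1) (Nat.le_succ m))

/-- Solutions of `x ^ Q = x a` are integral. -/
theorem integral_of_pow {R S ι : Type} [CommRing R] [CommRing S] [IsDomain S] [Fintype ι]
    (φ : R →+* S) (x : ι → S) {Q : ℕ} (hQ : 1 < Q) (a : ι → ι → R)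
    (h : ∀ i, x i ^ Q = ∑ j, x j * φ (a i j)) (i : ι) : φ.IsIntegralElem (x i) := by
  classical
  let := φ.toAlgebra
  let m : (ι → ℕ) → S := fun α => ∏ j, x j ^ α j
  have hm : ∀ α j t, m (α + Pi.single j t) = m α * x j ^ t := by
    intro α j t
    simp only [m, Pi.add_apply, pow_add, Finset.prod_mul_distrib]
    congr 1
    rw [Finset.prod_eq_single j (fun l _ hl => by rw [Pi.single_eq_of_ne hl, pow_zero])
      (fun hj => absurd (Finset.mem_univ j) hj), Pi.single_eq_same]
  let N : Submodule R S := Submodule.span R (m '' ↑(Fintype.piFinset fun _ : ι => Finset.range Q))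
  have hN : ∀ α, m α ∈ N := by
    intro α
    induction hd : ∑ j, α j using Nat.strong_induction_on generalizing α with
    | _ d ih =>
      by_cases hα : ∀ j, α j < Q
      · exact Submodule.subset_span ⟨α, by simpa using hα, rfl⟩
      · push Not at hα
        obtain ⟨j, hj⟩ := hα
        obtain ⟨β, rfl⟩ : ∃ β : ι → ℕ, α = β + (Pi.single j Q : ι → ℕ) := by
          refine ⟨fun l => α l - (Pi.single j Q : ι → ℕ) l, funext fun l => ?_⟩
          rw [Pi.add_apply]
          by_cases hl : l = j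
          · subst hl
            rw [Pi.single_eq_same, Nat.sub_add_cancel hj]
          · rw [Pi.single_eq_of_ne hl, Nat.sub_zero, add_zero]
        rw [hm, h, Finset.mul_sum]
        refine N.sum_mem fun l _ => ?_
        have h1 : m β * (x l * φ (a j l)) = a j l • m (β + Pi.single l 1) := by
          rw [hm, pow_one, Algebra.smul_def]
          change _ = φ _ * _
          ring
        rw [h1]
        refine N.smul_mem _ (ih _ ?_ _ rfl)
        rw [← hd]
        simpa [Finset.sum_add_distrib] using hQ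
  refine isIntegral_of_smul_mem_submodule N ?_
    (Submodule.fg_span ((Finset.finite_toSet _).image _)) (x i) fun y hy => ?_
  · intro h0
    have h1 := hN 0
    rw [h0, Submodule.mem_bot] at h1
    simp [m] at h1
  · induction hy using Submodule.span_induction with
    | mem y hy =>
      obtain ⟨α, -, rfl⟩ := hy
      rw [smul_eq_mul, mul_comm, ← pow_one (x i), ← hm]
      exact hN _
    | zero => rw [smul_zero]; exact N.zero_mem
    | add y z _ _ hy hz => rw [smul_add]; exact N.add_mem hy hz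
    | smul c y _ hy => rw [smul_comm]; exact N.smul_mem c hy

variable {k : Type} [Field k]

/-- `k[X] / (f)` is a Frobenius algebra. -/
theorem exists_frob (f : k[X]) (hf : f ≠ 0) : ∃ L : (k[X] ⧸ Ideal.span {f}) →ₗ[k] k,
    ∀ a, (∀ b, L (a * b) = 0) → a = 0 := by
  have hg : (f * C f.leadingCoeff⁻¹).Monic := monic_mul_leadingCoeff_inv hf
  set g := f * C f.leadingCoeff⁻¹ with hgd
  have hfg : g ∣ f := ⟨C f.leadingCoeff, by
    rw [hgd, mul_assoc, ← C_mul, inv_mul_cancel₀ (leadingCoeff_ne_zero.2 hf), C_1, mul_one]⟩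
  let L0 : k[X] →ₗ[k] k := (lcoeff k (g.natDegree - 1)).comp (modByMonicHom g)
  have h0 : ∀ a, g ∣ a → L0 a = 0 := fun a ha => by
    simp [L0, (modByMonic_eq_zero_iff_dvd hg).2 ha]
  let L : (k[X] ⧸ Ideal.span {f}) →ₗ[k] k :=
    (((Ideal.span {f}).restrictScalars k).liftQ L0 fun a ha =>
      h0 a (hfg.trans (Ideal.mem_span_singleton.1 ha))).comp
      (Submodule.Quotient.restrictScalarsEquiv k (Ideal.span {f} : Ideal k[X])).symm.toLinearMap
  have hL : ∀ a, L (Ideal.Quotient.mk _ a) = L0 a := fun _ => rfl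
  refine ⟨L, fun a ha => ?_⟩
  obtain ⟨a, rfl⟩ := Ideal.Quotient.mk_surjective a
  rw [Ideal.Quotient.eq_zero_iff_mem, Ideal.mem_span_singleton]
  refine (dvd_mul_right f _).trans ((modByMonic_eq_zero_iff_dvd hg).1 ?_)
  by_contra hne
  have hlt : (a %ₘ g).natDegree < g.natDegree :=
    natDegree_lt_natDegree hne (degree_modByMonic_lt a hg)
  obtain ⟨t, ht⟩ : ∃ t, (a %ₘ g).natDegree + t = g.natDegree - 1 := ⟨_, Nat.add_sub_of_le (by omega)⟩
  have h1 := ha (Ideal.Quotient.mk _ (X ^ t))
  rw [← map_mul, hL] at h1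
  have h2 : a * X ^ t = a %ₘ g * X ^ t + g * (a /ₘ g * X ^ t) := by
    rw [← mul_assoc, ← add_mul, modByMonic_add_div]
  have h3 : (a %ₘ g * X ^ t) %ₘ g = a %ₘ g * X ^ t := by
    rw [modByMonic_eq_self_iff hg]
    refine degree_lt_degree ?_
    rw [natDegree_mul_X_pow t hne]
    omega
  rw [h2, map_add, h0 _ (dvd_mul_right _ _), add_zero] at h1
  change ((a %ₘ g * X ^ t) %ₘ g).coeff (g.natDegree - 1) = 0 at h1
  rw [h3, ← ht, coeff_mul_X_pow] at h1
  exact hne (leadingCoeff_eq_zero.1 h1)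

/-- A matrix over a field is conjugate to its transpose. -/
theorem conj_transpose {n : ℕ} (M : Matrix (Fin n) (Fin n) k) :
    ∃ S : Matrix (Fin n) (Fin n) k, S.det ≠ 0 ∧ Mᵀ * S = S * M := by
  classical
  obtain ⟨ι, _, q, hq, e, ⟨E⟩⟩ := Module.equiv_directSum_of_isTorsion (R := k[X])
    (M := Module.AEval' (toLin' M)) (Module.AEval.isTorsion_of_finiteDimensional k _ _)
  choose L hL using fun i => exists_frob (q i ^ e i) (pow_ne_zero _ (hq i).ne_zero)
  let π : ∀ i, (Fin n → k) →ₗ[k] (k[X] ⧸ Ideal.span {q i ^ e i}) := fun i =>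
    (((DirectSum.component k[X] ι _ i).comp E.toLinearMap).restrictScalars k).comp
      (Module.AEval'.of (toLin' M)).toLinearMap
  have hπ : ∀ i u, π i u = E (Module.AEval'.of (toLin' M) u) i := fun _ _ => rfl
  have hX : ∀ i u, π i (toLin' M u) = Ideal.Quotient.mk _ X * π i u := by
    intro i u
    rw [hπ, ← Module.AEval'.X_smul_of, map_smul]
    rfl
  let B : (Fin n → k) →ₗ[k] (Fin n → k) →ₗ[k] k :=
    ∑ i, ((LinearMap.mul k _).compr₂ (L i)).compl₁₂ (π i) (π i)
  have hB : ∀ u w, B u w = ∑ i, L i (π i u * π i w) := fun u w => by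
    simp [B, LinearMap.sum_apply]
  refine ⟨LinearMap.toMatrix₂' k B, fun h0 => ?_, ?_⟩
  · obtain ⟨v, hv, h1⟩ := exists_vecMul_eq_zero_iff.2 h0
    have h2 : ∀ w, B v w = 0 := fun w => by
      rw [← Matrix.toLinearMap₂'_toMatrix' (R := k) B, Matrix.toLinearMap₂'_apply', dotProduct_mulVec, h1,
        zero_dotProduct]
    refine hv ((Module.AEval'.of (toLin' M)).injective (E.injective ?_))
    rw [map_zero, map_zero]
    refine DFinsupp.ext fun i => hL i _ fun b => ?_
    have h3 := h2 ((Module.AEval'.of (toLin' M)).symm (E.symm (DirectSum.of _ i b)))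
    rw [hB, Finset.sum_eq_single i] at h3
    · rw [hπ i ((Module.AEval'.of (toLin' M)).symm _), LinearEquiv.apply_symm_apply,
        LinearEquiv.apply_symm_apply, DirectSum.of_eq_same] at h3
      exact h3
    · intro j _ hj
      rw [hπ j ((Module.AEval'.of (toLin' M)).symm _), LinearEquiv.apply_symm_apply,
        LinearEquiv.apply_symm_apply, DirectSum.of_eq_of_ne _ _ _ hj, mul_zero, map_zero]
    · simp
  · refine (isAdjointPair_toLinearMap₂' _ _ M M).1 ?_
    rw [Matrix.toLinearMap₂'_toMatrix']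
    intro u w
    rw [hB, hB]
    refine Finset.sum_congr rfl fun i _ => ?_
    rw [hX, hX]
    congr 1
    ring

end Pool.Agent.Lib.MP_fc2ced_ag.E.Lang
end

-- part Pool.Agent.Lib.MP_fc2ced_ag.ELang
section

/-! Lang's theorem for centralizers in `GL_n`, over absolutely integrally closed domains. -/

open Matrix Polynomial

namespace Pool.Agent.Lib.MP_fc2ced_ag.E

namespace Lang

variable {n : ℕ}

theorem gm_gm {R S T : Type} [CommRing R] [CommRing S] [CommRing T] (φ : R →+* S) (ψ : S →+* T)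
    (g : GL (Fin n) R) : gm ψ (gm φ g) = gm (ψ.comp φ) g := rfl

theorem gm_injective {S A : Type} [CommRing S] [CommRing A] {f : S →+* A}
    (hf : Function.Injective f) : Function.Injective (gm (n := n) f) := fun g g' h => by
  ext i j
  exact hf (by rw [← gm_apply, h, gm_apply])

theorem exists_lift_GL {S A : Type} [CommRing S] [CommRing A] (f : S →+* A)
    (hf : Function.Injective f) (g : GL (Fin n) A) (h1 : ∀ i j, g i j ∈ f.range)
    (h2 : ∀ i j, (g⁻¹ : GL (Fin n) A) i j ∈ f.range) : ∃ g' : GL (Fin n) S, gm f g' = g := by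
  choose a ha using h1
  choose b hb using h2
  have ea : (of a).map f = g.val := by ext i j; exact ha i j
  have eb : (of b).map f = (g⁻¹).val := by ext i j; exact hb i j
  refine ⟨⟨of a, of b, Matrix.map_injective hf ?_, Matrix.map_injective hf ?_⟩, Units.ext ea⟩
  · change (of a * of b).map f = (1 : Matrix _ _ S).map f
    rw [Matrix.map_mul, ea, eb, Units.mul_inv, Matrix.map_one _ f.map_zero f.map_one]
  · change (of b * of a).map f = (1 : Matrix _ _ S).map f
    rw [Matrix.map_mul, ea, eb, Units.inv_mul, Matrix.map_one _ f.map_zero f.map_one]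

theorem Fr_Fr {R : Type} [CommRing R] {p r : ℕ} {tw : Bool} [ExpChar R p] (g : GL (Fin n) R)
    (i j : Fin n) : Fr p r tw (Fr p r tw g) i j = g i j ^ (p ^ r * p ^ r) := by
  rw [Fr_apply, ← map_inv, Fr_apply, Fr_apply, inv_inv, Fin.rev_rev, Fin.rev_rev, pow_mul]
  cases tw <;> simp

variable {k : Type} [Field k]

theorem exists_gen (γ : Matrix (Fin n) (Fin n) k) :
    ∃ b : Fin n × Fin n → Matrix (Fin n) (Fin n) k, (∀ c, b c * γ = γ * b c) ∧
      ∀ x : Matrix (Fin n) (Fin n) k, x * γ = γ * x → ∑ c, x c.1 c.2 • b c = x := by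
  let W := LinearMap.ker (LinearMap.mulRight k γ - LinearMap.mulLeft k γ)
  have hW : ∀ x, x ∈ W ↔ x * γ = γ * x := fun x => by simp [W, sub_eq_zero]
  obtain ⟨g, hg⟩ := W.subtype.exists_leftInverse_of_injective W.ker_subtype
  refine ⟨fun c => g (single c.1 c.2 1), fun c => (hW _).1 (g _).2, fun x hx => ?_⟩
  have h1 : ∑ c : Fin n × Fin n, x c.1 c.2 • single c.1 c.2 (1 : k) = x := by
    ext i j
    simp [Matrix.sum_apply, single_apply, Fintype.sum_prod_type, ite_and]
  have h2 := congrArg (fun y => (g y : Matrix (Fin n) (Fin n) k)) h1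
  simp only [map_sum, map_smul, Submodule.coe_sum, Submodule.coe_smul] at h2
  exact h2.trans (congrArg Subtype.val (LinearMap.congr_fun hg ⟨x, (hW x).2 hx⟩))

theorem gen_eq {γ : Matrix (Fin n) (Fin n) k} {b : Fin n × Fin n → Matrix (Fin n) (Fin n) k}
    (hb : ∀ x : Matrix (Fin n) (Fin n) k, x * γ = γ * x → ∑ c, x c.1 c.2 • b c = x)
    {R : Type} [CommRing R] [Algebra k R] {z : Matrix (Fin n) (Fin n) R}
    (hz : z * γ.map (algebraMap k R) = γ.map (algebraMap k R) * z) (i j : Fin n) :
    ∑ c : Fin n × Fin n, z c.1 c.2 * algebraMap k R (b c i j) = z i j := by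
  rw [← sub_eq_zero, ← Module.forall_dual_apply_eq_zero_iff k]
  intro f
  have hf : ∀ (x : R) (c : k), f (x * algebraMap k R c) = f x * c := fun x c => by
    rw [mul_comm, ← Algebra.smul_def, map_smul, smul_eq_mul, mul_comm]
  have h1 : z.map f * γ = γ * z.map f := by
    ext a c
    have := congrArg f (congrFun (congrFun hz a) c)
    simp only [mul_apply, map_apply, map_sum, hf] at this ⊢
    rw [this]
    exact Finset.sum_congr rfl fun l _ => by rw [mul_comm, hf, mul_comm]
  have h2 := congrFun (congrFun (hb _ h1) i) j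
  simp only [Matrix.sum_apply, Matrix.smul_apply, map_apply, smul_eq_mul] at h2
  simp only [map_sub, map_sum, hf, h2, sub_self]

/-- The coordinate ring of the centralizer. -/
theorem exists_univ (γ : GL (Fin n) k) : ∃ (A : Type) (_ : CommRing A) (_ : IsDomain A)
    (_ : Algebra k A) (_ : IsNoetherianRing A) (Z : GL (Fin n) A),
    Commute Z (gm (algebraMap k A) γ) ∧
    (∀ T : Subalgebra k A, (∀ i j, Z i j ∈ T) → (∀ i j, (Z⁻¹ : GL (Fin n) A) i j ∈ T) →
      ∀ a, a ∈ T) ∧
    ∀ (R : Type) [CommRing R] [Algebra k R] (z : GL (Fin n) R),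
      Commute z (gm (algebraMap k R) γ) → ∃ ψ : A →ₐ[k] R, gm (ψ : A →+* R) Z = z := by
  obtain ⟨b, hb1, hb2⟩ := exists_gen γ.val
  let P := MvPolynomial (Fin n × Fin n) k
  let Z0 : Matrix (Fin n) (Fin n) P :=
    ∑ c, (MvPolynomial.X c : P) • (b c).map (algebraMap k P)
  have hc0 : Z0 * γ.val.map (algebraMap k P) = γ.val.map (algebraMap k P) * Z0 := by
    simp only [Z0]
    rw [Matrix.sum_mul, Matrix.mul_sum]
    refine Finset.sum_congr rfl fun c _ => ?_
    rw [Matrix.smul_mul, Matrix.mul_smul, ← Matrix.map_mul, ← Matrix.map_mul, hb1]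
  have hθ : ∀ (R : Type) [CommRing R] [Algebra k R] (z : GL (Fin n) R),
      Commute z (gm (algebraMap k R) γ) → ∃ θ : P →ₐ[k] R, Z0.map θ = z.val := by
    intro R _ _ z hz
    refine ⟨MvPolynomial.aeval fun c => z c.1 c.2, ?_⟩
    ext i j
    rw [← gen_eq hb2 (congrArg Units.val hz) i j]
    simp [Z0, P, Matrix.sum_apply]
  have hdet : ∀ (R : Type) [CommRing R] [Algebra k R] (θ : P →ₐ[k] R) (z : GL (Fin n) R),
      Z0.map θ = z.val → IsUnit (θ Z0.det) := by
    intro R _ _ θ z h
    rw [AlgHom.map_det]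
    change IsUnit (Z0.map θ).det
    rw [h]
    exact isUnits_det_units z
  have hD : Z0.det ≠ 0 := by
    obtain ⟨θ, h⟩ := hθ k 1 (Commute.one_left _)
    intro h0
    simpa [h0] using hdet k θ 1 h
  let A0 := Localization.Away Z0.det
  have : IsDomain A0 := IsLocalization.isDomain_localization
    (powers_le_nonZeroDivisors_of_noZeroDivisors hD)
  let Z1 : GL (Fin n) A0 := GeneralLinearGroup.mk'' (Z0.map (algebraMap P A0)) (by
    have h := IsLocalization.Away.algebraMap_isUnit (S := A0) Z0.det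
    rwa [RingHom.map_det] at h)
  have hc1 : Commute Z1 (gm (algebraMap k A0) γ) := by
    refine Units.ext ?_
    have h := congrArg (fun M => M.map (algebraMap P A0)) hc0
    simp only [Matrix.map_mul] at h
    exact h
  let s : Set A0 := Set.range (fun c : Fin n × Fin n => Z1 c.1 c.2) ∪
    Set.range (fun c : Fin n × Fin n => (Z1⁻¹ : GL (Fin n) A0) c.1 c.2)
  let S := Algebra.adjoin k s
  have : Algebra.FiniteType k S :=
    .adjoin_of_finite ((Set.finite_range _).union (Set.finite_range _))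
  obtain ⟨Z, hZ⟩ := exists_lift_GL (S.val : S →+* A0) Subtype.val_injective Z1
    (fun i j => ⟨⟨_, Algebra.subset_adjoin (Or.inl ⟨(i, j), rfl⟩)⟩, rfl⟩)
    (fun i j => ⟨⟨_, Algebra.subset_adjoin (Or.inr ⟨(i, j), rfl⟩)⟩, rfl⟩)
  refine ⟨S, inferInstance, inferInstance, inferInstance,
    Algebra.FiniteType.isNoetherianRing k S, Z, ?_, fun T h1 h2 a => ?_, fun R _ _ z hz => ?_⟩
  · refine gm_injective (f := (S.val : S →+* A0)) Subtype.val_injective ?_
    rw [map_mul, map_mul, hZ]
    exact hc1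
  · have h3 : S ≤ T.map S.val := by
      refine Algebra.adjoin_le ?_
      rintro _ (⟨c, rfl⟩ | ⟨c, rfl⟩)
      · exact ⟨_, h1 c.1 c.2, by rw [← hZ]; rfl⟩
      · exact ⟨_, h2 c.1 c.2, by rw [← hZ, ← map_inv]; rfl⟩
    obtain ⟨a', ha', he⟩ := h3 a.2
    rwa [← Subtype.val_injective he]
  · obtain ⟨θ, h⟩ := hθ R z hz
    let ψ : A0 →ₐ[k] R := IsLocalization.Away.liftAlgHom Z0.det (hdet R θ z h)
    refine ⟨ψ.comp S.val, ?_⟩
    change gm (ψ : A0 →+* R) (gm (S.val : S →+* A0) Z) = z
    rw [hZ]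
    ext i j
    rw [← h]
    exact IsLocalization.Away.lift_eq Z0.det (hdet R θ z h) (Z0 i j)

theorem root_of_isAlgClosed [IsAlgClosed k] (f : k[X]) (_ : f.Monic) (h : 0 < f.degree) :
    ∃ x, f.IsRoot x := IsAlgClosed.exists_root f h.ne'

theorem one_lt_Q {p r : ℕ} [Fact p.Prime] [NeZero r] : 1 < p ^ r * p ^ r :=
  one_lt_mul'' (Nat.one_lt_pow (NeZero.ne r) (Fact.out : p.Prime).one_lt)
    (Nat.one_lt_pow (NeZero.ne r) (Fact.out : p.Prime).one_lt)

theorem monic_Q {Q : ℕ} (hQ : 1 < Q) : (X ^ Q - X : k[X]).Monic :=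
  monic_X_pow_sub (by rw [degree_X]; exact_mod_cast hQ)

end Lang

open Lang

variable {k : Type} [Field k] [IsAlgClosed k] {p r : ℕ} [Fact p.Prime] [CharP k p] [NeZero r]
  {n : ℕ} {tw : Bool}

/-- Lang's theorem for the centralizer of a rational element, for points in an absolutely
integrally closed domain. -/
theorem lang_comm (O : Type) [CommRing O] [IsDomain O] [Algebra k O] [ExpChar O p]
    (root : ∀ f : O[X], f.Monic → 0 < f.degree → ∃ x, f.IsRoot x)
    (γ : GL (Fin n) k) (hγ : Fr p r tw γ = γ) (y : GL (Fin n) O)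
    (hy : Commute y (gm (algebraMap k O) γ)) :
    ∃ z : GL (Fin n) O, Commute z (gm (algebraMap k O) γ) ∧ z⁻¹ * Fr p r tw z = y := by
  obtain ⟨A, _, _, _, _, Z, hZ, hgen, huniv⟩ := exists_univ γ
  have : ExpChar A p := expChar_of_injective_algebraMap (algebraMap k A).injective p
  have hF : Commute (Fr p r tw Z) (gm (algebraMap k A) γ) := by
    have h := hZ.map (Fr p r tw)
    rwa [← map_Fr, hγ] at h
  obtain ⟨φ, hφ⟩ := huniv A (Z⁻¹ * Fr p r tw Z) (hZ.inv_left.mul_left hF)
  have h2 : Fr p r tw (Fr p r tw Z) = Z * gm (φ : A →+* A) (Z * Fr p r tw Z) := by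
    rw [map_mul, map_Fr, hφ, map_mul, map_inv]
    group
  have h3 : Fr p r tw (Fr p r tw Z⁻¹) = gm (φ : A →+* A) (Z * Fr p r tw Z)⁻¹ * Z⁻¹ := by
    rw [map_inv, map_inv, h2, _root_.mul_inv_rev, map_inv]
  have hint : (φ : A →+* A).IsIntegral := by
    refine hgen
      { carrier := {a | (φ : A →+* A).IsIntegralElem a}
        mul_mem' := fun ha hb => ha.mul _ hb
        add_mem' := fun ha hb => ha.add _ hb
        algebraMap_mem' := fun c => by
          rw [← φ.commutes c]
          exact (φ : A →+* A).isIntegralElem_map } (fun i j => ?_) fun i j => ?_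
    · refine integral_of_pow (φ : A →+* A) (fun j => Z i j) (one_lt_Q (p := p) (r := r))
        (fun j l => (Z * Fr p r tw Z) l j) (fun j => ?_) j
      rw [← Fr_Fr (tw := tw), h2, Units.val_mul, mul_apply]
      rfl
    · refine integral_of_pow (φ : A →+* A) (fun i => (Z⁻¹ : GL (Fin n) A) i j)
        (one_lt_Q (p := p) (r := r))
        (fun i l => ((Z * Fr p r tw Z)⁻¹ : GL (Fin n) A) i l) (fun i => ?_) i
      rw [← Fr_Fr (tw := tw), h3, Units.val_mul, mul_apply]
      exact Finset.sum_congr rfl fun l _ => mul_comm _ _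
  obtain ⟨ψ, hψ⟩ := huniv O y hy
  obtain ⟨χ, hχ⟩ := lift_point root (φ : A →+* A) hint (injective_of_integral _ hint)
    (ψ : A →+* O)
  have hk : χ.comp (algebraMap k A) = algebraMap k O := by
    rw [← φ.comp_algebraMap, ← RingHom.comp_assoc, hχ, ψ.comp_algebraMap]
  refine ⟨gm χ Z, ?_, ?_⟩
  · have h := hZ.map (gm χ)
    rwa [gm_gm, hk] at h
  · rw [← map_Fr, ← map_inv, ← map_mul, ← hφ, gm_gm, hχ, hψ]

/-- Fixed points in a domain over `k` come from `k`. -/
theorem fixed_of_domain (O : Type) [CommRing O] [IsDomain O] [Algebra k O] [ExpChar O p]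
    (g : GL (Fin n) O) (h : Fr p r tw g = g) :
    ∃ γ : Fix n k p r tw, gm (algebraMap k O) γ.1 = g := by
  have key : ∀ g : GL (Fin n) O, Fr p r tw g = g → ∀ i j, g i j ∈ (algebraMap k O).range := by
    intro g h i j
    refine mem_range_of_root root_of_isAlgClosed _ _ (monic_Q (one_lt_Q (p := p) (r := r))) ?_
    rw [eval₂_sub, eval₂_X_pow, eval₂_X, ← Fr_Fr (tw := tw), h, h, sub_self]
  obtain ⟨γ, hγ⟩ := exists_lift_GL _ (algebraMap k O).injective g (key g h)
    (key g⁻¹ (by rw [map_inv, h]))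
  refine ⟨⟨γ, gm_injective (algebraMap k O).injective ?_⟩, hγ⟩
  rw [map_Fr, hγ, h]
  exact hγ.symm

instance finite_Fix : Finite (Fix n k p r tw) := by
  have hQ := monic_Q (k := k) (one_lt_Q (p := p) (r := r))
  refine Finite.of_injective (β := Fin n → Fin n → (X ^ (p ^ r * p ^ r) - X : k[X]).rootSet k)
    (fun g i j => ⟨g.1 i j, ?_⟩) fun g g' h => ?_
  · have h : Fr p r tw g.1 = g.1 := g.2
    rw [mem_rootSet_of_ne hQ.ne_zero, map_sub, map_pow, aeval_X, ← Fr_Fr (tw := tw), h, h,
      sub_self]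
  · ext i j
    exact congrArg Subtype.val (congrFun (congrFun h i) j)

/-- `γ⁻¹` is conjugate to `J γ^{-T} J` in the finite group. -/
theorem conj_iot (γ : GL (Fin n) k) (hγ : Fr p r tw γ = γ) :
    ∃ δ : GL (Fin n) k, Fr p r tw δ = δ ∧ δ * γ⁻¹ * δ⁻¹ = iot γ := by
  obtain ⟨S, hS, hM⟩ := conj_transpose (γ⁻¹ : GL (Fin n) k).val
  let d : GL (Fin n) k := GeneralLinearGroup.mkOfDetNeZero (S.submatrix Fin.revPerm id) (by
    rw [det_permute]
    exact mul_ne_zero (Units.isUnit _ |>.map (Int.castRingHom k)).ne_zero hS)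
  have hd : d * γ⁻¹ * d⁻¹ = iot γ := by
    rw [mul_inv_eq_iff_eq_mul]
    ext i j
    have h := congrFun (congrFun hM i.rev) j
    rw [mul_apply, mul_apply, ← Equiv.sum_comp Fin.revPerm] at h
    rw [Units.val_mul, Units.val_mul, mul_apply, mul_apply]
    exact h.symm
  have hd' : Fr p r tw d * γ⁻¹ * (Fr p r tw d)⁻¹ = iot γ := by
    have h := congrArg (Fr p r tw) hd
    rwa [map_mul, map_mul, map_inv, map_inv, hγ, ← iot_Fr, hγ] at h
  have hg : gm (algebraMap k k) γ = γ := rfl
  obtain ⟨z, hz, hz'⟩ := lang_comm (r := r) (tw := tw) k root_of_isAlgClosed γ hγ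
    (d⁻¹ * Fr p r tw d) (by
      rw [hg, ← Commute.inv_right_iff]
      have h := hd'.trans hd.symm
      change d⁻¹ * Fr p r tw d * γ⁻¹ = γ⁻¹ * (d⁻¹ * Fr p r tw d)
      calc _ = d⁻¹ * (Fr p r tw d * γ⁻¹ * (Fr p r tw d)⁻¹) * Fr p r tw d := by group
        _ = _ := by rw [h]; group)
  rw [hg] at hz
  refine ⟨d * z⁻¹, ?_, ?_⟩
  · rw [map_mul, map_inv]
    calc _ = d * (d⁻¹ * Fr p r tw d) * (Fr p r tw z)⁻¹ := by group
      _ = _ := by rw [← hz']; group
  · rw [← hd]
    calc _ = d * (z⁻¹ * γ⁻¹ * z) * d⁻¹ := by group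
      _ = _ := by rw [hz.inv_inv.eq, inv_mul_cancel_right]

end Pool.Agent.Lib.MP_fc2ced_ag.E
end
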