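import Pool.Agent.Lib.MP_fc2ced_ag.NDefs

/-!
Regev's growth argument: permutations without a long decreasing subsequence, straightening, and
block idempotents in two-sided ideals of the group algebra of the symmetric group.
-/

namespace Pool.Agent.Lib.MP_fc2ced_ag.Naive

open Equiv

/-- no decreasing subsequence of length `m` -/
def Good (m : ℕ) {n : ℕ} (σ : Perm (Fin n)) : Prop :=
  ∀ t : Finset (Fin n), StrictAntiOn σ (t : Set (Fin n)) → t.card < m

open Classical in
/-- the longest decreasing subsequence ending at `i` -/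
noncomputable def col {n : ℕ} (σ : Perm (Fin n)) (i : Fin n) : ℕ :=
  (Finset.univ.filter fun t : Finset (Fin n) =>
    (∀ a ∈ t, a ≤ i) ∧ i ∈ t ∧ StrictAntiOn σ (t : Set (Fin n))).sup Finset.card

lemma exists_col {n : ℕ} (σ : Perm (Fin n)) (i : Fin n) :
    ∃ t : Finset (Fin n), (∀ a ∈ t, a ≤ i) ∧ i ∈ t ∧ StrictAntiOn σ (t : Set (Fin n)) ∧
      t.card = col σ i := by
  classical
  have hne : (Finset.univ.filter fun t : Finset (Fin n) =>
    (∀ a ∈ t, a ≤ i) ∧ i ∈ t ∧ StrictAntiOn σ (t : Set (Fin n))).Nonempty := by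
    refine ⟨{i}, ?_⟩
    simp
  obtain ⟨t, ht, h⟩ := Finset.exists_mem_eq_sup _ hne Finset.card
  simp only [Finset.mem_filter, Finset.mem_univ, true_and] at ht
  refine ⟨t, ht.1, ht.2.1, ht.2.2, ?_⟩
  rw [← h]
  unfold col
  congr

lemma col_lt_col {n : ℕ} (σ : Perm (Fin n)) {i j : Fin n} (hij : i < j) (h : σ j < σ i) :
    col σ i < col σ j := by
  classical
  obtain ⟨t, h1, h2, h3, h4⟩ := exists_col σ i
  have hj : j ∉ t := fun hj => absurd (h1 j hj) (not_le.2 hij)
  have : (insert j t).card ≤ col σ j := by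
    unfold col
    refine Finset.le_sup (f := Finset.card) ?_
    simp only [Finset.mem_filter, Finset.mem_univ, true_and]
    refine ⟨?_, Finset.mem_insert_self _ _, ?_⟩
    · intro a ha
      rcases Finset.mem_insert.1 ha with rfl | ha
      · exact le_rfl
      · exact (h1 a ha).trans hij.le
    · intro a ha b hb hab
      simp only [Finset.coe_insert, Set.mem_insert_iff, Finset.mem_coe] at ha hb
      rcases hb with rfl | hb
      · rcases ha with rfl | ha
        · exact absurd hab (lt_irrefl _)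
        · rcases (h1 a ha).lt_or_eq with h5 | rfl
          · exact h.trans (h3 ha h2 h5)
          · exact h
      · rcases ha with rfl | ha
        · exact absurd (hab.trans_le ((h1 b hb).trans hij.le)) (lt_irrefl _)
        · exact h3 ha hb hab
  rw [Finset.card_insert_of_notMem hj] at this
  omega

lemma col_lt {m n : ℕ} {σ : Perm (Fin n)} (h : Good m σ) (i : Fin n) : col σ i < m := by
  obtain ⟨t, -, -, h3, h4⟩ := exists_col σ i
  rw [← h4]
  exact h t h3

lemma eq_of_col {n : ℕ} {σ τ : Perm (Fin n)} (h1 : ∀ i, col σ i = col τ i)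
    (h2 : ∀ i, col σ (σ.symm i) = col τ (τ.symm i)) : σ = τ := by
  have mono : ∀ (ρ : Perm (Fin n)) (c : ℕ),
      StrictMono (fun i : {i // col ρ i = c} => ρ i.1) := by
    intro ρ c a b hab
    have hab' : a.1 < b.1 := hab
    rcases lt_trichotomy (ρ a.1) (ρ b.1) with h | h | h
    · exact h
    · exact absurd (ρ.injective h) hab'.ne
    · have := col_lt_col ρ hab' h
      rw [a.2, b.2] at this
      exact absurd this (lt_irrefl _)
  ext1 i
  have m1 := mono σ (col σ i)
  have m2 : StrictMono (fun j : {j // col σ j = col σ i} => τ j.1) := by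
    intro a b hab
    exact mono τ (col σ i) (a := ⟨a.1, by rw [← h1, a.2]⟩) (b := ⟨b.1, by rw [← h1, b.2]⟩) hab
  have hr : Set.range (fun j : {j // col σ j = col σ i} => σ j.1) =
      Set.range (fun j : {j // col σ j = col σ i} => τ j.1) := by
    ext y
    constructor
    · rintro ⟨j, rfl⟩
      refine ⟨⟨τ.symm (σ j.1), ?_⟩, by simp⟩
      rw [h1, ← h2]
      simpa using j.2
    · rintro ⟨j, rfl⟩
      refine ⟨⟨σ.symm (τ j.1), ?_⟩, by simp⟩
      rw [h2]
      simpa [← h1] using j.2
  exact congrFun ((m1.range_inj m2).1 hr) ⟨i, rfl⟩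

open Classical in
lemma card_good (m n : ℕ) :
    (Finset.univ.filter fun σ : Perm (Fin n) => Good m σ).card ≤ (m ^ 2) ^ n := by
  have : Fintype.card {σ : Perm (Fin n) // Good m σ} ≤
      Fintype.card ((Fin n → Fin m) × (Fin n → Fin m)) := by
    refine Fintype.card_le_of_injective (fun σ => (fun i => ⟨col σ.1 i, col_lt σ.2 i⟩,
      fun i => ⟨col σ.1 (σ.1.symm i), col_lt σ.2 _⟩)) ?_
    intro σ τ h
    simp only [Prod.mk.injEq] at h
    refine Subtype.ext (eq_of_col (fun i => ?_) (fun i => ?_))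
    · simpa using congrFun h.1 i
    · simpa using congrFun h.2 i
  rw [Fintype.card_subtype] at this
  simp only [Fintype.card_prod, Fintype.card_pi, Fintype.card_fin, Finset.prod_const,
    Finset.card_univ] at this
  calc _ ≤ m ^ n * m ^ n := this
    _ = (m ^ 2) ^ n := by rw [← mul_pow, sq]

/-- lexicographic order on permutations -/
def LexLt {n : ℕ} (σ τ : Perm (Fin n)) : Prop :=
  toLex (fun i => σ i) < toLex (fun i => τ i)

lemma lexLt_wf (n : ℕ) : WellFounded (LexLt (n := n)) := by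
  have : WellFoundedLT (Lex (Fin n → Fin n)) := Finite.to_wellFoundedLT
  exact InvImage.wf (fun σ : Perm (Fin n) => toLex (fun i => σ i)) this.wf

lemma lexLt_mul {m n : ℕ} (σ : Perm (Fin n)) (T : Fin m ↪ Fin n) (hT : StrictMono T)
    (hσ : StrictAnti (fun a => σ (T a))) (τ : Perm (Fin m)) (hτ : τ ≠ 1) :
    LexLt (σ * τ.viaEmbedding T) σ := by
  classical
  have hne : (Finset.univ.filter fun a => τ a ≠ a).Nonempty := by
    by_contra h
    apply hτ
    ext a
    by_contra h'
    exact h ⟨a, by simp only [Finset.mem_filter, Finset.mem_univ, true_and]; intro h''; exact h' (by simp [h''])⟩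
  set a := (Finset.univ.filter fun a => τ a ≠ a).min' hne with ha
  have ha1 : τ a ≠ a := by simpa using Finset.min'_mem _ hne
  have ha2 : ∀ b, b < a → τ b = b := by
    intro b hb
    by_contra h
    exact absurd (Finset.min'_le _ b (by simpa using h)) (not_le.2 hb)
  have ha3 : a < τ a := by
    rcases lt_trichotomy a (τ a) with h | h | h
    · exact h
    · exact absurd h.symm ha1
    · exact absurd (τ.injective (ha2 _ h)) ha1
  refine ⟨T a, fun j hj => ?_, ?_⟩
  · show σ (τ.viaEmbedding T j) = σ j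
    by_cases h : j ∈ Set.range T
    · obtain ⟨b, rfl⟩ := h
      rw [Perm.viaEmbedding_apply, ha2 b (hT.lt_iff_lt.1 hj)]
    · rw [Perm.viaEmbedding_apply_of_notMem _ _ _ h]
  · show σ (τ.viaEmbedding T (T a)) < σ (T a)
    rw [Perm.viaEmbedding_apply]
    exact hσ ha3

lemma exists_emb {m n : ℕ} (σ : Perm (Fin n)) (t : Finset (Fin n))
    (ht : StrictAntiOn σ (t : Set (Fin n))) (hm : m ≤ t.card) :
    ∃ T : Fin m ↪ Fin n, StrictMono T ∧ StrictAnti (fun a => σ (T a)) ∧ ∀ a, T a ∈ t := by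
  obtain ⟨s, hs, hc⟩ := Finset.exists_subset_card_eq hm
  refine ⟨(s.orderEmbOfFin hc).toEmbedding, (s.orderEmbOfFin hc).strictMono, ?_, ?_⟩
  · intro a b hab
    exact ht (hs (Finset.orderEmbOfFin_mem s hc a)) (hs (Finset.orderEmbOfFin_mem s hc b))
      ((s.orderEmbOfFin hc).strictMono hab)
  · intro a
    exact hs (Finset.orderEmbOfFin_mem s hc a)

section Straighten

variable {F : Type*} [Field F] {V : Type*} [AddCommGroup V] [Module F V]

lemma straighten {m n : ℕ} (N : Submodule F V) (v : Perm (Fin n) → V)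
    (h : ∀ σ, ¬ Good m σ → v σ ∈ Submodule.span F (v '' {τ | LexLt τ σ}) ⊔ N) (σ : Perm (Fin n)) :
    v σ ∈ Submodule.span F (v '' {τ | Good m τ}) ⊔ N := by
  induction σ using (lexLt_wf n).induction with
  | _ σ ih =>
    by_cases hg : Good m σ
    · exact Submodule.mem_sup_left (Submodule.subset_span ⟨σ, hg, rfl⟩)
    · refine (sup_le (Submodule.span_le.2 ?_) le_sup_right :
        _ ≤ Submodule.span F (v '' {τ | Good m τ}) ⊔ N) (h σ hg)
      rintro _ ⟨τ, hτ, rfl⟩
      exact ih τ hτ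

lemma lower_of_rel {m n : ℕ} (N : Submodule F V) (v : Perm (Fin n) → V) (σ : Perm (Fin n))
    (T : Fin m ↪ Fin n) (hT : StrictMono T) (hσ : StrictAnti (fun a => σ (T a)))
    (c : Perm (Fin m) → F) (hc : c 1 = 1)
    (h : ∑ τ : Perm (Fin m), c τ • v (σ * τ.viaEmbedding T) ∈ N) :
    v σ ∈ Submodule.span F (v '' {τ | LexLt τ σ}) ⊔ N := by
  classical
  rw [← Finset.add_sum_erase _ _ (Finset.mem_univ 1), hc, one_smul] at h
  have h1 : (1 : Perm (Fin m)).viaEmbedding T = 1 := (Perm.viaEmbeddingHom T).map_one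
  rw [h1, mul_one] at h
  have h2 : ∑ τ ∈ Finset.univ.erase (1 : Perm (Fin m)), c τ • v (σ * τ.viaEmbedding T) ∈
      Submodule.span F (v '' {τ | LexLt τ σ}) := by
    refine Submodule.sum_mem _ fun τ hτ => Submodule.smul_mem _ _ (Submodule.subset_span ?_)
    exact ⟨_, lexLt_mul σ T hT hσ τ (Finset.ne_of_mem_erase hτ), rfl⟩
  have := Submodule.sub_mem _ (Submodule.mem_sup_right (S := Submodule.span F
    (v '' {τ | LexLt τ σ})) h) (Submodule.mem_sup_left h2)
  simpa using this

/-- Regev-Latyshev: a nontrivial identity of degree `d` leaves at most `(d ^ 2) ^ n` spanning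
permutations (modulo `N`). -/
theorem span_good_of_rel {d n : ℕ} (N : Submodule F V) (u : Perm (Fin n) → V)
    (r : Perm (Fin d) → F) (hr : r ≠ 0)
    (h : ∀ (π : Perm (Fin n)) (j : Fin d ↪ Fin n),
      ∑ s : Perm (Fin d), r s • u (π * s.viaEmbedding j) ∈ N) (σ : Perm (Fin n)) :
    u σ ∈ Submodule.span F (u '' {τ | Good d τ}) ⊔ N := by
  refine straighten N u (fun σ hσ => ?_) σ
  simp only [Good, not_forall, not_lt] at hσ
  obtain ⟨t, ht, hc⟩ := hσ
  obtain ⟨T, h1, h2, -⟩ := exists_emb σ t ht hc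
  obtain ⟨s₀, hs₀⟩ := Function.ne_iff.1 hr
  refine lower_of_rel N u σ T h1 h2 (fun τ => (r s₀)⁻¹ * r (s₀ * τ))
    (by rw [mul_one]; exact inv_mul_cancel₀ hs₀) ?_
  have h3 := N.smul_mem (r s₀)⁻¹ (h (σ * (s₀⁻¹).viaEmbedding T) T)
  rw [← Equiv.sum_comp (Equiv.mulLeft s₀), Finset.smul_sum] at h3
  convert h3 using 2 with τ
  rw [smul_smul, mul_assoc σ, ← Perm.viaEmbeddingHom_apply, ← Perm.viaEmbeddingHom_apply,
    ← Perm.viaEmbeddingHom_apply, ← map_mul]
  simp

/-- The same for an arbitrary finite index type, with an explicit small spanning set. -/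
theorem exists_small_span {d : ℕ} {ι : Type*} [Fintype ι] (N : Submodule F V) (u : Perm ι → V)
    (r : Perm (Fin d) → F) (hr : r ≠ 0)
    (h : ∀ (π : Perm ι) (j : Fin d ↪ ι), ∑ s : Perm (Fin d), r s • u (π * s.viaEmbedding j) ∈ N) :
    ∃ G : Finset (Perm ι), G.card ≤ (d ^ 2) ^ Fintype.card ι ∧
      ∀ σ, u σ ∈ Submodule.span F (u '' (G : Set (Perm ι))) ⊔ N := by
  classical
  let e := (Fintype.equivFin ι).symm
  refine ⟨(Finset.univ.filter fun σ => Good d σ).image e.permCongr,
    Finset.card_image_le.trans (card_good d _), fun σ => ?_⟩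
  have := span_good_of_rel N (fun τ => u (e.permCongr τ)) r hr (fun π j => by
    convert h (e.permCongr π) (j.trans e.toEmbedding) using 4 with s
    ext1 i
    obtain ⟨i, rfl⟩ := e.surjective i
    by_cases hi : i ∈ Set.range j
    · obtain ⟨a, rfl⟩ := hi
      have := Perm.viaEmbedding_apply s (j.trans e.toEmbedding) a
      simp only [Function.Embedding.trans_apply, coe_toEmbedding] at this
      simp [this, Perm.viaEmbedding_apply]
    · have h' : e i ∉ Set.range (j.trans e.toEmbedding) := by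
        rintro ⟨a, ha⟩
        exact hi ⟨a, e.injective ha⟩
      simp [Perm.viaEmbedding_apply_of_notMem _ _ _ hi, Perm.viaEmbedding_apply_of_notMem _ _ _ h'])
    (e.permCongr.symm σ)
  rw [Equiv.apply_symm_apply] at this
  convert this using 3
  rw [Finset.coe_image, Set.image_image]
  simp

end Straighten

section Block

variable {R : Type*} [Ring R] [IsSemisimpleRing R]

lemma central_of_two_sided {e : R} (he : e * e = e)
    (h : ∀ y, e * y ∈ Ideal.span {e}) (x : R) : x * e = e * x := by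
  have h1 : ∀ y, e * y = e * y * e := by
    intro y
    obtain ⟨a, ha⟩ := Ideal.mem_span_singleton'.1 (h y)
    rw [← ha, mul_assoc, he]
  have h2 : (1 - e) * x * e = 0 := by
    set z := (1 - e) * x * e with hz
    obtain ⟨f, hf, hI⟩ := IsSemisimpleRing.ideal_eq_span_idempotent (Ideal.span {z})
    have hfz : f ∈ Ideal.span {z} := hI ▸ Ideal.subset_span rfl
    have hzf : z ∈ Ideal.span {f} := hI ▸ Ideal.subset_span rfl
    obtain ⟨a, ha⟩ := Ideal.mem_span_singleton'.1 hfz
    obtain ⟨b, hb⟩ := Ideal.mem_span_singleton'.1 hzf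
    have h3 : z = z * a * z := by
      rw [mul_assoc, ha, ← hb, mul_assoc, hf.eq]
    have h4 : e * a * (1 - e) = 0 := by
      rw [mul_sub, mul_one, ← h1, sub_self]
    rw [h3, hz]
    calc (1 - e) * x * e * a * ((1 - e) * x * e)
        = (1 - e) * x * (e * a * (1 - e)) * x * e := by simp only [mul_assoc]
      _ = 0 := by rw [h4]; simp
  have h5 : x * e = e * x * e := by
    have : (1 - e) * x * e = x * e - e * x * e := by rw [sub_mul, sub_mul, one_mul]
    rw [this] at h2
    exact sub_eq_zero.1 h2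
  rw [h5, ← h1]

lemma exists_block (I : Ideal R) (hI : ∀ x ∈ I, ∀ y, x * y ∈ I) (h0 : I ≠ ⊥) :
    ∃ e ∈ I, e ≠ 0 ∧ e * e = e ∧ (∀ x, x * e = e * x) ∧
      ∀ f : R, f * f = f → (∀ x, x * f = f * x) → f * e = 0 ∨ f * e = e := by
  have hwf : WellFounded ((· < ·) : Ideal R → Ideal R → Prop) := wellFounded_lt
  obtain ⟨J, ⟨hJ1, hJ2, hJ3⟩, hmin⟩ := hwf.has_min
    {J : Ideal R | J ≤ I ∧ (∀ x ∈ J, ∀ y, x * y ∈ J) ∧ J ≠ ⊥} ⟨I, le_rfl, hI, h0⟩
  obtain ⟨e, he, hJ⟩ := IsSemisimpleRing.ideal_eq_span_idempotent J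
  have heJ : e ∈ J := hJ ▸ Ideal.subset_span rfl
  have hc : ∀ x, x * e = e * x := central_of_two_sided he.eq (fun y => hJ ▸ hJ2 e heJ y)
  refine ⟨e, hJ1 heJ, ?_, he.eq, hc, fun f hf hfc => ?_⟩
  · rintro rfl
    exact hJ3 (by rw [hJ]; simp)
  · by_cases h : f * e = 0
    · exact Or.inl h
    right
    have hle : Ideal.span {f * e} ≤ J := by
      rw [Ideal.span_le, Set.singleton_subset_iff]
      exact J.mul_mem_left f heJ
    have heq : Ideal.span {f * e} = J := by
      by_contra hne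
      refine hmin (Ideal.span {f * e}) ⟨hle.trans hJ1, ?_, ?_⟩ (lt_of_le_of_ne hle hne)
      · intro x hx y
        obtain ⟨a, rfl⟩ := Ideal.mem_span_singleton'.1 hx
        refine Ideal.mem_span_singleton'.2 ⟨a * y, ?_⟩
        rw [mul_assoc, mul_assoc, mul_assoc, ← mul_assoc y, hfc y, ← hc y, mul_assoc]
      · intro hb
        exact h (by simpa using hb)
    obtain ⟨a, ha⟩ := Ideal.mem_span_singleton'.1 (heq ▸ heJ : e ∈ Ideal.span {f * e})
    calc f * e = f * (a * (f * e)) := by rw [ha]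
      _ = a * (f * f) * e := by rw [← mul_assoc, ← hfc a]; simp only [mul_assoc]
      _ = e := by rw [hf, mul_assoc, ha]

end Block

/-- A nonzero two-sided ideal of the group algebra of a finite group over a field of
characteristic zero contains a primitive central idempotent. -/
theorem exists_block_group {F G : Type*} [Field F] [CharZero F] [Group G] [Finite G]
    (I : Ideal (MonoidAlgebra F G)) (hI : ∀ x ∈ I, ∀ y, x * y ∈ I) (h0 : I ≠ ⊥) :
    ∃ e ∈ I, e ≠ 0 ∧ e * e = e ∧ (∀ x, x * e = e * x) ∧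
      ∀ f : MonoidAlgebra F G, f * f = f → (∀ x, x * f = f * x) → f * e = 0 ∨ f * e = e := by
  have : NeZero ((Nat.card G : ℕ) : F) := ⟨by
    have := Nat.card_pos (α := G)
    exact_mod_cast this.ne'⟩
  exact exists_block I hI h0

lemma exists_isBlock {m : ℕ} (I : Ideal (MonoidAlgebra ℚ (Perm (Fin m))))
    (hI : ∀ x ∈ I, ∀ y, x * y ∈ I) (h0 : I ≠ ⊥) : ∃ e ∈ I, IsBlock e := by
  have : NeZero ((Nat.card (Perm (Fin m)) : ℕ) : ℚ) := ⟨by
    have := Nat.card_pos (α := Perm (Fin m))
    exact_mod_cast this.ne'⟩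
  exact exists_block I hI h0

lemma exists_pow_lt_factorial (C : ℕ) : ∃ n : ℕ, 1 ≤ n ∧ C ^ n < n.factorial := by
  obtain ⟨n, h1, h2⟩ := ((Filter.eventually_ge_atTop 1).and
    (Nat.eventually_pow_lt_factorial_sub C 0)).exists
  exact ⟨n, h1, by simpa using h2⟩

end Pool.Agent.Lib.MP_fc2ced_ag.Naive
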