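import Pool.Agent.Lib.MP_fc2ced_ag.ETh
import Pool.Agent.Lib.MP_fc2ced_ag.NReg
import Pool.Agent.Lib.MP_fc2ced_ag.EAic

-- part Pool.Agent.Lib.MP_fc2ced_ag.ECon
section

/-! Constructible objects, tensor powers in theories, the affine line. -/

open CategoryTheory Function
open scoped TensorProduct Polynomial

namespace Pool.Agent.Lib.MP_fc2ced_ag.E

noncomputable section

variable {k : Type} [Field k] {F : Type} [Field F]

open Ob Pair

variable {M M' M'' N N' : Ob k F}

theorem Pair.IsMap.hom_comp {X X' X'' : Fn k} {P : Pair X} {P' : Pair X'} {P'' : Pair X''}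
    {e : ∀ ⦃O⦄, X.X O → X'.X O} {e' : ∀ ⦃O⦄, X'.X O → X''.X O} (h : IsMap P P' e)
    (h' : IsMap P' P'' e') {e'' : ∀ ⦃O⦄, X.X O → X''.X O} (h'' : IsMap P P'' e'')
    (he : ∀ ⦃O⦄ (x : X.X O), P.N x → e' (e x) = e'' x) : h.hom F ≫ h'.hom F = h''.hom F :=
  Pair.hom_ext fun O x hx _ => by
    rw [Ob.comp_apply, h.hom_cl hx, h'.hom_cl (h.n x hx), h''.hom_cl hx, he x hx]

theorem Pair.IsMap.prod {X X' Y Y' : Fn k} {P : Pair X} {P' : Pair X'} {Q : Pair Y} {Q' : Pair Y'}
    {e : ∀ ⦃O⦄, X.X O → X'.X O} {e' : ∀ ⦃O⦄, Y.X O → Y'.X O} (h : IsMap P P' e)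
    (h' : IsMap Q Q' e') : IsMap (P.prod Q) (P'.prod Q') fun _ x => (e x.1, e' x.2) :=
  ⟨fun _ _ g _ hx => Prod.ext (h.nat g _ hx.1) (h'.nat g _ hx.2),
    fun _ _ hx => ⟨h.n _ hx.1, h'.n _ hx.2⟩, fun _ _ hx hd => hd.imp (h.d _ hx.1) (h'.d _ hx.2)⟩

theorem Pair.IsMap.ten_nat {X X' Y Y' : Fn k} {P : Pair X} {P' : Pair X'} {Q : Pair Y}
    {Q' : Pair Y'} {e : ∀ ⦃O⦄, X.X O → X'.X O} {e' : ∀ ⦃O⦄, Y.X O → Y'.X O} (h : IsMap P P' e)
    (h' : IsMap Q Q' e') : (isLift_ten F P Q).hom ≫ tenMap (h.hom F) (h'.hom F) =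
      (h.prod h').hom F ≫ (isLift_ten F P' Q').hom :=
  Pair.hom_ext fun O x hx _ => by
    rw [Ob.comp_apply, Ob.comp_apply, (isLift_ten F P Q).hom_cl hx, (h.prod h').hom_cl hx,
      (isLift_ten F P' Q').hom_cl ((h.prod h').n x hx), tenMap_app, TensorProduct.map_tmul,
      h.hom_cl hx.1, h'.hom_cl hx.2]

theorem Pair.isMap_refl {X : Fn k} (P : Pair X) : IsMap P P fun _ x => x :=
  isMap_id (fun _ _ h => h) fun _ _ _ h => h

theorem Pair.hom_refl {X : Fn k} {P : Pair X} (h : IsMap P P fun _ x => x) : h.hom F = 𝟙 _ :=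
  Pair.hom_ext fun _ _ hx _ => h.hom_cl hx

/-- A map of pairs times a pair is invertible if a comparable map is. -/
theorem uiso_ten_of {X X' Y Z Z' : Fn k} {P : Pair X} {P' : Pair X'} {Q : Pair Y} {R : Pair Z}
    {R' : Pair Z'} {e : ∀ ⦃O⦄, X.X O → X'.X O} (h : IsMap P P' e)
    {a : ∀ ⦃O⦄, Z.X O → (X.prod Y).X O} (ha : IsMap R (P.prod Q) a) (ba : Bij (ha.hom F))
    {b : ∀ ⦃O⦄, Z'.X O → (X'.prod Y).X O} (hb : IsMap R' (P'.prod Q) b) (bb : Bij (hb.hom F))
    {c : ∀ ⦃O⦄, Z.X O → Z'.X O} (hc : IsMap R R' c) (uc : UIso (hc.hom F))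
    (he : ∀ ⦃O⦄ (z : Z.X O), R.N z → b (c z) = (e (a z).1, (a z).2)) :
    UIso (tenMap (h.hom F) (𝟙 (Q.ob F))) := by
  rw [← Pair.hom_refl Q.isMap_refl]
  refine (bij_ten P Q).uiso.of_comp_left (ba.uiso.of_comp_left ?_)
  rw [IsMap.ten_nat, ← Category.assoc, show ha.hom F ≫ (h.prod Q.isMap_refl).hom F =
    hc.hom F ≫ hb.hom F from Pair.hom_ext fun O z hz _ => by
      rw [Ob.comp_apply, Ob.comp_apply, ha.hom_cl hz, hc.hom_cl hz, hb.hom_cl (hc.n z hz),
        (h.prod Q.isMap_refl).hom_cl (ha.n z hz), he z hz]]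
  exact (uc.comp bb.uiso).comp (bij_ten _ _).uiso

namespace Con

open Algebra.TensorProduct in
protected theorem sm (C : Type) [CommRing C] [Algebra k C] [Algebra.Smooth k C] :
    Con ((Fn.spec k C).top.ob F) := by
  rintro _ _ _ (⟨B⟩ | ⟨B, B', c, f, h⟩)
  · let e : (B ⊗[k] C)[X] →ₐ[k] B[X] ⊗[k] C :=
      Polynomial.aevalTower (map Polynomial.CAlgHom (.id k C)) (Polynomial.X ⊗ₜ 1)
    have ha : IsMap (Fn.spec k (B ⊗[k] C)[X]).top ((Fn.spec k B[X]).top.prod (Fn.spec k C).top)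
        fun _ x => (x.comp (Polynomial.mapAlgHom includeLeft),
          x.comp (Polynomial.CAlgHom.comp includeRight)) :=
      ⟨fun _ _ _ _ _ => rfl, fun _ _ _ => ⟨trivial, trivial⟩, fun _ _ _ h => h.elim⟩
    have hb : IsMap (Fn.spec k (B ⊗[k] C)).top ((Fn.spec k B).top.prod (Fn.spec k C).top)
        fun _ x => (x.comp includeLeft, x.comp includeRight) :=
      ⟨fun _ _ _ _ _ => rfl, fun _ _ _ => ⟨trivial, trivial⟩, fun _ _ _ h => h.elim⟩
    refine uiso_ten_of _ ha (ha.bij (fun _ _ _ h => h.elim id id) (fun _ x x' _ _ _ _ h => ?_)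
      fun _ y _ _ => ⟨(productMap y.1 y.2).comp e, trivial, ?_⟩) hb
      (hb.bij (fun _ _ _ h => h.elim id id) (fun _ x x' _ _ _ _ h =>
        Algebra.TensorProduct.ext congr(($h).1) congr(($h).2))
      fun _ y _ _ => ⟨productMap y.1 y.2, trivial, ?_⟩) _ (.gen (.line (B ⊗[k] C))) ?_
    · refine Polynomial.algHom_ext' (Algebra.TensorProduct.ext (AlgHom.ext fun b => ?_)
        congr(($h).2)) (by simpa using congr(($h).1 Polynomial.X))
      simpa using congr(($h).1 (Polynomial.C b))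
    · refine Prod.ext (Polynomial.algHom_ext' ?_ ?_) ?_
      · ext; simp [e]
      · simp [e]
      · ext; simp [e]
    · exact Prod.ext (productMap_left _ _) (productMap_right _ _)
    · exact fun _ z _ => Prod.ext (by ext; simp) rfl
  · have := h.etale
    have : Algebra.Smooth k ((B ⊗[k] C) ⊗[B] B') := .comp k (B ⊗[k] C) _
    let β : B' ⊗[k] C →ₐ[k] (B ⊗[k] C) ⊗[B] B' := lift (includeRight.restrictScalars k)
      (((includeLeft : _ →ₐ[B] _).restrictScalars k).comp includeRight) fun _ _ => .all _ _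
    have hβ (b : B) (c : C) : β (algebraMap B B' b ⊗ₜ c) = (b ⊗ₜ c) ⊗ₜ 1 := by
      simp [β, Algebra.algebraMap_eq_smul_one, TensorProduct.smul_tmul']
    have hs : Surjective β := fun x => by
      induction x with
      | zero => exact ⟨0, map_zero _⟩
      | add x y hx hy => obtain ⟨a, rfl⟩ := hx; obtain ⟨b, rfl⟩ := hy; exact ⟨a + b, map_add ..⟩
      | tmul x b' =>
        induction x with
        | zero => exact ⟨0, by simp⟩
        | add x y hx hy =>
          obtain ⟨a, ha⟩ := hx; obtain ⟨b, hb⟩ := hy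
          exact ⟨a + b, by rw [map_add, ha, hb, TensorProduct.add_tmul]⟩
        | tmul b c => exact ⟨(b • b') ⊗ₜ c, by simp [β, TensorProduct.smul_tmul']⟩
    have ha : IsMap (relP k fun i => IsScalarTower.toAlgHom k (B ⊗[k] C) ((B ⊗[k] C) ⊗[B] B')
        (algebraMap B (B ⊗[k] C) (f i))) ((relP k fun i => IsScalarTower.toAlgHom k B B' (f i)).prod
        (Fn.spec k C).top) fun _ x => ((x.comp β).comp includeLeft, (x.comp β).comp includeRight) :=
      ⟨fun _ _ _ _ _ => rfl, fun _ _ _ => ⟨trivial, trivial⟩,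
        fun _ _ _ h => .inl (h.imp fun _ h => by simpa [hβ] using h)⟩
    have hb : IsMap (relP k fun i => algebraMap B (B ⊗[k] C) (f i))
        ((relP k f).prod (Fn.spec k C).top) fun _ x => (x.comp includeLeft, x.comp includeRight) :=
      ⟨fun _ _ _ _ _ => rfl, fun _ _ _ => ⟨trivial, trivial⟩, fun _ _ _ h => .inl h⟩
    refine uiso_ten_of _ ha (ha.bij (fun _ _ _ h => h.elim
      (fun h => h.imp fun _ h => by simpa [hβ] using h) False.elim) (fun _ x x' _ _ _ _ h => ?_)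
      fun O y _ _ => ?_) hb (hb.bij (fun _ _ _ h => h.elim id False.elim)
        (fun _ x x' _ _ _ _ h => Algebra.TensorProduct.ext congr(($h).1) congr(($h).2))
      fun _ y _ _ => ⟨productMap y.1 y.2, trivial,
        Prod.ext (productMap_left _ _) (productMap_right _ _)⟩) _
      (.gen (.nis _ _ c _ (h.baseChange (B ⊗[k] C)))) fun _ z _ =>
        Prod.ext (by ext; simp [hβ]) (by ext; simp [β])
    · have e : x.comp β = x'.comp β := Algebra.TensorProduct.ext congr(($h).1) congr(($h).2)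
      refine AlgHom.ext fun w => ?_
      obtain ⟨w, rfl⟩ := hs w
      exact congr($e w)
    · let φ := y.1.comp (IsScalarTower.toAlgHom k B B')
      let := φ.toAlgebra
      have : IsScalarTower k B O := .of_algHom φ
      exact ⟨(lift (S := B) (lift (Algebra.ofId B O) y.2 fun _ _ => .all _ _)
        ⟨y.1.toRingHom, fun _ => rfl⟩ fun _ _ => .all _ _).restrictScalars k, trivial,
        Prod.ext (by ext; simp [β, ← Algebra.TensorProduct.one_def])
          (by ext; simp [β, ← Algebra.TensorProduct.one_def])⟩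

variable {M₁ M₂ M₃ : Ob k F} {i : M₁ ⟶ M₂} {p : M₂ ⟶ M₃}

theorem ses₁ (T : Ses i p) (h₂ : Con M₂) (h₃ : Con M₃) : Con M₁ := fun X Y u hu =>
  (T.ten_left X).five₁ (T.ten_left Y) (by simp [← tenMap_comp]) (by simp [← tenMap_comp])
    (h₂ u hu) (h₃ u hu)

theorem ses₂ (T : Ses i p) (h₁ : Con M₁) (h₃ : Con M₃) : Con M₂ := fun X Y u hu =>
  (T.ten_left X).five₂ (T.ten_left Y) (by simp [← tenMap_comp]) (by simp [← tenMap_comp])
    (h₁ u hu) (h₃ u hu)

theorem ses₃ (T : Ses i p) (h₁ : Con M₁) (h₂ : Con M₂) : Con M₃ := fun X Y u hu =>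
  (T.ten_left X).five₃ (T.ten_left Y) (by simp [← tenMap_comp]) (by simp [← tenMap_comp])
    (h₁ u hu) (h₂ u hu)

theorem of_bij {f : M ⟶ M'} (hf : Bij f) (h : Con M') : Con M := fun X Y u hu =>
  .of_comp_right ((Bij.of_isIso (𝟙 Y)).ten hf).uiso (by
    rw [← tenMap_eq, tenMap_eq']; exact ((Bij.of_isIso (𝟙 X)).ten hf).uiso.comp (h u hu))

theorem of_subsingleton (h : ∀ O, Subsingleton (M.V O)) : Con M := fun _ _ _ _ =>
  (UZero.of_subsingleton fun O => have := h O; inferInstance).uiso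
    (UZero.of_subsingleton fun O => have := h O; inferInstance) _

protected theorem prod (h : Con M) (h' : Con N) : Con (M.prod N) := ses₂ (ses_prod M N) h h'

end Con

/-- Union of two conditions. -/
theorem Pair.ses_or {X : Fn k} (N₁ N₂ D : X.Cond) (s₁ : X.Stab N₁) (s₂ : X.Stab N₂)
    (sD : X.Stab D) : ∃ (a : (Pair.mk N₁ D s₁ sD).ob F ⟶ (Pair.mk (fun _ x => N₁ x ∨ N₂ x) D
      (fun _ _ g x h => h.imp (s₁ g x) (s₂ g x)) sD).ob F) (b : _ ⟶ (Pair.mk N₂
      (fun _ x => D x ∨ N₁ x) s₂ (fun _ _ g x h => h.imp (sD g x) (s₁ g x))).ob F), Ses a b := by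
  let P₃ : Pair X := ⟨fun _ x => N₁ x ∨ N₂ x, fun _ x => D x ∨ N₁ x,
    fun _ _ g x h => h.imp (s₁ g x) (s₂ g x), fun _ _ g x h => h.imp (sD g x) (s₁ g x)⟩
  have T := Pair.ses (F := F) (P₁ := .mk N₁ D s₁ sD) (P₂ := .mk (fun _ x => N₁ x ∨ N₂ x) D
    (fun _ _ g x h => h.imp (s₁ g x) (s₂ g x)) sD) (P₃ := P₃)
    (isMap_id (fun _ _ => .inl) fun _ _ _ h => h) (isMap_id (fun _ _ h => h) fun _ _ _ => .inl)
    (fun _ _ _ h => h) (fun _ _ _ => Iff.rfl) fun _ _ h _ => h
  have h : IsMap (Pair.mk N₂ (fun _ x => D x ∨ N₁ x) s₂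
      (fun _ _ g x h => h.imp (sD g x) (s₁ g x))) P₃ fun _ x => x :=
    isMap_id (fun _ _ => .inr) fun _ _ _ h => h
  have := (h.bij (F := F) (fun _ _ _ h => h) (fun _ _ _ _ _ _ _ h => h)
    fun _ y h1 h2 => ⟨y, h1.resolve_left fun h => h2 (.inr h), rfl⟩).isIso
  have hb := Bij.of_isIso (inv (h.hom F))
  exact ⟨_, _ ≫ inv (h.hom F), T.inj, fun O v => ((hb O).1.eq_iff' (map_zero _)).trans
    (T.exact O v), fun O => (hb O).2.comp (T.surj O)⟩

section Loc
variable {B : Type} [CommRing B] [Algebra k B] [Algebra.Smooth k B]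

instance smooth_away (g : B) : Algebra.Smooth k (Localization.Away g) := .comp k B _

theorem stab_unit {ι : Type} (f : ι → B) :
    (Fn.spec k B).Stab fun _ x => ∃ i, IsUnit (x (f i)) := (relP k f).sD

/-- The points of a localization. -/
theorem bij_loc (g : B) {P : Pair (.spec k (Localization.Away g))} {P' : Pair (.spec k B)}
    (h : IsMap P P' fun _ x => x.comp (IsScalarTower.toAlgHom k B _))
    (n : ∀ ⦃O⦄ (x : (Fn.spec k B).X O), P'.N x → IsUnit (x g))
    (n' : ∀ ⦃O⦄ (x : (Fn.spec k (Localization.Away g)).X O),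
      P'.N (x.comp (IsScalarTower.toAlgHom k B _)) → P.N x)
    (d : ∀ ⦃O⦄ (x : (Fn.spec k (Localization.Away g)).X O), P.N x →
      P'.D (x.comp (IsScalarTower.toAlgHom k B _)) → P.D x) : Bij (h.hom F) :=
  h.bij d (fun _ _ _ _ _ _ _ e => AlgHom.coe_ringHom_injective
    (IsLocalization.ringHom_ext (Submonoid.powers g) congr(($e).toRingHom))) fun _ y hy _ => by
      have e : (IsLocalization.Away.liftAlgHom g (n y hy) : Localization.Away g →ₐ[k] _).comp
        (IsScalarTower.toAlgHom k B _) = y := by ext; simp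
      exact ⟨_, n' _ (by rwa [e]), e⟩

/-- Finite unions of principal open subsets are constructible. -/
theorem con_union (s : Finset B) : ∀ (g : B) (h1 h2), Con ((Pair.mk (X := .spec k B)
    (fun _ x => IsUnit (x g)) (fun _ x => ∃ f ∈ s, IsUnit (x f)) h1 h2).ob F) := by
  classical
  induction s using Finset.induction_on with
  | empty =>
    intro g h1 h2
    have h : IsMap (Fn.spec k (Localization.Away g)).top (Pair.mk (X := .spec k B)
        (fun _ x => IsUnit (x g)) (fun _ x => ∃ f ∈ (∅ : Finset B), IsUnit (x f)) h1 h2)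
        fun _ x => x.comp (IsScalarTower.toAlgHom k B _) :=
      ⟨fun _ _ _ _ _ => rfl, fun _ x _ => (IsLocalization.Away.algebraMap_isUnit g).map x,
        fun _ _ _ h => h.elim⟩
    have := (bij_loc (F := F) g h (fun _ _ h => h) (fun _ _ _ => trivial) (by simp)).isIso
    exact .of_bij (.of_isIso (inv (h.hom F))) (.sm _)
  | insert a s _ ih =>
    intro g h1 h2
    have sD : (Fn.spec k B).Stab fun _ x => ∃ f ∈ s, IsUnit (x f) :=
      fun _ _ φ _ ⟨f, h, h'⟩ => ⟨f, h, h'.map φ⟩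
    exact .ses₃ (Pair.ses (X := .spec k B) (P₁ := .mk (fun _ x => IsUnit (x (g * a))) _
      (fun _ _ φ _ h => h.map φ) sD) (P₂ := .mk _ _ h1 sD) (P₃ := .mk _ _ h1 h2)
      (isMap_id (fun _ x (h : IsUnit (x (g * a))) =>
        isUnit_of_mul_isUnit_left (map_mul x g a ▸ h)) fun _ _ _ h => h)
      (isMap_id (fun _ _ h => h) fun _ _ _ ⟨f, h, h'⟩ => ⟨f, by simp [h], h'⟩)
      (fun _ _ _ h => h) (fun _ x (h : IsUnit (x g)) => by simp [h, or_comm]) fun _ _ h _ => h)
      (ih (g * a) _ sD) (ih g h1 sD)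

theorem con_rel {ι : Type} [Finite ι] (f : ι → B) : Con ((relP k f).ob F) := by
  classical
  have := Fintype.ofFinite ι
  have h : IsMap (relP k f) (Pair.mk (X := .spec k B) (fun _ x => IsUnit (x 1))
      (fun _ x => ∃ g ∈ Finset.univ.image f, IsUnit (x g)) (fun _ _ φ _ h => h.map φ)
      fun _ _ φ _ ⟨f, h, h'⟩ => ⟨f, h, h'.map φ⟩) fun _ x => x :=
    isMap_id (by simp) (by simp)
  exact .of_bij (h.bij (by simp) (fun _ _ _ _ _ _ _ h => h) fun _ y _ _ => ⟨y, trivial, rfl⟩)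
    (con_union _ _ _ _)

end Loc

namespace Con

theorem gen {X Y : Ob k F} {u : X ⟶ Y} (hu : Gn k F u) : Con X ∧ Con Y := by
  rcases hu with ⟨B⟩ | ⟨B, B', c, f, h⟩
  · exact ⟨.sm _, .sm _⟩
  · exact ⟨con_rel _, con_rel _⟩

theorem retract (h : Con M) {s : M' ⟶ M} {p : M ⟶ M'} (e : UIso (s ≫ p)) : Con M' :=
  fun _ _ u hu => (h u hu).retract (s := tenMap (𝟙 _) s) (p := tenMap (𝟙 _) p)
    (s' := tenMap (𝟙 _) s) (p' := tenMap (𝟙 _) p)
    (by simpa [← tenMap_comp] using e.ten_left (gen hu).1)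
    (by simpa [← tenMap_comp] using e.ten_left (gen hu).2)
    (by simp [← tenMap_comp]) (by simp [← tenMap_comp])

theorem uiso_iff {f : M ⟶ M'} (hf : UIso f) : Con M ↔ Con M' := by
  refine forall₂_congr fun X Y => forall₂_congr fun u hu => ?_
  have h1 := hf.ten_left (gen hu).1
  have h2 := hf.ten_left (gen hu).2
  refine ⟨fun h => h1.of_comp_left ?_, fun h => h2.of_comp_right ?_⟩
  · rw [← tenMap_eq', tenMap_eq]; exact h.comp h2
  · rw [← tenMap_eq, tenMap_eq']; exact h1.comp h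

theorem of_uzero (h : UZero M) : Con M :=
  fun _ _ _ hu => (h.ten_left (gen hu).1).uiso (h.ten_left (gen hu).2) _

protected theorem ten (h : Con M) (h' : Con N) : Con (M.ten N) := fun X Y u hu =>
  .of_comp_right (bij_assoc Y M N).uiso (by
    rw [← tenMap_id, assoc_nat]; exact (bij_assoc X M N).uiso.comp ((h u hu).ten h'))

protected theorem one : Con (one k F) := fun X Y u hu =>
  .of_comp_right (bij_rid Y).uiso (by rw [rid_nat]; exact (bij_rid X).uiso.comp (.gen hu))

end Con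

/-- Isomorphic objects. -/
def Eqv (M N : Ob k F) : Prop := ∃ f : M ⟶ N, Bij f

namespace Eqv

theorem refl (M : Ob k F) : Eqv M M := ⟨𝟙 M, .of_isIso _⟩
theorem symm (h : Eqv M N) : Eqv N M :=
  h.elim fun f hf => have := hf.isIso; ⟨inv f, .of_isIso _⟩
theorem trans (h : Eqv M M') (h' : Eqv M' M'') : Eqv M M'' :=
  h.elim fun _ hf => h'.elim fun _ hg => ⟨_, hf.comp hg⟩
theorem ten (h : Eqv M M') (h' : Eqv N N') : Eqv (M.ten N) (M'.ten N') :=
  h.elim fun _ hf => h'.elim fun _ hg => ⟨_, hf.ten hg⟩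
theorem swap (M N : Ob k F) : Eqv (M.ten N) (N.ten M) := ⟨_, bij_swap M N⟩
theorem assoc (M N P : Ob k F) : Eqv (M.ten (N.ten P)) ((M.ten N).ten P) := ⟨_, bij_assoc M N P⟩
theorem rid (M : Ob k F) : Eqv (M.ten (one k F)) M := ⟨_, bij_rid M⟩
theorem reidx (M : Ob k F) {α β : Type} [Finite α] [Finite β] (e : α ≃ β) :
    Eqv (M.pow α) (M.pow β) := ⟨_, bij_reidx e⟩
theorem empty (M : Ob k F) (α : Type) [IsEmpty α] : Eqv (M.pow α) (one k F) := ⟨_, bij_emptyHom α⟩
theorem option (M : Ob k F) (α : Type) [Finite α] : Eqv (M.pow (Option α)) ((M.pow α).ten M) :=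
  (symm ⟨_, bij_sumHom (Equiv.optionEquivSumPUnit.{0} α).symm⟩).trans
    ((refl _).ten ⟨_, bij_oneHom _⟩)
theorem ob_ten {X X' : Fn k} (P : Pair X) (P' : Pair X') :
    Eqv ((P.prod P').ob F) ((P.ob F).ten (P'.ob F)) := ⟨_, bij_ten P P'⟩
theorem ob_pow {X : Fn k} (P : Pair X) (α : Type) [Finite α] :
    Eqv ((P.pi α).ob F) ((P.ob F).pow α) := ⟨_, bij_pow P α⟩
theorem con (h : Eqv M N) (h' : Con N) : Con M := h.elim fun _ hf => h'.of_bij hf

end Eqv

theorem pow_induction {P : Ob k F → Prop} (hE : ∀ M N, Eqv M N → P N → P M) (h1 : P (one k F))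
    (ht : ∀ N, P N → P (N.ten M)) (α : Type) [Finite α] : P (M.pow α) := by
  refine Finite.induction_empty_option (P := fun α => ∀ [Finite α], P (M.pow α))
    (fun e h _ => ?_) ?_ (fun h _ => ?_) α
  · have := Finite.of_equiv _ e.symm
    exact hE _ _ (.reidx M e.symm) h
  · exact fun {_} => hE _ _ (.empty M _) h1
  · exact hE _ _ (.option M _) (ht _ h)

protected theorem Con.pow (h : Con M) (α : Type) [Finite α] : Con (M.pow α) :=
  pow_induction (fun _ _ => Eqv.con) .one (fun _ h' => h'.ten h) α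

theorem UIso.pow {f : M ⟶ N} (hf : UIso f) (hM : Con M) (α : Type) [Finite α] :
    UIso (powMap fun _ : α => f) := by
  have hN := (Con.uiso_iff hf).1 hM
  refine Finite.induction_empty_option (P := fun α => ∀ [Finite α], UIso (powMap fun _ : α => f))
    (fun {α β} e h _ => ?_) ?_ (fun {α} _ h _ => ?_) α
  · have := Finite.of_equiv _ e.symm
    refine (bij_reidx e).uiso.of_comp_left ?_
    rw [reidx_nat]
    exact h.comp (bij_reidx e).uiso
  · intro _
    refine .of_comp_right (bij_emptyHom _).uiso ?_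
    rw [emptyHom_nat]; exact (bij_emptyHom _).uiso
  · refine (bij_sumHom (Equiv.optionEquivSumPUnit.{0} α).symm).uiso.of_comp_left ?_
    rw [sumHom_nat]
    refine .comp (h.ten₂ ?_ (hM.pow _) (hN.pow _)) (bij_sumHom _).uiso
    refine .of_comp_right (bij_oneHom _).uiso ?_
    rw [oneHom_nat]; exact (bij_oneHom _).uiso.comp hf

/-- The action of a linear combination of permutations. -/
def act (M : Ob k F) {α : Type} [Fintype α] [DecidableEq α] (r : Equiv.Perm α → F) :
    M.pow α ⟶ M.pow α := ∑ σ, r σ • reidx M σ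

theorem act_nat {α : Type} [Fintype α] [DecidableEq α] (r : Equiv.Perm α → F) (f : M ⟶ N) :
    act M r ≫ powMap (fun _ => f) = powMap (fun _ => f) ≫ act N r := by
  simp only [act, Preadditive.sum_comp, Preadditive.comp_sum, Linear.smul_comp, Linear.comp_smul,
    reidx_nat]

/-- An identity holds on every subset of the factors. -/
theorem Null.emb {α β : Type} [Finite α] [Fintype β] [DecidableEq β] (hM : Con M) (j : β ↪ α)
    (g : α → (M ⟶ N)) {r : Equiv.Perm β → F} (h : Null (powMap (fun b => g (j b)) ≫ act N r)) :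
    Null (powMap g ≫ ∑ s, r s • reidx N (s.viaEmbedding j)) := by
  classical
  let e : β ⊕ {a // a ∉ Set.range j} ≃ α :=
    ((Equiv.ofInjective j j.injective).sumCongr (.refl _)).trans (Equiv.sumCompl _)
  have he (s : Equiv.Perm β) : e.permCongr (s.sumCongr 1) = s.viaEmbedding j := by
    ext a
    obtain ⟨b | b, rfl⟩ := e.surjective a
    · rw [Equiv.permCongr_apply, e.symm_apply_apply]
      exact (Equiv.Perm.viaEmbedding_apply s j b).symm
    · rw [Equiv.permCongr_apply, e.symm_apply_apply]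
      exact (Equiv.Perm.viaEmbedding_apply_of_notMem s j _ b.2).symm
  refine .of_uiso_comp (bij_sumHom e).uiso ?_
  have e1 : sumHom N e ≫ ∑ s, r s • reidx N (s.viaEmbedding j) =
      tenMap (act N r) (𝟙 _) ≫ sumHom N e := by
    rw [← tenL_apply, act, map_sum, LinearMap.sum_apply, Preadditive.sum_comp,
      Preadditive.comp_sum]
    refine Finset.sum_congr rfl fun s _ => ?_
    rw [map_smul, LinearMap.smul_apply, Linear.smul_comp, Linear.comp_smul, tenL_apply,
      ← reidx_one, sumHom_reidx, he]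
  rw [← Category.assoc, sumHom_nat, Category.assoc, e1, ← Category.assoc, ← tenMap_comp]
  exact (h.ten₁ _ (hM.pow _)).comp _

end

end Pool.Agent.Lib.MP_fc2ced_ag.E
end

-- part Pool.Agent.Lib.MP_fc2ced_ag.ESFA
section

/-! Tools for Schur-finiteness: growth arguments, idempotents, and the filtration of a tensor
power defined by a subobject. -/

open CategoryTheory Function
open PiTensorProduct hiding tprod
open PiTensorProduct renaming tprod → tp
open scoped TensorProduct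

set_option linter.unusedSectionVars false

namespace Pool.Agent.Lib.MP_fc2ced_ag.E

noncomputable section

variable {k : Type} [Field k] {F : Type} [Field F]

open Ob

variable {M M' N : Ob k F}

namespace SFA

theorem exists_act {α β : Type} [Fintype α] [DecidableEq α] [Fintype β] [DecidableEq β]
    {φ : Equiv.Perm β → Equiv.Perm α} (hφ : Injective φ) {r : Equiv.Perm β → F} (hr : r ≠ 0) :
    ∃ r' : Equiv.Perm α → F, r' ≠ 0 ∧ ∀ M : Ob k F, act M r' = ∑ s, r s • reidx M (φ s) := by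
  refine ⟨extend φ r 0, fun h => hr (funext fun s => ?_), fun M => ?_⟩
  · simpa [hφ.extend_apply] using congrFun h (φ s)
  · refine (Fintype.sum_of_injective φ hφ _ _ (fun σ hσ => ?_) fun s => ?_).symm
    · rw [extend_apply' _ _ _ hσ]; simp
    · rw [hφ.extend_apply]

section Lin

variable {V : Type*} [AddCommGroup V] [Module F V]

theorem exists_rel {ι κ : Type} [Fintype ι] [Fintype κ] (P : Submodule F V) (u : ι → V)
    (t : κ → V) (hc : Fintype.card κ < Fintype.card ι)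
    (h : ∀ i, u i ∈ Submodule.span F (Set.range t) ⊔ P) :
    ∃ r : ι → F, r ≠ 0 ∧ ∑ i, r i • u i ∈ P := by
  classical
  have hn : ¬ LinearIndependent F fun i => P.mkQ (u i) := fun hl => by
    have := linearIndependent_le_span_aux' _ hl (Set.range fun j => P.mkQ (t j)) (by
      rintro _ ⟨i, rfl⟩
      obtain ⟨a, ha, b, hb, e⟩ := Submodule.mem_sup.1 (h i)
      have h1 := Submodule.mem_map_of_mem (f := P.mkQ) ha
      rw [Submodule.map_span, ← Set.range_comp] at h1
      change P.mkQ (u i) ∈ _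
      rw [← e, map_add, show P.mkQ b = 0 from (Submodule.Quotient.mk_eq_zero _).2 hb, add_zero]
      exact h1)
    exact absurd (this.trans (Fintype.card_range_le _)) (not_le.2 hc)
  obtain ⟨r, h1, i, hi⟩ := Fintype.not_linearIndependent_iff.1 hn
  refine ⟨r, fun e => hi (congrFun e i), (Submodule.Quotient.mk_eq_zero _).1 ?_⟩
  change P.mkQ _ = 0
  simpa only [map_sum, map_smul] using h1

theorem lower_of_rel' {d n : ℕ} (P : Submodule F V) (u : Equiv.Perm (Fin n) → V)
    (σ : Equiv.Perm (Fin n)) (T : Fin d ↪ Fin n) (h1 : StrictMono T)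
    (h2 : StrictAnti fun a => σ (T a)) {r : Equiv.Perm (Fin d) → F} (hr : r ≠ 0)
    (h : ∀ π : Equiv.Perm (Fin n), ∑ s, r s • u (π * s.viaEmbedding T) ∈ P) :
    u σ ∈ Submodule.span F (u '' {τ | Naive.LexLt τ σ}) ⊔ P := by
  obtain ⟨s₀, hs₀⟩ := Function.ne_iff.1 hr
  refine Naive.lower_of_rel P u σ T h1 h2 (fun τ => (r s₀)⁻¹ * r (s₀ * τ))
    (by rw [mul_one]; exact inv_mul_cancel₀ hs₀) ?_
  have h3 := P.smul_mem (r s₀)⁻¹ (h (σ * (s₀⁻¹).viaEmbedding T))
  rw [← Equiv.sum_comp (Equiv.mulLeft s₀), Finset.smul_sum] at h3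
  refine Set.mem_of_eq_of_mem (s := (P : Set V)) (Finset.sum_congr rfl fun τ _ => Eq.symm ?_) h3
  rw [smul_smul, mul_assoc σ, ← Equiv.Perm.viaEmbeddingHom_apply,
    ← Equiv.Perm.viaEmbeddingHom_apply, ← Equiv.Perm.viaEmbeddingHom_apply, ← map_mul]
  simp

end Lin

open Classical in
theorem card_good (d n : ℕ) :
    Fintype.card {σ : Equiv.Perm (Fin n) // Naive.Good d σ} ≤ (d ^ 2) ^ n := by
  rw [Fintype.card_subtype]
  exact Naive.card_good d n

theorem null_emb {α β : Type} [Finite α] [Fintype β] [DecidableEq β] (hM : Con M) (j : β ↪ α)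
    (g : α → (M ⟶ N)) {r : Equiv.Perm β → F} (h : Null (powMap (fun b => g (j b)) ≫ act N r))
    (π : Equiv.Perm α) :
    ∑ s, r s • (powMap g ≫ reidx N (π * s.viaEmbedding j)) ∈ nullSub (M.pow α) (N.pow α) := by
  have := (Null.emb hM j g h).comp (reidx N π)
  simp only [Preadditive.sum_comp, Preadditive.comp_sum, Linear.smul_comp, Linear.comp_smul,
    Category.assoc, ← reidx_mul] at this
  exact this

theorem span_good {d : ℕ} (hM : Con M) {r : Equiv.Perm (Fin d) → F} (hr : r ≠ 0)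
    (h : Null (act M r)) {n : ℕ} (σ : Equiv.Perm (Fin n)) :
    reidx M σ ∈ Submodule.span F (reidx M '' {τ | Naive.Good d τ}) ⊔
      nullSub (M.pow (Fin n)) (M.pow (Fin n)) :=
  Naive.span_good_of_rel _ (reidx M) r hr (fun π j => by
    simpa using null_emb hM j (fun _ => 𝟙 M) (h.precomp _) π) σ

/-- The action of the group algebra. -/
def actA (M : Ob k F) (α : Type) [Fintype α] [DecidableEq α] :
    MonoidAlgebra F (Equiv.Perm α) →ₐ[F] End (M.pow α) :=
  MonoidAlgebra.lift F _ _ ⟨⟨reidx M, reidx_one⟩, reidx_mul⟩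

theorem actA_eq {α : Type} [Fintype α] [DecidableEq α] (x : MonoidAlgebra F (Equiv.Perm α)) :
    actA M α x = act M x.coeff := by
  rw [actA, MonoidAlgebra.lift_apply, Finsupp.sum_fintype _ _ fun _ => by simp]
  rfl

theorem act_mul {α : Type} [Fintype α] [DecidableEq α] (x y : MonoidAlgebra F (Equiv.Perm α)) :
    act M (x * y).coeff = act M y.coeff ≫ act M x.coeff := by
  rw [← actA_eq, ← actA_eq, ← actA_eq, map_mul]
  rfl

theorem exists_idem [CharZero F] {α : Type} [Fintype α] [DecidableEq α] {r : Equiv.Perm α → F}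
    (hr : r ≠ 0) (h : Null (act M r)) : ∃ e : Equiv.Perm α → F, e ≠ 0 ∧ Null (act M e) ∧
      ∀ N : Ob k F, act N e ≫ act N e = act N e := by
  have : NeZero ((Nat.card (Equiv.Perm α) : ℕ) : F) := ⟨by
    have := Nat.card_pos (α := Equiv.Perm α)
    exact_mod_cast this.ne'⟩
  let x : MonoidAlgebra F (Equiv.Perm α) := .ofCoeff (Finsupp.equivFunOnFinite.symm r)
  obtain ⟨e, he, hI⟩ := IsSemisimpleRing.ideal_eq_span_idempotent (Ideal.span {x})
  obtain ⟨a, ha⟩ := Ideal.mem_span_singleton'.1 (hI ▸ Ideal.subset_span rfl : e ∈ Ideal.span {x})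
  obtain ⟨b, hb⟩ := Ideal.mem_span_singleton'.1 (hI ▸ Ideal.subset_span rfl : x ∈ Ideal.span {e})
  refine ⟨e.coeff, fun h0 => hr ?_, ?_, fun N => by rw [← act_mul, he.eq]⟩
  · have h1 : e = 0 := MonoidAlgebra.coeff_eq_zero.1 (DFunLike.coe_injective h0)
    rw [h1, mul_zero] at hb
    exact (congrArg (fun y : MonoidAlgebra F (Equiv.Perm α) => (y.coeff : _ → F)) hb).symm
  · rw [← ha, act_mul]
    exact h.comp _

section Piece

variable {U V W : Type} [AddCommGroup U] [Module F U] [AddCommGroup V] [Module F V]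
  [AddCommGroup W] [Module F W] {α : Type} [Fintype α] [DecidableEq α]

variable (α) in
/-- The sum over the subsets `S` of size `t` of the maps that are `f` on `S` and `g` off `S`. -/
def lpc (t : ℕ) (f g : U →ₗ[F] V) : (⨂[F] _ : α, U) →ₗ[F] ⨂[F] _ : α, V :=
  ∑ S ∈ Finset.powersetCard t Finset.univ,
    PiTensorProduct.map (S.piecewise (fun _ => f) fun _ => g)

theorem lpc_tp (t : ℕ) (f g : U →ₗ[F] V) (m : α → U) :
    lpc α t f g (tp F m) = ∑ S ∈ Finset.powersetCard t Finset.univ,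
      tp F (S.piecewise (fun a => f (m a)) fun a => g (m a)) := by
  rw [lpc, LinearMap.sum_apply]
  refine Finset.sum_congr rfl fun S _ => ?_
  rw [map_tprod]
  congr 1
  funext a
  by_cases ha : a ∈ S <;> simp [ha]

theorem lpc_map (t : ℕ) (f g : V →ₗ[F] W) (h : U →ₗ[F] V) :
    lpc α t f g ∘ₗ PiTensorProduct.map (fun _ => h) = lpc α t (f ∘ₗ h) (g ∘ₗ h) := by
  refine PiTensorProduct.ext (MultilinearMap.ext fun m => ?_)
  simp only [LinearMap.compMultilinearMap_apply, LinearMap.comp_apply, map_tprod, lpc_tp]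

theorem exists_not_mem {S S' : Finset α} (hne : S' ≠ S) (hc : S'.card = S.card) :
    ∃ a ∈ S, a ∉ S' := by
  by_contra h
  push Not at h
  exact hne (Finset.eq_of_subset_of_card_le h hc.le).symm

theorem lpc_comp (t : ℕ) (f' g' : V →ₗ[F] W) (f g : U →ₗ[F] V) (h : g' ∘ₗ f = 0) :
    lpc α t f' g' ∘ₗ lpc α t f g = lpc α t (f' ∘ₗ f) (g' ∘ₗ g) := by
  refine PiTensorProduct.ext (MultilinearMap.ext fun m => ?_)
  simp only [LinearMap.compMultilinearMap_apply, LinearMap.comp_apply, lpc_tp, map_sum]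
  refine Finset.sum_congr rfl fun S hS => ?_
  rw [Finset.sum_eq_single_of_mem S hS]
  · congr 1
    funext a
    by_cases ha : a ∈ S <;> simp [ha]
  · intro S' hS' hne
    obtain ⟨a, ha, ha'⟩ := exists_not_mem hne
      ((Finset.mem_powersetCard.1 hS').2.trans (Finset.mem_powersetCard.1 hS).2.symm)
    refine (tp F).map_coord_zero a ?_
    simpa [ha, ha'] using congr($h (m a))

variable (α) in
/-- The span of the pure tensors with at least `t` entries in `P`. -/
def fil (t : ℕ) (P : Submodule F V) : Submodule F (⨂[F] _ : α, V) :=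
  Submodule.span F {x | ∃ (m : α → V) (S : Finset α), t ≤ S.card ∧ (∀ a ∈ S, m a ∈ P) ∧
    x = tp F m}

theorem tp_mem_fil {t : ℕ} {P : Submodule F V} {m : α → V} {S : Finset α} (h : t ≤ S.card)
    (hm : ∀ a ∈ S, m a ∈ P) : tp F m ∈ fil α t P := Submodule.subset_span ⟨m, S, h, hm, rfl⟩

theorem map_mem_of_tp (φ : (⨂[F] _ : α, U) →ₗ[F] W) (Q : Submodule F W)
    (h : ∀ m, φ (tp F m) ∈ Q) (v : ⨂[F] _ : α, U) : φ v ∈ Q := by
  induction v using PiTensorProduct.induction_on with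
  | smul_tprod c m => rw [map_smul]; exact Q.smul_mem c (h m)
  | add x y hx hy => rw [map_add]; exact add_mem hx hy

theorem map_mem_of_fil {t : ℕ} {P : Submodule F V} (φ : (⨂[F] _ : α, V) →ₗ[F] W)
    (Q : Submodule F W) (h : ∀ (m : α → V) (S : Finset α), t ≤ S.card → (∀ a ∈ S, m a ∈ P) →
      φ (tp F m) ∈ Q) {v : ⨂[F] _ : α, V} (hv : v ∈ fil α t P) : φ v ∈ Q := by
  refine (Submodule.span_le.2 ?_ : fil α t P ≤ Q.comap φ) hv
  rintro _ ⟨m, S, h1, h2, rfl⟩
  exact h m S h1 h2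

theorem fil_zero (P : Submodule F V) (v : ⨂[F] _ : α, V) : v ∈ fil α 0 P :=
  map_mem_of_tp .id _ (fun _ => tp_mem_fil (S := ∅) le_rfl (by simp)) v

theorem fil_top {t : ℕ} (ht : Fintype.card α < t) (P : Submodule F V) {v : ⨂[F] _ : α, V}
    (hv : v ∈ fil α t P) : v = 0 :=
  map_mem_of_fil .id ⊥ (fun _ S h _ => absurd (h.trans S.card_le_univ) (not_le.2 ht)) hv

theorem lpc_mem (t : ℕ) {P : Submodule F V} {f : U →ₗ[F] V} (hf : ∀ u, f u ∈ P) (g : U →ₗ[F] V)
    (v : ⨂[F] _ : α, U) : lpc α t f g v ∈ fil α t P :=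
  map_mem_of_tp _ _ (fun m => by
    rw [lpc_tp]
    exact Submodule.sum_mem _ fun S hS => tp_mem_fil (Finset.mem_powersetCard.1 hS).2.ge
      fun a ha => by simpa [ha] using hf _) v

theorem lpc_sub_mem (t : ℕ) {P : Submodule F V} {f : U →ₗ[F] V} (hf : ∀ u, f u ∈ P)
    {g g' : U →ₗ[F] V} (hg : ∀ u, g u - g' u ∈ P) (v : ⨂[F] _ : α, U) :
    lpc α t f g v - lpc α t f g' v ∈ fil α (t + 1) P := by
  refine map_mem_of_tp (lpc α t f g - lpc α t f g') _ (fun m => ?_) v
  rw [LinearMap.sub_apply, lpc_tp, lpc_tp, ← Finset.sum_sub_distrib]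
  refine Submodule.sum_mem _ fun S hS => ?_
  have e : S.piecewise (fun a => f (m a)) (fun a => g (m a)) =
      S.piecewise 0 (fun a => g (m a) - g' (m a)) +
        S.piecewise (fun a => f (m a)) fun a => g' (m a) := by
    funext a
    by_cases ha : a ∈ S <;> simp [ha]
  rw [e, (tp F).map_add_univ, ← Finset.add_sum_erase _ _ (Finset.mem_univ ∅),
    Finset.piecewise_empty, add_sub_cancel_left]
  refine Submodule.sum_mem _ fun S' hS' => ?_
  obtain ⟨a, ha⟩ := Finset.nonempty_iff_ne_empty.2 (Finset.ne_of_mem_erase hS')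
  by_cases haS : a ∈ S
  · rw [(tp F).map_coord_zero a (by simp [ha, haS])]
    exact zero_mem _
  · refine tp_mem_fil (S := insert a S) ?_ fun b hb => ?_
    · rw [Finset.card_insert_of_notMem haS, (Finset.mem_powersetCard.1 hS).2]
    · by_cases h1 : b ∈ S' <;> by_cases h2 : b ∈ S
      · simp [h1, h2]
      · simpa [h1, h2] using hg _
      · simpa [h1, h2] using hf _
      · rcases Finset.mem_insert.1 hb with rfl | hb
        · exact absurd ha h1
        · exact absurd hb h2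

theorem lpc_surj (t : ℕ) (i : U →ₗ[F] V) {v : ⨂[F] _ : α, V}
    (hv : v ∈ fil α t (LinearMap.range i)) :
    v ∈ LinearMap.range (lpc α t (i ∘ₗ .fst F U V) (.snd F U V)) := by
  refine map_mem_of_fil .id _ (fun m S h1 h2 => ?_) hv
  obtain ⟨S', h3, h4⟩ := Finset.exists_subset_card_eq h1
  choose! w hw using h2
  refine ⟨tp F (S'.piecewise (fun a => (w a, 0)) fun a => (0, m a)), ?_⟩
  rw [lpc_tp, Finset.sum_eq_single_of_mem S' (Finset.mem_powersetCard.2 ⟨S'.subset_univ, h4⟩)]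
  · change _ = tp F m
    congr 1
    funext a
    by_cases ha : a ∈ S'
    · simpa [ha] using hw a (h3 ha)
    · simp [ha]
  · intro S'' hS hne
    obtain ⟨a, ha, ha'⟩ := exists_not_mem hne ((Finset.mem_powersetCard.1 hS).2.trans h4.symm)
    exact (tp F).map_coord_zero a (by simp [ha, ha'])

end Piece

section PieceOb

variable {α : Type} [Fintype α] [DecidableEq α]

variable (α) in
/-- The morphism version of `lpc`. -/
def pc (t : ℕ) (f g : M ⟶ N) : M.pow α ⟶ N.pow α :=
  ∑ S ∈ Finset.powersetCard t Finset.univ, powMap (S.piecewise (fun _ => f) fun _ => g)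

theorem pc_app (t : ℕ) (f g : M ⟶ N) (O : Aic k) :
    (pc α t f g).1 O = lpc α t (f.1 O) (g.1 O) := by
  rw [pc, sum_app, lpc]
  refine Finset.sum_congr rfl fun S _ => ?_
  rw [powMap_app]
  congr 1
  funext a
  by_cases ha : a ∈ S <;> simp [ha]

theorem reidx_pc (t : ℕ) (f g : M ⟶ N) (σ : Equiv.Perm α) :
    reidx M σ ≫ pc α t f g = pc α t f g ≫ reidx N σ := by
  rw [pc, Preadditive.comp_sum, Preadditive.sum_comp]
  refine Finset.sum_equiv σ.symm.finsetCongr (fun S => by simp) fun S _ => ?_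
  rw [reidx_nat]
  congr 2
  funext a
  by_cases ha : σ a ∈ S <;> simp [ha]

theorem act_pc (t : ℕ) (f g : M ⟶ N) (r : Equiv.Perm α → F) :
    act M r ≫ pc α t f g = pc α t f g ≫ act N r := by
  simp only [act, Preadditive.sum_comp, Linear.smul_comp, reidx_pc]
  simp only [Preadditive.comp_sum, Linear.comp_smul]

variable (α) in
/-- The filtration of a tensor power by the number of factors in the image of `i`. -/
def Fil (t : ℕ) (i : M ⟶ N) : Sub (N.pow α) where
  S O := fil α t (LinearMap.range (i.1 O))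
  map_mem g _ hv := map_mem_of_fil _ _ (fun m S h1 h2 => by
    rw [map_tprod]
    exact tp_mem_fil h1 fun a ha => (range i).map_mem g _ (h2 a ha)) hv

end PieceOb

end SFA

end

end Pool.Agent.Lib.MP_fc2ced_ag.E
end

-- part Pool.Agent.Lib.MP_fc2ced_ag.ESF
section

/-! Schur-finite objects: retracts, sums, tensor products, extensions. -/

open CategoryTheory Function

namespace Pool.Agent.Lib.MP_fc2ced_ag.E

noncomputable section

variable {k : Type} [Field k] {F : Type} [Field F]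

open Ob

variable {M M' N : Ob k F}

/-- A nonzero combination of permutations kills a tensor power, in all theories. -/
def SF (M : Ob k F) : Prop :=
  ∃ (d : ℕ) (r : Equiv.Perm (Fin d) → F), r ≠ 0 ∧ Null (act M r)

namespace SF

open SFA

theorem of_fintype {α : Type} [Fintype α] [DecidableEq α] {r : Equiv.Perm α → F} (hr : r ≠ 0)
    (h : Null (act M r)) : SF M := by
  let e := Fintype.equivFin α
  obtain ⟨r', h1, h2⟩ := exists_act (k := k) e.permCongr.injective hr
  refine ⟨_, r', h1, ?_⟩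
  have h3 : act M r' = reidx M e.symm ≫ act M r ≫ reidx M e := by
    rw [h2]
    simp only [act, Preadditive.sum_comp, Preadditive.comp_sum, Linear.smul_comp,
      Linear.comp_smul, reidx_comp]
    rfl
  rw [h3]
  exact (h.comp _).precomp _

theorem of_inj {α β : Type} [Fintype α] [DecidableEq α] [Fintype β] [DecidableEq β]
    {φ : Equiv.Perm β → Equiv.Perm α} (hφ : Injective φ) {r : Equiv.Perm β → F} (hr : r ≠ 0)
    (h : Null (∑ s, r s • reidx M (φ s))) : SF M := by
  obtain ⟨r', h1, h2⟩ := exists_act (k := k) hφ hr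
  exact of_fintype h1 (h2 M ▸ h)

/-- The degree can be taken positive. -/
theorem exists_pos (h : SF M) (hM : Con M) :
    ∃ (d : ℕ) (r : Equiv.Perm (Fin d) → F), 0 < d ∧ r ≠ 0 ∧ Null (act M r) := by
  obtain ⟨d, r, hr, h⟩ := h
  obtain ⟨r', h1, h2⟩ := exists_act (k := k)
    (Equiv.Perm.viaEmbeddingHom_injective (Fin.castSuccEmb (n := d))) hr
  refine ⟨d + 1, r', d.succ_pos, h1, ?_⟩
  rw [h2]
  simpa [Equiv.Perm.viaEmbeddingHom_apply] using
    Null.emb hM Fin.castSuccEmb (fun _ => 𝟙 M) (h.precomp _)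

theorem retract (h : SF M) (hM : Con M') {s : M' ⟶ M} {p : M ⟶ M'} (e : UIso (s ≫ p)) :
    SF M' := by
  obtain ⟨d, r, hr, h⟩ := h
  refine ⟨d, r, hr, .of_uiso_comp (e.pow hM (Fin d)) ?_⟩
  rw [← powMap_comp, Category.assoc, ← act_nat]
  exact (h.comp _).precomp _

theorem uiso_iff {f : M ⟶ N} (hf : UIso f) (hM : Con M) : SF M ↔ SF N :=
  exists₂_congr fun d r => and_congr_right fun _ =>
    ⟨fun h => .of_uiso_comp (hf.pow hM (Fin d)) (act_nat r f ▸ h.comp _),
      fun h => .of_comp_uiso (hf.pow hM (Fin d)) (act_nat r f ▸ h.precomp _)⟩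

theorem of_uzero (h : UZero M) : SF M :=
  ⟨1, 1, one_ne_zero, ((bij_oneHom (Fin 1)).uiso.uzero_iff.2 h).null_left _⟩

theorem tenPow_act {α : Type} [Fintype α] [DecidableEq α] (r : Equiv.Perm α → F) :
    (∑ s, r s • tenMap (reidx M s) (reidx N s)) ≫ tenPow M N α =
      tenPow M N α ≫ act (M.ten N) r := by
  simp only [act, Preadditive.sum_comp, Preadditive.comp_sum, Linear.smul_comp, Linear.comp_smul,
    tenPow_reidx]

theorem sq (h : SF (M.ten M)) : SF M := by
  obtain ⟨d, r, hr, h⟩ := h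
  have h1 : Null (∑ s, r s • tenMap (reidx M s) (reidx M s)) :=
    .of_comp_uiso bij_tenPow.uiso (by rw [tenPow_act]; exact h.precomp _)
  refine of_inj (φ := fun s => (Equiv.refl _).permCongr (s.sumCongr s)) (fun s t hst => ?_) hr
    (.of_uiso_comp (bij_sumHom (Equiv.refl _)).uiso ?_)
  · ext a
    have := congrArg (fun σ : Equiv.Perm (Fin d ⊕ Fin d) => σ (.inl a)) hst
    simp only [Equiv.permCongr_apply, Equiv.refl_symm, Equiv.refl_apply, Equiv.sumCongr_apply,
      Sum.map_inl, Sum.inl.injEq] at this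
    rw [this]
  · have := h1.comp (sumHom M (Equiv.refl _))
    simp only [Preadditive.sum_comp, Linear.smul_comp, sumHom_reidx] at this
    simpa only [Preadditive.comp_sum, Linear.comp_smul] using this

protected theorem ten (hM : Con M) (hN : Con N) (h : SF M) (h' : SF N) : SF (M.ten N) := by
  classical
  obtain ⟨d, r, hr, h⟩ := h
  obtain ⟨d', r', hr', h'⟩ := h'
  obtain ⟨n, -, hn⟩ := Naive.exists_pow_lt_factorial (d ^ 2 * d' ^ 2)
  obtain ⟨c, hc, h1⟩ := exists_rel (nullSub ((M.pow (Fin n)).ten (N.pow (Fin n))) _)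
    (fun s : Equiv.Perm (Fin n) => tenMap (reidx M s) (reidx N s))
    (fun g : {σ : Equiv.Perm (Fin n) // Naive.Good d σ} ×
      {σ : Equiv.Perm (Fin n) // Naive.Good d' σ} => tenMap (reidx M g.1.1) (reidx N g.2.1))
    (by
      rw [Fintype.card_prod, Fintype.card_perm, Fintype.card_fin]
      refine lt_of_le_of_lt (Nat.mul_le_mul (card_good d n) (card_good d' n)) ?_
      rwa [← mul_pow])
    (fun s => by
      obtain ⟨a, ha, a', ha', e⟩ := Submodule.mem_sup.1 (span_good hM hr h s)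
      obtain ⟨b, hb, b', hb', e'⟩ := Submodule.mem_sup.1 (span_good hN hr' h' s)
      rw [← e', ← tenL_apply, map_add]
      refine add_mem ?_ (Submodule.mem_sup_right (Null.ten₂ hb' _ (hM.pow _)))
      rw [← e, map_add, LinearMap.add_apply]
      refine add_mem (Submodule.mem_sup_left ?_)
        (Submodule.mem_sup_right (Null.ten₁ ha' _ (hN.pow _)))
      have := Submodule.apply_mem_map₂ tenL ha hb
      rw [Submodule.map₂_span_span] at this
      refine Submodule.span_mono ?_ this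
      rintro _ ⟨_, ⟨g, hg, rfl⟩, _, ⟨g', hg', rfl⟩, rfl⟩
      exact ⟨(⟨g, hg⟩, ⟨g', hg'⟩), rfl⟩)
  exact ⟨n, c, hc, .of_uiso_comp bij_tenPow.uiso (by rw [← tenPow_act]; exact Null.comp h1 _)⟩

protected theorem prod (hM : Con M) (hN : Con N) (h : SF M) (h' : SF N) : SF (M.prod N) := by
  classical
  obtain ⟨d, r, hr, h⟩ := h
  obtain ⟨d', r', hr', h'⟩ := h'
  obtain ⟨n, -, hn⟩ := Naive.exists_pow_lt_factorial (2 * (d + d') ^ 2)
  let P : Finset (Fin n) → ((M.prod N).pow (Fin n) ⟶ (M.prod N).pow (Fin n)) := fun S =>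
    powMap (S.piecewise (fun _ => fst M N ≫ inl M N) fun _ => snd M N ≫ inr M N)
  have hP : ∑ S, P S = 𝟙 _ := by
    rw [← powMap_add, ← powMap_id]
    exact congrArg powMap (funext fun _ => prod_total)
  have key : ∀ (S : Finset (Fin n)) (σ : Equiv.Perm (Fin n)), P S ≫ reidx _ σ ∈
      Submodule.span F ((fun τ => P S ≫ reidx _ τ) '' {τ | Naive.Good (d + d') τ}) ⊔
        nullSub _ _ := by
    intro S
    refine Naive.straighten _ (fun τ => P S ≫ reidx _ τ) fun σ hσ => ?_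
    simp only [Naive.Good, not_forall, not_lt] at hσ
    obtain ⟨t, ht, hc⟩ := hσ
    have h1 := Finset.card_filter_add_card_filter_not (s := t) (· ∈ S)
    rcases (show d ≤ (t.filter (· ∈ S)).card ∨ d' ≤ (t.filter (· ∉ S)).card by omega) with h2 | h2
    · obtain ⟨T, h3, h4, h5⟩ := Naive.exists_emb σ _
        (ht.mono (Finset.coe_subset.2 (Finset.filter_subset _ _))) h2
      refine lower_of_rel' _ _ σ T h3 h4 hr (null_emb (hM.prod hN) T _ ?_)
      rw [show (fun b => S.piecewise (fun _ => fst M N ≫ inl M N) (fun _ => snd M N ≫ inr M N)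
        (T b)) = fun _ => fst M N ≫ inl M N from funext fun b =>
          S.piecewise_eq_of_mem _ _ (Finset.mem_filter.1 (h5 b)).2, ← powMap_comp,
        Category.assoc, ← act_nat]
      exact (h.comp _).precomp _
    · obtain ⟨T, h3, h4, h5⟩ := Naive.exists_emb σ _
        (ht.mono (Finset.coe_subset.2 (Finset.filter_subset _ _))) h2
      refine lower_of_rel' _ _ σ T h3 h4 hr' (null_emb (hM.prod hN) T _ ?_)
      rw [show (fun b => S.piecewise (fun _ => fst M N ≫ inl M N) (fun _ => snd M N ≫ inr M N)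
        (T b)) = fun _ => snd M N ≫ inr M N from funext fun b =>
          S.piecewise_eq_of_notMem _ _ (Finset.mem_filter.1 (h5 b)).2, ← powMap_comp,
        Category.assoc, ← act_nat]
      exact (h'.comp _).precomp _
  obtain ⟨c, hc, h1⟩ := exists_rel (nullSub ((M.prod N).pow (Fin n)) _)
    (fun s : Equiv.Perm (Fin n) => reidx (M.prod N) s)
    (fun g : Finset (Fin n) × {σ : Equiv.Perm (Fin n) // Naive.Good (d + d') σ} =>
      P g.1 ≫ reidx _ g.2.1)
    (by
      rw [Fintype.card_prod, Fintype.card_perm, Fintype.card_finset, Fintype.card_fin]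
      refine lt_of_le_of_lt (Nat.mul_le_mul_left _ (card_good (d + d') n)) ?_
      rwa [← mul_pow])
    (fun s => by
      rw [← Category.id_comp (reidx _ s), ← hP, Preadditive.sum_comp]
      refine Submodule.sum_mem _ fun S _ => ?_
      obtain ⟨a, ha, a', ha', e⟩ := Submodule.mem_sup.1 (key S s)
      rw [← e]
      refine add_mem (Submodule.mem_sup_left (Submodule.span_mono ?_ ha))
        (Submodule.mem_sup_right ha')
      rintro _ ⟨g, hg, rfl⟩
      exact ⟨(S, ⟨g, hg⟩), rfl⟩)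
  exact ⟨n, c, hc, h1⟩

/-- On each graded piece of the filtration the action factors through the split object. -/
theorem null_graded {M₁ M₂ M₃ : Ob k F} {i : M₁ ⟶ M₂} {p : M₂ ⟶ M₃} (T : Ses i p) {α : Type}
    [Fintype α] [DecidableEq α] {e : Equiv.Perm α → F} (he : Null (act (M₁.prod M₃) e)) (t : ℕ) :
    Null ((Fil α t i).incl ≫ act M₂ e ≫ (Fil α (t + 1) i).proj) := by
  let A := pc α t (fst M₁ M₂ ≫ i) (snd M₁ M₂)
  let B := pc α t (fst M₁ M₂ ≫ inl M₁ M₃) (snd M₁ M₂ ≫ p ≫ inr M₁ M₃)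
  let b := fst M₁ M₂ ≫ inl M₁ M₃ + snd M₁ M₂ ≫ p ≫ inr M₁ M₃
  choose r s hr hs hrs using T.exists_split
  have hr' O v : r O (i.1 O v) = v := congr($(hr O) v)
  have hs' O v : p.1 O (s O v) = v := congr($(hs O) v)
  have hp O v : p.1 O (i.1 O v) = 0 := (T.exact O).apply_apply_eq_zero v
  let A' := (Fil α t i).lift A fun O v => by
    rw [pc_app]
    exact lpc_mem t (P := LinearMap.range (i.1 O)) (fun u => ⟨u.1, rfl⟩) _ v
  have hA' : Surj A' := fun O v => by
    obtain ⟨w, hw⟩ := lpc_surj t (i.1 O) v.2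
    exact ⟨w, Subtype.ext ((congr($(pc_app t (fst M₁ M₂ ≫ i) (snd M₁ M₂) O) w)).trans hw)⟩
  obtain ⟨lam, hlam⟩ := hA'.desc B fun O v hv => by
    have h1 : A.1 O v = 0 := congrArg Subtype.val hv
    have h2 := lpc_comp (α := α) t (LinearMap.inl F (M₁.V O) (M₃.V O) ∘ₗ r O)
      (LinearMap.inr F (M₁.V O) (M₃.V O) ∘ₗ p.1 O)
      ((fst M₁ M₂ ≫ i).1 O) ((snd M₁ M₂).1 O) (by ext <;> simp [hp])
    rw [← pc_app, show (LinearMap.inl F (M₁.V O) (M₃.V O) ∘ₗ r O) ∘ₗ (fst M₁ M₂ ≫ i).1 O =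
      (fst M₁ M₂ ≫ inl M₁ M₃).1 O by ext <;> simp [hr'],
      show (LinearMap.inr F (M₁.V O) (M₃.V O) ∘ₗ p.1 O) ∘ₗ (snd M₁ M₂).1 O =
        (snd M₁ M₂ ≫ p ≫ inr M₁ M₃).1 O from rfl, ← pc_app] at h2
    rw [← h2, LinearMap.comp_apply, h1, map_zero]
  have hb : Surj (powMap fun _ : α => b) := fun O v =>
    ⟨PiTensorProduct.map (fun _ => (LinearMap.id : M₁.V O →ₗ[F] _).prodMap (s O)) v, by
      rw [powMap_app, ← LinearMap.comp_apply, ← PiTensorProduct.map_comp,
        show (fun _ : α => b.1 O ∘ₗ (LinearMap.id : M₁.V O →ₗ[F] _).prodMap (s O)) =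
          fun _ => LinearMap.id from funext fun _ => by ext <;> simp [b, hs'],
        PiTensorProduct.map_id]
      rfl⟩
  let C O := lpc α t (i.1 O ∘ₗ .fst F (M₁.V O) (M₃.V O)) (s O ∘ₗ .snd F (M₁.V O) (M₃.V O))
  let D O := lpc α t ((fst M₁ M₂ ≫ i).1 O) (s O ∘ₗ p.1 O ∘ₗ .snd F (M₁.V O) (M₂.V O))
  have hD O v : (A ≫ (Fil α (t + 1) i).proj).1 O v = (Fil α (t + 1) i).proj.1 O (D O v) := by
    refine (Submodule.Quotient.eq _).2 ?_
    rw [pc_app]
    refine lpc_sub_mem t (P := LinearMap.range (i.1 O)) (fun u => ⟨u.1, rfl⟩)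
      (fun u => ⟨r O u.2, ?_⟩) v
    exact eq_sub_of_add_eq congr($(hrs O) u.2)
  have hC1 O v : C O ((powMap fun _ : α => b).1 O v) = D O v := by
    rw [powMap_app, ← LinearMap.comp_apply, lpc_map]
    congr 2 <;> ext <;> simp [b]
  have hC2 O v : C O (B.1 O v) = D O v := by
    rw [pc_app, ← LinearMap.comp_apply, lpc_comp _ _ _ _ _ (by ext <;> simp)]
    congr 2
  obtain ⟨kap, hkap⟩ := hb.desc (A ≫ (Fil α (t + 1) i).proj) fun O v hv => by
    rw [hD, ← hC1, hv, map_zero, map_zero]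
  have hB : B ≫ kap = A ≫ (Fil α (t + 1) i).proj := hom_ext fun O => LinearMap.ext fun v => by
    obtain ⟨w, hw⟩ := hb O (B.1 O v)
    rw [Ob.comp_apply, ← hw, ← Ob.comp_apply, hkap, hD, hD, ← hC1, hw, hC2]
  have key : (Fil α t i).incl ≫ act M₂ e ≫ (Fil α (t + 1) i).proj =
      lam ≫ act (M₁.prod M₃) e ≫ kap := hA'.cancel (by
    rw [← Category.assoc, ← Category.assoc, Sub.lift_incl, ← act_pc, Category.assoc, ← hB,
      ← Category.assoc, act_pc, ← Category.assoc A', hlam, Category.assoc])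
  rw [key]
  exact (he.comp _).precomp _

theorem ses₂ [CharZero F] {M₁ M₂ M₃ : Ob k F} {i : M₁ ⟶ M₂} {p : M₂ ⟶ M₃} (T : Ses i p)
    (c₁ : Con M₁) (c₃ : Con M₃) (h₁ : SF M₁) (h₃ : SF M₃) : SF M₂ := by
  obtain ⟨n, r, hr, h⟩ := SF.prod c₁ c₃ h₁ h₃
  obtain ⟨e, he, h1, h2⟩ := exists_idem hr h
  have key : ∀ j t, n + 1 = t + j → Null ((Fil (Fin n) t i).incl ≫ act M₂ e) := by
    intro j
    induction j with
    | zero =>
      intro t ht
      have h0 : (Fil (Fin n) t i).incl = 0 := hom_ext fun O => LinearMap.ext fun v =>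
        fil_top (by rw [Fintype.card_fin]; omega) _ v.2
      rw [h0, Limits.zero_comp]
      exact .zero
    | succ j ih =>
      intro t ht
      have := (Fil (Fin n) (t + 1) i).ses.null_of_i (ih (t + 1) (by omega))
        (g := (Fil (Fin n) t i).incl ≫ act M₂ e)
        (by rw [Category.assoc]; exact null_graded T h1 t)
      rwa [Category.assoc, h2] at this
  refine ⟨n, e, he, .of_uiso_comp (Bij.uiso (f := (Fil (Fin n) 0 i).incl) fun O =>
    ⟨(Fil (Fin n) 0 i).ses.inj O, fun v => ⟨⟨v, fil_zero _ v⟩, rfl⟩⟩) (key (n + 1) 0 (by omega))⟩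

end SF

end

end Pool.Agent.Lib.MP_fc2ced_ag.E
end

-- part Pool.Agent.Lib.MP_fc2ced_ag.ELine
section

/-! The affine line: the cone, the circle, the multiplicative group and the Tate object. -/

open CategoryTheory Function
open scoped TensorProduct Polynomial

namespace Pool.Agent.Lib.MP_fc2ced_ag.E

noncomputable section

variable {k : Type} [Field k] {F : Type} [Field F]

open Ob Pair

variable (k) in
/-- The affine line. -/
@[reducible] def Fn.line : Fn k where
  X O := O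
  map g x := g x
  map_id _ _ := rfl
  map_comp _ _ _ := rfl
  fin _ x := ⟨{x}, fun _ _ _ h => h x (by simp)⟩

variable (k) in
/-- The affine line pointed at one. -/
@[reducible] def cP : Pair (.line k) :=
  ⟨fun _ _ => True, fun _ x => x = 1, fun _ _ _ _ h => h, fun _ _ g _ h => by simp [h]⟩

variable (k) in
/-- The simplicial circle. -/
@[reducible] def sP : Pair (.line k) :=
  ⟨fun _ _ => True, fun _ x => x = 0 ∨ x = 1, fun _ _ _ _ h => h,
    fun _ _ g _ h => h.imp (fun h => by simp [h]) fun h => by simp [h]⟩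

variable (k) in
/-- The pointed multiplicative group. -/
@[reducible] def gP : Pair (.line k) :=
  ⟨fun _ x => IsUnit x, fun _ x => x = 1, fun _ _ g _ h => h.map g, fun _ _ g _ h => by simp [h]⟩

variable (k) in
/-- The Tate object `𝔸¹ / 𝔾_m`. -/
@[reducible] def tP : Pair (.line k) :=
  ⟨fun _ _ => True, fun _ x => IsUnit x, fun _ _ _ _ h => h, fun _ _ g _ h => h.map g⟩

variable {M M' N : Ob k F}

variable (F) in
theorem isLift_one {X : Fn k} (P : Pair X) (h : ∀ ⦃O⦄ (x : X.X O), P.N x → ¬ P.D x) :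
    IsLift P (one k F) fun _ _ => 1 :=
  ⟨fun _ x h1 h2 => (h x h1 h2).elim, fun _ _ _ _ _ => rfl⟩

theorem bij_one {X : Fn k} {P : Pair X} (h : ∀ ⦃O⦄ (x : X.X O), P.N x → ¬ P.D x)
    (u : ∀ O, ∃! x : X.X O, P.N x) : Bij (isLift_one F P h).hom := fun O => by
  obtain ⟨x, hx, hu⟩ := u O
  let _ : Unique (P.Live O) := ⟨⟨⟨x, hx, h x hx⟩⟩, fun y => Subtype.ext (hu _ y.2.1)⟩
  refine bij_of_basis Finsupp.basisSingleOne (Module.Basis.singleton Unit F)
    (Equiv.ofUnique _ _) _ fun y => ?_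
  rw [Finsupp.coe_basisSingleOne, Module.Basis.singleton_apply]
  exact (congrArg _ (P.cl_live y).symm).trans ((isLift_one F P h).hom_cl y.2.1)

variable (F) in
/-- The projection to the point. -/
def aug (X : Fn k) : X.top.ob F ⟶ one k F := (isLift_one F X.top fun _ _ _ h => h).hom

theorem aug_cl (X : Fn k) {O : Aic k} (x : X.X O) : (aug F X).1 O (X.top.cl F x) = 1 :=
  (isLift_one F X.top fun _ _ _ h => h).hom_cl trivial

theorem bij_line {P : Pair (.spec k k[X])} {P' : Pair (.line k)}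
    (n : ∀ ⦃O⦄ (x : (Fn.spec k k[X]).X O), P.N x ↔ P'.N (x Polynomial.X))
    (d : ∀ ⦃O⦄ (x : (Fn.spec k k[X]).X O), P.D x ↔ P'.D (x Polynomial.X)) :
    ∃ h : IsMap P P' fun _ x => x Polynomial.X, Bij (h.hom F) := by
  have h : IsMap P P' fun _ x => x Polynomial.X :=
    ⟨fun _ _ _ _ _ => rfl, fun _ x => (n x).1, fun _ x _ => (d x).1⟩
  exact ⟨h, h.bij (fun _ x _ => (d x).2) (fun _ _ _ _ _ _ _ h => Polynomial.algHom_ext h)
    fun _ y hy _ => ⟨Polynomial.aeval y, (n _).2 (by rwa [Polynomial.aeval_X]),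
      Polynomial.aeval_X y⟩⟩

theorem uiso_aug : UIso (aug F (.line k)) := by
  obtain ⟨h, hb⟩ := bij_line (F := F) (P := (Fn.spec k k[X]).top) (P' := (Fn.line k).top)
    (fun _ _ => Iff.rfl) fun _ _ => Iff.rfl
  refine hb.uiso.of_comp_left ?_
  have e : h.hom F ≫ aug F _ =
      (isMap_top (Polynomial.CAlgHom : k →ₐ[k] k[X])).hom F ≫ aug F (.spec k k) :=
    Pair.hom_ext fun O x hx _ => by
      rw [Ob.comp_apply, Ob.comp_apply, h.hom_cl hx, IsMap.hom_cl _ hx, aug_cl, aug_cl]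
  rw [e]
  exact (UIso.gen (.line k)).comp (bij_one (P := (Fn.spec k k).top) (fun _ _ _ h => h) fun O =>
    ⟨Algebra.ofId k O, trivial, fun y _ => AlgHom.ext fun a => y.commutes a⟩).uiso

/-- The projection from the affine line to the point is invertible. -/
theorem exists_uiso_line : ∃ f : (Fn.line k).top.ob F ⟶ one k F, UIso f := ⟨_, uiso_aug⟩

variable (k) in
/-- A point of the affine line. -/
@[reducible] def ptP (a : ℕ) : Pair (.line k) :=
  ⟨fun _ x => x = a, fun _ _ => False, fun _ _ g _ h => by simp [h], fun _ _ _ _ h => h⟩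

theorem bij_ptP (a : ℕ) : Bij (isLift_one F (ptP k a) fun _ _ _ h => h).hom :=
  bij_one (P := ptP k a) (fun _ _ _ h => h) fun _ => ⟨_, rfl, fun _ h => h⟩

theorem con_ptP (a : ℕ) : Con ((ptP k a).ob F) := .of_bij (bij_ptP a) .one

theorem uzero_cP : UZero ((cP k).ob F) := by
  have h₁ : IsMap (ptP k 1) (Fn.line k).top fun _ x => x :=
    isMap_id (fun _ _ _ => trivial) fun _ _ _ h => h
  have T := Pair.ses (F := F) (P₃ := cP k) h₁
    (isMap_id (fun _ _ h => h) fun _ _ _ h => h.elim) (fun _ _ _ h => h)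
    (fun _ _ _ => by simp) fun _ _ h _ => h
  refine T.uzero₃_iff.2 (uiso_aug.of_comp_right ?_)
  rw [show h₁.hom F ≫ aug F _ = (isLift_one F (ptP k 1) fun _ _ _ h => h).hom from
    Pair.hom_ext fun O x hx _ => by
      rw [Ob.comp_apply, h₁.hom_cl hx, aug_cl, IsLift.hom_cl _ hx]]
  exact (bij_ptP 1).uiso

theorem Ses.of_bij {M₀ M₁ M₂ M₃ : Ob k F} {i : M₁ ⟶ M₂} {p : M₂ ⟶ M₃} (T : Ses i p)
    {u : M₀ ⟶ M₁} (hu : Bij u) : Ses (u ≫ i) p :=
  ⟨fun O => (T.inj O).comp (hu O).1, fun O v => (T.exact O v).trans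
    ⟨fun ⟨w, hw⟩ => by obtain ⟨w, rfl⟩ := (hu O).2 w; exact ⟨w, hw⟩, fun ⟨_, hw⟩ => ⟨_, hw⟩⟩,
    T.surj⟩

theorem exists_ses_sP : ∃ (j : one k F ⟶ (cP k).ob F) (q : (cP k).ob F ⟶ (sP k).ob F),
    Ses j q := by
  have T := Pair.ses (F := F) (P₁ := ptP k 0) (P₂ := cP k) (P₃ := sP k)
    (isMap_id (fun _ _ _ => trivial) fun _ _ _ h => h.elim)
    (isMap_id (fun _ _ h => h) fun _ _ _ => .inr)
    (fun _ _ h h' => by simp_all) (fun _ _ _ => by simp [or_comm]) fun _ _ h _ => h
  have := (bij_ptP (k := k) (F := F) 0).isIso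
  exact ⟨_, _, T.of_bij (.of_isIso (inv (isLift_one F (ptP k 0) fun _ _ _ h => h).hom))⟩

theorem exists_ses_gP : ∃ (j : (gP k).ob F ⟶ (cP k).ob F) (q : (cP k).ob F ⟶ (tP k).ob F),
    Ses j q :=
  ⟨_, _, Pair.ses (F := F) (P₁ := gP k) (P₂ := cP k) (P₃ := tP k)
    (isMap_id (fun _ _ _ => trivial) fun _ _ _ h => h)
    (isMap_id (fun _ _ h => h) fun _ _ _ (h : _ = _) => h ▸ isUnit_one) (fun _ _ _ h => h)
    (fun _ _ _ => ⟨.inr, fun h => h.elim (fun (h : _ = _) => h ▸ isUnit_one) id⟩)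
    fun _ _ h _ => h⟩

theorem con_sP : Con ((sP k).ob F) :=
  exists_ses_sP.elim fun _ h => h.elim fun _ T => .ses₃ T .one (.of_uzero uzero_cP)

theorem con_tP : Con ((tP k).ob F) := by
  obtain ⟨h, hb⟩ := bij_line (F := F) (P := relP k fun _ : Unit => (Polynomial.X : k[X]))
    (P' := tP k) (fun _ _ => Iff.rfl) fun _ _ => exists_const _
  exact (Con.uiso_iff hb.uiso).1 (con_rel _)

theorem con_gP : Con ((gP k).ob F) :=
  exists_ses_gP.elim fun _ h => h.elim fun _ T => .ses₁ T (.of_uzero uzero_cP) con_tP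

theorem Null.of_ten_one {f : M ⟶ M'} (h : Null (tenMap f (𝟙 (one k F)))) : Null f :=
  .of_uiso_comp (bij_rid M).uiso (by rw [← rid_nat]; exact h.comp _)

theorem Null.desusp₁ (hM : Con M) {f : M ⟶ M'} (h : Null (tenMap f (𝟙 ((sP k).ob F)))) :
    Null f := by
  obtain ⟨j, q, T⟩ := exists_ses_sP (k := k) (F := F)
  exact .of_ten_one ((T.ten_left M).null_of_null₃ (T.ten_left M') (b := tenMap f (𝟙 _))
    (by simp [← tenMap_comp]) (by simp [← tenMap_comp]) (uzero_cP.ten_left hM) h)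

/-- Desuspension. -/
theorem Null.desusp (hM : Con M) {f : M ⟶ M'} (α : Type) [Finite α]
    (h : Null (tenMap f (𝟙 (((sP k).ob F).pow α)))) : Null f := by
  refine (pow_induction (P := fun W => Con W ∧ ∀ (M M' : Ob k F) (f : M ⟶ M'), Con M →
    Null (tenMap f (𝟙 W)) → Null f) (fun W W' e h => ⟨e.con h.1, fun M M' f hM hf => ?_⟩)
    ⟨.one, fun _ _ _ _ => of_ten_one⟩ (fun W h => ⟨h.1.ten con_sP, fun M M' f hM hf => ?_⟩)
    α).2 M M' f hM h
  · obtain ⟨u, hu⟩ := e
    refine h.2 M M' f hM (.of_uiso_comp ((Bij.of_isIso (𝟙 M)).ten hu).uiso ?_)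
    rw [← tenMap_eq', tenMap_eq]
    exact hf.comp _
  · refine h.2 M M' f hM (desusp₁ (hM.ten h.1) (.of_uiso_comp (bij_assoc _ _ _).uiso ?_))
    rw [← assoc_nat, tenMap_id]
    exact hf.comp _

/-- Permutations act on the tensor powers by nonzero scalars. -/
def Sg (W : Ob k F) : Prop := ∀ (α : Type) [Finite α] (σ : Equiv.Perm α),
  ∃ c : F, c ≠ 0 ∧ Null (reidx W σ - c • 𝟙 (W.pow α))

theorem Sg.of_swap {W : Ob k F} (hW : Con W)
    (h : Null (reidx W (Equiv.swap (0 : Fin 2) 1) + 𝟙 (W.pow (Fin 2)))) : Sg W := by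
  classical
  intro α _ σ
  induction σ using Equiv.Perm.swap_induction_on with
  | one => exact ⟨1, one_ne_zero, by simpa using Null.zero⟩
  | swap_mul f x y hxy ih =>
    obtain ⟨c, hc, ih⟩ := ih
    have hu : (Finset.univ : Finset (Equiv.Perm (Fin 2))) = {Equiv.swap 0 1, 1} := by decide
    have hs : Equiv.swap (0 : Fin 2) 1 ≠ 1 := by decide
    let j : Fin 2 ↪ α := ⟨![x, y], fun a b => by
      fin_cases a <;> fin_cases b <;> simp [hxy, hxy.symm]⟩
    have h1 := Null.emb hW j (fun _ => 𝟙 W) (r := fun _ => 1) (by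
      rw [act, hu, Finset.sum_pair hs]; simpa using h)
    have e1 : Equiv.Perm.viaEmbedding 1 j = 1 := map_one (Equiv.Perm.viaEmbeddingHom j)
    have e2 : (Equiv.swap 0 1).viaEmbedding j = Equiv.swap x y := by
      ext a
      by_cases ha : a ∈ Set.range j
      · obtain ⟨b, rfl⟩ := ha
        rw [Equiv.Perm.viaEmbedding_apply]
        fin_cases b
        · exact (Equiv.swap_apply_left x y).symm
        · exact (Equiv.swap_apply_right x y).symm
      · rw [Equiv.Perm.viaEmbedding_apply_of_notMem _ _ _ ha]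
        exact (Equiv.swap_apply_of_ne_of_ne (fun h => ha ⟨0, h.symm⟩)
          fun h => ha ⟨1, h.symm⟩).symm
    rw [hu, Finset.sum_pair hs, e1, e2] at h1
    refine ⟨-c, neg_ne_zero.2 hc, ?_⟩
    have := (ih.comp (reidx W (Equiv.swap x y))).add (h1.smul c)
    rw [reidx_mul]
    convert this using 1
    simp only [neg_smul, Preadditive.sub_comp, Linear.smul_comp, Category.id_comp, powMap_id,
      one_smul, reidx_one, smul_add]
    abel

theorem Sg.of_eqv {W W' : Ob k F} (h : Eqv W W') (h' : Sg W') : Sg W := fun α _ σ => by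
  obtain ⟨u, hu⟩ := h
  have := hu.isIso
  have : IsIso (powMap fun _ : α => u) :=
    ⟨powMap fun _ => inv u, by simp [powMap_comp], by simp [powMap_comp]⟩
  obtain ⟨c, hc, h⟩ := h' α σ
  refine ⟨c, hc, .of_comp_uiso (.of_isIso (powMap fun _ : α => u)) ?_⟩
  have := h.precomp (powMap fun _ : α => u)
  rw [Preadditive.sub_comp, reidx_nat]
  simpa using this

theorem Sg.one : Sg (one k F) := fun α _ σ => by
  have := Fintype.ofFinite α
  have e (m : α → F) : PiTensorProduct.tprod F m =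
      (∏ a, m a) • PiTensorProduct.tprod F fun _ : α => (1 : F) := by
    rw [← MultilinearMap.map_smul_univ]; simp
  have : reidx (Ob.one k F) σ = 𝟙 _ := Ob.hom_ext fun O => PiTensorProduct.ext
    (MultilinearMap.ext fun m => (reidx_tprod σ O m).trans (by
      rw [e, Equiv.prod_comp σ.symm m, ← e]; rfl))
  exact ⟨1, one_ne_zero, by simpa [this] using Null.zero⟩

theorem Sg.ten {W W' : Ob k F} (hW : Con W) (hW' : Con W') (h : Sg W) (h' : Sg W') :
    Sg (W.ten W') := fun α _ σ => by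
  obtain ⟨c, hc, h⟩ := h α σ
  obtain ⟨c', hc', h'⟩ := h' α σ
  refine ⟨c * c', mul_ne_zero hc hc', .of_uiso_comp (bij_tenPow (α := α)).uiso ?_⟩
  have := ((h.ten₁ (reidx W' σ) (hW'.pow α)).add ((h'.ten_left (hW.pow α)).smul c)).comp
    (tenPow W W' α)
  rw [Preadditive.comp_sub, ← tenPow_reidx]
  convert this using 1
  simp only [← tenL_apply, map_sub, map_smul, LinearMap.sub_apply, LinearMap.smul_apply]
  simp [smul_sub, smul_smul]

theorem Sg.pow {W : Ob k F} (hW : Con W) (h : Sg W) (α : Type) [Finite α] : Sg (W.pow α) :=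
  (pow_induction (P := fun N => Con N ∧ Sg N) (fun _ _ e h => ⟨e.con h.1, .of_eqv e h.2⟩)
    ⟨.one, .one⟩ (fun _ h' => ⟨h'.1.ten hW, .ten h'.1 hW h'.2 h⟩) α).2

theorem isMap_swap {X : Fn k} (P : Pair X) : IsMap (P.prod P) (P.prod P) fun _ x => (x.2, x.1) :=
  ⟨fun _ _ _ _ _ => rfl, fun _ _ h => h.symm, fun _ _ _ h => h.symm⟩

theorem Sg.of_prod {X : Fn k} {P : Pair X} (hP : Con (P.ob F))
    (h : Null ((isMap_swap P).hom F + 𝟙 _)) : Sg (P.ob F) := by
  have m : IsMap (P.prod P) (P.pi (Fin 2)) fun _ x => ![x.1, x.2] :=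
    ⟨fun _ _ _ _ _ => funext fun a => by fin_cases a <;> rfl,
      fun _ _ h => Fin.forall_fin_two.2 h, fun _ _ _ h => Fin.exists_fin_two.2 h⟩
  have hm : Bij (m.hom F) := m.bij (fun _ _ _ h => Fin.exists_fin_two.1 h)
    (fun _ _ _ _ _ _ _ h => Prod.ext (congrFun h 0) (congrFun h 1))
    fun _ y hy _ => ⟨(y 0, y 1), ⟨hy 0, hy 1⟩, funext fun a => by fin_cases a <;> rfl⟩
  refine .of_swap hP (.of_uiso_comp (hm.comp (bij_pow P (Fin 2))).uiso ?_)
  have e : (m.hom F ≫ (isLift_pow F P (Fin 2)).hom) ≫ reidx _ (Equiv.swap 0 1) =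
      (isMap_swap P).hom F ≫ m.hom F ≫ (isLift_pow F P (Fin 2)).hom :=
    Pair.hom_ext fun O x hx _ => by
      rw [Ob.comp_apply, Ob.comp_apply, Ob.comp_apply, Ob.comp_apply, m.hom_cl hx, (isMap_swap P).hom_cl hx, m.hom_cl ((isMap_swap P).n x hx),
        IsLift.hom_cl _ (m.n x hx), IsLift.hom_cl _ (m.n _ ((isMap_swap P).n x hx)), reidx_tprod]
      exact congrArg _ (funext fun a => by fin_cases a <;> rfl)
  rw [Preadditive.comp_add, e]
  simpa using h.comp (m.hom F ≫ (isLift_pow F P (Fin 2)).hom)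

theorem sg_sP : Sg ((sP k).ob F) := by
  let K : Pair ((Fn.line k).prod (.line k)) :=
    ⟨fun _ x => x.1 = 0 ∨ x.2 = 0, ((cP k).prod (cP k)).D,
      fun _ _ g _ h => h.imp (fun h => by simp [h]) fun h => by simp [h], ((cP k).prod (cP k)).sD⟩
  have h₁ : IsMap K ((cP k).prod (cP k)) fun _ x => x :=
    isMap_id (fun _ _ _ => ⟨trivial, trivial⟩) fun _ _ _ h => h
  have h₂ : IsMap ((cP k).prod (cP k)) ((sP k).prod (sP k)) fun _ x => x :=
    isMap_id (fun _ _ h => h) fun _ _ _ h => h.imp .inr .inr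
  have T := Pair.ses (F := F) h₁ h₂ (fun _ _ _ h => h) (fun _ _ _ => by simp only [K]; tauto)
    fun _ _ h _ => h
  have t : IsMap K K fun _ x => (x.2, x.1) :=
    ⟨fun _ _ _ _ _ => rfl, fun _ _ h => h.symm, fun _ _ _ h => h.symm⟩
  have m : IsMap K (cP k) fun _ x => x.1 + x.2 :=
    ⟨fun _ _ g _ _ => map_add g _ _, fun _ _ _ => trivial, fun _ x h1 h2 => by
      rcases h1 with h1 | h1 <;> rcases h2 with h2 | h2 <;> simp_all⟩
  have e₁ : IsMap (cP k) K fun _ z => (z, 0) :=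
    ⟨fun _ _ g _ _ => Prod.ext rfl (map_zero g), fun _ _ _ => .inr rfl, fun _ _ _ => .inl⟩
  have e₂ : IsMap (cP k) K fun _ z => (0, z) :=
    ⟨fun _ _ g _ _ => Prod.ext (map_zero g) rfl, fun _ _ _ => .inl rfl, fun _ _ _ => .inr⟩
  have ha : t.hom F + 𝟙 _ = m.hom F ≫ (e₁.hom F + e₂.hom F) :=
    Pair.hom_ext fun O x hx _ => by
      rw [Ob.comp_apply, m.hom_cl hx, add_app, add_app, LinearMap.add_apply, LinearMap.add_apply,
        t.hom_cl hx, e₁.hom_cl trivial, e₂.hom_cl trivial]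
      obtain ⟨x, y⟩ := x
      rcases hx with (rfl : x = 0) | (rfl : y = 0)
      · rw [zero_add]; rfl
      · rw [add_zero, add_comm]; rfl
  refine .of_prod con_sP (T.null_of_null₁ T (a := t.hom F + 𝟙 _)
    (b := (isMap_swap (cP k)).hom F + 𝟙 _) ?_ ?_
    ((bij_ten _ _).uiso.uzero_iff.2 (uzero_cP.ten (.of_uzero uzero_cP)))
    (ha ▸ (uzero_cP.null_right _).comp _))
  · rw [Preadditive.comp_add, Preadditive.add_comp, Category.comp_id, Category.id_comp]
    congr 1
    exact Pair.hom_ext fun O x hx _ => by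
      rw [Ob.comp_apply, Ob.comp_apply, h₁.hom_cl hx, t.hom_cl hx, h₁.hom_cl (t.n x hx),
        IsMap.hom_cl _ (h₁.n x hx)]
  · rw [Preadditive.comp_add, Preadditive.add_comp, Category.comp_id, Category.id_comp]
    congr 1
    exact Pair.hom_ext fun O x hx _ => by
      rw [Ob.comp_apply, Ob.comp_apply, h₂.hom_cl hx, (isMap_swap (cP k)).hom_cl hx,
        h₂.hom_cl hx.symm, IsMap.hom_cl _ (h₂.n x hx)]

theorem isMap_sec {X : Fn k} (P : Pair X) (a : ℕ) :
    IsMap P (P.prod (Fn.line k).top) fun O x => (x, (a : O)) :=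
  ⟨fun _ _ g _ _ => Prod.ext rfl (map_natCast g a), fun _ _ h => ⟨h, trivial⟩,
    fun _ _ _ => .inl⟩

/-- Homotopy invariance: the sections at two points of the line agree. -/
theorem null_sec {X : Fn k} {P : Pair X} (hP : Con (P.ob F)) (a b : ℕ) :
    Null ((isMap_sec P a).hom F - (isMap_sec P b).hom F) := by
  have u := ((bij_ten P (Fn.line k).top).uiso.comp (uiso_aug.ten_left hP)).comp (bij_rid _).uiso
  have e (a : ℕ) : (isMap_sec P a).hom F ≫ ((isLift_ten F P (Fn.line k).top).hom ≫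
      tenMap (𝟙 _) (aug F _)) ≫ rid _ = 𝟙 _ := Pair.hom_ext fun O x hx _ => by
    rw [Ob.comp_apply, Ob.comp_apply, Ob.comp_apply, IsMap.hom_cl _ hx, IsLift.hom_cl _ ((isMap_sec P a).n x hx), tenMap_app,
      TensorProduct.map_tmul, aug_cl]
    simp [rid]
  refine .of_comp_uiso u ?_
  rw [Preadditive.sub_comp, e, e, sub_self]
  exact .zero

theorem Aic.exists_quad (O : Aic k) (s m : O) : ∃ z, z * (s - z) = m := by
  obtain ⟨z, hz⟩ := O.root (Polynomial.X ^ 2 - Polynomial.C s * Polynomial.X + Polynomial.C m)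
    (by monicity!) (by
      rw [show Polynomial.degree (Polynomial.X ^ 2 - Polynomial.C s * Polynomial.X +
        Polynomial.C m : O[X]) = 2 by compute_degree!]; norm_num)
  refine ⟨z, ?_⟩
  simp only [Polynomial.IsRoot.def, Polynomial.eval_add, Polynomial.eval_sub, Polynomial.eval_pow,
    Polynomial.eval_mul, Polynomial.eval_X, Polynomial.eval_C] at hz
  linear_combination -hz

variable (F) in
/-- The sum over the two orderings of the numbers with sum `s` and product `m`. -/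
def symm2 {O : Aic k} (s m : O) : (((gP k).prod (gP k)).ob F).V O :=
  ((gP k).prod (gP k)).cl F ((O.exists_quad s m).choose, s - (O.exists_quad s m).choose) +
    ((gP k).prod (gP k)).cl F (s - (O.exists_quad s m).choose, (O.exists_quad s m).choose)

theorem symm2_eq {O : Aic k} {s m : O} (a b : O) (h1 : a + b = s) (h2 : a * b = m) :
    symm2 F s m = ((gP k).prod (gP k)).cl F (a, b) + ((gP k).prod (gP k)).cl F (b, a) := by
  have hz := (O.exists_quad s m).choose_spec
  unfold symm2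
  generalize (O.exists_quad s m).choose = z at hz ⊢
  subst h1 h2
  rcases mul_eq_zero.1 (show (z - a) * (z - b) = 0 by linear_combination -hz) with h | h
  · rw [sub_eq_zero.1 h, add_sub_cancel_left]
  · rw [sub_eq_zero.1 h, add_sub_cancel_right, add_comm]

theorem map_symm2 {O O' : Aic k} (g : O →ₐ[k] O') (s : O) {m : O} (hm : IsUnit m) :
    (((gP k).prod (gP k)).ob F).map g (symm2 F s m) = symm2 F (g s) (g m) := by
  obtain ⟨z, hz⟩ := O.exists_quad s m
  have hu := IsUnit.mul_iff.1 (hz ▸ hm)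
  rw [symm2_eq z (s - z) (by ring) hz, symm2_eq (g z) (g (s - z)) (by simp)
    (by rw [← map_mul, hz]), map_add, map_cl g hu, map_cl g hu.symm]

theorem sg_gP : Sg ((gP k).ob F) := by
  let G : Pair (.line k) := ⟨(gP k).N, fun _ _ => False, (gP k).sN, fun _ _ _ _ h => h⟩
  have hG : Con (G.ob F) := .ses₂ (Pair.ses (P₁ := ptP k 1) (P₂ := G) (P₃ := gP k)
    (isMap_id (fun _ x (h : x = _) => by simp [h, G]) fun _ _ _ h => h)
    (isMap_id (fun _ _ h => h) fun _ _ _ h => h.elim) (fun _ _ _ h => h)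
    (fun _ _ _ => by simp [G]) fun _ _ h _ => h) (con_ptP 1) con_gP
  have hU : Con ((G.prod G).ob F) := (Eqv.ob_ten G G).con (hG.ten hG)
  have q : IsMap (G.prod G) ((gP k).prod (gP k)) fun _ x => x :=
    isMap_id (fun _ _ h => h) fun _ _ _ h => (h.elim id id).elim
  have H : IsLift ((G.prod G).prod (Fn.line k).top) (((gP k).prod (gP k)).ob F) fun _ x =>
      symm2 F (x.2 * (x.1.1 + x.1.2) + (1 - x.2) * (1 + x.1.1 * x.1.2)) (x.1.1 * x.1.2) :=
    ⟨fun _ _ _ h => (h.elim (·.elim id id) id).elim, fun _ _ g x h => by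
      rw [map_symm2 g _ (h.1.1.mul h.1.2)]; simp⟩
  have s : IsLift ((gP k).prod (gP k)) ((G.prod G).ob F) fun _ x =>
      (G.prod G).cl F x - (G.prod G).cl F (1, x.2) - (G.prod G).cl F (x.1, 1) +
        (G.prod G).cl F (1, 1) :=
    ⟨fun _ x _ h => by
      obtain ⟨x, y⟩ := x
      rcases h with (rfl : x = 1) | (rfl : y = 1) <;> simp, fun _ _ g x h => by
      rw [map_add, map_sub, map_sub, map_cl (P := G.prod G) g h,
        map_cl (P := G.prod G) (x := (1, x.2)) g ⟨isUnit_one, h.2⟩,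
        map_cl (P := G.prod G) (x := (x.1, 1)) g ⟨h.1, isUnit_one⟩,
        map_cl (P := G.prod G) (x := (1, 1)) g ⟨isUnit_one, isUnit_one⟩]
      simp⟩
  have d₁ {O : Aic k} (y : O) : ((gP k).prod (gP k)).cl F (1, y) = 0 :=
    ((gP k).prod (gP k)).cl_dead (x := (1, y)) (.inl rfl)
  have d₂ {O : Aic k} (y : O) : ((gP k).prod (gP k)).cl F (y, 1) = 0 :=
    ((gP k).prod (gP k)).cl_dead (x := (y, 1)) (.inr rfl)
  have e₀ : s.hom ≫ q.hom F = 𝟙 _ := Pair.hom_ext fun O x h _ => by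
    rw [Ob.comp_apply, s.hom_cl h, map_add, map_sub, map_sub, q.hom_cl h,
      q.hom_cl (x := (1, x.2)) ⟨isUnit_one, h.2⟩, q.hom_cl (x := (x.1, 1)) ⟨h.1, isUnit_one⟩,
      q.hom_cl (x := (1, 1)) ⟨isUnit_one, isUnit_one⟩,
      d₁, d₂, d₁]
    simp
  have e₁ : ((isMap_sec (G.prod G) 1).hom F - (isMap_sec (G.prod G) 0).hom F) ≫ H.hom =
      q.hom F ≫ ((isMap_swap (gP k)).hom F + 𝟙 _) := Pair.hom_ext fun O x h _ => by
    rw [Ob.comp_apply, Ob.comp_apply, sub_app, add_app, LinearMap.sub_apply, LinearMap.add_apply,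
      q.hom_cl h, IsMap.hom_cl _ h, IsMap.hom_cl _ h, IsMap.hom_cl _ (q.n x h), map_sub,
      H.hom_cl ⟨h, trivial⟩, H.hom_cl ⟨h, trivial⟩, symm2_eq x.2 x.1 (by simp [add_comm])
        (mul_comm _ _), symm2_eq 1 (x.1 * x.2) (by simp) (one_mul _), d₁, d₂]
    simp
  have := (e₁ ▸ (null_sec hU 1 0).comp H.hom).precomp s.hom
  rw [← Category.assoc, e₀, Category.id_comp] at this
  exact .of_prod con_gP this

end

end Pool.Agent.Lib.MP_fc2ced_ag.E
end
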