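import Pool.Agent.Lib.MP_fc2ced_ag.EPure
import Pool.Agent.Lib.MP_fc2ced_ag.EBase
import Pool.Agent.Lib.MP_fc2ced_ag.NReg

-- part Pool.Agent.Lib.MP_fc2ced_ag.EFin
section

/-! From Schur-finiteness in all theories to Schur-finiteness of the motive. -/

open CategoryTheory Function
open PiTensorProduct renaming tprod → tp
open scoped TensorProduct

namespace Pool.Agent.Lib.MP_fc2ced_ag.E

variable {k : Type} [Field k]

open Ob Pair

/-- A nonzero space of functions on a finite group that is stable under translations contains a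
function whose image under a rational linear form is a block idempotent. -/
theorem exists_block_of_sub {F G : Type} [Field F] [CharZero F] [Group G] [Finite G]
    (I : Submodule F (G → F)) (hl : ∀ r ∈ I, ∀ g, (fun s => r (g * s)) ∈ I)
    (hr : ∀ r ∈ I, ∀ g, (fun s => r (s * g)) ∈ I) {r : G → F} (h : r ∈ I) (h0 : r ≠ 0) :
    ∃ (l : F →ₗ[ℚ] ℚ) (e : MonoidAlgebra ℚ G), IsBlock e ∧ ∃ r ∈ I, ∀ s, l (r s) = e.coeff s := by
  obtain ⟨s₀, hs₀⟩ := Function.ne_iff.1 h0
  obtain ⟨l, hl₀⟩ := Module.Projective.exists_dual_ne_zero ℚ hs₀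
  let S : AddSubmonoid (MonoidAlgebra ℚ G) :=
    { carrier := {a | ∃ r ∈ I, ∀ s, l (r s) = a.coeff s}
      zero_mem' := ⟨0, zero_mem _, fun s => by simp⟩
      add_mem' := fun ⟨a, ha, ha'⟩ ⟨b, hb, hb'⟩ =>
        ⟨a + b, add_mem ha hb, fun s => by simp [ha', hb']⟩ }
  have hq (q : ℚ) (x : F) : l ((q : F) * x) = q * l x := by
    rw [← Rat.smul_def, map_smul, smul_eq_mul]
  have h1 (c a : MonoidAlgebra ℚ G) (ha : a ∈ S) : c * a ∈ S := by
    induction c using MonoidAlgebra.induction_linear with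
    | zero => rw [zero_mul]; exact zero_mem _
    | add _ _ h1 h2 => rw [add_mul]; exact add_mem h1 h2
    | single g q =>
      obtain ⟨r, hr, hr'⟩ := ha
      exact ⟨(q : F) • fun s => r (g⁻¹ * s), I.smul_mem _ (hl r hr _), fun s => by simp [hq, hr']⟩
  have h2 (a : MonoidAlgebra ℚ G) (ha : a ∈ S) (c : MonoidAlgebra ℚ G) : a * c ∈ S := by
    induction c using MonoidAlgebra.induction_linear with
    | zero => rw [mul_zero]; exact zero_mem _
    | add _ _ h1 h2 => rw [mul_add]; exact add_mem h1 h2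
    | single g q =>
      obtain ⟨r, hr₁, hr'⟩ := ha
      exact ⟨(q : F) • fun s => r (s * g⁻¹), I.smul_mem _ (hr r hr₁ _), fun s => by
        simp [hq, hr', mul_comm q]⟩
  let J : Ideal (MonoidAlgebra ℚ G) := ⟨S, fun c a ha => h1 c a ha⟩
  obtain ⟨e, he, h3, h4, h5, h6⟩ := Naive.exists_block_group J h2 fun hJ => by
    have : MonoidAlgebra.ofCoeff (Finsupp.equivFunOnFinite.symm fun s => l (r s)) ∈ J :=
      ⟨r, h, fun _ => rfl⟩
    rw [hJ, Ideal.mem_bot] at this
    exact hl₀ congr(($this).coeff s₀)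
  exact ⟨l, e, ⟨h3, h4, h5, h6⟩, he⟩

section
variable {F : Type} [Field F] {M N : Ob k F}

theorem Bij.pow {u : M ⟶ N} (h : Bij u) (α : Type) [Finite α] : Bij (powMap fun _ : α => u) := by
  have := h.isIso
  have : IsIso (powMap fun _ : α => u) :=
    ⟨powMap fun _ => inv u, by simp [powMap_comp], by simp [powMap_comp]⟩
  exact .of_isIso _

variable {α : Type} [Fintype α] [DecidableEq α]

theorem act_mul_left (r : Equiv.Perm α → F) (g : Equiv.Perm α) :
    act M (fun s => r (g * s)) = act M r ≫ reidx M g⁻¹ := by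
  rw [act, act, Preadditive.sum_comp]
  exact Fintype.sum_equiv (Equiv.mulLeft g) _ _ fun s => by
    rw [Linear.smul_comp, ← reidx_mul, Equiv.coe_mulLeft, inv_mul_cancel_left]

theorem act_mul_right (r : Equiv.Perm α → F) (g : Equiv.Perm α) :
    act M (fun s => r (s * g)) = reidx M g⁻¹ ≫ act M r := by
  rw [act, act, Preadditive.comp_sum]
  exact Fintype.sum_equiv (Equiv.mulRight g) _ _ fun s => by
    rw [Linear.comp_smul, ← reidx_mul, Equiv.coe_mulRight, mul_inv_cancel_right]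

end

section
variable (B : Type) [CommRing B] [Algebra k B] [Algebra.FiniteType k B] (d m : ℕ)

variable (k) in
/-- The functor of points of `X ^ d × 𝔾_m ^ m`. -/
@[reducible] def powFn : Fn k where
  X O := PowPt k B O d m
  map := PowPt.map
  map_id _ _ := rfl
  map_comp _ _ _ := rfl
  fin O x := ((((Fn.spec k B).pi (Fin d)).prod ((Fn.line k).pi (Fin m))).fin O
    (x.1, fun j => x.2 j)).imp fun _ hS O' f g h => by
      have := Prod.ext_iff.1 (hS O' f g h)
      exact Prod.ext this.1 (funext fun j => Units.ext (congrFun this.2 j))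

variable (k) in
/-- The smash product of the factors `𝔾_m`. -/
@[reducible] def powR : Pair (powFn k B d m) :=
  ⟨fun _ _ => True, fun _ x => ∃ j, x.2 j = 1, fun _ _ _ _ h => h,
    fun _ _ _ _ h => h.imp fun _ h => by simp [PowPt.map, h]⟩

variable {B d m}

omit [Algebra.FiniteType k B] in
theorem twist_map {O O' : Aic k} (g : O →ₐ[k] O') (σ : Equiv.Perm (Fin d)) (S : Finset (Fin m))
    (x : PowPt k B O d m) : (x.twist σ S).map g = (x.map g).twist σ S := by
  refine Prod.ext rfl (funext fun j => ?_)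
  by_cases h : j ∈ S <;> simp [PowPt.twist, PowPt.map, h]

theorem isMap_twist (s : Equiv.Perm (Fin d)) :
    IsMap (powR k B d m) (powR k B d m) fun _ x => x.twist s ∅ :=
  ⟨fun _ _ g x _ => twist_map g s ∅ x, fun _ _ h => h,
    fun _ _ _ h => h.imp fun _ h => by simpa [PowPt.twist] using h⟩

theorem isLift_sec (F : Type) [Field F] : IsLift (powR k B d m) ((powFn k B d m).top.ob F)
    fun _ x => ∑ S : Finset (Fin m), (-1 : F) ^ S.card • (powFn k B d m).top.cl F (x.twist 1 S) := by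
  refine ⟨fun O x _ ⟨j, hj⟩ => ?_, fun O O' g x _ => ?_⟩
  · refine Finset.sum_involution (fun S _ => symmDiff S {j}) (fun S _ => ?_) (fun S _ _ => ?_)
      (fun _ _ => Finset.mem_univ _) fun S _ => symmDiff_symmDiff_cancel_right _ _
    · have e : x.twist 1 (symmDiff S {j}) = x.twist 1 S := by
        refine Prod.ext rfl (funext fun i => ?_)
        by_cases h : i = j
        · subst h; simp [PowPt.twist, hj]
        · simp [PowPt.twist, Finset.mem_symmDiff, h]
      have e' : (-1 : F) ^ S.card + (-1) ^ (symmDiff S {j}).card = 0 := by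
        by_cases h : j ∈ S
        · have : symmDiff S {j} = S.erase j := by
            ext i; by_cases h' : i = j <;> simp [Finset.mem_symmDiff, h', h]
          rw [this, ← Finset.card_erase_add_one h, pow_succ]; ring
        · have : symmDiff S {j} = insert j S := by
            ext i; by_cases h' : i = j <;> simp [Finset.mem_symmDiff, h', h]
          rw [this, Finset.card_insert_of_notMem h, pow_succ]; ring
      rw [e, ← add_smul, e', zero_smul]
    · simp
  · rw [map_sum]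
    exact Finset.sum_congr rfl fun S _ => by
      rw [map_smul, map_cl g trivial, ← twist_map]

end

theorem schurFinite_of_sf (F : Type) [Field F] [CharZero F] [FiniteDimensional ℚ F] (B : Type)
    [CommRing B] [Algebra k B] [Algebra.Smooth k B] (ι : Type) [Finite ι]
    (h : SF (((Fn.spec k B).top.ob F).ten (((gP k).ob F).pow ι))) : SchurFinite k B := by
  classical
  obtain ⟨d, r, hd, hr, h₀⟩ := h.untwist (Sg.pow con_gP sg_gP ι) (.sm B) (con_gP.pow ι)
  obtain ⟨m, ⟨e⟩⟩ := Finite.exists_equiv_fin (Fin d × ι)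
  set M := (Fn.spec k B).top.ob F with hM
  set W := (((gP k).ob F).pow ι).pow (Fin d) with hW
  let I : Submodule F (Equiv.Perm (Fin d) → F) := (nullSub _ _).comap
    ((tenL (M := M.pow (Fin d)) (M' := M.pow (Fin d)) (N := W) (N' := W)).flip (𝟙 W) ∘ₗ
      Fintype.linearCombination F (reidx M))
  have hI (r : Equiv.Perm (Fin d) → F) : r ∈ I ↔ Null (tenMap (act M r) (𝟙 W)) := Iff.rfl
  obtain ⟨l, e₀, he₀, r₁, hr₁, hl⟩ := exists_block_of_sub I (fun r hr g => by
      rw [hI, act_mul_left, ← Category.comp_id (𝟙 W), tenMap_comp]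
      exact ((hI r).1 hr).comp _) (fun r hr g => by
      rw [hI, act_mul_right, ← Category.comp_id (𝟙 W), tenMap_comp]
      exact ((hI r).1 hr).precomp _) ((hI r).2 h₀) hr
  have ha : IsMap (powR k B d m) (((Fn.spec k B).top.pi (Fin d)).prod (((gP k).pi ι).pi (Fin d)))
      fun O x => (x.1, fun i j => (x.2 (e (i, j)) : O)) :=
    ⟨fun _ _ _ _ _ => rfl, fun _ x _ => ⟨fun _ => trivial, fun i j => (x.2 _).isUnit⟩,
      fun _ x _ ⟨j, hj⟩ => .inr ⟨(e.symm j).1, (e.symm j).2, by simp [hj]⟩⟩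
  have hab : Bij (ha.hom F) := by
    refine ha.bij (fun _ x _ h => ?_) (fun _ x x' _ _ _ _ h => ?_) fun _ y hy _ => ?_
    · rcases h with ⟨_, h⟩ | ⟨i, j, h⟩
      · exact h.elim
      · exact ⟨e (i, j), Units.ext h⟩
    · refine Prod.ext congr(($h).1) (funext fun j => Units.ext ?_)
      obtain ⟨⟨i, j⟩, rfl⟩ := e.surjective j
      exact congr(($h).2 i j)
    · exact ⟨(y.1, fun j => (hy.2 (e.symm j).1 (e.symm j).2).unit), trivial,
        Prod.ext rfl (funext fun i => funext fun j => by simp)⟩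
  let γ : (((gP k).pi ι).pi (Fin d)).ob F ⟶ W := (isLift_pow F ((gP k).pi ι) (Fin d)).hom ≫
    powMap fun _ => (isLift_pow F (gP k) ι).hom
  let β : (powR k B d m).ob F ⟶ (M.pow (Fin d)).ten W := ha.hom F ≫ (isLift_ten F _ _).hom ≫
    tenMap (isLift_pow F (Fn.spec k B).top (Fin d)).hom γ
  have hβ : Bij β := hab.comp ((bij_ten _ _).comp
    ((bij_pow _ _).ten ((bij_pow _ _).comp ((bij_pow _ _).pow _))))
  have β_cl (O : Aic k) (x : PowPt k B O d m) : β.1 O ((powR k B d m).cl F x) =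
      (tp F fun i => (Fn.spec k B).top.cl F (x.1 i)) ⊗ₜ γ.1 O
        ((((gP k).pi ι).pi (Fin d)).cl F fun i j => (x.2 (e (i, j)) : O)) := by
    rw [Ob.comp_apply, Ob.comp_apply, ha.hom_cl trivial, IsLift.hom_cl _ (ha.n x trivial),
      tenMap_app, TensorProduct.map_tmul, IsLift.hom_cl _ fun _ => trivial]
  have hn (s : Equiv.Perm (Fin d)) :
      (isMap_twist s).hom F ≫ β = β ≫ tenMap (reidx M s) (𝟙 W) :=
    Pair.hom_ext fun O x hx _ => by
      rw [Ob.comp_apply _ β, Ob.comp_apply β, IsMap.hom_cl _ hx, β_cl, β_cl, tenMap_app,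
        TensorProduct.map_tmul, reidx_tprod]
      rfl
  have h₃ : Null (∑ s, r₁ s • (isMap_twist (k := k) (B := B) (m := m) s).hom F) := by
    refine .of_comp_uiso hβ.uiso ?_
    have := ((hI r₁).1 hr₁).precomp β
    rw [act, ← tenL_apply, map_sum, LinearMap.sum_apply, Preadditive.comp_sum] at this
    rw [Preadditive.sum_comp]
    simpa only [map_smul, LinearMap.smul_apply, tenL_apply, Linear.comp_smul, Linear.smul_comp,
      hn] using this
  have q : IsMap (powFn k B d m).top (powR k B d m) fun _ x => x :=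
    isMap_id (fun _ _ h => h) fun _ _ _ h => h.elim
  have h₄ := (h₃.precomp (q.hom F)).comp (isLift_sec F).hom
  obtain ⟨Θ, hΘ⟩ := exists_base k F
  have h₅ := hΘ (powFn k B d m) (Equiv.Perm (Fin d) × Finset (Fin m))
    (fun x => twist k B x.1 x.2) (fun x => r₁ x.1 * (-1) ^ x.2.card) l (by
      refine Eq.trans (congrArg _ (Pair.hom_ext fun O x hx _ => ?_)) (h₄ Θ)
      rw [Ob.comp_apply, Ob.comp_apply, q.hom_cl hx, sum_app, sum_app, LinearMap.sum_apply,
        LinearMap.sum_apply, map_sum, Fintype.sum_prod_type]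
      refine Finset.sum_congr rfl fun s _ => ?_
      rw [smul_app, LinearMap.smul_apply, map_smul, IsMap.hom_cl _ trivial,
        IsLift.hom_cl _ trivial, Finset.smul_sum]
      refine Finset.sum_congr rfl fun S _ => ?_
      rw [smul_app, LinearMap.smul_apply, IsMap.hom_cl _ trivial, smul_smul]
      rfl)
  refine ⟨d, m, e₀, hd, he₀, ?_⟩
  have e₁ : (fun x : Equiv.Perm (Fin d) × Finset (Fin m) => l (r₁ x.1 * (-1) ^ x.2.card)) =
      fun x => e₀.coeff x.1 * (-1) ^ x.2.card := funext fun x => by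
    rcases Nat.even_or_odd x.2.card with h | h <;> simp [h.neg_one_pow, hl]
  rwa [e₁] at h₅

end Pool.Agent.Lib.MP_fc2ced_ag.E
end

-- part Pool.Agent.Lib.MP_fc2ced_ag.ETrans
section

/-! Transfers for quotients by finite groups, and the rank one trick. -/

open CategoryTheory

namespace Pool.Agent.Lib.MP_fc2ced_ag.E

variable {k : Type} [Field k] {F : Type} [Field F]

open Ob Pair

theorem exists_transfer {X X' : Fn k} {P : Pair X} {P' : Pair X'} {Γ : Type} [Group Γ] [Fintype Γ]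
    {q : ∀ ⦃O⦄, X.X O → X'.X O} (hq : IsMap P P' q) {a : Γ → ∀ ⦃O⦄, X.X O → X.X O}
    (ha : ∀ γ, IsMap P P (a γ)) (mul : ∀ γ δ ⦃O⦄ (x : X.X O), a (γ * δ) x = a γ (a δ x))
    (live : ∀ ⦃O⦄ (y : X'.X O), ¬ P'.D y)
    (surj : ∀ ⦃O⦄ (y : X'.X O), P'.N y → ∃ x, P.N x ∧ q x = y)
    (fib : ∀ ⦃O⦄ (x x' : X.X O), P.N x → P.N x' → q x = q x' → ∃ γ, x' = a γ x) :
    ∃ t : P'.ob F ⟶ P.ob F, hq.hom F ≫ t = ∑ γ, (ha γ).hom F := by
  classical
  choose s hs hq' using surj
  let c ⦃O⦄ (y : X'.X O) : (P.ob F).V O := if h : P'.N y then ∑ γ, P.cl F (a γ (s y h)) else 0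
  have key ⦃O⦄ (x : X.X O) (hx : P.N x) : c (q x) = ∑ γ, P.cl F (a γ x) := by
    obtain ⟨δ, h⟩ := fib x _ hx (hs _ (hq.n x hx)) (hq' _ (hq.n x hx)).symm
    simp only [c, dif_pos (hq.n x hx)]
    rw [h, ← Equiv.sum_comp (Equiv.mulRight δ) fun γ => P.cl F (a γ x)]
    simp [mul]
  have H : IsLift P' (P.ob F) c :=
    ⟨fun _ y _ h => (live y h).elim, fun _ _ g y hy => by
      rw [← hq' y hy, hq.nat g _ (hs y hy), key _ (hs y hy), key _ (P.sN g _ (hs y hy)), map_sum]
      exact Finset.sum_congr rfl fun γ _ => by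
        rw [map_cl g ((ha γ).n _ (hs y hy)), (ha γ).nat g _ (hs y hy)]⟩
  refine ⟨H.hom, Pair.hom_ext fun O x hx _ => ?_⟩
  rw [Ob.comp_apply, hq.hom_cl hx, H.hom_cl (hq.n x hx), key x hx, sum_app, LinearMap.sum_apply]
  exact Finset.sum_congr rfl fun γ _ => ((ha γ).hom_cl hx).symm

theorem good_of_transfer [CharZero F] {Γ J : Type} [Group Γ] [Fintype Γ] [Fintype J] (α : Γ → Γ)
    {ε : J → MonoidAlgebra F Γ} {φ : J → Γ → F} (h1 : ∑ j, ε j = 1) (h2 : ∀ j, ε j * ε j = ε j)
    (h3 : ∀ j γ, ε j * MonoidAlgebra.single γ 1 * ε j = φ j γ • ε j)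
    (h4 : ∀ j, ∃ d b : Γ, ∑ γ, φ j γ * φ j (d * α γ * b) ≠ 0) {M K T : Ob k F} (ρ : Γ →* End M)
    (cM : Con M) (gT : Good T) (gK : Good (K.ten T)) (Q : M.ten M ⟶ K) (t : K ⟶ M.ten M)
    (h : Q ≫ t = ∑ γ, tenMap (ρ γ) (ρ (α γ))) : Good (M.ten T) := by
  let R := MonoidAlgebra.lift F (End M) Γ ρ
  choose P s p hsp hps using fun j => exists_split_idem (R (ε j)) (by
    rw [← End.mul_def, ← map_mul, h2])
  have H (j : J) (γ : Γ) : s j ≫ ρ γ ≫ p j = φ j γ • 𝟙 _ := by
    have := congr(s j ≫ R $(h3 j γ) ≫ p j)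
    rw [map_mul, map_mul, map_smul, MonoidAlgebra.lift_single, one_smul, End.mul_def, End.mul_def,
      ← hps] at this
    have e : s j ≫ (φ j γ • (p j ≫ s j : M ⟶ M)) ≫ p j = φ j γ • 𝟙 _ := by
      simp [reassoc_of% hsp, hsp]
    simpa [reassoc_of% hsp, hsp] using this.trans e
  refine .of_sum (P := fun j => (P j).ten T) (fun j => ?_) (fun j => tenMap (p j) (𝟙 T))
    (fun j => tenMap (s j) (𝟙 T)) ?_
  · obtain ⟨d, b, hc⟩ := h4 j
    have cP : Con (P j) := cM.retract (hsp j ▸ .id : UIso (s j ≫ p j))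
    have e : (tenMap (s j) (s j ≫ ρ b) ≫ Q) ≫ t ≫ tenMap (p j) (ρ d ≫ p j) =
        (∑ γ, φ j γ * φ j (d * α γ * b)) • 𝟙 _ := by
      rw [Category.assoc, reassoc_of% h, Preadditive.sum_comp, Preadditive.comp_sum,
        Finset.sum_smul]
      refine Finset.sum_congr rfl fun γ _ => ?_
      have := H j (d * α γ * b)
      rw [map_mul, map_mul, End.mul_def, End.mul_def] at this
      simp only [← tenMap_comp, Category.assoc] at this ⊢
      rw [H, this]
      simp only [← tenL_apply, map_smul, LinearMap.smul_apply, smul_smul]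
      simp [mul_comm]
    have g1 : Good (((P j).ten (P j)).ten T) := gK.retract
      (s := tenMap (tenMap (s j) (s j ≫ ρ b) ≫ Q) (𝟙 T))
      (p := tenMap (t ≫ tenMap (p j) (ρ d ≫ p j)) (𝟙 T)) (by
        rw [← tenMap_comp, e, Category.comp_id]
        exact (UIso.id.smul hc).ten gT.con)
    refine ⟨cP.ten gT.con, .sq (Good.sf (.of_eqv ?_ (g1.ten gT)))⟩
    exact (Eqv.assoc _ _ _).trans (.ten ((Eqv.assoc _ _ _).symm.trans
      (((Eqv.refl _).ten (.swap _ _)).trans (.assoc _ _ _))) (.refl _))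
  · have : ∑ j, tenMap (p j) (𝟙 T) ≫ tenMap (s j) (𝟙 T) = 𝟙 _ := by
      simp only [← tenMap_comp, hps, Category.comp_id]
      simp only [← tenL_apply, ← LinearMap.sum_apply, ← map_sum, h1, map_one]
      exact tenMap_id
    exact this ▸ .id

end Pool.Agent.Lib.MP_fc2ced_ag.E
end
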