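import Mathlib

/-! Rank one idempotents in the group algebra of a finite group over a splitting field. -/

namespace Pool.Agent.Lib.MP_fc2ced_ag.E

section Wed

variable {K Γ n : Type} [Field K] [Group Γ] [Fintype Γ] [Fintype n] [DecidableEq n]

omit [Fintype Γ] in
/-- Induction over a spanning family of matrices. -/
theorem wed_span (ρ : Γ →* Matrix n n K) (hρ : Submodule.span K (Set.range ρ) = ⊤)
    (P : Matrix n n K → Prop) (h0 : P 0) (hadd : ∀ X Y, P X → P Y → P (X + Y))
    (hsm : ∀ (c : K) X, P X → P (c • X)) (hg : ∀ g, P (ρ g)) (X : Matrix n n K) : P X := by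
  have hX : X ∈ Submodule.span K (Set.range ρ) := by rw [hρ]; trivial
  induction hX using Submodule.span_induction with
  | mem x hx => obtain ⟨g, rfl⟩ := hx; exact hg g
  | zero => exact h0
  | add x y _ _ hx hy => exact hadd _ _ hx hy
  | smul c x _ hx => exact hsm _ _ hx

theorem wed_char [CharZero K] [Nonempty n] (ρ : Γ →* Matrix n n K)
    (hρ : Submodule.span K (Set.range ρ) = ⊤) :
    ∑ γ, (ρ γ).trace * (ρ γ⁻¹).trace ≠ 0 := by
  have hsc : ∀ X : Matrix n n K, ∃ c : K, Matrix.scalar n c = ∑ γ, ρ γ * X * ρ γ⁻¹ := by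
    intro X
    have hcomm : ∀ Y : Matrix n n K,
        Y * (∑ γ, ρ γ * X * ρ γ⁻¹) = (∑ γ, ρ γ * X * ρ γ⁻¹) * Y := by
      intro Y
      refine wed_span ρ hρ
        (fun Y => Y * (∑ γ, ρ γ * X * ρ γ⁻¹) = (∑ γ, ρ γ * X * ρ γ⁻¹) * Y) ?_ ?_ ?_ ?_ Y
      · simp
      · intro A B hA hB
        simp only [add_mul, mul_add, hA, hB]
      · intro c A hA
        simp only [Matrix.smul_mul, Matrix.mul_smul, hA]
      · intro g
        rw [Finset.mul_sum, Finset.sum_mul]
        refine Fintype.sum_equiv (Equiv.mulLeft g) _ _ ?_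
        intro γ
        have h1 : ρ γ⁻¹ = ρ (g * γ)⁻¹ * ρ g := by
          rw [← map_mul]; congr 1; group
        simp only [Equiv.coe_mulLeft]
        rw [h1, map_mul ρ g γ]
        simp only [Matrix.mul_assoc]
    exact Matrix.mem_range_scalar_iff_commute_single'.mpr fun i j => hcomm _
  choose c hc using hsc
  have htr : ∀ X : Matrix n n K,
      (Fintype.card n : K) * c X = (Fintype.card Γ : K) * X.trace := by
    intro X
    have h := congrArg Matrix.trace (hc X)
    rw [Matrix.trace_sum] at h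
    have h2 : ∀ γ : Γ, (ρ γ * X * ρ γ⁻¹).trace = X.trace := by
      intro γ
      rw [Matrix.trace_mul_comm, ← Matrix.mul_assoc, ← map_mul, inv_mul_cancel, map_one,
        Matrix.one_mul]
    simp only [h2, Finset.sum_const, Finset.card_univ, nsmul_eq_mul] at h
    rw [← h]
    simp [Matrix.trace, Matrix.scalar_apply]
  have hent : ∀ u s : n, ∑ γ, ρ γ u u * ρ γ⁻¹ s s =
      if u = s then c (Matrix.single u s 1) else 0 := by
    intro u s
    have h := congrFun (congrFun (hc (Matrix.single u s 1)) u) s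
    rw [Matrix.sum_apply] at h
    have h2 : ∀ γ : Γ, (ρ γ * Matrix.single u s (1 : K) * ρ γ⁻¹) u s = ρ γ u u * ρ γ⁻¹ s s := by
      intro γ
      rw [Matrix.mul_assoc, Matrix.mul_apply, Finset.sum_eq_single u]
      · rw [Matrix.single_mul_apply_same, one_mul]
      · intro b _ hb
        rw [Matrix.single_mul_apply_of_ne _ _ _ _ _ hb, mul_zero]
      · simp
    simp only [h2] at h
    rw [← h, Matrix.scalar_apply, Matrix.diagonal_apply]
  have hsum : ∑ γ, (ρ γ).trace * (ρ γ⁻¹).trace = ∑ u : n, c (Matrix.single u u 1) := by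
    simp only [Matrix.trace, Matrix.diag_apply, Finset.sum_mul_sum]
    rw [Finset.sum_comm]
    refine Finset.sum_congr rfl fun u _ => ?_
    rw [Finset.sum_comm]
    simp only [hent]
    rw [Finset.sum_ite_eq]
    simp
  intro h0
  have h3 : (Fintype.card n : K) * ∑ u : n, c (Matrix.single u u 1) =
      (Fintype.card n : K) * (Fintype.card Γ : K) := by
    rw [Finset.mul_sum]
    simp only [htr, Matrix.trace_single_eq_same, mul_one, Finset.sum_const, Finset.card_univ,
      nsmul_eq_mul]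
  rw [← hsum, h0, mul_zero] at h3
  have hn : (Fintype.card n : K) ≠ 0 := Nat.cast_ne_zero.mpr Fintype.card_ne_zero
  have hG : (Fintype.card Γ : K) ≠ 0 := Nat.cast_ne_zero.mpr Fintype.card_ne_zero
  exact mul_ne_zero hn hG h3.symm

theorem wed_nonvanish [CharZero K] (ρ : Γ →* Matrix n n K)
    (hρ : Submodule.span K (Set.range ρ) = ⊤) (α : Γ →* Γ) (hα : ∀ γ, IsConj γ⁻¹ (α γ))
    (a : n) : ∃ d b : Γ, ∑ γ, ρ γ a a * ρ (d * α γ * b) a a ≠ 0 := by
  have : Nonempty n := ⟨a⟩
  by_contra hcon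
  push Not at hcon
  have h1 : ∀ (D : Matrix n n K) (b : Γ), ∑ γ, ρ γ a a * (D * ρ (α γ) * ρ b) a a = 0 := by
    intro D b
    refine wed_span ρ hρ (fun D => ∑ γ, ρ γ a a * (D * ρ (α γ) * ρ b) a a = 0) ?_ ?_ ?_ ?_ D
    · simp
    · intro A B hA hB
      simp only [add_mul, Matrix.add_apply, mul_add, Finset.sum_add_distrib, hA, hB, add_zero]
    · intro c A hA
      simp only [Matrix.smul_mul, Matrix.smul_apply, smul_eq_mul, mul_left_comm _ c,
        ← Finset.mul_sum, hA, mul_zero]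
    · intro g
      simpa only [map_mul] using hcon g b
  have h2 : ∀ (D B : Matrix n n K), ∑ γ, ρ γ a a * (D * ρ (α γ) * B) a a = 0 := by
    intro D B
    refine wed_span ρ hρ (fun B => ∑ γ, ρ γ a a * (D * ρ (α γ) * B) a a = 0) ?_ ?_ ?_ ?_ B
    · simp
    · intro A B hA hB
      simp only [Matrix.add_apply, mul_add, Finset.sum_add_distrib, hA, hB, add_zero]
    · intro c A hA
      simp only [Matrix.mul_smul, Matrix.smul_apply, smul_eq_mul, mul_left_comm _ c,
        ← Finset.mul_sum, hA, mul_zero]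
    · intro g
      exact h1 D g
  have h3 : ∀ (D B : Matrix n n K) (c e : Γ),
      ∑ γ, (ρ c * ρ γ * ρ e) a a * (D * ρ (α γ) * B) a a = 0 := by
    intro D B c e
    rw [← h2 (D * ρ (α c⁻¹)) (ρ (α e⁻¹) * B)]
    refine Fintype.sum_equiv ((Equiv.mulLeft c).trans (Equiv.mulRight e)) _ _ ?_
    intro γ
    have h4 : ρ (α γ) = ρ (α c⁻¹) * ρ (α (c * γ * e)) * ρ (α e⁻¹) := by
      rw [← map_mul, ← map_mul, ← map_mul, ← map_mul]; congr 2; group
    simp only [Equiv.trans_apply, Equiv.coe_mulLeft, Equiv.coe_mulRight]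
    rw [h4, map_mul ρ (c * γ) e, map_mul ρ c γ]
    simp only [Matrix.mul_assoc]
  have h5 : ∀ (D B C : Matrix n n K) (e : Γ),
      ∑ γ, (C * ρ γ * ρ e) a a * (D * ρ (α γ) * B) a a = 0 := by
    intro D B C e
    refine wed_span ρ hρ
      (fun C => ∑ γ, (C * ρ γ * ρ e) a a * (D * ρ (α γ) * B) a a = 0) ?_ ?_ ?_ ?_ C
    · simp
    · intro A B hA hB
      simp only [add_mul, Matrix.add_apply, Finset.sum_add_distrib, hA, hB, add_zero]
    · intro c A hA
      simp only [Matrix.smul_mul, Matrix.smul_apply, smul_eq_mul, mul_assoc c,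
        ← Finset.mul_sum, hA, mul_zero]
    · intro g
      exact h3 D B g e
  have h6 : ∀ (D B C E : Matrix n n K),
      ∑ γ, (C * ρ γ * E) a a * (D * ρ (α γ) * B) a a = 0 := by
    intro D B C E
    refine wed_span ρ hρ
      (fun E => ∑ γ, (C * ρ γ * E) a a * (D * ρ (α γ) * B) a a = 0) ?_ ?_ ?_ ?_ E
    · simp
    · intro A B hA hB
      simp only [add_mul, mul_add, Matrix.add_apply, Finset.sum_add_distrib, hA, hB, add_zero]
    · intro c A hA
      simp only [Matrix.mul_smul, Matrix.smul_apply, smul_eq_mul, mul_assoc c,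
        ← Finset.mul_sum, hA, mul_zero]
    · intro g
      exact h5 D B C g
  have h7 : ∀ u s : n, ∑ γ, ρ γ u u * ρ (α γ) s s = 0 := by
    intro u s
    have h := h6 (Matrix.single a s 1) (Matrix.single s a 1) (Matrix.single a u 1)
      (Matrix.single u a 1)
    simpa only [Matrix.single_mul_mul_single, Matrix.single_apply_same, one_mul, mul_one] using h
  apply wed_char ρ hρ
  have h8 : ∀ γ, (ρ γ⁻¹).trace = (ρ (α γ)).trace := by
    intro γ
    obtain ⟨c, hc⟩ := isConj_iff.mp (hα γ)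
    rw [← hc, map_mul, map_mul, Matrix.trace_mul_comm, ← Matrix.mul_assoc, ← map_mul,
      inv_mul_cancel, map_one, Matrix.one_mul]
  simp only [h8]
  simp only [Matrix.trace, Matrix.diag_apply, Finset.sum_mul_sum]
  rw [Finset.sum_comm]
  refine Finset.sum_eq_zero fun u _ => ?_
  rw [Finset.sum_comm]
  exact Finset.sum_eq_zero fun s _ => h7 u s

theorem wed_closed [CharZero K] [IsAlgClosed K] (α : Γ →* Γ) (hα : ∀ γ, IsConj γ⁻¹ (α γ)) :
    ∃ (J : Type) (_ : Fintype J) (ε : J → MonoidAlgebra K Γ) (φ : J → Γ → K), ∑ j, ε j = 1 ∧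
      (∀ j, ε j * ε j = ε j) ∧
      (∀ j γ, ε j * MonoidAlgebra.single γ 1 * ε j = φ j γ • ε j) ∧
      ∀ j, ∃ d b : Γ, ∑ γ, φ j γ * φ j (d * α γ * b) ≠ 0 := by
  have : NeZero (Nat.card Γ : K) := ⟨Nat.cast_ne_zero.mpr Nat.card_pos.ne'⟩
  obtain ⟨m, d, -, ⟨e⟩⟩ :=
    IsSemisimpleRing.exists_algEquiv_pi_matrix_of_isAlgClosed K (MonoidAlgebra K Γ)
  refine ⟨Σ i : Fin m, Fin (d i), inferInstance,
    fun j => e.symm (Pi.single j.1 (Matrix.single j.2 j.2 1)),
    fun j γ => e (MonoidAlgebra.single γ 1) j.1 j.2 j.2, ?_, ?_, ?_, ?_⟩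
  · apply e.injective
    rw [map_sum, map_one]
    simp only [AlgEquiv.apply_symm_apply]
    rw [Fintype.sum_sigma]
    funext i
    rw [Finset.sum_apply, Finset.sum_eq_single i]
    · rw [Finset.sum_apply]
      simp only [Pi.single_eq_same, Pi.one_apply]
      exact Matrix.sum_single_one
    · intro b _ hb
      rw [Finset.sum_apply]
      exact Finset.sum_eq_zero fun x _ => Pi.single_eq_of_ne hb.symm _
    · simp
  · intro j
    apply e.injective
    rw [map_mul]
    simp only [AlgEquiv.apply_symm_apply]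
    rw [← Pi.single_mul, Matrix.single_mul_single_same, mul_one]
  · intro j γ
    apply e.injective
    rw [map_mul, map_mul, map_smul]
    simp only [AlgEquiv.apply_symm_apply]
    funext i
    by_cases hi : i = j.1
    · subst hi
      simp only [Pi.mul_apply, Pi.smul_apply, Pi.single_eq_same, Matrix.single_mul_mul_single,
        Matrix.smul_single, one_mul, mul_one, smul_eq_mul]
    · simp only [Pi.mul_apply, Pi.smul_apply, Pi.single_eq_of_ne hi, mul_zero, smul_zero]
  · intro j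
    let ρ : Γ →* Matrix (Fin (d j.1)) (Fin (d j.1)) K :=
      { toFun := fun γ => e (MonoidAlgebra.single γ 1) j.1
        map_one' := by rw [← MonoidAlgebra.one_def, map_one]; rfl
        map_mul' := fun g h => by
          rw [← Pi.mul_apply, ← map_mul, MonoidAlgebra.single_mul_single, mul_one] }
    have hρ : Submodule.span K (Set.range ρ) = ⊤ := by
      rw [eq_top_iff]
      intro X _
      obtain ⟨x, hx⟩ := e.surjective (Pi.single j.1 X)
      have hX : X = e x j.1 := by rw [hx, Pi.single_eq_same]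
      rw [hX]
      clear hX hx
      induction x using MonoidAlgebra.induction_on with
      | of g => exact Submodule.subset_span ⟨g, rfl⟩
      | add x y hx hy => rw [map_add]; exact Submodule.add_mem _ hx hy
      | smul r x hx => rw [map_smul]; exact Submodule.smul_mem _ r hx
    exact wed_nonvanish ρ hρ α hα j.2

end Wed

theorem exists_rank_one (Γ : Type) [Group Γ] [Fintype Γ] (α : Γ →* Γ)
    (hα : ∀ γ, IsConj γ⁻¹ (α γ)) :
    ∃ (F : Type) (_ : Field F) (_ : CharZero F) (_ : FiniteDimensional ℚ F) (J : Type)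
      (_ : Fintype J) (ε : J → MonoidAlgebra F Γ) (φ : J → Γ → F), ∑ j, ε j = 1 ∧
      (∀ j, ε j * ε j = ε j) ∧
      (∀ j γ, ε j * MonoidAlgebra.single γ 1 * ε j = φ j γ • ε j) ∧
      ∀ j, ∃ d b : Γ, ∑ γ, φ j γ * φ j (d * α γ * b) ≠ 0 := by
  obtain ⟨J, hJ, ε, φ, h1, h2, h3, h4⟩ := wed_closed (K := AlgebraicClosure ℚ) α hα
  let S : Set (AlgebraicClosure ℚ) :=
    Set.range (fun p : J × Γ => (ε p.1).coeff p.2) ∪ Set.range (fun p : J × Γ => φ p.1 p.2)
  have : Finite S := ((Set.finite_range _).union (Set.finite_range _)).to_subtype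
  let F := IntermediateField.adjoin ℚ S
  have hfin : FiniteDimensional ℚ F :=
    IntermediateField.finiteDimensional_adjoin fun x _ =>
      ((AlgebraicClosure.isAlgebraic ℚ).isAlgebraic x).isIntegral
  have hm1 : ∀ j γ, (ε j).coeff γ ∈ F := fun j γ =>
    IntermediateField.subset_adjoin ℚ S (Or.inl ⟨(j, γ), rfl⟩)
  have hm2 : ∀ j γ, φ j γ ∈ F := fun j γ =>
    IntermediateField.subset_adjoin ℚ S (Or.inr ⟨(j, γ), rfl⟩)
  let f : F →+* AlgebraicClosure ℚ := algebraMap F (AlgebraicClosure ℚ)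
  have hf : Function.Injective f := f.injective
  let Φ := MonoidAlgebra.mapRingHom Γ f
  have hΦ : Function.Injective Φ := MonoidAlgebra.map_injective (f : F →+ AlgebraicClosure ℚ) hf
  let ε' : J → MonoidAlgebra F Γ := fun j =>
    MonoidAlgebra.ofCoeff (Finsupp.equivFunOnFinite.symm fun γ => ⟨(ε j).coeff γ, hm1 j γ⟩)
  let φ' : J → Γ → F := fun j γ => ⟨φ j γ, hm2 j γ⟩
  have hε : ∀ j, Φ (ε' j) = ε j := by
    intro j
    ext γ
    rw [MonoidAlgebra.coeff_mapRingHom]
    rfl
  have hφ : ∀ j γ, f (φ' j γ) = φ j γ := fun j γ => rfl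
  have hsm : ∀ (r : F) (x : MonoidAlgebra F Γ), Φ (r • x) = f r • Φ x := by
    intro r x
    ext γ
    rw [MonoidAlgebra.coeff_mapRingHom, MonoidAlgebra.coeff_smul_apply,
      MonoidAlgebra.coeff_smul_apply, MonoidAlgebra.coeff_mapRingHom, smul_eq_mul, smul_eq_mul,
      map_mul]
  refine ⟨F, inferInstance, inferInstance, ?_, J, hJ, ε', φ', ?_, ?_, ?_, ?_⟩
  · exact hfin
  · apply hΦ
    rw [map_sum, map_one]
    simp only [hε, h1]
  · intro j
    apply hΦ
    rw [map_mul, hε, h2]
  · intro j γ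
    apply hΦ
    rw [map_mul, map_mul, hsm, hε, hφ, MonoidAlgebra.mapRingHom_single, map_one, h3]
  · intro j
    obtain ⟨d, b, hdb⟩ := h4 j
    refine ⟨d, b, fun h0 => hdb ?_⟩
    have h5 := congrArg f h0
    rw [map_sum, map_zero] at h5
    simpa only [map_mul, hφ] using h5

end Pool.Agent.Lib.MP_fc2ced_ag.E
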