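import Pool.Agent.Lib.MP_fc2ced_ag.EPure
import Pool.Agent.Lib.MP_fc2ced_ag.ELang
import Pool.Agent.Lib.MP_fc2ced_ag.EAic
import Pool.Agent.Lib.MP_fc2ced_ag.ETrans
import Pool.Agent.Lib.MP_fc2ced_ag.EWed
import Pool.Agent.Lib.MP_fc2ced_ag.EDL

-- part Pool.Agent.Lib.MP_fc2ced_ag.EConv
section

/-! Products of monomial and unitriangular matrices. -/

open Matrix

namespace Pool.Agent.Lib.MP_fc2ced_ag.E

variable {k : Type} [Field k] [IsAlgClosed k] {F : Type} [Field F] [CharZero F] {n : ℕ}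

namespace Conv

variable {B B' X : Type} [Var k B] [Var k B'] [Var k X]

/-- The basic family of varieties. -/
def ZZ (M : B → GL (Fin n) k) (τ : B → X → GL (Fin n) k) : Set (B × Uni n k × Uni n k × X) :=
  {x | x.2.1.1 * M x.1 * x.2.2.1.1 * τ x.1 x.2.2.2 = 1}

variable {M : B → GL (Fin n) k} {τ : B → X → GL (Fin n) k}

omit [CharZero F] in
theorem absorb {α β M' : B → GL (Fin n) k} (h : Tate k F (ZZ M τ)) (hα : Rg k α) (hβ : Rg k β)
    (ha : ∀ x, α x ∈ Uni n k) (hb : ∀ x, β x ∈ Uni n k) (e : ∀ x, M' x = α x * M x * β x) :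
    Tate k F (ZZ M' τ) :=
  h.retract (s := fun x => (x.1, x.2.1 * ⟨α x.1, ha _⟩, ⟨β x.1, hb _⟩ * x.2.2.1, x.2.2.2))
    (p := fun x => (x.1, x.2.1 * (⟨α x.1, ha _⟩ : Uni n k)⁻¹,
      (⟨β x.1, hb _⟩ : Uni n k)⁻¹ * x.2.2.1, x.2.2.2)) (by fun_prop) (by fun_prop)
    (fun x => by simp) fun y => by simp [ZZ, e, mul_assoc]

omit [CharZero F] in
theorem base {f : B → B'} {g : B' → B} (hf : Rg k f) (hg : Rg k g) (e : ∀ x, g (f x) = x)
    (h : Tate k F (ZZ (fun x => M (g x)) fun x => τ (g x))) : Tate k F (ZZ M τ) :=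
  h.retract (s := fun x => (f x.1, x.2)) (p := fun x => (g x.1, x.2)) (by fun_prop) (by fun_prop)
    (fun x => by simp [e]) fun _ => Iff.rfl

omit [CharZero F] in
theorem line (h : Tate k F (ZZ M τ)) :
    Tate k F (ZZ (fun x : B × k => M x.1) fun x => τ x.1) :=
  (h.prod tate_line).retract (s := fun x => ((x.1.1, x.2), x.1.2))
    (p := fun x => ((x.1.1, x.2), x.1.2)) (by fun_prop) (by fun_prop) (fun _ => rfl)
    fun y => by simp [ZZ]

theorem split {M : B × k → GL (Fin n) k} (hM : Rg k M) (hτ : Rg k fun x : B × X => τ x.1 x.2)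
    (h0 : Tate k F (ZZ (fun x => M (x, 0)) τ))
    (h1 : Tate k F (ZZ (fun x : B × kˣ => M (x.1, x.2)) fun x => τ x.1)) :
    Tate k F (ZZ M fun x => τ x.1) := by
  have H : Tate k F {x : (B × Uni n k × Uni n k × X) × k |
      x.1.2.1.1 * M (x.1.1, x.2) * x.1.2.2.1.1 * τ x.1.1 x.1.2.2.2 = 1} := by
    refine Tate.split_line (IsCl.eq ?_ (Rg.const 1)).lc h0 ?_
    · exact Rg.gl_mul (by fun_prop)
        (hτ.comp (g := fun x : (B × Uni n k × Uni n k × X) × k => (x.1.1, x.1.2.2.2))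
          (by fun_prop))
    · exact h1.retract (s := fun x => ((x.1.1, x.2), x.1.2)) (p := fun x => ((x.1.1, x.2), x.1.2))
        (by fun_prop) (by fun_prop) (fun _ => rfl) fun _ => Iff.rfl
  exact H.retract (s := fun x => ((x.1.1, x.2), x.1.2)) (p := fun x => ((x.1.1, x.2), x.1.2))
    (by fun_prop) (by fun_prop) (fun _ => rfl) fun _ => Iff.rfl

omit [CharZero F] in
theorem diag {d : B → Fin n → kˣ} (hd : Rg k d) (h : Tate k F (ZZ (fun x => M x * mon 1 (d x)) τ)) :
    Tate k F (ZZ M fun x (y : Uni n k × X) => mon 1 (d x) * y.1.1 * τ x y.2) := by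
  have h1 (x : B) (u : Uni n k) : mon 1 (d x) * u.1 * (mon 1 (d x))⁻¹ ∈ Uni n k :=
    conj_mem _ _ u.2
  have h2 (x : B) (u : Uni n k) : (mon 1 (d x))⁻¹ * u.1 * mon 1 (d x) ∈ Uni n k := by
    have := conj_mem 1⁻¹ (fun j => (d x ((1 : Equiv.Perm (Fin n))⁻¹ j))⁻¹) u.2
    rwa [← mon_inv, inv_inv] at this
  exact ((tate_uni n).prod h).retract
    (s := fun x => (x.2.2.2.1, x.1, x.2.1, ⟨_, h2 x.1 x.2.2.1⟩ * x.2.2.2.1, x.2.2.2.2))
    (p := fun x => (x.2.1, x.2.2.1, ⟨_, h1 x.2.1 (x.2.2.2.1 * x.1⁻¹)⟩, x.1, x.2.2.2.2))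
    (by fun_prop) (by fun_prop) (fun x => by simp [mul_assoc]) fun y => by simp [ZZ, mul_assoc]

/-- An entry. -/
def en (a b : Fin n) (u : Uni n k) : k := u.1 a b

/-- Removing a root subgroup on the left. -/
noncomputable def lf {a b : Fin n} (h : a ⋖ b) (u : Uni n k) : Uni n k := ⟨_, left_mem h u⟩

/-- Removing a root subgroup on the right. -/
noncomputable def rt {a b : Fin n} (h : a ⋖ b) (u : Uni n k) : Uni n k := ⟨_, right_mem h u⟩

omit [IsAlgClosed k] in
theorem lf_val {a b : Fin n} (h : a ⋖ b) (u : Uni n k) :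
    (lf h u).1 = sw a b * (el h.ne (-en a b u) * u.1) * (sw a b)⁻¹ := rfl

omit [IsAlgClosed k] in
theorem rt_val {a b : Fin n} (h : a ⋖ b) (u : Uni n k) :
    (rt h u).1 = sw a b * (u.1 * el h.ne (-en a b u)) * (sw a b)⁻¹ := rfl

@[fun_prop] theorem rg_en (a b : Fin n) {u : B → Uni n k} (hu : Rg k u) :
    Rg k fun x => en a b (u x) := hu.uni_val.gl_entry a b

@[fun_prop] theorem rg_lf {a b : Fin n} (h : a ⋖ b) {u : B → Uni n k} (hu : Rg k u) :
    Rg k fun x => lf h (u x) := rg_uni (by simp only [lf_val]; fun_prop)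

@[fun_prop] theorem rg_rt {a b : Fin n} (h : a ⋖ b) {u : B → Uni n k} (hu : Rg k u) :
    Rg k fun x => rt h (u x) := rg_uni (by simp only [rt_val]; fun_prop)

omit [CharZero F] in
theorem step {a b : Fin n} (hab : a ⋖ b) {v : Equiv.Perm (Fin n)} (hv : v⁻¹ a < v⁻¹ b)
    {d : B → Fin n → kˣ} (hd : Rg k d)
    (h : Tate k F (ZZ (fun x : B × k => M x.1 * el hab.ne x.2 * sw a b)
      fun x (y : Uni n k × X) => mon v (d x.1) * y.1.1 * τ x.1 y.2)) :
    Tate k F (ZZ M fun x (y : Uni n k × X) => sw a b * mon v (d x) * y.1.1 * τ x y.2) := by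
  have h2 (x : B) (c : k) : (mon v (d x))⁻¹ * el hab.ne c * mon v (d x) ∈ Uni n k := by
    have := conj_el v⁻¹ (fun j => (d x (v⁻¹ j))⁻¹) hab.ne hv c
    rwa [← mon_inv, inv_inv] at this
  refine h.retract
    (s := fun x => ((x.1, en a b x.2.2.1), x.2.1, lf hab x.2.2.1, x.2.2.2))
    (p := fun x => (x.1.1, x.2.1, ⟨_, el_mem_Uni hab.lt x.1.2⟩ * rt hab x.2.2.1,
      ⟨_, h2 x.1.1 (en a b x.2.2.1)⟩ * x.2.2.2.1, x.2.2.2.2))
    (by fun_prop) (by fun_prop) (fun x => ?_) fun y => ?_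
  · have h0 : en a b (lf hab x.2.2.1) = 0 :=
      sw_conj_apply hab.lt (mul_mem (el_mem_Uni hab.lt _) x.2.2.1.2)
    refine Prod.ext rfl (Prod.ext rfl (Prod.ext (Subtype.ext ?_) (Prod.ext (Subtype.ext ?_) rfl)))
    · simp only [Subgroup.coe_mul, rt_val, h0, neg_zero, el_zero, mul_one]
      simp only [lf_val, ← el_inv, mul_assoc, sw_inv, sw_mul_sw, mul_one]
      rw [← mul_assoc (sw a b), sw_mul_sw, one_mul, mul_inv_cancel_left]
    · simp only [Subgroup.coe_mul, h0, el_zero, mul_one, inv_mul_cancel, one_mul]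
  · simp only [ZZ, Set.mem_ofPred_eq, Subgroup.coe_mul, rt_val, ← el_inv, mul_assoc,
      inv_mul_cancel_left, mul_inv_cancel_left]

/-- The tail of the product. -/
noncomputable def tl {r : ℕ} (g : Fin r → GL (Fin n) k) (u : Fin r → Uni n k) : GL (Fin n) k :=
  (List.ofFn fun i => g i * (u i).1).prod

omit [IsAlgClosed k] in
theorem tl_succ {r : ℕ} (g : Fin (r + 1) → GL (Fin n) k) (u : Fin (r + 1) → Uni n k) :
    tl g u = g 0 * (u 0).1 * tl (fun i => g i.succ) fun i => u i.succ := by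
  simp [tl, List.ofFn_succ]

theorem rg_tl {r : ℕ} {g : B → Fin r → GL (Fin n) k} {u : B → Fin r → Uni n k} (hg : Rg k g)
    (hu : Rg k u) : Rg k fun x => tl (g x) (u x) := by
  induction r with
  | zero => exact (Rg.const 1).congr fun _ => by simp [tl]
  | succ r ih =>
    refine Rg.congr ?_ fun x => tl_succ _ _
    exact Rg.gl_mul (by fun_prop) (ih (by fun_prop) (by fun_prop))

/-- The statement for `r` factors in the tail. -/
def St (k : Type) [Field k] [IsAlgClosed k] (F : Type) [Field F] (n r : ℕ) : Prop :=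
  ∀ (J : Type) [Fintype J] (m : (J → kˣ) → GL (Fin n) k) (ms : Fin r → (J → kˣ) → GL (Fin n) k),
    IsMon m → (∀ i, IsMon (ms i)) → Tate k F (ZZ m fun t u => tl (fun i => ms i t) u)

theorem st_zero : St k F n 0 := by
  rintro J _ m ms ⟨v, d, hd, hm⟩ -
  have key (x : (J → kˣ) × Uni n k × Uni n k × (Fin 0 → Uni n k)) :
      x ∈ ZZ m (fun t u => tl (fun i => ms i t) u) ↔
        (v = 1 ∧ ∀ j, d x.1 j = 1) ∧ x.2.1 * x.2.2.1 = 1 := by
    rw [← mon_mem, ← hm]
    simp only [ZZ, tl, List.ofFn_zero, List.prod_nil, mul_one, Set.mem_ofPred_eq]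
    refine ⟨fun h => ?_, fun h => ?_⟩
    · have h1 : m x.1 ∈ Uni n k := by
        rw [show m x.1 = x.2.1.1⁻¹ * x.2.2.1.1⁻¹ by
          rw [eq_inv_mul_iff_mul_eq, eq_inv_iff_mul_eq_one, h]]
        exact mul_mem (inv_mem x.2.1.2) (inv_mem x.2.2.1.2)
      refine ⟨h1, Subtype.ext ?_⟩
      obtain ⟨h2, h3⟩ := mon_mem.1 (hm _ ▸ h1)
      rwa [hm, h2, show d x.1 = 1 from funext h3, mon_one, mul_one] at h
    · obtain ⟨h2, h3⟩ := mon_mem.1 (hm _ ▸ h.1)
      rw [hm, h2, show d x.1 = 1 from funext h3, mon_one, mul_one]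
      exact congrArg Subtype.val h.2
  by_cases hv : v = 1
  · exact ((tate_torus hd).prod ((tate_uni n).prod ((tate_uni_one n).prod
      (tate_pi (tate_uni n) (Fin 0))))).retract
      (s := fun x => (x.1, x.2.1, x.2.1 * x.2.2.1, x.2.2.2))
      (p := fun x => (x.1, x.2.1, x.2.1⁻¹ * x.2.2.1, x.2.2.2)) (by fun_prop) (by fun_prop)
      (fun x => by simp) fun y => by simp [key, hv]
  · exact Tate.empty.congr fun x => by simp [key, hv]

theorem st_aux {r : ℕ} (ih : St k F n r) (v : Equiv.Perm (Fin n)) :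
    ∀ (J : Type) [Fintype J] (m : (J → kˣ) → GL (Fin n) k) (d : (J → kˣ) → Fin n → kˣ)
      (ms : Fin r → (J → kˣ) → GL (Fin n) k), IsMon m → (∀ j, IsChar fun t => d t j) →
      (∀ i, IsMon (ms i)) → Tate k F (ZZ m fun t (y : Uni n k × (Fin r → Uni n k)) =>
        mon v (d t) * y.1.1 * tl (fun i => ms i t) y.2) := by
  induction v using perm_induction with
  | h1 =>
    intro J _ m d ms hm hd hms
    exact diag (.pi fun j => (hd j).rg) (ih J _ ms (hm.mul ⟨1, d, hd, fun _ => rfl⟩) hms)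
  | hs v a b hab hv ih2 =>
    intro J _ m d ms hm hd hms
    have e (t : J → kˣ) : mon (Equiv.swap a b * v) (d t) = sw a b * mon v (d t) := by
      rw [sw, mon_mul]; simp
    simp only [e]
    have rd : Rg k d := .pi fun j => (hd j).rg
    have rm := hm.rg
    have h0 := ih2 J (fun t => m t * sw a b) d ms (hm.mul (.const _ _)) hd hms
    refine step hab hv rd ?_
    obtain ⟨w, c, hc, hw⟩ := id hm
    rcases (w.injective.ne hab.ne).lt_or_gt with h | h
    · have h0' := line h0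
      exact absorb h0' (α := fun x => m x.1 * el hab.ne x.2 * (m x.1)⁻¹) (β := fun _ => 1)
        (by fun_prop) (.const _) (fun x => by rw [hw]; exact conj_el w _ hab.ne h _)
        (fun _ => one_mem _) fun x => by simp only [mul_assoc, inv_mul_cancel_left, mul_one]
    · refine split (τ := fun t (y : Uni n k × (Fin r → Uni n k)) =>
        mon v (d t) * y.1.1 * tl (fun i => ms i t) y.2) (by fun_prop) ?_
        (by simpa only [el_zero, mul_one] using h0) ?_
      · exact Rg.gl_mul (by fun_prop) (rg_tl (.pi fun i => (hms i).rg.comp Rg.id.fst) (by fun_prop))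
      have p1 (j : J) : IsChar fun t : Option J → kˣ => t (some j) := .proj _
      have h1 := ih2 (Option J) (fun t => m (fun j => t (some j)) * mon 1 (dg a b (t none)))
        (fun t => d fun j => t (some j)) (fun i t => ms i fun j => t (some j))
        ((hm.comp p1).mul ⟨1, fun t => dg a b (t none), fun j => by
          simp only [dg]
          split_ifs
          exacts [.proj _, (IsChar.proj _).inv.neg, .const _], fun _ => rfl⟩)
        (fun j => (hd j).comp p1) fun i => (hms i).comp p1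
      have r1 : Rg k fun x : (J → kˣ) × kˣ => m x.1 := by fun_prop
      have r2 : Rg k fun x : (J → kˣ) × kˣ => ((x.2⁻¹ : kˣ) : k) := Rg.id.snd.units_inv.val
      have r3 := (r1.gl_mul (r2.el hab.ne.symm)).gl_mul r1.gl_inv
      refine absorb (M := fun x : (J → kˣ) × kˣ => m x.1 * mon 1 (dg a b x.2)) ?_ r3 (r2.el hab.ne)
        (fun x => by rw [hw]; exact conj_el w _ hab.ne.symm h _) (fun _ => el_mem_Uni hab.lt _)
        fun x => ?_
      · exact base (f := fun x j => Option.elim j x.2 x.1) (g := fun t => (fun j => t (some j), t none))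
          (.pi fun i => by cases i <;> simp only [Option.elim] <;> fun_prop) (by fun_prop)
          (fun _ => rfl) h1
      · rw [mul_assoc (m x.1), el_mul_sw]
        simp only [mul_assoc, inv_mul_cancel_left]

theorem st (r : ℕ) : St k F n r := by
  induction r with
  | zero => exact st_zero
  | succ r ih =>
    intro J _ m ms hm hms
    obtain ⟨v, d, hd, e⟩ := hms 0
    exact (st_aux ih v J m d (fun i => ms i.succ) hm hd fun i => hms _).retract
      (s := fun x => (x.1, x.2.1, x.2.2.1, x.2.2.2 0, fun i => x.2.2.2 i.succ))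
      (p := fun x => (x.1, x.2.1, x.2.2.1, fun i => Fin.cases x.2.2.2.1 x.2.2.2.2 i))
      (by fun_prop) (Rg.id.fst.pair (Rg.id.snd.fst.pair (Rg.id.snd.snd.fst.pair (.pi fun i => by
        induction i using Fin.cases <;> simp only [Fin.cases_zero, Fin.cases_succ] <;> fun_prop))))
      (fun x => Prod.ext rfl (Prod.ext rfl (Prod.ext rfl (funext fun i => by
        induction i using Fin.cases <;> rfl)))) fun y => by
        simp only [ZZ, Set.mem_ofPred_eq, tl_succ, e, Fin.cases_zero, Fin.cases_succ]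

end Conv

theorem tate_conv (r : ℕ) {J : Type} [Fintype J] {m : (J → kˣ) → GL (Fin n) k}
    {ms : Fin r → (J → kˣ) → GL (Fin n) k} (hm : IsMon m) (hms : ∀ i, IsMon (ms i)) :
    Tate k F {x : (J → kˣ) × Uni n k × Uni n k × (Fin r → Uni n k) |
      x.2.1.1 * m x.1 * x.2.2.1.1 * (List.ofFn fun i => ms i x.1 * (x.2.2.2 i).1).prod = 1} :=
  Conv.st r J m ms hm hms

end Pool.Agent.Lib.MP_fc2ced_ag.E
end

-- part Pool.Agent.Lib.MP_fc2ced_ag.EBru
section

/-! Gaussian elimination: reduction to monomial matrices. -/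

open Matrix

namespace Pool.Agent.Lib.MP_fc2ced_ag.E

variable {k : Type} [Field k] [IsAlgClosed k] {F : Type} [Field F] [CharZero F] {n : ℕ}

namespace Bru

open Var

section General
variable {P P' : Type} [Var k P] [Var k P'] {val : P' → P} {f : P → k}

omit [IsAlgClosed k] in
/-- clearing denominators -/
theorem exists_num (hv : IsLoc val f) {g : P' → k} (hg : Rg k g) :
    ∃ h : P → k, Rg k h ∧ ∀ x, h (val x) ≠ 0 ↔ g x ≠ 0 := by
  obtain ⟨b, hb⟩ := rg_line_iff.1 hv.rg
  let := Var.loc b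
  have h1 (x : P') : pt (val x) b ≠ 0 := hb _ ▸ (hv.range _).1 ⟨x, rfl⟩
  choose e he using fun x : {x : P // pt x b ≠ 0} => (hv.range x.1).2 (hb _ ▸ x.2)
  have r2 : Rg k e := hv.lift ((rg_loc_val b).congr he)
  obtain ⟨c, hc⟩ := rg_line_iff.1 (hg.comp r2)
  obtain ⟨⟨a, s⟩, hs⟩ := IsLocalization.surj (S := Localization.Away b) (Submonoid.powers b) c
  obtain ⟨_, N, rfl⟩ := s
  refine ⟨fun x => pt x a, rg_pt a, fun x => ?_⟩
  let y : {x : P // pt x b ≠ 0} := ⟨val x, h1 x⟩
  have hψ (t : B k P) : pt y (algebraMap (B k P) (Localization.Away b) t) = pt (val x) t :=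
    IsLocalization.Away.lift_eq (S := Localization.Away b) b (g := (pt y.1).toRingHom)
      y.2.isUnit t
  have h3 : pt y c * pt (val x) (b ^ N) = pt (val x) a := by
    rw [← hψ, ← hψ, ← map_mul]
    exact congrArg (pt (k := k) y) hs
  have h4 : e y = x := hv.inj (he y)
  rw [← hc y, h4, map_pow] at h3
  beta_reduce
  rw [← h3, mul_ne_zero_iff, and_iff_left (pow_ne_zero N (h1 x))]

omit [IsAlgClosed k] in
theorem isOp_image (hv : IsLoc val f) {U : Set P'} (hU : IsOp k U) : IsOp k (val '' U) := by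
  obtain ⟨s, rfl⟩ := hU
  choose h h1 h2 using fun c : s => exists_num hv (rg_pt c.1)
  have := IsOp.exists (p := fun (c : s) x => h c x * f x ≠ 0) fun c => .ne ((h1 c).mul hv.rg)
  rwa [show val '' opSet s = {x | ∃ c : s, h c x * f x ≠ 0} from Set.ext fun x => ⟨?_, ?_⟩]
  · rintro ⟨y, ⟨c, hc, hy⟩, rfl⟩
    exact ⟨⟨c, hc⟩, mul_ne_zero ((h2 ⟨c, hc⟩ y).2 hy) ((hv.range _).1 ⟨y, rfl⟩)⟩
  · rintro ⟨c, hc⟩
    obtain ⟨y, rfl⟩ := (hv.range x).2 (right_ne_zero_of_mul hc)
    exact ⟨y, ⟨c.1, c.2, (h2 c y).1 (left_ne_zero_of_mul hc)⟩, rfl⟩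

omit [IsAlgClosed k] in
theorem lc_image (hv : IsLoc val f) {Z : Set P'} (hZ : LC k Z) : LC k (val '' Z) := by
  obtain ⟨s, t, rfl⟩ := hZ
  obtain ⟨s', hs⟩ := isOp_image hv ⟨s, rfl⟩
  obtain ⟨t', ht⟩ := isOp_image hv ⟨t, rfl⟩
  exact ⟨s', t', by rw [Set.image_sdiff hv.inj, hs, ht]⟩

omit [IsAlgClosed k] in
theorem isCl_imp (c : Prop) {g : P → k} (hg : Rg k g) : IsCl k {x | c → g x = 0} := by
  by_cases h : c
  · simpa only [h, forall_true_left] using IsCl.eq hg (Rg.const 0)
  · simpa only [h, IsEmpty.forall_iff, Set.ofPred_true, Set.compl_empty] using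
      IsCl.compl (IsOp.empty (k := k) (P := P))

/-- stratification by the last function that does not vanish -/
theorem tate_strat {Z : Set P} (hZ : LC k Z) (g : Fin n → P → k) (hg : ∀ a, Rg k (g a))
    (h0 : ∀ x ∈ Z, ∃ a, g a x ≠ 0)
    (h1 : ∀ i, Tate k F (Z ∩ {x | ∀ a, i < a → g a x = 0} ∩ {x | g i x ≠ 0})) : Tate k F Z := by
  have H : ∀ t ≤ n, Tate k F (Z ∩ {x | ∀ a : Fin n, t ≤ a.1 → g a x = 0}) := by
    intro t ht
    induction t with
    | zero =>
      refine Tate.empty.congr fun x => ⟨fun h => ?_, fun h => h.elim⟩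
      obtain ⟨a, ha⟩ := h0 x h.1
      exact ha (h.2 a (Nat.zero_le _))
    | succ t ih =>
      refine Tate.split (hZ.inter (IsCl.forall fun a => isCl_imp _ (hg a)).lc)
        (IsOp.ne (hg ⟨t, ht⟩)) (h1 ⟨t, ht⟩) ((ih (by omega)).congr fun x => ⟨fun h => ?_, ?_⟩)
      · refine ⟨h.1.1, fun a ha => ?_⟩
        rcases ha.eq_or_lt with e | e
        · obtain rfl : a = ⟨t, ht⟩ := Fin.ext e.symm
          exact not_not.1 h.2
        · exact h.1.2 a e
      · exact fun h => ⟨⟨h.1, fun a ha => h.2 a (by omega)⟩, not_not.2 (h.2 _ le_rfl)⟩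
  exact (H n le_rfl).congr fun x => ⟨fun h => ⟨h, fun a ha => absurd a.2 (by omega)⟩, And.left⟩

end General

omit [CharZero F] in
theorem tate_matrix : Tate k F (Set.univ : Set (Matrix (Fin n) (Fin n) k)) :=
  (tate_pi (tate_pi tate_line (Fin n)) (Fin n)).retract
    (rg_copy (Matrix.of (m := Fin n) (n := Fin n)).symm).1
    (rg_copy (Matrix.of (m := Fin n) (n := Fin n)).symm).2 (fun _ => rfl) (by simp)

/-- adds multiples of row `i` to the rows above it -/
noncomputable def uCol (i : Fin n) (c : Fin n → k) : Uni n k :=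
  uniOf fun p => if p.1.2 = i then c p.1.1 else 0

/-- adds multiples of column `j` to the columns on its right -/
noncomputable def uRow (j : Fin n) (c : Fin n → k) : Uni n k :=
  uniOf fun p => if p.1.1 = j then c p.1.2 else 0

omit [IsAlgClosed k] in
theorem uCol_apply (i : Fin n) (c : Fin n → k) (a b : Fin n) : (uCol i c).1 a b =
    (if a = b then 1 else 0) + if b = i then (if a < i then c a else 0) else 0 := by
  rw [uCol, uniOf_apply]
  by_cases h : a < b
  · by_cases h' : b = i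
    · subst h'; simp [h, h.ne]
    · simp [h, h.ne, h']
  · by_cases h' : b = i
    · subst h'; simp [h]
    · simp [h, h']

omit [IsAlgClosed k] in
theorem uRow_apply (j : Fin n) (c : Fin n → k) (a b : Fin n) : (uRow j c).1 a b =
    (if a = b then 1 else 0) + if a = j then (if j < b then c b else 0) else 0 := by
  rw [uRow, uniOf_apply]
  by_cases h : a < b
  · by_cases h' : a = j
    · subst h'; simp [h, h.ne]
    · simp [h, h.ne, h']
  · by_cases h' : a = j
    · subst h'; simp [h]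
    · simp [h, h']

omit [IsAlgClosed k] in
theorem uCol_mul (i : Fin n) (c : Fin n → k) (A : Matrix (Fin n) (Fin n) k) (a b : Fin n) :
    (((uCol i c).1 : Matrix (Fin n) (Fin n) k) * A) a b =
      A a b + (if a < i then c a else 0) * A i b := by
  simp [mul_apply, uCol_apply, add_mul, Finset.sum_add_distrib]

omit [IsAlgClosed k] in
theorem mul_uRow (j : Fin n) (c : Fin n → k) (A : Matrix (Fin n) (Fin n) k) (a b : Fin n) :
    (A * ((uRow j c).1 : Matrix (Fin n) (Fin n) k)) a b =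
      A a b + A a j * (if j < b then c b else 0) := by
  simp [mul_apply, uRow_apply, mul_add, Finset.sum_add_distrib]

theorem rg_uCol {P : Type} [Var k P] (i : Fin n) {c : P → Fin n → k} (hc : ∀ a, Rg k (c · a)) :
    Rg k fun x => uCol i (c x) :=
  rg_uni (rg_GL fun a b => ((Rg.const _).add (((hc a).ite _ (Rg.const 0)).ite _
    (Rg.const 0))).congr fun x => uCol_apply i (c x) a b)

theorem rg_uRow {P : Type} [Var k P] (j : Fin n) {c : P → Fin n → k} (hc : ∀ a, Rg k (c · a)) :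
    Rg k fun x => uRow j (c x) :=
  rg_uni (rg_GL fun a b => ((Rg.const _).add (((hc b).ite _ (Rg.const 0)).ite _
    (Rg.const 0))).congr fun x => uRow_apply j (c x) a b)

/-- rows that contain one of the first `m` pivots -/
def Used (m : ℕ) (v : Fin n → Fin n) (a : Fin n) : Prop := ∃ j : Fin n, j.1 < m ∧ v j = a

open Classical in
/-- matrices whose first `m` columns are reduced -/
noncomputable def MM (m : ℕ) (v : Fin n → Fin n) (d : Fin n → kˣ) (A : Matrix (Fin n) (Fin n) k) :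
    Matrix (Fin n) (Fin n) k :=
  of fun a b => if b.1 < m then (if a = v b then (d b : k) else 0) else
    if Used m v a then 0 else A a b

theorem rg_MM {P : Type} [Var k P] (m : ℕ) (v : Fin n → Fin n) {d : P → Fin n → kˣ}
    {A : P → Matrix (Fin n) (Fin n) k} (hd : Rg k d) (hA : Rg k A) :
    Rg k fun x => MM m v (d x) (A x) := by
  classical
  exact rg_matrix fun a b => (((Rg.apply b).comp hd).val.ite _ (Rg.const 0)).ite _
    ((Rg.const 0).ite _ (hA.entry a b))

theorem used_succ {j i a : Fin n} {v : Fin n → Fin n} :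
    Used (j.1 + 1) (fun b => if b = j then i else v b) a ↔ a = i ∨ Used j.1 v a := by
  constructor
  · rintro ⟨b, hb, rfl⟩
    by_cases h : b = j
    · exact .inl (if_pos h)
    · exact .inr ⟨b, by have := Fin.val_ne_of_ne h; omega, (if_neg h).symm⟩
  · rintro (rfl | ⟨b, hb, rfl⟩)
    · exact ⟨j, by omega, if_pos rfl⟩
    · exact ⟨b, by omega, if_neg fun h => by rw [h] at hb; omega⟩

open Classical in
omit [IsAlgClosed k] in
/-- one step of the elimination -/
theorem MM_step {j i : Fin n} {v : Fin n → Fin n} (hi : ¬ Used j.1 v i) (t : kˣ)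
    (d : Fin n → kˣ) (A : Matrix (Fin n) (Fin n) k) (x r : Fin n → k)
    (hx : ∀ a, i < a → ¬ Used j.1 v a → x a = 0) :
    MM j.1 v (fun b => if b = j then t else d b) (of fun a b =>
      (if a = i ∨ b = j then 0 else A a b) +
        d j * (if a = i then 1 else x a) * if b = j then 1 else r b) =
    ((uCol i fun a => if Used j.1 v a then 0 else x a).1 : Matrix (Fin n) (Fin n) k) *
      (MM (j.1 + 1) (fun b => if b = j then i else v b) d A *
        ((uRow j r).1 : Matrix (Fin n) (Fin n) k)) := by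
  ext a b
  rw [uCol_mul, mul_uRow, mul_uRow]
  simp only [MM, of_apply, used_succ, Nat.lt_succ_self, if_true, true_or]
  have hai : Used j.1 v a → a ≠ i := fun h e => hi (e ▸ h)
  have hx' : ¬ Used j.1 v a → a ≠ i → ¬ a < i → x a = 0 := fun h1 h2 h3 =>
    hx a (lt_of_le_of_ne (not_lt.1 h3) h2.symm) h1
  rcases lt_trichotomy b j with h | rfl | h
  · have h1 : b.1 < j.1 := h
    have h2 : i ≠ v b := fun e => hi ⟨b, h1, e.symm⟩
    simp [h1, h1.le, h.ne, h.not_gt, h2]
  · by_cases h1 : Used b.1 v a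
    · simp [h1, hai h1]
    · by_cases h2 : a = i
      · simp [h2, hi]
      · by_cases h3 : a < i
        · simp [h1, h2, h3, mul_comm]
        · simp [h1, h2, h3, hx' h1 h2 h3]
  · have h1 : ¬ b.1 < j.1 := h.not_gt
    have h0 : ¬ b.1 < j.1 + 1 := by have : j.1 < b.1 := h; omega
    by_cases h1' : Used j.1 v a
    · simp [h1, h0, h1', hai h1']
    · by_cases h2 : a = i
      · simp [h1, h0, h2, hi, h, h.ne']
      · by_cases h3 : a < i
        · simp only [h1, h0, h1', h2, h3, h, h.ne', if_true, if_false, or_self]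
          ring
        · simp [h1, h0, h1', h2, h3, h.ne', hx' h1' h2 h3]

variable {Y : Type} [Var k Y] {Z : Set (Matrix (Fin n) (Fin n) k × Y)}

/-- the points of `Z` whose first `m` columns are reduced, with free unused coordinates -/
def WW (Z : Set (Matrix (Fin n) (Fin n) k × Y)) (m : ℕ) (v : Fin n → Fin n) :
    Set ((Fin n → kˣ) × Matrix (Fin n) (Fin n) k × Y) := {x | (MM m v x.1 x.2.1, x.2.2) ∈ Z}

theorem lc_WW (hZ : LC k Z) (m : ℕ) (v : Fin n → Fin n) : LC k (WW Z m v) :=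
  hZ.preimage ((rg_MM m v Rg.id.fst Rg.id.snd.fst).pair Rg.id.snd.snd)

theorem tate_pivot (hZ : LC k Z)
    (lam rho : Uni n k → Y → Y) (hlam : Rg k fun x : Uni n k × Y => lam x.1 x.2)
    (hrho : Rg k fun x : Uni n k × Y => rho x.1 x.2)
    (lam_inv : ∀ u y, lam u (lam u⁻¹ y) = y) (rho_inv : ∀ u y, rho u (rho u⁻¹ y) = y)
    (lamZ : ∀ (u : Uni n k) A y, ((u.1 : Matrix (Fin n) (Fin n) k) * A, lam u y) ∈ Z ↔ (A, y) ∈ Z)
    (rhoZ : ∀ (u : Uni n k) A y, (A * (u.1 : Matrix (Fin n) (Fin n) k), rho u y) ∈ Z ↔ (A, y) ∈ Z)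
    {j i : Fin n} {v : Fin n → Fin n} (hi : ¬ Used j.1 v i)
    (h : Tate k F (WW Z (j.1 + 1) fun b => if b = j then i else v b)) :
    Tate k F (WW Z j.1 v ∩ {x | ∀ a, i < a → MM j.1 v x.1 x.2.1 a j = 0} ∩
      {x | MM j.1 v x.1 x.2.1 i j ≠ 0}) := by
  classical
  have hM (d : Fin n → kˣ) (A : Matrix (Fin n) (Fin n) k) (a : Fin n) :
      MM j.1 v d A a j = if Used j.1 v a then 0 else A a j := if_neg (lt_irrefl _)
  have hg (a : Fin n) : Rg k fun x : (Fin n → kˣ) × Matrix (Fin n) (Fin n) k × Y =>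
      MM j.1 v x.1 x.2.1 a j := (rg_MM _ v Rg.id.fst Rg.id.snd.fst).entry a j
  obtain ⟨V, hv⟩ := exists_var_loc (Subtype.val : {x : (Fin n → kˣ) × Matrix (Fin n) (Fin n) k × Y
    // x.2.1 i j ≠ 0} → _) (Rg.id.snd.fst.entry i j) Subtype.val_injective (by simp)
  refine (hv.tate_iff (((lc_WW hZ _ v).inter (IsCl.forall fun a => isCl_imp _ (hg a)).lc).inter
    (IsOp.ne (hg i)).lc) fun x hx => by simpa only [hM, if_neg hi, Set.mem_ofPred_eq] using hx.2).1 ?_
  have hX : Tate k F {x : Fin n → k | ∀ a, x a ∈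
      if i < a ∧ ¬ Used j.1 v a then ({0} : Set k) else Set.univ} :=
    tate_set_pi _ fun a => by split_ifs; exacts [tate_zero, tate_line]
  have hval := hv.rg_val
  have hA (a b : Fin n) := hval.snd.fst.entry a b
  have hu : Rg k fun x : {x : (Fin n → kˣ) × Matrix (Fin n) (Fin n) k × Y // x.2.1 i j ≠ 0} =>
      Units.mk0 (x.1.2.1 i j) x.2 := rg_units (hA i j)
  have hui : Rg k fun x : {x : (Fin n → kˣ) × Matrix (Fin n) (Fin n) k × Y // x.2.1 i j ≠ 0} =>
      (x.1.2.1 i j)⁻¹ := (hA i j).inv fun x => x.2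
  refine ((tate_units.prod (hX.prod (tate_pi tate_line (Fin n)))).prod h).retract
    (s := fun x => ((x.1.1 j, fun a => x.1.2.1 a j * (x.1.2.1 i j)⁻¹,
      fun b => x.1.2.1 i b * (x.1.2.1 i j)⁻¹),
      fun b => if b = j then Units.mk0 (x.1.2.1 i j) x.2 else x.1.1 b,
      of fun a b => x.1.2.1 a b - x.1.2.1 a j * x.1.2.1 i b * (x.1.2.1 i j)⁻¹,
      rho (uRow j fun b => x.1.2.1 i b * (x.1.2.1 i j)⁻¹)⁻¹
        (lam (uCol i fun a => if Used j.1 v a then 0 else x.1.2.1 a j * (x.1.2.1 i j)⁻¹)⁻¹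
          x.1.2.2)))
    (p := fun q => ⟨(fun b => if b = j then q.1.1 else q.2.1 b,
      of fun a b => (if a = i ∨ b = j then 0 else q.2.2.1 a b) +
        q.2.1 j * (if a = i then 1 else q.1.2.1 a) * if b = j then 1 else q.1.2.2 b,
      lam (uCol i fun a => if Used j.1 v a then 0 else q.1.2.1 a)
        (rho (uRow j q.1.2.2) q.2.2.2)), by simp⟩) ?_ (hv.lift ?_) (fun x => ?_) fun q => ?_
  · refine ((((Rg.apply j).comp hval.fst).pair ((Rg.pi fun a => (hA a j).mul hui).pair
      (Rg.pi fun b => (hA i b).mul hui))).pair ((Rg.pi fun b => hu.ite _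
        ((Rg.apply b).comp hval.fst)).pair ((rg_matrix fun a b =>
          (hA a b).sub (((hA a j).mul (hA i b)).mul hui)).pair ?_)))
    exact hrho.comp ((rg_uRow j fun b => (hA i b).mul hui).uni_inv.pair (hlam.comp
      ((rg_uCol i fun a => (Rg.const 0).ite _ ((hA a j).mul hui)).uni_inv.pair hval.snd.snd)))
  · refine (Rg.pi fun b => Rg.id.fst.fst.ite _ ((Rg.apply b).comp Rg.id.snd.fst)).pair
      ((rg_matrix fun a b => ((Rg.const 0).ite _ (Rg.id.snd.snd.fst.entry a b)).add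
        ((((Rg.apply j).comp Rg.id.snd.fst).val.mul ((Rg.const 1).ite _
          ((Rg.apply a).comp Rg.id.fst.snd.fst))).mul ((Rg.const 1).ite _
            ((Rg.apply b).comp Rg.id.fst.snd.snd)))).pair ?_)
    exact hlam.comp ((rg_uCol i fun a => (Rg.const 0).ite _
      ((Rg.apply a).comp Rg.id.fst.snd.fst)).pair (hrho.comp
        ((rg_uRow j fun b => (Rg.apply b).comp Rg.id.fst.snd.snd).pair Rg.id.snd.snd.snd)))
  · obtain ⟨⟨d, A, y⟩, hx⟩ := x
    refine Subtype.ext (Prod.ext (funext fun b => ?_) (Prod.ext (Matrix.ext fun a b => ?_) ?_))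
    · by_cases hb : b = j <;> simp [hb]
    · replace hx : A i j ≠ 0 := hx
      by_cases ha : a = i <;> by_cases hb : b = j <;>
        simp only [ha, hb, of_apply, if_true, if_false, or_true, true_or, or_self,
          Units.val_mk0] <;> field_simp <;> ring
    · simp only [rho_inv, lam_inv]
  · obtain ⟨⟨t, x, r⟩, d, A, y⟩ := q
    have hx : (∀ a, x a ∈ if i < a ∧ ¬ Used j.1 v a then ({0} : Set k) else Set.univ) ↔
        ∀ a, i < a → ¬ Used j.1 v a → x a = 0 := forall_congr' fun a => by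
      split_ifs with h
      · simp [h.1, h.2]
      · simp only [Set.mem_univ, true_iff]
        exact fun h1 h2 => absurd ⟨h1, h2⟩ h
    simp only [Set.mem_prod, Set.mem_univ, true_and, and_true, Set.mem_preimage,
      Set.mem_inter_iff, Set.mem_ofPred_eq, hx, hM, if_neg hi, of_apply, or_true, if_true, WW]
    constructor
    · rintro ⟨h1, h2⟩
      refine ⟨⟨?_, fun a ha => ?_⟩, by simp⟩
      · rwa [MM_step hi t d A x r h1, lamZ, rhoZ]
      · by_cases hU : Used j.1 v a
        · exact if_pos hU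
        · simp [hU, ha.ne', h1 a ha hU]
    · rintro ⟨⟨h1, h2⟩, -⟩
      have h3 : ∀ a, i < a → ¬ Used j.1 v a → x a = 0 := fun a ha hU => by
        simpa [hU, ha.ne'] using h2 a ha
      exact ⟨h3, by rwa [MM_step hi t d A x r h3, lamZ, rhoZ] at h1⟩

theorem tate_WW (hZ : LC k Z) (hdet : ∀ x ∈ Z, x.1.det ≠ 0)
    (lam rho : Uni n k → Y → Y) (hlam : Rg k fun x : Uni n k × Y => lam x.1 x.2)
    (hrho : Rg k fun x : Uni n k × Y => rho x.1 x.2)
    (lam_inv : ∀ u y, lam u (lam u⁻¹ y) = y) (rho_inv : ∀ u y, rho u (rho u⁻¹ y) = y)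
    (lamZ : ∀ (u : Uni n k) A y, ((u.1 : Matrix (Fin n) (Fin n) k) * A, lam u y) ∈ Z ↔ (A, y) ∈ Z)
    (rhoZ : ∀ (u : Uni n k) A y, (A * (u.1 : Matrix (Fin n) (Fin n) k), rho u y) ∈ Z ↔ (A, y) ∈ Z)
    (hT : ∀ v, Tate k F {x : (Fin n → kˣ) × Y |
      ((mon v x.1 : Matrix (Fin n) (Fin n) k), x.2) ∈ Z}) (t : ℕ) :
    ∀ m, m + t = n → ∀ v : Fin n → Fin n,
      (∀ a b : Fin n, a.1 < m → b.1 < m → v a = v b → a = b) → Tate k F (WW Z m v) := by
  induction t with
  | zero =>
    intro m hm v hv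
    obtain rfl : m = n := hm
    have hb : Function.Bijective v :=
      Finite.injective_iff_bijective.1 fun a b => hv a b a.2 b.2
    refine ((hT (Equiv.ofBijective v hb)).prod tate_matrix).retract
      (s := fun x => ((x.1, x.2.2), x.2.1)) (p := fun q => (q.1.1, q.2, q.1.2)) (by fun_prop)
      (by fun_prop) (fun _ => rfl) fun q => ?_
    have : MM m v q.1.1 q.2 = mon (Equiv.ofBijective v hb) q.1.1 :=
      Matrix.ext fun a b => if_pos b.2
    simp only [Set.mem_prod, Set.mem_univ, and_true, WW, Set.mem_ofPred_eq, this]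
  | succ t ih =>
    intro m hm v hv
    obtain ⟨j, rfl⟩ : ∃ j : Fin n, m = j.1 := ⟨⟨m, by omega⟩, rfl⟩
    refine tate_strat (lc_WW hZ _ v) (fun a x => MM j.1 v x.1 x.2.1 a j)
      (fun a => (rg_MM _ v Rg.id.fst Rg.id.snd.fst).entry a j) (fun x hx => ?_) fun i => ?_
    · by_contra h
      push Not at h
      exact hdet _ hx (det_eq_zero_of_column_eq_zero j h)
    · by_cases hi : Used j.1 v i
      · refine Tate.empty.congr fun x => ⟨fun h => h.2 ?_, fun h => h.elim⟩
        simp [MM, hi]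
      refine tate_pivot hZ lam rho hlam hrho lam_inv rho_inv lamZ rhoZ hi
        (ih _ (by omega) _ fun a b ha hb h => ?_)
      have H : ∀ c : Fin n, c.1 < j.1 + 1 → c ≠ j → c.1 < j.1 := fun c h1 h2 => by
        have := Fin.val_ne_of_ne h2; omega
      by_cases h1 : a = j <;> by_cases h2 : b = j <;> simp only [h1, h2, if_true, if_false] at h
      · rw [h1, h2]
      · exact absurd ⟨b, H b hb h2, h.symm⟩ hi
      · exact absurd ⟨a, H a ha h1, h⟩ hi
      · exact hv a b (H a ha h1) (H b hb h2) h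

end Bru

theorem tate_bruhat {Y : Type} [Var k Y] {Z : Set (GL (Fin n) k × Y)} (hZ : LC k Z)
    (lam rho : Uni n k → Y → Y) (hlam : Rg k fun x : Uni n k × Y => lam x.1 x.2)
    (hrho : Rg k fun x : Uni n k × Y => rho x.1 x.2)
    (lam_inv : ∀ u y, lam u (lam u⁻¹ y) = y) (rho_inv : ∀ u y, rho u (rho u⁻¹ y) = y)
    (lamZ : ∀ (u : Uni n k) g y, (u.1 * g, lam u y) ∈ Z ↔ (g, y) ∈ Z)
    (rhoZ : ∀ (u : Uni n k) g y, (g * u.1, rho u y) ∈ Z ↔ (g, y) ∈ Z)
    (hT : ∀ v, Tate k F {x : (Fin n → kˣ) × Y | (mon v x.1, x.2) ∈ Z}) : Tate k F Z := by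
  have hv := isLoc_GL (k := k) (n := n).prod (Q := Y)
  set val : GL (Fin n) k × Y → Matrix (Fin n) (Fin n) k × Y := fun x => (x.1.val, x.2) with hval
  have hm (g : GL (Fin n) k) (y : Y) : (g.val, y) ∈ val '' Z ↔ (g, y) ∈ Z :=
    hv.inj.mem_set_image (a := (g, y))
  have hL := Bru.lc_image hv hZ
  have hdet : ∀ x ∈ val '' Z, x.1.det ≠ 0 := by
    rintro _ ⟨x, -, rfl⟩
    exact x.1.det_ne_zero
  have hs {A : Matrix (Fin n) (Fin n) k} (hA : A.det = 0) (y : Y) : (A, y) ∉ val '' Z :=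
    fun h => hdet _ h hA
  have H := Bru.tate_WW (F := F) hL hdet lam rho hlam hrho lam_inv rho_inv (fun u A y => ?_)
    (fun u A y => ?_) (fun v => (hT v).congr fun x => hm _ _) n 0 (zero_add n) id
    fun _ _ h => absurd h (Nat.not_lt_zero _)
  · have H' : Tate k F (val '' Z) := H.retract (s := fun x => (1, x)) (p := fun q => q.2)
      (by fun_prop) (by fun_prop) (fun _ => rfl) fun q => by
        have : Bru.MM 0 id q.1 q.2.1 = q.2.1 := Matrix.ext fun a b => by
          simp [Bru.MM, Bru.Used]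
        simp only [Bru.WW, Set.mem_ofPred_eq, this]
    exact ((hv.tate_iff hL hdet).2 H').congr fun x => (hm x.1 x.2).symm
  · by_cases hA : A.det = 0
    · exact iff_of_false (hs (by rw [det_mul, hA, mul_zero]) _) (hs hA _)
    · exact (hm (u.1 * .mkOfDetNeZero A hA) _).trans
        ((lamZ u _ y).trans (hm (.mkOfDetNeZero A hA) y).symm)
  · by_cases hA : A.det = 0
    · exact iff_of_false (hs (by rw [det_mul, hA, zero_mul]) _) (hs hA _)
    · exact (hm (.mkOfDetNeZero A hA * u.1) _).trans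
        ((rhoZ u _ y).trans (hm (.mkOfDetNeZero A hA) y).symm)

end Pool.Agent.Lib.MP_fc2ced_ag.E
end

-- part Pool.Agent.Lib.MP_fc2ced_ag.EK
section

/-! The quotient of the square of a Deligne-Lusztig variety has a Schur-finite motive with
supports. -/

open Matrix

namespace Pool.Agent.Lib.MP_fc2ced_ag.E

section Word
variable {G H : Type} [Group G] [Group H] {m : ℕ}

/-- The product `a 0 * u 0 * a 1 * u 1 * ⋯`. -/
def wd (a u : Fin m → G) : G := (List.ofFn fun i => a i * u i).prod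

theorem wd_succ (a u : Fin (m + 1) → G) :
    wd a u = a 0 * u 0 * wd (fun i => a i.succ) fun i => u i.succ := by
  simp [wd, List.ofFn_succ]

theorem map_wd (φ : G →* H) (a u : Fin m → G) :
    φ (wd a u) = wd (fun i => φ (a i)) fun i => φ (u i) := by
  simp [wd, map_list_prod, List.map_ofFn, Function.comp_def]

/-- Multiply the last entry. -/
def rmul (u : Fin (m + 1) → G) (e : G) : Fin (m + 1) → G :=
  fun i => if i = Fin.last m then u i * e else u i

@[simp] theorem rmul_rmul (u : Fin (m + 1) → G) (e e' : G) :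
    rmul (rmul u e) e' = rmul u (e * e') := by
  ext i; unfold rmul; split_ifs <;> simp [mul_assoc]

@[simp] theorem rmul_one (u : Fin (m + 1) → G) : rmul u 1 = u := by ext i; simp [rmul]

theorem wd_rmul (φ : H →* G) (a : Fin (m + 1) → G) (u : Fin (m + 1) → H) (e : H) :
    wd a (fun i => φ (rmul u e i)) = wd a (fun i => φ (u i)) * φ e := by
  simp [wd, List.ofFn_succ_last, rmul, mul_assoc, Fin.castSucc_ne_last, -List.ofFn_succ]

end Word

variable {k : Type} [Field k] [IsAlgClosed k] {F : Type} [Field F] {n : ℕ}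

section
variable {P : Type} [Var k P]

@[fun_prop] theorem Rg.wd {m : ℕ} {a u : P → Fin m → GL (Fin n) k} (ha : ∀ i, Rg k fun x => a x i)
    (hu : ∀ i, Rg k fun x => u x i) : Rg k fun x => wd (a x) (u x) := by
  induction m with
  | zero => exact .const 1
  | succ m ih =>
    simp only [wd_succ]
    exact ((ha 0).gl_mul (hu 0)).gl_mul (ih (fun i => ha i.succ) fun i => hu i.succ)

@[fun_prop] theorem Rg.rmul {m : ℕ} {u : P → Fin (m + 1) → Uni n k} {e : P → Uni n k}
    (hu : Rg k u) (he : Rg k e) : Rg k fun x => rmul (u x) (e x) :=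
  .pi fun _ => .ite _ (by fun_prop) (by fun_prop)

omit [IsAlgClosed k] in
@[fun_prop] theorem Rg.cons {m : ℕ} {Q : Type} [Var k Q] {e : P → Q} {u : P → Fin m → Q}
    (he : Rg k e) (hu : Rg k u) : Rg k fun x => (Fin.cons (e x) (u x) : Fin (m + 1) → Q) :=
  .pi fun i => by
    refine i.cases he fun i => ?_
    simp only [Fin.cons_succ]
    fun_prop

end

variable [CharZero F]

theorem tate_conv₂ {J : Type} [Fintype J] {m' : (J → kˣ) → GL (Fin n) k} (hm' : IsMon m') (s : ℕ) :
    ∀ (r : ℕ) {m : (J → kˣ) → GL (Fin n) k} {ms : Fin r → (J → kˣ) → GL (Fin n) k}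
      {ms' : Fin s → (J → kˣ) → GL (Fin n) k}, IsMon m → (∀ i, IsMon (ms i)) →
      (∀ i, IsMon (ms' i)) →
      Tate k F {x : ((J → kˣ) × Uni n k × Uni n k × (Fin r → Uni n k)) × (Fin s → Uni n k) ×
        Uni n k | x.1.2.1.1 * m x.1.1 * x.1.2.2.1.1 *
          wd (fun i => ms i x.1.1) (fun i => (x.1.2.2.2 i).1) =
          wd (fun i => ms' i x.1.1) (fun i => (x.2.1 i).1) * (m' x.1.1 * x.2.2.1)} := by
  induction s with
  | zero =>
    intro r m ms ms' hm hms _
    refine (tate_conv (F := F) (r + 1) hm'.inv (ms := Fin.cons m ms)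
      fun i => i.cases hm hms).retract
      (s := fun x => (x.1.1, x.2.2⁻¹, x.1.2.1, Fin.cons x.1.2.2.1 x.1.2.2.2))
      (p := fun x => ((x.1, x.2.2.1, x.2.2.2 0, fun i => x.2.2.2 i.succ), default, x.2.1⁻¹))
      (by fun_prop) (by fun_prop) (fun x => by simp [Subsingleton.elim _ x.2.1])
      fun y => ?_
    simp only [Set.mem_ofPred_eq, wd, List.ofFn_succ, List.ofFn_zero, List.prod_cons,
      List.prod_nil, Fin.cons_zero, Fin.cons_succ, one_mul, Subgroup.coe_inv, mul_assoc]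
    rw [mul_eq_one_iff_eq_inv', inv_mul_eq_iff_eq_mul]
  | succ s ih =>
    intro r m ms ms' hm hms hms'
    refine (ih (r + 1) (hms' 0).inv (ms := Fin.cons m ms) (fun i => i.cases hm hms)
      fun i => hms' i.succ).retract
      (s := fun x => ((x.1.1, (x.2.1 0)⁻¹, x.1.2.1, Fin.cons x.1.2.2.1 x.1.2.2.2),
        fun i => x.2.1 i.succ, x.2.2))
      (p := fun x => ((x.1.1, x.1.2.2.1, x.1.2.2.2 0, fun i => x.1.2.2.2 i.succ),
        Fin.cons x.1.2.1⁻¹ x.2.1, x.2.2))
      (by fun_prop) (by fun_prop) (fun x => by simp [Fin.cons_self_tail (x.2.1), ← Fin.tail_def])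
      fun y => ?_
    simp only [Set.mem_ofPred_eq, wd_succ, Fin.cons_zero, Fin.cons_succ, Subgroup.coe_inv,
      mul_assoc]
    rw [← eq_inv_mul_iff_mul_eq, inv_mul_eq_iff_eq_mul]

theorem tate_K (p r : ℕ) (tw : Bool) [ExpChar k p] {m : ℕ} (v : Fin (m + 1) → Equiv.Perm (Fin n)) :
    Tate k F {x : GL (Fin n) k × (Fin (m + 1) → Uni n k) × (Fin (m + 1) → Uni n k) |
      wd (fun i => mon (v i) 1) (fun i => (x.2.1 i).1) * Fr p r tw x.1 =
        x.1 * iot (wd (fun i => mon (v i) 1) fun i => (x.2.2 i).1)} := by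
  let φ : Uni n k →* Uni n k :=
    ((Fr p r tw).comp (Subgroup.subtype _)).codRestrict _ fun u => Fr_mem_Uni u.2
  let ι : Uni n k →* Uni n k := (iot.comp (Subgroup.subtype _)).codRestrict _ fun u => iot_mem_Uni u.2
  have hφ : Rg k φ := rg_uni (Rg.uni_val .id).Fr
  have hι : Rg k ι := rg_uni (Rg.uni_val .id).iot
  have e1 (u : Uni n k) : (φ u).1 = Fr p r tw u := rfl
  have e2 (u : Uni n k) : (ι u).1 = iot u.1 := rfl
  have e3 (u : Uni n k) : ι (ι u) = u := Subtype.ext (iot_iot _)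
  have e4 (u : Fin (m + 1) → Uni n k) (e) := wd_rmul (Uni n k).subtype (fun i => mon (v i) 1) u e
  simp only [Subgroup.coe_subtype] at e4
  have H : Tate k F {x : GL (Fin n) k × (Uni n k × Uni n k) × (Fin (m + 1) → Uni n k) ×
      (Fin (m + 1) → Uni n k) | wd (fun i => mon (v i) 1) (fun i => (x.2.2.1 i).1) * Fr p r tw x.1 =
        x.2.1.1.1 * x.1 * x.2.1.2.1 * iot (wd (fun i => mon (v i) 1) fun i => (x.2.2.2 i).1)} := by
    refine tate_bruhat (IsCl.eq (by fun_prop) (by fun_prop)).lc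
      (fun u y => ((y.1.1 * u⁻¹, y.1.2), rmul y.2.1 (φ u)⁻¹, y.2.2))
      (fun u y => ((y.1.1, u⁻¹ * y.1.2), y.2.1, rmul y.2.2 (ι (φ u)))) (by fun_prop) (by fun_prop)
      (fun u y => by simp) (fun u y => by simp) (fun u g y => ?_)
      (fun u g y => ?_) fun w => ?_
    · simp [e1, e4, mul_assoc]
    · simp only [e1, e2, e4, Set.mem_ofPred_eq, map_mul, Subgroup.coe_mul, Subgroup.coe_inv,
        ← mul_assoc, mul_left_inj, mul_inv_cancel_right, iot_iot]
    · have hm : IsMon fun t : Fin n → kˣ => mon w t := ⟨w, fun t => t, .proj, fun _ => rfl⟩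
      refine (tate_conv₂ (F := F) (hm.Fr (p := p) (r := r) (tw := tw)) _ _ hm
        (ms := fun i _ => iot (mon (v i) 1)) (fun i => iot_mon (v i) (1 : Fin n → kˣ) ▸ .const _ _)
        fun i => .const (v i) 1).retract
        (s := fun x => ((x.1, x.2.1.1, x.2.1.2, fun i => ι (x.2.2.2 i)), x.2.2.1, 1))
        (p := fun x => (x.1.1, (x.1.2.1, x.1.2.2.1), x.2.1,
          rmul (fun i => ι (x.1.2.2.2 i)) (ι x.2.2⁻¹)))
        (by fun_prop) (by fun_prop) (by simp [e3]) fun y => ?_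
      simp only [Set.mem_ofPred_eq, e4]
      simp only [e2, map_mul, map_wd, iot_iot, Subgroup.coe_inv, ← mul_assoc]
      rw [eq_mul_inv_iff_mul_eq, eq_comm]
  refine H.retract (s := fun x => (x.1, (1, 1), x.2))
    (p := fun x => (x.2.1.1.1 * x.1 * x.2.1.2.1, rmul x.2.2.1 (φ x.2.1.1)⁻¹,
      rmul x.2.2.2 (ι (φ x.2.1.2)))) (by fun_prop) (by fun_prop) (fun x => by simp) fun y => ?_
  simp only [e1, e2, e4, Set.mem_ofPred_eq, map_mul, Subgroup.coe_inv, ← mul_assoc,
    mul_left_inj, inv_mul_cancel_right, iot_iot]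

end Pool.Agent.Lib.MP_fc2ced_ag.E
end

-- part Pool.Agent.Lib.MP_fc2ced_ag.EKR
section

/-! The quotient of the square of a Deligne-Lusztig variety. -/

open Matrix MvPolynomial CategoryTheory

namespace Pool.Agent.Lib.MP_fc2ced_ag.E

noncomputable section

variable (k : Type) [Field k] {F : Type} [Field F] (n : ℕ) (ι : Type) [Finite ι]

open Ob Pair Var

variable {k n} in
/-- The map induced by a homomorphism of algebras. -/
abbrev ga {R S : Type} [CommRing R] [Algebra k R] [CommRing S] [Algebra k S] (x : R →ₐ[k] S) :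
    GL (Fin n) R →* GL (Fin n) S := gm (x : R →+* S)

/-- Functions on families of unitriangular matrices. -/
abbrev YR := MvPolynomial (ι × {p : Fin n × Fin n // p.1 < p.2}) k

/-- The generic determinant. -/
def detX : MvPolynomial (Fin n × Fin n) (YR k n ι) := (of fun i j => X (i, j)).det

/-- Functions on `GL_n × U ^ ι`. -/
abbrev KR := Localization.Away (detX k n ι)

instance : Algebra.Smooth k (YR k n ι) := {}

instance : Algebra.Smooth k (MvPolynomial (Fin n × Fin n) (YR k n ι)) :=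
  have : Algebra.Smooth (YR k n ι) (MvPolynomial (Fin n × Fin n) (YR k n ι)) := {}
  .comp k (YR k n ι) _

/-- The universal invertible matrix. -/
def hU : GL (Fin n) (KR k n ι) :=
  .mk'' (of fun i j => algebraMap (MvPolynomial (Fin n × Fin n) (YR k n ι)) _ (X (i, j))) (by
    have := IsLocalization.Away.algebraMap_isUnit (S := KR k n ι) (detX k n ι)
    exact (RingHom.map_det (algebraMap (MvPolynomial (Fin n × Fin n) (YR k n ι)) (KR k n ι))
      (of fun i j => X (i, j)) ▸ this :))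

/-- The universal unitriangular matrices. -/
def uY (b : ι) : Uni n (YR k n ι) := uniOf fun q => X (b, q)

/-- The universal unitriangular matrices. -/
def uU (b : ι) : GL (Fin n) (KR k n ι) := gm (algebraMap (YR k n ι) _) (uY k n ι b)

variable {k n ι}

omit [Finite ι] in
theorem uU_mem (b : ι) : uU k n ι b ∈ Uni n _ := map_mem_Uni _ (uY k n ι b).2

section Points
variable {O : Type} [CommRing O] [Algebra k O]

omit [Finite ι] in
theorem KR.ext {x y : KR k n ι →ₐ[k] O} (h : ga x (hU k n ι) = ga y (hU k n ι))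
    (h' : ∀ b, ga x (uU k n ι b) = ga y (uU k n ι b)) : x = y := by
  refine AlgHom.coe_ringHom_injective (IsLocalization.ringHom_ext (.powers (detX k n ι))
    (ringHom_ext' (MvPolynomial.ringHom_ext (fun c => (x.commutes c).trans (y.commutes c).symm)
      fun ⟨b, q⟩ => ?_) fun ⟨i, j⟩ => congr($h i j)))
  have := congr($(h' b) q.1.1 q.1.2)
  simp only [gm_apply, uU, uY, uniOf_apply, dif_pos q.2] at this
  exact this

omit [Finite ι] in
theorem KR.exists (h : GL (Fin n) O) (u : ι → GL (Fin n) O) (hu : ∀ b, u b ∈ Uni n O) :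
    ∃ x : KR k n ι →ₐ[k] O, ga x (hU k n ι) = h ∧
      ∀ b, ga x (uU k n ι b) = u b := by
  let y : YR k n ι →ₐ[k] O := aeval fun q => u q.1 q.2.1.1 q.2.1.2
  let z : MvPolynomial (Fin n × Fin n) (YR k n ι) →ₐ[k] O := aevalTower y fun q => h q.1 q.2
  have hz : IsUnit (z (detX k n ι)) := by
    rw [detX, AlgHom.map_det, show z.mapMatrix (of fun i j => X (i, j)) = h.1 by ext; simp [z]]
    exact (isUnit_iff_isUnit_det _).1 h.isUnit
  have hz' (m : Submonoid.powers (detX k n ι)) : IsUnit (z m) := by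
    obtain ⟨_, e, rfl⟩ := m
    simpa using hz.pow e
  have e (c) : IsLocalization.liftAlgHom (S := KR k n ι) hz' (algebraMap _ _ c) = z c :=
    IsLocalization.lift_eq hz' c
  refine ⟨IsLocalization.liftAlgHom hz', Units.ext (Matrix.ext fun i j => (e _).trans (by simp [z])),
    fun b => Units.ext (Matrix.ext fun i j => (e (C ((uY k n ι b).1 i j))).trans ?_)⟩
  rw [show z (C ((uY k n ι b).1 i j)) = y ((uY k n ι b).1 i j) by simp [z], uY, uniOf_apply]
  split_ifs with h1 h2
  · simp [y]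
  · rw [hu b i j h2.ge, if_pos h2, map_one]
  · rw [hu b i j (not_lt.1 h1), if_neg h2, map_zero]

end Points

instance (p : ℕ) [Fact p.Prime] [CharP k p] : ExpChar (KR k n ι) p :=
  have : Nontrivial (KR k n ι) := (KR.exists (k := k) (1 : GL (Fin n) k) (fun _ : ι => 1)
    fun _ => one_mem _).elim fun x _ => x.toRingHom.domain_nontrivial
  have := charP_of_injective_algebraMap (algebraMap k (KR k n ι)).injective p
  .prime Fact.out

section Univ
variable [IsAlgClosed k] {P : Type} [Var k P]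

theorem Rg.exists_GL {g : P → GL (Fin n) k} (h : Rg k g) :
    ∃ g' : GL (Fin n) (B k P), ∀ x : P, ga (pt x) g' = g x := by
  choose b hb using fun i j => rg_line_iff.1 (h.gl_entry i j)
  refine ⟨.mk'' (Matrix.of b) (isUnit_of_points (k := k) fun x => ?_),
    fun x => Units.ext (Matrix.ext fun i j => (hb i j x).symm)⟩
  obtain ⟨x, rfl⟩ := pt.surjective x
  rw [AlgHom.map_det, show (pt x).mapMatrix (Matrix.of b) = (g x).1 from
    Matrix.ext fun i j => (hb i j x).symm]
  exact ((isUnit_iff_isUnit_det _).1 (g x).isUnit).ne_zero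

theorem Rg.exists_uni {g : P → Uni n k} (h : Rg k g) :
    ∃ g' : Uni n (B k P), ∀ x : P, ga (pt x) g'.1 = (g x).1 := by
  choose b hb using fun i j => rg_line_iff.1 (h.uni_val.gl_entry i j)
  refine ⟨uniOf fun q => b q.1.1 q.1.2, fun x => Units.ext (Matrix.ext fun i j => ?_)⟩
  rw [gm_apply, uniOf_apply]
  split_ifs with h1 h2
  · exact (hb i j x).symm
  · rw [(g x).2 i j h2.ge, if_pos h2, map_one]
  · rw [(g x).2 i j (not_lt.1 h1), if_neg h2, map_zero]

end Univ

variable (k n) in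
/-- The general linear group. -/
@[reducible] def Fn.gl : Fn k where
  X O := GL (Fin n) O
  map g := ga g
  map_id _ _ := rfl
  map_comp _ _ _ := rfl
  fin _ x := by
    classical
    exact ⟨Finset.univ.image fun q : Fin n × Fin n => x q.1 q.2, fun _ _ _ h =>
      Units.ext (Matrix.ext fun i j => h _ (Finset.mem_image_of_mem _ (Finset.mem_univ (i, j))))⟩

theorem gm_mon_one {R S : Type} [CommRing R] [CommRing S] (φ : R →+* S) (v : Equiv.Perm (Fin n)) :
    gm φ (mon v 1) = mon v 1 := by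
  rw [map_mon]; congr 1; ext; simp

variable (p r : ℕ) [Fact p.Prime] [CharP k p] (tw : Bool) {m : ℕ} (v : Fin m → Equiv.Perm (Fin n))

theorem gm_wd {R S : Type} [CommRing R] [CommRing S] (φ : R →+* S) (u : Fin m → GL (Fin n) R) :
    gm φ (wd (fun i => mon (v i) 1) u) = wd (fun i => mon (v i) 1) fun i => gm φ (u i) := by
  simp only [map_wd, gm_mon_one]

variable (k) in
/-- The triples `(h, u, u')` with `W(u) F(h) = h ι(W(u'))`. -/
@[reducible] def kP :
    Pair ((Fn.gl k n).prod (((Fn.gl k n).pi (Fin m)).prod ((Fn.gl k n).pi (Fin m)))) where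
  N O x := (∀ i, x.2.1 i ∈ Uni n O) ∧ (∀ i, x.2.2 i ∈ Uni n O) ∧
    wd (fun i => mon (v i) 1) x.2.1 * Fr p r tw x.1 = x.1 * iot (wd (fun i => mon (v i) 1) x.2.2)
  D _ _ := False
  sN O O' g _ h := ⟨fun i => map_mem_Uni _ (h.1 i), fun i => map_mem_Uni _ (h.2.1 i), by
    have := congrArg (gm (g : O →+* O')) h.2.2
    rwa [map_mul, map_mul, map_iot, map_Fr, gm_wd, gm_wd] at this⟩
  sD _ _ _ _ h := h

variable (k) in
/-- The equations. -/
def kf (q : Fin n × Fin n) : KR k n (Bool × Fin m) := hU k n _ q.1 q.2 -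
  ((wd (fun i => mon (v i) 1) fun i => uU k n _ (false, i)) * Fr p r tw (hU k n (Bool × Fin m)) *
    (iot (wd (fun i => mon (v i) 1) fun i => uU k n _ (true, i)))⁻¹ : GL (Fin n) _) q.1 q.2

theorem kf_iff {O : Type} [CommRing O] [Algebra k O] [ExpChar O p]
    (x : KR k n (Bool × Fin m) →ₐ[k] O) : (∀ q, x (kf k p r tw v q) = 0) ↔
      (wd (fun i => mon (v i) 1) fun i => ga x (uU k n _ (false, i))) *
        Fr p r tw (ga x (hU k n _)) =
      ga x (hU k n _) * iot (wd (fun i => mon (v i) 1) fun i => ga x (uU k n _ (true, i))) := by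
  have : (∀ q, x (kf k p r tw v q) = 0) ↔ ga x (hU k n _) = ga x
      ((wd (fun i => mon (v i) 1) fun i => uU k n _ (false, i)) * Fr p r tw (hU k n _) *
        (iot (wd (fun i => mon (v i) 1) fun i => uU k n _ (true, i)))⁻¹) := by
    simp only [kf, map_sub, sub_eq_zero, Prod.forall, Units.ext_iff, ← Matrix.ext_iff]
    rfl
  rw [this, map_mul, map_mul, map_inv, map_iot, map_Fr, gm_wd, gm_wd, eq_mul_inv_iff_mul_eq,
    eq_comm]

theorem etale_kf [NeZero r] : (aeval (kf k p r tw v) : MvPolynomial (Fin n × Fin n)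
    (YR k n (Bool × Fin m)) →ₐ[YR k n (Bool × Fin m)] KR k n (Bool × Fin m)).toRingHom.Etale := by
  refine etale_sub_pow p Fact.out ?_ (fun q : Fin n × Fin n => hU k n _ q.1 q.2) _ ?_ fun q => ?_
  · rw [← map_natCast (algebraMap k _), CharP.cast_eq_zero, map_zero]
  · rw [show aeval (fun q : Fin n × Fin n => hU k n _ q.1 q.2) =
      IsScalarTower.toAlgHom (YR k n (Bool × Fin m)) _ _ from algHom_ext fun q => aeval_X _ _]
    exact RingHom.etale_algebraMap.2 (.of_isLocalizationAway (detX k n _))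
  · simp only [uU]
    rw [← gm_wd, ← gm_wd, ← map_iot, ← map_inv]
    simp only [Units.val_mul, mul_apply, gm_apply, Finset.sum_mul]
    refine Submodule.sum_mem _ fun l _ => Submodule.sum_mem _ fun m _ => ?_
    rw [mul_right_comm, ← map_mul, ← Algebra.smul_def, Fr_apply]
    obtain ⟨s, rfl⟩ := Nat.exists_eq_succ_of_ne_zero (NeZero.ne r)
    exact Submodule.smul_mem _ _ (Submodule.subset_span (by
      cases tw <;> exact ⟨_, (pow_mul _ _ _).symm⟩))

theorem good_kP [IsAlgClosed k] [CharZero F] [NeZero r] (v : Fin (m + 1) → Equiv.Perm (Fin n)) :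
    Good (((kP k p r tw v).ob F).ten (((gP k).ob F).pow (Fin n × Fin n))) := by
  classical
  let _ : Var k (KR k n (Bool × Fin (m + 1)) →ₐ[k] k) := ⟨KR k n _, .refl _⟩
  let P := GL (Fin n) k × (Fin (m + 1) → Uni n k) × (Fin (m + 1) → Uni n k)
  obtain ⟨h, hh⟩ := Rg.exists_GL (P := P) (.fst .id)
  choose u hu using fun b : Bool × Fin (m + 1) => Rg.exists_uni (P := P)
    (g := fun x => cond b.1 x.2.2 x.2.1 b.2) (by
      obtain ⟨_ | _, i⟩ := b <;> simp only [cond] <;> fun_prop)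
  obtain ⟨ψ, h1, h2⟩ := KR.exists (k := k) h (fun b => u b) fun b => (u b).2
  have e1 (y : P) : ga ((pt y).comp ψ) (hU k n _) = y.1 := (congrArg (gm _) h1).trans (hh y)
  have e2 (y : P) (b) : ga ((pt y).comp ψ) (uU k n _ b) = (cond b.1 y.2.2 y.2.1 b.2).1 :=
    (congrArg (gm _) (h2 b)).trans (hu b y)
  have r1 (g : GL (Fin n) (KR k n _)) :
      Rg k fun x : KR k n (Bool × Fin (m + 1)) →ₐ[k] k => ga x g :=
    rg_GL fun i j => rg_line_iff.2 ⟨g i j, fun _ => rfl⟩
  have H : Tate k F {x : KR k n _ →ₐ[k] k | ∀ q, x (kf k p r tw v q) = 0} :=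
    (tate_K p r tw v).retract (s := fun x => (ga x (hU k n _),
      fun i => ⟨ga x (uU k n _ (false, i)), map_mem_Uni _ (uU_mem _)⟩,
      fun i => ⟨ga x (uU k n _ (true, i)), map_mem_Uni _ (uU_mem _)⟩))
      (p := fun y => (pt y).comp ψ) (.pair (r1 _) (.pair (.pi fun _ => .uni_mk (r1 _) _)
        (.pi fun _ => .uni_mk (r1 _) _))) ⟨ψ, fun _ => rfl⟩
      (fun x => KR.ext (e1 _) fun b => (e2 _ b).trans (by obtain ⟨_ | _, i⟩ := b <;> rfl))
      fun y => by
        rw [Set.mem_ofPred_eq, Set.mem_ofPred_eq, kf_iff, e1]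
        simp only [e2, cond]
  have G := good_pure (F := F) _ (etale_kf p r tw v) (.of_eqv (.of_live (by simp))
    (H.good (s := {1}) (t := Finset.univ.image (kf k p r tw v)) (by ext; simp [opSet]; rfl)))
  let π := Ideal.Quotient.mkₐ k (Ideal.span (Set.range (kf k p r tw v)))
  have m : IsMap (Fn.spec k _).top (kP k p r tw v) fun O x =>
      (ga (x.comp π) (hU k n _), fun i => ga (x.comp π) (uU k n _ (false, i)),
        fun i => ga (x.comp π) (uU k n _ (true, i))) :=
    ⟨fun _ _ _ _ _ => rfl, fun _ x _ => ⟨fun _ => map_mem_Uni _ (uU_mem _),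
      fun _ => map_mem_Uni _ (uU_mem _), (kf_iff p r tw v _).1 fun q =>
        (congrArg x (Ideal.Quotient.eq_zero_iff_mem.2 (Ideal.subset_span ⟨q, rfl⟩))).trans
          (map_zero x)⟩, fun _ _ _ h => h⟩
  have hb : Bij (m.hom F) := by
    refine m.bij (fun _ _ _ h => h) (fun _ x x' _ _ _ _ h => ?_) fun O y hy _ => ?_
    · rw [Prod.mk.injEq, Prod.mk.injEq] at h
      refine Ideal.Quotient.algHom_ext k (KR.ext h.1 ?_)
      rintro ⟨_ | _, i⟩
      exacts [congrFun h.2.1 i, congrFun h.2.2 i]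
    · obtain ⟨x, h1, h2⟩ := KR.exists (k := k) y.1
        (fun b : Bool × _ => cond b.1 y.2.2 y.2.1 b.2) (by
          rintro ⟨_ | _, i⟩
          exacts [hy.1 i, hy.2.1 i])
      have h3 := (kf_iff p r tw v x).2 (by simp only [h1, h2]; exact hy.2.2)
      have h4 : ∀ a ∈ Ideal.span (Set.range (kf k p r tw v)), x a = 0 := fun a ha =>
        (Ideal.span_le (I := RingHom.ker x)).2 (Set.range_subset_iff.2 h3) ha
      refine ⟨Ideal.Quotient.liftₐ _ x h4, trivial, ?_⟩
      rw [show (Ideal.Quotient.liftₐ _ x h4).comp π = x from Ideal.Quotient.liftₐ_comp _ _ _]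
      simp only [h1, h2]
      rfl
  exact .of_eqv (.ten (.symm ⟨_, hb⟩) (.refl _)) G

end

end Pool.Agent.Lib.MP_fc2ced_ag.E
end

-- part Pool.Agent.Lib.MP_fc2ced_ag.EMain
section

/-! Schur-finiteness of Deligne-Lusztig varieties. -/

open Matrix MvPolynomial CategoryTheory

namespace Pool.Agent.Lib.MP_fc2ced_ag.E

noncomputable section

variable {k : Type} [Field k] {F : Type} [Field F] {n : ℕ} (p r : ℕ) [Fact p.Prime] [CharP k p]
  (tw : Bool) {m : ℕ} (v : Fin m → Equiv.Perm (Fin n))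

open Ob Pair

variable (k) in
/-- The points of the Deligne-Lusztig variety. -/
@[reducible] def dP : Pair ((Fn.gl k n).prod ((Fn.gl k n).pi (Fin m))) where
  N O x := (∀ i, x.2 i ∈ Uni n O) ∧ x.1⁻¹ * Fr p r tw x.1 = wd (fun i => mon (v i) 1) x.2
  D _ _ := False
  sN O O' g x h := ⟨fun i => map_mem_Uni _ (h.1 i), by
    have := congrArg (gm (g : O →+* O')) h.2
    rwa [map_mul, map_inv, map_Fr, gm_wd] at this⟩
  sD _ _ _ _ h := h

theorem permMatrix_eq {O : Type} [CommRing O] (w : Equiv.Perm (Fin n)) :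
    w.permMatrix O = (mon w⁻¹ (1 : Fin n → Oˣ)).1 := by
  ext i j
  simp [mon_apply, Equiv.Perm.permMatrix, PEquiv.toMatrix_apply, Equiv.eq_symm_apply]

omit [Fact p.Prime] in
theorem dlEq_iff {O : Type} [CommRing O] [ExpChar O p] (g : GL (Fin n) O)
    (u : Fin m → GL (Fin n) O) : DLEq tw (p ^ r) v g.1 (g⁻¹).1 (fun l => (u l).1) ↔
      (∀ i, u i ∈ Uni n O) ∧ g⁻¹ * Fr p r tw g = wd (fun i => mon (v i)⁻¹ 1) u := by
  have e2 : frob tw (p ^ r) g.1 (g⁻¹).1 = (Fr p r tw g).1 := by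
    ext i j
    rw [Fr_apply]; rfl
  have e3 : (List.ofFn fun l => (v l).permMatrix O * (u l).1).prod =
      (wd (fun i => mon (v i)⁻¹ 1) u).1 := by
    simp only [permMatrix_eq]
    exact ((map_list_prod (Units.coeHom _) _).trans (by rw [List.map_ofFn]; rfl)).symm
  rw [DLEq, and_iff_right g.mul_inv, e2, e3, ← Units.val_mul, Units.val_inj]
  rfl

theorem eqv_dP : Eqv ((Fn.spec k (DLRing k tw (p ^ r) v)).top.ob F)
    ((dP k p r tw fun i => (v i)⁻¹).ob F) := by
  let π := Ideal.Quotient.mkₐ k (dlIdeal k tw (p ^ r) v)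
  have H {O : Aic k} (x : DLRing k tw (p ^ r) v →ₐ[k] O) : DLEq tw (p ^ r) v
      (of fun i j => x (π (X (.inl false, i, j)))) (of fun i j => x (π (X (.inl true, i, j))))
      fun l => of fun i j => x (π (X (.inr l, i, j))) :=
    (dlIdeal_le_ker_iff tw _ v fun s => x (π (X s))).1 fun f hf => by
      rw [show aeval (fun s => x (π (X s))) = x.comp π from algHom_ext fun s => aeval_X _ _]
      exact (congrArg x (Ideal.Quotient.eq_zero_iff_mem.2 hf)).trans (map_zero x)
  let e ⦃O : Aic k⦄ (x : DLRing k tw (p ^ r) v →ₐ[k] O) :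
      GL (Fin n) O × (Fin m → GL (Fin n) O) :=
    (⟨_, _, (H x).1, mul_eq_one_comm.1 (H x).1⟩,
      fun l => .mk'' (of fun i j => x (π (X (.inr l, i, j)))) (by
        rw [det_of_isUpperTriangular fun i j (h : j < i) =>
          ((H x).2.1 l i j h.le).trans (if_neg h.ne'),
          Finset.prod_eq_one fun i _ => ((H x).2.1 l i i le_rfl).trans (if_pos rfl)]
        exact isUnit_one))
  have hm : IsMap (Fn.spec k _).top (dP k p r tw fun i => (v i)⁻¹) e :=
    ⟨fun _ _ _ _ _ => Prod.ext (Units.ext rfl) (funext fun _ => Units.ext rfl),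
      fun _ x _ => (dlEq_iff p r tw v (e x).1 (e x).2).1 (H x), fun _ _ _ h => h⟩
  refine ⟨_, hm.bij (fun _ _ _ h => h) (fun _ x x' _ _ _ _ h => ?_) fun O g hg _ => ?_⟩
  · refine Ideal.Quotient.algHom_ext k (algHom_ext ?_)
    rintro ⟨(_ | _) | l, i, j⟩
    exacts [congr(($h).1.val i j), congr(($h).1.inv i j), congr((($h).2 l).val i j)]
  · let z : (Bool ⊕ Fin m) × Fin n × Fin n → O := fun s =>
      Sum.elim (fun b => cond b (g.1⁻¹).1 g.1.1) (fun l => (g.2 l).1) s.1 s.2.1 s.2.2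
    exact ⟨Ideal.Quotient.liftₐ _ (aeval z) ((dlIdeal_le_ker_iff tw _ v z).2
      ((dlEq_iff p r tw v g.1 g.2).2 hg)), trivial,
      Prod.ext (Units.ext (Matrix.ext fun i j => aeval_X z _))
        (funext fun l => Units.ext (Matrix.ext fun i j => aeval_X z _))⟩

variable [IsAlgClosed k] [NeZero r] (v : Fin (m + 1) → Equiv.Perm (Fin n))

theorem good_dP (hC : ∀ (F : Type) [Field F], Con ((dP k p r tw v).ob F)) :
    ∃ (F : Type) (_ : Field F) (_ : CharZero F) (_ : FiniteDimensional ℚ F),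
      Good (((dP k p r tw v).ob F).ten (((gP k).ob F).pow (Fin n × Fin n))) := by
  have := Fintype.ofFinite (Fix n k p r tw)
  let α : Fix n k p r tw →* Fix n k p r tw :=
    (iot.comp (Subgroup.subtype _)).codRestrict _ fun γ => (iot_Fr γ.1).symm.trans
      (congrArg iot γ.2)
  obtain ⟨F, _, _, _, J, _, ε, φ, h1, h2, h3, h4⟩ := exists_rank_one _ α fun γ =>
    (conj_iot γ.1 γ.2).elim fun δ h => isConj_iff.2 ⟨⟨δ, h.1⟩, Subtype.ext h.2⟩
  let a (γ : Fix n k p r tw) ⦃O : Aic k⦄ (x : GL (Fin n) O × (Fin (m + 1) → GL (Fin n) O)) :=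
    (gm (algebraMap k O) γ.1 * x.1, x.2)
  have fix (γ : Fix n k p r tw) (O : Aic k) :
      Fr p r tw (gm (algebraMap k O) γ.1) = gm (algebraMap k O) γ.1 :=
    (map_Fr _ _).symm.trans (congrArg _ γ.2)
  have ha (γ) : IsMap (dP k p r tw v) (dP k p r tw v) (a γ) :=
    ⟨fun _ _ g x _ => Prod.ext ((map_mul _ _ _).trans (congrArg (· * _)
      (Units.ext (Matrix.ext fun i j => g.commutes _)))) rfl,
      fun O x h => ⟨h.1, by simpa [a, fix, mul_assoc] using h.2⟩, fun _ _ _ h => h⟩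
  have mul (γ δ) ⦃O : Aic k⦄ (x : GL (Fin n) O × _) : a (γ * δ) x = a γ (a δ x) := by
    simp [a, mul_assoc]
  let ρ : Fix n k p r tw →* End ((dP k p r tw v).ob F) :=
    { toFun γ := (ha γ).hom F
      map_one' := Pair.hom_ext fun _ x hx _ => ((ha 1).hom_cl hx).trans (by simp [a])
      map_mul' γ δ := ((ha δ).hom_comp (ha γ) (ha _) fun _ x _ => (mul γ δ x).symm).symm }
  have hq : IsMap ((dP k p r tw v).prod (dP k p r tw v)) (kP k p r tw v) fun O x =>
      (x.1.1⁻¹ * iot x.2.1, x.1.2, x.2.2) :=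
    ⟨fun O O' g x _ => by simp only [map_mul, map_inv, map_iot], fun O x h => ⟨h.1.1, h.2.1, by
      simp [← h.1.2, ← h.2.2, iot_Fr, mul_assoc]⟩, fun _ _ _ h => h.elim id id⟩
  obtain ⟨t, ht⟩ := exists_transfer (F := F) hq (fun γ => (ha γ).prod (ha (α γ)))
    (fun γ δ _ x => by simp only [map_mul, mul]) (fun _ _ h => h) (fun O y hy => by
      obtain ⟨z, -, hz⟩ := lang_comm (tw := tw) O O.root (1 : GL (Fin n) k) (map_one (Fr p r tw))
        (wd (fun i => mon (v i) 1) y.2.1) (by simp)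
      refine ⟨((z, y.2.1), iot (z * y.1), y.2.2), ⟨⟨hy.1, hz⟩, hy.2.1, ?_⟩,
        Prod.ext (by simp) rfl⟩
      have := congrArg iot (inv_mul_eq_iff_eq_mul.2 hy.2.2)
      rw [← hz, iot_iot] at this
      simpa [iot_Fr, mul_assoc] using this) fun O x x' hx hx' h => by
      rw [Prod.mk.injEq, Prod.mk.injEq] at h
      obtain ⟨γ, hγ⟩ := fixed_of_domain (k := k) (r := r) (tw := tw) O (x'.1.1 * x.1.1⁻¹) (by
        rw [map_mul, map_inv, mul_inv_eq_iff_eq_mul, mul_assoc, hx.1.2, h.2.1, ← hx'.1.2,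
          mul_inv_cancel_left])
      refine ⟨γ, Prod.ext (Prod.ext (by simp [a, hγ]) h.2.1.symm) (Prod.ext ?_ h.2.2.symm)⟩
      change _ = gm _ (iot γ.1) * _
      rw [map_iot, hγ, ← iot_iot x.2.1, ← map_mul, mul_assoc, h.1, mul_inv_cancel_left, iot_iot]
  have := (bij_ten (F := F) (dP k p r tw v) (dP k p r tw v)).isIso
  refine ⟨F, ‹_›, ‹_›, ‹_›, good_of_transfer α h1 h2 h3 h4 ρ (hC F) (Good.gP.pow _)
    (good_kP p r tw v) (inv (isLift_ten F _ _).hom ≫ hq.hom F) (t ≫ (isLift_ten F _ _).hom) ?_⟩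
  rw [Category.assoc, reassoc_of% ht, IsIso.inv_comp_eq, Preadditive.sum_comp,
    Preadditive.comp_sum]
  exact Finset.sum_congr rfl fun γ _ => ((ha γ).ten_nat (ha (α γ))).symm

theorem schurFinite_DLRing : SchurFinite k (DLRing k tw (p ^ r) v) := by
  have := smooth_DLRing k p r tw v
  obtain ⟨F, _, _, _, h⟩ := good_dP (k := k) p r tw (fun i => (v i)⁻¹) fun F _ =>
    (eqv_dP p r tw v).symm.con (.sm _)
  exact schurFinite_of_sf F _ _ (Good.of_eqv (.ten (eqv_dP p r tw v) (.refl _)) h).sf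

end

end Pool.Agent.Lib.MP_fc2ced_ag.E
end
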