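import Pool.Agent.Lib.MP_fc2ced_ag.EDefs

/-! The internal category: finitely supported functors from absolutely integrally closed domains
to vector spaces, with tensor products and short exact sequences. -/

open CategoryTheory Function
open scoped TensorProduct

namespace Pool.Agent.Lib.MP_fc2ced_ag.E

noncomputable section

variable {k : Type} [Field k] {F : Type} [Field F]

theorem exists_desc {U V W : Type} [AddCommGroup U] [Module F U] [AddCommGroup V] [Module F V]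
    [AddCommGroup W] [Module F W] (q : U →ₗ[F] V) (hq : Surjective q) (f : U →ₗ[F] W)
    (h : ∀ v, q v = 0 → f v = 0) : ∃ g : V →ₗ[F] W, g ∘ₗ q = f := by
  obtain ⟨s, hs⟩ := q.exists_rightInverse_of_surjective (LinearMap.range_eq_top.2 hq)
  refine ⟨f ∘ₗ s, LinearMap.ext fun v => sub_eq_zero.1 ?_⟩
  rw [LinearMap.comp_apply, LinearMap.comp_apply, ← map_sub]
  exact h _ (by rw [map_sub, show q (s (q v)) = q v from congr($hs (q v)), sub_self])

/-- The elements that depend on finitely many elements of the ring. -/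
def finSub {V : Aic k → Type} [∀ O, AddCommGroup (V O)] [∀ O, Module F (V O)]
    (m : ∀ {O O' : Aic k}, (O →ₐ[k] O') → V O →ₗ[F] V O') (O : Aic k) : Submodule F (V O) where
  carrier := {v | ∃ S : Finset O, ∀ (O' : Aic k) (f g : O →ₐ[k] O'), (∀ s ∈ S, f s = g s) →
    m f v = m g v}
  zero_mem' := ⟨∅, fun _ _ _ _ => by simp⟩
  add_mem' := by
    classical
    rintro _ _ ⟨S, hS⟩ ⟨T, hT⟩
    exact ⟨S ∪ T, fun O' f g h => by
      rw [map_add, map_add, hS O' f g fun s hs => h s (by simp [hs]),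
        hT O' f g fun s hs => h s (by simp [hs])]⟩
  smul_mem' c _ := fun ⟨S, hS⟩ => ⟨S, fun O' f g h => by rw [map_smul, map_smul, hS O' f g h]⟩

variable (k F) in
/-- Finitely supported functors to `F`-vector spaces. -/
structure Ob where
  V : Aic k → Type
  [acg : ∀ O, AddCommGroup (V O)]
  [mod : ∀ O, Module F (V O)]
  map : ∀ {O O' : Aic k}, (O →ₐ[k] O') → V O →ₗ[F] V O'
  map_id : ∀ O : Aic k, map (AlgHom.id k O) = LinearMap.id
  map_comp : ∀ {O O' O'' : Aic k} (f : O →ₐ[k] O') (g : O' →ₐ[k] O''),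
    map (g.comp f) = map g ∘ₗ map f
  fin : ∀ O v, v ∈ finSub (F := F) (@map) O

attribute [instance] Ob.acg Ob.mod

/-- Natural linear maps. -/
def homSub (M N : Ob k F) : Submodule F (∀ O, M.V O →ₗ[F] N.V O) where
  carrier := {φ | ∀ (O O' : Aic k) (g : O →ₐ[k] O'), φ O' ∘ₗ M.map g = N.map g ∘ₗ φ O}
  zero_mem' _ _ _ := by simp
  add_mem' h1 h2 O O' g := by simp [LinearMap.add_comp, LinearMap.comp_add, h1 O O' g, h2 O O' g]
  smul_mem' c _ h O O' g := by simp [LinearMap.smul_comp, LinearMap.comp_smul, h O O' g]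

instance : Category (Ob k F) where
  Hom M N := homSub M N
  id M := ⟨fun _ => LinearMap.id, fun _ _ _ => rfl⟩
  comp f g := ⟨fun O => g.1 O ∘ₗ f.1 O, fun O O' h => by
    rw [LinearMap.comp_assoc, f.2 O O' h, ← LinearMap.comp_assoc, g.2 O O' h,
      LinearMap.comp_assoc]⟩

instance : Preadditive (Ob k F) where
  homGroup M N := inferInstanceAs (AddCommGroup (homSub M N))
  add_comp _ _ _ _ _ _ := Subtype.ext (funext fun _ => LinearMap.comp_add _ _ _)
  comp_add _ _ _ _ _ _ := Subtype.ext (funext fun _ => LinearMap.add_comp _ _ _)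

instance : Linear F (Ob k F) where
  homModule M N := inferInstanceAs (Module F (homSub M N))
  smul_comp _ _ _ _ _ _ := Subtype.ext (funext fun _ => LinearMap.comp_smul _ _ _)
  comp_smul _ _ _ _ _ _ := Subtype.ext (funext fun _ => LinearMap.smul_comp _ _ _)

namespace Ob

variable {M M' M'' N N' N'' : Ob k F}

@[ext] theorem hom_ext {f g : M ⟶ N} (h : ∀ O, f.1 O = g.1 O) : f = g := Subtype.ext (funext h)
@[simp] theorem id_app (O : Aic k) : (𝟙 M : M ⟶ M).1 O = LinearMap.id := rfl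
@[simp] theorem comp_app (f : M ⟶ M') (g : M' ⟶ M'') (O : Aic k) :
    (f ≫ g).1 O = g.1 O ∘ₗ f.1 O := rfl
@[simp] theorem add_app (f g : M ⟶ N) (O : Aic k) : (f + g).1 O = f.1 O + g.1 O := rfl
@[simp] theorem sub_app (f g : M ⟶ N) (O : Aic k) : (f - g).1 O = f.1 O - g.1 O := rfl
@[simp] theorem neg_app (f : M ⟶ N) (O : Aic k) : (-f).1 O = -f.1 O := rfl
@[simp] theorem zero_app (O : Aic k) : (0 : M ⟶ N).1 O = 0 := rfl
@[simp] theorem smul_app (c : F) (f : M ⟶ N) (O : Aic k) : (c • f).1 O = c • f.1 O := rfl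
@[simp] theorem sum_app {ι : Type} (s : Finset ι) (f : ι → (M ⟶ N)) (O : Aic k) :
    (∑ i ∈ s, f i).1 O = ∑ i ∈ s, (f i).1 O := by
  classical
  induction s using Finset.induction_on with
  | empty => simp
  | insert a s ha ih => simp [Finset.sum_insert ha, ih]

theorem nat (f : M ⟶ N) {O O' : Aic k} (g : O →ₐ[k] O') (v : M.V O) :
    f.1 O' (M.map g v) = N.map g (f.1 O v) := congr($(f.2 O O' g) v)

theorem comp_apply (f : M ⟶ M') (g : M' ⟶ M'') (O : Aic k) (v : M.V O) :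
    (f ≫ g).1 O v = g.1 O (f.1 O v) := rfl

theorem map_map {O O' O'' : Aic k} (f : O →ₐ[k] O') (g : O' →ₐ[k] O'') (v : M.V O) :
    M.map g (M.map f v) = M.map (g.comp f) v := by rw [M.map_comp]; rfl

end Ob

open Ob

variable {M M' M'' N N' N'' : Ob k F}

/-- Pointwise injective. -/
def Inj (f : M ⟶ N) : Prop := ∀ O, Injective (f.1 O)
/-- Pointwise surjective. -/
def Surj (f : M ⟶ N) : Prop := ∀ O, Surjective (f.1 O)
/-- Pointwise bijective. -/
def Bij (f : M ⟶ N) : Prop := ∀ O, Bijective (f.1 O)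

theorem Bij.isIso {f : M ⟶ N} (h : Bij f) : IsIso f := by
  let e O := LinearEquiv.ofBijective (f.1 O) (h O)
  refine ⟨⟨fun O => (e O).symm.toLinearMap, fun O O' g => LinearMap.ext fun v => ?_⟩,
    hom_ext fun O => LinearMap.ext (e O).symm_apply_apply,
    hom_ext fun O => LinearMap.ext (e O).apply_symm_apply⟩
  obtain ⟨v, rfl⟩ := (h O).2 v
  exact (congrArg (e O').symm (Ob.nat f g v).symm).trans
    (((e O').symm_apply_apply _).trans (congrArg (M.map g) ((e O).symm_apply_apply v).symm))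

theorem Bij.of_isIso (f : M ⟶ N) [IsIso f] : Bij f := fun O =>
  bijective_iff_has_inverse.2 ⟨(inv f).1 O, fun v => congr(($(IsIso.hom_inv_id f)).1 O v),
    fun v => congr(($(IsIso.inv_hom_id f)).1 O v)⟩

theorem Bij.of_inv {f : M ⟶ N} (g : ∀ O, N.V O →ₗ[F] M.V O) (h1 : ∀ O, g O ∘ₗ f.1 O = .id)
    (h2 : ∀ O, f.1 O ∘ₗ g O = .id) : Bij f := fun O =>
  bijective_iff_has_inverse.2 ⟨g O, fun v => congr($(h1 O) v), fun v => congr($(h2 O) v)⟩

theorem Bij.comp {f : M ⟶ M'} {g : M' ⟶ M''} (hf : Bij f) (hg : Bij g) : Bij (f ≫ g) :=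
  fun O => (hg O).comp (hf O)

theorem Surj.cancel {q : M ⟶ M'} (hq : Surj q) {f g : M' ⟶ N} (h : q ≫ f = q ≫ g) : f = g :=
  hom_ext fun O => LinearMap.ext fun v => by
    obtain ⟨v, rfl⟩ := hq O v
    exact congr(($h).1 O v)

theorem Surj.desc {q : M ⟶ M'} (hq : Surj q) (f : M ⟶ N)
    (h : ∀ O v, q.1 O v = 0 → f.1 O v = 0) : ∃ g : M' ⟶ N, q ≫ g = f := by
  choose g hg using fun O => exists_desc (q.1 O) (hq O) (f.1 O) (h O)
  refine ⟨⟨g, fun O O' φ => LinearMap.ext fun v => ?_⟩, hom_ext hg⟩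
  obtain ⟨v, rfl⟩ := hq O v
  have e O v : g O (q.1 O v) = f.1 O v := congr($(hg O) v)
  simp only [LinearMap.comp_apply, ← Ob.nat, e]

theorem Inj.cancel {q : N ⟶ N'} (hq : Inj q) {f g : M ⟶ N} (h : f ≫ q = g ≫ q) : f = g :=
  hom_ext fun O => LinearMap.ext fun v => hq O congr(($h).1 O v)

theorem Inj.lift {q : N ⟶ N'} (hq : Inj q) (f : M ⟶ N')
    (h : ∀ O v, f.1 O v ∈ LinearMap.range (q.1 O)) : ∃ g : M ⟶ N, g ≫ q = f := by
  let g O := (LinearEquiv.ofInjective (q.1 O) (hq O)).symm.toLinearMap ∘ₗ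
    (f.1 O).codRestrict _ (h O)
  have e O v : q.1 O (g O v) = f.1 O v := by simp [g]
  exact ⟨⟨g, fun O O' φ => LinearMap.ext fun v => hq O' (by
    simp only [LinearMap.comp_apply, Ob.nat, e])⟩, hom_ext fun O => LinearMap.ext (e O)⟩

/-- Short exact sequences. -/
structure Ses {M₁ M₂ M₃ : Ob k F} (i : M₁ ⟶ M₂) (p : M₂ ⟶ M₃) : Prop where
  inj : Inj i
  exact : ∀ O, Exact (i.1 O) (p.1 O)
  surj : Surj p

theorem Ses.zero {M₁ M₂ M₃ : Ob k F} {i : M₁ ⟶ M₂} {p : M₂ ⟶ M₃} (T : Ses i p) : i ≫ p = 0 :=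
  hom_ext fun O => (T.exact O).linearMap_comp_eq_zero

theorem Ses.of_split {M₁ M₂ M₃ : Ob k F} {i : M₁ ⟶ M₂} {p : M₂ ⟶ M₃}
    (r : ∀ O, M₂.V O →ₗ[F] M₁.V O) (s : ∀ O, M₃.V O →ₗ[F] M₂.V O) (h0 : i ≫ p = 0)
    (h1 : ∀ O, r O ∘ₗ i.1 O = .id) (h2 : ∀ O, p.1 O ∘ₗ s O = .id)
    (h3 : ∀ O, i.1 O ∘ₗ r O + s O ∘ₗ p.1 O = .id) : Ses i p where
  inj O := LeftInverse.injective (g := r O) fun v => congr($(h1 O) v)
  surj O := RightInverse.surjective (g := s O) fun v => congr($(h2 O) v)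
  exact O v := ⟨fun h => ⟨r O v, by simpa [h] using congr($(h3 O) v)⟩,
    by rintro ⟨w, rfl⟩; exact congr(($h0).1 O w)⟩

theorem Ses.exists_split {M₁ M₂ M₃ : Ob k F} {i : M₁ ⟶ M₂} {p : M₂ ⟶ M₃} (T : Ses i p)
    (O : Aic k) : ∃ (r : M₂.V O →ₗ[F] M₁.V O) (s : M₃.V O →ₗ[F] M₂.V O), r ∘ₗ i.1 O = .id ∧
      p.1 O ∘ₗ s = .id ∧ i.1 O ∘ₗ r + s ∘ₗ p.1 O = .id := by
  obtain ⟨r, hr⟩ := (i.1 O).exists_leftInverse_of_injective (LinearMap.ker_eq_bot.2 (T.inj O))
  obtain ⟨s, hs⟩ := exists_desc (p.1 O) (T.surj O) (.id - i.1 O ∘ₗ r)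
    fun v hv => by
      obtain ⟨w, rfl⟩ := (T.exact O v).1 hv
      simp [show r (i.1 O w) = w from congr($hr w)]
  refine ⟨r, s, hr, LinearMap.ext fun v => ?_, by rw [hs]; simp⟩
  obtain ⟨v, rfl⟩ := T.surj O v
  simp [show s (p.1 O v) = v - i.1 O (r v) from congr($hs v), (T.exact O).apply_apply_eq_zero]

namespace Ob

variable (k F) in
/-- The unit object. -/
@[reducible] def one : Ob k F where
  V _ := F
  map _ := LinearMap.id
  map_id _ := rfl
  map_comp _ _ := rfl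
  fin _ _ := ⟨∅, fun _ _ _ _ => rfl⟩

/-- The tensor product. -/
@[reducible] def ten (M N : Ob k F) : Ob k F where
  V O := M.V O ⊗[F] N.V O
  map g := TensorProduct.map (M.map g) (N.map g)
  map_id O := by rw [M.map_id, N.map_id, TensorProduct.map_id]
  map_comp f g := by rw [M.map_comp, N.map_comp, TensorProduct.map_comp]
  fin O v := by
    classical
    induction v with
    | zero => exact zero_mem _
    | add _ _ h1 h2 => exact add_mem h1 h2
    | tmul a b =>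
      obtain ⟨S, hS⟩ := M.fin O a
      obtain ⟨T, hT⟩ := N.fin O b
      exact ⟨S ∪ T, fun O' f g h => by
        rw [TensorProduct.map_tmul, TensorProduct.map_tmul,
          hS O' f g fun s hs => h s (by simp [hs]), hT O' f g fun s hs => h s (by simp [hs])]⟩

/-- The tensor product of morphisms. -/
def tenMap (f : M ⟶ M') (g : N ⟶ N') : M.ten N ⟶ M'.ten N' :=
  ⟨fun O => TensorProduct.map (f.1 O) (g.1 O), fun O O' h => by
    simp only [← TensorProduct.map_comp, f.2 O O' h, g.2 O O' h]⟩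

@[simp] theorem tenMap_app (f : M ⟶ M') (g : N ⟶ N') (O : Aic k) :
    (tenMap f g).1 O = TensorProduct.map (f.1 O) (g.1 O) := rfl

@[simp] theorem tenMap_id : tenMap (𝟙 M) (𝟙 N) = 𝟙 _ := hom_ext fun _ => TensorProduct.map_id

theorem tenMap_comp (f : M ⟶ M') (f' : M' ⟶ M'') (g : N ⟶ N') (g' : N' ⟶ N'') :
    tenMap (f ≫ f') (g ≫ g') = tenMap f g ≫ tenMap f' g' :=
  hom_ext fun _ => TensorProduct.map_comp _ _ _ _

/-- Tensor product of morphisms as a bilinear map. -/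
def tenL : (M ⟶ M') →ₗ[F] (N ⟶ N') →ₗ[F] (M.ten N ⟶ M'.ten N') :=
  LinearMap.mk₂ F tenMap (fun _ _ _ => hom_ext fun _ => TensorProduct.map_add_left _ _ _)
    (fun _ _ _ => hom_ext fun _ => TensorProduct.map_smul_left _ _ _)
    (fun _ _ _ => hom_ext fun _ => TensorProduct.map_add_right _ _ _)
    (fun _ _ _ => hom_ext fun _ => TensorProduct.map_smul_right _ _ _)

@[simp] theorem tenL_apply (f : M ⟶ M') (g : N ⟶ N') : tenL f g = tenMap f g := rfl

/-- Tensor product with a fixed object. -/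
@[simps] def tenF (N : Ob k F) : Ob k F ⥤ Ob k F where
  obj M := M.ten N
  map f := tenMap f (𝟙 N)
  map_id _ := tenMap_id
  map_comp f g := by rw [← tenMap_comp, Category.comp_id]

instance (N : Ob k F) : (tenF N).Additive :=
  ⟨fun {_ _ _ _} => hom_ext fun _ => TensorProduct.map_add_left _ _ _⟩

theorem tenMap_eq (f : M ⟶ M') (g : N ⟶ N') :
    tenMap f g = tenMap f (𝟙 N) ≫ tenMap (𝟙 M') g := by simp [← tenMap_comp]

theorem tenMap_eq' (f : M ⟶ M') (g : N ⟶ N') :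
    tenMap f g = tenMap (𝟙 M) g ≫ tenMap f (𝟙 N') := by simp [← tenMap_comp]

/-- Symmetry of the tensor product. -/
def swap (M N : Ob k F) : M.ten N ⟶ N.ten M :=
  ⟨fun _ => (TensorProduct.comm F _ _).toLinearMap, fun _ _ _ => by ext; simp⟩

/-- Associativity of the tensor product. -/
def assoc (M N P : Ob k F) : M.ten (N.ten P) ⟶ (M.ten N).ten P :=
  ⟨fun _ => (TensorProduct.assoc F _ _ _).symm.toLinearMap, fun _ _ _ => by ext; simp⟩

/-- The unit of the tensor product. -/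
def rid (M : Ob k F) : M.ten (one k F) ⟶ M :=
  ⟨fun _ => (TensorProduct.rid F _).toLinearMap, fun _ _ _ => by ext; simp⟩

theorem bij_swap (M N : Ob k F) : Bij (swap M N) := fun _ => (TensorProduct.comm F _ _).bijective
theorem bij_assoc (M N P : Ob k F) : Bij (assoc M N P) :=
  fun _ => (TensorProduct.assoc F _ _ _).symm.bijective
theorem bij_rid (M : Ob k F) : Bij (rid M) := fun _ => (TensorProduct.rid F _).bijective

theorem swap_nat (f : M ⟶ M') (g : N ⟶ N') :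
    tenMap f g ≫ swap M' N' = swap M N ≫ tenMap g f := by ext; simp [swap]

theorem assoc_nat {P P' : Ob k F} (f : M ⟶ M') (g : N ⟶ N') (h : P ⟶ P') :
    tenMap f (tenMap g h) ≫ assoc M' N' P' = assoc M N P ≫ tenMap (tenMap f g) h := by
  ext; simp [assoc]

theorem rid_nat (f : M ⟶ M') : tenMap f (𝟙 _) ≫ rid M' = rid M ≫ f := by ext; simp [rid]

/-- The direct sum. -/
@[reducible] def prod (M N : Ob k F) : Ob k F where
  V O := M.V O × N.V O
  map g := (M.map g).prodMap (N.map g)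
  map_id O := by rw [M.map_id, N.map_id, LinearMap.prodMap_id]
  map_comp f g := by rw [M.map_comp, N.map_comp, LinearMap.prodMap_comp]
  fin O v := by
    classical
    obtain ⟨S, hS⟩ := M.fin O v.1
    obtain ⟨T, hT⟩ := N.fin O v.2
    exact ⟨S ∪ T, fun O' f g h => Prod.ext (hS O' f g fun s hs => h s (by simp [hs]))
      (hT O' f g fun s hs => h s (by simp [hs]))⟩

def fst (M N : Ob k F) : M.prod N ⟶ M := ⟨fun _ => .fst F _ _, fun _ _ _ => rfl⟩
def snd (M N : Ob k F) : M.prod N ⟶ N := ⟨fun _ => .snd F _ _, fun _ _ _ => rfl⟩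
def inl (M N : Ob k F) : M ⟶ M.prod N := ⟨fun _ => .inl F _ _, fun _ _ _ => by ext <;> simp⟩
def inr (M N : Ob k F) : N ⟶ M.prod N := ⟨fun _ => .inr F _ _, fun _ _ _ => by ext <;> simp⟩

@[simp] theorem fst_app (O : Aic k) : (fst M N).1 O = .fst F _ _ := rfl
@[simp] theorem snd_app (O : Aic k) : (snd M N).1 O = .snd F _ _ := rfl
@[simp] theorem inl_app (O : Aic k) : (inl M N).1 O = .inl F _ _ := rfl
@[simp] theorem inr_app (O : Aic k) : (inr M N).1 O = .inr F _ _ := rfl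

theorem ses_prod (M N : Ob k F) : Ses (inl M N) (snd M N) :=
  ⟨fun _ => LinearMap.inl_injective, fun _ => Exact.inl_snd, fun _ => LinearMap.snd_surjective⟩

theorem prod_total : fst M N ≫ inl M N + snd M N ≫ inr M N = 𝟙 _ := by ext <;> simp

/-- Subobjects. -/
structure Sub (M : Ob k F) where
  S : ∀ O, Submodule F (M.V O)
  map_mem : ∀ {O O' : Aic k} (g : O →ₐ[k] O') (v : M.V O), v ∈ S O → M.map g v ∈ S O'

/-- A subobject as an object. -/
@[reducible] def Sub.ob (P : Sub M) : Ob k F where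
  V O := P.S O
  map g := (M.map g).restrict (P.map_mem g)
  map_id O := by ext; simp [M.map_id]
  map_comp f g := by ext; simp [M.map_comp]
  fin O v := (M.fin O v.1).imp fun _ hS O' f g h => Subtype.ext (hS O' f g h)

/-- The quotient by a subobject. -/
@[reducible] def Sub.quot (P : Sub M) : Ob k F where
  V O := M.V O ⧸ P.S O
  map g := Submodule.mapQ _ _ (M.map g) (P.map_mem g)
  map_id O := by ext; simp [M.map_id]
  map_comp f g := by ext; simp [M.map_comp]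
  fin O v := by
    obtain ⟨v, rfl⟩ := Submodule.Quotient.mk_surjective _ v
    exact (M.fin O v).imp fun _ hS O' f g h => by simp [hS O' f g h]

def Sub.incl (P : Sub M) : P.ob ⟶ M := ⟨fun O => (P.S O).subtype, fun _ _ _ => rfl⟩
def Sub.proj (P : Sub M) : M ⟶ P.quot := ⟨fun O => (P.S O).mkQ, fun _ _ _ => rfl⟩

@[simp] theorem Sub.incl_app (P : Sub M) (O : Aic k) : P.incl.1 O = (P.S O).subtype := rfl
@[simp] theorem Sub.proj_app (P : Sub M) (O : Aic k) : P.proj.1 O = (P.S O).mkQ := rfl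

theorem Sub.ses (P : Sub M) : Ses P.incl P.proj :=
  ⟨fun O => (P.S O).injective_subtype, fun _ => LinearMap.exact_subtype_mkQ _,
    fun O => (P.S O).mkQ_surjective⟩

/-- The image of a morphism. -/
def range (f : M ⟶ N) : Sub N :=
  ⟨fun O => LinearMap.range (f.1 O), fun g _ ⟨w, h⟩ => ⟨M.map g w, by rw [Ob.nat, h]⟩⟩

/-- The corestriction of a morphism to a subobject. -/
def Sub.lift (P : Sub N) (f : M ⟶ N) (h : ∀ O v, f.1 O v ∈ P.S O) : M ⟶ P.ob :=
  ⟨fun O => (f.1 O).codRestrict _ (h O), fun _ _ g => LinearMap.ext fun v =>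
    Subtype.ext (Ob.nat f g v)⟩

@[simp] theorem Sub.lift_incl (P : Sub N) (f : M ⟶ N) (h : ∀ O v, f.1 O v ∈ P.S O) :
    P.lift f h ≫ P.incl = f := rfl

end Ob

theorem Ses.ten {M₁ M₂ M₃ : Ob k F} {i : M₁ ⟶ M₂} {p : M₂ ⟶ M₃} (T : Ses i p) (N : Ob k F) :
    Ses (tenMap i (𝟙 N)) (tenMap p (𝟙 N)) :=
  ⟨fun O => Module.Flat.rTensor_preserves_injective_linearMap _ (T.inj O),
    fun O => rTensor_exact _ (T.exact O) (T.surj O),
    fun O => LinearMap.rTensor_surjective _ (T.surj O)⟩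

theorem Ses.ten_left {M₁ M₂ M₃ : Ob k F} {i : M₁ ⟶ M₂} {p : M₂ ⟶ M₃} (T : Ses i p)
    (N : Ob k F) : Ses (tenMap (𝟙 N) i) (tenMap (𝟙 N) p) :=
  ⟨fun O => Module.Flat.lTensor_preserves_injective_linearMap _ (T.inj O),
    fun O => lTensor_exact _ (T.exact O) (T.surj O),
    fun O => LinearMap.lTensor_surjective _ (T.surj O)⟩

theorem Bij.ten {f : M ⟶ M'} {g : N ⟶ N'} (hf : Bij f) (hg : Bij g) : Bij (tenMap f g) :=
  fun O => TensorProduct.map_bijective (hf O) (hg O)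

/-- An idempotent splits. -/
theorem exists_split_idem (e : M ⟶ M) (he : e ≫ e = e) :
    ∃ (P : Ob k F) (s : P ⟶ M) (p : M ⟶ P), s ≫ p = 𝟙 P ∧ p ≫ s = e :=
  ⟨(range e).ob, (range e).incl, (range e).lift e fun _ v => ⟨v, rfl⟩,
    hom_ext fun O => LinearMap.ext fun ⟨_, v, rfl⟩ => Subtype.ext congr(($he).1 O v), rfl⟩

/-- The pushout of two short exact sequences. -/
theorem Ses.pushout {A B B' C C' : Ob k F} {i : A ⟶ B} {p : B ⟶ B'} {j : A ⟶ C} {q : C ⟶ C'}
    (T : Ses i p) (T' : Ses j q) : ∃ (P : Ob k F) (a : B ⟶ P) (a' : P ⟶ C') (b : C ⟶ P)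
      (b' : P ⟶ B'), Ses a a' ∧ Ses b b' := by
  let R := range (i ≫ inl B C - j ≫ inr B C)
  obtain ⟨a', ha⟩ := R.ses.surj.desc (snd B C ≫ q) fun O v hv => by
    obtain ⟨w, rfl⟩ := (Submodule.Quotient.mk_eq_zero _).1 hv
    simp [(T'.exact O).apply_apply_eq_zero]
  obtain ⟨b', hb⟩ := R.ses.surj.desc (fst B C ≫ p) fun O v hv => by
    obtain ⟨w, rfl⟩ := (Submodule.Quotient.mk_eq_zero _).1 hv
    simp [(T.exact O).apply_apply_eq_zero]
  have ha' O v : a'.1 O (R.proj.1 O v) = q.1 O v.2 := congr(($ha).1 O v)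
  have hb' O v : b'.1 O (R.proj.1 O v) = p.1 O v.1 := congr(($hb).1 O v)
  have h0 O v : R.proj.1 O v = 0 ↔ ∃ w, (i.1 O w, -j.1 O w) = v :=
    (Submodule.Quotient.mk_eq_zero _).trans (exists_congr fun w => by simp)
  refine ⟨R.quot, inl B C ≫ R.proj, a', inr B C ≫ R.proj, b', ⟨fun O => ?_, fun O v => ?_,
    fun O v => ?_⟩, ⟨fun O => ?_, fun O v => ?_, fun O v => ?_⟩⟩
  · rw [injective_iff_map_eq_zero]
    intro v hv
    obtain ⟨w, hw⟩ := (h0 O _).1 hv
    have h1 : w = 0 := T'.inj O (by simpa using congr(($hw).2))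
    simpa [h1] using congr(($hw).1).symm
  · obtain ⟨⟨b, c⟩, rfl⟩ := R.ses.surj O v
    rw [ha', T'.exact O]
    constructor
    · rintro ⟨w, rfl⟩
      exact ⟨b + i.1 O w, sub_eq_zero.1 ((map_sub (R.proj.1 O) _ _).symm.trans
        ((h0 O _).2 ⟨w, by simp⟩))⟩
    · rintro ⟨b', h⟩
      obtain ⟨w, hw⟩ := (h0 O _).1 ((map_sub (R.proj.1 O) _ _).trans (sub_eq_zero.2 h))
      exact ⟨w, by simpa using congr(($hw).2)⟩
  · obtain ⟨c, rfl⟩ := T'.surj O v
    exact ⟨_, ha' O (0, c)⟩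
  · rw [injective_iff_map_eq_zero]
    intro v hv
    obtain ⟨w, hw⟩ := (h0 O _).1 hv
    have h1 : w = 0 := T.inj O (by simpa using congr(($hw).1))
    simpa [h1] using congr(($hw).2).symm
  · obtain ⟨⟨b, c⟩, rfl⟩ := R.ses.surj O v
    rw [hb', T.exact O]
    constructor
    · rintro ⟨w, rfl⟩
      exact ⟨c + j.1 O w, sub_eq_zero.1 ((map_sub (R.proj.1 O) _ _).symm.trans
        ((h0 O _).2 ⟨-w, by simp⟩))⟩
    · rintro ⟨b', h⟩
      obtain ⟨w, hw⟩ := (h0 O _).1 ((map_sub (R.proj.1 O) _ _).trans (sub_eq_zero.2 h))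
      exact ⟨-w, by simpa using congr(-($hw).1)⟩
  · obtain ⟨c, rfl⟩ := T.surj O v
    exact ⟨_, hb' O (c, 0)⟩

end

end Pool.Agent.Lib.MP_fc2ced_ag.E
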