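import Pool.Agent.Lib.MP_fc2ced_ag.EOb

/-! Tensor powers, and the objects given by conditions on the points of a functor to sets. -/

open CategoryTheory Function
open PiTensorProduct hiding tprod
open PiTensorProduct renaming tprod → tp
open scoped TensorProduct

namespace Pool.Agent.Lib.MP_fc2ced_ag.E

noncomputable section

variable {k : Type} [Field k] {F : Type} [Field F]

theorem bij_of_basis {V W ι κ : Type} [AddCommGroup V] [Module F V] [AddCommGroup W] [Module F W]
    (b : Module.Basis ι F V) (b' : Module.Basis κ F W) (e : ι ≃ κ) (f : V →ₗ[F] W)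
    (h : ∀ i, f (b i) = b' (e i)) : Bijective f := by
  have : f = (b.equiv b' e).toLinearMap := b.ext fun i => by simp [h]
  rw [this]; exact (b.equiv b' e).bijective

attribute [local ext] PiTensorProduct.ext

namespace Ob

variable {M M' M'' N N' N'' : Ob k F} {α β γ : Type} [Finite α] [Finite β] [Finite γ]

/-- The tensor power. -/
@[reducible] def pow (M : Ob k F) (α : Type) [Finite α] : Ob k F where
  V O := ⨂[F] _ : α, M.V O
  map g := PiTensorProduct.map fun _ => M.map g
  map_id O := by rw [M.map_id, PiTensorProduct.map_id]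
  map_comp f g := by rw [M.map_comp, PiTensorProduct.map_comp]
  fin O v := by
    classical
    have := Fintype.ofFinite α
    induction v using PiTensorProduct.induction_on with
    | add _ _ h1 h2 => exact add_mem h1 h2
    | smul_tprod c m =>
      choose S hS using fun a => M.fin O (m a)
      refine Submodule.smul_mem _ _ ⟨Finset.univ.biUnion S, fun O' f g h => ?_⟩
      rw [map_tprod, map_tprod]
      congr 1
      exact funext fun a => hS a O' f g fun s hs =>
        h s (Finset.mem_biUnion.2 ⟨a, Finset.mem_univ _, hs⟩)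

/-- The tensor product of a family of morphisms. -/
def powMap (g : α → (M ⟶ N)) : M.pow α ⟶ N.pow α :=
  ⟨fun O => PiTensorProduct.map fun a => (g a).1 O, fun O O' h => by
    ext; simp [Ob.nat]⟩

@[simp] theorem powMap_app (g : α → (M ⟶ N)) (O : Aic k) :
    (powMap g).1 O = PiTensorProduct.map fun a => (g a).1 O := rfl

@[simp] theorem powMap_id : powMap (fun _ : α => 𝟙 M) = 𝟙 _ := by ext; simp

theorem powMap_comp (f : α → (M ⟶ M')) (g : α → (M' ⟶ M'')) :
    powMap f ≫ powMap g = powMap fun a => f a ≫ g a := by ext; simp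

theorem powMap_zero (g : α → (M ⟶ N)) {a : α} (h : g a = 0) : powMap g = 0 := by
  ext O m
  simpa using (tp F).map_coord_zero (m := fun a => (g a).1 O (m a)) a (by simp [h])

theorem powMap_add [Fintype α] [DecidableEq α] (f g : α → (M ⟶ N)) :
    powMap (f + g) = ∑ S : Finset α, powMap (S.piecewise f g) := by
  ext O m
  have := (tp F).map_add_univ (fun a => (f a).1 O (m a)) fun a => (g a).1 O (m a)
  simp only [powMap_app, Pi.add_apply, add_app, LinearMap.compMultilinearMap_apply, map_tprod,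
    LinearMap.add_apply, sum_app, LinearMap.sum_apply]
  refine this.trans (Finset.sum_congr rfl fun S _ => congrArg _ (funext fun a => ?_))
  by_cases h : a ∈ S <;> simp [h]

/-- Reindexing of tensor powers. -/
def reidx (M : Ob k F) (e : α ≃ β) : M.pow α ⟶ M.pow β :=
  ⟨fun O => (reindex F (fun _ => M.V O) e).toLinearMap, fun O O' h => by ext; simp⟩

@[simp] theorem reidx_app (e : α ≃ β) (O : Aic k) :
    (reidx M e).1 O = (reindex F (fun _ => M.V O) e).toLinearMap := rfl

theorem reidx_tprod (e : α ≃ β) (O : Aic k) (m : α → M.V O) :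
    (reidx M e).1 O (tp F m) = tp F fun b => m (e.symm b) := reindex_tprod e m

theorem bij_reidx (e : α ≃ β) : Bij (reidx M e) :=
  fun O => (reindex F (fun _ => M.V O) e).bijective

theorem reidx_comp (e : α ≃ β) (e' : β ≃ γ) : reidx M e ≫ reidx M e' = reidx M (e.trans e') := by
  ext; simp

theorem reidx_mul (σ τ : Equiv.Perm α) : reidx M (σ * τ) = reidx M τ ≫ reidx M σ :=
  (reidx_comp _ _).symm

@[simp] theorem reidx_one : reidx M (1 : Equiv.Perm α) = 𝟙 _ := by
  ext; simp [Equiv.Perm.one_def]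

theorem reidx_nat (e : α ≃ β) (g : β → (M ⟶ N)) :
    reidx M e ≫ powMap g = powMap (fun a => g (e a)) ≫ reidx N e := by ext; simp

/-- A tensor power indexed by a disjoint union. -/
def sumHom (M : Ob k F) (e : α ⊕ β ≃ γ) : (M.pow α).ten (M.pow β) ⟶ M.pow γ :=
  (⟨fun O => (tmulEquiv F (M.V O)).toLinearMap, fun O O' h => by
    ext a b
    simp only [LinearMap.compMultilinearMap_apply, TensorProduct.AlgebraTensorModule.curry_apply,
      LinearMap.restrictScalars_self, TensorProduct.curry_apply, LinearMap.comp_apply,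
      TensorProduct.map_tmul, map_tprod, LinearEquiv.coe_coe, tmulEquiv_apply]
    congr 1; ext (_ | _) <;> rfl⟩ : _ ⟶ M.pow (α ⊕ β)) ≫ reidx M e

theorem sumHom_app (e : α ⊕ β ≃ γ) (O : Aic k) : (sumHom M e).1 O =
    (reindex F (fun _ => M.V O) e).toLinearMap ∘ₗ (tmulEquiv F (M.V O)).toLinearMap := rfl

theorem sumHom_tprod (e : α ⊕ β ≃ γ) (O : Aic k) (a : α → M.V O) (b : β → M.V O) :
    (sumHom M e).1 O (tp F a ⊗ₜ tp F b) = tp F fun c => Sum.elim a b (e.symm c) := by
  simp [sumHom]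

theorem bij_sumHom (e : α ⊕ β ≃ γ) : Bij (sumHom M e) :=
  Bij.comp (fun O => (tmulEquiv F (M.V O)).bijective) (bij_reidx e)

theorem sumHom_nat (e : α ⊕ β ≃ γ) (g : γ → (M ⟶ N)) :
    sumHom M e ≫ powMap g = tenMap (powMap fun a => g (e (.inl a)))
      (powMap fun b => g (e (.inr b))) ≫ sumHom N e := by
  ext O a b
  simp only [comp_app, LinearMap.compMultilinearMap_apply, LinearMap.restrictScalars_self,
    TensorProduct.AlgebraTensorModule.curry_apply, TensorProduct.curry_apply, LinearMap.comp_apply,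
    sumHom_app, powMap_app, map_tprod, tenMap_app, TensorProduct.map_tmul, LinearEquiv.coe_coe,
    tmulEquiv_apply, reindex_tprod]
  congr 1; ext c
  obtain ⟨c | c, rfl⟩ := e.surjective c <;> simp

theorem sumHom_reidx (e : α ⊕ β ≃ γ) (σ : Equiv.Perm α) (τ : Equiv.Perm β) :
    tenMap (reidx M σ) (reidx M τ) ≫ sumHom M e =
      sumHom M e ≫ reidx M (e.permCongr (σ.sumCongr τ)) := by
  ext O a b
  simp only [comp_app, LinearMap.compMultilinearMap_apply, LinearMap.restrictScalars_self,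
    TensorProduct.AlgebraTensorModule.curry_apply, TensorProduct.curry_apply, LinearMap.comp_apply,
    sumHom_app, tenMap_app, TensorProduct.map_tmul, reidx_app, LinearEquiv.coe_coe,
    tmulEquiv_apply, reindex_tprod]
  congr 1; ext c
  obtain ⟨c | c, rfl⟩ := e.surjective c <;> simp [Equiv.permCongr_def]

/-- The first tensor power. -/
def oneHom (M : Ob k F) (α : Type) [Unique α] : M.pow α ⟶ M :=
  ⟨fun O => (subsingletonEquiv (s := fun _ => M.V O) default).toLinearMap, fun O O' h => by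
    ext; simp⟩

theorem bij_oneHom (α : Type) [Unique α] : Bij (oneHom M α) :=
  fun O => (subsingletonEquiv (s := fun _ => M.V O) default).bijective

theorem oneHom_nat (α : Type) [Unique α] (f : M ⟶ N) :
    powMap (fun _ => f) ≫ oneHom N α = oneHom M α ≫ f := by ext; simp [oneHom]

/-- The empty tensor power. -/
def emptyHom (M : Ob k F) (α : Type) [IsEmpty α] : M.pow α ⟶ one k F :=
  ⟨fun O => (isEmptyEquiv α (s := fun _ => M.V O)).toLinearMap, fun O O' h => by ext; simp⟩

theorem bij_emptyHom (α : Type) [IsEmpty α] : Bij (emptyHom M α) :=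
  fun O => (isEmptyEquiv α (s := fun _ => M.V O)).bijective

theorem emptyHom_nat (α : Type) [IsEmpty α] (f : α → (M ⟶ N)) :
    powMap f ≫ emptyHom N α = emptyHom M α := by ext; simp [emptyHom]

/-- Tensor powers of a tensor product. -/
def tenPow (M N : Ob k F) (α : Type) [Finite α] : (M.pow α).ten (N.pow α) ⟶ (M.ten N).pow α :=
  ⟨fun O => TensorProduct.lift (map₂ fun _ => TensorProduct.mk F (M.V O) (N.V O)),
    fun O O' h => by ext; simp [map₂_tprod_tprod]⟩

@[simp] theorem tenPow_app (O : Aic k) : (tenPow M N α).1 O =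
    TensorProduct.lift (map₂ fun _ => TensorProduct.mk F (M.V O) (N.V O)) := rfl

theorem tenPow_tprod (O : Aic k) (a : α → M.V O) (b : α → N.V O) :
    (tenPow M N α).1 O (tp F a ⊗ₜ tp F b) = tp F fun c => a c ⊗ₜ b c := by
  simp [tenPow, map₂_tprod_tprod]

theorem bij_tenPow : Bij (tenPow M N α) := fun O =>
  bij_of_basis ((Basis.piTensorProduct fun _ => Module.Basis.ofVectorSpace F (M.V O)).tensorProduct
    (Basis.piTensorProduct fun _ => Module.Basis.ofVectorSpace F (N.V O)))
    (Basis.piTensorProduct fun _ => (Module.Basis.ofVectorSpace F (M.V O)).tensorProduct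
      (Module.Basis.ofVectorSpace F (N.V O))) (Equiv.arrowProdEquivProdArrow _ _ _).symm _
    fun ⟨a, b⟩ => by
      simp [Module.Basis.tensorProduct_apply, Equiv.arrowProdEquivProdArrow, map₂_tprod_tprod]

theorem tenPow_reidx (σ : Equiv.Perm α) :
    tenMap (reidx M σ) (reidx N σ) ≫ tenPow M N α = tenPow M N α ≫ reidx _ σ := by
  ext; simp [map₂_tprod_tprod]

end Ob

open Ob

variable (k) in
/-- Finitely supported functors to sets. -/
structure Fn where
  X : Aic k → Type
  map : ∀ {O O' : Aic k}, (O →ₐ[k] O') → X O → X O'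
  map_id : ∀ (O : Aic k) (x : X O), map (AlgHom.id k O) x = x
  map_comp : ∀ {O O' O'' : Aic k} (f : O →ₐ[k] O') (g : O' →ₐ[k] O'') (x : X O),
    map (g.comp f) x = map g (map f x)
  fin : ∀ (O : Aic k) (x : X O), ∃ S : Finset O, ∀ (O' : Aic k) (f g : O →ₐ[k] O'),
    (∀ s ∈ S, f s = g s) → map f x = map g x

/-- A condition on points. -/
abbrev Fn.Cond (X : Fn k) := ∀ ⦃O : Aic k⦄, X.X O → Prop

/-- Conditions on points, stable under change of the ring of values. -/
def Fn.Stab (X : Fn k) (P : X.Cond) : Prop :=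
  ∀ ⦃O O' : Aic k⦄ (g : O →ₐ[k] O') (x : X.X O), P x → P (X.map g x)

/-- Pairs of stable conditions. -/
structure Pair (X : Fn k) where
  N : X.Cond
  D : X.Cond
  sN : X.Stab N
  sD : X.Stab D

namespace Pair

variable {X X' : Fn k} (P : Pair X) (P' : Pair X')

/-- The points that count. -/
abbrev Live (O : Aic k) := {x : X.X O // P.N x ∧ ¬ P.D x}

open Classical in
variable (F) in
/-- The class of a point. -/
def cl {O : Aic k} (x : X.X O) : P.Live O →₀ F :=
  if h : P.N x ∧ ¬ P.D x then Finsupp.single ⟨x, h⟩ 1 else 0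

theorem cl_live {O : Aic k} (x : P.Live O) : P.cl F x.1 = Finsupp.single x 1 := dif_pos x.2

theorem cl_dead {O : Aic k} {x : X.X O} (h : P.D x) : P.cl F x = 0 := dif_neg fun h' => h'.2 h

/-- Linear maps given by their values on points. -/
@[irreducible] def lf {O : Aic k} {W : Type} [AddCommGroup W] [Module F W] (c : X.X O → W) :
    (P.Live O →₀ F) →ₗ[F] W := Finsupp.linearCombination F fun x => c x.1

variable {P} in
theorem lf_cl {O : Aic k} {W : Type} [AddCommGroup W] [Module F W] {c : X.X O → W} {x : X.X O}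
    (h : P.N x) (hd : P.D x → c x = 0) : P.lf c (P.cl F x) = c x := by
  by_cases h' : P.D x
  · rw [P.cl_dead h', map_zero, hd h']
  · rw [P.cl_live ⟨x, h, h'⟩]; simp [lf]

variable {P} in
theorem lin_ext {O : Aic k} {W : Type} [AddCommGroup W] [Module F W]
    {f g : (P.Live O →₀ F) →ₗ[F] W}
    (h : ∀ x, P.N x → ¬ P.D x → f (P.cl F x) = g (P.cl F x)) : f = g :=
  Finsupp.lhom_ext' fun x => LinearMap.ext_ring (by simpa [← cl_live] using h x.1 x.2.1 x.2.2)

variable (F) in
/-- The span of the points satisfying `N` modulo those satisfying also `D`. -/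
@[reducible] def ob : Ob k F where
  V O := P.Live O →₀ F
  map g := P.lf fun x => P.cl F (X.map g x)
  map_id O := lin_ext fun x h _ => by
    rw [lf_cl h fun h' => P.cl_dead (P.sD _ _ h'), X.map_id]; rfl
  map_comp f g := lin_ext fun x h _ => by
    rw [LinearMap.comp_apply, lf_cl h fun h' => P.cl_dead (P.sD _ _ h'),
      lf_cl h fun h' => P.cl_dead (P.sD _ _ h'),
      lf_cl (P.sN _ _ h) fun h' => P.cl_dead (P.sD _ _ h'), X.map_comp]
  fin O v := by
    induction v using Finsupp.induction_linear with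
    | zero => exact zero_mem _
    | add _ _ h1 h2 => exact add_mem h1 h2
    | single x c =>
      rw [← Finsupp.smul_single_one, ← cl_live]
      exact Submodule.smul_mem _ _ ((X.fin O x.1).imp fun _ hS O' f g h => by
        rw [lf_cl x.2.1 fun h' => (x.2.2 h').elim, lf_cl x.2.1 fun h' => (x.2.2 h').elim,
          hS O' f g h])

variable {P P'}

theorem map_cl {O O' : Aic k} (g : O →ₐ[k] O') {x : X.X O} (h : P.N x) :
    (P.ob F).map g (P.cl F x) = P.cl F (X.map g x) :=
  lf_cl (c := fun x => P.cl F (X.map g x)) h fun h' => P.cl_dead (P.sD _ _ h')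

theorem hom_ext {M : Ob k F} {f g : P.ob F ⟶ M}
    (h : ∀ (O : Aic k) (x : X.X O), P.N x → ¬ P.D x → f.1 O (P.cl F x) = g.1 O (P.cl F x)) :
    f = g := Ob.hom_ext fun O => lin_ext (h O)

/-- Morphisms given by their values on points. -/
structure IsLift (P : Pair X) (M : Ob k F) (c : ∀ ⦃O⦄, X.X O → M.V O) : Prop where
  dead : ∀ ⦃O⦄ (x : X.X O), P.N x → P.D x → c x = 0
  nat : ∀ ⦃O O' : Aic k⦄ (g : O →ₐ[k] O') (x : X.X O), P.N x → M.map g (c x) = c (X.map g x)

/-- The morphism given by its values on points. -/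
def IsLift.hom {M : Ob k F} {c : ∀ ⦃O⦄, X.X O → M.V O} (h : IsLift P M c) : P.ob F ⟶ M :=
  ⟨fun O => P.lf (@c O), fun O O' g => lin_ext fun x hx _ => by
    rw [LinearMap.comp_apply, LinearMap.comp_apply, map_cl g hx, lf_cl hx (h.dead x hx),
      lf_cl (P.sN _ _ hx) (h.dead _ (P.sN _ _ hx)), h.nat g x hx]⟩

theorem IsLift.hom_cl {M : Ob k F} {c : ∀ ⦃O⦄, X.X O → M.V O} (h : IsLift P M c) {O : Aic k}
    {x : X.X O} (hx : P.N x) : h.hom.1 O (P.cl F x) = c x := lf_cl hx (h.dead x hx)

/-- Maps of pairs. -/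
structure IsMap (P : Pair X) (P' : Pair X') (e : ∀ ⦃O⦄, X.X O → X'.X O) : Prop where
  nat : ∀ ⦃O O' : Aic k⦄ (g : O →ₐ[k] O') (x : X.X O), P.N x → X'.map g (e x) = e (X.map g x)
  n : ∀ ⦃O⦄ (x : X.X O), P.N x → P'.N (e x)
  d : ∀ ⦃O⦄ (x : X.X O), P.N x → P.D x → P'.D (e x)

variable {e : ∀ ⦃O⦄, X.X O → X'.X O}

variable (F) in
theorem IsMap.isLift (h : IsMap P P' e) : IsLift P (P'.ob F) fun _ x => P'.cl F (e x) :=
  ⟨fun _ x h1 h2 => P'.cl_dead (h.d x h1 h2), fun _ _ g x h1 => by
    rw [map_cl g (h.n x h1), h.nat g x h1]⟩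

variable (F) in
/-- The morphism given by a map of pairs. -/
def IsMap.hom (h : IsMap P P' e) : P.ob F ⟶ P'.ob F := (h.isLift F).hom

theorem IsMap.hom_cl (h : IsMap P P' e) {O : Aic k} {x : X.X O} (hx : P.N x) :
    (h.hom F).1 O (P.cl F x) = P'.cl F (e x) := (h.isLift F).hom_cl hx

theorem IsMap.bij (h : IsMap P P' e)
    (d : ∀ ⦃O⦄ (x : X.X O), P.N x → P'.D (e x) → P.D x)
    (inj : ∀ ⦃O⦄ (x x' : X.X O), P.N x → ¬ P.D x → P.N x' → ¬ P.D x' → e x = e x' → x = x')
    (surj : ∀ ⦃O⦄ (y : X'.X O), P'.N y → ¬ P'.D y → ∃ x, P.N x ∧ e x = y) : Bij (h.hom F) :=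
  fun O => bij_of_basis Finsupp.basisSingleOne Finsupp.basisSingleOne
    (Equiv.ofBijective (fun x : P.Live O =>
      (⟨e x.1, h.n _ x.2.1, fun h' => x.2.2 (d _ x.2.1 h')⟩ : P'.Live O))
      ⟨fun x x' h' => Subtype.ext (inj _ _ x.2.1 x.2.2 x'.2.1 x'.2.2 congr(($h').1)), fun y => by
        obtain ⟨x, h1, h2⟩ := surj y.1 y.2.1 y.2.2
        exact ⟨⟨x, h1, fun h' => y.2.2 (h2 ▸ h.d x h1 h')⟩, Subtype.ext h2⟩⟩) _ fun x => by
    simp only [Finsupp.coe_basisSingleOne, ← cl_live, h.hom_cl x.2.1, Equiv.ofBijective_apply]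

theorem isMap_id {P P' : Pair X} (n : ∀ ⦃O⦄ (x : X.X O), P.N x → P'.N x)
    (d : ∀ ⦃O⦄ (x : X.X O), P.N x → P.D x → P'.D x) : IsMap P P' fun _ x => x :=
  ⟨fun _ _ _ _ _ => rfl, n, d⟩

/-- The short exact sequence given by three pairs of conditions. -/
theorem ses {P₁ P₂ P₃ : Pair X} (h₁ : IsMap P₁ P₂ fun _ x => x) (h₂ : IsMap P₂ P₃ fun _ x => x)
    (d₁ : ∀ ⦃O⦄ (x : X.X O), P₁.N x → P₂.D x → P₁.D x)
    (d₂ : ∀ ⦃O⦄ (x : X.X O), P₂.N x → (P₃.D x ↔ P₂.D x ∨ P₁.N x))
    (surj : ∀ ⦃O⦄ (x : X.X O), P₃.N x → ¬ P₃.D x → P₂.N x) : Ses (h₁.hom F) (h₂.hom F) := by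
  refine Ses.of_split (fun O => P₂.lf fun x => P₁.cl F x) (fun O => P₃.lf fun x => P₂.cl F x)
    (hom_ext fun O x h _ => ?_) (fun O => lin_ext fun x h _ => ?_)
    (fun O => lin_ext fun x h h' => ?_) fun O => lin_ext fun x h h' => ?_
  · rw [Ob.comp_apply, h₁.hom_cl h, h₂.hom_cl (h₁.n x h), P₃.cl_dead ((d₂ x (h₁.n x h)).2 (.inr h))]
    rfl
  · rw [LinearMap.comp_apply, h₁.hom_cl h, lf_cl (h₁.n x h) fun h' => P₁.cl_dead (d₁ x h h')]
    rfl
  · rw [LinearMap.comp_apply, lf_cl h fun h'' => (h' h'').elim, h₂.hom_cl (surj x h h')]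
    rfl
  · rw [LinearMap.add_apply, LinearMap.comp_apply, LinearMap.comp_apply,
      lf_cl h fun h'' => (h' h'').elim, h₂.hom_cl h]
    by_cases h1 : P₁.N x
    · rw [h₁.hom_cl h1, P₃.cl_dead ((d₂ x h).2 (.inr h1)), map_zero, add_zero]; rfl
    · rw [show P₁.cl F x = 0 from dif_neg fun h => h1 h.1, map_zero, zero_add,
        lf_cl (h₂.n x h) fun h3 => (((d₂ x h).1 h3).elim h' h1).elim]
      rfl

end Pair

/-- The product of functors to sets. -/
@[reducible] def Fn.prod (X Y : Fn k) : Fn k where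
  X O := X.X O × Y.X O
  map g x := (X.map g x.1, Y.map g x.2)
  map_id O x := by rw [X.map_id, Y.map_id]
  map_comp f g x := by rw [X.map_comp, Y.map_comp]
  fin O x := by
    classical
    obtain ⟨S, hS⟩ := X.fin O x.1
    obtain ⟨T, hT⟩ := Y.fin O x.2
    exact ⟨S ∪ T, fun O' f g h => Prod.ext (hS O' f g fun s hs => h s (by simp [hs]))
      (hT O' f g fun s hs => h s (by simp [hs]))⟩

/-- The power of a functor to sets. -/
@[reducible] def Fn.pi (X : Fn k) (α : Type) [Finite α] : Fn k where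
  X O := α → X.X O
  map g x a := X.map g (x a)
  map_id O x := funext fun a => X.map_id O (x a)
  map_comp f g x := funext fun a => X.map_comp f g (x a)
  fin O x := by
    classical
    have := Fintype.ofFinite α
    choose S hS using fun a => X.fin O (x a)
    exact ⟨Finset.univ.biUnion S, fun O' f g h => funext fun a => hS a O' f g fun s hs =>
      h s (Finset.mem_biUnion.2 ⟨a, Finset.mem_univ _, hs⟩)⟩

namespace Pair

variable {X X' : Fn k}

/-- The product of pairs. -/
@[reducible] def prod (P : Pair X) (P' : Pair X') : Pair (X.prod X') where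
  N _ x := P.N x.1 ∧ P'.N x.2
  D _ x := P.D x.1 ∨ P'.D x.2
  sN _ _ g _ h := ⟨P.sN g _ h.1, P'.sN g _ h.2⟩
  sD _ _ g _ h := h.imp (P.sD g _) (P'.sD g _)

/-- The power of a pair. -/
@[reducible] def pi (P : Pair X) (α : Type) [Finite α] : Pair (X.pi α) where
  N _ x := ∀ a, P.N (x a)
  D _ x := ∃ a, P.D (x a)
  sN _ _ g _ h a := P.sN g _ (h a)
  sD _ _ g _ h := h.imp fun _ => P.sD g _

variable (F) in
theorem isLift_ten (P : Pair X) (P' : Pair X') : IsLift (P.prod P') ((P.ob F).ten (P'.ob F))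
    fun _ x => P.cl F x.1 ⊗ₜ P'.cl F x.2 :=
  ⟨fun _ x _ h => h.elim (fun h => by rw [P.cl_dead h, TensorProduct.zero_tmul])
    fun h => by rw [P'.cl_dead h, TensorProduct.tmul_zero], fun _ _ g x h => by
      rw [TensorProduct.map_tmul, map_cl g h.1, map_cl g h.2]⟩

theorem bij_ten (P : Pair X) (P' : Pair X') : Bij (isLift_ten F P P').hom := fun O =>
  bij_of_basis Finsupp.basisSingleOne (Finsupp.basisSingleOne.tensorProduct Finsupp.basisSingleOne)
    (⟨fun x => (⟨x.1.1, x.2.1.1, fun h => x.2.2 (.inl h)⟩, ⟨x.1.2, x.2.1.2, fun h => x.2.2 (.inr h)⟩),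
      fun y => ⟨(y.1.1, y.2.1), ⟨y.1.2.1, y.2.2.1⟩, fun h => h.elim y.1.2.2 y.2.2.2⟩,
      fun _ => rfl, fun _ => rfl⟩ : (P.prod P').Live O ≃ P.Live O × P'.Live O) _ fun x => by
    simp only [Finsupp.coe_basisSingleOne, ← cl_live, (isLift_ten F P P').hom_cl x.2.1,
      Equiv.coe_fn_mk, Module.Basis.tensorProduct_apply]

variable (F) in
theorem isLift_pow (P : Pair X) (α : Type) [Finite α] : IsLift (P.pi α) ((P.ob F).pow α)
    fun _ x => tp F fun a => P.cl F (x a) :=
  ⟨fun _ x _ ⟨a, h⟩ => (tp F).map_coord_zero a (P.cl_dead h), fun _ _ g x h => by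
    rw [map_tprod]; exact congrArg _ (funext fun a => map_cl g (h a))⟩

theorem bij_pow (P : Pair X) (α : Type) [Finite α] : Bij (isLift_pow F P α).hom := fun O =>
  bij_of_basis Finsupp.basisSingleOne (Basis.piTensorProduct fun _ => Finsupp.basisSingleOne)
    (⟨fun x a => ⟨x.1 a, x.2.1 a, fun h => x.2.2 ⟨a, h⟩⟩,
      fun y => ⟨fun a => (y a).1, fun a => (y a).2.1, fun ⟨a, h⟩ => (y a).2.2 h⟩,
      fun _ => rfl, fun _ => rfl⟩ : (P.pi α).Live O ≃ (α → P.Live O)) _ fun x => by
    simp only [Finsupp.coe_basisSingleOne, ← cl_live, (isLift_pow F P α).hom_cl x.2.1,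
      Equiv.coe_fn_mk, Basis.piTensorProduct_apply]

end Pair

end

end Pool.Agent.Lib.MP_fc2ced_ag.E
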