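import Pool.Agent.Lib.MP_fc2ced_ag.ELine
import Pool.Agent.Lib.MP_fc2ced_ag.ELang

-- part Pool.Agent.Lib.MP_fc2ced_ag.EGood
section

/-! Constructible Schur-finite objects form a thick tensor subcategory; untwisting. -/

open CategoryTheory Function

namespace Pool.Agent.Lib.MP_fc2ced_ag.E

noncomputable section

variable {k : Type} [Field k] {F : Type} [Field F]

open Ob

variable {M M' N W : Ob k F}

theorem Sg.sf (h : Sg W) : SF W := by
  classical
  obtain ⟨c, -, hc⟩ := h (Fin 2) (Equiv.swap 0 1)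
  have hs : Equiv.swap (0 : Fin 2) 1 ≠ 1 := by decide
  refine ⟨2, Pi.single (Equiv.swap 0 1) 1 - Pi.single 1 c, fun h => ?_, ?_⟩
  · simpa [hs] using congrFun h (Equiv.swap 0 1)
  · have e : act W (Pi.single (Equiv.swap (0 : Fin 2) 1) 1 - Pi.single 1 c) =
        reidx W (Equiv.swap 0 1) - c • 𝟙 _ := by
      simp [act, sub_smul, Finset.sum_sub_distrib, Pi.single_apply]
    rwa [e]

/-- Removing a twist on which permutations act by scalars. -/
theorem SF.untwist (hW : Sg W) (cM : Con M) (cW : Con W) (h : SF (M.ten W)) :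
    ∃ (d : ℕ) (r : Equiv.Perm (Fin d) → F), 0 < d ∧ r ≠ 0 ∧
      Null (tenMap (act M r) (𝟙 (W.pow (Fin d)))) := by
  obtain ⟨d, r, hd, hr, h⟩ := h.exists_pos (cM.ten cW)
  choose c hc h' using hW (Fin d)
  refine ⟨d, fun σ => r σ * c σ, hd, fun h0 => hr (funext fun σ =>
    (mul_eq_zero.1 (congrFun h0 σ)).resolve_right (hc σ)), ?_⟩
  have h1 : Null (∑ σ, r σ • tenMap (reidx M σ) (reidx W σ)) := by
    refine .of_comp_uiso bij_tenPow.uiso ?_
    simpa only [act, Preadditive.sum_comp, Preadditive.comp_sum, Linear.smul_comp,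
      Linear.comp_smul, tenPow_reidx] using h.precomp (tenPow M W (Fin d))
  have h2 := Null.sum (s := Finset.univ) fun σ _ =>
    ((h' σ).ten₂ (reidx M σ) (cM.pow _)).smul (r σ)
  have e : tenMap (act M fun σ => r σ * c σ) (𝟙 (W.pow (Fin d))) =
      ∑ σ, r σ • tenMap (reidx M σ) (reidx W σ) -
        ∑ σ, r σ • tenMap (reidx M σ) (reidx W σ - c σ • 𝟙 _) := by
    simp only [act, ← tenL_apply, map_sum, map_smul, map_sub, LinearMap.sum_apply,
      LinearMap.smul_apply, ← Finset.sum_sub_distrib, smul_sub, sub_sub_cancel, smul_smul]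
  rw [e]
  exact h1.sub h2

theorem SF.desusp (cM : Con M) (h : SF (M.ten ((sP k).ob F))) : SF M := by
  obtain ⟨d, r, -, hr, h⟩ := h.untwist sg_sP cM con_sP
  exact ⟨d, r, hr, h.desusp (cM.pow _) _⟩

/-- Constructible and Schur-finite. -/
structure Good (M : Ob k F) : Prop where
  con : Con M
  sf : SF M

namespace Good

theorem of_uzero (h : UZero M) : Good M := ⟨.of_uzero h, .of_uzero h⟩

theorem uiso_iff {f : M ⟶ N} (hf : UIso f) : Good M ↔ Good N :=
  ⟨fun h => ⟨(Con.uiso_iff hf).1 h.1, (SF.uiso_iff hf h.1).1 h.2⟩, fun h =>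
    have := (Con.uiso_iff hf).2 h.1; ⟨this, (SF.uiso_iff hf this).2 h.2⟩⟩

theorem of_eqv (h : Eqv M N) (h' : Good N) : Good M :=
  h.elim fun _ hf => (uiso_iff hf.uiso).2 h'

theorem retract (h : Good M) {s : M' ⟶ M} {p : M ⟶ M'} (e : UIso (s ≫ p)) : Good M' :=
  ⟨h.1.retract e, h.2.retract (h.1.retract e) e⟩

protected theorem ten (h : Good M) (h' : Good N) : Good (M.ten N) :=
  ⟨h.1.ten h'.1, .ten h.1 h'.1 h.2 h'.2⟩

protected theorem prod (h : Good M) (h' : Good N) : Good (M.prod N) :=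
  ⟨h.1.prod h'.1, .prod h.1 h'.1 h.2 h'.2⟩

protected theorem one : Good (one k F) := ⟨.one, Sg.one.sf⟩

protected theorem pow (h : Good M) (α : Type) [Finite α] : Good (M.pow α) :=
  pow_induction (fun _ _ => of_eqv) .one (fun _ h' => h'.ten h) α

theorem sP : Good ((sP k).ob F) := ⟨con_sP, sg_sP.sf⟩

theorem gP : Good ((gP k).ob F) := ⟨con_gP, sg_gP.sf⟩

/-- A finite sum of retracts. -/
theorem of_sum {J : Type} [Fintype J] {P : J → Ob k F} (h : ∀ j, Good (P j))
    (p : ∀ j, M ⟶ P j) (s : ∀ j, P j ⟶ M) (e : UIso (∑ j, p j ≫ s j)) : Good M := by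
  classical
  suffices H : ∀ S : Finset J, ∃ (N : Ob k F) (a : M ⟶ N) (b : N ⟶ M), Good N ∧
      a ≫ b = ∑ j ∈ S, p j ≫ s j by
    obtain ⟨N, a, b, hN, hab⟩ := H Finset.univ
    exact hN.retract (hab ▸ e)
  intro S
  induction S using Finset.induction_on with
  | empty => exact ⟨_, 0, 0, .one, by simp⟩
  | insert j S hj ih =>
    obtain ⟨N, a, b, hN, hab⟩ := ih
    refine ⟨_, p j ≫ inl _ _ + a ≫ inr _ _, fst _ _ ≫ s j + snd _ _ ≫ b, (h j).prod hN, ?_⟩
    rw [Finset.sum_insert hj, ← hab]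
    ext; simp

variable [CharZero F] {M₁ M₂ M₃ : Ob k F} {i : M₁ ⟶ M₂} {p : M₂ ⟶ M₃}

theorem ses₂ (T : Ses i p) (h₁ : Good M₁) (h₃ : Good M₃) : Good M₂ :=
  ⟨.ses₂ T h₁.1 h₃.1, .ses₂ T h₁.1 h₃.1 h₁.2 h₃.2⟩

omit [CharZero F] in
/-- The mapping cone. -/
theorem exists_cone (T : Ses i p) (c₁ : Con M₁) : ∃ (P : Ob k F) (a : M₂ ⟶ P)
    (a' : P ⟶ M₁.ten ((E.sP k).ob F)) (b : P ⟶ M₃), Ses a a' ∧ UIso b := by
  obtain ⟨j, q, S⟩ := exists_ses_sP (k := k) (F := F)
  have := (bij_rid M₁).isIso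
  have hb := Bij.of_isIso (inv (rid M₁))
  have S' := S.ten_left M₁
  obtain ⟨P, a, a', b, b', T₁, T₂⟩ := T.pushout (j := inv (rid M₁) ≫ tenMap (𝟙 M₁) j)
    ⟨fun O => (S'.inj O).comp (hb O).1, fun O => (hb O).2.comp_exact_iff_exact.2 (S'.exact O),
      S'.surj⟩
  exact ⟨P, a, a', b', T₁, T₂.uzero₁_iff.1 (uzero_cP.ten_left c₁)⟩

theorem ses₃ (T : Ses i p) (h₁ : Good M₁) (h₂ : Good M₂) : Good M₃ := by
  obtain ⟨P, a, a', b, T', hb⟩ := exists_cone T h₁.1
  exact (uiso_iff hb).1 (ses₂ T' h₂ (h₁.ten .sP))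

theorem ses₁ (T : Ses i p) (h₂ : Good M₂) (h₃ : Good M₃) : Good M₁ := by
  have c₁ := Con.ses₁ T h₂.1 h₃.1
  obtain ⟨P, a, a', b, T', hb⟩ := exists_cone T c₁
  exact ⟨c₁, (ses₃ T' h₂ ((uiso_iff hb).2 h₃)).2.desusp c₁⟩

theorem tP : Good ((tP k).ob F) := by
  obtain ⟨j, q, S⟩ := exists_ses_gP (k := k) (F := F)
  exact ses₃ S .gP (of_uzero uzero_cP)

/-- Replacing the Tate object by the multiplicative group. -/
theorem ten_gP (α : Type) [Finite α] : ∀ N : Ob k F, Con N →
    Good (N.ten (((E.tP k).ob F).pow α)) → Good (N.ten (((E.gP k).ob F).pow α)) := by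
  obtain ⟨j, q, S⟩ := exists_ses_gP (k := k) (F := F)
  refine Finite.induction_empty_option (P := fun α => ∀ [Finite α] (N : Ob k F), Con N →
    Good (N.ten (((E.tP k).ob F).pow α)) → Good (N.ten (((E.gP k).ob F).pow α)))
    (fun e ih _ N c h => ?_) (fun N c h => ?_) (fun {α} _ ih _ N c h => ?_) α
  · have := Finite.of_equiv _ e.symm
    exact .of_eqv ((Eqv.refl N).ten (.reidx _ e.symm))
      (ih N c (.of_eqv ((Eqv.refl N).ten (.reidx _ e)) h))
  · exact .of_eqv ((Eqv.refl N).ten ((Eqv.empty _ _).trans (Eqv.empty _ _).symm)) h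
  · have h1 := ih _ (c.ten con_tP) (.of_eqv ((Eqv.assoc _ _ _).symm.trans ((Eqv.refl N).ten
      ((Eqv.swap _ _).trans (Eqv.option _ _).symm))) h)
    have c' := c.ten (con_gP.pow α)
    have h2 := ses₁ (S.ten_left _) (of_uzero (uzero_cP.ten_left c')) (.of_eqv
      ((Eqv.assoc _ _ _).symm.trans (((Eqv.refl N).ten (.swap _ _)).trans (.assoc _ _ _))) h1)
    exact .of_eqv (((Eqv.refl N).ten (.option _ _)).trans (.assoc _ _ _)) h2

end Good

end

end Pool.Agent.Lib.MP_fc2ced_ag.E
end

-- part Pool.Agent.Lib.MP_fc2ced_ag.EVar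
section

/-! Smooth affine varieties on their rational points: regular maps, open and locally closed sets. -/

open Function Matrix
open scoped TensorProduct Polynomial

namespace Pool.Agent.Lib.MP_fc2ced_ag.E

noncomputable section

variable {k : Type} [Field k]

section Points
variable [IsAlgClosed k] {B : Type} [CommRing B] [Algebra k B] [Algebra.FiniteType k B]

theorem exists_point {I : Ideal B} (hI : I ≠ ⊤) : ∃ x : B →ₐ[k] k, ∀ b ∈ I, x b = 0 := by
  obtain ⟨m, hm, h⟩ := Ideal.exists_le_maximal I hI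
  let := Ideal.Quotient.field m
  have := finite_of_finite_type_of_isJacobsonRing k (B ⧸ m)
  let j := (AlgEquiv.ofBijective (Algebra.ofId k (B ⧸ m))
    IsAlgClosed.algebraMap_bijective_of_isIntegral).symm
  exact ⟨j.toAlgHom.comp (Ideal.Quotient.mkₐ k m), fun b hb => by
    simp [Ideal.Quotient.eq_zero_iff_mem.2 (h hb)]⟩

theorem isUnit_of_points {b : B} (h : ∀ x : B →ₐ[k] k, x b ≠ 0) : IsUnit b := by
  by_contra hb
  obtain ⟨x, hx⟩ := exists_point (k := k) (mt Ideal.span_singleton_eq_top.1 hb)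
  exact h x (hx b (Ideal.mem_span_singleton_self b))

theorem isNilpotent_of_points {b : B} (h : ∀ x : B →ₐ[k] k, x b = 0) : IsNilpotent b := by
  by_contra hb
  have : Nontrivial (Localization.Away b) := not_subsingleton_iff_nontrivial.1 fun h' =>
    hb ((IsLocalization.subsingleton_iff (M := Submonoid.powers b)).1 h')
  obtain ⟨x, -⟩ := exists_point (k := k) (B := Localization.Away b) bot_ne_top
  exact ((IsLocalization.Away.algebraMap_isUnit b).map x).ne_zero
    (h (x.comp (IsScalarTower.toAlgHom k B _)))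

theorem eq_of_points {O : Type} [CommRing O] [IsDomain O] [Algebra k O] (φ : B →ₐ[k] O) {b b' : B}
    (h : ∀ x : B →ₐ[k] k, x b = x b') : φ b = φ b' := by
  rw [← sub_eq_zero, ← map_sub]
  exact ((isNilpotent_of_points (k := k) fun x => by rw [map_sub, h, sub_self]).map φ).eq_zero

end Points

variable (k) in
/-- The structure of a smooth affine variety on a type of points. -/
class Var (P : Type) where
  B : Type
  [ring : CommRing B]
  [alg : Algebra k B]
  [sm : Algebra.Smooth k B]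
  pt : P ≃ (B →ₐ[k] k)

attribute [reducible, instance] Var.ring Var.alg
attribute [instance] Var.sm

open Var

variable {P Q R : Type} [Var k P] [Var k Q] [Var k R]

variable (k) in
/-- Regular maps. -/
@[fun_prop] def Rg (e : P → Q) : Prop :=
  ∃ ψ : B k Q →ₐ[k] B k P, ∀ x, pt (e x) = (pt x).comp ψ

/-- Transport of structure. -/
@[reducible] def Var.copy (k : Type) [Field k] {P P' : Type} [Var k P] (e : P' ≃ P) : Var k P' :=
  { B := B k P, pt := e.trans pt }

theorem Var.rg_copy {P' : Type} (e : P' ≃ P) : let := Var.copy k e; Rg k e ∧ Rg k e.symm :=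
  ⟨⟨.id k _, fun _ => rfl⟩, ⟨.id k _, fun x => congrArg pt (e.apply_symm_apply x)⟩⟩

@[fun_prop] theorem Rg.id : Rg k fun x : P => x := ⟨.id k _, fun _ => rfl⟩

@[fun_prop] theorem Rg.comp {f : Q → R} {g : P → Q} (hf : Rg k f) (hg : Rg k g) :
    Rg k fun x => f (g x) :=
  hf.elim fun φ h => hg.elim fun ψ h' => ⟨ψ.comp φ, fun x => by rw [h, h']; rfl⟩

@[fun_prop] theorem Rg.const (y : Q) : Rg k fun _ : P => y :=
  ⟨(Algebra.ofId k _).comp (pt y), fun x => by ext; simp⟩

theorem Rg.congr {f g : P → Q} (h : Rg k f) (h' : ∀ x, g x = f x) : Rg k g := by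
  rwa [show g = f from funext h']

@[fun_prop] theorem Rg.ite (c : Prop) [Decidable c] {f g : P → Q} (hf : Rg k f) (hg : Rg k g) :
    Rg k fun x => if c then f x else g x := by
  split_ifs <;> assumption

theorem Rg.dite (c : Prop) [Decidable c] {f : c → P → Q} {g : ¬ c → P → Q}
    (hf : ∀ h, Rg k (f h)) (hg : ∀ h, Rg k (g h)) :
    Rg k fun x => if h : c then f h x else g h x := by
  split_ifs with h
  exacts [hf h, hg h]

instance Var.line : Var k k where
  B := k[X]
  pt := ⟨fun c => Polynomial.aeval c, fun φ => φ .X, fun c => by simp, fun φ => by ext; simp⟩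

theorem rg_line_iff {f : P → k} : Rg k f ↔ ∃ b : B k P, ∀ x, f x = pt x b :=
  ⟨fun ⟨ψ, h⟩ => ⟨ψ Polynomial.X, fun x =>
    (Polynomial.aeval_X (R := k) (f x)).symm.trans congr($(h x) Polynomial.X)⟩,
    fun ⟨b, h⟩ => ⟨Polynomial.aeval b, fun x => Polynomial.algHom_ext
      ((Polynomial.aeval_X (R := k) (f x)).trans ((h x).trans
        (congrArg (pt x) (Polynomial.aeval_X (R := k) b).symm)))⟩⟩

theorem rg_pt (b : B k P) : Rg k fun x : P => pt x b := rg_line_iff.2 ⟨b, fun _ => rfl⟩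

open Algebra.TensorProduct in
instance Var.prod : Var k (P × Q) where
  B := B k P ⊗[k] B k Q
  pt := ⟨fun x => productMap (pt x.1) (pt x.2),
    fun φ => (pt.symm (φ.comp includeLeft), pt.symm (φ.comp includeRight)),
    fun x => by simp [productMap_left, productMap_right],
    fun φ => Algebra.TensorProduct.ext (by ext; simp)
      (by ext; simp [← Algebra.TensorProduct.one_def])⟩

@[fun_prop] theorem Rg.fst {f : R → P × Q} (h : Rg k f) : Rg k fun x => (f x).1 :=
  Rg.comp (f := Prod.fst) ⟨Algebra.TensorProduct.includeLeft, fun _ =>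
    (Algebra.TensorProduct.productMap_left _ _).symm⟩ h

@[fun_prop] theorem Rg.snd {f : R → P × Q} (h : Rg k f) : Rg k fun x => (f x).2 :=
  Rg.comp (f := Prod.snd) ⟨Algebra.TensorProduct.includeRight, fun _ =>
    (Algebra.TensorProduct.productMap_right _ _).symm⟩ h

@[fun_prop] theorem Rg.pair {f : R → P} {g : R → Q} (hf : Rg k f) (hg : Rg k g) :
    Rg k fun x => (f x, g x) :=
  hf.elim fun φ h => hg.elim fun ψ h' => ⟨Algebra.TensorProduct.productMap φ ψ, fun x => by
    change Algebra.TensorProduct.productMap (pt (f x)) (pt (g x)) = _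
    rw [h, h']
    exact Algebra.TensorProduct.ext (by ext; simp) (by ext; simp)⟩

/-- The point. -/
@[reducible] def Var.point (k : Type) [Field k] (P : Type) [Unique P] : Var k P :=
  { B := k, pt := Equiv.ofUnique _ _ }

theorem exists_var_pi (ι : Type) [Finite ι] : ∃ _ : Var k (ι → P),
    (∀ i, Rg k fun x : ι → P => x i) ∧ ∀ (R : Type) [Var k R] (e : R → ι → P),
      (∀ i, Rg k fun x => e x i) → Rg k e := by
  induction ι using Finite.induction_empty_option with
  | of_equiv e ih =>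
    obtain ⟨V, h1, h2⟩ := ih
    let c := (e.arrowCongr (Equiv.refl P)).symm
    let := Var.copy k c
    refine ⟨this, fun i => ((h1 (e.symm i)).comp (rg_copy c).1).congr fun x => by simp [c],
      fun R _ f hf => ((rg_copy c).2.comp (h2 R (fun x => c (f x)) fun i => hf _)).congr
        fun x => by simp⟩
  | h_empty =>
    let := Var.point k (PEmpty.{1} → P)
    exact ⟨this, fun i => i.elim, fun R _ f _ =>
      (Rg.const default).congr fun _ => Subsingleton.elim _ _⟩
  | h_option ih =>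
    obtain ⟨V, h1, h2⟩ := ih
    let c := Equiv.piOptionEquivProd (β := fun _ : Option _ => P) (α := ‹Type›)
    let := Var.copy k c
    refine ⟨this, fun i => ?_, fun R _ f hf => ((rg_copy c).2.comp
      ((hf none).pair (h2 R (fun x i => f x (some i)) fun i => hf _))).congr fun x => ?_⟩
    · cases i with
      | none => exact (rg_copy c).1.fst
      | some i => exact (h1 i).comp (rg_copy c).1.snd
    · exact (c.symm_apply_apply _).symm

instance Var.pi (ι : Type) [Finite ι] : Var k (ι → P) := (exists_var_pi ι).choose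

@[fun_prop] theorem Rg.apply {ι : Type} [Finite ι] (i : ι) : Rg k fun x : ι → P => x i :=
  (exists_var_pi ι).choose_spec.1 i

@[fun_prop] theorem Rg.pi {ι : Type} [Finite ι] {e : R → ι → P} (h : ∀ i, Rg k fun x => e x i) :
    Rg k fun x i => e x i := (exists_var_pi ι).choose_spec.2 R e h

section Line
variable {f g : P → k}

@[fun_prop] theorem Rg.add (hf : Rg k f) (hg : Rg k g) : Rg k fun x => f x + g x :=
  (rg_line_iff.1 hf).elim fun a h => (rg_line_iff.1 hg).elim fun b h' =>
    rg_line_iff.2 ⟨a + b, fun x => by rw [map_add, h, h']⟩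

@[fun_prop] theorem Rg.mul (hf : Rg k f) (hg : Rg k g) : Rg k fun x => f x * g x :=
  (rg_line_iff.1 hf).elim fun a h => (rg_line_iff.1 hg).elim fun b h' =>
    rg_line_iff.2 ⟨a * b, fun x => by rw [map_mul, h, h']⟩

@[fun_prop] theorem Rg.neg (hf : Rg k f) : Rg k fun x => -f x :=
  ((Rg.const (-1)).mul hf).congr fun _ => by simp

@[fun_prop] theorem Rg.sub (hf : Rg k f) (hg : Rg k g) : Rg k fun x => f x - g x :=
  (hf.add hg.neg).congr fun _ => sub_eq_add_neg _ _

@[fun_prop] theorem Rg.pow (hf : Rg k f) (n : ℕ) : Rg k fun x => f x ^ n :=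
  (rg_line_iff.1 hf).elim fun a h => rg_line_iff.2 ⟨a ^ n, fun x => by rw [map_pow, h]⟩

@[fun_prop] theorem Rg.sum {α : Type} (s : Finset α) {f : α → P → k} (h : ∀ a, Rg k (f a)) :
    Rg k fun x => ∑ a ∈ s, f a x := by
  choose b hb using fun a => rg_line_iff.1 (h a)
  exact rg_line_iff.2 ⟨∑ a ∈ s, b a, fun x => by simp [hb]⟩

@[fun_prop] theorem Rg.prod {α : Type} (s : Finset α) {f : α → P → k} (h : ∀ a, Rg k (f a)) :
    Rg k fun x => ∏ a ∈ s, f a x := by
  choose b hb using fun a => rg_line_iff.1 (h a)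
  exact rg_line_iff.2 ⟨∏ a ∈ s, b a, fun x => by simp [hb]⟩

theorem Rg.inv [IsAlgClosed k] (hf : Rg k f) (h0 : ∀ x, f x ≠ 0) : Rg k fun x => (f x)⁻¹ := by
  obtain ⟨a, h⟩ := rg_line_iff.1 hf
  obtain ⟨u, rfl⟩ := isUnit_of_points (k := k) (b := a) fun x => by
    simpa [h] using h0 (pt.symm x)
  exact rg_line_iff.2 ⟨(u⁻¹ : (B k P)ˣ), fun x => inv_eq_of_mul_eq_one_right (by
    rw [h, ← map_mul]; simp)⟩

end Line

/-- The principal open subset of a function. -/
@[reducible] def Var.loc (b : B k P) : Var k {x : P // pt x b ≠ 0} where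
  B := Localization.Away b
  pt := ⟨fun x => IsLocalization.Away.liftAlgHom b (f := pt x.1) x.2.isUnit,
    fun φ => ⟨pt.symm (φ.comp (IsScalarTower.toAlgHom k _ _)), by
      simpa using ((IsLocalization.Away.algebraMap_isUnit b).map φ).ne_zero⟩,
    fun x => Subtype.ext (pt.symm_apply_eq.2 (by ext; simp)),
    fun φ => AlgHom.coe_ringHom_injective (IsLocalization.ringHom_ext (Submonoid.powers b)
      (by ext; simp))⟩

theorem Var.rg_loc_val (b : B k P) : let := Var.loc b; Rg k fun x : {x : P // pt x b ≠ 0} => x.1 :=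
  ⟨IsScalarTower.toAlgHom k _ (Localization.Away b), fun x => AlgHom.ext fun c =>
    (IsLocalization.Away.lift_eq (S := Localization.Away b) b (g := (pt x.1).toRingHom)
      x.2.isUnit c).symm⟩

theorem Var.rg_loc_mk [IsAlgClosed k] (b : B k P) {e : R → P} (he : Rg k e)
    (h : ∀ x, pt (e x) b ≠ 0) : let := Var.loc b;
    Rg k fun x => (⟨e x, h x⟩ : {x : P // pt x b ≠ 0}) := by
  obtain ⟨ψ, hψ⟩ := he
  have hu : IsUnit (ψ b) := isUnit_of_points (k := k) fun x => by
    simpa [hψ] using h (pt.symm x)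
  exact ⟨IsLocalization.Away.liftAlgHom (S := Localization.Away b) b (f := ψ) hu, fun x =>
    show IsLocalization.Away.liftAlgHom (S := Localization.Away b) b (f := pt (e x))
      (h x).isUnit = _ from AlgHom.coe_ringHom_injective
        (IsLocalization.ringHom_ext (Submonoid.powers b) (by ext; simp [hψ]))⟩

/-- `val` identifies `P'` with the principal open subset of `f`. -/
structure IsLoc {P' : Type} [Var k P'] (val : P' → P) (f : P → k) : Prop where
  rg : Rg k f
  rg_val : Rg k val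
  inj : Injective val
  range : ∀ x, x ∈ Set.range val ↔ f x ≠ 0
  lift : ∀ {R : Type} [Var k R] {e : R → P'}, Rg k (fun x => val (e x)) → Rg k e

theorem exists_var_loc [IsAlgClosed k] {P' : Type} (val : P' → P) {f : P → k} (hf : Rg k f)
    (inj : Injective val) (range : ∀ x, x ∈ Set.range val ↔ f x ≠ 0) :
    ∃ _ : Var k P', IsLoc val f := by
  obtain ⟨b, hb⟩ := rg_line_iff.1 hf
  let := Var.loc b
  let c : P' ≃ {x : P // pt x b ≠ 0} := (Equiv.ofInjective val inj).trans
    (Equiv.subtypeEquivRight fun x => by rw [range, hb])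
  let := Var.copy k c
  exact ⟨this, hf, (rg_loc_val b).comp (rg_copy c).1, inj, range, fun {R} _ e he =>
    ((rg_copy c).2.comp (rg_loc_mk b he fun x => (c (e x)).2)).congr fun x =>
      (c.symm_apply_apply _).symm⟩

theorem IsLoc.prod {P' : Type} [Var k P'] {val : P' → P} {f : P → k} (h : IsLoc val f) :
    IsLoc (fun x : P' × Q => (val x.1, x.2)) fun x => f x.1 where
  rg := h.rg.comp Rg.id.fst
  rg_val := (h.rg_val.comp Rg.id.fst).pair Rg.id.snd
  inj _ _ e := Prod.ext (h.inj congr(($e).1)) congr(($e).2)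
  range x := ⟨fun ⟨y, e⟩ => e ▸ (h.range _).1 ⟨y.1, rfl⟩, fun hx =>
    ((h.range _).2 hx).elim fun y e => ⟨(y, x.2), Prod.ext e rfl⟩⟩
  lift he := (h.lift he.fst).pair he.snd

theorem IsLoc.prod_left {P' : Type} [Var k P'] {val : P' → P} {f : P → k} (h : IsLoc val f) :
    IsLoc (fun x : Q × P' => (x.1, val x.2)) fun x => f x.2 where
  rg := h.rg.comp Rg.id.snd
  rg_val := Rg.id.fst.pair (h.rg_val.comp Rg.id.snd)
  inj _ _ e := Prod.ext congr(($e).1) (h.inj congr(($e).2))
  range x := ⟨fun ⟨y, e⟩ => e ▸ (h.range _).1 ⟨y.2, rfl⟩, fun hx =>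
    ((h.range _).2 hx).elim fun y e => ⟨(x.1, y), Prod.ext rfl e⟩⟩
  lift he := he.fst.pair (h.lift he.snd)

section Matrices
variable {l m n : Type} [Finite l] [Finite m] [Finite n]

instance Var.matrix : Var k (Matrix m n k) := Var.copy k (Matrix.of (m := m) (n := n)).symm

theorem Rg.entry {a : P → Matrix m n k} (h : Rg k a) (i : m) (j : n) : Rg k fun x => a x i j :=
  (Rg.apply j).comp ((Rg.apply i).comp ((rg_copy (Matrix.of (m := m) (n := n)).symm).1.comp h))

theorem rg_matrix {a : P → Matrix m n k} (h : ∀ i j, Rg k fun x => a x i j) : Rg k a :=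
  (rg_copy (Matrix.of (m := m) (n := n)).symm).2.comp (Rg.pi fun i => Rg.pi fun j => h i j)

@[fun_prop] theorem Rg.of {a : P → m → n → k} (h : Rg k a) : Rg k fun x => Matrix.of (a x) :=
  (rg_copy (Matrix.of (m := m) (n := n)).symm).2.comp h

@[fun_prop] theorem Rg.matrix_mul [Fintype m] {a : P → Matrix l m k} {b : P → Matrix m n k}
    (ha : Rg k a) (hb : Rg k b) : Rg k fun x => a x * b x :=
  rg_matrix fun i j => (Rg.sum Finset.univ fun t => (ha.entry i t).mul (hb.entry t j)).congr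
    fun _ => Matrix.mul_apply

@[fun_prop] theorem Rg.det [Fintype n] [DecidableEq n] {a : P → Matrix n n k} (h : Rg k a) :
    Rg k fun x => (a x).det :=
  (Rg.sum Finset.univ fun σ => (Rg.const ((Equiv.Perm.sign σ : ℤ) : k)).mul
    (Rg.prod Finset.univ fun i => h.entry (σ i) i)).congr fun _ => Matrix.det_apply' _

theorem Rg.adjugate [Fintype n] [DecidableEq n] {a : P → Matrix n n k} (h : Rg k a) :
    Rg k fun x => (a x).adjugate :=
  rg_matrix fun i j => (Rg.det (a := fun x => (a x).updateRow j (Pi.single i 1))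
    (rg_matrix fun s t => ((Rg.const (Pi.single (M := fun _ => k) i 1 t)).ite (s = j)
      (h.entry s t)).congr fun _ => updateRow_apply)).congr fun _ => adjugate_apply _ _ _

end Matrices

variable [IsAlgClosed k]

theorem exists_var_units : ∃ _ : Var k kˣ, IsLoc (Units.val : kˣ → k) fun x => x :=
  exists_var_loc _ Rg.id Units.val_injective fun _ =>
    ⟨fun ⟨u, h⟩ => h ▸ u.ne_zero, fun h => ⟨Units.mk0 _ h, rfl⟩⟩

instance Var.units : Var k kˣ := exists_var_units.choose

theorem isLoc_units : IsLoc (Units.val : kˣ → k) fun x => x := exists_var_units.choose_spec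

section Units
variable {u v : P → kˣ}

@[fun_prop] theorem Rg.val (h : Rg k u) : Rg k fun x => (u x : k) := isLoc_units.rg_val.comp h

theorem rg_units (h : Rg k fun x => (u x : k)) : Rg k u := isLoc_units.lift h

@[fun_prop] theorem Rg.units_mul (hu : Rg k u) (hv : Rg k v) : Rg k fun x => u x * v x :=
  rg_units (hu.val.mul hv.val)

@[fun_prop] theorem Rg.units_inv (hu : Rg k u) : Rg k fun x => (u x)⁻¹ :=
  rg_units ((hu.val.inv fun x => (u x).ne_zero).congr fun _ => Units.val_inv_eq_inv_val _)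

@[fun_prop] theorem Rg.units_neg (hu : Rg k u) : Rg k fun x => -u x := rg_units hu.val.neg

@[fun_prop] theorem Rg.units_pow (hu : Rg k u) (n : ℕ) : Rg k fun x => u x ^ n :=
  rg_units (hu.val.pow n)

@[fun_prop] theorem Rg.units_zpow (hu : Rg k u) (n : ℤ) : Rg k fun x => u x ^ n := by
  obtain ⟨m, rfl | rfl⟩ := n.eq_nat_or_neg
  · simpa using hu.units_pow m
  · simpa using (hu.units_pow m).units_inv

@[fun_prop] theorem Rg.units_prod {α : Type} (s : Finset α) {f : α → P → kˣ}
    (h : ∀ a, Rg k (f a)) : Rg k fun x => ∏ a ∈ s, f a x :=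
  rg_units ((Rg.prod s fun a => (h a).val).congr fun _ => Units.coe_prod _ _)

end Units

variable {n : ℕ}

theorem exists_var_GL (n : ℕ) : ∃ _ : Var k (GL (Fin n) k),
    IsLoc (Units.val : GL (Fin n) k → Matrix (Fin n) (Fin n) k) fun x => x.det :=
  exists_var_loc _ Rg.id.det Units.val_injective fun x =>
    ⟨fun ⟨u, h⟩ => h ▸ u.det_ne_zero, fun h => ⟨.mkOfDetNeZero x h, rfl⟩⟩

instance Var.gl : Var k (GL (Fin n) k) := (exists_var_GL n).choose

theorem isLoc_GL : IsLoc (Units.val : GL (Fin n) k → Matrix (Fin n) (Fin n) k) fun x => x.det :=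
  (exists_var_GL n).choose_spec

section GenLin
variable {g h : P → GL (Fin n) k}

@[fun_prop] theorem Rg.gl_val (hg : Rg k g) : Rg k fun x => (g x : Matrix (Fin n) (Fin n) k) :=
  isLoc_GL.rg_val.comp hg

theorem Rg.gl_entry (hg : Rg k g) (i j : Fin n) : Rg k fun x => g x i j := hg.gl_val.entry i j

theorem rg_GL (hg : ∀ i j, Rg k fun x => g x i j) : Rg k g := isLoc_GL.lift (rg_matrix hg)

@[fun_prop] theorem Rg.gl_mul (hg : Rg k g) (hh : Rg k h) : Rg k fun x => g x * h x :=
  isLoc_GL.lift (hg.gl_val.matrix_mul hh.gl_val)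

@[fun_prop] theorem Rg.gl_inv (hg : Rg k g) : Rg k fun x => (g x)⁻¹ :=
  rg_GL fun i j => ((hg.gl_val.det.inv fun x => (g x).det_ne_zero).mul
    (hg.gl_val.adjugate.entry i j)).congr fun x => by
      rw [GeneralLinearGroup.coe_inv, Matrix.inv_def, Ring.inverse_eq_inv']; rfl

@[fun_prop] theorem Rg.iot (hg : Rg k g) : Rg k fun x => iot (g x) :=
  rg_GL fun _ _ => hg.gl_inv.gl_entry _ _

@[fun_prop] theorem Rg.Fr {p r : ℕ} {tw : Bool} [ExpChar k p] (hg : Rg k g) :
    Rg k fun x => Fr p r tw (g x) :=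
  rg_GL fun i j => (((hg.gl_inv.gl_entry j.rev i.rev).pow _).ite _
    ((hg.gl_entry i j).pow _)).congr fun _ => Fr_apply _ _ _

@[fun_prop] theorem Rg.el {a b : Fin n} (hab : a ≠ b) {c : P → k} (hc : Rg k c) :
    Rg k fun x => el hab (c x) :=
  rg_GL fun i j => ((Rg.const _).add (hc.ite _ (Rg.const 0))).congr fun _ => el_apply _ _ i j

@[fun_prop] theorem Rg.mon (v : Equiv.Perm (Fin n)) {d : P → Fin n → kˣ} (hd : Rg k d) :
    Rg k fun x => mon v (d x) :=
  rg_GL fun i j => (((Rg.apply j).comp hd).val.ite _ (Rg.const 0)).congr fun _ =>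
    mon_apply _ _ i j

end GenLin

/-- The unitriangular matrix with given entries above the diagonal. -/
def uniOf {R : Type} [CommRing R] (c : {p : Fin n × Fin n // p.1 < p.2} → R) : Uni n R :=
  ⟨GeneralLinearGroup.mk'' (of fun i j => if h : i < j then c ⟨(i, j), h⟩ else if i = j then 1 else 0)
    (by
      rw [det_of_isUpperTriangular fun i j (h : j < i) => by simp [h.not_gt, h.ne']]
      simp), fun _ _ h => dif_neg h.not_gt⟩

theorem uniOf_apply {R : Type} [CommRing R] (c : {p : Fin n × Fin n // p.1 < p.2} → R)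
    (i j : Fin n) : (uniOf c : GL (Fin n) R) i j =
      if h : i < j then c ⟨(i, j), h⟩ else if i = j then 1 else 0 := rfl

/-- Coordinates on the unitriangular group. -/
def uniEquiv (R : Type) [CommRing R] : Uni n R ≃ ({p : Fin n × Fin n // p.1 < p.2} → R) :=
  ⟨fun u p => u.1 p.1.1 p.1.2, uniOf, fun u => Subtype.ext (Units.ext (Matrix.ext fun i j => by
    rw [uniOf_apply]
    split_ifs with h h'
    exacts [rfl, by rw [u.2 i j h'.ge, if_pos h'], by rw [u.2 i j (not_lt.1 h), if_neg h']])),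
    fun _ => funext fun p => dif_pos p.2⟩

instance Var.uni : Var k (Uni n k) := Var.copy k (uniEquiv k)

section Uni
variable {u v : P → Uni n k}

@[fun_prop] theorem Rg.uni_val (hu : Rg k u) : Rg k fun x => (u x : GL (Fin n) k) :=
  rg_GL fun i j => (Rg.dite (i < j) (f := fun h x => uniEquiv k (u x) ⟨(i, j), h⟩)
    (fun _ => (Rg.apply _).comp ((rg_copy (uniEquiv k)).1.comp hu))
    fun _ => Rg.const (if i = j then 1 else 0)).congr fun x => by
      conv_lhs => rw [← (uniEquiv k).symm_apply_apply (u x)]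
      rfl

theorem rg_uni (hu : Rg k fun x => (u x : GL (Fin n) k)) : Rg k u :=
  ((rg_copy (uniEquiv k)).2.comp (Rg.pi (e := fun x => uniEquiv k (u x)) fun _ =>
    hu.gl_entry _ _)).congr fun _ => ((uniEquiv k).symm_apply_apply _).symm

@[fun_prop] theorem Rg.uni_mk {g : P → GL (Fin n) k} (hg : Rg k g) (h : ∀ x, g x ∈ Uni n k) :
    Rg k fun x => (⟨g x, h x⟩ : Uni n k) := rg_uni hg

@[fun_prop] theorem Rg.uni_mul (hu : Rg k u) (hv : Rg k v) : Rg k fun x => u x * v x :=
  rg_uni (hu.uni_val.gl_mul hv.uni_val)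

@[fun_prop] theorem Rg.uni_inv (hu : Rg k u) : Rg k fun x => (u x)⁻¹ := rg_uni hu.uni_val.gl_inv

end Uni

end

end Pool.Agent.Lib.MP_fc2ced_ag.E
end

-- part Pool.Agent.Lib.MP_fc2ced_ag.ETate
section

/-! Locally closed subsets whose motive with supports is Schur-finite. -/

open CategoryTheory Function
open scoped TensorProduct Polynomial Pointwise

namespace Pool.Agent.Lib.MP_fc2ced_ag.E

noncomputable section

variable {k : Type} [Field k] {F : Type} [Field F]

open Ob Pair Var

theorem Eqv.of_live {X : Fn k} {P P' : Pair X}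
    (h : ∀ ⦃O⦄ (x : X.X O), P.N x ∧ ¬ P.D x ↔ P'.N x ∧ ¬ P'.D x) : Eqv (P.ob F) (P'.ob F) := by
  have H : IsLift P (P'.ob F) fun _ x => P'.cl F x :=
    ⟨fun _ x _ hd => dif_neg fun h' => ((h x).2 h').2 hd, fun _ _ g x hx => by
      by_cases hd : P.D x
      · rw [show P'.cl F x = 0 from dif_neg fun h' => ((h x).2 h').2 hd, map_zero]
        exact (show P'.cl F (X.map g x) = 0 from
          dif_neg fun h' => ((h _).2 h').2 (P.sD _ _ hd)).symm
      · exact map_cl g ((h x).1 ⟨hx, hd⟩).1⟩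
  exact ⟨H.hom, fun O => bij_of_basis Finsupp.basisSingleOne Finsupp.basisSingleOne
    (Equiv.subtypeEquivRight fun x => h x) _ fun x => by
      simp only [Finsupp.coe_basisSingleOne, ← cl_live, H.hom_cl x.2.1,
        Equiv.subtypeEquivRight_apply_coe]⟩

section Ring
variable {B : Type} [CommRing B] [Algebra k B] [Algebra.Smooth k B]

variable (k) in
/-- The pair given by two finite unions of principal open subsets. -/
@[reducible] def opP (s t : Finset B) : Pair (.spec k B) :=
  ⟨fun _ x => ∃ f ∈ s, IsUnit (x f), fun _ x => ∃ f ∈ t, IsUnit (x f),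
    fun _ _ φ _ ⟨f, h, h'⟩ => ⟨f, h, h'.map φ⟩, fun _ _ φ _ ⟨f, h, h'⟩ => ⟨f, h, h'.map φ⟩⟩

omit [Algebra.Smooth k B] in
theorem ex_mul [DecidableEq B] {O : Type} [CommRing O] [Algebra k O] (x : B →ₐ[k] O)
    (s t : Finset B) : (∃ f ∈ s * t, IsUnit (x f)) ↔
      (∃ f ∈ s, IsUnit (x f)) ∧ ∃ f ∈ t, IsUnit (x f) :=
  ⟨fun ⟨_, h, h'⟩ => by
    obtain ⟨a, ha, b, hb, rfl⟩ := Finset.mem_mul.1 h
    rw [map_mul, IsUnit.mul_iff] at h'
    exact ⟨⟨a, ha, h'.1⟩, b, hb, h'.2⟩,
  fun ⟨⟨a, ha, h⟩, b, hb, h'⟩ => ⟨a * b, Finset.mul_mem_mul ha hb, by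
    rw [map_mul]; exact h.mul h'⟩⟩

theorem ex_union {B : Type} [DecidableEq B] {p : B → Prop} (s t : Finset B) :
    (∃ f ∈ s ∪ t, p f) ↔ (∃ f ∈ s, p f) ∨ ∃ f ∈ t, p f := by
  simp [or_and_right, exists_or]

theorem ses_op [DecidableEq B] (s t u : Finset B) :
    ∃ (a : (opP k (s * u) t).ob F ⟶ (opP k s t).ob F)
      (b : (opP k s t).ob F ⟶ (opP k s (t ∪ u)).ob F), Ses a b :=
  ⟨_, _, Pair.ses (P₁ := opP k (s * u) t) (P₂ := opP k s t) (P₃ := opP k s (t ∪ u))
    (isMap_id (fun _ x h => ((ex_mul x s u).1 h).1) fun _ _ _ h => h)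
    (isMap_id (fun _ _ h => h) fun _ _ _ h => (ex_union t u).2 (.inl h)) (fun _ _ _ h => h)
    (fun _ x h => (ex_union t u).trans (or_congr_right ((ex_mul x s u).trans
      (and_iff_right h)).symm)) fun _ _ h _ => h⟩

variable [IsAlgClosed k]

theorem uzero_rel {ι : Type} [Finite ι] (f : ι → B) (h : ∀ x : B →ₐ[k] k, ∃ i, x (f i) ≠ 0) :
    UZero ((relP k f).ob F) := by
  obtain ⟨c, ⟨e⟩⟩ := Finite.exists_equiv_fin ι
  have h1 : Ideal.span (Set.range fun i => f (e.symm i)) = ⊤ := by
    by_contra h1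
    obtain ⟨x, hx⟩ := exists_point (k := k) h1
    obtain ⟨i, hi⟩ := h x
    exact hi (hx _ (Ideal.subset_span ⟨e i, by simp⟩))
  have : Subsingleton (Localization.Away (0 : B)) :=
    (IsLocalization.subsingleton_iff (M := Submonoid.powers (0 : B))).2 ⟨1, by simp⟩
  have h2 : NisData B (Localization.Away (0 : B)) fun i => f (e.symm i) := by
    have := Ideal.Quotient.subsingleton_iff.2 h1
    exact nisData_iff.2 ⟨fun _ _ _ => Subsingleton.elim _ _, fun _ => ⟨0, Subsingleton.elim _ _⟩⟩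
  obtain ⟨g, hg⟩ := Eqv.of_live (F := F) (P := relP k f) (P' := relP k fun i => f (e.symm i))
    fun _ x => by simp only [e.symm.surjective.exists]
  exact hg.uiso.uzero_iff.2 ((UIso.gen (.nis B _ c _ h2)).uzero_iff.1 (.dead fun O x _ =>
    (zero_ne_one ((map_zero x).symm.trans ((congrArg x (Subsingleton.elim 0 1)).trans
      (map_one x)))).elim))

/-- Zariski descent. -/
theorem uzero_op (s : Finset B) : ∀ t : Finset B,
    (∀ x : B →ₐ[k] k, (∃ f ∈ s, x f ≠ 0) → ∃ f ∈ t, x f ≠ 0) → UZero ((opP k s t).ob F) := by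
  classical
  induction s using Finset.induction_on with
  | empty => exact fun t _ => .dead (by simp)
  | insert a s _ ih =>
    intro t h
    have T := Pair.ses (F := F) (P₁ := opP k s t) (P₂ := opP k (insert a s) t)
      (P₃ := opP k (insert a s) (t ∪ s))
      (isMap_id (fun _ _ ⟨f, h, h'⟩ => ⟨f, by simp [h], h'⟩) fun _ _ _ h => h)
      (isMap_id (fun _ _ h => h) fun _ _ _ h => (ex_union t s).2 (.inl h)) (fun _ _ _ h => h)
      (fun _ _ _ => ex_union t s) fun _ _ h _ => h
    refine T.uzero₂ (ih t fun x ⟨f, h1, h2⟩ => h x ⟨f, by simp [h1], h2⟩) ?_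
    obtain ⟨g, hg⟩ := Eqv.of_live (F := F) (P := opP k {a} (t ∪ s))
      (P' := opP k (insert a s) (t ∪ s)) fun _ x => by
        simp only [ex_union, Finset.mem_singleton, Finset.mem_insert, exists_eq_left,
          exists_eq_or_imp]
        exact ⟨fun h => ⟨.inl h.1, h.2⟩, fun h => ⟨h.1.resolve_right fun h' => h.2 (.inr h'), h.2⟩⟩
    have hm : IsMap (relP k fun i : (t ∪ s : Finset B) => algebraMap B (Localization.Away a) i)
        (opP k {a} (t ∪ s)) fun _ x => x.comp (IsScalarTower.toAlgHom k B _) :=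
      ⟨fun _ _ _ _ _ => rfl, fun _ x _ => ⟨a, by simp,
        (IsLocalization.Away.algebraMap_isUnit a).map x⟩, fun _ _ _ ⟨i, h⟩ => ⟨i.1, i.2, h⟩⟩
    refine hg.uiso.uzero_iff.1 ((bij_loc a hm (by simp) (fun _ _ _ => trivial)
      fun _ _ _ ⟨f, h, h'⟩ => ⟨⟨f, h⟩, h'⟩).uiso.uzero_iff.1 (uzero_rel _ fun x => ?_))
    obtain ⟨f, h1, h2⟩ := h (x.comp (IsScalarTower.toAlgHom k B _))
      ⟨a, by simp, ((IsLocalization.Away.algebraMap_isUnit a).map x).ne_zero⟩
    exact ⟨⟨f, by simp [h1]⟩, h2⟩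

theorem good_op_congr {s t s' t' : Finset B}
    (h : ∀ x : B →ₐ[k] k, (∃ f ∈ s, x f ≠ 0) ∧ (¬ ∃ f ∈ t, x f ≠ 0) ↔
      (∃ f ∈ s', x f ≠ 0) ∧ ¬ ∃ f ∈ t', x f ≠ 0) :
    Good ((opP k s t).ob F) ↔ Good ((opP k s' t').ob F) := by
  classical
  have H {s t s' t' : Finset B} (h : ∀ x : B →ₐ[k] k, (∃ f ∈ s, x f ≠ 0) ∧ (¬ ∃ f ∈ t, x f ≠ 0) →
      (∃ f ∈ s', x f ≠ 0) ∧ ¬ ∃ f ∈ t', x f ≠ 0) :
      Good ((opP k s t).ob F) ↔ Good ((opP k (s * s') (t ∪ t')).ob F) := by
    obtain ⟨a, b, T⟩ := ses_op (k := k) (F := F) s t s'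
    obtain ⟨a', b', T'⟩ := ses_op (k := k) (F := F) (s * s') t t'
    refine (Good.uiso_iff (T.uzero₃_iff.1 (uzero_op _ _ fun x => ?_))).symm.trans
      (Good.uiso_iff (T'.uzero₁_iff.1 (uzero_op _ _ fun x => ?_)))
    · rw [ex_union]
      exact fun h1 => or_iff_not_imp_left.2 fun h2 => (h x ⟨h1, h2⟩).1
    · have := h x
      simp only [← isUnit_iff_ne_zero, ex_mul] at this ⊢
      exact fun h1 => by_contra fun h2 => (this ⟨h1.1.1, h2⟩).2 h1.2
  rw [H fun x => (h x).1, H (s := s') fun x => (h x).2, mul_comm, Finset.union_comm]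

end Ring

variable {P Q R : Type} [Var k P] [Var k Q] [Var k R]

/-- The open subset given by finitely many functions. -/
def opSet (s : Finset (B k P)) : Set P := {x | ∃ f ∈ s, pt x f ≠ 0}

variable (k) in
/-- Open subsets. -/
def IsOp (U : Set P) : Prop := ∃ s : Finset (B k P), U = opSet s

variable (k) in
/-- Closed subsets. -/
def IsCl (U : Set P) : Prop := IsOp k Uᶜ

variable (k) in
/-- Locally closed subsets. -/
def LC (Z : Set P) : Prop := ∃ s t : Finset (B k P), Z = opSet s \ opSet t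

variable (k F) in
/-- The motive of the variety with supports in `Z` is constructible and Schur-finite. -/
def Tate (Z : Set P) : Prop :=
  ∃ s t : Finset (B k P), Z = opSet s \ opSet t ∧ Good ((opP k s t).ob F)

theorem opSet_mul [DecidableEq (B k P)] (s t : Finset (B k P)) :
    opSet (s * t) = opSet s ∩ opSet t := Set.ext fun x => by
  simp only [opSet, Set.mem_inter_iff, Set.mem_ofPred_eq, ← isUnit_iff_ne_zero, ex_mul]

theorem opSet_union [DecidableEq (B k P)] (s t : Finset (B k P)) :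
    opSet (s ∪ t) = opSet s ∪ opSet t := Set.ext fun _ => ex_union s t

theorem opSet_image [DecidableEq (B k P)] {e : P → Q} {ψ : B k Q →ₐ[k] B k P}
    (h : ∀ x, pt (e x) = (pt x).comp ψ) (s : Finset (B k Q)) :
    opSet (s.image ψ) = e ⁻¹' opSet s := Set.ext fun x => by simp [opSet, h]

variable {U V Z W : Set P}

theorem IsOp.ne {f : P → k} (hf : Rg k f) : IsOp k {x | f x ≠ 0} :=
  (rg_line_iff.1 hf).elim fun b h => ⟨{b}, Set.ext fun x => by simp [opSet, h]⟩

theorem IsOp.empty : IsOp k (∅ : Set P) := ⟨∅, by simp [opSet]⟩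

theorem IsOp.univ : IsOp k (Set.univ : Set P) := ⟨{1}, by simp [opSet]⟩

theorem IsOp.inter (h : IsOp k U) (h' : IsOp k V) : IsOp k (U ∩ V) := by
  classical
  obtain ⟨s, rfl⟩ := h; obtain ⟨t, rfl⟩ := h'
  exact ⟨_, (opSet_mul s t).symm⟩

theorem IsOp.union (h : IsOp k U) (h' : IsOp k V) : IsOp k (U ∪ V) := by
  classical
  obtain ⟨s, rfl⟩ := h; obtain ⟨t, rfl⟩ := h'
  exact ⟨_, (opSet_union s t).symm⟩

theorem IsOp.preimage {U : Set Q} (h : IsOp k U) {e : P → Q} (he : Rg k e) :
    IsOp k (e ⁻¹' U) := by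
  classical
  obtain ⟨s, rfl⟩ := h; obtain ⟨ψ, h⟩ := he
  exact ⟨_, (opSet_image h s).symm⟩

theorem IsOp.exists {ι : Type} [Finite ι] {p : ι → P → Prop} (h : ∀ i, IsOp k {x | p i x}) :
    IsOp k {x | ∃ i, p i x} := by
  classical
  have := Fintype.ofFinite ι
  choose s hs using h
  refine ⟨Finset.univ.biUnion s, Set.ext fun x => ?_⟩
  simp only [Set.mem_ofPred_eq, fun i => Set.ext_iff.1 (hs i) x, show ∀ i, p i x ↔ x ∈ {x | p i x}
    from fun _ => Iff.rfl, opSet, Finset.mem_biUnion, Finset.mem_univ, true_and]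
  tauto

theorem IsOp.forall {ι : Type} [Finite ι] {p : ι → P → Prop} (h : ∀ i, IsOp k {x | p i x}) :
    IsOp k {x | ∀ i, p i x} := by
  rw [Set.ofPred_forall, ← Set.biInter_univ]
  exact Set.Finite.induction_on _ Set.finite_univ (by simpa using IsOp.univ)
    fun _ _ ih => by rw [Set.biInter_insert]; exact (h _).inter ih

theorem IsCl.forall {ι : Type} [Finite ι] {p : ι → P → Prop} (h : ∀ i, IsCl k {x | p i x}) :
    IsCl k {x | ∀ i, p i x} := by
  have := IsOp.exists (p := fun i x => ¬ p i x) h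
  simpa only [IsCl, Set.compl_ofPred, not_forall] using this

theorem IsCl.eq {f g : P → Q} (hf : Rg k f) (hg : Rg k g) : IsCl k {x | f x = g x} := by
  obtain ⟨s, hs⟩ := Algebra.FiniteType.out (R := k) (A := B k Q)
  have := IsCl.forall (p := fun (b : s) x => pt (f x) b.1 - pt (g x) b.1 = 0) fun b =>
    IsOp.ne (((rg_pt b.1).comp hf).sub ((rg_pt b.1).comp hg))
  rwa [show {x | ∀ b : s, pt (f x) b.1 - pt (g x) b.1 = 0} = {x | f x = g x} from
    Set.ext fun x => ⟨fun h => pt.injective (AlgHom.ext_of_adjoin_eq_top hs fun b hb =>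
      sub_eq_zero.1 (h ⟨b, hb⟩)), fun (h : f x = g x) b => by rw [h, sub_self]⟩] at this

theorem IsCl.compl (h : IsOp k U) : IsCl k Uᶜ := by rwa [IsCl, compl_compl]

theorem IsOp.lc (h : IsOp k U) : LC k U := h.elim fun s h => ⟨s, ∅, by simp [h, opSet]⟩

theorem IsCl.lc (h : IsCl k U) : LC k U := h.elim fun s h =>
  ⟨{1}, s, by rw [← h]; simp [opSet]⟩

theorem LC.inter (h : LC k U) (h' : LC k V) : LC k (U ∩ V) := by
  classical
  obtain ⟨s, t, rfl⟩ := h; obtain ⟨s', t', rfl⟩ := h'
  exact ⟨s * s', t ∪ t', by rw [opSet_mul, opSet_union]; ext; simp; tauto⟩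

theorem LC.preimage {Z : Set Q} (h : LC k Z) {e : P → Q} (he : Rg k e) : LC k (e ⁻¹' Z) := by
  classical
  obtain ⟨s, t, rfl⟩ := h; obtain ⟨ψ, h⟩ := he
  exact ⟨s.image ψ, t.image ψ, by rw [opSet_image h, opSet_image h]; rfl⟩

theorem Tate.lc (h : Tate k F Z) : LC k Z := h.imp fun _ h => h.imp fun _ h => h.1

theorem Tate.congr (h : Tate k F Z) (h' : ∀ x, x ∈ W ↔ x ∈ Z) : Tate k F W := by
  rwa [show W = Z from Set.ext h']

theorem Tate.empty : Tate k F (∅ : Set P) := ⟨∅, ∅, by simp, .of_uzero (.dead (by simp))⟩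

variable [IsAlgClosed k]

theorem Tate.good (h : Tate k F Z) {s t : Finset (B k P)} (e : Z = opSet s \ opSet t) :
    Good ((opP k s t).ob F) := by
  obtain ⟨s', t', e', h⟩ := h
  exact (good_op_congr fun x => by
    simpa [opSet] using Set.ext_iff.1 (e'.symm.trans e) (pt.symm x)).1 h

/-- Retracts, in particular changes of coordinates. -/
theorem Tate.retract {W : Set Q} (h : Tate k F W) {s : P → Q} {p : Q → P} (hs : Rg k s)
    (hp : Rg k p) (e : ∀ x, p (s x) = x) (hZ : ∀ y, y ∈ W ↔ p y ∈ Z) : Tate k F Z := by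
  classical
  obtain ⟨a, b, hab⟩ := h.lc.preimage hs
  have h1 : Z = opSet a \ opSet b := hab ▸ Set.ext fun x => by
    rw [Set.mem_preimage, hZ, e]
  obtain ⟨φ, hφ⟩ := hs
  obtain ⟨ψ, hψ⟩ := hp
  have h2 := h.good (s := a.image ψ) (t := b.image ψ) (by
    rw [opSet_image hψ, opSet_image hψ, ← Set.preimage_sdiff, ← h1]; exact Set.ext hZ)
  have e' {O : Aic k} (x : B k P →ₐ[k] O) (f : B k P) : x (φ (ψ f)) = x f :=
    eq_of_points x fun y => by
      obtain ⟨y, rfl⟩ := pt.surjective y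
      have := hψ (s y)
      rw [e, hφ] at this
      exact congr($this.symm f)
  have m1 : IsMap (opP k a b) (opP k (a.image ψ) (b.image ψ)) fun _ x => x.comp φ :=
    ⟨fun _ _ _ _ _ => rfl, fun _ x => by simp [e' x], fun _ x _ => by simp [e' x]⟩
  have m2 : IsMap (opP k (a.image ψ) (b.image ψ)) (opP k a b) fun _ x => x.comp ψ :=
    ⟨fun _ _ _ _ _ => rfl, fun _ x => by simp, fun _ x _ => by simp⟩
  refine ⟨a, b, h1, h2.retract (s := m1.hom F) (p := m2.hom F) ?_⟩
  rw [m1.hom_comp m2 (isMap_refl _) fun _ x _ => AlgHom.ext (e' x), hom_refl]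
  exact .id

theorem tate_loc_aux (b : B k P) (h : LC k Z) (hZ : ∀ x ∈ Z, pt x b ≠ 0) :
    let := Var.loc b; Tate k F (Subtype.val ⁻¹' Z : Set {x : P // pt x b ≠ 0}) ↔ Tate k F Z := by
  classical
  let := Var.loc b
  obtain ⟨s, t, rfl⟩ := h
  let ψ : B k P →ₐ[k] B k {x : P // pt x b ≠ 0} :=
    IsScalarTower.toAlgHom k (B k P) (Localization.Away b)
  have hψ (x : {x : P // pt x b ≠ 0}) : pt x.1 = (pt x).comp ψ := AlgHom.ext fun c =>
    (IsLocalization.Away.lift_eq (S := Localization.Away b) b (g := (pt x.1).toRingHom)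
      x.2.isUnit c).symm
  have e1 : (Subtype.val ⁻¹' (opSet s \ opSet t) : Set {x : P // pt x b ≠ 0}) =
      opSet (s.image ψ) \ opSet (t.image ψ) := by
    rw [opSet_image hψ, opSet_image hψ]; rfl
  have e2 : opSet s \ opSet t = opSet (s * {b}) \ opSet t := by
    rw [opSet_mul]
    exact Set.ext fun x => ⟨fun h => ⟨⟨h.1, b, by simp, hZ x h⟩, h.2⟩, fun h => ⟨h.1.1, h.2⟩⟩
  have m : IsMap (opP k (s.image ψ) (t.image ψ)) (opP k (s * {b}) t) fun _ x => x.comp ψ :=
    ⟨fun _ _ _ _ _ => rfl, fun _ x h => (ex_mul _ _ _).2 ⟨by simpa using h, b, by simp,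
      (IsLocalization.Away.algebraMap_isUnit (S := Localization.Away b) b).map x⟩,
      fun _ x _ => by simp⟩
  have hb := Good.uiso_iff (bij_loc (F := F) b m (fun _ x h => by
    simpa using ((ex_mul x _ _).1 h).2) (fun _ x h => ((ex_mul _ _ _).1 h).1.elim
      fun f h => ⟨_, Finset.mem_image_of_mem _ h.1, h.2⟩)
    fun _ x _ ⟨f, h⟩ => ⟨_, Finset.mem_image_of_mem _ h.1, h.2⟩).uiso
  exact ⟨fun h => ⟨_, _, e2, hb.1 (h.good e1)⟩, fun h => ⟨_, _, e1, hb.2 (h.good e2)⟩⟩

/-- Excision. -/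
theorem IsLoc.tate_iff {P' : Type} [Var k P'] {val : P' → P} {f : P → k} (hv : IsLoc val f)
    (h : LC k Z) (hZ : ∀ x ∈ Z, f x ≠ 0) : Tate k F (val ⁻¹' Z) ↔ Tate k F Z := by
  obtain ⟨b, hb⟩ := rg_line_iff.1 hv.rg
  let := Var.loc b
  refine Iff.trans ?_ (tate_loc_aux b h fun x hx => hb x ▸ hZ x hx)
  have h1 (x : P') : pt (val x) b ≠ 0 := hb _ ▸ (hv.range _).1 ⟨x, rfl⟩
  choose g hg using fun x : {x : P // pt x b ≠ 0} => (hv.range x.1).2 (hb _ ▸ x.2)
  have r1 := rg_loc_mk b hv.rg_val h1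
  have r2 : Rg k g := hv.lift ((rg_loc_val b).congr hg)
  exact ⟨fun H => H.retract r2 r1 (fun x => Subtype.ext (hg x)) fun _ => Iff.rfl,
    fun H => H.retract r1 r2 (fun x => hv.inj (hg _)) fun y => by
      rw [Set.mem_preimage, Set.mem_preimage, hg]⟩

omit [IsAlgClosed k] in
open Algebra.TensorProduct in
theorem Tate.prod {W : Set Q} (h : Tate k F Z) (h' : Tate k F W) : Tate k F (Z ×ˢ W) := by
  classical
  obtain ⟨s, t, rfl, h⟩ := h
  obtain ⟨s', t', rfl, h'⟩ := h'
  let l : B k P →ₐ[k] B k P ⊗[k] B k Q := includeLeft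
  let r : B k Q →ₐ[k] B k P ⊗[k] B k Q := includeRight
  have hl (x : P × Q) : pt x.1 = (pt x).comp l := (productMap_left _ _).symm
  have hr (x : P × Q) : pt x.2 = (pt x).comp r := (productMap_right _ _).symm
  have m : IsMap (opP k (s.image l * s'.image r) (t.image l ∪ t'.image r))
      ((opP k s t).prod (opP k s' t')) fun _ x => (x.comp l, x.comp r) :=
    ⟨fun _ _ _ _ _ => rfl, fun _ x h => by simpa using (ex_mul x _ _).1 h,
      fun _ x _ h => by simpa using (ex_union _ _).1 h⟩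
  refine ⟨s.image l * s'.image r, t.image l ∪ t'.image r, ?_, .of_eqv (Eqv.trans ⟨_, m.bij
    (fun _ x _ h => (ex_union _ _).2 (by simpa using h)) (fun _ _ _ _ _ _ _ h =>
      Algebra.TensorProduct.ext congr(($h).1) congr(($h).2)) fun _ y hy _ =>
        ⟨productMap y.1 y.2, (ex_mul _ _ _).2 (by simpa [l, r] using hy),
          Prod.ext (productMap_left _ _) (productMap_right _ _)⟩⟩ (.ob_ten _ _)) (h.ten h')⟩
  rw [opSet_mul (P := P × Q), opSet_union (P := P × Q), opSet_image hl, opSet_image hr,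
    opSet_image hl, opSet_image hr]
  ext; simp; tauto

theorem tate_line : Tate k F (Set.univ : Set k) := by
  obtain ⟨h, hb⟩ := bij_line (F := F) (P := opP k {1} ∅) (P' := (Fn.line k).top) (by simp)
    (by simp)
  exact ⟨{(1 : k[X])}, ∅, by ext; simp [opSet, pt],
    (Good.uiso_iff (hb.uiso.comp uiso_aug)).2 .one⟩

variable [CharZero F]

theorem Tate.split (h : LC k Z) (hW : IsOp k W) (h1 : Tate k F (Z ∩ W)) (h2 : Tate k F (Z \ W)) :
    Tate k F Z := by
  classical
  obtain ⟨s, t, rfl⟩ := h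
  obtain ⟨u, rfl⟩ := hW
  obtain ⟨a, b, T⟩ := ses_op (k := k) (F := F) s t u
  exact ⟨s, t, rfl, .ses₂ T (h1.good (by rw [opSet_mul]; ext; simp; tauto))
    (h2.good (by rw [opSet_union]; ext; simp; tauto))⟩

theorem Tate.inter_op (h : Tate k F Z) (hW : IsOp k W) (h2 : Tate k F (Z \ W)) :
    Tate k F (Z ∩ W) := by
  classical
  obtain ⟨s, t, rfl, h⟩ := h
  obtain ⟨u, rfl⟩ := hW
  obtain ⟨a, b, T⟩ := ses_op (k := k) (F := F) s t u
  exact ⟨s * u, t, by rw [opSet_mul]; ext; simp; tauto,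
    .ses₁ T h (h2.good (by rw [opSet_union]; ext; simp; tauto))⟩

theorem tate_zero : Tate k F ({0} : Set k) := by
  obtain ⟨h, hb⟩ := bij_line (F := F) (P := opP k {1} {Polynomial.X}) (P' := tP k) (by simp)
    (by simp)
  exact ⟨{(1 : k[X])}, {(Polynomial.X : k[X])}, by
      ext x; simp [opSet, pt]; exact Eq.congr_left (Polynomial.aeval_X (R := k) x).symm,
    (Good.uiso_iff hb.uiso).2 .tP⟩

theorem tate_point (c : k) : Tate k F ({c} : Set k) :=
  tate_zero.retract (s := fun x => x - c) (p := fun x => x + c) (by fun_prop) (by fun_prop)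
    (by simp) (by simp)

theorem tate_units : Tate k F (Set.univ : Set kˣ) :=
  ((isLoc_units.tate_iff (Z := Set.univ ∩ {x | x ≠ 0}) (IsOp.univ.inter (.ne .id)).lc
    fun _ h => h.2).2 (tate_line.inter_op (.ne .id) (tate_zero.congr (by simp)))).congr (by simp)

theorem tate_unit_point (c : kˣ) : Tate k F ({c} : Set kˣ) :=
  ((isLoc_units.tate_iff (tate_point (F := F) (c : k)).lc (by simp)).2 (tate_point _)).congr
    (by simp [Units.ext_iff])

/-- A free coordinate is zero or invertible. -/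
theorem Tate.split_line {Z : Set (P × k)} (h : LC k Z) (h0 : Tate k F {x | (x, 0) ∈ Z})
    (h1 : Tate k F {x : P × kˣ | (x.1, (x.2 : k)) ∈ Z}) : Tate k F Z := by
  have hW : IsOp k {x : P × k | x.2 ≠ 0} := .ne (by fun_prop)
  refine .split h hW ((isLoc_units.prod_left.tate_iff (h.inter hW.lc) fun _ h => h.2).1
    (h1.congr (by simp))) ((h0.prod tate_zero).congr fun x => ?_)
  obtain ⟨x, c⟩ := x
  by_cases hc : c = 0 <;> simp [hc]

omit [CharZero F] in
theorem tate_pi (h : Tate k F (Set.univ : Set P)) (ι : Type) [Finite ι] :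
    Tate k F (Set.univ : Set (ι → P)) := by
  refine Finite.induction_empty_option (P := fun ι => ∀ [Finite ι],
    Tate k F (Set.univ : Set (ι → P))) (fun e ih _ => ?_) ?_ (fun ih _ => ?_) ι
  · have := Finite.of_equiv _ e.symm
    exact ih.retract (s := fun x i => x (e i)) (p := fun x i => x (e.symm i)) (by fun_prop)
      (by fun_prop) (by simp) (by simp)
  · intro _
    exact tate_line.retract (s := fun _ => 0) (p := fun _ => default) (by fun_prop)
      (by fun_prop) (fun _ => Subsingleton.elim _ _) (by simp)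
  · exact (h.prod ih).retract (s := fun x => (x none, fun i => x (some i)))
      (p := fun x i => Option.elim i x.1 x.2) (by fun_prop)
      (.pi fun i => by cases i <;> simp only [Option.elim] <;> fun_prop)
      (fun x => funext fun i => by cases i <;> rfl) (by simp)

omit [CharZero F] in
theorem tate_uni (n : ℕ) : Tate k F (Set.univ : Set (Uni n k)) :=
  (tate_pi tate_line _).retract (rg_copy (uniEquiv k)).1 (rg_copy (uniEquiv k)).2
    (uniEquiv k).symm_apply_apply (by simp)

end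

end Pool.Agent.Lib.MP_fc2ced_ag.E
end

-- part Pool.Agent.Lib.MP_fc2ced_ag.EChar
section

/-! Characters of tori and families of monomial matrices. -/

open Function Matrix

namespace Pool.Agent.Lib.MP_fc2ced_ag.E

noncomputable section

variable {k : Type} [Field k] {F : Type} [Field F] {J : Type} [Fintype J]

/-- Multiples of characters of a torus. -/
def IsChar (f : (J → kˣ) → kˣ) : Prop := ∃ (c : kˣ) (a : J → ℤ), ∀ t, f t = c * ∏ j, t j ^ a j

namespace IsChar

variable {f g : (J → kˣ) → kˣ}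

theorem const (c : kˣ) : IsChar fun _ : J → kˣ => c := ⟨c, 0, by simp⟩

theorem proj (j : J) : IsChar fun t : J → kˣ => t j := by
  classical
  exact ⟨1, Pi.single j 1, fun t => by
    rw [one_mul, Finset.prod_eq_single j (fun i _ h => by simp [h]) (by simp)]; simp⟩

theorem mul (hf : IsChar f) (hg : IsChar g) : IsChar fun t => f t * g t := by
  obtain ⟨c, a, hf⟩ := hf
  obtain ⟨c', a', hg⟩ := hg
  exact ⟨c * c', a + a', fun t => by
    simp only [hf, hg, Pi.add_apply, _root_.zpow_add, Finset.prod_mul_distrib, mul_mul_mul_comm]⟩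

theorem zpow (hf : IsChar f) (m : ℤ) : IsChar fun t => f t ^ m := by
  obtain ⟨c, a, hf⟩ := hf
  exact ⟨c ^ m, fun j => a j * m, fun t => by
    simp only [hf, mul_zpow, ← Finset.prod_zpow, _root_.zpow_mul]⟩

theorem inv (hf : IsChar f) : IsChar fun t => (f t)⁻¹ := by simpa using hf.zpow (-1)

theorem pow (hf : IsChar f) (m : ℕ) : IsChar fun t => f t ^ m := by simpa using hf.zpow m

theorem neg (hf : IsChar f) : IsChar fun t => -f t := by simpa using (const (-1)).mul hf

theorem prod {α : Type} (s : Finset α) {f : α → (J → kˣ) → kˣ} (h : ∀ a, IsChar (f a)) :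
    IsChar fun t => ∏ a ∈ s, f a t := by
  classical
  induction s using Finset.induction_on with
  | empty => simpa using const 1
  | insert a s ha ih => simpa [Finset.prod_insert ha] using (h a).mul ih

/-- Substitution of characters in a character. -/
theorem comp (hf : IsChar f) {J' : Type} [Fintype J'] {e : (J' → kˣ) → J → kˣ}
    (he : ∀ j, IsChar fun t => e t j) : IsChar fun t => f (e t) := by
  obtain ⟨c, a, hf⟩ := hf
  simpa only [hf] using (const c).mul (prod _ fun j => (he j).zpow (a j))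

theorem rg [IsAlgClosed k] (hf : IsChar f) : Rg k f := by
  obtain ⟨c, a, hf⟩ := hf
  exact Rg.congr (by fun_prop) hf

end IsChar

variable {n : ℕ}

/-- Families of monomial matrices whose entries are multiples of characters. -/
def IsMon (m : (J → kˣ) → GL (Fin n) k) : Prop := ∃ (v : Equiv.Perm (Fin n))
  (d : (J → kˣ) → Fin n → kˣ), (∀ j, IsChar fun t => d t j) ∧ ∀ t, m t = mon v (d t)

namespace IsMon

variable {m m' : (J → kˣ) → GL (Fin n) k}

theorem const (v : Equiv.Perm (Fin n)) (d : Fin n → kˣ) : IsMon fun _ : J → kˣ => mon v d :=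
  ⟨v, fun _ => d, fun _ => .const _, fun _ => rfl⟩

theorem mul (h : IsMon m) (h' : IsMon m') : IsMon fun t => m t * m' t := by
  obtain ⟨v, d, h1, h2⟩ := h
  obtain ⟨v', d', h3, h4⟩ := h'
  exact ⟨_, _, fun j => (h1 (v' j)).mul (h3 j),
    fun t => (congrArg₂ _ (h2 t) (h4 t)).trans (mon_mul ..)⟩

theorem inv (h : IsMon m) : IsMon fun t => (m t)⁻¹ := by
  obtain ⟨v, d, h1, h2⟩ := h
  exact ⟨_, _, fun j => (h1 (v⁻¹ j)).inv, fun t => (congrArg _ (h2 t)).trans (mon_inv ..)⟩

theorem comp (h : IsMon m) {J' : Type} [Fintype J'] {e : (J' → kˣ) → J → kˣ}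
    (he : ∀ j, IsChar fun t => e t j) : IsMon fun t => m (e t) := by
  obtain ⟨v, d, h1, h2⟩ := h
  exact ⟨v, fun t => d (e t), fun j => (h1 j).comp he, fun t => h2 _⟩

theorem Fr {p r : ℕ} {tw : Bool} [ExpChar k p] (h : IsMon m) :
    IsMon fun t => Fr p r tw (m t) := by
  obtain ⟨v, d, h1, h2⟩ := h
  refine ⟨_, _, fun j => ?_, fun t => (congrArg _ (h2 t)).trans (Fr_mon ..)⟩
  cases tw
  · exact (h1 j).pow _
  · exact (h1 j.rev).inv.pow _

theorem rg [IsAlgClosed k] (h : IsMon m) : Rg k m := by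
  obtain ⟨v, d, h1, h2⟩ := h
  exact (Rg.mon v (.pi fun j => (h1 j).rg)).congr h2

end IsMon

variable {P : Type} [Var k P]

theorem tate_set_pi [IsAlgClosed k] (ι : Type) [Finite ι] : ∀ {Z : ι → Set P},
    (∀ i, Tate k F (Z i)) → Tate k F {x : ι → P | ∀ i, x i ∈ Z i} := by
  refine Finite.induction_empty_option (P := fun ι => ∀ [Finite ι] {Z : ι → Set P},
    (∀ i, Tate k F (Z i)) → Tate k F {x : ι → P | ∀ i, x i ∈ Z i}) (fun e ih _ Z h => ?_) ?_
      (fun ih _ Z h => ?_) ι
  · have := Finite.of_equiv _ e.symm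
    exact (ih fun i => h (e i)).retract (s := fun x i => x (e i)) (p := fun x i => x (e.symm i))
      (by fun_prop) (by fun_prop) (by simp) fun y => by simp [e.surjective.forall]
  · intro _ Z _
    exact tate_line.retract (s := fun _ => 0) (p := fun _ => default) (by fun_prop)
      (by fun_prop) (fun _ => Subsingleton.elim _ _) (by simp)
  · exact ((h none).prod (ih fun i => h (some i))).retract
      (s := fun x => (x none, fun i => x (some i)))
      (p := fun x i => Option.elim i x.1 x.2) (by fun_prop)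
      (.pi fun i => by cases i <;> simp only [Option.elim] <;> fun_prop)
      (fun x => funext fun i => by cases i <;> rfl) (by simp [Option.forall])

theorem tate_uni_one [IsAlgClosed k] [CharZero F] (n : ℕ) : Tate k F ({1} : Set (Uni n k)) :=
  (tate_set_pi _ fun i => tate_point (uniEquiv k 1 i)).retract (Var.rg_copy (uniEquiv k)).1
    (Var.rg_copy (uniEquiv k)).2 (uniEquiv k).symm_apply_apply fun y => by
      simp [Equiv.symm_apply_eq, funext_iff]

end

end Pool.Agent.Lib.MP_fc2ced_ag.E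
end

-- part Pool.Agent.Lib.MP_fc2ced_ag.ETor
section

/-! Subsets of tori defined by characters. -/

namespace Pool.Agent.Lib.MP_fc2ced_ag.E

variable {k : Type} [Field k] [IsAlgClosed k] {F : Type} [Field F] [CharZero F]

variable (k F) in
/-- All subsets of the torus on `J` defined by characters are Tate. -/
def TorT (J : Type) [Fintype J] : Prop :=
  ∀ (I : Type) [Finite I] (f : I → (J → kˣ) → kˣ), (∀ i, IsChar (f i)) →
    Tate k F {t : J → kˣ | ∀ i, f i t = 1}

omit [IsAlgClosed k] in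
theorem tor_finite (c : kˣ) {a : ℤ} (ha : a ≠ 0) : {z : kˣ | c * z ^ a = 1}.Finite := by
  classical
  have key (d : kˣ) {m : ℕ} (hm : m ≠ 0) : {z : kˣ | z ^ m = d}.Finite := by
    refine ((Polynomial.nthRoots m (d : k)).toFinset.finite_toSet.preimage
      Units.val_injective.injOn).subset fun z hz => ?_
    have hz' : z ^ m = d := hz
    simp only [Set.mem_preimage, Finset.mem_coe, Multiset.mem_toFinset,
      Polynomial.mem_nthRoots (Nat.pos_of_ne_zero hm)]
    rw [← Units.val_pow_eq_pow_val, hz']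
  obtain ⟨m, rfl | rfl⟩ := a.eq_nat_or_neg
  · refine (key c⁻¹ (m := m) (by omega)).subset fun z hz => ?_
    have hz' : c * z ^ (m : ℤ) = 1 := hz
    rw [zpow_natCast] at hz'
    exact eq_inv_of_mul_eq_one_right hz'
  · refine (key c (m := m) (by omega)).subset fun z hz => ?_
    have hz' : c * z ^ (-(m : ℤ)) = 1 := hz
    rw [zpow_neg, zpow_natCast] at hz'
    exact (mul_inv_eq_one.1 hz').symm

variable {J : Type} [Fintype J] [DecidableEq J]

theorem tor_slice (i : J) (ih : TorT k F {j // j ≠ i}) {I : Type} [Finite I]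
    {f : I → (J → kˣ) → kˣ} (h : ∀ l, IsChar (f l)) (z : kˣ) :
    Tate k F {t : J → kˣ | t i = z ∧ ∀ l, f l t = 1} := by
  let p : kˣ × ({j // j ≠ i} → kˣ) → J → kˣ := fun y j => if h : j = i then y.1 else y.2 ⟨j, h⟩
  have h1 := ih I (fun l u => f l (p (z, u))) fun l => (h l).comp fun j => by
    by_cases hj : j = i
    · simpa only [p, dif_pos hj] using IsChar.const z
    · simpa only [p, dif_neg hj] using IsChar.proj (k := k) (⟨j, hj⟩ : {j // j ≠ i})
  refine ((tate_unit_point z).prod h1).retract (s := fun t => (t i, fun j => t j.1)) (p := p)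
    (by fun_prop) (.pi fun j => Rg.dite _ (fun _ => by fun_prop) fun _ => by fun_prop)
    (fun t => funext fun j => ?_) ?_
  · by_cases hj : j = i
    · subst hj
      exact dif_pos rfl
    · simp only [p, dif_neg hj]
  · rintro ⟨x, u⟩
    have e : p (x, u) i = x := dif_pos rfl
    simp only [Set.mem_prod, Set.mem_singleton_iff, Set.mem_ofPred_eq, e]
    exact and_congr_right fun hx => by rw [hx]

theorem tor_fin (i : J) (ih : TorT k F {j // j ≠ i}) {I : Type} [Finite I]
    {f : I → (J → kˣ) → kˣ} (h : ∀ l, IsChar (f l)) (S : Finset kˣ) :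
    Tate k F {t : J → kˣ | t i ∈ S ∧ ∀ l, f l t = 1} := by
  classical
  have hop (z : kˣ) : IsOp k {t : J → kˣ | t i ≠ z} := IsCl.eq (Rg.apply i) (Rg.const z)
  induction S using Finset.induction_on with
  | empty => exact Tate.empty.congr (by simp)
  | insert z S hz ihS =>
    have c1 : IsCl k {t : J → kˣ | t i ∈ insert z S} := by
      have := IsOp.forall (p := fun (w : (insert z S : Finset kˣ)) (t : J → kˣ) => t i ≠ w.1)
        fun w => hop w.1
      rwa [show {t : J → kˣ | ∀ w : (insert z S : Finset kˣ), t i ≠ w.1} =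
        {t : J → kˣ | t i ∈ insert z S}ᶜ from Set.ext fun t =>
          ⟨fun h1 h2 => h1 ⟨_, h2⟩ rfl, fun h1 w h2 => h1 (show t i ∈ _ from h2 ▸ w.2)⟩] at this
    have c2 : IsCl k {t : J → kˣ | ∀ l, f l t = 1} :=
      IsCl.forall fun l => IsCl.eq (h l).rg (Rg.const 1)
    refine Tate.split (c1.lc.inter c2.lc) (hop z) (ihS.congr fun t => ?_)
      ((tor_slice i ih h z).congr fun t => ?_)
    · simp only [Set.mem_inter_iff, Set.mem_ofPred_eq, Finset.mem_insert]
      exact ⟨fun h1 => ⟨h1.1.1.resolve_left h1.2, h1.1.2⟩,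
        fun h1 => ⟨⟨Or.inr h1.1, h1.2⟩, fun h2 => hz (h2 ▸ h1.1)⟩⟩
    · simp only [Set.mem_sdiff, Set.mem_inter_iff, Set.mem_ofPred_eq, Finset.mem_insert, not_not]
      exact ⟨fun h1 => ⟨h1.2, h1.1.2⟩, fun h1 => ⟨⟨Or.inl h1.1, h1.2⟩, h1.1⟩⟩

omit [IsAlgClosed k] in
theorem tor_subst {i j : J} (hij : i ≠ j) (e : ℤ) (a : J → ℤ) (t : J → kˣ) :
    ∏ l, Function.update t j (t j * t i ^ e) l ^ a l =
      ∏ l, t l ^ Function.update a i (a i + e * a j) l := by
  have h1 (l : J) : Function.update t j (t j * t i ^ e) l ^ a l =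
      t l ^ a l * if l = j then t i ^ (e * a j) else 1 := by
    by_cases hl : l = j
    · subst hl
      simp [mul_zpow, zpow_mul]
    · simp [hl]
  have h2 (l : J) : t l ^ Function.update a i (a i + e * a j) l =
      t l ^ a l * if l = i then t i ^ (e * a j) else 1 := by
    by_cases hl : l = i
    · subst hl
      simp [zpow_add]
    · simp [hl]
  simp only [h1, h2, Finset.prod_mul_distrib, Finset.prod_ite_eq', Finset.mem_univ, if_true]

theorem tor_step (ih : ∀ i : J, TorT k F {j // j ≠ i}) {I : Type} [Finite I]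
    (ihI : ∀ g : I → (J → kˣ) → kˣ, (∀ l, IsChar (g l)) → Tate k F {t : J → kˣ | ∀ l, g l t = 1})
    (c : kˣ) (N : ℕ) : ∀ (a : J → ℤ) (g : I → (J → kˣ) → kˣ), ∑ j, (a j).natAbs = N →
      (∀ l, IsChar (g l)) → Tate k F {t : J → kˣ | c * ∏ j, t j ^ a j = 1 ∧ ∀ l, g l t = 1} := by
  induction N using Nat.strong_induction_on with
  | _ N ihN =>
  intro a g hN hg
  by_cases h : ∃ i j, i ≠ j ∧ a j ≠ 0 ∧ (a j).natAbs ≤ (a i).natAbs
  · obtain ⟨i, j, hij, hj, hle⟩ := h
    obtain ⟨e, he⟩ : ∃ e : ℤ, (a i + e * a j).natAbs < (a i).natAbs := by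
      by_cases h1 : (a i + 1 * a j).natAbs < (a i).natAbs
      · exact ⟨1, h1⟩
      · exact ⟨-1, by omega⟩
    let φ : ℤ → (J → kˣ) → J → kˣ := fun e t => Function.update t j (t j * t i ^ e)
    have hφ (e : ℤ) (l : J) : IsChar fun t => φ e t l := by
      by_cases hl : l = j
      · subst hl
        simpa [φ] using (IsChar.proj (k := k) l).mul ((IsChar.proj i).zpow e)
      · simpa [φ, hl] using IsChar.proj (k := k) l
    have lt : ∑ l, (Function.update a i (a i + e * a j) l).natAbs < N := by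
      rw [← hN]
      refine Finset.sum_lt_sum (fun l _ => ?_) ⟨i, Finset.mem_univ _, by simpa using he⟩
      by_cases hl : l = i
      · subst hl
        simpa using he.le
      · simp [hl]
    refine (ihN _ lt _ (fun l t => g l (φ e t)) rfl fun l => (hg l).comp (hφ e)).retract
      (s := φ (-e)) (p := φ e) (.pi fun l => (hφ _ l).rg) (.pi fun l => (hφ _ l).rg)
      (fun t => funext fun l => ?_) fun t => ?_
    · by_cases hl : l = j
      · subst hl
        simp [φ, hij]
      · simp [φ, hl]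
    · simp only [Set.mem_ofPred_eq, φ, tor_subst hij]
  by_cases ha : ∃ i, a i ≠ 0
  · obtain ⟨i, hi⟩ := ha
    have h0 (j : J) (hj : j ≠ i) : a j = 0 := by
      by_contra h1
      rcases le_total (a j).natAbs (a i).natAbs with h2 | h2
      exacts [h ⟨i, j, hj.symm, h1, h2⟩, h ⟨j, i, hj, hi, h2⟩]
    refine (tor_fin i (ih i) hg (tor_finite c hi).toFinset).congr fun t => ?_
    rw [Set.mem_ofPred_eq, Set.mem_ofPred_eq, Set.Finite.mem_toFinset, Set.mem_ofPred_eq,
      Finset.prod_eq_single i (fun j _ hj => by simp [h0 j hj]) (by simp)]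
  · have h0 (j : J) : a j = 0 := by_contra fun h1 => ha ⟨j, h1⟩
    by_cases hc : c = 1
    · exact (ihI g hg).congr fun t => by simp [h0, hc]
    · exact Tate.empty.congr fun t => by simp [h0, hc]

theorem torT_step (ih : ∀ i : J, TorT k F {j // j ≠ i}) : TorT k F J := by
  intro I _
  refine Finite.induction_empty_option (P := fun I => ∀ f : I → (J → kˣ) → kˣ,
    (∀ i, IsChar (f i)) → Tate k F {t : J → kˣ | ∀ i, f i t = 1}) (fun e ihI f hf => ?_)
      (fun f _ => ?_) (fun ihI f hf => ?_) I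
  · exact (ihI (fun i => f (e i)) fun i => hf _).congr fun t => e.surjective.forall
  · exact (tate_pi tate_units J).congr (by simp)
  · obtain ⟨c, a, hc⟩ := hf none
    exact (tor_step ih ihI c _ a (fun l => f (some l)) rfl fun l => hf _).congr fun t => by
      simp only [Set.mem_ofPred_eq, Option.forall, hc]

theorem torT (n : ℕ) : ∀ (J : Type) [Fintype J], Fintype.card J = n → TorT k F J := by
  induction n using Nat.strong_induction_on with
  | _ n ih =>
  intro J _ hJ
  classical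
  exact torT_step fun i => ih _ (hJ ▸ Fintype.card_subtype_lt (x := i) (by simp)) _ rfl

theorem tate_torus {J I : Type} [Fintype J] [Finite I] {f : I → (J → kˣ) → kˣ}
    (h : ∀ i, IsChar (f i)) : Tate k F {t : J → kˣ | ∀ i, f i t = 1} := torT _ J rfl I f h

end Pool.Agent.Lib.MP_fc2ced_ag.E
end

-- part Pool.Agent.Lib.MP_fc2ced_ag.EPure
section

/-! Purity for the zero scheme of functions that are part of a system of etale coordinates. -/

open MvPolynomial

namespace Pool.Agent.Lib.MP_fc2ced_ag.E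

variable {k : Type} [Field k] {F : Type} [Field F]

/-- Nisnevich excision for an arbitrary finite index type. -/
theorem good_nis {B B' : Type} [CommRing B] [Algebra k B] [Algebra.Smooth k B] [CommRing B']
    [Algebra k B'] [Algebra.Smooth k B'] (α : B →ₐ[k] B') (hα : α.toRingHom.Etale) {ι : Type}
    [Finite ι] (f : ι → B) (h : Function.Bijective (Ideal.quotientMap
      ((Ideal.span (Set.range f)).map α.toRingHom) α.toRingHom Ideal.le_comap_map)) :
    Good ((relP k fun i => α (f i)).ob F) ↔ Good ((relP k f).ob F) := by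
  let := α.toRingHom.toAlgebra
  have : IsScalarTower k B B' := .of_algHom α
  have : Algebra.Etale B B' := hα
  obtain ⟨c, ⟨e⟩⟩ := Finite.exists_equiv_fin ι
  have h2 : NisData B B' fun i => f (e.symm i) := nisData_iff.2 (by
    rw [show Set.range (fun i => f (e.symm i)) = Set.range f from e.symm.surjective.range_comp f]
    exact h)
  obtain ⟨g, hg⟩ := Eqv.of_live (F := F) (P := relP k f) (P' := relP k fun i => f (e.symm i))
    fun _ x => by simp only [e.symm.surjective.exists]
  obtain ⟨g', hg'⟩ := Eqv.of_live (F := F) (P := relP k fun i => α (f i))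
    (P' := relP k fun i => α (f (e.symm i))) fun _ x => by simp only [e.symm.surjective.exists]
  exact (Good.uiso_iff (hg'.uiso.comp (.gen (.nis B B' c _ h2)))).trans
    (Good.uiso_iff hg.uiso).symm

/-- The points of an affine space modulo the complement of the zero section. -/
theorem eqv_rel_X (A : Type) [CommRing A] [Algebra k A] [Algebra.FiniteType k A] (ι : Type)
    [Finite ι] : Eqv ((relP k (X : ι → MvPolynomial ι A)).ob F)
      (((Fn.spec k A).top.ob F).ten (((tP k).ob F).pow ι)) := by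
  have h : Pair.IsMap (relP k (X : ι → MvPolynomial ι A))
      ((Fn.spec k A).top.prod ((tP k).pi ι)) fun _ x =>
        (x.comp (IsScalarTower.toAlgHom k A _), fun i => x (X i)) :=
    ⟨fun _ _ _ _ _ => rfl, fun _ _ _ => ⟨trivial, fun _ => trivial⟩, fun _ _ _ h => .inr h⟩
  refine (Eqv.trans ⟨_, h.bij (fun _ _ _ h => h.elim False.elim id)
    (fun _ x x' _ _ _ _ h => ?_) fun _ y _ _ => ⟨aevalTower y.1 y.2, trivial, ?_⟩⟩
    (.ob_ten _ _)).trans ((Eqv.refl _).ten (.ob_pow _ _))
  · exact algHom_ext' congr(($h).1) fun i => congr(($h).2 i)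
  · exact Prod.ext (aevalTower_comp_toAlgHom _ _) (funext fun i => aevalTower_X _ _ i)

variable [CharZero F]

theorem good_pure {Y B : Type} [CommRing Y] [Algebra k Y] [Algebra.Smooth k Y] [CommRing B]
    [Algebra k B] [Algebra.Smooth k B] [Algebra Y B] [IsScalarTower k Y B] {ι : Type} [Finite ι]
    (f : ι → B) (hf : (aeval f : MvPolynomial ι Y →ₐ[Y] B).toRingHom.Etale)
    (h : Good ((relP k f).ob F)) :
    Good (((Fn.spec k (B ⧸ Ideal.span (Set.range f))).top.ob F).ten (((gP k).ob F).pow ι)) := by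
  have := etale_quot f hf
  have : Algebra.Smooth k (B ⧸ Ideal.span (Set.range f)) := .comp k Y _
  have : Algebra.Smooth (B ⧸ Ideal.span (Set.range f))
    (MvPolynomial ι (B ⧸ Ideal.span (Set.range f))) := {}
  have : Algebra.Smooth k (MvPolynomial ι (B ⧸ Ideal.span (Set.range f))) :=
    .comp k (B ⧸ Ideal.span (Set.range f)) _
  obtain ⟨B', _, α, β, hα, hβ, h1, h2, h3, h4⟩ := exists_nis_pair f hf
  let := (α.comp (algebraMap k B)).toAlgebra
  let α' : B →ₐ[k] B' := ⟨α, fun _ => rfl⟩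
  let β' : MvPolynomial ι (B ⧸ Ideal.span (Set.range f)) →ₐ[k] B' := ⟨β, fun c => by
    have := h2 (algebraMap k Y c)
    rw [← IsScalarTower.algebraMap_apply, ← IsScalarTower.algebraMap_apply] at this
    exact this⟩
  have : Algebra.Smooth k B' := by
    let := α.toAlgebra
    have : IsScalarTower k B B' := .of_algHom α'
    have : Algebra.Etale B B' := hα
    exact .comp k B _
  have h5 := (good_nis α' hα f h3).2 h
  rw [show (fun i => α' (f i)) = fun i => β' (X i) from funext fun i => (h1 i).symm] at h5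
  exact Good.ten_gP ι _ (.sm _) (.of_eqv (eqv_rel_X _ ι).symm ((good_nis β' hβ X h4).1 h5))

end Pool.Agent.Lib.MP_fc2ced_ag.E
end
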