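import Pool.Agent.Lib.MP_fc2ced_ag.EPow

/-! Theories: additive functors to motives that turn short exact sequences into distinguished
triangles and invert the generating maps. Statements valid in all theories. -/

open CategoryTheory CategoryTheory.Limits CategoryTheory.Pretriangulated Function
open scoped TensorProduct Polynomial

namespace Pool.Agent.Lib.MP_fc2ced_ag.E

noncomputable section

variable {k : Type} [Field k] {F : Type} [Field F]

open Ob

variable (k) in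
/-- The functor of points of an algebra of finite type. -/
@[reducible] def Fn.spec (B : Type) [CommRing B] [Algebra k B] [Algebra.FiniteType k B] :
    Fn k where
  X O := B →ₐ[k] O
  map g x := g.comp x
  map_id _ _ := rfl
  map_comp _ _ _ := rfl
  fin O x := by
    classical
    obtain ⟨s, hs⟩ := Algebra.FiniteType.out (R := k) (A := B)
    exact ⟨s.image x, fun O' f g h => AlgHom.ext_of_adjoin_eq_top hs fun b hb =>
      h _ (Finset.mem_image_of_mem x hb)⟩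

/-- All points. -/
@[reducible] def Fn.top (X : Fn k) : Pair X :=
  ⟨fun _ _ => True, fun _ _ => False, fun _ _ _ _ h => h, fun _ _ _ _ h => h⟩

section Spec
variable {B B' : Type} [CommRing B] [Algebra k B] [Algebra.FiniteType k B] [CommRing B']
  [Algebra k B'] [Algebra.FiniteType k B']

variable (k) in
/-- The quotient by the open subsets where one of the `f i` is invertible. -/
@[reducible] def relP {ι : Type} (f : ι → B) : Pair (.spec k B) :=
  ⟨fun _ _ => True, fun _ x => ∃ i, IsUnit (x (f i)), fun _ _ _ _ h => h,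
    fun _ _ g _ h => h.imp fun _ h => h.map g⟩

theorem isMap_top (ψ : B' →ₐ[k] B) :
    Pair.IsMap (Fn.spec k B).top (Fn.spec k B').top fun _ x => x.comp ψ :=
  ⟨fun _ _ _ _ _ => rfl, fun _ _ h => h, fun _ _ _ h => h⟩

theorem isMap_rel (ψ : B' →ₐ[k] B) {ι : Type} (f : ι → B') :
    Pair.IsMap (relP k fun i => ψ (f i)) (relP k f) fun _ x => x.comp ψ :=
  ⟨fun _ _ _ _ _ => rfl, fun _ _ h => h, fun _ _ _ h => h⟩

end Spec

instance smooth_polynomial (B : Type) [CommRing B] [Algebra k B] [Algebra.Smooth k B] :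
    Algebra.Smooth k B[X] :=
  have : Algebra.Smooth B B[X] := {}
  .comp k B _

instance smooth_tensor (B C : Type) [CommRing B] [Algebra k B] [Algebra.Smooth k B] [CommRing C]
    [Algebra k C] [Algebra.Smooth k C] : Algebra.Smooth k (B ⊗[k] C) := .comp k B _

/-- An etale map that is an isomorphism over the zero scheme of `f`. -/
structure NisData (B B' : Type) [CommRing B] [CommRing B'] [Algebra B B'] {ι : Type} (f : ι → B) :
    Prop where
  etale : Algebra.Etale B B'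
  retr : Nonempty (B' →ₐ[B] B ⧸ Ideal.span (Set.range f))
  surj : ∀ b' : B', ∃ b, b' - algebraMap B B' b ∈
    Ideal.span (Set.range fun i => algebraMap B B' (f i))

theorem map_span_range {B B' ι : Type} [CommRing B] [CommRing B'] (φ : B →+* B') (f : ι → B) :
    (Ideal.span (Set.range f)).map φ = Ideal.span (Set.range fun i => φ (f i)) := by
  rw [Ideal.map_span, ← Set.range_comp]; rfl

theorem NisData.baseChange {B B' : Type} [CommRing B] [CommRing B'] [Algebra B B'] {ι : Type}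
    {f : ι → B} (h : NisData B B' f) (C : Type) [CommRing C] [Algebra B C] :
    NisData C (C ⊗[B] B') fun i => algebraMap B C (f i) where
  etale := by have := h.etale; infer_instance
  retr := h.retr.elim fun ρ => ⟨Algebra.TensorProduct.lift (Ideal.Quotient.mkₐ C _)
    ((Ideal.quotientMapₐ _ (Algebra.ofId B C) (by
      rw [← map_span_range]; exact Ideal.le_comap_map)).comp ρ) fun _ _ => .all _ _⟩
  surj x := by
    induction x with
    | zero => exact ⟨0, by simp⟩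
    | tmul c b' =>
      obtain ⟨b, hb⟩ := h.surj b'
      refine ⟨c * algebraMap B C b, ?_⟩
      have h1 := Ideal.mem_map_of_mem
        (Algebra.TensorProduct.includeRight (R := B) (A := C) (B := B')).toRingHom hb
      rw [map_span_range] at h1
      have e (b : B) : algebraMap C (C ⊗[B] B') (algebraMap B C b) = 1 ⊗ₜ algebraMap B B' b := by
        rw [← IsScalarTower.algebraMap_apply, Algebra.TensorProduct.algebraMap_apply']
      convert Ideal.mul_mem_left _ (c ⊗ₜ 1) h1 using 1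
      · simp only [e]; rfl
      · rw [map_mul, e]; simp [TensorProduct.tmul_sub, mul_sub]
    | add x y hx hy =>
      obtain ⟨a, ha⟩ := hx
      obtain ⟨b, hb⟩ := hy
      exact ⟨a + b, by rw [map_add, add_sub_add_comm]; exact add_mem ha hb⟩

theorem nisData_iff {B B' : Type} [CommRing B] [CommRing B'] [Algebra B B'] [Algebra.Etale B B']
    {ι : Type} {f : ι → B} : NisData B B' f ↔ Bijective (Ideal.quotientMap
      ((Ideal.span (Set.range f)).map (algebraMap B B')) (algebraMap B B') Ideal.le_comap_map) := by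
  constructor
  · rintro ⟨-, ⟨ρ⟩, h⟩
    refine ⟨Ideal.quotientMap_injective' fun b hb => ?_, fun x => ?_⟩
    · have : (Ideal.span (Set.range f)).map (algebraMap B B') ≤ RingHom.ker ρ.toRingHom :=
        Ideal.map_le_iff_le_comap.2 fun b hb => by
          simpa [RingHom.mem_ker, Ideal.Quotient.eq_zero_iff_mem] using hb
      simpa [RingHom.mem_ker, Ideal.Quotient.eq_zero_iff_mem] using this hb
    · obtain ⟨x, rfl⟩ := Ideal.Quotient.mk_surjective x
      obtain ⟨b, hb⟩ := h x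
      refine ⟨Ideal.Quotient.mk _ b, ?_⟩
      rw [Ideal.quotientMap_mk, eq_comm, Ideal.Quotient.eq, map_span_range]
      exact hb
  · intro h
    let e := RingEquiv.ofBijective _ h
    refine ⟨inferInstance, ⟨⟨e.symm.toRingHom.comp (Ideal.Quotient.mk _), fun b => ?_⟩⟩,
      fun x => ?_⟩
    · exact e.symm_apply_eq.2 rfl
    · obtain ⟨b, hb⟩ := h.2 (Ideal.Quotient.mk _ x)
      obtain ⟨b, rfl⟩ := Ideal.Quotient.mk_surjective b
      rw [Ideal.quotientMap_mk, eq_comm, Ideal.Quotient.eq, map_span_range] at hb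
      exact ⟨b, hb⟩

variable (k F) in
/-- The generating maps. -/
inductive Gn : MorphismProperty (Ob k F)
  | line (B : Type) [CommRing B] [Algebra k B] [Algebra.Smooth k B] :
      Gn ((isMap_top (Polynomial.CAlgHom : B →ₐ[k] B[X])).hom F)
  | nis (B B' : Type) [CommRing B] [Algebra k B] [Algebra.Smooth k B] [CommRing B'] [Algebra k B']
      [Algebra.Smooth k B'] [Algebra B B'] [IsScalarTower k B B'] (c : ℕ) (f : Fin c → B)
      (h : NisData B B' f) : Gn ((isMap_rel (IsScalarTower.toAlgHom k B B') f).hom F)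

variable (k F) in
/-- A theory with values in motives. -/
structure Theory where
  Φ : Ob k F ⥤ DM k
  [add : Φ.Additive]
  δ : ∀ {M₁ M₂ M₃ : Ob k F} {i : M₁ ⟶ M₂} {p : M₂ ⟶ M₃}, Ses i p →
    (Φ.obj M₃ ⟶ (Φ.obj M₁)⟦(1 : ℤ)⟧)
  dist : ∀ {M₁ M₂ M₃ : Ob k F} {i : M₁ ⟶ M₂} {p : M₂ ⟶ M₃} (T : Ses i p),
    Triangle.mk (Φ.map i) (Φ.map p) (δ T) ∈ distTriang (DM k)
  nat : ∀ {M₁ M₂ M₃ : Ob k F} {i : M₁ ⟶ M₂} {p : M₂ ⟶ M₃} (T : Ses i p) {N₁ N₂ N₃ : Ob k F}
    {i' : N₁ ⟶ N₂} {p' : N₂ ⟶ N₃} (T' : Ses i' p') (a : M₁ ⟶ N₁) (b : M₂ ⟶ N₂) (c : M₃ ⟶ N₃),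
    i ≫ b = a ≫ i' → p ≫ c = b ≫ p' → δ T ≫ (Φ.map a)⟦(1 : ℤ)⟧' = Φ.map c ≫ δ T'
  gen : ∀ {X Y : Ob k F} (u : X ⟶ Y), Gn k F u → IsIso (Φ.map u)

attribute [instance] Theory.add

variable {M M' M'' N N' : Ob k F}

/-- Zero in all theories. -/
def Null (f : M ⟶ M') : Prop := ∀ Θ : Theory k F, Θ.Φ.map f = 0
/-- Invertible in all theories. -/
def UIso (f : M ⟶ M') : Prop := ∀ Θ : Theory k F, IsIso (Θ.Φ.map f)
/-- Zero object in all theories. -/
def UZero (M : Ob k F) : Prop := ∀ Θ : Theory k F, IsZero (Θ.Φ.obj M)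
/-- Objects that can be used to twist a theory. -/
def Con (N : Ob k F) : Prop :=
  ∀ ⦃X Y : Ob k F⦄ (u : X ⟶ Y), Gn k F u → UIso (tenMap u (𝟙 N))

/-- The twist of a theory. -/
def Theory.ten (Θ : Theory k F) (N : Ob k F) (h : Con N) : Theory k F where
  Φ := tenF N ⋙ Θ.Φ
  δ T := Θ.δ (T.ten N)
  dist T := Θ.dist (T.ten N)
  nat T _ _ _ _ _ T' a b c h1 h2 := Θ.nat (T.ten N) (T'.ten N) (tenMap a (𝟙 N))
    (tenMap b (𝟙 N)) (tenMap c (𝟙 N)) (by rw [← tenMap_comp, ← tenMap_comp, h1])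
    (by rw [← tenMap_comp, ← tenMap_comp, h2])
  gen u hu := h u hu Θ

namespace Null

theorem zero : Null (0 : M ⟶ M') := fun Θ => Θ.Φ.map_zero _ _
theorem add {f g : M ⟶ M'} (hf : Null f) (hg : Null g) : Null (f + g) := fun Θ => by
  rw [Θ.Φ.map_add, hf Θ, hg Θ, add_zero]
theorem neg {f : M ⟶ M'} (hf : Null f) : Null (-f) := fun Θ => by
  rw [Θ.Φ.map_neg, hf Θ, neg_zero]
theorem sub {f g : M ⟶ M'} (hf : Null f) (hg : Null g) : Null (f - g) := fun Θ => by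
  rw [Θ.Φ.map_sub, hf Θ, hg Θ, sub_zero]
theorem comp {f : M ⟶ M'} (hf : Null f) (g : M' ⟶ M'') : Null (f ≫ g) := fun Θ => by
  rw [Θ.Φ.map_comp, hf Θ, zero_comp]
theorem precomp (f : M ⟶ M') {g : M' ⟶ M''} (hg : Null g) : Null (f ≫ g) := fun Θ => by
  rw [Θ.Φ.map_comp, hg Θ, comp_zero]
theorem smul (q : F) {f : M ⟶ M'} (hf : Null f) : Null (q • f) := by
  simpa using hf.comp (q • 𝟙 M')
theorem sum {ι : Type} {s : Finset ι} {f : ι → (M ⟶ M')} (h : ∀ i ∈ s, Null (f i)) :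
    Null (∑ i ∈ s, f i) := Finset.sum_induction f Null (fun _ _ => add) zero h
theorem of_sub {f g : M ⟶ M'} (h : Null (f - g)) (hg : Null g) : Null f := by
  simpa using h.add hg
theorem symm {f g : M ⟶ M'} (h : Null (f - g)) : Null (g - f) := by simpa using h.neg
theorem trans {f g h : M ⟶ M'} (h1 : Null (f - g)) (h2 : Null (g - h)) : Null (f - h) := by
  simpa using h1.add h2
theorem map_eq {f g : M ⟶ M'} (h : Null (f - g)) (Θ : Theory k F) : Θ.Φ.map f = Θ.Φ.map g :=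
  sub_eq_zero.1 (by rw [← Θ.Φ.map_sub, h Θ])
theorem of_uiso_comp {u : M ⟶ M'} (hu : UIso u) {f : M' ⟶ M''} (h : Null (u ≫ f)) : Null f :=
  fun Θ => by
    have := hu Θ
    rw [← cancel_epi (Θ.Φ.map u), ← Θ.Φ.map_comp, h Θ, comp_zero]
theorem of_comp_uiso {f : M ⟶ M'} {u : M' ⟶ M''} (hu : UIso u) (h : Null (f ≫ u)) : Null f :=
  fun Θ => by
    have := hu Θ
    rw [← cancel_mono (Θ.Φ.map u), ← Θ.Φ.map_comp, h Θ, zero_comp]
theorem ten {f : M ⟶ M'} (hf : Null f) (h : Con N) : Null (tenMap f (𝟙 N)) :=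
  fun Θ => hf (Θ.ten N h)

end Null

variable (M M') in
/-- The morphisms that vanish in all theories. -/
def nullSub : Submodule F (M ⟶ M') where
  carrier := {f | Null f}
  add_mem' := Null.add
  zero_mem' := Null.zero
  smul_mem' q _ := Null.smul q

namespace UIso

theorem of_isIso (f : M ⟶ M') [IsIso f] : UIso f := fun _ => inferInstance
theorem id : UIso (𝟙 M) := of_isIso _
theorem comp {f : M ⟶ M'} {g : M' ⟶ M''} (hf : UIso f) (hg : UIso g) : UIso (f ≫ g) :=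
  fun Θ => by have := hf Θ; have := hg Θ; rw [Θ.Φ.map_comp]; infer_instance
theorem of_comp_left {f : M ⟶ M'} {g : M' ⟶ M''} (hf : UIso f) (h : UIso (f ≫ g)) : UIso g :=
  fun Θ => by
    have := hf Θ; have := h Θ; rw [Θ.Φ.map_comp] at this
    exact IsIso.of_isIso_comp_left (Θ.Φ.map f) _
theorem of_comp_right {f : M ⟶ M'} {g : M' ⟶ M''} (hg : UIso g) (h : UIso (f ≫ g)) : UIso f :=
  fun Θ => by
    have := hg Θ; have := h Θ; rw [Θ.Φ.map_comp] at this
    exact IsIso.of_isIso_comp_right _ (Θ.Φ.map g)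
theorem of_null_sub {f g : M ⟶ M'} (h : Null (f - g)) (hg : UIso g) : UIso f :=
  fun Θ => by rw [h.map_eq Θ]; exact hg Θ
theorem smul {q : F} (hq : q ≠ 0) {f : M ⟶ M'} (hf : UIso f) : UIso (q • f) := by
  have : IsIso (q • 𝟙 M') := ⟨q⁻¹ • 𝟙 M', by simp [smul_smul, hq], by simp [smul_smul, hq]⟩
  simpa using hf.comp (of_isIso (q • 𝟙 M'))
theorem ten {f : M ⟶ M'} (hf : UIso f) (h : Con N) : UIso (tenMap f (𝟙 N)) :=
  fun Θ => hf (Θ.ten N h)
theorem gen {f : M ⟶ M'} (hf : Gn k F f) : UIso f := fun Θ => Θ.gen f hf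
theorem uzero_iff {f : M ⟶ M'} (hf : UIso f) : UZero M ↔ UZero M' :=
  forall_congr' fun Θ => have := hf Θ; (asIso (Θ.Φ.map f)).isZero_iff
/-- A retract of an invertible map is invertible. -/
theorem retract {X Y X' Y' : Ob k F} {u : X ⟶ Y} {u' : X' ⟶ Y'} (hu : UIso u) {s : X' ⟶ X}
    {p : X ⟶ X'} {s' : Y' ⟶ Y} {p' : Y ⟶ Y'} (h : UIso (s ≫ p)) (h' : UIso (s' ≫ p'))
    (e1 : s ≫ u = u' ≫ s') (e2 : p ≫ u' = u ≫ p') : UIso u' := fun Θ => by
  have := hu Θ; have := h Θ; have := h' Θ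
  have a1 : Θ.Φ.map u' ≫ (Θ.Φ.map s' ≫ inv (Θ.Φ.map u) ≫ Θ.Φ.map p) = Θ.Φ.map (s ≫ p) := by
    rw [← Θ.Φ.map_comp_assoc, ← e1]; simp
  have a2 : (Θ.Φ.map s' ≫ inv (Θ.Φ.map u) ≫ Θ.Φ.map p) ≫ Θ.Φ.map u' = Θ.Φ.map (s' ≫ p') := by
    simp only [Category.assoc]; rw [← Θ.Φ.map_comp, e2]; simp
  have : Mono (Θ.Φ.map u') := mono_of_mono_fac a1
  have : IsSplitEpi (Θ.Φ.map u') := ⟨⟨inv (Θ.Φ.map (s' ≫ p')) ≫
    (Θ.Φ.map s' ≫ inv (Θ.Φ.map u) ≫ Θ.Φ.map p), by rw [Category.assoc, a2]; simp⟩⟩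
  exact isIso_of_mono_of_isSplitEpi _

end UIso

theorem Bij.uiso {f : M ⟶ M'} (h : Bij f) : UIso f := have := h.isIso; .of_isIso f

namespace UZero

theorem iff_null : UZero M ↔ Null (𝟙 M) :=
  forall_congr' fun Θ => by rw [IsZero.iff_id_eq_zero, Θ.Φ.map_id]
theorem null_left (h : UZero M) (f : M ⟶ M') : Null f := fun Θ => (h Θ).eq_of_src _ _
theorem null_right (h : UZero M') (f : M ⟶ M') : Null f := fun Θ => (h Θ).eq_of_tgt _ _
theorem uiso (h : UZero M) (h' : UZero M') (f : M ⟶ M') : UIso f :=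
  fun Θ => (h Θ).isIso (h' Θ) _
theorem ten (h : UZero M) (hN : Con N) : UZero (M.ten N) := fun Θ => h (Θ.ten N hN)
theorem of_subsingleton (h : ∀ O, Subsingleton (M.V O)) : UZero M :=
  iff_null.2 (by
    rw [show 𝟙 M = 0 from hom_ext fun O => LinearMap.ext fun _ => Subsingleton.elim _ _]
    exact .zero)

end UZero

namespace Ses

variable {M₁ M₂ M₃ : Ob k F} {i : M₁ ⟶ M₂} {p : M₂ ⟶ M₃} (T : Ses i p)
  {N₁ N₂ N₃ : Ob k F} {i' : N₁ ⟶ N₂} {p' : N₂ ⟶ N₃} (T' : Ses i' p')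

include T

theorem uzero₁_iff : UZero M₁ ↔ UIso p :=
  forall_congr' fun Θ => Triangle.isZero₁_iff_isIso₂ _ (Θ.dist T)
theorem uzero₃_iff : UZero M₃ ↔ UIso i :=
  forall_congr' fun Θ => Triangle.isZero₃_iff_isIso₁ _ (Θ.dist T)
theorem uzero₂ (h₁ : UZero M₁) (h₃ : UZero M₃) : UZero M₂ :=
  (T.uzero₁_iff.1 h₁).uzero_iff.2 h₃
theorem uzero₃ (h₁ : UZero M₁) (h₂ : UZero M₂) : UZero M₃ :=
  (T.uzero₁_iff.1 h₁).uzero_iff.1 h₂
theorem uzero₁ (h₂ : UZero M₂) (h₃ : UZero M₃) : UZero M₁ :=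
  (T.uzero₃_iff.1 h₃).uzero_iff.2 h₂

/-- A map that vanishes on the first term factors through the third. -/
theorem null_of_i {f : M₂ ⟶ N} (h : Null (i ≫ f)) {g : M ⟶ M₂} (hg : Null (g ≫ p)) :
    Null (g ≫ f) := fun Θ => by
  obtain ⟨t, ht⟩ := Triangle.yoneda_exact₂ _ (Θ.dist T) (Θ.Φ.map f)
    ((Θ.Φ.map_comp _ _).symm.trans (h Θ))
  rw [Θ.Φ.map_comp, ht]
  exact ((Θ.Φ.map_comp_assoc _ _ _).symm.trans (by rw [hg Θ, zero_comp]))

variable {a : M₁ ⟶ N₁} {b : M₂ ⟶ N₂} {c : M₃ ⟶ N₃}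

/-- The morphism of triangles. -/
def hom (h1 : i ≫ b = a ≫ i') (h2 : p ≫ c = b ≫ p') (Θ : Theory k F) :
    Triangle.mk (Θ.Φ.map i) (Θ.Φ.map p) (Θ.δ T) ⟶
      Triangle.mk (Θ.Φ.map i') (Θ.Φ.map p') (Θ.δ T') where
  hom₁ := Θ.Φ.map a
  hom₂ := Θ.Φ.map b
  hom₃ := Θ.Φ.map c
  comm₁ := (Θ.Φ.map_comp _ _).symm.trans (h1 ▸ Θ.Φ.map_comp _ _)
  comm₂ := (Θ.Φ.map_comp _ _).symm.trans (h2 ▸ Θ.Φ.map_comp _ _)
  comm₃ := Θ.nat T T' a b c h1 h2

include T'

theorem five₁ (h1 : i ≫ b = a ≫ i') (h2 : p ≫ c = b ≫ p') (hb : UIso b) (hc : UIso c) :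
    UIso a := fun Θ =>
  isIso₁_of_isIso₂₃ (T.hom T' h1 h2 Θ) (Θ.dist T) (Θ.dist T') (hb Θ) (hc Θ)
theorem five₂ (h1 : i ≫ b = a ≫ i') (h2 : p ≫ c = b ≫ p') (ha : UIso a) (hc : UIso c) :
    UIso b := fun Θ =>
  isIso₂_of_isIso₁₃ (T.hom T' h1 h2 Θ) (Θ.dist T) (Θ.dist T') (ha Θ) (hc Θ)
theorem five₃ (h1 : i ≫ b = a ≫ i') (h2 : p ≫ c = b ≫ p') (ha : UIso a) (hb : UIso b) :
    UIso c := fun Θ =>
  isIso₃_of_isIso₁₂ (T.hom T' h1 h2 Θ) (Θ.dist T) (Θ.dist T') (ha Θ) (hb Θ)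

/-- Desuspension. -/
theorem null_of_null₃ (h1 : i ≫ b = a ≫ i') (h2 : p ≫ c = b ≫ p') (h : UZero M₂)
    (hc : Null c) : Null a := fun Θ => by
  have : IsIso (Θ.δ T) := (Triangle.isZero₂_iff_isIso₃ _ (Θ.dist T)).1 (h Θ)
  have h3 := Θ.nat T T' a b c h1 h2
  rw [hc Θ, zero_comp, ← comp_zero (f := Θ.δ T), cancel_epi] at h3
  exact (shiftFunctor (DM k) (1 : ℤ)).map_injective (h3.trans (Functor.map_zero _ _ _).symm)

/-- Suspension. -/
theorem null_of_null₁ (h1 : i ≫ b = a ≫ i') (h2 : p ≫ c = b ≫ p') (h : UZero N₂)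
    (ha : Null a) : Null c := fun Θ => by
  have : IsIso (Θ.δ T') := (Triangle.isZero₂_iff_isIso₃ _ (Θ.dist T')).1 (h Θ)
  have h3 := Θ.nat T T' a b c h1 h2
  rw [ha Θ, Functor.map_zero, comp_zero, ← zero_comp (f := Θ.δ T'), cancel_mono] at h3
  exact h3.symm

end Ses

theorem UZero.dead {X : Fn k} {P : Pair X} (h : ∀ ⦃O⦄ (x : X.X O), P.N x → P.D x) :
    UZero (P.ob F) := .of_subsingleton fun O =>
  have : IsEmpty (P.Live O) := ⟨fun x => x.2.2 (h _ x.2.1)⟩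
  inferInstanceAs (Subsingleton (P.Live O →₀ F))

theorem Null.ten_left {f : M ⟶ M'} (hf : Null f) (h : Con N) : Null (tenMap (𝟙 N) f) :=
  .of_comp_uiso (bij_swap _ _).uiso (by rw [swap_nat]; exact (hf.ten h).precomp _)

theorem UIso.ten_comm {f : M ⟶ M'} {g : N ⟶ N'} (hf : UIso (tenMap f g)) : UIso (tenMap g f) :=
  .of_comp_right (bij_swap _ _).uiso (by rw [swap_nat]; exact (bij_swap _ _).uiso.comp hf)

theorem UIso.ten_left {f : M ⟶ M'} (hf : UIso f) (h : Con N) : UIso (tenMap (𝟙 N) f) :=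
  (hf.ten h).ten_comm

theorem UZero.ten_left (h : UZero M) (hN : Con N) : UZero (N.ten M) :=
  (bij_swap _ _).uiso.uzero_iff.1 (h.ten hN)

theorem UIso.ten₂ {f : M ⟶ M'} {g : N ⟶ N'} (hf : UIso f) (hg : UIso g) (hN : Con N)
    (hM : Con M') : UIso (tenMap f g) := by
  rw [tenMap_eq]; exact (hf.ten hN).comp (hg.ten_left hM)

theorem Null.ten₁ {f : M ⟶ M'} (hf : Null f) (g : N ⟶ N') (h : Con N) : Null (tenMap f g) := by
  rw [tenMap_eq]; exact (hf.ten h).comp _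

theorem Null.ten₂ {g : N ⟶ N'} (hg : Null g) (f : M ⟶ M') (h : Con M) : Null (tenMap f g) := by
  rw [tenMap_eq']; exact (hg.ten_left h).comp _

end

end Pool.Agent.Lib.MP_fc2ced_ag.E
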