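import Pool.Agent.Lib.MP_fc2ced_ag.RFA

-- part Pool.Agent.Lib.MP_fc2ced_ag.GeoDefs
section

/-!
The surfaces `w ^ n = f / q ^ 2` and the threefolds `u ^ n x (1 - x) = f / q ^ 2`.
-/

open scoped Polynomial Matrix

namespace Pool.Agent.Lib.MP_fc2ced_ag

/-- The quadratic form of a matrix. -/
def qf {O : Type} [CommRing O] (M : Matrix (Fin 3) (Fin 3) O) (v : Fin 3 → O) : O := v ⬝ᵥ M *ᵥ v

theorem map_qf {O O' G : Type} [CommRing O] [CommRing O'] [FunLike G O O'] [RingHomClass G O O']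
    (ρ : G) (M : Matrix (Fin 3) (Fin 3) O) (v : Fin 3 → O) :
    ρ (qf M v) = qf (M.map ρ) (ρ ∘ v) := by
  simp [qf, dotProduct, Matrix.mulVec, map_sum]

theorem qf_smul {O : Type} [CommRing O] (M : Matrix (Fin 3) (Fin 3) O) (c : O) (v : Fin 3 → O) :
    qf M (c • v) = c ^ 2 * qf M v := by
  simp [qf, Matrix.mulVec_smul, pow_two, mul_assoc]

theorem isUnit_natCast (k S : Type) [Field k] [CharZero k] [CommRing S] [Algebra k S] {n : ℕ}
    (hn : 0 < n) : IsUnit (n : S) := by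
  simpa using (Nat.cast_ne_zero.2 hn.ne' : (n : k) ≠ 0).isUnit.map (algebraMap k S)

theorem root_pow {S : Type} [CommRing S] (n : ℕ) (c : S) :
    AdjoinRoot.root (Polynomial.X ^ n - Polynomial.C c) ^ n = algebraMap S _ c := by
  have := AdjoinRoot.eval₂_root (Polynomial.X ^ n - Polynomial.C c)
  rwa [Polynomial.eval₂_sub, Polynomial.eval₂_X_pow, Polynomial.eval₂_C, sub_eq_zero] at this

variable {k : Type} [Field k]

/-- The value of a quadratic form with constant coefficients. -/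
def ev {O : Type} [CommRing O] [Algebra k O] (M : Matrix (Fin 3) (Fin 3) k) (v : Fin 3 → O) : O :=
  qf (M.map (algebraMap k O)) v

theorem map_ev {O O' : Type} [CommRing O] [Algebra k O] [CommRing O'] [Algebra k O']
    (ρ : O →ₐ[k] O') (M : Matrix (Fin 3) (Fin 3) k) (v : Fin 3 → O) :
    ρ (ev M v) = ev M (ρ ∘ v) := by
  rw [ev, map_qf, Matrix.map_map]
  congr 2
  ext; simp

variable (k) in
/-- Four ternary quadratic forms. -/
structure Forms where
  M₁ : Matrix (Fin 3) (Fin 3) k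
  M₃ : Matrix (Fin 3) (Fin 3) k
  Mq : Matrix (Fin 3) (Fin 3) k
  Ma : Matrix (Fin 3) (Fin 3) k
  s₁ : M₁.IsSymm
  s₃ : M₃.IsSymm
  sq : Mq.IsSymm
  sa : Ma.IsSymm

namespace Forms

variable (F : Forms k)

section
variable {O O' : Type} [CommRing O] [Algebra k O] [CommRing O'] [Algebra k O']

/-- The conic. -/
def q (v : Fin 3 → O) : O := ev F.Mq v

/-- The quartic. -/
def f (v : Fin 3 → O) : O := ev F.M₁ v * ev F.M₃ v + ev F.Mq v * ev F.Ma v

theorem map_q (ρ : O →ₐ[k] O') (v : Fin 3 → O) : ρ (F.q v) = F.q (ρ ∘ v) := map_ev _ _ _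

theorem map_f (ρ : O →ₐ[k] O') (v : Fin 3 → O) : ρ (F.f v) = F.f (ρ ∘ v) := by
  simp [f, map_ev]

theorem q_smul (c : O) (v : Fin 3 → O) : F.q (c • v) = c ^ 2 * F.q v := qf_smul _ _ _

theorem f_smul (c : O) (v : Fin 3 → O) : F.f (c • v) = c ^ 4 * F.f v := by
  simp only [f, ev, qf_smul]; ring

end

variable (k) in
/-- The affine chart. -/
noncomputable def v₀ : Fin 3 → MvPolynomial (Fin 2) k := ![1, .X 0, .X 1]

/-- The complement of the two curves in the affine chart. -/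
def R : Type := Localization.Away (F.q (v₀ k) * F.f (v₀ k))

noncomputable instance : CommRing F.R := inferInstanceAs (CommRing (Localization.Away _))
noncomputable instance : Algebra k F.R := inferInstanceAs (Algebra k (Localization.Away _))
noncomputable instance : Algebra (MvPolynomial (Fin 2) k) F.R :=
  inferInstanceAs (Algebra (MvPolynomial (Fin 2) k) (Localization.Away (F.q (v₀ k) * F.f (v₀ k))))
instance : IsScalarTower k (MvPolynomial (Fin 2) k) F.R :=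
  inferInstanceAs (IsScalarTower k (MvPolynomial (Fin 2) k) (Localization.Away _))
instance : IsLocalization.Away (F.q (v₀ k) * F.f (v₀ k)) F.R :=
  inferInstanceAs (IsLocalization.Away _ (Localization.Away (F.q (v₀ k) * F.f (v₀ k))))

/-- The coordinates. -/
noncomputable def v : Fin 3 → F.R := IsScalarTower.toAlgHom k _ F.R ∘ v₀ k

@[simp] theorem v_zero : F.v 0 = 1 := map_one _

theorem isUnit_qf : IsUnit (F.q F.v * F.f F.v) := by
  rw [v, ← map_q, ← map_f, ← map_mul]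
  exact IsLocalization.Away.algebraMap_isUnit _

theorem isUnit_q : IsUnit (F.q F.v) := isUnit_of_mul_isUnit_left F.isUnit_qf
theorem isUnit_f : IsUnit (F.f F.v) := isUnit_of_mul_isUnit_right F.isUnit_qf

/-- The function `f / q ^ 2`. -/
noncomputable def φ : F.R := F.f F.v * ↑F.isUnit_q.unit⁻¹ ^ 2

theorem φ_mul : F.φ * F.q F.v ^ 2 = F.f F.v := by
  rw [φ, mul_assoc, ← mul_pow, IsUnit.val_inv_mul, one_pow, mul_one]

theorem isUnit_φ : IsUnit F.φ := isUnit_of_mul_isUnit_left (F.φ_mul ▸ F.isUnit_f)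

section
variable {O : Type} [CommRing O] [Algebra k O]

theorem R_ext {ψ ψ' : F.R →ₐ[k] O} (h : ∀ i, ψ (F.v i) = ψ' (F.v i)) : ψ = ψ' :=
  AlgHom.coe_ringHom_injective (IsLocalization.ringHom_ext
    (Submonoid.powers (F.q (v₀ k) * F.f (v₀ k))) (congrArg AlgHom.toRingHom
      (MvPolynomial.algHom_ext (f := ψ.comp (IsScalarTower.toAlgHom k _ F.R))
        (g := ψ'.comp (IsScalarTower.toAlgHom k _ F.R)) fun i => by
          fin_cases i
          exacts [h 1, h 2])))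

theorem R_lift (w : Fin 3 → O) (h0 : w 0 = 1) (hq : IsUnit (F.q w)) (hf : IsUnit (F.f w)) :
    ∃ ψ : F.R →ₐ[k] O, ψ ∘ F.v = w := by
  have h : (MvPolynomial.aeval ![w 1, w 2] : _ →ₐ[k] O) ∘ v₀ k = w := by
    ext i; fin_cases i <;> simp [v₀, h0]
  refine ⟨IsLocalization.Away.liftAlgHom (F.q (v₀ k) * F.f (v₀ k))
    (f := MvPolynomial.aeval ![w 1, w 2]) (by rw [map_mul, map_q, map_f, h]; exact hq.mul hf), ?_⟩
  refine Eq.trans ?_ h
  ext i; simp [v]

end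

instance : Algebra.Etale (MvPolynomial (Fin 2) k) F.R :=
  .of_isLocalizationAway (F.q (v₀ k) * F.f (v₀ k))

instance : Algebra.Smooth k F.R :=
  have : Algebra.Smooth k (MvPolynomial (Fin 2) k) := {}
  .comp k (MvPolynomial (Fin 2) k) _

/-- The surface `w ^ n = φ`. -/
abbrev S (n : ℕ) : Type := AdjoinRoot (Polynomial.X ^ n - Polynomial.C F.φ)

/-- The product with the line minus two points. -/
def R₁ : Type := Localization.Away (Polynomial.X * (1 - Polynomial.X) : F.R[X])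

noncomputable instance : CommRing F.R₁ := inferInstanceAs (CommRing (Localization.Away _))
noncomputable instance : Algebra k F.R₁ := inferInstanceAs (Algebra k (Localization.Away _))
noncomputable instance : Algebra F.R F.R₁ := inferInstanceAs (Algebra F.R (Localization.Away _))
noncomputable instance : Algebra F.R[X] F.R₁ := inferInstanceAs
  (Algebra F.R[X] (Localization.Away (Polynomial.X * (1 - Polynomial.X) : F.R[X])))
instance : IsScalarTower k F.R[X] F.R₁ :=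
  inferInstanceAs (IsScalarTower k F.R[X] (Localization.Away _))
instance : IsScalarTower F.R F.R[X] F.R₁ :=
  inferInstanceAs (IsScalarTower F.R F.R[X] (Localization.Away _))
instance : IsScalarTower k F.R F.R₁ := inferInstanceAs (IsScalarTower k F.R (Localization.Away _))
instance : IsLocalization.Away (Polynomial.X * (1 - Polynomial.X) : F.R[X]) F.R₁ :=
  inferInstanceAs (IsLocalization.Away _
    (Localization.Away (Polynomial.X * (1 - Polynomial.X) : F.R[X])))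
instance : Algebra.Etale F.R[X] F.R₁ :=
  .of_isLocalizationAway (Polynomial.X * (1 - Polynomial.X) : F.R[X])

/-- The function `φ / (x (1 - x))`. -/
noncomputable def cY : F.R₁ := algebraMap F.R F.R₁ F.φ *
  IsLocalization.Away.invSelf (Polynomial.X * (1 - Polynomial.X) : F.R[X])

/-- The threefold `u ^ n x (1 - x) = φ`. -/
abbrev Y (n : ℕ) : Type := AdjoinRoot (Polynomial.X ^ n - Polynomial.C F.cY)

variable (n : ℕ)

/-- The coordinate `x`. -/
noncomputable def x : F.Y n := algebraMap F.R₁ _ (algebraMap F.R[X] _ Polynomial.X)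
/-- The coordinate `u`. -/
noncomputable def u : F.Y n := AdjoinRoot.root _

theorem x_mul_inv : algebraMap F.R[X] F.R₁ .X * (1 - algebraMap F.R[X] F.R₁ .X) *
    IsLocalization.Away.invSelf (Polynomial.X * (1 - Polynomial.X) : F.R[X]) = 1 := by
  have := IsLocalization.Away.mul_invSelf (S := F.R₁)
    (Polynomial.X * (1 - Polynomial.X) : F.R[X])
  rwa [map_mul, map_sub, map_one] at this

theorem isUnit_cY : IsUnit F.cY := (F.isUnit_φ.map _).mul (.of_mul_eq_one_right _ F.x_mul_inv)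

theorem Y_eq : F.u n ^ n * (F.x n * (1 - F.x n)) = algebraMap F.R _ F.φ := by
  have h : F.u n ^ n = algebraMap F.R₁ _ (algebraMap F.R F.R₁ F.φ *
      IsLocalization.Away.invSelf (Polynomial.X * (1 - Polynomial.X) : F.R[X])) :=
    root_pow n F.cY
  have := congrArg (algebraMap F.R₁ (F.Y n)) F.x_mul_inv
  rw [h, map_mul, ← IsScalarTower.algebraMap_apply, x]
  rw [map_mul, map_mul, map_sub, map_one] at this
  linear_combination algebraMap F.R (F.Y n) F.φ * this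

section
variable {O : Type} [CommRing O] [Algebra k O] {n}

theorem Y_ext {χ χ' : F.Y n →ₐ[k] O}
    (h : ∀ r, χ (algebraMap F.R _ r) = χ' (algebraMap F.R _ r)) (hx : χ (F.x n) = χ' (F.x n))
    (hu : χ (F.u n) = χ' (F.u n)) : χ = χ' :=
  AlgHom.coe_ringHom_injective (AdjoinRoot.ringHom_ext (IsLocalization.ringHom_ext
    (Submonoid.powers (Polynomial.X * (1 - Polynomial.X) : F.R[X]))
    (Polynomial.ringHom_ext h hx)) hu)

theorem Y_lift (ψ : F.R →ₐ[k] O) (x u : O) (h : u ^ n * (x * (1 - x)) = ψ F.φ) :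
    ∃ χ : F.Y n →ₐ[k] O, (∀ r, χ (algebraMap F.R _ r) = ψ r) ∧ χ (F.x n) = x ∧ χ (F.u n) = u := by
  have hx : IsUnit (x * (1 - x)) := isUnit_of_mul_isUnit_right (h ▸ F.isUnit_φ.map ψ)
  let ψ₁ : F.R₁ →ₐ[k] O := IsLocalization.Away.liftAlgHom
    (Polynomial.X * (1 - Polynomial.X) : F.R[X]) (f := Polynomial.aevalTower ψ x)
    (by simpa using hx)
  have h1 (p : F.R[X]) : ψ₁ (algebraMap _ _ p) = Polynomial.aevalTower ψ x p := by simp [ψ₁]
  have h2 (r : F.R) : ψ₁ (algebraMap _ _ r) = ψ r := by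
    rw [IsScalarTower.algebraMap_apply F.R F.R[X], h1]; simp
  have h3 := congrArg ψ₁ F.x_mul_inv
  simp only [map_mul, map_sub, map_one, h1, Polynomial.aevalTower_X] at h3
  refine ⟨AdjoinRoot.liftAlgHom _ ψ₁ u ?_, fun r => ?_, ?_, AdjoinRoot.liftAlgHom_root ..⟩
  · rw [Polynomial.eval₂_sub, Polynomial.eval₂_X_pow, Polynomial.eval₂_C, cY,
      RingHom.coe_coe, map_mul, h2, ← h]
    linear_combination (-u ^ n) * h3
  · rw [IsScalarTower.algebraMap_apply F.R F.R₁ (F.Y n)]; simp [h2]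
  · simp [Forms.x, h1]

end

theorem smooth_Y [CharZero k] {n : ℕ} (hn : 0 < n) : Algebra.Smooth k (F.Y n) := by
  have : Algebra.Smooth F.R F.R[X] := {}
  have : Algebra.Smooth k F.R[X] := .comp k F.R _
  have : Algebra.Smooth k F.R₁ := .comp k F.R[X] _
  have := etale_kummer (isUnit_natCast k F.R₁ hn) F.isUnit_cY
  exact .comp k F.R₁ _

/-- The hypotheses: the forms `Q₁, Q₃, q` generate all quartics, the pencil of `Q₁` and `q` has a
smooth member, and the line at infinity is tangent to the quartic at a point of the conic. -/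
structure Good : Prop where
  gen : ∀ ρ : MvPolynomial (Fin 3) k, ρ.IsHomogeneous 4 → ∃ α β γ : Matrix (Fin 3) (Fin 3) k,
    α.IsSymm ∧ β.IsSymm ∧ γ.IsSymm ∧ ρ = ev α .X * ev F.M₁ .X + ev β .X * ev F.M₃ .X +
      ev γ .X * ev F.Mq .X
  disc : ∃ c : k, (c • F.M₁ + F.Mq).det ≠ 0
  tq : F.Mq 1 1 = 0
  tf : ∃ c₂ c₃ c₄ : k, ∀ (O : Type) [CommRing O] [Algebra k O] (s t : O),
    F.f ![0, s, t] = t ^ 2 * (c₂ • s ^ 2 + c₃ • (s * t) + c₄ • t ^ 2)
  nt : Nontrivial F.R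

/-- A conic bundle structure with a section on the del Pezzo surface `z ^ 2 = q ^ 2 - δ f`,
`δ = 4 / u ^ n`, over a cover of the `u`-line. -/
structure Dat (n : ℕ) (c : Cov k) where
  δ : c.Λ
  hδ : δ * c.u ^ n = 4
  A₁ : Matrix (Fin 3) (Fin 3) c.Λ
  A₂ : Matrix (Fin 3) (Fin 3) c.Λ
  A₃ : Matrix (Fin 3) (Fin 3) c.Λ
  s₁ : A₁.IsSymm
  s₂ : A₂.IsSymm
  s₃ : A₃.IsSymm
  eq : ∀ (O : Type) [CommRing O] [Algebra k O] (ρ : c.Λ →ₐ[k] O) (v : Fin 3 → O),
    F.q v ^ 2 - ρ δ * F.f v = qf (A₂.map ρ) v ^ 2 - ρ δ * (qf (A₁.map ρ) v * qf (A₃.map ρ) v)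
  nz : ∀ (O : Type) [CommRing O] [IsDomain O] [Algebra k O] (ρ : c.Λ →ₐ[k] O) (v : Fin 3 → O),
    qf (A₁.map ρ) v = 0 → qf (A₂.map ρ) v = 0 → qf (A₃.map ρ) v = 0 → v = 0
  p₀ : Fin 3 → c.Λ
  p₁ : Fin 3 → c.Λ
  sec : ∀ (O : Type) [CommRing O] [Algebra k O] (ρ : c.Λ →ₐ[k] O) (l : O),
    qf (l ^ 2 • A₁.map ρ - (2 * l) • A₂.map ρ + ρ δ • A₃.map ρ) (ρ ∘ p₀ + l • ρ ∘ p₁) = 0
  j : Fin 3
  unit_p : ∃ l : k, IsUnit (p₀ j + l • p₁ j)
  unit_disc : ∃ l : k, IsUnit (l ^ 2 • A₁ - (2 * l) • A₂ + δ • A₃).det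

end Forms

end Pool.Agent.Lib.MP_fc2ced_ag
end

-- part Pool.Agent.Lib.MP_fc2ced_ag.KL
section

/-!
Rational parametrisations: conics, plane curves, double planes branched along quartics.
-/

open scoped Polynomial Matrix

namespace Pool.Agent.Lib.MP_fc2ced_ag

variable {k : Type} [Field k] [CharZero k] [IsAlgClosed k] {Ω : Type} [Field Ω] [IsAlgClosed Ω]
  [Algebra k Ω]

namespace KL

theorem bil_comm {K : Type} [CommRing K] {M : Matrix (Fin 3) (Fin 3) K} (hs : M.IsSymm)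
    (x y : Fin 3 → K) : x ⬝ᵥ M *ᵥ y = y ⬝ᵥ M *ᵥ x := by
  rw [Matrix.dotProduct_mulVec, ← Matrix.mulVec_transpose, hs.eq, dotProduct_comm]

omit [CharZero k] [IsAlgClosed k] [IsAlgClosed Ω] in
theorem bil_mem (K : IntermediateField k Ω) {M : Matrix (Fin 3) (Fin 3) Ω} (hM : ∀ i j, M i j ∈ K)
    {x y : Fin 3 → Ω} (hx : ∀ i, x i ∈ K) (hy : ∀ i, y i ∈ K) : x ⬝ᵥ M *ᵥ y ∈ K := by
  simp only [dotProduct, Matrix.mulVec]
  exact sum_mem fun i _ => mul_mem (hx i) (sum_mem fun j _ => mul_mem (hM i j) (hy j))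

omit [CharZero k] [IsAlgClosed k] [IsAlgClosed Ω] in
theorem quad_zero {a α β γ t : Ω} (hα : α ∈ acl k a) (hβ : β ∈ acl k a) (hγ : γ ∈ acl k a)
    (ht : t ∉ acl k a) (h : α + β * t + γ * t ^ 2 = 0) : α = 0 ∧ β = 0 ∧ γ = 0 := by
  have : (Polynomial.C ⟨α, hα⟩ + Polynomial.C ⟨β, hβ⟩ * Polynomial.X +
      Polynomial.C ⟨γ, hγ⟩ * Polynomial.X ^ 2 : (acl k a)[X]) = 0 := by
    by_contra h0
    exact ht (mem_acl_of_isAlgebraic ⟨_, h0, by simpa using h⟩)
  have h0 := congrArg (fun p : (acl k a)[X] => (p.coeff 0 : Ω)) this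
  have h1 := congrArg (fun p : (acl k a)[X] => (p.coeff 1 : Ω)) this
  have h2 := congrArg (fun p : (acl k a)[X] => (p.coeff 2 : Ω)) this
  simp [Polynomial.coeff_X, Polynomial.coeff_C] at h0 h1 h2
  exact ⟨h0, h1, h2⟩

omit [IsAlgClosed k] [IsAlgClosed Ω] in
theorem conic_aux {a₁ : Ω} {M : Matrix (Fin 3) (Fin 3) Ω} (hs : M.IsSymm)
    (hM : ∀ i j, M i j ∈ acl k a₁) (h0 : M ≠ 0) {p e e' : Fin 3 → Ω} (hp : ∀ i, p i ∈ acl k a₁)
    (he : ∀ i, e i ∈ acl k a₁) (he' : ∀ i, e' i ∈ acl k a₁) (hq : qf M p = 0)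
    (hsp : ∀ y, ∃ c d d' : Ω, y = c • p + d • e + d' • e') {s t : Ω}
    (hv : qf M (s • p + e + t • e') = 0) :
    ∃ a₂ : Ω, ∀ i, (s • p + e + t • e') i ∈ acl k a₁ ⊔ acl k a₂ := by
  have : CharZero Ω := charZero_of_injective_algebraMap (algebraMap k Ω).injective
  have key : ∀ a₂, s ∈ acl k a₁ ⊔ acl k a₂ → t ∈ acl k a₁ ⊔ acl k a₂ →
      ∀ i, (s • p + e + t • e') i ∈ acl k a₁ ⊔ acl k a₂ := fun a₂ h1 h2 i =>
    have l : acl k a₁ ≤ acl k a₁ ⊔ acl k a₂ := le_sup_left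
    add_mem (add_mem (mul_mem h1 (l (hp i))) (l (he i))) (mul_mem h2 (l (he' i)))
  have r : ∀ a₂, a₂ ∈ acl k a₁ ⊔ acl k a₂ := fun a₂ =>
    (le_sup_right : acl k a₂ ≤ _) (self_mem_acl a₂)
  simp only [qf, Matrix.mulVec_add, Matrix.mulVec_smul, dotProduct_add, add_dotProduct,
    dotProduct_smul, smul_dotProduct, smul_eq_mul, bil_comm hs e p, bil_comm hs e' p,
    bil_comm hs e' e] at hv hq
  have m1 := bil_mem _ hM hp he
  have m2 := bil_mem _ hM hp he'
  have m3 := bil_mem _ hM he he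
  have m4 := bil_mem _ hM he he'
  have m5 := bil_mem _ hM he' he'
  by_cases hb : p ⬝ᵥ M *ᵥ e + p ⬝ᵥ M *ᵥ e' * t = 0
  · by_cases ht : t ∈ acl k a₁
    · exact ⟨s, key s (r s) ((le_sup_left : acl k a₁ ≤ _) ht)⟩
    obtain ⟨z1, z2, -⟩ := quad_zero m1 m2 (zero_mem _) ht (by linear_combination hb)
    obtain ⟨z3, z4, z5⟩ := quad_zero m3 (add_mem m4 m4) m5 ht (by
      linear_combination hv - s ^ 2 * hq - 2 * s * hb)
    have z4' : e ⬝ᵥ M *ᵥ e' = 0 := by linear_combination z4 / 2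
    refine absurd (Matrix.ext fun i j => ?_) h0
    obtain ⟨c, d, d', h1⟩ := hsp (Pi.single i 1)
    obtain ⟨f, g, g', h2⟩ := hsp (Pi.single j 1)
    have : (Pi.single i 1 : Fin 3 → Ω) ⬝ᵥ M *ᵥ Pi.single j 1 = 0 := by
      rw [h1, h2]
      simp only [Matrix.mulVec_add, Matrix.mulVec_smul, dotProduct_add, add_dotProduct,
        dotProduct_smul, smul_dotProduct, smul_eq_mul, bil_comm hs e p, bil_comm hs e' p,
        bil_comm hs e' e, hq, z1, z2, z3, z4', z5, mul_zero, add_zero]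
    simpa using this
  · have l : acl k a₁ ≤ acl k a₁ ⊔ acl k t := le_sup_left
    refine ⟨t, key t ?_ (r t)⟩
    have : s = -(e ⬝ᵥ M *ᵥ e + (e ⬝ᵥ M *ᵥ e' + e ⬝ᵥ M *ᵥ e') * t + e' ⬝ᵥ M *ᵥ e' * t ^ 2) /
        ((p ⬝ᵥ M *ᵥ e + p ⬝ᵥ M *ᵥ e' * t) + (p ⬝ᵥ M *ᵥ e + p ⬝ᵥ M *ᵥ e' * t)) := by
      rw [eq_div_iff (by rw [← two_mul]; exact mul_ne_zero two_ne_zero hb)]
      linear_combination hv - s ^ 2 * hq
    rw [this]
    have m6 := add_mem (l m1) (mul_mem (l m2) (r t))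
    exact div_mem (neg_mem (add_mem (add_mem (l m3) (mul_mem (add_mem (l m4) (l m4)) (r t)))
      (mul_mem (l m5) (pow_mem (r t) 2)))) (add_mem m6 m6)

omit [IsAlgClosed k] [IsAlgClosed Ω] in
theorem conic_aux' {a₁ : Ω} {M : Matrix (Fin 3) (Fin 3) Ω} (hs : M.IsSymm)
    (hM : ∀ i j, M i j ∈ acl k a₁) (h0 : M ≠ 0) {p e e' : Fin 3 → Ω} (hp : ∀ i, p i ∈ acl k a₁)
    (he : ∀ i, e i ∈ acl k a₁) (he' : ∀ i, e' i ∈ acl k a₁) (hq : qf M p = 0)
    (hsp : ∀ y, ∃ c d d' : Ω, y = c • p + d • e + d' • e') (v : Fin 3 → Ω) (hv : qf M v = 0) :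
    ∃ a₂ c : Ω, c ≠ 0 ∧ ∀ i, c * v i ∈ acl k a₁ ⊔ acl k a₂ := by
  obtain ⟨c, d, d', h⟩ := hsp v
  by_cases hd : d = 0
  · by_cases hd' : d' = 0
    · by_cases hc : c = 0
      · exact ⟨0, 1, one_ne_zero, fun i => by simp [h, hd, hd', hc]⟩
      · refine ⟨0, c⁻¹, inv_ne_zero hc, fun i => ?_⟩
        simpa [h, hd, hd', hc] using (le_sup_left : acl k a₁ ≤ _) (hp i)
    · have e1 : d'⁻¹ • v = (c / d') • p + e' + (0 : Ω) • e := by
        ext i
        simp [h, hd]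
        field_simp
      obtain ⟨a₂, h2⟩ := conic_aux hs hM h0 hp he' he hq (fun y => by
        obtain ⟨c, d, d', h⟩ := hsp y
        exact ⟨c, d', d, by rw [h, add_right_comm]⟩) (s := c / d') (t := 0)
        (by rw [← e1, qf_smul, hv, mul_zero])
      exact ⟨a₂, d'⁻¹, inv_ne_zero hd', fun i => by rw [← e1] at h2; exact h2 i⟩
  · have e1 : d⁻¹ • v = (c / d) • p + e + (d' / d) • e' := by
      ext i
      simp [h]
      field_simp
    obtain ⟨a₂, h2⟩ := conic_aux hs hM h0 hp he he' hq hsp (s := c / d) (t := d' / d)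
      (by rw [← e1, qf_smul, hv, mul_zero])
    exact ⟨a₂, d⁻¹, inv_ne_zero hd, fun i => by rw [← e1] at h2; exact h2 i⟩

theorem aeval_smul {R O σ : Type} [CommRing R] [CommRing O] [Algebra R O] {d : ℕ}
    {G : MvPolynomial σ R} (hG : G.IsHomogeneous d) (c : O) (v : σ → O) :
    MvPolynomial.aeval (c • v) G = c ^ d * MvPolynomial.aeval v G := by
  rw [MvPolynomial.aeval_def, MvPolynomial.aeval_def, MvPolynomial.eval₂_eq,
    MvPolynomial.eval₂_eq, Finset.mul_sum]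
  refine Finset.sum_congr rfl fun s hs => ?_
  rw [hG.degree_eq_sum_deg_support hs]
  simp only [Pi.smul_apply, smul_eq_mul, mul_pow, Finset.prod_mul_distrib,
    Finset.prod_pow_eq_pow_sum]
  ring

omit [CharZero k] [IsAlgClosed k] [IsAlgClosed Ω] in
theorem dep (x : Fin 2 → Ω) (h : ¬ AlgebraicIndependent k x) : ∃ a, ∀ i, x i ∈ acl k a := by
  by_cases h1 : x 1 ∈ acl k (x 0)
  · exact ⟨x 0, Fin.forall_fin_two.2 ⟨self_mem_acl _, h1⟩⟩
  by_cases h0 : IsAlgebraic k (x 0)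
  · exact ⟨x 1, Fin.forall_fin_two.2 ⟨mem_acl.2 (h0.tower_top _), self_mem_acl _⟩⟩
  refine absurd ?_ h
  have h2 : AlgebraicIndependent k fun o : Option Unit => o.elim (x 1) fun _ => x 0 :=
    AlgebraicIndependent.option_iff.2 ⟨algebraicIndependent_unique_type_iff.2 h0, by
      rw [Set.range_const, ← IntermediateField.transcendental_adjoin_iff]
      exact fun h => h1 (mem_acl.2 h)⟩
  have := h2.comp ![some (), none] (by decide)
  have e : ((fun o : Option Unit => o.elim (x 1) fun _ => x 0) ∘ ![some (), none]) = x := by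
    funext i
    fin_cases i <;> rfl
  rwa [e] at this

theorem taylor {R K σ : Type} [CommRing R] [CommRing K] [Algebra R K] [Fintype σ]
    (G : MvPolynomial σ R) (p e : σ → K) : ∃ r : K[X],
    MvPolynomial.aeval (fun i => Polynomial.C (p i) + Polynomial.C (e i) * Polynomial.X) G =
      Polynomial.C (MvPolynomial.aeval p G) + Polynomial.C
        (∑ i, e i * MvPolynomial.aeval p (MvPolynomial.pderiv i G)) * Polynomial.X +
        Polynomial.X ^ 2 * r := by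
  classical
  induction G using MvPolynomial.induction_on with
  | C a => exact ⟨0, by simp⟩
  | add G H h1 h2 =>
    obtain ⟨r, h1⟩ := h1
    obtain ⟨r', h2⟩ := h2
    refine ⟨r + r', ?_⟩
    simp only [map_add, h1, h2, mul_add, Finset.sum_add_distrib]
    ring
  | mul_X G j h =>
    obtain ⟨r, h⟩ := h
    have : ∑ i, e i * MvPolynomial.aeval p (MvPolynomial.pderiv i (G * MvPolynomial.X j)) =
        (∑ i, e i * MvPolynomial.aeval p (MvPolynomial.pderiv i G)) * p j +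
          MvPolynomial.aeval p G * e j := by
      simp [mul_add, Finset.sum_add_distrib, Pi.single_apply, Finset.mul_sum, apply_ite,
        mul_comm, mul_left_comm, add_comm]
    refine ⟨r * (Polynomial.C (p j) + Polynomial.C (e j) * Polynomial.X) + Polynomial.C (e j) *
      Polynomial.C (∑ i, e i * MvPolynomial.aeval p (MvPolynomial.pderiv i G)), ?_⟩
    rw [this, map_mul, h]
    simp only [map_add, map_mul, MvPolynomial.aeval_X]
    ring

omit [CharZero k] [IsAlgClosed k] [IsAlgClosed Ω] in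
theorem tangent (K : IntermediateField k Ω) {G : MvPolynomial (Fin 3) k} (hG : G.IsHomogeneous 4)
    {p e : Fin 3 → Ω} (hp : ∀ i, p i ∈ K) (he : ∀ i, e i ∈ K) (h0 : MvPolynomial.aeval p G = 0)
    (h1 : ∑ i, e i * MvPolynomial.aeval p (MvPolynomial.pderiv i G) = 0) (s t : Ω) :
    ∃ c₂ ∈ K, ∃ c₃ ∈ K, ∃ c₄ ∈ K, MvPolynomial.aeval (s • p + t • e) G =
      t ^ 2 * (c₂ * s ^ 2 + c₃ * (s * t) + c₄ * t ^ 2) := by
  have co : ∀ (y : Fin 3 → Ω) (hy : ∀ i, y i ∈ K) (H : MvPolynomial (Fin 3) k),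
      ((MvPolynomial.aeval (fun i => (⟨y i, hy i⟩ : K)) H : K) : Ω) = MvPolynomial.aeval y H :=
    fun y hy H => (MvPolynomial.comp_aeval_apply _ K.val H)
  by_cases hs : s = 0
  · refine ⟨0, zero_mem _, 0, zero_mem _, _, co e he G ▸ SetLike.coe_mem _, ?_⟩
    rw [hs, zero_smul, zero_add, aeval_smul hG]
    ring
  obtain ⟨r, hr⟩ := taylor G (fun i => (⟨p i, hp i⟩ : K)) fun i => ⟨e i, he i⟩
  have z0 : MvPolynomial.aeval (fun i => (⟨p i, hp i⟩ : K)) G = 0 := Subtype.ext (by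
    rw [co, h0]; rfl)
  have z1 : ∑ i, (⟨e i, he i⟩ : K) * MvPolynomial.aeval (fun i => (⟨p i, hp i⟩ : K))
      (MvPolynomial.pderiv i G) = 0 := Subtype.ext (by
    simpa [co] using h1)
  rw [z0, z1, map_zero, zero_mul, zero_add, zero_add] at hr
  have hd := MvPolynomial.aeval_natDegree_le (n := 1) _ (hG.map (algebraMap k K)).totalDegree_le
    (fun i => Polynomial.C (⟨p i, hp i⟩ : K) + Polynomial.C ⟨e i, he i⟩ * Polynomial.X)
    fun i => by compute_degree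
  rw [MvPolynomial.aeval_map_algebraMap] at hd
  have h2 := Polynomial.aeval_eq_sum_range' (show _ < 5 from Nat.lt_succ_of_le hd) (t / s)
  have h3 := Polynomial.X_pow_dvd_iff.1 (Dvd.intro _ hr.symm)
  have h4 := MvPolynomial.comp_aeval_apply
    (fun i => Polynomial.C (⟨p i, hp i⟩ : K) + Polynomial.C ⟨e i, he i⟩ * Polynomial.X)
    ((Polynomial.aeval (t / s)).restrictScalars k) G
  generalize MvPolynomial.aeval (fun i => Polynomial.C (⟨p i, hp i⟩ : K) +
    Polynomial.C ⟨e i, he i⟩ * Polynomial.X) G = h at h2 h3 h4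
  have e1 : s • p + t • e = s • fun i => p i + e i * (t / s) := by
    ext i
    simp only [Pi.add_apply, Pi.smul_apply, smul_eq_mul]
    field_simp
  refine ⟨_, (h.coeff 2).2, _, (h.coeff 3).2, _, (h.coeff 4).2, ?_⟩
  simp only [AlgHom.coe_restrictScalars', map_add, map_mul, Polynomial.aeval_C, Polynomial.aeval_X,
    IntermediateField.algebraMap_apply] at h4
  rw [e1, aeval_smul hG, ← h4, h2]
  simp only [Finset.sum_range_succ, Finset.sum_range_zero, h3 0 (by norm_num), h3 1 (by norm_num),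
    Algebra.smul_def, IntermediateField.algebraMap_apply, ZeroMemClass.coe_zero]
  field_simp
  ring

omit [CharZero k] [IsAlgClosed Ω] in
theorem descend {ι : Type} (P : ι → MvPolynomial (Fin 3) k) {p : Fin 3 → Ω} (hp : p ≠ 0)
    (h : ∀ i, MvPolynomial.aeval p (P i) = 0) :
    ∃ q : Fin 3 → k, q ≠ 0 ∧ ∀ i, MvPolynomial.aeval q (P i) = 0 := by
  by_contra hc
  refine hp (funext fun j => ?_)
  have h1 : MvPolynomial.X j ∈ MvPolynomial.vanishingIdeal k
      (MvPolynomial.zeroLocus k (Ideal.span (Set.range P))) := fun q hq => by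
    by_contra h2
    refine hc ⟨q, ?_, fun i => hq _ (Ideal.subset_span ⟨i, rfl⟩)⟩
    rintro rfl
    simp at h2
  rw [MvPolynomial.vanishingIdeal_zeroLocus_eq_radical] at h1
  obtain ⟨N, hN⟩ := h1
  have h2 : Ideal.span (Set.range P) ≤ RingHom.ker (MvPolynomial.aeval p : _ →ₐ[k] Ω) :=
    Ideal.span_le.2 (by rintro _ ⟨i, rfl⟩; exact h i)
  have := h2 hN
  rw [RingHom.mem_ker, map_pow, MvPolynomial.aeval_X] at this
  exact pow_eq_zero_iff'.1 this |>.1

end KL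

open KL

set_option linter.unusedSectionVars false in
/-- Points of a conic defined over `acl a₁`. -/
theorem conic_pc {a₁ : Ω} (M : Matrix (Fin 3) (Fin 3) Ω) (hs : M.IsSymm)
    (hM : ∀ i j, M i j ∈ acl k a₁) (h0 : M ≠ 0) (v : Fin 3 → Ω) (hv : qf M v = 0) :
    ∃ a₂ c : Ω, c ≠ 0 ∧ ∀ i, c * v i ∈ acl k a₁ ⊔ acl k a₂ := by
  have b : ∀ j i : Fin 3, (Pi.single j 1 : Fin 3 → Ω) i ∈ acl k a₁ := fun j i => by
    rw [Pi.single_apply]
    split_ifs
    exacts [one_mem _, zero_mem _]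
  by_cases h : M 0 0 = 0
  · exact conic_aux' hs hM h0 (b 0) (b 1) (b 2) (by simpa [qf] using h)
      (fun y => ⟨y 0, y 1, y 2, by ext i; fin_cases i <;> simp⟩) v hv
  · obtain ⟨z, hz⟩ := IsAlgClosed.exists_eq_mul_self (k := acl k a₁)
      ⟨M 0 1 * M 0 1 - M 0 0 * M 1 1, sub_mem (mul_mem (hM ..) (hM ..)) (mul_mem (hM ..) (hM ..))⟩
    have hz' : M 0 1 * M 0 1 - M 0 0 * M 1 1 = z * z := congrArg Subtype.val hz
    refine conic_aux' (p := ![(z - M 0 1) / M 0 0, 1, 0]) hs hM h0 (fun i => ?_) (b 0) (b 2) ?_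
      (fun y => ⟨y 1, y 0 - y 1 * ((z - M 0 1) / M 0 0), y 2, by
        ext i; fin_cases i <;> simp [Matrix.vecHead, Matrix.vecTail]⟩) v hv
    · fin_cases i
      exacts [div_mem (sub_mem z.2 (hM ..)) (hM ..), one_mem _, zero_mem _]
    · simp [qf, dotProduct, Matrix.mulVec, Fin.sum_univ_three, hs.apply 0 1]
      field_simp
      linear_combination -hz'

omit [IsAlgClosed k] [IsAlgClosed Ω] in
theorem curve_acl' {d : ℕ} (G : MvPolynomial (Fin 3) k) (hG : G.IsHomogeneous d) (h0 : G ≠ 0)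
    (v : Fin 3 → Ω) (hv : MvPolynomial.aeval v G = 0) :
    ∃ a c : Ω, c ≠ 0 ∧ ∀ i, c * v i ∈ acl k a := by
  by_cases hv0 : v = 0
  · exact ⟨0, 1, one_ne_zero, fun i => by simp [hv0]⟩
  obtain ⟨j, hj⟩ := Function.ne_iff.1 hv0
  let g : MvPolynomial (Fin 2) k := MvPolynomial.aeval (Fin.insertNth j 1 MvPolynomial.X) G
  have key : ∀ (K : Type) [Field K] [Algebra k K] (y : Fin 3 → K), y j ≠ 0 →
      MvPolynomial.aeval (fun i => (y j)⁻¹ * y (j.succAbove i)) g =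
        (y j)⁻¹ ^ d * MvPolynomial.aeval y G := fun K _ _ y hy => by
    rw [← aeval_smul hG, MvPolynomial.comp_aeval_apply]
    congr 2
    funext i
    rcases Fin.eq_self_or_eq_succAbove j i with rfl | ⟨i, rfl⟩ <;> simp [hy]
  have hg : g ≠ 0 := fun h => by
    have : MvPolynomial.X j * G = 0 := MvPolynomial.funext fun y => by
      by_cases hy : y j = 0
      · simp [hy]
      · have := key k y hy
        rw [h, map_zero] at this
        simpa [hy] using this.symm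
    exact mul_ne_zero (MvPolynomial.X_ne_zero j) h0 this
  obtain ⟨a, ha⟩ := dep (k := k) (fun i => (v j)⁻¹ * v (j.succAbove i)) fun h =>
    hg (h.eq_zero_of_aeval_eq_zero g (by rw [key Ω v hj, hv, mul_zero]))
  refine ⟨a, (v j)⁻¹, inv_ne_zero hj, fun i => ?_⟩
  rcases Fin.eq_self_or_eq_succAbove j i with rfl | ⟨i, rfl⟩
  · rw [inv_mul_cancel₀ hj]
    exact one_mem _
  · exact ha i

set_option linter.unusedSectionVars false in
/-- Points of a plane curve defined over `k`. -/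
theorem curve_acl {d : ℕ} (G : MvPolynomial (Fin 3) k) (hG : G.IsHomogeneous d) (h0 : G ≠ 0)
    (v : Fin 3 → Ω) (hv : MvPolynomial.aeval v G = 0) :
    ∃ a c : Ω, c ≠ 0 ∧ ∀ i, c * v i ∈ acl k a := curve_acl' G hG h0 v hv

/-- Double covers of a line with a node. -/
theorem nodal_pc {a₁ c₂ c₃ c₄ : Ω} (h₂ : c₂ ∈ acl k a₁) (h₃ : c₃ ∈ acl k a₁) (h₄ : c₄ ∈ acl k a₁)
    {s t z : Ω} (h : z ^ 2 = t ^ 2 * (c₂ * s ^ 2 + c₃ * (s * t) + c₄ * t ^ 2)) :
    ∃ a₂ c : Ω, c ≠ 0 ∧ c * s ∈ acl k a₁ ⊔ acl k a₂ ∧ c * t ∈ acl k a₁ ⊔ acl k a₂ ∧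
      c ^ 2 * z ∈ acl k a₁ ⊔ acl k a₂ := by
  have : CharZero Ω := charZero_of_injective_algebraMap (algebraMap k Ω).injective
  by_cases ht : t = 0
  · have hz : z = 0 := by simpa [ht] using h
    exact ⟨s, 1, one_ne_zero, by simpa using (le_sup_right : acl k s ≤ _) (self_mem_acl s),
      by simp [ht], by simp [hz]⟩
  have h2 : c₃ / 2 ∈ acl k a₁ := div_mem h₃ (by exact_mod_cast natCast_mem (acl k a₁) 2)
  obtain ⟨a₂, c, hc, hm⟩ := conic_pc (k := k) (a₁ := a₁) !![c₂, c₃ / 2, 0; c₃ / 2, c₄, 0; 0, 0, -1]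
    (by ext i j; fin_cases i <;> fin_cases j <;> rfl)
    (fun i j => by fin_cases i <;> fin_cases j <;> simp [h₂, h2, h₄])
    (fun h => by simpa using congrFun (congrFun h 2) 2) ![s, t, z / t] (by
      simp [qf, dotProduct, Matrix.mulVec, Fin.sum_univ_three]
      field_simp
      linear_combination -2 * h)
  refine ⟨a₂, c, hc, hm 0, hm 1, ?_⟩
  have e : c ^ 2 * z = (c * t) * (c * (z / t)) := by field_simp
  rw [e]
  exact mul_mem (hm 1) (hm 2)

theorem KL.exists_tangent (G : MvPolynomial (Fin 3) k) (hG : G.IsHomogeneous 4) (v : Fin 3 → Ω) :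
    ∃ (a s t : Ω) (p e : Fin 3 → Ω), (∀ i, p i ∈ acl k a) ∧ (∀ i, e i ∈ acl k a) ∧
      MvPolynomial.aeval p G = 0 ∧
      ∑ i, e i * MvPolynomial.aeval p (MvPolynomial.pderiv i G) = 0 ∧ v = s • p + t • e := by
  by_cases hsing : ∃ p : Fin 3 → Ω, p ≠ 0 ∧ ∀ o : Option (Fin 3),
      MvPolynomial.aeval p (o.elim G fun i => MvPolynomial.pderiv i G) = 0
  · obtain ⟨p, hp, h⟩ := hsing
    obtain ⟨q, hq, h⟩ := descend _ hp h
    obtain ⟨j, hj⟩ := Function.ne_iff.1 hq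
    have hj' : algebraMap k Ω (q j) ≠ 0 := (map_ne_zero _).2 hj
    have e : ∀ H, MvPolynomial.aeval (fun i => algebraMap k Ω (q i)) H =
        algebraMap k Ω (MvPolynomial.aeval q H) := fun H =>
      (MvPolynomial.comp_aeval_apply q (Algebra.ofId k Ω) H).symm
    obtain ⟨a, c, hc, hm⟩ := curve_acl' (MvPolynomial.X j) (MvPolynomial.isHomogeneous_X k j)
      (MvPolynomial.X_ne_zero j) (v - (v j / algebraMap k Ω (q j)) • fun i => algebraMap k Ω (q i))
      (by simp [hj'])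
    refine ⟨a, v j / algebraMap k Ω (q j), c⁻¹, fun i => algebraMap k Ω (q i), _,
      fun i => algebraMap_mem _ _, hm, by rw [e, show MvPolynomial.aeval q G = 0 from h none, map_zero],
      Finset.sum_eq_zero fun i _ => by
        have := h (some i)
        rw [Option.elim_some] at this
        rw [e, this, map_zero, mul_zero], ?_⟩
    ext i
    simp [hc]
  have z : ∀ {d : ℕ} {H : MvPolynomial (Fin 3) k}, H.IsHomogeneous (d + 1) →
      MvPolynomial.aeval (0 : Fin 3 → Ω) H = 0 := fun {d H} hH => by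
    simpa using aeval_smul hH (0 : Ω) 0
  obtain ⟨p₀, hp₀, h⟩ := exists_common_zero ![MvPolynomial.map (algebraMap k Ω) G,
    ∑ i, MvPolynomial.C (v i) * MvPolynomial.map (algebraMap k Ω) (MvPolynomial.pderiv i G)]
    (by norm_num) (Fin.forall_fin_two.2 ⟨by
      simpa [MvPolynomial.eval_map, ← MvPolynomial.aeval_def] using z hG, by
      simp only [Matrix.cons_val_one, Matrix.cons_val_zero, map_sum, map_mul,
        MvPolynomial.eval_map, ← MvPolynomial.aeval_def]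
      exact Finset.sum_eq_zero fun i _ => by rw [z (d := 2) hG.pderiv, mul_zero]⟩)
  have h0 : MvPolynomial.aeval p₀ G = 0 := by
    simpa [MvPolynomial.eval_map, ← MvPolynomial.aeval_def] using h 0
  have h1 : ∑ i, v i * MvPolynomial.aeval p₀ (MvPolynomial.pderiv i G) = 0 := by
    simpa [MvPolynomial.eval_map, ← MvPolynomial.aeval_def] using h 1
  obtain ⟨a, c, hc, hm⟩ := curve_acl' G hG (fun h => hsing ⟨p₀, hp₀, fun o => by
    cases o <;> simp [h]⟩) p₀ h0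
  obtain ⟨p, hp⟩ : ∃ p, p = c • p₀ := ⟨_, rfl⟩
  have m0 : ∀ i, p i ∈ acl k a := fun i => hp ▸ hm i
  have p0 : p ≠ 0 := hp ▸ smul_ne_zero hc hp₀
  have g0 : MvPolynomial.aeval p G = 0 := by rw [hp, aeval_smul hG, h0, mul_zero]
  obtain ⟨n, hn⟩ : ∃ n : Fin 3 → Ω, ∀ i, MvPolynomial.aeval p (MvPolynomial.pderiv i G) = n i :=
    ⟨_, fun _ => rfl⟩
  have g1 : ∑ i, v i * n i = 0 := by
    simp only [← hn, hp, aeval_smul hG.pderiv, mul_left_comm (v _), ← Finset.mul_sum, h1, mul_zero]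
  have g2 : ∑ i, p i * n i = 0 := by
    have := congrArg (MvPolynomial.aeval p) hG.sum_X_mul_pderiv
    simpa [hn, g0] using this
  have m1 : ∀ i, n i ∈ acl k a := fun i => by
    rw [← hn]
    exact (MvPolynomial.comp_aeval_apply (fun i => (⟨p i, m0 i⟩ : acl k a)) (acl k a).val _) ▸
      SetLike.coe_mem _
  simp only [← and_assoc]
  obtain ⟨j, hj⟩ := Function.ne_iff.1 p0
  rw [Pi.zero_apply] at hj
  obtain ⟨w, hw⟩ : ∃ w, w = v - (v j / p j) • p := ⟨_, rfl⟩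
  have w0 : w j = 0 := by simp [hw, hj]
  have w1 : ∑ i, w i * n i = 0 := by
    simp only [hw, Pi.sub_apply, Pi.smul_apply, smul_eq_mul, sub_mul, Finset.sum_sub_distrib,
      mul_assoc, ← Finset.mul_sum, g1, g2, mul_zero, sub_zero]
  by_cases hw0 : w = 0
  · exact ⟨a, v j / p j, 0, p, 0, ⟨⟨⟨m0, fun _ => zero_mem _⟩, g0⟩, by simp⟩, by
      rw [smul_zero, add_zero, ← sub_eq_zero, ← hw, hw0]⟩
  obtain ⟨i, hi⟩ := Function.ne_iff.1 hw0
  rw [Pi.zero_apply] at hi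
  have hij : i ≠ j := fun h => hi (h ▸ w0)
  obtain ⟨l, hl, hsum⟩ : ∃ l : Fin 3, (∀ m, m = i ∨ m = j ∨ m = l) ∧
      ∀ f : Fin 3 → Ω, ∑ m, f m = f i + f j + f l := by
    clear * - hij
    fin_cases i <;> fin_cases j <;> first
      | exact absurd rfl hij
      | exact ⟨0, by decide, fun f => by simp [Fin.sum_univ_three]; ring⟩
      | exact ⟨1, by decide, fun f => by simp [Fin.sum_univ_three]; ring⟩
      | exact ⟨2, by decide, fun f => by simp [Fin.sum_univ_three]; ring⟩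
      | exact ⟨2, by decide, fun f => by simp [Fin.sum_univ_three]⟩
  have nl : n l ≠ 0 := fun h => by
    rw [hsum, w0, h] at w1
    have ni : n i = 0 := by simpa [hi] using w1
    rw [hsum, ni, h] at g2
    have nj : n j = 0 := by simpa [hj] using g2
    refine hsing ⟨p, p0, fun o => ?_⟩
    rcases o with _ | m
    · exact g0
    · rw [Option.elim_some, hn]
      rcases hl m with rfl | rfl | rfl <;> assumption
  refine ⟨a, v j / p j, w i, p, (w i)⁻¹ • w, ⟨⟨⟨m0, fun m => ?_⟩, g0⟩, ?_⟩, ?_⟩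
  · rcases hl m with rfl | rfl | rfl
    · simp [hi]
    · simp [w0]
    · have : ((w i)⁻¹ • w) m = -n i / n m := by
        rw [hsum, w0] at w1
        rw [Pi.smul_apply, smul_eq_mul]
        field_simp
        linear_combination w1
      rw [this]
      exact div_mem (neg_mem (m1 _)) (m1 _)
  · simp only [hn, Pi.smul_apply, smul_eq_mul, mul_assoc, ← Finset.mul_sum, w1, mul_zero]
  · rw [smul_inv_smul₀ hi, hw, add_sub_cancel]

/-- Double planes branched along a quartic are covered by the preimages of the tangent lines. -/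
theorem quartic_pc (G : MvPolynomial (Fin 3) k) (hG : G.IsHomogeneous 4) (v : Fin 3 → Ω) (z : Ω)
    (h : z ^ 2 = MvPolynomial.aeval v G) :
    ∃ a₁ a₂ c : Ω, c ≠ 0 ∧ (∀ i, c * v i ∈ acl k a₁ ⊔ acl k a₂) ∧
      c ^ 2 * z ∈ acl k a₁ ⊔ acl k a₂ := by
  obtain ⟨a, s, t, p, e, hp, he, h0, h1, rfl⟩ := KL.exists_tangent G hG v
  obtain ⟨c₂, m2, c₃, m3, c₄, m4, h2⟩ := tangent (acl k a) hG hp he h0 h1 s t
  obtain ⟨a₂, c, hc, n1, n2, n3⟩ := nodal_pc m2 m3 m4 (h.trans h2)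
  refine ⟨a, a₂, c, hc, fun i => ?_, n3⟩
  have l : acl k a ≤ acl k a ⊔ acl k a₂ := le_sup_left
  have : c * (s • p + t • e) i = c * s * p i + c * t * e i := by simp; ring
  rw [this]
  exact add_mem (mul_mem n1 (l (hp i))) (mul_mem n2 (l (he i)))

omit [CharZero k] [IsAlgClosed k] in
theorem isHomogeneous_ev (M : Matrix (Fin 3) (Fin 3) k) :
    (ev M MvPolynomial.X : MvPolynomial (Fin 3) k).IsHomogeneous 2 :=
  MvPolynomial.IsHomogeneous.sum _ _ _ fun i _ => (MvPolynomial.isHomogeneous_X k i).mul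
    (MvPolynomial.IsHomogeneous.sum _ _ 1 fun j _ => MvPolynomial.isHomogeneous_C_mul_X (M i j) j)

omit [CharZero k] [IsAlgClosed k] in
theorem aeval_ev {O : Type} [CommRing O] [Algebra k O] (M : Matrix (Fin 3) (Fin 3) k)
    (v : Fin 3 → O) : MvPolynomial.aeval v (ev M MvPolynomial.X : MvPolynomial (Fin 3) k) =
      ev M v := by
  rw [map_ev]
  congr 1
  funext i
  simp

/-- A nondegenerate ternary form has no isotropic plane. -/
theorem parallel_of_isotropic {K : Type} [Field K] (M : Matrix (Fin 3) (Fin 3) K) (hs : M.IsSymm)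
    (hd : M.det ≠ 0) {p w : Fin 3 → K} (hp0 : p ≠ 0) (hp : qf M p = 0) (hw : qf M w = 0)
    (hpw : p ⬝ᵥ M *ᵥ w = 0) : ∃ c : K, w = c • p := by
  have key : ∀ e : Fin 3 → K, (Matrix.of ![p, w, e]).det = 0 := fun e => by
    have h1 : ∀ i j : Fin 3, (Matrix.of ![p, w, e] * M * (Matrix.of ![p, w, e])ᵀ) i j =
        ![p, w, e] i ⬝ᵥ M *ᵥ ![p, w, e] j := fun i j => by
      rw [Matrix.dotProduct_mulVec]
      rfl
    have h2 : (Matrix.of ![p, w, e] * M * (Matrix.of ![p, w, e])ᵀ).det = 0 := by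
      have a : p ⬝ᵥ M *ᵥ p = 0 := hp
      have b : w ⬝ᵥ M *ᵥ w = 0 := hw
      simp only [Matrix.det_fin_three, h1]
      simp [a, b, hpw, bil_comm hs w p]
    rw [Matrix.det_mul, Matrix.det_mul, Matrix.det_transpose] at h2
    simpa [hd] using h2
  have h0 := key ![1, 0, 0]
  have h1 := key ![0, 1, 0]
  have h2 := key ![0, 0, 1]
  simp [Matrix.det_fin_three] at h0 h1 h2
  obtain ⟨j, hj⟩ := Function.ne_iff.1 hp0
  rw [Pi.zero_apply] at hj
  refine ⟨w j / p j, funext fun i => ?_⟩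
  rw [Pi.smul_apply, smul_eq_mul, div_mul_eq_mul_div, eq_div_iff hj]
  fin_cases i <;> fin_cases j <;> simp <;>
    first | linear_combination h0 | linear_combination -h0 | linear_combination h1 |
      linear_combination -h1 | linear_combination h2 | linear_combination -h2

end Pool.Agent.Lib.MP_fc2ced_ag
end

-- part Pool.Agent.Lib.MP_fc2ced_ag.GeoYA
section

/-!
The pencil of conics on the del Pezzo surface, and the fields of definition of special points.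
-/

open scoped Polynomial Matrix

set_option linter.unusedSectionVars false

namespace Pool.Agent.Lib.MP_fc2ced_ag

section Bil

variable {O O' : Type} [CommRing O] [CommRing O']

/-- The bilinear form of a matrix. -/
def bil (M : Matrix (Fin 3) (Fin 3) O) (p w : Fin 3 → O) : O := p ⬝ᵥ M *ᵥ w

theorem map_bil {G : Type} [FunLike G O O'] [RingHomClass G O O'] (ρ : G)
    (M : Matrix (Fin 3) (Fin 3) O) (p w : Fin 3 → O) :
    ρ (bil M p w) = bil (M.map ρ) (ρ ∘ p) (ρ ∘ w) := by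
  simp [bil, dotProduct, Matrix.mulVec, map_sum]

theorem bil_comb (M : Matrix (Fin 3) (Fin 3) O) (p q w : Fin 3 → O) (a b : O) :
    bil M p (a • q + b • w) = a * bil M p q + b * bil M p w := by
  simp [bil, Matrix.mulVec_add, Matrix.mulVec_smul]

theorem bil_smul (M : Matrix (Fin 3) (Fin 3) O) (p q : Fin 3 → O) (a : O) :
    bil M p (a • q) = a * bil M p q := by
  simp [bil, Matrix.mulVec_smul]

theorem bil_symm {M : Matrix (Fin 3) (Fin 3) O} (h : M.IsSymm) (p w : Fin 3 → O) :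
    bil M p w = bil M w p := by
  rw [bil, bil, Matrix.dotProduct_mulVec, ← Matrix.mulVec_transpose, h.eq, dotProduct_comm]

theorem qf_comb {M : Matrix (Fin 3) (Fin 3) O} (h : M.IsSymm) (p w : Fin 3 → O) (a b : O) :
    qf M (a • p + b • w) = a ^ 2 * qf M p + 2 * a * b * bil M p w + b ^ 2 * qf M w := by
  have := bil_symm h p w
  simp only [qf, bil, Matrix.mulVec_add, Matrix.mulVec_smul, add_dotProduct, dotProduct_add,
    smul_dotProduct, dotProduct_smul, smul_eq_mul] at this ⊢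
  rw [← this]; ring

theorem qf_zero (v : Fin 3 → O) : qf 0 v = 0 := by simp [qf]

end Bil

section Mem

variable {k : Type} [Field k] {Ω : Type} [Field Ω] [Algebra k Ω] {K : IntermediateField k Ω}

theorem bil_mem {M : Matrix (Fin 3) (Fin 3) Ω} (hM : ∀ i j, M i j ∈ K) {p w : Fin 3 → Ω}
    (hp : ∀ i, p i ∈ K) (hw : ∀ i, w i ∈ K) : bil M p w ∈ K := by
  unfold bil dotProduct Matrix.mulVec dotProduct
  exact sum_mem fun i _ => mul_mem (hp i) (sum_mem fun j _ => mul_mem (hM i j) (hw j))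

theorem qf_mem {M : Matrix (Fin 3) (Fin 3) Ω} (hM : ∀ i j, M i j ∈ K) {v : Fin 3 → Ω}
    (hv : ∀ i, v i ∈ K) : qf M v ∈ K := bil_mem hM hv hv

theorem ev_mem (M : Matrix (Fin 3) (Fin 3) k) {v : Fin 3 → Ω} (hv : ∀ i, v i ∈ K) : ev M v ∈ K :=
  qf_mem (fun _ _ => K.algebraMap_mem _) hv

theorem Forms.q_mem (F : Forms k) {v : Fin 3 → Ω} (hv : ∀ i, v i ∈ K) : F.q v ∈ K := ev_mem _ hv

theorem Forms.f_mem (F : Forms k) {v : Fin 3 → Ω} (hv : ∀ i, v i ∈ K) : F.f v ∈ K :=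
  add_mem (mul_mem (ev_mem _ hv) (ev_mem _ hv)) (mul_mem (ev_mem _ hv) (ev_mem _ hv))

theorem mem_of_mul_eq {a b x : Ω} (ha : a ∈ K) (hb : b ∈ K) (h0 : a ≠ 0) (h : a * x = b) :
    x ∈ K := by
  rw [show x = b / a by rw [← h]; field_simp]
  exact div_mem hb ha

theorem mem_of_sq_eq {a x : Ω} (ha : a ∈ K) (h : x ^ 2 = a ^ 2) : x ∈ K := by
  rcases sq_eq_sq_iff_eq_or_eq_neg.1 h with rfl | rfl
  exacts [ha, neg_mem ha]

theorem two_mem : (2 : Ω) ∈ K := by simp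

theorem mem_acl_of_sq {a x : Ω} (h : x ^ 2 ∈ acl k a) : x ∈ acl k a :=
  mem_acl_of_isAlgebraic (IsAlgebraic.of_pow two_pos
    (isAlgebraic_algebraMap (⟨x ^ 2, h⟩ : acl k a)))

/-- A root of a nonzero polynomial with coefficients in the functions on a cover. -/
theorem Cov.mem_acl_of_root (c : Cov k) (ρ : c.Λ →ₐ[k] Ω) (P : c.Λ[X]) {l l₀ : Ω}
    (h : Polynomial.aevalTower ρ l P = 0) (h0 : Polynomial.aevalTower ρ l₀ P ≠ 0) :
    l ∈ acl k (ρ c.u) := by
  let ρ' : c.Λ →+* acl k (ρ c.u) := (ρ : c.Λ →+* Ω).codRestrict _ (c.mem_acl ρ)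
  have key (y : Ω) : Polynomial.aeval y (P.map ρ') = Polynomial.aevalTower ρ y P := by
    rw [Polynomial.aeval_def, Polynomial.eval₂_map]; rfl
  exact mem_acl_of_isAlgebraic ⟨P.map ρ', fun e => h0 (by rw [← key, e, map_zero]),
    by rw [key, h]⟩

end Mem

variable {k : Type} [Field k]

namespace Forms.Dat

variable {F : Forms k} {n : ℕ} {c : Cov k} (D : F.Dat n c)

section
variable {O O' : Type} [CommRing O] [Algebra k O] [CommRing O'] [Algebra k O'] (ρ : c.Λ →ₐ[k] O)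

/-- The conic with parameter `l`. -/
def Γ (l : O) : Matrix (Fin 3) (Fin 3) O :=
  l ^ 2 • D.A₁.map ρ - (2 * l) • D.A₂.map ρ + ρ D.δ • D.A₃.map ρ

/-- The section. -/
def p (l : O) : Fin 3 → O := ρ ∘ D.p₀ + l • ρ ∘ D.p₁

/-- The direction with parameter `t`. -/
def w (t : O) : Fin 3 → O := Pi.single (D.j + 1) 1 + t • Pi.single (D.j + 2) 1

def Q₁ (v : Fin 3 → O) : O := qf (D.A₁.map ρ) v
def Q₂ (v : Fin 3 → O) : O := qf (D.A₂.map ρ) v
def Q₃ (v : Fin 3 → O) : O := qf (D.A₃.map ρ) v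

theorem map_Γ (ψ : O →ₐ[k] O') (l : O) : (D.Γ ρ l).map ψ = D.Γ (ψ.comp ρ) (ψ l) := by
  ext i j; simp [Γ, map_ofNat]

theorem map_p (ψ : O →ₐ[k] O') (l : O) : ψ ∘ D.p ρ l = D.p (ψ.comp ρ) (ψ l) := by
  ext i; simp [p]

theorem map_p' (ψ : O →ₐ[k] O') (l : O) (i : Fin 3) : ψ (D.p ρ l i) = D.p (ψ.comp ρ) (ψ l) i :=
  congrFun (D.map_p ρ ψ l) i

theorem map_w (ψ : O →ₐ[k] O') (t : O) : ψ ∘ D.w t = D.w (ψ t) := by
  ext i; simp [w, Pi.single_apply, apply_ite ψ]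

theorem map_det (ψ : O →ₐ[k] O') (l : O) : ψ (D.Γ ρ l).det = (D.Γ (ψ.comp ρ) (ψ l)).det := by
  rw [← map_Γ]; exact (ψ : O →+* O').map_det _

theorem map_Q₁ (ψ : O →ₐ[k] O') (v : Fin 3 → O) : ψ (D.Q₁ ρ v) = D.Q₁ (ψ.comp ρ) (ψ ∘ v) := by
  rw [Q₁, map_qf, Matrix.map_map]; rfl

theorem map_Q₂ (ψ : O →ₐ[k] O') (v : Fin 3 → O) : ψ (D.Q₂ ρ v) = D.Q₂ (ψ.comp ρ) (ψ ∘ v) := by
  rw [Q₂, map_qf, Matrix.map_map]; rfl

theorem symm_Γ (l : O) : (D.Γ ρ l).IsSymm :=
  (((D.s₁.map _).smul _).sub ((D.s₂.map _).smul _)).add ((D.s₃.map _).smul _)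

theorem qf_Γ (l : O) (v : Fin 3 → O) :
    qf (D.Γ ρ l) v = l ^ 2 * D.Q₁ ρ v - 2 * l * D.Q₂ ρ v + ρ D.δ * D.Q₃ ρ v := by
  simp [Γ, Q₁, Q₂, Q₃, qf, Matrix.add_mulVec, Matrix.sub_mulVec, Matrix.smul_mulVec]

theorem qf_p (l : O) : qf (D.Γ ρ l) (D.p ρ l) = 0 := D.sec O ρ l

theorem δ_mul : ρ D.δ * ρ c.u ^ n = 4 := by
  rw [← map_pow, ← map_mul, D.hδ, map_ofNat]

theorem sq_eq {l : O} {v : Fin 3 → O} (h : qf (D.Γ ρ l) v = 0) :
    (D.Q₂ ρ v - l * D.Q₁ ρ v) ^ 2 = F.q v ^ 2 - ρ D.δ * F.f v := by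
  rw [qf_Γ] at h
  have := D.eq O ρ v
  simp only [Q₁, Q₂, Q₃] at h ⊢
  linear_combination qf (D.A₁.map ρ) v * h - this

theorem w_j (t : O) : D.w t D.j = 0 := by simp [w]

theorem w_j1 (t : O) : D.w t (D.j + 1) = 1 := by simp [w]

theorem w_j2 (t : O) : D.w t (D.j + 2) = t := by simp [w]

theorem vec_ext {v v' : Fin 3 → O} (h0 : v D.j = v' D.j) (h1 : v (D.j + 1) = v' (D.j + 1))
    (h2 : v (D.j + 2) = v' (D.j + 2)) : v = v' := by
  ext i
  have : i = D.j ∨ i = D.j + 1 ∨ i = D.j + 2 := by generalize D.j = j; revert j i; decide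
  rcases this with rfl | rfl | rfl <;> assumption

/-- The second point of intersection of the conic with the line through `p` in direction `w`. -/
def par (l t : O) : Fin 3 → O :=
  qf (D.Γ ρ l) (D.w t) • D.p ρ l + (-2 * bil (D.Γ ρ l) (D.p ρ l) (D.w t)) • D.w t

theorem qf_par (l t : O) : qf (D.Γ ρ l) (D.par ρ l t) = 0 := by
  rw [par, qf_comb (D.symm_Γ ρ l), qf_p]; ring

theorem map_par (ψ : O →ₐ[k] O') (l t : O) :
    ψ ∘ D.par ρ l t = D.par (ψ.comp ρ) (ψ l) (ψ t) := by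
  rw [par, par, ← map_Γ, ← map_p, ← map_w, ← map_qf, ← map_bil]
  ext i; simp [map_ofNat]

end

section
variable {Ω : Type} [Field Ω] [Algebra k Ω] (ρ : c.Λ →ₐ[k] Ω) {K : IntermediateField k Ω}

theorem δ_ne [CharZero k] : ρ D.δ ≠ 0 := fun h => by
  have := charZero_of_injective_algebraMap (algebraMap k Ω).injective
  have := D.δ_mul ρ
  rw [h, zero_mul] at this
  norm_num at this

theorem Γ_mem (h : ∀ x, ρ x ∈ K) {l : Ω} (hl : l ∈ K) (i j : Fin 3) : D.Γ ρ l i j ∈ K :=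
  add_mem (sub_mem (mul_mem (pow_mem hl 2) (h _)) (mul_mem (mul_mem two_mem hl) (h _)))
    (mul_mem (h _) (h _))

theorem p_mem (h : ∀ x, ρ x ∈ K) {l : Ω} (hl : l ∈ K) (i : Fin 3) : D.p ρ l i ∈ K :=
  add_mem (h _) (mul_mem hl (h _))

theorem w_mem {t : Ω} (ht : t ∈ K) (i : Fin 3) : D.w t i ∈ K := by
  have (j : Fin 3) : (Pi.single j 1 : Fin 3 → Ω) i ∈ K := by
    rw [Pi.single_apply]; split_ifs; exacts [one_mem _, zero_mem _]
  exact add_mem (this _) (mul_mem ht (this _))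

/-- The degenerate conics are defined over the closure of the function field of the line. -/
theorem mem_of_deg {l : Ω} (h : D.p ρ l D.j * (D.Γ ρ l).det = 0) : l ∈ acl k (ρ c.u) := by
  let ι : c.Λ →ₐ[k] c.Λ[X] := IsScalarTower.toAlgHom k _ _
  have e (y : Ω) : (Polynomial.aevalTower ρ y).comp ι = ρ := by ext; simp [ι]
  rcases mul_eq_zero.1 h with h | h
  · obtain ⟨l₀, h₀⟩ := D.unit_p
    refine c.mem_acl_of_root ρ (D.p ι .X D.j) (l₀ := algebraMap k Ω l₀) ?_ ?_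
    · rwa [map_p', e, Polynomial.aevalTower_X]
    · rw [map_p', e, Polynomial.aevalTower_X]
      simpa [p, Algebra.smul_def] using (h₀.map ρ).ne_zero
  · obtain ⟨l₀, h₀⟩ := D.unit_disc
    refine c.mem_acl_of_root ρ (D.Γ ι .X).det (l₀ := algebraMap k Ω l₀) ?_ ?_
    · rwa [map_det, e, Polynomial.aevalTower_X]
    · rw [map_det, e, Polynomial.aevalTower_X]
      have h1 := (h₀.map ρ).ne_zero
      have h2 : D.Γ (.id k _) (algebraMap k _ l₀) =
          l₀ ^ 2 • D.A₁ - (2 * l₀) • D.A₂ + D.δ • D.A₃ := by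
        ext i j
        simp only [Γ, Matrix.add_apply, Matrix.sub_apply, Matrix.smul_apply, Matrix.map_apply]
        simp [Algebra.smul_def, map_ofNat]
      rwa [← h2, map_det, AlgHom.comp_id, AlgHom.commutes] at h1

/-- The parameter of the conic through a point of the surface. -/
theorem l_mem [CharZero k] (h : ∀ x, ρ x ∈ K) {l e : Ω} {v : Fin 3 → Ω} (hv0 : v ≠ 0)
    (hΓ : qf (D.Γ ρ l) v = 0) (he : e ≠ 0) (hv : ∀ i, e * v i ∈ K)
    (hz : e ^ 2 * (D.Q₂ ρ v - l * D.Q₁ ρ v) ∈ K) : l ∈ K := by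
  have := charZero_of_injective_algebraMap (algebraMap k Ω).injective
  have m (A : Matrix (Fin 3) (Fin 3) c.Λ) : e ^ 2 * qf (A.map ρ) v ∈ K := by
    rw [← qf_smul]; exact qf_mem (fun _ _ => h _) hv
  have he2 := pow_ne_zero 2 he
  by_cases h1 : D.Q₁ ρ v = 0
  · rw [qf_Γ, h1] at hΓ
    by_cases h2 : D.Q₂ ρ v = 0
    · rw [h2] at hΓ
      have h3 : ρ D.δ * D.Q₃ ρ v = 0 := by linear_combination hΓ
      exact (hv0 (D.nz Ω ρ v h1 h2 ((mul_eq_zero.1 h3).resolve_left (D.δ_ne ρ)))).elim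
    · exact mem_of_mul_eq (mul_mem two_mem (m D.A₂)) (mul_mem (h D.δ) (m D.A₃))
        (mul_ne_zero two_ne_zero (mul_ne_zero he2 h2)) (by
          simp only [Q₂, Q₃] at hΓ; linear_combination (-e ^ 2) * hΓ)
  · exact mem_of_mul_eq (m D.A₁) (sub_mem (m D.A₂) hz) (mul_ne_zero he2 h1) (by
      simp only [Q₁, Q₂]; ring)

variable [IsAlgClosed Ω]

theorem _root_.Pool.Agent.Lib.MP_fc2ced_ag.exists_zero_two (A B : Matrix (Fin 3) (Fin 3) Ω) :
    ∃ v, v ≠ 0 ∧ qf A v = 0 ∧ qf B v = 0 := by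
  have e (M : Matrix (Fin 3) (Fin 3) Ω) (v : Fin 3 → Ω) :
      MvPolynomial.eval v (ev M MvPolynomial.X : MvPolynomial (Fin 3) Ω) = qf M v := by
    rw [← MvPolynomial.aeval_eq_eval, aeval_ev]; rfl
  obtain ⟨v, h0, h⟩ := exists_common_zero (K := Ω) ![ev A .X, ev B .X] (by norm_num)
    (fun j => by fin_cases j <;> exact (e _ _).trans (by simp [qf]))
  exact ⟨v, h0, by simpa [e] using h 0, by simpa [e] using h 1⟩

theorem A₁_ne : D.A₁.map ρ ≠ 0 := fun h => by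
  obtain ⟨v, h0, h1, h2⟩ := exists_zero_two (D.A₂.map ρ) (D.A₃.map ρ)
  exact h0 (D.nz Ω ρ v (by rw [h, qf_zero]) h1 h2)

theorem Γ_ne [CharZero k] (l : Ω) : D.Γ ρ l ≠ 0 := fun h => by
  obtain ⟨v, h0, h1, h2⟩ := exists_zero_two (D.A₁.map ρ) (D.A₂.map ρ)
  have := D.qf_Γ ρ l v
  rw [h, qf_zero, Q₁, Q₂, h1, h2] at this
  have h3 : ρ D.δ * D.Q₃ ρ v = 0 := by linear_combination -this
  exact h0 (D.nz Ω ρ v h1 h2 ((mul_eq_zero.1 h3).resolve_left (D.δ_ne ρ)))

variable [CharZero k] [IsAlgClosed k]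

/-- Points of the surface on the curves at the boundary of the chart. -/
theorem bdry (hF : F.Good) {v : Fin 3 → Ω} {z : Ω} (hz : z ^ 2 = F.q v ^ 2 - ρ D.δ * F.f v)
    (h : v 0 * F.q v * F.f v * D.Q₁ ρ v = 0) : ∃ a e : Ω, e ≠ 0 ∧
      (∀ i, e * v i ∈ acl k (ρ c.u) ⊔ acl k a) ∧ e ^ 2 * z ∈ acl k (ρ c.u) ⊔ acl k a := by
  have nt := hF.nt
  have eq (e : Ω) : (e ^ 2 * z) ^ 2 = F.q (e • v) ^ 2 - ρ D.δ * F.f (e • v) := by
    rw [q_smul, f_smul, mul_pow, hz]; ring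
  have X (w : Fin 3 → Ω) : (MvPolynomial.aeval w : _ →ₐ[k] Ω) ∘ MvPolynomial.X = w := by
    ext; simp
  have X' : (MvPolynomial.aeval F.v : _ →ₐ[k] F.R) ∘ MvPolynomial.X = F.v := by ext; simp
  rcases mul_eq_zero.1 h with h | h
  rcases mul_eq_zero.1 h with h | h
  rcases mul_eq_zero.1 h with h | h
  · obtain ⟨c₂, c₃, c₄, hc⟩ := hF.tf
    have hv : v = ![0, v 1, v 2] := by ext i; fin_cases i <;> simp [h]
    have m (r : k) : algebraMap k Ω r ∈ acl k (ρ c.u) := IntermediateField.algebraMap_mem _ _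
    have mδ := c.mem_acl ρ D.δ
    have hq : F.q v = v 2 * (2 * algebraMap k Ω (F.Mq 1 2) * v 1 +
        algebraMap k Ω (F.Mq 2 2) * v 2) := by
      have := F.sq.apply 1 2
      simp only [q, ev, qf, dotProduct, Matrix.mulVec, Fin.sum_univ_three, Matrix.map_apply, h,
        hF.tq, this, map_zero]
      ring
    obtain ⟨a, e, he, h1, h2, h3⟩ := nodal_pc (s := v 1) (t := v 2) (z := z)
      (sub_mem (pow_mem (mul_mem two_mem (m (F.Mq 1 2))) 2) (mul_mem mδ (m c₂)))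
      (sub_mem (mul_mem (mul_mem two_mem (mul_mem two_mem (m (F.Mq 1 2)))) (m (F.Mq 2 2)))
        (mul_mem mδ (m c₃)))
      (sub_mem (pow_mem (m (F.Mq 2 2)) 2) (mul_mem mδ (m c₄))) (by
        rw [hz, hq, hv, hc]
        simp only [Algebra.smul_def, Matrix.cons_val]
        ring)
    refine ⟨a, e, he, fun i => ?_, h3⟩
    fin_cases i
    exacts [by simp [h], h1, h2]
  · obtain ⟨a, e, he, hv⟩ := curve_acl (F.q .X) (isHomogeneous_ev _) (fun h0 =>
      F.isUnit_q.ne_zero (by rw [← X', ← map_q, h0, map_zero])) v (by rw [map_q, X, h])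
    refine ⟨a, e, he, fun i => le_sup_right (a := acl k (ρ c.u)) (hv i), ?_⟩
    obtain ⟨s₁, h₁⟩ := IsAlgClosed.exists_pow_nat_eq (-ρ D.δ) two_pos
    obtain ⟨s₂, h₂⟩ := IsAlgClosed.exists_pow_nat_eq (F.f (e • v)) two_pos
    refine mem_of_sq_eq (a := s₁ * s₂) (mul_mem
      (le_sup_left (b := acl k a) (mem_acl_of_sq (h₁ ▸ neg_mem (c.mem_acl ρ _))))
      (le_sup_right (a := acl k (ρ c.u)) (mem_acl_of_sq (h₂ ▸ F.f_mem hv)))) ?_
    rw [eq, mul_pow, h₁, h₂, q_smul, h]; ring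
  · obtain ⟨a, e, he, hv⟩ := curve_acl (d := 4) (F.f .X)
      (((isHomogeneous_ev _).mul (isHomogeneous_ev _)).add
        ((isHomogeneous_ev _).mul (isHomogeneous_ev _))) (fun h0 =>
      F.isUnit_f.ne_zero (by rw [← X', ← map_f, h0, map_zero])) v (by rw [map_f, X, h])
    refine ⟨a, e, he, fun i => le_sup_right (a := acl k (ρ c.u)) (hv i),
      le_sup_right (a := acl k (ρ c.u)) (mem_of_sq_eq (a := F.q (e • v)) (F.q_mem hv) ?_)⟩
    rw [eq, f_smul, h]; ring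
  · obtain ⟨a, e, he, hv⟩ := conic_pc (D.A₁.map ρ) (D.s₁.map _) (fun _ _ => c.mem_acl ρ _)
      (D.A₁_ne ρ) v h
    refine ⟨a, e, he, hv, mem_of_sq_eq (a := D.Q₂ ρ (e • v))
      (qf_mem (fun _ _ => le_sup_left (b := acl k a) (c.mem_acl ρ _)) hv) ?_⟩
    rw [eq, D.eq Ω ρ, qf_smul (D.A₁.map ρ), show qf _ v = 0 from h, Q₂]; ring

end

end Forms.Dat

end Pool.Agent.Lib.MP_fc2ced_ag
end

-- part Pool.Agent.Lib.MP_fc2ced_ag.GeoYB
section

/-!
The birational parametrisation of the conic bundle, and its degeneracy loci.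
-/

open scoped Polynomial Matrix

set_option linter.unusedSectionVars false

namespace Pool.Agent.Lib.MP_fc2ced_ag

variable {k : Type} [Field k]

namespace Forms.Dat

variable {F : Forms k} {n : ℕ} {c : Cov k} (D : F.Dat n c)

section
variable {O O' : Type} [CommRing O] [Algebra k O] [CommRing O'] [Algebra k O'] (ρ : c.Λ →ₐ[k] O)

/-- A minor of the matrix with rows `v` and `p`. -/
def d (l : O) (v : Fin 3 → O) (i : Fin 3) : O := v i * D.p ρ l D.j - v D.j * D.p ρ l i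

/-- The function to invert on the threefold. -/
def hZ (l : O) (v : Fin 3 → O) : O :=
  D.p ρ l D.j * (D.Γ ρ l).det * D.d ρ l v (D.j + 1) * bil (D.Γ ρ l) (D.p ρ l) v

/-- The function to invert on the space of parameters. -/
def hT (l t : O) : O :=
  D.p ρ l D.j * (D.Γ ρ l).det * bil (D.Γ ρ l) (D.p ρ l) (D.w t) *
    (D.par ρ l t 0 * F.q (D.par ρ l t) * F.f (D.par ρ l t) * D.Q₁ ρ (D.par ρ l t))

/-- The equations of the open part of the threefold, in terms of the conic bundle. -/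
structure Rel (l : O) (v : Fin 3 → O) : Prop where
  one : v 0 = 1
  q : IsUnit (F.q v)
  f : IsUnit (F.f v)
  Q : IsUnit (D.Q₁ ρ v)
  eq : qf (D.Γ ρ l) v = 0

theorem map_d (ψ : O →ₐ[k] O') (l : O) (v : Fin 3 → O) (i : Fin 3) :
    ψ (D.d ρ l v i) = D.d (ψ.comp ρ) (ψ l) (ψ ∘ v) i := by
  simp [d, map_p']

theorem map_hZ (ψ : O →ₐ[k] O') (l : O) (v : Fin 3 → O) :
    ψ (D.hZ ρ l v) = D.hZ (ψ.comp ρ) (ψ l) (ψ ∘ v) := by
  simp only [hZ, map_mul, map_d, map_p', map_det, map_bil, map_Γ, map_p]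

theorem map_hT (ψ : O →ₐ[k] O') (l t : O) :
    ψ (D.hT ρ l t) = D.hT (ψ.comp ρ) (ψ l) (ψ t) := by
  simp only [hT, map_mul, map_p', map_det, map_bil, map_Γ, map_p, map_w, map_q, map_f, map_Q₁,
    map_par, ← congrFun (D.map_par ρ ψ l t) 0, Function.comp_apply]

variable {D ρ} in
theorem Rel.map {l : O} {v : Fin 3 → O} (h : D.Rel ρ l v) (ψ : O →ₐ[k] O') :
    D.Rel (ψ.comp ρ) (ψ l) (ψ ∘ v) where
  one := by simp [h.one]
  q := F.map_q ψ v ▸ h.q.map ψ
  f := F.map_f ψ v ▸ h.f.map ψ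
  Q := D.map_Q₁ ρ ψ v ▸ h.Q.map ψ
  eq := by rw [← map_Γ, ← map_qf, h.eq, map_zero]

theorem Q₁_smul (a : O) (v : Fin 3 → O) : D.Q₁ ρ (a • v) = a ^ 2 * D.Q₁ ρ v := qf_smul _ _ _

theorem decomp {l t : O} {v : Fin 3 → O} (h : D.d ρ l v (D.j + 2) = t * D.d ρ l v (D.j + 1)) :
    D.p ρ l D.j • v = v D.j • D.p ρ l + D.d ρ l v (D.j + 1) • D.w t := by
  refine D.vec_ext ?_ ?_ ?_ <;>
    simp only [Pi.add_apply, Pi.smul_apply, smul_eq_mul, w_j, w_j1, w_j2]
  · ring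
  · rw [d]; ring
  · rw [d] at h; linear_combination h

/-- From the threefold to the parameters. -/
theorem par_eq {l t : O} {v : Fin 3 → O} (hR : D.Rel ρ l v) (hu : IsUnit (D.hZ ρ l v))
    (h2 : IsUnit (2 : O)) (h : D.d ρ l v (D.j + 2) = t * D.d ρ l v (D.j + 1)) :
    D.par ρ l t = D.par ρ l t 0 • v ∧ IsUnit (D.hT ρ l t) := by
  rw [hZ, IsUnit.mul_iff, IsUnit.mul_iff, IsUnit.mul_iff] at hu
  obtain ⟨⟨⟨hp, hdet⟩, hd⟩, hb⟩ := hu
  have e := D.decomp ρ h
  have e1 := congrArg (qf (D.Γ ρ l)) e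
  rw [qf_smul, hR.eq, qf_comb (D.symm_Γ ρ l), qf_p] at e1
  have e2 := congrArg (bil (D.Γ ρ l) (D.p ρ l)) e
  rw [bil_smul, bil_comb, show bil _ _ (D.p ρ l) = 0 from D.qf_p ρ l, mul_zero, zero_add] at e2
  have hb' : IsUnit (bil (D.Γ ρ l) (D.p ρ l) (D.w t)) :=
    isUnit_of_mul_isUnit_right (e2 ▸ hp.mul hb)
  have e3 : 2 * v D.j * bil (D.Γ ρ l) (D.p ρ l) (D.w t) +
      D.d ρ l v (D.j + 1) * qf (D.Γ ρ l) (D.w t) = 0 :=
    hd.mul_right_eq_zero.1 (by linear_combination -e1)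
  have e4 (i) : D.d ρ l v (D.j + 1) * D.par ρ l t i =
      -2 * bil (D.Γ ρ l) (D.p ρ l) (D.w t) * D.p ρ l D.j * v i := by
    have := congrFun e i
    simp only [par, Pi.add_apply, Pi.smul_apply, smul_eq_mul] at this ⊢
    linear_combination D.p ρ l i * e3 + 2 * bil (D.Γ ρ l) (D.p ρ l) (D.w t) * this
  have e5 : D.par ρ l t = D.par ρ l t 0 • v := funext fun i => hd.mul_left_cancel (by
    rw [Pi.smul_apply, smul_eq_mul, ← mul_assoc, e4, e4, hR.one, mul_one])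
  have h0 : IsUnit (D.par ρ l t 0) := isUnit_of_mul_isUnit_right (x := D.d ρ l v (D.j + 1)) (by
    rw [e4, hR.one, mul_one]; exact (h2.neg.mul hb').mul hp)
  refine ⟨e5, ((hp.mul hdet).mul hb').mul (((h0.mul ?_).mul ?_).mul ?_)⟩
  · rw [e5, q_smul]; exact (h0.pow 2).mul hR.q
  · rw [e5, f_smul]; exact (h0.pow 4).mul hR.f
  · rw [e5, Q₁_smul]; exact (h0.pow 2).mul hR.Q

theorem isUnit_par {l t : O} (hu : IsUnit (D.hT ρ l t)) : IsUnit (D.par ρ l t 0) := by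
  simp only [hT, IsUnit.mul_iff] at hu
  exact hu.2.1.1.1

/-- From the parameters to the threefold. -/
theorem exists_rel {l t : O} (hu : IsUnit (D.hT ρ l t)) (h2 : IsUnit (2 : O)) :
    ∃ v, D.Rel ρ l v ∧ IsUnit (D.hZ ρ l v) ∧ D.d ρ l v (D.j + 2) = t * D.d ρ l v (D.j + 1) := by
  simp only [hT, IsUnit.mul_iff] at hu
  obtain ⟨⟨⟨hp, hdet⟩, hb⟩, ⟨⟨h0, hq⟩, hf⟩, hQ⟩ := hu
  obtain ⟨a, ha⟩ := h0.exists_left_inv
  have hau : IsUnit a := .of_mul_eq_one _ ha
  have e (i) : D.d ρ l (a • D.par ρ l t) i =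
      a * (-2 * bil (D.Γ ρ l) (D.p ρ l) (D.w t) * D.p ρ l D.j) * D.w t i := by
    simp only [d, par, Pi.add_apply, Pi.smul_apply, smul_eq_mul, w_j]; ring
  refine ⟨a • D.par ρ l t, ⟨ha, ?_, ?_, ?_, ?_⟩, ((hp.mul hdet).mul ?_).mul ?_, ?_⟩
  · rw [q_smul]; exact (hau.pow 2).mul hq
  · rw [f_smul]; exact (hau.pow 4).mul hf
  · rw [Q₁_smul]; exact (hau.pow 2).mul hQ
  · rw [qf_smul, qf_par, mul_zero]
  · rw [e, w_j1, mul_one]; exact hau.mul ((h2.neg.mul hb).mul hp)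
  · rw [bil_smul, par, bil_comb, show bil _ _ (D.p ρ l) = 0 from D.qf_p ρ l, mul_zero, zero_add]
    exact hau.mul ((h2.neg.mul hb).mul hb)
  · rw [e, e, w_j1, w_j2]; ring

end

section
variable {Ω : Type} [Field Ω] [Algebra k Ω] (ρ : c.Λ →ₐ[k] Ω) [IsAlgClosed Ω] [CharZero k]
  [IsAlgClosed k]

theorem pc_Z {l : Ω} {v : Fin 3 → Ω} (hR : D.Rel ρ l v) (h : D.hZ ρ l v = 0) :
    ∃ a : Ω, l ∈ acl k (ρ c.u) ⊔ acl k a ∧ ∀ i, v i ∈ acl k (ρ c.u) ⊔ acl k a := by
  have := charZero_of_injective_algebraMap (algebraMap k Ω).injective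
  have norm {K : IntermediateField k Ω} {e : Ω} (he : e ≠ 0) (hv : ∀ i, e * v i ∈ K) (i) :
      v i ∈ K := mem_of_mul_eq (by simpa [hR.one] using hv 0) (hv i) he rfl
  by_cases h1 : D.p ρ l D.j * (D.Γ ρ l).det = 0
  · have hl := D.mem_of_deg ρ h1
    obtain ⟨a, e, he, hv⟩ := conic_pc (D.Γ ρ l) (D.symm_Γ ρ l)
      (D.Γ_mem ρ (c.mem_acl ρ) hl) (D.Γ_ne ρ l) v hR.eq
    exact ⟨a, le_sup_left (b := acl k a) hl, norm he hv⟩
  obtain ⟨hp, hdet⟩ := mul_ne_zero_iff.1 h1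
  have hp0 : D.p ρ l ≠ 0 := fun e => hp (by rw [e]; rfl)
  have hρ (x) : ρ x ∈ acl k (ρ c.u) ⊔ acl k l := le_sup_left (b := acl k l) (c.mem_acl ρ x)
  have hl : l ∈ acl k (ρ c.u) ⊔ acl k l := le_sup_right (a := acl k (ρ c.u)) (self_mem_acl l)
  have mp := D.p_mem ρ hρ hl
  have mΓ := D.Γ_mem ρ hρ hl
  have par {s : Ω} (hs : v = s • D.p ρ l) (i) : v i ∈ acl k (ρ c.u) ⊔ acl k l := by
    have h0 : s ≠ 0 := by rintro rfl; simpa [hR.one] using congrFun hs 0
    refine norm (inv_ne_zero h0) (fun i => ?_) i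
    rw [hs, Pi.smul_apply, smul_eq_mul, inv_mul_cancel_left₀ h0]; exact mp i
  refine ⟨l, hl, ?_⟩
  rcases mul_eq_zero.1 h with h | h
  · have hd := (mul_eq_zero.1 h).resolve_left h1
    let e₂ : Fin 3 → Ω := Pi.single (D.j + 2) 1
    have m₂ (i) : e₂ i ∈ acl k (ρ c.u) ⊔ acl k l := by
      simp only [e₂, Pi.single_apply]; split_ifs; exacts [one_mem _, zero_mem _]
    have e : D.p ρ l D.j • v = v D.j • D.p ρ l + D.d ρ l v (D.j + 2) • e₂ := by
      refine D.vec_ext ?_ ?_ ?_ <;> simp [e₂, d] at hd ⊢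
      · ring
      · linear_combination hd
      · ring
    by_cases hs : D.d ρ l v (D.j + 2) = 0
    · refine par (s := v D.j / D.p ρ l D.j) (funext fun i => ?_)
      have := congrFun e i
      simp only [hs, Pi.add_apply, Pi.smul_apply, smul_eq_mul] at this ⊢
      field_simp
      linear_combination this
    · have e1 := congrArg (qf (D.Γ ρ l)) e
      rw [qf_smul, hR.eq, qf_comb (D.symm_Γ ρ l), qf_p] at e1
      have e3 : 2 * v D.j * bil (D.Γ ρ l) (D.p ρ l) e₂ +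
          D.d ρ l v (D.j + 2) * qf (D.Γ ρ l) e₂ = 0 :=
        (mul_eq_zero.1 (by linear_combination -e1)).resolve_left hs
      have hb : bil (D.Γ ρ l) (D.p ρ l) e₂ ≠ 0 := fun hb => by
        rw [hb, mul_zero, zero_add] at e3
        obtain ⟨s, hs⟩ := parallel_of_isotropic _ (D.symm_Γ ρ l) hdet hp0 (D.qf_p ρ l)
          ((mul_eq_zero.1 e3).resolve_left hs) hb
        have h0 : s = 0 := by simpa [e₂, hp] using congrFun hs D.j
        simpa [e₂, h0] using congrFun hs (D.j + 2)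
      refine norm (e := 2 * bil (D.Γ ρ l) (D.p ρ l) e₂ * D.p ρ l D.j / D.d ρ l v (D.j + 2))
        (div_ne_zero (mul_ne_zero (mul_ne_zero two_ne_zero hb) hp) hs) fun i => ?_
      have := congrFun e i
      simp only [Pi.add_apply, Pi.smul_apply, smul_eq_mul] at this
      rw [show _ * v i = 2 * bil (D.Γ ρ l) (D.p ρ l) e₂ * e₂ i - qf (D.Γ ρ l) e₂ * D.p ρ l i by
        field_simp
        linear_combination 2 * bil (D.Γ ρ l) (D.p ρ l) e₂ * this + D.p ρ l i * e3]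
      exact sub_mem (mul_mem (mul_mem two_mem (bil_mem mΓ mp m₂)) (m₂ i))
        (mul_mem (qf_mem mΓ m₂) (mp i))
  · obtain ⟨s, hs⟩ := parallel_of_isotropic _ (D.symm_Γ ρ l) hdet hp0 (D.qf_p ρ l) hR.eq h
    exact par hs

theorem pc_T (hF : F.Good) {l t : Ω} (h : D.hT ρ l t = 0) :
    ∃ a : Ω, l ∈ acl k (ρ c.u) ⊔ acl k a ∧ t ∈ acl k (ρ c.u) ⊔ acl k a := by
  have := charZero_of_injective_algebraMap (algebraMap k Ω).injective
  by_cases h1 : D.p ρ l D.j * (D.Γ ρ l).det = 0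
  · exact ⟨t, le_sup_left (b := acl k t) (D.mem_of_deg ρ h1),
      le_sup_right (a := acl k (ρ c.u)) (self_mem_acl t)⟩
  obtain ⟨hp, hdet⟩ := mul_ne_zero_iff.1 h1
  have hρ (a x) : ρ x ∈ acl k (ρ c.u) ⊔ acl k a := le_sup_left (b := acl k a) (c.mem_acl ρ x)
  by_cases hb : bil (D.Γ ρ l) (D.p ρ l) (D.w t) = 0
  · have hl : l ∈ acl k (ρ c.u) ⊔ acl k l := le_sup_right (a := acl k (ρ c.u)) (self_mem_acl l)
    refine ⟨l, hl, ?_⟩
    have m (j i : Fin 3) : (Pi.single j 1 : Fin 3 → Ω) i ∈ acl k (ρ c.u) ⊔ acl k l := by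
      simp only [Pi.single_apply]; split_ifs; exacts [one_mem _, zero_mem _]
    have mb (j) := bil_mem (D.Γ_mem ρ (hρ l) hl) (D.p_mem ρ (hρ l) hl) (m j)
    rw [w, ← one_smul Ω (Pi.single (D.j + 1) 1), bil_comb] at hb
    refine mem_of_mul_eq (mb (D.j + 2)) (neg_mem (mb (D.j + 1))) (fun h2 => hdet ?_)
      (by linear_combination hb)
    rw [h2, mul_zero, add_zero, one_mul] at hb
    have e (j) : bil (D.Γ ρ l) (D.p ρ l) (Pi.single j 1) = (D.Γ ρ l *ᵥ D.p ρ l) j := by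
      rw [bil_symm (D.symm_Γ ρ l), bil, single_one_dotProduct]
    rw [e] at hb h2
    have h3 := D.qf_p ρ l
    have hsum (a b : Fin 3 → Ω) : a ⬝ᵥ b = a D.j * b D.j + a (D.j + 1) * b (D.j + 1) +
        a (D.j + 2) * b (D.j + 2) := by
      generalize D.j = j
      fin_cases j <;> simp [dotProduct, Fin.sum_univ_three] <;> ring
    rw [qf, hsum, hb, h2, mul_zero, mul_zero, add_zero, add_zero] at h3
    exact Matrix.exists_mulVec_eq_zero_iff.1 ⟨D.p ρ l, fun e => hp (by rw [e]; rfl),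
      D.vec_ext ((mul_eq_zero.1 h3).resolve_left hp) hb h2⟩
  obtain ⟨a, e, he, hv, hz⟩ := D.bdry ρ hF (D.sq_eq ρ (D.qf_par ρ l t))
    ((mul_eq_zero.1 h).resolve_left (mul_ne_zero h1 hb))
  have c0 : D.par ρ l t D.j = qf (D.Γ ρ l) (D.w t) * D.p ρ l D.j := by simp [par, w_j]
  have c1 : D.par ρ l t (D.j + 1) = qf (D.Γ ρ l) (D.w t) * D.p ρ l (D.j + 1) -
    2 * bil (D.Γ ρ l) (D.p ρ l) (D.w t) := by simp [par, w_j1, sub_eq_add_neg]
  have c2 : D.par ρ l t (D.j + 2) = qf (D.Γ ρ l) (D.w t) * D.p ρ l (D.j + 2) -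
    2 * bil (D.Γ ρ l) (D.p ρ l) (D.w t) * t := by simp [par, w_j2, sub_eq_add_neg]
  have hl := D.l_mem ρ (hρ a) (fun h0 => by
    rw [h0, Pi.zero_apply] at c0 c1
    rw [(mul_eq_zero.1 c0.symm).resolve_right hp] at c1
    exact mul_ne_zero two_ne_zero hb (by linear_combination c1)) (D.qf_par ρ l t) he hv hz
  have mp := D.p_mem ρ (hρ a) hl
  have m1 : e * qf (D.Γ ρ l) (D.w t) ∈ acl k (ρ c.u) ⊔ acl k a :=
    mem_of_mul_eq (mp D.j) (hv D.j) hp (by rw [c0]; ring)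
  have m2 := sub_mem (mul_mem m1 (mp (D.j + 1))) (hv (D.j + 1))
  refine ⟨a, hl, mem_of_mul_eq m2 (sub_mem (mul_mem m1 (mp (D.j + 2))) (hv (D.j + 2))) ?_
    (by rw [c1, c2]; ring)⟩
  exact fun h0 => mul_ne_zero he (mul_ne_zero two_ne_zero hb) (by rw [← h0, c1]; ring)

end

end Forms.Dat

end Pool.Agent.Lib.MP_fc2ced_ag
end
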