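import Pool.Agent.Lib.MP_fc2ced_ag.RFA

/-!
Three ternary quadratic forms without common zero generate all quartic forms.
-/

namespace Pool.Agent.Lib.MP_fc2ced_ag

open MvPolynomial

namespace Mac

variable {k : Type} [Field k]

theorem split {d : ℕ} {ρ : MvPolynomial (Fin 3) k} (h : ρ.IsHomogeneous (d + 1)) :
    ∃ a b c : MvPolynomial (Fin 3) k, a.IsHomogeneous d ∧ b.IsHomogeneous d ∧ c.IsHomogeneous d ∧
      ρ = X 0 * a + X 1 * b + X 2 * c := by
  have key : ∀ s : Finset (Fin 3 →₀ ℕ), (∀ m ∈ s, m.degree = d + 1) →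
      ∃ a : Fin 3 → MvPolynomial (Fin 3) k, (∀ i, (a i).IsHomogeneous d) ∧
        ∑ m ∈ s, monomial m (coeff m ρ) = ∑ i, X i * a i := by
    intro s
    induction s using Finset.induction_on with
    | empty => exact fun _ => ⟨0, fun _ => isHomogeneous_zero _ _ _, by simp⟩
    | insert m s hm ih =>
      intro hs
      obtain ⟨a, ha, e⟩ := ih fun n hn => hs n (Finset.mem_insert_of_mem hn)
      have hd := hs m (Finset.mem_insert_self _ _)
      obtain ⟨i, hi⟩ : ∃ i, m i ≠ 0 := by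
        by_contra hc
        push Not at hc
        rw [show m = 0 from Finsupp.ext hc] at hd
        simp at hd
      obtain ⟨n, rfl⟩ : ∃ n, m = Finsupp.single i 1 + n :=
        exists_add_of_le (Finsupp.single_le_iff.2 (Nat.pos_of_ne_zero hi))
      have hn : n.degree = d := by
        rw [map_add, Finsupp.degree_single] at hd
        omega
      refine ⟨a + Pi.single i (monomial n (coeff (Finsupp.single i 1 + n) ρ)), fun j => ?_, ?_⟩
      · refine (ha j).add ?_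
        rcases eq_or_ne j i with rfl | hj
        · simpa using isHomogeneous_monomial _ hn
        · simpa [hj] using isHomogeneous_zero _ _ _
      · rw [Finset.sum_insert hm, e, monomial_single_add, pow_one]
        simp [mul_add, Finset.sum_add_distrib, Pi.single_apply, add_comm]
  obtain ⟨a, ha, e⟩ := key ρ.support fun m hm => by
    by_contra hc
    exact mem_support_iff.1 hm (h.coeff_eq_zero hc)
  exact ⟨a 0, a 1, a 2, ha 0, ha 1, ha 2, by rw [← Fin.sum_univ_three fun i => X i * a i, ← e,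
    ← as_sum]⟩

theorem const {ρ : MvPolynomial (Fin 3) k} (h : ρ.IsHomogeneous 0) : ∃ c, ρ = C c :=
  ⟨_, totalDegree_eq_zero_iff_eq_C.1 ((totalDegree_zero_iff_isHomogeneous _).2 h)⟩

theorem rep {ρ : MvPolynomial (Fin 3) k} (h : ρ.IsHomogeneous 2) :
    ∃ (a b c : k) (L : MvPolynomial (Fin 3) k), L.IsHomogeneous 1 ∧
      ρ = C a * X 0 ^ 2 + C b * X 0 * X 1 + C c * X 1 ^ 2 + X 2 * L := by
  obtain ⟨u, v, w, hu, hv, hw, rfl⟩ := split h
  obtain ⟨u0, u1, u2, h0, h1, h2, rfl⟩ := split hu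
  obtain ⟨v0, v1, v2, h3, h4, h5, rfl⟩ := split hv
  obtain ⟨a0, rfl⟩ := const h0
  obtain ⟨a1, rfl⟩ := const h1
  obtain ⟨b0, rfl⟩ := const h3
  obtain ⟨b1, rfl⟩ := const h4
  refine ⟨a0, a1 + b0, b1, w + X 0 * u2 + X 1 * v2,
    (hw.add ((isHomogeneous_X k 0).mul h2)).add ((isHomogeneous_X k 1).mul h5), ?_⟩
  rw [map_add]
  ring

theorem comp_mul {F : MvPolynomial (Fin 3) k} (hF : F.IsHomogeneous 2) (n : ℕ)
    (a : MvPolynomial (Fin 3) k) :
    homogeneousComponent (n + 2) (a * F) = homogeneousComponent n a * F := by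
  induction a using MvPolynomial.induction_on' with
  | add p q hp hq => rw [add_mul, map_add, map_add, hp, hq, add_mul]
  | monomial m c =>
    have h := isHomogeneous_monomial (R := k) c (rfl : m.degree = m.degree)
    rw [homogeneousComponent_of_mem (h.mul hF), homogeneousComponent_of_mem h]
    simp

theorem homog {F G H ρ : MvPolynomial (Fin 3) k} (hF : F.IsHomogeneous 2) (hG : G.IsHomogeneous 2)
    (hH : H.IsHomogeneous 2) {n : ℕ} (hρ : ρ.IsHomogeneous (n + 2))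
    (h : ρ ∈ Ideal.span {F, G, H}) :
    ∃ α β γ : MvPolynomial (Fin 3) k, α.IsHomogeneous n ∧ β.IsHomogeneous n ∧ γ.IsHomogeneous n ∧
      ρ = α * F + β * G + γ * H := by
  obtain ⟨a, b, c, e⟩ := Submodule.mem_span_triple.1 h
  refine ⟨_, _, _, homogeneousComponent_isHomogeneous n a, homogeneousComponent_isHomogeneous n b,
    homogeneousComponent_isHomogeneous n c, ?_⟩
  rw [← comp_mul hF, ← comp_mul hG, ← comp_mul hH, ← map_add, ← map_add]
  exact ((congrArg _ e).trans (homogeneousComponent_eq_self hρ)).symm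

theorem kill (p : MvPolynomial (Fin 3) k) :
    ∃ q, p = aeval ![X 0, X 1, 0] p + X 2 * q := by
  induction p using MvPolynomial.induction_on with
  | C a => exact ⟨0, by simp⟩
  | add p q hp hq =>
    obtain ⟨a, ha⟩ := hp
    obtain ⟨b, hb⟩ := hq
    exact ⟨a + b, by rw [map_add]; linear_combination ha + hb⟩
  | mul_X p i hp =>
    obtain ⟨a, ha⟩ := hp
    fin_cases i
    · exact ⟨a * X 0, by simp [-aeval_eq_bind₁]; linear_combination X 0 * ha⟩
    · exact ⟨a * X 1, by simp [-aeval_eq_bind₁]; linear_combination X 1 * ha⟩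
    · exact ⟨p, by simp [mul_comm]⟩

theorem core [IsAlgClosed k] {F G H L M ρ : MvPolynomial (Fin 3) k} {a b c d : k}
    (hL : L.IsHomogeneous 1) (hM : M.IsHomogeneous 1) (hH : H.IsHomogeneous 2)
    (eF : F = X 0 ^ 2 + C a * X 0 * X 1 + C b * X 1 ^ 2 + X 2 * L)
    (eG : G = C c * X 0 * X 1 + C d * X 1 ^ 2 + X 2 * M) (hR : d ^ 2 - a * c * d + b * c ^ 2 ≠ 0)
    (h : ∀ p : Fin 3 → k, eval p F = 0 → eval p G = 0 → eval p H = 0 → p = 0)
    (hρ : ρ.IsHomogeneous 4) : ρ ∈ Ideal.span {F, G, H} := by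
  have x0 := isHomogeneous_X k (0 : Fin 3)
  have x1 := isHomogeneous_X k (1 : Fin 3)
  have x2 := isHomogeneous_X k (2 : Fin 3)
  have hF : F.IsHomogeneous 2 := eF ▸
    (((x0.pow 2).add ((x0.C_mul a).mul x1)).add ((x1.pow 2).C_mul b)).add (x2.mul hL)
  have hG : G.IsHomogeneous 2 := eG ▸
    (((x0.C_mul c).mul x1).add ((x1.pow 2).C_mul d)).add (x2.mul hM)
  obtain ⟨r, hr⟩ : ∃ r : k, r * (d ^ 2 - a * c * d + b * c ^ 2) = 1 := ⟨_, inv_mul_cancel₀ hR⟩
  have hr' : (C r * (C d ^ 2 - C a * C c * C d + C b * C c ^ 2) : MvPolynomial (Fin 3) k) = 1 := by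
    simpa using congrArg (C : k → MvPolynomial (Fin 3) k) hr
  set F0 : MvPolynomial (Fin 3) k := X 0 ^ 2 + C a * X 0 * X 1 + C b * X 1 ^ 2 with hF0
  set G0 : MvPolynomial (Fin 3) k := C c * X 0 * X 1 + C d * X 1 ^ 2 with hG0
  have cub : ∀ s t u v : k, ∃ A B : MvPolynomial (Fin 3) k, A.IsHomogeneous 1 ∧ B.IsHomogeneous 1 ∧
      C s * X 0 ^ 3 + C t * X 0 ^ 2 * X 1 + C u * X 0 * X 1 ^ 2 + C v * X 1 ^ 3 =
        A * F0 + B * G0 := by
    intro s t u v
    refine ⟨C s * X 0 + C (r * ((t - s * a) * d ^ 2 - (u - s * b) * c * d + v * c ^ 2)) * X 1,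
      C (r * ((t - s * a) * (b * c - a * d) + (u - s * b) * d - v * c)) * X 0 +
        C (r * (-(t - s * a) * b * d + (u - s * b) * b * c + v * (d - a * c))) * X 1,
      (x0.C_mul _).add (x1.C_mul _), (x0.C_mul _).add (x1.C_mul _), ?_⟩
    simp only [hF0, hG0, map_mul, map_add, map_sub, map_neg, map_pow]
    linear_combination -((C t - C s * C a) * X 0 ^ 2 * X 1 + (C u - C s * C b) * X 0 * X 1 ^ 2 +
      C v * X 1 ^ 3) * hr'
  set J : Ideal (MvPolynomial (Fin 3) k) := Ideal.span {F, G} with hJ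
  have nzd : ∀ K, X 2 * K ∈ J → K ∈ J := by
    intro K hK
    obtain ⟨A, B, e⟩ := Ideal.mem_span_pair.1 hK
    obtain ⟨A', hA⟩ := kill A
    obtain ⟨B', hB⟩ := kill B
    have e0 := congrArg (aeval (R := k) ![(X 0 : MvPolynomial (Fin 3) k), X 1, 0]) e
    have p1 : aeval ![(X 0 : MvPolynomial (Fin 3) k), X 1, 0] F = F0 := by simp [eF, hF0]
    have p2 : aeval ![(X 0 : MvPolynomial (Fin 3) k), X 1, 0] G = G0 := by simp [eG, hG0]
    rw [map_add, map_mul, map_mul, map_mul, p1, p2, aeval_X] at e0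
    set A0 := aeval ![(X 0 : MvPolynomial (Fin 3) k), X 1, 0] A
    set B0 := aeval ![(X 0 : MvPolynomial (Fin 3) k), X 1, 0] B
    have e1 : A0 * F0 + B0 * G0 = 0 := by simpa using e0
    obtain ⟨s, t, -, -, h1⟩ := cub 1 0 0 0
    obtain ⟨u, v, -, -, h2⟩ := cub 0 0 0 1
    simp only [map_one, map_zero, one_mul, zero_mul, add_zero, zero_add] at h1 h2
    have hG0' : G0 ≠ 0 := by
      intro h0
      have h3 := congrArg (eval ![1, 1, 0]) h0
      have h4 := congrArg (eval ![0, 1, 0]) h0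
      simp [hG0] at h3 h4
      rw [h4, add_zero] at h3
      simp [h3, h4] at hR
    have h3 : X 0 ^ 3 * (v * A0 - u * B0) = X 1 ^ 3 * (t * A0 - s * B0) := by
      refine mul_left_cancel₀ hG0' ?_
      linear_combination (X 1 ^ 3 * s - X 0 ^ 3 * u) * e1 + X 1 ^ 3 * A0 * h1 - X 0 ^ 3 * A0 * h2
    obtain ⟨D, hD⟩ : X 0 ^ 3 ∣ t * A0 - s * B0 := by
      refine (X_prime (i := (0 : Fin 3)) (R := k)).pow_dvd_of_dvd_mul_left 3 (fun h => ?_) ⟨_, h3.symm⟩
      have := X_prime.dvd_of_dvd_pow h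
      simp [X_dvd_X] at this
    have hA0 : A0 = D * G0 := by
      refine mul_left_cancel₀ (pow_ne_zero 3 (X_ne_zero (0 : Fin 3))) ?_
      linear_combination A0 * h1 + s * e1 + G0 * hD
    have hB0 : B0 = -(D * F0) := by
      refine mul_left_cancel₀ hG0' ?_
      linear_combination e1 - F0 * hA0
    refine Ideal.mem_span_pair.2 ⟨A' - D * M, B' + D * L, mul_left_cancel₀ (X_ne_zero (2 : Fin 3)) ?_⟩
    linear_combination e - F * hA - G * hB - F * hA0 - G * hB0 - D * G * eF + D * F * eG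
  have one : ∀ σ : MvPolynomial (Fin 3) k, σ.IsHomogeneous 3 →
      ∃ β : MvPolynomial (Fin 3) k, β.IsHomogeneous 2 ∧ σ - X 2 * β ∈ J := by
    intro σ hσ
    obtain ⟨u, v, w, hu, hv, hw, rfl⟩ := split hσ
    obtain ⟨u0, u1, u2, U, hU, rfl⟩ := rep hu
    obtain ⟨v0, v1, v2, V, hV, rfl⟩ := rep hv
    obtain ⟨A, B, hA, hB, e⟩ := cub u0 (u1 + v0) (u2 + v1) v2
    refine ⟨w + X 0 * U + X 1 * V - A * L - B * M,
      (((hw.add (x0.mul hU)).add (x1.mul hV)).sub (hA.mul hL)).sub (hB.mul hM),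
      Ideal.mem_span_pair.2 ⟨A, B, ?_⟩⟩
    simp only [map_add] at e
    linear_combination A * eF + B * eG - e
  have all : ∀ n, ∀ σ : MvPolynomial (Fin 3) k, σ.IsHomogeneous (n + 2) →
      ∃ β : MvPolynomial (Fin 3) k, β.IsHomogeneous 2 ∧ σ - X 2 ^ n * β ∈ J := by
    intro n
    induction n with
    | zero => exact fun σ hσ => ⟨σ, hσ, by simp⟩
    | succ n ih =>
      intro σ hσ
      obtain ⟨u, v, w, hu, hv, hw, rfl⟩ := split (d := n + 2) hσ
      obtain ⟨u', hu', e1⟩ := ih u hu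
      obtain ⟨v', hv', e2⟩ := ih v hv
      obtain ⟨w', hw', e3⟩ := ih w hw
      obtain ⟨β, hβ, e⟩ := one _ (((x0.mul hu').add (x1.mul hv')).add (x2.mul hw'))
      refine ⟨β, hβ, ?_⟩
      have := J.add_mem (J.add_mem (J.add_mem (J.mul_mem_left (X 0) e1) (J.mul_mem_left (X 1) e2))
        (J.mul_mem_left (X 2) e3)) (J.mul_mem_left (X 2 ^ n) e)
      exact (congrArg (· ∈ J) (by ring)).mp this
  obtain ⟨N, hN⟩ : X 2 ∈ (Ideal.span {F, G, H} : Ideal (MvPolynomial (Fin 3) k)).radical := by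
    rw [← vanishingIdeal_zeroLocus_eq_radical (K := k), mem_vanishingIdeal_iff]
    intro p hp
    rw [zeroLocus_span] at hp
    rw [h p (hp F (by simp)) (hp G (by simp)) (hp H (by simp))]
    simp
  obtain ⟨α, β, γ, -, -, hγ, e⟩ := homog hF hG hH (isHomogeneous_X_pow (2 : Fin 3) (N + 2))
    (by rw [pow_add]; exact Ideal.mul_mem_right _ _ hN)
  obtain ⟨s, hs, e1⟩ := all 2 ρ hρ
  obtain ⟨t, -, e2⟩ := all N _ (hγ.mul hs)
  have e3 : ∀ n K, X 2 ^ n * K ∈ J → K ∈ J := by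
    intro n
    induction n with
    | zero => simp
    | succ n ih => exact fun K hK => nzd _ (ih _ (by rwa [pow_succ, mul_assoc] at hK))
  have e4 := e3 N (X 2 ^ 2 * s - t * H) (by
    have := J.add_mem (J.mul_mem_left H e2) (Ideal.mem_span_pair.2 ⟨α * s, β * s, rfl⟩)
    exact (congrArg (· ∈ J) (by linear_combination -s * e)).mp this)
  obtain ⟨A, B, e5⟩ := Ideal.mem_span_pair.1 (J.add_mem e1 e4)
  exact Submodule.mem_span_triple.2 ⟨A, B, t, by simp only [smul_eq_mul]; linear_combination e5⟩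

theorem mid [IsAlgClosed k] {Q₁ Q₂ Q₃ ρ : MvPolynomial (Fin 3) k} (h₁ : Q₁.IsHomogeneous 2)
    (h₂ : Q₂.IsHomogeneous 2) (h₃ : Q₃.IsHomogeneous 2) (h0 : eval ![1, 0, 0] Q₁ ≠ 0)
    (h : ∀ p : Fin 3 → k, eval p Q₁ = 0 → eval p Q₂ = 0 → eval p Q₃ = 0 → p = 0)
    (hρ : ρ.IsHomogeneous 4) : ρ ∈ Ideal.span {Q₁, Q₂, Q₃} := by
  obtain ⟨e, a', b', L', hL', e1⟩ := rep h₁
  have he : e ≠ 0 := by simpa [e1] using h0
  obtain ⟨r, hr⟩ : ∃ r : k, r * e = 1 := ⟨_, inv_mul_cancel₀ he⟩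
  have hr' : (C r * C e : MvPolynomial (Fin 3) k) = 1 := by rw [← map_mul, hr, map_one]
  obtain ⟨F, hF⟩ : ∃ F, F = C r * Q₁ := ⟨_, rfl⟩
  have eF : F = X 0 ^ 2 + C (r * a') * X 0 * X 1 + C (r * b') * X 1 ^ 2 + X 2 * (C r * L') := by
    simp only [map_mul]
    linear_combination hF + C r * e1 + X 0 ^ 2 * hr'
  generalize r * a' = a, r * b' = b at eF
  have hL := hL'.C_mul r
  generalize C r * L' = L at eF hL
  have red : ∀ Q : MvPolynomial (Fin 3) k, Q.IsHomogeneous 2 → ∃ (s c d : k) (G M : _),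
      M.IsHomogeneous 1 ∧ G.IsHomogeneous 2 ∧ Q = G + C s * F ∧
        G = C c * X 0 * X 1 + C d * X 1 ^ 2 + X 2 * M := fun Q hQ => by
    obtain ⟨s, c, d, M, hM, e2⟩ := rep hQ
    refine ⟨s, c - s * a, d - s * b, Q - C s * F, M - C s * L, hM.sub (hL.C_mul s),
      hQ.sub ((hF ▸ h₁.C_mul r).C_mul s), by ring, ?_⟩
    simp only [map_sub, map_mul]
    linear_combination e2 - C s * eF
  obtain ⟨s, c, d, G, M, hM, hG, e2, eG⟩ := red Q₂ h₂
  obtain ⟨s', c', d', H, N, hN, hH, e3, eH⟩ := red Q₃ h₃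
  have hz : ∀ p : Fin 3 → k, eval p F = 0 → eval p G = 0 → eval p H = 0 → p = 0 := by
    intro p p1 p2 p3
    refine h p ?_ (by simp [e2, p1, p2]) (by simp [e3, p1, p3])
    rw [hF, map_mul, eval_C] at p1
    exact (mul_eq_zero.1 p1).resolve_left (left_ne_zero_of_mul_eq_one hr)
  set I : Ideal (MvPolynomial (Fin 3) k) := Ideal.span {Q₁, Q₂, Q₃}
  have iF : F ∈ I := hF ▸ I.mul_mem_left _ (Ideal.subset_span (by simp))
  have iG : G ∈ I := by
    rw [← sub_eq_iff_eq_add.2 e2]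
    exact I.sub_mem (Ideal.subset_span (by simp)) (I.mul_mem_left _ iF)
  have iH : H ∈ I := by
    rw [← sub_eq_iff_eq_add.2 e3]
    exact I.sub_mem (Ideal.subset_span (by simp)) (I.mul_mem_left _ iF)
  have le : ∀ {A B : MvPolynomial (Fin 3) k}, A ∈ I → B ∈ I → Ideal.span {F, A, B} ≤ I :=
    fun hA hB => Ideal.span_le.2 (by simp [Set.insert_subset_iff, iF, hA, hB])
  by_cases r1 : d ^ 2 - a * c * d + b * c ^ 2 = 0
  swap
  · exact le iG iH (core hL hM hH eF eG r1 hz hρ)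
  by_cases r2 : d' ^ 2 - a * c' * d' + b * c' ^ 2 = 0
  swap
  · exact le iH iG (core hL hN hG eF eH r2 (fun p p1 p2 p3 => hz p p1 p3 p2) hρ)
  by_cases r3 : (d + d') ^ 2 - a * (c + c') * (d + d') + b * (c + c') ^ 2 = 0
  swap
  · refine le (I.add_mem iG iH) iH (core hL (hM.add hN) hH eF ?_ r3
      (fun p p1 p2 p3 => hz p p1 (by simpa [p3] using p2) p3) hρ)
    simp only [map_add]
    linear_combination eG + eH
  exfalso
  have det : c * d' - c' * d = 0 := by
    refine pow_eq_zero_iff (two_ne_zero) |>.1 ?_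
    linear_combination (c' ^ 2 + c * c') * r1 + (c ^ 2 + c * c') * r2 - c * c' * r3
  have z1 := hz ![d, -c, 0] (by simp [eF]; linear_combination r1) (by simp [eG]; ring)
    (by simp [eH]; linear_combination c * det)
  have z2 := hz ![d', -c', 0] (by simp [eF]; linear_combination r2)
    (by simp [eG]; linear_combination -c' * det) (by simp [eH]; ring)
  have d0 : d = 0 := congrFun z1 0
  have c0 : c = 0 := neg_eq_zero.1 (congrFun z1 1)
  have d0' : d' = 0 := congrFun z2 0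
  have c0' : c' = 0 := neg_eq_zero.1 (congrFun z2 1)
  obtain ⟨ζ, h1, h2⟩ := exists_common_zero ![F, X 2] (by norm_num) (fun j => by
    fin_cases j <;> simp [eF])
  have h3 : ζ 2 = 0 := by simpa using h2 1
  exact h1 (hz ζ (h2 0) (by simp [eG, c0, d0, h3]) (by simp [eH, c0', d0', h3]))

end Mac

theorem quartic_mem_of_no_common_zero {k : Type} [Field k] [IsAlgClosed k]
    {Q₁ Q₂ Q₃ : MvPolynomial (Fin 3) k} (h₁ : Q₁.IsHomogeneous 2) (h₂ : Q₂.IsHomogeneous 2)
    (h₃ : Q₃.IsHomogeneous 2)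
    (h : ∀ p : Fin 3 → k, eval p Q₁ = 0 → eval p Q₂ = 0 → eval p Q₃ = 0 → p = 0)
    (ρ : MvPolynomial (Fin 3) k) (hρ : ρ.IsHomogeneous 4) :
    ∃ α β γ : MvPolynomial (Fin 3) k, α.IsHomogeneous 2 ∧ β.IsHomogeneous 2 ∧ γ.IsHomogeneous 2 ∧
      ρ = α * Q₁ + β * Q₂ + γ * Q₃ := by
  refine Mac.homog h₁ h₂ h₃ (n := 2) hρ ?_
  by_cases a : eval ![1, 0, 0] Q₁ = 0
  swap
  · exact Mac.mid h₁ h₂ h₃ a h hρ
  by_cases b : eval ![1, 0, 0] Q₂ = 0
  swap
  · rw [Set.insert_comm]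
    exact Mac.mid h₂ h₁ h₃ b (fun p p1 p2 p3 => h p p2 p1 p3) hρ
  by_cases c : eval ![1, 0, 0] Q₃ = 0
  · exact absurd (congrFun (h _ a b c) 0) one_ne_zero
  · rw [Set.pair_comm, Set.insert_comm]
    exact Mac.mid h₃ h₁ h₂ c (fun p p1 p2 p3 => h p p2 p3 p1) hρ

end Pool.Agent.Lib.MP_fc2ced_ag
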