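import Pool.Agent.Lib.MP_fc2ced_ag.GeoY
import Pool.Agent.Lib.MP_fc2ced_ag.GeoYB
import Pool.Agent.Lib.MP_fc2ced_ag.Base
import Pool.Agent.Lib.MP_fc2ced_ag.Mac

-- part Pool.Agent.Lib.MP_fc2ced_ag.GeoWA
section

/-!
Tools for the half twist: comparison of objects through their points, Kummer covers, curves.
-/

open CategoryTheory Polynomial
open scoped TensorProduct

set_option linter.unusedSectionVars false

namespace Pool.Agent.Lib.MP_fc2ced_ag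

open Obj Algebra.TensorProduct

variable {k : Type} [Field k] [CharZero k] [IsAlgClosed k]

namespace GW

section Rel

variable {B B₁ B₂ : Type} [CommRing B] [Algebra k B] [CommRing B₁] [Algebra k B₁] [CommRing B₂]
  [Algebra k B₂] {N : Pr k B} {N₁ : Pr k B₁} {N₂ : Pr k B₂}

theorem sf_bot {M : Obj k} (hM : SF M) (h : ∀ {O : Aic k} (φ : M.B →ₐ[k] O), ¬ M.D.p φ) :
    SF ⟨M.B, M.N, .bot⟩ :=
  (IsE.sf_iff (M := M) (M' := ⟨M.B, M.N, .bot⟩) (β := .id k _)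
    (IsE.std (fun _ h => h) (fun φ _ => ⟨False.elim, h φ⟩) fun _ h _ => h)).1 hM

/-- Objects whose points are in natural bijection. -/
theorem sf_rel (Γ : ∀ {O : Aic k}, (B →ₐ[k] O) → (B₁ →ₐ[k] O) → Prop)
    (mono : ∀ {O O' : Aic k} (g : O →ₐ[k] O') φ φ₁, Γ φ φ₁ → Γ (g.comp φ) (g.comp φ₁))
    (ex : ∀ {O : Aic k} (φ : B →ₐ[k] O), N.p φ → ∃ φ₁, N₁.p φ₁ ∧ Γ φ φ₁)
    (ex' : ∀ {O : Aic k} (φ₁ : B₁ →ₐ[k] O), N₁.p φ₁ → ∃ φ, N.p φ ∧ Γ φ φ₁)
    (un : ∀ {O : Aic k} (φ φ' : B →ₐ[k] O) φ₁, N₁.p φ₁ → N.p φ → N.p φ' → Γ φ φ₁ → Γ φ' φ₁ →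
      φ = φ')
    (un' : ∀ {O : Aic k} (φ : B →ₐ[k] O) φ₁ φ₁', N.p φ → Γ φ φ₁ → Γ φ φ₁' → φ₁ = φ₁') :
    SF ⟨B, N, .bot⟩ ↔ SF ⟨B₁, N₁, .bot⟩ := by
  let G : Pr k (B ⊗[k] B₁) := ⟨fun ψ => N.p (ψ.comp includeLeft) ∧ N₁.p (ψ.comp includeRight) ∧
    Γ (ψ.comp includeLeft) (ψ.comp includeRight), fun g ψ h =>
      ⟨N.mono g _ h.1, N₁.mono g _ h.2.1, mono g _ _ h.2.2⟩⟩
  have pm {O : Aic k} {φ : B →ₐ[k] O} {φ₁ : B₁ →ₐ[k] O} (h : N.p φ) (h₁ : N₁.p φ₁) (hΓ : Γ φ φ₁) :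
      G.p (productMap φ φ₁) := by
    refine ⟨?_, ?_, ?_⟩ <;> simp only [productMap_left, productMap_right] <;> assumption
  have e : IsE ⟨_, G, .bot⟩ ⟨B, N, .bot⟩ includeLeft :=
    ⟨fun _ h => h.1, fun _ _ => Iff.rfl,
      fun ψ ψ' h _ h' e => tensor_ext e (un' _ _ _ h.1 h.2.2 (e ▸ h'.2.2)),
      fun χ h _ => let ⟨φ₁, h₁, hΓ⟩ := ex χ h; ⟨_, pm h h₁ hΓ, productMap_left _ _⟩⟩
  have e₁ : IsE ⟨_, G, .bot⟩ ⟨B₁, N₁, .bot⟩ includeRight :=
    ⟨fun _ h => h.2.1, fun _ _ => Iff.rfl,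
      fun ψ ψ' h _ h' e => tensor_ext (un _ _ _ h.2.1 h.1 h'.1 h.2.2 (e ▸ h'.2.2)) e,
      fun χ h _ => let ⟨φ, h₁, hΓ⟩ := ex' χ h; ⟨_, pm h₁ h hΓ, productMap_right _ _⟩⟩
  exact e.sf_iff.symm.trans e₁.sf_iff

/-- An object whose points are in natural bijection with pairs of points. -/
theorem sf_rel₂ (Γ : ∀ {O : Aic k}, (B →ₐ[k] O) → (B₁ →ₐ[k] O) → (B₂ →ₐ[k] O) → Prop)
    (mono : ∀ {O O' : Aic k} (g : O →ₐ[k] O') φ φ₁ φ₂, Γ φ φ₁ φ₂ →
      Γ (g.comp φ) (g.comp φ₁) (g.comp φ₂))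
    (ex : ∀ {O : Aic k} (φ : B →ₐ[k] O), N.p φ → ∃ φ₁ φ₂, N₁.p φ₁ ∧ N₂.p φ₂ ∧ Γ φ φ₁ φ₂)
    (ex' : ∀ {O : Aic k} (φ₁ : B₁ →ₐ[k] O) (φ₂ : B₂ →ₐ[k] O), N₁.p φ₁ → N₂.p φ₂ →
      ∃ φ, N.p φ ∧ Γ φ φ₁ φ₂)
    (un : ∀ {O : Aic k} (φ φ' : B →ₐ[k] O) φ₁ φ₂, N₂.p φ₂ → N.p φ → N.p φ' → Γ φ φ₁ φ₂ →
      Γ φ' φ₁ φ₂ → φ = φ')
    (un' : ∀ {O : Aic k} (φ : B →ₐ[k] O) φ₁ φ₂ φ₁' φ₂', N.p φ → Γ φ φ₁ φ₂ → Γ φ φ₁' φ₂' →
      φ₁ = φ₁' ∧ φ₂ = φ₂')
    (h₁ : SF ⟨B₁, N₁, .bot⟩) (h₂ : SF ⟨B₂, N₂, .bot⟩) : SF ⟨B, N, .bot⟩ := by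
  have h : SF ⟨B₁ ⊗[k] B₂, (N₁.comap includeLeft).and (N₂.comap includeRight), .bot⟩ := by
    have h := sf_bot (h₁.smash h₂) fun _ h => Or.elim h id id
    dsimp only at h
    exact h
  refine Iff.mpr ?_ h
  refine sf_rel (fun φ ψ => Γ φ (ψ.comp includeLeft) (ψ.comp includeRight))
    (fun g φ ψ h => mono g φ (ψ.comp includeLeft) (ψ.comp includeRight) h) (fun φ h => ?_)
    (fun ψ h => ex' _ _ h.1 h.2) (fun φ φ' ψ h => un φ φ' _ _ h.2) fun φ ψ ψ' h h1 h2 => ?_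
  · obtain ⟨φ₁, φ₂, h1, h2, h3⟩ := ex φ h
    refine ⟨productMap φ₁ φ₂, ⟨?_, ?_⟩, ?_⟩ <;>
      simp only [Pr.comap_p, productMap_left, productMap_right] <;> assumption
  · exact tensor_ext (un' φ _ _ _ _ h h1 h2).1 (un' φ _ _ _ _ h h1 h2).2

end Rel

section Root

variable {B : Type} [CommRing B] [Algebra k B] (n : ℕ) (c : B)

/-- Adjoining a root. -/
abbrev AR : Type := AdjoinRoot (X ^ n - C c)

/-- The root. -/
noncomputable abbrev rt : AR n c := AdjoinRoot.root _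

variable {n c} {O : Type} [CommRing O] [Algebra k O]

theorem ar_lift (ψ : B →ₐ[k] O) (t : O) (h : t ^ n = ψ c) :
    ∃ χ : AR n c →ₐ[k] O, (∀ b, χ (algebraMap B _ b) = ψ b) ∧ χ (rt n c) = t :=
  ⟨AdjoinRoot.liftAlgHom _ ψ t (by
    rw [eval₂_sub, eval₂_X_pow, eval₂_C, RingHom.coe_coe, h, sub_self]), fun b => by simp,
    AdjoinRoot.liftAlgHom_root ..⟩

theorem ar_ext {χ χ' : AR n c →ₐ[k] O} (h : ∀ b, χ (algebraMap B _ b) = χ' (algebraMap B _ b))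
    (ht : χ (rt n c) = χ' (rt n c)) : χ = χ' :=
  AlgHom.coe_ringHom_injective (AdjoinRoot.ringHom_ext (RingHom.ext h) ht)

theorem ar_eq (χ : AR n c →ₐ[k] O) : χ (rt n c) ^ n = χ (algebraMap B _ c) := by
  rw [← map_pow, root_pow]

theorem ar_mem {χ : AR n c →ₐ[k] O} {K : Subalgebra k O} (h : ∀ b, χ (algebraMap B _ b) ∈ K)
    (ht : χ (rt n c) ∈ K) (x : AR n c) : χ x ∈ K := by
  induction x using AdjoinRoot.induction_on with | ih p => ?_
  induction p using Polynomial.induction_on' with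
  | add p q hp hq => rw [map_add, map_add]; exact add_mem hp hq
  | monomial i b =>
    rw [← C_mul_X_pow_eq_monomial, map_mul, map_mul, map_pow, map_pow, AdjoinRoot.mk_C,
      AdjoinRoot.mk_X]
    exact mul_mem (h b) (pow_mem ht i)

/-- Descent along a Kummer cover. -/
theorem sf_of_ar (hn : 0 < n) {N : Pr k B}
    (h : SF ⟨AR n c, N.comap (IsScalarTower.toAlgHom k B _), .bot⟩) : SF ⟨B, N, .bot⟩ := by
  rcases subsingleton_or_nontrivial B with hB | hB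
  · exact .of_uzero (.dead fun φ _ => zero_ne_one (φ.toRingHom.codomain_trivial.elim _ _))
  have hm := monic_X_pow_sub_C c hn.ne'
  have : Module.Free B (AR n c) := .of_basis (AdjoinRoot.powerBasis' hm).basis
  have : Module.Finite B (AR n c) := (AdjoinRoot.powerBasis' hm).finite
  have : Nontrivial (AR n c) := Module.nontrivial_of_finrank_pos (R := B) (by
    rwa [(AdjoinRoot.powerBasis' hm).finrank, AdjoinRoot.powerBasis'_dim, natDegree_X_pow_sub_C])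
  exact SF.of_finite_free (C := AR n c) h

theorem smooth_ar [Algebra.Smooth k B] (hn : 0 < n) (hc : IsUnit c) : Algebra.Smooth k (AR n c) :=
  have := etale_kummer (isUnit_natCast k B hn) hc
  .comp k B _

variable (n c) in
/-- The Kummer cover of the open set where `c` is invertible. -/
def Kum : Type := AR n (algebraMap B (Localization.Away c) c)

noncomputable instance : CommRing (Kum n c) := inferInstanceAs (CommRing (AR _ _))
noncomputable instance {S : Type} [CommRing S] [Algebra S B] : Algebra S (Kum n c) :=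
  inferInstanceAs (Algebra S (AR _ _))
instance : IsScalarTower k B (Kum n c) := inferInstanceAs (IsScalarTower k B (AR _ _))

variable (n c) in
/-- The root. -/
noncomputable def krt : Kum n c := rt _ _

theorem kum_lift (ψ : B →ₐ[k] O) (t : O) (h : t ^ n = ψ c) (ht : IsUnit t) :
    ∃ χ : Kum n c →ₐ[k] O, (∀ b, χ (algebraMap B _ b) = ψ b) ∧ χ (krt n c) = t := by
  obtain ⟨χ, h1, h2⟩ := ar_lift (n := n) (c := algebraMap B (Localization.Away c) c)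
    (IsLocalization.Away.liftAlgHom c (f := ψ) (h ▸ ht.pow n)) t (by simpa using h)
  exact ⟨χ, fun b => (h1 (algebraMap B _ b)).trans (by simp), h2⟩

theorem kum_ext {χ χ' : Kum n c →ₐ[k] O} (h : ∀ b, χ (algebraMap B _ b) = χ' (algebraMap B _ b))
    (ht : χ (krt n c) = χ' (krt n c)) : χ = χ' :=
  AlgHom.coe_ringHom_injective (AdjoinRoot.ringHom_ext
    (IsLocalization.ringHom_ext (Submonoid.powers c) (RingHom.ext h)) ht)

theorem kum_eq (χ : Kum n c →ₐ[k] O) : χ (krt n c) ^ n = χ (algebraMap B _ c) := ar_eq χ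

theorem kum_unit (hn : 0 < n) (χ : Kum n c →ₐ[k] O) : IsUnit (χ (krt n c)) := by
  rw [← isUnit_pow_iff hn.ne', kum_eq]
  exact ((IsLocalization.Away.algebraMap_isUnit (S := Localization.Away c) c).map
    (algebraMap _ (AR n (algebraMap B (Localization.Away c) c)))).map χ

variable (k) in
include k in
theorem etale_kum (hn : 0 < n) : Algebra.Etale B (Kum n c) :=
  have := etale_kummer (isUnit_natCast k (Localization.Away c) hn)
    (IsLocalization.Away.algebraMap_isUnit (S := Localization.Away c) c)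
  have : Algebra.Etale B (Localization.Away c) := .of_isLocalizationAway c
  Algebra.Etale.comp B (Localization.Away c) (AR n (algebraMap B (Localization.Away c) c))

end Root

section Mem

variable {B Ω : Type} [CommRing B] [Algebra k B] [Field Ω] [Algebra k Ω]
  {K : IntermediateField k Ω}

theorem away_mem {B' : Type} [CommRing B'] [Algebra k B'] [Algebra B B'] (c : B)
    [IsLocalization.Away c B'] {χ : B' →ₐ[k] Ω} (h : ∀ b, χ (algebraMap B _ b) ∈ K) (x : B') :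
    χ x ∈ K := by
  obtain ⟨⟨b, s⟩, e⟩ := IsLocalization.surj (Submonoid.powers c) x
  have hs := ((IsLocalization.map_units B' s).map χ).ne_zero
  rw [eq_div_of_mul_eq hs ((map_mul χ _ _).symm.trans (congrArg χ e))]
  exact div_mem (h _) (h _)

theorem poly_mem {χ : k[X] →ₐ[k] Ω} (h : χ X ∈ K) (p : k[X]) : χ p ∈ K := by
  rw [← aeval_X_left_apply p, ← aeval_algHom_apply]
  exact Algebra.adjoin_le (S := K.toSubalgebra) (Set.singleton_subset_iff.2 h)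
    (aeval_mem_adjoin_singleton k _)

theorem mv_mem {σ : Type} {χ : MvPolynomial σ k →ₐ[k] Ω} (h : ∀ i, χ (.X i) ∈ K)
    (p : MvPolynomial σ k) : χ p ∈ K := by
  induction p using MvPolynomial.induction_on with
  | C a => exact (χ.commutes a).symm ▸ K.algebraMap_mem a
  | add p q hp hq => rw [map_add]; exact add_mem hp hq
  | mul_X p i hp => rw [map_mul]; exact mul_mem hp (h i)

theorem kum_mem {n : ℕ} {c : B} {χ : Kum n c →ₐ[k] Ω} (h : ∀ b, χ (algebraMap B _ b) ∈ K)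
    (ht : χ (krt n c) ∈ K) : ∀ x, χ x ∈ K :=
  let χ' : AR n (algebraMap B (Localization.Away c) c) →ₐ[k] Ω := χ
  ar_mem (K := K.toSubalgebra) (χ := χ')
    (away_mem c (χ := χ'.comp (IsScalarTower.toAlgHom k (Localization.Away c) _)) h) ht

end Mem

theorem sf_loc {B : Type} [CommRing B] [Algebra k B] [Algebra.Smooth k B] (g : B)
    (H : ∀ (Ω : Type) [Field Ω] [IsAlgClosed Ω] [Algebra k Ω] (ψ : B →ₐ[k] Ω), RFpt ψ) :
    SF (loc k g) :=
  (isE_sup_empty g).sf_iff.2 (SF_sup g Set.finite_empty fun Ω _ _ _ ψ _ _ => H Ω ψ)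

/-- Open subsets of the line. -/
theorem sf_line (p : k[X]) : SF (loc k p) :=
  have : Algebra.Smooth k k[X] := {}
  sf_loc p fun _ _ _ _ ψ => ⟨_, RF_acl (ψ X), poly_mem (self_mem_acl _)⟩

/-- Open subsets of the plane. -/
theorem sf_plane (p : MvPolynomial (Fin 2) k) : SF (loc k p) :=
  have : Algebra.Smooth k (MvPolynomial (Fin 2) k) := {}
  sf_loc p fun _ _ _ _ ψ => PC.rfpt ⟨ψ (.X 0), ψ (.X 1), mv_mem fun i => by
    fin_cases i
    exacts [le_sup_left (a := acl k (ψ (.X 0))) (self_mem_acl _),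
      le_sup_right (b := acl k (ψ (.X 1))) (self_mem_acl _)]⟩

/-- Kummer curves. -/
theorem sf_kum {n : ℕ} (hn : 0 < n) (p : k[X]) : SF (sm k (Kum n p)) := by
  have : Algebra.Smooth k k[X] := {}
  have := etale_kum k (c := p) hn
  have : Algebra.Smooth k (Kum n p) := .comp k k[X] _
  refine SF_of_rfpt fun Ω _ _ _ ψ => ⟨_, RF_acl (ψ (algebraMap k[X] _ X)), ?_⟩
  have h (q : k[X]) : ψ (algebraMap k[X] _ q) ∈ acl k (ψ (algebraMap k[X] _ X)) :=
    poly_mem (χ := ψ.comp (IsScalarTower.toAlgHom k k[X] _)) (self_mem_acl _) q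
  refine kum_mem h (mem_acl_of_isAlgebraic (IsAlgebraic.of_pow hn ?_))
  rw [kum_eq]
  exact isAlgebraic_algebraMap (⟨_, h p⟩ : acl k (ψ (algebraMap k[X] _ X)))

/-- The double plane. -/
theorem sf_two (F : Forms k) : SF (sm k (AR 2 F.φ)) := by
  have := smooth_ar (k := k) two_pos F.isUnit_φ
  refine SF_of_rfpt fun Ω _ _ _ ψ => PC.rfpt ?_
  let ψ₀ : F.R →ₐ[k] Ω := ψ.comp (IsScalarTower.toAlgHom k _ _)
  have hG : (F.f MvPolynomial.X : MvPolynomial (Fin 3) k).IsHomogeneous 4 :=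
    ((isHomogeneous_ev _).mul (isHomogeneous_ev _)).add
      ((isHomogeneous_ev _).mul (isHomogeneous_ev _))
  obtain ⟨a₁, a₂, c, hc, hv, hz⟩ := quartic_pc _ hG (ψ₀ ∘ F.v) (ψ (rt 2 F.φ) * ψ₀ (F.q F.v)) (by
    have : MvPolynomial.aeval (ψ₀ ∘ F.v) ∘ MvPolynomial.X (R := k) = ψ₀ ∘ F.v :=
      funext fun i => MvPolynomial.aeval_X _ _
    rw [F.map_f, this, ← F.map_f, ← F.φ_mul, mul_pow, ar_eq, map_mul, map_pow]
    rfl)
  have h0 : c ∈ acl k a₁ ⊔ acl k a₂ := by simpa using hv 0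
  have h1 (i) : ψ₀ (F.v i) ∈ acl k a₁ ⊔ acl k a₂ := by
    simpa [hc] using mul_mem (inv_mem h0) (hv i)
  have h2 : ∀ r, ψ₀ r ∈ acl k a₁ ⊔ acl k a₂ :=
    away_mem (F.q (Forms.v₀ k) * F.f (Forms.v₀ k))
      (mv_mem (χ := ψ₀.comp (IsScalarTower.toAlgHom k _ _)) fun i => by
        fin_cases i
        exacts [h1 1, h1 2])
  refine ⟨a₁, a₂, ar_mem (K := (acl k a₁ ⊔ acl k a₂).toSubalgebra) h2 ?_⟩
  have hq := (F.isUnit_q.map ψ₀).ne_zero
  have := div_mem hz (mul_mem (pow_mem h0 2) (h2 (F.q F.v)))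
  rwa [mul_div_mul_left _ _ (pow_ne_zero 2 hc), mul_div_cancel_right₀ _ hq] at this

section Cut

variable {B R : Type} [CommRing B] [Algebra k B] [CommRing R] [Algebra k R] [Algebra.Smooth k R]

variable (k) in
/-- The locally closed set where `h` vanishes and `g` is invertible. -/
abbrev cut (h g : B) : Obj k := ⟨B, (Pr.zero h).and (.unit g), .bot⟩

theorem sf_cut (h g : B) :
    SF (loc k (Ideal.Quotient.mkₐ k (Ideal.span {h}) g)) ↔ SF (cut k h g) :=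
  IsE.sf_iff (β := Ideal.Quotient.mkₐ k (Ideal.span {h}))
    ⟨fun ψ hψ => ⟨by simp, hψ⟩, fun _ _ => Iff.rfl,
      fun _ _ _ _ _ e => Ideal.Quotient.algHom_ext k e, fun χ hχ _ =>
      ⟨Ideal.Quotient.liftₐ _ χ fun a ha => by
        obtain ⟨b, rfl⟩ := Ideal.mem_span_singleton.1 ha
        rw [map_mul, show χ h = 0 from hχ.1, zero_mul], hχ.2, rfl⟩⟩

variable (θ : R[X] →ₐ[k] B) (hθ : θ.toRingHom.Etale) {h : B} (hh : θ X = h) (g : B)
include hθ hh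

theorem cut_open (h1 : SF (cut k h g)) (h2 : SF (loc k (g * h))) : SF (loc k g) := by
  subst hh
  exact (purity_open θ hθ _ (Ideal.Quotient.mkₐ_surjective k _) (fun _ =>
    Ideal.Quotient.eq_zero_iff_mem.trans Ideal.mem_span_singleton) g ((sf_cut _ g).2 h1)).1 h2

theorem cut_closed (h1 : SF (loc k (g * h))) (h2 : SF (loc k g)) : SF (cut k h g) := by
  subst hh
  exact (sf_cut _ g).1 (purity_closed θ hθ _ (Ideal.Quotient.mkₐ_surjective k _) (fun _ =>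
    Ideal.Quotient.eq_zero_iff_mem.trans Ideal.mem_span_singleton) g h1 h2)

end Cut

end GW

end Pool.Agent.Lib.MP_fc2ced_ag
end

-- part Pool.Agent.Lib.MP_fc2ced_ag.GeoWB
section

/-!
The fourfold `w ^ n = φ a (1 + m (a - 1))` and its easy strata.
-/

open CategoryTheory Polynomial
open scoped TensorProduct

set_option linter.unusedSectionVars false

namespace Pool.Agent.Lib.MP_fc2ced_ag

open Obj

variable {k : Type} [Field k] [CharZero k] [IsAlgClosed k]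

namespace GW

section Curve

variable {n : ℕ} {p : k[X]} {O : Type} [CommRing O] [Algebra k O]

variable (n p) in
/-- The coordinate of a Kummer curve. -/
noncomputable def kx : Kum n p := algebraMap k[X] _ X

theorem crv_eq (ζ : Kum n p →ₐ[k] O) : ζ (krt n p) ^ n = aeval (ζ (kx n p)) p := by
  rw [kum_eq, aeval_algHom_apply, kx, aeval_algebraMap_apply, aeval_X_left_apply]

theorem crv_lift (x t : O) (h : t ^ n = aeval x p) (ht : IsUnit t) :
    ∃ ζ : Kum n p →ₐ[k] O, ζ (kx n p) = x ∧ ζ (krt n p) = t :=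
  let ⟨ζ, h1, h2⟩ := kum_lift (aeval x) t h ht
  ⟨ζ, (h1 X).trans (aeval_X x), h2⟩

theorem crv_ext {ζ ζ' : Kum n p →ₐ[k] O} (h : ζ (kx n p) = ζ' (kx n p))
    (ht : ζ (krt n p) = ζ' (krt n p)) : ζ = ζ' :=
  kum_ext (DFunLike.congr_fun (Polynomial.algHom_ext
    (f := ζ.comp (IsScalarTower.toAlgHom k k[X] _)) (g := ζ'.comp (IsScalarTower.toAlgHom k k[X] _))
    h)) ht

end Curve

variable {R : Type} [CommRing R] [Algebra k R] (n : ℕ) (φ : R)

/-- The right hand side of the equation. -/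
noncomputable def cW : R[X][X] := C (C φ) * C X * (1 + X * (C X - 1))

/-- The fourfold. -/
abbrev W : Type := Kum n (cW φ)

variable (k) in
/-- The projection to the base. -/
noncomputable def Wι : R →ₐ[k] W n φ :=
  (IsScalarTower.toAlgHom k R[X][X] _).comp (CAlgHom.comp CAlgHom)

/-- The coordinate `a`. -/
noncomputable def Wa : W n φ := algebraMap R[X][X] _ (C X)
/-- The coordinate `m`. -/
noncomputable def Wm : W n φ := algebraMap R[X][X] _ X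
/-- The coordinate `w`. -/
noncomputable def Ww : W n φ := krt _ _

variable {n φ}

section
variable {O : Type} [CommRing O] [Algebra k O]

theorem W_eq (χ : W n φ →ₐ[k] O) : χ (Ww n φ) ^ n =
    χ (Wι k n φ φ) * χ (Wa n φ) * (1 + χ (Wm n φ) * (χ (Wa n φ) - 1)) := by
  refine (kum_eq χ).trans ?_
  have (p : R[X][X]) (h : p = C (C φ) * C X * (1 + X * (C X - 1))) : χ (algebraMap _ _ p) =
      χ (Wι k n φ φ) * χ (Wa n φ) * (1 + χ (Wm n φ) * (χ (Wa n φ) - 1)) := by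
    simp only [h, map_mul, map_add, map_sub, map_one]
    rfl
  exact this _ rfl

theorem W_unit (hn : 0 < n) (χ : W n φ →ₐ[k] O) : IsUnit (χ (Ww n φ)) := kum_unit hn χ

theorem W_unit_a (hn : 0 < n) (χ : W n φ →ₐ[k] O) : IsUnit (χ (Wa n φ)) :=
  isUnit_of_mul_isUnit_right (isUnit_of_mul_isUnit_left (W_eq χ ▸ (W_unit hn χ).pow n))

theorem W_lift (ψ : R →ₐ[k] O) (a m w : O) (h : w ^ n = ψ φ * a * (1 + m * (a - 1)))
    (hw : IsUnit w) : ∃ χ : W n φ →ₐ[k] O, (∀ r, χ (Wι k n φ r) = ψ r) ∧ χ (Wa n φ) = a ∧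
      χ (Wm n φ) = m ∧ χ (Ww n φ) = w := by
  obtain ⟨χ, h1, h2⟩ := kum_lift (n := n) (c := cW φ) (aevalTower (aevalTower ψ a) m) w
    (by simpa [cW] using h) hw
  exact ⟨χ, fun r => (h1 (C (C r))).trans (by simp), (h1 _).trans (by simp),
    (h1 _).trans (by simp), h2⟩

theorem W_ext {χ χ' : W n φ →ₐ[k] O} (h : ∀ r, χ (Wι k n φ r) = χ' (Wι k n φ r))
    (ha : χ (Wa n φ) = χ' (Wa n φ)) (hm : χ (Wm n φ) = χ' (Wm n φ))
    (hw : χ (Ww n φ) = χ' (Ww n φ)) : χ = χ' :=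
  kum_ext (DFunLike.congr_fun (Polynomial.algHom_ext'
    (f := χ.comp (IsScalarTower.toAlgHom k R[X][X] _))
    (g := χ'.comp (IsScalarTower.toAlgHom k R[X][X] _))
    (Polynomial.algHom_ext' (AlgHom.ext h) ha) hm)) hw

end

theorem etale_W (hn : 0 < n) (e : R[X][X] ≃ₐ[k] R[X][X]) :
    ((IsScalarTower.toAlgHom k R[X][X] (W n φ)).comp (e : R[X][X] →ₐ[k] R[X][X])).toRingHom.Etale :=
  RingHom.Etale.stableUnderComposition _ _ (.of_bijective (f := e.toAlgHom.toRingHom) e.bijective)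
    (RingHom.etale_algebraMap.2 (etale_kum k hn))

variable (hn : 0 < n) (hφ : IsUnit φ)
include hn hφ

/-- The stratum `m = 0`. -/
theorem sf_m0 (hR : SF (sm k R)) : SF (cut k (Wm n φ) 1) := by
  refine sf_rel₂ (fun χ ψ ζ => (∀ r, χ (Wι k n φ r) = ψ r) ∧ χ (Ww n φ) = ζ X)
    (fun g _ _ _ h => ⟨fun r => congrArg g (h.1 r), congrArg g h.2⟩)
    (fun χ _ => ⟨χ.comp (Wι k n φ), aeval (χ (Ww n φ)), trivial, by simpa using W_unit hn χ,
      fun _ => rfl, by simp⟩) (fun ψ ζ _ hζ => ?_) (fun χ χ' ψ ζ _ h h' e e' => ?_)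
    (fun χ ψ ζ ψ' ζ' _ e e' => ⟨AlgHom.ext fun r => (e.1 r).symm.trans (e'.1 r),
      Polynomial.algHom_ext (e.2.symm.trans e'.2)⟩) hR (sf_line X)
  · obtain ⟨i, hi⟩ := (hφ.map ψ).exists_right_inv
    obtain ⟨χ, h1, -, h3, h4⟩ := W_lift (n := n) (φ := φ) ψ (ζ X ^ n * i) 0 (ζ X)
      (by linear_combination (-ζ X ^ n) * hi) hζ
    exact ⟨χ, ⟨h3, by simp⟩, h1, h4⟩
  · have h1 := W_eq χ
    have h2 := W_eq χ'
    have h3 : χ (Wm n φ) = 0 := h.1
    have h4 : χ' (Wm n φ) = 0 := h'.1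
    rw [h3, e.1, e.2] at h1
    rw [h4, e'.1, e'.2] at h2
    exact W_ext (fun r => (e.1 r).trans (e'.1 r).symm)
      ((hφ.map ψ).mul_left_cancel (by linear_combination h2 - h1)) (h3.trans h4.symm)
      (e.2.trans e'.2.symm)

/-- The open set `a ≠ 1`. -/
theorem sf_a_ne (hR : SF (sm k R)) : SF (loc k (1 * (Wa n φ - 1))) := by
  refine sf_rel₂ (B₂ := MvPolynomial (Fin 2) k)
    (fun χ ψ ζ => (∀ r, χ (Wι k n φ r) = ψ r) ∧ χ (Wa n φ) = ζ (.X 0) ∧ χ (Ww n φ) = ζ (.X 1))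
    (fun g _ _ _ h => ⟨fun r => congrArg g (h.1 r), congrArg g h.2.1, congrArg g h.2.2⟩)
    (fun χ h => ⟨χ.comp (Wι k n φ), MvPolynomial.aeval ![χ (Wa n φ), χ (Ww n φ)], trivial, ?_,
      fun _ => rfl, by simp, by simp⟩) (fun ψ ζ _ hζ => ?_) (fun χ χ' ψ ζ _ h h' e e' => ?_)
    (fun χ ψ ζ ψ' ζ' _ e e' => ⟨AlgHom.ext fun r => (e.1 r).symm.trans (e'.1 r),
      MvPolynomial.algHom_ext fun i => ?_⟩) hR (sf_plane (.X 0 * (.X 0 - 1) * .X 1))
  · simpa using ⟨⟨W_unit_a hn χ, by simpa using h⟩, W_unit hn χ⟩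
  · obtain ⟨⟨ha, ha'⟩, hw⟩ : (IsUnit (ζ (.X 0)) ∧ IsUnit (ζ (.X 0) - 1)) ∧ IsUnit (ζ (.X 1)) := by
      simpa using hζ
    obtain ⟨i, hi⟩ := (((hφ.map ψ).mul ha).mul ha').exists_right_inv
    obtain ⟨χ, h1, h2, -, h4⟩ := W_lift (n := n) (φ := φ) ψ (ζ (.X 0))
      ((ζ (.X 1) ^ n - ψ φ * ζ (.X 0)) * i) (ζ (.X 1))
      (by linear_combination (ψ φ * ζ (.X 0) - ζ (.X 1) ^ n) * hi) hw
    exact ⟨χ, by simpa [h2] using ha', h1, h2, h4⟩
  · have h1 := W_eq χ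
    have h2 := W_eq χ'
    have h3 := ((hφ.map ψ).mul (W_unit_a hn χ)).mul
      (by simpa using h : IsUnit (χ (Wa n φ) - 1))
    rw [e.2.1] at h3
    rw [e.1, e.2.1, e.2.2] at h1
    rw [e'.1, e'.2.1, e'.2.2] at h2
    exact W_ext (fun r => (e.1 r).trans (e'.1 r).symm) (e.2.1.trans e'.2.1.symm)
      (h3.mul_left_cancel (by linear_combination h2 - h1)) (e.2.2.trans e'.2.2.symm)
  · fin_cases i
    exacts [e.2.1.symm.trans e'.2.1, e.2.2.symm.trans e'.2.2]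

/-- The stratum `a = 1`. -/
theorem sf_a1 : SF (cut k (Wa n φ - 1) 1) ↔ SF (sm k (AR n φ)[X]) := by
  have ha {O : Aic k} {χ : W n φ →ₐ[k] O} (h : (cut k (Wa n φ - 1) 1).N.p χ) : χ (Wa n φ) = 1 := by
    simpa [sub_eq_zero] using h
  refine sf_rel (fun χ σ => (∀ r, χ (Wι k n φ r) = σ (C (algebraMap R _ r))) ∧
      χ (Wm n φ) = σ X ∧ χ (Ww n φ) = σ (C (rt n φ)))
    (fun g _ _ h => ⟨fun r => congrArg g (h.1 r), congrArg g h.2.1, congrArg g h.2.2⟩)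
    (fun χ h => ?_) (fun σ _ => ?_)
    (fun χ χ' σ _ h h' e e' => W_ext (fun r => (e.1 r).trans (e'.1 r).symm)
      ((ha h).trans (ha h').symm) (e.2.1.trans e'.2.1.symm) (e.2.2.trans e'.2.2.symm))
    fun χ σ σ' _ e e' => Polynomial.algHom_ext' (ar_ext (fun r => (e.1 r).symm.trans (e'.1 r))
      (e.2.2.symm.trans e'.2.2)) (e.2.1.symm.trans e'.2.1)
  · obtain ⟨σ, h1, h2⟩ := ar_lift (n := n) (c := φ) (χ.comp (Wι k n φ)) (χ (Ww n φ))
      (by simp [W_eq, ha h])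
    exact ⟨aevalTower σ (χ (Wm n φ)), trivial, fun r => by simpa using (h1 r).symm, by simp,
      by simpa using h2.symm⟩
  · have h := ar_eq (σ.comp CAlgHom)
    obtain ⟨χ, h1, h2, h3, h4⟩ := W_lift (n := n) (φ := φ)
      ((σ.comp CAlgHom).comp (IsScalarTower.toAlgHom k R _)) 1 (σ X) (σ (C (rt n φ)))
      (by simpa using h) ((isUnit_pow_iff hn.ne').1 (h ▸ (hφ.map _).map _))
    exact ⟨χ, by simp [h2], h1, h3, h4⟩

/-- The stratum `m = 1`. -/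
theorem sf_m1 (h₂ : SF (sm k (AR 2 φ))) : SF (cut k (Wm n φ - 1) (Wm n φ)) := by
  obtain ⟨p, hp⟩ : ∃ p : k[X], ∀ {O : Aic k} (x : O), aeval x p = x ^ 2 :=
    ⟨X ^ 2, fun x => aeval_X_pow x⟩
  let j : W n φ →ₐ[k] AR 2 (Wι k n φ φ) := IsScalarTower.toAlgHom k _ _
  have hm {O : Aic k} {χ : AR 2 (Wι k n φ φ) →ₐ[k] O}
      (h : (cut k (Wm n φ - 1) (Wm n φ)).N.p (χ.comp j)) : χ (j (Wm n φ)) = 1 := by
    simpa [sub_eq_zero] using h.1
  have hρ {O : Aic k} (ψ : AR 2 φ →ₐ[k] O) : IsUnit (ψ (rt 2 φ)) :=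
    (isUnit_pow_iff two_ne_zero).1 (ar_eq ψ ▸ (hφ.map _).map _)
  refine sf_of_ar (c := Wι k n φ φ) two_pos (sf_rel₂ (fun χ ψ ζ =>
    (∀ r, χ (j (Wι k n φ r)) = ψ (algebraMap R _ r)) ∧ χ (rt _ _) = ψ (rt 2 φ) ∧
      ψ (rt 2 φ) * χ (j (Wa n φ)) = ζ (kx n p) ∧ χ (j (Ww n φ)) = ζ (krt n p))
    (fun g _ _ _ h => ⟨fun r => congrArg g (h.1 r), congrArg g h.2.1,
      (map_mul g _ _).symm.trans (congrArg g h.2.2.1), congrArg g h.2.2.2⟩)
    (fun χ h => ?_) (fun {O} ψ ζ _ _ => ?_) (fun χ χ' ψ ζ _ h h' e e' => ?_)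
    (fun χ ψ ζ ψ' ζ' _ e e' => ?_) h₂ (sf_kum hn p))
  · have h1 := ar_eq χ
    obtain ⟨ψ, h2, h3⟩ := ar_lift (n := 2) (c := φ) ((χ.comp j).comp (Wι k n φ)) _ h1
    have h4 := W_eq (χ.comp j)
    simp only [AlgHom.comp_apply, hm h] at h4
    obtain ⟨ζ, h5, h6⟩ := crv_lift (n := n) (p := p) (χ (rt _ _) * χ (j (Wa n φ)))
      (χ (j (Ww n φ))) (by
        have h1' : χ (rt _ _) ^ 2 = χ (j (Wι k n φ φ)) := h1
        rw [hp, mul_pow, h1', h4]
        ring) (W_unit hn (χ.comp j))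
    exact ⟨ψ, ζ, trivial, trivial, fun r => (h2 r).symm, h3.symm, by rw [h3, h5], h6.symm⟩
  · obtain ⟨i, hi⟩ := (hρ ψ).exists_right_inv
    have h1 := ar_eq ψ
    have h2 := crv_eq ζ
    rw [hp] at h2
    have h0 {x y ρ f : O} (h1 : ρ ^ 2 = f) (h2 : y ^ n = x ^ 2) (hi : ρ * i = 1) :
        y ^ n = f * (x * i) * (1 + 1 * (x * i - 1)) := by
      rw [h2, ← h1]
      linear_combination (-x ^ 2 * (1 + ρ * i)) * hi
    obtain ⟨χ₀, h3, h4, h5, h6⟩ := W_lift (n := n) (φ := φ)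
      (ψ.comp (IsScalarTower.toAlgHom k R _)) _ 1 _ (h0 h1 h2 hi) (kum_unit hn ζ)
    obtain ⟨χ, h7, h8⟩ := ar_lift (n := 2) (c := Wι k n φ φ) χ₀ (ψ (rt 2 φ))
      (h1.trans (h3 φ).symm)
    have h9 : χ.comp j = χ₀ := AlgHom.ext h7
    refine ⟨χ, ?_, fun r => (h7 _).trans (h3 r), h8, ?_, (h7 _).trans h6⟩
    · change (cut k (Wm n φ - 1) (Wm n φ)).N.p (χ.comp j)
      simp [h9, h5]
    · rw [show χ (j (Wa n φ)) = _ from (h7 _).trans h4]
      rw [mul_left_comm, hi, mul_one]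
  · exact ar_ext (DFunLike.congr_fun (W_ext (χ := χ.comp j) (χ' := χ'.comp j)
      (fun r => (e.1 r).trans (e'.1 r).symm)
      ((hρ ψ).mul_left_cancel (e.2.2.1.trans e'.2.2.1.symm)) ((hm h).trans (hm h').symm)
      (e.2.2.2.trans e'.2.2.2.symm))) (e.2.1.trans e'.2.1.symm)
  · have : ψ = ψ' := ar_ext (fun r => (e.1 r).symm.trans (e'.1 r)) (e.2.1.symm.trans e'.2.1)
    subst this
    exact ⟨rfl, crv_ext (e.2.2.1.symm.trans e'.2.2.1) (e.2.2.2.symm.trans e'.2.2.2)⟩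

/-- From the open set `m ≠ 0, 1` to the surface. -/
theorem sf_ar [Algebra.Smooth k R] (h₂ : SF (sm k (AR 2 φ)))
    (h : SF (loc k (Wm n φ * (Wm n φ - 1)))) : SF (sm k (AR n φ)) := by
  have hR : SF (sm k R) := sf_of_ar two_pos h₂
  have := smooth_ar (k := k) hn hφ
  have h1 : SF (loc k (Wm n φ)) := cut_open _
    (etale_W hn ((algEquivAevalXAddC (-1 : R[X])).restrictScalars k))
    (by simp [Wm, sub_eq_add_neg]) _ (sf_m1 hn hφ h₂) h
  have h2 : SF (loc k (1 : W n φ)) := cut_open _ (etale_W hn .refl) rfl 1 (sf_m0 hn hφ hR)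
    (by rwa [one_mul])
  exact SF.poly_iff.1 ((sf_a1 hn hφ).1 (cut_closed _ (etale_W hn
    (((algEquivAevalXAddC (-1 : R[X])).restrictScalars k).trans (Bivariate.swap.restrictScalars k)))
    (by simp [Wa, sub_eq_add_neg, Bivariate.swap_Y]) 1 (sf_a_ne hn hφ hR) h2))

end GW

end Pool.Agent.Lib.MP_fc2ced_ag
end

-- part Pool.Agent.Lib.MP_fc2ced_ag.GeoW
section

/-!
The half twist: from the threefold to the surface.
-/

open CategoryTheory
open scoped TensorProduct Polynomial Matrix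

namespace Pool.Agent.Lib.MP_fc2ced_ag

open Obj

namespace GW

section
variable {O : Type} [CommRing O] {n : ℕ} {f a m t u w x x' y i j : O}

theorem id₁ (ht : t ^ (n + 1) = -f * (m - 1) ^ 2 * m ^ n) (hi : m * i = 1) (hj : (m - 1) * j = 1) :
    (t * i) ^ (n + 1) * (m * j * (1 - m * j)) = f := by
  have e : 1 - m * j = -j := by linear_combination -hj
  calc _ = f * (m * i) ^ n * (m * i) * ((m - 1) * j) ^ 2 := by rw [mul_pow, ht, e]; ring
    _ = f := by simp [hi, hj]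

theorem id₂ (hw : w ^ n = f * a * (1 + m * (a - 1))) (hf : u ^ n * (x * (1 - x)) = f)
    (hm : m * (x - 1) = x) (hi : u * i = 1) : (w * i) ^ n = a * x * (1 - a * x) := by
  have h : u ^ n * i ^ n = 1 := by rw [← mul_pow, hi, one_pow]
  rw [mul_pow, hw, ← hf]
  linear_combination (a * x * (1 - x) * (1 + m * (a - 1))) * h - a * x * (a - 1) * hm

theorem id₃ (hy : y ^ n = x' * (1 - x')) (hf : u ^ n * (x * (1 - x)) = f) (hm : m * (x - 1) = x)
    (ha : a * x = x') : (u * y) ^ n = f * a * (1 + m * (a - 1)) := by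
  rw [mul_pow, hy, ← ha, ← hf]
  linear_combination (u ^ n * a * x * (a - 1)) * hm

theorem id₄ (hf : u ^ (n + 1) * (x * (1 - x)) = f) (hm : m * (x - 1) = x) :
    (u * m) ^ (n + 1) = -f * (m - 1) ^ 2 * m ^ n := by
  rw [mul_pow, ← hf]
  linear_combination (-(u ^ (n + 1) * m ^ n) * (1 + x * (m - 1))) * hm

end

variable {k : Type} [Field k] [CharZero k] [IsAlgClosed k]

/-- The open set `m ≠ 0, 1` is covered by the product of the threefold and a Fermat curve. -/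
theorem sf_main (F : Forms k) (n : ℕ) (hY : SF (sm k (F.Y (n + 1)))) :
    SF (loc k (Wm (n + 1) F.φ * (Wm (n + 1) F.φ - 1))) := by
  obtain ⟨p, hp⟩ : ∃ p : k[X], ∀ {O : Aic k} (x : O), Polynomial.aeval x p = x * (1 - x) :=
    ⟨.X * (1 - .X), fun x => by simp⟩
  obtain ⟨c, hc⟩ : ∃ c : W (n + 1) F.φ, ∀ {O : Aic k} (χ : W (n + 1) F.φ →ₐ[k] O),
      χ c = -χ (Wι k _ _ F.φ) * (χ (Wm _ _) - 1) ^ 2 * χ (Wm _ _) ^ n :=
    ⟨-Wι k _ _ F.φ * (Wm _ _ - 1) ^ 2 * Wm _ _ ^ n, fun χ => by simp⟩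
  let j : W (n + 1) F.φ →ₐ[k] AR (n + 1) c := IsScalarTower.toAlgHom k _ _
  have hm {O : Aic k} {χ : AR (n + 1) c →ₐ[k] O}
      (h : (Pr.unit (Wm (n + 1) F.φ * (Wm _ _ - 1))).p (χ.comp j)) :
      IsUnit (χ (j (Wm _ _))) ∧ IsUnit (χ (j (Wm _ _)) - 1) := by simpa using h
  have hη {O : Aic k} (η : F.Y (n + 1) →ₐ[k] O) : η (F.u _) ^ (n + 1) *
      (η (F.x _) * (1 - η (F.x _))) = η (algebraMap F.R _ F.φ) := by
    simpa using congrArg η (F.Y_eq (n + 1))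
  have hu {O : Aic k} (η : F.Y (n + 1) →ₐ[k] O) :
      IsUnit (η (F.u _)) ∧ IsUnit (η (F.x _)) ∧ IsUnit (η (F.x _) - 1) := by
    have := (F.isUnit_φ.map (algebraMap F.R (F.Y (n + 1)))).map η
    rw [← hη, IsUnit.mul_iff, IsUnit.mul_iff, isUnit_pow_succ_iff, ← neg_sub (η (F.x _)),
      IsUnit.neg_iff] at this
    exact this
  refine sf_of_ar (c := c) n.succ_pos (sf_rel₂ (fun χ η ζ =>
    (∀ r, χ (j (Wι k _ _ r)) = η (algebraMap F.R _ r)) ∧
      χ (j (Wm _ _)) * (η (F.x _) - 1) = η (F.x _) ∧ χ (j (Wa _ _)) * η (F.x _) = ζ (kx _ p) ∧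
      χ (j (Ww _ _)) = η (F.u _) * ζ (krt _ p) ∧ χ (rt _ c) = η (F.u _) * χ (j (Wm _ _)))
    (fun g _ _ _ h => ⟨fun r => congrArg g (h.1 r), by simpa using congrArg g h.2.1,
      by simpa using congrArg g h.2.2.1, by simpa using congrArg g h.2.2.2.1,
      by simpa using congrArg g h.2.2.2.2⟩)
    (fun χ h => ?_) (fun η ζ _ _ => ?_) (fun χ χ' η ζ _ _ _ e e' => ?_)
    (fun χ η ζ η' ζ' h e e' => ?_) hY (sf_kum n.succ_pos p))
  · obtain ⟨i₁, h₁⟩ := (hm h).1.exists_right_inv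
    obtain ⟨i₂, h₂⟩ := (hm h).2.exists_right_inv
    have h3 := id₁ ((ar_eq χ).trans (hc (χ.comp j))) h₁ h₂
    obtain ⟨η, h4, h5, h6⟩ := F.Y_lift ((χ.comp j).comp (Wι k _ _)) _ _ h3
    obtain ⟨i₃, h₃⟩ := (hu η).1.exists_right_inv
    have h7 : χ (j (Wm _ _)) * (η (F.x _) - 1) = η (F.x _) := by
      rw [h5]
      change _ * (χ (j (Wm _ _)) * _ - 1) = χ (j (Wm _ _)) * _
      linear_combination χ (j (Wm _ _)) * h₂
    obtain ⟨ζ, h8, h9⟩ := crv_lift (n := n + 1) (p := p) _ _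
      ((id₂ (W_eq (χ.comp j)) ((hη η).trans (h4 _)) h7 h₃).trans (hp _).symm)
      ((W_unit n.succ_pos _).mul (.of_mul_eq_one_right _ h₃))
    refine ⟨η, ζ, trivial, trivial, fun r => (h4 r).symm, h7, h8.symm, ?_, ?_⟩
    · rw [h9, mul_left_comm, h₃, mul_one]; rfl
    · rw [h6, mul_assoc, mul_comm i₁, h₁, mul_one]
  · obtain ⟨i₁, h₁⟩ := (hu η).2.1.exists_right_inv
    obtain ⟨i₂, h₂⟩ := (hu η).2.2.exists_right_inv
    have h3 : η (F.x _) * i₂ * (η (F.x _) - 1) = η (F.x _) := by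
      rw [mul_assoc, mul_comm i₂, h₂, mul_one]
    have h4 : ζ (kx _ p) * i₁ * η (F.x _) = ζ (kx _ p) := by
      rw [mul_assoc, mul_comm i₁, h₁, mul_one]
    obtain ⟨χ₀, h5, h6, h7, h8⟩ := W_lift (n := n + 1) (φ := F.φ)
      (η.comp (IsScalarTower.toAlgHom k F.R _)) _ _ _
      (id₃ ((crv_eq ζ).trans (hp _)) (hη η) h3 h4) ((hu η).1.mul (kum_unit n.succ_pos ζ))
    obtain ⟨χ, h9, h10⟩ := ar_lift (n := n + 1) (c := c) χ₀ (η (F.u _) * χ₀ (Wm _ _))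
      (by rw [hc, h5, h7]; exact id₄ (hη η) h3)
    have h11 (w) : χ (j w) = χ₀ w := h9 w
    have h12 : IsUnit i₂ := .of_mul_eq_one_right _ h₂
    refine ⟨χ, ?_, fun r => (h9 _).trans (h5 r), by rwa [h11, h7], by rwa [h11, h6],
      (h9 _).trans h8, by rwa [h11]⟩
    change IsUnit (χ (j _))
    rw [h11, map_mul, map_sub, map_one, h7,
      show η (F.x _) * i₂ - 1 = i₂ by linear_combination h₂]
    exact ((hu η).2.1.mul h12).mul h12
  · have h1 := (hu η).2.2.mul_right_cancel (e.2.1.trans e'.2.1.symm)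
    exact ar_ext (DFunLike.congr_fun (W_ext (χ := χ.comp j) (χ' := χ'.comp j)
      (fun r => (e.1 r).trans (e'.1 r).symm)
      ((hu η).2.1.mul_right_cancel (e.2.2.1.trans e'.2.2.1.symm)) h1
      (e.2.2.2.1.trans e'.2.2.2.1.symm))) (by rw [e.2.2.2.2, e'.2.2.2.2, h1])
  · have : η = η' := F.Y_ext (fun r => (e.1 r).symm.trans (e'.1 r))
      ((hm h).2.mul_left_cancel (by linear_combination e.2.1 - e'.2.1))
      ((hm h).1.mul_right_cancel (e.2.2.2.2.symm.trans e'.2.2.2.2))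
    subst this
    exact ⟨rfl, crv_ext (e.2.2.1.symm.trans e'.2.2.1)
      ((hu η).1.mul_left_cancel (e.2.2.2.1.symm.trans e'.2.2.2.1))⟩

end GW

variable {k : Type} [Field k] [CharZero k] [IsAlgClosed k]

theorem Forms.SF_S (F : Forms k) {n : ℕ} (hn : 0 < n) (hY : SF (sm k (F.Y n))) :
    SF (sm k (F.S n)) := by
  obtain ⟨n, rfl⟩ := Nat.exists_eq_succ_of_ne_zero hn.ne'
  exact GW.sf_ar hn F.isUnit_φ (GW.sf_two F) (GW.sf_main F n hY)

end Pool.Agent.Lib.MP_fc2ced_ag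
end

-- part Pool.Agent.Lib.MP_fc2ced_ag.Tate
section

/-!
From the internal notion to Schur finiteness of the motive.
-/

open CategoryTheory
open scoped TensorProduct Polynomial LaurentPolynomial

set_option linter.unusedSectionVars false

namespace Pool.Agent.Lib.MP_fc2ced_ag

open Obj

variable {k : Type} [Field k] [CharZero k] [IsAlgClosed k]

variable (k) in
/-- The unit point of the multiplicative group. -/
noncomputable abbrev onePt : k[T;T⁻¹] →ₐ[k] k := AddMonoidAlgebra.lift k k ℤ 1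

variable (k) in
/-- The multiplicative group modulo its unit. -/
noncomputable abbrev Obj.gm : Obj k := ⟨k[T;T⁻¹], .top, .isPt (onePt k)⟩

theorem laurent_ext {C : Type} [CommRing C] [Algebra k C] {φ φ' : k[T;T⁻¹] →ₐ[k] C}
    (h : φ (.T 1) = φ' (.T 1)) : φ = φ' :=
  AlgHom.coe_ringHom_injective (IsLocalization.ringHom_ext (Submonoid.powers (Polynomial.X : k[X]))
    (congrArg AlgHom.toRingHom (Polynomial.algHom_ext (f := φ.comp Polynomial.toLaurentAlg)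
      (g := φ'.comp Polynomial.toLaurentAlg) (by simpa using h))))

theorem tri_gm : Tri (gm k) (itv k 1) (lef k) Polynomial.toLaurentAlg (.id k _) := by
  have hu {O : Aic k} (φ : k[T;T⁻¹] →ₐ[k] O) : IsUnit (φ (.T 1)) :=
    (LaurentPolynomial.isUnit_T 1).map φ
  have h1 : onePt k (.T 1) = 1 := (AddMonoidAlgebra.lift_single _ _ _).trans (by simp)
  have : IsScalarTower k k[X] k[T;T⁻¹] := .of_algHom Polynomial.toLaurentAlg
  refine ⟨fun _ _ => trivial, fun {O} φ _ => ⟨fun h => ?_, fun h a => ?_⟩,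
    fun φ φ' _ _ _ e => laurent_ext (by simpa using congr($e .X)), fun _ _ => trivial,
    fun ψ _ => ⟨fun h => .inr ⟨IsLocalization.Away.liftAlgHom (S := k[T;T⁻¹])
      (Polynomial.X : k[X]) (f := ψ) h, trivial, AlgHom.ext fun p =>
        IsLocalization.Away.lift_eq (S := k[T;T⁻¹]) Polynomial.X (g := ψ.toRingHom) h p⟩, ?_⟩,
    fun _ _ _ _ _ e => e, fun χ _ _ => ⟨χ, trivial, rfl⟩⟩
  · simp [h (.T 1), h1]
  · have : φ = (Algebra.ofId k O).comp (onePt k) :=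
      laurent_ext (by simpa [h1, sub_eq_zero] using h)
    exact congr($this a)
  · rintro (h | ⟨φ, -, rfl⟩)
    · have : ψ .X = 1 := by simpa [sub_eq_zero] using h
      simp [this]
    · simpa using hu φ

theorem con_gm : Con (gm k) := .tri₁ tri_gm (.of_uzero (uzero_itv 1)) (.rel _)

/-- Factors that can be replaced by powers of the multiplicative group. -/
def IsTate (P : Obj k) : Prop :=
  Con P ∧ ∃ m : ℕ, ∀ {X Y : Obj k} (f : X ⟶ Y), Con X → Con Y → Null (smashMap f (𝟙 P)) →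
    Null (smashMap f (𝟙 ((gm k).pow (Fin m))))

theorem Null.smash_uiso {X Y P P' : Obj k} {f : X ⟶ Y} {u : P ⟶ P'} (hu : UIso u) (hX : Con X)
    (hf : Null (smashMap f (𝟙 P))) : Null (smashMap f (𝟙 P')) :=
  .of_uiso_comp (hu.smash_left hX) (by rw [← smashMap_eq', smashMap_eq]; exact hf.comp _)

theorem Null.smash_uiso' {X Y P P' : Obj k} {f : X ⟶ Y} {u : P ⟶ P'} (hu : UIso u) (hY : Con Y)
    (hf : Null (smashMap f (𝟙 P'))) : Null (smashMap f (𝟙 P)) :=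
  .of_comp_uiso (hu.smash_left hY) (by rw [← smashMap_eq, smashMap_eq']; exact hf.precomp _)

theorem null_assoc {X Y P Q : Obj k} {f : X ⟶ Y} : Null (smashMap f (𝟙 (P.smash Q))) ↔
    Null (smashMap (smashMap f (𝟙 P)) (𝟙 Q)) :=
  ⟨fun h => .of_uiso_comp (uiso_assoc _ _ _) (by rw [← assoc_nat, smashMap_id]; exact h.comp _),
    fun h => .of_comp_uiso (uiso_assoc _ _ _)
      (by rw [← smashMap_id, assoc_nat]; exact h.precomp _)⟩

theorem IsTate.of_uiso {P P' : Obj k} {u : P ⟶ P'} (hu : UIso u) (h : IsTate P') : IsTate P :=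
  let ⟨h1, m, h⟩ := h
  ⟨(Con.uiso_iff hu).2 h1, m, fun f hX hY hf => h f hX hY (hf.smash_uiso hu hX)⟩

theorem isTate_pt : IsTate (sm k k) :=
  ⟨.sm k, 0, fun _ _ hY hf => hf.smash_uiso' (isE_empty _).uiso hY⟩

theorem isTate_lef : IsTate (lef k) :=
  ⟨.rel _, 1, fun {X Y} f hX hY hf => .smash_uiso' (isE_unique fun _ => gm k).uiso hY
    (.of_comp_uiso (.of_isIso (swap _ _)) (by
    rw [swap_nat]
    refine .precomp _ ((tri_gm.smash X).null_of_null₃ (tri_gm.smash Y)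
      (b := smashMap (𝟙 _) f) (c := smashMap (𝟙 _) f)
      (by rw [tri_gm.smash_i, tri_gm.smash_i, ← smashMap_eq, ← smashMap_eq'])
      (by rw [tri_gm.smash_p, tri_gm.smash_p, ← smashMap_eq, ← smashMap_eq'])
      ((uzero_itv 1).smash hX) (.of_uiso_comp (.of_isIso (swap _ _)) ?_))
    rw [← swap_nat]
    exact hf.comp _))⟩

theorem IsTate.smash {P P' : Obj k} (h : IsTate P) (h' : IsTate P') : IsTate (P.smash P') := by
  obtain ⟨h1, a, h⟩ := h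
  obtain ⟨h2, b, h'⟩ := h'
  have hG : Con ((gm k).pow (Fin b)) := .prod fun _ => con_gm
  refine ⟨h1.smash h2, b + a, fun f hX hY hf => .smash_uiso'
    (uiso_split finSumFinEquiv fun _ => gm k) hY (null_assoc.2 (h _ (hX.smash hG) (hY.smash hG)
      (null_assoc.1 (.smash_uiso (.of_isIso (swap _ _)) hX (null_assoc.2 ?_)))))⟩
  exact h' _ (hX.smash h1) (hY.smash h1) (null_assoc.1 hf)

theorem IsTate.prod {ι : Type} [Fintype ι] [DecidableEq ι] {M : ι → Obj k}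
    (h : ∀ i, IsTate (M i)) : IsTate (prod M) := by
  revert M
  refine prod_induction (P := fun ι _ _ => ∀ {M : ι → Obj k}, (∀ i, IsTate (M i)) →
    IsTate (Obj.prod M)) (fun ι _ _ _ M _ => ?_) (fun ι _ _ a ih M h => ?_) ι
  · exact isTate_pt.of_uiso (isE_empty M).uiso
  · refine .of_uiso (uiso_split (Equiv.sumCompl (· = a)) M) (.smash ?_ (ih fun _ => h _))
    exact (h _).of_uiso (isE_unique fun i => M (Equiv.sumCompl (· = a) (.inl i))).uiso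

theorem SF.schurFinite {A : Type} [CommRing A] [Algebra k A] (h : SF (sm k A)) :
    Mot.SchurFinite k A := by
  obtain ⟨hc, m₀, h⟩ := h
  obtain ⟨n, r, hn, h0, hr⟩ := h.cancel (sf₀_lefp m₀) hc
  have hX : Con ((sm k A).pow (Fin n)) := .prod fun _ => hc
  obtain ⟨-, m, hm⟩ : IsTate (((lef k).pow (Fin m₀)).pow (Fin n)) :=
    .prod fun _ => .prod fun _ => isTate_lef
  have mul (a b : MonoidAlgebra ℚ (Equiv.Perm (Fin n))) :
      smashMap (lin (perm (sm k A)) (a * b)) (𝟙 ((gm k).pow (Fin m))) =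
        smashMap (lin (perm (sm k A)) a) (𝟙 _) ≫ smashMap (lin (perm (sm k A)) b) (𝟙 _) := by
    rw [lin_mul (perm_mul _), ← smashMap_comp, Category.comp_id]
  let I : Ideal (MonoidAlgebra ℚ (Equiv.Perm (Fin n))) :=
    { carrier := {r | Null (smashMap (lin (perm (sm k A)) r) (𝟙 ((gm k).pow (Fin m))))}
      add_mem' := fun {a b} h1 h2 => by
        change Null (smashL.flip _ _)
        rw [map_add, map_add]; exact Null.add h1 h2
      zero_mem' := by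
        change Null (smashL.flip _ _)
        rw [map_zero, map_zero]; exact .zero
      smul_mem' := fun c x h => by
        change Null _
        rw [smul_eq_mul, mul]; exact .precomp _ h }
  obtain ⟨e, he, e0, e1, e2, e3⟩ := Naive.exists_block_group I
    (fun x h y => by change Null _; rw [mul]; exact Null.comp h _)
    ((Submodule.ne_bot_iff _).2 ⟨r, hm _ hX hX hr, h0⟩)
  obtain ⟨Θ, hΘ⟩ := exists_base (k := k)
  let Z := ((sm k A).pow (Fin n)).smash ((sm k k[T;T⁻¹]).pow (Fin m))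
  let i : sm k (Mot.Pw k A n m).A ⟶ Z :=
    ofAlg (.id k _) (fun _ _ => ⟨fun _ => trivial, fun _ => trivial⟩) fun _ _ h => h.elim
  let j : Z ⟶ sm k (Mot.Pw k A n m).A := ofAlg (.id k _) (fun _ _ => trivial)
    fun _ _ h => h.elim (fun ⟨_, h⟩ => h) fun ⟨_, h⟩ => h
  have h1 := ((Null.comp he (smashMap (𝟙 _) (prodMap fun _ => redSec (onePt k)) ≫ j)).precomp
    (smashMap (𝟙 _) (prodMap fun _ => redProj (onePt k)))).precomp i
  obtain ⟨τ, h2, h4⟩ := hΘ _ _ _ (h1 Θ)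
  have h3 : (lin (perm (sm k A)) e).1 = Mot.permAct k A e := by
    simp [lin_apply, Mot.permAct, Mot.permute, permHom_eq_reindex]
    rfl
  refine ⟨n, m, e, hn, ⟨e0, e1, e2, e3⟩, τ, h2.trans ?_, h4⟩
  simp [i, j, h3, redProj, redSec, Mot.idem, Mot.tatePow, Mot.tate]
  exact (TensorProduct.map_comp (Mot.permAct k A e) .id .id (Mot.tatePow k m)).symm

end Pool.Agent.Lib.MP_fc2ced_ag
end

-- part Pool.Agent.Lib.MP_fc2ced_ag.Final
section

/-!
Choice of coordinates, and the final statement for forms given by matrices.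
-/

open scoped Matrix IntermediateField

set_option linter.unusedSectionVars false

namespace Pool.Agent.Lib.MP_fc2ced_ag

open MvPolynomial Obj

variable {k : Type} [Field k] [CharZero k]

namespace Fnl

theorem exists_matrix {Q : MvPolynomial (Fin 3) k} (h : Q.IsHomogeneous 2) :
    ∃ M : Matrix (Fin 3) (Fin 3) k, M.IsSymm ∧ ev M X = Q := by
  obtain ⟨u, v, w, hu, hv, hw, rfl⟩ := Mac.split h
  obtain ⟨u0, u1, u2, h0, h1, h2, rfl⟩ := Mac.split hu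
  obtain ⟨v0, v1, v2, h3, h4, h5, rfl⟩ := Mac.split hv
  obtain ⟨w0, w1, w2, h6, h7, h8, rfl⟩ := Mac.split hw
  obtain ⟨a0, rfl⟩ := Mac.const h0
  obtain ⟨a1, rfl⟩ := Mac.const h1
  obtain ⟨a2, rfl⟩ := Mac.const h2
  obtain ⟨b0, rfl⟩ := Mac.const h3
  obtain ⟨b1, rfl⟩ := Mac.const h4
  obtain ⟨b2, rfl⟩ := Mac.const h5
  obtain ⟨c0, rfl⟩ := Mac.const h6
  obtain ⟨c1, rfl⟩ := Mac.const h7
  obtain ⟨c2, rfl⟩ := Mac.const h8
  have e : (C 2⁻¹ : MvPolynomial (Fin 3) k) * 2 = 1 := by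
    rw [← map_ofNat C 2, ← map_mul, inv_mul_cancel₀ two_ne_zero, map_one]
  refine ⟨!![a0, 2⁻¹ * (a1 + b0), 2⁻¹ * (a2 + c0); 2⁻¹ * (a1 + b0), b1, 2⁻¹ * (b2 + c1);
    2⁻¹ * (a2 + c0), 2⁻¹ * (b2 + c1), c2], ?_, ?_⟩
  · ext i j; fin_cases i <;> fin_cases j <;> rfl
  · simp [ev, qf, dotProduct, Matrix.mulVec, Fin.sum_univ_three]
    linear_combination (X 0 * X 1 * (C a1 + C b0) + X 0 * X 2 * (C a2 + C c0) +
      X 1 * X 2 * (C b2 + C c1)) * e

theorem det_ne_zero {M : Matrix (Fin 3) (Fin 3) k} (hs : M.IsSymm)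
    (h : ∀ p : Fin 3 → k, (∀ i, eval p (pderiv i (ev M X)) = 0) → p = 0) : M.det ≠ 0 := fun hd => by
  obtain ⟨p, h0, hp⟩ := Matrix.exists_mulVec_eq_zero_iff.2 hd
  refine h0 (h p fun i => ?_)
  have h1 := congrFun hp i
  fin_cases i <;>
    simp [ev, qf, dotProduct, Matrix.mulVec, Fin.sum_univ_three, pderiv_X, hs.apply 0 1,
      hs.apply 0 2, hs.apply 1 2] at h1 ⊢ <;> linear_combination 2 * h1

theorem ev_conj {O : Type} [CommRing O] [Algebra k O] (E M : Matrix (Fin 3) (Fin 3) k)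
    (v : Fin 3 → O) : ev (Eᵀ * M * E) v = ev M (E.map (algebraMap k O) *ᵥ v) := by
  rw [ev, ev, qf, qf, Matrix.map_mul, Matrix.map_mul, Matrix.transpose_map,
    ← Matrix.mulVec_mulVec, ← Matrix.mulVec_mulVec, Matrix.dotProduct_mulVec,
    Matrix.vecMul_transpose]

theorem eval_ev (M : Matrix (Fin 3) (Fin 3) k) (p : Fin 3 → k) :
    eval p (ev M X) = p ⬝ᵥ M *ᵥ p := by
  rw [← coe_aeval_eq_eval, RingHom.coe_coe, aeval_ev]; rfl

theorem const_ev (M : Matrix (Fin 3) (Fin 3) k) : constantCoeff (ev M X : MvPolynomial _ k) = 0 := by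
  rw [← eval_zero, eval_ev, zero_dotProduct]

theorem exists_frame {p g : Fin 3 → k} (hp : p ≠ 0) (h : g ⬝ᵥ p = 0) :
    ∃ e₀ e₂ : Fin 3 → k, g ⬝ᵥ e₂ = 0 ∧ (Matrix.of ![e₀, p, e₂]).det ≠ 0 := by
  obtain ⟨g', h0, h1, h2⟩ : ∃ g' : Fin 3 → k, g' ≠ 0 ∧ g' ⬝ᵥ p = 0 ∧
      ∀ e, g' ⬝ᵥ e = 0 → g ⬝ᵥ e = 0 := by
    by_cases hg : g = 0
    · by_cases h0 : p 0 = 0
      · exact ⟨Pi.single 0 1, by simp, by simpa using h0, by simp [hg]⟩
      · exact ⟨![-p 1, p 0, 0], fun e => h0 (congrFun e 1),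
          by simp [dotProduct, Fin.sum_univ_three]; ring, by simp [hg]⟩
    · exact ⟨g, hg, h, fun _ h => h⟩
  obtain ⟨i, hi⟩ := Function.ne_iff.1 hp
  obtain ⟨j, hj⟩ := Function.ne_iff.1 h0
  refine ⟨Pi.single j 1, g' ⨯₃ Pi.single i 1, h2 _ (dot_self_cross _ _), ?_⟩
  refine (triple_product_eq_det _ _ _).symm.trans_ne ?_
  rw [cross_cross_eq_smul_sub_smul', h1]
  simpa using ⟨hi, hj⟩

/-- Change of coordinates. -/
def conj (F : Forms k) (E : Matrix (Fin 3) (Fin 3) k) : Forms k :=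
  ⟨Eᵀ * F.M₁ * E, Eᵀ * F.M₃ * E, Eᵀ * F.Mq * E, Eᵀ * F.Ma * E,
    by simp [Matrix.IsSymm, F.s₁.eq, Matrix.mul_assoc],
    by simp [Matrix.IsSymm, F.s₃.eq, Matrix.mul_assoc],
    by simp [Matrix.IsSymm, F.sq.eq, Matrix.mul_assoc],
    by simp [Matrix.IsSymm, F.sa.eq, Matrix.mul_assoc]⟩

theorem conj_q {O : Type} [CommRing O] [Algebra k O] (F : Forms k) (E : Matrix (Fin 3) (Fin 3) k)
    (v : Fin 3 → O) : (conj F E).q v = F.q (E.map (algebraMap k O) *ᵥ v) := ev_conj _ _ _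

theorem conj_f {O : Type} [CommRing O] [Algebra k O] (F : Forms k) (E : Matrix (Fin 3) (Fin 3) k)
    (v : Fin 3 → O) : (conj F E).f v = F.f (E.map (algebraMap k O) *ᵥ v) := by
  simp only [Forms.f, conj, ev_conj]

theorem tf_of (F : Forms k) (h4 : F.M₁ 1 1 * F.M₃ 1 1 + F.Mq 1 1 * F.Ma 1 1 = 0)
    (h3 : F.M₃ 1 1 * F.M₁ 1 2 + F.M₁ 1 1 * F.M₃ 1 2 + F.Ma 1 1 * F.Mq 1 2 +
      F.Mq 1 1 * F.Ma 1 2 = 0) :
    ∃ c₂ c₃ c₄ : k, ∀ (O : Type) [CommRing O] [Algebra k O] (s t : O),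
      F.f ![0, s, t] = t ^ 2 * (c₂ • s ^ 2 + c₃ • (s * t) + c₄ • t ^ 2) := by
  refine ⟨F.M₁ 1 1 * F.M₃ 2 2 + 4 * F.M₁ 1 2 * F.M₃ 1 2 + F.M₁ 2 2 * F.M₃ 1 1 +
      (F.Mq 1 1 * F.Ma 2 2 + 4 * F.Mq 1 2 * F.Ma 1 2 + F.Mq 2 2 * F.Ma 1 1),
    2 * (F.M₁ 1 2 * F.M₃ 2 2 + F.M₁ 2 2 * F.M₃ 1 2 + F.Mq 1 2 * F.Ma 2 2 + F.Mq 2 2 * F.Ma 1 2),
    F.M₁ 2 2 * F.M₃ 2 2 + F.Mq 2 2 * F.Ma 2 2, fun O _ _ s t => ?_⟩
  have e4 := congrArg (algebraMap k O) h4
  have e3 := congrArg (algebraMap k O) h3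
  simp only [map_add, map_mul, map_zero] at e3 e4
  simp [Forms.f, ev, qf, dotProduct, Matrix.mulVec, Fin.sum_univ_three, F.s₁.apply 1 2,
    F.s₃.apply 1 2, F.sq.apply 1 2, F.sa.apply 1 2, Algebra.smul_def, map_ofNat]
  linear_combination s ^ 4 * e4 + 2 * s ^ 3 * t * e3

variable [IsAlgClosed k]

theorem exists_good (F : Forms k)
    (h : ∀ p : Fin 3 → k, ev F.M₁ p = 0 → ev F.M₃ p = 0 → ev F.Mq p = 0 → p = 0)
    (hd : ∃ c : k, (c • F.M₁ + F.Mq).det ≠ 0) :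
    ∃ E : Matrix (Fin 3) (Fin 3) k, E.det ≠ 0 ∧ (Nontrivial (conj F E).R → (conj F E).Good) := by
  obtain ⟨p, p0, hp⟩ := exists_common_zero (K := k) (n := 3) ![ev F.Mq X, F.f X] (by norm_num)
    (fun j => by
    fin_cases j <;> simp [Forms.f, const_ev])
  have h1 : p ⬝ᵥ F.Mq *ᵥ p = 0 := (eval_ev _ _).symm.trans (hp 0)
  have h2 := hp 1
  simp [Forms.f, eval_ev] at h2
  obtain ⟨e₀, e₂, h3, h4⟩ := exists_frame (g := (p ⬝ᵥ F.M₃ *ᵥ p) • F.M₁ *ᵥ p +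
    (p ⬝ᵥ F.M₁ *ᵥ p) • F.M₃ *ᵥ p + (p ⬝ᵥ F.Ma *ᵥ p) • F.Mq *ᵥ p) p0 (by
      rw [dotProduct_comm]
      simp only [dotProduct_add, dotProduct_smul, smul_eq_mul]
      linear_combination 2 * h2 - (p ⬝ᵥ F.Ma *ᵥ p) * h1)
  have h5 (M : Matrix (Fin 3) (Fin 3) k) (i j) : ((Matrix.of ![e₀, p, e₂])ᵀᵀ * M *
      (Matrix.of ![e₀, p, e₂])ᵀ) i j = ![e₀, p, e₂] i ⬝ᵥ M *ᵥ ![e₀, p, e₂] j := by
    rw [Matrix.dotProduct_mulVec]
    rfl
  have hE : (Matrix.of ![e₀, p, e₂])ᵀ.det ≠ 0 := by rwa [Matrix.det_transpose]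
  refine ⟨(Matrix.of ![e₀, p, e₂])ᵀ, hE, fun nt => ⟨fun ρ hρ => ?_, ?_, (h5 _ _ _).trans h1,
    tf_of _ ?_ ?_, nt⟩⟩
  · obtain ⟨α, β, γ, a1, a2, a3, e⟩ := quartic_mem_of_no_common_zero
      (isHomogeneous_ev (conj F (Matrix.of ![e₀, p, e₂])ᵀ).M₁)
      (isHomogeneous_ev (conj F (Matrix.of ![e₀, p, e₂])ᵀ).M₃)
      (isHomogeneous_ev (conj F (Matrix.of ![e₀, p, e₂])ᵀ).Mq) (fun v b1 b2 b3 => by
        rw [← coe_aeval_eq_eval, RingHom.coe_coe, aeval_ev, conj, ev_conj] at b1 b2 b3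
        exact Matrix.eq_zero_of_mulVec_eq_zero hE (h _ b1 b2 b3)) ρ hρ
    obtain ⟨α, b1, rfl⟩ := exists_matrix a1
    obtain ⟨β, b2, rfl⟩ := exists_matrix a2
    obtain ⟨γ, b3, rfl⟩ := exists_matrix a3
    exact ⟨α, β, γ, b1, b2, b3, e⟩
  · obtain ⟨c, hc⟩ := hd
    refine ⟨c, ?_⟩
    rw [conj, ← Matrix.smul_mul, ← Matrix.mul_smul, ← Matrix.add_mul, ← Matrix.mul_add,
      Matrix.det_mul, Matrix.det_mul, Matrix.det_transpose]
    exact mul_ne_zero (mul_ne_zero hE hc) hE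
  · simp only [conj, h5]
    exact h2
  · rw [dotProduct_comm] at h3
    simp only [dotProduct_add, dotProduct_smul, smul_eq_mul,
      KL.bil_comm F.s₁ e₂, KL.bil_comm F.s₃ e₂, KL.bil_comm F.sq e₂] at h3
    simp only [conj, h5]
    change p ⬝ᵥ F.M₃ *ᵥ p * p ⬝ᵥ F.M₁ *ᵥ e₂ + p ⬝ᵥ F.M₁ *ᵥ p * p ⬝ᵥ F.M₃ *ᵥ e₂ +
      p ⬝ᵥ F.Ma *ᵥ p * p ⬝ᵥ F.Mq *ᵥ e₂ + p ⬝ᵥ F.Mq *ᵥ p * p ⬝ᵥ F.Ma *ᵥ e₂ = 0
    rw [h3, h1, zero_mul, add_zero]

variable {Ω : Type} [Field Ω] [Algebra k Ω]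

theorem eq_zero_of_chart {x y : Ω} (hxy : AlgebraicIndependent k ![x, y]) {d : ℕ}
    {G : MvPolynomial (Fin 3) k} (hG : G.IsHomogeneous d) (h : aeval ![1, x, y] G = 0) :
    G = 0 := by
  have e {O : Type} [CommRing O] [Algebra k O] (a b : O) :
      aeval ![a, b] (aeval (Forms.v₀ k) G) = aeval ![1, a, b] G := by
    rw [← AlgHom.comp_apply, comp_aeval]
    congr 2
    ext i; fin_cases i <;> simp [Forms.v₀]
  have h1 := algebraicIndependent_iff.1 hxy _ ((e x y).trans h)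
  refine (mul_eq_zero.1 (MvPolynomial.funext (p := X 0 * G) (q := 0) fun p => ?_)).resolve_left
    (X_ne_zero 0)
  by_cases h0 : p 0 = 0
  · simp [h0]
  have h2 : p = p 0 • ![1, p 1 / p 0, p 2 / p 0] := by
    ext i; fin_cases i <;> simp [mul_div_cancel₀, h0]
  have h3 : aeval p G = 0 := by rw [h2, KL.aeval_smul hG, ← e, h1, map_zero, mul_zero]
  rw [map_mul, map_zero, ← coe_aeval_eq_eval p, RingHom.coe_coe, h3, mul_zero]

theorem sf_forms (F : Forms k)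
    (h : ∀ p : Fin 3 → k, ev F.M₁ p = 0 → ev F.M₃ p = 0 → ev F.Mq p = 0 → p = 0)
    (hd : ∃ c : k, (c • F.M₁ + F.Mq).det ≠ 0) {n : ℕ} (hn : 0 < n) {x y w : Ω}
    (hxy : AlgebraicIndependent k ![x, y]) (hw : w ≠ 0)
    (he : w ^ n * F.q ![1, x, y] ^ 2 = F.f ![1, x, y])
    (A : Type) [CommRing A] [IsDomain A] [Algebra k A] [Algebra.Smooth k A] (ι : A →ₐ[k] Ω)
    (hι : Function.Injective ι) (hA : ∀ a, ι a ∈ k⟮x, y, w⟯) : SF (sm k A) := by
  obtain ⟨E, hE, hG⟩ := exists_good F h hd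
  have hE' : IsUnit E.det := hE.isUnit
  have hq : F.q ![1, x, y] ≠ 0 := fun e => by
    have h1 := eq_zero_of_chart hxy (isHomogeneous_ev F.Mq) ((aeval_ev _ _).trans e)
    obtain ⟨p, p0, hp⟩ := exists_common_zero (K := k) (n := 3) ![ev F.M₁ X, ev F.M₃ X]
      (by norm_num) (fun j => by
      fin_cases j <;> simp [const_ev])
    exact p0 (h p ((aeval_ev _ _).symm.trans (hp 0)) ((aeval_ev _ _).symm.trans (hp 1))
      (by rw [← aeval_ev, h1, map_zero]))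
  let v' : Fin 3 → Ω := E⁻¹.map (algebraMap k Ω) *ᵥ ![1, x, y]
  have h1 : E.map (algebraMap k Ω) *ᵥ v' = ![1, x, y] := by
    rw [Matrix.mulVec_mulVec, ← Matrix.map_mul, Matrix.mul_nonsing_inv _ hE',
      Matrix.map_one _ (map_zero _) (map_one _), Matrix.one_mulVec]
  have h0 : v' 0 ≠ 0 := fun e => by
    have h2 := eq_zero_of_chart hxy (G := ∑ j, C (E⁻¹ 0 j) * X j) (d := 1)
      (IsHomogeneous.sum _ _ _ fun j _ => isHomogeneous_C_mul_X _ j)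
      (by simpa [v', Matrix.mulVec, dotProduct] using e)
    have h3 := congrArg (eval fun j => E j 0) h2
    have h4 := congrFun (congrFun (Matrix.nonsing_inv_mul _ hE') 0) 0
    simp [Matrix.mul_apply] at h3 h4
    exact one_ne_zero (h4.symm.trans h3)
  let u : Fin 3 → Ω := (v' 0)⁻¹ • v'
  have u0 : u 0 = 1 := inv_mul_cancel₀ h0
  have h2 : E.map (algebraMap k Ω) *ᵥ u = (v' 0)⁻¹ • ![1, x, y] := by
    rw [Matrix.mulVec_smul, h1]
  have h3 (K : IntermediateField k Ω) (hK : ∀ i, u i ∈ K) : x ∈ K ∧ y ∈ K := by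
    have h4 (i) : (v' 0)⁻¹ * ![1, x, y] i ∈ K := by
      rw [← smul_eq_mul, ← Pi.smul_apply, ← h2, Matrix.mulVec, dotProduct]
      exact sum_mem fun j _ => mul_mem (K.algebraMap_mem (E i j)) (hK j)
    have h5 : v' 0 ∈ K := by simpa using h4 0
    exact ⟨by simpa [h0] using mul_mem h5 (h4 1), by simpa [h0] using mul_mem h5 (h4 2)⟩
  have h4 : AlgebraicIndependent k ![u 1, u 2] := by
    by_contra hc
    obtain ⟨a, ha⟩ := KL.dep _ hc
    obtain ⟨hx, hy⟩ := h3 (acl k a) fun i => by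
      fin_cases i
      exacts [u0 ▸ one_mem _, ha 0, ha 1]
    have := RFA.trdeg_le_one (aeval ![x, y]) hxy (a := a) fun p =>
      (show (aeval ![x, y]).range ≤ (acl k a).toSubalgebra by
        rw [← Algebra.adjoin_range_eq_range_aeval, Algebra.adjoin_le_iff, Set.range_subset_iff]
        exact Fin.forall_fin_two.2 ⟨hx, hy⟩) ⟨p, rfl⟩
    rw [MvPolynomial.trdeg_of_isDomain] at this
    norm_num at this
  have q1 : (conj F E).q u = (v' 0)⁻¹ ^ 2 * F.q ![1, x, y] := by rw [conj_q, h2, F.q_smul]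
  have f1 : (conj F E).f u = (v' 0)⁻¹ ^ 4 * F.f ![1, x, y] := by rw [conj_f, h2, F.f_smul]
  have q2 : (conj F E).q u ≠ 0 := q1 ▸ mul_ne_zero (pow_ne_zero _ (inv_ne_zero h0)) hq
  obtain ⟨ψ₀, hψ⟩ := (conj F E).R_lift u u0 q2.isUnit (Ne.isUnit (by
    rw [f1, ← he]
    exact mul_ne_zero (pow_ne_zero _ (inv_ne_zero h0))
      (mul_ne_zero (pow_ne_zero _ hw) (pow_ne_zero _ hq))))
  have h5 : ψ₀ (conj F E).φ = w ^ n := by
    have := congrArg ψ₀ (conj F E).φ_mul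
    rw [map_mul, map_pow, Forms.map_q, Forms.map_f, hψ] at this
    refine mul_right_cancel₀ (pow_ne_zero 2 q2) (this.trans ?_)
    rw [f1, q1, ← he]
    ring
  let ψ : (conj F E).S n →ₐ[k] Ω := AdjoinRoot.liftAlgHom _ ψ₀ w (by
    rw [Polynomial.eval₂_sub, Polynomial.eval₂_X_pow, Polynomial.eval₂_C, RingHom.coe_coe, h5,
      sub_self])
  have h6 (r) : ψ (algebraMap (conj F E).R _ r) = ψ₀ r := by simp [ψ]
  have h7 (i) : ψ (algebraMap (conj F E).R _ ((conj F E).v i)) = u i := (h6 _).trans (congrFun hψ i)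
  have := etale_kummer (isUnit_natCast k (conj F E).R hn) (conj F E).isUnit_φ
  have : Algebra.Etale (MvPolynomial (Fin 2) k) ((conj F E).S n) := .comp _ (conj F E).R _
  refine SF_of_dominated ((conj F E).S n) (Forms.SF_S _ hn
    (Forms.SF_Y _ (hG ψ₀.domain_nontrivial) hn)) ψ ?_ A ι hι fun a => ?_
  · rw [show ψ.comp (IsScalarTower.toAlgHom k (MvPolynomial (Fin 2) k) _) = aeval ![u 1, u 2] from
      MvPolynomial.algHom_ext (Fin.forall_fin_two.2 ⟨(h7 1).trans (aeval_X ![u 1, u 2] 0).symm,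
        (h7 2).trans (aeval_X ![u 1, u 2] 1).symm⟩)]
    exact h4
  · obtain ⟨hx, hy⟩ := h3 (IntermediateField.adjoin k (Set.range ψ)) fun i =>
      IntermediateField.subset_adjoin _ _ ⟨_, h7 i⟩
    refine (IntermediateField.adjoin_le_iff.2 ?_ : k⟮x, y, w⟯ ≤ _) (hA a)
    rintro _ (rfl | rfl | rfl)
    exacts [hx, hy, IntermediateField.subset_adjoin _ _ ⟨_, AdjoinRoot.liftAlgHom_root ..⟩]

end Fnl

end Pool.Agent.Lib.MP_fc2ced_ag
end
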