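import Pool.Agent.Lib.MP_fc2ced_ag.GeoYB

/-!
The conic bundle structure on the generic fibre, spread out over a cover of the line.
-/

open scoped Polynomial Matrix

set_option linter.unusedSectionVars false

namespace Pool.Agent.Lib.MP_fc2ced_ag

variable {k : Type} [Field k] [CharZero k] [IsAlgClosed k]

namespace Gen

/-- Index set of the unknowns. -/
abbrev Idx : Type := Option (Option (Fin 3) × Fin 3 × Fin 3 × Fin 3)

/-- Index set of the equations. -/
abbrev Eqn : Type := (Fin 3 × Fin 3 × Fin 3) ⊕ Fin 3 ⊕ Bool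

section
variable {O O' : Type} [CommRing O] [Algebra k O] [CommRing O'] [Algebra k O']

/-- The matrices of unknowns. -/
def mat (d : Idx → O) (a : Option (Fin 3)) (b : Fin 3) : Matrix (Fin 3) (Fin 3) O :=
  Matrix.of fun i j => d (some (a, b, i, j))

/-- The middle matrix. -/
def mid (F : Forms k) (d : Idx → O) (T : O) : Matrix (Fin 3) (Fin 3) O :=
  F.Mq.map (algebraMap k O) + T • mat d none 1

/-- The member of the pencil. -/
def pen (F : Forms k) (l : k) (d : Idx → O) (T : O) : Matrix (Fin 3) (Fin 3) O :=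
  l ^ 2 • mat d none 0 - (2 * l) • mid F d T + T • mat d none 2

/-- The equations. -/
def E (F : Forms k) (l : k) (d : Idx → O) (T : O) (v : Fin 3 → O) : Eqn → O
  | .inl (b, i, j) => mat d none b i j - mat d none b j i
  | .inr (.inl i) => v i ^ 4 - (qf (mat d (some i) 0) v * qf (mat d none 0) v +
      qf (mat d (some i) 1) v * qf (mid F d T) v + qf (mat d (some i) 2) v * qf (mat d none 2) v)
  | .inr (.inr true) => F.f v - (qf (mat d none 0) v * qf (mat d none 2) v -
      2 * F.q v * qf (mat d none 1) v - T * qf (mat d none 1) v ^ 2)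
  | .inr (.inr false) => d none * (pen F l d T).det - 1

theorem mat_map (ρ : O →ₐ[k] O') (d : Idx → O) (a : Option (Fin 3)) (b : Fin 3) :
    (mat d a b).map ρ = mat (ρ ∘ d) a b := rfl

theorem mid_map (F : Forms k) (ρ : O →ₐ[k] O') (d : Idx → O) (T : O) :
    (mid F d T).map ρ = mid F (ρ ∘ d) (ρ T) := by
  ext i j; simp [mid, mat]

theorem pen_map (F : Forms k) (l : k) (ρ : O →ₐ[k] O') (d : Idx → O) (T : O) :
    (pen F l d T).map ρ = pen F l (ρ ∘ d) (ρ T) := by
  ext i j; simp [pen, mid, mat]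

theorem map_E (F : Forms k) (l : k) (ρ : O →ₐ[k] O') (d : Idx → O) (T : O) (v : Fin 3 → O)
    (j : Eqn) : ρ (E F l d T v j) = E F l (ρ ∘ d) (ρ T) (ρ ∘ v) j := by
  rcases j with ⟨b, i, j⟩ | i | _ | _
  · simp [E, mat]
  · simp only [E, map_sub, map_add, map_mul, map_pow, map_qf, mat_map, mid_map, Function.comp_apply]
  · simp only [E, map_sub, map_mul, map_one, Function.comp_apply]
    rw [AlgHom.map_det, AlgHom.mapMatrix_apply, pen_map]
  · simp only [E, map_sub, map_mul, map_pow, map_qf, mat_map, Forms.map_f, Forms.map_q, map_ofNat]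

/-- Solutions of the equations, as identities of polynomials. -/
def Pt (F : Forms k) (l : k) (d : Idx → O) (T : O) : Prop :=
  ∀ j, E F l (MvPolynomial.C ∘ d) (MvPolynomial.C T : MvPolynomial (Fin 3) O) MvPolynomial.X j = 0

theorem Pt.ev {F : Forms k} {l : k} {d : Idx → O} {T : O} (h : Pt F l d T) (ρ : O →ₐ[k] O')
    (v : Fin 3 → O') (j : Eqn) : E F l (ρ ∘ d) (ρ T) v j = 0 := by
  have := congrArg (MvPolynomial.aevalTower ρ v) (h j)
  rw [map_E, map_zero] at this
  convert this using 2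
  · ext i; simp
  · simp
  · ext i; simp

theorem Pt.map {F : Forms k} {l : k} {d : Idx → O} {T : O} (h : Pt F l d T) (ρ : O →ₐ[k] O') :
    Pt F l (ρ ∘ d) (ρ T) := fun j =>
  h.ev ((IsScalarTower.toAlgHom k O' (MvPolynomial (Fin 3) O')).comp ρ) MvPolynomial.X j

end

theorem Pt.comap {F : Forms k} {l : k} {O : Type} [CommRing O] [Algebra k O] {d : Idx → O} {T : O}
    {N : Type} {R : N → Type} [∀ n, CommRing (R n)] [∀ n, Algebra k (R n)]
    (ρ : ∀ n, O →ₐ[k] R n) (hρ : ∀ x, (∀ n, ρ n x = 0) → x = 0)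
    (h : ∀ n, Pt F l (ρ n ∘ d) (ρ n T)) : Pt F l d T := by
  intro j
  ext m
  refine hρ _ fun n => ?_
  have h1 := map_E F l (MvPolynomial.mapAlgHom (σ := Fin 3) (ρ n)) (MvPolynomial.C ∘ d)
    (MvPolynomial.C T) MvPolynomial.X j
  have h2 : E F l (MvPolynomial.mapAlgHom (σ := Fin 3) (ρ n) ∘ MvPolynomial.C ∘ d)
      (MvPolynomial.mapAlgHom (σ := Fin 3) (ρ n) (MvPolynomial.C T))
      (MvPolynomial.mapAlgHom (σ := Fin 3) (ρ n) ∘ MvPolynomial.X) j = 0 := by
    convert h n j using 2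
    · ext i : 1; simp
    · simp
    · ext i : 1; simp
  rw [h2] at h1
  have h3 := congrArg (MvPolynomial.coeff m) h1
  rw [MvPolynomial.mapAlgHom_apply, MvPolynomial.coeff_map] at h3
  simpa using h3

section Nil
variable {R : Type} [CommRing R] [Algebra k R]

/-- The quadratic form of a matrix as a polynomial. -/
noncomputable def Qd : Matrix (Fin 3) (Fin 3) R →ₗ[R] MvPolynomial (Fin 3) R where
  toFun M := qf (M.map MvPolynomial.C) MvPolynomial.X
  map_add' M N := by
    simp [qf, dotProduct, Matrix.mulVec, Fin.sum_univ_three]; ring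
  map_smul' c M := by
    simp [qf, dotProduct, Matrix.mulVec, Fin.sum_univ_three, MvPolynomial.smul_eq_C_mul]; ring

theorem Qd_apply (M : Matrix (Fin 3) (Fin 3) R) :
    Qd M = qf (M.map MvPolynomial.C) MvPolynomial.X := rfl

theorem Qd_sum (M : Matrix (Fin 3) (Fin 3) R) :
    Qd M = ∑ i, ∑ j, M i j • (MvPolynomial.X i * MvPolynomial.X j) := by
  simp [Qd_apply, qf, dotProduct, Matrix.mulVec, Fin.sum_univ_three, MvPolynomial.smul_eq_C_mul]
  ring

theorem Qd_const (M : Matrix (Fin 3) (Fin 3) k) :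
    Qd (M.map (algebraMap k R)) = ev M (MvPolynomial.X : Fin 3 → MvPolynomial (Fin 3) R) := by
  rw [Qd_apply, ev, Matrix.map_map]; rfl

/-- The quartics in the ideal of the three forms. -/
def Dec (F : Forms k) : Submodule R (MvPolynomial (Fin 3) R) where
  carrier := {ρ | ∃ α β γ : Matrix (Fin 3) (Fin 3) R, α.IsSymm ∧ β.IsSymm ∧ γ.IsSymm ∧
    ρ = Qd α * ev F.M₁ MvPolynomial.X + Qd β * ev F.M₃ MvPolynomial.X +
      Qd γ * ev F.Mq MvPolynomial.X}
  zero_mem' := ⟨0, 0, 0, Matrix.isSymm_zero, Matrix.isSymm_zero, Matrix.isSymm_zero, by simp⟩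
  add_mem' := by
    rintro _ _ ⟨α, β, γ, h1, h2, h3, rfl⟩ ⟨α', β', γ', h1', h2', h3', rfl⟩
    exact ⟨α + α', β + β', γ + γ', h1.add h1', h2.add h2', h3.add h3', by
      simp only [map_add]; ring⟩
  smul_mem' := by
    rintro c _ ⟨α, β, γ, h1, h2, h3, rfl⟩
    exact ⟨c • α, c • β, c • γ, h1.smul c, h2.smul c, h3.smul c, by
      simp only [map_smul, MvPolynomial.smul_eq_C_mul]; ring⟩

theorem mono_mem {F : Forms k} (hF : F.Good) (i j i' j' : Fin 3) :
    (MvPolynomial.X i * MvPolynomial.X j * (MvPolynomial.X i' * MvPolynomial.X j') :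
      MvPolynomial (Fin 3) R) ∈ Dec F := by
  obtain ⟨α, β, γ, h1, h2, h3, h⟩ := hF.gen
    (MvPolynomial.X i * MvPolynomial.X j * (MvPolynomial.X i' * MvPolynomial.X j'))
    (((MvPolynomial.isHomogeneous_X k i).mul (MvPolynomial.isHomogeneous_X k j)).mul
      ((MvPolynomial.isHomogeneous_X k i').mul (MvPolynomial.isHomogeneous_X k j')))
  refine ⟨α.map (algebraMap k R), β.map (algebraMap k R), γ.map (algebraMap k R), h1.map _,
    h2.map _, h3.map _, ?_⟩
  have := congrArg (MvPolynomial.aeval (R := k)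
    (MvPolynomial.X : Fin 3 → MvPolynomial (Fin 3) R)) h
  have hX : (MvPolynomial.aeval (R := k) (MvPolynomial.X : Fin 3 → MvPolynomial (Fin 3) R)) ∘
      MvPolynomial.X = MvPolynomial.X := by ext i : 1; simp
  simp only [map_add, map_mul, map_ev, hX, MvPolynomial.aeval_X] at this
  simp only [Qd_const]
  exact this

theorem mul_mem {F : Forms k} (hF : F.Good) (M N : Matrix (Fin 3) (Fin 3) R) :
    Qd M * Qd N ∈ Dec F := by
  rw [Qd_sum, Qd_sum]
  simp only [Finset.sum_mul, Finset.mul_sum, smul_mul_smul_comm]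
  refine Submodule.sum_mem _ fun _ _ => Submodule.sum_mem _ fun _ _ =>
    Submodule.sum_mem _ fun _ _ => Submodule.sum_mem _ fun _ _ =>
      Submodule.smul_mem _ _ (mono_mem hF _ _ _ _)

theorem exists_deform {F : Forms k} (hF : F.Good) (T : R) (N : ℕ) :
    ∃ α β γ : Matrix (Fin 3) (Fin 3) R, α.IsSymm ∧ β.IsSymm ∧ γ.IsSymm ∧ ∃ ρ ∈ Dec (R := R) F,
      F.f MvPolynomial.X = (ev F.M₁ MvPolynomial.X + MvPolynomial.C T * Qd β) *
        (ev F.M₃ MvPolynomial.X + MvPolynomial.C T * Qd α) - 2 * F.q MvPolynomial.X * Qd γ -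
        MvPolynomial.C T * Qd γ ^ 2 + MvPolynomial.C T ^ (N + 1) * ρ := by
  have h2 : (2 : MvPolynomial (Fin 3) R) * MvPolynomial.C (algebraMap k R 2⁻¹) = 1 := by
    rw [← map_ofNat (MvPolynomial.C : R →+* MvPolynomial (Fin 3) R) 2, ← map_mul,
      ← map_ofNat (algebraMap k R) 2, ← map_mul, mul_inv_cancel₀ two_ne_zero, map_one, map_one]
  induction N with
  | zero =>
    refine ⟨0, 0, (-algebraMap k R 2⁻¹) • F.Ma.map (algebraMap k R), Matrix.isSymm_zero,
      Matrix.isSymm_zero, (F.sa.map _).smul _, _, mul_mem hF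
        ((-algebraMap k R 2⁻¹) • F.Ma.map (algebraMap k R))
        ((-algebraMap k R 2⁻¹) • F.Ma.map (algebraMap k R)), ?_⟩
    simp only [map_zero, map_smul, Qd_const, MvPolynomial.smul_eq_C_mul, Forms.f, Forms.q, map_neg]
    linear_combination (-(ev F.Mq MvPolynomial.X * ev F.Ma MvPolynomial.X)) * h2
  | succ N ih =>
    obtain ⟨α, β, γ, h1, h2', h3, _, ⟨α', β', γ', h1', h2'', h3', rfl⟩, h⟩ := ih
    refine ⟨α + T ^ N • α', β + T ^ N • β', γ - (T ^ (N + 1) * algebraMap k R 2⁻¹) • γ',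
      h1.add (h1'.smul _), h2'.add (h2''.smul _), h3.sub (h3'.smul _),
      -(Qd β' * Qd α + Qd α' * Qd β + T ^ N • (Qd α' * Qd β')) - (Qd γ * Qd γ' -
        (T ^ (N + 1) * algebraMap k R 2⁻¹ * algebraMap k R 2⁻¹) • (Qd γ' * Qd γ')), ?_, ?_⟩
    · exact Submodule.sub_mem _ (Submodule.neg_mem _ (Submodule.add_mem _ (Submodule.add_mem _
        (mul_mem hF _ _) (mul_mem hF _ _)) (Submodule.smul_mem _ _ (mul_mem hF _ _))))
        (Submodule.sub_mem _ (mul_mem hF _ _) (Submodule.smul_mem _ _ (mul_mem hF _ _)))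
    · rw [h]
      simp only [map_add, map_sub, map_smul, MvPolynomial.smul_eq_C_mul, map_mul, map_pow, Forms.q]
      linear_combination (-(MvPolynomial.C T ^ (N + 1) * ev F.Mq MvPolynomial.X * Qd γ') -
        MvPolynomial.C T ^ (N + 2) * Qd γ * Qd γ') * h2

theorem exists_coef {F : Forms k} (hF : F.Good) (T : R) (α β γ : Matrix (Fin 3) (Fin 3) R) (N : ℕ)
    (ρ : MvPolynomial (Fin 3) R) (hρ : ρ ∈ Dec (R := R) F) :
    ∃ a b c : Matrix (Fin 3) (Fin 3) R, ∃ ρ' ∈ Dec (R := R) F,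
      ρ = Qd a * (ev F.M₁ MvPolynomial.X + MvPolynomial.C T * Qd β) +
        Qd b * (ev F.Mq MvPolynomial.X + MvPolynomial.C T * Qd γ) +
        Qd c * (ev F.M₃ MvPolynomial.X + MvPolynomial.C T * Qd α) + MvPolynomial.C T ^ N * ρ' := by
  induction N with
  | zero => exact ⟨0, 0, 0, ρ, hρ, by simp⟩
  | succ N ih =>
    obtain ⟨a, b, c, _, ⟨α', β', γ', -, -, -, rfl⟩, h⟩ := ih
    refine ⟨a + T ^ N • α', b + T ^ N • γ', c + T ^ N • β',
      -(Qd α' * Qd β + Qd β' * Qd α + Qd γ' * Qd γ), Submodule.neg_mem _ (Submodule.add_mem _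
        (Submodule.add_mem _ (mul_mem hF _ _) (mul_mem hF _ _)) (mul_mem hF _ _)), ?_⟩
    rw [h]
    simp only [map_add, map_smul, MvPolynomial.smul_eq_C_mul, map_pow]
    ring

theorem isUnit_det_add {T : R} (hT : IsNilpotent T) {M : Matrix (Fin 3) (Fin 3) R}
    (hM : IsUnit M.det) (M' : Matrix (Fin 3) (Fin 3) R) : IsUnit (M + T • M').det := by
  have h : Ideal.Quotient.mk (Ideal.span {T}) ((M + T • M').det - M.det) = 0 := by
    have hT0 : Ideal.Quotient.mk (Ideal.span {T}) T = 0 :=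
      Ideal.Quotient.eq_zero_iff_mem.2 (Ideal.mem_span_singleton_self T)
    rw [map_sub, RingHom.map_det, RingHom.map_det, sub_eq_zero]
    congr 1
    ext i j
    simp [hT0]
  obtain ⟨e, he⟩ := Ideal.mem_span_singleton'.1 (Ideal.Quotient.eq_zero_iff_mem.1 h)
  have : (M + T • M').det = M.det + e * T := by rw [he]; ring
  rw [this]
  exact IsNilpotent.isUnit_add_left_of_commute ((Commute.all e T).isNilpotent_mul_left hT) hM
    (Commute.all _ _)

theorem exists_pt_nil {F : Forms k} (hF : F.Good) {l : k}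
    (hl : (l ^ 2 • F.M₁ - (2 * l) • F.Mq).det ≠ 0) {T : R} (hT : IsNilpotent T) :
    ∃ d : Idx → R, Pt F l d T := by
  obtain ⟨N, hN⟩ := hT
  have hN' : (MvPolynomial.C T : MvPolynomial (Fin 3) R) ^ N = 0 := by
    rw [← map_pow, hN, map_zero]
  obtain ⟨α, β, γ, h1, h2, h3, ρ, -, h⟩ := exists_deform hF T N
  have hc (i : Fin 3) := exists_coef hF T α β γ N _ (mono_mem hF i i i i)
  choose a b c ρ' _ hc using hc
  let A : Fin 3 → Matrix (Fin 3) (Fin 3) R :=
    ![F.M₁.map (algebraMap k R) + T • β, γ, F.M₃.map (algebraMap k R) + T • α]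
  have hu : IsUnit (l ^ 2 • A 0 - (2 * l) • (F.Mq.map (algebraMap k R) + T • A 1) + T • A 2).det := by
    have := isUnit_det_add ⟨N, hN⟩ (M := (l ^ 2 • F.M₁ - (2 * l) • F.Mq).map (algebraMap k R))
      (by
        rw [← RingHom.mapMatrix_apply, ← RingHom.map_det]
        exact hl.isUnit.map _) (l ^ 2 • β - (2 * l) • γ + A 2)
    convert this using 2
    ext i j
    simp only [A, Matrix.cons_val_zero, Matrix.cons_val_one, Matrix.cons_val, Matrix.add_apply,
      Matrix.sub_apply, Matrix.smul_apply, Matrix.map_apply, smul_eq_mul, map_sub, map_mul]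
    simp only [Algebra.smul_def, map_mul]
    ring
  obtain ⟨w, hw⟩ := hu.exists_left_inv
  let d : Idx → R := fun x => match x with
    | none => w
    | some (none, b, i, j) => A b i j
    | some (some m, e, i, j) => ![a m, b m, c m] e i j
  have e0 (e : Fin 3) : mat (MvPolynomial.C ∘ d) none e =
      ((A e).map MvPolynomial.C : Matrix _ _ (MvPolynomial (Fin 3) R)) := rfl
  have e1 (m e : Fin 3) : mat (MvPolynomial.C ∘ d) (some m) e =
      ((![a m, b m, c m] e).map MvPolynomial.C : Matrix _ _ (MvPolynomial (Fin 3) R)) := rfl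
  have e2 : mid F (MvPolynomial.C ∘ d) (MvPolynomial.C T) =
      ((F.Mq.map (algebraMap k R) + T • γ).map MvPolynomial.C :
        Matrix _ _ (MvPolynomial (Fin 3) R)) := by
    refine Matrix.ext fun i j => ?_
    simp only [mid, e0, A, Matrix.cons_val_zero, Matrix.cons_val_one, Matrix.add_apply,
      Matrix.smul_apply, Matrix.map_apply, smul_eq_mul, map_add, map_mul]
    rfl
  refine ⟨d, ?_⟩
  rintro (⟨e, i, j⟩ | i | _ | _)
  · have hs : (A e).IsSymm := by
      fin_cases e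
      exacts [(F.s₁.map _).add (h2.smul _), h3, (F.s₃.map _).add (h1.smul _)]
    simp only [E, e0, Matrix.map_apply, hs.apply i j, sub_self]
  · simp only [E, e0, e1, e2, ← Qd_apply]
    have := hc i
    rw [hN'] at this
    simp only [A, Matrix.cons_val_zero, Matrix.cons_val_one, Matrix.cons_val, map_add, map_smul,
      Qd_const, MvPolynomial.smul_eq_C_mul]
    linear_combination this
  · have := congrArg (IsScalarTower.toAlgHom k R (MvPolynomial (Fin 3) R)) hw
    rw [map_mul, map_one, AlgHom.map_det, AlgHom.mapMatrix_apply] at this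
    have e3 := pen_map F l (IsScalarTower.toAlgHom k R (MvPolynomial (Fin 3) R)) d T
    simp only [E, sub_eq_zero]
    exact (congrArg (fun M : Matrix _ _ _ => MvPolynomial.C w * M.det) e3).symm.trans this
  · simp only [E, e0, ← Qd_apply]
    rw [pow_succ _ N, hN'] at h
    simp only [A, Matrix.cons_val_zero, Matrix.cons_val_one, Matrix.cons_val, map_add, map_smul,
      Qd_const, MvPolynomial.smul_eq_C_mul]
    linear_combination h

end Nil

theorem exists_pt_field {F : Forms k} (hF : F.Good) {l : k}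
    (hl : (l ^ 2 • F.M₁ - (2 * l) • F.Mq).det ≠ 0) {K : Type} [Field K] [IsAlgClosed K]
    [Algebra k K] [Algebra k[X] K] [IsScalarTower k k[X] K]
    (hK : Function.Injective (algebraMap k[X] K)) :
    ∃ d : Idx → K, Pt F l d (algebraMap k[X] K Polynomial.X) := by
  let R : ℕ → Type := fun N => k[X] ⧸ Ideal.span {(Polynomial.X : k[X]) ^ N}
  have hd (N : ℕ) : ∃ d : Idx → R N, Pt F l d (algebraMap k[X] (R N) Polynomial.X) :=
    exists_pt_nil hF hl ⟨N, by
      rw [← map_pow]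
      exact Ideal.Quotient.eq_zero_iff_mem.2 (Ideal.mem_span_singleton_self _)⟩
  choose d hd using hd
  let φ (N : ℕ) : MvPolynomial Idx k[X] →ₐ[k[X]] R N := MvPolynomial.aeval (d N)
  let I : Ideal (MvPolynomial Idx k[X]) := ⨅ N, RingHom.ker (φ N)
  let ψ (N : ℕ) : (MvPolynomial Idx k[X] ⧸ I) →ₐ[k[X]] R N :=
    Ideal.Quotient.liftₐ I (φ N) fun x hx => (Submodule.mem_iInf _).1 hx N
  have hψ (N : ℕ) (x : MvPolynomial Idx k[X]) : ψ N (Ideal.Quotient.mk I x) = φ N x := rfl
  have hinj : Function.Injective (algebraMap k[X] (MvPolynomial Idx k[X] ⧸ I)) := by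
    rw [injective_iff_map_eq_zero]
    intro p hp
    by_contra h0
    have h1 := (ψ (p.natDegree + 1)).commutes p
    rw [hp, map_zero] at h1
    have h2 := Polynomial.natDegree_le_of_dvd
      (Ideal.mem_span_singleton.1 (Ideal.Quotient.eq_zero_iff_mem.1 h1.symm)) h0
    simp at h2
  obtain ⟨χ⟩ := exists_algHom_of_finiteType (A := MvPolynomial Idx k[X] ⧸ I) hinj hK
  have hu : Pt F l (Ideal.Quotient.mk I ∘ MvPolynomial.X)
      (algebraMap k[X] (MvPolynomial Idx k[X] ⧸ I) Polynomial.X) := by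
    refine Pt.comap (fun N => (ψ N).restrictScalars k) (fun x hx => ?_) fun N => ?_
    · obtain ⟨x, rfl⟩ := Ideal.Quotient.mk_surjective x
      exact Ideal.Quotient.eq_zero_iff_mem.2 ((Submodule.mem_iInf _).2 hx)
    · convert hd N using 1
      · ext i; simp [hψ, φ]
      · exact (ψ N).commutes _
  have := hu.map (χ.restrictScalars k)
  rw [AlgHom.restrictScalars_apply, χ.commutes] at this
  exact ⟨_, this⟩

theorem exists_l {F : Forms k} (hF : F.Good) :
    ∃ l : k, (l ^ 2 • F.M₁ - (2 * l) • F.Mq).det ≠ 0 := by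
  obtain ⟨c, hc⟩ := hF.disc
  let p : k[X] := ((Polynomial.X : k[X]) • F.M₁.map Polynomial.C + F.Mq.map Polynomial.C).det
  have hp (x : k) : p.eval x = (x • F.M₁ + F.Mq).det := by
    rw [← Polynomial.coe_evalRingHom, RingHom.map_det]
    congr 1
    ext i j; simp; ring
  have h0 : Polynomial.X * p ≠ 0 :=
    mul_ne_zero Polynomial.X_ne_zero fun h => hc (by rw [← hp, h, Polynomial.eval_zero])
  obtain ⟨x, hx⟩ : ∃ x, (Polynomial.X * p).eval x ≠ 0 := by
    by_contra h
    push Not at h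
    exact h0 (Polynomial.funext fun x => by rw [h, Polynomial.eval_zero])
  rw [Polynomial.eval_mul, Polynomial.eval_X, hp] at hx
  refine ⟨-2 * x, ?_⟩
  have : (-2 * x) ^ 2 • F.M₁ - (2 * (-2 * x)) • F.Mq = (4 * x) • (x • F.M₁ + F.Mq) := by
    ext i j; simp; ring
  rw [this, Matrix.det_smul]
  exact mul_ne_zero (pow_ne_zero _ (mul_ne_zero (by norm_num) (left_ne_zero_of_mul hx)))
    (right_ne_zero_of_mul hx)

section Sec
variable {O O' : Type} [CommRing O] [CommRing O']

/-- The symmetrised bilinear form. -/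
def bf (M : Matrix (Fin 3) (Fin 3) O) (x y : Fin 3 → O) : O := x ⬝ᵥ M *ᵥ y + y ⬝ᵥ M *ᵥ x

/-- The five coefficients of the condition on the section. -/
def sc (A₁ A₂ A₃ : Matrix (Fin 3) (Fin 3) O) (T : O) (x y : Fin 3 → O) : Fin 5 → O :=
  ![T * qf A₃ x, T * bf A₃ x y - 2 * qf A₂ x, qf A₁ x - 2 * bf A₂ x y + T * qf A₃ y,
    bf A₁ x y - 2 * qf A₂ y, qf A₁ y]

theorem map_bf (ρ : O →+* O') (M : Matrix (Fin 3) (Fin 3) O) (x y : Fin 3 → O) :
    ρ (bf M x y) = bf (M.map ρ) (ρ ∘ x) (ρ ∘ y) := by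
  simp [bf, dotProduct, Matrix.mulVec, map_sum]

theorem map_sc (ρ : O →+* O') (A₁ A₂ A₃ : Matrix (Fin 3) (Fin 3) O) (T : O) (x y : Fin 3 → O)
    (j : Fin 5) : ρ (sc A₁ A₂ A₃ T x y j) =
      sc (A₁.map ρ) (A₂.map ρ) (A₃.map ρ) (ρ T) (ρ ∘ x) (ρ ∘ y) j := by
  fin_cases j <;> simp [sc, map_bf, map_qf, map_ofNat]

theorem qf_pencil (A₁ A₂ A₃ : Matrix (Fin 3) (Fin 3) O) (T l : O) (x y : Fin 3 → O) :
    qf (l ^ 2 • A₁ - (2 * l) • A₂ + T • A₃) (x + l • y) =
      sc A₁ A₂ A₃ T x y 0 + l * sc A₁ A₂ A₃ T x y 1 + l ^ 2 * sc A₁ A₂ A₃ T x y 2 +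
        l ^ 3 * sc A₁ A₂ A₃ T x y 3 + l ^ 4 * sc A₁ A₂ A₃ T x y 4 := by
  simp [sc, bf, qf, dotProduct, Matrix.mulVec, Fin.sum_univ_three]
  ring

theorem exists_sec {K : Type} [Field K] [IsAlgClosed K] [Algebra k K]
    (A₁ A₂ A₃ : Matrix (Fin 3) (Fin 3) K) (T : K) :
    ∃ (x y : Fin 3 → K) (j : Fin 3) (l : k) (w : K), (x j + l • y j) * w = 1 ∧
      ∀ m, sc A₁ A₂ A₃ T x y m = 0 := by
  let x : Fin 3 → MvPolynomial (Fin 6) K := fun i => MvPolynomial.X (Fin.castAdd 3 i)
  let y : Fin 3 → MvPolynomial (Fin 6) K := fun i => MvPolynomial.X (Fin.natAdd 3 i)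
  have h (ζ : Fin 6 → K) (m : Fin 5) : MvPolynomial.eval ζ (sc (A₁.map MvPolynomial.C)
      (A₂.map MvPolynomial.C) (A₃.map MvPolynomial.C) (MvPolynomial.C T) x y m) =
      sc A₁ A₂ A₃ T (fun i => ζ (Fin.castAdd 3 i)) (fun i => ζ (Fin.natAdd 3 i)) m := by
    have hM (M : Matrix (Fin 3) (Fin 3) K) :
        (M.map MvPolynomial.C).map (MvPolynomial.eval ζ) = M := by ext; simp
    rw [map_sc, hM, hM, hM, MvPolynomial.eval_C]
    congr 1 <;> ext <;> simp [x, y]
  obtain ⟨ζ, h0, hζ⟩ := exists_common_zero (K := K) (fun m : Fin 5 => sc (A₁.map MvPolynomial.C)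
    (A₂.map MvPolynomial.C) (A₃.map MvPolynomial.C) (MvPolynomial.C T) x y m) (by norm_num)
    (fun m => by
      rw [h]
      fin_cases m <;> simp [sc, bf, qf, dotProduct, Matrix.mulVec])
  simp only [h] at hζ
  by_cases hx : ∃ j : Fin 3, ζ (Fin.castAdd 3 j) ≠ 0
  · obtain ⟨j, hj⟩ := hx
    exact ⟨_, _, j, 0, (ζ (Fin.castAdd 3 j))⁻¹, by simp [hj], hζ⟩
  · push Not at hx
    obtain ⟨j, hj⟩ : ∃ j : Fin 3, ζ (Fin.natAdd 3 j) ≠ 0 := by
      by_contra hy
      push Not at hy
      exact h0 (funext fun i => Fin.addCases (m := 3) (n := 3) hx hy i)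
    exact ⟨_, _, j, 1, (ζ (Fin.natAdd 3 j))⁻¹, by
      rw [hx, one_smul, zero_add, mul_inv_cancel₀ hj], hζ⟩

end Sec

theorem exists_field {n : ℕ} (hn : 0 < n) {K : Type} [Field K] [IsAlgClosed K] [Algebra k K]
    [Algebra k[X] K] [IsScalarTower k k[X] K] [Algebra.IsAlgebraic k[X] K]
    (hK : Function.Injective (algebraMap k[X] K)) :
    ∃ u : K, algebraMap k[X] K Polynomial.X * u ^ n = 4 ∧ Transcendental k u ∧
      ∀ x, x ∈ acl k u := by
  set δ := algebraMap k[X] K Polynomial.X with hδ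
  have : CharZero K := charZero_of_injective_algebraMap (algebraMap k K).injective
  have hae (p : k[X]) : Polynomial.aeval δ p = algebraMap k[X] K p := by
    rw [hδ, Polynomial.aeval_algebraMap_apply, Polynomial.aeval_X_left_apply]
  have hδ0 : δ ≠ 0 := fun h => Polynomial.X_ne_zero (hK (h.trans (map_zero _).symm))
  obtain ⟨u, hu⟩ := IsAlgClosed.exists_pow_nat_eq (4 / δ) hn
  have hu0 : u ≠ 0 := by
    rintro rfl
    rw [zero_pow hn.ne'] at hu
    exact div_ne_zero (by norm_num) hδ0 hu.symm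
  have h1 : δ * u ^ n = 4 := by rw [hu]; field_simp
  have h2 : δ = 4 / u ^ n := by rw [eq_div_iff (pow_ne_zero _ hu0), h1]
  have hδu : δ ∈ IntermediateField.adjoin k {u} := by
    rw [h2]
    exact div_mem (ofNat_mem _ 4) (pow_mem (IntermediateField.mem_adjoin_simple_self k u) n)
  refine ⟨u, h1, fun h => ?_, fun x => ?_⟩
  · have h3 : IsAlgebraic k δ := by
      have : IntermediateField.adjoin k {u} ≤ algebraicClosure k K :=
        IntermediateField.adjoin_simple_le_iff.2 (mem_algebraicClosure_iff.2 h)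
      exact mem_algebraicClosure_iff.1 (this hδu)
    obtain ⟨p, hp0, hp⟩ := h3
    exact hp0 (hK ((hae p).symm.trans (hp.trans (map_zero _).symm)))
  · rw [mem_acl]
    let _ : Algebra k[X] (IntermediateField.adjoin k {u}) :=
      (Polynomial.aeval (⟨δ, hδu⟩ : IntermediateField.adjoin k {u})).toAlgebra
    have hc (p : k[X]) : algebraMap k[X] K p = algebraMap (IntermediateField.adjoin k {u}) K
        (algebraMap k[X] (IntermediateField.adjoin k {u}) p) := by
      rw [← hae]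
      exact Polynomial.aeval_algebraMap_apply K (⟨δ, hδu⟩ : IntermediateField.adjoin k {u}) p
    have : IsScalarTower k[X] (IntermediateField.adjoin k {u}) K := .of_algebraMap_eq hc
    exact (Algebra.IsAlgebraic.isAlgebraic (R := k[X]) x).extendScalars
      fun p p' h => hK (by rw [hc, hc, h])

end Gen

open Gen in
theorem Forms.exists_dat (F : Forms k) (hF : F.Good) {n : ℕ} (hn : 0 < n) :
    ∃ c : Cov k, Nonempty (F.Dat n c) := by
  let K := AlgebraicClosure (RatFunc k)
  have hK : Function.Injective (algebraMap k[X] K) := by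
    rw [IsScalarTower.algebraMap_eq k[X] (RatFunc k) K]
    exact (algebraMap (RatFunc k) K).injective.comp (IsFractionRing.injective k[X] (RatFunc k))
  have : Algebra.IsAlgebraic k[X] K :=
    (IsFractionRing.comap_isAlgebraic_iff (A := k[X]) (K := RatFunc k)).2 inferInstance
  obtain ⟨l, hl⟩ := exists_l hF
  obtain ⟨d, hd⟩ := exists_pt_field hF hl hK
  obtain ⟨u, h1, h2, h3⟩ := exists_field hn hK
  set δ := algebraMap k[X] K Polynomial.X
  obtain ⟨x, y, j, l', w, hw, hs⟩ := exists_sec (k := k) (mat d none 0) (mid F d δ) (mat d none 2) δ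
  obtain ⟨c, ι, hι, hu, hS⟩ := exists_cov h2
    (S := Set.range d ∪ Set.range x ∪ Set.range y ∪ {δ, w})
    (by simp [Set.finite_range]) fun z _ => h3 z
  choose d' hd' using fun i => hS (d i) (by simp)
  choose x' hx' using fun i => hS (x i) (by simp)
  choose y' hy' using fun i => hS (y i) (by simp)
  obtain ⟨δ', hδ'⟩ := hS δ (by simp)
  obtain ⟨w', hw'⟩ := hS w (by simp)
  have ed : ι ∘ d' = d := funext hd'
  have ex : ι ∘ x' = x := funext hx'
  have ey : ι ∘ y' = y := funext hy'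
  have eδ : ι δ' = δ := hδ'
  have ew : ι w' = w := hw'
  have hp : Pt F l d' δ' := Pt.comap (N := Unit) (fun _ => ι)
    (fun z hz => hι ((hz ()).trans (map_zero ι).symm)) fun _ => by rwa [ed, eδ]
  have hsym (b : Fin 3) : (mat d' none b).IsSymm := Matrix.IsSymm.ext fun i i' =>
    sub_eq_zero.1 (hp.ev (AlgHom.id k _) 0 (.inl (b, i', i)))
  have hsc (m : Fin 5) : sc (mat d' none 0) (mid F d' δ') (mat d' none 2) δ' x' y' m = 0 := by
    refine hι ?_
    have := map_sc (ι : c.Λ →+* K) (mat d' none 0) (mid F d' δ') (mat d' none 2) δ' x' y' m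
    simp only [RingHom.coe_coe, mat_map, mid_map, ed, ex, ey, eδ, hs] at this
    rw [map_zero]
    exact this
  refine ⟨c, ⟨⟨δ', hι ?_, mat d' none 0, mid F d' δ', mat d' none 2, hsym 0,
    (F.sq.map _).add ((hsym 1).smul _), hsym 2, fun O _ _ ρ v => ?_, fun O _ _ _ ρ v a1 a2 a3 => ?_,
    x', y', fun O _ _ ρ s => ?_, j, ⟨l', .of_mul_eq_one w' (hι ?_)⟩,
    ⟨l, .of_mul_eq_one_right (d' none) ?_⟩⟩⟩⟩
  · rw [map_mul, map_pow, eδ, hu, h1, map_ofNat]
  · have := hp.ev ρ v (.inr (.inr true))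
    have e : qf (mid F (ρ ∘ d') (ρ δ')) v = F.q v + ρ δ' * qf (mat (ρ ∘ d') none 1) v := by
      simp [mid, Forms.q, ev, qf, Matrix.add_mulVec, Matrix.smul_mulVec]
    simp only [E] at this
    rw [mat_map, mat_map, mid_map, e]
    linear_combination (-ρ δ') * this
  · ext i
    have := hp.ev ρ v (.inr (.inl i))
    rw [mat_map] at a1 a3
    rw [mid_map] at a2
    simp only [E, a1, a2, a3, mul_zero, add_zero, sub_zero] at this
    exact pow_eq_zero_iff (by norm_num) |>.1 this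
  · have (m : Fin 5) := map_sc (ρ : c.Λ →+* O) (mat d' none 0) (mid F d' δ') (mat d' none 2)
      δ' x' y' m
    simp only [hsc, map_zero, RingHom.coe_coe] at this
    rw [qf_pencil]
    simp only [← this, mul_zero, add_zero]
  · rw [map_mul, map_add, map_smul, ew, map_one, ← hw, ← ex, ← ey]
    rfl
  · exact sub_eq_zero.1 (hp.ev (AlgHom.id k _) 0 (.inr (.inr false)))

end Pool.Agent.Lib.MP_fc2ced_ag
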