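import Mathlib

-- part Pool.Agent.Lib.MP_fc2ced_ag.CurveAlgA
section

/-!
Algebras that are free over a polynomial ring: degree filtration, monic elements, division with
remainder, traces on quotients by monic elements, and base change.
-/

open scoped TensorProduct Polynomial
open Module Submodule

namespace Pool.Agent.Lib.MP_fc2ced_ag.Curve

section Semi

variable {S S' M M' κ : Type} [CommRing S] [CommRing S'] [AddCommGroup M] [AddCommGroup M']
  [Module S M] [Module S' M'] {ξ : S →+* S'}

theorem repr_map (b : Basis κ S M) (b' : Basis κ S' M') (φ : M →ₛₗ[ξ] M')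
    (h : ∀ p, φ (b p) = b' p) (y : M) (p : κ) : b'.repr (φ y) p = ξ (b.repr y p) := by
  classical
  have hy : y ∈ span S (Set.range b) := by rw [b.span_eq]; trivial
  induction hy using span_induction with
  | mem _ hy =>
    obtain ⟨q, rfl⟩ := hy
    rw [h, b.repr_self, b'.repr_self, Finsupp.single_apply, Finsupp.single_apply]
    split_ifs <;> simp
  | zero => simp
  | add _ _ _ _ h1 h2 => simp [h1, h2]
  | smul _ _ _ h1 => simp [map_smulₛₗ, h1]

theorem span_map {b : κ → M} {b' : κ → M'} (φ : M →ₛₗ[ξ] M') (h : ∀ p, φ (b p) = b' p)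
    {T : Set κ} {y : M} (hy : y ∈ span S (b '' T)) : φ y ∈ span S' (b' '' T) := by
  induction hy using span_induction with
  | mem _ hy =>
    obtain ⟨q, hq, rfl⟩ := hy
    exact subset_span ⟨q, hq, (h q).symm⟩
  | zero => simp
  | add _ _ _ _ h1 h2 => rw [map_add]; exact add_mem h1 h2
  | smul _ _ _ h1 => rw [map_smulₛₗ]; exact smul_mem _ _ h1

end Semi

/-- The trace of multiplication on the quotient by an ideal. -/
noncomputable def tq (S : Type) {E : Type} [CommRing S] [CommRing E] [Algebra S E] (K : Ideal E) :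
    E →ₗ[S] S := Algebra.trace S (E ⧸ K) ∘ₗ (Ideal.Quotient.mkₐ S K).toLinearMap

/-- A basis `g ^ i * e j` with a bound on the degrees of the structure constants. -/
structure Fil (S E ι : Type) [CommRing S] [CommRing E] [Algebra S E] where
  β : Basis (ℕ × ι) S E
  g : E
  c : ℕ
  mul : ∀ i j, g * β (i, j) = β (i + 1, j)
  str : ∀ j j', β (0, j) * β (0, j') ∈ span S (β '' {p | p.1 < c})

namespace Fil

variable {S E ι : Type} [CommRing S] [CommRing E] [Algebra S E] (F : Fil S E ι)

/-- Elements of degree less than `m`. -/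
def V (m : ℕ) : Submodule S E := span S (F.β '' {p | p.1 < m})

/-- Multiplication by `w` raises degrees by less than `d`. -/
def Deg (w : E) (d : ℕ) : Prop := ∀ j, w * F.β (0, j) ∈ F.V d

/-- Monic elements of degree `m`. -/
def Mon (f : E) (m : ℕ) : Prop := F.Deg (f - F.g ^ m) m

variable {F} {y w f f' : E} {m m' d N : ℕ}

theorem mem_V : y ∈ F.V m ↔ ∀ p : ℕ × ι, m ≤ p.1 → F.β.repr y p = 0 := by
  rw [V, Basis.mem_span_image]
  refine ⟨fun h p hp => ?_, fun h p hp => ?_⟩
  · by_contra h1
    exact absurd (h (Finsupp.mem_support_iff.2 h1)) (not_lt.2 hp)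
  · exact not_le.1 fun h1 => Finsupp.mem_support_iff.1 hp (h p h1)

theorem V_mono (h : m ≤ m') (hy : y ∈ F.V m) : y ∈ F.V m' :=
  mem_V.2 fun p hp => mem_V.1 hy p (h.trans hp)

theorem V_zero (hy : y ∈ F.V 0) : y = 0 :=
  F.β.repr.injective (Finsupp.ext fun p => by simpa using mem_V.1 hy p (Nat.zero_le _))

theorem exists_V (F : Fil S E ι) (y : E) : ∃ m, y ∈ F.V m :=
  ⟨(F.β.repr y).support.sup Prod.fst + 1, mem_V.2 fun p hp => by
    by_contra h
    have := Finset.le_sup (f := Prod.fst) (Finsupp.mem_support_iff.2 h)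
    omega⟩

theorem β_mem {i : ℕ} (j : ι) (h : i < m) : F.β (i, j) ∈ F.V m := subset_span ⟨_, h, rfl⟩

theorem repr_g_mul (y : E) (i : ℕ) (j : ι) :
    F.β.repr (F.g * y) (i + 1, j) = F.β.repr y (i, j) := by
  classical
  have : F.β.coord (i + 1, j) ∘ₗ LinearMap.mulLeft S F.g = F.β.coord (i, j) :=
    F.β.ext fun p => by simp [F.mul p.1 p.2, Finsupp.single_apply, Prod.ext_iff]
  exact LinearMap.congr_fun this y

theorem g_mul_mem : F.g * y ∈ F.V (m + 1) ↔ y ∈ F.V m := by
  refine ⟨fun h => mem_V.2 fun p hp => ?_, fun h => ?_⟩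
  · rw [← repr_g_mul y p.1 p.2]
    exact mem_V.1 h _ (Nat.succ_le_succ hp)
  · induction h using span_induction with
    | mem _ hy =>
      obtain ⟨q, hq, rfl⟩ := hy
      rw [F.mul q.1 q.2]
      exact β_mem _ (Nat.succ_lt_succ hq)
    | zero => simp
    | add _ _ _ _ h1 h2 => rw [mul_add]; exact add_mem h1 h2
    | smul _ _ _ h1 => rw [mul_smul_comm]; exact smul_mem _ _ h1

theorem pow_mul_mem (n : ℕ) : F.g ^ n * y ∈ F.V (m + n) ↔ y ∈ F.V m := by
  induction n with
  | zero => simp
  | succ n ih => rw [pow_succ', mul_assoc, ← add_assoc, g_mul_mem, ih]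

theorem β_eq (i : ℕ) (j : ι) : F.β (i, j) = F.g ^ i * F.β (0, j) := by
  induction i with
  | zero => simp
  | succ n ih => rw [pow_succ', mul_assoc, ← ih, F.mul]

theorem Deg.mul_mem (h : F.Deg w d) (hy : y ∈ F.V (N + 1)) : w * y ∈ F.V (N + d) := by
  induction hy using span_induction with
  | mem _ hy =>
    obtain ⟨q, hq, rfl⟩ := hy
    rw [β_eq q.1 q.2, mul_left_comm]
    exact V_mono (by have : q.1 < N + 1 := hq; omega) ((pow_mul_mem q.1).2 (h q.2))
  | zero => simp
  | add _ _ _ _ h1 h2 => rw [mul_add]; exact add_mem h1 h2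
  | smul _ _ _ h1 => rw [mul_smul_comm]; exact smul_mem _ _ h1

theorem deg_of_mem (hy : y ∈ F.V (N + 1)) : F.Deg y (N + F.c) := fun j => by
  rw [mul_comm]
  exact Deg.mul_mem (F.str j) hy

theorem Mon.mul_mem (h : F.Mon f m) (hy : y ∈ F.V N) : f * y ∈ F.V (N + m) := by
  have := add_mem ((pow_mul_mem m).2 hy) (Deg.mul_mem h (V_mono (Nat.le_succ N) hy))
  rwa [← add_mul, add_sub_cancel] at this

theorem Mon.mul (h : F.Mon f m) (h' : F.Mon f' m') : F.Mon (f * f') (m' + m) := fun j => by
  have := add_mem (h.mul_mem (h' j)) (V_mono (add_comm m m').le ((pow_mul_mem m').2 (h j)))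
  convert this using 1
  ring

theorem Mon.lin (s : S) : F.Mon (F.g - algebraMap S E s) 1 := fun j => by
  rw [pow_one, sub_sub_cancel_left, neg_mul, ← Algebra.smul_def]
  exact neg_mem (smul_mem _ _ (β_mem j Nat.one_pos))

theorem Mon.prod {κ : Type} (s : Finset κ) {f : κ → E} (h : ∀ i, F.Mon (f i) 1) :
    F.Mon (∏ i ∈ s, f i) s.card := by
  classical
  induction s using Finset.induction_on with
  | empty => intro j; simp
  | insert a s ha ih =>
    rw [Finset.prod_insert ha, Finset.card_insert_of_notMem ha]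
    exact (h a).mul ih

theorem Mon.aeval {p : S[X]} (hp : p.Monic) : F.Mon (Polynomial.aeval F.g p) p.natDegree :=
  fun j => by
    rw [Polynomial.aeval_eq_sum_range, Finset.sum_range_succ, hp.coeff_natDegree, one_smul,
      add_sub_cancel_right, Finset.sum_mul]
    refine sum_mem fun i hi => ?_
    rw [smul_mul_assoc, ← β_eq]
    exact smul_mem _ _ (β_mem j (Finset.mem_range.1 hi))

theorem Mon.affine (h : F.Mon f m) (h' : F.Mon f' m) (t : S) : F.Mon ((1 - t) • f + t • f') m :=
  fun j => by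
    have := add_mem (smul_mem _ (1 - t) (h j)) (smul_mem _ t (h' j))
    convert this using 1
    simp only [Algebra.smul_def, map_sub, map_one]
    ring

theorem Mon.div (h : F.Mon f m) (y : E) : ∃ q, y - f * q ∈ F.V m := by
  obtain ⟨N, hy⟩ := F.exists_V y
  induction N generalizing y with
  | zero => exact ⟨0, by simp [V_zero hy]⟩
  | succ N ih =>
    induction hy using span_induction with
    | mem _ hy =>
      obtain ⟨⟨i, j⟩, hq, rfl⟩ := hy
      by_cases hi : i < m
      · exact ⟨0, by simpa using β_mem j hi⟩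
      obtain ⟨l, rfl⟩ := Nat.exists_eq_add_of_le (not_lt.1 hi)
      obtain ⟨q, hq⟩ := ih _ (V_mono (Nat.le_of_lt_succ hq) ((pow_mul_mem l).2 (h j)))
      refine ⟨F.g ^ l * F.β (0, j) - q, ?_⟩
      convert neg_mem hq using 1
      rw [β_eq]
      ring
    | zero => exact ⟨0, by simp⟩
    | add _ _ _ _ h1 h2 =>
      obtain ⟨q, hq⟩ := h1
      obtain ⟨q', hq'⟩ := h2
      exact ⟨q + q', by convert add_mem hq hq' using 1; ring⟩
    | smul s _ _ h1 =>
      obtain ⟨q, hq⟩ := h1
      exact ⟨s • q, by convert smul_mem _ s hq using 1; rw [smul_sub, mul_smul_comm]⟩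

theorem Mon.cancel (h : F.Mon f m) (hy : f * y ∈ F.V (d + m)) : y ∈ F.V d := by
  obtain ⟨N, hN⟩ := F.exists_V y
  induction N with
  | zero => exact V_mono (Nat.zero_le _) hN
  | succ N ih =>
    by_cases hd : N + 1 ≤ d
    · exact V_mono hd hN
    refine ih ((pow_mul_mem m).1 ?_)
    convert sub_mem (V_mono (by omega) hy) (Deg.mul_mem h hN) using 1
    ring

theorem Mon.regular (h : F.Mon f m) (hy : f * y = 0) : y = 0 :=
  V_zero (h.cancel (by rw [hy]; exact zero_mem _))

theorem li_quot {K : Ideal E} (h : ∀ y ∈ F.V m, y ∈ K → y = 0) :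
    LinearIndependent S ((Ideal.Quotient.mkₐ S K).toLinearMap ∘
      F.β ∘ fun p : Fin m × ι => ((p.1 : ℕ), p.2)) :=
  LinearIndependent.map (F.β.linearIndependent.comp _ fun p q e => by
    simpa [Prod.ext_iff, Fin.ext_iff] using e) (disjoint_def.2 fun y h1 h2 =>
      h y (span_mono (by rintro _ ⟨p, rfl⟩; exact ⟨_, p.1.2, rfl⟩) h1)
        (Ideal.Quotient.eq_zero_iff_mem.1 h2))

/-- The basis of the quotient by a monic element. -/
noncomputable def Mon.basis (h : F.Mon f m) : Basis (Fin m × ι) S (E ⧸ Ideal.span {f}) :=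
  Basis.mk (li_quot (F := F) (m := m) (K := Ideal.span {f}) fun y h1 h2 => by
      obtain ⟨q, rfl⟩ := Ideal.mem_span_singleton.1 h2
      rw [V_zero (h.cancel (y := q) (by rwa [zero_add])), mul_zero])
    fun z _ => by
      obtain ⟨y, rfl⟩ := Ideal.Quotient.mk_surjective z
      obtain ⟨q, hq⟩ := h.div y
      have h1 := mem_map_of_mem (f := (Ideal.Quotient.mkₐ S (Ideal.span {f})).toLinearMap) hq
      rw [V, Submodule.map_span] at h1
      have h2 : Ideal.Quotient.mk (Ideal.span {f}) y =
          Ideal.Quotient.mk (Ideal.span {f}) (y - f * q) := by simp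
      rw [h2]
      refine span_mono ?_ h1
      rintro _ ⟨_, ⟨p, hp, rfl⟩, rfl⟩
      exact ⟨(⟨p.1, hp⟩, p.2), rfl⟩

theorem Mon.basis_apply (h : F.Mon f m) (p : Fin m × ι) :
    h.basis p = Ideal.Quotient.mk _ (F.β (p.1, p.2)) := Basis.mk_apply _ _ _

theorem Mon.finite [Finite ι] (h : F.Mon f m) : Module.Finite S (E ⧸ Ideal.span {f}) :=
  Module.Finite.of_basis h.basis

theorem Mon.tq_one [Fintype ι] (h : F.Mon f m) :
    tq S (Ideal.span {f}) 1 = (m * Fintype.card ι : ℕ) := by
  have := Algebra.trace_algebraMap_of_basis h.basis 1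
  simpa [tq] using this

/-- Division by an element that divides a monic polynomial. -/
theorem interp (hw : w ∈ F.V (N + 1)) {p : S[X]} (hp : p.Monic) (hd : w ∣ Polynomial.aeval F.g p)
    (y : E) : ∃ q, y - w * q ∈ F.V (N + F.c) := by
  obtain ⟨w', hw'⟩ := hd
  obtain ⟨q, hq⟩ := (Mon.aeval (F := F) hp).div (w' * y)
  refine ⟨q, (Mon.aeval hp).cancel ?_⟩
  have := (deg_of_mem hw).mul_mem (V_mono (Nat.le_succ _) hq)
  rw [add_comm] at this
  convert this using 1
  rw [hw']
  ring

section Base

variable {k A : Type} [Field k] [CommRing A] [Algebra k A] (F : Fil k A ι)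

/-- Base change. -/
noncomputable def bc (S : Type) [CommRing S] [Algebra k S] : Fil S (S ⊗[k] A) ι where
  β := Algebra.TensorProduct.basis S F.β
  g := 1 ⊗ₜ F.g
  c := F.c
  mul i j := by simp [F.mul]
  str j j' := by
    have := span_map (ξ := algebraMap k S) (b' := Algebra.TensorProduct.basis S F.β)
      { toFun := fun a => 1 ⊗ₜ[k] a
        map_add' := TensorProduct.tmul_add _
        map_smul' := fun s a => by simp } (by simp) (F.str j j')
    simpa using this

variable {F} {S S' : Type} [CommRing S] [Algebra k S] [CommRing S'] [Algebra k S']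

/-- Change of coefficients. -/
noncomputable abbrev cf (A : Type) [CommRing A] [Algebra k A] (ξ : S →ₐ[k] S') :
    S ⊗[k] A →ₐ[k] S' ⊗[k] A := Algebra.TensorProduct.map ξ (AlgHom.id k A)

theorem cf_smul (ξ : S →ₐ[k] S') (s : S) (y : S ⊗[k] A) : cf A ξ (s • y) = ξ s • cf A ξ y := by
  simp [Algebra.smul_def]

/-- Change of coefficients as a semilinear map. -/
noncomputable def cfl (A : Type) [CommRing A] [Algebra k A] (ξ : S →ₐ[k] S') :
    S ⊗[k] A →ₛₗ[(ξ : S →+* S')] S' ⊗[k] A :=
  ⟨⟨cf A ξ, map_add _⟩, cf_smul ξ⟩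

theorem cf_β (ξ : S →ₐ[k] S') (p : ℕ × ι) : cf A ξ ((F.bc S).β p) = (F.bc S').β p := by
  simp [bc]

theorem cf_mem (ξ : S →ₐ[k] S') {y : S ⊗[k] A} (hy : y ∈ (F.bc S).V m) :
    cf A ξ y ∈ (F.bc S').V m := span_map (cfl A ξ) (cf_β ξ) hy

theorem Mon.cf (ξ : S →ₐ[k] S') {f : S ⊗[k] A} (h : (F.bc S).Mon f m) :
    (F.bc S').Mon (cf A ξ f) m := fun j => by
  have := cf_mem ξ (h j)
  rw [map_mul, cf_β, map_sub, map_pow] at this
  simpa [bc] using this

theorem Mon.tq_cf [Finite ι] (ξ : S →ₐ[k] S') {f : S ⊗[k] A} (h : (F.bc S).Mon f m)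
    (y : S ⊗[k] A) :
    tq S' (Ideal.span {Fil.cf A ξ f}) (Fil.cf A ξ y) = ξ (tq S (Ideal.span {f}) y) := by
  classical
  have := Fintype.ofFinite ι
  let ψ := Ideal.quotientMap (I := Ideal.span {f}) (Ideal.span {Fil.cf A ξ f})
    (Fil.cf A ξ : S ⊗[k] A →+* S' ⊗[k] A) (by
      rw [← Ideal.map_le_iff_le_comap, Ideal.map_span]; simp)
  let ψ' : ((S ⊗[k] A) ⧸ Ideal.span {f}) →ₛₗ[(ξ : S →+* S')]
      (S' ⊗[k] A) ⧸ Ideal.span {Fil.cf A ξ f} := ⟨⟨ψ, map_add _⟩, fun s z => by
    obtain ⟨z, rfl⟩ := Ideal.Quotient.mk_surjective z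
    exact congrArg (Ideal.Quotient.mk _) (cf_smul ξ s z)⟩
  have hb : ∀ p, ψ' (h.basis p) = (h.cf ξ).basis p := fun p => by
    rw [basis_apply, basis_apply, ← cf_β ξ]; rfl
  simp only [tq, LinearMap.comp_apply]
  rw [Algebra.trace_eq_matrix_trace h.basis, Algebra.trace_eq_matrix_trace (h.cf ξ).basis,
    Matrix.trace, Matrix.trace, map_sum]
  refine Finset.sum_congr rfl fun p _ => ?_
  rw [Matrix.diag_apply, Matrix.diag_apply, Algebra.leftMulMatrix_eq_repr_mul,
    Algebra.leftMulMatrix_eq_repr_mul]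
  refine Eq.trans ?_ (repr_map h.basis (h.cf ξ).basis ψ' hb _ p)
  rw [← hb]
  exact congrArg (fun z => (h.cf ξ).basis.repr z p)
    (map_mul ψ (Ideal.Quotient.mk _ y) (h.basis p)).symm

theorem mem_of_cf (F : Fil k A ι) (ξ : S →ₐ[k] S') {y : S ⊗[k] A} (h : cf A ξ y = 0) :
    y ∈ RingHom.ker ξ • (⊤ : Submodule S (S ⊗[k] A)) := by
  rw [← (F.bc S).β.linearCombination_repr y, Finsupp.linearCombination_apply]
  refine sum_mem fun p _ => smul_mem_smul ?_ trivial
  have := repr_map _ _ (cfl A ξ) (cf_β (F := F) ξ) y p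
  rw [show cfl A ξ y = 0 from h] at this
  simpa using this.symm

end Base

end Fil

end Pool.Agent.Lib.MP_fc2ced_ag.Curve
end

-- part Pool.Agent.Lib.MP_fc2ced_ag.Et
section

/-!
A criterion for etale algebras, by a universal property.
-/

open Polynomial

namespace Pool.Agent.Lib.MP_fc2ced_ag

/-- If `T` is the universal `S`-algebra with a root `y` of `p` at which `g` is invertible, and the
derivative of `p` is invertible at `y`, then `T` is etale. -/
theorem etale_of_univ {S T : Type} [CommRing S] [CommRing T] [Algebra S T]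
    [Algebra.FinitePresentation S T] (p g : S[X]) (y : T) (hp : aeval y p = 0)
    (hg : IsUnit (aeval y g)) (hd : IsUnit (aeval y p.derivative))
    (ext : ∀ (C : Type) [CommRing C] [Algebra S C] (f f' : T →ₐ[S] C), f y = f' y → f = f')
    (lift : ∀ (C : Type) [CommRing C] [Algebra S C] (x : C), aeval x p = 0 → IsUnit (aeval x g) →
      ∃ f : T →ₐ[S] C, f y = x) : Algebra.Etale S T := by
  refine ⟨Algebra.FormallyEtale.iff_comp_bijective.mpr fun C _ _ I hI => ⟨fun f f' h => ?_,
    fun f => ?_⟩, inferInstance⟩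
  · have hε : f' y - f y ∈ I := Ideal.Quotient.eq.1 congr($h y).symm
    have h0 : aeval (f y) p = 0 := by rw [aeval_algHom_apply, hp, map_zero]
    have h1 : aeval (f y + (f' y - f y)) p = 0 := by
      rw [add_sub_cancel, aeval_algHom_apply, hp, map_zero]
    rw [aeval_add_of_sq_eq_zero _ _ _ (hI.le (Ideal.pow_mem_pow hε 2)), h0, zero_add,
      aeval_algHom_apply, (hd.map f).mul_right_eq_zero, sub_eq_zero] at h1
    exact ext C f f' h1.symm
  · obtain ⟨x, hx⟩ := Ideal.Quotient.mk_surjective (f y)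
    have key (q : S[X]) {z : C} (hz : Ideal.Quotient.mk I z = f y) :
        Ideal.Quotient.mk I (aeval z q) = f (aeval y q) := by
      rw [← Ideal.Quotient.mkₐ_eq_mk S, ← aeval_algHom_apply, Ideal.Quotient.mkₐ_eq_mk, hz,
        aeval_algHom_apply]
    have un (q : S[X]) (hq : IsUnit (aeval y q)) {z : C} (hz : Ideal.Quotient.mk I z = f y) :
        IsUnit (aeval z q) := by
      rw [← IsNilpotent.isUnit_quotient_mk_iff (I := I) ⟨2, hI⟩, key q hz]; exact hq.map f
    have h0 : aeval x p ∈ I := Ideal.Quotient.eq_zero_iff_mem.1 (by rw [key p hx, hp, map_zero])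
    obtain ⟨b, hb⟩ := (un _ hd hx).exists_right_inv
    have hε : aeval x p * -b ∈ I := I.mul_mem_right _ h0
    have hz : Ideal.Quotient.mk I (x + aeval x p * -b) = f y := by
      rw [map_add, Ideal.Quotient.eq_zero_iff_mem.2 hε, add_zero, hx]
    obtain ⟨f', hf'⟩ := lift C (x + aeval x p * -b) (by
      rw [aeval_add_of_sq_eq_zero _ _ _ (hI.le (Ideal.pow_mem_pow hε 2))]
      linear_combination (-aeval x p) * hb) (un g hg hz)
    exact ⟨f', ext _ _ _ (by simpa [hf'] using hz)⟩

theorem etale_adjoinRoot {S : Type} [CommRing S] (p : S[X])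
    (hd : IsUnit (aeval (AdjoinRoot.root p) p.derivative)) : Algebra.Etale S (AdjoinRoot p) :=
  etale_of_univ p 1 (AdjoinRoot.root p) (by simp) (by simp) hd
    (fun _ _ _ _ _ h => AdjoinRoot.algHom_ext h)
    fun C _ _ x hx _ => ⟨AdjoinRoot.liftAlgHom p (Algebra.ofId S C) x hx, by simp⟩

/-- Kummer covers. -/
theorem etale_kummer {S : Type} [CommRing S] {n : ℕ} (hn : IsUnit (n : S)) {c : S}
    (hc : IsUnit c) : Algebra.Etale S (AdjoinRoot (X ^ n - C c)) := by
  refine etale_adjoinRoot _ ?_
  have h : AdjoinRoot.root (X ^ n - C c) ^ n = algebraMap S _ c := by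
    have := AdjoinRoot.eval₂_root (X ^ n - C c)
    simpa [sub_eq_zero] using this
  rcases n with _ | n
  · have : Subsingleton S := subsingleton_of_zero_eq_one (isUnit_zero_iff.1 (by simpa using hn))
    have := (algebraMap S (AdjoinRoot (X ^ 0 - C c))).codomain_trivial
    exact isUnit_of_subsingleton _
  · have h1 : IsUnit (AdjoinRoot.root (X ^ (n + 1) - C c)) :=
      (isUnit_pow_iff n.succ_ne_zero).1 (h ▸ hc.map _)
    have h2 := hn.map (algebraMap S (AdjoinRoot (X ^ (n + 1) - C c)))
    simpa using (by simpa using h2 : IsUnit ((n : AdjoinRoot (X ^ (n + 1) - C c)) + 1)).mul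
      (h1.pow n)

end Pool.Agent.Lib.MP_fc2ced_ag
end

-- part Pool.Agent.Lib.MP_fc2ced_ag.PurityB
section

/-!
Etale coordinates adapted to a prime ideal.
-/

open scoped TensorProduct Polynomial

namespace Pool.Agent.Lib.MP_fc2ced_ag

namespace Pu

theorem etale_quot {R B B₀ : Type} [CommRing R] [CommRing B] [CommRing B₀] (θ : R[X] →+* B)
    (hθ : θ.Etale) (π : B →+* B₀) (hπ : Function.Surjective π)
    (hk : ∀ b, π b = 0 ↔ θ Polynomial.X ∣ b) : (π.comp (θ.comp Polynomial.C)).Etale := by
  algebraize [θ]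
  let I : Ideal R[X] := Ideal.span {Polynomial.X}
  have h1 : Algebra.Etale (R[X] ⧸ I) (B ⧸ I.map (algebraMap R[X] B)) :=
    .of_equiv (A := (R[X] ⧸ I) ⊗[R[X]] B)
      (Algebra.TensorProduct.quotIdealMapEquivQuotTensor B I).symm
  have hI : I.map (algebraMap R[X] B) = RingHom.ker π := by
    rw [Ideal.map_span, Set.image_singleton]
    exact Ideal.ext fun b => Ideal.mem_span_singleton.trans (hk b).symm
  have h2 : Function.Bijective ((Ideal.Quotient.mk I).comp Polynomial.C) := by
    refine ⟨(injective_iff_map_eq_zero _).2 fun r hr => ?_, fun z => ?_⟩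
    · simpa using Polynomial.X_dvd_iff.1
        (Ideal.mem_span_singleton.1 (Ideal.Quotient.eq_zero_iff_mem.1 hr))
    · obtain ⟨p, rfl⟩ := Ideal.Quotient.mk_surjective z
      exact ⟨p.coeff 0, Ideal.Quotient.eq.2
        (Ideal.mem_span_singleton.2 (Polynomial.X_dvd_iff.2 (by simp)))⟩
  have h3 := RingHom.Etale.stableUnderComposition _ _
    (RingHom.Etale.stableUnderComposition _ _ (.of_bijective h2) (RingHom.etale_algebraMap.2 h1))
    (RingHom.Etale.of_bijective (f := ((Ideal.quotEquivOfEq hI).trans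
      (RingHom.quotientKerEquivOfSurjective hπ)).toRingHom) (RingEquiv.bijective _))
  exact h3

attribute [local instance] Polynomial.algebra in
theorem etale_poly {R S : Type} [CommRing R] [CommRing S] (f : R →+* S) (hf : f.Etale) :
    (Polynomial.mapRingHom f).Etale := by
  let _ := f.toAlgebra
  exact RingHom.Etale.isStableUnderBaseChange R S R[X] S[X] hf

variable {k : Type} [Field k]

theorem etale_coord {R W T : Type} [CommRing R] [IsNoetherianRing R] [Algebra k R] [CommRing W]
    [Algebra k W] [CommRing T] [Algebra k T] [Algebra W T] [IsScalarTower k W T]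
    [Algebra.FiniteType k T] (e : R[X] ≃ₐ[k] W) (p : R[X])
    [IsLocalization.Away (e p.derivative) T] :
    ∃ θ : R[X] →ₐ[k] T, θ.toRingHom.Etale ∧ θ Polynomial.X = algebraMap W T (e p) := by
  let ι : R[X] →ₐ[k] T := (IsScalarTower.toAlgHom k W T).comp e.toAlgHom
  let θ : R[X] →ₐ[k] T := ι.comp ((Polynomial.aeval p : R[X] →ₐ[R] R[X]).restrictScalars k)
  have θX : θ Polynomial.X = ι p := by simp [θ]
  have θC : ∀ r, θ (Polynomial.C r) = ι (Polynomial.C r) := fun r => by simp [θ]
  refine ⟨θ, ?_, θX⟩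
  let _ := θ.toRingHom.toAlgebra
  have : IsScalarTower k R[X] T := .of_algHom θ
  have : Algebra.FiniteType R[X] T := .of_restrictScalars_finiteType k _ _
  have : Algebra.FinitePresentation R[X] T := Algebra.FinitePresentation.of_finiteType.1 this
  have ev : ∀ (C : Type) [CommRing C] [Algebra R[X] C] (x : C) (q : R[X]),
      Polynomial.aeval x (q.map Polynomial.C) =
        Polynomial.eval₂RingHom ((algebraMap R[X] C).comp Polynomial.C) x q := fun C _ _ x q => by
    rw [Polynomial.aeval_def, Polynomial.eval₂_map, Polynomial.coe_eval₂RingHom]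
  have key : ∀ q : R[X], Polynomial.aeval (ι Polynomial.X) (q.map Polynomial.C) = ι q := fun q => by
    rw [ev]
    refine congr($(Polynomial.ringHom_ext (g := ι.toRingHom) (fun r => ?_) ?_) q)
    · rw [Polynomial.coe_eval₂RingHom, Polynomial.eval₂_C]
      exact θC r
    · rw [Polynomial.coe_eval₂RingHom, Polynomial.eval₂_X]
      rfl
  have hu : IsUnit (ι p.derivative) := IsLocalization.Away.algebraMap_isUnit (e p.derivative)
  refine etale_of_univ (p.map Polynomial.C - Polynomial.C Polynomial.X)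
    (p.derivative.map Polynomial.C) (ι Polynomial.X) ?_ (by rwa [key]) ?_ ?_ ?_
  · rw [map_sub, key, Polynomial.aeval_C, ← θX]
    exact sub_self _
  · rwa [map_sub, Polynomial.derivative_C, sub_zero, Polynomial.derivative_map, key]
  · intro C _ _ f f' h
    have h1 : f.toRingHom.comp ι.toRingHom = f'.toRingHom.comp ι.toRingHom :=
      Polynomial.ringHom_ext (fun r => by
        change f (ι _) = f' (ι _)
        rw [← θC]
        exact (f.commutes _).trans (f'.commutes _).symm) h
    refine AlgHom.coe_ringHom_injective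
      (IsLocalization.ringHom_ext (Submonoid.powers (e p.derivative)) (RingHom.ext fun w => ?_))
    obtain ⟨q, rfl⟩ := e.surjective w
    exact congr($h1 q)
  · intro C _ _ x hx hg
    rw [map_sub, ev, Polynomial.aeval_C, sub_eq_zero] at hx
    rw [ev] at hg
    set φ := Polynomial.eval₂RingHom ((algebraMap R[X] C).comp Polynomial.C) x with hφ
    let f : T →+* C := IsLocalization.Away.lift (g := φ.comp e.symm.toRingEquiv.toRingHom)
      (e p.derivative) (by simpa using hg)
    have hf : ∀ q, f (ι q) = φ q := fun q => (IsLocalization.Away.lift_eq _ _ _).trans (by simp)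
    have hc : f.comp θ.toRingHom = algebraMap R[X] C := Polynomial.ringHom_ext
      (fun r => (congrArg f (θC r)).trans ((hf _).trans (by simp [hφ])))
      ((congrArg f θX).trans ((hf _).trans hx))
    exact ⟨⟨f, fun q => congr($hc q)⟩, (hf _).trans (by simp [hφ])⟩

open MvPolynomial in
theorem exists_pderiv [CharZero k] {σ : Type} (I : Ideal (MvPolynomial σ k)) (h1 : I ≠ ⊤)
    (h : ∀ p ∈ I, ∀ i, pderiv i p ∈ I) : I = ⊥ := by
  have hC : ∀ p ∈ I, (∀ m, m ≠ 0 → coeff m p = 0) → p = 0 := fun p hp hm => by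
    have e : p = C (coeff 0 p) := by
      classical
      ext m
      rw [coeff_C]
      split_ifs with h0
      · rw [h0]
      · exact hm m (Ne.symm h0)
    by_contra h0
    refine h1 (I.eq_top_of_isUnit_mem hp ?_)
    rw [e] at h0 ⊢
    exact (IsUnit.mk0 _ fun h2 => h0 (by rw [h2, map_zero])).map C
  have key : ∀ n, ∀ p ∈ I, (∀ m, coeff m p ≠ 0 → m.degree ≤ n) → p = 0 := fun n => by
    induction n with
    | zero =>
      refine fun p hp hm => hC p hp fun m h0 => ?_
      by_contra h2
      exact h0 ((Finsupp.degree_eq_zero_iff m).1 (Nat.le_zero.1 (hm m h2)))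
    | succ n ih =>
      refine fun p hp hm => hC p hp fun m h0 => ?_
      obtain ⟨i, hi⟩ := Finsupp.ne_iff.1 h0
      have h2 := ih _ (h p hp i) fun m hm' => by
        rw [coeff_pderiv] at hm'
        simpa using hm _ (left_ne_zero_of_mul hm')
      have h3 := coeff_pderiv (i := i) p (m - Finsupp.single i 1)
      rw [h2, coeff_zero, tsub_add_cancel_of_le
        (Finsupp.single_le_iff.2 (Nat.one_le_iff_ne_zero.2 hi))] at h3
      exact (mul_eq_zero.1 h3.symm).resolve_right (Nat.cast_add_one_ne_zero _)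
  refine (Submodule.eq_bot_iff I).2 fun p hp => key p.totalDegree p hp fun m hm => ?_
  exact le_totalDegree (mem_support_iff.2 hm)

open MvPolynomial in
theorem exists_coord [CharZero k] {Ω : Type} [Field Ω] {d : ℕ}
    (φ : MvPolynomial (Fin (d + 1)) k →+* Ω) (h : ¬ Function.Injective φ) :
    ∃ (e : (MvPolynomial (Fin d) k)[X] ≃ₐ[k] MvPolynomial (Fin (d + 1)) k)
      (p : (MvPolynomial (Fin d) k)[X]), φ (e p) = 0 ∧ φ (e p.derivative) ≠ 0 := by
  have h1 := mt (exists_pderiv (RingHom.ker φ) (RingHom.ker_ne_top φ))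
    (mt (RingHom.injective_iff_ker_eq_bot φ).2 h)
  push Not at h1
  obtain ⟨p, hp, i, hi⟩ := h1
  let e := (renameEquiv k (_root_.finSuccEquiv' i)).trans (optionEquivLeft k (Fin d))
  have key : ∀ q, (e q).derivative = e (pderiv i q) := fun q => by
    induction q using MvPolynomial.induction_on with
    | C a => simp [e]
    | add p q hp hq => simp only [map_add, hp, hq]
    | mul_X p j hp =>
      rw [map_mul, Polynomial.derivative_mul, hp, pderiv_mul, map_add, map_mul, map_mul]
      rcases Fin.eq_self_or_eq_succAbove i j with rfl | ⟨j, rfl⟩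
      · simp [e]
      · simp [e, pderiv_X_of_ne (Fin.succAbove_ne i j)]
  refine ⟨e.symm, e p, ?_, ?_⟩
  · rwa [AlgEquiv.symm_apply_apply]
  · rwa [key, AlgEquiv.symm_apply_apply]

end Pu

end Pool.Agent.Lib.MP_fc2ced_ag
end

-- part Pool.Agent.Lib.MP_fc2ced_ag.Acl
section

/-!
Relative algebraic closures of simple extensions, and spreading out over an etale curve.
-/

open scoped Polynomial IntermediateField

namespace Pool.Agent.Lib.MP_fc2ced_ag

variable (k : Type) [Field k] {Ω : Type} [Field Ω] [Algebra k Ω]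

/-- The elements algebraic over `k(a)`. -/
noncomputable def acl (a : Ω) : IntermediateField k Ω :=
  (algebraicClosure k⟮a⟯ Ω).restrictScalars k

variable {k}

theorem mem_acl {a x : Ω} : x ∈ acl k a ↔ IsAlgebraic k⟮a⟯ x := mem_algebraicClosure_iff

theorem self_mem_acl (a : Ω) : a ∈ acl k a :=
  mem_acl.2 (isAlgebraic_algebraMap (⟨a, IntermediateField.mem_adjoin_simple_self k a⟩ : k⟮a⟯))

theorem mem_acl_of_isAlgebraic {a x : Ω} (h : IsAlgebraic (acl k a) x) : x ∈ acl k a := by
  have h' : IsIntegral (algebraicClosure k⟮a⟯ Ω) x := h.isIntegral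
  exact mem_acl.2 (isIntegral_trans x h').isAlgebraic

theorem acl_le {a b : Ω} (h : a ∈ acl k b) : acl k a ≤ acl k b := fun x hx => by
  have hle : k⟮a⟯ ≤ acl k b := IntermediateField.adjoin_simple_le_iff.2 h
  exact mem_acl_of_isAlgebraic ((mem_acl.1 hx).isIntegral.map_of_comp_eq
    (IntermediateField.inclusion hle).toRingHom (RingHom.id Ω) (by ext; rfl)).isAlgebraic

instance isAlgClosed_acl [IsAlgClosed Ω] (a : Ω) : IsAlgClosed (acl k a) :=
  (algebraicClosure.isAlgClosure k⟮a⟯ Ω).isAlgClosed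

variable (k) in
/-- A connected finite etale cover of an open subset of the punctured line. -/
structure Cov where
  g : k[X]
  dvd : Polynomial.X ∣ g
  Λ : Type
  [ring : CommRing Λ]
  [dom : IsDomain Λ]
  [alg : Algebra k Λ]
  [algP : Algebra (Localization.Away g) Λ]
  [tower : IsScalarTower k (Localization.Away g) Λ]
  [free : Module.Free (Localization.Away g) Λ]
  [fin : Module.Finite (Localization.Away g) Λ]
  [etale : Algebra.Etale (Localization.Away g) Λ]

attribute [instance] Cov.ring Cov.dom Cov.alg Cov.algP Cov.tower Cov.free Cov.fin Cov.etale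

/-- The coordinate of the line. -/
noncomputable def Cov.u (c : Cov k) : c.Λ :=
  algebraMap (Localization.Away c.g) c.Λ (algebraMap k[X] _ Polynomial.X)

open Polynomial in
theorem exists_denom {u : Ω} (hu : Transcendental k u) (C : Finset k⟮u⟯) :
    ∃ g : k[X], g ≠ 0 ∧ X ∣ g ∧ ∀ c ∈ C, ∃ r : k[X], (c : Ω) * aeval u g = aeval u r := by
  classical
  induction C using Finset.induction_on with
  | empty => exact ⟨X, X_ne_zero, dvd_rfl, by simp⟩
  | insert c C _ ih =>
    obtain ⟨g, h0, h1, h2⟩ := ih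
    obtain ⟨r, s, hc⟩ := (IntermediateField.mem_adjoin_simple_iff k (c : Ω)).1 c.2
    by_cases hs : s = 0
    · refine ⟨g, h0, h1, fun d hd => ?_⟩
      rcases Finset.mem_insert.1 hd with rfl | hd
      · exact ⟨0, by simp [hc, hs]⟩
      · exact h2 d hd
    · have hs' : aeval u s ≠ 0 := fun h => hs (transcendental_iff.1 hu s h)
      refine ⟨g * s, mul_ne_zero h0 hs, h1.mul_right s, fun d hd => ?_⟩
      rcases Finset.mem_insert.1 hd with rfl | hd
      · exact ⟨g * r, by rw [hc, map_mul, map_mul]; field_simp⟩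
      · obtain ⟨r', hr⟩ := h2 d hd
        exact ⟨r' * s, by rw [map_mul, map_mul, ← mul_assoc, hr]⟩

open Polynomial in
theorem exists_spread {u : Ω} (hu : Transcendental k u) (T : Finset k⟮u⟯[X]) :
    ∃ (g : k[X]) (j : Localization.Away g →ₐ[k] k⟮u⟯), X ∣ g ∧ Function.Injective j ∧
      (j (algebraMap k[X] _ X) : Ω) = u ∧ ∀ p ∈ T, p ∈ lifts (j : Localization.Away g →+* k⟮u⟯) := by
  classical
  obtain ⟨g, h0, h1, h2⟩ := exists_denom hu (T.biUnion coeffs)
  have e : ∀ r : k[X], ((aeval (IntermediateField.AdjoinSimple.gen k u) r : k⟮u⟯) : Ω) =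
      aeval u r := fun r => (aeval_algHom_apply k⟮u⟯.val _ r).symm
  have ne : ∀ r : k[X], aeval (IntermediateField.AdjoinSimple.gen k u) r = 0 → r = 0 :=
    fun r hr => transcendental_iff.1 hu r (by rw [← e, hr]; rfl)
  have hg : IsUnit (aeval (IntermediateField.AdjoinSimple.gen k u) g) :=
    Ne.isUnit fun h => h0 (ne g h)
  let j : Localization.Away g →ₐ[k] k⟮u⟯ := IsLocalization.Away.liftAlgHom g hg
  have hj : ∀ r : k[X], j (algebraMap k[X] _ r) =
      aeval (IntermediateField.AdjoinSimple.gen k u) r := fun r => by simp [j]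
  refine ⟨g, j, h1, (injective_iff_map_eq_zero j).2 fun y hy => ?_, by rw [hj, e, aeval_X],
    fun p hp => (lifts_iff_coeff_lifts p).2 fun n => ?_⟩
  · obtain ⟨N, r, hr⟩ := IsLocalization.Away.surj g y
    have := congrArg j hr
    rw [map_mul, hy, zero_mul, hj] at this
    rw [ne r this.symm, map_zero] at hr
    exact ((IsLocalization.Away.algebraMap_isUnit g).pow N).mul_left_eq_zero.1 hr
  · by_cases hc : p.coeff n = 0
    · exact ⟨0, by rw [hc, map_zero]⟩
    · obtain ⟨r, hr⟩ := h2 _ (Finset.mem_biUnion.2 ⟨p, hp, coeff_mem_coeffs hc⟩)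
      refine ⟨algebraMap k[X] _ r * IsLocalization.Away.invSelf g, hg.mul_right_cancel ?_⟩
      rw [RingHom.coe_coe, ← hj, ← map_mul, mul_assoc, mul_comm (IsLocalization.Away.invSelf g),
        IsLocalization.Away.mul_invSelf, mul_one, hj, hj]
      exact Subtype.ext (by rw [e, ← hr, ← e]; rfl)

open Polynomial in
/-- Finitely many elements algebraic over `k(u)` are functions on a cover. -/
theorem exists_cov [CharZero k] {u : Ω} (hu : Transcendental k u) {S : Set Ω} (hS : S.Finite)
    (h : ∀ x ∈ S, x ∈ acl k u) : ∃ (c : Cov k) (ι : c.Λ →ₐ[k] Ω), Function.Injective ι ∧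
      ι c.u = u ∧ ∀ x ∈ S, x ∈ ι.range := by
  classical
  have := hS.to_subtype
  have : CharZero k⟮u⟯ := algebraRat.charZero _
  let E := IntermediateField.adjoin k⟮u⟯ S
  have : FiniteDimensional k⟮u⟯ E :=
    IntermediateField.finiteDimensional_adjoin fun x hx => (mem_acl.1 (h x hx)).isIntegral
  obtain ⟨α, hα⟩ := Field.exists_primitive_element k⟮u⟯ E
  have hi : IsIntegral k⟮u⟯ (α : Ω) := (Algebra.IsIntegral.isIntegral α).map E.val
  have hr : ∀ x : S, ∃ r : k⟮u⟯[X], aeval (α : Ω) r = x := fun x => by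
    have h1 : (⟨x, IntermediateField.subset_adjoin _ _ x.2⟩ : E) ∈ k⟮u⟯⟮α⟯.toSubalgebra := by
      rw [hα]; trivial
    rw [IntermediateField.adjoin_simple_toSubalgebra_of_isAlgebraic (IsAlgebraic.of_finite _ α),
      Algebra.adjoin_singleton_eq_range_aeval] at h1
    obtain ⟨r, hr⟩ := h1
    exact ⟨r, (aeval_algHom_apply E.val α r).trans (congrArg Subtype.val hr)⟩
  choose r hr using hr
  have := Fintype.ofFinite S
  obtain ⟨a, b, hab⟩ := (minpoly.irreducible hi).separable
  obtain ⟨g, j, h1, h2, h3, h4⟩ := exists_spread hu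
    ({minpoly k⟮u⟯ (α : Ω), a, b} ∪ Finset.univ.image r)
  obtain ⟨p, hp, -, hm⟩ := lifts_and_degree_eq_and_monic (h4 (minpoly k⟮u⟯ (α : Ω)) (by simp))
    (minpoly.monic hi)
  obtain ⟨a', ha⟩ := h4 a (by simp)
  obtain ⟨b', hb⟩ := h4 b (by simp)
  rw [coe_mapRingHom] at ha hb
  have ev : ∀ q : (Localization.Away g)[X], q.eval₂ (k⟮u⟯.val.comp j) (α : Ω) =
      aeval (α : Ω) (q.map (j : Localization.Away g →+* k⟮u⟯)) := fun q => by
    rw [aeval_def, eval₂_map]; rfl
  let ι : AdjoinRoot p →ₐ[k] Ω := AdjoinRoot.liftAlgHom p (k⟮u⟯.val.comp j) α (by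
    rw [ev, hp, minpoly.aeval])
  have hι : Function.Injective ι := (injective_iff_map_eq_zero ι).2 fun y hy => by
    obtain ⟨q, rfl⟩ := AdjoinRoot.mk_surjective y
    rw [AdjoinRoot.liftAlgHom_mk, ev] at hy
    have := minpoly.dvd _ _ hy
    rw [← hp, map_dvd_map (j : Localization.Away g →+* k⟮u⟯) h2 hm] at this
    exact AdjoinRoot.mk_eq_zero.2 this
  have := hι.isDomain ι.toRingHom
  have := hm.free_adjoinRoot
  have := hm.finite_adjoinRoot
  have := etale_adjoinRoot p (by
    have e : a' * p + b' * derivative p = 1 :=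
      map_injective (j : Localization.Away g →+* k⟮u⟯) h2 (by
        rw [Polynomial.map_add, Polynomial.map_mul, Polynomial.map_mul, ← derivative_map, ha, hb,
          hp, hab, Polynomial.map_one])
    have := congrArg (aeval (AdjoinRoot.root p)) e
    rw [map_add, map_mul, map_mul, AdjoinRoot.aeval_eq p, AdjoinRoot.mk_self, mul_zero, zero_add,
      map_one] at this
    exact .of_mul_eq_one_right _ this)
  refine ⟨⟨g, h1, AdjoinRoot p⟩, ι, hι, (AdjoinRoot.liftAlgHom_of ..).trans h3, fun x hx => ?_⟩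
  obtain ⟨q, hq⟩ := h4 (r ⟨x, hx⟩) (by simp)
  rw [coe_mapRingHom] at hq
  exact ⟨AdjoinRoot.mk p q, (AdjoinRoot.liftAlgHom_mk ..).trans (by rw [ev, hq, hr])⟩

/-- All functions on a cover take values algebraic over the coordinate. -/
theorem Cov.mem_acl (c : Cov k) (ρ : c.Λ →ₐ[k] Ω) (x : c.Λ) : ρ x ∈ acl k (ρ c.u) := by
  let ψ := ρ.comp (IsScalarTower.toAlgHom k (Localization.Away c.g) c.Λ)
  have h1 : ∀ r : k[X], ψ (algebraMap k[X] _ r) ∈ acl k (ρ c.u) := fun r => by
    have : ψ.comp (IsScalarTower.toAlgHom k k[X] _) = Polynomial.aeval (ρ c.u) :=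
      Polynomial.algHom_ext (by rw [Polynomial.aeval_X]; rfl)
    have e : ψ (algebraMap k[X] _ r) = Polynomial.aeval (ρ c.u) r := congr($this r)
    rw [e]
    exact IntermediateField.aeval_coe (acl k (ρ c.u)) ⟨_, self_mem_acl _⟩ r ▸ SetLike.coe_mem _
  have h2 : ∀ y, ψ y ∈ acl k (ρ c.u) := fun y => by
    obtain ⟨N, r, hr⟩ := IsLocalization.Away.surj c.g y
    have := congrArg ψ hr
    rw [map_mul, map_pow, ← eq_div_iff (pow_ne_zero _
      ((IsLocalization.Away.algebraMap_isUnit c.g).map ψ).ne_zero)] at this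
    rw [this]
    exact div_mem (h1 _) (pow_mem (h1 _) _)
  exact mem_acl_of_isAlgebraic ((Algebra.IsIntegral.isIntegral (R := Localization.Away c.g)
    x).map_of_comp_eq (ψ.toRingHom.codRestrict (acl k (ρ c.u)) h2) ρ.toRingHom
      (by ext y : 1; rfl)).isAlgebraic

theorem exists_algHom_field (F B K : Type) [Field F] [CommRing B] [Nontrivial B] [Algebra F B]
    [Algebra.FiniteType F B] [Field K] [IsAlgClosed K] [Algebra F K] : Nonempty (B →ₐ[F] K) := by
  obtain ⟨m, hm⟩ := Ideal.exists_maximal B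
  let := Ideal.Quotient.field m
  have := finite_of_finite_type_of_isJacobsonRing F (B ⧸ m)
  exact ⟨(IsAlgClosed.lift : _ →ₐ[F] K).comp (Ideal.Quotient.mkₐ F m)⟩

/-- A point of a finite type algebra over a dominated domain. -/
theorem exists_algHom_of_finiteType {P A K : Type} [CommRing P] [IsDomain P] [CommRing A]
    [Algebra P A] [Algebra.FiniteType P A] (h : Function.Injective (algebraMap P A)) [Field K]
    [IsAlgClosed K] [Algebra P K] (hK : Function.Injective (algebraMap P K)) :
    Nonempty (A →ₐ[P] K) := by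
  have := (faithfulSMul_iff_algebraMap_injective P K).2 hK
  let := FractionRing.liftAlgebra P K
  have := FractionRing.isScalarTower_liftAlgebra P K
  have : Module.Flat P (FractionRing P) := IsLocalization.flat _ (nonZeroDivisors P)
  have : Nontrivial (TensorProduct P (FractionRing P) A) :=
    (Algebra.TensorProduct.includeLeft_injective (S := P) h).nontrivial
  obtain ⟨f⟩ := exists_algHom_field (FractionRing P) (TensorProduct P (FractionRing P) A) K
  exact ⟨(f.restrictScalars P).comp Algebra.TensorProduct.includeRight⟩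

section height

open MvPolynomial

variable {K : Type} [Field K]

/-- Kill the variables with index `< j`. -/
noncomputable def killVars (n j : ℕ) : MvPolynomial (Fin n) K →ₐ[K] MvPolynomial (Fin n) K :=
  aeval fun i => if (i : ℕ) < j then 0 else X i

theorem killVars_comp (n j : ℕ) (p : MvPolynomial (Fin n) K) :
    killVars n (j + 1) (killVars n j p) = killVars n (j + 1) p := by
  have : (killVars (K := K) n (j + 1)).comp (killVars n j) = killVars n (j + 1) := by
    ext i : 1
    by_cases h : (i : ℕ) < j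
    · have h' : (i : ℕ) < j + 1 := by omega
      simp only [killVars, AlgHom.comp_apply, aeval_X, if_pos h, if_pos h', map_zero]
    · simp [killVars, h]
  exact congrArg (fun φ : MvPolynomial (Fin n) K →ₐ[K] MvPolynomial (Fin n) K => φ p) this

theorem height_kill (n j : ℕ) (hj : j ≤ n) :
    (j : ℕ∞) ≤ (RingHom.ker (killVars (K := K) n j)).height := by
  induction j with
  | zero => simp
  | succ j ih =>
    have : (RingHom.ker (killVars (K := K) n j)).IsPrime := RingHom.ker_isPrime _
    have : (RingHom.ker (killVars (K := K) n (j + 1))).IsPrime := RingHom.ker_isPrime _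
    have hlt : RingHom.ker (killVars (K := K) n j) < RingHom.ker (killVars (K := K) n (j + 1)) := by
      refine SetLike.lt_iff_le_and_exists.mpr ⟨?_, X ⟨j, by omega⟩, ?_, ?_⟩
      · intro p hp
        rw [RingHom.mem_ker] at hp ⊢
        rw [← killVars_comp]
        have hp' : killVars n j p = 0 := hp
        rw [hp', map_zero]
      · rw [RingHom.mem_ker]; simp [killVars]
      · rw [RingHom.mem_ker]; simp [killVars]
    have := Ideal.height_add_one_le_of_lt_of_isPrime hlt
    calc ((j + 1 : ℕ) : ℕ∞) = (j : ℕ∞) + 1 := by push_cast; rfl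
      _ ≤ _ := by gcongr; exact ih (by omega)
      _ ≤ _ := this

theorem ker_kill_top (n : ℕ) :
    RingHom.ker (killVars (K := K) n n) = vanishingIdeal K {(0 : Fin n → K)} := by
  ext p
  rw [RingHom.mem_ker, mem_vanishingIdeal_singleton_iff]
  have : killVars (K := K) n n = (Algebra.ofId K _).comp (aeval (0 : Fin n → K)) := by
    ext i : 1
    simp [killVars]
  have h2 : killVars (K := K) n n p = C (aeval (0 : Fin n → K) p) := by
    rw [this]; rfl
  constructor
  · intro h
    have h' : killVars (K := K) n n p = 0 := h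
    rw [h2] at h'
    exact C_eq_zero.mp h'
  · intro h
    show killVars (K := K) n n p = 0
    rw [h2, h, map_zero]

theorem exists_common_zero_finset [IsAlgClosed K] {n : ℕ} (s : Finset (MvPolynomial (Fin n) K))
    (hs : s.card < n) (h0 : ∀ p ∈ s, eval (0 : Fin n → K) p = 0) :
    ∃ ζ : Fin n → K, ζ ≠ 0 ∧ ∀ p ∈ s, eval ζ p = 0 := by
  by_contra hcon
  push Not at hcon
  have hz : zeroLocus K (Ideal.span (s : Set (MvPolynomial (Fin n) K))) = {0} := by
    rw [zeroLocus_span]
    ext ζ
    simp only [Set.mem_ofPred_eq, Set.mem_singleton_iff, Finset.mem_coe]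
    constructor
    · intro h
      by_contra hne
      obtain ⟨p, hp, hp'⟩ := hcon ζ hne
      exact hp' (by simpa [aeval_eq_eval] using h p hp)
    · rintro rfl p hp
      simpa [aeval_eq_eval] using h0 p hp
  have hrad := vanishingIdeal_zeroLocus_eq_radical (K := K)
    (Ideal.span (s : Set (MvPolynomial (Fin n) K)))
  rw [hz] at hrad
  have hmin : vanishingIdeal K {(0 : Fin n → K)} ∈
      (Ideal.span (s : Set (MvPolynomial (Fin n) K))).minimalPrimes := by
    rw [← Ideal.radical_minimalPrimes, ← hrad, Ideal.minimalPrimes_eq_subsingleton_self]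
    rfl
  have h1 := Ideal.height_le_card_of_mem_minimalPrimes_span_finset hmin
  have h2 := height_kill (K := K) n n le_rfl
  rw [ker_kill_top] at h2
  have h3 : (n : ℕ∞) ≤ s.card := h2.trans h1
  have h4 : n ≤ s.card := by exact_mod_cast h3
  omega

end height

/-- Fewer forms than variables have a nontrivial common zero. -/
theorem exists_common_zero {K : Type} [Field K] [IsAlgClosed K] {n m : ℕ}
    (P : Fin m → MvPolynomial (Fin n) K) (hs : m < n)
    (h0 : ∀ j, MvPolynomial.eval (0 : Fin n → K) (P j) = 0) :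
    ∃ ζ : Fin n → K, ζ ≠ 0 ∧ ∀ j, MvPolynomial.eval ζ (P j) = 0 := by
  classical
  obtain ⟨ζ, h1, h2⟩ := exists_common_zero_finset (Finset.univ.image P)
    (lt_of_le_of_lt Finset.card_image_le (by simpa using hs)) (by simpa using h0)
  exact ⟨ζ, h1, fun j => h2 _ (Finset.mem_image_of_mem _ (Finset.mem_univ j))⟩

end Pool.Agent.Lib.MP_fc2ced_ag
end

-- part Pool.Agent.Lib.MP_fc2ced_ag.RFA
section

/-!
Transcendence degree: etale algebras, points of surfaces, generic finiteness.
-/

open scoped TensorProduct Polynomial IntermediateField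
open Algebra Function

set_option linter.unusedSectionVars false

namespace Pool.Agent.Lib.MP_fc2ced_ag

namespace RFA

variable {k : Type} [Field k] {Ω : Type} [Field Ω] [Algebra k Ω]

theorem trdeg_eq (k P B : Type) [Field k] [CommRing P] [CommRing B] [IsDomain B] [Algebra k P]
    [Algebra k B] [Algebra P B] [IsScalarTower k P B] [FaithfulSMul P B]
    [Algebra.IsAlgebraic P B] : trdeg k B = trdeg k P := by
  have := (FaithfulSMul.algebraMap_injective P B).isDomain
  rw [← trdeg_add_eq k P (A := B), trdeg_eq_zero (R := P) (A := B), add_zero]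

theorem isAlgebraic_of_etale (P B : Type) [CommRing P] [IsDomain P] [CommRing B] [Algebra P B]
    [Algebra.Etale P B] : Algebra.IsAlgebraic P B := by
  let K := FractionRing P
  have : Module.Finite K (K ⊗[P] B) := Algebra.FormallyUnramified.finite_of_free _ _
  have : Algebra.IsAlgebraic P K := IsLocalization.isAlgebraic K (nonZeroDivisors P)
  have : Algebra.IsAlgebraic P (K ⊗[P] B) := .trans P K _
  exact .of_injective (Algebra.TensorProduct.includeRight : B →ₐ[P] K ⊗[P] B)
    (Algebra.TensorProduct.includeRight_injective (IsFractionRing.injective P K))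

theorem faithful_of_flat (P B : Type) [CommRing P] [IsDomain P] [CommRing B] [Nontrivial B]
    [Algebra P B] [Module.Flat P B] : FaithfulSMul P B := by
  rw [faithfulSMul_iff_algebraMap_injective, injective_iff_map_eq_zero]
  intro p hp
  by_contra h
  have := Module.Flat.isSMulRegular_of_nonZeroDivisors (M := B)
    (mem_nonZeroDivisors_of_ne_zero h)
  exact one_ne_zero (this (a₁ := 1) (a₂ := 0) (by simp [Algebra.smul_def, hp]))

theorem trdeg_etale (k P B : Type) [Field k] [CommRing P] [IsDomain P] [CommRing B] [IsDomain B]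
    [Algebra k P] [Algebra k B] [Algebra P B] [IsScalarTower k P B] [Algebra.Etale P B] :
    trdeg k B = trdeg k P :=
  have := faithful_of_flat P B
  have := isAlgebraic_of_etale P B
  trdeg_eq k P B

section
variable {A B : Type} [CommRing A] [Algebra k A] [CommRing B] [Algebra k B]

theorem dom_away [IsDomain A] {h : A} (h0 : h ≠ 0) : IsDomain (Localization.Away h) :=
  IsLocalization.isDomain_localization (powers_le_nonZeroDivisors_of_noZeroDivisors h0)

theorem inj_away [IsDomain A] {h : A} (h0 : h ≠ 0) :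
    Injective (algebraMap A (Localization.Away h)) :=
  IsLocalization.injective _ (powers_le_nonZeroDivisors_of_noZeroDivisors h0)

theorem trdeg_away [IsDomain A] {h : A} (h0 : h ≠ 0) :
    trdeg k (Localization.Away h) = trdeg k A :=
  have := dom_away h0
  trdeg_etale k A _

theorem trdeg_le_of_alg (ι : A →ₐ[k] Ω) (hι : Injective ι) (R : Subalgebra k Ω)
    (h : ∀ a, IsAlgebraic R (ι a)) : trdeg k A ≤ trdeg k R := by
  rw [← trdeg_eq k R (Subalgebra.algebraicClosure R Ω)]
  exact trdeg_le_of_injective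
    (ι.codRestrict ((Subalgebra.algebraicClosure R Ω).restrictScalars k) h)
    ((ι.injective_codRestrict _ _).2 hι)

theorem trdeg_le_one (ι : A →ₐ[k] Ω) (hι : Injective ι) {a : Ω} (h : ∀ x, ι x ∈ acl k a) :
    trdeg k A ≤ 1 := by
  refine (trdeg_le_of_alg ι hι (Algebra.adjoin k {a}) fun x =>
    IntermediateField.isAlgebraic_adjoin_iff.1 (mem_acl.1 (h x))).trans ?_
  rw [Algebra.adjoin_singleton_eq_range_aeval, ← Polynomial.trdeg_of_isDomain (R := k)]
  exact trdeg_le_of_surjective _ (Polynomial.aeval a).rangeRestrict_surjective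

theorem trdeg_le_adjoin (ι : A →ₐ[k] Ω) (hι : Injective ι) (ψ : B →ₐ[k] Ω)
    (h : ∀ x, ι x ∈ IntermediateField.adjoin k (Set.range ψ)) : trdeg k A ≤ trdeg k B := by
  refine (trdeg_le_of_alg ι hι (Algebra.adjoin k (Set.range ψ)) fun x =>
    IntermediateField.isAlgebraic_adjoin_iff.1 (isAlgebraic_algebraMap
      (⟨ι x, h x⟩ : IntermediateField.adjoin k (Set.range ψ)))).trans ?_
  rw [← AlgHom.coe_range, Algebra.adjoin_eq]
  exact trdeg_le_of_surjective _ ψ.rangeRestrict_surjective

/-- A point that is not generic has smaller transcendence degree. -/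
theorem drop [IsDomain B] (ψ : B →ₐ[k] Ω) {ι : Type} {x : ι → B}
    (hx : AlgebraicIndependent k (ψ ∘ x)) {h : B} (h0 : h ≠ 0) (h1 : ψ h = 0) :
    AlgebraicIndependent k fun o : Option ι => o.elim h x := by
  refine AlgebraicIndependent.option_iff.2 ⟨.of_comp ψ hx, fun h2 => ?_⟩
  obtain ⟨⟨r, hr⟩, r1, c, r2⟩ := h2.exists_nonzero_dvd (mem_nonZeroDivisors_of_ne_zero h0)
  rw [Algebra.adjoin_range_eq_range_aeval] at hr
  obtain ⟨q, rfl⟩ := hr
  have : q = 0 := algebraicIndependent_iff.1 hx q (by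
    have e : MvPolynomial.aeval (ψ ∘ x) = ψ.comp (MvPolynomial.aeval x) := by ext; simp
    rw [e, AlgHom.comp_apply]
    exact (congrArg ψ r2).trans (by rw [map_mul, h1, zero_mul]))
  exact r1 (Subtype.ext (by simp [this]))

theorem mem_acl_of_alg {a x : Ω} (h : IsAlgebraic k x) : x ∈ acl k a :=
  mem_acl.2 (h.tower_top _)

theorem indep_pair {a b : Ω} (ha : Transcendental k a) (hb : b ∉ acl k a) :
    AlgebraicIndependent k fun o : Option Unit => o.elim b fun _ => a := by
  refine AlgebraicIndependent.option_iff.2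
    ⟨algebraicIndependent_unique_type_iff.2 ha, fun h => hb (mem_acl.2 ?_)⟩
  rw [Set.range_const] at h
  exact IntermediateField.isAlgebraic_adjoin_iff.2 h

theorem dich (ψ : B →ₐ[k] Ω) : (∃ a, ∀ b, ψ b ∈ acl k a) ∨
    ∃ x : Option Unit → B, AlgebraicIndependent k (ψ ∘ x) := by
  by_cases h : ∀ b, IsAlgebraic k (ψ b)
  · exact .inl ⟨0, fun b => mem_acl_of_alg (h b)⟩
  push Not at h
  obtain ⟨a, ha⟩ := h
  by_cases h : ∀ b, ψ b ∈ acl k (ψ a)
  · exact .inl ⟨_, h⟩
  push Not at h
  obtain ⟨b, hb⟩ := h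
  refine .inr ⟨fun o => o.elim b fun _ => a, ?_⟩
  convert indep_pair ha hb using 1
  funext o
  cases o <;> rfl

theorem inj_of_indep [IsDomain B] (hB : trdeg k B ≤ 2) (ψ : B →ₐ[k] Ω) {x : Option Unit → B}
    (hx : AlgebraicIndependent k (ψ ∘ x)) : Injective ψ := by
  rw [injective_iff_map_eq_zero]
  intro h h1
  by_contra h0
  have := (drop ψ hx h0 h1).cardinalMk_le_trdeg.trans hB
  norm_num [Cardinal.mk_option] at this

theorem acl_of_zero [IsDomain B] (hB : trdeg k B ≤ 2) (ψ : B →ₐ[k] Ω) {h : B} (h0 : h ≠ 0)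
    (h1 : ψ h = 0) : ∃ a, ∀ b, ψ b ∈ acl k a :=
  (dich ψ).resolve_right fun ⟨_, hx⟩ => h0 (inj_of_indep hB ψ hx (by rw [h1, map_zero]))

/-- Extension of a point to a localization. -/
noncomputable def ext (ψ : A →ₐ[k] Ω) {h : A} (h0 : ψ h ≠ 0) : Localization.Away h →ₐ[k] Ω :=
  IsLocalization.Away.liftAlgHom h (Ne.isUnit h0)

@[simp] theorem ext_alg (ψ : A →ₐ[k] Ω) {h : A} (h0 : ψ h ≠ 0) (a : A) :
    ext ψ h0 (algebraMap A _ a) = ψ a := by simp [ext]

theorem ext_inv (ψ : A →ₐ[k] Ω) {h : A} (h0 : ψ h ≠ 0) :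
    ext ψ h0 (IsLocalization.Away.invSelf h) = (ψ h)⁻¹ :=
  eq_inv_of_mul_eq_one_right (by
    rw [← ext_alg ψ h0, ← map_mul, IsLocalization.Away.mul_invSelf, map_one])

theorem away_surj {h : A} (z : Localization.Away h) :
    ∃ (a : A) (n : ℕ), z = algebraMap A _ a * IsLocalization.Away.invSelf h ^ n := by
  obtain ⟨n, a, e⟩ := IsLocalization.Away.surj h z
  refine ⟨a, n, ?_⟩
  rw [← e, mul_assoc, ← mul_pow, IsLocalization.Away.mul_invSelf, one_pow, mul_one]

theorem ext_inj (ψ : A →ₐ[k] Ω) {h : A} (h0 : ψ h ≠ 0) (hk : ∀ a, ψ a = 0 → h * a = 0) :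
    Injective (ext ψ h0) := by
  rw [injective_iff_map_eq_zero]
  intro z hz
  obtain ⟨a, n, rfl⟩ := away_surj z
  rw [map_mul, map_pow, ext_alg, ext_inv, mul_eq_zero] at hz
  have h1 := congrArg (algebraMap A (Localization.Away h))
    (hk a (hz.resolve_right (pow_ne_zero _ (inv_ne_zero h0))))
  rw [map_mul, map_zero, (IsLocalization.Away.algebraMap_isUnit h).mul_right_eq_zero] at h1
  rw [h1, zero_mul]

theorem ext_mem (ψ : A →ₐ[k] Ω) {h : A} (h0 : ψ h ≠ 0) {K : IntermediateField k Ω}
    (hK : ∀ a, ψ a ∈ K) (z : Localization.Away h) : ext ψ h0 z ∈ K := by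
  obtain ⟨a, n, rfl⟩ := away_surj z
  rw [map_mul, map_pow, ext_alg, ext_inv]
  exact mul_mem (hK a) (pow_mem (inv_mem (hK h)) n)

/-- The map of localizations. -/
noncomputable def amap (φ : A →ₐ[k] B) (g : A) :
    Localization.Away g →ₐ[k] Localization.Away (φ g) :=
  IsLocalization.Away.liftAlgHom g (f := (IsScalarTower.toAlgHom k B _).comp φ)
    (IsLocalization.Away.algebraMap_isUnit (φ g))

@[simp] theorem amap_alg (φ : A →ₐ[k] B) (g a : A) :
    amap φ g (algebraMap A _ a) = algebraMap B _ (φ a) := by simp [amap]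

theorem amap_inv (φ : A →ₐ[k] B) (g : A) :
    amap φ g (IsLocalization.Away.invSelf g) = IsLocalization.Away.invSelf (φ g) :=
  (IsLocalization.Away.algebraMap_isUnit (φ g)).mul_left_cancel (by
    rw [IsLocalization.Away.mul_invSelf, ← amap_alg, ← map_mul, IsLocalization.Away.mul_invSelf,
      map_one])

theorem amap_inj [IsDomain B] (φ : A →ₐ[k] B) (hφ : Injective φ) {g : A} (h0 : g ≠ 0) :
    Injective (amap φ g) := by
  rw [injective_iff_map_eq_zero]
  intro z hz
  obtain ⟨a, n, rfl⟩ := away_surj z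
  rw [map_mul, map_pow, amap_alg, amap_inv, (IsUnit.pow _ (.of_mul_eq_one_right _
    (IsLocalization.Away.mul_invSelf (φ g)))).mul_left_eq_zero,
    map_eq_zero_iff _ (inj_away ((map_ne_zero_iff _ hφ).2 h0)), map_eq_zero_iff _ hφ] at hz
  rw [hz, map_zero, zero_mul]

/-- Generic finiteness. -/
theorem exists_finite [IsDomain A] [Algebra A B] [IsScalarTower k A B] [Algebra.IsAlgebraic A B]
    [Algebra.FiniteType k B] : ∃ h : A, h ≠ 0 ∧ ∀ h' : A,
      (amap (IsScalarTower.toAlgHom k A B) (h * h')).toRingHom.Finite := by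
  obtain ⟨s, hs⟩ := Algebra.FiniteType.out (R := k) (A := B)
  obtain ⟨h, h0, h1⟩ := Algebra.IsAlgebraic.exists_integral_multiples A s
  refine ⟨h, h0, fun h' => ?_⟩
  let φ := amap (IsScalarTower.toAlgHom k A B) (h * h')
  let Ag := Localization.Away (h * h')
  let Bg := Localization.Away (IsScalarTower.toAlgHom k A B (h * h'))
  algebraize [φ.toRingHom]
  have : IsScalarTower k Ag Bg := .of_algebraMap_eq fun x => (φ.commutes x).symm
  have : IsScalarTower A Ag Bg := .of_algebraMap_eq fun x =>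
    (IsScalarTower.algebraMap_apply A B Bg x).trans (amap_alg _ _ x).symm
  have : Algebra.FiniteType k Bg := .trans (S := B) inferInstance inferInstance
  have : Algebra.FiniteType Ag Bg := .of_restrictScalars_finiteType k Ag Bg
  have h2 : ∀ b : B, IsIntegral Ag (algebraMap B Bg b) := fun b => by
    have h3 : Algebra.adjoin k (s : Set B) ≤ ((integralClosure Ag Bg).restrictScalars k).comap
        (IsScalarTower.toAlgHom k B Bg) := Algebra.adjoin_le fun x hx => by
      have h4 : IsIntegral Ag (algebraMap B Bg (h • x)) :=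
        ((h1 x hx).map (IsScalarTower.toAlgHom A B Bg)).tower_top
      have h5 := h4.smul (algebraMap A Ag h' * IsLocalization.Away.invSelf (h * h'))
      have h6 : algebraMap A Ag h' * IsLocalization.Away.invSelf (h * h') * algebraMap A Ag h = 1 := by
        rw [mul_right_comm, ← (algebraMap A Ag).map_mul, mul_comm h',
          IsLocalization.Away.mul_invSelf]
      rw [Algebra.smul_def h, (algebraMap B Bg).map_mul, ← IsScalarTower.algebraMap_apply,
        IsScalarTower.algebraMap_apply A Ag Bg, Algebra.smul_def, ← mul_assoc,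
        ← (algebraMap Ag Bg).map_mul, h6, (algebraMap Ag Bg).map_one, one_mul] at h5
      exact h5
    exact h3 (hs ▸ Algebra.mem_top)
  have : Algebra.IsIntegral Ag Bg := ⟨fun z => by
    obtain ⟨a, n, rfl⟩ := away_surj z
    rw [← amap_inv]
    exact (h2 a).mul (IsIntegral.pow isIntegral_algebraMap n)⟩
  exact Algebra.IsIntegral.finite

/-- A finite type subalgebra of the function field consists of functions on an open subset. -/
theorem exists_factor [IsDomain B] [Algebra.FiniteType k A] (ι : A →ₐ[k] Ω) (ψ : B →ₐ[k] Ω)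
    (hψ : Injective ψ) (h : ∀ x, ι x ∈ IntermediateField.adjoin k (Set.range ψ)) :
    ∃ (d : B) (h0 : ψ d ≠ 0) (φ : A →ₐ[k] Localization.Away d), (ext ψ h0).comp φ = ι := by
  obtain ⟨s, hs⟩ := Algebra.FiniteType.out (R := k) (A := A)
  have h1 : ∀ x, ∃ d c, ψ d ≠ 0 ∧ ι x * ψ d = ψ c := fun x => by
    obtain ⟨r, hr, t, ht, e⟩ := IntermediateField.mem_adjoin_iff_div.1 (h x)
    rw [← AlgHom.coe_range, Algebra.adjoin_eq] at hr ht
    obtain ⟨c, rfl⟩ := hr
    obtain ⟨d, rfl⟩ := ht
    by_cases h0 : ψ d = 0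
    · exact ⟨1, 0, by simp, by simpa [h0] using e⟩
    · exact ⟨d, c, h0, by rw [e]; exact div_mul_cancel₀ _ h0⟩
  choose d c d0 e using h1
  have h0 : ψ (∏ x ∈ s, d x) ≠ 0 := by
    rw [map_prod]; exact Finset.prod_ne_zero_iff.2 fun x _ => d0 x
  have inj := ext_inj ψ h0 fun a ha => by rw [(map_eq_zero_iff _ hψ).1 ha, mul_zero]
  have h2 : ∀ x, ι x ∈ (ext ψ h0).range := fun x => by
    have h3 : Algebra.adjoin k (s : Set A) ≤ (ext ψ h0).range.comap ι :=
      Algebra.adjoin_le fun y hy => by
        obtain ⟨w, hw⟩ := Finset.dvd_prod_of_mem d hy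
        refine ⟨algebraMap B _ (c y * w) * IsLocalization.Away.invSelf (∏ x ∈ s, d x), ?_⟩
        simp only [AlgHom.toRingHom_eq_coe, RingHom.coe_coe]
        rw [map_mul, ext_alg, ext_inv, map_mul, ← e, mul_assoc (ι y), ← map_mul, ← hw,
          mul_inv_cancel_right₀ h0]
    exact h3 (hs ▸ Algebra.mem_top)
  refine ⟨_, h0, (AlgEquiv.ofInjective _ inj).symm.toAlgHom.comp (ι.codRestrict _ h2),
    AlgHom.ext fun x => ?_⟩
  exact congrArg Subtype.val ((AlgEquiv.ofInjective _ inj).apply_symm_apply ⟨ι x, h2 x⟩)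

end

attribute [local instance] Algebra.TensorProduct.rightAlgebra in
theorem etale_lTensor (A : Type) {B D : Type} [CommRing A] [Algebra k A] [CommRing B] [Algebra k B]
    [CommRing D] [Algebra k D] {f : B →ₐ[k] D} (hf : f.toRingHom.Etale) :
    (Algebra.TensorProduct.lTensor (S := k) A f).toRingHom.Etale := by
  algebraize [f.toRingHom, (Algebra.TensorProduct.lTensor (S := A) A f).toRingHom]
  let e : A ⊗[k] D ≃ₐ[A ⊗[k] B] (A ⊗[k] B) ⊗[B] D :=
    { __ := (Algebra.IsPushout.cancelBaseChangeAlg _ _ _ _ _).symm,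
      commutes' x := congr($(Algebra.IsPushout.cancelBaseChange_symm_comp_lTensor k B D A) x) }
  exact Algebra.Etale.of_equiv e.symm

/-- The coordinate of a cover. -/
noncomputable def covMap (c : Cov k) : k[X] →ₐ[k] c.Λ :=
  (IsScalarTower.toAlgHom k (Localization.Away c.g) c.Λ).comp (IsScalarTower.toAlgHom k k[X] _)

theorem covMap_X (c : Cov k) : covMap c Polynomial.X = c.u := rfl

theorem covMap_etale (c : Cov k) : (covMap c).toRingHom.Etale :=
  RingHom.Etale.stableUnderComposition (algebraMap k[X] (Localization.Away c.g)) (algebraMap _ c.Λ)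
    (RingHom.etale_algebraMap.2 inferInstance) (RingHom.etale_algebraMap.2 inferInstance)

end RFA

end Pool.Agent.Lib.MP_fc2ced_ag
end
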