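import Pool.Agent.Lib.MP_fc2ced_ag.BaseA
import Pool.Agent.Lib.MP_fc2ced_ag.RFA

-- part Pool.Agent.Lib.MP_fc2ced_ag.CurveAlgB
section

/-!
Traces along chains of ideals, Frobenius `n`-homomorphisms, the ideal of the diagonal of an
unramified curve, and Noether normalisation of a curve.
-/

open scoped TensorProduct Polynomial
open Module Submodule Function

namespace Pool.Agent.Lib.MP_fc2ced_ag.Curve

section Pts

variable {Ω E : Type} [Field Ω] [CommRing E] [Algebra Ω E] {K L : Ideal E}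

theorem finite_of_le (h : K ≤ L) [Module.Finite Ω (E ⧸ K)] : Module.Finite Ω (E ⧸ L) :=
  .of_surjective (Ideal.Quotient.factorₐ Ω h).toLinearMap (Ideal.Quotient.factor_surjective h)

theorem tq_add (h : K ≤ L) [Module.Finite Ω (E ⧸ K)] {U : Type} [AddCommGroup U] [Module Ω U]
    {i : U →ₗ[Ω] E ⧸ K} (hi : Injective i)
    (hex : ∀ y : E, y ∈ L ↔ Ideal.Quotient.mk K y ∈ Set.range i) {a : E} {f : U →ₗ[Ω] U}
    (hf : ∀ u, Ideal.Quotient.mk K a * i u = i (f u)) :
    tq Ω K a = LinearMap.trace Ω U f + tq Ω L a :=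
  trace_add_of_exact (π := (Ideal.Quotient.factorₐ Ω h).toLinearMap) hi
    (Ideal.Quotient.factor_surjective h)
    (fun z => by
      obtain ⟨y, rfl⟩ := Ideal.Quotient.mk_surjective z
      exact Ideal.Quotient.eq_zero_iff_mem.trans (hex y))
    (LinearMap.ext hf) (LinearMap.ext fun z => map_mul (Ideal.Quotient.factor h) _ z)

theorem tq_chain [IsAlgClosed Ω] (h : K ≤ L) [Module.Finite Ω (E ⧸ K)] :
    ∃ (n : ℕ) (y : Fin n → E →ₐ[Ω] Ω), (∀ j, ∀ a ∈ K, y j a = 0) ∧
      ∀ a, tq Ω K a = ∑ j, y j a + tq Ω L a := by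
  have hi : Injective ((L.map (Ideal.Quotient.mk K)).subtype.restrictScalars Ω) :=
    Subtype.val_injective
  have := FiniteDimensional.of_injective _ hi
  obtain ⟨y, -, hy⟩ := exists_sum_points Ω (E ⧸ K) (L.map (Ideal.Quotient.mk K))
  refine ⟨_, fun j => (y j).comp (Ideal.Quotient.mkₐ Ω K), fun j a ha => ?_, fun a => ?_⟩
  · simp [Ideal.Quotient.eq_zero_iff_mem.2 ha]
  · rw [tq_add h hi (fun z => ?_) (f := (LinearMap.lsmul (E ⧸ K) _
      (Ideal.Quotient.mk K a)).restrictScalars Ω) fun _ => rfl, hy]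
    · rfl
    refine ⟨fun hz => ⟨⟨_, Ideal.mem_map_of_mem _ hz⟩, rfl⟩, fun ⟨w, hw⟩ => ?_⟩
    have := w.2
    rw [show w.1 = _ from hw, Ideal.mem_quotient_iff_mem h] at this
    exact this

theorem sub_mem_ker (x : E →ₐ[Ω] Ω) (c : E) : c - algebraMap Ω E (x c) ∈ RingHom.ker x := by
  simp [RingHom.mem_ker]

/-- For an invertible ideal `L`, the quotient of `L` by `L m` is a line. -/
theorem tq_mul_ker {L' : Ideal E} {a : E} (hreg : ∀ y, a * y = 0 → y = 0)
    (h : L * L' = Ideal.span {a}) (x : E →ₐ[Ω] Ω) [Module.Finite Ω (E ⧸ L * RingHom.ker x)]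
    (b : E) : tq Ω (L * RingHom.ker x) b = x b + tq Ω L b := by
  have key : ∀ c, a * c ∈ Ideal.span {a} * RingHom.ker x → x c = 0 := fun c hc => by
    obtain ⟨z, hz, e⟩ := Ideal.mem_span_singleton_mul.1 hc
    rw [← sub_eq_zero.1 (hreg (z - c) (by rw [mul_sub, e, sub_self]))]
    exact hz
  have dv : ∀ l ∈ L, ∀ l' ∈ L', ∃ c, l * l' = a * c := fun l hl l' hl' =>
    Ideal.mem_span_singleton.1 (h ▸ Ideal.mul_mem_mul hl hl')
  obtain ⟨l, hl, l', hl', c, hc, hx⟩ : ∃ l ∈ L, ∃ l' ∈ L', ∃ c, l * l' = a * c ∧ x c ≠ 0 := by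
    by_contra! H
    have : L * L' ≤ Ideal.span {a} * RingHom.ker x := Ideal.mul_le.2 fun l hl l' hl' => by
      obtain ⟨c, hc⟩ := dv l hl l' hl'
      rw [hc]
      exact Ideal.mul_mem_mul (Ideal.mem_span_singleton_self a) (H l hl l' hl' c hc)
    simpa using key 1 (this (by simp [h]))
  have h0 : Ideal.Quotient.mk (L * RingHom.ker x) l ≠ 0 := fun h0 => hx (key c (by
    rw [← hc, ← h, mul_right_comm]
    exact Ideal.mul_mem_mul (Ideal.Quotient.eq_zero_iff_mem.1 h0) hl'))
  have act : ∀ z ∈ L, ∀ c, Ideal.Quotient.mk (L * RingHom.ker x) (c * z) =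
      x c • Ideal.Quotient.mk (L * RingHom.ker x) z := fun z hz c => by
    rw [← Ideal.Quotient.mkₐ_eq_mk Ω, ← map_smul, Ideal.Quotient.mkₐ_eq_mk, Ideal.Quotient.eq,
      Algebra.smul_def, ← sub_mul, mul_comm _ z]
    exact Ideal.mul_mem_mul hz (sub_mem_ker x c)
  rw [tq_add (L := L) Ideal.mul_le_left (i := LinearMap.toSpanSingleton Ω _ _)
    (smul_left_injective Ω h0) (fun z => ⟨fun hz => ?_, fun ⟨s, hs⟩ => ?_⟩)
    (f := x b • LinearMap.id) fun s => ?_]
  · simp
  · obtain ⟨c', hc'⟩ := dv z hz l' hl'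
    have e : c * z = c' * l := sub_eq_zero.1 (hreg _ (by linear_combination l * hc' - z * hc))
    refine ⟨(x c)⁻¹ * x c', ?_⟩
    rw [LinearMap.toSpanSingleton_apply, mul_smul, ← act l hl, ← e, act z hz, inv_smul_smul₀ hx]
  · rw [LinearMap.toSpanSingleton_apply, ← Ideal.Quotient.mkₐ_eq_mk Ω, ← map_smul,
      Ideal.Quotient.mkₐ_eq_mk, Ideal.Quotient.eq] at hs
    have := sub_mem (L.smul_of_tower_mem s hl) (Ideal.mul_le_left hs)
    rwa [sub_sub_cancel] at this
  · simp only [LinearMap.toSpanSingleton_apply, LinearMap.smul_apply, LinearMap.id_apply]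
    rw [mul_smul_comm, ← map_mul, act l hl, smul_smul, smul_eq_mul, mul_comm s]

theorem tq_prod {κ : Type} (s : Finset κ) (x : κ → E →ₐ[Ω] Ω) {L' : Ideal E} {a : E}
    (hreg : ∀ y, a * y = 0 → y = 0) [Module.Finite Ω (E ⧸ Ideal.span {a})]
    (h : L * (∏ i ∈ s, RingHom.ker (x i)) * L' = Ideal.span {a}) (b : E) :
    tq Ω (L * ∏ i ∈ s, RingHom.ker (x i)) b = ∑ i ∈ s, x i b + tq Ω L b := by
  classical
  induction s using Finset.induction_on generalizing L' with
  | empty => simp
  | insert i s hi ih =>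
    have := finite_of_le (Ω := Ω) (h.ge.trans Ideal.mul_le_left)
    rw [Finset.prod_insert hi, mul_comm (RingHom.ker (x i)), ← mul_assoc] at h this ⊢
    rw [mul_assoc] at h
    rw [tq_mul_ker hreg h, ih h, Finset.sum_insert hi, add_assoc]

end Pts

section Phi

open PiTensorProduct Algebra.TensorProduct

variable {k A S S' : Type} [Field k] [CommRing A] [Algebra k A] [CommRing S] [Algebra k S]
  [CommRing S'] [Algebra k S'] {n : ℕ}

/-- The coordinates of a power. -/
noncomputable def sg (i : Fin n) : A →ₐ[k] ⨂[k] _ : Fin n, A := singleAlgHom (A := fun _ => A) i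

/-- The point of a power with the given coordinates. -/
noncomputable def pt (y : Fin n → A →ₐ[k] S) : (⨂[k] _ : Fin n, A) →ₐ[k] S :=
  liftAlgHom ((MultilinearMap.mkPiAlgebra k (Fin n) S).compLinearMap fun i => (y i).toLinearMap)
    (by simp) (by simp [Finset.prod_mul_distrib])

@[simp] theorem pt_tprod (y : Fin n → A →ₐ[k] S) (a : Fin n → A) :
    pt y (tprod k a) = ∏ i, y i (a i) := lift.tprod a

@[simp] theorem pt_sg (y : Fin n → A →ₐ[k] S) (i : Fin n) (a : A) : pt y (sg i a) = y i a := by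
  rw [sg, singleAlgHom_apply, pt_tprod, Finset.prod_eq_single i] <;> simp +contextual

theorem prod_sg (a : Fin n → A) : ∏ i, sg i (a i) = tprod k a := by
  have : pt (sg (k := k) (A := A) (n := n)) = AlgHom.id k _ :=
    PiTensorProduct.algHom_ext fun i => AlgHom.ext (pt_sg _ i)
  rw [← pt_tprod, this, AlgHom.id_apply]

/-- The Frobenius `n`-homomorphism of a functional. -/
noncomputable def Phi (τ : A →ₗ[k] S) : (n : ℕ) → (⨂[k] _ : Fin n, A) →ₗ[k] S
  | 0 => (pt Fin.elim0).toLinearMap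
  | n + 1 => (LinearMap.mul' k S ∘ₗ TensorProduct.map τ (Phi τ n)) ∘ₗ
      (pt (Fin.cons includeLeft fun i => includeRight.comp (sg i))).toLinearMap -
      ∑ i, Phi τ n ∘ₗ (pt (Fin.cons (sg i) sg)).toLinearMap

theorem Phi_succ (τ : A →ₗ[k] S) (a : Fin (n + 1) → A) :
    Phi τ (n + 1) (tprod k a) = τ (a 0) * Phi τ n (tprod k fun i => a i.succ) -
      ∑ i, Phi τ n (sg i (a 0) * tprod k fun i => a i.succ) := by
  simp only [Phi, LinearMap.sub_apply, LinearMap.sum_apply, LinearMap.comp_apply,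
    AlgHom.toLinearMap_apply, pt_tprod, Fin.prod_univ_succ, Fin.cons_zero, Fin.cons_succ,
    AlgHom.comp_apply, ← map_prod, prod_sg]
  simp

theorem comp_Phi (ξ : S →ₐ[k] S') (τ : A →ₗ[k] S) (n : ℕ) :
    ξ.toLinearMap ∘ₗ Phi τ n = Phi (ξ.toLinearMap ∘ₗ τ) n := by
  induction n with
  | zero => ext; simp [Phi]
  | succ n ih => ext; simp [Phi_succ, ← ih]

open Classical in
theorem Phi_sum {J : Type} [Fintype J] (y : J → A →ₐ[k] S) (n : ℕ) :
    Phi (∑ j, (y j).toLinearMap) n =
      ∑ f : Fin n → J, if Injective f then (pt (y ∘ f)).toLinearMap else 0 := by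
  induction n with
  | zero => ext; simp [Phi, injective_of_subsingleton]
  | succ n ih =>
    ext a
    simp only [LinearMap.compMultilinearMap_apply, Phi_succ, ih, LinearMap.sum_apply]
    rw [← (Fin.consEquiv fun _ => J).sum_comp, Fintype.sum_prod_type_right, Finset.mul_sum,
      Finset.sum_comm, ← Finset.sum_sub_distrib]
    refine Finset.sum_congr rfl fun f _ => ?_
    simp only [Fin.consEquiv, Equiv.coe_fn_mk, Fin.cons_injective_iff]
    by_cases hf : Injective f
    · simp only [hf, if_true, and_true, AlgHom.toLinearMap_apply, map_mul, pt_sg, pt_tprod,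
        comp_apply, ← Finset.sum_mul]
      rw [← Finset.sum_image (s := Finset.univ) (g := f) (f := fun j => y j (a 0)) hf.injOn,
        ← Finset.sum_add_sum_compl (Finset.univ.image f), ← sub_mul, add_sub_cancel_left,
        Finset.sum_mul, ← Finset.sum_subset (Finset.subset_univ (Finset.univ.image f)ᶜ)
          fun j _ hj => by rw [if_neg (by simpa using hj), LinearMap.zero_apply]]
      refine Finset.sum_congr rfl fun j hj => ?_
      rw [if_pos (by simpa using hj)]
      simp [Fin.prod_univ_succ]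
    · simp [hf]

theorem finiteType_pow [Algebra.FiniteType k A] : Algebra.FiniteType k (⨂[k] _ : Fin n, A) := by
  classical
  obtain ⟨s, hs⟩ := Algebra.FiniteType.out (R := k) (A := A)
  refine ⟨Finset.univ.biUnion fun i => s.image (sg i), eq_top_iff.2 fun z hz => ?_⟩
  clear hz
  induction z using PiTensorProduct.induction_on with
  | smul_tprod r a =>
    rw [← prod_sg]
    refine Subalgebra.smul_mem _ (Subalgebra.prod_mem _ fun i _ => ?_) r
    have : (sg i : A →ₐ[k] _) (a i) ∈ (Algebra.adjoin k (s : Set A)).map (sg i) :=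
      ⟨a i, by rw [hs]; trivial, rfl⟩
    rw [AlgHom.map_adjoin] at this
    refine Algebra.adjoin_mono ?_ this
    rintro _ ⟨b, hb, rfl⟩
    simpa using ⟨i, b, hb, rfl⟩
  | add _ _ h1 h2 => exact add_mem h1 h2

end Phi

section Diag

open Algebra.TensorProduct

variable {k A : Type} [Field k] [CommRing A] [Algebra k A]

theorem exists_point (S : Type) [CommRing S] [Algebra k S] [IsAlgClosed k]
    [Algebra.FiniteType k S] (m : Ideal S) [m.IsMaximal] : ∃ x : S →ₐ[k] k, RingHom.ker x = m := by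
  let _ := Ideal.Quotient.field m
  have := finite_of_finite_type_of_isJacobsonRing k (S ⧸ m)
  let j := (AlgEquiv.ofBijective (Algebra.ofId k (S ⧸ m))
    IsAlgClosed.algebraMap_bijective_of_isIntegral).symm
  exact ⟨j.toAlgHom.comp (Ideal.Quotient.mkₐ k m), Ideal.ext fun z => by
    simp [RingHom.mem_ker, Ideal.Quotient.eq_zero_iff_mem]⟩

variable [Algebra k[X] A] [IsScalarTower k k[X] A]

/-- The ideal of the diagonal is invertible. -/
theorem exists_inv [Algebra.FormallyUnramified k[X] A] [Algebra.EssFiniteType k[X] A]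
    {γ : A ⊗[k] A} (hγ : γ ∈ RingHom.ker (lmul' k (S := A))) :
    ∃ J : Ideal (A ⊗[k] A), J * RingHom.ker (lmul' k (S := A)) = Ideal.span {γ} := by
  obtain ⟨t, ht, ht'⟩ := (Algebra.FormallyUnramified.iff_exists_tensorProduct (R := k[X])
    (S := A)).1 inferInstance
  let π := mapOfCompatibleSMul k[X] k k A A
  obtain ⟨ε, rfl⟩ : ∃ ε, π ε = t := mapOfCompatibleSMul_surjective k[X] k k A A t
  have hπ : ∀ z, lmul' k[X] (π z) = lmul' k z := fun z => by
    induction z <;> simp_all [π]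
  obtain ⟨u, hu⟩ : ∃ u : A, ∀ p : k[X], algebraMap k[X] A p = Polynomial.aeval u p :=
    ⟨_, fun p => by
      rw [← IsScalarTower.toAlgHom_apply k, ← Polynomial.aeval_X_left_apply p,
        ← Polynomial.aeval_algHom_apply, Polynomial.aeval_X_left_apply]⟩
  have hδ : ∀ z, π z = 0 → u ⊗ₜ[k] 1 - 1 ⊗ₜ[k] u ∣ z := fun z hz => by
    have hz : z ∈ LinearMap.ker (TensorProduct.mapOfCompatibleSMul k[X] k k[X] A A) := hz
    rw [TensorProduct.AlgebraTensorModule.ker_mapOfCompatibleSMul] at hz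
    clear * - hz hu
    induction hz using span_induction with
    | mem _ hz =>
      obtain ⟨p, a, b, rfl⟩ := hz
      have := Polynomial.sub_dvd_eval_sub (includeLeft (S := k) u) (includeRight u)
        (p.map (algebraMap k (A ⊗[k] A)))
      rw [Polynomial.eval_map_algebraMap, Polynomial.eval_map_algebraMap,
        Polynomial.aeval_algHom_apply, Polynomial.aeval_algHom_apply, ← hu] at this
      have e : (p • a) ⊗ₜ[k] b - a ⊗ₜ[k] (p • b) = (includeLeft (S := k) (algebraMap k[X] A p) -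
          includeRight (algebraMap k[X] A p)) * a ⊗ₜ[k] b := by
        rw [sub_mul, Algebra.smul_def, Algebra.smul_def]
        simp
      exact e ▸ this.mul_right (a ⊗ₜ b)
    | zero => exact dvd_zero _
    | add _ _ _ _ h1 h2 => exact dvd_add h1 h2
    | smul p _ _ h1 => rw [Algebra.smul_def]; exact h1.mul_left _
  have key : ∀ z ∈ RingHom.ker (lmul' k (S := A)), u ⊗ₜ[k] 1 - 1 ⊗ₜ[k] u ∣ z * ε := fun z hz => by
    have h1 : π z ∈ KaehlerDifferential.ideal k[X] A := (hπ z).trans hz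
    rw [← KaehlerDifferential.span_range_eq_ideal] at h1
    refine hδ _ ?_
    rw [map_mul]
    generalize π z = w at h1
    induction h1 using span_induction with
    | mem _ hz => obtain ⟨s, rfl⟩ := hz; exact ht s
    | zero => simp
    | add _ _ _ _ h1 h2 => rw [add_mul, h1, h2, add_zero]
    | smul p _ _ h1 => rw [smul_mul_assoc, h1, smul_zero]
  obtain ⟨η, hη⟩ := key γ hγ
  refine ⟨Ideal.span {γ, ε * η}, le_antisymm (Ideal.mul_le.2 fun r hr s hs => ?_) ?_⟩
  · obtain ⟨p, q, rfl⟩ := Ideal.mem_span_pair.1 hr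
    obtain ⟨l, hl⟩ := key s hs
    exact Ideal.mem_span_singleton.2 ⟨p * s + q * l * ε, by linear_combination q * η * hl - q * l * hη⟩
  · have h1 : u ⊗ₜ[k] 1 - 1 ⊗ₜ[k] u ∈ RingHom.ker (lmul' k (S := A)) := by simp [RingHom.mem_ker]
    have h2 : 1 - ε * ε ∈ RingHom.ker (lmul' k (S := A)) := by
      simp [RingHom.mem_ker, ← hπ, ht']
    rw [Ideal.span_singleton_le_iff_mem]
    convert add_mem (Ideal.mul_mem_mul (Ideal.subset_span (s := {γ, ε * η}) (.inr rfl)) h1)
      (Ideal.mul_mem_mul (Ideal.subset_span (.inl rfl)) h2) using 1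
    linear_combination ε * hη

theorem exists_finite [IsDomain A] [Algebra.Etale k[X] A] :
    ∃ φ : k[X] →ₐ[k] A, Injective φ ∧ φ.Finite := by
  have : Algebra.FiniteType k A := .trans (S := k[X]) inferInstance inferInstance
  obtain ⟨s, g, hg, hf⟩ := exists_finite_inj_algHom_of_fg k A
  have : FaithfulSMul k[X] A := Module.isTorsionFree_iff_faithfulSMul.1 inferInstance
  have : Module.Finite (FractionRing k[X]) (FractionRing k[X] ⊗[k[X]] A) :=
    Algebra.FormallyUnramified.finite_of_free _ _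
  have : Algebra.IsAlgebraic k[X] A := ⟨fun a => (isAlgebraic_algHom_iff _
    (includeRight_injective (IsFractionRing.injective k[X] (FractionRing k[X])))).1
    ((IsFractionRing.isAlgebraic_iff _ (FractionRing k[X]) _).2 (Algebra.IsAlgebraic.isAlgebraic _))⟩
  have h1 := trdeg_add_eq k k[X] (A := A)
  algebraize [g.toRingHom]
  have : FaithfulSMul (MvPolynomial (Fin s) k) A :=
    (faithfulSMul_iff_algebraMap_injective _ _).2 hg
  have : IsScalarTower k (MvPolynomial (Fin s) k) A :=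
    .of_algebraMap_eq' g.comp_algebraMap.symm
  have : Module.Finite (MvPolynomial (Fin s) k) A := hf
  rw [← trdeg_add_eq k (MvPolynomial (Fin s) k) (A := A), trdeg_eq_zero (A := A),
    trdeg_eq_zero (A := A), MvPolynomial.trdeg_of_isDomain, Polynomial.trdeg_of_isDomain] at h1
  obtain rfl : s = 1 := by simpa using h1.symm
  let e := (MvPolynomial.uniqueAlgEquiv k (Fin 1)).symm
  exact ⟨g.comp e, hg.comp e.injective, hf.comp (.of_surjective _ e.surjective)⟩

omit [Algebra k[X] A] [IsScalarTower k k[X] A] in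
theorem exists_fil [IsDomain A] (φ : k[X] →ₐ[k] A) (hi : Injective φ) (hf : φ.Finite) :
    ∃ (r : ℕ) (F : Fil k A (Fin r)),
      ∀ b : A, b ≠ 0 → ∃ p : k[X], p.Monic ∧ b ∣ Polynomial.aeval F.g p := by
  algebraize [φ.toRingHom]
  have : FaithfulSMul k[X] A := (faithfulSMul_iff_algebraMap_injective _ _).2 hi
  have : IsScalarTower k k[X] A := .of_algebraMap_eq' φ.comp_algebraMap.symm
  have : Module.Finite k[X] A := hf
  let β := (Polynomial.basisMonomials k).smulTower (Module.finBasis k[X] A)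
  obtain ⟨c, hc⟩ := ((Finset.univ.biUnion fun q : Fin (finrank k[X] A) × Fin (finrank k[X] A) =>
    (β.repr (β (0, q.1) * β (0, q.2))).support).image Prod.fst).exists_nat_subset_range
  refine ⟨_, ⟨β, φ Polynomial.X, c, fun i j => ?_, fun j j' => ?_⟩, fun b hb => ?_⟩
  · simp only [β, Basis.smulTower_apply, Polynomial.coe_basisMonomials]
    rw [← Polynomial.X_mul_monomial, mul_smul, Algebra.smul_def Polynomial.X]
    rfl
  · exact β.mem_span_image.2 fun p hp => Finset.mem_range.1 (hc (Finset.mem_image_of_mem _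
      (Finset.mem_biUnion.2 ⟨(j, j'), Finset.mem_univ _, hp⟩)))
  · obtain ⟨p, hp, h⟩ := (Algebra.IsAlgebraic.isAlgebraic (R := k[X]) b).exists_nonzero_dvd
      (mem_nonZeroDivisors_of_ne_zero hb)
    refine ⟨_, Polynomial.monic_mul_leadingCoeff_inv hp, ?_⟩
    rw [Polynomial.aeval_algHom_apply, Polynomial.aeval_X_left_apply, map_mul]
    exact h.mul_right _

end Diag

end Pool.Agent.Lib.MP_fc2ced_ag.Curve
end

-- part Pool.Agent.Lib.MP_fc2ced_ag.CurveAlg
section

/-!
Smooth affine curves: the symmetriser of a large power is homotopic, through correspondences, to a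
correspondence all of whose points have one coordinate equal to a fixed base point.
-/

open scoped TensorProduct Polynomial

set_option linter.unusedSectionVars false

namespace Pool.Agent.Lib.MP_fc2ced_ag

variable {k : Type} [Field k] [CharZero k]

namespace Curve

open Algebra.TensorProduct Fil Function

variable {A S S' : Type} [CommRing A] [Algebra k A] [CommRing S] [Algebra k S] [CommRing S']
  [Algebra k S'] {n r : ℕ} {F : Fil k A (Fin r)} {J : Ideal (A ⊗[k] A)}

/-- The section given by a point. -/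
noncomputable def ev (x : A →ₐ[k] S) : S ⊗[k] A →ₐ[S] S :=
  lift (AlgHom.id S S) x fun _ _ => .all _ _

@[simp] theorem ev_tmul (x : A →ₐ[k] S) (s : S) (a : A) : ev x (s ⊗ₜ a) = s * x a := rfl

theorem map_ker (x : A →ₐ[k] S) :
    (RingHom.ker (lmul' k (S := A))).map (cf A x) = RingHom.ker (ev x) := by
  refine le_antisymm (Ideal.map_le_iff_le_comap.2 fun z hz => ?_) fun z hz => ?_
  · have : ev x (cf A x z) = x (lmul' k z) := by
      clear hz
      induction z <;> simp_all
    exact this.trans (by rw [show lmul' k z = 0 from hz, map_zero])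
  · suffices z - algebraMap S _ (ev x z) ∈ (RingHom.ker (lmul' k (S := A))).map (cf A x) by
      rwa [show ev x z = 0 from hz, map_zero, sub_zero] at this
    clear hz
    induction z with
    | zero => simp
    | tmul s a =>
      have h : 1 ⊗ₜ[k] a - a ⊗ₜ[k] 1 ∈ RingHom.ker (lmul' k (S := A)) := by simp [RingHom.mem_ker]
      convert Ideal.mul_mem_left _ (s ⊗ₜ 1) (Ideal.mem_map_of_mem (cf A x) h) using 1
      simp [mul_sub]
    | add y z h1 h2 =>
      convert add_mem h1 h2 using 1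
      rw [map_add, map_add]
      ring

/-- The ideal of the residual divisor. -/
noncomputable def JJ (J : Ideal (A ⊗[k] A)) (x : Fin n → A →ₐ[k] S) : Ideal (S ⊗[k] A) :=
  ∏ i, J.map (cf A (x i))

/-- The monic element that vanishes on the fibres through the given points. -/
noncomputable def aa (F : Fil k A (Fin r)) (x : Fin n → A →ₐ[k] S) : S ⊗[k] A :=
  ∏ i, ((F.bc S).g - algebraMap S _ (x i F.g))

theorem mon_aa (x : Fin n → A →ₐ[k] S) : (F.bc S).Mon (aa F x) n := by
  simpa [aa] using Mon.prod (F := F.bc S) Finset.univ fun i => Mon.lin (x i F.g)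

theorem cf_aa (ξ : S →ₐ[k] S') (x : Fin n → A →ₐ[k] S) :
    cf A ξ (aa F x) = aa F fun i => ξ.comp (x i) := by simp [aa, bc]

theorem map_JJ (ξ : S →ₐ[k] S') (x : Fin n → A →ₐ[k] S) :
    (JJ J x).map (cf A ξ) = JJ J fun i => ξ.comp (x i) :=
  (map_prod (Ideal.mapHom (cf A ξ)) _ _).trans (Finset.prod_congr rfl fun i _ => by
    rw [Ideal.mapHom_apply, Ideal.map_mapₐ, ← map_comp, AlgHom.comp_id])

variable (hJ : J * RingHom.ker (lmul' k (S := A)) = Ideal.span {1 ⊗ₜ F.g - F.g ⊗ₜ 1})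
include hJ

theorem JJ_mul (x : Fin n → A →ₐ[k] S) :
    JJ J x * ∏ i, RingHom.ker (ev (x i)) = Ideal.span {aa F x} := by
  rw [JJ, aa, ← Finset.prod_mul_distrib, ← Ideal.prod_span_singleton]
  refine Finset.prod_congr rfl fun i _ => ?_
  rw [← map_ker, ← Ideal.map_mul, hJ, Ideal.map_span]
  simp [bc]

theorem aa_mem (x : Fin n → A →ₐ[k] S) : aa F x ∈ JJ J x :=
  Ideal.mul_le_left ((JJ_mul hJ x).ge (Ideal.mem_span_singleton_self _))

theorem tq_aa {Ω : Type} [Field Ω] [Algebra k Ω] (x : Fin n → A →ₐ[k] Ω) (w : Ω ⊗[k] A) :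
    tq Ω (Ideal.span {aa F x}) w = ∑ i, ev (x i) w + tq Ω (JJ J x) w := by
  have := (mon_aa (F := F) x).finite
  rw [← JJ_mul hJ]
  exact tq_prod _ _ (L' := ⊤) (fun _ => (mon_aa x).regular) (by rw [Ideal.mul_top, JJ_mul hJ]) w

variable (hd : ∀ b : A, b ≠ 0 → ∃ p : k[X], p.Monic ∧ b ∣ Polynomial.aeval F.g p)
  (hn : n = 2 * F.c * r + F.c + F.c + 1)
include hd hn

theorem interp_pt (x : Fin n → A →ₐ[k] k) (y : k ⊗[k] A) :
    ∃ j ∈ JJ J x, y - j ∈ (F.bc k).V (2 * F.c * r + F.c) := by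
  have := (mon_aa (F := F) x).finite
  have := finite_of_le (Ω := k) ((Ideal.span_singleton_le_iff_mem _).2 (aa_mem hJ x))
  have h1 := tq_aa hJ x 1
  have h2 := Algebra.trace_algebraMap (R := k) (S := (k ⊗[k] A) ⧸ JJ J x) 1
  rw [(mon_aa x).tq_one] at h1
  simp only [tq, LinearMap.comp_apply, AlgHom.toLinearMap_apply, map_one, Finset.sum_const,
    Finset.card_univ, Fintype.card_fin, nsmul_one] at h1 h2
  rw [h2, ← Nat.cast_add, Nat.cast_inj] at h1
  obtain ⟨b, h3, h4, h5⟩ : ∃ b ∈ (F.bc k).V (2 * F.c * r + 1), b ∈ JJ J x ∧ b ≠ 0 := by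
    by_contra! H
    have := (li_quot H).fintype_card_le_finrank
    simp only [Fintype.card_prod, Fintype.card_fin] at this
    have h3 : n * r = (2 * F.c * r + 1) * r + 2 * F.c * r := by rw [hn]; ring
    omega
  obtain ⟨b, rfl⟩ := (Algebra.TensorProduct.lid k A).symm.surjective b
  obtain ⟨p, hp, h6⟩ := hd b fun h => h5 (by rw [h, map_zero])
  have h7 := map_dvd (includeRight : A →ₐ[k] k ⊗[k] A) h6
  rw [← Polynomial.aeval_algHom_apply] at h7
  obtain ⟨q, hq⟩ := interp h3 hp h7 y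
  exact ⟨_, Ideal.mul_mem_right q _ h4, hq⟩

open scoped Pointwise in
theorem exists_mon [IsAlgClosed k] [Algebra.FiniteType k S] (x : Fin n → A →ₐ[k] S) :
    ∃ b ∈ JJ J x, (F.bc S).Mon b (2 * F.c * r + F.c + F.c) := by
  let N := (JJ J x).restrictScalars S ⊔ (F.bc S).V (2 * F.c * r + F.c)
  have key : N.colon Set.univ = ⊤ := by
    by_contra H
    obtain ⟨m, hm, hle⟩ := Ideal.exists_le_maximal _ H
    obtain ⟨ξ, rfl⟩ := exists_point (k := k) S m
    have sec : ∀ z, cf A ξ (cf A (Algebra.ofId k S) z) = z := fun z => by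
      rw [← AlgHom.comp_apply, ← map_comp, Subsingleton.elim (ξ.comp _) (AlgHom.id k k)]
      simp
    obtain ⟨s, h1, h2⟩ := Submodule.exists_sub_one_mem_and_smul_le_of_fg_of_le_sup
      (I := RingHom.ker ξ) (N := N) (N' := (F.bc S).V n) (P := ⊤)
      (Submodule.fg_span ((((Set.finite_Iio n).prod Set.finite_univ).subset
        fun p hp => ⟨hp, trivial⟩).image _)) le_top fun y _ => by
        obtain ⟨j, hj, hv⟩ := interp_pt hJ hd hn (fun i => ξ.comp (x i)) (cf A ξ y)
        rw [← map_JJ] at hj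
        obtain ⟨j, hj', rfl⟩ := (Ideal.mem_map_iff_of_surjective _ fun z => ⟨_, sec z⟩).1 hj
        have h1 := mem_of_cf F ξ (y := y - j - cf A (Algebra.ofId k S) (cf A ξ y - cf A ξ j))
          (by rw [map_sub, sec, map_sub, sub_self])
        have h2 : RingHom.ker ξ • (⊤ : Submodule S (S ⊗[k] A)) ≤
            N ⊔ RingHom.ker ξ • (F.bc S).V n := Submodule.smul_le.2 fun s hs z _ => by
          obtain ⟨q, hq⟩ := (mon_aa (F := F) x).div z
          rw [← add_sub_cancel (aa F x * q) z, smul_add]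
          exact Submodule.add_mem_sup (N.smul_mem _ (Submodule.mem_sup_left
            (Ideal.mul_mem_right q _ (aa_mem hJ x)))) (Submodule.smul_mem_smul hs hq)
        convert add_mem (h2 h1) (Submodule.mem_sup_left
          (Submodule.add_mem_sup (S := (JJ J x).restrictScalars S) hj'
            (cf_mem (Algebra.ofId k S) hv))) using 1
        ring
    have h3 : s ∈ RingHom.ker ξ := hle (Submodule.mem_colon.2 fun y _ =>
      h2 (Submodule.smul_mem_pointwise_smul _ _ _ trivial))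
    simpa [RingHom.mem_ker] using sub_mem h3 h1
  have h1 := Submodule.mem_colon.1 (key.ge (trivial : (1 : S) ∈ ⊤))
    ((F.bc S).g ^ (2 * F.c * r + F.c + F.c)) trivial
  obtain ⟨b, hb, v, hv, e⟩ := Submodule.mem_sup.1 h1
  refine ⟨b, hb, ?_⟩
  rw [Mon, ← one_smul S ((F.bc S).g ^ _), ← e, sub_add_cancel_left]
  exact deg_of_mem (V_mono (Nat.le_succ _) (neg_mem hv))

omit hJ hd hn in
theorem exists_pts {Ω E ι : Type} [Field Ω] [IsAlgClosed Ω] [CommRing E] [Algebra Ω E] [Finite ι]
    {G : Fil Ω E ι} {L : Ideal E} {a b c : E} {m : ℕ} (ha : a ∈ L) (hb : b ∈ L) {t : Ω}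
    (h1 : G.Mon b m) {l : ℕ} (h2 : G.Mon ((1 - t) • a + t • (c * b)) l) (x : E →ₐ[Ω] Ω)
    (hx : x c = 0) : ∃ (κ : Type) (_ : Fintype κ) (y : κ → E →ₐ[Ω] Ω),
      (∀ j, y j ((1 - t) • a + t • (c * b)) = 0) ∧
      (∀ w, tq Ω (Ideal.span {(1 - t) • a + t • (c * b)}) w = ∑ j, y j w + tq Ω L w) ∧
      (t = 1 → ∃ j, y j = x) := by
  by_cases ht : t = 1
  · subst ht
    simp only [sub_self, zero_smul, one_smul, zero_add] at h2 ⊢
    have := h1.finite
    have := h2.finite
    have h3 : Ideal.span {c * b} ≤ Ideal.span {b} * RingHom.ker x :=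
      (Ideal.span_singleton_le_iff_mem _).2 (mul_comm b c ▸
        Ideal.mul_mem_mul (Ideal.mem_span_singleton_self b) hx)
    have := finite_of_le (Ω := Ω) h3
    obtain ⟨_, y, hy, hy'⟩ := tq_chain (Ω := Ω) h3
    obtain ⟨_, z, hz, hz'⟩ := tq_chain (Ω := Ω) ((Ideal.span_singleton_le_iff_mem _).2 hb)
    refine ⟨_, inferInstance, Sum.elim y fun o => Option.elim o x z, ?_, fun w => ?_,
      fun _ => ⟨.inr none, rfl⟩⟩
    · rintro (j | _ | j)
      · exact hy j _ (Ideal.mem_span_singleton_self _)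
      · simp [hx]
      · simp [hz j _ (Ideal.mem_span_singleton_self _)]
    · rw [hy', tq_mul_ker (fun _ => h1.regular) (Ideal.mul_top _), hz']
      simp [add_assoc]
  · have := h2.finite
    obtain ⟨_, y, hy, hy'⟩ := tq_chain (Ω := Ω) ((Ideal.span_singleton_le_iff_mem _).2 (add_mem
      (L.smul_of_tower_mem (1 - t) ha) (L.smul_of_tower_mem t (L.mul_mem_left c hb))))
    exact ⟨_, inferInstance, y, fun j => hy j _ (Ideal.mem_span_singleton_self _), hy',
      fun h => (ht h).elim⟩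

theorem exists_family [IsAlgClosed k] [Algebra.FiniteType k S] (x : Fin n → A →ₐ[k] S) (t : S)
    (x₀ : A →ₐ[k] k) : ∃ τ : A →ₗ[k] S,
      (∀ ξ : S →ₐ[k] S', ξ t = 0 → ξ.toLinearMap ∘ₗ τ = ∑ i, (ξ.comp (x i)).toLinearMap) ∧
      ∀ (O : Aic k) (ξ : S →ₐ[k] O), ∃ (κ : Type) (_ : Fintype κ) (y : κ → A →ₐ[k] O),
        Fintype.card κ = n ∧ ξ.toLinearMap ∘ₗ τ = ∑ j, (y j).toLinearMap ∧
        (ξ t = 1 → ∃ j, ∀ a, y j a = algebraMap k O (x₀ a)) := by
  obtain ⟨b, hb, hm⟩ := exists_mon hJ hd hn x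
  let c := (F.bc S).g - algebraMap S _ (algebraMap k S (x₀ F.g))
  have h1 : (F.bc S).Mon ((1 - t) • aa F x + t • (c * b)) n :=
    (mon_aa x).affine (by rw [hn, mul_comm, add_comm]; exact hm.mul (Mon.lin _)) t
  refine ⟨(tq S (Ideal.span {(1 - t) • aa F x + t • (c * b)}) -
    tq S (Ideal.span {aa F x})).restrictScalars k ∘ₗ includeRight.toLinearMap +
    ∑ i, (x i).toLinearMap, fun ξ ht => LinearMap.ext fun a => ?_, fun O ξ => ?_⟩
  · simp [← h1.tq_cf ξ, ← (mon_aa x).tq_cf ξ, cf_smul, ht]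
  let ζ := (IsScalarTower.toAlgHom k O (FractionRing O)).comp ξ
  have inj := IsFractionRing.injective O (FractionRing O)
  have e : cf A ζ ((1 - t) • aa F x + t • (c * b)) =
      (1 - ζ t) • cf A ζ (aa F x) + ζ t • (cf A ζ c * cf A ζ b) := by
    rw [map_add, cf_smul, cf_smul, map_sub, map_one, map_mul]
  have h2 := h1.cf ζ
  obtain ⟨κ, _, y, hy, hy', hy''⟩ := exists_pts (Ideal.mem_map_of_mem _ (aa_mem hJ x))
    (Ideal.mem_map_of_mem _ hb) (hm.cf ζ) (e ▸ h2) (ev ((Algebra.ofId k _).comp x₀))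
    (by simp [c, bc, Algebra.ofId_apply])
  have h3 := tq_aa hJ fun i => ζ.comp (x i)
  rw [← e] at hy hy'
  rw [← map_JJ, ← cf_aa] at h3
  have := h1.finite
  have int : ∀ j a, IsIntegral O (y j (1 ⊗ₜ a)) := fun j a => by
    let ψ := Ideal.Quotient.lift (Ideal.span {(1 - t) • aa F x + t • (c * b)})
      ((y j).toRingHom.comp (cf A ζ).toRingHom) fun w hw => by
        obtain ⟨q, rfl⟩ := Ideal.mem_span_singleton.1 hw
        rw [map_mul]
        exact mul_eq_zero_of_left (hy j) _
    have := (Algebra.IsIntegral.isIntegral (R := S) (Ideal.Quotient.mk _ (1 ⊗ₜ a))).map_of_comp_eq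
      (ξ : S →+* O) ψ (RingHom.ext fun s => ((y j).commutes (ζ s)).symm)
    simpa [ψ] using this
  choose z hz using fun j =>
    O.exists_of_isIntegral (((y j).restrictScalars k).comp includeRight) (int j)
  have hz' : ∀ j a, algebraMap O (FractionRing O) (z j a) = y j (1 ⊗ₜ a) :=
    fun j a => congr($(hz j) a)
  refine ⟨κ, inferInstance, z, ?_, LinearMap.ext fun a => inj ?_, fun ht => ?_⟩
  · have := charZero_of_injective_algebraMap (algebraMap k (FractionRing O)).injective
    have h4 := hy' 1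
    rw [h2.tq_one, ← ((mon_aa x).cf ζ).tq_one, h3] at h4
    simpa using h4.symm
  · have h4 := h1.tq_cf ζ (1 ⊗ₜ a)
    have h5 := (mon_aa (F := F) x).tq_cf ζ (1 ⊗ₜ a)
    rw [hy'] at h4
    rw [h3] at h5
    simp only [LinearMap.sum_apply, map_sum, AlgHom.toLinearMap_apply, hz', LinearMap.comp_apply]
    change ζ _ = _
    simp only [LinearMap.add_apply, LinearMap.comp_apply, LinearMap.restrictScalars_apply,
      LinearMap.sub_apply, map_add, map_sub, AlgHom.toLinearMap_apply, includeRight_apply, ← h4,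
      ← h5]
    simp
  · obtain ⟨j, hj⟩ := hy'' (by simp [ζ, ht])
    exact ⟨j, fun a => inj (by
      simp [hz', hj, Algebra.ofId_apply, ← IsScalarTower.algebraMap_apply])⟩

end Curve

/-- The point of `A` is the constant point `x`. -/
def Pr.isPt {A : Type} [CommRing A] [Algebra k A] (x : A →ₐ[k] k) : Pr k A :=
  ⟨fun {O} φ => ∀ a, φ a = algebraMap k O (x a), fun g φ h a => by simp [h a]⟩

open Curve in
theorem curve_homotopy [IsAlgClosed k] (A : Type) [CommRing A] [IsDomain A] [Algebra k A]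
    [Algebra k[X] A] [IsScalarTower k k[X] A] [Algebra.Etale k[X] A] :
    ∃ (n : ℕ) (x : A →ₐ[k] k) (H : (⨂[k] _ : Fin n, A) →ₗ[k] (⨂[k] _ : Fin n, A)[X]),
      (∀ (O : Aic k) (ξ : (⨂[k] _ : Fin n, A)[X] →ₐ[k] O), ξ.toLinearMap ∘ₗ H ∈ Sp .top O) ∧
      (∀ a, (H a).eval 0 = ∑ σ : Equiv.Perm (Fin n), PiTensorProduct.reindex k (fun _ => A) σ a) ∧
      ∀ (O : Aic k) (ξ : (⨂[k] _ : Fin n, A)[X] →ₐ[k] O), ξ Polynomial.X = 1 →
        ξ.toLinearMap ∘ₗ H ∈
          Sp (.ex fun i : Fin n => (Pr.isPt x).comap (PiTensorProduct.singleAlgHom i)) O := by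
  have : Algebra.FiniteType k A := .trans (S := k[X]) inferInstance inferInstance
  obtain ⟨φ, hi, hf⟩ := exists_finite (k := k) (A := A)
  obtain ⟨r, F, hd⟩ := exists_fil φ hi hf
  obtain ⟨J, hJ⟩ := exists_inv (γ := 1 ⊗ₜ[k] F.g - F.g ⊗ₜ[k] 1) (by simp [RingHom.mem_ker])
  obtain ⟨m, hm⟩ := Ideal.exists_maximal A
  obtain ⟨x, -⟩ := exists_point (k := k) A m
  obtain ⟨n, hn⟩ : ∃ n, n = 2 * F.c * r + F.c + F.c + 1 := ⟨_, rfl⟩
  have := finiteType_pow (k := k) (A := A) (n := n)
  have : Algebra.FiniteType k (⨂[k] _ : Fin n, A)[X] :=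
    .trans (S := ⨂[k] _ : Fin n, A) inferInstance inferInstance
  obtain ⟨τ, h0, h1⟩ := exists_family (S' := ⨂[k] _ : Fin n, A) hJ hd hn
    (fun i => Polynomial.CAlgHom.comp (sg i)) (Polynomial.X : (⨂[k] _ : Fin n, A)[X]) x
  refine ⟨n, x, Phi τ n, fun O ξ => ?_, fun a => ?_, fun O ξ hξ => ?_⟩
  · obtain ⟨κ, _, y, -, hy, -⟩ := h1 O ξ
    rw [comp_Phi, hy, Phi_sum]
    refine sum_mem fun f _ => ?_
    split_ifs
    exacts [Sp.pt trivial, zero_mem _]
  · let ξ := (Polynomial.aeval (R := ⨂[k] _ : Fin n, A) (0 : ⨂[k] _ : Fin n, A)).restrictScalars k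
    have h2 := comp_Phi ξ τ n
    have h3 : ∀ i, ξ.comp (Polynomial.CAlgHom.comp (sg i)) = sg i := fun i =>
      AlgHom.ext fun a => by simp [ξ]
    simp only [h0 ξ (Polynomial.aeval_X _), h3, Phi_sum] at h2
    rw [← Polynomial.coe_aeval_eq_eval]
    refine (LinearMap.congr_fun h2 a).trans ?_
    rw [LinearMap.sum_apply]
    refine (Finset.sum_of_injOn (fun σ : Equiv.Perm (Fin n) => (σ : Fin n → Fin n))
      DFunLike.coe_injective.injOn (fun _ _ => Finset.mem_univ _) (fun f _ hf => ?_)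
      fun σ _ => ?_).symm
    · rw [if_neg fun h => hf ⟨.ofBijective f h.bijective_of_finite, by simp, rfl⟩,
        LinearMap.zero_apply]
    · rw [if_pos σ.injective]
      refine LinearMap.congr_fun (f := (PiTensorProduct.reindex k (fun _ => A) σ).toLinearMap)
        (PiTensorProduct.ext (MultilinearMap.ext fun w => ?_)) a
      simp only [LinearMap.compMultilinearMap_apply, LinearEquiv.coe_coe, AlgHom.toLinearMap_apply,
        PiTensorProduct.reindex_tprod, pt_tprod]
      rw [← prod_sg, ← Equiv.prod_comp σ]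
      simp
  · obtain ⟨κ, _, y, hκ, hy, hx⟩ := h1 O ξ
    obtain ⟨j, hj⟩ := hx hξ
    rw [comp_Phi, hy, Phi_sum]
    refine sum_mem fun f _ => ?_
    split_ifs with hf
    · obtain ⟨i, rfl⟩ := ((Fintype.bijective_iff_injective_and_card f).2 ⟨hf, by simp [hκ]⟩).2 j
      exact Sp.pt ⟨i, fun a => (pt_sg _ i a).trans (hj a)⟩
    · exact zero_mem _

end Pool.Agent.Lib.MP_fc2ced_ag
end

-- part Pool.Agent.Lib.MP_fc2ced_ag.PurityA
section

/-!
Motives with supports: the excision calculus.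
-/

open CategoryTheory
open scoped TensorProduct Polynomial

set_option linter.unusedSectionVars false

namespace Pool.Agent.Lib.MP_fc2ced_ag

open Obj

variable {k : Type} [Field k] [CharZero k]

variable {B : Type} [CommRing B] [Algebra k B]

/-- One of the functions in `s` is invertible. -/
def Pr.anyUnit (s : Set B) : Pr k B :=
  ⟨fun φ => ∃ x ∈ s, IsUnit (φ x), fun g _ ⟨x, hx, h⟩ => ⟨x, hx, h.map g⟩⟩

@[simp] theorem Pr.anyUnit_p {s : Set B} {O : Aic k} {φ : B →ₐ[k] O} :
    (Pr.anyUnit s).p φ ↔ ∃ x ∈ s, IsUnit (φ x) := Iff.rfl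

variable (k) in
/-- The motive of the open set where `g` is invertible, with supports in the zero set of `s`. -/
abbrev Obj.sup (g : B) (s : Set B) : Obj k := ⟨B, .unit g, .anyUnit s⟩

namespace Pu

variable {M M' M'' : Obj k}

/-- The homomorphism `ψ` is compatible with the conditions. -/
structure AH (M M' : Obj k) (ψ : M'.B →ₐ[k] M.B) : Prop where
  n : ∀ {O : Aic k} (φ : M.B →ₐ[k] O), M.N.p φ → M'.N.p (φ.comp ψ)
  d : ∀ {O : Aic k} (φ : M.B →ₐ[k] O), M.N.p φ → M.D.p φ → M'.D.p (φ.comp ψ)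

/-- The homomorphism `ψ` induces a map that is invertible in all theories. -/
def UI (M M' : Obj k) (ψ : M'.B →ₐ[k] M.B) : Prop :=
  ∃ f : M ⟶ M', f.1 = ψ.toLinearMap ∧ UIso f

theorem ui_of_isE {β : M'.B →ₐ[k] M.B} (h : IsE M M' β) : UI M M' β := ⟨_, rfl, h.uiso⟩

theorem UI.trans {β : M'.B →ₐ[k] M.B} {γ : M''.B →ₐ[k] M'.B} (h : UI M M' β)
    (h' : UI M' M'' γ) : UI M M'' (β.comp γ) := by
  obtain ⟨f, e, h⟩ := h
  obtain ⟨g, e', h'⟩ := h'
  exact ⟨f ≫ g, by rw [comp_val, e, e']; rfl, h.comp h'⟩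

theorem UI.cancel {β : M'.B →ₐ[k] M.B} {γ : M''.B →ₐ[k] M'.B} {δ : M''.B →ₐ[k] M.B}
    (h : UI M M' β) (h' : UI M M'' δ) (a : AH M' M'' γ) (e : β.comp γ = δ) : UI M' M'' γ := by
  obtain ⟨f, e1, h⟩ := h
  obtain ⟨g, e2, h'⟩ := h'
  have : g = f ≫ ofAlg γ a.n a.d := hom_ext (by rw [comp_val, e1, e2, ← e]; rfl)
  exact ⟨ofAlg γ a.n a.d, rfl, h.of_comp_left (this ▸ h')⟩

theorem UI.uiso {β : M'.B →ₐ[k] M.B} (h : UI M M' β) {f : M ⟶ M'} (e : f.1 = β.toLinearMap) :
    UIso f := by
  obtain ⟨g, e', h⟩ := h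
  rwa [show f = g from hom_ext (e.trans e'.symm)]

theorem isE_away {C : Type} [CommRing C] [Algebra k C] [Algebra B C] [IsScalarTower k B C] (g : B)
    [IsLocalization.Away g C] {N D : Pr k B} {N' D' : Pr k C}
    (hg : ∀ {O : Aic k} (χ : B →ₐ[k] O), N.p χ → IsUnit (χ g))
    (n : ∀ {O : Aic k} (φ : C →ₐ[k] O), N.p (φ.comp (IsScalarTower.toAlgHom k B C)) ↔ N'.p φ)
    (d : ∀ {O : Aic k} (φ : C →ₐ[k] O), D.p (φ.comp (IsScalarTower.toAlgHom k B C)) ↔ D'.p φ) :
    IsE ⟨C, N', D'⟩ ⟨B, N, D⟩ (IsScalarTower.toAlgHom k B C) where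
  n φ := (n φ).2
  d φ _ := d φ
  inj ψ ψ' _ _ _ e := AlgHom.coe_ringHom_injective
    (IsLocalization.ringHom_ext (Submonoid.powers g) congr(($e).toRingHom))
  surj χ h _ := by
    have e : (IsLocalization.Away.liftAlgHom (S := C) g (hg χ h)).comp
        (IsScalarTower.toAlgHom k B C) = χ := by ext; simp
    exact ⟨_, (n _).1 (by rwa [e]), e⟩

theorem tri_ins (g x : B) (s : Set B) :
    Tri (sup k (g * x) s) (sup k g s) (sup k g (insert x s)) (.id k B) (.id k B) :=
  Tri.std (fun _ h => by simp_all) (fun _ _ => Iff.rfl) (fun _ h => h)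
    (fun _ h => by simp_all [or_comm]) fun _ h _ => h

theorem con_sup [Algebra.Smooth k B] (g : B) {s : Set B} (hs : s.Finite) : Con (sup k g s) := by
  induction s, hs using Set.Finite.induction_on generalizing g with
  | empty =>
    exact (Con.isE_iff (M := loc k g) (M' := sup k g ∅)
      (IsE.std (fun _ h => h) (fun _ _ => by simp) fun _ h _ => h)).1 (.loc g)
  | insert _ _ ih => exact Con.tri₃ (tri_ins g _ _) (ih _) (ih _)

attribute [local instance] Algebra.TensorProduct.rightAlgebra in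
/-- Nisnevich excision with extra supports. -/
theorem nis {B' : Type} [CommRing B'] [Algebra k B'] [Algebra B B'] [IsScalarTower k B B'] {f : B}
    (h : NisData k B B' f) (g : B) {t : Set B} (ht : t.Finite) :
    UI (sup k (algebraMap B B' g) (algebraMap B B' '' insert f t)) (sup k g (insert f t))
      (IsScalarTower.toAlgHom k B B') := by
  have ah : ∀ (g : B) (s : Set B), AH (sup k (algebraMap B B' g) (algebraMap B B' '' s))
      (sup k g s) (IsScalarTower.toAlgHom k B B') :=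
    fun g s => ⟨fun _ h => h, fun _ _ h => by simpa using h⟩
  induction t, ht using Set.Finite.induction_on generalizing g with
  | empty =>
    have := h.smooth
    let C := Localization.Away g
    have : Algebra.Smooth k C := .comp k B _
    have : IsScalarTower k B' (C ⊗[B] B') := .of_algebraMap_eq fun r => by
      rw [IsScalarTower.algebraMap_apply k B, IsScalarTower.algebraMap_apply k B B',
        ← IsScalarTower.algebraMap_apply B B']
    have e : ∀ b, algebraMap B' (C ⊗[B] B') (algebraMap B B' b) =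
        algebraMap C (C ⊗[B] B') (algebraMap B C b) := fun b => by
      rw [← IsScalarTower.algebraMap_apply, ← IsScalarTower.algebraMap_apply]
    have E1 : IsE (rel k (algebraMap B C f)) (sup k g (insert f ∅))
        (IsScalarTower.toAlgHom k B C) := isE_away g (fun _ h => h)
      (fun φ => iff_of_true ((IsLocalization.Away.algebraMap_isUnit g).map φ) trivial)
      fun φ => by simp
    have E2 : IsE (rel k (IsScalarTower.toAlgHom k C (C ⊗[B] B') (algebraMap B C f)))
        (sup k (algebraMap B B' g) (algebraMap B B' '' insert f ∅))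
        (IsScalarTower.toAlgHom k B' (C ⊗[B] B')) := isE_away (algebraMap B B' g) (fun _ h => h)
      (fun φ => iff_of_true
        ((IsLocalization.Away.algebraMap_isUnit (algebraMap B B' g)).map φ) trivial)
      fun φ => by simp [e]
    have U : UI _ _ (IsScalarTower.toAlgHom k C (C ⊗[B] B')) :=
      ⟨_, rfl, .gen (.nis _ _ _ (h.baseChange C))⟩
    exact (ui_of_isE E2).cancel (U.trans (ui_of_isE E1)) (ah _ _) (AlgHom.ext e)
  | @insert x t _ _ ih =>
    have a := ah g (insert x (insert f t))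
    obtain ⟨u, e1, h1⟩ := ih (g * x)
    obtain ⟨v, e2, h2⟩ := ih g
    rw [Set.insert_comm]
    rw [Set.image_insert_eq] at a ⊢
    revert u
    rw [map_mul]
    intro u e1 h1
    exact ⟨ofAlg _ a.n a.d, rfl, (tri_ins _ _ _).five₃ (tri_ins g x (insert f t))
      (hom_ext (by simp [e1, e2])) (hom_ext (by simp [e2])) h1 h2⟩

theorem nis_away [Algebra.Smooth k B] {x y h : B} (e : h ∣ 1 - x * y) :
    NisData k B (Localization.Away x) h where
  smooth := inferInstance
  etale := inferInstance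
  retr := ⟨IsLocalization.Away.liftAlgHom (f := Ideal.Quotient.mkₐ B (Ideal.span {h})) x
    (IsUnit.of_mul_eq_one (Ideal.Quotient.mk _ y) (by
      rw [Ideal.Quotient.mkₐ_eq_mk, ← map_mul, eq_comm, ← map_one (Ideal.Quotient.mk _),
        Ideal.Quotient.eq]
      exact Ideal.mem_span_singleton.2 e))⟩
  surj z := by
    obtain ⟨n, a, ha⟩ := IsLocalization.Away.surj x z
    refine ⟨a * y ^ n, ?_⟩
    have h1 : h ∣ 1 ^ n - (x * y) ^ n := e.trans (sub_dvd_pow_sub_pow _ _ n)
    have h2 := (map_dvd (algebraMap B (Localization.Away x)) h1).mul_left z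
    rwa [one_pow, mul_pow, map_sub, map_one, map_mul, mul_sub, mul_one, ← mul_assoc, map_pow, ha,
      ← map_mul] at h2

/-- Zariski excision. -/
theorem zar [Algebra.Smooth k B] {g x a h : B} {n : ℕ} (e : g ^ n = a * x + h) {s : Set B}
    (hs : s.Finite) : UI (sup k (g * x) (insert h s)) (sup k g (insert h s)) (.id k B) := by
  let C := Localization.Away g
  have : Algebra.Smooth k C := .comp k B _
  let C' := Localization.Away (algebraMap B C x)
  obtain ⟨y, hy⟩ := ((IsLocalization.Away.algebraMap_isUnit (S := C) g).pow n).exists_right_inv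
  have N : NisData k C C' (algebraMap B C h) := nis_away (y := algebraMap B C a * y) ⟨y, by
    rw [← map_pow, e, map_add, map_mul] at hy
    linear_combination -hy⟩
  have U := nis N (algebraMap B C g) (hs.image (algebraMap B C))
  have E1 : IsE (sup k (algebraMap B C g) (insert (algebraMap B C h) (algebraMap B C '' s)))
      (sup k g (insert h s)) (IsScalarTower.toAlgHom k B C) :=
    isE_away g (fun _ h => h) (fun _ => Iff.rfl) fun _ => by simp
  have E2 : IsE (sup k (algebraMap C C' (algebraMap B C g))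
      (algebraMap C C' '' insert (algebraMap B C h) (algebraMap B C '' s)))
      (sup k (algebraMap B C (g * x)) (insert (algebraMap B C h) (algebraMap B C '' s)))
      (IsScalarTower.toAlgHom k C C') :=
    isE_away (algebraMap B C x) (fun _ h => by simp_all) (fun φ => by
      have := (IsLocalization.Away.algebraMap_isUnit (S := C') (algebraMap B C x)).map φ
      simp [this]) fun _ => by simp
  have E3 : IsE (sup k (algebraMap B C (g * x)) (insert (algebraMap B C h) (algebraMap B C '' s)))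
      (sup k (g * x) (insert h s)) (IsScalarTower.toAlgHom k B C) :=
    isE_away g (fun _ h => by simp_all) (fun _ => Iff.rfl) fun _ => by simp
  exact (ui_of_isE (E2.trans E3)).cancel (U.trans (ui_of_isE E1))
    ⟨fun _ h => by simp_all, fun _ _ h => h⟩ rfl

theorem mem_rad {g : B} {s : Set B} :
    (∀ P : Ideal B, P.IsPrime → s ⊆ P → g ∈ P) ↔ ∃ n, g ^ n ∈ Ideal.span s := by
  rw [← Ideal.mem_radical_iff, Ideal.radical_eq_sInf, Ideal.mem_sInf]
  exact ⟨fun h P hP => h P hP.2 (Ideal.span_le.1 hP.1), fun h P h1 h2 => h ⟨Ideal.span_le.2 h2, h1⟩⟩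

/-- Empty support. -/
theorem uzero_sup [Algebra.Smooth k B] {g : B} {s : Set B} (hs : s.Finite)
    (h : ∀ P : Ideal B, P.IsPrime → s ⊆ P → g ∈ P) : UZero (sup k g s) := by
  induction s, hs using Set.Finite.induction_on generalizing g with
  | empty =>
    obtain ⟨n, hn⟩ := mem_rad.1 h
    rw [Ideal.span_empty, Ideal.mem_bot] at hn
    refine .dead fun φ h1 => absurd ((h1 : IsUnit (φ g)).pow n) ?_
    rw [← map_pow, hn, map_zero]
    exact not_isUnit_zero
  | @insert x s _ hs ih =>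
    obtain ⟨n, hn⟩ := mem_rad.1 h
    obtain ⟨a, z, hz, e⟩ := Ideal.mem_span_insert.1 hn
    have key : ∀ g : B, UI (sup k g s) (sup k g (insert z s)) (.id k B) := fun g =>
      ⟨_, rfl, (tri_ins g z s).uzero₁_iff.1
        (ih fun P _ hP => P.mul_mem_left _ (Ideal.span_le.2 hP hz))⟩
    refine (tri_ins g x s).uzero₃_iff.2 fun Θ => ?_
    obtain ⟨u, eu, hu⟩ := key g
    obtain ⟨v, ev, hv⟩ := (key (g * x)).trans (zar e hs)
    exact UIso.of_comp_right hu
      (by rwa [show (tri_ins g x s).i ≫ u = v from hom_ext (by rw [comp_val, eu, ev]; rfl)]) Θ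

theorem ui_open [Algebra.Smooth k B] {g x : B} {s : Set B} (hs : s.Finite)
    (h : ∀ P : Ideal B, P.IsPrime → s ⊆ P → x ∈ P → g ∈ P) :
    UI (sup k (g * x) s) (sup k g s) (.id k B) :=
  ⟨_, rfl, (tri_ins g x s).uzero₃_iff.1 (uzero_sup (hs.insert x) fun P hP h1 =>
    h P hP (Set.insert_subset_iff.1 h1).2 (Set.insert_subset_iff.1 h1).1)⟩

theorem ui_union [Algebra.Smooth k B] {g : B} {s t : Set B} (hs : s.Finite) (ht : t.Finite)
    (h : ∀ P : Ideal B, P.IsPrime → s ⊆ P → g ∉ P → t ⊆ P) :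
    UI (sup k g s) (sup k g (t ∪ s)) (.id k B) := by
  induction t, ht using Set.Finite.induction_on with
  | empty =>
    rw [Set.empty_union]
    exact ⟨𝟙 _, rfl, .id⟩
  | @insert y t _ ht ih =>
    rw [Set.insert_union]
    refine (ih fun P h1 h2 h3 => (Set.insert_subset_iff.1 (h P h1 h2 h3)).2).trans (γ := .id k B)
      ⟨_, rfl, (tri_ins g y (t ∪ s)).uzero₁_iff.1 (uzero_sup (ht.union hs) fun P h1 h2 => ?_)⟩
    by_cases hg : g ∈ P
    · exact P.mul_mem_right _ hg
    · exact P.mul_mem_left _ (h P h1 (Set.union_subset_iff.1 h2).2 hg (Set.mem_insert _ _))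

section sect

variable {A E B₀ : Type} [CommRing A] [CommRing E] [CommRing B₀] [Algebra A E] [Algebra A B₀]
  {x : A} (hs : Function.Surjective (algebraMap A B₀))
  (hk : ∀ a, algebraMap A B₀ a = 0 ↔ x ∣ a) (ρ : E →ₐ[A] B₀)

include hs hk

theorem exists_gamma [Algebra.Etale A E] :
    ∃ γ : E, ρ γ = 1 ∧ ∀ e, ρ e = 0 → algebraMap A E x ∣ γ * e := by
  obtain ⟨t, h1, h2⟩ := Algebra.FormallyUnramified.iff_exists_tensorProduct.1
    (inferInstance : Algebra.FormallyUnramified A E)
  let Q := E ⧸ Ideal.span {algebraMap A E x}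
  have hx : algebraMap A Q x = 0 :=
    Ideal.Quotient.eq_zero_iff_mem.2 (Ideal.mem_span_singleton_self _)
  let σ : B₀ →ₐ[A] Q := (Ideal.Quotient.liftₐ _ (Algebra.ofId A Q) fun a ha => by
    obtain ⟨c, rfl⟩ := (hk a).1 ha
    rw [map_mul, Algebra.ofId_apply, hx, zero_mul]).comp
      (Ideal.quotientKerAlgEquivOfSurjective (f := Algebra.ofId A B₀) hs).symm.toAlgHom
  let τ : Q →ₐ[A] B₀ := Ideal.Quotient.liftₐ _ ρ fun a ha => by
    obtain ⟨c, rfl⟩ := Ideal.mem_span_singleton.1 ha
    rw [map_mul, ρ.commutes, (hk x).2 dvd_rfl, zero_mul]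
  have hτ : ∀ b, τ (σ b) = b := fun b => by
    obtain ⟨a, rfl⟩ := hs b
    rw [σ.commutes, τ.commutes]
  let Φ := Algebra.TensorProduct.productMap (σ.comp ρ) (Ideal.Quotient.mkₐ A _ : E →ₐ[A] Q)
  obtain ⟨γ, hγ⟩ := Ideal.Quotient.mk_surjective (Φ t)
  refine ⟨γ, ?_, fun e he => ?_⟩
  · have : τ.comp Φ = ρ.comp (Algebra.TensorProduct.lmul' A) := by
      ext e
      · simp [Φ, hτ]
      · simp [Φ]
        rfl
    have h3 := congr($this t)
    rw [AlgHom.comp_apply, AlgHom.comp_apply, h2, map_one, ← hγ] at h3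
    exact h3
  · have h3 := congr(Φ $(h1 e))
    rw [map_mul, map_sub, ← hγ, map_zero] at h3
    rw [← Ideal.mem_span_singleton, ← Ideal.Quotient.eq_zero_iff_mem, mul_comm, map_mul]
    simp only [Φ, Algebra.TensorProduct.productMap_apply_tmul, map_one, one_mul, mul_one,
      AlgHom.comp_apply, he, map_zero, sub_zero] at h3
    exact h3

theorem nis_gamma [Algebra k A] [Algebra.Smooth k A] [Algebra.Etale A E] {γ : E} (h1 : ρ γ = 1)
    (h2 : ∀ e, ρ e = 0 → algebraMap A E x ∣ γ * e) : NisData k A (Localization.Away γ) x where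
  smooth := inferInstance
  etale := inferInstance
  retr := ⟨((Ideal.quotientEquivAlgOfEq A (Ideal.ext fun a =>
    (hk a).trans Ideal.mem_span_singleton.symm)).toAlgHom.comp
      (Ideal.quotientKerAlgEquivOfSurjective (f := Algebra.ofId A B₀) hs).symm.toAlgHom).comp
        (IsLocalization.Away.liftAlgHom (f := ρ) γ (h1 ▸ isUnit_one))⟩
  surj z := by
    obtain ⟨n, e, he⟩ := IsLocalization.Away.surj γ z
    obtain ⟨a, ha⟩ := hs (ρ e)
    refine ⟨a, ?_⟩
    have h3 := map_dvd (algebraMap E (Localization.Away γ))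
      (h2 (e - algebraMap A E a * γ ^ n) (by simp [ha, h1]))
    rw [← IsScalarTower.algebraMap_apply, map_mul, map_sub, ← he, map_mul, map_pow,
      ← IsScalarTower.algebraMap_apply, ← sub_mul] at h3
    have hu := IsLocalization.Away.algebraMap_isUnit (S := Localization.Away γ) γ
    rwa [hu.dvd_mul_left, (hu.pow n).dvd_mul_right] at h3

end sect

end Pu

end Pool.Agent.Lib.MP_fc2ced_ag
end
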