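import Pool.Agent.Lib.MP_fc2ced_ag.Univ
import Pool.Agent.Lib.MP_fc2ced_ag.NReg

-- part Pool.Agent.Lib.MP_fc2ced_ag.Pow
section

/-!
Finite tensor products of objects, and the action of permutations.
-/

open CategoryTheory PiTensorProduct
open scoped TensorProduct

set_option linter.unusedSectionVars false

namespace Pool.Agent.Lib.MP_fc2ced_ag

open Obj

variable {k : Type} [Field k] [CharZero k]

section Lift

variable {ι : Type} [Fintype ι] [DecidableEq ι] {B : ι → Type} [∀ i, CommRing (B i)]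
  [∀ i, Algebra k (B i)] {C : Type} [CommRing C] [Algebra k C]

/-- The product of functionals. -/
noncomputable def bxπ : MultilinearMap k (fun i => B i →ₗ[k] C) ((⨂[k] i, B i) →ₗ[k] C) :=
  (LinearMap.llcomp k _ _ _ (lift (MultilinearMap.mkPiAlgebra k ι C))).compMultilinearMap
    (mapMultilinear k B fun _ => C)

@[simp] theorem bxπ_tprod (l : ∀ i, B i →ₗ[k] C) (x : ∀ i, B i) :
    bxπ l (tprod k x) = ∏ i, l i (x i) := by simp [bxπ]

/-- The homomorphism given by a family of homomorphisms. -/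
noncomputable def piLift (f : ∀ i, B i →ₐ[k] C) : (⨂[k] i, B i) →ₐ[k] C :=
  liftAlgHom ((MultilinearMap.mkPiAlgebra k ι C).compLinearMap fun i => (f i).toLinearMap)
    (by simp) fun x y => by simp [Finset.prod_mul_distrib]

@[simp] theorem piLift_tprod (f : ∀ i, B i →ₐ[k] C) (x : ∀ i, B i) :
    piLift f (tprod k x) = ∏ i, f i (x i) := by simp [piLift]

@[simp] theorem piLift_single (f : ∀ i, B i →ₐ[k] C) (i : ι) (b : B i) :
    piLift f (singleAlgHom i b) = f i b := by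
  rw [singleAlgHom_apply, piLift_tprod, Finset.prod_eq_single i (fun j _ h => by simp [h])
    (by simp)]
  simp

@[simp] theorem piLift_comp (f : ∀ i, B i →ₐ[k] C) (i : ι) :
    (piLift f).comp (singleAlgHom i) = f i := AlgHom.ext (piLift_single f i)

theorem comp_piLift {C' : Type} [CommRing C'] [Algebra k C'] (φ : C →ₐ[k] C')
    (f : ∀ i, B i →ₐ[k] C) (i : ι) :
    (φ.comp (piLift f)).comp (singleAlgHom i) = φ.comp (f i) := by
  rw [AlgHom.comp_assoc, piLift_comp]

theorem map_tprod_eq (φ : (⨂[k] i, B i) →ₐ[k] C) (x : ∀ i, B i) :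
    φ (tprod k x) = ∏ i, φ (singleAlgHom i (x i)) := by
  have : φ = piLift fun i => φ.comp (singleAlgHom i) := algHom_ext fun i => by simp
  conv_lhs => rw [this]
  simp only [piLift_tprod, AlgHom.comp_apply]

theorem prod_single (x : ∀ i, B i) : ∏ i, singleAlgHom (R := k) i (x i) = tprod k x :=
  (map_tprod_eq (.id k _) x).symm

theorem Sp.bxπ {O : Aic k} {P : ∀ i, Pr k (B i)} {R : Pr k (⨂[k] i, B i)}
    (h : ∀ φ : (⨂[k] i, B i) →ₐ[k] O, (∀ i, (P i).p (φ.comp (singleAlgHom i))) → R.p φ)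
    {l : ∀ i, B i →ₗ[k] O} (hl : ∀ i, l i ∈ Sp (P i) O) : bxπ l ∈ Sp R O := by
  suffices ∀ (s : Finset ι) (l : ∀ i, B i →ₗ[k] O), (∀ i, l i ∈ Sp (P i) O) →
      (∀ i ∉ s, ∃ y : B i →ₐ[k] O, (P i).p y ∧ l i = y.toLinearMap) →
      MP_fc2ced_ag.bxπ l ∈ Sp R O from this .univ l hl (by simp)
  intro s
  induction s using Finset.induction_on with
  | empty =>
    intro l _ h2
    choose y h1 h2 using fun i => h2 i (by simp)
    have : MP_fc2ced_ag.bxπ l = (piLift y).toLinearMap := by ext; simp [h2]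
    rw [this]
    exact Sp.pt (h _ fun i => by simpa using h1 i)
  | insert a s _ ih =>
    intro l h1 h2
    rw [← Function.update_eq_self a l]
    refine Sp.ind Sp.smul (MP_fc2ced_ag.bxπ.toLinearMap l a) (fun y hy => ih _ (fun i => ?_)
      fun i hi => ?_) (h1 a)
    · rcases eq_or_ne i a with rfl | hi
      exacts [by simpa using Sp.pt hy, by simpa [hi] using h1 i]
    · rcases eq_or_ne i a with rfl | hi'
      exacts [⟨y, hy, by simp⟩, by simpa [hi'] using h2 i (by simp [hi, hi'])]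

end Lift

variable {ι : Type} [Fintype ι] [DecidableEq ι]

/-- The tensor product of a finite family. -/
noncomputable abbrev Obj.prod (M : ι → Obj k) : Obj k :=
  ⟨⨂[k] i, (M i).B, .all fun i => (M i).N.comap (singleAlgHom i),
    .ex fun i => (M i).D.comap (singleAlgHom i)⟩

section
variable {M M' M'' : ι → Obj k}

theorem comp_map_eq_bxπ {O : Aic k} (φ : (prod M).B →ₐ[k] O) (τ : ∀ i, (M' i).B →ₗ[k] (M i).B) :
    φ.toLinearMap ∘ₗ PiTensorProduct.map τ =
      bxπ fun i => (φ.comp (singleAlgHom i)).toLinearMap ∘ₗ τ i := by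
  ext x; simp [map_tprod_eq φ, -singleAlgHom_apply]

/-- The tensor product of a finite family of morphisms. -/
noncomputable def prodMap (f : ∀ i, M i ⟶ M' i) : prod M ⟶ prod M' :=
  ⟨PiTensorProduct.map fun i => (f i).1,
    fun φ h => by
      rw [comp_map_eq_bxπ]
      exact Sp.bxπ (P := fun i => (M' i).N) (fun _ h => h) fun i => (f i).2.n _ (h i),
    fun φ h ⟨a, ha⟩ => by
      rw [comp_map_eq_bxπ]
      refine Sp.bxπ (P := fun i => (M' i).N.and ((M' i).D.or (.const (i ≠ a))))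
        (fun _ h => ?_) fun i => ?_
      · exact ⟨fun i => (h i).1, a, by simpa using (h a).2⟩
      rcases eq_or_ne i a with rfl | hi
      · refine Sp.le (fun _ h => ?_) ((f i).2.d _ (h i) ha)
        exact ⟨h.1, .inl h.2⟩
      · refine Sp.le (fun _ h => ?_) ((f i).2.n _ (h i))
        exact ⟨h, .inr hi⟩⟩

@[simp] theorem prodMap_val (f : ∀ i, M i ⟶ M' i) :
    (prodMap f).1 = PiTensorProduct.map fun i => (f i).1 := rfl

theorem prodMap_comp (f : ∀ i, M i ⟶ M' i) (g : ∀ i, M' i ⟶ M'' i) :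
    prodMap (fun i => f i ≫ g i) = prodMap f ≫ prodMap g := hom_ext (PiTensorProduct.map_comp _ _)

end

section Split

open Algebra.TensorProduct

variable {κ κ' : Type} [Fintype κ] [DecidableEq κ] [Fintype κ'] [DecidableEq κ'] (e : κ ⊕ κ' ≃ ι)

/-- Splitting the index set. -/
noncomputable def splitHom (B : ι → Type) [∀ i, CommRing (B i)] [∀ i, Algebra k (B i)] :
    (⨂[k] a, B (e (.inl a))) ⊗[k] (⨂[k] b, B (e (.inr b))) →ₐ[k] ⨂[k] i, B i :=
  productMap (piLift fun a => singleAlgHom (e (.inl a))) (piLift fun b => singleAlgHom (e (.inr b)))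

theorem splitHom_tmul {B : ι → Type} [∀ i, CommRing (B i)] [∀ i, Algebra k (B i)]
    (x : ∀ a, B (e (.inl a))) (y : ∀ b, B (e (.inr b))) :
    splitHom (k := k) e B (tprod k x ⊗ₜ tprod k y) = tprod k (e.piCongrLeft B (Sum.rec x y)) := by
  rw [← prod_single (e.piCongrLeft B _), ← e.prod_comp, Fintype.prod_sum_type]
  simp [splitHom, -singleAlgHom_apply]

theorem isE_split (M : ι → Obj k) : IsE (prod M)
    ((prod fun a => M (e (.inl a))).smash (prod fun b => M (e (.inr b))))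
    (splitHom e fun i => (M i).B) := by
  have e1 {O : Aic k} (φ : (prod M).B →ₐ[k] O) (a : κ) :
      ((φ.comp (splitHom e fun i => (M i).B)).comp includeLeft).comp (singleAlgHom a) =
        φ.comp (singleAlgHom (e (.inl a))) := by
    ext; simp [splitHom, -singleAlgHom_apply]
  have e2 {O : Aic k} (φ : (prod M).B →ₐ[k] O) (b : κ') :
      ((φ.comp (splitHom e fun i => (M i).B)).comp includeRight).comp (singleAlgHom b) =
        φ.comp (singleAlgHom (e (.inr b))) := by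
    ext; simp [splitHom, -singleAlgHom_apply]
  refine ⟨fun φ h => ⟨fun a => ?_, fun b => ?_⟩, fun φ _ => ?_, fun φ φ' _ _ _ h => ?_,
    fun {O} χ h _ => ?_⟩
  · simpa only [Pr.comap_p, e1] using h _
  · simpa only [Pr.comap_p, e2] using h _
  · simp only [Pr.or_p, Pr.comap_p, Pr.ex_p, e1, e2]
    rw [e.surjective.exists, Sum.exists]
  · refine algHom_ext fun i => ?_
    obtain ⟨a | b, rfl⟩ := e.surjective i
    · rw [← e1, h, e1]
    · rw [← e2, h, e2]
  · let φ := piLift (e.piCongrLeft (fun i => (M i).B →ₐ[k] O)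
      (Sum.rec (fun a => (χ.comp includeLeft).comp
          (singleAlgHom (A := fun a => (M (e (.inl a))).B) a))
        fun b => (χ.comp includeRight).comp (singleAlgHom (A := fun b => (M (e (.inr b))).B) b)))
    refine ⟨φ, fun i => ?_, tensor_ext (algHom_ext fun a => ?_) (algHom_ext fun b => ?_)⟩
    · obtain ⟨a | b, rfl⟩ := e.surjective i
      · simpa [φ] using h.1 a
      · simpa [φ] using h.2 b
    · rw [e1]; simp [φ]
    · rw [e2]; simp [φ]

/-- Splitting the index set. -/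
noncomputable def split (M : ι → Obj k) : prod M ⟶
    (prod fun a => M (e (.inl a))).smash (prod fun b => M (e (.inr b))) := (isE_split e M).hom

theorem uiso_split (M : ι → Obj k) : UIso (split e M) := (isE_split e M).uiso

theorem split_nat {M M' : ι → Obj k} (f : ∀ i, M i ⟶ M' i) : prodMap f ≫ split e M' =
    split e M ≫ smashMap (prodMap fun a => f (e (.inl a))) (prodMap fun b => f (e (.inr b))) := by
  refine hom_ext (TensorProduct.ext (PiTensorProduct.ext (MultilinearMap.ext fun x =>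
    PiTensorProduct.ext (MultilinearMap.ext fun y => ?_))))
  simp [split, splitHom_tmul]
  refine congrArg _ (funext fun i => ?_)
  obtain ⟨a | b, rfl⟩ := e.surjective i <;> simp

end Split

theorem isE_unique [Unique ι] (M : ι → Obj k) :
    IsE (prod M) (M default) (singleAlgHom (A := fun i => (M i).B) default) where
  n _ h := h default
  d _ _ := by simp [Unique.exists_iff]
  inj _ _ _ _ _ h := algHom_ext fun i => by rwa [Unique.eq_default i]
  surj {O} χ h _ := ⟨piLift (uniqueElim (α := fun i => (M i).B →ₐ[k] O) χ),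
    fun i => by rw [Unique.eq_default i]; simpa using h, by simp⟩

theorem isE_empty [IsEmpty ι] (M : ι → Obj k) : IsE (prod M) (sm k k) (Algebra.ofId k _) where
  n _ _ := trivial
  d _ _ := by simp
  inj _ _ _ _ _ _ := algHom_ext isEmptyElim
  surj _ _ _ := ⟨piLift isEmptyElim, isEmptyElim, Subsingleton.elim _ _⟩

/-- Induction on the index set. -/
@[elab_as_elim] theorem prod_induction {P : ∀ (ι : Type) [Fintype ι] [DecidableEq ι], Prop}
    (h0 : ∀ (ι : Type) [Fintype ι] [DecidableEq ι] [IsEmpty ι], P ι)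
    (h1 : ∀ (ι : Type) [Fintype ι] [DecidableEq ι] (a : ι), P {i // ¬ i = a} → P ι)
    (ι : Type) [Fintype ι] [DecidableEq ι] : P ι := by
  induction h : Fintype.card ι generalizing ι with
  | zero => have := Fintype.card_eq_zero_iff.1 h; exact h0 ι
  | succ n ih =>
    obtain ⟨a⟩ := (Fintype.card_pos_iff (α := ι)).1 (by omega)
    exact h1 ι a (ih _ (by simp [Fintype.card_subtype_compl, h]))

theorem Con.prod {M : ι → Obj k} (h : ∀ i, Con (M i)) : Con (prod M) := by
  revert M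
  refine prod_induction (P := fun ι _ _ => ∀ {M : ι → Obj k}, (∀ i, Con (M i)) → Con (Obj.prod M))
    (fun ι _ _ _ M _ => ?_) (fun ι _ _ a ih M h => ?_) ι
  · exact (Con.isE_iff (isE_empty M)).2 (.sm k)
  · refine (Con.isE_iff (isE_split (Equiv.sumCompl (· = a)) M)).2 (.smash ?_ (ih fun _ => h _))
    exact (Con.isE_iff (isE_unique fun i => M (Equiv.sumCompl (· = a) (.inl i)))).2 (h _)

theorem UIso.prod_unique [Unique ι] {M M' : ι → Obj k} {f : ∀ i, M i ⟶ M' i}
    (hf : UIso (f default)) : UIso (prodMap f) := by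
  refine .of_comp_right (isE_unique M').uiso ?_
  convert (isE_unique M).uiso.comp hf using 1
  refine hom_ext (LinearMap.ext fun x => ?_)
  simp
  refine congrArg _ (funext fun i => ?_)
  rw [Unique.eq_default i]
  simp

theorem UIso.prod {M M' : ι → Obj k} {f : ∀ i, M i ⟶ M' i} (hf : ∀ i, UIso (f i))
    (h : ∀ i, Con (M i)) : UIso (prodMap f) := by
  revert M M'
  refine prod_induction (P := fun ι _ _ => ∀ {M M' : ι → Obj k} {f : ∀ i, M i ⟶ M' i},
    (∀ i, UIso (f i)) → (∀ i, Con (M i)) → UIso (prodMap f))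
    (fun ι _ _ _ M M' f _ _ => ?_) (fun ι _ _ a ih M M' f hf h => ?_) ι
  · refine .of_comp_right (isE_empty M').uiso ?_
    convert (isE_empty M).uiso using 1
    refine hom_ext (LinearMap.ext_ring ?_)
    simpa [PiTensorProduct.one_def] using congrArg _ (Subsingleton.elim _ _)
  · have h' i := (Con.uiso_iff (hf i)).1 (h i)
    refine .of_comp_right (uiso_split (Equiv.sumCompl (· = a)) M') ?_
    rw [split_nat]
    refine (uiso_split _ _).comp (.smash₂ ?_ (ih (fun _ => hf _) fun _ => h _)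
      (.prod fun _ => h _) (.prod fun _ => h' _))
    exact UIso.prod_unique (hf _)

section Perm

/-- Linear extension to the group algebra. -/
noncomputable def lin {G V : Type} [Fintype G] [AddCommGroup V] [Module ℚ V] (u : G → V) :
    MonoidAlgebra ℚ G →ₗ[ℚ] V where
  toFun r := ∑ σ, r.coeff σ • u σ
  map_add' _ _ := by simp [add_smul, Finset.sum_add_distrib]
  map_smul' _ _ := by simp [Finset.smul_sum, mul_smul]

theorem lin_apply {G V : Type} [Fintype G] [AddCommGroup V] [Module ℚ V] (u : G → V)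
    (r : MonoidAlgebra ℚ G) : lin u r = ∑ σ, r.coeff σ • u σ := rfl

@[simp] theorem lin_single {G V : Type} [Fintype G] [AddCommGroup V] [Module ℚ V] (u : G → V)
    (σ : G) (c : ℚ) : lin u (.single σ c) = c • u σ := by
  classical
  simp [lin_apply, Finsupp.single_apply, ite_smul]

theorem map_lin {G V W : Type} [Fintype G] [AddCommGroup V] [Module ℚ V] [AddCommGroup W]
    [Module ℚ W] (φ : V →ₗ[ℚ] W) (u : G → V) (r : MonoidAlgebra ℚ G) :
    φ (lin u r) = lin (fun σ => φ (u σ)) r := by simp [lin_apply]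

theorem lin_comp {G : Type} [Fintype G] {X Y Z : Obj k} (u : G → (X ⟶ Y)) (f : Y ⟶ Z)
    (r : MonoidAlgebra ℚ G) : lin u r ≫ f = lin (fun σ => u σ ≫ f) r := by
  simp [lin_apply, Preadditive.sum_comp]

theorem comp_lin {G : Type} [Fintype G] {X Y Z : Obj k} (f : X ⟶ Y) (u : G → (Y ⟶ Z))
    (r : MonoidAlgebra ℚ G) : f ≫ lin u r = lin (fun σ => f ≫ u σ) r := by
  simp [lin_apply, Preadditive.comp_sum]

theorem lin_mul {G : Type} [Fintype G] [Monoid G] {X : Obj k} {u : G → (X ⟶ X)}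
    (hu : ∀ σ τ, u (σ * τ) = u σ ≫ u τ) (r s : MonoidAlgebra ℚ G) :
    lin u (r * s) = lin u r ≫ lin u s := by
  induction r using MonoidAlgebra.induction_linear with
  | zero => simp
  | add r r' h h' => simp [add_mul, h, h']
  | single σ c =>
    induction s using MonoidAlgebra.induction_linear with
    | zero => simp
    | add r r' h h' => simp only [mul_add, map_add, h, h', Preadditive.comp_add]
    | single τ d => simp [MonoidAlgebra.single_mul_single, hu, smul_smul, mul_comm]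

variable {B : Type} [CommRing B] [Algebra k B]

variable (k B) in
/-- Permutation of the factors. -/
noncomputable def permHom (σ : Equiv.Perm ι) : (⨂[k] _ : ι, B) →ₐ[k] ⨂[k] _ : ι, B :=
  piLift fun i => singleAlgHom (A := fun _ => B) (σ i)

@[simp] theorem permHom_pt {C : Type} [CommRing C] [Algebra k C] (φ : (⨂[k] _ : ι, B) →ₐ[k] C)
    (σ : Equiv.Perm ι) (i : ι) : (φ.comp (permHom k B σ)).comp (singleAlgHom i) =
      φ.comp (singleAlgHom (A := fun _ => B) (σ i)) := comp_piLift _ _ _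

theorem permHom_mul (σ τ : Equiv.Perm ι) :
    permHom k B (σ * τ) = (permHom k B σ).comp (permHom k B τ) :=
  algHom_ext fun i => by rw [permHom_pt]; simp [permHom]

theorem permHom_tprod (σ : Equiv.Perm ι) (x : ι → B) :
    permHom k B σ (tprod k x) = tprod k fun i => x (σ.symm i) := by
  rw [← prod_single (B := fun _ => B) fun i => x (σ.symm i), ← Equiv.prod_comp σ]
  simp [permHom, -singleAlgHom_apply]

theorem permHom_eq_reindex (σ : Equiv.Perm ι) :
    (permHom k B σ).toLinearMap = (reindex k (fun _ => B) σ).toLinearMap := by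
  ext x; simp [permHom_tprod]; rfl

/-- Conditions that are invariant under permutations. -/
def Stab (N : Pr k (⨂[k] _ : ι, B)) : Prop :=
  ∀ (σ : Equiv.Perm ι) {O : Aic k} (φ : (⨂[k] _ : ι, B) →ₐ[k] O), N.p φ →
    N.p (φ.comp (permHom k B σ))

/-- The action of a permutation. -/
noncomputable def permS {N D : Pr k (⨂[k] _ : ι, B)} (hN : Stab N) (hD : Stab D)
    (σ : Equiv.Perm ι) : (⟨_, N, D⟩ : Obj k) ⟶ ⟨_, N, D⟩ :=
  ofAlg (permHom k B σ) (hN σ) fun φ _ => hD σ φ

@[simp] theorem permS_val {N D : Pr k (⨂[k] _ : ι, B)} (hN : Stab N) (hD : Stab D)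
    (σ : Equiv.Perm ι) : (permS hN hD σ).1 = (permHom k B σ).toLinearMap := rfl

theorem permS_mul {N D : Pr k (⨂[k] _ : ι, B)} (hN : Stab N) (hD : Stab D) (σ τ : Equiv.Perm ι) :
    permS hN hD (σ * τ) = permS hN hD σ ≫ permS hN hD τ :=
  hom_ext (congrArg AlgHom.toLinearMap (permHom_mul σ τ))

theorem Stab.all (P : Pr k B) : Stab (ι := ι) (.all fun i => P.comap (singleAlgHom i)) :=
  fun σ _ φ h i => by simpa using h (σ i)

theorem Stab.ex (P : Pr k B) : Stab (ι := ι) (.ex fun i => P.comap (singleAlgHom i)) :=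
  fun σ _ φ ⟨i, h⟩ => ⟨σ.symm i, by simpa using h⟩

/-- The tensor power. -/
noncomputable abbrev Obj.pow (M : Obj k) (ι : Type) [Fintype ι] [DecidableEq ι] : Obj k :=
  prod fun _ : ι => M

/-- The action of a permutation on the tensor power. -/
noncomputable def perm (M : Obj k) (σ : Equiv.Perm ι) : M.pow ι ⟶ M.pow ι :=
  permS (.all M.N) (.ex M.D) σ

@[simp] theorem perm_val (M : Obj k) (σ : Equiv.Perm ι) :
    (perm M σ).1 = (permHom k M.B σ).toLinearMap := rfl

theorem perm_mul (M : Obj k) (σ τ : Equiv.Perm ι) : perm M (σ * τ) = perm M σ ≫ perm M τ :=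
  permS_mul _ _ _ _

theorem perm_one (M : Obj k) : perm M (1 : Equiv.Perm ι) = 𝟙 _ :=
  hom_ext (by ext; simp [permHom_tprod, Equiv.Perm.one_def])

theorem perm_nat {M M' : Obj k} (f : M ⟶ M') (σ : Equiv.Perm ι) :
    (prodMap fun _ => f) ≫ perm M' σ = perm M σ ≫ prodMap fun _ => f :=
  hom_ext (by ext; simp [permHom_tprod])

end Perm

end Pool.Agent.Lib.MP_fc2ced_ag
end

-- part Pool.Agent.Lib.MP_fc2ced_ag.SFA
section

/-!
Schur finiteness without Tate twist: growth, retracts, tensor products, extensions.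
-/

open CategoryTheory PiTensorProduct Equiv
open scoped TensorProduct

set_option linter.unusedSectionVars false

namespace Pool.Agent.Lib.MP_fc2ced_ag

open Obj

variable {k : Type} [Field k] [CharZero k] {M M' N X Y : Obj k}

/-- Some nonzero element of a group algebra acts by zero on the tensor power. -/
def SF₀ (M : Obj k) : Prop :=
  Con M ∧ ∃ (n : ℕ) (r : MonoidAlgebra ℚ (Perm (Fin n))), r ≠ 0 ∧ Null (lin (perm M) r)

/-- The family is spanned by at most `C` elements modulo null maps. -/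
def Spn (C : ℕ) {G : Type} (u : G → (X ⟶ Y)) : Prop :=
  ∃ T : Finset (X ⟶ Y), T.card ≤ C ∧ ∀ σ, u σ ∈ Submodule.span ℚ (T : Set (X ⟶ Y)) ⊔ nullSub X Y

theorem Spn.kernel {G A : Type} [Fintype G] [Fintype A] {X Y : A → Obj k} {C : ℕ}
    {u : ∀ a, G → (X a ⟶ Y a)} (h : ∀ a, Spn C (u a)) (hC : Fintype.card A * C < Fintype.card G) :
    ∃ r : MonoidAlgebra ℚ G, r ≠ 0 ∧ ∀ a, Null (lin (u a) r) := by
  classical
  choose T h1 h2 using h
  let W a := Submodule.span ℚ (((T a).image (nullSub (X a) (Y a)).mkQ : Finset _) :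
    Set ((X a ⟶ Y a) ⧸ nullSub (X a) (Y a)))
  let Φ : MonoidAlgebra ℚ G →ₗ[ℚ] ∀ a, W a := LinearMap.pi fun a =>
    ((nullSub (X a) (Y a)).mkQ ∘ₗ lin (u a)).codRestrict _ fun r => by
      rw [LinearMap.comp_apply, map_lin]
      refine Submodule.sum_mem _ fun σ _ => Submodule.smul_mem _ _ ?_
      have := Submodule.mem_map_of_mem (f := (nullSub (X a) (Y a)).mkQ) (h2 a σ)
      simpa [Submodule.map_sup, Submodule.map_span, W] using this
  have : Module.finrank ℚ (∀ a, W a) < Module.finrank ℚ (MonoidAlgebra ℚ G) := by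
    rw [Module.finrank_pi_fintype, (MonoidAlgebra.coeffLinearEquiv ℚ).finrank_eq,
      Module.finrank_finsupp_self]
    refine lt_of_le_of_lt ?_ hC
    rw [← smul_eq_mul, ← Finset.card_univ]
    exact Finset.sum_le_card_nsmul _ _ _ fun a _ =>
      (finrank_span_finset_le_card _).trans (Finset.card_image_le.trans (h1 a))
  obtain ⟨r, hr, h0⟩ := (Submodule.ne_bot_iff _).1 (Φ.ker_ne_bot_of_finrank_lt this)
  exact ⟨r, h0, fun a => (Submodule.Quotient.mk_eq_zero (nullSub _ _)).1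
    congr((($(LinearMap.mem_ker.1 hr) a : W a) : _ ⧸ nullSub (X a) (Y a)))⟩

theorem Spn.bilin {G G' G'' : Type} {X' Y' X'' Y'' : Obj k} {C C' : ℕ} {u : G → (X ⟶ Y)}
    {v : G' → (X' ⟶ Y')} (hu : Spn C u) (hv : Spn C' v)
    (φ : (X ⟶ Y) →ₗ[ℚ] (X' ⟶ Y') →ₗ[ℚ] (X'' ⟶ Y'')) (h1 : ∀ f g, Null f → Null (φ f g))
    (h2 : ∀ f g, Null g → Null (φ f g)) (a : G'' → G) (b : G'' → G') :
    Spn (C * C') fun σ => φ (u (a σ)) (v (b σ)) := by
  classical
  obtain ⟨T, hT, hu⟩ := hu
  obtain ⟨T', hT', hv⟩ := hv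
  refine ⟨Finset.image₂ (fun f g => φ f g) T T', (Finset.card_image₂_le _ _ _).trans
    (Nat.mul_le_mul hT hT'), fun σ => ?_⟩
  obtain ⟨f, hf, f', hf', e⟩ := Submodule.mem_sup.1 (hu (a σ))
  obtain ⟨g, hg, g', hg', e'⟩ := Submodule.mem_sup.1 (hv (b σ))
  beta_reduce
  rw [← e', map_add, ← e]
  nth_rw 1 [map_add]
  rw [LinearMap.add_apply]
  refine add_mem (add_mem (Submodule.mem_sup_left ?_) (Submodule.mem_sup_right (h1 _ _ hf')))
    (Submodule.mem_sup_right (h2 _ _ hg'))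
  rw [Finset.coe_image₂, ← Submodule.map₂_span_span]
  exact Submodule.apply_mem_map₂ _ hf hg

theorem Spn.of_rel {n : ℕ} (u : Perm (Fin n) → (X ⟶ Y)) (m : ℕ)
    (h : ∀ (σ : Perm (Fin n)) (t : Finset (Fin n)), StrictAntiOn σ (t : Set (Fin n)) →
      m ≤ t.card → ∃ (d : ℕ) (t' : Finset (Fin n)) (r : MonoidAlgebra ℚ (Perm (Fin d))),
        t' ⊆ t ∧ d ≤ t'.card ∧ r.coeff 1 = 1 ∧ ∀ T : Fin d ↪ Fin n, (∀ a, T a ∈ t') →
          Null (lin (fun τ => u (σ * τ.viaEmbedding T)) r)) : Spn ((m ^ 2) ^ n) u := by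
  classical
  refine ⟨(Finset.univ.filter fun σ => Naive.Good m σ).image u,
    Finset.card_image_le.trans (Naive.card_good m n), fun σ => ?_⟩
  have := Naive.straighten (m := m) (nullSub X Y) u (fun σ hσ => by
    simp only [Naive.Good, not_forall, not_lt] at hσ
    obtain ⟨t, ht, hc⟩ := hσ
    obtain ⟨d, t', r, h1, h2, h3, h4⟩ := h σ t ht hc
    obtain ⟨T, a1, a2, a3⟩ := Naive.exists_emb σ t' (ht.mono h1) h2
    exact Naive.lower_of_rel _ u σ T a1 a2 r.coeff h3 (h4 T a3)) σ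
  simpa using this

theorem SF₀.normal (h : SF₀ M) :
    ∃ (n : ℕ) (r : MonoidAlgebra ℚ (Perm (Fin n))), r.coeff 1 = 1 ∧ Null (lin (perm M) r) := by
  obtain ⟨-, n, r, h0, hr⟩ := h
  obtain ⟨s, hs⟩ := Finsupp.ne_iff.1 (mt MonoidAlgebra.coeff_eq_zero.1 h0)
  refine ⟨n, .single s⁻¹ (r.coeff s)⁻¹ * r, ?_, ?_⟩
  · rw [MonoidAlgebra.coeff_single_mul_apply]
    simpa using inv_mul_cancel₀ hs
  · rw [lin_mul (perm_mul M)]
    exact hr.precomp _

section Rel

variable {ι κ : Type} [Fintype ι] [DecidableEq ι] [Fintype κ] [DecidableEq κ] {B : Type}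
  [CommRing B] [Algebra k B]

/-- A tensor product of objects with the same algebra. -/
noncomputable abbrev pw (N D : ι → Pr k B) : Obj k := prod fun i => ⟨B, N i, D i⟩

/-- Permutations that preserve the conditions. -/
noncomputable def permQ {N D : ι → Pr k B} (ρ : Perm ι) (hN : ∀ i, N (ρ i) = N i)
    (hD : ∀ i, D (ρ i) = D i) : pw N D ⟶ pw N D :=
  ofAlg (permHom k B ρ) (fun φ h i => by simpa [hN] using h (ρ i))
    fun φ _ ⟨i, h⟩ => ⟨ρ.symm i, by simpa [← hD (ρ.symm i)] using h⟩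

@[simp] theorem permQ_val {N D : ι → Pr k B} (ρ : Perm ι) (hN hD) :
    (permQ (N := N) (D := D) ρ hN hD).1 = (permHom k B ρ).toLinearMap := rfl

theorem via_eq {α : Type*} {N : ι → α} {N₀ : α} (j : κ ↪ ι) (h : ∀ a, N (j a) = N₀) (s : Perm κ)
    (i : ι) : N (s.viaEmbedding j i) = N i := by
  by_cases hi : i ∈ Set.range j
  · obtain ⟨a, rfl⟩ := hi
    rw [Perm.viaEmbedding_apply, h, h]
  · rw [Perm.viaEmbedding_apply_of_notMem _ _ _ hi]

theorem null_via {N D : ι → Pr k B} (hc : ∀ i, Con ⟨B, N i, D i⟩) {N₀ D₀ : Pr k B} (j : κ ↪ ι)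
    (hN : ∀ a, N (j a) = N₀) (hD : ∀ a, D (j a) = D₀) {r : MonoidAlgebra ℚ (Perm κ)}
    (hr : Null (lin (perm (ι := κ) ⟨B, N₀, D₀⟩) r)) :
    Null (lin (fun s => permQ (s.viaEmbedding j) (via_eq j hN s) (via_eq j hD s)) r) := by
  classical
  let e : κ ⊕ {i // ¬ i ∈ Set.range j} ≃ ι :=
    (sumCongr (ofInjective j j.injective) (.refl _)).trans (sumCompl (· ∈ Set.range j))
  have key {N' D' : κ → Pr k B} (h1 : ∀ a, N' a = N₀) (h2 : ∀ a, D' a = D₀) :
      Null (lin (fun s : Perm κ => permQ (N := N') (D := D') s (fun _ => by rw [h1, h1])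
        fun _ => by rw [h2, h2]) r) := by
    obtain rfl := funext h1
    obtain rfl := funext h2
    exact hr
  refine .of_comp_uiso (uiso_split e _) ?_
  convert ((key (N' := fun a => N (e (.inl a))) (D' := fun a => D (e (.inl a))) hN hD).smash
    (Con.prod fun b => hc (e (.inr b)))).precomp (split e fun i => ⟨B, N i, D i⟩) using 1
  rw [lin_comp, show ∀ {X Y Z : Obj k} (f : X ⟶ Y), smashMap f (𝟙 Z) = smashL.flip (𝟙 Z) f from
    fun _ => rfl, map_lin, comp_lin]
  refine congrArg (lin · r) (funext fun s => hom_ext (congrArg AlgHom.toLinearMap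
    (?_ : (permHom k B _).comp (splitHom e fun _ => B) = (splitHom e fun _ => B).comp
      (Algebra.TensorProduct.map (permHom k B s) (.id k _)))))
  refine Algebra.TensorProduct.ext (algHom_ext fun a => AlgHom.ext fun x => ?_)
    (algHom_ext fun b => AlgHom.ext fun x => ?_)
  · simp [splitHom, permHom, e, -singleAlgHom_apply, Perm.viaEmbedding_apply]; rfl
  · simp [splitHom, permHom, e, -singleAlgHom_apply, Perm.viaEmbedding_apply_of_notMem _ _ _ b.2]
    rfl

end Rel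

/-- Exponential growth, for any family with the same relations as the permutations. -/
theorem SF₀.spn (h : SF₀ M) : ∃ C : ℕ, ∀ (n : ℕ) {X Y : Obj k} (u : Perm (Fin n) → (X ⟶ Y)),
    (∀ r, Null (lin (perm M) r) → Null (lin u r)) → Spn (C ^ n) u := by
  obtain ⟨d, r, h1, hr⟩ := h.normal
  refine ⟨d ^ 2, fun n X Y u hu => .of_rel u d fun σ t _ ht => ⟨d, t, r, le_rfl, ht, h1,
    fun T _ => ?_⟩⟩
  have := hu (lin (fun τ => .single (σ * τ.viaEmbedding T) 1) r) (by
    rw [map_lin]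
    simp only [lin_single, one_smul, perm_mul, ← comp_lin]
    exact (null_via (fun _ => h.1) T (fun _ => rfl) (fun _ => rfl) hr).precomp (perm M σ))
  simpa [map_lin] using this

theorem lin_perm_nat {ι : Type} [Fintype ι] [DecidableEq ι] (f : M ⟶ M')
    (r : MonoidAlgebra ℚ (Perm ι)) :
    (prodMap fun _ => f) ≫ lin (perm M') r = lin (perm M) r ≫ prodMap fun _ => f := by
  simp only [comp_lin, lin_comp, perm_nat]

theorem SF₀.retract (h : SF₀ M) {s : M' ⟶ M} {p : M ⟶ M'} (e : UIso (s ≫ p)) : SF₀ M' := by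
  obtain ⟨hc, n, r, h0, hr⟩ := h
  refine ⟨hc.retract e, n, r, h0, .of_uiso_comp (UIso.prod (fun _ => e) fun _ => hc.retract e) ?_⟩
  rw [prodMap_comp, Category.assoc, lin_perm_nat]
  exact (hr.comp _).precomp _

theorem UIso.sf₀_iff {f : M ⟶ M'} (hf : UIso f) : SF₀ M ↔ SF₀ M' := by
  refine ⟨fun ⟨hc, n, r, h0, hr⟩ => ⟨(Con.uiso_iff hf).1 hc, n, r, h0,
    .of_uiso_comp (UIso.prod (fun _ => hf) fun _ => hc) ?_⟩, fun ⟨hc, n, r, h0, hr⟩ =>
    ⟨(Con.uiso_iff hf).2 hc, n, r, h0,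
      .of_comp_uiso (UIso.prod (fun _ => hf) fun _ => (Con.uiso_iff hf).2 hc) ?_⟩⟩
  · rw [lin_perm_nat]; exact hr.comp _
  · rw [← lin_perm_nat]; exact hr.precomp _

theorem SF₀.of_uzero (h : UZero M) : SF₀ M :=
  ⟨.of_uzero h, 1, 1, one_ne_zero,
    ((isE_unique fun _ : Fin 1 => M).uiso.uzero_iff.2 h).null_left _⟩

section Smash

open Algebra.TensorProduct

variable {ι : Type} [Fintype ι] [DecidableEq ι]

variable (k) in
/-- Regrouping the factors. -/
noncomputable def regroup (ι : Type) [Fintype ι] [DecidableEq ι] (B C : Type) [CommRing B]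
    [Algebra k B] [CommRing C] [Algebra k C] :
    (⨂[k] _ : ι, B) ⊗[k] (⨂[k] _ : ι, C) →ₐ[k] ⨂[k] _ : ι, B ⊗[k] C :=
  productMap (piLift fun i => (singleAlgHom (A := fun _ => B ⊗[k] C) i).comp includeLeft)
    (piLift fun i => (singleAlgHom (A := fun _ => B ⊗[k] C) i).comp includeRight)

theorem isE_regroup (M N : Obj k) :
    IsE ((M.smash N).pow ι) ((M.pow ι).smash (N.pow ι)) (regroup k ι M.B N.B) := by
  have e1 {O : Aic k} (φ : ((M.smash N).pow ι).B →ₐ[k] O) (i : ι) :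
      ((φ.comp (regroup k ι M.B N.B)).comp includeLeft).comp (singleAlgHom i) =
        (φ.comp (singleAlgHom i)).comp includeLeft := by
    ext; simp [regroup, -singleAlgHom_apply]
  have e2 {O : Aic k} (φ : ((M.smash N).pow ι).B →ₐ[k] O) (i : ι) :
      ((φ.comp (regroup k ι M.B N.B)).comp includeRight).comp (singleAlgHom i) =
        (φ.comp (singleAlgHom i)).comp includeRight := by
    ext; simp [regroup, -singleAlgHom_apply]
  refine ⟨fun φ h => ⟨fun a => ?_, fun b => ?_⟩, fun φ _ => ?_, fun φ φ' _ _ _ h => ?_,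
    fun {O} χ h _ => ?_⟩
  · simpa only [Pr.comap_p, e1] using (h a).1
  · simpa only [Pr.comap_p, e2] using (h b).2
  · simp only [Pr.or_p, Pr.comap_p, Pr.ex_p, e1, e2, exists_or]
  · exact algHom_ext fun i => tensor_ext (by rw [← e1, h, e1]) (by rw [← e2, h, e2])
  · refine ⟨piLift fun i => productMap ((χ.comp includeLeft).comp
        (singleAlgHom (A := fun _ => M.B) i)) ((χ.comp includeRight).comp
        (singleAlgHom (A := fun _ => N.B) i)), fun i => ⟨?_, ?_⟩,
      tensor_ext (algHom_ext fun a => ?_) (algHom_ext fun b => ?_)⟩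
    · simpa only [Pr.comap_p, piLift_comp, productMap_left] using h.1 i
    · simpa only [Pr.comap_p, piLift_comp, productMap_right] using h.2 i
    · rw [e1, piLift_comp, productMap_left]
    · rw [e2, piLift_comp, productMap_right]

theorem perm_regroup (M N : Obj k) (σ : Perm ι) : perm (M.smash N) σ ≫ (isE_regroup M N).hom =
    (isE_regroup M N).hom ≫ smashMap (perm M σ) (perm N σ) := by
  refine hom_ext (congrArg AlgHom.toLinearMap (?_ : (permHom k _ σ).comp (regroup k ι M.B N.B) =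
    (regroup k ι M.B N.B).comp (map (permHom k _ σ) (permHom k _ σ))))
  refine Algebra.TensorProduct.ext (algHom_ext fun a => AlgHom.ext fun x => ?_)
    (algHom_ext fun b => AlgHom.ext fun x => ?_) <;>
  simp [regroup, permHom, -singleAlgHom_apply]

theorem null_regroup (M N : Obj k) (r : MonoidAlgebra ℚ (Perm ι)) :
    Null (lin (perm (M.smash N)) r) ↔ Null (lin (fun σ => smashMap (perm M σ) (perm N σ)) r) := by
  have : lin (perm (M.smash N)) r ≫ (isE_regroup M N).hom =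
      (isE_regroup M N).hom ≫ lin (fun σ => smashMap (perm M σ) (perm N σ)) r := by
    simp only [comp_lin, lin_comp, perm_regroup]
  exact ⟨fun h => .of_uiso_comp (isE_regroup M N).uiso (this ▸ h.comp _),
    fun h => .of_comp_uiso (isE_regroup M N).uiso (this ▸ h.precomp _)⟩

theorem exists_lt_card (C : ℕ) : ∃ n, C ^ n < Fintype.card (Perm (Fin n)) :=
  let ⟨n, _, h⟩ := Naive.exists_pow_lt_factorial C
  ⟨n, by simpa [Fintype.card_perm] using h⟩

theorem SF₀.smash (h : SF₀ M) (h' : SF₀ N) : SF₀ (M.smash N) := by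
  obtain ⟨C, hC⟩ := h.spn
  obtain ⟨C', hC'⟩ := h'.spn
  obtain ⟨n, hn⟩ := exists_lt_card (C * C')
  obtain ⟨r, h0, hr⟩ := Spn.kernel (A := Unit) (fun _ => (hC n _ fun _ => id).bilin
    (hC' n _ fun _ => id) smashL
    (fun f g hf => by
      simpa [smashL, ← smashMap_eq] using (hf.smash (.prod fun _ => h'.1)).comp (smashMap (𝟙 _) g))
    (fun f g hg => by
      simpa [smashL, ← smashMap_eq] using
        (hg.smash_left (.prod fun _ => h.1)).precomp (smashMap f (𝟙 _))) id id)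
    (by simpa [mul_pow] using hn)
  exact ⟨h.1.smash h'.1, n, r, h0, (null_regroup M N r).2 (hr ())⟩

/-- Cancellation of a Schur finite factor. -/
theorem SF₀.cancel (h : SF₀ (M.smash N)) (h' : SF₀ N) (hM : Con M) :
    ∃ (n : ℕ) (r : MonoidAlgebra ℚ (Perm (Fin n))), 0 < n ∧ r ≠ 0 ∧
      Null (smashMap (lin (perm M) r) (𝟙 (N.pow (Fin n)))) := by
  obtain ⟨C, hC⟩ := h.spn
  obtain ⟨C', hC'⟩ := h'.spn
  obtain ⟨n, hn⟩ := exists_lt_card (C * C')
  obtain ⟨r, h0, hr⟩ := Spn.kernel (A := Unit) (fun _ => (hC n _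
    fun r => (null_regroup M N r).1).bilin (hC' n _ fun _ => id)
    ((Linear.comp _ _ _).compl₂ (smashL (𝟙 (M.pow (Fin n))))) (fun f g hf => hf.comp _)
    (fun f g hg => (hg.smash_left (.prod fun _ => hM)).precomp f) id (·⁻¹))
    (by simpa [mul_pow] using hn)
  refine ⟨n, r, Nat.pos_of_ne_zero (by rintro rfl; simp at hn), h0, ?_⟩
  convert hr () using 1
  rw [show ∀ {X Y Z : Obj k} (f : X ⟶ Y), smashMap f (𝟙 Z) = smashL.flip (𝟙 Z) f from
    fun _ => rfl, map_lin]
  refine congrArg (lin · r) (funext fun σ => ?_)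
  simp [smashL, ← smashMap_comp, ← perm_mul, perm_one]

end Smash

end Pool.Agent.Lib.MP_fc2ced_ag
end

-- part Pool.Agent.Lib.MP_fc2ced_ag.SFB
section

/-!
Schur finiteness of extensions.
-/

open CategoryTheory PiTensorProduct Equiv
open scoped TensorProduct

set_option linter.unusedSectionVars false

namespace Pool.Agent.Lib.MP_fc2ced_ag

open Obj

variable {k : Type} [Field k] [CharZero k]

namespace Mid

variable {B : Type} [CommRing B] [Algebra k B] {ι : Type} [Fintype ι] [DecidableEq ι]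
  (N D P : Pr k B)

variable (ι) in
/-- All coordinates satisfy the condition. -/
noncomputable abbrev al : Pr k (⨂[k] _ : ι, B) := .all fun i => N.comap (singleAlgHom i)

variable (ι) in
/-- One coordinate satisfies the condition. -/
noncomputable abbrev ex : Pr k (⨂[k] _ : ι, B) := .ex fun i => D.comap (singleAlgHom i)

/-- The coordinates in some member of a family of sets satisfy the condition. -/
def fam (𝒮 : Finset ι → Prop) : Pr k (⨂[k] _ : ι, B) :=
  ⟨fun φ => ∃ S, 𝒮 S ∧ ∀ i ∈ S, P.p (φ.comp (singleAlgHom (A := fun _ => B) i)),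
    fun g _ ⟨S, h1, h2⟩ => ⟨S, h1, fun i hi => P.mono g _ (h2 i hi)⟩⟩

variable (ι) in
/-- At least `j` coordinates satisfy the condition. -/
abbrev ge (j : ℕ) : Pr k (⨂[k] _ : ι, B) := fam P fun S => j ≤ S.card

theorem stab_ge (j : ℕ) : Stab (ge ι P j) := fun σ _ φ ⟨S, h1, h2⟩ =>
  ⟨S.map σ.symm.toEmbedding, by simpa using h1, fun i hi => by
    simpa using h2 (σ i) (by simpa using hi)⟩

theorem stab_and {N N' : Pr k (⨂[k] _ : ι, B)} (h : Stab N) (h' : Stab N') : Stab (N.and N') :=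
  fun σ _ φ h1 => ⟨h σ φ h1.1, h' σ φ h1.2⟩

theorem stab_or {N N' : Pr k (⨂[k] _ : ι, B)} (h : Stab N) (h' : Stab N') : Stab (N.or N') :=
  fun σ _ φ h1 => h1.imp (h σ φ) (h' σ φ)

variable (ι) in
/-- The filtration. -/
noncomputable abbrev F (j : ℕ) : Obj k := ⟨_, (al ι N).and (ge ι P j), ex ι D⟩

/-- Pieces of the graded objects. -/
noncomputable abbrev Gf (j : ℕ) (𝒮 : Finset ι → Prop) : Obj k :=
  ⟨_, (al ι N).and (fam P 𝒮), (ex ι D).or (ge ι P (j + 1))⟩

variable (ι) in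
/-- The graded objects. -/
noncomputable abbrev G (j : ℕ) : Obj k := Gf N D P j fun S : Finset ι => j ≤ S.card

/-- The action on the filtration. -/
noncomputable def pF (j : ℕ) (σ : Perm ι) : F ι N D P j ⟶ F ι N D P j :=
  permS (stab_and (.all N) (stab_ge P j)) (.ex D) σ

/-- The action on the graded objects. -/
noncomputable def pG (j : ℕ) (σ : Perm ι) : G ι N D P j ⟶ G ι N D P j :=
  permS (stab_and (.all N) (stab_ge P j)) (stab_or (.ex D) (stab_ge P (j + 1))) σ

theorem triF (j : ℕ) : Tri (F ι N D P (j + 1)) (F ι N D P j) (G ι N D P j) (.id k _) (.id k _) :=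
  Tri.std (fun _ ⟨h, S, h1, h2⟩ => ⟨h, S, by omega, h2⟩) (fun _ _ => Iff.rfl) (fun _ h => h)
    (fun _ h => or_congr Iff.rfl (and_iff_right h.1).symm) fun _ h _ => h

/-- The summands of the graded objects. -/
noncomputable abbrev Q (S : Finset ι) : Obj k :=
  pw (fun i => if i ∈ S then P else N) fun i => if i ∈ S then D else D.or P

variable {N P} (hP : ∀ {O : Aic k} (φ : B →ₐ[k] O), P.p φ → N.p φ)
include hP

theorem Q_n {S : Finset ι} {O : Aic k} {φ : (⨂[k] _ : ι, B) →ₐ[k] O} : (Q N D P S).N.p φ ↔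
    (al ι N).p φ ∧ ∀ i ∈ S, P.p (φ.comp (singleAlgHom (A := fun _ => B) i)) := by
  refine ⟨fun h => ⟨fun i => ?_, fun i hi => by simpa [hi] using h i⟩, fun h i => ?_⟩
  · have := h i
    by_cases hi : i ∈ S
    exacts [hP _ (by simpa [hi] using this), by simpa [hi] using this]
  · by_cases hi : i ∈ S
    exacts [by simpa [hi] using h.2 i hi, by simpa [hi] using h.1 i]

omit hP in
theorem Q_d {S : Finset ι} {O : Aic k} {φ : (⨂[k] _ : ι, B) →ₐ[k] O} : (Q N D P S).D.p φ ↔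
    (ex ι D).p φ ∨ ∃ i ∉ S, P.p (φ.comp (singleAlgHom (A := fun _ => B) i)) := by
  refine ⟨fun ⟨i, h⟩ => ?_, ?_⟩
  · by_cases hi : i ∈ S
    · exact .inl ⟨i, by simpa [hi] using h⟩
    · exact Or.imp (fun h => ⟨i, h⟩) (fun h => ⟨i, hi, h⟩) (by simpa [hi] using h)
  · rintro (⟨i, h⟩ | ⟨i, hi, h⟩)
    · refine ⟨i, ?_⟩
      by_cases hi : i ∈ S
      exacts [by simpa [hi] using h, by simpa [hi] using .inl h]
    · exact ⟨i, by simpa [hi] using .inr h⟩

/-- The inclusion of a summand. -/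
noncomputable def inc {j : ℕ} {𝒮 : Finset ι → Prop} {S : Finset ι} (h : 𝒮 S) (hS : j ≤ S.card) :
    Q N D P S ⟶ Gf N D P j 𝒮 :=
  ofAlg (.id k _) (fun _ h1 => ⟨((Q_n D hP).1 h1).1, S, h, ((Q_n D hP).1 h1).2⟩) fun _ h1 h2 =>
    ((Q_d D).1 h2).imp id fun ⟨i, hi, h3⟩ => ⟨insert i S, by simpa [hi] using hS, fun a ha =>
      (Finset.mem_insert.1 ha).elim (fun e => e ▸ h3) (((Q_n D hP).1 h1).2 a)⟩

/-- The inclusion of a summand. -/
noncomputable abbrev incG (S : Finset ι) : Q N D P S ⟶ G ι N D P S.card := inc D hP le_rfl le_rfl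

theorem joint {j : ℕ} {Z : Obj k} (f : G ι N D P j ⟶ Z)
    (h : ∀ (S : Finset ι) (hS : S.card = j), Null (inc D hP hS.ge hS.ge ≫ f)) : Null f := by
  have key (𝒮 : Finset (Finset ι)) (h𝒮 : ∀ S ∈ 𝒮, S.card = j) :
      Null (ofAlg (M := Gf N D P j (· ∈ 𝒮)) (M' := G ι N D P j) (.id k _)
        (fun _ ⟨h, S, h1, h2⟩ => ⟨h, S, (h𝒮 S h1).ge, h2⟩) (fun _ _ h => h) ≫ f) := by
    induction 𝒮 using Finset.induction_on with
    | empty =>
      exact (UZero.dead (M := Gf N D P j (· ∈ (∅ : Finset (Finset ι))))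
        fun _ ⟨_, _, h, _⟩ => by simp at h).null_left _
    | insert S 𝒮 hS ih =>
      have hj := h𝒮 S (by simp)
      have T : Tri (Gf N D P j (· ∈ 𝒮)) (Gf N D P j (· ∈ insert S 𝒮))
          ⟨_, (al ι N).and (fam P (· ∈ insert S 𝒮)),
            ((ex ι D).or (ge ι P (j + 1))).or (fam P (· ∈ 𝒮))⟩ (.id k _) (.id k _) :=
        Tri.std (fun _ ⟨h, S', h1, h2⟩ => ⟨h, S', by simp [h1], h2⟩) (fun _ _ => Iff.rfl)
          (fun _ h => h) (fun _ h => or_congr Iff.rfl (and_iff_right h.1).symm) fun _ h _ => h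
      suffices E : IsE (Q N D P S) ⟨_, (al ι N).and (fam P (· ∈ insert S 𝒮)),
          ((ex ι D).or (ge ι P (j + 1))).or (fam P (· ∈ 𝒮))⟩ (.id k _) from
        T.null_of_joint (ih fun S' h' => h𝒮 S' (by simp [h']))
          (g := inc D hP (by simp) hj.ge) E.uiso (h S hj)
      refine IsE.std (fun _ h1 => ⟨((Q_n D hP).1 h1).1, S, by simp, ((Q_n D hP).1 h1).2⟩)
          (fun φ h1 => ⟨fun h2 => (Q_d D).2 ?_, fun h2 => .inl
            (((Q_d D).1 h2).imp id fun ⟨i, hi, h3⟩ => ⟨insert i S, by simp [hi, hj], fun a ha =>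
              (Finset.mem_insert.1 ha).elim (fun e => e ▸ h3) (((Q_n D hP).1 h1).2 a)⟩)⟩)
          fun φ ⟨h1, S', h2, h3⟩ h4 => (Q_n D hP).2 ⟨h1, ?_⟩
      · rcases h2 with (h2 | ⟨S', h2, h3⟩) | ⟨S', h2, h3⟩
        · exact .inl h2
        · obtain ⟨i, h4, h5⟩ := Finset.exists_mem_notMem_of_card_lt_card (s := S) (t := S')
            (by omega)
          exact .inr ⟨i, h5, h3 i h4⟩
        · obtain ⟨i, h4, h5⟩ := Finset.not_subset.1 (mt (Finset.eq_of_subset_of_card_le ·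
            (hj.trans (h𝒮 S' (by simp [h2])).symm).le) fun e : S' = S => hS (e ▸ h2))
          exact .inr ⟨i, h5, h3 i h4⟩
      · rcases Finset.mem_insert.1 h2 with rfl | h2
        exacts [h3, (h4 (.inr ⟨S', h2, h3⟩)).elim]
  refine .of_uiso_comp (IsE.uiso (M := Gf N D P j (· ∈ Finset.powersetCard j .univ))
    (M' := G ι N D P j) (IsE.std (fun _ ⟨h, S, h1, h2⟩ => ⟨h, S, (by simpa using h1 :
      S.card = j).ge, h2⟩) (fun _ _ => Iff.rfl) fun _ ⟨h, S, h1, h2⟩ _ => ?_))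
    (key _ fun S h => by simpa using h)
  obtain ⟨S', h3, h4⟩ := Finset.exists_subset_card_eq h1
  exact ⟨h, S', by simpa using h4, fun i hi => h2 i (h3 hi)⟩

theorem mid (h₁ : SF₀ ⟨B, P, D⟩) (h₃ : SF₀ ⟨B, N, D.or P⟩) (h₂ : Con ⟨B, N, D⟩) :
    SF₀ ⟨B, N, D⟩ := by
  obtain ⟨d₁, r₁, c₁, hr₁⟩ := h₁.normal
  obtain ⟨d₃, r₃, c₃, hr₃⟩ := h₃.normal
  obtain ⟨n, hn⟩ := exists_lt_card (2 * (d₁ + d₃) ^ 2)
  have hQ (S : Finset (Fin n)) (i : Fin n) :
      Con ⟨B, if i ∈ S then P else N, if i ∈ S then D else D.or P⟩ := by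
    split_ifs
    exacts [h₁.1, h₃.1]
  have rel (S : Finset (Fin n)) (σ : Perm (Fin n)) {d : ℕ} (T : Fin d ↪ Fin n) {N₀ D₀ : Pr k B}
      (hN : ∀ a, (if σ (T a) ∈ S then P else N) = N₀)
      (hD : ∀ a, (if σ (T a) ∈ S then D else D.or P) = D₀) {r : MonoidAlgebra ℚ (Perm (Fin d))}
      (hr : Null (lin (perm ⟨B, N₀, D₀⟩) r)) : Null (lin (fun τ => incG D hP S ≫
        pG N D P S.card (σ * τ.viaEmbedding T)) r) := by
    convert (null_via (hQ S) (T.trans σ.toEmbedding) hN hD hr).comp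
      (incG D hP S ≫ pG N D P S.card σ) using 1
    rw [lin_comp]
    refine congrArg (lin · r) (funext fun τ => hom_ext ?_)
    have : σ * τ.viaEmbedding T = τ.viaEmbedding (T.trans σ.toEmbedding) * σ := by
      ext1 i
      by_cases hi : i ∈ Set.range T
      · obtain ⟨a, rfl⟩ := hi
        simpa [Perm.viaEmbedding_apply] using
          (Perm.viaEmbedding_apply τ (T.trans σ.toEmbedding) a).symm
      · rw [Perm.mul_apply, Perm.mul_apply, Perm.viaEmbedding_apply_of_notMem _ _ _ hi,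
          Perm.viaEmbedding_apply_of_notMem]
        exact fun ⟨a, ha⟩ => hi ⟨a, σ.injective ha⟩
    rw [this]
    exact congrArg AlgHom.toLinearMap (permHom_mul _ _)
  obtain ⟨r, h0, hr⟩ := Spn.kernel (C := ((d₁ + d₃) ^ 2) ^ n) (u := fun (S : Finset (Fin n)) π =>
      incG D hP S ≫ pG N D P S.card π)
    (fun S => .of_rel _ _ fun σ t _ ht => by
      rcases le_or_gt d₁ (t.filter (σ · ∈ S)).card with h | h
      · exact ⟨d₁, _, r₁, Finset.filter_subset _ _, h, c₁, fun T hT => rel S σ T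
          (fun a => if_pos (Finset.mem_filter.1 (hT a)).2)
          (fun a => if_pos (Finset.mem_filter.1 (hT a)).2) hr₁⟩
      · have := Finset.card_filter_add_card_filter_not (s := t) (σ · ∈ S)
        exact ⟨d₃, t.filter (¬ σ · ∈ S), r₃, Finset.filter_subset _ _, by omega, c₃,
          fun T hT => rel S σ T (fun a => if_neg (Finset.mem_filter.1 (hT a)).2)
          (fun a => if_neg (Finset.mem_filter.1 (hT a)).2) hr₃⟩)
    (by simpa [mul_pow] using hn)
  have mG (j : ℕ) := lin_mul (u := pG (ι := Fin n) N D P j) (permS_mul _ _)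
  let I : Ideal (MonoidAlgebra ℚ (Perm (Fin n))) :=
    { carrier := {r | ∀ j, Null (lin (pG N D P j) r)}
      add_mem' := fun h1 h2 j => by rw [map_add]; exact (h1 j).add (h2 j)
      zero_mem' := fun j => by rw [map_zero]; exact .zero
      smul_mem' := fun c x h j => by rw [smul_eq_mul, mG]; exact (h j).precomp _ }
  obtain ⟨e, he, e0, ee, -⟩ := Naive.exists_block_group I
    (fun x h y j => by rw [mG]; exact (h j).comp _) ((Submodule.ne_bot_iff _).2 ⟨r, fun j =>
      joint D hP _ fun S hS => by subst hS; rw [comp_lin]; exact hr S, h0⟩)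
  have key (j : ℕ) (hj : j ≤ n + 1) : Null (lin (pF N D P j) e) := by
    induction hj using Nat.decreasingInduction with
    | self =>
      exact (UZero.dead (M := F (Fin n) N D P (n + 1)) fun _ ⟨_, S, h, _⟩ => by
        have := S.card_le_univ
        simp at this h
        omega).null_left _
    | of_succ j _ ih =>
      rw [← ee, lin_mul (u := pF (ι := Fin n) N D P j) (permS_mul _ _)]
      refine (triF N D P j).null_of_i ?_ ?_
      · convert ih.comp (triF N D P j).i using 1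
        rw [lin_comp, comp_lin]; rfl
      · convert (he j).precomp (triF N D P j).p using 1
        rw [lin_comp, comp_lin]; rfl
  have E : IsE (F (Fin n) N D P 0) (Obj.pow ⟨B, N, D⟩ (Fin n)) (.id k _) :=
    IsE.std (fun _ h => h.1) (fun _ _ => Iff.rfl) fun _ h _ => ⟨h, ∅, le_rfl, by simp⟩
  refine ⟨h₂, n, e, e0, .of_uiso_comp E.uiso ?_⟩
  convert (key 0 (by omega)).comp E.hom using 1
  rw [lin_comp, comp_lin]; rfl

end Mid

namespace Tri

variable {M₁ M₂ M₃ : Obj k} {α : M₂.B →ₐ[k] M₁.B} {β : M₃.B →ₐ[k] M₂.B} (T : Tri M₁ M₂ M₃ α β)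

variable (M₁ α) in
/-- The image of the points of the first term. -/
def im : Pr k M₂.B := ⟨fun ψ => ∃ φ, M₁.N.p φ ∧ φ.comp α = ψ,
  fun g _ ⟨φ, h1, h2⟩ => ⟨g.comp φ, M₁.N.mono g φ h1, h2 ▸ rfl⟩⟩

include T

theorem im_le {O : Aic k} (ψ : M₂.B →ₐ[k] O) (h : (im M₁ α).p ψ) : M₂.N.p ψ := by
  obtain ⟨φ, h, rfl⟩ := h
  exact T.n₁ φ h

theorem isE₁ : IsE M₁ ⟨M₂.B, im M₁ α, M₂.D⟩ α :=
  ⟨fun φ h => ⟨φ, h, rfl⟩, fun φ h => (T.d₁ φ h).symm, T.inj₁, fun _ h _ => h⟩

theorem isE₃ : IsE ⟨M₂.B, M₂.N, M₂.D.or (im M₁ α)⟩ M₃ β :=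
  ⟨T.n₂, T.d₂, fun ψ ψ' h h' => T.inj₂ ψ ψ' h (mt (T.d₂ ψ h).1 h'), T.surj⟩

theorem sf₀₂ (h₁ : SF₀ M₁) (h₃ : SF₀ M₃) : SF₀ M₂ :=
  Mid.mid M₂.D T.im_le (T.isE₁.uiso.sf₀_iff.1 h₁) (T.isE₃.uiso.sf₀_iff.2 h₃) (.tri₂ T h₁.1 h₃.1)

end Tri

end Pool.Agent.Lib.MP_fc2ced_ag
end

-- part Pool.Agent.Lib.MP_fc2ced_ag.SFC
section

/-!
The circle, cones, and the two out of three property.
-/

open CategoryTheory PiTensorProduct Equiv
open scoped TensorProduct Polynomial

set_option linter.unusedSectionVars false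

namespace Pool.Agent.Lib.MP_fc2ced_ag

open Obj

variable {k : Type} [Field k] [CharZero k]

variable (k) in
/-- The affine line modulo a point. -/
noncomputable abbrev Obj.itv (a : k) : Obj k := ⟨k[X], .top, .zero (.X - .C a)⟩

variable (k) in
/-- The circle. -/
noncomputable abbrev Obj.circ : Obj k := ⟨k[X], .top, (Pr.zero (.X - .C 1)).or (.zero .X)⟩

theorem comp_aeval_eq {B C : Type} [CommRing B] [Algebra k B] [CommRing C] [Algebra k C]
    (ψ : B[X] →ₐ[k] C) (a : B) (h : ψ .X = ψ (.C a)) : (ψ.comp Polynomial.CAlgHom).comp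
      ((Polynomial.aeval a : B[X] →ₐ[B] B).restrictScalars k) = ψ :=
  Polynomial.algHom_ext' (by ext; simp) (by simp [h])

theorem inj_aeval {B C : Type} [CommRing B] [Algebra k B] [CommRing C] [Algebra k C]
    {φ φ' : B →ₐ[k] C} {a : B} (h : φ.comp ((Polynomial.aeval a : B[X] →ₐ[B] B).restrictScalars k) =
      φ'.comp ((Polynomial.aeval a : B[X] →ₐ[B] B).restrictScalars k)) : φ = φ' :=
  AlgHom.ext fun b => by simpa using congr($h (.C b))

theorem tri_itv (a : k) : Tri (sm k k) (sm k k[X]) (itv k a)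
    ((Polynomial.aeval a : k[X] →ₐ[k] k).restrictScalars k) (.id k _) :=
  ⟨fun _ _ => trivial, fun _ _ => Iff.rfl, fun _ _ _ _ _ => inj_aeval, fun _ _ => trivial,
    fun ψ _ => ⟨fun h => .inr ⟨_, trivial, comp_aeval_eq ψ a (by simpa [sub_eq_zero] using h)⟩,
      by rintro (h | ⟨φ, -, rfl⟩); exacts [h.elim, by simp]⟩,
    fun _ _ _ _ _ e => e, fun χ _ _ => ⟨χ, trivial, rfl⟩⟩

theorem uzero_itv (a : k) : UZero (itv k a) :=
  (tri_itv a).uzero₃_iff.2 (.of_comp_right (.gen (.line k)) (by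
    convert UIso.id using 1
    exact hom_ext (by ext; simp)))

theorem tri_circ : Tri (sm k k) (itv k 1) (circ k)
    ((Polynomial.aeval 0 : k[X] →ₐ[k] k).restrictScalars k) (.id k _) :=
  ⟨fun _ _ => trivial, fun _ _ => by simp, fun _ _ _ _ _ => inj_aeval, fun _ _ => trivial,
    fun ψ _ => or_congr Iff.rfl ⟨fun h => ⟨_, trivial, comp_aeval_eq ψ 0 (by simpa using h)⟩,
      by rintro ⟨φ, -, rfl⟩; simp⟩,
    fun _ _ _ _ _ e => e, fun χ _ _ => ⟨χ, trivial, rfl⟩⟩

theorem con_circ : Con (circ k) := .tri₃ tri_circ (.sm k) (.of_uzero (uzero_itv 1))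

section Circle

open Algebra.TensorProduct

/-- Power sums of the roots of a quadratic polynomial. -/
def psum {R : Type} [CommRing R] (e₁ e₂ : R) : ℕ → R
  | 0 => 2
  | 1 => e₁
  | n + 2 => e₁ * psum e₁ e₂ (n + 1) - e₂ * psum e₁ e₂ n

theorem map_psum {R C : Type} [CommRing R] [Algebra k R] [CommRing C] [Algebra k C] {e₁ e₂ : R}
    (φ : R →ₐ[k] C) {z₁ z₂ : C} (h1 : φ e₁ = z₁ + z₂) (h2 : φ e₂ = z₁ * z₂) :
    ∀ n, φ (psum e₁ e₂ n) = z₁ ^ n + z₂ ^ n
  | 0 => by simp [psum, map_ofNat, one_add_one_eq_two]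
  | 1 => by simp [psum, h1]
  | n + 2 => by
    rw [psum, map_sub, map_mul, map_mul, map_psum φ h1 h2 (n + 1), map_psum φ h1 h2 n, h1, h2]
    ring

theorem sf₀_circ : SF₀ (circ k) := by
  let x : k[X] ⊗[k] k[X] := (.X - .C 0) ⊗ₜ 1
  let y : k[X] ⊗[k] k[X] := 1 ⊗ₜ (.X - .C 0)
  let τ : k[X] →ₗ[k] k[X] ⊗[k] k[X] := (Polynomial.basisMonomials k).constr k (psum (1 + x - y) x)
  let Φ : (⨂[k] _ : Fin 2, k[X]) →ₗ[k] k[X] ⊗[k] k[X] :=
    bxπ (fun _ => τ) - τ ∘ₗ (piLift fun _ => .id k _).toLinearMap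
  have key {C : Type} [CommRing C] [Algebra k C] (φ : k[X] ⊗[k] k[X] →ₐ[k] C) {z₁ z₂ : C}
      (h1 : φ (1 + x - y) = z₁ + z₂) (h2 : φ x = z₁ * z₂) : φ.toLinearMap ∘ₗ Φ =
        (piLift ![Polynomial.aeval z₁, Polynomial.aeval z₂]).toLinearMap +
        (piLift ![Polynomial.aeval z₂, Polynomial.aeval z₁]).toLinearMap := by
    have : φ.toLinearMap ∘ₗ τ =
        (Polynomial.aeval z₁).toLinearMap + (Polynomial.aeval z₂).toLinearMap :=
      (Polynomial.basisMonomials k).ext fun n => by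
        rw [LinearMap.comp_apply, Module.Basis.constr_basis]
        simp [map_psum φ h1 h2, Polynomial.aeval_monomial]
    have h3 (f : k[X]) : φ (τ f) = Polynomial.aeval z₁ f + Polynomial.aeval z₂ f := congr($this f)
    ext f
    simp [Φ, h3]
    ring
  have roots {O : Aic k} (φ : k[X] ⊗[k] k[X] →ₐ[k] O) :
      ∃ z₁ z₂, φ (1 + x - y) = z₁ + z₂ ∧ φ x = z₁ * z₂ := by
    obtain ⟨z, hz⟩ := O.root (.X ^ 2 - .C (φ (1 + x - y)) * .X + .C (φ x))
      (by monicity!) (by rw [show Polynomial.degree _ = 2 by compute_degree!]; norm_num)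
    refine ⟨z, φ (1 + x - y) - z, by ring, ?_⟩
    simp only [Polynomial.IsRoot, Polynomial.eval_add, Polynomial.eval_sub, Polynomial.eval_mul,
      Polynomial.eval_pow, Polynomial.eval_X, Polynomial.eval_C] at hz
    linear_combination hz
  let s : ⨂[k] _ : Fin 2, k[X] := singleAlgHom (A := fun _ => k[X]) 0 .X
  let t : ⨂[k] _ : Fin 2, k[X] := singleAlgHom (A := fun _ => k[X]) 1 .X
  let q₀ : k[X] ⊗[k] k[X] →ₐ[k] ⨂[k] _ : Fin 2, k[X] :=
    productMap (Polynomial.aeval (s * t)) (Polynomial.aeval ((1 - s) * (1 - t)))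
  let q : (circ k).pow (Fin 2) ⟶ (itv k 0).smash (itv k 0) :=
    ofAlg q₀ (fun _ _ => ⟨trivial, trivial⟩) fun φ _ ⟨i, h⟩ => by
      fin_cases i <;> rcases h with h | h <;>
        simp [sub_eq_zero, -singleAlgHom_apply] at h <;> simp [q₀, s, t, h, -singleAlgHom_apply]
  let p : (itv k 0).smash (itv k 0) ⟶ (circ k).pow (Fin 2) := ⟨Φ, fun φ _ => by
      obtain ⟨z₁, z₂, h1, h2⟩ := roots φ
      rw [key φ h1 h2]
      exact add_mem (Sp.pt fun _ => trivial) (Sp.pt fun _ => trivial), fun φ _ h => by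
      obtain ⟨z₁, z₂, h1, h2⟩ := roots φ
      have h3 : (z₁ = 1 ∨ z₁ = 0) ∨ (z₂ = 1 ∨ z₂ = 0) := by
        rcases h with h | h
        · rcases mul_eq_zero.1 (h2.symm.trans h) with h | h <;> simp [h]
        · have h4 : φ y = 0 := h
          rw [map_sub, map_add, map_one, h2, h4] at h1
          rcases mul_eq_zero.1 (show (z₁ - 1) * (z₂ - 1) = 0 by linear_combination h1) with h | h
            <;> simp [sub_eq_zero.1 h]
      rw [key φ h1 h2]
      refine add_mem (Sp.pt ⟨fun _ => trivial, ?_⟩) (Sp.pt ⟨fun _ => trivial, ?_⟩) <;>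
        simpa [Fin.exists_fin_two, sub_eq_zero, or_comm] using h3⟩
  refine ⟨con_circ, 2, .single 1 1 + .single (swap 0 1) 1, fun h => ?_, ?_⟩
  · have := congr(($h).coeff 1)
    simp at this
  · convert (((uzero_itv 0).smash (.of_uzero (uzero_itv 0))).null_left p).precomp q using 1
    refine hom_ext (Eq.trans ?_ (key q₀ (z₁ := s) (z₂ := t) (by simp [q₀, x, y]; ring)
      (by simp [q₀, x])).symm)
    simp only [map_add, lin_single, one_smul, add_val, perm_val]
    congr 2 <;> refine algHom_ext fun i => Polynomial.algHom_ext ?_ <;> fin_cases i <;>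
      simp [permHom, s, t, -singleAlgHom_apply]

end Circle

/-- Factors that can be cancelled. -/
def Canc (P : Obj k) : Prop :=
  Con P ∧ ∀ {X Y : Obj k} (f : X ⟶ Y), Con X → Null (smashMap f (𝟙 P)) → Null f

theorem Canc.of_uiso {P P' : Obj k} {u : P ⟶ P'} (hu : UIso u) (h : Canc P') : Canc P :=
  ⟨(Con.uiso_iff hu).2 h.1, fun f hX hf => h.2 f hX (.of_uiso_comp (hu.smash_left hX) (by
    rw [← smashMap_eq', smashMap_eq]; exact hf.comp _))⟩

theorem canc_pt : Canc (sm k k) :=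
  ⟨.sm k, fun f _ hf => .of_comp_uiso (uiso_rid _) (by rw [rid_nat]; exact hf.precomp _)⟩

theorem Canc.smash {P P' : Obj k} (h : Canc P) (h' : Canc P') : Canc (P.smash P') :=
  ⟨h.1.smash h'.1, fun f hX hf => h.2 f hX (h'.2 _ (hX.smash h.1)
    (.of_uiso_comp (uiso_assoc _ _ _) (by
      rw [← assoc_nat, smashMap_id]; exact hf.comp _)))⟩

theorem Canc.prod {ι : Type} [Fintype ι] [DecidableEq ι] {M : ι → Obj k} (h : ∀ i, Canc (M i)) :
    Canc (prod M) := by
  revert M
  refine prod_induction (P := fun ι _ _ => ∀ {M : ι → Obj k}, (∀ i, Canc (M i)) →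
    Canc (Obj.prod M)) (fun ι _ _ _ M _ => ?_) (fun ι _ _ a ih M h => ?_) ι
  · exact canc_pt.of_uiso (isE_empty M).uiso
  · refine .of_uiso (uiso_split (Equiv.sumCompl (· = a)) M) (.smash ?_ (ih fun _ => h _))
    exact (h _).of_uiso (isE_unique fun i => M (Equiv.sumCompl (· = a) (.inl i))).uiso

theorem canc_circ : Canc (circ k) :=
  ⟨con_circ, fun {X Y} f hX hf => canc_pt.2 f hX (.of_comp_uiso (.of_isIso (swap _ _)) (by
    rw [swap_nat]
    refine .precomp _ ((tri_circ.smash X).null_of_null₃ (tri_circ.smash Y)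
      (b := smashMap (𝟙 _) f) (c := smashMap (𝟙 _) f)
      (by rw [tri_circ.smash_i, tri_circ.smash_i, ← smashMap_eq, ← smashMap_eq'])
      (by rw [tri_circ.smash_p, tri_circ.smash_p, ← smashMap_eq, ← smashMap_eq'])
      ((uzero_itv 1).smash hX)
      (.of_uiso_comp (.of_isIso (swap _ _)) ?_))
    rw [← swap_nat]
    exact hf.comp _))⟩

theorem SF₀.desusp {M : Obj k} (h : SF₀ (M.smash (circ k))) (hM : Con M) : SF₀ M :=
  let ⟨n, r, _, h0, hr⟩ := h.cancel sf₀_circ hM
  ⟨hM, n, r, h0, (Canc.prod fun _ => canc_circ).2 _ (.prod fun _ => hM) hr⟩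

namespace Cone

open Algebra.TensorProduct

variable {B : Type} [CommRing B] [Algebra k B] (N D P : Pr k B)

/-- The points of the cone. -/
noncomputable abbrev cN : Pr k B[X] :=
  (N.comap Polynomial.CAlgHom).and ((P.comap Polynomial.CAlgHom).or (.zero .X))

/-- The dead points of the cone. -/
noncomputable abbrev cD : Pr k B[X] := (D.comap Polynomial.CAlgHom).or (.zero (.X - 1))

theorem tri₁ : Tri ⟨B, N, D⟩ ⟨B[X], cN N P, cD D⟩ ⟨B[X], cN N P, (cD D).or (.zero .X)⟩
    ((Polynomial.aeval 0 : B[X] →ₐ[B] B).restrictScalars k) (.id k _) := by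
  have e {O : Aic k} (φ : B →ₐ[k] O) : (φ.comp ((Polynomial.aeval 0 : B[X] →ₐ[B] B).restrictScalars
    k)).comp Polynomial.CAlgHom = φ := by ext; simp
  exact ⟨fun φ h => by simpa [e] using h, fun _ _ => by simp [e], fun _ _ _ _ _ => inj_aeval,
    fun _ h => h, fun ψ h => or_congr Iff.rfl
      ⟨fun h' => ⟨_, h.1, comp_aeval_eq ψ 0 (by simpa using h')⟩, by rintro ⟨φ, -, rfl⟩; simp⟩,
    fun _ _ _ _ _ e => e, fun χ h _ => ⟨χ, h, rfl⟩⟩

theorem isE_smash {N₁ D₁ : Pr k B} {D₂ : Pr k k[X]} {N' D' : Pr k B[X]}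
    (hn : ∀ {O : Aic k} (φ : B[X] →ₐ[k] O), N₁.p (φ.comp Polynomial.CAlgHom) → N'.p φ)
    (hd : ∀ {O : Aic k} (φ : B[X] →ₐ[k] O),
      D'.p φ ↔ D₁.p (φ.comp Polynomial.CAlgHom) ∨ D₂.p (Polynomial.aeval (φ .X)))
    (hs : ∀ {O : Aic k} (φ : B[X] →ₐ[k] O), N'.p φ → ¬ D'.p φ → N₁.p (φ.comp Polynomial.CAlgHom)) :
    IsE (Obj.smash ⟨B, N₁, D₁⟩ ⟨k[X], .top, D₂⟩) ⟨B[X], N', D'⟩
      (Polynomial.aevalTower includeLeft (1 ⊗ₜ .X)) := by
  have e1 {O : Aic k} (φ : B ⊗[k] k[X] →ₐ[k] O) : (φ.comp (Polynomial.aevalTower includeLeft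
    (1 ⊗ₜ .X))).comp Polynomial.CAlgHom = φ.comp includeLeft := by ext; simp
  have e2 {O : Aic k} (φ : B ⊗[k] k[X] →ₐ[k] O) : Polynomial.aeval ((φ.comp (Polynomial.aevalTower
    includeLeft (1 ⊗ₜ .X))) .X) = φ.comp includeRight := by ext; simp
  refine ⟨fun φ h => hn _ (by rw [e1]; exact h.1), fun φ _ => by rw [hd, e1, e2]; rfl,
    fun φ φ' _ _ _ h => tensor_ext (by rw [← e1, h, e1]) (by rw [← e2, h, e2]), fun χ h h' =>
    ⟨productMap (χ.comp Polynomial.CAlgHom) (Polynomial.aeval (χ .X)), ⟨?_, trivial⟩,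
      Polynomial.algHom_ext' (by ext; simp) (by simp)⟩⟩
  simpa only [Pr.comap_p, productMap_left] using hs χ h h'

variable {N P} (hP : ∀ {O : Aic k} (φ : B →ₐ[k] O), P.p φ → N.p φ)
include hP

theorem susp : IsE (Obj.smash ⟨B, P, D⟩ (circ k)) ⟨B[X], cN N P, (cD D).or (.zero .X)⟩
    (Polynomial.aevalTower includeLeft (1 ⊗ₜ .X)) :=
  isE_smash (fun _ h => ⟨hP _ h, .inl h⟩) (fun _ => by simp [or_assoc])
    fun _ h h' => h.2.resolve_right fun h => h' (.inr h)

theorem cone_iff (h : Con ⟨B, P, D⟩) : SF₀ ⟨B[X], cN N P, cD D⟩ ↔ SF₀ ⟨B, N, D.or P⟩ := by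
  have T : Tri ⟨B[X], P.comap Polynomial.CAlgHom, cD D⟩ ⟨B[X], cN N P, cD D⟩
      ⟨B[X], cN N P, (cD D).or (P.comap Polynomial.CAlgHom)⟩ (.id k _) (.id k _) :=
    Tri.std (fun _ h => ⟨hP _ h, .inl h⟩) (fun _ _ => Iff.rfl) (fun _ h => h) (fun _ _ => Iff.rfl)
      fun _ h _ => h
  have E : IsE (Obj.smash ⟨B, P, D⟩ (itv k 1)) ⟨B[X], P.comap Polynomial.CAlgHom, cD D⟩ _ :=
    isE_smash (fun _ h => h) (fun _ => by simp) fun _ h _ => h
  have E' : IsE ⟨B[X], cN N P, (cD D).or (P.comap Polynomial.CAlgHom)⟩ ⟨B, N, D.or P⟩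
      Polynomial.CAlgHom := by
    refine ⟨fun _ h => h.1, fun ψ h => ⟨fun h => h.imp .inl id, ?_⟩,
      fun ψ ψ' h h' h'' e => Polynomial.algHom_ext' e ?_, fun χ h _ =>
      ⟨Polynomial.aevalTower χ 0, ?_, by ext; simp⟩⟩
    · rintro ((h1 | h1) | h1)
      · exact .inl h1
      · refine .inr (h.2.resolve_right fun h2 => ?_)
        simp only [Pr.zero_p, map_sub, map_one] at h1 h2
        simp [h2] at h1
      · exact .inr h1
    · have h1 := h.2.resolve_left fun h => h' (.inr h)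
      have h2 := h''.2.resolve_left fun h => h' (.inr (by rwa [Pr.comap_p, e]))
      exact h1.trans h2.symm
    · have : (Polynomial.aevalTower χ 0).comp Polynomial.CAlgHom = χ := by ext; simp
      exact ⟨by rwa [Pr.comap_p, this], .inr (by simp)⟩
  exact (T.uzero₁_iff.1 (E.uiso.uzero_iff.1 ((uzero_itv 1).smash_left h))).sf₀_iff.trans
    E'.uiso.sf₀_iff

end Cone

namespace Tri

variable {M₁ M₂ M₃ : Obj k} {α : M₂.B →ₐ[k] M₁.B} {β : M₃.B →ₐ[k] M₂.B} (T : Tri M₁ M₂ M₃ α β)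
include T

theorem sf₀₃ (h₁ : SF₀ M₁) (h₂ : SF₀ M₂) : SF₀ M₃ :=
  have h := T.isE₁.uiso.sf₀_iff.1 h₁
  T.isE₃.uiso.sf₀_iff.1 ((Cone.cone_iff M₂.D T.im_le h.1).1 ((Cone.tri₁ _ _ _).sf₀₂ h₂
    ((Cone.susp M₂.D T.im_le).uiso.sf₀_iff.1 (h.smash sf₀_circ))))

theorem sf₀₁ (h₂ : SF₀ M₂) (h₃ : SF₀ M₃) : SF₀ M₁ :=
  have h := (Con.isE_iff T.isE₁).1 (.tri₁ T h₂.1 h₃.1)
  T.isE₁.uiso.sf₀_iff.2 (.desusp ((Cone.susp M₂.D T.im_le).uiso.sf₀_iff.2
    ((Cone.tri₁ _ _ _).sf₀₃ h₂ ((Cone.cone_iff M₂.D T.im_le h).2 (T.isE₃.uiso.sf₀_iff.2 h₃)))) h)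

end Tri

end Pool.Agent.Lib.MP_fc2ced_ag
end
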