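import Pool.Agent.Lib.MP_fc2ced_ag.BaseA
import Pool.Agent.Lib.MP_fc2ced_ag.RFA
import Pool.Agent.Lib.MP_fc2ced_ag.SFC
import Pool.Agent.Lib.MP_fc2ced_ag.PurityA
import Pool.Agent.Lib.MP_fc2ced_ag.GeoYB
import Pool.Agent.Lib.MP_fc2ced_ag.Generic

-- part Pool.Agent.Lib.MP_fc2ced_ag.SF
section

/-!
Stable Schur finiteness and its closure properties.
-/

open CategoryTheory
open scoped TensorProduct Polynomial

set_option linter.unusedSectionVars false

namespace Pool.Agent.Lib.MP_fc2ced_ag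

open Obj

variable {k : Type} [Field k] [CharZero k] [IsAlgClosed k] {M M' N : Obj k}

variable (k) in
/-- The Lefschetz object. -/
noncomputable abbrev Obj.lef : Obj k := rel k (Polynomial.X : k[X])

theorem smooth_pi (n : ℕ) (A : Type) [CommRing A] [Algebra k A] [Algebra.Smooth k A] :
    Algebra.Smooth k (⨂[k] _ : Fin n, A) := by
  induction n with
  | zero => exact .of_equiv (A := k) (AlgEquiv.ofAlgHom (Algebra.ofId k _) (piLift isEmptyElim)
      (PiTensorProduct.algHom_ext isEmptyElim) (Subsingleton.elim _ _))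
  | succ n ih =>
    have : Algebra.Smooth k (A ⊗[k] (⨂[k] _ : Fin n, A)) := .comp k A _
    refine .of_equiv (A := A ⊗[k] (⨂[k] _ : Fin n, A)) (AlgEquiv.ofAlgHom
      (Algebra.TensorProduct.productMap (PiTensorProduct.singleAlgHom (A := fun _ => A) 0)
        (piLift fun i => PiTensorProduct.singleAlgHom (A := fun _ => A) i.succ))
      (piLift (Fin.cons (α := fun _ => A →ₐ[k] A ⊗[k] (⨂[k] _ : Fin n, A))
        Algebra.TensorProduct.includeLeft fun i => Algebra.TensorProduct.includeRight.comp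
          (PiTensorProduct.singleAlgHom (A := fun _ => A) i)))
      (PiTensorProduct.algHom_ext fun i => AlgHom.ext fun a => ?_)
      (Algebra.TensorProduct.ext (AlgHom.ext fun a => ?_)
        (PiTensorProduct.algHom_ext fun i => AlgHom.ext fun a => ?_)))
    · refine Fin.cases ?_ (fun i => ?_) i <;> simp [-PiTensorProduct.singleAlgHom_apply]
    · simp [-PiTensorProduct.singleAlgHom_apply]
    · simp [-PiTensorProduct.singleAlgHom_apply]

theorem sf₀_pt : SF₀ (sm k k) := by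
  refine ⟨.sm k, 2, .single 1 1 - .single (Equiv.swap 0 1) 1, fun h => ?_, ?_⟩
  · have := congr(($h).coeff 1)
    simp at this
  · convert Null.zero using 1
    have (σ : Equiv.Perm (Fin 2)) : permHom k k σ = .id k _ :=
      PiTensorProduct.algHom_ext fun _ => Subsingleton.elim _ _
    exact hom_ext (by simp [this])

/-- The retraction of a pointed object onto its reduced part. -/
noncomputable def redSec {A : Type} [CommRing A] [Algebra k A] (x : A →ₐ[k] k) :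
    (⟨A, .top, .isPt x⟩ : Obj k) ⟶ sm k A :=
  ⟨LinearMap.id - ((Algebra.ofId k A).comp x).toLinearMap, fun φ _ => by
    rw [LinearMap.comp_sub]
    exact sub_mem (Sp.pt trivial) (Sp.pt (y := φ.comp ((Algebra.ofId k A).comp x)) trivial),
    fun φ _ h => by
      have : φ.toLinearMap ∘ₗ (LinearMap.id - ((Algebra.ofId k A).comp x).toLinearMap) = 0 := by
        ext a
        simp [show φ a = _ from h a]
      exact this ▸ zero_mem _⟩

/-- The projection to the reduced part. -/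
def redProj {A : Type} [CommRing A] [Algebra k A] (x : A →ₐ[k] k) :
    sm k A ⟶ (⟨A, .top, .isPt x⟩ : Obj k) := ofAlg (.id k A) (fun _ h => h) fun _ _ h => h.elim

theorem uiso_red {A : Type} [CommRing A] [Algebra k A] (x : A →ₐ[k] k) :
    UIso (redSec x ≫ redProj x) :=
  .of_null_sub (Null.symm (.dead fun φ _ => by
    convert Sp.pt (y := φ.comp ((Algebra.ofId k A).comp x))
      (P := Pr.top.and (.isPt x)) ⟨trivial, fun a => by simp⟩ using 1
    exact congrArg (φ.toLinearMap ∘ₗ ·) (sub_sub_cancel _ _))) .id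

theorem tri_red {A : Type} [CommRing A] [Algebra k A] (x : A →ₐ[k] k) :
    Tri (sm k k) (sm k A) ⟨A, .top, .isPt x⟩ x (.id k A) :=
  ⟨fun _ _ => trivial, fun _ _ => Iff.rfl, fun _ _ _ _ _ _ => Subsingleton.elim _ _,
    fun _ _ => trivial, fun {O} ψ _ => ⟨fun h => .inr ⟨Algebra.ofId k O, trivial,
      AlgHom.ext fun a => (h a).symm⟩, by
        rintro (h | ⟨φ, -, rfl⟩)
        exacts [h.elim, fun a => φ.commutes (x a)]⟩,
    fun _ _ _ _ _ e => e, fun χ _ _ => ⟨χ, trivial, rfl⟩⟩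

theorem sf₀_curve (A : Type) [CommRing A] [IsDomain A] [Algebra k A] [Algebra k[X] A]
    [IsScalarTower k k[X] A] [Algebra.Etale k[X] A] : SF₀ (sm k A) := by
  obtain ⟨n, x, H, h1, h2, h3⟩ := curve_homotopy (k := k) A
  have : Algebra.Smooth k A := .comp k k[X] A
  have hc : Con ⟨A, .top, .isPt x⟩ := .tri₃ (tri_red x) (.sm k) (.sm A)
  refine (tri_red x).sf₀₂ sf₀_pt ⟨hc, n, ∑ σ, .single σ 1, fun h => ?_, ?_⟩
  · have := congr(($h).coeff 1)
    simp [Finsupp.single_apply] at this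
  let P : Obj k := Obj.pow ⟨A, .top, .isPt x⟩ (Fin n)
  let R := ⨂[k] _ : Fin n, A
  let H' : sm k R[X] ⟶ P := ⟨H, fun ξ _ => Sp.le (fun _ _ _ => trivial) (h1 _ ξ),
    fun _ _ h => h.elim⟩
  have hR : Algebra.Smooth k R := smooth_pi n A
  have h4 : Null (smMap ((Polynomial.aeval 0 : R[X] →ₐ[R] R).restrictScalars k) ≫ H') := by
    refine .of_sub (g := smMap ((Polynomial.aeval 1 : R[X] →ₐ[R] R).restrictScalars k) ≫ H')
      (by rw [← Preadditive.sub_comp]; exact (Null.homotopy R 0 1).comp _) (.dead fun φ _ => ?_)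
    refine Sp.le (fun _ h => ?_) (h3 _ (φ.comp ((Polynomial.aeval 1 : R[X] →ₐ[R] R).restrictScalars
      k)) (by simp))
    exact ⟨fun _ => trivial, h⟩
  refine .of_uiso_comp (UIso.prod (fun _ => uiso_red x) fun _ => hc) ?_
  rw [prodMap_comp, Category.assoc]
  convert (h4.precomp (ofAlg (M := (sm k A).pow (Fin n)) (M' := sm k R) (.id k _)
    (fun _ _ => trivial) fun _ _ ⟨_, h⟩ => h)).precomp (prodMap fun _ => redSec x) using 2
  refine hom_ext (LinearMap.ext fun a => ?_)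
  simp [redProj, H', h2 a, permHom_eq_reindex]

theorem sf₀_lef : SF₀ (lef k) :=
  have : IsDomain (Localization.Away (Polynomial.X : k[X])) :=
    IsLocalization.isDomain_localization (powers_le_nonZeroDivisors_of_noZeroDivisors
      Polynomial.X_ne_zero)
  (tri_loc _).sf₀₃ ((isE_loc _).uiso.sf₀_iff.1 (sf₀_curve _))
    ((UIso.gen (.line k)).sf₀_iff.2 sf₀_pt)

theorem SF₀.prod {ι : Type} [Fintype ι] [DecidableEq ι] {M : ι → Obj k} (h : ∀ i, SF₀ (M i)) :
    SF₀ (prod M) := by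
  revert M
  refine prod_induction (P := fun ι _ _ => ∀ {M : ι → Obj k}, (∀ i, SF₀ (M i)) →
    SF₀ (Obj.prod M)) (fun ι _ _ _ M _ => ?_) (fun ι _ _ a ih M h => ?_) ι
  · exact (isE_empty M).uiso.sf₀_iff.2 sf₀_pt
  · refine (uiso_split (Equiv.sumCompl (· = a)) M).sf₀_iff.2 (.smash ?_ (ih fun _ => h _))
    exact (isE_unique fun i => M (Equiv.sumCompl (· = a) (.inl i))).uiso.sf₀_iff.2 (h _)

theorem sf₀_lefp (m : ℕ) : SF₀ ((lef k).pow (Fin m)) := .prod fun _ => sf₀_lef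

/-- Schur finite after a Tate twist. -/
def SF (M : Obj k) : Prop := Con M ∧ ∃ m : ℕ, SF₀ (M.smash ((lef k).pow (Fin m)))

theorem SF.con (h : SF M) : Con M := h.1

theorem SF₀.sf (h : SF₀ M) : SF M := ⟨h.1, 0, h.smash (sf₀_lefp 0)⟩

theorem tw_iff (h : Con M) {a b c : ℕ} (e : Fin a ⊕ Fin b ≃ Fin c) :
    SF₀ (M.smash ((lef k).pow (Fin c))) ↔
      SF₀ ((M.smash ((lef k).pow (Fin a))).smash ((lef k).pow (Fin b))) :=
  (((uiso_split e fun _ => lef k).smash_left h).comp (uiso_assoc _ _ _)).sf₀_iff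

theorem SF.common (h : SF M) (h' : SF N) : ∃ m : ℕ, SF₀ (M.smash ((lef k).pow (Fin m))) ∧
    SF₀ (N.smash ((lef k).pow (Fin m))) :=
  let ⟨h1, a, ha⟩ := h
  let ⟨h2, b, hb⟩ := h'
  ⟨a + b, (tw_iff h1 finSumFinEquiv).2 (ha.smash (sf₀_lefp b)),
    (tw_iff h2 ((Equiv.sumComm _ _).trans finSumFinEquiv)).2 (hb.smash (sf₀_lefp a))⟩

theorem SF.retract (h : SF M) {s : M' ⟶ M} {p : M ⟶ M'} (e : UIso (s ≫ p)) : SF M' :=
  let ⟨h1, m, hm⟩ := h
  ⟨h1.retract e, m, hm.retract (s := smashMap s (𝟙 _)) (p := smashMap p (𝟙 _))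
    (by simpa [← smashMap_comp] using e.smash (sf₀_lefp m).1)⟩

theorem UIso.sf_iff {f : M ⟶ M'} (hf : UIso f) : SF M ↔ SF M' :=
  and_congr (Con.uiso_iff hf) (exists_congr fun m => (hf.smash (sf₀_lefp m).1).sf₀_iff)

theorem IsE.sf_iff {β : M'.B →ₐ[k] M.B} (h : IsE M M' β) : SF M ↔ SF M' := h.uiso.sf_iff

section
variable {M₁ M₂ M₃ : Obj k} {α : M₂.B →ₐ[k] M₁.B} {β : M₃.B →ₐ[k] M₂.B}

theorem Tri.sf₁ (T : Tri M₁ M₂ M₃ α β) (h₂ : SF M₂) (h₃ : SF M₃) : SF M₁ :=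
  let ⟨m, a, b⟩ := h₂.common h₃
  ⟨.tri₁ T h₂.1 h₃.1, m, (T.smash _).sf₀₁ a b⟩
theorem Tri.sf₂ (T : Tri M₁ M₂ M₃ α β) (h₁ : SF M₁) (h₃ : SF M₃) : SF M₂ :=
  let ⟨m, a, b⟩ := h₁.common h₃
  ⟨.tri₂ T h₁.1 h₃.1, m, (T.smash _).sf₀₂ a b⟩
theorem Tri.sf₃ (T : Tri M₁ M₂ M₃ α β) (h₁ : SF M₁) (h₂ : SF M₂) : SF M₃ :=
  let ⟨m, a, b⟩ := h₁.common h₂
  ⟨.tri₃ T h₁.1 h₂.1, m, (T.smash _).sf₀₃ a b⟩

end

theorem SF.smash (h : SF M) (h' : SF N) : SF (M.smash N) := by
  obtain ⟨h1, a, ha⟩ := h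
  obtain ⟨h2, b, hb⟩ := h'
  refine ⟨h1.smash h2, b + a, (tw_iff (h1.smash h2) finSumFinEquiv).2 ?_⟩
  have hL := (sf₀_lefp (k := k) a).1
  refine ((uiso_assoc M N _).smash hL).sf₀_iff.1 ((uiso_assoc M _ _).sf₀_iff.1 ?_)
  exact ((UIso.of_isIso (swap _ _)).smash_left h1).sf₀_iff.1
    ((uiso_assoc M _ _).sf₀_iff.2 (ha.smash hb))

theorem SF.of_uzero (h : UZero M) : SF M := (SF₀.of_uzero h).sf

theorem SF.lef_iff (h : Con M) : SF (M.smash (lef k)) ↔ SF M :=
  ⟨fun ⟨_, m, hm⟩ => ⟨h, 1 + m, (tw_iff h finSumFinEquiv).2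
    ((((isE_unique fun _ : Fin 1 => lef k).uiso.smash_left h).smash (sf₀_lefp m).1).sf₀_iff.2 hm)⟩,
    fun h' => h'.smash sf₀_lef.sf⟩

theorem SF.pt : SF (sm k k) := sf₀_pt.sf

theorem SF.curve (A : Type) [CommRing A] [IsDomain A] [Algebra k A] [Algebra k[X] A]
    [IsScalarTower k k[X] A] [Algebra.Etale k[X] A] : SF (sm k A) := (sf₀_curve A).sf

section
variable {B C : Type} [CommRing B] [Algebra k B] [CommRing C] [Algebra k C]

theorem SF.tensor (h : SF (sm k B)) (h' : SF (sm k C)) : SF (sm k (B ⊗[k] C)) :=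
  (isE_smash_sm B C).sf_iff.1 (h.smash h')

theorem SF.poly_iff [Algebra.Smooth k B] : SF (sm k B[X]) ↔ SF (sm k B) :=
  (UIso.gen (.line B)).sf_iff

theorem SF.equiv_iff (e : B ≃ₐ[k] C) : SF (sm k B) ↔ SF (sm k C) :=
  (IsE.equiv (M := sm k C) (M' := sm k B) e (fun _ => Iff.rfl) fun _ => Iff.rfl).sf_iff.symm

theorem SF.away_iff (g : B) : SF (sm k (Localization.Away g)) ↔ SF (loc k g) := (isE_loc g).sf_iff

theorem SF.loc_one : SF (loc k (1 : B)) ↔ SF (sm k B) :=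
  (IsE.std (fun _ _ => trivial) (fun _ _ => Iff.rfl) fun _ _ _ => by simp :
    IsE (loc k (1 : B)) (sm k B) (.id k B)).sf_iff

/-- Descent along a finite free cover. -/
theorem SF.of_finite_free [Algebra B C] [IsScalarTower k B C] [Module.Free B C] [Module.Finite B C]
    [Nontrivial C] {N D : Pr k B} (h : SF (Obj.pull C N D)) : SF ⟨B, N, D⟩ :=
  let ⟨_, _, e⟩ := exists_transfer C N D
  h.retract e

end

end Pool.Agent.Lib.MP_fc2ced_ag
end

-- part Pool.Agent.Lib.MP_fc2ced_ag.Purity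
section

/-!
Motives with supports, purity, and Noetherian induction.
-/

open CategoryTheory
open scoped TensorProduct Polynomial

set_option linter.unusedSectionVars false

namespace Pool.Agent.Lib.MP_fc2ced_ag

open Obj

variable {k : Type} [Field k] [CharZero k] [IsAlgClosed k]

variable {B : Type} [CommRing B] [Algebra k B]

/-- Small open subsets of the smooth varieties whose functions embed in `K` are Schur finite. -/
def RF {Ω : Type} [Field Ω] [Algebra k Ω] (K : IntermediateField k Ω) : Prop :=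
  ∀ (A : Type) [CommRing A] [IsDomain A] [Algebra k A] [Algebra.Smooth k A] (ι : A →ₐ[k] Ω),
    Function.Injective ι → (∀ a, ι a ∈ K) →
      ∃ h : A, h ≠ 0 ∧ ∀ h' : A, h' ≠ 0 → SF (loc k (h * h'))

theorem RF.mono {Ω : Type} [Field Ω] [Algebra k Ω] {K K' : IntermediateField k Ω} (h : RF K')
    (hK : K ≤ K') : RF K := fun A _ _ _ _ ι h1 h2 => h A ι h1 fun a => hK (h2 a)

/-- The residue field of the point `ψ` is good. -/
def RFpt {Ω : Type} [Field Ω] [Algebra k Ω] (ψ : B →ₐ[k] Ω) : Prop :=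
  ∃ K : IntermediateField k Ω, RF K ∧ ∀ b, ψ b ∈ K

namespace Pu

theorem UI.sf_iff {M M' : Obj k} {β : M'.B →ₐ[k] M.B} (h : UI M M' β) : SF M ↔ SF M' :=
  let ⟨_, _, h⟩ := h
  h.sf_iff

/-- The motive with supports depends only on the locally closed subset. -/
theorem sf_congr [Algebra.Smooth k B] {g g' : B} {s s' : Set B} (hs : s.Finite) (hs' : s'.Finite)
    (h : ∀ P : Ideal B, P.IsPrime → (g ∉ P ∧ s ⊆ P ↔ g' ∉ P ∧ s' ⊆ P)) :
    SF (sup k g s) ↔ SF (sup k g' s') := by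
  have key : ∀ {g g' : B} {s s' : Set B}, s.Finite → s'.Finite →
      (∀ P : Ideal B, P.IsPrime → g ∉ P ∧ s ⊆ P → g' ∉ P ∧ s' ⊆ P) →
      (SF (sup k g s) ↔ SF (sup k (g * g') (s' ∪ s))) := fun hs hs' h =>
    (ui_open hs fun P h1 h2 h3 => by_contra fun h4 => (h P h1 ⟨h4, h2⟩).1 h3).sf_iff.symm.trans
      (ui_union hs hs' fun P h1 h2 h3 =>
        (h P h1 ⟨fun h4 => h3 (P.mul_mem_right _ h4), h2⟩).2).sf_iff
  rw [key hs hs' fun P hP => (h P hP).1, key hs' hs fun P hP => (h P hP).2, mul_comm,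
    Set.union_comm]

theorem sf_away {C : Type} [CommRing C] [Algebra k C] [Algebra B C] [IsScalarTower k B C] (c : B)
    [IsLocalization.Away c C] (g : B) (s : Set B) :
    SF (sup k (algebraMap B C (c * g)) (algebraMap B C '' s)) ↔ SF (sup k (c * g) s) :=
  IsE.sf_iff (β := IsScalarTower.toAlgHom k B C)
    (isE_away c (fun _ h => by simp_all) (fun _ => Iff.rfl) fun _ => by simp)

theorem exc {A E B₀ : Type} [CommRing A] [Algebra k A] [Algebra.Smooth k A] [CommRing E]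
    [Algebra k E] [CommRing B₀] (α : A →ₐ[k] E) (hα : α.toRingHom.Etale) (π : A →+* B₀)
    (hπ : Function.Surjective π) {x : A} (hk : ∀ a, π a = 0 ↔ x ∣ a) (ρ : E →+* B₀)
    (hρ : ∀ a, ρ (α a) = π a) {γ : E} (h1 : ρ γ = 1) (h2 : ∀ e, ρ e = 0 → α x ∣ γ * e) (g : A)
    {s : Set A} (hs : s.Finite) :
    SF (sup k g (insert x s)) ↔ SF (sup k (γ * α g) (α '' insert x s)) := by
  let _ := α.toRingHom.toAlgebra
  let _ := π.toAlgebra
  have : IsScalarTower k A E := .of_algHom α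
  have : Algebra.Etale A E := hα
  let C := Localization.Away γ
  have N : NisData k A C x := nis_gamma hπ hk ⟨ρ, hρ⟩ h1 h2
  have hu := IsLocalization.Away.algebraMap_isUnit (S := C) γ
  have e : ∀ a, algebraMap A C a = algebraMap E C (α a) := fun _ => rfl
  rw [← (nis N g hs).sf_iff]
  exact (isE_away γ (fun _ h => by simp_all) (fun φ => by simp [e, hu.map φ])
    fun _ => by simp [e]).sf_iff

theorem two_exc {S A₁ A₂ B₀ : Type} [CommRing S] [Algebra k S] [Algebra.Smooth k S] [CommRing A₁]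
    [Algebra k A₁] [CommRing A₂] [Algebra k A₂] [CommRing B₀] (θ₁ : S →ₐ[k] A₁)
    (h₁ : θ₁.toRingHom.Etale) (θ₂ : S →ₐ[k] A₂) (h₂ : θ₂.toRingHom.Etale) (π₁ : A₁ →+* B₀)
    (s₁ : Function.Surjective π₁) (π₂ : A₂ →+* B₀) (s₂ : Function.Surjective π₂) {x : S}
    (k₁ : ∀ a, π₁ a = 0 ↔ θ₁ x ∣ a) (k₂ : ∀ a, π₂ a = 0 ↔ θ₂ x ∣ a)
    (c : ∀ y, π₂ (θ₂ y) = π₁ (θ₁ y)) {g₁ : A₁} {g₂ : A₂} (hg : π₁ g₁ = π₂ g₂) {t₁ : Set A₁}
    {t₂ : Set A₂} (f₁ : t₁.Finite) (f₂ : t₂.Finite) (ht : π₁ '' t₁ = π₂ '' t₂) :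
    SF (sup k g₁ (insert (θ₁ x) t₁)) ↔ SF (sup k g₂ (insert (θ₂ x) t₂)) := by
  let _ := θ₁.toRingHom.toAlgebra
  let _ := θ₂.toRingHom.toAlgebra
  let _ := (π₁.comp θ₁.toRingHom).toAlgebra
  have : IsScalarTower k S A₁ := .of_algHom θ₁
  have : IsScalarTower k S A₂ := .of_algHom θ₂
  have : Algebra.Etale S A₁ := h₁
  have : Algebra.Etale S A₂ := h₂
  have : Algebra.Smooth k A₁ := .comp k S A₁
  have : Algebra.Smooth k A₂ := .comp k S A₂
  let E := A₁ ⊗[S] A₂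
  let α₁ : A₁ →ₐ[k] E := IsScalarTower.toAlgHom k A₁ E
  let α₂ : A₂ →ₐ[k] E := (Algebra.TensorProduct.includeRight : A₂ →ₐ[S] E).restrictScalars k
  have e1 : α₁.toRingHom.Etale := RingHom.etale_algebraMap.2 inferInstance
  have e2 : α₂.toRingHom.Etale := by
    let _ : Algebra A₂ E := Algebra.TensorProduct.rightAlgebra
    exact RingHom.Etale.isStableUnderBaseChange S A₁ A₂ E h₁
  have : Algebra.Smooth k E := .comp k A₁ E
  let ρ : E →ₐ[S] B₀ := Algebra.TensorProduct.productMap ⟨π₁, fun _ => rfl⟩ ⟨π₂, c⟩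
  have r1 : ∀ b, ρ (α₁ b) = π₁ b := fun b => Algebra.TensorProduct.productMap_left_apply _ _ b
  have r2 : ∀ q, ρ (α₂ q) = π₂ q := fun q => Algebra.TensorProduct.productMap_right_apply _ _ q
  have hx : α₂ (θ₂ x) = α₁ (θ₁ x) := (Algebra.TensorProduct.includeRight : A₂ →ₐ[S] E).commutes x
  obtain ⟨γ, g1, g2⟩ : ∃ γ : E, ρ γ = 1 ∧ ∀ e, ρ e = 0 → α₁ (θ₁ x) ∣ γ * e := by
    let _ := π₁.toAlgebra
    exact exists_gamma (A := A₁) s₁ k₁ ⟨ρ.toRingHom, r1⟩
  rw [exc α₁ e1 π₁ s₁ k₁ ρ.toRingHom r1 g1 g2 g₁ f₁,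
    exc α₂ e2 π₂ s₂ k₂ ρ.toRingHom r2 g1 (hx ▸ g2) g₂ f₂]
  refine sf_congr ((f₁.insert _).image _) ((f₂.insert _).image _) fun P hP => ?_
  rw [Set.image_insert_eq, Set.image_insert_eq, hx, Set.insert_subset_iff, Set.insert_subset_iff,
    Set.image_subset_iff, Set.image_subset_iff]
  by_cases h3 : γ ∈ P
  · simp [P.mul_mem_right _ h3]
  by_cases h4 : α₁ (θ₁ x) ∈ P
  · have key : ∀ a b, π₁ a = π₂ b → (α₁ a ∈ P ↔ α₂ b ∈ P) := fun a b e => by
      have := P.mem_of_dvd (g2 (α₁ a - α₂ b) (by rw [map_sub, r1, r2, e, sub_self])) h4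
      have h5 := (hP.mem_or_mem this).resolve_left h3
      exact ⟨fun h => by simpa using sub_mem h h5, fun h => by simpa using add_mem h5 h⟩
    rw [hP.mul_mem_iff_mem_or_mem, hP.mul_mem_iff_mem_or_mem, key _ _ hg]
    refine and_congr_right fun _ => and_congr_right fun _ => ⟨fun h b hb => ?_, fun h a ha => ?_⟩
    · obtain ⟨a, ha, e⟩ := ht.ge (Set.mem_image_of_mem _ hb)
      exact (key a b e).1 (h ha)
    · obtain ⟨b, hb, e⟩ := ht.le (Set.mem_image_of_mem _ ha)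
      exact (key a b e.symm).2 (h hb)
  · simp [h4]

theorem sf_poly [Algebra.Smooth k B] (g : B) {s : Set B} (hs : s.Finite) :
    SF (sup k (Polynomial.C g) (insert Polynomial.X (Polynomial.C '' s))) ↔ SF (sup k g s) := by
  rw [← SF.lef_iff (con_sup g hs)]
  exact (IsE.equiv (M := (sup k g s).smash (lef k))
    (M' := sup k (Polynomial.C g) (insert Polynomial.X (Polynomial.C '' s))) (polyEquivTensor k B)
    (fun φ => by simp) fun φ => by simp [or_comm]).sf_iff.symm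

end Pu

/-- Purity along a coordinate hyperplane. -/
theorem purity {R B₀ : Type} [CommRing R] [Algebra k R] [Algebra.Smooth k R] [CommRing B₀]
    [Algebra k B₀] (θ : R[X] →ₐ[k] B) (hθ : θ.toRingHom.Etale) (π : B →ₐ[k] B₀)
    (hπ : Function.Surjective π) (hk : ∀ b, π b = 0 ↔ θ Polynomial.X ∣ b) (g : B) {s : Set B}
    (hs : s.Finite) : SF (sup k g (insert (θ Polynomial.X) s)) ↔ SF (sup k (π g) (π '' s)) := by
  have e0 := Pu.etale_quot θ.toRingHom hθ π.toRingHom hπ hk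
  let ω : R →ₐ[k] B₀ := π.comp (θ.comp Polynomial.CAlgHom)
  have : Algebra.Smooth k B₀ := by
    let _ := ω.toRingHom.toAlgebra
    have : IsScalarTower k R B₀ := .of_algHom ω
    have : Algebra.Etale R B₀ := e0
    exact .comp k R B₀
  have hX : Polynomial.mapAlgHom ω Polynomial.X = Polynomial.X := Polynomial.map_X _
  have c : ((Polynomial.evalRingHom 0).comp (Polynomial.mapAlgHom ω).toRingHom) =
      π.toRingHom.comp θ.toRingHom :=
    Polynomial.ringHom_ext (fun r => by simp [ω]) (by simp [(hk _).2 dvd_rfl])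
  rw [← Pu.sf_poly _ (hs.image π), ← hX]
  refine Pu.two_exc θ hθ (Polynomial.mapAlgHom ω) (Pu.etale_poly _ e0) π.toRingHom hπ
    (Polynomial.evalRingHom 0) (fun b => ⟨Polynomial.C b, Polynomial.eval_C⟩) hk (fun q => ?_)
    (fun y => congr($c y)) Polynomial.eval_C.symm hs ((hs.image π).image _) ?_
  · rw [hX, Polynomial.X_dvd_iff, Polynomial.coeff_zero_eq_eval_zero]
    rfl
  · simp [Set.image_image]

namespace Pu

variable {Ω : Type} [Field Ω] [Algebra k Ω]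

/-- Local purity at the point `ψ`. -/
def LP (ψ : B →ₐ[k] Ω) : Prop :=
  ∃ h, ψ h ≠ 0 ∧ ∀ h' (s : Set B), s.Finite →
    (∀ P : Ideal B, P.IsPrime → h * h' ∉ P → (s ⊆ P ↔ RingHom.ker ψ ≤ P)) → SF (sup k (h * h') s)

theorem exists_away (ψ : B →ₐ[k] Ω) {c : B} (hc : ψ c ≠ 0) (C : Type) [CommRing C] [Algebra k C]
    [Algebra B C] [IsScalarTower k B C] [IsLocalization.Away c C] :
    ∃ χ : C →ₐ[k] Ω, (∀ b, χ (algebraMap B C b) = ψ b) ∧ (RFpt ψ → RFpt χ) ∧ (LP χ → LP ψ) := by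
  let χ : C →ₐ[k] Ω := IsLocalization.Away.liftAlgHom c (f := ψ) (IsUnit.mk0 _ hc)
  have e : ∀ b, χ (algebraMap B C b) = ψ b := fun b => by simp [χ]
  have hu := IsLocalization.Away.algebraMap_isUnit (S := C) c
  refine ⟨χ, e, fun ⟨K, h1, h2⟩ => ⟨K, h1, fun z => ?_⟩, fun ⟨h, h1, h2⟩ => ?_⟩
  · obtain ⟨n, a, ha⟩ := IsLocalization.Away.surj c z
    have h3 := congr(χ $ha)
    rw [map_mul, map_pow, e, e, ← eq_div_iff (pow_ne_zero n hc)] at h3
    exact h3 ▸ div_mem (h2 a) (pow_mem (h2 c) n)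
  · obtain ⟨n, a, ha⟩ := IsLocalization.Away.surj c h
    refine ⟨c * a, ?_, fun h' s hs H => ?_⟩
    · rw [map_mul, ← e a, ← ha, map_mul, map_pow, e]
      exact mul_ne_zero hc (mul_ne_zero h1 (pow_ne_zero n hc))
    have e2 : algebraMap B C (c * a * h') = h * algebraMap B C (c ^ (n + 1) * h') := by
      simp only [map_mul, map_pow, ← ha]
      ring
    rw [mul_assoc, ← sf_away (C := C), ← mul_assoc, e2]
    refine h2 _ _ (hs.image _) fun Q hQ h3 => ?_
    rw [Set.image_subset_iff]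
    refine (H (Q.comap (algebraMap B C)) inferInstance (by rwa [Ideal.mem_comap, e2])).trans
      ⟨fun h4 z hz => ?_, fun h4 b hb => h4 ((e b).trans hb)⟩
    obtain ⟨m, b, hb⟩ := IsLocalization.Away.surj c z
    have h5 : algebraMap B C b ∈ Q := h4 (show ψ b = 0 by
      rw [← e, ← hb, map_mul, show χ z = 0 from hz, zero_mul])
    rwa [← hb, Ideal.mul_unit_mem_iff_mem _ (hu.pow m)] at h5

theorem lp_quot {R B₀ : Type} [CommRing R] [Algebra k R] [Algebra.Smooth k R] [CommRing B₀]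
    [Algebra k B₀] [Algebra.Smooth k B] (θ : R[X] →ₐ[k] B) (hθ : θ.toRingHom.Etale)
    (π : B →ₐ[k] B₀) (hπ : Function.Surjective π) (hk : ∀ b, π b = 0 ↔ θ Polynomial.X ∣ b)
    (ψ : B₀ →ₐ[k] Ω) (h : LP ψ) : LP (ψ.comp π) := by
  obtain ⟨h, h1, h2⟩ := h
  obtain ⟨h, rfl⟩ := hπ h
  refine ⟨h, h1, fun h' s hs H => ?_⟩
  have hX : θ Polynomial.X ∈ RingHom.ker (ψ.comp π) := by
    rw [RingHom.mem_ker, AlgHom.comp_apply, (hk _).2 dvd_rfl, map_zero]
  rw [sf_congr hs (hs.insert (θ Polynomial.X)) fun P hP => and_congr_right fun h3 =>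
    ⟨fun h4 => Set.insert_subset ((H P hP h3).1 h4 hX) h4,
      fun h4 => (Set.insert_subset_iff.1 h4).2⟩, purity θ hθ π hπ hk _ hs, map_mul]
  refine h2 _ _ (hs.image _) fun Q hQ h3 => ?_
  rw [Set.image_subset_iff]
  refine (H (Q.comap π) inferInstance (by rwa [Ideal.mem_comap, map_mul])).trans
    ⟨fun h4 z hz => ?_, fun h4 b hb => h4 hb⟩
  obtain ⟨b, rfl⟩ := hπ z
  exact h4 hz

theorem lp_step {R : Type} [CommRing R] [Algebra k R] [Algebra.Smooth k R] [Algebra.Smooth k B]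
    (θ : R[X] →ₐ[k] B) (hθ : θ.toRingHom.Etale) (χ : B →ₐ[k] Ω) (hX : χ (θ Polynomial.X) = 0)
    (h : RFpt χ) (ih : ∀ (B₀ : Type) [CommRing B₀] [Algebra k B₀] (ω : R →ₐ[k] B₀),
      ω.toRingHom.Etale → ∀ ψ : B₀ →ₐ[k] Ω, RFpt ψ → LP ψ) : LP χ := by
  let B₀ := B ⧸ Ideal.span {θ Polynomial.X}
  let π : B →ₐ[k] B₀ := Ideal.Quotient.mkₐ k _
  have hk : ∀ b, π b = 0 ↔ θ Polynomial.X ∣ b := fun b =>
    Ideal.Quotient.eq_zero_iff_mem.trans Ideal.mem_span_singleton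
  have hπ : Function.Surjective π := Ideal.Quotient.mk_surjective
  let ψ₀ : B₀ →ₐ[k] Ω := Ideal.Quotient.liftₐ _ χ fun a ha => by
    obtain ⟨c, rfl⟩ := Ideal.mem_span_singleton.1 ha
    rw [map_mul, hX, zero_mul]
  obtain ⟨K, k1, k2⟩ := h
  have := lp_quot θ hθ π hπ hk ψ₀ (ih B₀ (π.comp (θ.comp Polynomial.CAlgHom))
    (etale_quot θ.toRingHom hθ π.toRingHom hπ hk) ψ₀ ⟨K, k1, fun z => by
      obtain ⟨b, rfl⟩ := hπ z
      exact k2 b⟩)
  rwa [show ψ₀.comp π = χ from AlgHom.ext fun _ => rfl] at this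

theorem lp_inj [Algebra.Smooth k B] (ψ : B →ₐ[k] Ω) (hψ : Function.Injective ψ) (h : RFpt ψ) :
    LP ψ := by
  obtain ⟨K, h1, h2⟩ := h
  have : IsDomain B := hψ.isDomain ψ.toRingHom
  obtain ⟨h, h3, h4⟩ := h1 B ψ hψ h2
  refine ⟨h, (map_ne_zero_iff _ hψ).2 h3, fun h' s hs H => ?_⟩
  by_cases h0 : h' = 0
  · exact .of_uzero (uzero_sup hs fun P _ _ => by simp [h0])
  rw [sf_congr hs Set.finite_empty fun P hP => and_congr_right fun h5 =>
    iff_of_true ((H P hP h5).2 (by simp [(RingHom.injective_iff_ker_eq_bot ψ).1 hψ]))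
      (Set.empty_subset _)]
  exact (IsE.std (fun _ h => h) (fun _ _ => by simp) fun _ h _ => h :
    IsE (loc k (h * h')) (sup k (h * h') ∅) (.id k B)).sf_iff.1 (h4 h' h0)

theorem lp_gen {P : Type} [CommRing P] [IsDomain P] [IsIntegrallyClosed P] [Algebra P B]
    [Algebra.Etale P B] [Algebra.Smooth k B] (ψ : B →ₐ[k] Ω)
    (hψ : Function.Injective (ψ.toRingHom.comp (algebraMap P B))) (h : RFpt ψ) : LP ψ := by
  obtain ⟨e, -, h1, h2⟩ := exists_component P B ψ.toRingHom hψ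
  have h3 : ψ e ≠ 0 := fun h => one_ne_zero (h1.symm.trans h)
  obtain ⟨χ, e1, e2, e3⟩ := exists_away ψ h3 (Localization.Away e)
  have : Algebra.Smooth k (Localization.Away e) := .comp k B _
  refine e3 (lp_inj χ ((injective_iff_map_eq_zero χ).2 fun z hz => ?_) (e2 h))
  have hu := IsLocalization.Away.algebraMap_isUnit (S := Localization.Away e) e
  obtain ⟨m, b, hb⟩ := IsLocalization.Away.surj e z
  have h4 := congrArg (algebraMap B (Localization.Away e))
    (h2 b (show ψ b = 0 by rw [← e1, ← hb, map_mul, hz, zero_mul]))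
  rwa [map_mul, map_zero, hu.mul_right_eq_zero, ← hb, (hu.pow m).mul_left_eq_zero] at h4

theorem lp_etale (d : ℕ) : ∀ (B : Type) [CommRing B] [Algebra k B]
    (ω : MvPolynomial (Fin d) k →ₐ[k] B), ω.toRingHom.Etale → ∀ ψ : B →ₐ[k] Ω, RFpt ψ → LP ψ := by
  induction d with
  | zero =>
    intro B _ _ ω hω ψ h
    let _ := ω.toRingHom.toAlgebra
    have : IsScalarTower k (MvPolynomial (Fin 0) k) B := .of_algHom ω
    have : Algebra.Etale (MvPolynomial (Fin 0) k) B := hω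
    have : Algebra.Smooth k (MvPolynomial (Fin 0) k) := {}
    have : Algebra.Smooth k B := .comp k (MvPolynomial (Fin 0) k) B
    refine lp_gen (P := MvPolynomial (Fin 0) k) ψ ((injective_iff_map_eq_zero _).2 fun p hp => ?_) h
    obtain ⟨c, rfl⟩ := MvPolynomial.C_surjective (Fin 0) p
    have : algebraMap k Ω c = 0 := by
      rw [← ψ.commutes, IsScalarTower.algebraMap_apply k (MvPolynomial (Fin 0) k) B]
      exact hp
    rw [(map_eq_zero _).1 this, map_zero]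
  | succ d ih =>
    intro B _ _ ω hω ψ h
    let W := MvPolynomial (Fin (d + 1)) k
    let R := MvPolynomial (Fin d) k
    let _ := ω.toRingHom.toAlgebra
    have : IsScalarTower k W B := .of_algHom ω
    have : Algebra.Etale W B := hω
    have : Algebra.Smooth k W := {}
    have : Algebra.Smooth k R := {}
    have : Algebra.Smooth k B := .comp k W B
    by_cases hψ : Function.Injective (ψ.toRingHom.comp (algebraMap W B))
    · exact lp_gen ψ hψ h
    obtain ⟨e, p, h1, h2⟩ := exists_coord _ hψ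
    let T := Localization.Away (e p.derivative)
    obtain ⟨θ₀, h3, h4⟩ := etale_coord (T := T) e p
    let C := T ⊗[W] B
    let _ : Algebra B C := Algebra.TensorProduct.rightAlgebra
    have : IsScalarTower k B C := .of_algebraMap_eq fun r => by
      rw [IsScalarTower.algebraMap_apply k W, IsScalarTower.algebraMap_apply k W B,
        ← IsScalarTower.algebraMap_apply W B]
    obtain ⟨χ, e1, e2, e3⟩ := exists_away ψ h2 C
    have : Algebra.Smooth k T := .comp k W T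
    have : Algebra.Smooth k C := .comp k T C
    let θ : R[X] →ₐ[k] C := (IsScalarTower.toAlgHom k T C).comp θ₀
    have hθ : θ.toRingHom.Etale := RingHom.Etale.stableUnderComposition _ _ h3
      (RingHom.etale_algebraMap.2 (inferInstance : Algebra.Etale T C))
    have hX : χ (θ Polynomial.X) = 0 := by
      have : θ Polynomial.X = algebraMap B C (algebraMap W B (e p)) := by
        rw [← IsScalarTower.algebraMap_apply, IsScalarTower.algebraMap_apply W T C, ← h4]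
        rfl
      rw [this, e1]
      exact h1
    exact e3 (lp_step θ hθ χ hX (e2 h) ih)

theorem lp [Algebra.Smooth k B] (ψ : B →ₐ[k] Ω) (h : RFpt ψ) : LP ψ := by
  have : (RingHom.ker ψ).IsPrime := RingHom.ker_isPrime ψ
  obtain ⟨f, hf, n, _, _, _⟩ :=
    Algebra.IsSmoothAt.exists_isStandardEtale_mvPolynomial (R := k) (p := RingHom.ker ψ)
  obtain ⟨χ, -, e2, e3⟩ := exists_away ψ hf (Localization.Away f)
  exact e3 (lp_etale n _ (IsScalarTower.toAlgHom k _ _)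
    (RingHom.etale_algebraMap.2 inferInstance) χ (e2 h))

theorem exists_sep {R : Type} [CommRing R] [IsNoetherianRing R] {I 𝔭 : Ideal R}
    (h : 𝔭 ∈ I.minimalPrimes) : ∃ c ∉ 𝔭, ∀ Q : Ideal R, Q.IsPrime → I ≤ Q → c ∉ Q → 𝔭 ≤ Q := by
  have hp := h.1.1
  have hf := (I.finite_minimalPrimes_of_isNoetherianRing R).sdiff (t := {𝔭})
  have : ∀ q ∈ hf.toFinset, ∃ a ∈ q, a ∉ 𝔭 := fun q hq => by
    rw [Set.Finite.mem_toFinset] at hq
    by_contra hc
    push Not at hc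
    exact hq.2 (le_antisymm hc (h.2 hq.1.1 hc))
  choose! a ha ha' using this
  refine ⟨∏ q ∈ hf.toFinset, a q, fun hc => ?_, fun Q _ h1 h2 => ?_⟩
  · obtain ⟨q, hq, h3⟩ := Ideal.IsPrime.prod_mem_iff.1 hc
    exact ha' q hq h3
  · obtain ⟨q, hq, h3⟩ := Ideal.exists_minimalPrimes_le h1
    by_cases e : q = 𝔭
    · exact e ▸ h3
    · have h4 := hf.mem_toFinset.2 ⟨hq, e⟩
      exact (h2 (Q.mem_of_dvd (Finset.dvd_prod_of_mem a h4) (h3 (ha q h4)))).elim

end Pu

/-- Noetherian induction on the support. -/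
theorem SF_sup [Algebra.Smooth k B] (g : B) {s : Set B} (hs : s.Finite)
    (H : ∀ (Ω : Type) [Field Ω] [IsAlgClosed Ω] [Algebra k Ω] (ψ : B →ₐ[k] Ω), ψ g ≠ 0 →
      (∀ x ∈ s, ψ x = 0) → RFpt ψ) : SF (sup k g s) := by
  have : IsNoetherianRing B := Algebra.FiniteType.isNoetherianRing k B
  induction hI : Ideal.span s using (wellFounded_gt (α := Ideal B)).induction
    generalizing s with
  | _ I ih =>
    subst hI
    by_cases h0 : ∀ P : Ideal B, P.IsPrime → s ⊆ P → g ∈ P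
    · exact .of_uzero (Pu.uzero_sup hs h0)
    push Not at h0
    obtain ⟨P, hP, h1, h2⟩ := h0
    obtain ⟨𝔭, h3, h4⟩ := Ideal.exists_minimalPrimes_le (Ideal.span_le.2 h1)
    have := h3.1.1
    obtain ⟨c, c1, c2⟩ := Pu.exists_sep h3
    let Ω := AlgebraicClosure (FractionRing (B ⧸ 𝔭))
    let ψ : B →ₐ[k] Ω := (IsScalarTower.toAlgHom k (B ⧸ 𝔭) Ω).comp (Ideal.Quotient.mkₐ k 𝔭)
    have hψ : ∀ b, ψ b = 0 ↔ b ∈ 𝔭 := fun b =>
      (map_eq_zero_iff (algebraMap (B ⧸ 𝔭) Ω) ((algebraMap (FractionRing (B ⧸ 𝔭)) Ω).injective.comp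
        (IsFractionRing.injective (B ⧸ 𝔭) _))).trans Ideal.Quotient.eq_zero_iff_mem
    have hk : RingHom.ker ψ = 𝔭 := Ideal.ext hψ
    obtain ⟨h, h5, h6⟩ := Pu.lp ψ (H Ω ψ (fun h => h2 (h4 ((hψ g).1 h)))
      fun x hx => (hψ x).2 (h3.1.2 (Ideal.subset_span hx)))
    have h7 : h * c ∉ 𝔭 := fun h7 => (this.mem_or_mem h7).elim (fun h => h5 ((hψ _).2 h)) c1
    refine (Pu.tri_ins g (h * c) s).sf₂ ?_ (ih _ ?_ (hs.insert _) (fun Ω _ _ _ ψ h1 h2 =>
      H Ω ψ h1 fun x hx => h2 x (Set.mem_insert_of_mem _ hx)) rfl)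
    · rw [mul_left_comm]
      refine h6 _ s hs fun Q hQ h8 => ?_
      rw [hk]
      exact ⟨fun h9 => c2 Q hQ (Ideal.span_le.2 h9)
        fun h => h8 (Q.mul_mem_left _ (Q.mul_mem_left _ h)),
        fun h9 => Ideal.span_le.1 (h3.1.2.trans h9)⟩
    · refine lt_of_le_of_ne (Ideal.span_mono (Set.subset_insert _ _)) fun e => h7 (h3.1.2 ?_)
      rw [e]
      exact Ideal.subset_span (Set.mem_insert _ _)

theorem Obj.tri_sup (g h : B) :
    Tri (loc k (g * h)) (loc k g) (sup k g {h}) (.id k B) (.id k B) :=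
  Tri.std (fun _ h => by simp_all) (fun _ _ => Iff.rfl) (fun _ h => h) (fun _ h => by simp_all)
    fun _ h _ => h

theorem Obj.isE_sup_empty (g : B) : IsE (loc k g) (sup k g ∅) (.id k B) :=
  IsE.std (fun _ h => h) (fun _ _ => by simp) fun _ h _ => h

theorem SF_loc_iff [Algebra.Smooth k B] (g h : B)
    (H : ∀ (Ω : Type) [Field Ω] [IsAlgClosed Ω] [Algebra k Ω] (ψ : B →ₐ[k] Ω), ψ g ≠ 0 →
      ψ h = 0 → RFpt ψ) : SF (loc k (g * h)) ↔ SF (loc k g) :=
  have := SF_sup g (Set.finite_singleton h) fun Ω _ _ _ ψ h1 h2 => H Ω ψ h1 (h2 h rfl)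
  ⟨fun h1 => (tri_sup g h).sf₂ h1 this, fun h1 => (tri_sup g h).sf₁ h1 this⟩

theorem SF_of_rfpt [Algebra.Smooth k B]
    (H : ∀ (Ω : Type) [Field Ω] [IsAlgClosed Ω] [Algebra k Ω] (ψ : B →ₐ[k] Ω), RFpt ψ) :
    SF (sm k B) :=
  SF.loc_one.1 ((isE_sup_empty 1).sf_iff.2 (SF_sup 1 Set.finite_empty fun Ω _ _ _ ψ _ _ => H Ω ψ))

section
variable {R B₀ : Type} [CommRing R] [Algebra k R] [Algebra.Smooth k R] [CommRing B₀]
  [Algebra k B₀] (θ : R[X] →ₐ[k] B) (hθ : θ.toRingHom.Etale) (π : B →ₐ[k] B₀)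
  (hπ : Function.Surjective π) (hk : ∀ b, π b = 0 ↔ θ Polynomial.X ∣ b) (g : B)
include hθ hπ hk

theorem purity_divisor : SF (sup k g {θ Polynomial.X}) ↔ SF (loc k (π g)) := by
  have := purity θ hθ π hπ hk g Set.finite_empty
  rw [Set.image_empty, ← (isE_sup_empty _).sf_iff] at this
  simpa using this

/-- Adding or removing a smooth divisor. -/
theorem purity_open (h : SF (loc k (π g))) : SF (loc k (g * θ Polynomial.X)) ↔ SF (loc k g) :=
  have := (purity_divisor θ hθ π hπ hk g).2 h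
  ⟨fun h1 => (tri_sup g _).sf₂ h1 this, fun h1 => (tri_sup g _).sf₁ h1 this⟩

theorem purity_closed (h : SF (loc k (g * θ Polynomial.X))) (h' : SF (loc k g)) :
    SF (loc k (π g)) := (purity_divisor θ hθ π hπ hk g).1 ((tri_sup g _).sf₃ h h')

end

end Pool.Agent.Lib.MP_fc2ced_ag
end

-- part Pool.Agent.Lib.MP_fc2ced_ag.RF
section

/-!
Curves, domination, and surfaces dominated by products of curves.
-/

open CategoryTheory
open scoped TensorProduct Polynomial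

set_option linter.unusedSectionVars false

namespace Pool.Agent.Lib.MP_fc2ced_ag

open Obj

variable {k : Type} [Field k] [CharZero k] [IsAlgClosed k] {Ω : Type} [Field Ω] [Algebra k Ω]

namespace RFA

open Algebra Function

variable {A B : Type} [CommRing A] [Algebra k A] [CommRing B] [Algebra k B]

theorem away_away (h h' : A) :
    SF (loc k (algebraMap A (Localization.Away h) h')) ↔ SF (loc k (h * h')) :=
  IsE.sf_iff (β := IsScalarTower.toAlgHom k A (Localization.Away h))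
    { n := fun ψ h1 => by
        simpa using ⟨(IsLocalization.Away.algebraMap_isUnit h).map ψ, h1⟩
      d := fun _ _ => Iff.rfl
      inj := fun ψ ψ' _ _ _ e => (isE_loc h).inj ψ ψ' trivial id trivial e
      surj := fun χ h1 _ => by
        have h2 : IsUnit (χ h) ∧ IsUnit (χ h') := by simpa using h1
        obtain ⟨ψ, -, rfl⟩ := (isE_loc h).surj χ h2.1 id
        exact ⟨ψ, h2.2, rfl⟩ }

theorem sf_curve [IsDomain A] (f : k[X] →ₐ[k] A) (hf : f.toRingHom.Etale) : SF (sm k A) := by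
  algebraize [f.toRingHom]
  have : IsScalarTower k k[X] A := .of_algebraMap_eq fun x => (f.commutes x).symm
  exact SF.curve A

theorem sf_of_finite [IsDomain A] [Algebra.Smooth k A] [IsDomain B] (f : A →ₐ[k] B)
    (h1 : Injective f) (h2 : f.toRingHom.Finite) (h : SF (sm k B)) : SF (sm k A) := by
  algebraize [f.toRingHom]
  have : IsScalarTower k A B := .of_algebraMap_eq fun x => (f.commutes x).symm
  have := normal_of_smooth k A
  obtain ⟨_, _, e⟩ := exists_transfer_normal (k := k) A B h1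
  exact h.retract e

theorem sf_low [IsDomain A] {n : ℕ} [Algebra (MvPolynomial (Fin n) k) A]
    [IsScalarTower k (MvPolynomial (Fin n) k) A] [Algebra.Etale (MvPolynomial (Fin n) k) A]
    (h : trdeg k A ≤ 1) : SF (sm k A) := by
  have h1 := trdeg_etale k (MvPolynomial (Fin n) k) A
  rw [MvPolynomial.trdeg_of_isDomain] at h1
  have h2 : n ≤ 1 := by simpa [h1] using h
  obtain rfl | rfl : n = 0 ∨ n = 1 := by omega
  · have : Algebra.IsAlgebraic k A := trdeg_eq_zero_iff.1 (by simpa using h1)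
    exact (SF.equiv_iff (AlgEquiv.ofBijective (Algebra.ofId k A)
      IsAlgClosed.algebraMap_bijective_of_isIntegral)).1 SF.pt
  · exact sf_curve ((IsScalarTower.toAlgHom k (MvPolynomial (Fin 1) k) A).comp
      (MvPolynomial.uniqueAlgEquiv k (Fin 1)).symm.toAlgHom)
      (RingHom.Etale.stableUnderComposition _ (algebraMap _ A)
        (.of_bijective (MvPolynomial.uniqueAlgEquiv k (Fin 1)).symm.bijective)
        (RingHom.etale_algebraMap.2 inferInstance))

end RFA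

theorem RF_acl (a : Ω) : RF (acl k a) := by
  intro A _ _ _ _ ι h1 h2
  obtain ⟨f, hf, n, _, _, _⟩ :=
    Algebra.IsSmoothAt.exists_isStandardEtale_mvPolynomial (R := k) (p := (⊥ : Ideal A))
  have h0 : f ≠ 0 := hf
  refine ⟨f, h0, fun h' h3 => (RFA.away_away f h').1 ((SF.away_iff _).1 ?_)⟩
  have := RFA.dom_away h0
  have h4 := (map_ne_zero_iff _ (RFA.inj_away h0)).2 h3
  have := RFA.dom_away h4
  refine RFA.sf_low (n := n) ?_
  rw [RFA.trdeg_away h4, RFA.trdeg_away h0]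
  exact RFA.trdeg_le_one ι h1 h2

namespace RFA

open Algebra Function

variable {A B : Type} [CommRing A] [Algebra k A] [CommRing B] [Algebra k B]

theorem surf_loc [IsDomain B] [Algebra.Smooth k B] (hB : trdeg k B ≤ 2) {h : B} (h0 : h ≠ 0) :
    SF (loc k h) ↔ SF (sm k B) := by
  rw [← SF.loc_one, ← SF_loc_iff 1 h fun Ω _ _ _ ψ _ h1 =>
    (acl_of_zero hB ψ h0 h1).elim fun a ha => ⟨_, RF_acl a, ha⟩, one_mul]

theorem dom [IsDomain B] [Algebra.Smooth k B] (hB : trdeg k B ≤ 2) (h : SF (sm k B))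
    (ψ : B →ₐ[k] Ω) (hψ : Injective ψ) : RF (IntermediateField.adjoin k (Set.range ψ)) := by
  intro A _ _ _ _ ι h1 h2
  obtain ⟨a, ha⟩ | ⟨x, hx⟩ := dich ι
  · exact RF_acl a A ι h1 ha
  obtain ⟨d, h0, φ, e⟩ := exists_factor ι ψ hψ h2
  have d0 : d ≠ 0 := fun h => h0 (by rw [h, map_zero])
  have := dom_away d0
  have : Algebra.Smooth k (Localization.Away d) := .comp k B _
  have hφ : Injective φ := .of_comp (f := ext ψ h0) (by rwa [← AlgHom.coe_comp, e])
  have h3 : trdeg k (Localization.Away d) ≤ 2 := (trdeg_away d0).trans_le hB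
  have h4 := (SF.away_iff d).2 ((surf_loc hB d0).2 h)
  algebraize [φ.toRingHom]
  have : IsScalarTower k A (Localization.Away d) :=
    .of_algebraMap_eq fun x => (φ.commutes x).symm
  have : FaithfulSMul A (Localization.Away d) := (faithfulSMul_iff_algebraMap_injective _ _).2 hφ
  have : Algebra.IsAlgebraic A (Localization.Away d) := by
    by_contra h5
    have h6 : 1 ≤ trdeg A (Localization.Away d) :=
      Cardinal.one_le_iff_ne_zero.2 (mt trdeg_eq_zero_iff.1 h5)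
    have h7 := (add_le_add (AlgebraicIndependent.of_comp ι hx).cardinalMk_le_trdeg h6).trans
      ((trdeg_add_eq k A).trans_le h3)
    norm_num [Cardinal.mk_option] at h7
  obtain ⟨g, g0, hg⟩ := exists_finite (k := k) (A := A) (B := Localization.Away d)
  refine ⟨g, g0, fun h' h5 => (SF.away_iff _).1 ?_⟩
  have h6 := mul_ne_zero g0 h5
  have h7 : IsScalarTower.toAlgHom k A (Localization.Away d) (g * h') ≠ 0 :=
    (map_ne_zero_iff _ hφ).2 h6
  have := dom_away h6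
  have := dom_away h7
  have : Algebra.Smooth k (Localization.Away (g * h')) := .comp k A _
  exact sf_of_finite _ (amap_inj (IsScalarTower.toAlgHom k A _) hφ h6) (hg h')
    ((SF.away_iff _).2 ((surf_loc h3 h7).2 h4))

theorem comp_dom (P C : Type) [CommRing P] [IsDomain P] [Algebra k P] [Algebra.Smooth k P]
    [CommRing C] [Algebra k C] [Algebra P C] [IsScalarTower k P C] [Algebra.Etale P C]
    (hC : SF (sm k C)) (ψ : C →ₐ[k] Ω) (hψ : Injective (ψ.comp (IsScalarTower.toAlgHom k P C))) :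
    ∃ (C' : Type) (_ : CommRing C') (_ : IsDomain C') (_ : Algebra k C') (_ : Algebra.Smooth k C')
      (ψ' : C' →ₐ[k] Ω), trdeg k C' = trdeg k P ∧ SF (sm k C') ∧ Injective ψ' ∧
        Set.range ψ ⊆ Set.range ψ' := by
  have := normal_of_smooth k P
  obtain ⟨e, e1, e2, e3⟩ := exists_component P C ψ.toRingHom hψ
  have h0 : ψ e ≠ 0 := by rw [show ψ e = 1 from e2]; exact one_ne_zero
  have h1 := ext_inj ψ h0 e3
  have := h1.isDomain
  have : Algebra.Smooth k (Localization.Away e) := .comp k P _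
  obtain ⟨_, _, u⟩ := exists_retract_idem (k := k) e1
  refine ⟨Localization.Away e, inferInstance, inferInstance, inferInstance, inferInstance,
    ext ψ h0, trdeg_etale k P _, (SF.away_iff e).2 (hC.retract u), h1, ?_⟩
  rintro _ ⟨c, rfl⟩
  exact ⟨_, ext_alg ψ h0 c⟩

theorem rf_etale (P C : Type) [CommRing P] [IsDomain P] [Algebra k P] [Algebra.Smooth k P]
    [CommRing C] [Algebra k C] [Algebra P C] [IsScalarTower k P C] [Algebra.Etale P C]
    (hP : trdeg k P ≤ 2) (hC : SF (sm k C)) (ψ : C →ₐ[k] Ω)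
    (hψ : Injective (ψ.comp (IsScalarTower.toAlgHom k P C))) :
    RF (IntermediateField.adjoin k (Set.range ψ)) := by
  obtain ⟨C', _, _, _, _, ψ', h1, h2, h3, h4⟩ := comp_dom P C hC ψ hψ
  exact (dom (h1.trans_le hP) h2 ψ' h3).mono (IntermediateField.adjoin.mono _ _ _ h4)

theorem trdeg_two : trdeg k (MvPolynomial (Fin 2) k) ≤ 2 := by
  simp [MvPolynomial.trdeg_of_isDomain]

theorem rf_cov (c₁ c₂ : Cov k) (ι₁ : c₁.Λ →ₐ[k] Ω) (ι₂ : c₂.Λ →ₐ[k] Ω)
    (h1 : Transcendental k (ι₁ c₁.u)) (h2 : ι₂ c₂.u ∉ acl k (ι₁ c₁.u)) :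
    RF (IntermediateField.adjoin k (Set.range (Algebra.TensorProduct.productMap ι₁ ι₂))) := by
  have e1 := covMap_etale c₁
  have e2 := etale_lTensor c₁.Λ (covMap_etale c₂)
  have : IsDomain (c₁.Λ ⊗[k] k[X]) := (polyEquivTensor k c₁.Λ).symm.toMulEquiv.isDomain _
  have : Algebra.Smooth k k[X] := {}
  have : Algebra.Smooth k (Localization.Away c₁.g) := .comp k k[X] _
  have : Algebra.Smooth k c₁.Λ := .comp k (Localization.Away c₁.g) _
  have : Algebra.Smooth k (c₁.Λ ⊗[k] k[X]) := .comp k c₁.Λ _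
  have h3 : trdeg k (c₁.Λ ⊗[k] k[X]) ≤ 2 := by
    algebraize [(covMap c₁).toRingHom]
    have : IsScalarTower k k[X] c₁.Λ := .of_algebraMap_eq fun x => ((covMap c₁).commutes x).symm
    rw [← (polyEquivTensor k c₁.Λ).trdeg_eq, ← trdeg_add_eq k c₁.Λ, trdeg_etale k k[X] c₁.Λ,
      Polynomial.trdeg_of_isDomain, Polynomial.trdeg_of_isDomain, one_add_one_eq_two]
  let θ := Algebra.TensorProduct.lTensor (S := k) c₁.Λ (covMap c₂)
  have h4 : Injective ((Algebra.TensorProduct.productMap ι₁ ι₂).comp θ) := by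
    refine inj_of_indep h3 _ (x := fun o => o.elim (1 ⊗ₜ Polynomial.X) fun _ => c₁.u ⊗ₜ 1) ?_
    convert indep_pair h1 h2 using 1
    funext o
    cases o <;> simp [θ, covMap_X]
  algebraize [θ.toRingHom]
  have : IsScalarTower k (c₁.Λ ⊗[k] k[X]) (c₁.Λ ⊗[k] c₂.Λ) :=
    .of_algebraMap_eq fun x => (θ.commutes x).symm
  exact rf_etale (c₁.Λ ⊗[k] k[X]) _ h3 ((sf_curve _ e1).tensor (sf_curve _ (covMap_etale c₂))) _ h4

end RFA

/-- Domination: the function field of a component of a Schur finite surface is good. -/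
theorem RF_of_etale (C : Type) [CommRing C] [Algebra k C] [Algebra (MvPolynomial (Fin 2) k) C]
    [IsScalarTower k (MvPolynomial (Fin 2) k) C] [Algebra.Etale (MvPolynomial (Fin 2) k) C]
    (hC : SF (sm k C)) (ψ : C →ₐ[k] Ω)
    (hψ : Function.Injective (ψ.comp (IsScalarTower.toAlgHom k (MvPolynomial (Fin 2) k) C))) :
    RF (IntermediateField.adjoin k (Set.range ψ)) :=
  have : Algebra.Smooth k (MvPolynomial (Fin 2) k) := {}
  RFA.rf_etale _ C RFA.trdeg_two hC ψ hψ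

theorem RF_pc (a₁ a₂ : Ω) : RF (acl k a₁ ⊔ acl k a₂) := by
  by_cases h1 : a₁ ∈ acl k a₂
  · exact (RF_acl a₂).mono (sup_le (acl_le h1) le_rfl)
  by_cases h2 : a₂ ∈ acl k a₁
  · exact (RF_acl a₁).mono (sup_le le_rfl (acl_le h2))
  have t1 : Transcendental k a₁ := fun h => h1 (RFA.mem_acl_of_alg h)
  have t2 : Transcendental k a₂ := fun h => h2 (RFA.mem_acl_of_alg h)
  intro A _ _ _ _ ι h3 h4
  obtain ⟨s, hs⟩ := Algebra.FiniteType.out (R := k) (A := A)
  choose T T1 T2 using fun x => IntermediateField.exists_finset_of_mem_adjoin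
    (IntermediateField.sup_def (acl k a₁) (acl k a₂) ▸ h4 x :)
  have fin : (⋃ x ∈ s, (T x : Set Ω)).Finite := s.finite_toSet.biUnion fun x _ => (T x).finite_toSet
  obtain ⟨c₁, ι₁, -, u1, v1⟩ := exists_cov t1 (fin.inter_of_left (acl k a₁)) fun _ h => h.2
  obtain ⟨c₂, ι₂, -, u2, v2⟩ := exists_cov t2 (fin.inter_of_left (acl k a₂)) fun _ h => h.2
  refine RFA.rf_cov c₁ c₂ ι₁ ι₂ (u1 ▸ t1) (u1 ▸ u2 ▸ h2) A ι h3 fun x => ?_
  have h5 : Algebra.adjoin k (s : Set A) ≤ (IntermediateField.adjoin k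
      (Set.range (Algebra.TensorProduct.productMap ι₁ ι₂))).toSubalgebra.comap ι :=
    Algebra.adjoin_le fun y hy => IntermediateField.adjoin.mono _ _ _ (fun z hz => by
      have h6 : z ∈ ⋃ x ∈ s, (T x : Set Ω) := Set.mem_biUnion hy hz
      rcases T1 y hz with h7 | h7
      · obtain ⟨w, rfl⟩ := v1 z ⟨h6, h7⟩
        exact ⟨w ⊗ₜ 1, by simp⟩
      · obtain ⟨w, rfl⟩ := v2 z ⟨h6, h7⟩
        exact ⟨1 ⊗ₜ w, by simp⟩) (T2 y)
  exact h5 (hs ▸ Algebra.mem_top)

/-- The point is dominated by a product of two curves. -/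
def PC {B : Type} [CommRing B] [Algebra k B] (ψ : B →ₐ[k] Ω) : Prop :=
  ∃ a₁ a₂ : Ω, ∀ b, ψ b ∈ acl k a₁ ⊔ acl k a₂

theorem PC.rfpt {B : Type} [CommRing B] [Algebra k B] {ψ : B →ₐ[k] Ω} (h : PC ψ) : RFpt ψ :=
  let ⟨a₁, a₂, h⟩ := h
  ⟨_, RF_pc a₁ a₂, h⟩

/-- All smooth affine models of the subfields of the function field are Schur finite. -/
theorem SF_of_dominated (C : Type) [CommRing C] [Algebra k C] [Algebra (MvPolynomial (Fin 2) k) C]
    [IsScalarTower k (MvPolynomial (Fin 2) k) C] [Algebra.Etale (MvPolynomial (Fin 2) k) C]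
    (hC : SF (sm k C)) (ψ : C →ₐ[k] Ω)
    (hψ : Function.Injective (ψ.comp (IsScalarTower.toAlgHom k (MvPolynomial (Fin 2) k) C)))
    (A : Type) [CommRing A] [IsDomain A] [Algebra k A] [Algebra.Smooth k A] (ι : A →ₐ[k] Ω)
    (hι : Function.Injective ι) (h : ∀ a, ι a ∈ IntermediateField.adjoin k (Set.range ψ)) :
    SF (sm k A) := by
  obtain ⟨g, g0, hg⟩ := RF_of_etale C hC ψ hψ A ι hι h
  have : Algebra.Smooth k (MvPolynomial (Fin 2) k) := {}
  obtain ⟨C', _, _, _, _, ψ', h1, -, -, h4⟩ := RFA.comp_dom _ C hC ψ hψ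
  have h5 := (RFA.trdeg_le_adjoin ι hι ψ' fun a =>
    IntermediateField.adjoin.mono _ _ _ h4 (h a)).trans (h1.trans_le RFA.trdeg_two)
  exact (RFA.surf_loc h5 (mul_ne_zero g0 one_ne_zero)).1 (hg 1 one_ne_zero)

end Pool.Agent.Lib.MP_fc2ced_ag
end

-- part Pool.Agent.Lib.MP_fc2ced_ag.GeoYC
section

/-!
General tools: graphs of bijections on points, pull-back to a cover of the line, and a second
presentation of the threefold.
-/

open CategoryTheory
open scoped TensorProduct Polynomial Matrix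

set_option linter.unusedSectionVars false

namespace Pool.Agent.Lib.MP_fc2ced_ag

open Obj

variable {k : Type} [Field k] [CharZero k] [IsAlgClosed k]

open Algebra.TensorProduct in
/-- A natural bijection on points. -/
theorem SF_graph {B C : Type} [CommRing B] [Algebra k B] [CommRing C] [Algebra k C] (N : Pr k B)
    (N' : Pr k C) (G : ∀ {O : Aic k}, (B →ₐ[k] O) → (C →ₐ[k] O) → Prop)
    (mono : ∀ {O O' : Aic k} (g : O →ₐ[k] O') ψ χ, G ψ χ → G (g.comp ψ) (g.comp χ))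
    (h : ∀ {O : Aic k} (ψ : B →ₐ[k] O) χ, G ψ χ → N.p ψ ∧ N'.p χ)
    (ex : ∀ {O : Aic k} (ψ : B →ₐ[k] O), N.p ψ → ∃ χ, G ψ χ)
    (un : ∀ {O : Aic k} (ψ : B →ₐ[k] O) χ χ', G ψ χ → G ψ χ' → χ = χ')
    (ex' : ∀ {O : Aic k} (χ : C →ₐ[k] O), N'.p χ → ∃ ψ, G ψ χ)
    (un' : ∀ {O : Aic k} (ψ ψ' : B →ₐ[k] O) χ, G ψ χ → G ψ' χ → ψ = ψ') :
    SF ⟨B, N, .bot⟩ ↔ SF ⟨C, N', .bot⟩ := by
  let M : Obj k := ⟨B ⊗[k] C, ⟨fun φ => G (φ.comp includeLeft) (φ.comp includeRight),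
    fun g φ => mono g _ _⟩, .bot⟩
  have h1 : IsE M ⟨B, N, .bot⟩ includeLeft := ⟨fun φ hφ => (h _ _ hφ).1, fun _ _ => Iff.rfl,
    fun φ φ' hφ _ hφ' e => tensor_ext e (un _ _ _ hφ (e ▸ hφ')), fun ψ hψ _ =>
      let ⟨χ, hχ⟩ := ex ψ hψ
      ⟨productMap ψ χ, by simpa only [M, productMap_left, productMap_right] using hχ,
        productMap_left _ _⟩⟩
  have h2 : IsE M ⟨C, N', .bot⟩ includeRight := ⟨fun φ hφ => (h _ _ hφ).2, fun _ _ => Iff.rfl,
    fun φ φ' hφ _ hφ' e => tensor_ext (un' _ _ _ hφ (e ▸ hφ')) e, fun χ hχ _ =>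
      let ⟨ψ, hψ⟩ := ex' χ hχ
      ⟨productMap ψ χ, by simpa only [M, productMap_left, productMap_right] using hψ,
        productMap_right _ _⟩⟩
  exact h1.sf_iff.symm.trans h2.sf_iff

theorem SF_loc_pc {B : Type} [CommRing B] [Algebra k B] [Algebra.Smooth k B] (h : B)
    (H : ∀ (Ω : Type) [Field Ω] [IsAlgClosed Ω] [Algebra k Ω] (ψ : B →ₐ[k] Ω), ψ h = 0 → PC ψ) :
    SF (loc k h) ↔ SF (sm k B) := by
  have := SF_loc_iff 1 h fun Ω _ _ _ ψ _ h0 => (H Ω ψ h0).rfpt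
  rwa [one_mul, SF.loc_one] at this

theorem smooth_away {B : Type} [CommRing B] [Algebra k B] [Algebra.Smooth k B] (g : B) :
    Algebra.Smooth k (Localization.Away g) :=
  have : Algebra.Etale B (Localization.Away g) := .of_isLocalizationAway g
  .comp k B _

theorem away_ext {B O : Type} [CommRing B] [Algebra k B] [CommRing O] [Algebra k O] {g : B}
    {ψ ψ' : Localization.Away g →ₐ[k] O} (e : ψ.comp (IsScalarTower.toAlgHom k B _) =
      ψ'.comp (IsScalarTower.toAlgHom k B _)) : ψ = ψ' :=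
  AlgHom.coe_ringHom_injective
    (IsLocalization.ringHom_ext (Submonoid.powers g) congr(($e).toRingHom))

theorem away_lift {B O : Type} [CommRing B] [Algebra k B] [CommRing O] [Algebra k O] {g : B}
    (ψ : B →ₐ[k] O) (h : IsUnit (ψ g)) :
    ∃ χ : Localization.Away g →ₐ[k] O, χ.comp (IsScalarTower.toAlgHom k B _) = ψ :=
  ⟨IsLocalization.Away.liftAlgHom g h, by ext; simp⟩

theorem away_mem {B Ω : Type} [CommRing B] [Algebra k B] [Field Ω] [Algebra k Ω] {g : B}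
    (ψ : Localization.Away g →ₐ[k] Ω) {K : IntermediateField k Ω}
    (h : ∀ b, ψ (algebraMap B _ b) ∈ K) (y : Localization.Away g) : ψ y ∈ K := by
  obtain ⟨⟨a, s⟩, e⟩ := IsLocalization.surj (Submonoid.powers g) y
  exact mem_of_mul_eq (h s) (h a) ((IsLocalization.map_units _ s).map ψ).ne_zero
    (by rw [← e, map_mul, mul_comm])

theorem Cov.g_ne (c : Cov k) : c.g ≠ 0 := fun h => by
  have := ((IsLocalization.Away.algebraMap_isUnit (S := Localization.Away c.g) c.g).map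
    (algebraMap _ c.Λ)).ne_zero
  simp only [h, map_zero, ne_eq, not_true_eq_false] at this

theorem Cov.isUnit_g (c : Cov k) : IsUnit (Polynomial.aeval c.u c.g) := by
  have : Polynomial.aeval c.u = (IsScalarTower.toAlgHom k (Localization.Away c.g) c.Λ).comp
      (IsScalarTower.toAlgHom k k[X] _) := Polynomial.algHom_ext (by simp [Cov.u])
  rw [this]
  exact (IsLocalization.Away.algebraMap_isUnit (S := Localization.Away c.g) c.g).map
    (algebraMap _ c.Λ)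

theorem Cov.smooth (c : Cov k) : Algebra.Smooth k c.Λ :=
  have := smooth_away (k := k) c.g
  .comp k (Localization.Away c.g) _

theorem Cov.sf (c : Cov k) : SF (sm k c.Λ) := by
  let _ : Algebra k[X] c.Λ :=
    ((algebraMap (Localization.Away c.g) c.Λ).comp (algebraMap k[X] _)).toAlgebra
  have : IsScalarTower k[X] (Localization.Away c.g) c.Λ := .of_algebraMap_eq fun _ => rfl
  have : IsScalarTower k k[X] c.Λ := .of_algebraMap_eq fun r => by
    rw [IsScalarTower.algebraMap_apply k[X] (Localization.Away c.g),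
      ← IsScalarTower.algebraMap_apply k k[X], ← IsScalarTower.algebraMap_apply]
  have : Algebra.Etale k[X] (Localization.Away c.g) := .of_isLocalizationAway c.g
  have : Algebra.Etale k[X] c.Λ := .comp k[X] (Localization.Away c.g) _
  exact SF.curve c.Λ

/-- The pull-back of a cover of the line. -/
theorem Cov.exists_pull (c : Cov k) (B : Type) [CommRing B] [Algebra k B] [Algebra.Smooth k B]
    (u : B) (hu : IsUnit (Polynomial.aeval u c.g)) :
    ∃ (C : Type) (_ : CommRing C) (_ : Algebra k C) (_ : Algebra.Smooth k C) (i : B →ₐ[k] C)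
      (ρ : c.Λ →ₐ[k] C), i u = ρ c.u ∧
      (∀ (O : Type) [CommRing O] [Algebra k O] (χ χ' : C →ₐ[k] O), χ.comp i = χ'.comp i →
        χ.comp ρ = χ'.comp ρ → χ = χ') ∧
      (∀ (O : Type) [CommRing O] [Algebra k O] (ψ : B →ₐ[k] O) (ρ' : c.Λ →ₐ[k] O),
        ψ u = ρ' c.u → ∃ χ : C →ₐ[k] O, χ.comp i = ψ ∧ χ.comp ρ = ρ') ∧
      (SF (sm k C) → SF (sm k B)) := by
  obtain ⟨θ, hθ⟩ := away_lift (Polynomial.aeval u : k[X] →ₐ[k] B) hu
  let P := Localization.Away c.g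
  let _ : Algebra P B := θ.toRingHom.toAlgebra
  have : IsScalarTower k P B := .of_algebraMap_eq fun r => (θ.commutes r).symm
  have hX : algebraMap P B (algebraMap k[X] P .X) = u :=
    congr($hθ .X).trans (Polynomial.aeval_X u)
  have : Algebra.Smooth k (B ⊗[P] c.Λ) := .comp k B _
  refine ⟨B ⊗[P] c.Λ, inferInstance, inferInstance, inferInstance, IsScalarTower.toAlgHom k B _,
    Algebra.TensorProduct.includeRight.restrictScalars k, ?_, fun O _ _ χ χ' h1 h2 => ?_,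
    fun O _ _ ψ ρ' h => ?_, fun h => ?_⟩
  · rw [← hX, Cov.u]
    exact (IsScalarTower.algebraMap_apply P B _ _).symm.trans
      (Algebra.TensorProduct.includeRight.commutes _).symm
  · refine AlgHom.coe_ringHom_injective (Algebra.TensorProduct.ringHom_ext ?_ ?_)
    exacts [congr(($h1).toRingHom), congr(($h2).toRingHom)]
  · let _ : Algebra P O := (ψ.comp θ).toRingHom.toAlgebra
    have : IsScalarTower k P O := .of_algebraMap_eq fun r => ((ψ.comp θ).commutes r).symm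
    have e : ψ.comp θ = ρ'.comp (IsScalarTower.toAlgHom k P c.Λ) :=
      away_ext (Polynomial.algHom_ext ((congrArg ψ hX).trans h))
    let ψ₁ : B →ₐ[P] O := ⟨ψ.toRingHom, fun _ => rfl⟩
    let ρ₁ : c.Λ →ₐ[P] O := ⟨ρ'.toRingHom, fun r => congr($e r).symm⟩
    refine ⟨(Algebra.TensorProduct.productMap ψ₁ ρ₁).restrictScalars k, ?_, ?_⟩ <;>
      ext <;> simp [ψ₁, ρ₁]
  · rcases subsingleton_or_nontrivial B with hB | hB
    · exact SF.of_uzero (UZero.dead fun φ _ => not_subsingleton _ φ.toRingHom.codomain_trivial)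
    · exact SF.of_finite_free (C := B ⊗[P] c.Λ) (N := .top) (D := .bot) h

namespace Forms

variable (F : Forms k) (n : ℕ)

/-- The plane coordinates on the threefold. -/
noncomputable def yv : Fin 3 → F.Y n := IsScalarTower.toAlgHom k F.R (F.Y n) ∘ F.v

/-- The coordinate of the double plane. -/
noncomputable def yz : F.Y n := (2 * F.x n - 1) * F.q (F.yv n)

section
variable {O O' : Type} [CommRing O] [Algebra k O] [CommRing O'] [Algebra k O']

/-- The equations of the threefold. -/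
structure RelY (v : Fin 3 → O) (z u : O) : Prop where
  one : v 0 = 1
  q : IsUnit (F.q v)
  f : IsUnit (F.f v)
  eq : u ^ n * (F.q v ^ 2 - z ^ 2) = 4 * F.f v

variable {F n}

theorem RelY.map {v : Fin 3 → O} {z u : O} (h : F.RelY n v z u) (ψ : O →ₐ[k] O') :
    F.RelY n (ψ ∘ v) (ψ z) (ψ u) where
  one := by simp [h.one]
  q := F.map_q ψ v ▸ h.q.map ψ
  f := F.map_f ψ v ▸ h.f.map ψ
  eq := by simpa [map_q, map_f, map_ofNat] using congrArg ψ h.eq

theorem RelY.of_map {K : Type} [Field K] [Algebra k K] [Nontrivial O] {v : Fin 3 → K} {z u : K}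
    (ψ : K →ₐ[k] O) (h : F.RelY n (ψ ∘ v) (ψ z) (ψ u)) : F.RelY n v z u where
  one := ψ.injective (by simpa using h.one)
  q := .mk0 _ fun e => h.q.ne_zero (by rw [← map_q, e, map_zero])
  f := .mk0 _ fun e => h.f.ne_zero (by rw [← map_f, e, map_zero])
  eq := ψ.injective (by simpa [map_q, map_f, map_ofNat] using h.eq)

variable (F n)

theorem relY : F.RelY n (F.yv n) (F.yz n) (F.u n) where
  one := by simp [yv]
  q := by rw [yv, ← map_q]; exact F.isUnit_q.map _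
  f := by rw [yv, ← map_f]; exact F.isUnit_f.map _
  eq := by
    have := congrArg (IsScalarTower.toAlgHom k F.R (F.Y n)) F.φ_mul
    rw [map_mul, map_pow, map_q, map_f, IsScalarTower.toAlgHom_apply, ← F.Y_eq n] at this
    rw [yz, yv]
    linear_combination 4 * this

variable {F n}

theorem Y_ext' {χ χ' : F.Y n →ₐ[k] O} (hv : χ ∘ F.yv n = χ' ∘ F.yv n)
    (hz : χ (F.yz n) = χ' (F.yz n)) (hu : χ (F.u n) = χ' (F.u n)) : χ = χ' := by
  refine F.Y_ext (fun r => congr($(F.R_ext (ψ := χ.comp (IsScalarTower.toAlgHom k F.R _))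
    (ψ' := χ'.comp (IsScalarTower.toAlgHom k F.R _)) (congrFun hv)) r)) ?_ hu
  have h2 : IsUnit (2 : O) := by simpa using isUnit_natCast k O two_pos
  simp only [yz, map_mul, map_q, ← hv] at hz
  have := ((F.relY n).map χ).q.mul_right_cancel hz
  simp only [map_sub, map_mul, map_ofNat, map_one] at this
  exact h2.mul_left_cancel (by linear_combination this)

theorem Y_lift' {v : Fin 3 → O} {z u : O} (h : F.RelY n v z u) :
    ∃ χ : F.Y n →ₐ[k] O, χ ∘ F.yv n = v ∧ χ (F.yz n) = z ∧ χ (F.u n) = u := by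
  obtain ⟨ψ, hψ⟩ := F.R_lift v h.one h.q h.f
  obtain ⟨a, ha⟩ := (show IsUnit (2 : O) by simpa using isUnit_natCast k O two_pos).exists_left_inv
  obtain ⟨b, hb⟩ := h.q.exists_left_inv
  have e := congrArg ψ F.φ_mul
  rw [map_mul, map_pow, map_q, map_f, hψ] at e
  obtain ⟨χ, h1, h2, h3⟩ := F.Y_lift (n := n) ψ (a * (z * b + 1)) u ((h.q.pow 2).mul_right_cancel (by
    have := h.eq
    rw [e]
    have e1 : a * (z * b + 1) * F.q v = a * (z + F.q v) := by linear_combination a * z * hb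
    have e2 : (1 - a * (z * b + 1)) * F.q v = a * (F.q v - z) := by
      linear_combination -e1 - F.q v * ha
    calc _ = u ^ n * ((a * (z * b + 1) * F.q v) * ((1 - a * (z * b + 1)) * F.q v)) := by ring
      _ = a ^ 2 * (u ^ n * (F.q v ^ 2 - z ^ 2)) := by rw [e1, e2]; ring
      _ = (a * 2) ^ 2 * F.f v := by rw [this]; ring
      _ = _ := by rw [ha]; ring))
  have hv : χ ∘ F.yv n = v := funext fun i => (h1 _).trans (congrFun hψ i)
  refine ⟨χ, hv, ?_, h3⟩
  rw [yz, map_mul, map_q, hv, map_sub, map_mul, h2, map_one, map_ofNat]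
  linear_combination (z * b + 1) * F.q v * ha + z * hb

theorem Y_mem {Ω : Type} [Field Ω] [Algebra k Ω] {K : IntermediateField k Ω} (χ : F.Y n →ₐ[k] Ω)
    (hv : ∀ i, χ (F.yv n i) ∈ K) (hz : χ (F.yz n) ∈ K) (hu : χ (F.u n) ∈ K) (y : F.Y n) :
    χ y ∈ K := by
  obtain ⟨χ', h1, h2, h3⟩ := Y_lift' (v := fun i => (⟨_, hv i⟩ : K)) (z := ⟨_, hz⟩) (u := ⟨_, hu⟩)
    (.of_map K.val ((F.relY n).map χ))
  rw [Y_ext' (χ := χ) (χ' := K.val.comp χ') (funext fun i => congr(($h1 i).1).symm)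
    congr(($h2).1).symm congr(($h3).1).symm]
  exact (χ' y).2

end

theorem RelY.fibre {F : Forms k} {n : ℕ} (hn : 0 < n) {Ω : Type} [Field Ω] [IsAlgClosed Ω]
    [Algebra k Ω] {v : Fin 3 → Ω} {z : Ω} {r : k} (R : F.RelY n v z (algebraMap k Ω r)) :
    ∃ a₁ a₂ : Ω, (∀ i, v i ∈ acl k a₁ ⊔ acl k a₂) ∧ z ∈ acl k a₁ ⊔ acl k a₂ := by
  have := charZero_of_injective_algebraMap (algebraMap k Ω).injective
  have e := R.eq
  have h0 : algebraMap k Ω r ≠ 0 := fun h0 => by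
    rw [h0, zero_pow hn.ne', zero_mul] at e
    exact mul_ne_zero (by norm_num) R.f.ne_zero e.symm
  have X : (MvPolynomial.aeval v : _ →ₐ[k] Ω) ∘ MvPolynomial.X = v := by ext; simp
  have hq : (F.q .X * F.q .X : MvPolynomial (Fin 3) k).IsHomogeneous 4 :=
    (isHomogeneous_ev _).mul (isHomogeneous_ev _)
  have hf : (F.f .X : MvPolynomial (Fin 3) k).IsHomogeneous 4 :=
    ((isHomogeneous_ev _).mul (isHomogeneous_ev _)).add
      ((isHomogeneous_ev _).mul (isHomogeneous_ev _))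
  have hG : z ^ 2 = MvPolynomial.aeval v
      (F.q .X * F.q .X - .C (4 / r ^ n) * F.f .X : MvPolynomial (Fin 3) k) := by
    rw [map_sub, map_mul, map_mul, map_q, map_f, X, MvPolynomial.aeval_C, map_div₀, map_pow,
      map_ofNat]
    field_simp
    linear_combination -e
  obtain ⟨a₁, a₂, s, hs, hv, hz⟩ := quartic_pc _ (hq.sub (hf.C_mul _)) v z hG
  have ms : s ∈ acl k a₁ ⊔ acl k a₂ := by simpa [R.one] using hv 0
  exact ⟨a₁, a₂, fun i => mem_of_mul_eq ms (hv i) hs rfl,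
    mem_of_mul_eq (pow_mem ms 2) hz (pow_ne_zero 2 hs) rfl⟩

/-- Finitely many fibres of the coordinate `u` can be removed. -/
theorem SF_Y_iff {n : ℕ} (hn : 0 < n) {g : k[X]} (hg : g ≠ 0) :
    SF (loc k (Polynomial.aeval (F.u n) g)) ↔ SF (sm k (F.Y n)) := by
  have := F.smooth_Y hn
  refine SF_loc_pc _ fun Ω _ _ _ ψ h => ?_
  rw [← Polynomial.aeval_algHom_apply] at h
  have R := (F.relY n).map ψ
  obtain ⟨r, hr⟩ : ψ (F.u n) ∈ (algebraMap k Ω).range :=
    minpoly.mem_range_of_degree_eq_one k _ (IsAlgClosed.degree_eq_one_of_irreducible k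
      (minpoly.irreducible (IsAlgebraic.isIntegral ⟨g, hg, h⟩)))
  rw [← hr] at R
  obtain ⟨a₁, a₂, hv, hz⟩ := R.fibre hn
  exact ⟨a₁, a₂, Y_mem ψ hv hz (hr ▸ IntermediateField.algebraMap_mem _ r)⟩

end Forms

end Pool.Agent.Lib.MP_fc2ced_ag
end

-- part Pool.Agent.Lib.MP_fc2ced_ag.GeoY
section

/-!
The threefold `u ^ n x (1 - x) = f / q ^ 2` is Schur finite.
-/

open CategoryTheory
open scoped TensorProduct Polynomial Matrix

set_option linter.unusedSectionVars false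

namespace Pool.Agent.Lib.MP_fc2ced_ag

open Obj

variable {k : Type} [Field k] [CharZero k] [IsAlgClosed k]

namespace Forms.Dat

variable {F : Forms k} {n : ℕ} {c : Cov k} (D : F.Dat n c)

theorem relY_iff {O : Type} [CommRing O] [Algebra k O] (ρ : c.Λ →ₐ[k] O) (v : Fin 3 → O) (z : O) :
    ρ c.u ^ n * (F.q v ^ 2 - z ^ 2) = 4 * F.f v ↔ z ^ 2 = F.q v ^ 2 - ρ D.δ * F.f v := by
  have h := D.δ_mul ρ
  have h4 : IsUnit (4 : O) := by simpa using isUnit_natCast k O four_pos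
  refine ⟨fun e => (isUnit_of_mul_isUnit_right (h ▸ h4)).mul_left_cancel ?_, fun e => ?_⟩
  · linear_combination -e + F.f v * h
  · rw [e]; linear_combination F.f v * h

theorem qf_Γ_of_sq {O : Type} [CommRing O] [Algebra k O] (ρ : c.Λ →ₐ[k] O) {l z : O}
    {v : Fin 3 → O} (hQ : IsUnit (D.Q₁ ρ v)) (hl : z = D.Q₂ ρ v - l * D.Q₁ ρ v)
    (e : z ^ 2 = F.q v ^ 2 - ρ D.δ * F.f v) : qf (D.Γ ρ l) v = 0 := by
  refine hQ.mul_right_eq_zero.1 ?_
  rw [hl, D.eq _ ρ] at e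
  rw [qf_Γ]
  simp only [Q₁, Q₂, Q₃] at e ⊢
  linear_combination e

/-- The space of parameters is Schur finite. -/
theorem SF_T (hF : F.Good) : SF (loc k (D.hT (IsScalarTower.toAlgHom k c.Λ c.Λ[X][X])
    (Polynomial.C Polynomial.X) Polynomial.X)) := by
  have := c.smooth
  refine (SF_loc_pc _ fun Ω _ _ _ ψ h => ?_).2 (SF.poly_iff.2 (SF.poly_iff.2 c.sf))
  rw [map_hT] at h
  obtain ⟨a, hl, ht⟩ := D.pc_T _ hF h
  refine ⟨ψ.comp (IsScalarTower.toAlgHom k c.Λ c.Λ[X][X]) c.u, a, fun b => ?_⟩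
  induction b using Polynomial.induction_on with
  | add p q hp hq => rw [map_add]; exact add_mem hp hq
  | monomial m p hp => rw [pow_succ, ← mul_assoc, map_mul]; exact mul_mem hp ht
  | C p =>
    induction p using Polynomial.induction_on with
    | add p q hp hq => rw [map_add, map_add]; exact add_mem hp hq
    | monomial m p hp => rw [pow_succ, ← mul_assoc, map_mul, map_mul]; exact mul_mem hp hl
    | C x => exact le_sup_left (b := acl k a) (c.mem_acl _ x)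

/-- A smooth model of the conic bundle is Schur finite. -/
theorem SF_Z (hF : F.Good) (Z : Type) [CommRing Z] [Algebra k Z] [Algebra.Smooth k Z]
    (ρ : c.Λ →ₐ[k] Z) (l : Z) (v : Fin 3 → Z) (hR : D.Rel ρ l v)
    (ext : ∀ (O : Type) [CommRing O] [Algebra k O] (ψ ψ' : Z →ₐ[k] O), ψ.comp ρ = ψ'.comp ρ →
      ψ l = ψ' l → ψ ∘ v = ψ' ∘ v → ψ = ψ')
    (lift : ∀ (O : Type) [CommRing O] [Algebra k O] (ρ' : c.Λ →ₐ[k] O) l' v', D.Rel ρ' l' v' →
      ∃ ψ : Z →ₐ[k] O, ψ.comp ρ = ρ' ∧ ψ l = l' ∧ ψ ∘ v = v')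
    (mem : ∀ (Ω : Type) [Field Ω] [Algebra k Ω] (ψ : Z →ₐ[k] Ω) (K : IntermediateField k Ω),
      (∀ x, ψ (ρ x) ∈ K) → ψ l ∈ K → (∀ i, ψ (v i) ∈ K) → ∀ y, ψ y ∈ K) : SF (sm k Z) := by
  have h2 (O : Aic k) : IsUnit (2 : O) := by simpa using isUnit_natCast k O two_pos
  let τ := IsScalarTower.toAlgHom k c.Λ c.Λ[X][X]
  have extT {O : Aic k} {χ χ' : c.Λ[X][X] →ₐ[k] O} (e1 : χ.comp τ = χ'.comp τ)
      (e2 : χ (.C .X) = χ' (.C .X)) (e3 : χ .X = χ' .X) : χ = χ' :=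
    AlgHom.coe_ringHom_injective (Polynomial.ringHom_ext' (Polynomial.ringHom_ext
      (fun a => congr($e1 a)) e2) e3)
  refine (SF_loc_pc (D.hZ ρ l v) fun Ω _ _ _ ψ h => ?_).1 ((SF_graph _ _
    (fun ψ χ => ψ.comp ρ = χ.comp τ ∧ ψ l = χ (.C .X) ∧ IsUnit (ψ (D.hZ ρ l v)) ∧
      ψ (D.d ρ l v (D.j + 2)) = χ .X * ψ (D.d ρ l v (D.j + 1))) ?_ ?_ ?_ ?_ ?_ ?_).2 (D.SF_T hF))
  · rw [map_hZ] at h
    obtain ⟨a, hl, hv⟩ := D.pc_Z _ (hR.map ψ) h
    exact ⟨_, a, mem Ω ψ _ (fun x => le_sup_left (b := acl k a) (c.mem_acl (ψ.comp ρ) x)) hl hv⟩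
  · rintro O O' g ψ χ ⟨e1, e2, e3, e4⟩
    exact ⟨by rw [AlgHom.comp_assoc, e1, AlgHom.comp_assoc], congrArg g e2, e3.map g,
      (congrArg g e4).trans (map_mul g _ _)⟩
  · rintro O ψ χ ⟨e1, e2, e3, e4⟩
    refine ⟨e3, ?_⟩
    rw [map_hZ] at e3
    rw [map_d, map_d] at e4
    rw [Pr.unit_p, map_hT, ← e1, ← e2]
    exact (D.par_eq _ (hR.map ψ) e3 (h2 O) e4).2
  · intro O ψ h
    have hd : IsUnit (ψ (D.d ρ l v (D.j + 1))) := by
      rw [Pr.unit_p, hZ, map_mul, map_mul] at h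
      exact isUnit_of_mul_isUnit_right (isUnit_of_mul_isUnit_left h)
    obtain ⟨a, ha⟩ := hd.exists_left_inv
    refine ⟨Polynomial.aevalTower (Polynomial.aevalTower (ψ.comp ρ) (ψ l))
      (ψ (D.d ρ l v (D.j + 2)) * a), ?_, by simp, h, ?_⟩
    · ext x; simp [τ, Polynomial.algebraMap_apply]
    · rw [Polynomial.aevalTower_X, mul_assoc, ha, mul_one]
  · rintro O ψ χ χ' ⟨e1, e2, e3, e4⟩ ⟨e1', e2', -, e4'⟩
    rw [hZ, map_mul, map_mul] at e3
    exact extT (e1.symm.trans e1') (e2.symm.trans e2')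
      ((isUnit_of_mul_isUnit_right (isUnit_of_mul_isUnit_left e3)).mul_right_cancel
        (e4.symm.trans e4'))
  · intro O χ h
    rw [Pr.unit_p, map_hT] at h
    obtain ⟨v', hv, hu, hd⟩ := D.exists_rel _ h (h2 O)
    obtain ⟨ψ, e1, e2, e3⟩ := lift O _ _ _ hv
    exact ⟨ψ, e1, e2, by rwa [map_hZ, e1, e2, e3], by rwa [map_d, map_d, e1, e2, e3]⟩
  · rintro O ψ ψ' χ ⟨e1, e2, e3, e4⟩ ⟨e1', e2', e3', e4'⟩
    rw [map_hZ] at e3 e3'
    rw [map_d, map_d] at e4 e4'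
    have h := D.par_eq _ (hR.map ψ) e3 (h2 O) e4
    have h' := D.par_eq _ (hR.map ψ') e3' (h2 O) e4'
    rw [e1, e2] at h
    rw [e1', e2'] at h'
    exact ext O ψ ψ' (e1.trans e1'.symm) (e2.trans e2'.symm) (funext fun i =>
      (D.isUnit_par _ h.2).mul_left_cancel (congrFun (h.1.symm.trans h'.1) i))

include D in
/-- A smooth model of the pull-back of the threefold is Schur finite. -/
theorem SF_L (hF : F.Good) (C : Type) [CommRing C] [Algebra k C] [Algebra.Smooth k C]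
    (ρ : c.Λ →ₐ[k] C) (v : Fin 3 → C) (z : C) (hR : F.RelY n v z (ρ c.u))
    (ext : ∀ (O : Type) [CommRing O] [Algebra k O] (ψ ψ' : C →ₐ[k] O), ψ.comp ρ = ψ'.comp ρ →
      ψ ∘ v = ψ' ∘ v → ψ z = ψ' z → ψ = ψ')
    (lift : ∀ (O : Type) [CommRing O] [Algebra k O] (ρ' : c.Λ →ₐ[k] O) v' z',
      F.RelY n v' z' (ρ' c.u) → ∃ ψ : C →ₐ[k] O, ψ.comp ρ = ρ' ∧ ψ ∘ v = v' ∧ ψ z = z') :
    SF (sm k C) := by
  have mem (Ω : Type) [Field Ω] [Algebra k Ω] (ψ : C →ₐ[k] Ω) (K : IntermediateField k Ω)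
      (h1 : ∀ x, ψ (ρ x) ∈ K) (h2 : ∀ i, ψ (v i) ∈ K) (h3 : ψ z ∈ K) (y : C) : ψ y ∈ K := by
    obtain ⟨χ, e1, e2, e3⟩ := lift K ((ψ.comp ρ).codRestrict K.toSubalgebra h1)
      (fun i => ⟨_, h2 i⟩) ⟨_, h3⟩ (.of_map K.val (hR.map ψ))
    rw [ext Ω ψ (K.val.comp χ) (AlgHom.ext fun x => congr(($e1 x).1).symm)
      (funext fun i => congr(($e2 i).1).symm) congr(($e3).1).symm]
    exact (χ y).2
  refine (SF_loc_pc (D.Q₁ ρ v) fun Ω _ _ _ ψ h => ?_).1 ((SF.away_iff _).1 ?_)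
  · have R := hR.map ψ
    rw [map_Q₁] at h
    obtain ⟨a, s, hs, hv, hz⟩ := D.bdry (ψ.comp ρ) hF ((D.relY_iff (ψ.comp ρ) _ _).1 R.eq)
      (by rw [h, mul_zero])
    have ms : s ∈ acl k (ψ.comp ρ c.u) ⊔ acl k a := by simpa only [R.one, mul_one] using hv 0
    exact ⟨_, a, mem Ω ψ _ (fun x => le_sup_left (b := acl k a) (c.mem_acl (ψ.comp ρ) x))
      (fun i => mem_of_mul_eq ms (hv i) hs rfl)
      (mem_of_mul_eq (pow_mem ms 2) hz (pow_ne_zero 2 hs) rfl)⟩
  have := smooth_away (k := k) (D.Q₁ ρ v)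
  let ι := IsScalarTower.toAlgHom k C (Localization.Away (D.Q₁ ρ v))
  have hQ : IsUnit (D.Q₁ (ι.comp ρ) (ι ∘ v)) := by
    rw [← map_Q₁]; exact IsLocalization.Away.algebraMap_isUnit _
  obtain ⟨a, ha⟩ := hQ.exists_left_inv
  obtain ⟨l, hl⟩ : ∃ l, ι z = D.Q₂ (ι.comp ρ) (ι ∘ v) - l * D.Q₁ (ι.comp ρ) (ι ∘ v) :=
    ⟨(D.Q₂ (ι.comp ρ) (ι ∘ v) - ι z) * a, by rw [mul_assoc, ha]; ring⟩
  have R := hR.map ι
  have hl' {O : Type} [CommRing O] [Algebra k O] (ψ : Localization.Away (D.Q₁ ρ v) →ₐ[k] O) :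
      ψ (ι z) = D.Q₂ (ψ.comp (ι.comp ρ)) (ψ ∘ ι ∘ v) -
        ψ l * D.Q₁ (ψ.comp (ι.comp ρ)) (ψ ∘ ι ∘ v) := by
    rw [hl, map_sub, map_mul, map_Q₁, map_Q₂]
  refine D.SF_Z hF _ (ι.comp ρ) l (ι ∘ v) ⟨R.one, R.q, R.f, hQ,
      D.qf_Γ_of_sq _ hQ hl ((D.relY_iff (ι.comp ρ) _ _).1 R.eq)⟩
    (fun O _ _ ψ ψ' e1 e2 e3 => away_ext (ext O _ _ e1 e3 ?_)) (fun O _ _ ρ' l' v' h => ?_)
    fun Ω _ _ ψ K h1 h2 h3 => away_mem ψ (mem Ω (ψ.comp ι) K h1 h3 ?_)
  · exact (hl' ψ).trans (by rw [e1, e2, e3]; exact (hl' ψ').symm)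
  · obtain ⟨χ, e1, e2, e3⟩ := lift O ρ' v' _
      ⟨h.one, h.q, h.f, (D.relY_iff ρ' _ _).2 (D.sq_eq ρ' h.eq)⟩
    obtain ⟨ψ, rfl⟩ := away_lift χ (g := D.Q₁ ρ v) (by rw [map_Q₁, e1, e2]; exact h.Q)
    refine ⟨ψ, e1, h.Q.mul_right_cancel ?_, e2⟩
    have e4 := (hl' ψ).symm.trans e3
    rw [show ψ.comp (ι.comp ρ) = ρ' from e1, show ψ ∘ ι ∘ v = v' from e2] at e4
    linear_combination -e4
  · exact (hl' ψ).symm ▸ sub_mem (qf_mem (fun _ _ => h1 _) h3)
      (mul_mem h2 (qf_mem (fun _ _ => h1 _) h3))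

end Forms.Dat

theorem Forms.SF_Y (F : Forms k) (hF : F.Good) {n : ℕ} (hn : 0 < n) : SF (sm k (F.Y n)) := by
  obtain ⟨c, ⟨D⟩⟩ := F.exists_dat hF hn
  have := F.smooth_Y hn
  have := smooth_away (k := k) (Polynomial.aeval (F.u n) c.g)
  let ι := IsScalarTower.toAlgHom k (F.Y n) (Localization.Away (Polynomial.aeval (F.u n) c.g))
  obtain ⟨C, _, _, _, i, ρ, hu, ext, lift, hSF⟩ := c.exists_pull _ (ι (F.u n)) (by
    rw [Polynomial.aeval_algHom_apply]; exact IsLocalization.Away.algebraMap_isUnit _)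
  refine (F.SF_Y_iff hn c.g_ne).1 ((SF.away_iff _).1 (hSF (D.SF_L hF C ρ ((i.comp ι) ∘ F.yv n)
    (i.comp ι (F.yz n)) (hu ▸ (F.relY n).map (i.comp ι))
    (fun O _ _ ψ ψ' e1 e2 e3 => ext O ψ ψ' (away_ext (Forms.Y_ext' e2 e3 ?_)) e1)
    fun O _ _ ρ' v' z' h => ?_)))
  · exact (congrArg ψ hu).trans (congr($e1 c.u).trans (congrArg ψ' hu).symm)
  · obtain ⟨χ₀, e1, e2, e3⟩ := Forms.Y_lift' h
    obtain ⟨χ₁, rfl⟩ := away_lift χ₀ (g := Polynomial.aeval (F.u n) c.g) (by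
      rw [← Polynomial.aeval_algHom_apply, e3, Polynomial.aeval_algHom_apply]
      exact c.isUnit_g.map ρ')
    obtain ⟨χ, rfl, e4⟩ := lift O χ₁ ρ' e3
    exact ⟨χ, e4, e1, e2⟩

end Pool.Agent.Lib.MP_fc2ced_ag
end
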