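import Pool.Agent.Lib.MP_fc2ced_ag.NCyc

/-!
The coordinate ring of the Artin-Schreier curve `T ^ q - T = f(U)` over a base ring: pole order
filtration, division by monic functions and interpolation.
-/

namespace Pool.Agent.Lib.MP_fc2ced_ag.Naive

universe u

open Module Polynomial
open scoped TensorProduct

variable {k : Type u} [Field k]

/-- numerical data of an Artin-Schreier curve -/
structure ASData (k : Type u) [Field k] where
  q : ℕ
  f : k[X]
  one_lt : 1 < q
  pos : 0 < f.natDegree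
  cop : Nat.Coprime f.natDegree q
  sub_pow : ∀ (S : Type u) [CommRing S] [Algebra k S] (x y : S), (x - y) ^ q = x ^ q - y ^ q

/-- a model of the coordinate ring over `R` -/
structure Model (D : ASData k) (R A : Type u) [CommRing R] [CommRing A] [Algebra k A]
    [Algebra R A] where
  U : A
  T : A
  rel : T ^ D.q - T = aeval U D.f
  bas : Basis (ℕ × Fin D.q) R A
  bas_eq : ∀ p, bas p = U ^ p.1 * T ^ (p.2 : ℕ)

namespace ASData

variable (D : ASData k)

/-- pole order at infinity of a reduced monomial -/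
def wt (p : ℕ × Fin D.q) : ℕ := D.q * p.1 + D.f.natDegree * p.2

lemma wt_inj : Function.Injective D.wt := by
  rintro ⟨a, i⟩ ⟨b, j⟩ h
  simp only [wt] at h
  have h1 : (i : ℕ) ≡ j [MOD D.q] := by
    refine Nat.ModEq.cancel_left_of_coprime (c := D.f.natDegree) D.cop.symm ?_
    have : D.q * a + D.f.natDegree * i ≡ D.q * b + D.f.natDegree * j [MOD D.q] := by rw [h]
    simpa [Nat.ModEq] using this
  have h2 : i = j := Fin.ext (Nat.ModEq.eq_of_lt_of_lt h1 i.2 j.2)
  subst h2
  have := D.one_lt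
  have h3 : a = b := Nat.eq_of_mul_eq_mul_left (by omega : 0 < D.q) (by omega)
  rw [h3]

lemma exists_wt {w : ℕ} (hw : D.q * D.f.natDegree ≤ w) : ∃ p, D.wt p = w := by
  have := D.one_lt
  obtain ⟨i, hi, h⟩ := Nat.exists_mul_mod_eq_of_coprime w D.cop (by omega)
  have h1 : D.f.natDegree * i ≤ w :=
    le_trans (by rw [mul_comm]; exact Nat.mul_le_mul_right _ hi.le) hw
  obtain ⟨a, ha⟩ := (Nat.modEq_iff_dvd' h1).1 h
  exact ⟨(a, ⟨i, hi⟩), by simp only [wt]; omega⟩

end ASData

namespace Model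

variable {D : ASData k} {R A : Type u} [CommRing R] [CommRing A] [Algebra k R] [Algebra k A]
  [Algebra R A] [IsScalarTower k R A] (M : Model D R A)

/-- functions with pole order `< d` -/
def L (d : ℕ) : Submodule R A := Submodule.span R (M.bas '' {p | D.wt p < d})

omit [Algebra k R] [IsScalarTower k R A] in
lemma mem_L {d : ℕ} {x : A} : x ∈ M.L d ↔ ∀ p, d ≤ D.wt p → M.bas.repr x p = 0 := by
  rw [L, Basis.mem_span_image]
  constructor
  · intro h p hp
    by_contra h'
    exact absurd (h (Finsupp.mem_support_iff.2 h')) (not_lt.2 hp)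
  · intro h p hp
    by_contra h'
    exact Finsupp.mem_support_iff.1 hp (h p (not_lt.1 h'))

omit [Algebra k R] [IsScalarTower k R A] in
lemma L_mono {d e : ℕ} (h : d ≤ e) : M.L d ≤ M.L e :=
  Submodule.span_mono (Set.image_mono fun _ hp => lt_of_lt_of_le hp h)

omit [Algebra k R] [IsScalarTower k R A] in
lemma bas_mem {d : ℕ} {p : ℕ × Fin D.q} (h : D.wt p < d) : M.bas p ∈ M.L d :=
  Submodule.subset_span ⟨p, h, rfl⟩

omit [Algebra k R] [IsScalarTower k R A] in
lemma exists_mem_L (x : A) : ∃ d, x ∈ M.L d := by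
  refine ⟨(M.bas.repr x).support.sup D.wt + 1, M.mem_L.2 fun p hp => ?_⟩
  by_contra h
  have := Finset.le_sup (f := D.wt) (Finsupp.mem_support_iff.2 h)
  omega

/-- leading term -/
def Lead (x : A) (r : R) (p : ℕ × Fin D.q) : Prop := x - r • M.bas p ∈ M.L (D.wt p)

variable {M}

omit [Algebra k R] [IsScalarTower k R A] in
lemma Lead.mem {x : A} {r : R} {p : ℕ × Fin D.q} (h : M.Lead x r p) : x ∈ M.L (D.wt p + 1) := by
  have := Submodule.add_mem _ (M.L_mono (Nat.le_succ _) h)
    (Submodule.smul_mem _ r (M.bas_mem (Nat.lt_succ_self (D.wt p))))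
  simpa using this

omit [Algebra k R] [IsScalarTower k R A] in
lemma Lead.repr {x : A} {r : R} {p : ℕ × Fin D.q} (h : M.Lead x r p) : M.bas.repr x p = r := by
  have := M.mem_L.1 h p le_rfl
  simpa [sub_eq_zero] using this

variable (M)

omit [Algebra k R] [IsScalarTower k R A] in
lemma exists_lead {x : A} (hx : x ≠ 0) : ∃ r p, r ≠ 0 ∧ M.Lead x r p := by
  have hne : (M.bas.repr x).support.Nonempty := by
    rw [Finsupp.support_nonempty_iff]
    simpa using hx
  obtain ⟨p, hp, hmax⟩ := Finset.exists_max_image _ D.wt hne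
  refine ⟨M.bas.repr x p, p, Finsupp.mem_support_iff.1 hp, M.mem_L.2 fun p' hp' => ?_⟩
  by_cases h : p = p'
  · subst h
    simp
  · have : M.bas.repr x p' = 0 := by
      by_contra h'
      exact h (D.wt_inj (le_antisymm hp' (hmax p' (Finsupp.mem_support_iff.2 h'))))
    simp [this, Finsupp.single_eq_of_ne' h]

lemma mono_lead (w : ℕ) : ∀ i a : ℕ, D.q * a + D.f.natDegree * i = w →
    ∃ (c : k) (p : ℕ × Fin D.q), c ≠ 0 ∧ D.wt p = w ∧
      M.Lead (M.U ^ a * M.T ^ i) (algebraMap k R c) p := by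
  induction w using Nat.strong_induction_on with
  | _ w ihw =>
  have low : ∀ a i, D.q * a + D.f.natDegree * i < w → M.U ^ a * M.T ^ i ∈ M.L w := by
    intro a i h
    obtain ⟨c, p, -, h1, h2⟩ := ihw _ h i a rfl
    exact M.L_mono (by omega) h2.mem
  intro i
  induction i using Nat.strong_induction_on with
  | _ i ihi =>
  intro a hw
  by_cases hi : i < D.q
  · refine ⟨1, (a, ⟨i, hi⟩), one_ne_zero, hw, ?_⟩
    simp [Lead, M.bas_eq]
  obtain ⟨j, rfl⟩ := Nat.exists_eq_add_of_le (not_lt.1 hi)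
  have h1 := D.one_lt
  have h2 := D.pos
  obtain ⟨c, p, hc, hp, h⟩ := ihi j (by omega) (a + D.f.natDegree) (by rw [← hw]; ring)
  have hlc : D.f.leadingCoeff ≠ 0 := leadingCoeff_ne_zero.2 (by rintro h; simp [h] at h2)
  refine ⟨D.f.leadingCoeff * c, p, mul_ne_zero hlc hc, hp, ?_⟩
  have h3 : M.U ^ a * M.T ^ (D.q + j) = M.U ^ a * M.T ^ (j + 1) +
      ∑ l ∈ Finset.range D.f.natDegree, algebraMap k R (D.f.coeff l) • (M.U ^ (a + l) * M.T ^ j) +
      algebraMap k R D.f.leadingCoeff • (M.U ^ (a + D.f.natDegree) * M.T ^ j) := by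
    have h4 : M.T ^ D.q = M.T + aeval M.U D.f := by rw [← M.rel]; ring
    rw [pow_add, h4, aeval_eq_sum_range, Finset.sum_range_succ]
    simp only [algebraMap_smul, coeff_natDegree, mul_add, add_mul, Finset.mul_sum, Finset.sum_mul,
      mul_smul_comm, smul_mul_assoc, pow_add]
    ring_nf
  rw [Lead, h3, map_mul, mul_smul, add_sub_assoc, ← smul_sub, hp]
  refine Submodule.add_mem _ (Submodule.add_mem _ (low _ _ ?_) (Submodule.sum_mem _ fun l hl =>
    Submodule.smul_mem _ _ (low _ _ ?_))) (Submodule.smul_mem _ _ (hp ▸ h))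
  · rw [← hw]
    nlinarith
  · rw [← hw]
    have := Finset.mem_range.1 hl
    nlinarith

lemma bas_mul (p p' : ℕ × Fin D.q) : ∃ (c : k) (p'' : ℕ × Fin D.q), c ≠ 0 ∧
    D.wt p'' = D.wt p + D.wt p' ∧ M.Lead (M.bas p * M.bas p') (algebraMap k R c) p'' := by
  have := M.mono_lead (D.wt p + D.wt p') (p.2 + p'.2) (p.1 + p'.1) (by simp only [ASData.wt]; ring)
  rw [M.bas_eq, M.bas_eq]
  rw [show M.U ^ p.1 * M.T ^ (p.2 : ℕ) * (M.U ^ p'.1 * M.T ^ (p'.2 : ℕ)) =
    M.U ^ (p.1 + p'.1) * M.T ^ ((p.2 : ℕ) + p'.2) by ring]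
  exact this

lemma mul_mem {d e : ℕ} {x y : A} (hx : x ∈ M.L d) (hy : y ∈ M.L (e + 1)) :
    x * y ∈ M.L (d + e) := by
  have : M.L d * M.L (e + 1) ≤ M.L (d + e) := by
    rw [L, L, Submodule.span_mul_span, Submodule.span_le]
    rintro _ ⟨_, ⟨p, hp, rfl⟩, _, ⟨p', hp', rfl⟩, rfl⟩
    obtain ⟨c, p'', -, h1, h2⟩ := M.bas_mul p p'
    simp only [Set.mem_ofPred_eq] at hp hp'
    exact M.L_mono (by omega) h2.mem
  exact this (Submodule.mul_mem_mul hx hy)

variable {M}

lemma Lead.mul' {x y : A} {r s c : R} {p p' p'' : ℕ × Fin D.q} (hx : M.Lead x r p)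
    (hy : M.Lead y s p') (hw : D.wt p'' = D.wt p + D.wt p')
    (h : M.Lead (M.bas p * M.bas p') c p'') : M.Lead (x * y) (r * s * c) p'' := by
  have h1 : x * y - (r * s * c) • M.bas p'' = (x - r • M.bas p) * y +
      r • ((y - s • M.bas p') * M.bas p) + (r * s) • (M.bas p * M.bas p' - c • M.bas p'') := by
    simp only [Algebra.smul_def, map_mul]
    ring
  rw [Lead, h1, hw]
  refine Submodule.add_mem _ (Submodule.add_mem _ (M.mul_mem hx hy.mem)
    (Submodule.smul_mem _ _ ?_)) (Submodule.smul_mem _ _ (hw ▸ h))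
  rw [add_comm]
  exact M.mul_mem hy (M.bas_mem (Nat.lt_succ_self _))

lemma Lead.mul_U {g y : A} {s : R} {n : ℕ} {z : Fin D.q} (hz : (z : ℕ) = 0)
    {p : ℕ × Fin D.q} (hg : M.Lead g 1 (n, z)) (hy : M.Lead y s p) :
    M.Lead (g * y) s (n + p.1, p.2) := by
  have := hg.mul' hy (c := 1) (p'' := (n + p.1, p.2)) (by simp only [ASData.wt, hz]; ring) (by
    simp [Lead, M.bas_eq, hz, pow_add, mul_assoc])
  simpa using this

omit [Algebra k R] [IsScalarTower k R A] in
lemma lead_bas (p : ℕ × Fin D.q) : M.Lead (M.bas p) 1 p := by simp [Lead]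

variable (M) in
include M in
lemma isDomain [IsDomain R] : IsDomain A := by
  have h0 := D.one_lt
  have : Nontrivial A := ⟨⟨M.bas (0, ⟨0, by omega⟩), 0, M.bas.ne_zero _⟩⟩
  have : NoZeroDivisors A := ⟨fun {x y} h => by
    by_contra! h'
    obtain ⟨r, p, hr, hx⟩ := M.exists_lead h'.1
    obtain ⟨s, p', hs, hy⟩ := M.exists_lead h'.2
    obtain ⟨c, p'', hc, h1, h2⟩ := M.bas_mul p p'
    have := (hx.mul' hy h1 h2).repr
    rw [h, map_zero, Finsupp.zero_apply] at this
    exact mul_ne_zero (mul_ne_zero hr hs) ((_root_.map_ne_zero (algebraMap k R)).2 hc) this.symm⟩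
  exact NoZeroDivisors.to_isDomain A

lemma span_small {g : A} {n : ℕ} {z : Fin D.q} (hz : (z : ℕ) = 0) (hg : M.Lead g 1 (n, z))
    (x : A) : x ∈ Submodule.span R (Set.range fun p : Fin n × Fin D.q => M.bas (p.1, p.2)) ⊔
      (Ideal.span {g}).restrictScalars R := by
  obtain ⟨d, hd⟩ := M.exists_mem_L x
  induction d generalizing x with
  | zero =>
    have : x = 0 := M.bas.repr.injective (Finsupp.ext fun p => by
      simpa using M.mem_L.1 hd p (Nat.zero_le _))
    simp [this]
  | succ d ih =>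
    refine (Submodule.span_le.2 ?_ : M.L (d + 1) ≤ _) hd
    rintro _ ⟨⟨a, i⟩, hp, rfl⟩
    by_cases ha : a < n
    · exact Submodule.mem_sup_left (Submodule.subset_span ⟨(⟨a, ha⟩, i), rfl⟩)
    obtain ⟨b, rfl⟩ := Nat.exists_eq_add_of_le (not_lt.1 ha)
    have h1 := hg.mul_U hz (lead_bas (b, i))
    have h2 := ih _ (M.L_mono (Nat.lt_succ_iff.1 hp) h1)
    have h3 : g * M.bas (b, i) ∈ (Ideal.span {g}).restrictScalars R :=
      Ideal.mul_mem_right _ _ (Ideal.subset_span rfl)
    have := Submodule.sub_mem _ (Submodule.mem_sup_right h3) h2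
    simpa using this

lemma exists_basis_quot {g : A} {n : ℕ} {z : Fin D.q} (hz : (z : ℕ) = 0)
    (hg : M.Lead g 1 (n, z)) : Nonempty (Basis (Fin n × Fin D.q) R (A ⧸ Ideal.span {g})) := by
  refine ⟨Basis.mk (v := fun p => Ideal.Quotient.mk _ (M.bas (p.1, p.2))) ?_ ?_⟩
  · rw [Fintype.linearIndependent_iff]
    intro c hc p
    have h1 : ∑ p : Fin n × Fin D.q, c p • M.bas (p.1, p.2) ∈ Ideal.span {g} := by
      rw [← Ideal.Quotient.eq_zero_iff_mem, ← hc, map_sum]
      rfl
    obtain ⟨v, hv⟩ := Ideal.mem_span_singleton'.1 h1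
    have h2 : v = 0 := by
      by_contra h
      obtain ⟨r, p', hr, h'⟩ := M.exists_lead h
      have := (hg.mul_U hz h').repr
      rw [mul_comm, hv, map_sum, Finsupp.finsetSum_apply, Finset.sum_eq_zero] at this
      · exact hr this.symm
      · intro p'' _
        rw [map_smul, Basis.repr_self, Finsupp.smul_apply, Finsupp.single_eq_of_ne', smul_zero]
        intro h
        have := congrArg Prod.fst h
        have := p''.1.2
        simp only at *
        omega
    rw [h2, zero_mul] at hv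
    have h3 := M.bas.linearIndependent.comp (fun p : Fin n × Fin D.q => ((p.1 : ℕ), p.2))
      (fun p p' h => by
        simp only [Prod.mk.injEq] at h
        exact Prod.ext (Fin.ext h.1) h.2)
    exact Fintype.linearIndependent_iff.1 h3 c hv.symm p
  · intro x _
    obtain ⟨x, rfl⟩ := Ideal.Quotient.mk_surjective x
    obtain ⟨y, hy, w, hw, rfl⟩ := Submodule.mem_sup.1 (span_small hz hg x)
    rw [map_add, Ideal.Quotient.eq_zero_iff_mem.2 hw, add_zero]
    have := Submodule.mem_map_of_mem (f := (Ideal.Quotient.mkₐ R (Ideal.span {g})).toLinearMap) hy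
    rw [Submodule.map_span, ← Set.range_comp] at this
    exact this

lemma lead_prod {J : Type*} (s : Finset J) (u : J → R) {z : Fin D.q} (hz : (z : ℕ) = 0) :
    M.Lead (∏ j ∈ s, (M.U - algebraMap R A (u j))) 1 (s.card, z) := by
  classical
  induction s using Finset.induction_on with
  | empty => simp [Lead, M.bas_eq, hz]
  | insert j s hj ih =>
    rw [Finset.prod_insert hj, Finset.card_insert_of_notMem hj, add_comm]
    suffices H : M.Lead (M.U - algebraMap R A (u j)) 1 (1, z) by
      have h := Lead.mul_U (p := (s.card, z)) hz H ih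
      dsimp only at h
      exact h
    have h1 : M.bas (0, z) = 1 := by simp [M.bas_eq, hz]
    have h2 := D.one_lt
    have h3 := Submodule.smul_mem _ (-u j) (M.bas_mem (p := (0, z)) (d := D.wt (1, z)) (by
      simp only [ASData.wt]; omega))
    rw [h1] at h3
    simpa [Lead, M.bas_eq, hz, Algebra.smul_def] using h3

variable (M)

/-- the ideal of a section -/
def idl (P : R × R) : Ideal A :=
  Ideal.span {M.U - algebraMap R A P.1, M.T - algebraMap R A P.2}

omit [Algebra k R] [IsScalarTower k R A] in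
lemma U_mem (P : R × R) : M.U - algebraMap R A P.1 ∈ M.idl P := Ideal.subset_span (by simp)

omit [Algebra k R] [IsScalarTower k R A] in
lemma T_mem (P : R × R) : M.T - algebraMap R A P.2 ∈ M.idl P := Ideal.subset_span (by simp)

omit [Algebra k R] [IsScalarTower k R A] in
lemma exists_val (P : R × R) (x : A) : ∃ r, x - algebraMap R A r ∈ M.idl P := by
  have hx : x ∈ Submodule.span R (Set.range M.bas) := by simp
  induction hx using Submodule.span_induction with
  | mem x hx =>
    obtain ⟨p, rfl⟩ := hx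
    refine ⟨P.1 ^ p.1 * P.2 ^ (p.2 : ℕ), ?_⟩
    rw [← Ideal.Quotient.eq, M.bas_eq]
    simp only [map_mul, map_pow, Ideal.Quotient.eq.2 (M.U_mem P), Ideal.Quotient.eq.2 (M.T_mem P)]
  | zero => exact ⟨0, by simp⟩
  | add x y _ _ hx hy =>
    obtain ⟨r, hr⟩ := hx
    obtain ⟨s, hs⟩ := hy
    exact ⟨r + s, by rw [map_add, add_sub_add_comm]; exact Ideal.add_mem _ hr hs⟩
  | smul c x _ hx =>
    obtain ⟨r, hr⟩ := hx
    exact ⟨c * r, by rw [map_mul, Algebra.smul_def, ← mul_sub]; exact Ideal.mul_mem_left _ _ hr⟩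

lemma aeval_sub_mem (P : R × R) (g : k[X]) :
    aeval M.U g - algebraMap R A (aeval P.1 g) ∈ Ideal.span {M.U - algebraMap R A P.1} := by
  rw [Ideal.mem_span_singleton, ← aeval_algebraMap_apply, aeval_def, aeval_def, eval₂_eq_eval_map,
    eval₂_eq_eval_map]
  exact sub_dvd_eval_sub _ _ _

end Model

section FieldCase

variable {D : ASData k} {K A : Type u} [Field K] [CommRing A] [Algebra k K] [Algebra k A]
  [Algebra K A] [IsScalarTower k K A] (M : Model D K A)

lemma Model.local_gen (P P' : K × K) (hP : P.2 ^ D.q - P.2 = aeval P.1 D.f) :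
    ∃ s γ : A, ∃ σ : K, σ ≠ 0 ∧ s - algebraMap K A σ ∈ M.idl P ∧ γ ∈ M.idl P' ∧
      ∀ x ∈ M.idl P', s * x ∈ Ideal.span {γ} := by
  by_cases h1 : P'.1 = P.1
  · by_cases h2 : P'.2 = P.2
    · obtain rfl : P' = P := Prod.ext h1 h2
      obtain ⟨n, hn⟩ := Nat.exists_eq_add_of_lt D.one_lt
      refine ⟨1 - (M.T - algebraMap K A P'.2) ^ (n + 1), _, 1, one_ne_zero, ?_, M.U_mem P', ?_⟩
      · rw [map_one, sub_sub_cancel_left, neg_mem_iff, pow_succ]
        exact Ideal.mul_mem_left _ _ (M.T_mem P')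
      · intro x hx
        obtain ⟨a, b, rfl⟩ := Ideal.mem_span_pair.1 hx
        rw [mul_add, ← mul_assoc, mul_left_comm _ b]
        refine Ideal.add_mem _ (Ideal.mul_mem_left _ _ (Ideal.subset_span rfl))
          (Ideal.mul_mem_left _ _ ?_)
        have h3 : (1 - (M.T - algebraMap K A P'.2) ^ (n + 1)) * (M.T - algebraMap K A P'.2) =
            -(aeval M.U D.f - algebraMap K A (aeval P'.1 D.f)) := by
          rw [sub_mul, ← pow_succ, show n + 1 + 1 = D.q by omega, D.sub_pow, ← M.rel, ← hP,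
            map_sub, map_pow]
          ring
        rw [h3, neg_mem_iff]
        exact M.aeval_sub_mem P' D.f
    · refine ⟨_, _, P.2 - P'.2, sub_ne_zero.2 (Ne.symm h2), ?_, M.T_mem P',
        fun x _ => Ideal.mul_mem_right _ _ (Ideal.subset_span rfl)⟩
      simpa using M.T_mem P
  · refine ⟨_, _, P.1 - P'.1, sub_ne_zero.2 (Ne.symm h1), ?_, M.U_mem P',
      fun x _ => Ideal.mul_mem_right _ _ (Ideal.subset_span rfl)⟩
    simpa using M.U_mem P

lemma Model.prod_gen {J : Type*} (s : Finset J) (Q : J → K × K) (P : K × K)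
    (hP : P.2 ^ D.q - P.2 = aeval P.1 D.f) :
    ∃ t γ : A, ∃ σ : K, σ ≠ 0 ∧ t - algebraMap K A σ ∈ M.idl P ∧ γ ∈ ∏ j ∈ s, M.idl (Q j) ∧
      ∀ x ∈ ∏ j ∈ s, M.idl (Q j), t * x ∈ Ideal.span {γ} := by
  classical
  induction s using Finset.induction_on with
  | empty => exact ⟨1, 1, 1, one_ne_zero, by simp, by simp, by simp⟩
  | insert j s hj ih =>
    obtain ⟨t, γ, σ, h1, h2, h3, h4⟩ := ih
    obtain ⟨t', γ', σ', h1', h2', h3', h4'⟩ := M.local_gen P (Q j) hP
    rw [Finset.prod_insert hj]
    refine ⟨t' * t, γ' * γ, σ' * σ, mul_ne_zero h1' h1, ?_, Ideal.mul_mem_mul h3' h3,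
      fun x hx => ?_⟩
    · rw [← Ideal.Quotient.eq] at h2 h2' ⊢
      rw [map_mul, h2, h2', map_mul, map_mul]
    · refine Submodule.mul_induction_on hx (fun a ha b hb => ?_) fun a b ha hb => ?_
      · rw [mul_mul_mul_comm, ← Ideal.span_singleton_mul_span_singleton]
        exact Ideal.mul_mem_mul (h4' a ha) (h4 b hb)
      · rw [mul_add]
        exact Ideal.add_mem _ ha hb

lemma Model.colength {J : Type*} (s : Finset J) (Q : J → K × K)
    (hQ : ∀ j, (Q j).2 ^ D.q - (Q j).2 = aeval (Q j).1 D.f) :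
    ∃ G : Finset A, G.card ≤ s.card ∧ ∀ x, x ∈ Submodule.span K (G : Set A) ⊔
      (∏ j ∈ s, M.idl (Q j)).restrictScalars K := by
  classical
  induction s using Finset.induction_on with
  | empty => exact ⟨∅, le_rfl, by simp⟩
  | insert j s hj ih =>
    obtain ⟨G, hG, h⟩ := ih
    obtain ⟨t, γ, σ, h1, h2, h3, h4⟩ := M.prod_gen s Q (Q j) (hQ j)
    refine ⟨insert γ G, (Finset.card_insert_le _ _).trans (by
      rw [Finset.card_insert_of_notMem hj]; omega), fun x => ?_⟩
    obtain ⟨y, hy, w, hw, rfl⟩ := Submodule.mem_sup.1 (h x)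
    refine Submodule.add_mem _ (Submodule.mem_sup_left
      (Submodule.span_mono (by simp) hy)) ?_
    obtain ⟨a, ha⟩ := Ideal.mem_span_singleton'.1 (h4 w hw)
    obtain ⟨r, hr⟩ := M.exists_val (Q j) a
    have h5 : w = (σ⁻¹ * r) • γ + σ⁻¹ • ((a - algebraMap K A r) * γ -
        (t - algebraMap K A σ) * w) := by
      rw [sub_mul, sub_mul, ha, mul_smul, ← smul_add, ← Algebra.smul_def, ← Algebra.smul_def]
      simp [smul_smul, h1]
    rw [h5, Finset.prod_insert hj]
    refine Submodule.add_mem_sup (Submodule.smul_mem _ _ (Submodule.subset_span (by simp)))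
      (Submodule.smul_mem _ _ (Submodule.sub_mem _ ?_ ?_))
    · exact Ideal.mul_mem_mul hr h3
    · exact Ideal.mul_mem_mul h2 hw

lemma Model.surj_field (I : Ideal A) (G : Finset A)
    (hG : ∀ x, x ∈ Submodule.span K (G : Set A) ⊔ I.restrictScalars K) (x : A) :
    x ∈ M.L (G.card + 2 * (D.q * D.f.natDegree) + 1) ⊔ I.restrictScalars K := by
  classical
  set c := D.q * D.f.natDegree
  choose p hp using fun i : Fin (G.card + 1) => D.exists_wt (w := c + i) (Nat.le_add_right _ _)
  have hpi : Function.Injective p := fun i j h => by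
    have := hp i
    rw [h, hp j] at this
    exact Fin.ext (by omega)
  have h1 : ¬ LinearIndependent K fun i => (I.restrictScalars K).mkQ (M.bas (p i)) := by
    intro h
    have h2 : Submodule.span K ((G.image (I.restrictScalars K).mkQ : Finset _) :
        Set (A ⧸ I.restrictScalars K)) = ⊤ := by
      rw [eq_top_iff]
      intro y _
      obtain ⟨y, rfl⟩ := Submodule.mkQ_surjective _ y
      obtain ⟨a, ha, b, hb, rfl⟩ := Submodule.mem_sup.1 (hG y)
      rw [map_add, show (I.restrictScalars K).mkQ b = 0 from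
        (Submodule.Quotient.mk_eq_zero _).2 hb, add_zero, Finset.coe_image, ← Submodule.map_span]
      exact Submodule.mem_map_of_mem ha
    have : Module.Finite K (A ⧸ I.restrictScalars K) := ⟨⟨_, h2⟩⟩
    have h3 := h.fintype_card_le_finrank
    have h4 := finrank_span_finset_le_card (R := K) (G.image (I.restrictScalars K).mkQ)
    rw [Set.finrank, h2, finrank_top] at h4
    have h5 := Finset.card_image_le (s := G) (f := (I.restrictScalars K).mkQ)
    rw [Fintype.card_fin] at h3
    omega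
  obtain ⟨a, ha, i, hi⟩ := Fintype.not_linearIndependent_iff.1 h1
  set v := ∑ i, a i • M.bas (p i) with hv
  have hvI : v ∈ I := by
    rw [← Submodule.restrictScalars_mem K, ← Submodule.Quotient.mk_eq_zero, ← ha, hv,
      ← Submodule.mkQ_apply, map_sum]
    simp
  have hv0 : v ≠ 0 := fun h =>
    hi (Fintype.linearIndependent_iff.1 (M.bas.linearIndependent.comp p hpi) a h i)
  have hvL : v ∈ M.L (c + G.card + 1) := Submodule.sum_mem _ fun i _ =>
    Submodule.smul_mem _ _ (M.bas_mem (by rw [hp]; have := i.2; omega))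
  obtain ⟨r, p₀, hr, h0⟩ := M.exists_lead hv0
  have hp₀ : D.wt p₀ < c + G.card + 1 := by
    by_contra h
    exact hr (h0.repr.symm.trans (M.mem_L.1 hvL p₀ (not_lt.1 h)))
  obtain ⟨d, hd⟩ := M.exists_mem_L x
  induction d generalizing x with
  | zero => exact Submodule.mem_sup_left (M.L_mono (Nat.zero_le _) hd)
  | succ d ih =>
    refine (Submodule.span_le.2 ?_ : M.L (d + 1) ≤ _) hd
    rintro _ ⟨p', hp', rfl⟩
    by_cases h : D.wt p' < G.card + 2 * c + 1
    · exact Submodule.mem_sup_left (M.bas_mem h)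
    obtain ⟨p₁, hp₁⟩ := D.exists_wt (w := D.wt p' - D.wt p₀) (by omega)
    obtain ⟨e, p₂, he, h2, h3⟩ := M.bas_mul p₀ p₁
    obtain rfl : p₂ = p' := D.wt_inj (by omega)
    have h4 := h0.mul' (Model.lead_bas p₁) h2 h3
    have h5 := ih _ (M.L_mono (Nat.lt_succ_iff.1 hp') h4)
    have h6 : v * M.bas p₁ ∈ I.restrictScalars K := Ideal.mul_mem_right _ _ hvI
    have h7 := Submodule.smul_mem _ (r * 1 * algebraMap k K e)⁻¹
      (Submodule.sub_mem _ (Submodule.mem_sup_right h6) h5)
    rw [sub_sub_cancel, smul_smul, inv_mul_cancel₀, one_smul] at h7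
    · exact h7
    · exact mul_ne_zero (by simpa using hr) ((_root_.map_ne_zero (algebraMap k K)).2 he)

end FieldCase

section Base

variable (D : ASData k)

/-- the defining polynomial -/
noncomputable def ASData.eqn : k[X][X] := X ^ D.q - (X + C D.f)

lemma ASData.eqn_monic : D.eqn.Monic :=
  monic_X_pow_sub (by
    refine lt_of_le_of_lt (degree_X_add_C _).le ?_
    exact_mod_cast D.one_lt)

lemma ASData.eqn_natDegree : D.eqn.natDegree = D.q := by
  rw [ASData.eqn, natDegree_sub_eq_left_of_natDegree_lt, natDegree_X_pow]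
  rw [natDegree_X_pow, natDegree_X_add_C]
  exact D.one_lt

/-- the coordinate ring -/
abbrev ASData.A : Type u := AdjoinRoot D.eqn

/-- the model over the ground field -/
noncomputable def ASData.model₀ : Model D k D.A where
  U := AdjoinRoot.of D.eqn X
  T := AdjoinRoot.root D.eqn
  rel := by
    have h := AdjoinRoot.eval₂_root D.eqn
    rw [show aeval (AdjoinRoot.of D.eqn X) D.f = AdjoinRoot.of D.eqn D.f by
      rw [← AdjoinRoot.algebraMap_eq, aeval_algebraMap_apply, aeval_X_left_apply]]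
    have h' : eval₂ (AdjoinRoot.of D.eqn) (AdjoinRoot.root D.eqn) (X ^ D.q - (X + C D.f)) = 0 := h
    simp only [eval₂_sub, eval₂_add, eval₂_X_pow, eval₂_X, eval₂_C] at h'
    rw [← sub_eq_zero, ← h']
    ring
  bas := (basisMonomials k).smulTower ((AdjoinRoot.powerBasis' D.eqn_monic).basis.reindex
    (finCongr D.eqn_natDegree))
  bas_eq p := by
    simp [Basis.smulTower_apply, Algebra.smul_def]
    rw [← map_pow, monomial_one_right_eq_X_pow]

/-- the model over an arbitrary base -/
noncomputable def ASData.model (R : Type u) [CommRing R] [Algebra k R] :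
    Model D R (R ⊗[k] D.A) where
  U := 1 ⊗ₜ D.model₀.U
  T := 1 ⊗ₜ D.model₀.T
  rel := by
    have := congrArg (Algebra.TensorProduct.includeRight (R := k) (A := R)) D.model₀.rel
    rw [map_sub, map_pow, ← aeval_algHom_apply] at this
    exact this
  bas := Algebra.TensorProduct.basis R D.model₀.bas
  bas_eq p := by simp [D.model₀.bas_eq]

/-- evaluation at a point -/
noncomputable def ASData.ev {R S : Type u} [CommRing R] [Algebra k R] [CommRing S] [Algebra k S]
    (x : R →ₐ[k] S) (u t : S) (h : t ^ D.q - t = aeval u D.f) : R ⊗[k] D.A →ₐ[k] S :=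
  Algebra.TensorProduct.lift x (AdjoinRoot.liftAlgHom D.eqn (aeval u) t (by
    simp only [ASData.eqn, eval₂_sub, eval₂_add, eval₂_X_pow, eval₂_X, eval₂_C]
    rw [← sub_sub, h]
    exact sub_self _)) fun _ _ => Commute.all _ _

variable {R S : Type u} [CommRing R] [Algebra k R] [CommRing S] [Algebra k S]

lemma ASData.ev_U (x : R →ₐ[k] S) (u t : S) (h : t ^ D.q - t = aeval u D.f) :
    D.ev x u t h (D.model R).U = u := by
  simp [ASData.ev, ASData.model, ASData.model₀]

lemma ASData.ev_T (x : R →ₐ[k] S) (u t : S) (h : t ^ D.q - t = aeval u D.f) :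
    D.ev x u t h (D.model R).T = t := by
  simp [ASData.ev, ASData.model, ASData.model₀]

lemma ASData.ev_base (x : R →ₐ[k] S) (u t : S) (h : t ^ D.q - t = aeval u D.f) (r : R) :
    D.ev x u t h (algebraMap R _ r) = x r := by
  simp [ASData.ev]

omit [Algebra k S] in
lemma ASData.hom_ext {φ ψ : R ⊗[k] D.A →+* S}
    (h1 : ∀ r, φ (algebraMap R _ r) = ψ (algebraMap R _ r)) (h2 : φ (D.model R).U = ψ (D.model R).U)
    (h3 : φ (D.model R).T = ψ (D.model R).T) : φ = ψ := by
  refine RingHom.ext fun z => ?_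
  have hz : z ∈ Submodule.span R (Set.range (D.model R).bas) := by simp
  induction hz using Submodule.span_induction with
  | mem x hx =>
    obtain ⟨p, rfl⟩ := hx
    rw [Model.bas_eq]
    simp only [map_mul, map_pow, h2, h3]
  | zero => simp
  | add x y _ _ hx hy => rw [map_add, map_add, hx, hy]
  | smul c x _ hx => rw [Algebra.smul_def, map_mul, map_mul, hx, h1]

open scoped Pointwise in
theorem ASData.surj {J : Type*} [Fintype J] (Q : J → R × R)
    (hQ : ∀ j, (Q j).2 ^ D.q - (Q j).2 = aeval (Q j).1 D.f) (z : R ⊗[k] D.A) :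
    z ∈ (D.model R).L (Fintype.card J + 2 * (D.q * D.f.natDegree) + 1) ⊔
      (∏ j, (D.model R).idl (Q j)).restrictScalars R := by
  set N := (D.model R).L (Fintype.card J + 2 * (D.q * D.f.natDegree) + 1) ⊔
      (∏ j, (D.model R).idl (Q j)).restrictScalars R
  have h0 := D.one_lt
  have hlead := Model.lead_prod (M := D.model R) Finset.univ (fun j => (Q j).1)
    (z := ⟨0, by omega⟩) rfl
  have hspan := Model.span_small rfl hlead
  set G := Submodule.span R (Set.range fun p : Fin (Finset.univ : Finset J).card × Fin D.q =>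
    (D.model R).bas (p.1, p.2))
  have hH : (Ideal.span {∏ j, ((D.model R).U - algebraMap R _ (Q j).1)}).restrictScalars R ≤ N := by
    refine le_trans ?_ le_sup_right
    intro y hy
    exact (Ideal.span_singleton_le_iff_mem _).2
      (Ideal.prod_mem_prod fun j _ => (D.model R).U_mem (Q j)) hy
  have key : ∀ m : Ideal R, m.IsMaximal → ∃ r : R, r - 1 ∈ m ∧ r • (⊤ : Submodule R _) ≤ N := by
    intro m hm
    refine Submodule.exists_sub_one_mem_and_smul_le_of_fg_of_le_sup (N' := G)
      (Submodule.fg_span (Set.finite_range _)) le_top fun y _ => ?_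
    let _ := Ideal.Quotient.field m
    let φ := Algebra.TensorProduct.map (Ideal.Quotient.mkₐ k m) (AlgHom.id k D.A)
    have hφ : Function.Surjective φ := Algebra.TensorProduct.map_surjective _ _
      (Ideal.Quotient.mkₐ_surjective k m) Function.surjective_id
    have hb : ∀ r : R, φ (algebraMap R _ r) = algebraMap (R ⧸ m) _ (Ideal.Quotient.mk m r) :=
      fun r => by simp [φ]
    have hU : φ (D.model R).U = (D.model (R ⧸ m)).U := by simp [φ, ASData.model]
    have hT : φ (D.model R).T = (D.model (R ⧸ m)).T := by simp [φ, ASData.model]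
    obtain ⟨G', h1, h2⟩ := (D.model (R ⧸ m)).colength Finset.univ
      (fun j => (Ideal.Quotient.mk m (Q j).1, Ideal.Quotient.mk m (Q j).2)) (fun j => by
        have := congrArg (Ideal.Quotient.mkₐ k m) (hQ j)
        rw [map_sub, map_pow, ← aeval_algHom_apply] at this
        exact this)
    obtain ⟨a, ha, b, hb', hab⟩ := Submodule.mem_sup.1
      ((D.model (R ⧸ m)).surj_field _ G' h2 (φ y))
    have h3 : ∃ a' ∈ (D.model R).L (Fintype.card J + 2 * (D.q * D.f.natDegree) + 1),
        φ a' = a := by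
      have ha' := (D.model (R ⧸ m)).L_mono (e := Fintype.card J + 2 * (D.q * D.f.natDegree) + 1)
        (by rw [Finset.card_univ] at h1; omega) ha
      clear ha hab
      induction ha' using Submodule.span_induction with
      | mem x hx =>
        obtain ⟨p, hp, rfl⟩ := hx
        exact ⟨_, (D.model R).bas_mem hp, by simp only [Model.bas_eq, map_mul, map_pow, hU, hT]⟩
      | zero => exact ⟨0, Submodule.zero_mem _, map_zero _⟩
      | add x y _ _ hx hy =>
        obtain ⟨x', h, rfl⟩ := hx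
        obtain ⟨y', h', rfl⟩ := hy
        exact ⟨x' + y', Submodule.add_mem _ h h', map_add _ _ _⟩
      | smul c x _ hx =>
        obtain ⟨x', h, rfl⟩ := hx
        obtain ⟨c, rfl⟩ := Ideal.Quotient.mk_surjective c
        exact ⟨c • x', Submodule.smul_mem _ _ h, by
          rw [Algebra.smul_def, Algebra.smul_def, map_mul, hb]⟩
    obtain ⟨a', ha', rfl⟩ := h3
    have h4 : (∏ j, (D.model R).idl (Q j)).map φ = ∏ j, (D.model (R ⧸ m)).idl
        (Ideal.Quotient.mk m (Q j).1, Ideal.Quotient.mk m (Q j).2) := by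
      have := map_prod (Ideal.mapHom φ) (fun j => (D.model R).idl (Q j)) Finset.univ
      rw [Ideal.mapHom_apply] at this
      rw [this]
      refine Finset.prod_congr rfl fun j _ => ?_
      simp only [Ideal.mapHom_apply, Model.idl, Ideal.map_span, Set.image_pair, map_sub, hU, hT, hb]
    rw [Submodule.restrictScalars_mem, ← h4, Ideal.mem_map_iff_of_surjective _ hφ] at hb'
    obtain ⟨b', hb', rfl⟩ := hb'
    have h5 : y - (a' + b') ∈ m • (⊤ : Submodule R (R ⊗[k] D.A)) := by
      have : y - (a' + b') ∈ RingHom.ker φ := by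
        rw [RingHom.mem_ker, map_sub, map_add, hab, sub_self]
      have hk : RingHom.ker (Ideal.Quotient.mkₐ k m) = m := Ideal.mk_ker
      rw [Algebra.TensorProduct.rTensor_ker _ (Ideal.Quotient.mkₐ_surjective k m), hk] at this
      rw [Ideal.smul_top_eq_map]
      exact this
    have h6 : m • (⊤ : Submodule R (R ⊗[k] D.A)) ≤ N ⊔ m • G := by
      refine (Submodule.smul_mono le_rfl fun y _ => hspan y).trans ?_
      rw [Submodule.smul_sup, sup_comm]
      exact sup_le_sup_right (Submodule.smul_le_right.trans hH) _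
    have := Submodule.add_mem _ (h6 h5) (Submodule.mem_sup_left
      (Submodule.add_mem_sup ha' hb' : a' + b' ∈ N))
    simpa using this
  have h7 : N.colon (Set.univ : Set (R ⊗[k] D.A)) = ⊤ := by
    by_contra h
    obtain ⟨m, hm, hle⟩ := Ideal.exists_le_maximal _ h
    obtain ⟨r, h1, h2⟩ := key m hm
    have : r ∈ m := hle (Submodule.mem_colon.2 fun y _ =>
      h2 (Submodule.smul_mem_pointwise_smul _ _ _ Submodule.mem_top))
    exact hm.ne_top ((Ideal.eq_top_iff_one _).2 (by simpa using m.sub_mem this h1))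
  have := Submodule.mem_colon.1 ((Ideal.eq_top_iff_one _).1 h7) z (Set.mem_univ _)
  simpa using this

end Base

end Pool.Agent.Lib.MP_fc2ced_ag.Naive
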