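import Pool.Agent.Lib.MP_fc2ced_ag.NReg

/-!
Correspondences as families of formal sums of points, natural in absolutely integrally closed
domains; naive homotopy; exponential growth of the symmetric group action on powers.
-/

namespace Pool.Agent.Lib.MP_fc2ced_ag.Naive

universe u

open Equiv Finsupp

/-- absolutely integrally closed domains over `k` -/
structure AIC (k : Type u) [Field k] where
  carrier : Type u
  [ring : CommRing carrier]
  [dom : IsDomain carrier]
  [alg : Algebra k carrier]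
  splits : ∀ p : Polynomial carrier, p.Monic → p.Splits

instance (k : Type u) [Field k] : CoeSort (AIC k) (Type u) := ⟨AIC.carrier⟩

attribute [instance] AIC.ring AIC.dom AIC.alg

/-- a functor of points -/
structure Obj (k : Type u) [Field k] where
  pt : AIC k → Type u
  map : ∀ {O O' : AIC k}, (O →ₐ[k] O') → pt O → pt O'

section Free

variable {A B C : Type*} {V : Type*} [AddCommGroup V] [Module ℚ V]

/-- linear extension -/
noncomputable abbrev lc (f : A → V) : (A →₀ ℚ) →ₗ[ℚ] V := Finsupp.linearCombination ℚ f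

lemma lc_single (f : A → V) (a : A) : lc f (single a 1) = f a := by simp

lemma lc_mapDomain (f : B → V) (g : A → B) (u : A →₀ ℚ) :
    lc f (mapDomain g u) = lc (fun a => f (g a)) u := Finsupp.linearCombination_mapDomain _ _ _

lemma map_lc {W : Type*} [AddCommGroup W] [Module ℚ W] (L : V →ₗ[ℚ] W) (f : A → V)
    (u : A →₀ ℚ) : L (lc f u) = lc (fun a => L (f a)) u := Finsupp.apply_linearCombination _ _ _ _

lemma mapDomain_lc (g : B → C) (f : A → B →₀ ℚ) (u : A →₀ ℚ) :
    mapDomain g (lc f u) = lc (fun a => mapDomain g (f a)) u :=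
  map_lc (lmapDomain ℚ ℚ g) f u

lemma lc_single_comp (g : A → B) (u : A →₀ ℚ) :
    lc (fun a => single (g a) (1 : ℚ)) u = mapDomain g u := by
  induction u using Finsupp.induction_linear with
  | zero => simp
  | add u v hu hv => rw [map_add, hu, hv, mapDomain_add]
  | single a c => simp

lemma lc_id (u : A →₀ ℚ) : lc (fun a => single a (1 : ℚ)) u = u := by
  rw [lc_single_comp (fun a => a)]
  exact mapDomain_id

lemma lc_add (f g : A → V) (u : A →₀ ℚ) : lc (fun a => f a + g a) u = lc f u + lc g u := by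
  simp [linearCombination_apply, Finsupp.sum, Finset.sum_add_distrib]

lemma lc_sub (f g : A → V) (u : A →₀ ℚ) : lc (fun a => f a - g a) u = lc f u - lc g u := by
  simp [linearCombination_apply, Finsupp.sum, smul_sub]

lemma lc_smul (c : ℚ) (f : A → V) (u : A →₀ ℚ) : lc (fun a => c • f a) u = c • lc f u := by
  simp [linearCombination_apply, Finsupp.sum, Finset.smul_sum, smul_comm c]

lemma lc_congr {f g : A → V} {u : A →₀ ℚ} (h : ∀ a ∈ u.support, f a = g a) : lc f u = lc g u := by
  simp only [linearCombination_apply, Finsupp.sum]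
  exact Finset.sum_congr rfl fun a ha => by rw [h a ha]

/-- bilinear extension -/
noncomputable def bil (m : A → B → C) : (A →₀ ℚ) →ₗ[ℚ] (B →₀ ℚ) →ₗ[ℚ] (C →₀ ℚ) :=
  lc fun a => lmapDomain ℚ ℚ (m a)

lemma bil_single (m : A → B → C) (a : A) (v : B →₀ ℚ) :
    bil m (single a 1) v = mapDomain (m a) v := by
  simp [bil]

lemma mapDomain_bil {A' B' C' : Type*} (m : A → B → C) (m' : A' → B' → C') (f : A → A')
    (g : B → B') (h : C → C') (H : ∀ a b, m' (f a) (g b) = h (m a b)) (u : A →₀ ℚ)
    (v : B →₀ ℚ) : bil m' (mapDomain f u) (mapDomain g v) = mapDomain h (bil m u v) := by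
  induction u using Finsupp.induction_linear with
  | zero => simp
  | add u v hu hv => simp only [mapDomain_add, map_add, LinearMap.add_apply, hu, hv]
  | single a c =>
    rw [mapDomain_single, ← smul_single_one, ← smul_single_one a, map_smul, map_smul,
      LinearMap.smul_apply, LinearMap.smul_apply, bil_single, bil_single, mapDomain_smul,
      ← mapDomain_comp, ← mapDomain_comp]
    congr 2
    funext b
    exact H a b

variable {ι : Type*} [Fintype ι] [DecidableEq ι]

/-- exterior product of formal sums -/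
noncomputable def piM : MultilinearMap ℚ (fun _ : ι => A →₀ ℚ) ((ι → A) →₀ ℚ) where
  toFun u := Finsupp.onFinset (Fintype.piFinset fun i => (u i).support)
    (fun z => ∏ i, u i (z i)) (by
      intro z hz
      rw [Fintype.mem_piFinset]
      intro i
      rw [mem_support_iff]
      exact Finset.prod_ne_zero_iff.1 hz i (Finset.mem_univ i))
  map_update_add' u i x y := by
    ext z
    exact ((MultilinearMap.mkPiAlgebra ℚ ι ℚ).compLinearMap
      (fun i => Finsupp.lapply (z i))).map_update_add u i x y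
  map_update_smul' u i c x := by
    ext z
    exact ((MultilinearMap.mkPiAlgebra ℚ ι ℚ).compLinearMap
      (fun i => Finsupp.lapply (z i))).map_update_smul u i c x

lemma piM_apply (u : ι → A →₀ ℚ) (z : ι → A) : piM u z = ∏ i, u i (z i) := rfl

lemma piM_single (z : ι → A) : piM (fun i => single (z i) (1 : ℚ)) = single z 1 := by
  classical
  ext w
  rw [piM_apply]
  by_cases h : z = w
  · subst h
    simp
  · obtain ⟨i, hi⟩ := Function.ne_iff.1 h
    rw [single_eq_of_ne' h]
    exact Finset.prod_eq_zero (Finset.mem_univ i) (single_eq_of_ne' hi)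

lemma map_piM {κ : Type*} [Fintype κ] [DecidableEq κ] (e : κ ≃ ι)
    (L : κ → (A →₀ ℚ) →ₗ[ℚ] (B →₀ ℚ))
    (Λ : ((ι → A) →₀ ℚ) →ₗ[ℚ] ((κ → B) →₀ ℚ))
    (h : ∀ z, Λ (single z 1) = piM fun i => L i (single (z (e i)) 1)) (u : ι → A →₀ ℚ) :
    Λ (piM u) = piM fun i => L i (u (e i)) := by
  have : Λ.compMultilinearMap piM =
      (piM.compLinearMap L).domDomCongr e := by
    refine Module.Basis.ext_multilinear (fun _ => Finsupp.basisSingleOne) fun z => ?_
    simp only [coe_basisSingleOne, LinearMap.compMultilinearMap_apply,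
      MultilinearMap.domDomCongr_apply, MultilinearMap.compLinearMap_apply]
    rw [piM_single, h]
  simpa using congrArg (fun F => F u) this

lemma lc_piM (f : ι → A → B →₀ ℚ) (u : ι → A →₀ ℚ) :
    lc (fun z : ι → A => piM fun i => f i (z i)) (piM u) = piM fun i => lc (f i) (u i) :=
  map_piM (Equiv.refl ι) (fun i => lc (f i)) _ (fun z => by simp) u

lemma mapDomain_piM (g : A → B) (u : ι → A →₀ ℚ) :
    mapDomain (fun (z : ι → A) i => g (z i)) (piM u) = piM fun i => mapDomain g (u i) :=
  map_piM (Equiv.refl ι) (fun _ => lmapDomain ℚ ℚ g) (lmapDomain ℚ ℚ _)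
    (fun z => by simp [piM_single]) u

lemma mapDomain_piM_perm (σ : Perm ι) (u : ι → A →₀ ℚ) :
    mapDomain (fun (z : ι → A) i => z (σ i)) (piM u) = piM fun i => u (σ i) :=
  map_piM σ (fun _ => LinearMap.id) (lmapDomain ℚ ℚ _)
    (fun z => by simp [piM_single]) u

end Free

variable {k : Type u} [Field k]

/-- families of formal sums of points -/
abbrev Fam (X Y : Obj k) : Type (u + 1) := ∀ O : AIC k, X.pt O → (Y.pt O →₀ ℚ)

/-- natural families -/
def IsNat {X Y : Obj k} (α : Fam X Y) : Prop :=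
  ∀ (O O' : AIC k) (σ : O →ₐ[k] O') (x : X.pt O),
    α O' (X.map σ x) = mapDomain (Y.map σ) (α O x)

/-- null-homotopic families -/
def Null (X Y : Obj k) : Submodule ℚ (Fam X Y) where
  carrier := {γ | ∃ H : ∀ O : AIC k, X.pt O → O → (Y.pt O →₀ ℚ),
    (∀ (O O' : AIC k) (σ : O →ₐ[k] O') (x : X.pt O) (t : O),
      H O' (X.map σ x) (σ t) = mapDomain (Y.map σ) (H O x t)) ∧
    ∀ O x, γ O x = H O x 0 - H O x 1}
  add_mem' := by
    rintro a b ⟨H, h1, h2⟩ ⟨H', h1', h2'⟩
    refine ⟨H + H', fun O O' σ x t => ?_, fun O x => ?_⟩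
    · simp [h1, h1', mapDomain_add]
    · simp only [Pi.add_apply, h2, h2']
      abel
  zero_mem' := ⟨0, by simp, by simp⟩
  smul_mem' := by
    rintro c a ⟨H, h1, h2⟩
    refine ⟨c • H, fun O O' σ x t => ?_, fun O x => ?_⟩
    · simp [h1, mapDomain_smul]
    · simp only [Pi.smul_apply, h2, smul_sub]

/-- the natural families form a subspace -/
def NatS (X Y : Obj k) : Submodule ℚ (Fam X Y) where
  carrier := {α | IsNat α}
  add_mem' := by
    intro a b ha hb O O' σ x
    simp [ha O O' σ x, hb O O' σ x, mapDomain_add]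
  zero_mem' := by
    intro O O' σ x
    simp
  smul_mem' := by
    intro c a ha O O' σ x
    simp [ha O O' σ x, mapDomain_smul]

lemma mapDomain_sub' {A B : Type*} (g : A → B) (u v : A →₀ ℚ) :
    mapDomain g (u - v) = mapDomain g u - mapDomain g v := map_sub (lmapDomain ℚ ℚ g) u v

lemma mapDomain_sum' {A B ι : Type*} (g : A → B) (s : Finset ι) (u : ι → A →₀ ℚ) :
    mapDomain g (∑ i ∈ s, u i) = ∑ i ∈ s, mapDomain g (u i) := map_sum (lmapDomain ℚ ℚ g) u s

lemma null_le_nat (X Y : Obj k) : Null X Y ≤ NatS X Y := by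
  rintro γ ⟨H, h1, h2⟩ O O' σ x
  rw [h2, h2, mapDomain_sub', ← h1, ← h1, map_zero, map_one]

/-- composition -/
noncomputable def comp {X Y Z : Obj k} : Fam Y Z →ₗ[ℚ] Fam X Y →ₗ[ℚ] Fam X Z :=
  LinearMap.mk₂ ℚ (fun β α O x => lc (β O) (α O x))
    (fun β β' α => by funext O x; exact lc_add _ _ _)
    (fun c β α => by funext O x; exact lc_smul _ _ _)
    (fun β α α' => by funext O x; exact map_add _ _ _)
    (fun c β α => by funext O x; exact map_smul (lc (β O)) c (α O x))

lemma comp_apply {X Y Z : Obj k} (β : Fam Y Z) (α : Fam X Y) (O : AIC k) (x : X.pt O) :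
    comp β α O x = lc (β O) (α O x) := rfl

lemma IsNat.comp {X Y Z : Obj k} {β : Fam Y Z} {α : Fam X Y} (hβ : IsNat β) (hα : IsNat α) :
    IsNat (comp β α) := by
  intro O O' σ x
  rw [comp_apply, comp_apply, hα, lc_mapDomain, mapDomain_lc]
  congr 2
  funext y
  exact hβ O O' σ y

lemma null_op {X Y X' Y' : Obj k} (a : ∀ O, X'.pt O → X.pt O)
    (ha : ∀ (O O' : AIC k) (σ : O →ₐ[k] O') x, a O' (X'.map σ x) = X.map σ (a O x))
    (L : ∀ O, X'.pt O → (Y.pt O →₀ ℚ) →ₗ[ℚ] (Y'.pt O →₀ ℚ))
    (hL : ∀ (O O' : AIC k) (σ : O →ₐ[k] O') x u,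
      L O' (X'.map σ x) (mapDomain (Y.map σ) u) = mapDomain (Y'.map σ) (L O x u))
    {ν : Fam X Y} (hν : ν ∈ Null X Y) :
    (fun O x => L O x (ν O (a O x))) ∈ Null X' Y' := by
  obtain ⟨H, h1, h2⟩ := hν
  refine ⟨fun O x t => L O x (H O (a O x) t), fun O O' σ x t => ?_, fun O x => ?_⟩
  · simp only [ha, h1, hL]
  · simp only [h2, map_sub]

lemma null_comp {X Y Z : Obj k} {ν : Fam Y Z} {α : Fam X Y} (hν : ν ∈ Null Y Z) (hα : IsNat α) :
    comp ν α ∈ Null X Z := by
  obtain ⟨H, h1, h2⟩ := hν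
  refine ⟨fun O x t => lc (fun y => H O y t) (α O x), fun O O' σ x t => ?_, fun O x => ?_⟩
  · simp only
    rw [hα, lc_mapDomain, mapDomain_lc]
    simp only [h1]
  · rw [comp_apply, ← lc_sub]
    congr 2
    funext y
    exact h2 O y

lemma comp_null {X Y Z : Obj k} {β : Fam Y Z} {ν : Fam X Y} (hβ : IsNat β) (hν : ν ∈ Null X Y) :
    comp β ν ∈ Null X Z := by
  refine null_op (fun O x => x) (fun _ _ _ _ => rfl) (fun O _ => lc (β O)) ?_ hν
  intro O O' σ x u
  rw [lc_mapDomain, mapDomain_lc]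
  congr 2
  funext y
  exact hβ O O' σ y

/-- powers -/
abbrev Obj.pow (X : Obj k) (n : ℕ) : Obj k where
  pt O := Fin n → X.pt O
  map σ x := fun i => X.map σ (x i)

/-- products -/
abbrev Obj.prod (X Y : Obj k) : Obj k where
  pt O := X.pt O × Y.pt O
  map σ x := (X.map σ x.1, Y.map σ x.2)

/-- permutation of the factors -/
noncomputable def perm (X : Obj k) {n : ℕ} (σ : Perm (Fin n)) : Fam (X.pow n) (X.pow n) :=
  fun _ x => single (fun i => x (σ i)) 1

lemma perm_nat (X : Obj k) {n : ℕ} (σ : Perm (Fin n)) : IsNat (perm X σ) := by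
  intro O O' τ x
  simp only [perm, mapDomain_single]

/-- exponential growth of the image of the group algebra modulo homotopy -/
def Grow (X : Obj k) : Prop :=
  ∃ C : ℕ, ∀ n : ℕ, ∃ s : Finset (Fam (X.pow n) (X.pow n)), s.card ≤ C ^ n ∧
    ∀ σ, perm X σ ∈ Submodule.span ℚ (s : Set (Fam (X.pow n) (X.pow n))) ⊔ Null _ _

lemma map_mem_sup {V W : Type*} [AddCommGroup V] [Module ℚ V] [AddCommGroup W] [Module ℚ W]
    (L : V →ₗ[ℚ] W) {s : Set V} {t : Set W} {N : Submodule ℚ V} {N' : Submodule ℚ W}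
    (hs : ∀ v ∈ s, L v ∈ t) (hN : ∀ v ∈ N, L v ∈ N') {v : V}
    (hv : v ∈ Submodule.span ℚ s ⊔ N) : L v ∈ Submodule.span ℚ t ⊔ N' := by
  have : Submodule.span ℚ s ⊔ N ≤ (Submodule.span ℚ t ⊔ N').comap L := by
    refine sup_le (Submodule.span_le.2 fun v hv => ?_) fun v hv => ?_
    · exact Submodule.mem_sup_left (Submodule.subset_span (hs v hv))
    · exact Submodule.mem_sup_right (hN v hv)
  exact this hv

/-- exterior product of two families on powers -/
noncomputable def box {X Y : Obj k} {n : ℕ} : Fam (X.pow n) (X.pow n) →ₗ[ℚ]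
    Fam (Y.pow n) (Y.pow n) →ₗ[ℚ] Fam ((X.prod Y).pow n) ((X.prod Y).pow n) :=
  LinearMap.mk₂ ℚ (fun v w O z => bil (fun (a : Fin n → X.pt O) (b : Fin n → Y.pt O) =>
      (fun i => (a i, b i) : Fin n → X.pt O × Y.pt O))
      (v O fun i => (z i).1) (w O fun i => (z i).2))
    (fun _ _ _ => by funext O x; simp)
    (fun _ _ _ => by funext O x; simp)
    (fun _ _ _ => by funext O x; simp)
    (fun _ _ _ => by funext O x; simp)

theorem Grow.prod {X Y : Obj k} (hX : Grow X) (hY : Grow Y) : Grow (X.prod Y) := by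
  classical
  obtain ⟨C, hC⟩ := hX
  obtain ⟨D, hD⟩ := hY
  refine ⟨C * D, fun n => ?_⟩
  obtain ⟨s, hs, hs'⟩ := hC n
  obtain ⟨t, ht, ht'⟩ := hD n
  refine ⟨Finset.image₂ (fun v w => box v w) s t, ?_, fun σ => ?_⟩
  · exact (Finset.card_image₂_le _ _ _).trans (by rw [mul_pow]; exact Nat.mul_le_mul hs ht)
  obtain ⟨v, hv, ν, hν, h1⟩ := Submodule.mem_sup.1 (hs' σ)
  obtain ⟨w, hw, ν', hν', h2⟩ := Submodule.mem_sup.1 (ht' σ)
  have hvn : IsNat v := by
    have : v = perm X σ - ν := by rw [← h1]; simp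
    rw [this]
    exact (NatS _ _).sub_mem (perm_nat X σ) (null_le_nat _ _ hν)
  have h3 : perm (X.prod Y) σ = box (perm X σ) (perm Y σ) := by
    funext O z
    simp only [box, perm, LinearMap.mk₂_apply]
    rw [bil_single, mapDomain_single]
  have h4 : box (perm X σ) (perm Y σ) = box v w + (box v ν' + box ν (perm Y σ)) := by
    conv_lhs => rw [← h1, map_add, LinearMap.add_apply]
    rw [← add_assoc, ← map_add, h2]
  rw [h3, h4]
  refine Submodule.add_mem_sup ?_ (Submodule.add_mem _ ?_ ?_)
  · rw [Finset.coe_image₂, ← Submodule.map₂_span_span]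
    exact Submodule.apply_mem_map₂ _ hv hw
  · refine null_op (X' := (X.prod Y).pow n) (Y' := (X.prod Y).pow n) (fun O z i => (z i).2) (fun _ _ _ _ => rfl)
      (fun O z => bil (fun (a : Fin n → X.pt O) (b : Fin n → Y.pt O) =>
        (fun i => (a i, b i) : Fin n → X.pt O × Y.pt O)) (v O fun i => (z i).1)) ?_ hν'
    intro O O' τ z u
    have := hvn O O' τ (fun i => (z i).1)
    refine Eq.trans ?_ (mapDomain_bil _ (fun (a : Fin n → X.pt O') (b : Fin n → Y.pt O') =>
        (fun i => (a i, b i) : Fin n → X.pt O' × Y.pt O')) ((X.pow n).map τ) ((Y.pow n).map τ)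
        _ (fun _ _ => rfl) _ _)
    rw [← this]
  · refine null_op (X' := (X.prod Y).pow n) (Y' := (X.prod Y).pow n) (fun O z i => (z i).1) (fun _ _ _ _ => rfl)
      (fun O z => (bil (fun (a : Fin n → X.pt O) (b : Fin n → Y.pt O) =>
        (fun i => (a i, b i) : Fin n → X.pt O × Y.pt O))).flip
          (perm Y σ O fun i => (z i).2)) ?_ hν
    intro O O' τ z u
    have := perm_nat Y σ O O' τ (fun i => (z i).2)
    refine Eq.trans ?_ (mapDomain_bil _ (fun (a : Fin n → X.pt O') (b : Fin n → Y.pt O') =>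
        (fun i => (a i, b i) : Fin n → X.pt O' × Y.pt O')) ((X.pow n).map τ) ((Y.pow n).map τ)
        _ (fun _ _ => rfl) _ _)
    rw [← this]
    rfl

/-- exterior product of `n` families -/
noncomputable def piF {X Y : Obj k} {n : ℕ} (α : Fin n → Fam X Y) : Fam (X.pow n) (Y.pow n) :=
  fun O x => piM fun i => α i O (x i)

lemma piF_nat {X Y : Obj k} {n : ℕ} {α : Fin n → Fam X Y} (h : ∀ i, IsNat (α i)) :
    IsNat (piF α) := by
  intro O O' σ x
  refine Eq.trans ?_ (mapDomain_piM (Y.map σ) _).symm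
  simp only [piF]
  congr 1
  funext i
  exact h i O O' σ (x i)

theorem Grow.retract {X Z : Obj k} {I : Type*} [Fintype I] (a : I → Fam X Z) (b : I → Fam Z X)
    (ha : ∀ i, IsNat (a i)) (hb : ∀ i, IsNat (b i))
    (h : ∀ O x, ∑ i, lc (b i O) (a i O x) = single x 1) (hZ : Grow Z) : Grow X := by
  classical
  obtain ⟨C, hC⟩ := hZ
  refine ⟨Fintype.card I * Fintype.card I * C, fun n => ?_⟩
  obtain ⟨s, hs, hs'⟩ := hC n
  let L : (Fin n → I) × (Fin n → I) → Fam (Z.pow n) (Z.pow n) →ₗ[ℚ] Fam (X.pow n) (X.pow n) :=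
    fun p => (comp (piF fun i => b (p.1 i))) ∘ₗ (comp.flip (piF fun i => a (p.2 i)))
  refine ⟨Finset.image₂ (fun p v => L p v) Finset.univ s, ?_, fun σ => ?_⟩
  · refine (Finset.card_image₂_le _ _ _).trans ?_
    rw [mul_pow, mul_pow]
    refine Nat.mul_le_mul (le_of_eq ?_) hs
    simp
  have key : perm X σ = ∑ φ : Fin n → I, L (φ, fun j => φ (σ.symm j)) (perm Z σ) := by
    funext O x
    simp only [Finset.sum_apply, L, LinearMap.comp_apply, LinearMap.flip_apply, comp_apply]
    have h1 : ∀ φ : Fin n → I, lc (perm Z σ O) (piF (fun j => a (φ (σ.symm j))) O x) =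
        piM fun i => a (φ i) O (x (σ i)) := by
      intro φ
      refine (lc_single_comp (fun (z : Fin n → Z.pt O) i => z (σ i)) _).trans ?_
      refine (mapDomain_piM_perm σ _).trans ?_
      simp
    simp only [h1]
    have h2 : ∀ φ : Fin n → I, lc (piF (fun i => b (φ i)) O) (piM fun i => a (φ i) O (x (σ i))) =
        piM fun i => lc (b (φ i) O) (a (φ i) O (x (σ i))) := fun φ => lc_piM _ _
    simp only [h2]
    rw [← MultilinearMap.map_sum piM (fun i j => lc (b j O) (a j O (x (σ i))))]
    simp only [h]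
    exact (piM_single _).symm
  rw [key]
  refine Submodule.sum_mem _ fun φ _ => map_mem_sup _ ?_ ?_ (hs' σ)
  · intro v hv
    rw [Finset.coe_image₂]
    exact Set.mem_image2_of_mem (by simp) hv
  · intro v hv
    exact comp_null (piF_nat fun i => hb _) (null_comp hv (piF_nat fun i => ha _))

theorem Grow.of_map {X Z : Obj k} (a : Fam X Z) (ha : IsNat a) (b : ∀ O, Z.pt O → X.pt O)
    (hb : ∀ (O O' : AIC k) (σ : O →ₐ[k] O') z, b O' (Z.map σ z) = X.map σ (b O z))
    (d : ℚ) (hd : d ≠ 0) (h : ∀ O x, mapDomain (b O) (a O x) = single x d) (hZ : Grow Z) :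
    Grow X := by
  refine Grow.retract (I := Unit) (fun _ => a) (fun _ O z => single (b O z) d⁻¹) (fun _ => ha)
    (fun _ O O' σ z => ?_) (fun O x => ?_) hZ
  · simp [hb]
  · simp only [Finset.univ_unique, Finset.sum_singleton]
    have : (fun z => single (b O z) d⁻¹) = fun z => d⁻¹ • single (b O z) (1 : ℚ) := by
      funext z
      simp
    rw [this, lc_smul, lc_single_comp, h]
    simp [hd]

theorem Grow.of_inj {X Z : Obj k} (a : ∀ O, X.pt O → Z.pt O) (b : ∀ O, Z.pt O → X.pt O)
    (ha : ∀ (O O' : AIC k) (σ : O →ₐ[k] O') z, a O' (X.map σ z) = Z.map σ (a O z))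
    (hb : ∀ (O O' : AIC k) (σ : O →ₐ[k] O') z, b O' (Z.map σ z) = X.map σ (b O z))
    (h : ∀ O x, b O (a O x) = x) (hZ : Grow Z) : Grow X :=
  Grow.of_map (fun O x => single (a O x) 1) (fun O O' σ x => by simp [ha]) b hb 1 one_ne_zero
    (fun O x => by simp [h]) hZ

theorem grow_of_finite (X : Obj k) (s : ℕ)
    (h : ∀ O (f : Fin s → X.pt O), ¬ Function.Injective f) : Grow X := by
  classical
  refine ⟨s ^ 2, fun n => ⟨(Finset.univ.filter fun σ : Perm (Fin n) => Good s σ).image
    (perm X), Finset.card_image_le.trans (card_good s n), fun σ => ?_⟩⟩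
  have : ((Finset.image (perm X) (Finset.univ.filter fun σ : Perm (Fin n) => Good s σ) :
      Finset _) : Set (Fam (X.pow n) (X.pow n))) = perm X '' {τ | Good s τ} := by
    simp
  rw [this]
  refine straighten _ _ (fun σ hσ => ?_) σ
  simp only [Good, not_forall, not_lt] at hσ
  obtain ⟨t, ht, hc⟩ := hσ
  obtain ⟨T, h1, h2, -⟩ := exists_emb σ t ht hc
  refine lower_of_rel _ _ σ T h1 h2 (fun τ => ((Perm.sign τ : ℤ) : ℚ)) (by simp) ?_
  suffices H : ∑ τ : Perm (Fin s), ((Perm.sign τ : ℤ) : ℚ) •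
      perm X (σ * τ.viaEmbedding T) = 0 by
    rw [H]
    exact Submodule.zero_mem _
  funext O x
  obtain ⟨a, b, hab, hne⟩ := Function.not_injective_iff.1 (h O fun a => x (σ (T a)))
  have h3 : ∀ τ : Perm (Fin s), perm X (σ * (swap a b * τ).viaEmbedding T) O x =
      perm X (σ * τ.viaEmbedding T) O x := by
    intro τ
    simp only [perm]
    congr 1
    funext i
    by_cases hi : i ∈ Set.range T
    · obtain ⟨c, rfl⟩ := hi
      simp only [Perm.mul_apply, Perm.viaEmbedding_apply]
      rcases eq_or_ne (τ c) a with h4 | h4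
      · rw [h4, swap_apply_left, hab]
      rcases eq_or_ne (τ c) b with h5 | h5
      · rw [h5, swap_apply_right, hab]
      rw [swap_apply_of_ne_of_ne h4 h5]
    · simp only [Perm.mul_apply, Perm.viaEmbedding_apply_of_notMem _ _ _ hi]
  simp only [Finset.sum_apply, Pi.smul_apply, Pi.zero_apply]
  have h4 := Equiv.sum_comp (Equiv.mulLeft (swap a b)) (fun τ : Perm (Fin s) =>
    ((Perm.sign τ : ℤ) : ℚ) • perm X (σ * τ.viaEmbedding T) O x)
  simp only [coe_mulLeft, h3, Perm.sign_mul, Perm.sign_swap hne, Units.val_neg,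
    neg_mul, one_mul, Int.cast_neg, neg_smul, Finset.sum_neg_distrib] at h4
  have h5 : (2 : ℚ) • ∑ τ : Perm (Fin s), ((Perm.sign τ : ℤ) : ℚ) •
      perm X (σ * τ.viaEmbedding T) O x = 0 := by
    rw [two_smul]
    nth_rewrite 1 [← h4]
    simp
  simpa using h5

theorem Grow.pow {X : Obj k} (hX : Grow X) (r : ℕ) : Grow (X.pow r) := by
  induction r with
  | zero =>
    refine grow_of_finite _ 2 fun O f hf => ?_
    have : f 0 = f 1 := funext fun i => i.elim0
    exact absurd (hf this) (by decide)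
  | succ r ih =>
    refine Grow.of_inj (Z := X.prod (X.pow r)) (fun O x => (x 0, fun i => x i.succ))
      (fun O z => (Fin.cons z.1 z.2 : Fin (r + 1) → X.pt O)) (fun _ _ _ _ => rfl) ?_ ?_
      (hX.prod ih)
    · intro O O' σ z
      funext i
      refine Fin.cases ?_ (fun j => ?_) i <;> rfl
    · intro O x
      exact Fin.cons_self_tail x

theorem Grow.exists_block {X : Obj k} (hX : Grow X) :
    ∃ m : ℕ, 1 ≤ m ∧ ∃ e : MonoidAlgebra ℚ (Perm (Fin m)), IsBlock e ∧
      lc (perm X) e.coeff ∈ Null (X.pow m) (X.pow m) := by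
  obtain ⟨C, hC⟩ := hX
  obtain ⟨m, hm, hlt⟩ := exists_pow_lt_factorial C
  obtain ⟨s, hs, hs'⟩ := hC m
  refine ⟨m, hm, ?_⟩
  let Φ : MonoidAlgebra ℚ (Perm (Fin m)) →ₗ[ℚ] Fam (X.pow m) (X.pow m) :=
    lc (perm X) ∘ₗ (MonoidAlgebra.coeffLinearEquiv ℚ).toLinearMap
  have hΦ : ∀ σ c, Φ (MonoidAlgebra.single σ c) = c • perm X σ := by
    intro σ c
    simp [Φ]
  have hnat : ∀ x, IsNat (Φ x) := by
    intro x
    change Φ x ∈ NatS _ _
    induction x using MonoidAlgebra.induction_linear with
    | zero => simp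
    | add x y hx hy => rw [map_add]; exact Submodule.add_mem _ hx hy
    | single σ c => rw [hΦ]; exact Submodule.smul_mem _ _ (perm_nat X σ)
  have hmul : ∀ x y, Φ (x * y) = comp (Φ y) (Φ x) := by
    intro x y
    induction x using MonoidAlgebra.induction_linear with
    | zero => simp
    | add x x' hx hx' => rw [add_mul, map_add, map_add, map_add, hx, hx']
    | single σ c =>
      induction y using MonoidAlgebra.induction_linear with
      | zero => simp
      | add y y' hy hy' => rw [mul_add, map_add, map_add, map_add, hy, hy', LinearMap.add_apply]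
      | single τ d =>
        rw [MonoidAlgebra.single_mul_single, hΦ, hΦ, hΦ, map_smul, map_smul, LinearMap.smul_apply,
          smul_smul]
        congr 1
        funext O x
        simp [comp_apply, perm]
  let I : Ideal (MonoidAlgebra ℚ (Perm (Fin m))) :=
    { carrier := {x | Φ x ∈ Null _ _}
      add_mem' := fun hx hy => by
        simp only [Set.mem_ofPred_eq, map_add]
        exact Submodule.add_mem _ hx hy
      zero_mem' := by simp
      smul_mem' := fun c x hx => by
        simp only [Set.mem_ofPred_eq, smul_eq_mul, hmul]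
        exact null_comp hx (hnat c) }
  have hI : I ≠ ⊥ := by
    intro hI
    let Ψ := (Null (X.pow m) (X.pow m)).mkQ ∘ₗ Φ
    have hinj : Function.Injective Ψ := by
      rw [← LinearMap.ker_eq_bot, eq_bot_iff]
      intro x hx
      have : x ∈ I := by
        change Φ x ∈ Null _ _
        simpa [Ψ] using hx
      rw [hI] at this
      exact this
    classical
    let W := Submodule.span ℚ ((s.image (Null (X.pow m) (X.pow m)).mkQ : Finset _) :
      Set (Fam (X.pow m) (X.pow m) ⧸ Null (X.pow m) (X.pow m)))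
    have hW : ∀ x, Ψ x ∈ W := by
      intro x
      induction x using MonoidAlgebra.induction_linear with
      | zero => simp
      | add x y hx hy => rw [map_add]; exact Submodule.add_mem _ hx hy
      | single σ c =>
        simp only [Ψ, LinearMap.comp_apply, hΦ, map_smul]
        refine Submodule.smul_mem _ _ ?_
        have := map_mem_sup (Null (X.pow m) (X.pow m)).mkQ (N' := ⊥)
          (t := ((s.image (Null (X.pow m) (X.pow m)).mkQ : Finset _) : Set _))
          (fun v hv => by simp only [Finset.coe_image]; exact ⟨v, hv, rfl⟩)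
          (fun v hv => by simpa using hv) (hs' σ)
        rwa [sup_bot_eq] at this
    have h1 := LinearMap.finrank_le_finrank_of_injective (f := Ψ.codRestrict W hW)
      (fun x y h => hinj (congrArg Subtype.val h))
    have h2 : Module.finrank ℚ W ≤ C ^ m :=
      (finrank_span_finset_le_card _).trans (Finset.card_image_le.trans hs)
    have h3 : Module.finrank ℚ (MonoidAlgebra ℚ (Perm (Fin m))) = m.factorial := by
      rw [(MonoidAlgebra.coeffLinearEquiv ℚ).finrank_eq]
      simp [Fintype.card_perm]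
    omega
  obtain ⟨e, he, hb⟩ := exists_isBlock I (fun x hx y => by
    change Φ (x * y) ∈ Null _ _
    rw [hmul]
    exact comp_null (hnat y) hx) hI
  exact ⟨e, hb, he⟩

end Pool.Agent.Lib.MP_fc2ced_ag.Naive
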