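import Pool.Agent.Lib.MP_fc2ced_ag.NCyc

/-!
Growth from a moving lemma for symmetric powers; sums over the orderings of a multiset.
-/

namespace Pool.Agent.Lib.MP_fc2ced_ag.Naive

universe u

open Equiv Finsupp

section Ord

variable {α β : Type*} {m : ℕ}

lemma exists_perm_of_map_eq {v w : Fin m → α}
    (h : Finset.univ.val.map v = Finset.univ.val.map w) : ∃ σ : Perm (Fin m), ∀ i, v (σ i) = w i := by
  classical
  have : ∀ a, Fintype.card {i // w i = a} = Fintype.card {i // v i = a} := by
    intro a
    have := congrArg (Multiset.count a) h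
    rw [Multiset.count_map, Multiset.count_map] at this
    rw [Fintype.card_subtype, Fintype.card_subtype]
    simp only [eq_comm (b := a)]
    exact this.symm
  exact ⟨Equiv.ofFiberEquiv fun a => Fintype.equivOfCardEq (this a),
    fun i => Equiv.ofFiberEquiv_map _ i⟩

/-- symmetrization of a tuple -/
noncomputable def symz (v : Fin m → α) : (Fin m → α) →₀ ℚ :=
  ∑ σ : Perm (Fin m), single (fun i => v (σ i)) 1

lemma symz_congr {v w : Fin m → α} (h : Finset.univ.val.map v = Finset.univ.val.map w) :
    symz v = symz w := by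
  obtain ⟨τ, hτ⟩ := exists_perm_of_map_eq h
  rw [symz, symz, ← Equiv.sum_comp (Equiv.mulLeft τ)]
  simp [hτ]

lemma exists_enum (D : Multiset α) (h : D.card = m) :
    ∃ v : Fin m → α, Finset.univ.val.map v = D := by
  subst h
  induction D using Quotient.inductionOn with
  | _ l => exact ⟨l.get, (Fin.univ_val_map l.get).trans (by simp)⟩

open Classical in
/-- the sum over all orderings of a multiset -/
noncomputable def ord (m : ℕ) (D : Multiset α) : (Fin m → α) →₀ ℚ :=
  if h : D.card = m then symz (exists_enum D h).choose else 0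

lemma ord_eq (v : Fin m → α) : ord m (Finset.univ.val.map v) = symz v := by
  have h : (Finset.univ.val.map v).card = m := by simp
  rw [ord, dif_pos h]
  exact symz_congr (exists_enum _ h).choose_spec

lemma ord_map (g : α → β) (D : Multiset α) (h : D.card = m) :
    ord m (D.map g) = mapDomain (fun v i => g (v i)) (ord m D) := by
  obtain ⟨v, rfl⟩ := exists_enum D h
  rw [Multiset.map_map, ord_eq, ord_eq, symz, symz, mapDomain_sum']
  simp

end Ord

variable {k : Type u} [Field k]

/-- the components of a tuple with respect to a base point -/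
noncomputable def W {α : Type*} {n : ℕ} (I : Finset (Fin n)) (b : α) (y : Fin n → α) :
    (Fin n → α) →₀ ℚ :=
  piM (I.piecewise (fun _ => single b (1 : ℚ)) fun i => single (y i) 1 - single b 1)

lemma W_map {α β : Type*} {n : ℕ} (I : Finset (Fin n)) (b : α) (y : Fin n → α) (g : α → β) :
    W I (g b) (fun i => g (y i)) = mapDomain (fun v i => g (v i)) (W I b y) := by
  rw [W, W, mapDomain_piM]
  congr 1
  funext i
  by_cases h : i ∈ I <;> simp [h, mapDomain_sub']

lemma W_congr {α : Type*} {n : ℕ} (I : Finset (Fin n)) (b : α) {y y' : Fin n → α}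
    (h : ∀ i ∉ I, y i = y' i) : W I b y = W I b y' := by
  rw [W, W]
  congr 1
  funext i
  by_cases hi : i ∈ I <;> simp [hi, h]

lemma W_zero {α : Type*} {n : ℕ} (I : Finset (Fin n)) (b : α) {y : Fin n → α} {i : Fin n}
    (hi : i ∉ I) (h : y i = b) : W I b y = 0 :=
  MultilinearMap.map_coord_zero _ i (by simp [hi, h])

lemma sum_W {α : Type*} {n : ℕ} (b : α) (y : Fin n → α) : ∑ I, W I b y = single y 1 := by
  simp only [W]
  rw [← MultilinearMap.map_add_univ, ← piM_single]
  congr 1
  funext i
  simp

theorem grow_of_sym (X : Obj k) (M : ℕ) (ν : Fam (X.pow (M + 1)) (X.pow M)) (hν : ν ∈ Null _ _)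
    (h : ∀ O x, ∃ y : Fin M → X.pt O, (∃ a, y a = x 0) ∧
      ν O x = symz (fun i => x i.succ) - symz y) : Grow X := by
  classical
  refine ⟨2 * (M + 1) ^ 2, fun n => ?_⟩
  rcases n with _ | n
  · refine ⟨{perm X 1}, by simp, fun σ => ?_⟩
    rw [Subsingleton.elim σ 1]
    exact Submodule.mem_sup_left (Submodule.subset_span (by simp))
  let v : Finset (Fin (n + 1)) → Perm (Fin (n + 1)) → Fam (X.pow (n + 1)) (X.pow (n + 1)) :=
    fun I σ O x => W I (x 0) fun i => x (σ i)
  refine ⟨Finset.image₂ v Finset.univ (Finset.univ.filter fun σ => Good (M + 1) σ), ?_,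
    fun σ => ?_⟩
  · refine (Finset.card_image₂_le _ _ _).trans ?_
    rw [mul_pow]
    exact Nat.mul_le_mul (by simp) (card_good _ _)
  have h1 : perm X σ = ∑ I, v I σ := by
    funext O x
    simp only [Finset.sum_apply, v, sum_W, perm]
  rw [h1]
  refine Submodule.sum_mem _ fun I _ => ?_
  refine (sup_le_sup_right (Submodule.span_mono ?_) _ :
    Submodule.span ℚ (v I '' {τ | Good (M + 1) τ}) ⊔ _ ≤ _) (straighten _ _ (fun σ hσ => ?_) σ)
  · rintro _ ⟨τ, hτ, rfl⟩
    rw [Finset.coe_image₂]
    exact Set.mem_image2_of_mem (by simp) (by simpa using hτ)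
  simp only [Good, not_forall, not_lt] at hσ
  obtain ⟨t, ht, hc⟩ := hσ
  have h2 := Finset.card_filter_add_card_filter_not (s := t) (· ∈ I)
  by_cases h3 : 2 ≤ (t.filter (· ∈ I)).card
  · obtain ⟨T, h4, h5, h6⟩ := exists_emb σ _
      (ht.mono (Finset.coe_subset.2 (Finset.filter_subset _ _))) h3
    refine Submodule.mem_sup_left (Submodule.subset_span
      ⟨_, lexLt_mul σ T h4 h5 (swap 0 1) (by decide), ?_⟩)
    funext O x
    refine W_congr _ _ fun i hi => ?_
    rw [Perm.mul_apply, Perm.viaEmbedding_apply_of_notMem]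
    rintro ⟨a, rfl⟩
    exact hi (Finset.mem_filter.1 (h6 a)).2
  obtain ⟨T, h4, h5, h6⟩ := exists_emb (m := M) σ (t.filter (· ∉ I))
    (ht.mono (Finset.coe_subset.2 (Finset.filter_subset _ _))) (by omega)
  refine lower_of_rel _ _ σ T h4 h5 (fun _ => 1) rfl ?_
  have h7 := null_op (X' := X.pow (n + 1)) (Y' := X.pow (n + 1))
    (fun O x => (Fin.cons (x 0) fun a => x (σ (T a)) : Fin (M + 1) → X.pt O))
    (fun O O' s x => by
      funext i
      refine Fin.cases ?_ (fun j => ?_) i <;> rfl)
    (fun O x => lc fun z => W I (x 0) (Function.extend T z fun i => x (σ i)))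
    (fun O O' s x w => by
      rw [lc_mapDomain, mapDomain_lc]
      congr 2
      funext z
      refine Eq.trans ?_ (W_map I _ _ (X.map s))
      congr 1
      funext i
      exact (Function.apply_extend (X.map s) T _ i).symm) hν
  convert h7 using 1
  funext O x
  obtain ⟨y, ⟨a, ha⟩, h8⟩ := h O (Fin.cons (x 0) fun a => x (σ (T a)) : Fin (M + 1) → X.pt O)
  simp only [h8, map_sub, symz, map_sum, lc_single, Finset.sum_apply, one_smul, Fin.cons_succ]
  rw [Finset.sum_eq_zero (s := Finset.univ) (f := fun τ : Perm (Fin M) =>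
    W I (x 0) (Function.extend T (fun i => y (τ i)) fun i => x (σ i))), sub_zero]
  · refine Finset.sum_congr rfl fun τ _ => W_congr _ _ fun i _ => ?_
    by_cases hi : i ∈ Set.range T
    · obtain ⟨c, rfl⟩ := hi
      rw [T.injective.extend_apply, Perm.mul_apply, Perm.viaEmbedding_apply]
    · rw [Function.extend_apply' _ _ _ hi, Perm.mul_apply,
        Perm.viaEmbedding_apply_of_notMem _ _ _ hi]
  · intro τ _
    refine W_zero _ _ (Finset.mem_filter.1 (h6 (τ.symm a))).2 ?_
    rw [T.injective.extend_apply]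
    simpa using ha

end Pool.Agent.Lib.MP_fc2ced_ag.Naive
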