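import Pool.Agent.Lib.MP_fc2ced_ag.NAS
import Pool.Agent.Lib.MP_fc2ced_ag.NSym

/-!
Open Artin-Schreier curves have exponential growth.
-/

namespace Pool.Agent.Lib.MP_fc2ced_ag.Naive

universe u

open Module Polynomial
open scoped TensorProduct

variable {k : Type u} [Field k] (D : ASData k) (g₀ : k[X])

/-- points of the open curve -/
abbrev ASData.Pt (S : Type u) [CommRing S] [Algebra k S] : Type u :=
  {p : S × S // p.2 ^ D.q - p.2 = aeval p.1 D.f ∧ IsUnit (aeval p.1 g₀)}

variable {D g₀} in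
/-- functoriality -/
def ASData.Pt.map {S S' : Type u} [CommRing S] [Algebra k S] [CommRing S'] [Algebra k S']
    (σ : S →ₐ[k] S') (p : D.Pt g₀ S) : D.Pt g₀ S' :=
  ⟨(σ p.1.1, σ p.1.2), by
    rw [aeval_algHom_apply, aeval_algHom_apply, ← p.2.1, map_sub, map_pow]
    exact ⟨rfl, p.2.2.map σ⟩⟩

/-- the open curve -/
abbrev ASData.curve : Obj k where
  pt O := D.Pt g₀ O
  map σ := ASData.Pt.map σ

section

variable {D} {R A : Type u} [CommRing R] [CommRing A] [Algebra k R] [Algebra k A]
  [Algebra R A] [IsScalarTower k R A] (M : Model D R A)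

lemma Model.aeval_mem (g : k[X]) : aeval M.U g ∈ M.L (D.q * g.natDegree + 1) := by
  have h0 := D.one_lt
  rw [aeval_eq_sum_range]
  refine Submodule.sum_mem _ fun l hl => ?_
  rw [← algebraMap_smul R]
  refine Submodule.smul_mem _ _ ?_
  have := M.bas_mem (p := (l, ⟨0, by omega⟩)) (d := D.q * g.natDegree + 1) (by
    have := Nat.mul_le_mul_left D.q (Nat.lt_succ_iff.1 (Finset.mem_range.1 hl))
    simp only [ASData.wt]
    omega)
  simpa [M.bas_eq] using this

omit [Algebra k R] [IsScalarTower k R A] in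
lemma Model.aeval_inj {p : R[X]} (h : aeval M.U p = 0) : p = 0 := by
  have h0 := D.one_lt
  have h3 := M.bas.linearIndependent.comp
    (fun l : Fin (p.natDegree + 1) => (((l : ℕ), ⟨0, by omega⟩) : ℕ × Fin D.q))
    (fun l l' h => Fin.ext (congrArg Prod.fst h))
  have h4 := Fintype.linearIndependent_iff.1 h3 (fun l => p.coeff l) (by
    rw [aeval_eq_sum_range, Finset.sum_range] at h
    simpa [M.bas_eq] using h)
  ext l
  by_cases hl : l < p.natDegree + 1
  · exact h4 ⟨l, hl⟩
  · exact coeff_eq_zero_of_natDegree_lt (by omega)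

end

lemma ASData.exists_univ (hg : g₀ ≠ 0) (n : ℕ) :
    ∃ (R : Type u) (_ : CommRing R) (_ : IsDomain R) (_ : Algebra k R) (τ : R)
      (P : Fin n → D.Pt g₀ R), Function.Injective (fun i => (P i).1.1) ∧
      ∀ (S : Type u) [CommRing S] [Algebra k S] (t : S) (x : Fin n → D.Pt g₀ S),
        ∃! φ : R →ₐ[k] S, φ τ = t ∧ ∀ i, (P i).map φ = x i := by
  induction n with
  | zero =>
    refine ⟨k[X], inferInstance, inferInstance, inferInstance, X, Fin.elim0, fun i => i.elim0,
      fun S _ _ t x => ⟨aeval t, ⟨by simp, fun i => i.elim0⟩, fun φ h => ?_⟩⟩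
    ext
    simp [h.1]
  | succ n ih =>
    obtain ⟨R, _, _, _, τ, P, h1, h2⟩ := ih
    have := (D.model R).isDomain
    set w : R ⊗[k] D.A := aeval (D.model R).U g₀ with hw
    have hw0 : w ≠ 0 := fun h => by
      rw [hw, ← aeval_map_algebraMap R] at h
      exact (Polynomial.map_ne_zero_iff (algebraMap k R).injective).2 hg
        ((D.model R).aeval_inj h)
    have hle := powers_le_nonZeroDivisors_of_noZeroDivisors hw0
    let j := IsScalarTower.toAlgHom k (R ⊗[k] D.A) (Localization.Away w)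
    have hj : Function.Injective j := IsLocalization.injective _ hle
    let i₀ := IsScalarTower.toAlgHom k R (R ⊗[k] D.A)
    let P₀ : D.Pt g₀ (Localization.Away w) := ⟨(j (D.model R).U, j (D.model R).T), by
      rw [aeval_algHom_apply, aeval_algHom_apply, ← (D.model R).rel, map_sub, map_pow]
      exact ⟨rfl, IsLocalization.Away.algebraMap_isUnit w⟩⟩
    refine ⟨Localization.Away w, inferInstance, IsLocalization.isDomain_localization hle,
      inferInstance, j (i₀ τ), Fin.cons P₀ fun i => (P i).map (j.comp i₀), ?_, fun S _ _ t x => ?_⟩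
    · have h3 : ∀ r, (D.model R).U ≠ i₀ r := fun r h => by
        have := (D.model R).aeval_inj (p := X - C r) (by simp [h, i₀])
        exact X_sub_C_ne_zero r this
      have h4 : Function.Injective i₀ := fun r s h => by
        have := (D.model R).aeval_inj (p := C (r - s)) (by
          rw [aeval_C, map_sub]; exact sub_eq_zero.2 h)
        exact sub_eq_zero.1 (C_eq_zero.1 this)
      intro a b
      refine Fin.cases ?_ (fun a => ?_) a <;> refine Fin.cases ?_ (fun b => ?_) b <;> intro h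
      · rfl
      · exact absurd (hj h) (h3 _)
      · exact absurd (hj h).symm (h3 _)
      · exact congrArg _ (h1 (h4 (hj h)))
    · obtain ⟨φ, ⟨h3, h4⟩, h5⟩ := h2 S t fun i => x i.succ
      let ψ := D.ev φ _ _ (x 0).2.1
      have hψ : IsUnit (ψ w) := by
        rw [hw, ← aeval_algHom_apply, D.ev_U]
        exact (x 0).2.2
      let χ : Localization.Away w →ₐ[k] S := IsLocalization.liftAlgHom (M := Submonoid.powers w)
        (f := ψ) (by
          rintro ⟨_, m, rfl⟩
          rw [map_pow]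
          exact hψ.pow m)
      have hχ : ∀ z, χ (j z) = ψ z := fun z => IsLocalization.lift_eq _ z
      have hb : ∀ r, χ (j (i₀ r)) = φ r := fun r => (hχ _).trans (D.ev_base _ _ _ _ r)
      refine ⟨χ, ⟨(hb τ).trans h3, fun i => ?_⟩, fun χ' h => ?_⟩
      · refine Fin.cases ?_ (fun i => ?_) i
        · exact Subtype.ext (Prod.ext ((hχ _).trans (D.ev_U _ _ _ _))
            ((hχ _).trans (D.ev_T _ _ _ _)))
        · rw [← h4]
          exact Subtype.ext (Prod.ext (hb _) (hb _))
      · have h6 := h5 (χ'.comp (j.comp i₀)) ⟨h.1, fun i => h.2 i.succ⟩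
        have h7 := congrArg Subtype.val (h.2 0)
        refine AlgHom.coe_ringHom_injective (IsLocalization.ringHom_ext (Submonoid.powers w)
          (D.hom_ext (fun r => ?_) ?_ ?_))
        · exact (DFunLike.congr_fun h6 r).trans (hb r).symm
        · exact (congrArg Prod.fst h7).trans ((hχ _).trans (D.ev_U _ _ _ _)).symm
        · exact (congrArg Prod.snd h7).trans ((hχ _).trans (D.ev_T _ _ _ _)).symm

variable {D g₀} in
lemma ASData.exists_zeros {R : Type u} [CommRing R] [Algebra k R] {g : R ⊗[k] D.A} {n : ℕ}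
    {z : Fin D.q} (hz : (z : ℕ) = 0) (hg : (D.model R).Lead g 1 (n, z))
    (hu : ∀ (O : AIC k) (χ : R ⊗[k] D.A →ₐ[k] O), χ g = 0 → IsUnit (aeval (χ (D.model R).U) g₀)) :
    ∃ Z : ∀ O : AIC k, (R →ₐ[k] O) → Multiset (D.Pt g₀ O),
      (∀ (O O' : AIC k) (σ : O →ₐ[k] O') φ, Z O' (σ.comp φ) = (Z O φ).map (ASData.Pt.map σ)) ∧
      (∀ O φ, (Z O φ).card = n * D.q) ∧
      ∀ (O : AIC k) φ (y : D.Pt g₀ O), D.ev φ _ _ y.2.1 g = 0 → y ∈ Z O φ := by
  classical
  obtain ⟨b⟩ := Model.exists_basis_quot hz hg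
  let ρ₀ : R ⊗[k] D.A →ₐ[k] Matrix (Fin n × Fin D.q) (Fin n × Fin D.q) R :=
    ((Algebra.leftMulMatrix b).comp (Ideal.Quotient.mkₐ R (Ideal.span {g}))).restrictScalars k
  let ρ : ∀ O : AIC k, (R →ₐ[k] O) →
      (R ⊗[k] D.A →ₐ[k] Matrix (Fin n × Fin D.q) (Fin n × Fin D.q) O) :=
    fun O φ => φ.mapMatrix.comp ρ₀
  have h1 : ∀ (O : AIC k) φ, ∃ Z : Multiset (D.Pt g₀ O), Z.map Subtype.val =
      (specA O (ρ O φ)).map fun χ => (χ (D.model R).U, χ (D.model R).T) := by
    intro O φ
    refine ⟨(specA O (ρ O φ)).pmap (p := fun χ => χ g = 0) (fun χ h =>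
      ⟨(χ (D.model R).U, χ (D.model R).T), by
        rw [aeval_algHom_apply, ← (D.model R).rel, map_sub, map_pow], hu O χ h⟩) ?_, ?_⟩
    · intro χ hχ
      refine (spec_isSpec O _).scalar (map_one _) ?_ ((mem_specA _ _ _).1 hχ)
      have : Ideal.Quotient.mk (Ideal.span {g}) g = 0 :=
        Ideal.Quotient.eq_zero_iff_mem.2 (Ideal.subset_span rfl)
      simp [ρ, ρ₀, this]
    · rw [Multiset.map_pmap, Multiset.pmap_eq_map]
  choose Z hZ using h1
  refine ⟨Z, fun O O' σ φ => ?_, fun O φ => ?_, fun O φ y hy => ?_⟩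
  · apply Multiset.map_injective Subtype.val_injective
    rw [hZ, Multiset.map_map]
    have : ρ O' (σ.comp φ) = σ.mapMatrix.comp (ρ O φ) := rfl
    rw [this, specA_map, Multiset.map_map]
    have := congrArg (Multiset.map (Prod.map σ σ)) (hZ O φ)
    rw [Multiset.map_map, Multiset.map_map] at this
    exact this.symm
  · have := congrArg Multiset.card (hZ O φ)
    rw [Multiset.card_map, Multiset.card_map] at this
    rw [this, ← Multiset.card_map fun χ : _ →ₐ[k] O => χ.toRingHom, specA_spec,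
      (spec_isSpec O _).card (map_one _)]
    simp
  · rw [← Multiset.mem_map_of_injective Subtype.val_injective, hZ]
    refine Multiset.mem_map.2 ⟨D.ev φ _ _ y.2.1, ?_, by rw [D.ev_U, D.ev_T]⟩
    let χ := Ideal.Quotient.lift (Ideal.span {g}) (D.ev φ _ _ y.2.1).toRingHom (fun a ha => by
      obtain ⟨c, rfl⟩ := Ideal.mem_span_singleton'.1 ha
      simp [hy])
    have hχ : ∀ (r : R) a, χ (r • a) = φ r * χ a := by
      intro r a
      obtain ⟨a, rfl⟩ := Ideal.Quotient.mk_surjective a
      rw [← Ideal.Quotient.mkₐ_eq_mk R, ← map_smul, Algebra.smul_def, Ideal.Quotient.mkₐ_eq_mk,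
        Ideal.Quotient.lift_mk, Ideal.Quotient.lift_mk, map_mul]
      exact congrArg (· * _) (D.ev_base _ _ _ _ r)
    rw [mem_specA]
    refine (spec_isSpec O _).mem_of_eigen (map_one _) _ (fun i => χ (b i)) (fun h => ?_)
      fun a j => ?_
    · have := congrArg χ (b.sum_repr 1)
      rw [map_sum, map_one χ, Finset.sum_eq_zero] at this
      · exact zero_ne_one this
      · intro i _
        rw [hχ, congrFun h i, Pi.zero_apply, mul_zero]
    · have := congrArg χ (b.sum_repr (Ideal.Quotient.mk _ a * b j))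
      rw [map_sum, map_mul χ, Ideal.Quotient.lift_mk] at this
      rw [← this]
      refine Finset.sum_congr rfl fun i _ => ?_
      rw [hχ, mul_comm]
      simp [ρ, ρ₀, Algebra.leftMulMatrix_eq_repr_mul]

variable {D g₀} in
/-- translation of the second coordinate -/
def ASData.Pt.shift {S : Type u} [CommRing S] [Algebra k S] (a : k) (ha : a ^ D.q = a)
    (p : D.Pt g₀ S) : D.Pt g₀ S :=
  ⟨(p.1.1, p.1.2 - algebraMap k S a), by
    rw [D.sub_pow, ← map_pow, ha, ← p.2.1]
    ring, p.2.2⟩

lemma ASData.exists_fun {R : Type u} [CommRing R] [Algebra k R] {J : Type*} [Fintype J]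
    (Q : J → D.Pt g₀ R) (h : R ⊗[k] D.A) :
    ∃ r ∈ (D.model R).L (Fintype.card J + 2 * (D.q * D.f.natDegree) + 1),
      ∀ (S : Type u) [CommRing S] [Algebra k S] (φ : R →ₐ[k] S) (y : D.Pt g₀ S) (j : J),
        (Q j).map φ = y → D.ev φ _ _ y.2.1 (aeval (D.model R).U g₀ * r + h) = 0 := by
  have h1 : Ideal.span {aeval (D.model R).U g₀} ⊔ ∏ j, (D.model R).idl (Q j).1 = ⊤ := by
    refine Ideal.sup_prod_eq_top fun j _ => Ideal.eq_top_of_isUnit_mem _ ?_
      ((Q j).2.2.map (algebraMap R (R ⊗[k] D.A)))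
    have := Ideal.sub_mem _ (Ideal.mem_sup_left (T := (D.model R).idl (Q j).1)
      (Ideal.mem_span_singleton_self (aeval (D.model R).U g₀)))
      (Ideal.mem_sup_right ((Ideal.span_singleton_le_iff_mem _).2 ((D.model R).U_mem (Q j).1)
        ((D.model R).aeval_sub_mem (Q j).1 g₀)))
    simpa using this
  obtain ⟨_, hw, i, hi, h2⟩ := Submodule.mem_sup.1 ((Ideal.eq_top_iff_one _).1 h1)
  obtain ⟨w, rfl⟩ := Ideal.mem_span_singleton'.1 hw
  obtain ⟨r, hr, i', hi', h3⟩ := Submodule.mem_sup.1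
    (D.surj (fun j => (Q j).1) (fun j => (Q j).2.1) (-(h * w)))
  refine ⟨r, hr, fun S _ _ φ y j hy => ?_⟩
  have h4 : aeval (D.model R).U g₀ * r + h ∈ ∏ j, (D.model R).idl (Q j).1 := by
    have : aeval (D.model R).U g₀ * r + h = h * i - aeval (D.model R).U g₀ * i' := by
      linear_combination (aeval (D.model R).U g₀) * h3 - h * h2
    rw [this]
    exact Ideal.sub_mem _ (Ideal.mul_mem_left _ _ hi) (Ideal.mul_mem_left _ _ hi')
  have h5 := Ideal.prod_le_inf.trans (Finset.inf_le (Finset.mem_univ j)) h4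
  obtain ⟨a, b, hab⟩ := Ideal.mem_span_pair.1 h5
  subst hy
  rw [← hab]
  simp only [map_add, map_mul, map_sub, D.ev_U, D.ev_T, D.ev_base]
  simp [ASData.Pt.map]

theorem ASData.grow_curve (hg : g₀ ≠ 0) (F : Type*) [Field F] [Fintype F] [Algebra F k]
    (hq : Fintype.card F = D.q) : Grow (D.curve g₀) := by
  classical
  have h0 := D.one_lt
  obtain ⟨M, hM⟩ : ∃ M, M = 2 * (D.q * D.f.natDegree) + 2 + D.q * g₀.natDegree := ⟨_, rfl⟩
  obtain ⟨R, _, _, _, τ, P, hP, hR⟩ := D.exists_univ g₀ hg (M + 1)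
  have ha : ∀ a : Fˣ, algebraMap F k a ^ D.q = algebraMap F k a := fun a => by
    rw [← map_pow, ← hq, FiniteField.pow_card]
  have hc : Fintype.card (Fin M × Fˣ) + M = M * D.q := by
    rw [Fintype.card_prod, Fintype.card_fin, Fintype.card_units, hq, ← Nat.mul_succ]
    congr 1
    omega
  set h := ∏ i : Fin M, ((D.model R).U - algebraMap R _ (P i.succ).1.1) with hh
  obtain ⟨r, hr, hr'⟩ := D.exists_fun g₀ (J := Option (Fin M × Fˣ))
    (fun j => j.elim (P 0) fun p => (P p.1.succ).shift _ (ha p.2)) h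
  have hl : (D.model R).Lead (h + τ • (aeval (D.model R).U g₀ * r)) 1 (M, ⟨0, by omega⟩) := by
    have := Model.lead_prod (M := D.model R) Finset.univ (fun i : Fin M => (P i.succ).1.1)
      (z := ⟨0, by omega⟩) rfl
    rw [Finset.card_univ, Fintype.card_fin] at this
    rw [Model.Lead, add_sub_right_comm, mul_comm _ r]
    refine Submodule.add_mem _ this (Submodule.smul_mem _ _ ((D.model R).L_mono ?_
      ((D.model R).mul_mem hr ((D.model R).aeval_mem g₀))))
    simp only [ASData.wt, Fintype.card_option, mul_comm D.q M]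
    omega
  obtain ⟨Z, hZ1, hZ2, hZ3⟩ := ASData.exists_zeros (g₀ := g₀) rfl hl (fun O χ hχ => by
    rw [map_add, Algebra.smul_def, map_mul, map_mul, ← aeval_algHom_apply, hh, map_prod] at hχ
    refine IsCoprime.isUnit_of_dvd (y := ∏ i : Fin M,
      χ ((D.model R).U - algebraMap R _ (P i.succ).1.1)) (IsCoprime.prod_right fun i _ => ?_)
      ⟨-(χ (algebraMap R _ τ) * χ r), by linear_combination hχ⟩
    obtain ⟨c, hc⟩ := Ideal.mem_span_singleton'.1 ((D.model R).aeval_sub_mem (P i.succ).1 g₀)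
    obtain ⟨e, he⟩ := (((P i.succ).2.2.map (algebraMap R (R ⊗[k] D.A))).map χ).exists_left_inv
    have := congrArg χ hc
    rw [map_mul, map_sub χ (aeval _ _), ← aeval_algHom_apply] at this
    exact ⟨e, -(e * χ c), by linear_combination he - e * this⟩)
  choose φ hφ hφ' using fun (O : AIC k) x t => hR O t x
  have hn : ∀ (O O' : AIC k) (σ : O →ₐ[k] O') x t,
      Z O' (φ O' (fun i => (x i).map σ) (σ t)) = (Z O (φ O x t)).map (ASData.Pt.map σ) := by
    intro O O' σ x t
    rw [← hZ1, hφ' O' (fun i => (x i).map σ) (σ t) (σ.comp (φ O x t))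
      ⟨congrArg σ (hφ O x t).1, fun i => by rw [← (hφ O x t).2]; rfl⟩]
  let E : ∀ O : AIC k, (Fin (M + 1) → D.Pt g₀ O) → Multiset (D.Pt g₀ O) := fun O x =>
    Finset.univ.val.map fun p : Fin M × Fˣ => (x p.1.succ).shift _ (ha p.2)
  have hE : ∀ (O O' : AIC k) (σ : O →ₐ[k] O') x,
      E O' (fun i => (x i).map σ) = (E O x).map (ASData.Pt.map σ) := by
    intro O O' σ x
    simp only [E, Multiset.map_map]
    refine Multiset.map_congr rfl fun p _ => Subtype.ext (Prod.ext rfl ?_)
    simp [ASData.Pt.map, ASData.Pt.shift]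
  have hh0 : ∀ (O : AIC k) x t (y : D.Pt g₀ O) (i : Fin M), y.1.1 = (x i.succ).1.1 →
      D.ev (φ O x t) _ _ y.2.1 h = 0 := by
    intro O x t y i hy
    rw [hh, map_prod]
    refine Finset.prod_eq_zero (Finset.mem_univ i) ?_
    rw [map_sub, D.ev_U, D.ev_base, hy, ← (hφ O x t).2]
    exact sub_self _
  have hg0 : ∀ (O : AIC k) x t (y : D.Pt g₀ O),
      D.ev (φ O x t) _ _ y.2.1 (h + τ • (aeval (D.model R).U g₀ * r)) =
        (1 - t) * D.ev (φ O x t) _ _ y.2.1 h +
          t * D.ev (φ O x t) _ _ y.2.1 (aeval (D.model R).U g₀ * r + h) := by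
    intro O x t y
    rw [map_add, map_add, Algebra.smul_def, map_mul, D.ev_base, (hφ O x t).1]
    ring
  have key : ∀ (O : AIC k) x t, E O x ≤ Z O (φ O x t) ∧ E O x + {x 0} ≤ Z O (φ O x 1) ∧
      E O x + Finset.univ.val.map (fun i : Fin M => x i.succ) = Z O (φ O x 0) := by
    obtain ⟨O, η, hη, hO⟩ := exists_closure (k := k) R
    let x : Fin (M + 1) → D.Pt g₀ O := fun i => (P i).map η
    have hx : Function.Injective fun i => (x i).1.1 := fun i j h => hP (hη h)
    have hF : Function.Injective fun a : F => algebraMap k O (algebraMap F k a) :=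
      (algebraMap k O).injective.comp (algebraMap F k).injective
    have h1 : (E O x).Nodup := Finset.univ.nodup.map fun p p' h => by
      have h2 := Fin.succ_injective _ (hx (congrArg (fun y => y.1.1) h))
      have h3 := congrArg (fun y => y.1.2) h
      simp only [ASData.Pt.shift, h2, sub_right_inj] at h3
      exact Prod.ext h2 (Units.ext (hF h3))
    have h2 : ∀ t, E O x ⊆ Z O (φ O x t) := fun t y hy => by
      obtain ⟨p, -, rfl⟩ := Multiset.mem_map.1 hy
      refine hZ3 _ _ _ ?_
      rw [hg0, hh0 O x t ((x p.1.succ).shift _ (ha p.2)) p.1 rfl, hr' O _ _ (some p),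
        mul_zero, mul_zero, add_zero]
      rw [← (hφ O x t).2]
      refine Subtype.ext (Prod.ext rfl ?_)
      simp [ASData.Pt.map, ASData.Pt.shift]
    have hs : ∀ {a b c : Multiset (D.Pt g₀ O)}, a ⊆ c → b ⊆ c → a + b ⊆ c :=
      fun h1 h2 y hy => (Multiset.mem_add.1 hy).elim (fun h => h1 h) fun h => h2 h
    have h3 : E O x + {x 0} ≤ Z O (φ O x 1) := by
      refine (Multiset.le_iff_subset (Multiset.nodup_add.2 ⟨h1, Multiset.nodup_singleton _,
        Multiset.disjoint_singleton.2 fun hy => ?_⟩)).2 (hs (h2 1) ?_)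
      · obtain ⟨p, -, hp⟩ := Multiset.mem_map.1 hy
        exact Fin.succ_ne_zero _ (hx (congrArg (fun y => y.1.1) hp))
      · refine Multiset.singleton_subset.2 (hZ3 _ _ _ ?_)
        rw [hg0, hr' O _ _ none ((hφ O x 1).2 0)]
        simp
    have h4 : E O x + Finset.univ.val.map (fun i : Fin M => x i.succ) = Z O (φ O x 0) := by
      refine Multiset.eq_of_le_of_card_le ((Multiset.le_iff_subset (Multiset.nodup_add.2
        ⟨h1, Finset.univ.nodup.map fun i j h => Fin.succ_injective _
          (hx (congrArg (fun y => y.1.1) h)), Multiset.disjoint_left.2 fun hy hy' => ?_⟩)).2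
        (hs (h2 0) fun y hy => ?_)) ?_
      · obtain ⟨p, -, rfl⟩ := Multiset.mem_map.1 hy
        obtain ⟨i, -, hi⟩ := Multiset.mem_map.1 hy'
        have h2 := Fin.succ_injective _ (hx (congrArg (fun y => y.1.1) hi))
        have h3 := congrArg (fun y => y.1.2) hi
        simp only [ASData.Pt.shift, h2] at h3
        exact p.2.ne_zero (hF (by simpa using h3.symm))
      · obtain ⟨i, -, rfl⟩ := Multiset.mem_map.1 hy
        refine hZ3 _ _ _ ?_
        rw [hg0, hh0 O x 0 _ i rfl]
        simp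
      · simp only [hZ2, E, Multiset.card_add, Multiset.card_map, Finset.card_val,
          Finset.card_univ, Fintype.card_fin, hc, le_rfl]
    intro O' x' t'
    obtain ⟨σ, hσ⟩ := hO O' (φ O' x' t')
    obtain rfl : (fun i => (x i).map σ) = x' := funext fun i => by
      rw [← (hφ O' x' t').2]
      exact Subtype.ext (Prod.ext (hσ _) (hσ _))
    have ht : σ (η τ) = t' := (hσ τ).trans (hφ O' _ t').1
    rw [← ht, hn, ← map_one σ, hn, ← map_zero σ, hn, hE, ← h4, Multiset.map_add,
      Multiset.map_map (ASData.Pt.map σ) fun i : Fin M => x i.succ]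
    refine ⟨Multiset.map_le_map ((Multiset.le_iff_subset h1).2 (h2 _)), ?_, rfl⟩
    simpa using Multiset.map_le_map (f := ASData.Pt.map σ) h3
  choose V hV using fun O x t => Multiset.le_iff_exists_add.1 (key O x t).1
  have hV1 : ∀ O x t, (V O x t).card = M := fun O x t => by
    have := congrArg Multiset.card (hV O x t)
    simp only [hZ2, E, Multiset.card_add, Multiset.card_map, Finset.card_val,
      Finset.card_univ] at this
    omega
  refine grow_of_sym _ M (fun O x => ord M (V O x 0) - ord M (V O x 1))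
    ⟨fun O x t => ord M (V O x t), fun O O' σ x t => ?_, fun _ _ => rfl⟩ fun O x => ?_
  · have := hV O' (fun i => (x i).map σ) (σ t)
    rw [hn, hE, hV, Multiset.map_add, add_right_inj] at this
    exact (congrArg (ord M) this.symm).trans (ord_map _ _ (hV1 O x t))
  · obtain ⟨y, hy⟩ := exists_enum _ (hV1 O x 1)
    obtain ⟨-, h2, h3⟩ := key O x 0
    rw [hV, add_le_add_iff_left, Multiset.singleton_le, ← hy] at h2
    rw [hV, add_right_inj] at h3
    obtain ⟨a, -, ha⟩ := Multiset.mem_map.1 h2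
    exact ⟨y, ⟨a, ha⟩, by simp only [← hy, ← h3, ord_eq]⟩

end Pool.Agent.Lib.MP_fc2ced_ag.Naive
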