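import Pool.Agent.Lib.MP_fc2ced_ag.NExt

/-!
From natural homotopies to cycles: exponential growth implies Schur-finiteness.
-/

namespace Pool.Agent.Lib.MP_fc2ced_ag.Naive

universe u

open Module Polynomial
open scoped TensorProduct

open Classical in
lemma exists_weight_matrix {U : Type u} [CommRing U] {K : Type u} [Field K] [Algebra K U]
    {Ω : Type*} [Field Ω] [IsAlgClosed Ω] {x : K →+* Ω} {T : Type*} [CommRing T] (θ : T →+* U)
    (χ : U →+* Ω) (W : Ideal T) [W.IsPrime] (hW : ∀ t, t ∈ W ↔ χ (θ t) = 0)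
    (hloc : ∀ u : U, ∃ s ∉ W, ∃ t, θ t = θ s * u) (hχ : ∀ c, χ (algebraMap K U c) = x c)
    [Module.Finite K (U ⧸ RingHom.ker χ)] :
    ∃ w : ℕ, w ≠ 0 ∧ ((∀ u, ∃ c, x c = χ u) → w = 1) ∧
      ∀ (n : ℕ) (ρ : U →ₐ[K] Matrix (Fin n) (Fin n) K) (M : Multiset (U →+* Ω))
        (I : Ideal T) (v : Fin n → K), IsSpec (fun u => (ρ u).map x) M →
        (∀ t ∈ I, (ρ (θ t)).mulVec v = 0) →
        (∀ t, (ρ (θ t)).mulVec v = 0 → ∃ s ∉ W, s * t ∈ I) →
        (∀ z, ∃ s ∉ W, ∃ t, (ρ (θ t)).mulVec v = (ρ (θ s)).mulVec z) →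
        M.count χ = (ell W (T ⧸ I)).toNat * w := by
  let _ : Algebra T U := θ.toAlgebra
  obtain ⟨w, h1, h2, h3⟩ := exists_weight χ W hW hloc hχ
  refine ⟨w, h1, h2, fun n ρ M I v hM hI hker hcoker => ?_⟩
  let _ : Module U (Fin n → K) := Module.compHom (Fin n → K)
    ((Matrix.toLinAlgEquiv' (R := K) (n := Fin n)).toAlgHom.comp ρ).toRingHom
  have hU : ∀ (u : U) (z : Fin n → K), u • z = (ρ u).mulVec z := fun _ _ => rfl
  let _ : Module T (Fin n → K) := Module.compHom (Fin n → K) θ
  have hT : ∀ (t : T) (z : Fin n → K), t • z = (ρ (θ t)).mulVec z := fun _ _ => rfl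
  have : IsScalarTower K U (Fin n → K) := ⟨fun c u z => by
    rw [hU, hU, map_smul, Matrix.smul_mulVec]⟩
  have : IsScalarTower T U (Fin n → K) := ⟨fun t u z => by
    rw [Algebra.smul_def, mul_smul]
    rfl⟩
  rw [h3 (Fin n → K) M ((isSpecM_iff (Pi.basisFun K (Fin n))).2 ?_)]
  · congr 2
    symm
    refine ell_eq W (I.liftQ (LinearMap.toSpanSingleton T _ v) hI) ?_ ?_
    · intro m hm
      obtain ⟨t, rfl⟩ := Submodule.Quotient.mk_surjective _ m
      obtain ⟨s, hs, h⟩ := hker t hm
      refine ⟨s, hs, ?_⟩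
      rw [← Submodule.Quotient.mk_smul, Submodule.Quotient.mk_eq_zero]
      exact h
    · intro z
      obtain ⟨s, hs, t, h⟩ := hcoker z
      exact ⟨s, hs, Submodule.Quotient.mk t, h⟩
  · convert hM using 3 with u
    rw [LinearMap.toMatrix_eq_toMatrix']
    exact LinearMap.toMatrix'_toLin' _

lemma exists_decomp {α : Type*} (P : α → Prop) (r : α → α → Prop) (μ : {y // P y} → α →₀ ℚ)
    (h1 : ∀ y, μ y y.1 ≠ 0) (h2 : ∀ y y', μ y y' ≠ 0 → r y.1 y')
    (h3 : ∀ y a b, r a b → μ y a = μ y b) (n : ℕ) :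
    ∀ u : α →₀ ℚ, u.support.card = n → (∀ y ∈ u.support, P y) → (∀ a b, r a b → u a = u b) →
      ∃ F : {y // P y} →₀ ℚ, u = lc μ F := by
  classical
  induction n using Nat.strong_induction_on with
  | _ n ih =>
  intro u hn hP hr
  by_cases h0 : u = 0
  · exact ⟨0, by simp [h0]⟩
  obtain ⟨y, hy⟩ := Finsupp.support_nonempty_iff.2 h0
  set y' : {y // P y} := ⟨y, hP y hy⟩
  set u' := u - (u y / μ y' y) • μ y' with hu'
  have hsub : u'.support ⊆ u.support.erase y := by
    intro z hz
    rw [Finsupp.mem_support_iff, hu'] at hz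
    simp only [Finsupp.coe_sub, Finsupp.coe_smul, Pi.sub_apply, Pi.smul_apply, smul_eq_mul] at hz
    rw [Finset.mem_erase, Finsupp.mem_support_iff]
    constructor
    · rintro rfl
      exact hz (by rw [div_mul_cancel₀ _ (h1 y'), sub_self])
    · intro hz'
      by_cases hμ : μ y' z = 0
      · exact hz (by rw [hz', hμ]; simp)
      · exact Finsupp.mem_support_iff.1 hy ((hr _ _ (h2 y' z hμ)).trans hz')
  obtain ⟨F, hF⟩ := ih u'.support.card (by
      have := Finset.card_le_card hsub
      rw [Finset.card_erase_of_mem hy] at this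
      have := Finset.card_pos.2 ⟨y, hy⟩
      omega) u' rfl (fun z hz => hP z (Finset.mem_of_mem_erase (hsub hz))) (fun a b hab => by
      simp [hu', hr a b hab, h3 y' a b hab])
  refine ⟨F + Finsupp.single y' (u y / μ y' y), ?_⟩
  rw [map_add, ← hF, Finsupp.linearCombination_single, hu', sub_add_cancel]

variable {k : Type u} [Field k]

section One

variable {A : Type u} [CommRing A] [Algebra k A] {B : Type u} [CommRing B] [Algebra k B]
  [Algebra.FiniteType k B]
  {K : Type u} [Field K] [Algebra k K] [Algebra A K] [IsScalarTower k A K]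
  (hK : ∀ z : K, ∃ a : A, algebraMap A K a ≠ 0 ∧ ∃ b : A, algebraMap A K b = algebraMap A K a * z)
  (hmin : RingHom.ker (algebraMap A K) ∈ minimalPrimes A)
  {Ω : Type u} [Field Ω] [IsAlgClosed Ω] [Algebra k Ω] [Algebra K[X] Ω] [Algebra A[X] Ω]
  [IsScalarTower k K[X] Ω] [IsScalarTower k A[X] Ω] [FaithfulSMul K[X] Ω]
  [Algebra.IsAlgebraic K[X] Ω] [Algebra K Ω] [IsScalarTower k K Ω]
  (hj : ∀ p : A[X], algebraMap A[X] Ω p = algebraMap K[X] Ω (p.map (algebraMap A K)))

/-- the elementary correspondence through a point -/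
noncomputable def elemOf (y : B →ₐ[k] Ω) (hy : ∀ b, IsIntegral A[X] (y b)) : Elem k A[X] B where
  P := RingHom.ker (hat A[X] y)
  prime := RingHom.ker_isPrime _
  finite := finite_quot A[X] y hy
  dom := by
    have h1 : (RingHom.ker (hat A[X] y)).comap (algebraMap A[X] (A[X] ⊗[k] B)) =
        (RingHom.ker (algebraMap A K)).map C := by
      rw [← ker_mapRingHom]
      ext p
      rw [Ideal.mem_comap, RingHom.mem_ker, AlgHom.commutes, hj, RingHom.mem_ker,
        map_eq_zero_iff _ (FaithfulSMul.algebraMap_injective K[X] Ω)]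
      rfl
    have h2 : ((RingHom.ker (hat A[X] y)).comap (algebraMap A[X] (A[X] ⊗[k] B))).IsPrime :=
      have := RingHom.ker_isPrime (hat A[X] y)
      Ideal.comap_isPrime _ _
    rw [h1] at h2 ⊢
    refine ⟨⟨h2, bot_le⟩, fun Q hQ hle => ?_⟩
    have := hQ.1
    rw [Ideal.map_le_iff_le_comap]
    refine hmin.2 ⟨Ideal.comap_isPrime _ _, bot_le⟩ fun a ha => ?_
    have h3 := hle ha
    rw [← ker_mapRingHom, RingHom.mem_ker, coe_mapRingHom, map_C, C_eq_zero] at h3
    exact h3

omit [Algebra.FiniteType k B] [Algebra K[X] Ω] [Algebra A[X] Ω] [IsScalarTower k K[X] Ω] [IsScalarTower k A[X] Ω]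
  [FaithfulSMul K[X] Ω] [Algebra.IsAlgebraic K[X] Ω] in
lemma exists_point (W : Elem k A B)
    (hW : W.P.comap (algebraMap A (A ⊗[k] B)) = RingHom.ker (algebraMap A K)) :
    ∃ χ : B →ₐ[k] Ω, (∀ t, t ∈ W.P ↔ hat K χ (toK k A B K t) = 0) ∧ ∀ b, IsIntegral K (χ b) := by
  have := W.prime
  have := W.finite
  have hk : ∀ a, algebraMap A ((A ⊗[k] B) ⧸ W.P) a = 0 ↔ algebraMap A K a = 0 := by
    intro a
    rw [← RingHom.mem_ker (f := algebraMap A K), ← hW, Ideal.mem_comap,
      ← Ideal.Quotient.eq_zero_iff_mem]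
    rfl
  obtain ⟨σ, hσ⟩ := exists_lift_field (S := (A ⊗[k] B) ⧸ W.P)
    ((algebraMap K Ω).comp (algebraMap A K)) (fun a ha => by
      rw [RingHom.mem_ker] at ha ⊢
      simp [(hk a).1 ha])
  have hinj : Function.Injective σ := by
    rw [RingHom.injective_iff_ker_eq_bot]
    by_contra h
    obtain ⟨a, ha, ha'⟩ := SetLike.exists_of_lt
      (Ideal.IsIntegral.comap_lt_comap (R := A) (bot_lt_iff_ne_bot.2 h))
    rw [Ideal.mem_comap, RingHom.mem_ker, hσ] at ha
    refine ha' (Ideal.mem_comap.2 ((hk a).2 ?_))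
    simpa using ha
  let χ : B →ₐ[k] Ω :=
    { toRingHom := σ.comp ((Ideal.Quotient.mk W.P).comp
        (Algebra.TensorProduct.includeRight (R := k) (A := A) (B := B)).toRingHom)
      commutes' := fun c => by
        have h1 := hσ (algebraMap k A c)
        rw [RingHom.comp_apply, ← IsScalarTower.algebraMap_apply k A K,
          ← IsScalarTower.algebraMap_apply k K Ω] at h1
        rw [← h1]
        change σ (Ideal.Quotient.mk W.P (Algebra.TensorProduct.includeRight _)) = _
        rw [AlgHom.commutes]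
        rfl }
  have hχ : ∀ b, χ b = σ (Ideal.Quotient.mk W.P (1 ⊗ₜ b)) := fun _ => rfl
  have h2 : ∀ t, hat K χ (toK k A B K t) = σ (Ideal.Quotient.mk W.P t) := by
    intro t
    induction t using TensorProduct.induction_on with
    | zero => simp
    | add s t hs ht => simp only [map_add, hs, ht]
    | tmul a b =>
      have h3 : (a ⊗ₜ[k] b : A ⊗[k] B) = algebraMap A _ a * (1 ⊗ₜ b) := by simp
      conv_rhs => rw [h3, map_mul, map_mul, ← hχ]
      rw [show Ideal.Quotient.mk W.P (algebraMap A _ a) = algebraMap A _ a from rfl, hσ]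
      simp [toK, hat_tmul]
  refine ⟨χ, fun t => ?_, fun b => ?_⟩
  · rw [h2, map_eq_zero_iff _ hinj, Ideal.Quotient.eq_zero_iff_mem]
  · rw [hχ]
    exact (Algebra.IsIntegral.isIntegral (R := A) _).map_of_comp_eq (algebraMap A K) σ
      (RingHom.ext fun a => (hσ a).symm)

open Classical in
lemma count_specA {B K Ω : Type u} [CommRing B] [Algebra k B] [Field K] [Algebra k K] [Field Ω]
    [IsAlgClosed Ω] [Algebra k Ω] [Algebra K Ω] [IsScalarTower k K Ω] {n : ℕ}
    (ρ : B →ₐ[k] Matrix (Fin n) (Fin n) K) (χ : B →ₐ[k] Ω) :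
    Multiset.count χ (specA (AIC.ofField k Ω)
      ((IsScalarTower.toAlgHom k K Ω).mapMatrix.comp ρ)) =
      (spec (AIC.ofField k Ω) ((algebraMap K Ω).mapMatrix.comp (extK ρ).toRingHom)).count
        (hat K χ).toRingHom := by
  have hM := spec_isSpec (AIC.ofField k Ω) ((algebraMap K Ω).mapMatrix.comp (extK ρ).toRingHom)
  set M := spec (AIC.ofField k Ω) ((algebraMap K Ω).mapMatrix.comp (extK ρ).toRingHom)
  have h5 : (M.map fun φ : K ⊗[k] B →+* Ω => φ.comp
      (Algebra.TensorProduct.includeRight (R := k) (A := K) (B := B)).toRingHom) =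
      spec (AIC.ofField k Ω) ((IsScalarTower.toAlgHom k K Ω).mapMatrix.comp ρ).toRingHom := by
    have h1 := spec_isSpec (AIC.ofField k Ω)
      ((IsScalarTower.toAlgHom k K Ω).mapMatrix.comp ρ).toRingHom
    have h := hM.comp (Algebra.TensorProduct.includeRight (R := k) (A := K) (B := B)).toRingHom
    have h' : (fun b => ((algebraMap K Ω).mapMatrix.comp (extK ρ).toRingHom)
        ((Algebra.TensorProduct.includeRight (R := k) (A := K) (B := B)).toRingHom b)) =
        ((IsScalarTower.toAlgHom k K Ω).mapMatrix.comp ρ).toRingHom := by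
      funext b
      change (extK ρ (1 ⊗ₜ b)).map _ = (ρ b).map _
      rw [extK_tmul, one_smul]
      rfl
    rw [h'] at h
    exact h.unique h1 (RingHom.map_one _)
  rw [← Multiset.count_map_eq_count' (fun φ : B →ₐ[k] Ω => φ.toRingHom) _
    AlgHom.coe_ringHom_injective]
  erw [specA_spec]
  rw [← h5, Multiset.count_map, Multiset.count, Multiset.countP_eq_card_filter]
  congr 1
  refine Multiset.filter_congr fun φ hφ => ⟨fun h => ?_, fun h => ?_⟩
  · refine Algebra.TensorProduct.ringHom_ext ?_ ?_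
    · ext a
      refine Eq.trans ?_ (hM.scalar (map_one _) (r := algebraMap K Ω a) ?_ hφ).symm
      · simp [hat_tmul]
      · ext i j
        simp [extK_tmul, Matrix.one_apply]
        split_ifs <;> simp
    · rw [← h]
      ext b
      simp [hat_tmul]
  · rw [← h]
    ext b
    simp [hat_tmul]

variable (H : ∀ O : AIC k, (A →ₐ[k] O) → O → ((B →ₐ[k] O) →₀ ℚ))
  (hH : ∀ (O O' : AIC k) (σ : O →ₐ[k] O') (x : A →ₐ[k] O) (t : O),
    H O' (σ.comp x) (σ t) = Finsupp.mapDomain (fun y : B →ₐ[k] O => σ.comp y) (H O x t))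
  {I : Type*} (e : I →₀ ℚ) (g : I → (B →ₐ[k] A))
  (hb : ∀ (O : AIC k) (x : A →ₐ[k] O), H O x 0 - H O x 1 =
    lc (fun i => Finsupp.single (x.comp (g i)) (1 : ℚ)) e)

include hK hmin hj hH hb in
open Classical in
theorem extract_aux : ∃ F : Elem k A[X] B →₀ ℚ,
    (∀ Z ∈ F.support, ∀ a, algebraMap A K a = 0 → algebraMap A[X] (A[X] ⊗[k] B) (C a) ∈ Z.P) ∧
    ∀ W : Elem k A B, W.P.comap (algebraMap A (A ⊗[k] B)) = RingHom.ker (algebraMap A K) →
      lc (fun Z => (mult (fibre 0 Z) W : ℚ) - mult (fibre 1 Z) W) F =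
        lc (fun i => if ∀ b, g i b ⊗ₜ[k] (1 : B) - (1 : A) ⊗ₜ[k] b ∈ W.P then (1 : ℚ) else 0) e := by
  let OΩ := AIC.ofField k Ω
  let OK := AIC.closure k K[X] Ω
  let OA := AIC.closure k A[X] Ω
  let iK : OK →ₐ[k] OΩ := (integralClosure K[X] Ω).val.restrictScalars k
  let iA : OA →ₐ[k] OΩ := (integralClosure A[X] Ω).val.restrictScalars k
  let xK : A →ₐ[k] OK := (IsScalarTower.toAlgHom k K[X] (integralClosure K[X] Ω)).comp
    (CAlgHom.comp (IsScalarTower.toAlgHom k A K))
  let xA : A →ₐ[k] OA := (IsScalarTower.toAlgHom k A[X] (integralClosure A[X] Ω)).comp CAlgHom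
  have hx : iA.comp xA = iK.comp xK := by
    ext a
    have := hj (C a)
    rw [map_C] at this
    exact this
  have hτ : iA (algebraMap A[X] (integralClosure A[X] Ω) X) =
      iK (algebraMap K[X] (integralClosure K[X] Ω) X) := by
    have := hj X
    rw [map_X] at this
    exact this
  set h := H OΩ (iK.comp xK) (iK (algebraMap K[X] (integralClosure K[X] Ω) X)) with hh
  have hint : ∀ y ∈ h.support, ∀ b, IsIntegral A[X] (y b) := by
    intro y hy b
    rw [hh, ← hx, ← hτ, hH] at hy
    obtain ⟨y', -, rfl⟩ := Finset.mem_image.1 (Finsupp.mapDomain_support hy)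
    exact (y' b).2
  have hinv : ∀ u : (B →ₐ[k] Ω) →₀ ℚ, (∀ γ : Ω →ₐ[K[X]] Ω, Finsupp.mapDomain
      (fun y : B →ₐ[k] Ω => (γ.restrictScalars k).comp y) u = u) →
      ∀ a b : B →ₐ[k] Ω, (∃ γ : Ω →ₐ[K[X]] Ω, (γ.restrictScalars k).comp a = b) → u a = u b := by
    rintro u hu a _ ⟨γ, rfl⟩
    conv_rhs => rw [← hu γ]
    refine (Finsupp.mapDomain_apply (fun y y' hy => ?_) u a).symm
    ext b
    exact γ.toRingHom.injective (AlgHom.congr_fun hy b)
  choose n ρ m1 m2 m3 using fun y : {y : B →ₐ[k] Ω // ∀ b, IsIntegral A[X] (y b)} =>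
    exists_model hK hj y.1 y.2
  obtain ⟨F, hF⟩ := exists_decomp (fun y : B →ₐ[k] Ω => ∀ b, IsIntegral A[X] (y b))
    (fun a b => ∃ γ : Ω →ₐ[K[X]] Ω, (γ.restrictScalars k).comp a = b)
    (fun y => ms (specA OΩ ((IsScalarTower.toAlgHom k K[X] Ω).mapMatrix.comp (ρ y))))
    (fun y => by
      rw [ms_apply]
      exact_mod_cast Multiset.count_ne_zero.2 (m1 y))
    (fun y y' hy => by
      rw [ms_apply] at hy
      exact m2 y y' (Multiset.count_ne_zero.1 (by exact_mod_cast hy)))
    (fun y => hinv _ fun γ => by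
      rw [mapDomain_ms]
      refine congrArg ms ((specA_map OΩ OΩ (γ.restrictScalars k) _).symm.trans ?_)
      congr 1
      ext b i j
      exact γ.commutes _) _ h rfl hint (hinv _ fun γ => by
      refine (hH OΩ OΩ (γ.restrictScalars k) _ _).symm.trans ?_
      rw [hh]
      congr 1
      · ext a
        exact γ.commutes (C (algebraMap A K a))
      · exact γ.commutes X)
  have hFK : H OK xK (algebraMap K[X] (integralClosure K[X] Ω) X) = lc (fun y => ms (specA OK
      ((IsScalarTower.toAlgHom k K[X] (integralClosure K[X] Ω)).mapMatrix.comp (ρ y)))) F := by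
    apply Finsupp.mapDomain_injective (f := fun y : B →ₐ[k] OK => iK.comp y) (fun y y' hy => by
      ext b
      exact AlgHom.congr_fun hy b)
    rw [← hH, ← hh, hF, mapDomain_lc]
    congr 2
    funext y
    rw [mapDomain_ms, ← specA_map]
    rfl
  refine ⟨Finsupp.mapDomain (fun y => elemOf hmin hj y.1 y.2) F, fun Z hZ a ha => ?_,
    fun W hW => ?_⟩
  · obtain ⟨y, -, rfl⟩ := Finset.mem_image.1 (Finsupp.mapDomain_support hZ)
    change hat A[X] y.1 _ = 0
    rw [AlgHom.commutes, hj, map_C, ha, map_zero, map_zero]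
  obtain ⟨χ, hχ, hχ'⟩ := exists_point (Ω := Ω) W hW
  have := W.prime
  have := finite_quot K χ hχ'
  have hnot : ∀ a, algebraMap A K a ≠ 0 → algebraMap A (A ⊗[k] B) a ∉ W.P := by
    intro a ha h
    rw [← Ideal.mem_comap, hW] at h
    exact ha h
  have : Module.Finite K ((K ⊗[k] B) ⧸ RingHom.ker (hat K χ).toRingHom) := this
  obtain ⟨w, hw0, hw1, hw⟩ := exists_weight_matrix (x := algebraMap K Ω) (toK k A B K).toRingHom
    (hat K χ).toRingHom W.P hχ (fun u => by
      obtain ⟨a, ha, t, ht⟩ := den_toK hK u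
      exact ⟨_, hnot a ha, t, ht⟩) (hat K χ).commutes
  let x : A →ₐ[k] OΩ := (IsScalarTower.toAlgHom k K Ω).comp (IsScalarTower.toAlgHom k A K)
  have key : ∀ c : k, H OΩ x (algebraMap k Ω c) χ = (w : ℚ) *
      lc (fun y => (mult (fibre c (elemOf hmin hj y.1 y.2)) W : ℚ)) F := by
    intro c
    obtain ⟨s, hs⟩ := OΩ.exists_lift (S := integralClosure K[X] Ω)
      ((algebraMap K Ω).comp (evK K c).toRingHom) (fun p hp => by
        have : p = 0 := FaithfulSMul.algebraMap_injective K[X] Ω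
          ((congrArg Subtype.val hp).trans (map_zero _).symm)
        simp [this])
    let s' : OK →ₐ[k] OΩ := ⟨s, fun a => by
      rw [IsScalarTower.algebraMap_apply k K[X] (integralClosure K[X] Ω)]
      refine (hs _).trans ?_
      simp only [AlgHom.toRingHom_eq_coe, RingHom.coe_comp, RingHom.coe_coe, Function.comp_apply,
        AlgHom.commutes]
      exact (IsScalarTower.algebraMap_apply k K Ω a).symm⟩
    have h1 : s'.comp xK = x := by
      ext a
      refine (hs (C (algebraMap A K a))).trans ?_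
      simp [evK, x]
    have h2 : s' (algebraMap K[X] (integralClosure K[X] Ω) X) = algebraMap k Ω c := by
      refine (hs X).trans ?_
      simp [evK, ← IsScalarTower.algebraMap_apply k K Ω]
    rw [← h1, ← h2, hH, hFK, mapDomain_lc, ← smul_eq_mul, ← lc_smul]
    refine (map_lc (Finsupp.lapply χ) _ F).trans ?_
    congr 2
    funext y
    rw [Finsupp.lapply_apply, mapDomain_ms, ← specA_map, ms_apply]
    obtain ⟨v, v1, v2, v3⟩ := m3 y c
    have h3 : s'.mapMatrix.comp ((IsScalarTower.toAlgHom k K[X]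
        (integralClosure K[X] Ω)).mapMatrix.comp (ρ y)) =
        (IsScalarTower.toAlgHom k K Ω).mapMatrix.comp ((evK K c).mapMatrix.comp (ρ y)) := by
      ext b i j
      exact hs _
    rw [h3]
    set ρc := (evK K c).mapMatrix.comp (ρ y)
    have hM := spec_isSpec OΩ ((algebraMap K Ω).mapMatrix.comp (extK ρc).toRingHom)
    set M := spec OΩ ((algebraMap K Ω).mapMatrix.comp (extK ρc).toRingHom)
    have h4 := hw _ (extK ρc) M (fibre c (elemOf hmin hj y.1 y.2)) v hM v1 (fun t ht => by
        obtain ⟨a, ha, h⟩ := v2 t ht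
        exact ⟨_, hnot a ha, h⟩) (fun z => by
        obtain ⟨a, ha, t, h⟩ := v3 z
        refine ⟨_, hnot a ha, t, h.trans ?_⟩
        simp [toK, extK_tmul, Matrix.smul_mulVec])
    have h6 := count_specA ρc χ
    rw [h6, h4, smul_eq_mul, mul_comm]
    push_cast
    rfl
  have h7 := congrArg (fun u => u χ) (hb OΩ x)
  have k0 := key 0
  have k1 := key 1
  rw [map_zero] at k0
  rw [map_one] at k1
  simp only [Finsupp.coe_sub, Pi.sub_apply] at h7
  rw [k0, k1, ← mul_sub, ← lc_sub] at h7
  rw [lc_mapDomain]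
  apply mul_left_cancel₀ (a := (w : ℚ)) (by exact_mod_cast hw0)
  rw [h7, ← smul_eq_mul, ← lc_smul]
  refine (map_lc (Finsupp.lapply χ) _ e).trans ?_
  congr 2
  funext i
  have h8 : (∀ b, g i b ⊗ₜ[k] (1 : B) - (1 : A) ⊗ₜ[k] b ∈ W.P) ↔ x.comp (g i) = χ := by
    rw [AlgHom.ext_iff]
    refine forall_congr' fun b => ?_
    rw [hχ]
    simp [toK, hat_tmul, sub_eq_zero, x]
  rw [Finsupp.lapply_apply, Finsupp.single_apply]
  by_cases h9 : x.comp (g i) = χ
  · rw [if_pos h9, if_pos (h8.2 h9), hw1]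
    · simp
    · intro u
      induction u using TensorProduct.induction_on with
      | zero => exact ⟨0, by simp⟩
      | add s t hs ht =>
        obtain ⟨a, ha⟩ := hs
        obtain ⟨b, hb⟩ := ht
        exact ⟨a + b, by rw [map_add, map_add, ha, hb]⟩
      | tmul a b =>
        refine ⟨a * algebraMap A K (g i b), ?_⟩
        simp [hat_tmul, ← h9, x]
  · rw [if_neg h9, if_neg fun h => h9 (h8.1 h)]
    simp

end One

open Classical in
theorem extract {A : Type u} [CommRing A] [Algebra k A] [IsNoetherianRing A] {B : Type u}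
    [CommRing B] [Algebra k B] [Algebra.FiniteType k B]
    (H : ∀ O : AIC k, (A →ₐ[k] O) → O → ((B →ₐ[k] O) →₀ ℚ))
    (hH : ∀ (O O' : AIC k) (σ : O →ₐ[k] O') (x : A →ₐ[k] O) (t : O),
      H O' (σ.comp x) (σ t) = Finsupp.mapDomain (fun y : B →ₐ[k] O => σ.comp y) (H O x t))
    {I : Type*} (e : I →₀ ℚ) (g : I → (B →ₐ[k] A))
    (hb : ∀ (O : AIC k) (x : A →ₐ[k] O), H O x 0 - H O x 1 =
      lc (fun i => Finsupp.single (x.comp (g i)) (1 : ℚ)) e) :
    ∃ F : Elem k A[X] B →₀ ℚ, ∀ W : Elem k A B,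
      lc (fun Z => (mult (fibre 0 Z) W : ℚ) - mult (fibre 1 Z) W) F =
        lc (fun i => if ∀ b, g i b ⊗ₜ[k] (1 : B) - (1 : A) ⊗ₜ[k] b ∈ W.P then (1 : ℚ) else 0) e := by
  have key : ∀ p : minimalPrimes A, ∃ F : Elem k A[X] B →₀ ℚ,
      (∀ Z ∈ F.support, ∀ a ∈ p.1, algebraMap A[X] (A[X] ⊗[k] B) (C a) ∈ Z.P) ∧
      ∀ W : Elem k A B, W.P.comap (algebraMap A (A ⊗[k] B)) = p.1 →
        lc (fun Z => (mult (fibre 0 Z) W : ℚ) - mult (fibre 1 Z) W) F =
          lc (fun i => if ∀ b, g i b ⊗ₜ[k] (1 : B) - (1 : A) ⊗ₜ[k] b ∈ W.P then (1 : ℚ) else 0)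
            e := by
    rintro ⟨p, hp⟩
    have := hp.1.1
    let K := p.ResidueField
    have hker : RingHom.ker (algebraMap A K) = p := Ideal.ker_algebraMap_residueField p
    have hK : ∀ z : K, ∃ a : A, algebraMap A K a ≠ 0 ∧
        ∃ b : A, algebraMap A K b = algebraMap A K a * z := by
      intro z
      obtain ⟨a, b, hb, rfl⟩ := IsFractionRing.div_surjective (A ⧸ p) z
      obtain ⟨a, rfl⟩ := Ideal.Quotient.mk_surjective a
      obtain ⟨b, rfl⟩ := Ideal.Quotient.mk_surjective b
      have h : algebraMap A K b ≠ 0 :=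
        IsFractionRing.to_map_ne_zero_of_mem_nonZeroDivisors (R := A ⧸ p) (K := K) hb
      exact ⟨b, h, a, (mul_div_cancel₀ _ h).symm⟩
    let Ω := AlgebraicClosure (FractionRing K[X])
    let _ : Algebra A[X] Ω := ((algebraMap K[X] Ω).comp (mapRingHom (algebraMap A K))).toAlgebra
    have hj : ∀ q : A[X], algebraMap A[X] Ω q = algebraMap K[X] Ω (q.map (algebraMap A K)) :=
      fun _ => rfl
    have : IsScalarTower k A[X] Ω := IsScalarTower.of_algebraMap_eq fun c => by
      rw [hj, IsScalarTower.algebraMap_apply k K[X] Ω, Polynomial.algebraMap_apply,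
        Polynomial.algebraMap_apply, map_C, ← IsScalarTower.algebraMap_apply k A K]
    have : FaithfulSMul K[X] Ω := (faithfulSMul_iff_algebraMap_injective _ _).2 (inj_closure _)
    have : Algebra.IsAlgebraic K[X] Ω :=
      (IsFractionRing.comap_isAlgebraic_iff (K := FractionRing K[X])).2 inferInstance
    obtain ⟨F, h1, h2⟩ := extract_aux hK (hker.symm ▸ hp) hj H hH e g hb
    exact ⟨F, fun Z hZ a ha => h1 Z hZ a (by rwa [← RingHom.mem_ker, hker]),
      fun W hW => h2 W (hW.trans hker.symm)⟩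
  choose F h1 h2 using key
  have : Fintype (minimalPrimes A) := (minimalPrimes.finite_of_isNoetherianRing A).fintype
  refine ⟨∑ p, F p, fun W => ?_⟩
  rw [map_sum, Finset.sum_eq_single ⟨_, W.dom⟩, h2 _ W rfl]
  · intro p _ hp
    have h3 : ¬ p.1 ≤ W.P.comap (algebraMap A (A ⊗[k] B)) := fun h =>
      hp (Subtype.ext (le_antisymm h (W.dom.2 p.2.1 h)))
    obtain ⟨a, ha, ha'⟩ := SetLike.not_le_iff_exists.1 h3
    have h4 : ∀ c : k, ∀ Z ∈ (F p).support, mult (fibre c Z) W = 0 := by
      intro c Z hZ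
      have := W.prime
      have h5 : ell W.P ((A ⊗[k] B) ⧸ fibre c Z) = 0 := by
        refine ell_eq_zero _ fun m => ⟨_, ha', ?_⟩
        obtain ⟨m, rfl⟩ := Submodule.Quotient.mk_surjective _ m
        rw [← Submodule.Quotient.mk_smul, Submodule.Quotient.mk_eq_zero]
        refine Ideal.mul_mem_right _ _ ?_
        have := Ideal.mem_map_of_mem (evT A B c) (h1 p Z hZ a ha)
        simpa [evT, fibre] using this
      exact congrArg ENat.toNat h5
    rw [lc_congr (g := fun _ => 0) fun Z hZ => by simp [h4 0 Z hZ, h4 1 Z hZ]]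
    simp [Finsupp.linearCombination_apply]
  · simp

/-- the functor of points of an affine scheme -/
abbrev Sp (k : Type u) [Field k] (A : Type u) [CommRing A] [Algebra k A] : Obj k where
  pt O := A →ₐ[k] O
  map σ x := σ.comp x

section Pow

variable {A : Type u} [CommRing A] [Algebra k A] {m : ℕ}

lemma pow_ext {S : Type*} [CommRing S] [Algebra k S] {f g : Pow k A m →ₐ[k] S}
    (h : ∀ i, f.comp (coord i) = g.comp (coord i)) : f = g :=
  PiTensorProduct.algHom_ext (A := fun _ : Fin m => A) h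

/-- a point of the power from a tuple of points -/
noncomputable def powLift {S : Type*} [CommRing S] [Algebra k S] (x : Fin m → (A →ₐ[k] S)) :
    Pow k A m →ₐ[k] S :=
  PiTensorProduct.liftAlgHom ((MultilinearMap.mkPiAlgebra k (Fin m) S).compLinearMap
    fun i => (x i).toLinearMap) (by simp) (by simp [Finset.prod_mul_distrib])

lemma powLift_incl {S : Type*} [CommRing S] [Algebra k S] (x : Fin m → (A →ₐ[k] S)) (i : Fin m) :
    (powLift x).comp (coord i) = x i := by
  ext a
  refine (PiTensorProduct.lift.tprod _).trans ?_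
  simp only [MultilinearMap.compLinearMap_apply, MultilinearMap.mkPiAlgebra_apply, AlgHom.toLinearMap_apply]
  rw [Finset.prod_eq_single i]
  · simp
  · intro j _ hj
    simp [Pi.mulSingle_eq_of_ne hj]
  · simp

lemma comp_powLift {S S' : Type*} [CommRing S] [Algebra k S] [CommRing S'] [Algebra k S']
    (σ : S →ₐ[k] S') (x : Fin m → (A →ₐ[k] S)) :
    σ.comp (powLift x) = powLift fun i => σ.comp (x i) :=
  pow_ext fun i => by rw [AlgHom.comp_assoc, powLift_incl, powLift_incl]

instance finiteType_pow [Algebra.FiniteType k A] : Algebra.FiniteType k (Pow k A m) := by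
  obtain ⟨n, f, hf⟩ := Algebra.FiniteType.iff_quotient_mvPolynomial''.1
    (inferInstance : Algebra.FiniteType k A)
  let F : MvPolynomial (Fin m × Fin n) k →ₐ[k] Pow k A m :=
    MvPolynomial.aeval fun p => coord p.1 (f (MvPolynomial.X p.2))
  refine Algebra.FiniteType.of_surjective F ?_
  have h1 : ∀ i a, coord i a ∈ F.range := by
    intro i a
    obtain ⟨q, rfl⟩ := hf a
    refine ⟨MvPolynomial.rename (Prod.mk i) q, ?_⟩
    have : F.comp (MvPolynomial.rename (Prod.mk i)) = (coord i).comp f := by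
      ext j
      simp [F]
    exact AlgHom.congr_fun this q
  have h2 : F.range.val.comp (powLift fun i => (coord i).codRestrict F.range (h1 i)) =
      AlgHom.id k _ := by
    refine pow_ext fun i => ?_
    rw [AlgHom.comp_assoc, powLift_incl]
    rfl
  intro z
  obtain ⟨q, hq⟩ := (powLift (fun i => (coord i).codRestrict F.range (h1 i)) z).2
  exact ⟨q, hq.trans (AlgHom.congr_fun h2 z)⟩

end Pow

theorem schurFinite_of_grow (A : Type u) [CommRing A] [Algebra k A] [Algebra.FiniteType k A]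
    (h : Grow (Sp k A)) : SchurFinite k A := by
  classical
  obtain ⟨m, hm, e, he, H, h1, h2⟩ := h.exists_block
  have : IsNoetherianRing (Pow k A m) := Algebra.FiniteType.isNoetherianRing k _
  obtain ⟨F, hF⟩ := extract (A := Pow k A m) (B := Pow k A m)
    (fun O x t => Finsupp.mapDomain powLift (H O (fun i => x.comp (coord i)) t))
    (fun O O' σ x t => by
      have := h1 O O' σ (fun i => x.comp (coord i)) t
      refine (congrArg (Finsupp.mapDomain powLift) this).trans ?_
      rw [← Finsupp.mapDomain_comp, ← Finsupp.mapDomain_comp]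
      congr 1
      funext y
      exact (comp_powLift σ y).symm)
    e.coeff (fun σ => powLift fun i => coord (σ i)) (fun O x => by
      rw [← mapDomain_sub', ← h2]
      have := map_lc (LinearMap.proj (R := ℚ) (fun i => x.comp (coord i)) ∘ₗ
        LinearMap.proj (R := ℚ) (φ := fun O : AIC k => ((Sp k A).pow m).pt O →
          (((Sp k A).pow m).pt O →₀ ℚ)) O) (perm (Sp k A)) e.coeff
      refine (congrArg (Finsupp.mapDomain powLift) this).trans ?_
      rw [mapDomain_lc]
      congr 2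
      funext σ
      simp [perm, comp_powLift])
  refine ⟨m, hm, e, he, F, fun W => (hF W).trans ?_⟩
  rw [Finsupp.linearCombination_apply]
  refine Finsupp.sum_congr fun σ _ => ?_
  rw [smul_eq_mul, graph]
  congr 1
  refine if_congr ⟨fun h i a => ?_, fun h b => ?_⟩ rfl rfl
  · have := h (coord i a)
    rwa [← AlgHom.comp_apply, powLift_incl] at this
  · have : ((Ideal.Quotient.mkₐ k W.P).comp Algebra.TensorProduct.includeLeft).comp
        (powLift fun i => coord (σ i)) =
        (Ideal.Quotient.mkₐ k W.P).comp Algebra.TensorProduct.includeRight := by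
      refine pow_ext fun i => ?_
      rw [AlgHom.comp_assoc, powLift_incl]
      ext a
      exact Ideal.Quotient.eq.2 (h i a)
    exact Ideal.Quotient.eq.1 (AlgHom.congr_fun this b)

end Pool.Agent.Lib.MP_fc2ced_ag.Naive
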