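import Mathlib

/-!
Finite correspondences between affine schemes as cycles, and Schur-finiteness up to
naive `A^1`-homotopy of finite correspondences with rational coefficients.
-/

namespace Pool.Agent.Lib.MP_fc2ced_ag.Naive

universe u

open scoped TensorProduct

variable (k : Type u) [Field k]

/-- An elementary finite correspondence from `Spec A` to `Spec B`: an integral closed subscheme
`V(P)` of `Spec A × Spec B` which is finite over `Spec A` and dominates (hence maps onto) an
irreducible component of `Spec A`. -/
structure Elem (A B : Type u) [CommRing A] [Algebra k A] [CommRing B] [Algebra k B] where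
  P : Ideal (A ⊗[k] B)
  prime : P.IsPrime
  finite : Module.Finite A ((A ⊗[k] B) ⧸ P)
  dom : P.comap (algebraMap A (A ⊗[k] B)) ∈ minimalPrimes A

variable {k}

/-- The multiplicity of `W` in the closed subscheme `V(I)`: the length of the local ring of
`V(I)` at the generic point of `W`. -/
noncomputable def mult {A B : Type u} [CommRing A] [Algebra k A] [CommRing B] [Algebra k B]
    (I : Ideal (A ⊗[k] B)) (W : Elem k A B) : ℕ :=
  haveI := W.prime
  (Module.length (Localization W.P.primeCompl)
    (LocalizedModule W.P.primeCompl ((A ⊗[k] B) ⧸ I))).toNat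

/-- The scheme-theoretic fibre at `t = c` of an elementary correspondence from
`Spec A × A^1 = Spec A[t]` to `Spec B`. -/
noncomputable def fibre {A B : Type u} [CommRing A] [Algebra k A] [CommRing B] [Algebra k B]
    (c : k) (Z : Elem k (Polynomial A) B) : Ideal (A ⊗[k] B) :=
  Z.P.map (Algebra.TensorProduct.map
    ((Polynomial.aeval (algebraMap k A c)).restrictScalars k) (AlgHom.id k B))

/-- The functions `a` on `Spec A` and `b` on `Spec B` agree on `W`. -/
def Elem.Agree {A B : Type u} [CommRing A] [Algebra k A] [CommRing B] [Algebra k B]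
    (W : Elem k A B) (a : A) (b : B) : Prop :=
  a ⊗ₜ[k] (1 : B) - (1 : A) ⊗ₜ[k] b ∈ W.P

/-- The cycle with coefficients `γ` is `H|_(t=0) - H|_(t=1)` for a finite correspondence `H` from
`Spec A × A^1` to `Spec B` with rational coefficients. -/
def NullHtpy {A B : Type u} [CommRing A] [Algebra k A] [CommRing B] [Algebra k B]
    (γ : Elem k A B → ℚ) : Prop :=
  ∃ H : Elem k (Polynomial A) B →₀ ℚ, ∀ W : Elem k A B,
    (H.sum fun Z c => c * ((mult (fibre 0 Z) W : ℚ) - (mult (fibre 1 Z) W : ℚ))) = γ W

variable (k)

/-- The coordinate ring `A ⊗ ⋯ ⊗ A` of the `m`-th power of `Spec A` over `k`. -/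
def Pow (A : Type u) [CommRing A] [Algebra k A] (m : ℕ) : Type u :=
  PiTensorProduct k (fun _ : Fin m => A)

noncomputable instance instCommRingPow (A : Type u) [CommRing A] [Algebra k A] (m : ℕ) :
    CommRing (Pow k A m) :=
  PiTensorProduct.instCommRing

noncomputable instance instAlgebraPow (A : Type u) [CommRing A] [Algebra k A] (m : ℕ) :
    Algebra k (Pow k A m) :=
  PiTensorProduct.instAlgebra

variable {k}

/-- The pull-back of functions along the `i`-th projection `X^m → X`. -/
noncomputable def coord {A : Type u} [CommRing A] [Algebra k A] {m : ℕ} (i : Fin m) :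
    A →ₐ[k] Pow k A m :=
  PiTensorProduct.singleAlgHom (R := k) (A := fun _ : Fin m => A) i

open Classical in
/-- The coefficient of `W` in the graph of the automorphism `(x_i) ↦ (x_(σ i))` of `X^m`,
`X = Spec A`: it is `1` if `W` lies on the graph, and `0` otherwise. -/
noncomputable def graph {A : Type u} [CommRing A] [Algebra k A] {m : ℕ} (σ : Equiv.Perm (Fin m))
    (W : Elem k (Pow k A m) (Pow k A m)) : ℚ :=
  if ∀ (i : Fin m) (a : A), W.Agree (coord (σ i) a) (coord i a) then 1 else 0

/-- `e` is a primitive central idempotent of `ℚ[S_m]`, i.e. the idempotent `e_λ` of one of the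
irreducible representations `V_λ`. -/
def IsBlock {m : ℕ} (e : MonoidAlgebra ℚ (Equiv.Perm (Fin m))) : Prop :=
  e ≠ 0 ∧ e * e = e ∧ (∀ x, x * e = e * x) ∧
    ∀ f : MonoidAlgebra ℚ (Equiv.Perm (Fin m)), f * f = f → (∀ x, x * f = f * x) →
      f * e = 0 ∨ f * e = e

variable (k)

/-- `X = Spec A` is Schur-finite up to naive `A^1`-homotopy: for some `m ≥ 1` and some block
idempotent `e = e_λ` of `ℚ[S_m]`, the finite correspondence `∑ e(σ) Γ_σ` from `X^m` to `X^m` is
`H|_(t=0) - H|_(t=1)` for a finite correspondence `H` from `X^m × A^1` to `X^m` with rational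
coefficients. -/
def SchurFinite (A : Type u) [CommRing A] [Algebra k A] : Prop :=
  ∃ m : ℕ, 1 ≤ m ∧ ∃ e : MonoidAlgebra ℚ (Equiv.Perm (Fin m)), IsBlock e ∧
    NullHtpy fun W : Elem k (Pow k A m) (Pow k A m) => e.coeff.sum fun σ c => c * graph σ W

end Pool.Agent.Lib.MP_fc2ced_ag.Naive
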