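import Mathlib

/-!
The indicator function of the commutator subgroup of the unitriangular group generates the
whole group algebra of `GL_n(F)` as a two-sided ideal.
-/

namespace Pool.Agent.Lib.MP_fc2ced_ag.Naive

open Matrix

variable {F : Type*} [Field F] {n : ℕ}

/-- rows `≥ r` are free two steps below the diagonal -/
def PatA (r : ℕ) (N : Matrix (Fin n) (Fin n) F) : Prop :=
  ∀ i l, N i l ≠ 0 → r ≤ (i : ℕ) ∧ (l : ℕ) + 1 < i

/-- row `r` is free below the diagonal -/
def PatB (r : ℕ) (N : Matrix (Fin n) (Fin n) F) : Prop :=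
  ∀ i l, N i l ≠ 0 → r ≤ (i : ℕ) ∧ ((l : ℕ) < r ∨ (l : ℕ) + 1 < i)

/-- block matrices -/
def Blk (r : ℕ) (h : Matrix (Fin n) (Fin n) F) : Prop :=
  ∀ i l : Fin n, r ≤ (i : ℕ) ∨ r ≤ (l : ℕ) → h i l = (1 : Matrix (Fin n) (Fin n) F) i l

lemma Blk.mul_apply_left {r : ℕ} {h : Matrix (Fin n) (Fin n) F} (hh : Blk r h)
    (N : Matrix (Fin n) (Fin n) F) {i : Fin n} (hi : r ≤ (i : ℕ)) (l : Fin n) :
    (h * N) i l = N i l := by
  conv_rhs => rw [← Matrix.one_mul N]
  simp only [Matrix.mul_apply, hh i _ (Or.inl hi)]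

lemma Blk.mul_apply_right {r : ℕ} {h : Matrix (Fin n) (Fin n) F} (hh : Blk r h)
    (N : Matrix (Fin n) (Fin n) F) (i : Fin n) {l : Fin n} (hl : r ≤ (l : ℕ)) :
    (N * h) i l = N i l := by
  conv_rhs => rw [← Matrix.mul_one N]
  simp only [Matrix.mul_apply, hh _ l (Or.inr hl)]

lemma Blk.inv {r : ℕ} {h h' : Matrix (Fin n) (Fin n) F} (hh : Blk r h) (h1 : h * h' = 1)
    (h2 : h' * h = 1) : Blk r h' := by
  rintro i l (hi | hl)
  · rw [← h1, hh.mul_apply_left _ hi]
  · rw [← h2, hh.mul_apply_right _ _ hl]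

lemma PatB.conj {r : ℕ} {h h' N : Matrix (Fin n) (Fin n) F} (hN : PatB r N) (hh : Blk r h)
    (hh' : Blk r h') : PatB r (h' * N * h) := by
  have h1 : h' * N = N := by
    ext i l
    by_cases hi : r ≤ (i : ℕ)
    · exact hh'.mul_apply_left _ hi _
    have h0 : ∀ m : Fin n, ¬ r ≤ (m : ℕ) → N m l = 0 := fun m hm => by
      by_contra h
      exact hm (hN m l h).1
    rw [h0 i hi, Matrix.mul_apply]
    refine Finset.sum_eq_zero fun m _ => ?_
    by_cases hm : r ≤ (m : ℕ)
    · rw [hh' _ _ (Or.inr hm), Matrix.one_apply_ne (by rintro rfl; exact hi hm), zero_mul]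
    · rw [h0 m hm, mul_zero]
  rw [h1]
  intro i l hil
  by_cases hl : r ≤ (l : ℕ)
  · rw [hh.mul_apply_right _ _ hl] at hil
    exact hN i l hil
  refine ⟨?_, Or.inl (not_le.1 hl)⟩
  rw [Matrix.mul_apply] at hil
  obtain ⟨m, -, hm⟩ := Finset.exists_ne_zero_of_sum_ne_zero hil
  exact (hN i m (left_ne_zero_of_mul hm)).1

lemma exists_blk {r : ℕ} (s : Fin n) (hs : (s : ℕ) < r) (φ : Fin n → F) (j : Fin n)
    (hj : φ j ≠ 0) (hφ : ∀ l : Fin n, r ≤ (l : ℕ) → φ l = 0) :
    ∃ h : Matrix (Fin n) (Fin n) F, h.det ≠ 0 ∧ Blk r h ∧ ∀ l, h l s = φ l := by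
  have hjr : ¬ r ≤ (j : ℕ) := fun h => hj (hφ j h)
  refine ⟨((1 : Matrix (Fin n) (Fin n) F).updateCol j φ).submatrix id (Equiv.swap j s), ?_, ?_,
    fun l => by simp⟩
  · rw [Matrix.det_permute', ← Matrix.cramer_apply, Matrix.cramer_one]
    refine mul_ne_zero ?_ hj
    rcases Int.units_eq_one_or (Equiv.Perm.sign (Equiv.swap j s)) with h | h <;> simp [h]
  · rintro i l (hi | hl)
    · have h1 : i ≠ j := by rintro rfl; exact hjr hi
      have h2 : i ≠ s := by rintro rfl; omega
      by_cases hl : l = s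
      · subst hl
        simp [hφ i hi, Matrix.one_apply_ne h2]
      · rw [Matrix.submatrix_apply, Matrix.updateCol_ne (by
          rw [Ne, Equiv.swap_apply_eq_iff, Equiv.swap_apply_left]; exact hl), id,
          Matrix.one_apply, Matrix.one_apply]
        congr 1
        rw [eq_comm (a := i), Equiv.swap_apply_eq_iff, Equiv.swap_apply_of_ne_of_ne h1 h2,
          eq_comm (a := i)]
    · have h1 : l ≠ j := by rintro rfl; exact hjr hl
      have h2 : l ≠ s := by rintro rfl; omega
      rw [Matrix.submatrix_apply, Equiv.swap_apply_of_ne_of_ne h1 h2, Matrix.updateCol_ne h1, id]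

open Classical in
/-- indicator functions -/
noncomputable def ind (p : Matrix (Fin n) (Fin n) F → Prop) (g : Matrix (Fin n) (Fin n) F) : ℚ :=
  if p (g - 1) then 1 else 0

lemma ind_congr {p p' : Matrix (Fin n) (Fin n) F → Prop} {g g' : Matrix (Fin n) (Fin n) F}
    (h : p (g - 1) ↔ p' (g' - 1)) : ind p g = ind p' g' := by
  classical
  exact if_congr h rfl rfl

variable [Fintype F]

lemma sum_ker [DecidableEq F] {v : Fin n → F} (hv : v ≠ 0) :
    ∑ φ : Fin n → F, ((Fintype.card F : ℚ) * (if v ⬝ᵥ φ = 0 then 1 else 0) - 1) = 0 := by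
  obtain ⟨j, hj⟩ := Function.ne_iff.1 hv
  have h1 : ∀ b : F, ∑ φ : Fin n → F, (if v ⬝ᵥ φ = 0 then (1 : ℚ) else 0) =
      ∑ φ : Fin n → F, (if v ⬝ᵥ φ = b then (1 : ℚ) else 0) := by
    intro b
    rw [← Equiv.sum_comp (Equiv.subRight (Pi.single j (b / v j)))]
    refine Finset.sum_congr rfl fun φ _ => ?_
    have : v j * (b / v j) = b := mul_div_cancel₀ _ hj
    simp [this, sub_eq_zero]
  rw [Finset.sum_sub_distrib, ← Finset.mul_sum, ← nsmul_eq_mul, ← Finset.card_univ,
    ← Finset.sum_const, Finset.sum_congr rfl fun b _ => h1 b, Finset.sum_comm]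
  simp

theorem one_mem_of_patA (J : Submodule ℚ (Matrix (Fin n) (Fin n) F → ℚ))
    (hJ : ∀ e ∈ J, ∀ h h' : Matrix (Fin n) (Fin n) F, h.det ≠ 0 → h'.det ≠ 0 →
      (fun g => e (h * g * h')) ∈ J) (hD : ind (PatA 0) ∈ J) : ind (· = 0) ∈ J := by
  classical
  have key : ∀ r, ind (PatA r) ∈ J := by
    intro r
    induction r with
    | zero => exact hD
    | succ r ih =>
    by_cases hr : 0 < r ∧ r < n
    swap
    · convert ih using 1
      funext g
      refine ind_congr (forall₃_congr fun i l _ => ?_)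
      have := i.2
      omega
    let ρ : Fin n := ⟨r, hr.2⟩
    let s : Fin n := ⟨r - 1, by omega⟩
    have hρ : (ρ : ℕ) = r := rfl
    have hs : (s : ℕ) + 1 = r := by simp only [s]; omega
    have hne : ρ ≠ s := fun h => by have := congrArg Fin.val h; omega
    have h1 : ∀ N : Matrix (Fin n) (Fin n) F, PatA r N ↔ PatB r N ∧ N ρ s = 0 := by
      refine fun N => ⟨fun h => ⟨fun i l h' => ?_, ?_⟩, fun h i l h' => ?_⟩
      · have := h i l h'
        omega
      · by_contra h'
        have := h _ _ h'
        omega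
      · have h2 := h.1 i l h'
        have h3 : ¬ ((i : ℕ) = ρ ∧ (l : ℕ) = s) := fun h3 => by
          rw [Fin.ext h3.1, Fin.ext h3.2] at h'
          exact h' h.2
        omega
    have h2 : ind (PatB r) ∈ J := by
      have : ind (PatB r) = ∑ b : F, fun g => ind (PatA r) (transvection ρ s b * g * 1) := by
        funext g
        have h3 : ∀ b : F, ind (PatA r) (transvection ρ s b * g * 1) =
            ind (fun N => PatB r N ∧ N ρ s = -b) g := by
          intro b
          refine ind_congr ?_
          rw [h1, Matrix.mul_one]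
          have h4 : ∀ i l, i ≠ ρ → (transvection ρ s b * g - 1) i l = (g - 1) i l :=
            fun i l hi => by simp [transvection_mul_apply_of_ne _ _ _ _ hi]
          have h5 : (∀ l, (g - 1) s l = 0) → ∀ l, (transvection ρ s b * g - 1) ρ l =
              (g - 1) ρ l + b * (1 : Matrix (Fin n) (Fin n) F) s l := fun h l => by
            have := h l
            rw [Matrix.sub_apply, sub_eq_zero] at this
            simp only [Matrix.sub_apply, transvection_mul_apply_same, this]
            ring
          have h6 : ∀ N : Matrix (Fin n) (Fin n) F, PatB r N → ∀ l, N s l = 0 := fun N h l => by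
            by_contra h'
            have := h _ _ h'
            omega
          have h7 : ∀ N N' : Matrix (Fin n) (Fin n) F, PatB r N → (∀ i l, i ≠ ρ → N i l = N' i l) →
              (∀ l, l ≠ s → N ρ l = N' ρ l) → PatB r N' := fun N N' h ha hb i l h' => by
            by_cases hi : i = ρ
            · subst hi
              by_cases hl : l = s
              · subst hl
                omega
              · exact h _ _ (hb l hl ▸ h')
            · exact h _ _ (ha i l hi ▸ h')
          constructor
          · rintro ⟨h, h'⟩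
            have h8 := h5 fun l => (h4 s l hne.symm).symm.trans (h6 _ h l)
            refine ⟨h7 _ _ h h4 fun l hl => by simp [h8, Matrix.one_apply_ne hl.symm], ?_⟩
            rw [h8, Matrix.one_apply_eq, mul_one] at h'
            exact eq_neg_of_add_eq_zero_left h'
          · rintro ⟨h, h'⟩
            have h8 := h5 (h6 _ h)
            refine ⟨h7 _ _ h (fun i l hi => (h4 i l hi).symm)
              fun l hl => by simp [h8, Matrix.one_apply_ne hl.symm], ?_⟩
            rw [h8, h']
            simp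
        simp only [Finset.sum_apply, h3]
        simp only [ind]
        by_cases h : PatB r (g - 1)
        · simp [h, ← neg_eq_iff_eq_neg]
        · simp [h]
      rw [this]
      exact Submodule.sum_mem _ fun b _ => hJ _ ih _ _
        (by rw [det_transvection_of_ne _ _ hne]; exact one_ne_zero) (by simp)
    have h3 : ∀ φ : Fin n → F, ind (fun N => PatB r N ∧ N ρ ⬝ᵥ φ = 0) ∈ J := by
      intro φ
      let ψ : Fin n → F := fun l => if r ≤ (l : ℕ) then 0 else φ l
      have h4 : ∀ N : Matrix (Fin n) (Fin n) F, PatB r N → N ρ ⬝ᵥ φ = N ρ ⬝ᵥ ψ := by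
        refine fun N h => Finset.sum_congr rfl fun l _ => ?_
        by_cases hl : r ≤ (l : ℕ)
        · have : N ρ l = 0 := by
            by_contra h'
            have := h _ _ h'
            omega
          simp [this]
        · simp [ψ, hl]
      by_cases hψ : ψ = 0
      · convert h2 using 1
        funext g
        exact ind_congr (and_iff_left_of_imp fun h => by simp [h4 _ h, hψ])
      obtain ⟨j, hj⟩ := Function.ne_iff.1 hψ
      obtain ⟨h, hd, hb, hc⟩ := exists_blk (r := r) s (by omega) ψ j hj fun l hl => if_pos hl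
      have hu : IsUnit h.det := hd.isUnit
      have hb' := hb.inv (mul_nonsing_inv h hu) (nonsing_inv_mul h hu)
      convert hJ _ ih h⁻¹ h (isUnit_nonsing_inv_det h hu).ne_zero hd using 1
      funext g
      refine ind_congr ?_
      have h5 : h⁻¹ * g * h - 1 = h⁻¹ * (g - 1) * h := by
        rw [Matrix.mul_sub, Matrix.sub_mul, Matrix.mul_one, nonsing_inv_mul h hu]
      have h6 : (h⁻¹ * (g - 1) * h) ρ s = (g - 1) ρ ⬝ᵥ ψ := by
        rw [Matrix.mul_assoc, hb'.mul_apply_left _ le_rfl, Matrix.mul_apply]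
        simp only [hc]
        rfl
      rw [h1, h5, h6]
      refine ⟨fun H => ⟨H.1.conj hb hb', h4 _ H.1 ▸ H.2⟩, fun H => ?_⟩
      have h7 := H.1.conj hb' hb
      rw [← Matrix.mul_assoc, ← Matrix.mul_assoc, mul_nonsing_inv h hu, Matrix.one_mul,
        Matrix.mul_assoc, mul_nonsing_inv h hu, Matrix.mul_one] at h7
      exact ⟨h7, h4 _ h7 ▸ H.2⟩
    have h4 : ∑ φ : Fin n → F, ((Fintype.card F : ℚ) • ind (fun N => PatB r N ∧ N ρ ⬝ᵥ φ = 0) -
        ind (PatB r)) = ((Fintype.card (Fin n → F) : ℚ) * ((Fintype.card F : ℚ) - 1)) •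
          ind (PatA (r + 1)) := by
      funext g
      have h5 : PatA (r + 1) (g - 1) ↔ PatB r (g - 1) ∧ (g - 1) ρ = 0 := by
        refine ⟨fun h => ⟨fun i l h' => ?_, funext fun l => ?_⟩, fun h i l h' => ?_⟩
        · have := h i l h'
          omega
        · by_contra h'
          have := h _ _ h'
          omega
        · have h2 := h.1 i l h'
          have h3 : (i : ℕ) ≠ ρ := fun h3 => by
            rw [Fin.ext h3, h.2] at h'
            exact h' rfl
          omega
      simp only [Finset.sum_apply, Pi.sub_apply, Pi.smul_apply, ind, smul_eq_mul, h5]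
      by_cases h : PatB r (g - 1)
      · by_cases h' : (g - 1) ρ = 0
        · simp [h, h', mul_sub]
        · simp only [h, h', true_and, if_true, if_false, mul_zero]
          convert sum_ker h'
      · simp [h]
    have h5 := h4 ▸ Submodule.sum_mem J fun φ _ =>
      Submodule.sub_mem _ (Submodule.smul_mem _ (Fintype.card F : ℚ) (h3 φ)) h2
    refine (Submodule.smul_mem_iff _ (mul_ne_zero ?_ (sub_ne_zero.2 ?_))).1 h5
    · exact_mod_cast Fintype.card_ne_zero
    · exact_mod_cast Fintype.one_lt_card.ne'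
  convert key n using 1
  funext g
  refine ind_congr ⟨fun h i l h' => absurd (by rw [h]; rfl) h', fun h => ?_⟩
  ext i l
  by_contra h'
  have := h _ _ h'
  have := i.2
  omega

end Pool.Agent.Lib.MP_fc2ced_ag.Naive
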