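import Mathlib

/-!
Iterated `q`-polynomials and the Moore determinant.
-/

namespace Pool.Agent.Lib.MP_fc2ced_ag.Naive

open Polynomial

variable {O : Type*} [CommRing O]

/-- iterated `q`-polynomials with prescribed parameters -/
noncomputable def qp (q : ℕ) (z : ℕ → O) : ℕ → O[X]
  | 0 => X
  | j + 1 => qp q z j ^ q - C (z j ^ (q - 1)) * qp q z j

/-- the `q`-polynomial vanishing on the span of the first `j` entries -/
noncomputable def mp (q : ℕ) (x : ℕ → O) : ℕ → O[X]
  | 0 => X
  | j + 1 => mp q x j ^ q - C ((mp q x j).eval (x j) ^ (q - 1)) * mp q x j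

/-- the factors of the Moore determinant -/
noncomputable def mz (q : ℕ) (x : ℕ → O) (j : ℕ) : O := (mp q x j).eval (x j)

lemma mp_eq (q : ℕ) (x z : ℕ → O) (j : ℕ) (h : ∀ l < j, mz q x l = z l) :
    mp q x j = qp q z j := by
  induction j with
  | zero => rfl
  | succ j ih =>
    rw [mp, qp, ← h j (Nat.lt_succ_self j), mz, ih fun l hl => h l (Nat.lt_succ_of_lt hl)]

lemma qp_map {O' : Type*} [CommRing O'] (σ : O →+* O') (q : ℕ) (z : ℕ → O) (j : ℕ) :
    (qp q z j).map σ = qp q (fun l => σ (z l)) j := by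
  induction j with
  | zero => simp [qp]
  | succ j ih => simp [qp, ih]

lemma mp_map {O' : Type*} [CommRing O'] (σ : O →+* O') (q : ℕ) (x : ℕ → O) (j : ℕ) :
    (mp q x j).map σ = mp q (fun l => σ (x l)) j := by
  induction j with
  | zero => simp [mp]
  | succ j ih => simp [mp, ← ih, eval_map, eval₂_at_apply]

lemma qp_monic [Nontrivial O] {q : ℕ} (hq : 1 < q) (z : ℕ → O) (j : ℕ) :
    (qp q z j).Monic ∧ 0 < (qp q z j).natDegree := by
  induction j with
  | zero => simp [qp]
  | succ j ih =>
    have h : (C (z j ^ (q - 1)) * qp q z j).natDegree < (qp q z j ^ q).natDegree := by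
      refine (natDegree_C_mul_le _ _).trans_lt ?_
      rw [ih.1.natDegree_pow]
      nlinarith [ih.2]
    refine ⟨(ih.1.pow q).sub_of_left (degree_lt_degree h), ?_⟩
    rw [qp, natDegree_sub_eq_left_of_natDegree_lt h]
    omega

lemma mp_eval_zero {q : ℕ} (hq : 0 < q) (x : ℕ → O) {i j : ℕ} (h : i < j) :
    (mp q x j).eval (x i) = 0 := by
  induction j with
  | zero => omega
  | succ j ih =>
    rw [mp, eval_sub, eval_mul, eval_pow, eval_C]
    rcases Nat.lt_succ_iff_lt_or_eq.1 h with h | rfl
    · simp [ih h, hq.ne']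
    · rw [← pow_succ, Nat.sub_add_cancel hq, sub_self]

variable (F : Type*) [Field F] [Fintype F] [Algebra F O]

lemma pow_card_sub (w : O) {z : O} (hz : IsUnit z) :
    w ^ Fintype.card F - z ^ (Fintype.card F - 1) * w = ∏ b : F, (w - b • z) := by
  obtain ⟨v, rfl⟩ := hz.dvd (a := w)
  have h1 : (X ^ Fintype.card F - X : F[X]) = ∏ b : F, (X - C b) := by
    have hm : (X ^ Fintype.card F - X : F[X]).Monic := monic_X_pow_sub (by
      rw [degree_X]; exact_mod_cast Fintype.one_lt_card)
    rw [← prod_multiset_X_sub_C_of_monic_of_roots_card_eq hm (by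
      rw [FiniteField.roots_X_pow_card_sub_X,
        FiniteField.X_pow_card_sub_X_natDegree_eq _ Fintype.one_lt_card]
      rfl), FiniteField.roots_X_pow_card_sub_X]
    rfl
  have h2 := congrArg (aeval v) h1
  simp only [map_sub, map_pow, aeval_X, map_prod, aeval_C] at h2
  have h3 : ∀ b : F, z * v - b • z = z * (v - algebraMap F O b) := fun b => by
    rw [Algebra.smul_def]
    ring
  simp only [h3, Finset.prod_mul_distrib, Finset.prod_const, Finset.card_univ, ← h2]
  rw [← mul_assoc, ← pow_succ, Nat.sub_add_cancel Fintype.card_pos]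
  ring

lemma mp_eval_add (x : ℕ → O) (j : ℕ) (y w : O) (b : F) :
    (mp (Fintype.card F) x j).eval (y + b • w) =
      (mp (Fintype.card F) x j).eval y + b • (mp (Fintype.card F) x j).eval w := by
  induction j with
  | zero => simp [mp]
  | succ j ih =>
    simp only [mp, eval_sub, eval_mul, eval_pow, eval_C, ih]
    have h := map_add (FiniteField.frobeniusAlgHom F O) ((mp (Fintype.card F) x j).eval y)
      (b • (mp (Fintype.card F) x j).eval w)
    rw [map_smul] at h
    simp only [FiniteField.coe_frobeniusAlgHom] at h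
    rw [h]
    simp only [Algebra.smul_def]
    ring

/-- extension by zero -/
def ext0 {n : ℕ} (x : Fin n → O) (l : ℕ) : O := if h : l < n then x ⟨l, h⟩ else 0

lemma ext0_val {n : ℕ} (x : Fin n → O) (i : Fin n) : ext0 x i = x i := by simp [ext0]

lemma ext0_map {O' : Type*} [CommRing O'] (σ : O →+* O') {n : ℕ} (x : Fin n → O) :
    ext0 (fun i => σ (x i)) = fun l => σ (ext0 x l) := by
  funext l
  by_cases h : l < n <;> simp [ext0, h]

open Classical in
/-- vectors supported below `j` -/
noncomputable def below (n j : ℕ) : Finset (Fin n → F) :=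
  Finset.univ.filter fun a => ∀ l, a l ≠ 0 → (l : ℕ) < j

lemma mp_prod {n : ℕ} (x : Fin n → O) (j : ℕ) (hj : j ≤ n)
    (hz : ∀ l < j, IsUnit (mz (Fintype.card F) (ext0 x) l)) (y : O) :
    mp (Fintype.card F) (ext0 x) j - C ((mp (Fintype.card F) (ext0 x) j).eval y) =
      ∏ a ∈ below F n j, (X - C (y + ∑ l, a l • x l)) := by
  classical
  induction j generalizing y with
  | zero =>
    have : below F n 0 = {0} := by
      ext a
      simp [below, funext_iff]
    simp [this, mp]
  | succ j ih =>
    have h1 := pow_card_sub F (mp (Fintype.card F) (ext0 x) j -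
      C ((mp (Fintype.card F) (ext0 x) j).eval y)) ((hz j (Nat.lt_succ_self j)).map C)
    have h2 := map_sub (FiniteField.frobeniusAlgHom F O[X]) (mp (Fintype.card F) (ext0 x) j)
      (C ((mp (Fintype.card F) (ext0 x) j).eval y))
    simp only [FiniteField.coe_frobeniusAlgHom] at h2
    have h3 : ∀ b : F, mp (Fintype.card F) (ext0 x) j -
        C ((mp (Fintype.card F) (ext0 x) j).eval y) - b • C (mz (Fintype.card F) (ext0 x) j) =
        ∏ a ∈ below F n j, (X - C (y + b • x ⟨j, hj⟩ + ∑ l, a l • x l)) := fun b => by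
      rw [← ih (Nat.le_of_succ_le hj) (fun l hl => hz l (Nat.lt_succ_of_lt hl)), mp_eval_add,
        map_add, sub_sub, smul_C, mz, ← ext0_val x ⟨j, hj⟩]
    rw [h2] at h1
    simp only [h3] at h1
    rw [← Finset.prod_product' Finset.univ (below F n j)
      fun b a => (X - C (y + b • x ⟨j, hj⟩ + ∑ l, a l • x l) : O[X])] at h1
    refine Eq.trans ?_ (h1.trans ?_)
    · simp only [mp, mz, eval_sub, eval_mul, eval_pow, eval_C, map_sub, map_mul, map_pow]
      ring
    refine Finset.prod_bij' (fun p _ => p.2 + Pi.single ⟨j, hj⟩ p.1)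
      (fun a _ => (a ⟨j, hj⟩, a - Pi.single ⟨j, hj⟩ (a ⟨j, hj⟩))) ?_ ?_ ?_ ?_ ?_
    · rintro ⟨b, a⟩ h
      simp only [below, Finset.mem_product, Finset.mem_filter, Finset.mem_univ, true_and] at h ⊢
      intro l hl
      by_cases h' : l = ⟨j, hj⟩
      · simp [h']
      · exact Nat.lt_succ_of_lt (h l (by simpa [h'] using hl))
    · intro a h
      simp only [below, Finset.mem_product, Finset.mem_filter, Finset.mem_univ, true_and] at h ⊢
      intro l hl
      by_cases h' : l = ⟨j, hj⟩
      · simp [h'] at hl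
      · have := h l (by simpa [h'] using hl)
        have : (l : ℕ) ≠ j := fun h => h' (Fin.ext h)
        omega
    · rintro ⟨b, a⟩ h
      simp only [below, Finset.mem_product, Finset.mem_filter, Finset.mem_univ, true_and] at h
      have : a ⟨j, hj⟩ = 0 := by
        by_contra h'
        exact lt_irrefl _ (h _ h')
      simp [this]
    · intro a _
      simp
    · rintro ⟨b, a⟩ _
      simp only [Pi.add_apply, add_smul, Finset.sum_add_distrib]
      rw [Fintype.sum_single_smul, add_assoc, add_comm (b • _)]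

lemma mp_coeff (x : ℕ → O) (j : ℕ) : ∃ c : ℕ → O, c j = 1 ∧ (∀ l, j < l → c l = 0) ∧
    ∀ y, (mp (Fintype.card F) x j).eval y =
      ∑ l ∈ Finset.range (j + 1), y ^ Fintype.card F ^ l * c l := by
  induction j with
  | zero => exact ⟨fun l => if l = 0 then 1 else 0, rfl, fun l hl => if_neg hl.ne', by simp [mp]⟩
  | succ j ih =>
    obtain ⟨c, h1, h2, h3⟩ := ih
    refine ⟨fun l => (Nat.casesOn l 0 fun l => c l ^ Fintype.card F : O) -
      mz (Fintype.card F) x j ^ (Fintype.card F - 1) * c l, by simp [h1, h2], fun l hl => ?_,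
      fun y => ?_⟩
    · obtain ⟨l, rfl⟩ := Nat.exists_eq_add_of_lt hl
      simp [h2 (j + 1 + l) (by omega), h2 (j + 1 + l + 1) (by omega)]
    · simp only [mul_sub, Finset.sum_sub_distrib]
      rw [Finset.sum_range_succ', Finset.sum_range_succ _ (j + 1), h2 _ (Nat.lt_succ_self j), mp,
        eval_sub, eval_mul, eval_pow, eval_C, h3 y, Finset.mul_sum]
      have h := map_sum (FiniteField.frobeniusAlgHom F O)
        (fun l => y ^ Fintype.card F ^ l * c l) (Finset.range (j + 1))
      simp only [FiniteField.coe_frobeniusAlgHom] at h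
      simp [h, mz, mul_pow, pow_succ, pow_mul, mul_left_comm]

/-- the Moore determinant -/
def moore (q : ℕ) {n : ℕ} (x : Fin n → O) : O :=
  (Matrix.of fun i j : Fin n => x i ^ q ^ (j : ℕ)).det

lemma moore_map {O' : Type*} [CommRing O'] (σ : O →+* O') (q : ℕ) {n : ℕ} (x : Fin n → O) :
    moore q (fun i => σ (x i)) = σ (moore q x) := by
  rw [moore, moore, RingHom.map_det]
  congr 1
  ext i j
  simp

lemma moore_eq {n : ℕ} (x : Fin n → O) :
    moore (Fintype.card F) x = ∏ j ∈ Finset.range n, mz (Fintype.card F) (ext0 x) j := by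
  choose c h1 h2 h3 using mp_coeff F (ext0 x)
  have h4 : (Matrix.of fun i j : Fin n => x i ^ Fintype.card F ^ (j : ℕ)) *
      (Matrix.of fun l j : Fin n => c j l) =
      Matrix.of fun i j : Fin n => (mp (Fintype.card F) (ext0 x) j).eval (x i) := by
    ext i j
    simp only [Matrix.mul_apply, Matrix.of_apply, h3]
    rw [Fin.sum_univ_eq_sum_range fun l => x i ^ Fintype.card F ^ l * c j l]
    refine (Finset.sum_subset (Finset.range_subset_range.2 j.2) fun l _ hl => ?_).symm
    rw [h2 _ _ (by simpa using hl), mul_zero]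
  have h5 := congrArg Matrix.det h4
  rw [Matrix.det_mul, Matrix.det_of_isUpperTriangular (M := Matrix.of fun l j : Fin n => c j l)
    fun l j h => h2 _ _ h, Matrix.det_of_isLowerTriangular (Matrix.of fun i j : Fin n =>
      (mp (Fintype.card F) (ext0 x) j).eval (x i)) fun i j h => by
        rw [Matrix.of_apply, ← ext0_val x i]
        exact mp_eval_zero Fintype.card_pos _ h] at h5
  simp only [Matrix.of_apply, h1, Finset.prod_const_one, mul_one] at h5
  rw [moore, h5, ← Fin.prod_univ_eq_prod_range]
  simp only [mz, ext0_val]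

lemma moore_act {n : ℕ} (g : Matrix (Fin n) (Fin n) F) (x : Fin n → O) :
    moore (Fintype.card F) (fun i => ∑ l, g i l • x l) =
      algebraMap F O g.det * moore (Fintype.card F) x := by
  rw [moore, moore, RingHom.map_det, ← Matrix.det_mul]
  congr 1
  ext i j
  have h := map_sum (FiniteField.frobeniusAlgHom F O ^ (j : ℕ)) (fun l => g i l • x l) Finset.univ
  simp only [map_smul, AlgHom.coe_pow, FiniteField.coe_frobeniusAlgHom, pow_iterate] at h
  rw [Matrix.of_apply, h]
  simp [Matrix.mul_apply, Algebra.smul_def]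

end Pool.Agent.Lib.MP_fc2ced_ag.Naive
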