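import Pool.Agent.Lib.MP_fc2ced_ag.NCyc

/-!
Tools for building correspondences: affine line, roots of monic polynomials, subobjects,
hypersurfaces.
-/

namespace Pool.Agent.Lib.MP_fc2ced_ag.Naive

universe u

open Finsupp

variable {k : Type u} [Field k]

/-- the affine line -/
abbrev Aff (k : Type u) [Field k] : Obj k where
  pt O := O
  map σ := σ

lemma exists_lift_fam {X Y Y' : Obj k} (ι : ∀ O, Y.pt O → Y'.pt O)
    (hι : ∀ O, Function.Injective (ι O))
    (hn : ∀ (O O' : AIC k) (σ : O →ₐ[k] O') y, ι O' (Y.map σ y) = Y'.map σ (ι O y))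
    (γ : Fam X Y') (hγ : IsNat γ) (hs : ∀ O x, ∀ y ∈ (γ O x).support, y ∈ Set.range (ι O)) :
    ∃ δ : Fam X Y, IsNat δ ∧ ∀ O x, mapDomain (ι O) (δ O x) = γ O x := by
  have h : ∀ O x, mapDomain (ι O) (comapDomain (ι O) (γ O x) (hι O).injOn) = γ O x :=
    fun O x => mapDomain_comapDomain _ (hι O) _ (hs O x)
  refine ⟨_, fun O O' σ x => mapDomain_injective (hι O') ?_, h⟩
  rw [h, hγ, ← mapDomain_comp]
  conv_lhs => rw [← h, ← mapDomain_comp]
  congr 1
  funext y
  exact (hn O O' σ y).symm

lemma comp_assoc' {X Y Z W : Obj k} (c : Fam Z W) (b : Fam Y Z) (a : Fam X Y) :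
    comp c (comp b a) = comp (comp c b) a := by
  funext O x
  exact map_lc (lc (c O)) (b O) (a O x)

/-- families factoring through `Z` -/
noncomputable def Fac (X Z : Obj k) : Submodule ℚ (Fam X X) :=
  Submodule.span ℚ {γ | ∃ (a : Fam X Z) (b : Fam Z X), IsNat a ∧ IsNat b ∧ γ = comp b a}

lemma Fac.comp {X Z : Obj k} {γ a b : Fam X X} (h : γ ∈ Fac X Z) (ha : IsNat a) (hb : IsNat b) :
    comp b (comp γ a) ∈ Fac X Z := by
  have : Fac X Z ≤ (Fac X Z).comap (Naive.comp b ∘ₗ Naive.comp.flip a) := by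
    refine Submodule.span_le.2 ?_
    rintro _ ⟨a', b', ha', hb', rfl⟩
    refine Submodule.subset_span ⟨_, _, ha'.comp ha, hb.comp hb', ?_⟩
    simp only [LinearMap.comp_apply, LinearMap.flip_apply, comp_assoc']
  exact this h

theorem Grow.of_fac {X Z : Obj k} (h : (fun _ x => single x 1) ∈ Fac X Z) (hZ : Grow Z) :
    Grow X := by
  obtain ⟨n, c, g, hg⟩ := Submodule.mem_span_set'.1 h
  choose a b ha hb hab using fun i => (g i).2
  refine Grow.retract a (fun i => c i • b i) ha (fun i => (NatS _ _).smul_mem _ (hb i))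
    (fun O x => ?_) hZ
  have := congrFun (congrFun hg O) x
  simp only [hab, Finset.sum_apply, Pi.smul_apply, comp_apply] at this
  rw [← this]
  exact Finset.sum_congr rfl fun i _ => lc_smul _ _ _

lemma mem_of_mem_support_ms {α : Type*} {M : Multiset α} {a : α} (h : a ∈ (ms M).support) :
    a ∈ M := by
  classical
  rw [mem_support_iff, ms_apply] at h
  exact Multiset.count_ne_zero.1 (by exact_mod_cast h)

lemma mem_of_mem_support_piM {α ι : Type*} [Fintype ι] [DecidableEq ι] {u : ι → α →₀ ℚ}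
    {z : ι → α} (h : z ∈ (piM u).support) (i : ι) : z i ∈ (u i).support := by
  rw [mem_support_iff, piM_apply] at h
  exact mem_support_iff.2 (Finset.prod_ne_zero_iff.1 h i (Finset.mem_univ i))

lemma lc_const_piM {α ι V : Type*} [Fintype ι] [DecidableEq ι] [AddCommGroup V] [Module ℚ V]
    (c : V) (M : ι → Multiset α) :
    lc (fun _ => c) (piM fun i => ms (M i)) = (∏ i, ((M i).card : ℚ)) • c := by
  have : (lc fun _ : ι → α => c).compMultilinearMap piM =
      ((MultilinearMap.mkPiAlgebra ℚ ι ℚ).compLinearMap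
        fun _ => lc fun _ : α => (1 : ℚ)).smulRight c := by
    refine Module.Basis.ext_multilinear (fun _ => Finsupp.basisSingleOne) fun z => ?_
    simp [piM_single]
  have := congrArg (fun F => F fun i => ms (M i)) this
  simpa [lc_ms] using this

lemma ms_roots_map {O O' : AIC k} (σ : O →ₐ[k] O') {p : Polynomial O} (hp : p.Monic) :
    ms (p.map (σ : O →+* O')).roots = mapDomain σ (ms p.roots) := by
  rw [mapDomain_ms, (O.splits p hp).roots_map_of_ne_zero (hp.map _).ne_zero]
  rfl

lemma map_inverse {R S : Type*} [CommRing R] [CommRing S] (σ : R →+* S) {a : R} (h : IsUnit a) :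
    σ (Ring.inverse a) = Ring.inverse (σ a) := by
  refine (h.map σ).mul_left_cancel ?_
  rw [← map_mul, Ring.mul_inverse_cancel _ h, Ring.mul_inverse_cancel _ (h.map σ), map_one]

/-- a hypersurface -/
abbrev Hyp {ι : Type} (P : MvPolynomial ι k) : Obj k where
  pt O := {x : ι → O // MvPolynomial.aeval x P = 0}
  map σ x := ⟨fun i => σ (x.1 i), by
    rw [← MvPolynomial.comp_aeval, AlgHom.comp_apply, x.2, map_zero]⟩

theorem schurFinite_of_hyp {ι : Type} [Finite ι] (P : MvPolynomial ι k) (h : Grow (Hyp P)) :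
    SchurFinite k (MvPolynomial ι k ⧸ Ideal.span {P}) := by
  refine schurFinite_of_grow _ (Grow.of_inj (Z := Hyp P)
    (fun O φ => ⟨fun i => φ (Ideal.Quotient.mk _ (MvPolynomial.X i)), ?_⟩)
    (fun O x => Ideal.Quotient.liftₐ _ (MvPolynomial.aeval x.1) fun a ha => ?_)
    (fun _ _ _ _ => rfl) (fun O O' σ x => ?_) (fun O φ => ?_) h)
  · have : MvPolynomial.aeval (fun i => φ (Ideal.Quotient.mk _ (MvPolynomial.X i))) =
        φ.comp (Ideal.Quotient.mkₐ k _) := MvPolynomial.algHom_ext fun i => by simp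
    rw [this, AlgHom.comp_apply, Ideal.Quotient.mkₐ_eq_mk,
      Ideal.Quotient.eq_zero_iff_mem.2 (Ideal.mem_span_singleton_self P), map_zero]
  · obtain ⟨c, rfl⟩ := Ideal.mem_span_singleton'.1 ha
    rw [map_mul, x.2, mul_zero]
  · exact Ideal.Quotient.algHom_ext _ (MvPolynomial.algHom_ext fun i => by simp)
  · exact Ideal.Quotient.algHom_ext _ (MvPolynomial.algHom_ext fun i => by simp)

/-- solutions of `s ^ e = c` -/
abbrev Rad (e : ℕ) (c : k) : Obj k where
  pt O := {s : O // s ^ e = algebraMap k O c}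
  map σ s := ⟨σ s.1, by rw [← map_pow, s.2, AlgHom.commutes]⟩

lemma grow_rad {e : ℕ} (he : 0 < e) (c : k) : Grow (Rad e c) := by
  classical
  refine grow_of_finite _ (e + 1) fun O f hf => ?_
  have h1 := Finset.card_le_card_of_injOn (s := Finset.univ)
    (t := (Polynomial.nthRoots e (algebraMap k O c)).toFinset) (fun i => (f i).1)
    (fun i _ => by simpa [Polynomial.mem_nthRoots he] using (f i).2)
    fun i _ j _ h => hf (Subtype.ext h)
  have h2 := (Multiset.toFinset_card_le _).trans
    (Polynomial.card_nthRoots e (algebraMap k O c))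
  simp only [Finset.card_univ, Fintype.card_fin] at h1
  omega

end Pool.Agent.Lib.MP_fc2ced_ag.Naive
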