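import Pool.Agent.Lib.MP_fc2ced_ag.NCurve
import Pool.Agent.Lib.MP_fc2ced_ag.NTools
import Pool.Agent.Lib.MP_fc2ced_ag.NGrp
import Pool.Agent.Lib.MP_fc2ced_ag.NMoore

/-!
The Drinfeld cover has exponential growth.
-/

namespace Pool.Agent.Lib.MP_fc2ced_ag.Naive

universe u

open Finsupp Polynomial

section Seq

variable {O : Type*} [CommRing O] (q N : ℕ)

/-- auxiliary products -/
def vs (u : ℕ → O) : ℕ → O
  | 0 => 1
  | j + 1 => vs u j ^ q * u j

/-- the parameters attached to a point of the product of curves -/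
def zr (a : O) (u : ℕ → O) : ℕ → O
  | 0 => a
  | j + 1 => zr a u j ^ q * u j ^ N

lemma zr_eq (a : O) (u : ℕ → O) (j : ℕ) : zr q N a u j = a ^ q ^ j * vs q u j ^ N := by
  induction j with
  | zero => simp [zr, vs]
  | succ j ih =>
    rw [zr, vs, ih]
    ring

lemma prod_zr (a : O) (u : ℕ → O) (n : ℕ) (hN : N = ∑ j ∈ Finset.range n, q ^ j) :
    ∏ j ∈ Finset.range n, zr q N a u j = (a * ∏ j ∈ Finset.range n, vs q u j) ^ N := by
  simp only [zr_eq, Finset.prod_mul_distrib, Finset.prod_pow, Finset.prod_pow_eq_pow_sum, mul_pow,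
    ← hN]

lemma vs_map {O' : Type*} [CommRing O'] (σ : O →+* O') (u : ℕ → O) (j : ℕ) :
    vs q (fun l => σ (u l)) j = σ (vs q u j) := by
  induction j with
  | zero => simp [vs]
  | succ j ih => simp [vs, ih]

lemma zr_map {O' : Type*} [CommRing O'] (σ : O →+* O') (a : O) (u : ℕ → O) (j : ℕ) :
    zr q N (σ a) (fun l => σ (u l)) j = σ (zr q N a u j) := by
  simp [zr_eq, vs_map]

lemma vs_unit {m : ℕ} (u : Fin m → O) (h : ∀ i, IsUnit (u i)) (j : ℕ) (hj : j ≤ m) :
    IsUnit (vs q (ext0 u) j) := by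
  induction j with
  | zero => exact isUnit_one
  | succ j ih => exact ((ih (by omega)).pow _).mul (ext0_val u ⟨j, hj⟩ ▸ h ⟨j, hj⟩)

/-- the polynomials whose roots are the coordinates of the points above -/
noncomputable def pol {m : ℕ} (p : O × (Fin m → O × O)) (i : Fin (m + 1)) : O[X] :=
  let u := ext0 fun j => (p.2 j).1
  let z := zr q N (p.1 * Ring.inverse (∏ j ∈ Finset.range (m + 1), vs q u j)) u
  qp q z (i - 1) - C ((Fin.cons (z 0) fun j => (p.2 j).2 * z j : Fin (m + 1) → O) i)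

lemma pol_monic [Nontrivial O] (hq : 1 < q) {m : ℕ} (p : O × (Fin m → O × O)) (i : Fin (m + 1)) :
    (pol q N p i).Monic :=
  (qp_monic hq _ _).1.sub_of_left (degree_lt_degree (by
    rw [natDegree_C]; exact (qp_monic hq _ _).2))

lemma pol_map {O' : Type*} [CommRing O'] (σ : O →+* O') {m : ℕ} (p : O × (Fin m → O × O))
    (h : ∀ j, IsUnit (p.2 j).1) (i : Fin (m + 1)) :
    pol q N (σ p.1, fun j => (σ (p.2 j).1, σ (p.2 j).2)) i = (pol q N p i).map σ := by
  have hu : IsUnit (∏ j ∈ Finset.range (m + 1), vs q (ext0 fun j => (p.2 j).1) j) :=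
    IsUnit.prod_iff.2 fun j hj => vs_unit q _ h j (Nat.lt_succ_iff.1 (Finset.mem_range.1 hj))
  simp only [pol, ext0_map σ, vs_map, ← map_prod, ← map_inverse σ hu, ← map_mul, zr_map,
    Polynomial.map_sub, qp_map, map_C]
  congr 2
  · funext l
    rw [← zr_map, map_mul]
  · refine Fin.cases ?_ (fun i => ?_) i <;> simp

/-- the Artin-Schreier coordinates -/
noncomputable def tc {m : ℕ} (x : Fin (m + 1) → O) (j : Fin m) : O :=
  (mp q (ext0 x) j).eval (x j.succ) * Ring.inverse (mz q (ext0 x) j)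

lemma mz_map {O' : Type*} [CommRing O'] (σ : O →+* O') {n : ℕ} (x : Fin n → O) (j : ℕ) :
    mz q (ext0 fun i => σ (x i)) j = σ (mz q (ext0 x) j) := by
  rw [mz, ext0_map, ← mp_map, eval_map, eval₂_at_apply, mz]

lemma tc_map {O' : Type*} [CommRing O'] (σ : O →+* O') {m : ℕ} (x : Fin (m + 1) → O) (j : Fin m)
    (h : IsUnit (mz q (ext0 x) j)) : tc q (fun i => σ (x i)) j = σ (tc q x j) := by
  rw [tc, mz_map, ← map_inverse σ h, ext0_map, ← mp_map, eval_map, eval₂_at_apply, tc, map_mul]

variable {q}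

lemma mz_succ (hq : 0 < q) {m : ℕ} (x : Fin (m + 1) → O) (j : Fin m) (t : O)
    (h : (mp q (ext0 x) j).eval (x j.succ) = t * mz q (ext0 x) j) :
    mz q (ext0 x) (j + 1) = mz q (ext0 x) j ^ q * (t ^ q - t) := by
  have : ext0 x (j + 1) = x j.succ := ext0_val x j.succ
  rw [mz, mp, this, eval_sub, eval_mul, eval_pow, eval_C, h, ← mz]
  obtain ⟨r, rfl⟩ := Nat.exists_eq_add_of_lt hq
  simp only [Nat.add_sub_cancel]
  ring

lemma mz_of_root (hq : 0 < q) {m : ℕ} (p : O × (Fin m → O × O))
    (hp : ∀ j, (p.2 j).2 ^ q - (p.2 j).2 = (p.2 j).1 ^ N) (x : Fin (m + 1) → O)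
    (hx : ∀ i, (pol q N p i).eval (x i) = 0) (j : ℕ) (hj : j < m + 1) :
    mz q (ext0 x) j = zr q N (p.1 * Ring.inverse (∏ j ∈ Finset.range (m + 1),
      vs q (ext0 fun j => (p.2 j).1) j)) (ext0 fun j => (p.2 j).1) j := by
  induction j using Nat.strong_induction_on with
  | _ j ih =>
  rcases j with _ | j
  · have := hx 0
    simp only [pol, eval_sub, eval_C, sub_eq_zero] at this
    simpa [mz, mp, qp, ext0] using this
  · have hj' : j < m := by omega
    have h1 := hx (Fin.succ ⟨j, hj'⟩)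
    simp only [pol, eval_sub, eval_C, sub_eq_zero, Fin.val_succ, Nat.add_sub_cancel,
      Fin.cons_succ] at h1
    rw [← mp_eq q (ext0 x) _ j fun l hl => ih l (by omega) (by omega),
      ← ih j (by omega) (by omega)] at h1
    rw [mz_succ hq x ⟨j, hj'⟩ _ h1, hp, zr, ← ih j (by omega) (by omega),
      ← ext0_val (fun j => (p.2 j).1) ⟨j, hj'⟩]

lemma zr_mz (hq : 0 < q) {m : ℕ} (x : Fin (m + 1) → O)
    (hx : ∀ j < m + 1, IsUnit (mz q (ext0 x) j)) (u : Fin m → O)
    (hu : ∀ j, tc q x j ^ q - tc q x j = u j ^ N) (j : ℕ) (hj : j < m + 1) :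
    zr q N (mz q (ext0 x) 0) (ext0 u) j = mz q (ext0 x) j := by
  induction j with
  | zero => rfl
  | succ j ih =>
    have hj' : j < m := by omega
    rw [zr, ih (by omega), mz_succ hq x ⟨j, hj'⟩ (tc q x ⟨j, hj'⟩), hu, ← ext0_val u ⟨j, hj'⟩]
    rw [tc, mul_assoc, Ring.inverse_mul_cancel _ (hx j (by omega)), mul_one]

lemma unit_of_tc (hq : 0 < q) (hN : 0 < N) {m : ℕ} (x : Fin (m + 1) → O)
    (hx : ∀ j < m + 1, IsUnit (mz q (ext0 x) j)) (u : Fin m → O)
    (hu : ∀ j, tc q x j ^ q - tc q x j = u j ^ N) (j : Fin m) : IsUnit (u j) := by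
  have h := hx (j + 1) (by omega)
  rw [← zr_mz N hq x hx u hu _ (by omega), zr, ext0_val] at h
  exact (isUnit_pow_iff hN.ne').1 (isUnit_of_mul_isUnit_right h)

lemma pol_tc (hq : 0 < q) (hN : 0 < N) {m : ℕ} (x : Fin (m + 1) → O)
    (hx : ∀ j < m + 1, IsUnit (mz q (ext0 x) j)) (u : Fin m → O)
    (hu : ∀ j, tc q x j ^ q - tc q x j = u j ^ N) (i : Fin (m + 1)) :
    pol q N (mz q (ext0 x) 0 * ∏ j ∈ Finset.range (m + 1), vs q (ext0 u) j,
      fun j => (u j, tc q x j)) i =
      mp q (ext0 x) (i - 1) - C ((mp q (ext0 x) (i - 1)).eval (x i)) := by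
  have h1 : IsUnit (∏ j ∈ Finset.range (m + 1), vs q (ext0 u) j) :=
    IsUnit.prod_iff.2 fun j hj => vs_unit q _ (unit_of_tc N hq hN x hx u hu) j
      (Nat.lt_succ_iff.1 (Finset.mem_range.1 hj))
  simp only [pol, mul_assoc, Ring.mul_inverse_cancel _ h1, mul_one]
  rw [← mp_eq q (ext0 x) _ _ fun l hl => (zr_mz N hq x hx u hu l (by omega)).symm]
  congr 2
  refine Fin.cases ?_ (fun i => ?_) i
  · simp [zr, mz, mp, ext0]
  · rw [Fin.cons_succ, zr_mz N hq x hx u hu _ (by omega), tc, mul_assoc,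
      Ring.inverse_mul_cancel _ (hx i (by omega)), mul_one]
    rfl

end Seq

variable {k : Type u} [Field k] (F : Type*) [Field F] [Fintype F] [Algebra F k]

/-- the Drinfeld cover -/
abbrev Dr (q n d : ℕ) (c : k) : Obj k where
  pt O := {x : Fin n → O // moore q x ^ d = algebraMap k O c}
  map {O O'} σ x := ⟨fun i => σ (x.1 i), by
    have h := moore_map (σ : O →+* O') q x.1
    simp only [RingHom.coe_coe] at h
    rw [h, ← map_pow, x.2, AlgHom.commutes]⟩

/-- restriction of scalars -/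
abbrev algF (O : AIC k) : Algebra F O := Algebra.compHom O (algebraMap F k)

attribute [local instance] algF

variable {F} {n d : ℕ} {c : k}

open Classical in
/-- the action of the general linear group -/
noncomputable def act (hd : ∀ a : F, a ≠ 0 → a ^ d = 1) (g : Matrix (Fin n) (Fin n) F) :
    Fam (Dr (Fintype.card F) n d c) (Dr (Fintype.card F) n d c) := fun O x =>
  if h : g.det = 0 then 0 else single ⟨fun i => ∑ l, g i l • x.1 l, by
    rw [moore_act, mul_pow, ← map_pow, hd _ h, map_one, one_mul, x.2]⟩ 1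

lemma act_nat (hd : ∀ a : F, a ≠ 0 → a ^ d = 1) (g : Matrix (Fin n) (Fin n) F) :
    IsNat (act (c := c) hd g) := by
  intro O O' σ x
  by_cases h : g.det = 0
  · simp [act, h]
  · simp only [act, dif_neg h, mapDomain_single, map_sum]
    congr 2
    funext i
    exact Finset.sum_congr rfl fun l _ => (map_smul σ (algebraMap F k (g i l)) _).symm

lemma act_mul (hd : ∀ a : F, a ≠ 0 → a ^ d = 1) (g h : Matrix (Fin n) (Fin n) F) :
    act (c := c) hd (g * h) = comp (act hd g) (act hd h) := by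
  funext O x
  by_cases h2 : h.det = 0
  · simp [act, h2, comp_apply]
  by_cases h1 : g.det = 0
  · simp [act, h1, h2, comp_apply]
  have h3 : (g * h).det ≠ 0 := by simp [h1, h2]
  simp only [act, dif_neg h1, dif_neg h2, dif_neg h3, comp_apply, lc_single, Matrix.mul_apply,
    Finset.sum_smul, Finset.smul_sum, mul_smul]
  congr 2
  funext i
  exact Finset.sum_comm

lemma grow_of_patA (hd : ∀ a : F, a ≠ 0 → a ^ d = 1) {Z : Obj k} (hZ : Grow Z)
    (h : ∑ g, ind (PatA 0) g • act (n := n) (c := c) hd g ∈ Fac _ Z) :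
    Grow (Dr (Fintype.card F) n d c) := by
  classical
  have := one_mem_of_patA ((Fac _ Z).comap (Fintype.linearCombination ℚ (act (c := c) hd)))
    (fun e he g g' hg hg' => by
      have h1 := Fac.comp he (act_nat hd g'⁻¹) (act_nat hd g⁻¹)
      rw [Submodule.mem_comap]
      convert h1 using 1
      have h2 : Function.Bijective fun a : Matrix (Fin n) (Fin n) F => g⁻¹ * (a * g'⁻¹) :=
        Finite.injective_iff_bijective.1 fun a b h => by
          have := congrArg (fun x => g * x * g') h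
          simpa [← mul_assoc, Matrix.mul_nonsing_inv _ hg.isUnit,
            Matrix.nonsing_inv_mul_cancel_right _ _ hg'.isUnit] using this
      simp only [Fintype.linearCombination_apply, map_sum, map_smul, LinearMap.sum_apply,
        LinearMap.smul_apply, ← act_mul]
      rw [← h2.sum_comp]
      simp [← mul_assoc, Matrix.mul_nonsing_inv _ hg.isUnit,
        Matrix.nonsing_inv_mul_cancel_right _ _ hg'.isUnit]) h
  refine Grow.of_fac ?_ hZ
  rw [Submodule.mem_comap] at this
  convert this using 1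
  rw [Fintype.linearCombination_apply, Finset.sum_eq_single 1]
  · funext O x
    simp [ind, act, Matrix.one_apply]
  · intro g _ hg
    simp [ind, sub_eq_zero, hg]
  · simp

lemma sum_patA (hd : ∀ a : F, a ≠ 0 → a ^ d = 1) (O : AIC k)
    (x : (Dr (Fintype.card F) n d c).pt O) :
    mapDomain Subtype.val ((∑ g, ind (PatA 0) g • act (c := c) hd g) O x) =
      piM fun i : Fin n => ∑ a ∈ below F n (i - 1), single (x.1 i + ∑ l, a l • x.1 l) 1 := by
  classical
  rw [MultilinearMap.map_sum_finset, ← Equiv.sum_comp (Equiv.addLeft 1)]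
  simp only [ind, Equiv.coe_addLeft, add_sub_cancel_left, ite_smul, one_smul, zero_smul]
  rw [← Finset.sum_filter]
  simp only [Finset.sum_apply, mapDomain_sum', piM_single]
  refine Finset.sum_congr ?_ fun a ha => ?_
  · ext a
    refine Iff.trans ?_ (Fintype.mem_piFinset (f := a)).symm
    simp only [PatA, below, Finset.mem_filter, Finset.mem_univ, true_and,
      Nat.zero_le, Nat.lt_sub_iff_add_lt]
  · have h1 : (1 + Matrix.of a : Matrix (Fin n) (Fin n) F).det = 1 := by
      have h2 : ∀ i l : Fin n, i ≤ l → a i l = 0 := fun i l h => by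
        by_contra h'
        have := (Finset.mem_filter.1 (Fintype.mem_piFinset.1 ha i)).2 l h'
        omega
      rw [Matrix.det_of_isLowerTriangular _ fun i l (h : i < l) => by simp [h.ne, h2 i l h.le]]
      simp [h2]
    have h2 : ¬ (1 + a : Matrix (Fin n) (Fin n) F).det = 0 := by
      rw [show (1 + a : Matrix (Fin n) (Fin n) F) = 1 + Matrix.of a from rfl, h1]
      exact one_ne_zero
    simp only [act, dif_neg h2, mapDomain_single]
    congr 1
    funext i
    simp [add_smul, Finset.sum_add_distrib, Matrix.one_apply]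

lemma sub_pow_card (F : Type*) [Field F] [Fintype F] [Algebra F k] (S : Type u) [CommRing S]
    [Algebra k S] (x y : S) :
    (x - y) ^ Fintype.card F = x ^ Fintype.card F - y ^ Fintype.card F :=
  let _ := Algebra.compHom S (algebraMap F k)
  map_sub (FiniteField.frobeniusAlgHom F S) x y

section Aux

variable {m N : ℕ} (hN0 : 0 < N) (hN1 : N.Coprime (Fintype.card F))

variable (k) in
/-- the curve `t ^ q - t = u ^ N` -/
noncomputable def drData : ASData k :=
  ⟨Fintype.card F, X ^ N, Fintype.one_lt_card, by simpa using hN0, by simpa using hN1,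
    sub_pow_card F⟩

variable (m d c) in
/-- the product of curves -/
noncomputable abbrev drP : Obj k := (Rad (N * d) c).prod (((drData k hN0 hN1).curve X).pow m)

/-- the underlying coordinates -/
noncomputable def drι (O : AIC k) (p : (drP d c m hN0 hN1).pt O) : O × (Fin m → O × O) :=
  (p.1.1, fun j => (p.2 j).1)

lemma drι_unit (O : AIC k) (p : (drP d c m hN0 hN1).pt O) (j : Fin m) :
    IsUnit ((drι hN0 hN1 O p).2 j).1 := by
  have := (p.2 j).2.2
  rwa [aeval_X] at this

lemma drι_rel (O : AIC k) (p : (drP d c m hN0 hN1).pt O) (j : Fin m) :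
    ((drι hN0 hN1 O p).2 j).2 ^ Fintype.card F - ((drι hN0 hN1 O p).2 j).2 =
      ((drι hN0 hN1 O p).2 j).1 ^ N :=
  (p.2 j).2.1.trans (aeval_X_pow _)

lemma dr_unit (hd0 : 0 < d) (hc : c ≠ 0) (O : AIC k)
    (x : (Dr (Fintype.card F) (m + 1) d c).pt O) :
    ∀ j < m + 1, IsUnit (mz (Fintype.card F) (ext0 x.1) j) := fun j hj => by
  have h := x.2 ▸ hc.isUnit.map (algebraMap k O)
  rw [isUnit_pow_iff hd0.ne', moore_eq, IsUnit.prod_iff] at h
  exact h j (Finset.mem_range.2 hj)

variable (N) in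
/-- the roots -/
noncomputable def drR {O : AIC k} (q : ℕ) (x : Fin (m + 1) → O) : (Fin m → O) →₀ ℚ :=
  piM fun j : Fin m => ms (X ^ N - C (tc q x j ^ q - tc q x j)).roots

include hN0 in
lemma drR_supp {O : AIC k} (q : ℕ) (x : Fin (m + 1) → O) :
    ∀ u ∈ (drR N q x).support, ∀ j, tc q x j ^ q - tc q x j = u j ^ N := by
  intro u hu j
  have := mem_of_mem_support_ms (mem_of_mem_support_piM hu j)
  rw [mem_roots (monic_X_pow_sub_C _ hN0.ne').ne_zero, IsRoot, eval_sub, eval_pow, eval_X, eval_C,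
    sub_eq_zero] at this
  exact this.symm

/-- the point attached to a choice of roots -/
noncomputable def drS {O : Type*} [CommRing O] (q : ℕ) (x : Fin (m + 1) → O) (u : Fin m → O) :
    O × (Fin m → O × O) :=
  (mz q (ext0 x) 0 * ∏ j ∈ Finset.range (m + 1), vs q (ext0 u) j, fun j => (u j, tc q x j))

lemma exists_alpha (hN : N = ∑ j ∈ Finset.range (m + 1), Fintype.card F ^ j) (hd0 : 0 < d)
    (hc : c ≠ 0) : ∃ α : Fam (Dr (Fintype.card F) (m + 1) d c) (drP d c m hN0 hN1), IsNat α ∧
      ∀ O x, mapDomain (drι hN0 hN1 O) (α O x) =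
        mapDomain (drS (Fintype.card F) x.1) (drR N (Fintype.card F) x.1) := by
  classical
  have hq0 : 0 < Fintype.card F := Fintype.card_pos
  have hz := dr_unit (F := F) (m := m) hd0 hc
  refine exists_lift_fam (Y' := (Aff k).prod (((Aff k).prod (Aff k)).pow m)) (drι hN0 hN1)
    (fun O p p' h => Prod.ext (Subtype.ext (congrArg Prod.fst h))
      (funext fun j => Subtype.ext (congrFun (congrArg Prod.snd h) j))) (fun _ _ _ _ => rfl)
    _ (fun O O' σ x => ?_) fun O x y hy => ?_
  · have h1 : ∀ j, tc (Fintype.card F) (fun i => σ (x.1 i)) j =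
        σ (tc (Fintype.card F) x.1 j) := fun j =>
      tc_map _ (σ : O →+* O') x.1 j (hz O x j (by omega))
    have h2 : ∀ w : O, ms (X ^ N - C (σ w)).roots = mapDomain σ (ms (X ^ N - C w).roots) :=
      fun w => by
        rw [← ms_roots_map σ (monic_X_pow_sub_C _ hN0.ne')]
        simp
    simp only [drR, h1, ← map_pow σ, ← map_sub σ, h2]
    rw [← mapDomain_piM, ← mapDomain_comp, ← mapDomain_comp]
    congr 1
    funext u
    have h3 := mz_map (Fintype.card F) (σ : O →+* O') x.1 0
    have h4 := ext0_map (σ : O →+* O') u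
    have h5 := vs_map (Fintype.card F) (σ : O →+* O') (ext0 u)
    simp only [RingHom.coe_coe] at h3 h4 h5
    simp only [drS, Function.comp_apply, h1, h3, h4, h5, map_mul, map_prod]
  · obtain ⟨u, hu, rfl⟩ := Finset.mem_image.1 (mapDomain_support hy)
    have hr := drR_supp hN0 _ x.1 u hu
    refine ⟨(⟨_, ?_⟩, fun j => ⟨(u j, tc (Fintype.card F) x.1 j), ?_, ?_⟩), rfl⟩
    · refine Eq.trans ?_ x.2
      rw [pow_mul, ← prod_zr _ _ _ _ _ hN, moore_eq]
      exact congrArg (· ^ d) (Finset.prod_congr rfl fun j hj =>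
        zr_mz N hq0 x.1 (hz O x) u hr j (Finset.mem_range.1 hj))
    · exact (hr j).trans (aeval_X_pow _).symm
    · rw [aeval_X]
      exact unit_of_tc N hq0 hN0 x.1 (hz O x) u hr j

lemma exists_beta (hN : N = ∑ j ∈ Finset.range (m + 1), Fintype.card F ^ j) :
    ∃ β : Fam (drP d c m hN0 hN1) (Dr (Fintype.card F) (m + 1) d c), IsNat β ∧
      ∀ O p, mapDomain Subtype.val (β O p) =
        piM fun i => ms (pol (Fintype.card F) N (drι hN0 hN1 O p) i).roots := by
  have hq : 1 < Fintype.card F := Fintype.one_lt_card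
  refine exists_lift_fam (Y := Dr (Fintype.card F) (m + 1) d c) (Y' := (Aff k).pow (m + 1))
    (fun O => Subtype.val) (fun O => Subtype.val_injective) (fun _ _ _ _ => rfl) _
    (fun O O' σ p => ?_) fun O p x hx => ⟨⟨x, ?_⟩, rfl⟩
  · refine Eq.trans ?_ (mapDomain_piM σ _).symm
    congr 1
    funext i
    rw [← ms_roots_map σ (pol_monic _ N hq _ i), ← pol_map _ _ _ _ (drι_unit hN0 hN1 O p)]
    rfl
  · have h1 := mz_of_root N Fintype.card_pos _ (drι_rel hN0 hN1 O p) x fun i =>
      (mem_roots (pol_monic _ N hq _ i).ne_zero).1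
        (mem_of_mem_support_ms (mem_of_mem_support_piM hx i))
    rw [moore_eq, Finset.prod_congr rfl fun j hj => h1 j (Finset.mem_range.1 hj),
      prod_zr _ _ _ _ _ hN, mul_assoc, Ring.inverse_mul_cancel _ (IsUnit.prod_iff.2 fun j hj =>
        vs_unit _ _ (drι_unit hN0 hN1 O p) j (Nat.lt_succ_iff.1 (Finset.mem_range.1 hj))),
      mul_one, ← pow_mul]
    exact p.1.2

end Aux

lemma ms_roots_prod {O ι : Type*} [CommRing O] [IsDomain O] (s : Finset ι) (e : ι → O) :
    ms (∏ a ∈ s, (X - C (e a))).roots = ∑ a ∈ s, single (e a) 1 := by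
  have := roots_multiset_prod_X_sub_C (s.val.map e)
  rw [Multiset.map_map] at this
  rw [ms, Finset.prod_eq_multiset_prod]
  exact (congrArg (fun M => (Multiset.map (fun a => single a (1 : ℚ)) M).sum) this).trans
    (by rw [Multiset.map_map]; rfl)

theorem grow_dr_aux {m : ℕ} (hd : ∀ a : F, a ≠ 0 → a ^ d = 1) (hd0 : 0 < d) (hc : c ≠ 0) :
    Grow (Dr (Fintype.card F) (m + 1) d c) := by
  obtain ⟨N, hN⟩ : ∃ N, N = ∑ j ∈ Finset.range (m + 1), Fintype.card F ^ j := ⟨_, rfl⟩
  have hN2 : N = (∑ j ∈ Finset.range m, Fintype.card F ^ j) * Fintype.card F + 1 := by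
    rw [hN, Finset.sum_range_succ', Finset.sum_mul]
    simp [pow_succ]
  have hN0 : 0 < N := by omega
  have hN1 : N.Coprime (Fintype.card F) := by simp [hN2]
  have hP : Grow (drP d c m hN0 hN1) := (grow_rad (Nat.mul_pos hN0 hd0) c).prod
    (((drData k hN0 hN1).grow_curve X X_ne_zero F rfl).pow m)
  obtain ⟨α, hα, hα'⟩ := exists_alpha hN0 hN1 hN hd0 hc
  obtain ⟨β, hβ, hβ'⟩ := exists_beta (d := d) (c := c) hN0 hN1 hN
  refine grow_of_patA hd hP ((Submodule.smul_mem_iff _ (pow_ne_zero m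
    (Nat.cast_ne_zero.2 hN0.ne' : (N : ℚ) ≠ 0))).1 (Submodule.subset_span ⟨α, β, hα, hβ, ?_⟩))
  funext O x
  apply mapDomain_injective Subtype.val_injective
  rw [Pi.smul_apply, Pi.smul_apply, mapDomain_smul, sum_patA, comp_apply, mapDomain_lc]
  simp only [hβ']
  rw [← lc_mapDomain (fun p => piM fun i => ms (pol (Fintype.card F) N p i).roots)
    (drι hN0 hN1 O), hα', lc_mapDomain, lc_congr (g := fun _ => piM fun i : Fin (m + 1) =>
      ∑ a ∈ below F (m + 1) (i - 1), single (x.1 i + ∑ l, a l • x.1 l) 1), drR, lc_const_piM]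
  · simp only [← ((O.splits _ (monic_X_pow_sub_C _ hN0.ne')).natDegree_eq_card_roots),
      natDegree_X_pow_sub_C]
    simp
  · intro u hu
    have hz := dr_unit hd0 hc O x
    congr 1
    funext i
    rw [drS, pol_tc N Fintype.card_pos hN0 x.1 hz u (drR_supp hN0 _ _ u hu),
      mp_prod F x.1 _ (by omega) fun l hl => hz l (by omega), ms_roots_prod]

theorem grow_dr {m : ℕ} (hd : 0 < d) (hc : c ≠ 0) : Grow (Dr (Fintype.card F) (m + 1) d c) := by
  classical
  have hq : 1 < Fintype.card F := Fintype.one_lt_card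
  refine Grow.retract (I := Unit) (Z := Dr (Fintype.card F) (m + 1) (d * (Fintype.card F - 1))
    (c ^ (Fintype.card F - 1)))
    (fun _ O x => single ⟨x.1, by rw [pow_mul, x.2, map_pow]⟩ 1)
    (fun _ O y => if h : moore (Fintype.card F) y.1 ^ d = algebraMap k O c then
      single ⟨y.1, h⟩ 1 else 0) (fun _ O O' σ x => by simp) (fun _ O O' σ y => ?_)
    (fun O x => by simp [x.2]) (grow_dr_aux (fun a ha => by
      rw [mul_comm, pow_mul, FiniteField.pow_card_sub_one_eq_one a ha, one_pow])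
      (Nat.mul_pos hd (by omega)) (pow_ne_zero _ hc))
  have h1 := moore_map (σ : O →+* O') (Fintype.card F) y.1
  simp only [RingHom.coe_coe] at h1
  beta_reduce
  by_cases h : moore (Fintype.card F) y.1 ^ d = algebraMap k O c
  · rw [dif_pos h, dif_pos (by rw [h1, ← map_pow, h, AlgHom.commutes]), mapDomain_single]
  · rw [dif_neg h, dif_neg, mapDomain_zero]
    intro h'
    have h2 := pow_card_sub F (moore (Fintype.card F) y.1 ^ d) (hc.isUnit.map (algebraMap k O))
    have hy := ((pow_mul _ _ _).symm.trans y.2).trans (map_pow _ _ _)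
    rw [← hy, ← pow_succ, Nat.sub_add_cancel hq.le, sub_self, eq_comm,
      Finset.prod_eq_zero_iff] at h2
    obtain ⟨b, -, hb⟩ := h2
    have h3 : moore (Fintype.card F) y.1 ^ d = algebraMap k O (algebraMap F k b * c) := by
      rw [sub_eq_zero.1 hb, map_mul, Algebra.smul_def]
      rfl
    rw [h1, ← map_pow, h3, AlgHom.commutes] at h'
    exact h (h3.trans (congrArg _ ((algebraMap k O').injective h')))

end Pool.Agent.Lib.MP_fc2ced_ag.Naive
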