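import Pool.Agent.Lib.MP_fc2ced_ag.NLen

/-!
From natural families of formal sums of points to cycles: models of elementary correspondences.
-/

namespace Pool.Agent.Lib.MP_fc2ced_ag.Naive

universe u

open Module Polynomial
open scoped TensorProduct

section Ms

variable {α β : Type*}

/-- a multiset as a formal sum -/
noncomputable def ms (M : Multiset α) : α →₀ ℚ := (M.map fun a => Finsupp.single a (1 : ℚ)).sum

lemma lc_ms {V : Type*} [AddCommGroup V] [Module ℚ V] (f : α → V) (M : Multiset α) :
    lc f (ms M) = (M.map f).sum := by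
  rw [ms, map_multiset_sum, Multiset.map_map]
  simp

lemma mapDomain_ms (f : α → β) (M : Multiset α) : Finsupp.mapDomain f (ms M) = ms (M.map f) := by
  rw [← lc_single_comp, lc_ms, ms, Multiset.map_map]
  rfl

lemma ms_apply [DecidableEq α] (M : Multiset α) (a : α) : ms M a = M.count a := by
  induction M using Multiset.induction_on with
  | empty => simp [ms]
  | cons b M ih =>
    simp only [ms, Multiset.map_cons, Multiset.sum_cons, Finsupp.add_apply] at ih ⊢
    rw [ih, Multiset.count_cons, Finsupp.single_apply]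
    by_cases h : b = a
    · simp [h, add_comm]
    · simp [h, Ne.symm h]

end Ms

variable {k : Type u} [Field k]

section SpecA

variable {B : Type*} [CommRing B] [Algebra k B] {ι : Type*} [Fintype ι] [DecidableEq ι]

lemma exists_specA (O : AIC k) (ρ : B →ₐ[k] Matrix ι ι O) :
    ∃ M : Multiset (B →ₐ[k] O), (M.map fun χ => χ.toRingHom) = spec O ρ.toRingHom := by
  have h : ∀ χ ∈ spec O ρ.toRingHom, ∃ χ' : B →ₐ[k] O, χ'.toRingHom = χ := by
    intro χ hχ
    refine ⟨⟨χ, fun c => (spec_isSpec O _).scalar (map_one _) ?_ hχ⟩, rfl⟩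
    change ρ _ = _
    rw [ρ.commutes, Algebra.algebraMap_eq_smul_one, algebraMap_smul]
  choose g hg using h
  refine ⟨(spec O ρ.toRingHom).pmap g fun _ h => h, ?_⟩
  rw [Multiset.map_pmap]
  simp only [hg]
  rw [Multiset.pmap_eq_map, Multiset.map_id']

/-- the joint spectrum as algebra homomorphisms -/
noncomputable def specA (O : AIC k) (ρ : B →ₐ[k] Matrix ι ι O) : Multiset (B →ₐ[k] O) :=
  (exists_specA O ρ).choose

lemma specA_spec (O : AIC k) (ρ : B →ₐ[k] Matrix ι ι O) :
    ((specA O ρ).map fun χ => χ.toRingHom) = spec O ρ.toRingHom :=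
  (exists_specA O ρ).choose_spec

lemma specA_map (O O' : AIC k) (σ : O →ₐ[k] O') (ρ : B →ₐ[k] Matrix ι ι O) :
    specA O' (σ.mapMatrix.comp ρ) = (specA O ρ).map fun χ => σ.comp χ := by
  apply Multiset.map_injective (f := fun χ : B →ₐ[k] O' => χ.toRingHom)
    AlgHom.coe_ringHom_injective
  rw [specA_spec, Multiset.map_map]
  refine (spec_map O O' σ.toRingHom ρ.toRingHom).trans ?_
  rw [← specA_spec, Multiset.map_map]
  rfl

lemma mem_specA (O : AIC k) (ρ : B →ₐ[k] Matrix ι ι O) (χ : B →ₐ[k] O) :
    χ ∈ specA O ρ ↔ χ.toRingHom ∈ spec O ρ.toRingHom := by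
  rw [← specA_spec]
  exact (Multiset.mem_map_of_injective AlgHom.coe_ringHom_injective).symm

lemma IsSpec.comp {B' R : Type*} [CommRing B'] [CommRing R] {ρ : B → Matrix ι ι R}
    {M : Multiset (B →+* R)} (h : IsSpec ρ M) (f : B' →+* B) :
    IsSpec (fun b => ρ (f b)) (M.map fun χ => χ.comp f) := by
  intro n β
  rw [Multiset.map_map]
  exact h n fun j => f (β j)

end SpecA

lemma exists_lift_alg {R S Ω : Type*} [CommRing R] [IsDomain R] [CommRing S] [IsDomain S]
    [Algebra R S] [FaithfulSMul R S] [Algebra.IsAlgebraic R S] [Field Ω] [IsAlgClosed Ω]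
    (χ : R →+* Ω) (hχ : Function.Injective χ) : ∃ g : S →+* Ω, ∀ r, g (algebraMap R S r) = χ r := by
  let _ : Algebra R Ω := χ.toAlgebra
  have : FaithfulSMul R Ω := (faithfulSMul_iff_algebraMap_injective _ _).2 hχ
  let L : S →ₐ[R] Ω := IsAlgClosed.lift
  exact ⟨L.toRingHom, L.commutes⟩

section Hat

variable (R : Type*) [CommRing R] [Algebra k R] {B : Type*} [CommRing B] [Algebra k B]
  {Ω : Type*} [CommRing Ω] [Algebra k Ω] [Algebra R Ω] [IsScalarTower k R Ω]

/-- the induced map on the tensor product -/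
noncomputable def hat (y : B →ₐ[k] Ω) : R ⊗[k] B →ₐ[R] Ω :=
  Algebra.TensorProduct.lift (Algebra.ofId R Ω) y fun _ _ => Commute.all _ _

lemma hat_tmul (y : B →ₐ[k] Ω) (r : R) (b : B) : hat R y (r ⊗ₜ b) = algebraMap R Ω r * y b := by
  simp [hat, Algebra.ofId_apply]

lemma hat_integral (y : B →ₐ[k] Ω) (hy : ∀ b, IsIntegral R (y b)) (t : R ⊗[k] B) :
    IsIntegral R (hat R y t) := by
  induction t using TensorProduct.induction_on with
  | zero => simpa using isIntegral_zero
  | tmul r b => rw [hat_tmul]; exact isIntegral_algebraMap.mul (hy b)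
  | add s t hs ht => rw [map_add]; exact hs.add ht

lemma finite_quot [Algebra.FiniteType k B] (y : B →ₐ[k] Ω) (hy : ∀ b, IsIntegral R (y b)) :
    Module.Finite R ((R ⊗[k] B) ⧸ RingHom.ker (hat R y)) := by
  have : Algebra.IsIntegral R ((R ⊗[k] B) ⧸ RingHom.ker (hat R y)) := ⟨fun z => by
    obtain ⟨t, rfl⟩ := Ideal.Quotient.mk_surjective z
    rw [← isIntegral_algHom_iff (Ideal.kerLiftAlg (hat R y)) (Ideal.kerLiftAlg_injective _)]
    exact hat_integral R y hy t⟩
  exact Algebra.IsIntegral.finite

lemma finite_range [Algebra.FiniteType k B] (y : B →ₐ[k] Ω) (hy : ∀ b, IsIntegral R (y b)) :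
    Module.Finite R (hat R y).range :=
  have := finite_quot R y hy
  Module.Finite.equiv (Ideal.quotientKerEquivRange (hat R y)).toLinearEquiv

end Hat

section Den

variable {A K T U : Type*} [CommRing A] [Field K] [CommRing T] [CommRing U]
  (x : A →+* K) (α : A →+* T) (θ : T →+* U)

/-- clearing denominators -/
def Den (u : U) : Prop := ∃ a, x a ≠ 0 ∧ ∃ t, θ t = θ (α a) * u

variable {x α θ}

lemma Den.add {u v : U} (hu : Den x α θ u) (hv : Den x α θ v) : Den x α θ (u + v) := by
  obtain ⟨a, ha, t, ht⟩ := hu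
  obtain ⟨b, hb, s, hs⟩ := hv
  refine ⟨a * b, by rw [map_mul]; exact mul_ne_zero ha hb, α b * t + α a * s, ?_⟩
  simp only [map_add, map_mul, ht, hs]
  ring

lemma Den.zero : Den x α θ 0 := ⟨1, by simp, 0, by simp⟩

end Den

section Model

variable {A : Type u} [CommRing A] [Algebra k A] {B : Type u} [CommRing B] [Algebra k B]
  {K : Type u} [Field K] [Algebra k K] [Algebra A K] [IsScalarTower k A K]
  (hK : ∀ z : K, ∃ a : A, algebraMap A K a ≠ 0 ∧ ∃ b : A, algebraMap A K b = algebraMap A K a * z)

include hK in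
lemma den_poly (p : K[X]) : Den (algebraMap A K) C (mapRingHom (algebraMap A K)) p := by
  induction p using Polynomial.induction_on' with
  | add p q hp hq => exact hp.add hq
  | monomial n z =>
    obtain ⟨a, ha, b, hb⟩ := hK z
    refine ⟨a, ha, monomial n b, ?_⟩
    simp [hb, C_mul_monomial]

variable (k A K B) in
/-- base change to the function field -/
noncomputable def toK : A ⊗[k] B →ₐ[k] K ⊗[k] B :=
  Algebra.TensorProduct.map (IsScalarTower.toAlgHom k A K) (AlgHom.id k B)

variable (k A K B) in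
/-- base change to the function field, with a parameter -/
noncomputable def toKX : A[X] ⊗[k] B →ₐ[k] K[X] ⊗[k] B :=
  Algebra.TensorProduct.map (mapAlgHom (IsScalarTower.toAlgHom k A K)) (AlgHom.id k B)

include hK in
lemma den_toK (u : K ⊗[k] B) :
    Den (algebraMap A K) (algebraMap A (A ⊗[k] B)) (toK k A B K).toRingHom u := by
  induction u using TensorProduct.induction_on with
  | zero => exact Den.zero
  | add p q hp hq => exact hp.add hq
  | tmul z b =>
    obtain ⟨a, ha, c, hc⟩ := hK z
    refine ⟨a, ha, c ⊗ₜ b, ?_⟩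
    simp [toK, hc]

include hK in
lemma den_toKX (u : K[X] ⊗[k] B) :
    Den (algebraMap A K) ((algebraMap A[X] (A[X] ⊗[k] B)).comp C) (toKX k A B K).toRingHom u := by
  induction u using TensorProduct.induction_on with
  | zero => exact Den.zero
  | add p q hp hq => exact hp.add hq
  | tmul z b =>
    obtain ⟨a, ha, c, hc⟩ := den_poly hK z
    refine ⟨a, ha, c ⊗ₜ b, ?_⟩
    simp only [coe_mapRingHom, map_C] at hc
    simp [toKX, hc]

variable (A B) in
/-- evaluation of the parameter -/
noncomputable def evT (c : k) : A[X] ⊗[k] B →ₐ[k] A ⊗[k] B :=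
  Algebra.TensorProduct.map ((aeval (algebraMap k A c)).restrictScalars k) (AlgHom.id k B)

variable (K) in
/-- evaluation of the parameter over the function field -/
noncomputable def evK (c : k) : K[X] →ₐ[k] K := (aeval (algebraMap k K c)).restrictScalars k

/-- a representation of `B` over `K` as a representation of `K ⊗ B` -/
noncomputable def extK {ι : Type*} [Fintype ι] [DecidableEq ι] (ρ : B →ₐ[k] Matrix ι ι K) :
    K ⊗[k] B →ₐ[K] Matrix ι ι K :=
  Algebra.TensorProduct.lift (Algebra.ofId K _) ρ fun a b => Algebra.commutes a (ρ b)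

lemma extK_tmul {ι : Type*} [Fintype ι] [DecidableEq ι] (ρ : B →ₐ[k] Matrix ι ι K) (a : K)
    (b : B) : extK ρ (a ⊗ₜ b) = a • ρ b := by
  simp [extK, Algebra.ofId_apply, Algebra.smul_def]

variable {Ω : Type u} [Field Ω] [IsAlgClosed Ω] [Algebra k Ω] [Algebra K[X] Ω] [Algebra A[X] Ω]
  [IsScalarTower k K[X] Ω] [IsScalarTower k A[X] Ω] [FaithfulSMul K[X] Ω]
  [Algebra.IsAlgebraic K[X] Ω]
  (hj : ∀ p : A[X], algebraMap A[X] Ω p = algebraMap K[X] Ω (p.map (algebraMap A K)))

omit [IsAlgClosed Ω] [FaithfulSMul K[X] Ω] [Algebra.IsAlgebraic K[X] Ω] in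
include hj in
lemma hat_toKX (y : B →ₐ[k] Ω) (t : A[X] ⊗[k] B) :
    hat K[X] y (toKX k A B K t) = hat A[X] y t := by
  induction t using TensorProduct.induction_on with
  | zero => simp
  | add p q hp hq => simp only [map_add, hp, hq]
  | tmul z b => simp [toKX, hat_tmul, hj]

include hK hj in
lemma exists_model [Algebra.FiniteType k B] (y : B →ₐ[k] Ω) (hy : ∀ b, IsIntegral A[X] (y b)) :
    ∃ (n : ℕ) (ρ : B →ₐ[k] Matrix (Fin n) (Fin n) K[X]),
      y ∈ specA (AIC.ofField k Ω) ((IsScalarTower.toAlgHom k K[X] Ω).mapMatrix.comp ρ) ∧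
      (∀ y' ∈ specA (AIC.ofField k Ω) ((IsScalarTower.toAlgHom k K[X] Ω).mapMatrix.comp ρ),
        ∃ g : Ω →ₐ[K[X]] Ω, (g.restrictScalars k).comp y = y') ∧
      ∀ c : k, ∃ v : Fin n → K,
        (∀ t ∈ (RingHom.ker (hat A[X] y)).map (evT A B c),
          (extK ((evK K c).mapMatrix.comp ρ) (toK k A B K t)).mulVec v = 0) ∧
        (∀ t, (extK ((evK K c).mapMatrix.comp ρ) (toK k A B K t)).mulVec v = 0 →
          ∃ a, algebraMap A K a ≠ 0 ∧
            algebraMap A _ a * t ∈ (RingHom.ker (hat A[X] y)).map (evT A B c)) ∧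
        ∀ w : Fin n → K, ∃ a, algebraMap A K a ≠ 0 ∧ ∃ t,
          (extK ((evK K c).mapMatrix.comp ρ) (toK k A B K t)).mulVec v = algebraMap A K a • w := by
  have hy' : ∀ b, IsIntegral K[X] (y b) := fun b =>
    (hy b).map_of_comp_eq (mapRingHom (algebraMap A K)) (RingHom.id Ω)
      (RingHom.ext fun p => (hj p).symm)
  set Q := (hat K[X] y).range with hQ
  have := finite_range K[X] y hy'
  have hinj : Function.Injective (algebraMap K[X] Ω) := FaithfulSMul.algebraMap_injective _ _
  have : FaithfulSMul K[X] Q := (faithfulSMul_iff_algebraMap_injective _ _).2 fun a b h =>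
    hinj (congrArg Subtype.val h)
  let e := finBasis K[X] Q
  let yQ : B →ₐ[k] Q := ((hat K[X] y).rangeRestrict.restrictScalars k).comp
    Algebra.TensorProduct.includeRight
  have hyQ : ∀ b, (yQ b : Ω) = y b := fun b => by simp [yQ, hat_tmul]
  let ρ : B →ₐ[k] Matrix (Fin (finrank K[X] Q)) (Fin (finrank K[X] Q)) K[X] :=
    ((Algebra.leftMulMatrix e).restrictScalars k).comp yQ
  have hS := spec_isSpec (AIC.ofField k Ω)
    ((algebraMap K[X] Ω).mapMatrix.comp (Algebra.leftMulMatrix e).toRingHom)
  have hS' : spec (AIC.ofField k Ω)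
      ((IsScalarTower.toAlgHom k K[X] Ω).mapMatrix.comp ρ).toRingHom = _ :=
    (spec_isSpec _ _).unique (hS.comp yQ.toRingHom) (map_one _)
  refine ⟨_, ρ, ?_, ?_, fun c => ?_⟩
  · rw [mem_specA, hS', Multiset.mem_map]
    refine ⟨Q.val.toRingHom, hS.mem_of_eigen (map_one _) _ (fun i => (e i : Ω)) (fun h => ?_)
      fun q j => ?_, RingHom.ext hyQ⟩
    · have : Nonempty (Fin (finrank K[X] Q)) := e.index_nonempty
      obtain ⟨i⟩ := this
      exact e.ne_zero i (Subtype.ext (congrFun h i))
    · have h1 := congrArg Q.val (e.sum_repr (q * e j))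
      rw [map_sum, map_mul Q.val] at h1
      refine Eq.trans (Finset.sum_congr rfl fun i _ => ?_) h1
      simp [Algebra.leftMulMatrix_eq_repr_mul, Algebra.smul_def, mul_comm]
  · intro y' hy'
    rw [mem_specA, hS', Multiset.mem_map] at hy'
    obtain ⟨χ, hχ, h1⟩ := hy'
    have h2 : ∀ p, χ (algebraMap K[X] Q p) = algebraMap K[X] Ω p := by
      intro p
      refine hS.scalar (map_one _) ?_ hχ
      ext i j
      simp [Algebra.algebraMap_eq_smul_one, Matrix.one_apply]
    have h3 : Function.Injective χ := by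
      rw [RingHom.injective_iff_ker_eq_bot]
      refine Ideal.eq_bot_of_comap_eq_bot (R := K[X]) (eq_bot_iff.2 fun p hp => ?_)
      rw [Ideal.mem_comap, RingHom.mem_ker, h2] at hp
      exact hinj (hp.trans (map_zero _).symm)
    have : Algebra.IsAlgebraic Q Ω := Algebra.IsAlgebraic.extendScalars
      (R := K[X]) (FaithfulSMul.algebraMap_injective K[X] Q)
    obtain ⟨g, hg⟩ : ∃ g : Ω →+* Ω, ∀ q : Q, g q = χ q := exists_lift_alg (S := Ω) χ h3
    refine ⟨⟨g, fun p => (hg (algebraMap K[X] Q p)).trans (h2 p)⟩, AlgHom.ext fun b => ?_⟩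
    have := RingHom.congr_fun h1 b
    change g (y b) = y' b
    rw [← hyQ, hg]
    exact this
  · let π : Q →+ (Fin (finrank K[X] Q) → K) :=
      { toFun := fun q i => evK K c (e.repr q i)
        map_zero' := by ext; simp
        map_add' := fun _ _ => by ext; simp }
    have hπ : ∀ q i, π q i = evK K c (e.repr q i) := fun _ _ => rfl
    let ψ : A[X] ⊗[k] B →ₐ[k] Q :=
      ((hat K[X] y).rangeRestrict.restrictScalars k).comp (toKX k A B K)
    have hψ : ∀ t, (ψ t : Ω) = hat A[X] y t := fun t => hat_toKX hj y t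
    have h1 : ∀ (p : K[X]) (q : Q), π (p • q) = evK K c p • π q := by
      intro p q
      ext i
      simp [hπ]
    have h2 : ∀ t q, (extK ((evK K c).mapMatrix.comp ρ) (toK k A B K (evT A B c t))).mulVec (π q) =
        π (ψ t * q) := by
      intro t q
      induction t using TensorProduct.induction_on with
      | zero => simp
      | add s t hs ht => simp only [map_add, Matrix.add_mulVec, hs, ht, add_mul]
      | tmul p b =>
        have h3 : ψ (p ⊗ₜ b) = p.map (algebraMap A K) • yQ b := by
          apply Subtype.ext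
          rw [hψ, hat_tmul, hj, Subalgebra.coe_smul, hyQ, Algebra.smul_def]
        have h4 : evK K c (p.map (algebraMap A K)) =
            algebraMap A K (aeval (algebraMap k A c) p) := by
          simp only [evK, AlgHom.coe_restrictScalars', coe_aeval_eq_eval, eval_map_algebraMap]
          rw [IsScalarTower.algebraMap_apply k A K, aeval_algebraMap_apply]
          simp
        rw [h3, smul_mul_assoc, h1, h4]
        simp only [evT, toK, Algebra.TensorProduct.map_tmul, extK_tmul, Matrix.smul_mulVec,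
          AlgHom.coe_restrictScalars', IsScalarTower.coe_toAlgHom', AlgHom.coe_id, id_eq]
        congr 1
        ext i
        rw [hπ, ← Algebra.leftMulMatrix_mulVec_repr]
        simp [Matrix.mulVec, dotProduct, hπ, ρ]
    have h5 : ∀ q : Q, ∃ a, algebraMap A K a ≠ 0 ∧ ∃ t, ψ t = C (algebraMap A K a) • q := by
      rintro ⟨_, u, rfl⟩
      obtain ⟨a, ha, t, ht⟩ := den_toKX hK u
      refine ⟨a, ha, t, Subtype.ext ?_⟩
      have := congrArg (hat K[X] y) ht
      rw [map_mul] at this
      refine this.trans ?_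
      simp [toKX, hat_tmul, Algebra.smul_def]
    have hsurj : Function.Surjective (evT A B c) := fun t => ⟨Algebra.TensorProduct.map
      (IsScalarTower.toAlgHom k A A[X]) (AlgHom.id k B) t, by
        induction t using TensorProduct.induction_on with
        | zero => simp
        | add s t hs ht => simp only [map_add, hs, ht]
        | tmul a b => simp [evT]⟩
    refine ⟨π 1, fun t ht => ?_, fun t ht => ?_, fun w => ?_⟩
    · obtain ⟨s, hs, rfl⟩ := (Ideal.mem_map_iff_of_surjective _ hsurj).1 ht
      have : ψ s = 0 := Subtype.ext ((hψ s).trans hs)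
      rw [h2, this, zero_mul, map_zero]
    · obtain ⟨s, rfl⟩ := hsurj t
      rw [h2, mul_one] at ht
      have h6 : ∀ i, ∃ d, e.repr (ψ s) i = (X - C (algebraMap k K c)) * d := by
        intro i
        have := congrFun ht i
        rw [hπ] at this
        exact dvd_iff_isRoot.2 (by simpa [evK] using this)
      choose d hd using h6
      have h7 : ψ s = (X - C (algebraMap k K c)) • ∑ i, d i • e i := by
        rw [← e.sum_repr (ψ s), Finset.smul_sum]
        exact Finset.sum_congr rfl fun i _ => by rw [hd, mul_smul]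
      obtain ⟨a, ha, t, ht⟩ := h5 (∑ i, d i • e i)
      refine ⟨a, ha, ?_⟩
      have h8 : algebraMap A (A ⊗[k] B) a * evT A B c s = evT A B c (algebraMap A[X] _ (C a) * s -
          algebraMap A[X] _ (X - C (algebraMap k A c)) * t) := by
        simp [evT]
      rw [h8]
      refine Ideal.mem_map_of_mem _ ?_
      rw [RingHom.mem_ker, map_sub, map_mul, map_mul, AlgHom.commutes, AlgHom.commutes, ← hψ,
        ← hψ, h7, ht, hj, hj]
      simp only [Algebra.smul_def, Polynomial.map_sub, map_X, map_C,
        ← IsScalarTower.algebraMap_apply k A K, MulMemClass.coe_mul, Subalgebra.coe_algebraMap]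
      ring
    · obtain ⟨a, ha, t, ht⟩ := h5 (∑ i, C (w i) • e i)
      refine ⟨a, ha, evT A B c t, ?_⟩
      rw [h2, mul_one, ht, h1]
      congr 1
      · simp [evK]
      · ext i
        simp [hπ, evK, Finsupp.single_apply]

end Model

end Pool.Agent.Lib.MP_fc2ced_ag.Naive
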