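import Pool.Agent.Lib.MP_fc2ced_ag.NSpec

/-!
Multiplicities in the joint spectrum versus lengths of localized modules.
-/

namespace Pool.Agent.Lib.MP_fc2ced_ag.Naive

universe u

open Module

section Ell

variable {T : Type*} [CommRing T] (W : Ideal T) [W.IsPrime]

/-- length of the localization -/
noncomputable def ell (V : Type*) [AddCommGroup V] [Module T V] : ℕ∞ :=
  Module.length (Localization W.primeCompl) (LocalizedModule W.primeCompl V)

variable {M N P : Type*} [AddCommGroup M] [Module T M] [AddCommGroup N] [Module T N]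
  [AddCommGroup P] [Module T P]

lemma ell_exact (f : M →ₗ[T] N) (g : N →ₗ[T] P) (hf : Function.Injective f)
    (hg : Function.Surjective g) (h : Function.Exact f g) : ell W N = ell W M + ell W P :=
  Module.length_eq_add_of_exact (LocalizedModule.map W.primeCompl f)
    (LocalizedModule.map W.primeCompl g) (LocalizedModule.map_injective _ f hf)
    (LocalizedModule.map_surjective _ g hg) (LocalizedModule.map_exact _ f g h)

lemma ell_eq_zero (h : ∀ m : M, ∃ s ∉ W, s • m = 0) : ell W M = 0 := by
  unfold ell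
  rw [Module.length_eq_zero_iff, LocalizedModule.subsingleton_iff]
  exact h

lemma ell_eq (f : M →ₗ[T] N) (h1 : ∀ m, f m = 0 → ∃ s ∉ W, s • m = 0)
    (h2 : ∀ n, ∃ s ∉ W, ∃ m, f m = s • n) : ell W M = ell W N := by
  rw [ell_exact W (LinearMap.ker f).subtype f.rangeRestrict (Submodule.injective_subtype _)
    f.surjective_rangeRestrict (by
      rw [LinearMap.exact_iff]
      simp),
    ell_exact W (LinearMap.range f).subtype (LinearMap.range f).mkQ (Submodule.injective_subtype _)
      (Submodule.mkQ_surjective _) (LinearMap.exact_subtype_mkQ _),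
    ell_eq_zero W (M := LinearMap.ker f), ell_eq_zero W (M := N ⧸ LinearMap.range f), zero_add,
    add_zero]
  · intro n
    obtain ⟨n, rfl⟩ := Submodule.Quotient.mk_surjective _ n
    obtain ⟨s, hs, m, hm⟩ := h2 n
    refine ⟨s, hs, ?_⟩
    rw [← Submodule.Quotient.mk_smul, Submodule.Quotient.mk_eq_zero]
    exact ⟨m, hm⟩
  · intro m
    obtain ⟨s, hs, hm⟩ := h1 m.1 m.2
    exact ⟨s, hs, Subtype.ext hm⟩

lemma ell_self : ell W (T ⧸ W) = 1 := by
  unfold ell
  rw [Module.length_eq_one_iff, isSimpleModule_iff_toSpanSingleton_surjective]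
  constructor
  · rw [← not_subsingleton_iff_nontrivial, LocalizedModule.subsingleton_iff]
    intro h
    obtain ⟨r, hr, h⟩ := h 1
    refine hr (Ideal.Quotient.eq_zero_iff_mem.1 ?_)
    simpa [Algebra.smul_def] using h
  · intro z hz w
    induction z using LocalizedModule.induction_on with
    | _ z s =>
    induction w using LocalizedModule.induction_on with
    | _ w t =>
    obtain ⟨z, rfl⟩ := Ideal.Quotient.mk_surjective z
    obtain ⟨w, rfl⟩ := Ideal.Quotient.mk_surjective w
    have hzW : z ∉ W := by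
      intro h
      apply hz
      rw [Ideal.Quotient.eq_zero_iff_mem.2 h, LocalizedModule.zero_mk]
    refine ⟨Localization.mk (w * s) (⟨z, hzW⟩ * t), ?_⟩
    rw [LinearMap.toSpanSingleton_apply, LocalizedModule.mk_smul_mk, LocalizedModule.mk_eq]
    refine ⟨1, ?_⟩
    simp only [one_smul, Submonoid.smul_def, Submonoid.coe_mul, Algebra.smul_def,
      Ideal.Quotient.algebraMap_eq, map_mul]
    ring

end Ell

lemma gdet_equiv {B K V V' : Type*} [Field K] [AddCommGroup V] [Module K V] [Module.Finite K V]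
    [AddCommGroup V'] [Module K V'] [Module.Finite K V'] (e : V ≃ₗ[K] V') (f : B → End K V)
    (f' : B → End K V') (h : ∀ b v, e (f b v) = f' b (e v)) {n : ℕ} (β : Fin n → B) :
    gdet f β = gdet f' β := by
  rw [gdet_eq f' β ((finBasis K V).map e)]
  unfold gdet
  congr 2
  funext b
  ext i j
  simp [LinearMap.toMatrix_apply, ← h]

section Count

variable {U : Type u} [CommRing U] {K : Type*} [Field K] [Algebra K U]
  {Ω : Type*} [Field Ω] (x : K →+* Ω)

/-- `M` is the spectrum of the module `V` -/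
def IsSpecM (V : Type*) [AddCommGroup V] [Module K V] [Module U V] [IsScalarTower K U V]
    [Module.Finite K V] (M : Multiset (U →+* Ω)) : Prop :=
  ∀ (n : ℕ) (β : Fin n → U), MvPolynomial.map x (gdet (Algebra.lsmul K K V) β) =
    (M.map fun χ : U →+* Ω => glin χ β).prod

variable {x}

lemma isSpecM_iff {V : Type*} [AddCommGroup V] [Module K V] [Module U V] [IsScalarTower K U V]
    [Module.Finite K V] {M : Multiset (U →+* Ω)} {ι : Type*} [Fintype ι] [DecidableEq ι]
    (e : Basis ι K V) : IsSpecM x V M ↔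
      IsSpec (fun u : U => (LinearMap.toMatrix e e (Algebra.lsmul K K V u)).map x) M := by
  refine forall_congr' fun n => forall_congr' fun β => ?_
  rw [gdet_eq _ β e, map_gmat]
  simp only [MvPolynomial.map_X, MvPolynomial.map_C]
  rfl

lemma exists_isSpecM [IsAlgClosed Ω] (x : K →+* Ω) (V : Type*) [AddCommGroup V] [Module K V]
    [Module U V] [IsScalarTower K U V] [Module.Finite K V] :
    ∃ M : Multiset (U →+* Ω), IsSpecM x V M := by
  obtain ⟨M, hM⟩ := exists_isSpec_field (x.mapMatrix.comp
    ((LinearMap.toMatrixAlgEquiv (finBasis K V)).toRingEquiv.toRingHom.comp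
      (Algebra.lsmul K K V : U →ₐ[K] End K V).toRingHom))
  exact ⟨M, (isSpecM_iff (finBasis K V)).2 hM⟩

lemma toMatrix_lsmul_one {V : Type*} [AddCommGroup V] [Module K V] [Module U V]
    [IsScalarTower K U V] {ι : Type*} [Fintype ι] [DecidableEq ι] (e : Basis ι K V) :
    (LinearMap.toMatrix e e (Algebra.lsmul K K V (1 : U))).map x = 1 := by
  rw [map_one, LinearMap.toMatrix_one, Matrix.map_one _ (map_zero x) (map_one x)]

lemma IsSpecM.unique {V : Type*} [AddCommGroup V] [Module K V] [Module U V] [IsScalarTower K U V]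
    [Module.Finite K V] {M M' : Multiset (U →+* Ω)} (h : IsSpecM x V M) (h' : IsSpecM x V M') :
    M = M' :=
  ((isSpecM_iff (finBasis K V)).1 h).unique ((isSpecM_iff (finBasis K V)).1 h')
    (toMatrix_lsmul_one _)

lemma IsSpecM.card {V : Type*} [AddCommGroup V] [Module K V] [Module U V] [IsScalarTower K U V]
    [Module.Finite K V] {M : Multiset (U →+* Ω)} (h : IsSpecM x V M) : M.card = finrank K V := by
  simpa using ((isSpecM_iff (finBasis K V)).1 h).card (toMatrix_lsmul_one _)

lemma IsSpecM.ann {V : Type*} [AddCommGroup V] [Module K V] [Module U V] [IsScalarTower K U V]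
    [Module.Finite K V] {M : Multiset (U →+* Ω)} (h : IsSpecM x V M) {u : U}
    (hu : ∀ v : V, u • v = 0) {χ : U →+* Ω} (hχ : χ ∈ M) : χ u = 0 := by
  refine ((isSpecM_iff (finBasis K V)).1 h).scalar (toMatrix_lsmul_one _) ?_ hχ
  have : Algebra.lsmul K K V u = 0 := LinearMap.ext hu
  simp [this]

lemma IsSpecM.equiv {V V' : Type*} [AddCommGroup V] [Module K V] [Module U V]
    [IsScalarTower K U V] [Module.Finite K V] [AddCommGroup V'] [Module K V'] [Module U V']
    [IsScalarTower K U V'] [Module.Finite K V'] {M : Multiset (U →+* Ω)} (h : IsSpecM x V M)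
    (e : V ≃ₗ[U] V') : IsSpecM x V' M := by
  intro n β
  rw [← h n β, gdet_equiv (e.restrictScalars K) (Algebra.lsmul K K V) (Algebra.lsmul K K V')]
  intro b v
  simp

lemma IsSpecM.add {V : Type*} [AddCommGroup V] [Module K V] [Module U V] [IsScalarTower K U V]
    [Module.Finite K V] (S : Submodule U V) [Module.Finite K S] {M M' : Multiset (U →+* Ω)}
    (h : IsSpecM x S M) (h' : IsSpecM x (V ⧸ S) M') : IsSpecM x V (M + M') := by
  intro n β
  rw [Multiset.map_add, Multiset.prod_add, ← h n β, ← h' n β, ← map_mul,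
    gdet_exact (S.subtype.restrictScalars K) (S.mkQ.restrictScalars K) S.injective_subtype
      S.mkQ_surjective (LinearMap.exact_subtype_mkQ S) (Algebra.lsmul K K S) (Algebra.lsmul K K V)
      (Algebra.lsmul K K (V ⧸ S)) (fun b w => by simp) (fun b v => by simp)]

variable {T : Type*} [CommRing T] [Algebra T U] [IsAlgClosed Ω] (χ : U →+* Ω)
  (W : Ideal T) [W.IsPrime] (hW : ∀ t, t ∈ W ↔ χ (algebraMap T U t) = 0)
  (hloc : ∀ u : U, ∃ s ∉ W, ∃ t, algebraMap T U t = algebraMap T U s * u)

omit [IsAlgClosed Ω] in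
include hW hloc in
lemma ell_ker : ell W (U ⧸ RingHom.ker χ) = 1 := by
  rw [← ell_self W]
  symm
  refine ell_eq W (W.liftQ ((Ideal.Quotient.mkₐ T (RingHom.ker χ)).toLinearMap ∘ₗ
    Algebra.linearMap T U) fun t ht => ?_) ?_ ?_
  · exact Ideal.Quotient.eq_zero_iff_mem.2 ((hW t).1 ht)
  · intro m hm
    obtain ⟨m, rfl⟩ := Submodule.Quotient.mk_surjective _ m
    refine ⟨1, (Ideal.ne_top_iff_one W).1 (Ideal.IsPrime.ne_top inferInstance), ?_⟩
    rw [one_smul, Submodule.Quotient.mk_eq_zero, hW]
    exact Ideal.Quotient.eq_zero_iff_mem.1 hm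
  · intro n
    obtain ⟨n, rfl⟩ := Ideal.Quotient.mk_surjective n
    obtain ⟨s, hs, t, ht⟩ := hloc n
    refine ⟨s, hs, Submodule.Quotient.mk t, ?_⟩
    change Ideal.Quotient.mk _ (algebraMap T U t) = Ideal.Quotient.mk _ (s • n)
    rw [ht, Algebra.smul_def]

include hW hloc in
open Classical in
lemma count_eq_ell [Module.Finite K (U ⧸ RingHom.ker χ)] {M₀ : Multiset (U →+* Ω)}
    (h₀ : IsSpecM x (U ⧸ RingHom.ker χ) M₀) (d : ℕ) :
    ∀ (V : Type u) [AddCommGroup V] [Module K V] [Module U V] [IsScalarTower K U V]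
      [Module T V] [IsScalarTower T U V] [Module.Finite K V] (M : Multiset (U →+* Ω)),
      finrank K V = d → IsSpecM x V M → (M.count χ : ℕ∞) = ell W V * M₀.count χ := by
  induction d using Nat.strong_induction_on with
  | _ d ih =>
  intro V _ _ _ _ _ _ _ M hd hM
  rcases subsingleton_or_nontrivial V with hV | hV
  · have h1 : M = 0 := by
      rw [← Multiset.card_eq_zero, hM.card, Module.finrank_zero_of_subsingleton]
    rw [h1, ell_eq_zero W fun m => ⟨1, (Ideal.ne_top_iff_one W).1
      (Ideal.IsPrime.ne_top inferInstance), Subsingleton.elim _ _⟩]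
    simp
  have : IsArtinian U V := isArtinian_of_tower K inferInstance
  obtain ⟨S, hS, -⟩ := (eq_bot_or_exists_atom_le (⊤ : Submodule U V)).resolve_left top_ne_bot
  have hS' : IsSimpleModule U S := isSimpleModule_iff_isAtom.2 hS
  have : Module.Finite K S := Module.Finite.of_injective (S.subtype.restrictScalars K)
    S.injective_subtype
  obtain ⟨M₁, h₁⟩ := exists_isSpecM (U := U) x S
  obtain ⟨M₂, h₂⟩ := exists_isSpecM (U := U) x (V ⧸ S)
  have h3 := hM.unique (h₁.add S h₂)
  have h4 : finrank K (V ⧸ S) < d := by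
    have : Nontrivial S := IsSimpleModule.nontrivial U S
    have h5 : 0 < finrank K S := Module.finrank_pos
    have h6 := hM.card
    rw [h3, Multiset.card_add, h₁.card, h₂.card] at h6
    omega
  rw [h3, Multiset.count_add, Nat.cast_add, ih _ h4 (V ⧸ S) M₂ rfl h₂,
    ell_exact W (S.subtype.restrictScalars T) (S.mkQ.restrictScalars T) S.injective_subtype
      S.mkQ_surjective (LinearMap.exact_subtype_mkQ S), add_mul]
  congr 1
  obtain ⟨I, hI, ⟨e⟩⟩ := isSimpleModule_iff_quot_maximal.1 hS'
  by_cases hIχ : I ≤ RingHom.ker χ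
  · have h5 : I = RingHom.ker χ := hI.eq_of_le (RingHom.ker_ne_top χ) hIχ
    subst h5
    rw [(h₁.equiv e).unique h₀, ell_eq W (e.restrictScalars T).toLinearMap (fun m hm =>
      ⟨1, (Ideal.ne_top_iff_one W).1 (Ideal.IsPrime.ne_top inferInstance), by simpa using hm⟩)
      (fun n => ⟨1, (Ideal.ne_top_iff_one W).1 (Ideal.IsPrime.ne_top inferInstance), e.symm n,
        by simp⟩), ell_ker χ W hW hloc, one_mul]
  · obtain ⟨u, hu, hu'⟩ := SetLike.not_le_iff_exists.1 hIχ
    have h5 : ∀ v : S, u • v = 0 := by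
      intro v
      apply e.injective
      obtain ⟨w, hw⟩ := Ideal.Quotient.mk_surjective (e v)
      rw [map_smul, map_zero, ← hw, Algebra.smul_def, Ideal.Quotient.algebraMap_eq, ← map_mul,
        Ideal.Quotient.eq_zero_iff_mem]
      exact I.mul_mem_right _ hu
    obtain ⟨s, hs, t, ht⟩ := hloc u
    rw [Multiset.count_eq_zero.2 fun h => hu' (h₁.ann h5 h), ell_eq_zero W fun v => ⟨t, ?_, ?_⟩]
    · simp
    · rw [hW, ht, map_mul]
      exact mul_ne_zero (fun h => hs ((hW s).2 h)) hu'
    · rw [← algebraMap_smul U, ht, mul_smul, h5, smul_zero]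

omit [IsAlgClosed Ω] in
lemma mem_specM_ker (hχ : ∀ c, χ (algebraMap K U c) = x c)
    [Module.Finite K (U ⧸ RingHom.ker χ)] {M₀ : Multiset (U →+* Ω)}
    (h₀ : IsSpecM x (U ⧸ RingHom.ker χ) M₀) : χ ∈ M₀ := by
  set e := finBasis K (U ⧸ RingHom.ker χ)
  have hl : ∀ (c : K) (z : U ⧸ RingHom.ker χ), χ.kerLift (c • z) = x c * χ.kerLift z := by
    intro c z
    obtain ⟨z, rfl⟩ := Ideal.Quotient.mk_surjective z
    rw [← hχ, RingHom.kerLift_mk, ← map_mul, ← RingHom.kerLift_mk, ← Algebra.smul_def]
    rfl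
  refine ((isSpecM_iff e).1 h₀).mem_of_eigen (toMatrix_lsmul_one _) χ
    (fun i => χ.kerLift (e i)) (fun h => ?_) fun b j => ?_
  · have h1 := congrArg χ.kerLift (e.sum_repr 1)
    rw [map_sum, map_one χ.kerLift] at h1
    simp only [hl] at h1
    rw [Finset.sum_eq_zero fun i _ => by rw [show χ.kerLift (e i) = 0 from congrFun h i, mul_zero]]
      at h1
    exact zero_ne_one h1
  · have h1 := congrArg χ.kerLift (e.sum_repr (b • e j))
    rw [map_sum] at h1
    simp only [hl] at h1
    rw [Algebra.smul_def b, map_mul χ.kerLift, Ideal.Quotient.algebraMap_eq, RingHom.kerLift_mk] at h1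
    rw [← h1]
    refine Finset.sum_congr rfl fun i _ => ?_
    simp [LinearMap.toMatrix_apply, mul_comm, Algebra.smul_def]

include hW hloc in
open Classical in
lemma exists_weight (hχ : ∀ c, χ (algebraMap K U c) = x c) [Module.Finite K (U ⧸ RingHom.ker χ)]
    :
    ∃ w : ℕ, w ≠ 0 ∧ ((∀ u, ∃ c, x c = χ u) → w = 1) ∧
      ∀ (V : Type u) [AddCommGroup V] [Module K V] [Module U V] [IsScalarTower K U V]
        [Module T V] [IsScalarTower T U V] [Module.Finite K V] (M : Multiset (U →+* Ω)),
        IsSpecM x V M → M.count χ = (ell W V).toNat * w := by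
  obtain ⟨M₀, h₀⟩ := exists_isSpecM (U := U) x (U ⧸ RingHom.ker χ)
  have h1 : M₀.count χ ≠ 0 := Multiset.count_ne_zero.2 (mem_specM_ker χ hχ h₀)
  refine ⟨M₀.count χ, h1, fun h => ?_, fun V _ _ _ _ _ _ _ M hM => ?_⟩
  · have h2 : finrank K (U ⧸ RingHom.ker χ) ≤ 1 := by
      have := LinearMap.finrank_le_finrank_of_surjective
        (f := Algebra.linearMap K (U ⧸ RingHom.ker χ)) (fun z => by
          obtain ⟨z, rfl⟩ := Ideal.Quotient.mk_surjective z
          obtain ⟨c, hc⟩ := h z
          refine ⟨c, ?_⟩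
          rw [Algebra.linearMap_apply, ← Ideal.Quotient.mk_algebraMap, Ideal.Quotient.eq,
            RingHom.mem_ker, map_sub, hχ, hc, sub_self])
      simpa using this
    have h3 := Multiset.count_le_card χ M₀
    rw [h₀.card] at h3
    omega
  · have := congrArg ENat.toNat (count_eq_ell χ W hW hloc h₀ _ V M rfl hM)
    simpa using this

end Count

end Pool.Agent.Lib.MP_fc2ced_ag.Naive
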