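import Mathlib

/-!
Additive polynomials, the Ore condition, and splitting off one variable from a polynomial of
`p`-weight degree at most two modulo Artin-Schreier coboundaries.
-/

namespace Pool.Agent.Lib.MP_fc2ced_ag.Naive

open Polynomial

universe w

variable (k : Type*) [Field k] (p : ℕ)

/-- additive combinations of a family -/
def Lin {S ι : Type*} [CommRing S] [Algebra k S] (e : ι → S) : Submodule k S :=
  Submodule.span k (Set.range fun a : ι × ℕ => e a.1 ^ p ^ a.2)

/-- additive polynomials -/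
noncomputable abbrev Addp : Submodule k k[X] := Lin k p fun _ : Unit => X

/-- affine-additive polynomials -/
noncomputable def Aff1 (ι : Type*) : Submodule k (MvPolynomial ι k) :=
  Submodule.span k {1} ⊔ Lin k p MvPolynomial.X

variable {k p} [hp : Fact p.Prime] [CharP k p] {S : Type*} [CommRing S] [Algebra k S]

variable (k) in
include k in
lemma add_pow_pp (x y : S) (a : ℕ) : (x + y) ^ p ^ a = x ^ p ^ a + y ^ p ^ a := by
  nontriviality S
  have : CharP S p := charP_of_injective_algebraMap (algebraMap k S).injective p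
  exact add_pow_char_pow x y p a

omit hp [CharP k p] in
lemma Lin.gen {ι : Type*} (e : ι → S) (i : ι) (a : ℕ) : e i ^ p ^ a ∈ Lin k p e :=
  Submodule.subset_span ⟨(i, a), rfl⟩

omit hp [CharP k p] in
lemma Lin.self {ι : Type*} (e : ι → S) (i : ι) : e i ∈ Lin k p e := by
  simpa using Lin.gen (k := k) (p := p) e i 0

lemma Lin.pow {ι : Type*} {e : ι → S} {x : S} (hx : x ∈ Lin k p e) (a : ℕ) :
    x ^ p ^ a ∈ Lin k p e := by
  induction hx using Submodule.span_induction with
  | mem x hx =>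
    obtain ⟨b, rfl⟩ := hx
    rw [← pow_mul, ← pow_add]
    exact Lin.gen e _ _
  | zero => rw [zero_pow (pow_ne_zero a hp.out.ne_zero)]; exact Submodule.zero_mem _
  | add x y _ _ hx hy => rw [add_pow_pp k]; exact Submodule.add_mem _ hx hy
  | smul c x _ hx => rw [_root_.smul_pow]; exact Submodule.smul_mem _ _ hx

lemma Lin.map {ι κ T : Type*} [CommRing T] [Algebra k T] {e : ι → S} {e' : κ → T}
    (φ : S →ₐ[k] T) (h : ∀ i, φ (e i) ∈ Lin k p e') {x : S} (hx : x ∈ Lin k p e) :
    φ x ∈ Lin k p e' := by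
  refine (Submodule.span_le.2 ?_ : Lin k p e ≤ (Lin k p e').comap φ.toLinearMap) hx
  rintro _ ⟨a, rfl⟩
  simpa using Lin.pow (h a.1) a.2

lemma Lin.add {ι T : Type*} [CommRing T] [Algebra k T] {e : ι → S} {φ ψ χ : S →ₐ[k] T}
    (h : ∀ i, φ (e i) = ψ (e i) + χ (e i)) {x : S} (hx : x ∈ Lin k p e) : φ x = ψ x + χ x := by
  induction hx using Submodule.span_induction with
  | mem x hx =>
    obtain ⟨b, rfl⟩ := hx
    simp only [map_pow, h, add_pow_pp k]
  | zero => simp
  | add x y _ _ hx hy => simp only [map_add, hx, hy]; ring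
  | smul c x _ hx => simp only [map_smul, hx, smul_add]

lemma aeval_add' {A : k[X]} (hA : A ∈ Addp k p) (x y : S) :
    aeval (x + y) A = aeval x A + aeval y A := Lin.add (fun _ => by simp) hA

lemma aeval_zero' {A : k[X]} (hA : A ∈ Addp k p) : aeval (0 : S) A = 0 := by
  simpa using aeval_add' hA (0 : S) 0

lemma aeval_sum' {A : k[X]} (hA : A ∈ Addp k p) {ι : Type*} (s : Finset ι) (x : ι → S) :
    aeval (∑ i ∈ s, x i) A = ∑ i ∈ s, aeval (x i) A :=
  map_sum (AddMonoidHom.mk' (fun x : S => aeval x A) (aeval_add' hA)) x s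

lemma aeval_sub' {A : k[X]} (hA : A ∈ Addp k p) (x y : S) :
    aeval (x - y) A = aeval x A - aeval y A :=
  map_sub (AddMonoidHom.mk' (fun x : S => aeval x A) (aeval_add' hA)) x y

lemma Lin.aeval {ι : Type*} {e : ι → S} {x : S} (hx : x ∈ Lin k p e) {A : k[X]}
    (hA : A ∈ Addp k p) : aeval x A ∈ Lin k p e :=
  Lin.map (Polynomial.aeval x) (fun _ => by simpa using hx) hA

omit hp [CharP k p] in
lemma addp_coeff {A : k[X]} (hA : A ∈ Addp k p) (n : ℕ) (h : A.coeff n ≠ 0) : ∃ a, n = p ^ a := by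
  induction hA using Submodule.span_induction with
  | mem x hx =>
    obtain ⟨b, rfl⟩ := hx
    refine ⟨b.2, ?_⟩
    by_contra h'
    simp [coeff_X_pow, h'] at h
  | zero => simp at h
  | add x y _ _ hx hy =>
    by_cases h' : x.coeff n = 0
    · exact hy (by simpa [h'] using h)
    · exact hx h'
  | smul c x _ hx => exact hx fun h' => h (by simp [h'])

omit [CharP k p] in
lemma addp_pos {A : k[X]} (hA : A ∈ Addp k p) (h : A ≠ 0) : 0 < A.natDegree := by
  obtain ⟨a, ha⟩ := addp_coeff hA _ (leadingCoeff_ne_zero.2 h)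
  rw [ha]
  exact pow_pos hp.out.pos a

lemma addp_div [PerfectField k] {H G : k[X]} (hH : H ∈ Addp k p) (hG : G ∈ Addp k p)
    (hH0 : H ≠ 0) (hG0 : G ≠ 0) (h : H.natDegree ≤ G.natDegree) :
    ∃ E ∈ Addp k p, (G - aeval E H).natDegree < G.natDegree := by
  obtain ⟨a, ha⟩ := addp_coeff hH _ (leadingCoeff_ne_zero.2 hH0)
  obtain ⟨b, hb⟩ := addp_coeff hG _ (leadingCoeff_ne_zero.2 hG0)
  rw [ha, hb, Nat.pow_le_pow_iff_right hp.out.one_lt] at h
  obtain ⟨e, rfl⟩ := Nat.exists_eq_add_of_le h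
  obtain ⟨c, hc⟩ := (iterateFrobeniusEquiv k p a).surjective (G.leadingCoeff / H.leadingCoeff)
  rw [iterateFrobeniusEquiv_def] at hc
  have hc0 : c ≠ 0 := by
    rintro rfl
    rw [zero_pow (pow_ne_zero a hp.out.ne_zero), eq_comm, div_eq_zero_iff] at hc
    simp [hH0, hG0] at hc
  have h1 : (C c * X ^ p ^ e).natDegree = p ^ e := natDegree_C_mul_X_pow _ _ hc0
  have h2 : (H.comp (C c * X ^ p ^ e)).natDegree = G.natDegree := by
    rw [natDegree_comp, h1, ha, hb, pow_add]
  have h3 : (H.comp (C c * X ^ p ^ e)).leadingCoeff = G.leadingCoeff := by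
    rw [leadingCoeff_comp (by rw [h1]; exact pow_ne_zero e hp.out.ne_zero),
      leadingCoeff_C_mul_X_pow, ha, hc, mul_div_cancel₀ _ (leadingCoeff_ne_zero.2 hH0)]
  refine ⟨C c * X ^ p ^ e, ?_, ?_⟩
  · rw [C_mul']
    exact Submodule.smul_mem _ _ (Lin.gen _ () e)
  · rw [← comp_eq_aeval]
    by_cases h4 : G - H.comp (C c * X ^ p ^ e) = 0
    · rw [h4]
      exact addp_pos hG hG0
    · refine natDegree_lt_natDegree h4 (degree_sub_lt_left ?_ hG0 h3.symm)
      rw [degree_eq_natDegree hG0, degree_eq_natDegree, h2]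
      rw [← leadingCoeff_ne_zero, h3]
      exact leadingCoeff_ne_zero.2 hG0

lemma ore_aux [PerfectField k] (d : ℕ) : ∀ H ∈ Addp k p, ∀ G ∈ Addp k p,
    H.natDegree + G.natDegree = d →
    ∃ M ∈ Addp k p, ∃ N ∈ Addp k p, (M ≠ 0 ∨ N ≠ 0) ∧ aeval M H + aeval N G = 0 := by
  induction d using Nat.strong_induction_on with
  | _ d ih =>
  intro H hH G hG hd
  wlog h : H.natDegree ≤ G.natDegree generalizing H G
  · obtain ⟨M, hM, N, hN, h1, h2⟩ := this G hG H hH (by omega) (by omega)
    exact ⟨N, hN, M, hM, h1.symm, by rw [add_comm, h2]⟩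
  by_cases hH0 : H = 0
  · exact ⟨X, Lin.self _ (), 0, Submodule.zero_mem _, Or.inl X_ne_zero, by
      simp [hH0, aeval_zero' hG]⟩
  by_cases hG0 : G = 0
  · exact ⟨0, Submodule.zero_mem _, X, Lin.self _ (), Or.inr X_ne_zero, by
      simp [hG0, aeval_zero' hH]⟩
  obtain ⟨E, hE, h1⟩ := addp_div hH hG hH0 hG0 h
  obtain ⟨M, hM, N, hN, h2, h3⟩ := ih _ (by omega) H hH _
    (Submodule.sub_mem _ hG (Lin.aeval hE hH)) rfl
  refine ⟨M - aeval N E, Submodule.sub_mem _ hM (Lin.aeval hN hE), N, hN, ?_, ?_⟩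
  · by_cases hN0 : N = 0
    · simpa [hN0, aeval_zero' hE] using h2
    · exact Or.inr hN0
  · rw [aeval_sub' hH, ← h3, map_sub, aeval_algHom_apply]
    ring

lemma ore [PerfectField k] {H G : k[X]} (hH : H ∈ Addp k p) (hG : G ∈ Addp k p)
    (h : H ≠ 0 ∨ G = 0) :
    ∃ M ∈ Addp k p, ∃ N ∈ Addp k p, N ≠ 0 ∧ aeval M H + aeval N G = 0 := by
  rcases h with h | rfl
  · obtain ⟨M, hM, N, hN, h1, h2⟩ := ore_aux _ H hH G hG rfl
    refine ⟨M, hM, N, hN, fun hN0 => ?_, h2⟩
    rw [hN0, aeval_zero' hG, add_zero, ← comp_eq_aeval] at h2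
    have := congrArg natDegree h2
    rw [natDegree_comp, natDegree_zero] at this
    exact (Nat.mul_pos (addp_pos hH h) (addp_pos hM (h1.resolve_right (not_not.2 hN0)))).ne' this
  · exact ⟨0, Submodule.zero_mem _, X, Lin.self _ (), X_ne_zero, by simp [aeval_zero' hH]⟩

variable (k p S) in
/-- Artin-Schreier coboundaries -/
def wp : AddSubgroup S :=
  (AddMonoidHom.mk' (fun x : S => x ^ p - x) fun x y => by
    have := add_pow_pp k (p := p) x y 1
    simp only [pow_one] at this
    rw [this]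
    ring).range

lemma wp_pow (x : S) (e : ℕ) : x ^ p ^ e - x ∈ wp k p S := by
  induction e with
  | zero => simp
  | succ e ih =>
    have := add_mem (show (x ^ p ^ e) ^ p - x ^ p ^ e ∈ wp k p S from ⟨_, rfl⟩) ih
    rwa [sub_add_sub_cancel, ← pow_mul, ← pow_succ] at this

variable (k p) in
/-- normal form of a biadditive expression -/
def Nf (B : S → S → S) (m : ℕ) (K : k[X]) : Prop :=
  K ∈ Addp k p ∧ ∀ u s, B u s - u ^ p ^ m * aeval s K ∈ wp k p S

lemma Nf.add {B B' : S → S → S} {m : ℕ} {K K' : k[X]} (h : Nf k p B m K) (h' : Nf k p B' m K') :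
    Nf k p (fun u s => B u s + B' u s) m (K + K') :=
  ⟨Submodule.add_mem _ h.1 h'.1, fun u s => by
    have := add_mem (h.2 u s) (h'.2 u s)
    rwa [sub_add_sub_comm, ← mul_add, ← map_add] at this⟩

lemma Nf.raise {B : S → S → S} {m : ℕ} {K : k[X]} (h : Nf k p B m K) (e : ℕ) :
    Nf k p B (m + e) (K ^ p ^ e) :=
  ⟨Lin.pow h.1 e, fun u s => by
    have := sub_mem (h.2 u s) (wp_pow (u ^ p ^ m * aeval s K) e)
    rwa [sub_sub_sub_cancel_right, mul_pow, ← pow_mul, ← pow_add, ← map_pow] at this⟩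

lemma Nf.left {B : S → S → S} {m : ℕ} {K : k[X]} (h : Nf k p B m K) (e : ℕ) :
    Nf k p (fun u s => B (u ^ p ^ e) s) (m + e) K :=
  ⟨h.1, fun u s => by
    have := h.2 (u ^ p ^ e) s
    rwa [← pow_mul, ← pow_add, add_comm] at this⟩

lemma Nf.right {B : S → S → S} {m : ℕ} {K : k[X]} (h : Nf k p B m K) (e : ℕ) :
    Nf k p (fun u s => B u (s ^ p ^ e)) m (K.comp (X ^ p ^ e)) :=
  ⟨by rw [comp_eq_aeval]; exact Lin.aeval (Lin.gen _ () e) h.1, fun u s => by
    simpa [aeval_comp] using h.2 u (s ^ p ^ e)⟩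

lemma Nf.exists_add {B B' : S → S → S} (h : ∃ m K, Nf k p B m K) (h' : ∃ m K, Nf k p B' m K) :
    ∃ m K, Nf k p (fun u s => B u s + B' u s) m K := by
  obtain ⟨m, K, h⟩ := h
  obtain ⟨m', K', h'⟩ := h'
  exact ⟨m + m', _, (h.raise m').add (add_comm m m' ▸ h'.raise m)⟩

lemma exists_nf_mul {A A' : k[X]} (hA : A ∈ Addp k p) (hA' : A' ∈ Addp k p) :
    ∃ m K, Nf k p (fun u s : S => aeval u A * aeval s A') m K := by
  induction hA using Submodule.span_induction generalizing A' with
  | mem x hx =>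
    obtain ⟨b, rfl⟩ := hx
    exact ⟨b.2, A', hA', by simp⟩
  | zero => exact ⟨0, 0, Submodule.zero_mem _, by simp⟩
  | add x y _ _ hx hy => simpa only [map_add, add_mul] using Nf.exists_add (hx hA') (hy hA')
  | smul c x _ hx => simpa using hx (Submodule.smul_mem _ c hA')

/-- polarization -/
noncomputable def polar {ι : Type*} (f : MvPolynomial ι k) (a b : ι → S) : S :=
  MvPolynomial.aeval (a + b) f - MvPolynomial.aeval a f - MvPolynomial.aeval b f +
    MvPolynomial.aeval (0 : ι → S) f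

variable {ι : Type*}

lemma mv_add {g : MvPolynomial ι k} (hg : g ∈ Lin k p MvPolynomial.X) (a b : ι → S) :
    MvPolynomial.aeval (a + b) g = MvPolynomial.aeval a g + MvPolynomial.aeval b g :=
  Lin.add (fun _ => by simp) hg

lemma exists_polar {f : MvPolynomial ι k} (hf : f ∈ Aff1 k p ι * Aff1 k p ι) :
    ∃ (n : ℕ) (g g' : Fin n → MvPolynomial ι k), (∀ i, g i ∈ Lin k p MvPolynomial.X) ∧
      (∀ i, g' i ∈ Lin k p MvPolynomial.X) ∧ ∀ a b : ι → S,
      polar f a b = ∑ i, MvPolynomial.aeval a (g i) * MvPolynomial.aeval b (g' i) := by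
  induction hf using Submodule.mul_induction_on' with
  | mem_mul_mem x' hx' y' hy' =>
    obtain ⟨_, hc, x, hx, rfl⟩ := Submodule.mem_sup.1 hx'
    obtain ⟨_, hd, y, hy, rfl⟩ := Submodule.mem_sup.1 hy'
    obtain ⟨c, rfl⟩ := Submodule.mem_span_singleton.1 hc
    obtain ⟨d, rfl⟩ := Submodule.mem_span_singleton.1 hd
    refine ⟨2, ![x, y], ![y, x], Fin.forall_fin_two.2 ⟨hx, hy⟩, Fin.forall_fin_two.2 ⟨hy, hx⟩,
      fun a b => ?_⟩
    have h1 := mv_add hx (0 : ι → S) 0
    have h2 := mv_add hy (0 : ι → S) 0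
    rw [add_zero, left_eq_add] at h1 h2
    simp only [polar, map_mul, map_add, map_smul, map_one, mv_add hx, mv_add hy, h1, h2,
      Fin.sum_univ_two, Matrix.cons_val_zero, Matrix.cons_val_one]
    ring
  | add x _ y _ hx hy =>
    obtain ⟨n, g, g', h1, h2, h3⟩ := hx
    obtain ⟨m, l, l', h4, h5, h6⟩ := hy
    refine ⟨n + m, Fin.append g l, Fin.append g' l', fun i => ?_, fun i => ?_, fun a b => ?_⟩
    · refine Fin.addCases (fun i => ?_) (fun i => ?_) i <;> simp [h1, h4]
    · refine Fin.addCases (fun i => ?_) (fun i => ?_) i <;> simp [h2, h5]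
    · simp only [Fin.sum_univ_add, Fin.append_left, Fin.append_right, ← h3, ← h6, polar, map_add]
      ring

lemma polar_add_left {f : MvPolynomial ι k} (hf : f ∈ Aff1 k p ι * Aff1 k p ι) (a a' b : ι → S) :
    polar f (a + a') b = polar f a b + polar f a' b := by
  obtain ⟨n, g, g', h1, h2, h3⟩ := exists_polar (S := S) hf
  simp only [h3, mv_add (h1 _), add_mul, Finset.sum_add_distrib]

lemma polar_add_right {f : MvPolynomial ι k} (hf : f ∈ Aff1 k p ι * Aff1 k p ι) (a b b' : ι → S) :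
    polar f a (b + b') = polar f a b + polar f a b' := by
  obtain ⟨n, g, g', h1, h2, h3⟩ := exists_polar (S := S) hf
  simp only [h3, mv_add (h2 _), mul_add, Finset.sum_add_distrib]

lemma exists_nf_polar [DecidableEq ι] {f : MvPolynomial ι k} (hf : f ∈ Aff1 k p ι * Aff1 k p ι)
    (i j : ι) : ∃ m K, Nf k p (fun u s : S => polar f (Pi.single i u) (Pi.single j s)) m K := by
  obtain ⟨n, g, g', h1, h2, h3⟩ := exists_polar (S := S) hf
  have h4 : ∀ (i : ι) (u : S) (g : MvPolynomial ι k), MvPolynomial.aeval (Pi.single i u) g =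
      aeval u (MvPolynomial.aeval (Pi.single i X : ι → k[X]) g) := fun i u g => by
    rw [← AlgHom.comp_apply, MvPolynomial.comp_aeval]
    congr 2
    funext l
    by_cases h : l = i <;> simp [h]
  have h5 : ∀ (i : ι) (g : MvPolynomial ι k), g ∈ Lin k p MvPolynomial.X →
      MvPolynomial.aeval (Pi.single i X : ι → k[X]) g ∈ Addp k p := fun i g hg =>
    Lin.map _ (fun l => by
      by_cases h : l = i
      · simpa [h] using Lin.self (k := k) (p := p) (fun _ : Unit => (X : k[X])) ()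
      · simp [h]) hg
  simp only [h3, h4]
  induction (Finset.univ : Finset (Fin n)) using Finset.induction_on with
  | empty => exact ⟨0, 0, Submodule.zero_mem _, by simp⟩
  | insert l s hl ih =>
    simp only [Finset.sum_insert hl]
    exact Nf.exists_add (exists_nf_mul (h5 _ _ (h1 l)) (h5 _ _ (h2 l))) ih

lemma exists_direction {n : ℕ} {f : MvPolynomial (Fin (n + 1)) k}
    (hf : f ∈ Aff1 k p _ * Aff1 k p _) :
    ∃ (w : Fin (n + 1) → k[X]) (m : ℕ) (H : k[X]) (G : Fin n → k[X]), w 0 = X ∧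
      (∀ i, w i ∈ Addp k p) ∧ (∀ l, H ≠ 0 ∨ G l = 0) ∧
      Nf k p (fun u s : S => polar f (fun i => aeval u (w i)) fun i => aeval s (w i)) m H ∧
      ∀ l, Nf k p (fun u s : S => polar f (fun i => aeval u (w i)) (Pi.single l.succ s))
        m (G l) := by
  choose m₀ K₀ h₀ using exists_nf_polar (S := S) hf
  obtain ⟨m, hm⟩ := (Set.finite_range fun a : _ × _ => m₀ a.1 a.2).bddAbove
  have h1 : ∀ i j, ∃ K, Nf k p (fun u s : S => polar f (Pi.single i u) (Pi.single j s)) m K :=
    fun i j => by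
      obtain ⟨e, rfl⟩ := Nat.exists_eq_add_of_le (hm ⟨(i, j), rfl⟩)
      exact ⟨_, (h₀ i j).raise e⟩
  choose K hK using h1
  have h2 : ∀ (i : Fin (n + 1)) (A : k[X]) (u : S),
      (fun l => aeval u ((Pi.single i A : Fin (n + 1) → k[X]) l)) = Pi.single i (aeval u A) :=
    fun i A u => funext fun l => by by_cases h : l = i <;> simp [h]
  have h3 : ∀ (i : Fin (n + 1)) (A : k[X]), A ∈ Addp k p →
      ∀ l, (Pi.single i A : Fin (n + 1) → k[X]) l ∈ Addp k p := fun i A hA l => by
    by_cases h : l = i <;> simp [h, hA]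
  by_cases h : ∀ l : Fin n, K 0 0 ≠ 0 ∨ K 0 l.succ = 0
  · exact ⟨Pi.single 0 X, m, K 0 0, fun l => K 0 l.succ, by simp, h3 _ _ (Lin.self _ ()), h,
      by simpa only [h2, aeval_X] using hK 0 0, fun l => by
        simpa only [h2, aeval_X] using hK 0 l.succ⟩
  push Not at h
  obtain ⟨j, h4, h5⟩ := h
  obtain ⟨e, he⟩ : ∃ e, e = (K j.succ 0).natDegree + (K j.succ j.succ).natDegree := ⟨_, rfl⟩
  have h6 : ∀ u : S, (fun l => aeval u (((Pi.single 0 X : Fin (n + 1) → k[X]) +
      (Pi.single j.succ (X ^ p ^ e) : Fin (n + 1) → k[X])) l)) = Pi.single 0 u + Pi.single j.succ (u ^ p ^ e) := fun u => by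
    have h7 := h2 0 X u
    have h8 := h2 j.succ (X ^ p ^ e) u
    rw [aeval_X] at h7
    rw [map_pow, aeval_X] at h8
    rw [← h7, ← h8]
    funext l
    simp
  refine ⟨(Pi.single 0 X : Fin (n + 1) → k[X]) +
    (Pi.single j.succ (X ^ p ^ e) : Fin (n + 1) → k[X]), m + e, _, _,
    by simp [(Fin.succ_ne_zero j).symm],
    fun i => Submodule.add_mem _ (h3 _ _ (Lin.self _ ()) i) (h3 _ _ (Lin.gen _ () e) i),
    fun l => Or.inl ?_, by
      simpa only [h6, polar_add_left hf, polar_add_right hf] using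
        (((hK 0 0).raise e).add (((hK 0 j.succ).right e).raise e)).add
          (((hK j.succ 0).left e).add (((hK j.succ j.succ).right e).left e)),
    fun l => by
      simpa only [h6, polar_add_left hf] using
        ((hK 0 l.succ).raise e).add ((hK j.succ l.succ).left e)⟩
  rw [h4, zero_pow (pow_ne_zero e hp.out.ne_zero), zero_add, Ne, add_eq_zero_iff_eq_neg]
  intro h7
  have h8 := congrArg natDegree h7
  have h9 := natDegree_add_le_of_le (le_refl (K j.succ 0).natDegree)
    (le_refl ((K j.succ j.succ).comp (X ^ p ^ e)).natDegree)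
  rw [natDegree_neg, natDegree_pow, natDegree_comp, natDegree_X_pow] at h8
  rw [← h8, natDegree_comp, natDegree_X_pow] at h9
  have h10 := addp_pos (hK 0 j.succ).1 h5
  have h11 : e < p ^ e := Nat.lt_pow_self hp.out.one_lt
  have h12 : p ^ e * p ^ e ≤ p ^ e * ((K 0 j.succ).natDegree * p ^ e) :=
    Nat.mul_le_mul_left _ (Nat.le_mul_of_pos_left _ h10)
  rcases le_max_iff.1 (h12.trans h9) with h | h <;> nlinarith

lemma aff1_map {κ : Type*} (a : ι → MvPolynomial κ k) (ha : ∀ i, a i ∈ Lin k p MvPolynomial.X)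
    {f : MvPolynomial ι k} (hf : f ∈ Aff1 k p ι * Aff1 k p ι) :
    MvPolynomial.aeval a f ∈ Aff1 k p κ * Aff1 k p κ := by
  have h : ∀ g ∈ Aff1 k p ι, MvPolynomial.aeval a g ∈ Aff1 k p κ := fun g hg => by
    obtain ⟨_, hc, x, hx, rfl⟩ := Submodule.mem_sup.1 hg
    obtain ⟨c, rfl⟩ := Submodule.mem_span_singleton.1 hc
    rw [map_add, map_smul, map_one]
    exact Submodule.add_mem_sup (Submodule.mem_span_singleton.2 ⟨c, rfl⟩)
      (Lin.map _ (by simpa using ha) hx)
  refine Submodule.mul_induction_on hf (fun x hx y hy => ?_) fun x y hx hy => ?_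
  · rw [map_mul]
    exact Submodule.mul_mem_mul (h x hx) (h y hy)
  · rw [map_add]
    exact Submodule.add_mem _ hx hy

omit hp [CharP k p] in
lemma map_mv {T : Type*} [CommRing T] [Algebra k T] (φ : T →ₐ[k] S) (a : ι → T)
    (f : MvPolynomial ι k) :
    φ (MvPolynomial.aeval a f) = MvPolynomial.aeval (fun i => φ (a i)) f := by
  rw [← AlgHom.comp_apply, MvPolynomial.comp_aeval]

/-- the isogeny used to split off a variable -/
noncomputable def iso {n : ℕ} (w : Fin (n + 1) → k[X]) (M N : Fin n → k[X]) (u : S)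
    (v : Fin n → S) : Fin (n + 1) → S :=
  (fun i => aeval (u + ∑ l, aeval (v l) (M l)) (w i)) + Fin.cons 0 fun l => aeval (v l) (N l)

omit hp [CharP k p] in
lemma iso_map {T : Type*} [CommRing T] [Algebra k T] (φ : S →ₐ[k] T) {n : ℕ}
    (w : Fin (n + 1) → k[X]) (M N : Fin n → k[X]) (u : S) (v : Fin n → S) :
    iso w M N (φ u) (fun l => φ (v l)) = fun i => φ (iso w M N u v i) := by
  funext i
  simp only [iso, Pi.add_apply, map_add, ← aeval_algHom_apply, map_sum]
  refine Fin.cases ?_ (fun i => ?_) i <;> simp [aeval_algHom_apply]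

theorem exists_split [PerfectField k] {n : ℕ} {f : MvPolynomial (Fin (n + 1)) k}
    (hf : f ∈ Aff1 k p _ * Aff1 k p _) :
    ∃ (w : Fin (n + 1) → k[X]) (M N : Fin n → k[X]) (f₀ : k[X]) (g : MvPolynomial (Fin n) k)
      (h : MvPolynomial (Option (Fin n)) k), w 0 = X ∧ (∀ l, 0 < (N l).natDegree) ∧
      g ∈ Aff1 k p _ * Aff1 k p _ ∧
      ∀ (S : Type w) [CommRing S] [Algebra k S] (u : S) (v : Fin n → S),
        MvPolynomial.aeval (iso w M N u v) f = aeval u f₀ + MvPolynomial.aeval v g +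
          (MvPolynomial.aeval (fun o => Option.elim o u v) h ^ p -
            MvPolynomial.aeval (fun o => Option.elim o u v) h) := by
  obtain ⟨w, m, H, G, h1, h2, h3, h4, h5⟩ :=
    exists_direction (S := MvPolynomial (Option (Fin n)) k) hf
  choose M hM N hN h6 h7 using fun l => ore h4.1 (h5 l).1 (h3 l)
  have h8 : ∀ (u : MvPolynomial (Option (Fin n)) k) (v : Fin n → MvPolynomial (Option (Fin n)) k),
      polar f (fun i => aeval u (w i)) (iso w M N 0 v) ∈ wp k p _ := fun u v => by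
    have h9 : iso w M N 0 v = (fun i => aeval (∑ l, aeval (v l) (M l)) (w i)) +
        ∑ l, Pi.single (Fin.succ l) (aeval (v l) (N l)) := by
      rw [iso, zero_add]
      congr 1
      funext i
      refine Fin.cases ?_ (fun i => ?_) i
      · simp [Finset.sum_apply, (Fin.succ_ne_zero _).symm]
      · simp [Finset.sum_apply, Pi.single_apply]
    have h10 := map_sum (AddMonoidHom.mk' _ (polar_add_right hf fun i => aeval u (w i)))
      (fun l => Pi.single (Fin.succ l) (aeval (v l) (N l))) Finset.univ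
    simp only [AddMonoidHom.mk'_apply] at h10
    have h11 := add_mem (h4.2 u (∑ l, aeval (v l) (M l)))
      (sum_mem fun l (_ : l ∈ Finset.univ) => (h5 l).2 u (aeval (v l) (N l)))
    rw [Finset.sum_sub_distrib, sub_add_sub_comm, ← Finset.mul_sum, ← mul_add, aeval_sum' h4.1,
      ← Finset.sum_add_distrib] at h11
    simp only [aeval_algHom_apply, ← map_add, h7, map_zero, Finset.sum_const_zero, mul_zero,
      sub_zero] at h11
    rwa [h9, polar_add_right hf, h10]
  obtain ⟨h, hh⟩ := h8 (MvPolynomial.X none) fun l => MvPolynomial.X (some l)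
  refine ⟨w, M, N, MvPolynomial.aeval w f - MvPolynomial.aeval 0 f,
    MvPolynomial.aeval (iso w M N 0 MvPolynomial.X) f, h, h1, fun l => addp_pos (hN l) (h6 l),
    aff1_map _ (fun i => Submodule.add_mem _ (Lin.aeval ?_ (h2 i)) ?_) hf,
    fun S _ _ u v => ?_⟩
  · rw [zero_add]
    exact Submodule.sum_mem _ fun l _ => Lin.aeval (Lin.self _ l) (hM l)
  · refine Fin.cases (Submodule.zero_mem _) (fun l => Lin.aeval (Lin.self _ l) (hN l)) i
  · have h9 := congrArg (MvPolynomial.aeval fun o => Option.elim o u v) hh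
    have h11 : iso w M N u v = (fun i => aeval u (w i)) + iso w M N 0 v := by
      funext i
      simp only [iso, Pi.add_apply, zero_add, aeval_add' (h2 i), add_assoc]
    have h12 := iso_map (MvPolynomial.aeval fun o => Option.elim o u v) w M N 0
      fun l => MvPolynomial.X (some l)
    have h13 := iso_map (MvPolynomial.aeval v) w M N 0 MvPolynomial.X
    simp only [map_zero, MvPolynomial.aeval_X, Option.elim_some] at h12 h13
    rw [AddMonoidHom.mk'_apply, map_sub, map_pow, polar, map_add, map_sub, map_sub, map_mv, map_mv,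
      map_mv, map_mv, ← h12] at h9
    simp only [Pi.add_apply, map_add, ← aeval_algHom_apply, MvPolynomial.aeval_X,
      Option.elim_none, Pi.zero_apply, map_zero] at h9
    rw [map_sub, map_mv, map_mv, map_mv, ← h13, h9, h11]
    simp only [Pi.zero_apply, map_zero, Pi.add_def, h12]
    ring

end Pool.Agent.Lib.MP_fc2ced_ag.Naive
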