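import Pool.Agent.Lib.MP_fc2ced_ag.NCurve
import Pool.Agent.Lib.MP_fc2ced_ag.NTools
import Pool.Agent.Lib.MP_fc2ced_ag.NQAlg

/-!
Artin-Schreier covers of affine space given by one polynomial of `p`-weight degree at most two.
-/

namespace Pool.Agent.Lib.MP_fc2ced_ag.Naive

universe u

open Finsupp Polynomial

variable {k : Type u} [Field k]

/-- natural functions -/
structure NF (X : Obj k) where
  f : ∀ O, X.pt O → O
  nat : ∀ (O O' : AIC k) (σ : O →ₐ[k] O') x, f O' (X.map σ x) = σ (f O x)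

/-- the Artin-Schreier cover attached to a function -/
abbrev AS (p : ℕ) {X : Obj k} (φ : NF X) : Obj k where
  pt O := {z : X.pt O × O // z.2 ^ p - z.2 = φ.f O z.1}
  map σ z := ⟨(X.map σ z.1.1, σ z.1.2), by rw [φ.nat, ← z.2, map_sub, map_pow]⟩

lemma exists_roots (N : k[X]) (hN : 0 < N.natDegree) : ∃ ρ : ∀ O : AIC k, O → Multiset O,
    (∀ (O O' : AIC k) (σ : O →ₐ[k] O') c, ms (ρ O' (σ c)) = mapDomain σ (ms (ρ O c))) ∧
    (∀ O c, (ρ O c).card = N.natDegree) ∧ ∀ O c v, v ∈ ρ O c ↔ aeval v N = c := by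
  have h0 : N.leadingCoeff ≠ 0 := leadingCoeff_ne_zero.2 (by rintro rfl; simp at hN)
  have h1 := monic_mul_leadingCoeff_inv (leadingCoeff_ne_zero.1 h0)
  have h2 : (N * C N.leadingCoeff⁻¹).natDegree = N.natDegree := natDegree_mul_C (inv_ne_zero h0)
  have h3 : ∀ (O : AIC k) (c : O),
      ((N * C N.leadingCoeff⁻¹).map (algebraMap k O) - C c).natDegree = N.natDegree := by
    intro O c
    rw [natDegree_sub_C, h1.natDegree_map, h2]
  have h4 : ∀ (O : AIC k) (c : O), ((N * C N.leadingCoeff⁻¹).map (algebraMap k O) - C c).Monic :=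
    fun O c => (h1.map _).sub_of_left (degree_lt_degree (by
      rw [natDegree_C, h1.natDegree_map, h2]; exact hN))
  refine ⟨fun O c => ((N * C N.leadingCoeff⁻¹).map (algebraMap k O) -
    C (c * algebraMap k O N.leadingCoeff⁻¹)).roots, fun O O' σ c => ?_, fun O c => ?_,
    fun O c v => ?_⟩
  · rw [← ms_roots_map σ (h4 O _), Polynomial.map_sub, Polynomial.map_map]
    simp
  · rw [← (O.splits _ (h4 O _)).natDegree_eq_card_roots, h3]
  · rw [mem_roots (h4 O _).ne_zero, IsRoot, eval_sub, eval_C, eval_map_algebraMap, map_mul, aeval_C,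
      sub_eq_zero]
    exact ((inv_ne_zero h0).isUnit.map (algebraMap k O)).mul_left_inj

variable {p : ℕ} [hp : Fact p.Prime] [CharP k p]

variable (k) in
include k in
lemma sub_pow_p (S : Type*) [CommRing S] [Algebra k S] (x y : S) : (x - y) ^ p = x ^ p - y ^ p := by
  have := add_pow_pp k (p := p) (x - y) y 1
  rw [sub_add_cancel, pow_one] at this
  rw [this, add_sub_cancel_right]

variable (k) in
include k in
lemma add_pow_p (S : Type*) [CommRing S] [Algebra k S] (x y : S) : (x + y) ^ p = x ^ p + y ^ p := by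
  simpa using add_pow_pp k (p := p) x y 1

theorem Grow.as_pull {X Z : Obj k} (φ : NF X) (ψ h : NF Z) (b : ∀ O, Z.pt O → X.pt O)
    (hb : ∀ (O O' : AIC k) (σ : O →ₐ[k] O') z, b O' (Z.map σ z) = X.map σ (b O z))
    (a : Fam X Z) (ha : IsNat a) (d : ℚ) (hd : d ≠ 0)
    (hab : ∀ O x, mapDomain (b O) (a O x) = single x d)
    (hs : ∀ O x, ∀ z ∈ (a O x).support, b O z = x)
    (hh : ∀ O z, φ.f O (b O z) = ψ.f O z + (h.f O z ^ p - h.f O z)) (hZ : Grow (AS p ψ)) :
    Grow (AS p φ) := by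
  classical
  obtain ⟨δ, h1, h2⟩ := exists_lift_fam (X := AS p φ) (Y := AS p ψ) (Y' := Z.prod (Aff k))
    (fun O => Subtype.val) (fun O => Subtype.val_injective) (fun _ _ _ _ => rfl)
    (fun O w => mapDomain (fun z => (z, w.1.2 - h.f O z)) (a O w.1.1))
    (fun O O' σ w => by
      simp only [ha O O' σ, ← mapDomain_comp]
      congr 1
      funext z
      simp [h.nat])
    (fun O w y hy => by
      obtain ⟨z, hz, rfl⟩ := Finset.mem_image.1 (mapDomain_support hy)
      refine ⟨⟨_, ?_⟩, rfl⟩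
      have := w.2
      rw [← hs O _ z hz, hh] at this
      rw [sub_pow_p k]
      linear_combination this)
  refine Grow.of_map δ h1 (fun O w => ⟨(b O w.1.1, w.1.2 + h.f O w.1.1), by
    rw [hh, add_pow_p k, ← w.2]; ring⟩) (fun O O' σ w => by simp [hb, h.nat]) d hd
    (fun O w => mapDomain_injective Subtype.val_injective ?_) hZ
  rw [← mapDomain_comp]
  refine (mapDomain_comp (f := Subtype.val)
    (g := fun w : Z.pt O × O => (b O w.1, w.2 + h.f O w.1))).trans ?_
  rw [h2, ← mapDomain_comp]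
  refine Eq.trans ?_ (congrArg (mapDomain fun x => (x, w.1.2)) (hab O w.1.1) |>.trans (by simp))
  rw [← mapDomain_comp]
  congr 1
  funext z
  simp

/-- the sum of two functions on a product -/
def NF.sum {X Y : Obj k} (φ : NF X) (ψ : NF Y) : NF (X.prod Y) :=
  ⟨fun O z => φ.f O z.1 + ψ.f O z.2, fun O O' σ z => by simp [φ.nat, ψ.nat]⟩

variable (k p) in
omit [CharP k p] in
lemma exists_as_roots : ∃ ρ : ∀ O : AIC k, O → Multiset O,
    (∀ (O O' : AIC k) (σ : O →ₐ[k] O') c, ms (ρ O' (σ c)) = mapDomain σ (ms (ρ O c))) ∧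
    (∀ O c, (ρ O c).card = p) ∧ ∀ O c v, v ∈ ρ O c ↔ v ^ p - v = c := by
  have h := FiniteField.X_pow_card_sub_X_natDegree_eq k hp.out.one_lt
  obtain ⟨ρ, h1, h2, h3⟩ := exists_roots (X ^ p - X : k[X]) (h.symm ▸ hp.out.pos)
  exact ⟨ρ, h1, fun O c => (h2 O c).trans h, fun O c v => by simp [h3]⟩

theorem Grow.as_sum {X Y : Obj k} {φ : NF X} {ψ : NF Y} (hX : Grow (AS p φ))
    (hY : Grow (AS p ψ)) : Grow (AS p (φ.sum ψ)) := by
  classical
  obtain ⟨ρ, r1, r2, r3⟩ := exists_as_roots k p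
  let ι : ∀ O, ((AS p φ).prod (AS p ψ)).pt O → (X.pt O × O) × (Y.pt O × O) :=
    fun O z => (z.1.1, z.2.1)
  obtain ⟨δ, h1, h2⟩ := exists_lift_fam (X := AS p (φ.sum ψ)) (Y := (AS p φ).prod (AS p ψ))
    (Y' := (X.prod (Aff k)).prod (Y.prod (Aff k))) ι
    (fun O z z' h => Prod.ext (Subtype.ext (congrArg Prod.fst h))
      (Subtype.ext (congrArg Prod.snd h))) (fun _ _ _ _ => rfl)
    (fun O w => mapDomain (fun y => ((w.1.1.1, y), (w.1.1.2, w.1.2 - y)))
      (ms (ρ O (φ.f O w.1.1.1))))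
    (fun O O' σ w => by
      simp only [φ.nat, r1, ← mapDomain_comp]
      congr 1
      funext z
      simp)
    (fun O w y hy => by
      obtain ⟨z, hz, rfl⟩ := Finset.mem_image.1 (mapDomain_support hy)
      have h3 := (r3 _ _ _).1 (mem_of_mem_support_ms hz)
      refine ⟨(⟨_, h3⟩, ⟨_, ?_⟩), rfl⟩
      have h4 : w.1.2 ^ p - w.1.2 = φ.f O w.1.1.1 + ψ.f O w.1.1.2 := w.2
      rw [sub_pow_p k]
      linear_combination h4 - h3)
  refine Grow.of_map δ h1 (fun O w => ⟨((w.1.1.1, w.2.1.1), w.1.1.2 + w.2.1.2), by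
    rw [add_pow_p k, NF.sum]; linear_combination w.1.2 + w.2.2⟩) (fun O O' σ w => by simp) p
    (Nat.cast_ne_zero.2 hp.out.ne_zero)
    (fun O w => mapDomain_injective Subtype.val_injective ?_) (hX.prod hY)
  rw [← mapDomain_comp]
  refine (mapDomain_comp (f := ι O)
    (g := fun w : (X.pt O × O) × (Y.pt O × O) => ((w.1.1, w.2.1), w.1.2 + w.2.2))).trans ?_
  rw [h2, ← mapDomain_comp, mapDomain_ms, ms, Multiset.map_map]
  simp [r2]

/-- a polynomial as a function on the line -/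
noncomputable def polyNF (f : k[X]) : NF (Aff k) :=
  ⟨fun _ u => aeval u f, fun _ _ σ u => aeval_algHom_apply σ u f⟩

/-- a polynomial as a function on affine space -/
noncomputable def mvNF {n : ℕ} (f : MvPolynomial (Fin n) k) : NF ((Aff k).pow n) :=
  ⟨fun _ x => MvPolynomial.aeval x f, fun _ _ σ x => (map_mv σ x f).symm⟩

lemma grow_as_cop (f : k[X]) (h0 : 0 < f.natDegree) (h1 : f.natDegree.Coprime p) :
    Grow (AS p (polyNF f)) :=
  let _ := ZMod.algebra k p
  Grow.of_inj (Z := (⟨p, f, hp.out.one_lt, h0, h1, sub_pow_p k⟩ : ASData k).curve 1)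
    (fun _ z => ⟨z.1, z.2, by simp⟩) (fun _ z => ⟨z.1, z.2.1⟩) (fun _ _ _ _ => rfl)
    (fun _ _ _ _ => rfl) (fun _ _ => rfl)
    (ASData.grow_curve _ 1 one_ne_zero (ZMod p) (ZMod.card p))

variable (k p) in
include p in
lemma grow_aff : Grow (Aff k) :=
  Grow.of_inj (Z := AS p (polyNF X)) (fun _ y => ⟨(y ^ p - y, y), by simp [polyNF]⟩)
    (fun _ z => z.1.2) (fun _ _ _ _ => by simp) (fun _ _ _ _ => rfl) (fun _ _ => rfl)
    (grow_as_cop X (by simp) (by simp))

omit [CharP k p] in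
lemma grow_as_zero (f : MvPolynomial (Fin 0) k) : Grow (AS p (mvNF f)) := by
  classical
  obtain ⟨ρ, -, r2, r3⟩ := exists_as_roots k p
  refine grow_of_finite _ (p + 1) fun O g hg => ?_
  have h1 := Finset.card_le_card_of_injOn (s := Finset.univ)
    (t := (ρ O (MvPolynomial.aeval Fin.elim0 f)).toFinset) (fun i => (g i).1.2)
    (fun i _ => by
      rw [Finset.mem_coe, Multiset.mem_toFinset, r3, (g i).2, Subsingleton.elim (g i).1.1 Fin.elim0]
      rfl)
    fun i _ j _ h => hg (Subtype.ext (Prod.ext (Subsingleton.elim _ _) h))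
  have h2 := (Multiset.toFinset_card_le _).trans (r2 O (MvPolynomial.aeval Fin.elim0 f)).le
  simp only [Finset.card_univ, Fintype.card_fin] at h1
  omega

theorem grow_as_one [PerfectField k] (f : k[X]) : Grow (AS p (polyNF f)) := by
  induction h : f.natDegree using Nat.strong_induction_on generalizing f with
  | _ d ih =>
  subst h
  rcases Nat.eq_zero_or_pos f.natDegree with h0 | h0
  · obtain ⟨c, rfl⟩ := natDegree_eq_zero.1 h0
    exact Grow.of_inj (Z := (Aff k).prod (AS p (mvNF (MvPolynomial.C c))))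
      (fun _ z => (z.1.1, ⟨(Fin.elim0, z.1.2), by simpa [polyNF, mvNF] using z.2⟩))
      (fun _ z => ⟨(z.1, z.2.1.2), by simpa [polyNF, mvNF] using z.2.2⟩)
      (fun _ _ _ _ => Prod.ext rfl (Subtype.ext (Prod.ext (Subsingleton.elim _ _) rfl)))
      (fun _ _ _ _ => rfl) (fun _ _ => rfl) ((grow_aff k p).prod (grow_as_zero _))
  by_cases h1 : f.natDegree.Coprime p
  · exact grow_as_cop f h0 h1
  obtain ⟨e, he⟩ := hp.out.dvd_iff_not_coprime.2 (mt Nat.Coprime.symm h1)
  obtain ⟨c, hc⟩ := (frobeniusEquiv k p).surjective f.leadingCoeff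
  rw [frobeniusEquiv_def] at hc
  have h2 : e < f.natDegree := by
    have := hp.out.one_lt
    nlinarith
  have h3 : (f - (C c * X ^ e) ^ p + C c * X ^ e).natDegree < f.natDegree := by
    refine (natDegree_add_le _ _).trans_lt (max_lt ?_ ((natDegree_C_mul_X_pow_le _ _).trans_lt h2))
    rw [mul_pow, ← C_pow, hc, ← pow_mul, mul_comm e, ← he, self_sub_C_mul_X_pow]
    exact eraseLead_natDegree_lt_or_eraseLead_eq_zero f |>.elim id fun h => by simpa [h] using h0
  refine Grow.as_pull _ (polyNF _) (polyNF (C c * X ^ e)) (fun _ z => z) (fun _ _ _ _ => rfl)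
    (fun _ x => single x 1) (fun _ _ _ _ => by simp) 1 one_ne_zero (fun _ _ => by simp)
    (fun _ x z hz => by simpa using hz) (fun O z => ?_) (ih _ h3 _ rfl)
  simp [polyNF]

theorem grow_as_quad [PerfectField k] (n : ℕ) (f : MvPolynomial (Fin n) k)
    (hf : f ∈ Aff1 k p _ * Aff1 k p _) : Grow (AS p (mvNF f)) := by
  classical
  induction n with
  | zero => exact grow_as_zero f
  | succ n ih =>
  obtain ⟨w, M, N, f₀, g, h, h1, h2, h3, h4⟩ := exists_split hf
  choose ρ r1 r2 r3 using fun l => exists_roots (N l) (h2 l)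
  have hs : ∀ (O : AIC k) (x : Fin (n + 1) → O), ∀ v ∈ (piM fun l =>
      ms (ρ l O (x l.succ - aeval (x 0) (w l.succ)))).support,
      iso w M N (x 0 - ∑ l, aeval (v l) (M l)) v = x := fun O x v hv => by
    funext i
    refine Fin.cases ?_ (fun l => ?_) i
    · simp [iso, h1]
    · simp [iso, (r3 _ _ _ _).1 (mem_of_mem_support_ms (mem_of_mem_support_piM hv l))]
  refine Grow.as_pull _ ((polyNF f₀).sum (mvNF g))
    ⟨fun O z => MvPolynomial.aeval (fun o => Option.elim o z.1 z.2) h, fun O O' σ z => ?_⟩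
    (fun O z => iso w M N z.1 z.2) (fun O O' σ z => iso_map σ _ _ _ _ _)
    (fun O x => mapDomain (fun v => (x 0 - ∑ l, aeval (v l) (M l), v))
      (piM fun l => ms (ρ l O (x l.succ - aeval (x 0) (w l.succ))))) (fun O O' σ x => ?_)
    (∏ l, ((N l).natDegree : ℚ))
    (Finset.prod_ne_zero_iff.2 fun l _ => Nat.cast_ne_zero.2 (h2 l).ne') (fun O x => ?_)
    (fun O x z hz => ?_) (fun O z => h4 O z.1 z.2) ((grow_as_one f₀).as_sum (ih g h3))
  · rw [map_mv]
    congr 2
    funext o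
    cases o <;> rfl
  · simp only [aeval_algHom_apply, ← map_sub, r1]
    rw [← mapDomain_piM, ← mapDomain_comp, ← mapDomain_comp]
    congr 1
    funext v
    simp [aeval_algHom_apply]
  · rw [← mapDomain_comp, ← lc_single_comp, lc_congr (g := fun _ => single x 1) fun v hv => by
      rw [Function.comp_apply, hs O x v hv], lc_const_piM]
    simp [r2]
  · obtain ⟨v, hv, rfl⟩ := Finset.mem_image.1 (mapDomain_support hz)
    exact hs O x v hv

end Pool.Agent.Lib.MP_fc2ced_ag.Naive
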