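import Pool.Agent.Lib.MP_fc2ced_ag.NQObj
import Pool.Agent.Lib.MP_fc2ced_ag.NGrp

/-!
Systems of Artin-Schreier equations of `p`-weight degree at most two.
-/

namespace Pool.Agent.Lib.MP_fc2ced_ag.Naive

universe u

open Finsupp

variable {k : Type u} [Field k]

/-- finite products -/
abbrev Obj.pi {I : Type} (Z : I → Obj k) : Obj k where
  pt O := ∀ i, (Z i).pt O
  map σ x := fun i => (Z i).map σ (x i)

theorem Grow.pi {N : ℕ} (Z : Fin N → Obj k) (h : ∀ i, Grow (Z i)) : Grow (Obj.pi Z) := by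
  induction N with
  | zero =>
    refine grow_of_finite _ 2 fun O f hf => ?_
    have : f 0 = f 1 := funext fun i => i.elim0
    exact absurd (hf this) (by decide)
  | succ r ih =>
    refine Grow.of_inj (Z := (Z 0).prod (Obj.pi fun i : Fin r => Z i.succ))
      (fun O x => (x 0, fun i => x i.succ))
      (fun O z => (Fin.cons z.1 z.2 : ∀ i, (Z i).pt O)) (fun _ _ _ _ => rfl) ?_ ?_
      ((h 0).prod (ih _ fun i => h _))
    · intro O O' σ z
      funext i
      refine Fin.cases ?_ (fun j => ?_) i <;> rfl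
    · intro O x
      exact Fin.cons_self_tail x

theorem Grow.of_family {X : Obj k} {I : Type} [Fintype I] (Z : I → Obj k) (hZ : ∀ i, Grow (Z i))
    (s : ∀ i O, X.pt O → (Z i).pt O)
    (hs : ∀ i (O O' : AIC k) (σ : O →ₐ[k] O') x, s i O' (X.map σ x) = (Z i).map σ (s i O x))
    (b : ∀ i, Fam (Z i) X) (hb : ∀ i, IsNat (b i))
    (h : ∀ O x, ∑ i, b i O (s i O x) = single x 1) : Grow X := by
  let e := (Fintype.equivFin I).symm
  refine Grow.retract (Z := Obj.pi fun j => Z (e j)) (fun _ O x => single (fun j => s _ O x) 1)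
    (fun j O z => b (e j) O (z j)) (fun _ O O' σ x => by simp [hs])
    (fun j O O' σ z => hb _ O O' σ _) (fun O x => ?_) (Grow.pi _ fun j => hZ _)
  simp only [lc_single]
  rw [← h O x]
  exact e.sum_comp fun i => b i O (s i O x)

lemma mem_support_lc {α β : Type*} {g : α → β →₀ ℚ} {u : α →₀ ℚ} {y : β}
    (h : y ∈ (lc g u).support) : ∃ a ∈ u.support, y ∈ (g a).support := by
  by_contra! h'
  refine mem_support_iff.1 h ?_
  rw [linearCombination_apply, Finsupp.sum, finsetSum_apply]
  exact Finset.sum_eq_zero fun a ha => by simp [notMem_support_iff.1 (h' a ha)]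

/-- a system of Artin-Schreier equations -/
abbrev Sys (p : ℕ) {n r : ℕ} (f : Fin r → MvPolynomial (Fin n) k) : Obj k where
  pt O := {z : (Fin n → O) × (Fin r → O) // ∀ s, z.2 s ^ p - z.2 s = MvPolynomial.aeval z.1 (f s)}
  map σ z := ⟨(fun i => σ (z.1.1 i), fun s => σ (z.1.2 s)), fun s => by
    rw [← map_mv, ← z.2, map_sub, map_pow]⟩

variable {p : ℕ} [hp : Fact p.Prime] [CharP k p]

lemma wp_comb {S : Type*} [CommRing S] [Algebra k S] {r : ℕ} (c : Fin r → k)
    (hc : ∀ s, c s ^ p = c s) (y : Fin r → S) :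
    (∑ s, c s • y s) ^ p - ∑ s, c s • y s = ∑ s, c s • (y s ^ p - y s) := by
  have := map_sum (AddMonoidHom.mk' (fun x : S => x ^ p) (add_pow_p k S)) (fun s => c s • y s)
    Finset.univ
  simp only [AddMonoidHom.mk'_apply, _root_.smul_pow, hc] at this
  simp only [this, smul_sub, Finset.sum_sub_distrib]

omit [CharP k p] in
lemma eq_zero_of_fixed {R S : Type*} [CommRing R] [IsDomain R] [CommRing S] [Nontrivial S]
    (σ : R →+* S) {w : R} (h : w ^ p = w) (h0 : σ w = 0) : w = 0 := by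
  by_contra h'
  obtain ⟨e, he⟩ := Nat.exists_eq_add_of_lt hp.out.one_lt
  rw [he, pow_succ, mul_eq_right₀ h'] at h
  have := congrArg σ h
  rw [map_pow, h0, zero_pow (by omega), map_one] at this
  exact zero_ne_one this

open Classical in
lemma exists_transfer {n r : ℕ} (f : Fin r → MvPolynomial (Fin n) k) (c : Fin r → k)
    (hc : ∀ s, c s ^ p = c s) (ρ : ∀ O : AIC k, O → Multiset O)
    (r1 : ∀ (O O' : AIC k) (σ : O →ₐ[k] O') c, ms (ρ O' (σ c)) = mapDomain σ (ms (ρ O c)))
    (r3 : ∀ O c v, v ∈ ρ O c ↔ v ^ p - v = c) :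
    ∃ b : Fam (AS p (mvNF (∑ s, c s • f s))) (Sys p f),
      IsNat b ∧ ∀ O z, mapDomain Subtype.val (b O z) =
        lc (fun y => if ∑ s, c s • y s = z.1.2 then single (z.1.1, y) 1 else 0)
          (piM fun s => ms (ρ O (MvPolynomial.aeval z.1.1 (f s)))) := by
  have h0 : ∀ (O : AIC k) (x : Fin n → O), ∀ y ∈ (piM fun s =>
      ms (ρ O (MvPolynomial.aeval x (f s)))).support, ∀ s,
      y s ^ p - y s = MvPolynomial.aeval x (f s) := fun O x y hy s =>
    (r3 _ _ _).1 (mem_of_mem_support_ms (mem_of_mem_support_piM hy s))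
  refine exists_lift_fam (Y := Sys p f) (Y' := ((Aff k).pow n).prod ((Aff k).pow r))
    (fun O => Subtype.val) (fun O => Subtype.val_injective) (fun _ _ _ _ => rfl) _
    (fun O O' σ z => ?_) fun O z w hw => ?_
  · simp only [← map_mv, r1]
    rw [← mapDomain_piM, lc_mapDomain, mapDomain_lc]
    refine lc_congr fun y hy => ?_
    have h1 : (∑ s, c s • y s - z.1.2) ^ p = ∑ s, c s • y s - z.1.2 := by
      have h2 := wp_comb c hc y
      have h3 : z.1.2 ^ p - z.1.2 = MvPolynomial.aeval z.1.1 (∑ s, c s • f s) := z.2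
      simp only [h0 O _ y hy] at h2
      simp only [map_sum, map_smul] at h3
      rw [sub_pow_p k]
      linear_combination h2 - h3
    have h2 : ∑ s, c s • σ (y s) = σ z.1.2 ↔ ∑ s, c s • y s = z.1.2 := by
      simp only [← map_smul, ← map_sum]
      exact ⟨fun h => sub_eq_zero.1 (eq_zero_of_fixed (σ : O →+* O') h1 (by
        rw [map_sub]; exact sub_eq_zero.2 h)), congrArg σ⟩
    simp only [h2]
    split_ifs <;> simp
  · obtain ⟨y, hy, hw⟩ := mem_support_lc hw
    split_ifs at hw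
    · obtain rfl : w = (z.1.1, y) := by simpa using hw
      exact ⟨⟨_, h0 O _ y hy⟩, rfl⟩
    · simp at hw

open Classical in
lemma sum_chars {r : ℕ} {V : Type*} [AddCommGroup V] [Module ℚ V] (v : (Fin r → ZMod p) → V) :
    ∑ φ : Fin r → ZMod p, (((Fintype.card (Fin r → ZMod p) : ℚ) * ((p : ℚ) - 1))⁻¹ *
      ((p : ℚ) - if φ = 0 then (Fintype.card (Fin r → ZMod p) : ℚ) else 0)) •
        ∑ a : Fin r → ZMod p, (if a ⬝ᵥ φ = 0 then v a else 0) = v 0 := by
  have hκ : (Fintype.card (Fin r → ZMod p) : ℚ) * ((p : ℚ) - 1) ≠ 0 :=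
    mul_ne_zero (Nat.cast_ne_zero.2 Fintype.card_ne_zero)
      (sub_ne_zero.2 (by exact_mod_cast hp.out.ne_one))
  have h4 : ∀ φ a : Fin r → ZMod p, (if a ⬝ᵥ φ = 0 then v a else 0) =
      (if a ⬝ᵥ φ = 0 then (1 : ℚ) else 0) • v a := fun φ a => by split_ifs <;> simp
  have h5 : ∀ a : Fin r → ZMod p, ∑ φ : Fin r → ZMod p,
      ((p : ℚ) - if φ = 0 then (Fintype.card (Fin r → ZMod p) : ℚ) else 0) *
        (if a ⬝ᵥ φ = 0 then (1 : ℚ) else 0) =
      ∑ φ : Fin r → ZMod p, ((p : ℚ) * (if a ⬝ᵥ φ = 0 then 1 else 0) - 1) := fun a => by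
    simp only [sub_mul, Finset.sum_sub_distrib, ite_mul, zero_mul, Finset.sum_ite_eq',
      Finset.mem_univ, if_true, dotProduct_zero, mul_one, Finset.sum_const, Finset.card_univ,
      nsmul_eq_mul]
  simp only [h4, Finset.smul_sum, smul_smul]
  rw [Finset.sum_comm]
  simp only [← Finset.sum_smul, mul_assoc, ← Finset.mul_sum, h5]
  rw [Finset.sum_eq_single 0]
  · simp only [zero_dotProduct, if_true, mul_one, Finset.sum_const, Finset.card_univ,
      nsmul_eq_mul, inv_mul_cancel₀ hκ, one_smul]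
  · intro a _ ha
    have := sum_ker ha
    rw [ZMod.card] at this
    rw [this, mul_zero, zero_smul]
  · exact fun h => absurd (Finset.mem_univ _) h

theorem grow_sys {n r : ℕ} (f : Fin r → MvPolynomial (Fin n) k)
    (hf : ∀ c : Fin r → k, Grow (AS p (mvNF (∑ s, c s • f s)))) : Grow (Sys p f) := by
  classical
  obtain ⟨ρ, r1, r2, r3⟩ := exists_as_roots k p
  let c : ZMod p →+* k := ZMod.castHom (dvd_refl p) k
  have hc : ∀ a, c a ^ p = c a := fun a => by rw [← map_pow, ZMod.pow_card]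
  choose b hb hb' using fun φ : Fin r → ZMod p =>
    exists_transfer f (fun s => c (φ s)) (fun s => hc _) ρ r1 r3
  refine Grow.of_family _ (fun φ : Fin r → ZMod p => hf fun s => c (φ s))
    (fun φ O z => ⟨(z.1.1, ∑ s, c (φ s) • z.1.2 s), ?_⟩) (fun φ O O' σ z => ?_)
    (fun φ => (((Fintype.card (Fin r → ZMod p) : ℚ) * ((p : ℚ) - 1))⁻¹ *
      ((p : ℚ) - if φ = 0 then (Fintype.card (Fin r → ZMod p) : ℚ) else 0)) • b φ)
    (fun φ => (NatS _ _).smul_mem _ (hb φ))
    fun O z => mapDomain_injective Subtype.val_injective ?_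
  · rw [wp_comb _ fun s => hc _]
    simp only [mvNF, z.2, map_sum, map_smul]
  · exact Subtype.ext (Prod.ext rfl (by simp only [map_sum, map_smul]))
  have hj : Function.Injective ((algebraMap k O).comp c) :=
    (algebraMap k O).injective.comp c.injective
  have h1 : ∀ s, ms (ρ O (MvPolynomial.aeval z.1.1 (f s))) =
      ∑ a : ZMod p, single (z.1.2 s + algebraMap k O (c a)) 1 := fun s => by
    rw [← Multiset.eq_of_le_of_card_le (t := ρ O (MvPolynomial.aeval z.1.1 (f s)))
      (s := Finset.univ.val.map fun a : ZMod p => z.1.2 s + algebraMap k O (c a))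
      ((Multiset.le_iff_subset
        (Finset.univ.nodup.map fun a b h => hj (add_left_cancel h))).2 fun y hy => ?_)
      (by simp [r2]), ms, Multiset.map_map]
    · rfl
    · obtain ⟨a, -, rfl⟩ := Multiset.mem_map.1 hy
      rw [r3, add_pow_p k, ← map_pow, ZMod.pow_card, ← z.2]
      ring
  have h2 : ∀ φ a : Fin r → ZMod p, ∑ s, c (φ s) • (z.1.2 s + algebraMap k O (c (a s))) =
      ∑ s, c (φ s) • z.1.2 s ↔ a ⬝ᵥ φ = 0 := fun φ a => by
    rw [← hj.eq_iff, map_zero, dotProduct, map_sum]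
    simp only [smul_add, Finset.sum_add_distrib, add_eq_left]
    simp only [map_mul, Algebra.smul_def, RingHom.comp_apply, mul_comm]
  simp only [mapDomain_sum', Pi.smul_apply, mapDomain_smul, hb', h1, MultilinearMap.map_sum,
    piM_single, map_sum, lc_single, h2, mapDomain_single]
  refine (sum_chars fun a => single (z.1.1, fun s => z.1.2 s + algebraMap k O (c (a s))) 1).trans ?_
  simp

/-- an affine variety -/
abbrev Var {ι J : Type} (P : J → MvPolynomial ι k) : Obj k where
  pt O := {x : ι → O // ∀ j, MvPolynomial.aeval x (P j) = 0}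
  map σ x := ⟨fun i => σ (x.1 i), fun j => by rw [← map_mv, x.2, map_zero]⟩

omit hp [CharP k p] in
theorem schurFinite_of_var {ι J : Type} [Finite ι] (P : J → MvPolynomial ι k) (h : Grow (Var P)) :
    SchurFinite k (MvPolynomial ι k ⧸ Ideal.span (Set.range P)) := by
  refine schurFinite_of_grow _ (Grow.of_inj (Z := Var P)
    (fun O φ => ⟨fun i => φ (Ideal.Quotient.mk _ (MvPolynomial.X i)), fun j => ?_⟩)
    (fun O x => Ideal.Quotient.liftₐ _ (MvPolynomial.aeval x.1) fun a ha => ?_)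
    (fun _ _ _ _ => rfl) (fun O O' σ x => ?_) (fun O φ => ?_) h)
  · have : MvPolynomial.aeval (fun i => φ (Ideal.Quotient.mk _ (MvPolynomial.X i))) =
        φ.comp (Ideal.Quotient.mkₐ k _) := MvPolynomial.algHom_ext fun i => by simp
    rw [this, AlgHom.comp_apply, Ideal.Quotient.mkₐ_eq_mk,
      Ideal.Quotient.eq_zero_iff_mem.2 (Ideal.subset_span (Set.mem_range_self j)), map_zero]
  · refine (Ideal.span_le.2 ?_ : _ ≤ RingHom.ker (MvPolynomial.aeval x.1)) ha
    rintro _ ⟨j, rfl⟩
    exact x.2 j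
  · exact Ideal.Quotient.algHom_ext _ (MvPolynomial.algHom_ext fun i => by simp)
  · exact Ideal.Quotient.algHom_ext _ (MvPolynomial.algHom_ext fun i => by simp)

omit hp [CharP k p] in
lemma one_le_aff1 {ι : Type*} : (1 : Submodule k (MvPolynomial ι k)) ≤ Aff1 k p ι := by
  rw [Submodule.one_eq_span]
  exact le_sup_left

omit [CharP k p] in
lemma X_pow_mem {ι : Type*} (i : ι) (m e : ℕ) :
    (MvPolynomial.X i : MvPolynomial ι k) ^ (m * p ^ e) ∈ Aff1 k p ι ^ (p.digits m).sum := by
  induction m using Nat.strong_induction_on generalizing e with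
  | _ m ih =>
  rcases Nat.eq_zero_or_pos m with rfl | hm
  · simp [Submodule.one_le.1 le_rfl]
  rw [Nat.digits_def' hp.out.one_lt hm, List.sum_cons, pow_add,
    show m * p ^ e = p ^ e * (m % p) + m / p * p ^ (e + 1) by
      conv_lhs => rw [← Nat.mod_add_div m p]
      ring, pow_add, pow_mul]
  exact Submodule.mul_mem_mul (Submodule.pow_mem_pow _ (Submodule.mem_sup_right (Lin.gen _ i e)) _)
    (ih _ (Nat.div_lt_self hm hp.out.one_lt) _)

omit [CharP k p] in
lemma mem_of_weight {n : ℕ} (f : MvPolynomial (Fin n) k)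
    (hf : ∀ d ∈ f.support, ∑ i, (p.digits (d i)).sum ≤ 2) : f ∈ Aff1 k p _ * Aff1 k p _ := by
  rw [f.as_sum]
  refine Submodule.sum_mem _ fun d hd => ?_
  rw [MvPolynomial.monomial_eq, ← MvPolynomial.smul_eq_C_mul, Finsupp.prod_fintype _ _ (by simp),
    ← sq]
  refine Submodule.smul_mem _ _
    ((pow_le_pow_right' (one_le_aff1 (k := k) (p := p)) (hf d hd) : _ ≤ _) ?_)
  induction (Finset.univ : Finset (Fin n)) using Finset.induction_on with
  | empty => simp [Submodule.one_le.1 le_rfl]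
  | insert i s hi ih =>
    rw [Finset.prod_insert hi, Finset.sum_insert hi, pow_add]
    exact Submodule.mul_mem_mul (by simpa using X_pow_mem (k := k) (p := p) i (d i) 0) ih

end Pool.Agent.Lib.MP_fc2ced_ag.Naive
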