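import Pool.Agent.Lib.MP_fc2ced_ag.NCor

/-!
The joint spectrum (with multiplicities) of a matrix representation of a commutative ring.
-/

namespace Pool.Agent.Lib.MP_fc2ced_ag.Naive

universe u v

open MvPolynomial Module

section Basic

variable {B : Type*} [CommRing B] {R : Type*} [CommRing R] {S : Type*} [CommRing S]
  {ι : Type*} [Fintype ι] [DecidableEq ι]

/-- generic linear combination of matrices -/
noncomputable def gmat (ρ : B → Matrix ι ι R) {n : ℕ} (β : Fin n → B) :
    Matrix ι ι (MvPolynomial (Fin n) R) :=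
  ∑ j, (X j : MvPolynomial (Fin n) R) • (ρ (β j)).map C

/-- generic linear combination of values -/
noncomputable def glin (χ : B → R) {n : ℕ} (β : Fin n → B) : MvPolynomial (Fin n) R :=
  ∑ j, X j * C (χ (β j))

/-- `M` is the joint spectrum of `ρ` -/
def IsSpec (ρ : B → Matrix ι ι R) (M : Multiset (B →+* R)) : Prop :=
  ∀ (n : ℕ) (β : Fin n → B), (gmat ρ β).det = (M.map fun χ : B →+* R => glin χ β).prod

omit [CommRing B] in
lemma map_gmat (ρ : B → Matrix ι ι R) {n : ℕ} (β : Fin n → B)
    (F : MvPolynomial (Fin n) R →+* S) :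
    F (gmat ρ β).det = (∑ j, F (X j) • (ρ (β j)).map fun r => F (C r)).det := by
  rw [RingHom.map_det]
  congr 1
  ext a b
  simp [gmat, Matrix.sum_apply]

lemma IsSpec.eval {ρ : B → Matrix ι ι R} {M : Multiset (B →+* R)} (h : IsSpec ρ M)
    (φ : R →+* S) {J : Type*} [Fintype J] (β : J → B) (c : J → S) :
    (∑ j, c j • (ρ (β j)).map φ).det = (M.map fun χ => ∑ j, c j * φ (χ (β j))).prod := by
  let e := (Fintype.equivFin J).symm
  have := congrArg (eval₂Hom φ fun j => c (e j)) (h _ fun j => β (e j))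
  rw [map_gmat, map_multiset_prod, Multiset.map_map] at this
  simp only [coe_eval₂Hom, eval₂_X, eval₂_C, Function.comp_def, glin, eval₂_sum, eval₂_mul]
    at this
  rw [Equiv.sum_comp e (fun j => c j • (ρ (β j)).map φ)] at this
  rw [this]
  congr 1
  refine Multiset.map_congr rfl fun χ _ => ?_
  exact Equiv.sum_comp e (fun j => c j * φ (χ (β j)))

lemma IsSpec.map {ρ : B → Matrix ι ι R} {M : Multiset (B →+* R)} (h : IsSpec ρ M)
    (φ : R →+* S) : IsSpec (fun b => (ρ b).map φ) (M.map fun χ => φ.comp χ) := by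
  intro n β
  have := h.eval ((C : S →+* MvPolynomial (Fin n) S).comp φ) β X
  rw [Multiset.map_map]
  exact this

lemma IsSpec.of_map {ρ : B → Matrix ι ι R} {M : Multiset (B →+* R)} (φ : R →+* S)
    (hφ : Function.Injective φ)
    (h : IsSpec (fun b => (ρ b).map φ) (M.map fun χ => φ.comp χ)) : IsSpec ρ M := by
  intro n β
  apply map_injective φ hφ
  have := h n β
  rw [Multiset.map_map] at this
  rw [map_gmat, map_multiset_prod, Multiset.map_map]
  simp only [map_X, map_C, Function.comp_def, glin, map_sum, map_mul]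
  exact this

lemma IsSpec.char {ρ : B → Matrix ι ι R} {M : Multiset (B →+* R)} (h : IsSpec ρ M)
    (h1 : ρ 1 = 1) (φ : R →+* S) {J : Type*} [Fintype J] (β : J → B) (c : J → S) (t : S) :
    (t • (1 : Matrix ι ι S) - ∑ j, c j • (ρ (β j)).map φ).det =
      (M.map fun χ => t - ∑ j, c j * φ (χ (β j))).prod := by
  have := h.eval φ (J := Option J) (fun j => j.elim 1 β) (fun j => j.elim t fun j => - c j)
  simp only [Fintype.sum_option, Option.elim_none, Option.elim_some, h1, map_one, mul_one,
    neg_smul, neg_mul, Finset.sum_neg_distrib, ← sub_eq_add_neg] at this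
  rw [← this, Matrix.map_one _ (map_zero φ) (map_one φ)]

lemma IsSpec.card [Nontrivial R] {ρ : B → Matrix ι ι R} {M : Multiset (B →+* R)}
    (h : IsSpec ρ M) (h1 : ρ 1 = 1) : M.card = Fintype.card ι := by
  have := h.char h1 (Polynomial.C) (J := Empty) Empty.elim Empty.elim Polynomial.X
  simp only [Finset.univ_eq_empty, Finset.sum_empty, sub_zero, Matrix.det_smul, Matrix.det_one,
    mul_one, Multiset.map_const', Multiset.prod_replicate] at this
  have := congrArg Polynomial.natDegree this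
  simpa using this.symm

lemma IsSpec.rel [IsDomain S] {ρ : B → Matrix ι ι R} {M : Multiset (B →+* R)}
    (h : IsSpec ρ M) (h1 : ρ 1 = 1) (φ : R →+* S) {J : Type*} [Fintype J] (β : J → B)
    (c : J → S) (h0 : ∑ j, c j • (ρ (β j)).map φ = 0) {χ : B →+* R} (hχ : χ ∈ M) :
    ∑ j, c j * φ (χ (β j)) = 0 := by
  have := h.char h1 φ β c (∑ j, c j * φ (χ (β j)))
  rw [h0, sub_zero, Matrix.det_smul, Matrix.det_one, mul_one,
    Multiset.prod_eq_zero (Multiset.mem_map.2 ⟨χ, hχ, sub_self _⟩)] at this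
  exact pow_eq_zero_iff_of_ne_zero' this
where
  pow_eq_zero_iff_of_ne_zero' {a : S} {n : ℕ} (h : a ^ n = 0) : a = 0 :=
    IsReduced.eq_zero _ ⟨n, h⟩

lemma IsSpec.scalar [IsDomain R] {ρ : B → Matrix ι ι R} {M : Multiset (B →+* R)}
    (h : IsSpec ρ M) (h1 : ρ 1 = 1) {b : B} {r : R} (hb : ρ b = r • (1 : Matrix ι ι R))
    {χ : B →+* R} (hχ : χ ∈ M) : χ b = r := by
  have := h.rel h1 (RingHom.id R) (J := Bool) (fun j => cond j b 1) (fun j => cond j 1 (-r))
    (by simp [hb, h1]) hχ
  simpa [← sub_eq_add_neg, sub_eq_zero] using this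

lemma exists_sep (s : Finset (B →+* R)) :
    ∃ (n : ℕ) (β : Fin n → B), ∀ χ ∈ s, ∀ χ' ∈ s, glin χ β = glin χ' β → χ = χ' := by
  classical
  have : ∀ p : s × s, ∃ b, p.1.1 b = p.2.1 b → p.1.1 = p.2.1 := by
    intro p
    by_cases h : p.1.1 = p.2.1
    · exact ⟨0, fun _ => h⟩
    · obtain ⟨b, hb⟩ := DFunLike.ne_iff.1 h
      exact ⟨b, fun h' => absurd h' hb⟩
  choose b hb using this
  let e := Fintype.equivFin (s × s)
  refine ⟨_, fun j => b (e.symm j), fun χ hχ χ' hχ' h => hb (⟨χ, hχ⟩, ⟨χ', hχ'⟩) ?_⟩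
  have := congrArg (MvPolynomial.eval (Pi.single (e (⟨χ, hχ⟩, ⟨χ', hχ'⟩)) 1)) h
  simpa [glin, Pi.single_apply] using this

lemma IsSpec.unique [IsDomain R] {ρ : B → Matrix ι ι R} {M M' : Multiset (B →+* R)}
    (h : IsSpec ρ M) (h' : IsSpec ρ M') (h1 : ρ 1 = 1) : M = M' := by
  classical
  obtain ⟨n, β, hβ⟩ := exists_sep (M + M').toFinset
  let φ : R →+* Polynomial (MvPolynomial (Fin n) R) := Polynomial.C.comp C
  have e1 := h.char h1 φ β (fun j => Polynomial.C (X j)) Polynomial.X
  have e2 := h'.char h1 φ β (fun j => Polynomial.C (X j)) Polynomial.X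
  rw [e1] at e2
  have e3 : ∀ χ : B →+* R, ∑ j, Polynomial.C (X j) * φ (χ (β j)) = Polynomial.C (glin χ β) := by
    intro χ
    simp [φ, glin]
  simp only [e3] at e2
  have e4 := congrArg Polynomial.roots e2
  have e5 : ∀ N : Multiset (B →+* R),
      (N.map fun χ : B →+* R => Polynomial.X - Polynomial.C (glin χ β)).prod.roots =
        N.map fun χ : B →+* R => glin χ β := by
    intro N
    rw [← Polynomial.roots_multiset_prod_X_sub_C (N.map fun χ : B →+* R => glin χ β),
      Multiset.map_map]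
    rfl
  rw [e5, e5] at e4
  ext χ
  by_cases hχ : χ ∈ M + M'
  · have e6 : ∀ N : Multiset (B →+* R), N ≤ M + M' →
        (N.map fun χ : B →+* R => glin χ β).count (glin χ β) = N.count χ := by
      intro N hN
      rw [Multiset.count_map, Multiset.count, Multiset.countP_eq_card_filter]
      congr 1
      refine Multiset.filter_congr fun χ' hχ' => ⟨fun h => ?_, fun h => by rw [h]⟩
      exact hβ χ (Multiset.mem_toFinset.2 hχ) χ'
        (Multiset.mem_toFinset.2 (Multiset.mem_of_le hN hχ')) h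
    rw [← e6 M (Multiset.le_add_right _ _), ← e6 M' (Multiset.le_add_left _ _), e4]
  · rw [Multiset.mem_add, not_or] at hχ
    rw [Multiset.count_eq_zero.2 hχ.1, Multiset.count_eq_zero.2 hχ.2]

lemma IsSpec.mem_of_eigen [IsDomain R] {ρ : B → Matrix ι ι R} {M : Multiset (B →+* R)}
    (h : IsSpec ρ M) (h1 : ρ 1 = 1) (χ : B →+* R) (v : ι → R) (hv : v ≠ 0)
    (he : ∀ b j, ∑ i, v i * ρ b i j = χ b * v j) : χ ∈ M := by
  classical
  obtain ⟨n, β, hβ⟩ := exists_sep (insert χ M.toFinset)
  have e1 := h.char h1 (C : R →+* MvPolynomial (Fin n) R) β X (glin χ β)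
  have e2 : (glin χ β • (1 : Matrix ι ι (MvPolynomial (Fin n) R)) -
      ∑ j, (X j : MvPolynomial (Fin n) R) • (ρ (β j)).map C).det = 0 := by
    rw [← Matrix.exists_vecMul_eq_zero_iff]
    refine ⟨fun i => C (v i), fun h0 => hv ?_, ?_⟩
    · funext i
      exact C_injective (Fin n) R (by simpa using congrFun h0 i)
    · funext j
      have : ∀ l, ∑ i, (C (v i) : MvPolynomial (Fin n) R) * (X l * C (ρ (β l) i j)) =
          X l * C (χ (β l)) * C (v j) := by
        intro l
        rw [mul_assoc, ← map_mul, ← he, map_sum, Finset.mul_sum]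
        refine Finset.sum_congr rfl fun i _ => ?_
        rw [map_mul]
        ring
      simp only [Matrix.vecMul, dotProduct, Matrix.sub_apply, Matrix.smul_apply, Matrix.one_apply,
        Matrix.sum_apply, Matrix.map_apply, smul_eq_mul, mul_sub, Finset.sum_sub_distrib,
        Finset.mul_sum, Pi.zero_apply, mul_ite, mul_one, mul_zero, Finset.sum_ite_eq',
        Finset.mem_univ, if_true]
      rw [Finset.sum_comm]
      simp only [this, glin, Finset.mul_sum, sub_eq_zero]
      exact Finset.sum_congr rfl fun l _ => mul_comm _ _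
  rw [e2, eq_comm, Multiset.prod_eq_zero_iff, Multiset.mem_map] at e1
  obtain ⟨χ', h2, h3⟩ := e1
  rw [hβ χ (by simp) χ' (by simp [h2]) (sub_eq_zero.1 h3)]
  exact h2

end Basic

section Endo

variable {B : Type*} {K : Type*} [Field K]

/-- generic determinant of a family of endomorphisms -/
noncomputable def gdet {V : Type*} [AddCommGroup V] [Module K V] [Module.Finite K V]
    (f : B → End K V) {n : ℕ} (β : Fin n → B) : MvPolynomial (Fin n) K :=
  (gmat (fun b => LinearMap.toMatrix (finBasis K V) (finBasis K V) (f b)) β).det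

lemma gdet_eq {V : Type*} [AddCommGroup V] [Module K V] [Module.Finite K V]
    (f : B → End K V) {n : ℕ} (β : Fin n → B) {ι : Type*} [Fintype ι] [DecidableEq ι]
    (e : Basis ι K V) : gdet f β = (gmat (fun b => LinearMap.toMatrix e e (f b)) β).det := by
  set e' := finBasis K V
  let P := (LinearMap.toMatrix e e' LinearMap.id).map (C : K →+* MvPolynomial (Fin n) K)
  let Q := (LinearMap.toMatrix e' e LinearMap.id).map (C : K →+* MvPolynomial (Fin n) K)
  have h1 : P * Q = 1 := by
    rw [← Matrix.map_mul, ← LinearMap.toMatrix_comp]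
    simp
  have h2 : Q * P = 1 := by
    rw [← Matrix.map_mul, ← LinearMap.toMatrix_comp]
    simp
  rw [← Matrix.det_conj_of_mul_eq_one h1 h2]
  unfold gdet gmat
  congr 1
  rw [Matrix.mul_sum, Matrix.sum_mul]
  refine Finset.sum_congr rfl fun j _ => ?_
  rw [Matrix.mul_smul, Matrix.smul_mul, ← Matrix.map_mul, ← Matrix.map_mul,
    ← LinearMap.toMatrix_comp, ← LinearMap.toMatrix_comp]
  simp [e']

lemma gdet_exact {W V Q : Type*} [AddCommGroup W] [Module K W] [Module.Finite K W]
    [AddCommGroup V] [Module K V] [Module.Finite K V]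
    [AddCommGroup Q] [Module K Q] [Module.Finite K Q]
    (i : W →ₗ[K] V) (p : V →ₗ[K] Q) (hi : Function.Injective i) (hp : Function.Surjective p)
    (hex : Function.Exact i p) (fW : B → End K W) (fV : B → End K V) (fQ : B → End K Q)
    (h1 : ∀ b w, fV b (i w) = i (fW b w)) (h2 : ∀ b v, p (fV b v) = fQ b (p v))
    {n : ℕ} (β : Fin n → B) : gdet fV β = gdet fW β * gdet fQ β := by
  obtain ⟨s, hs⟩ := LinearMap.exists_rightInverse_of_surjective p (LinearMap.range_eq_top.2 hp)
  obtain ⟨e, he1, he2⟩ := hex.splitSurjectiveEquiv hi ⟨s, hs⟩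
  have he3 : ∀ w, e (i w) = (w, 0) := by
    intro w
    rw [he1]
    simp
  have he4 : ∀ w, e.symm (w, 0) = i w := by
    intro w
    rw [← he3, e.symm_apply_apply]
  have he5 : ∀ v, (e v).2 = p v := by
    intro v
    rw [he2]
    rfl
  have he6 : ∀ z, p (e.symm z) = z.2 := by
    intro z
    rw [← he5, e.apply_symm_apply]
  let bW := finBasis K W
  let bQ := finBasis K Q
  rw [gdet_eq fV β ((bW.prod bQ).map e.symm)]
  unfold gdet
  rw [← Matrix.det_fromBlocks_zero₂₁ _
    (gmat (fun b => LinearMap.toMatrix ((bW.prod bQ).map e.symm) ((bW.prod bQ).map e.symm)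
      (fV b)) β).toBlocks₁₂]
  congr 1
  ext (a | a) (c | c) : 2
  · simp [gmat, Matrix.sum_apply, LinearMap.toMatrix_apply, he4, h1, he3, bW]
  · simp [Matrix.toBlocks₁₂]
  · simp [gmat, Matrix.sum_apply, LinearMap.toMatrix_apply, he4, h1, he3]
  · simp [gmat, Matrix.sum_apply, LinearMap.toMatrix_apply, he5, h2, he6, bQ]

lemma gdet_scalar {V : Type*} [AddCommGroup V] [Module K V] [Module.Finite K V]
    (μ : B → K) {n : ℕ} (β : Fin n → B) :
    gdet (fun b => μ b • (LinearMap.id : End K V)) β = glin μ β ^ finrank K V := by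
  have : gmat (fun b => LinearMap.toMatrix (finBasis K V) (finBasis K V)
      (μ b • (LinearMap.id : End K V))) β = glin μ β • (1 : Matrix _ _ _) := by
    ext a c : 2
    simp [gmat, glin, Matrix.sum_apply, Matrix.one_apply]
    split_ifs <;> simp
  unfold gdet
  rw [this]
  simp

end Endo

section Exist

variable {B : Type*} [CommRing B] {K : Type*} [Field K] [IsAlgClosed K]

lemma exists_eigen {V : Type*} [AddCommGroup V] [Module K V] [Module.Finite K V] [Nontrivial V]
    (f : B →+* End K V) : ∃ (χ : B →+* K) (w : V), w ≠ 0 ∧ ∀ b, f b w = χ b • w := by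
  obtain ⟨W, ⟨hW1, hW2⟩, hmin⟩ := (wellFounded_lt (α := Submodule K V)).has_min
    {W | W ≠ ⊥ ∧ ∀ b, ∀ w ∈ W, f b w ∈ W} ⟨⊤, top_ne_bot, by simp⟩
  have : Nontrivial W := Submodule.nontrivial_iff_ne_bot.2 hW1
  have key : ∀ b, ∃ μ : K, ∀ w ∈ W, f b w = μ • w := by
    intro b
    obtain ⟨μ, hμ⟩ := Module.End.exists_eigenvalue ((f b).restrict (hW2 b))
    obtain ⟨w, hw⟩ := hμ.exists_hasEigenvector
    refine ⟨μ, ?_⟩
    have h1 : W ⊓ (f b).eigenspace μ = W := by
      by_contra hne
      refine hmin _ ⟨?_, ?_⟩ (lt_of_le_of_ne inf_le_left hne)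
      · rw [Submodule.ne_bot_iff]
        refine ⟨w.1, ⟨w.2, ?_⟩, fun h => hw.2 (Subtype.ext h)⟩
        rw [SetLike.mem_coe, End.mem_eigenspace_iff]
        exact congrArg Subtype.val hw.apply_eq_smul
      · rintro c v ⟨hv1, hv2⟩
        refine ⟨hW2 c v hv1, ?_⟩
        rw [SetLike.mem_coe, End.mem_eigenspace_iff] at hv2 ⊢
        rw [← End.mul_apply, ← map_mul, mul_comm, map_mul, End.mul_apply, hv2, map_smul]
    intro v hv
    rw [← h1] at hv
    exact End.mem_eigenspace_iff.1 hv.2
  choose μ hμ using key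
  obtain ⟨w, hw, hw0⟩ := (Submodule.ne_bot_iff W).1 hW1
  have hc : ∀ a c : K, a • w = c • w → a = c := fun a c h => smul_left_injective K hw0 h
  refine ⟨⟨⟨⟨μ, hc _ _ ?_⟩, fun a b => hc _ _ ?_⟩, hc _ _ ?_, fun a b => hc _ _ ?_⟩, w, hw0,
    fun b => hμ b w hw⟩
  · rw [← hμ 1 w hw]
    simp
  · rw [← hμ _ w hw, map_mul, End.mul_apply, hμ b w hw, map_smul, hμ a w hw, smul_smul, mul_comm]
  · rw [← hμ 0 w hw]
    simp
  · rw [← hμ _ w hw, map_add, LinearMap.add_apply, hμ b w hw, hμ a w hw, add_smul]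

lemma exists_spec_end (d : ℕ) : ∀ (V : Type v) [AddCommGroup V] [Module K V] [Module.Finite K V]
    (f : B →+* End K V), finrank K V = d →
    ∃ M : Multiset (B →+* K), ∀ (n : ℕ) (β : Fin n → B),
      gdet f β = (M.map fun χ : B →+* K => glin χ β).prod := by
  induction d with
  | zero =>
    intro V _ _ _ f hd
    refine ⟨0, fun n β => ?_⟩
    have : IsEmpty (Fin (finrank K V)) := by rw [hd]; infer_instance
    simp [gdet]
  | succ d ih =>
    intro V _ _ _ f hd
    have : Nontrivial V := Module.nontrivial_of_finrank_pos (R := K) (by omega)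
    obtain ⟨χ, w, hw, hχ⟩ := exists_eigen f
    let W := Submodule.span K {w}
    have hW : ∀ b, ∀ v ∈ W, f b v = χ b • v := by
      intro b v hv
      obtain ⟨a, rfl⟩ := Submodule.mem_span_singleton.1 hv
      rw [map_smul, hχ, smul_comm]
    have hW' : ∀ b, W ≤ W.comap (f b) := by
      intro b v hv
      rw [Submodule.mem_comap, hW b v hv]
      exact W.smul_mem _ hv
    let g : B →+* End K (V ⧸ W) :=
      { toFun := fun b => W.mapQ W (f b) (hW' b)
        map_one' := by ext; simp
        map_mul' := fun a b => by ext; simp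
        map_zero' := by ext; simp
        map_add' := fun a b => by ext; simp }
    have h1 : finrank K W = 1 := finrank_span_singleton hw
    have h2 := W.finrank_quotient_add_finrank
    obtain ⟨M, hM⟩ := ih (V ⧸ W) g (by omega)
    refine ⟨χ ::ₘ M, fun n β => ?_⟩
    rw [gdet_exact W.subtype W.mkQ W.injective_subtype W.mkQ_surjective (LinearMap.exact_subtype_mkQ W)
      (fun b => χ b • LinearMap.id) f g (fun b v => by simp [hW b v.1 v.2]) (fun b v => rfl),
      gdet_scalar, h1, hM]
    simp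

lemma exists_isSpec_field {ι : Type*} [Fintype ι] [DecidableEq ι] (ρ : B →+* Matrix ι ι K) :
    ∃ M : Multiset (B →+* K), IsSpec ρ M := by
  obtain ⟨M, hM⟩ := exists_spec_end _ (ι → K)
    ((Matrix.toLinAlgEquiv' (R := K) (n := ι)).toRingEquiv.toRingHom.comp ρ) rfl
  refine ⟨M, fun n β => ?_⟩
  rw [← hM, gdet_eq _ _ (Pi.basisFun K ι)]
  congr 2
  funext b
  rw [LinearMap.toMatrix_eq_toMatrix']
  exact (LinearMap.toMatrix'_toLin' _).symm

end Exist

section Aic

variable {k : Type u} [Field k]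

lemma inj_closure (R : Type*) [CommRing R] [IsDomain R] :
    Function.Injective (algebraMap R (AlgebraicClosure (FractionRing R))) := by
  rw [IsScalarTower.algebraMap_eq R (FractionRing R) (AlgebraicClosure (FractionRing R))]
  exact (algebraMap (FractionRing R) _).injective.comp (IsFractionRing.injective R _)

lemma AIC.mem_range (O : AIC k) {S : Type*} [CommRing S] [IsDomain S] (j : O →+* S)
    (p : Polynomial O) (hp : p.Monic) (t : S) (ht : Polynomial.eval₂ j t p = 0) :
    ∃ r, j r = t := by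
  have h1 := (O.splits p hp).roots_map_of_ne_zero (φ := j) (hp.map j).ne_zero
  have h2 : t ∈ (p.map j).roots := by
    rw [Polynomial.mem_roots (hp.map j).ne_zero, Polynomial.IsRoot, Polynomial.eval_map]
    exact ht
  rw [h1, Multiset.mem_map] at h2
  obtain ⟨r, -, hr⟩ := h2
  exact ⟨r, hr⟩

lemma exists_ringHom_of_range {B R S : Type*} [CommRing B] [CommRing R] [CommRing S]
    (j : R →+* S) (hj : Function.Injective j) (χ : B →+* S) (h : ∀ b, ∃ r, j r = χ b) :
    ∃ χ' : B →+* R, j.comp χ' = χ := by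
  choose g hg using h
  refine ⟨⟨⟨⟨g, hj ?_⟩, fun a b => hj ?_⟩, hj ?_, fun a b => hj ?_⟩, RingHom.ext hg⟩ <;>
    simp [hg]

lemma AIC.exists_isSpec (O : AIC k) {B : Type*} [CommRing B] {ι : Type*} [Fintype ι]
    [DecidableEq ι] (ρ : B →+* Matrix ι ι O) : ∃ M : Multiset (B →+* O), IsSpec ρ M := by
  let Ω := AlgebraicClosure (FractionRing O)
  let j : O →+* Ω := algebraMap O Ω
  have hj : Function.Injective j := inj_closure O
  obtain ⟨M, hM⟩ := exists_isSpec_field (j.mapMatrix.comp ρ)
  have h1 : ∀ χ ∈ M, ∃ χ' : B →+* O, j.comp χ' = χ := by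
    intro χ hχ
    refine exists_ringHom_of_range j hj χ fun b => ?_
    refine O.mem_range j (ρ b).charpoly (Matrix.charpoly_monic _) _ ?_
    have := hM.char (map_one _) (RingHom.id Ω) (J := Unit) (fun _ => b) (fun _ => 1) (χ b)
    rw [Multiset.prod_eq_zero (Multiset.mem_map.2 ⟨χ, hχ, by simp⟩)] at this
    rw [← Polynomial.eval_map, ← Matrix.charpoly_map, Matrix.eval_charpoly, ← this]
    congr 1
    ext a c
    simp [Matrix.one_apply, Matrix.diagonal_apply]
  choose g hg using h1
  refine ⟨M.pmap g fun _ h => h, IsSpec.of_map j hj ?_⟩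
  rw [Multiset.map_pmap]
  simp only [hg]
  rw [Multiset.pmap_eq_map, Multiset.map_id']
  exact hM

/-- the joint spectrum over an absolutely integrally closed domain -/
noncomputable def spec (O : AIC k) {B : Type*} [CommRing B] {ι : Type*} [Fintype ι]
    [DecidableEq ι] (ρ : B →+* Matrix ι ι O) : Multiset (B →+* O) :=
  (O.exists_isSpec ρ).choose

lemma spec_isSpec (O : AIC k) {B : Type*} [CommRing B] {ι : Type*} [Fintype ι]
    [DecidableEq ι] (ρ : B →+* Matrix ι ι O) : IsSpec ρ (spec O ρ) :=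
  (O.exists_isSpec ρ).choose_spec

lemma spec_map (O O' : AIC k) (σ : O →+* O') {B : Type*} [CommRing B] {ι : Type*} [Fintype ι]
    [DecidableEq ι] (ρ : B →+* Matrix ι ι O) :
    spec O' (σ.mapMatrix.comp ρ) = (spec O ρ).map fun χ => σ.comp χ :=
  (spec_isSpec O' _).unique ((spec_isSpec O ρ).map σ) (map_one _)

lemma exists_lift_field {R S Ω : Type*} [CommRing R] [CommRing S] [Algebra R S]
    [Algebra.IsIntegral R S] [Field Ω] [IsAlgClosed Ω] (x : R →+* Ω)
    (h : RingHom.ker (algebraMap R S) ≤ RingHom.ker x) :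
    ∃ σ : S →+* Ω, ∀ r, σ (algebraMap R S r) = x r := by
  have := RingHom.ker_isPrime x
  obtain ⟨Q, -, hQ, hQ'⟩ := Ideal.exists_ideal_over_prime_of_isIntegral (RingHom.ker x)
    (⊥ : Ideal S) h
  have hle : Q.comap (algebraMap R S) ≤ RingHom.ker x := hQ'.le
  let y : R ⧸ Q.comap (algebraMap R S) →+* Ω := Ideal.Quotient.lift _ x fun a ha => hle ha
  have hy : Function.Injective y := by
    rw [injective_iff_map_eq_zero]
    intro a ha
    obtain ⟨a, rfl⟩ := Ideal.Quotient.mk_surjective a
    rw [Ideal.Quotient.eq_zero_iff_mem, hQ']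
    exact ha
  let _ : Algebra (R ⧸ Q.comap (algebraMap R S)) Ω := y.toAlgebra
  have : FaithfulSMul (R ⧸ Q.comap (algebraMap R S)) Ω :=
    (faithfulSMul_iff_algebraMap_injective _ _).2 hy
  have : FaithfulSMul (R ⧸ Q.comap (algebraMap R S)) (S ⧸ Q) :=
    (faithfulSMul_iff_algebraMap_injective _ _).2 Ideal.algebraMap_quotient_injective
  let L : (S ⧸ Q) →ₐ[R ⧸ Q.comap (algebraMap R S)] Ω := IsAlgClosed.lift
  refine ⟨L.toRingHom.comp (Ideal.Quotient.mk Q), fun r => ?_⟩
  exact L.commutes (Ideal.Quotient.mk _ r)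

lemma AIC.exists_lift (O : AIC k) {R S : Type*} [CommRing R] [CommRing S] [Algebra R S]
    [Algebra.IsIntegral R S] (x : R →+* O) (h : RingHom.ker (algebraMap R S) ≤ RingHom.ker x) :
    ∃ σ : S →+* O, ∀ r, σ (algebraMap R S r) = x r := by
  let Ω := AlgebraicClosure (FractionRing O)
  let j : O →+* Ω := algebraMap O Ω
  have hj : Function.Injective j := inj_closure O
  obtain ⟨σ, hσ⟩ := exists_lift_field (S := S) (j.comp x) (fun r hr => by
    have : x r = 0 := h hr
    simp [RingHom.mem_ker, this])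
  obtain ⟨σ', h'⟩ := exists_ringHom_of_range j hj σ fun s => by
    obtain ⟨p, hp, hs⟩ := Algebra.IsIntegral.isIntegral (R := R) s
    refine O.mem_range j (p.map x) (hp.map x) _ ?_
    rw [Polynomial.eval₂_map]
    have := congrArg σ hs
    rw [Polynomial.hom_eval₂, map_zero] at this
    rw [← this]
    congr 1
    exact RingHom.ext fun r => (hσ r).symm
  refine ⟨σ', fun r => hj ?_⟩
  have := congrArg (fun F : S →+* Ω => F (algebraMap R S r)) h'
  simpa [hσ] using this

/-- an algebraically closed field as an absolutely integrally closed domain -/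
abbrev AIC.ofField (k : Type u) [Field k] (Ω : Type u) [Field Ω] [Algebra k Ω] [IsAlgClosed Ω] :
    AIC k where
  carrier := Ω
  splits p _ := IsAlgClosed.splits p

/-- the integral closure in an algebraically closed field -/
abbrev AIC.closure (k : Type u) [Field k] (R Ω : Type u) [CommRing R] [Algebra k R] [Field Ω]
    [Algebra R Ω] [Algebra k Ω] [IsScalarTower k R Ω] [IsAlgClosed Ω] : AIC k where
  carrier := integralClosure R Ω
  splits p hp := by
    refine Polynomial.Splits.of_splits_map_of_injective (i := algebraMap _ Ω)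
      Subtype.val_injective (IsAlgClosed.splits _) fun a ha => ?_
    have h1 : IsIntegral (integralClosure R Ω) a := by
      refine ⟨p, hp, ?_⟩
      rw [← Polynomial.eval_map]
      exact (Polynomial.mem_roots (hp.map _).ne_zero).1 ha
    exact ⟨⟨a, isIntegral_trans a h1⟩, rfl⟩

lemma exists_closure (R : Type u) [CommRing R] [IsDomain R] [Algebra k R] :
    ∃ (O : AIC k) (η : R →ₐ[k] O), Function.Injective η ∧
      ∀ (O' : AIC k) (x : R →ₐ[k] O'), ∃ σ : O →ₐ[k] O', ∀ r, σ (η r) = x r := by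
  let Ω := AlgebraicClosure (FractionRing R)
  have hinj : Function.Injective (algebraMap R (integralClosure R Ω)) := by
    intro a b h
    exact inj_closure R (congrArg Subtype.val h)
  refine ⟨AIC.closure k R Ω, IsScalarTower.toAlgHom k R (integralClosure R Ω), hinj,
    fun O' x => ?_⟩
  obtain ⟨σ, hσ⟩ := O'.exists_lift (S := integralClosure R Ω) x.toRingHom (by
    rw [(RingHom.injective_iff_ker_eq_bot _).1 hinj]
    exact bot_le)
  refine ⟨⟨σ, fun c => ?_⟩, hσ⟩
  rw [IsScalarTower.algebraMap_apply k R (integralClosure R Ω)]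
  exact (hσ _).trans (x.commutes c)

end Aic

end Pool.Agent.Lib.MP_fc2ced_ag.Naive
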