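import Pool.Agent.Lib.MP_fc2ced_ag.Defs

/-!
Subquotients of represented presheaves, described by conditions on points.
-/

open CategoryTheory Polynomial
open scoped TensorProduct

namespace Pool.Agent.Lib.MP_fc2ced_ag

variable (k : Type) [Field k] [CharZero k]

/-- Absolutely integrally closed domains. -/
structure Aic where
  O : Type
  [ring : CommRing O]
  [alg : Algebra k O]
  [dom : IsDomain O]
  root : ∀ p : O[X], p.Monic → 0 < p.degree → ∃ x, p.IsRoot x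

attribute [instance] Aic.ring Aic.alg Aic.dom

instance : CoeSort (Aic k) Type := ⟨Aic.O⟩

/-- Conditions on points, stable under change of the ring of values. -/
structure Pr (B : Type) [CommRing B] [Algebra k B] where
  p : ∀ {O : Aic k}, (B →ₐ[k] O) → Prop
  mono : ∀ {O O' : Aic k} (g : O →ₐ[k] O') (φ : B →ₐ[k] O), p φ → p (g.comp φ)

variable {k}

namespace Pr

variable {B B' : Type} [CommRing B] [Algebra k B] [CommRing B'] [Algebra k B']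

def top : Pr k B := ⟨fun _ => True, fun _ _ h => h⟩
def bot : Pr k B := ⟨fun _ => False, fun _ _ h => h⟩
def and (P Q : Pr k B) : Pr k B :=
  ⟨fun φ => P.p φ ∧ Q.p φ, fun g φ h => ⟨P.mono g φ h.1, Q.mono g φ h.2⟩⟩
def or (P Q : Pr k B) : Pr k B :=
  ⟨fun φ => P.p φ ∨ Q.p φ, fun g φ h => h.imp (P.mono g φ) (Q.mono g φ)⟩
def all {ι : Type} (P : ι → Pr k B) : Pr k B :=
  ⟨fun φ => ∀ i, (P i).p φ, fun g φ h i => (P i).mono g φ (h i)⟩
def ex {ι : Type} (P : ι → Pr k B) : Pr k B :=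
  ⟨fun φ => ∃ i, (P i).p φ, fun g φ h => h.imp fun i => (P i).mono g φ⟩
def comap (ψ : B' →ₐ[k] B) (P : Pr k B') : Pr k B :=
  ⟨fun φ => P.p (φ.comp ψ), fun g φ h => P.mono g (φ.comp ψ) h⟩
def unit (f : B) : Pr k B := ⟨fun φ => IsUnit (φ f), fun g _ h => h.map g⟩
def zero (f : B) : Pr k B := ⟨fun φ => φ f = 0, fun g φ h => by simp [show φ f = 0 from h]⟩
def const (a : Prop) : Pr k B := ⟨fun _ => a, fun _ _ h => h⟩

variable {O : Aic k} {φ : B →ₐ[k] O} {P Q : Pr k B}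

@[simp] theorem top_p : top.p φ ↔ True := Iff.rfl
@[simp] theorem bot_p : bot.p φ ↔ False := Iff.rfl
@[simp] theorem and_p : (P.and Q).p φ ↔ P.p φ ∧ Q.p φ := Iff.rfl
@[simp] theorem or_p : (P.or Q).p φ ↔ P.p φ ∨ Q.p φ := Iff.rfl
@[simp] theorem all_p {ι : Type} {P : ι → Pr k B} : (all P).p φ ↔ ∀ i, (P i).p φ := Iff.rfl
@[simp] theorem ex_p {ι : Type} {P : ι → Pr k B} : (ex P).p φ ↔ ∃ i, (P i).p φ := Iff.rfl
@[simp] theorem comap_p {ψ : B' →ₐ[k] B} {P : Pr k B'} : (comap ψ P).p φ ↔ P.p (φ.comp ψ) :=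
  Iff.rfl
@[simp] theorem unit_p {f : B} : (unit f).p φ ↔ IsUnit (φ f) := Iff.rfl
@[simp] theorem zero_p {f : B} : (zero f).p φ ↔ φ f = 0 := Iff.rfl
@[simp] theorem const_p {a : Prop} : (const a).p φ ↔ a := Iff.rfl

end Pr

section Sp

variable {B B' : Type} [CommRing B] [Algebra k B] [CommRing B'] [Algebra k B']

/-- Rational linear combinations of points satisfying a condition. -/
def Sp (P : Pr k B) (O : Aic k) : AddSubgroup (B →ₗ[k] O) :=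
  AddSubgroup.closure {l | ∃ (q : ℚ) (y : B →ₐ[k] O), P.p y ∧ l = (q : k) • y.toLinearMap}

variable {P Q : Pr k B} {O O' : Aic k}

theorem Sp.pt {y : B →ₐ[k] O} (h : P.p y) : y.toLinearMap ∈ Sp P O :=
  AddSubgroup.subset_closure ⟨1, y, h, by simp⟩

/-- Additive maps compatible with rational scalars that send points to a subgroup. -/
theorem Sp.ind {V : Type} [AddCommGroup V] [Module k V] {H : AddSubgroup V}
    (hH : ∀ (q : ℚ) v, v ∈ H → (q : k) • v ∈ H) (f : (B →ₗ[k] O) →ₗ[k] V)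
    (hf : ∀ y, P.p y → f y.toLinearMap ∈ H) {l : B →ₗ[k] O} (hl : l ∈ Sp P O) : f l ∈ H :=
  AddSubgroup.closure_induction
    (fun _ ⟨q, y, hy, hl⟩ => by rw [hl, map_smul]; exact hH _ _ (hf y hy))
    (by rw [map_zero]; exact zero_mem _) (fun _ _ _ _ h1 h2 => by rw [map_add]; exact add_mem h1 h2)
    (fun _ _ h => by rw [map_neg]; exact neg_mem h) hl

theorem Sp.smul (q : ℚ) (l : B →ₗ[k] O) (hl : l ∈ Sp P O) : (q : k) • l ∈ Sp P O :=
  AddSubgroup.closure_induction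
    (fun _ ⟨p, y, hy, hl⟩ => AddSubgroup.subset_closure
      ⟨q * p, y, hy, by rw [hl, smul_smul, Rat.cast_mul]⟩)
    (by rw [smul_zero]; exact zero_mem _) (fun _ _ _ _ h1 h2 => by rw [smul_add]; exact add_mem h1 h2)
    (fun _ _ h => by rw [smul_neg]; exact neg_mem h) hl

theorem Sp.le (h : ∀ y : B →ₐ[k] O, P.p y → Q.p y) {l : B →ₗ[k] O} (hl : l ∈ Sp P O) :
    l ∈ Sp Q O :=
  Sp.ind Sp.smul LinearMap.id (fun y hy => Sp.pt (h y hy)) hl

theorem Sp.comp {P' : Pr k B'} {τ : B' →ₗ[k] B}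
    (h : ∀ y : B →ₐ[k] O, P.p y → y.toLinearMap ∘ₗ τ ∈ Sp P' O) {l : B →ₗ[k] O}
    (hl : l ∈ Sp P O) : l ∘ₗ τ ∈ Sp P' O :=
  Sp.ind Sp.smul (LinearMap.lcomp k O τ) h hl

theorem Sp.post (g : O →ₐ[k] O') {l : B →ₗ[k] O} (hl : l ∈ Sp P O) :
    g.toLinearMap ∘ₗ l ∈ Sp P O' :=
  Sp.ind Sp.smul (LinearMap.llcomp k B O O' g.toLinearMap)
    (fun y hy => Sp.pt (y := g.comp y) (P.mono g y hy)) hl

theorem Sp.eq_zero (h : ∀ y : B →ₐ[k] O, ¬ P.p y) {l : B →ₗ[k] O} (hl : l ∈ Sp P O) : l = 0 :=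
  Sp.ind (H := ⊥) (fun _ _ hv => by simp [AddSubgroup.mem_bot.mp hv]) LinearMap.id
    (fun y hy => (h y hy).elim) hl

end Sp

variable (k) in
/-- The subquotient of the presheaf represented by `B` spanned by the points satisfying `N`,
modulo those satisfying also `D`. -/
structure Obj where
  B : Type
  [ring : CommRing B]
  [alg : Algebra k B]
  N : Pr k B
  D : Pr k B

attribute [instance] Obj.ring Obj.alg

/-- Correspondences compatible with the conditions. -/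
structure IsHom (M M' : Obj k) (τ : M'.B →ₗ[k] M.B) : Prop where
  n : ∀ {O : Aic k} (φ : M.B →ₐ[k] O), M.N.p φ → φ.toLinearMap ∘ₗ τ ∈ Sp M'.N O
  d : ∀ {O : Aic k} (φ : M.B →ₐ[k] O), M.N.p φ → M.D.p φ →
    φ.toLinearMap ∘ₗ τ ∈ Sp (M'.N.and M'.D) O

def homGrp (M M' : Obj k) : AddSubgroup (M'.B →ₗ[k] M.B) where
  carrier := {τ | IsHom M M' τ}
  zero_mem' := ⟨fun _ _ => by simp [zero_mem], fun _ _ _ => by simp [zero_mem]⟩
  add_mem' h1 h2 :=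
    ⟨fun φ h => by rw [LinearMap.comp_add]; exact add_mem (h1.n φ h) (h2.n φ h),
      fun φ h h' => by rw [LinearMap.comp_add]; exact add_mem (h1.d φ h h') (h2.d φ h h')⟩
  neg_mem' h1 :=
    ⟨fun φ h => by rw [LinearMap.comp_neg]; exact neg_mem (h1.n φ h),
      fun φ h h' => by rw [LinearMap.comp_neg]; exact neg_mem (h1.d φ h h')⟩

instance : Category (Obj k) where
  Hom M M' := homGrp M M'
  id M := ⟨LinearMap.id, fun _ h => Sp.pt h, fun _ h h' => Sp.pt ⟨h, h'⟩⟩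
  comp {_ M' _} f g := ⟨f.1 ∘ₗ g.1, fun φ h => Sp.comp g.2.n (f.2.n φ h),
    fun φ h h' => Sp.comp (P := M'.N.and M'.D) (fun y hy => g.2.d y hy.1 hy.2) (f.2.d φ h h')⟩

instance : Preadditive (Obj k) where
  homGroup M M' := inferInstanceAs (AddCommGroup (homGrp M M'))
  add_comp _ _ _ f g h := Subtype.ext (LinearMap.add_comp h.1 g.1 f.1)
  comp_add _ _ _ f g h := Subtype.ext (LinearMap.comp_add g.1 h.1 f.1)

instance (M M' : Obj k) : SMul ℚ (M ⟶ M') :=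
  ⟨fun q f => ⟨(q : k) • f.1,
    fun φ h => by rw [LinearMap.comp_smul]; exact Sp.smul _ _ (f.2.n φ h),
    fun φ h h' => by rw [LinearMap.comp_smul]; exact Sp.smul _ _ (f.2.d φ h h')⟩⟩

namespace Obj

variable {M M' M'' N N' : Obj k}

@[ext] theorem hom_ext {f g : M ⟶ M'} (h : f.1 = g.1) : f = g := Subtype.ext h
@[simp] theorem id_val : (𝟙 M : M ⟶ M).1 = LinearMap.id := rfl
@[simp] theorem comp_val (f : M ⟶ M') (g : M' ⟶ M'') : (f ≫ g).1 = f.1 ∘ₗ g.1 := rfl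
@[simp] theorem add_val (f g : M ⟶ M') : (f + g).1 = f.1 + g.1 := rfl
@[simp] theorem sub_val (f g : M ⟶ M') : (f - g).1 = f.1 - g.1 := rfl
@[simp] theorem neg_val (f : M ⟶ M') : (-f).1 = -f.1 := rfl
@[simp] theorem zero_val : (0 : M ⟶ M').1 = 0 := rfl
@[simp] theorem smul_val (q : ℚ) (f : M ⟶ M') : (q • f).1 = (q : k) • f.1 := rfl
@[simp] theorem sum_val {ι : Type} (s : Finset ι) (f : ι → (M ⟶ M')) :
    (∑ i ∈ s, f i).1 = ∑ i ∈ s, (f i).1 := map_sum (homGrp M M').subtype f s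

instance : Linear ℚ (Obj k) where
  homModule M M' :=
    { one_smul f := hom_ext (by simp)
      mul_smul p q f := hom_ext (by simp [mul_smul])
      smul_zero q := hom_ext (by simp)
      smul_add q f g := hom_ext (by simp)
      add_smul p q f := hom_ext (by simp [add_smul])
      zero_smul f := hom_ext (by simp) }
  smul_comp _ _ _ q f g := hom_ext (LinearMap.smul_comp _ _ _)
  comp_smul _ _ _ f q g := hom_ext (LinearMap.comp_smul _ _ _)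

/-- The morphism given by a homomorphism of algebras. -/
def ofAlg (ψ : M'.B →ₐ[k] M.B)
    (hn : ∀ {O : Aic k} (φ : M.B →ₐ[k] O), M.N.p φ → M'.N.p (φ.comp ψ))
    (hd : ∀ {O : Aic k} (φ : M.B →ₐ[k] O), M.N.p φ → M.D.p φ → M'.D.p (φ.comp ψ)) : M ⟶ M' :=
  ⟨ψ.toLinearMap, fun φ h => Sp.pt (y := φ.comp ψ) (hn φ h),
    fun φ h h' => Sp.pt (y := φ.comp ψ) ⟨hn φ h, hd φ h h'⟩⟩

@[simp] theorem ofAlg_val (ψ : M'.B →ₐ[k] M.B) (hn hd) :
    (ofAlg ψ hn hd : M ⟶ M').1 = ψ.toLinearMap := rfl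

variable (k) in
/-- The represented presheaf itself. -/
abbrev sm (B : Type) [CommRing B] [Algebra k B] : Obj k := ⟨B, .top, .bot⟩

open Algebra.TensorProduct in
/-- The tensor product. -/
noncomputable abbrev smash (M N : Obj k) : Obj k :=
  ⟨M.B ⊗[k] N.B, (M.N.comap includeLeft).and (N.N.comap includeRight),
    (M.D.comap includeLeft).or (N.D.comap includeRight)⟩

end Obj

section Tensor

open Algebra.TensorProduct

variable {B C B' C' : Type} [CommRing B] [Algebra k B] [CommRing C] [Algebra k C]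
  [CommRing B'] [Algebra k B'] [CommRing C'] [Algebra k C'] {O : Aic k}

/-- The product of two functionals. -/
noncomputable def bx : (B →ₗ[k] O) →ₗ[k] (C →ₗ[k] O) →ₗ[k] B ⊗[k] C →ₗ[k] O :=
  (TensorProduct.mapBilinear (.id k) B C O O).compr₂
    (LinearMap.llcomp k _ _ _ (LinearMap.mul' k O))

@[simp] theorem bx_tmul (l : B →ₗ[k] O) (l' : C →ₗ[k] O) (b : B) (c : C) :
    bx l l' (b ⊗ₜ c) = l b * l' c := by simp [bx]

theorem bx_alg (y : B →ₐ[k] O) (z : C →ₐ[k] O) :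
    bx y.toLinearMap z.toLinearMap = (productMap y z).toLinearMap := by
  ext; simp

theorem comp_map_eq_bx (φ : B ⊗[k] C →ₐ[k] O) (τ : B' →ₗ[k] B) (σ : C' →ₗ[k] C) :
    φ.toLinearMap ∘ₗ TensorProduct.map τ σ = bx ((φ.comp includeLeft).toLinearMap ∘ₗ τ)
      ((φ.comp includeRight).toLinearMap ∘ₗ σ) := by
  ext; simp [← map_mul]

theorem Sp.bx {P : Pr k B} {Q : Pr k C} {R : Pr k (B ⊗[k] C)}
    (h : ∀ φ : B ⊗[k] C →ₐ[k] O, P.p (φ.comp includeLeft) → Q.p (φ.comp includeRight) → R.p φ)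
    {l : B →ₗ[k] O} {l' : C →ₗ[k] O} (hl : l ∈ Sp P O) (hl' : l' ∈ Sp Q O) :
    bx l l' ∈ Sp R O :=
  Sp.ind Sp.smul (MP_fc2ced_ag.bx.flip l') (fun y hy =>
    Sp.ind Sp.smul (MP_fc2ced_ag.bx y.toLinearMap) (fun z hz => by
      rw [bx_alg]
      exact Sp.pt (h _ (by rwa [productMap_left]) (by rwa [productMap_right]))) hl') hl

theorem tensor_ext {φ φ' : B ⊗[k] C →ₐ[k] O} (h1 : φ.comp includeLeft = φ'.comp includeLeft)
    (h2 : φ.comp includeRight = φ'.comp includeRight) : φ = φ' :=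
  Algebra.TensorProduct.ext h1 h2

@[simp] theorem map_left (φ : B ⊗[k] C →ₐ[k] O) (α : B' →ₐ[k] B) (γ : C' →ₐ[k] C) :
    (φ.comp (map α γ)).comp includeLeft = (φ.comp includeLeft).comp α := by
  ext; simp

@[simp] theorem map_right (φ : B ⊗[k] C →ₐ[k] O) (α : B' →ₐ[k] B) (γ : C' →ₐ[k] C) :
    (φ.comp (map α γ)).comp includeRight = (φ.comp includeRight).comp γ := by
  ext; simp

end Tensor

namespace Obj

variable {M M' M'' N N' N'' : Obj k}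

/-- The tensor product of morphisms. -/
noncomputable def smashMap (f : M ⟶ M') (g : N ⟶ N') : M.smash N ⟶ M'.smash N' :=
  ⟨TensorProduct.map f.1 g.1,
    fun φ h => by
      rw [comp_map_eq_bx]
      refine Sp.bx (fun _ h1 h2 => ?_) (f.2.n _ h.1) (g.2.n _ h.2)
      exact ⟨h1, h2⟩,
    fun φ h h' => by
      rw [comp_map_eq_bx]
      rcases h' with h' | h'
      · refine Sp.bx (fun _ h1 h2 => ?_) (f.2.d _ h.1 h') (g.2.n _ h.2)
        exact ⟨⟨h1.1, h2⟩, .inl h1.2⟩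
      · refine Sp.bx (fun _ h1 h2 => ?_) (f.2.n _ h.1) (g.2.d _ h.2 h')
        exact ⟨⟨h1, h2.1⟩, .inr h2.2⟩⟩

@[simp] theorem smashMap_val (f : M ⟶ M') (g : N ⟶ N') :
    (smashMap f g).1 = TensorProduct.map f.1 g.1 := rfl

theorem smashMap_id : smashMap (𝟙 M) (𝟙 N) = 𝟙 _ := hom_ext TensorProduct.map_id

theorem smashMap_comp (f : M ⟶ M') (f' : M' ⟶ M'') (g : N ⟶ N') (g' : N' ⟶ N'') :
    smashMap (f ≫ f') (g ≫ g') = smashMap f g ≫ smashMap f' g' :=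
  hom_ext (TensorProduct.map_comp _ _ _ _)

/-- Tensor product of morphisms as a bilinear map. -/
noncomputable def smashL : (M ⟶ M') →ₗ[ℚ] (N ⟶ N') →ₗ[ℚ] (M.smash N ⟶ M'.smash N') :=
  LinearMap.mk₂ ℚ smashMap (fun _ _ _ => hom_ext (TensorProduct.map_add_left _ _ _))
    (fun _ _ _ => hom_ext (TensorProduct.map_smul_left _ _ _))
    (fun _ _ _ => hom_ext (TensorProduct.map_add_right _ _ _))
    (fun _ _ _ => hom_ext (TensorProduct.map_smul_right _ _ _))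

/-- Tensor product with a fixed object. -/
@[simps] noncomputable def smashF (N : Obj k) : Obj k ⥤ Obj k where
  obj M := M.smash N
  map f := smashMap f (𝟙 N)
  map_id _ := smashMap_id
  map_comp f g := by rw [← smashMap_comp, Category.comp_id]

instance (N : Obj k) : (smashF N).Additive :=
  ⟨fun {_ _ _ _} => hom_ext (TensorProduct.map_add_left _ _ _)⟩

end Obj

/-- Short exact sequences, in terms of points. -/
structure Tri (M₁ M₂ M₃ : Obj k) (α : M₂.B →ₐ[k] M₁.B) (β : M₃.B →ₐ[k] M₂.B) : Prop where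
  n₁ : ∀ {O : Aic k} (φ : M₁.B →ₐ[k] O), M₁.N.p φ → M₂.N.p (φ.comp α)
  d₁ : ∀ {O : Aic k} (φ : M₁.B →ₐ[k] O), M₁.N.p φ → (M₁.D.p φ ↔ M₂.D.p (φ.comp α))
  inj₁ : ∀ {O : Aic k} (φ φ' : M₁.B →ₐ[k] O), M₁.N.p φ → ¬ M₁.D.p φ → M₁.N.p φ' →
    φ.comp α = φ'.comp α → φ = φ'
  n₂ : ∀ {O : Aic k} (ψ : M₂.B →ₐ[k] O), M₂.N.p ψ → M₃.N.p (ψ.comp β)
  d₂ : ∀ {O : Aic k} (ψ : M₂.B →ₐ[k] O), M₂.N.p ψ →
    (M₃.D.p (ψ.comp β) ↔ M₂.D.p ψ ∨ ∃ φ, M₁.N.p φ ∧ φ.comp α = ψ)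
  inj₂ : ∀ {O : Aic k} (ψ ψ' : M₂.B →ₐ[k] O), M₂.N.p ψ → ¬ M₃.D.p (ψ.comp β) → M₂.N.p ψ' →
    ψ.comp β = ψ'.comp β → ψ = ψ'
  surj : ∀ {O : Aic k} (χ : M₃.B →ₐ[k] O), M₃.N.p χ → ¬ M₃.D.p χ →
    ∃ ψ, M₂.N.p ψ ∧ ψ.comp β = χ

namespace Tri

variable {M₁ M₂ M₃ : Obj k} {α : M₂.B →ₐ[k] M₁.B} {β : M₃.B →ₐ[k] M₂.B}

def i (T : Tri M₁ M₂ M₃ α β) : M₁ ⟶ M₂ := Obj.ofAlg α T.n₁ fun φ h h' => (T.d₁ φ h).1 h'
def p (T : Tri M₁ M₂ M₃ α β) : M₂ ⟶ M₃ := Obj.ofAlg β T.n₂ fun φ h h' => (T.d₂ φ h).2 (.inl h')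

@[simp] theorem i_val (T : Tri M₁ M₂ M₃ α β) : T.i.1 = α.toLinearMap := rfl
@[simp] theorem p_val (T : Tri M₁ M₂ M₃ α β) : T.p.1 = β.toLinearMap := rfl

open Algebra.TensorProduct in
theorem smash (T : Tri M₁ M₂ M₃ α β) (N : Obj k) :
    Tri (M₁.smash N) (M₂.smash N) (M₃.smash N) (map α (.id k _)) (map β (.id k _)) where
  n₁ φ h := by simpa using ⟨T.n₁ _ h.1, h.2⟩
  d₁ φ h := by simpa using or_congr (T.d₁ _ h.1) Iff.rfl
  inj₁ φ φ' h hd h' e := tensor_ext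
    (T.inj₁ _ _ h.1 (fun h => hd (.inl h)) h'.1 (by rw [← map_left φ α (.id k _), e, map_left]))
    (by simpa using congr(($e).comp includeRight))
  n₂ φ h := by simpa using ⟨T.n₂ _ h.1, h.2⟩
  d₂ ψ h := by
    simp only [Pr.or_p, Pr.comap_p, map_left, map_right, AlgHom.comp_id, T.d₂ _ h.1, Pr.and_p]
    constructor
    · rintro ((h1 | ⟨φ, h1, h2⟩) | h1)
      exacts [.inl (.inl h1), .inr ⟨productMap φ (ψ.comp includeRight),
        ⟨by rwa [productMap_left], by rw [productMap_right]; exact h.2⟩,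
        tensor_ext (by rwa [map_left, productMap_left]) (by simp [productMap_right])⟩,
        .inl (.inr h1)]
    · rintro ((h1 | h1) | ⟨φ, h1, rfl⟩)
      exacts [.inl (.inl h1), .inr h1, .inl (.inr ⟨_, h1.1, (map_left _ _ _).symm⟩)]
  inj₂ φ φ' h hd h' e := tensor_ext
    (T.inj₂ _ _ h.1 (fun h => hd (.inl (by simpa using h))) h'.1
      (by rw [← map_left φ β (.id k _), e, map_left]))
    (by simpa using congr(($e).comp includeRight))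
  surj χ h hd := by
    obtain ⟨ψ, h1, h2⟩ := T.surj _ h.1 fun h => hd (.inl h)
    exact ⟨productMap ψ (χ.comp includeRight),
      ⟨by simpa only [Pr.comap_p, productMap_left], by
        simpa only [Pr.comap_p, productMap_right] using h.2⟩,
      tensor_ext (by rwa [map_left, productMap_left]) (by simp [productMap_right])⟩

theorem smash_i (T : Tri M₁ M₂ M₃ α β) (N : Obj k) :
    (T.smash N).i = Obj.smashMap T.i (𝟙 N) := Obj.hom_ext (by ext; simp)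

theorem smash_p (T : Tri M₁ M₂ M₃ α β) (N : Obj k) :
    (T.smash N).p = Obj.smashMap T.p (𝟙 N) := Obj.hom_ext (by ext; simp)

/-- The sequence given by a further condition. -/
theorem std {B : Type} [CommRing B] [Algebra k B] {N₁ D₁ N₂ D₂ N₃ D₃ : Pr k B}
    (n₁ : ∀ {O : Aic k} (φ : B →ₐ[k] O), N₁.p φ → N₂.p φ)
    (d₁ : ∀ {O : Aic k} (φ : B →ₐ[k] O), N₁.p φ → (D₁.p φ ↔ D₂.p φ))
    (n₂ : ∀ {O : Aic k} (φ : B →ₐ[k] O), N₂.p φ → N₃.p φ)
    (d₂ : ∀ {O : Aic k} (φ : B →ₐ[k] O), N₂.p φ → (D₃.p φ ↔ D₂.p φ ∨ N₁.p φ))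
    (surj : ∀ {O : Aic k} (φ : B →ₐ[k] O), N₃.p φ → ¬ D₃.p φ → N₂.p φ) :
    Tri ⟨B, N₁, D₁⟩ ⟨B, N₂, D₂⟩ ⟨B, N₃, D₃⟩ (.id k B) (.id k B) :=
  ⟨n₁, d₁, fun _ _ _ _ _ e => e, n₂, fun φ h => by simpa using d₂ φ h, fun _ _ _ _ _ e => e,
    fun φ h h' => ⟨φ, surj φ h h', rfl⟩⟩

end Tri

/-- Homomorphisms that induce a bijection on the points that count. -/
structure IsE (M M' : Obj k) (β : M'.B →ₐ[k] M.B) : Prop where
  n : ∀ {O : Aic k} (ψ : M.B →ₐ[k] O), M.N.p ψ → M'.N.p (ψ.comp β)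
  d : ∀ {O : Aic k} (ψ : M.B →ₐ[k] O), M.N.p ψ → (M'.D.p (ψ.comp β) ↔ M.D.p ψ)
  inj : ∀ {O : Aic k} (ψ ψ' : M.B →ₐ[k] O), M.N.p ψ → ¬ M.D.p ψ → M.N.p ψ' →
    ψ.comp β = ψ'.comp β → ψ = ψ'
  surj : ∀ {O : Aic k} (χ : M'.B →ₐ[k] O), M'.N.p χ → ¬ M'.D.p χ →
    ∃ ψ, M.N.p ψ ∧ ψ.comp β = χ

namespace IsE

variable {M M' M'' : Obj k} {β : M'.B →ₐ[k] M.B} {γ : M''.B →ₐ[k] M'.B}

theorem tri (h : IsE M M' β) : Tri ⟨M.B, .bot, .bot⟩ M M' (.id k _) β :=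
  ⟨fun _ h => h.elim, fun _ h => h.elim, fun _ _ h => h.elim, h.n, fun ψ h1 => by simp [h.d ψ h1],
    fun ψ ψ' h1 h2 => h.inj ψ ψ' h1 (mt (h.d ψ h1).2 h2), h.surj⟩

def hom (h : IsE M M' β) : M ⟶ M' := h.tri.p

@[simp] theorem hom_val (h : IsE M M' β) : h.hom.1 = β.toLinearMap := rfl

theorem trans (h : IsE M M' β) (h' : IsE M' M'' γ) : IsE M M'' (β.comp γ) where
  n ψ h1 := h'.n _ (h.n ψ h1)
  d ψ h1 := (h'.d _ (h.n ψ h1)).trans (h.d ψ h1)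
  inj ψ ψ' h1 h2 h3 e :=
    h.inj ψ ψ' h1 h2 h3 (h'.inj _ _ (h.n ψ h1) (mt (h.d ψ h1).1 h2) (h.n ψ' h3) e)
  surj χ h1 h2 := by
    obtain ⟨ψ, h3, rfl⟩ := h'.surj χ h1 h2
    obtain ⟨φ, h4, rfl⟩ := h.surj ψ h3 (mt (h'.d ψ h3).2 h2)
    exact ⟨φ, h4, rfl⟩

/-- Same algebra, equivalent conditions. -/
theorem std {B : Type} [CommRing B] [Algebra k B] {N D N' D' : Pr k B}
    (n : ∀ {O : Aic k} (φ : B →ₐ[k] O), N.p φ → N'.p φ)
    (d : ∀ {O : Aic k} (φ : B →ₐ[k] O), N.p φ → (D'.p φ ↔ D.p φ))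
    (surj : ∀ {O : Aic k} (φ : B →ₐ[k] O), N'.p φ → ¬ D'.p φ → N.p φ) :
    IsE ⟨B, N, D⟩ ⟨B, N', D'⟩ (.id k B) :=
  ⟨n, d, fun _ _ _ _ _ e => e, fun φ h h' => ⟨φ, surj φ h h', rfl⟩⟩

/-- Isomorphisms of algebras. -/
theorem equiv (e : M'.B ≃ₐ[k] M.B)
    (n : ∀ {O : Aic k} (φ : M.B →ₐ[k] O), M'.N.p (φ.comp e) ↔ M.N.p φ)
    (d : ∀ {O : Aic k} (φ : M.B →ₐ[k] O), M'.D.p (φ.comp e) ↔ M.D.p φ) :
    IsE M M' e where
  n φ := (n φ).2
  d φ _ := d φ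
  inj φ φ' _ _ _ h := AlgHom.ext fun x => by simpa using congr($h (e.symm x))
  surj χ h _ := by
    have : (χ.comp (e.symm : M.B →ₐ[k] M'.B)).comp e = χ := AlgHom.ext fun x => by simp
    exact ⟨_, (n _).1 (by rwa [this]), this⟩

end IsE

end Pool.Agent.Lib.MP_fc2ced_ag
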