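import Pool.Agent.Lib.MP_fc2ced_ag.Obj

/-!
Theories: additive functors from `Obj k` to motives that turn the sequences `Tri` into
distinguished triangles and invert the generating maps. Statements valid in all theories.
-/

open CategoryTheory CategoryTheory.Limits CategoryTheory.Pretriangulated
open scoped TensorProduct Polynomial

set_option linter.unusedSectionVars false

namespace Pool.Agent.Lib.MP_fc2ced_ag

variable {k : Type} [Field k] [CharZero k]

instance : (Mot.Thick (Mot.Gen k)).IsTriangulated := by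
  obtain ⟨Z, v, w, h⟩ := distinguished_cocone_triangle ((DerivedCategory.singleFunctor _ 0).map
    ((Mot.L k).map (Mot.proj ⟨k⟩)))
  have : ObjectProperty.Nonempty fun Z => ∃ (F G : Mot.PST k) (u : F ⟶ G), Mot.Gen k F G u ∧
      ∃ v w, Triangle.mk (Z := Z) ((DerivedCategory.singleFunctor _ 0).map u) v w ∈ distTriang _ :=
    ⟨Z, _, _, _, .line ⟨k⟩ (inferInstanceAs (Algebra.Smooth k k)), v, w, h⟩
  unfold Mot.Thick
  infer_instance

variable (k) in
/-- Effective motives. -/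
abbrev DM := (Mot.Thick (Mot.Gen k)).trW.Localization

namespace Obj

/-- The open subset where `g` is invertible. -/
abbrev loc (k : Type) [Field k] [CharZero k] {B : Type} [CommRing B] [Algebra k B] (g : B) :
    Obj k := ⟨B, .unit g, .bot⟩

/-- The quotient by the open subset where `f` is invertible. -/
abbrev rel (k : Type) [Field k] [CharZero k] {B : Type} [CommRing B] [Algebra k B] (f : B) :
    Obj k := ⟨B, .top, .unit f⟩

/-- A homomorphism of algebras, as a morphism of represented presheaves. -/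
def smMap {B B' : Type} [CommRing B] [Algebra k B] [CommRing B'] [Algebra k B']
    (ψ : B' →ₐ[k] B) : sm k B ⟶ sm k B' := ofAlg ψ (fun _ _ => trivial) fun _ _ h => h

@[simp] theorem smMap_val {B B' : Type} [CommRing B] [Algebra k B] [CommRing B'] [Algebra k B']
    (ψ : B' →ₐ[k] B) : (smMap ψ).1 = ψ.toLinearMap := rfl

/-- A homomorphism of algebras, as a morphism of pairs. -/
def relMap {B B' : Type} [CommRing B] [Algebra k B] [CommRing B'] [Algebra k B']
    (ψ : B' →ₐ[k] B) (f : B') : rel k (ψ f) ⟶ rel k f :=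
  ofAlg ψ (fun _ _ => trivial) fun _ _ h => h

@[simp] theorem relMap_val {B B' : Type} [CommRing B] [Algebra k B] [CommRing B'] [Algebra k B']
    (ψ : B' →ₐ[k] B) (f : B') : (relMap ψ f).1 = ψ.toLinearMap := rfl

end Obj

open Obj

instance smooth_polynomial (B : Type) [CommRing B] [Algebra k B] [Algebra.Smooth k B] :
    Algebra.Smooth k B[X] :=
  have : Algebra.Smooth B B[X] := {}
  .comp k B _

variable (k) in
/-- An etale map that is an isomorphism over the zero scheme of `f`. -/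
structure NisData (B B' : Type) [CommRing B] [Algebra k B] [CommRing B'] [Algebra B B'] (f : B) :
    Prop where
  smooth : Algebra.Smooth k B
  etale : Algebra.Etale B B'
  retr : Nonempty (B' →ₐ[B] B ⧸ Ideal.span {f})
  surj : ∀ b' : B', ∃ b, algebraMap B B' f ∣ b' - algebraMap B B' b

theorem NisData.baseChange {B B' : Type} [CommRing B] [Algebra k B] [CommRing B'] [Algebra B B']
    {f : B} (h : NisData k B B' f) (C : Type) [CommRing C] [Algebra k C] [Algebra B C]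
    [Algebra.Smooth k C] : NisData k C (C ⊗[B] B') (algebraMap B C f) where
  smooth := inferInstance
  etale := by have := h.etale; infer_instance
  retr := h.retr.elim fun ρ => ⟨Algebra.TensorProduct.lift (Ideal.Quotient.mkₐ C _)
    ((Ideal.quotientMapₐ _ (Algebra.ofId B C) (by simp [Ideal.span_le])).comp ρ)
    fun _ _ => .all _ _⟩
  surj x := by
    induction x with
    | zero => exact ⟨0, by simp⟩
    | tmul c b' =>
      obtain ⟨b, d, hd⟩ := h.surj b'
      refine ⟨c * algebraMap B C b, c ⊗ₜ d, ?_⟩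
      rw [sub_eq_iff_eq_add.1 hd, TensorProduct.tmul_add, ← Algebra.smul_def,
        Algebra.algebraMap_eq_smul_one, ← TensorProduct.smul_tmul, ← TensorProduct.smul_tmul]
      simp [Algebra.smul_def, mul_comm]
    | add x y hx hy =>
      obtain ⟨a, ha⟩ := hx
      obtain ⟨b, hb⟩ := hy
      exact ⟨a + b, by rw [map_add, add_sub_add_comm]; exact dvd_add ha hb⟩

/-- The generating maps. -/
inductive Gn : MorphismProperty (Obj k)
  | line (B : Type) [CommRing B] [Algebra k B] [Algebra.Smooth k B] :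
      Gn (smMap (Polynomial.CAlgHom : B →ₐ[k] B[X]))
  | nis (B B' : Type) [CommRing B] [Algebra k B] [CommRing B'] [Algebra k B'] [Algebra B B']
      [IsScalarTower k B B'] (f : B) (h : NisData k B B' f) :
      Gn (relMap (IsScalarTower.toAlgHom k B B') f)

variable (k) in
/-- A theory with values in motives. -/
structure Theory where
  F : Obj k ⥤ DM k
  [add : F.Additive]
  δ : ∀ {M₁ M₂ M₃ : Obj k} {α : M₂.B →ₐ[k] M₁.B} {β : M₃.B →ₐ[k] M₂.B}, Tri M₁ M₂ M₃ α β →
    (F.obj M₃ ⟶ (F.obj M₁)⟦(1 : ℤ)⟧)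
  dist : ∀ {M₁ M₂ M₃ : Obj k} {α : M₂.B →ₐ[k] M₁.B} {β : M₃.B →ₐ[k] M₂.B}
    (T : Tri M₁ M₂ M₃ α β), Triangle.mk (F.map T.i) (F.map T.p) (δ T) ∈ distTriang (DM k)
  nat : ∀ {M₁ M₂ M₃ : Obj k} {α : M₂.B →ₐ[k] M₁.B} {β : M₃.B →ₐ[k] M₂.B}
    (T : Tri M₁ M₂ M₃ α β) {N₁ N₂ N₃ : Obj k} {α' : N₂.B →ₐ[k] N₁.B} {β' : N₃.B →ₐ[k] N₂.B}
    (T' : Tri N₁ N₂ N₃ α' β') (a : M₁ ⟶ N₁) (b : M₂ ⟶ N₂) (c : M₃ ⟶ N₃),
    T.i ≫ b = a ≫ T'.i → T.p ≫ c = b ≫ T'.p → δ T ≫ (F.map a)⟦(1 : ℤ)⟧' = F.map c ≫ δ T'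
  gen : ∀ {X Y : Obj k} (u : X ⟶ Y), Gn u → IsIso (F.map u)

attribute [instance] Theory.add

variable {M M' M'' N N' : Obj k}

/-- Zero in all theories. -/
def Null (f : M ⟶ M') : Prop := ∀ Θ : Theory k, Θ.F.map f = 0
/-- Invertible in all theories. -/
def UIso (f : M ⟶ M') : Prop := ∀ Θ : Theory k, IsIso (Θ.F.map f)
/-- Zero object in all theories. -/
def UZero (M : Obj k) : Prop := ∀ Θ : Theory k, IsZero (Θ.F.obj M)
/-- Objects that can be used to twist a theory. -/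
def Con (N : Obj k) : Prop := ∀ ⦃X Y : Obj k⦄ (u : X ⟶ Y), Gn u → UIso (smashMap u (𝟙 N))

/-- The twist of a theory. -/
noncomputable def Theory.smash (Θ : Theory k) (N : Obj k) (h : Con N) : Theory k where
  F := smashF N ⋙ Θ.F
  δ T := Θ.δ (T.smash N)
  dist T := by
    have := Θ.dist (T.smash N)
    rwa [Tri.smash_i, Tri.smash_p] at this
  nat T _ _ _ _ _ T' a b c h1 h2 := Θ.nat (T.smash N) (T'.smash N) (smashMap a (𝟙 N))
    (smashMap b (𝟙 N)) (smashMap c (𝟙 N))
    (by rw [T.smash_i, T'.smash_i, ← smashMap_comp, ← smashMap_comp, h1])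
    (by rw [T.smash_p, T'.smash_p, ← smashMap_comp, ← smashMap_comp, h2])
  gen u hu := h u hu Θ

namespace Null

theorem zero : Null (0 : M ⟶ M') := fun Θ => Θ.F.map_zero _ _
theorem add {f g : M ⟶ M'} (hf : Null f) (hg : Null g) : Null (f + g) := fun Θ => by
  rw [Θ.F.map_add, hf Θ, hg Θ, add_zero]
theorem neg {f : M ⟶ M'} (hf : Null f) : Null (-f) := fun Θ => by
  rw [Θ.F.map_neg, hf Θ, neg_zero]
theorem sub {f g : M ⟶ M'} (hf : Null f) (hg : Null g) : Null (f - g) := fun Θ => by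
  rw [Θ.F.map_sub, hf Θ, hg Θ, sub_zero]
theorem comp {f : M ⟶ M'} (hf : Null f) (g : M' ⟶ M'') : Null (f ≫ g) := fun Θ => by
  rw [Θ.F.map_comp, hf Θ, zero_comp]
theorem precomp (f : M ⟶ M') {g : M' ⟶ M''} (hg : Null g) : Null (f ≫ g) := fun Θ => by
  rw [Θ.F.map_comp, hg Θ, comp_zero]
theorem smul (q : ℚ) {f : M ⟶ M'} (hf : Null f) : Null (q • f) := by
  simpa using hf.comp (q • 𝟙 M')
theorem sum {ι : Type} {s : Finset ι} {f : ι → (M ⟶ M')} (h : ∀ i ∈ s, Null (f i)) :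
    Null (∑ i ∈ s, f i) := Finset.sum_induction f Null (fun _ _ => add) zero h
theorem of_sub {f g : M ⟶ M'} (h : Null (f - g)) (hg : Null g) : Null f := by
  simpa using h.add hg
theorem symm {f g : M ⟶ M'} (h : Null (f - g)) : Null (g - f) := by simpa using h.neg
theorem trans {f g h : M ⟶ M'} (h1 : Null (f - g)) (h2 : Null (g - h)) : Null (f - h) := by
  simpa using h1.add h2
theorem map_eq {f g : M ⟶ M'} (h : Null (f - g)) (Θ : Theory k) : Θ.F.map f = Θ.F.map g :=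
  sub_eq_zero.1 (by rw [← Θ.F.map_sub, h Θ])
theorem of_uiso_comp {u : M ⟶ M'} (hu : UIso u) {f : M' ⟶ M''} (h : Null (u ≫ f)) : Null f :=
  fun Θ => by
    have := hu Θ
    rw [← cancel_epi (Θ.F.map u), ← Θ.F.map_comp, h Θ, comp_zero]
theorem of_comp_uiso {f : M ⟶ M'} {u : M' ⟶ M''} (hu : UIso u) (h : Null (f ≫ u)) : Null f :=
  fun Θ => by
    have := hu Θ
    rw [← cancel_mono (Θ.F.map u), ← Θ.F.map_comp, h Θ, zero_comp]
theorem smash {f : M ⟶ M'} (hf : Null f) (h : Con N) : Null (smashMap f (𝟙 N)) :=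
  fun Θ => hf (Θ.smash N h)

end Null

variable (M M') in
/-- The morphisms that vanish in all theories. -/
def nullSub : Submodule ℚ (M ⟶ M') where
  carrier := {f | Null f}
  add_mem' := Null.add
  zero_mem' := Null.zero
  smul_mem' q _ := Null.smul q

namespace UIso

theorem of_isIso (f : M ⟶ M') [IsIso f] : UIso f := fun _ => inferInstance
theorem id : UIso (𝟙 M) := of_isIso _
theorem comp {f : M ⟶ M'} {g : M' ⟶ M''} (hf : UIso f) (hg : UIso g) : UIso (f ≫ g) :=
  fun Θ => by have := hf Θ; have := hg Θ; rw [Θ.F.map_comp]; infer_instance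
theorem of_comp_left {f : M ⟶ M'} {g : M' ⟶ M''} (hf : UIso f) (h : UIso (f ≫ g)) : UIso g :=
  fun Θ => by
    have := hf Θ; have := h Θ; rw [Θ.F.map_comp] at this
    exact IsIso.of_isIso_comp_left (Θ.F.map f) _
theorem of_comp_right {f : M ⟶ M'} {g : M' ⟶ M''} (hg : UIso g) (h : UIso (f ≫ g)) : UIso f :=
  fun Θ => by
    have := hg Θ; have := h Θ; rw [Θ.F.map_comp] at this
    exact IsIso.of_isIso_comp_right _ (Θ.F.map g)
theorem of_null_sub {f g : M ⟶ M'} (h : Null (f - g)) (hg : UIso g) : UIso f :=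
  fun Θ => by rw [h.map_eq Θ]; exact hg Θ
theorem smul {q : ℚ} (hq : q ≠ 0) {f : M ⟶ M'} (hf : UIso f) : UIso (q • f) := by
  have : IsIso (q • 𝟙 M') := ⟨q⁻¹ • 𝟙 M', by simp [smul_smul, hq], by simp [smul_smul, hq]⟩
  simpa using hf.comp (of_isIso (q • 𝟙 M'))
theorem smash {f : M ⟶ M'} (hf : UIso f) (h : Con N) : UIso (smashMap f (𝟙 N)) :=
  fun Θ => hf (Θ.smash N h)
theorem gen {f : M ⟶ M'} (hf : Gn f) : UIso f := fun Θ => Θ.gen f hf
theorem uzero_iff {f : M ⟶ M'} (hf : UIso f) : UZero M ↔ UZero M' :=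
  forall_congr' fun Θ => have := hf Θ; (asIso (Θ.F.map f)).isZero_iff
/-- A retract of an invertible map is invertible. -/
theorem retract {X Y X' Y' : Obj k} {u : X ⟶ Y} {u' : X' ⟶ Y'} (hu : UIso u) {s : X' ⟶ X}
    {p : X ⟶ X'} {s' : Y' ⟶ Y} {p' : Y ⟶ Y'} (h : UIso (s ≫ p)) (h' : UIso (s' ≫ p'))
    (e1 : s ≫ u = u' ≫ s') (e2 : p ≫ u' = u ≫ p') : UIso u' := fun Θ => by
  have := hu Θ; have := h Θ; have := h' Θ
  have a1 : Θ.F.map u' ≫ (Θ.F.map s' ≫ inv (Θ.F.map u) ≫ Θ.F.map p) = Θ.F.map (s ≫ p) := by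
    rw [← Θ.F.map_comp_assoc, ← e1]; simp
  have a2 : (Θ.F.map s' ≫ inv (Θ.F.map u) ≫ Θ.F.map p) ≫ Θ.F.map u' = Θ.F.map (s' ≫ p') := by
    simp only [Category.assoc]; rw [← Θ.F.map_comp, e2]; simp
  have : Mono (Θ.F.map u') := mono_of_mono_fac a1
  have : IsSplitEpi (Θ.F.map u') := ⟨⟨inv (Θ.F.map (s' ≫ p')) ≫
    (Θ.F.map s' ≫ inv (Θ.F.map u) ≫ Θ.F.map p), by rw [Category.assoc, a2]; simp⟩⟩
  exact isIso_of_mono_of_isSplitEpi _

end UIso

namespace UZero

theorem iff_null : UZero M ↔ Null (𝟙 M) :=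
  forall_congr' fun Θ => by rw [IsZero.iff_id_eq_zero, Θ.F.map_id]
theorem null_left (h : UZero M) (f : M ⟶ M') : Null f := fun Θ => (h Θ).eq_of_src _ _
theorem null_right (h : UZero M') (f : M ⟶ M') : Null f := fun Θ => (h Θ).eq_of_tgt _ _
theorem uiso (h : UZero M) (h' : UZero M') (f : M ⟶ M') : UIso f :=
  fun Θ => (h Θ).isIso (h' Θ) _
theorem smash (h : UZero M) (hN : Con N) : UZero (M.smash N) := fun Θ => h (Θ.smash N hN)

end UZero

namespace Tri

variable {M₁ M₂ M₃ : Obj k} {α : M₂.B →ₐ[k] M₁.B} {β : M₃.B →ₐ[k] M₂.B} (T : Tri M₁ M₂ M₃ α β)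
  {N₁ N₂ N₃ : Obj k} {α' : N₂.B →ₐ[k] N₁.B} {β' : N₃.B →ₐ[k] N₂.B} (T' : Tri N₁ N₂ N₃ α' β')

theorem null_comp : Null (T.i ≫ T.p) := fun Θ => by
  rw [Θ.F.map_comp]; exact comp_distTriang_mor_zero₁₂ _ (Θ.dist T)

theorem uzero₁_iff : UZero M₁ ↔ UIso T.p :=
  forall_congr' fun Θ => Triangle.isZero₁_iff_isIso₂ _ (Θ.dist T)
theorem uzero₃_iff : UZero M₃ ↔ UIso T.i :=
  forall_congr' fun Θ => Triangle.isZero₃_iff_isIso₁ _ (Θ.dist T)
include T in
theorem uzero₂ (h₁ : UZero M₁) (h₃ : UZero M₃) : UZero M₂ :=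
  (T.uzero₁_iff.1 h₁).uzero_iff.2 h₃
include T in
theorem uzero₃ (h₁ : UZero M₁) (h₂ : UZero M₂) : UZero M₃ :=
  (T.uzero₁_iff.1 h₁).uzero_iff.1 h₂
include T in
theorem uzero₁ (h₂ : UZero M₂) (h₃ : UZero M₃) : UZero M₁ :=
  (T.uzero₃_iff.1 h₃).uzero_iff.2 h₂

theorem factor {f : M₂ ⟶ N} (h : Null (T.i ≫ f)) (Θ : Theory k) :
    ∃ t : Θ.F.obj M₃ ⟶ Θ.F.obj N, Θ.F.map f = Θ.F.map T.p ≫ t :=
  Triangle.yoneda_exact₂ _ (Θ.dist T) (Θ.F.map f) ((Θ.F.map_comp _ _).symm.trans (h Θ))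

/-- A map that vanishes on the first term factors through the third. -/
theorem null_of_i {f : M₂ ⟶ N} (h : Null (T.i ≫ f)) {g : M ⟶ M₂} (hg : Null (g ≫ T.p)) :
    Null (g ≫ f) := fun Θ => by
  obtain ⟨t, ht⟩ := T.factor h Θ
  rw [Θ.F.map_comp, ht, ← Θ.F.map_comp_assoc, hg Θ, zero_comp]

/-- Two maps that are jointly epimorphic. -/
theorem null_of_joint {f : M₂ ⟶ N} (h : Null (T.i ≫ f)) {g : M ⟶ M₂} (hg : UIso (g ≫ T.p))
    (h' : Null (g ≫ f)) : Null f := fun Θ => by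
  obtain ⟨t, ht⟩ := T.factor h Θ
  have := hg Θ
  have h2 := h' Θ
  rw [Θ.F.map_comp, ht, ← Θ.F.map_comp_assoc, ← comp_zero (f := Θ.F.map (g ≫ T.p)),
    cancel_epi] at h2
  rw [ht, h2, comp_zero]

variable {a : M₁ ⟶ N₁} {b : M₂ ⟶ N₂} {c : M₃ ⟶ N₃}

/-- The morphism of triangles. -/
noncomputable def hom (h1 : T.i ≫ b = a ≫ T'.i) (h2 : T.p ≫ c = b ≫ T'.p) (Θ : Theory k) :
    Triangle.mk (Θ.F.map T.i) (Θ.F.map T.p) (Θ.δ T) ⟶
      Triangle.mk (Θ.F.map T'.i) (Θ.F.map T'.p) (Θ.δ T') where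
  hom₁ := Θ.F.map a
  hom₂ := Θ.F.map b
  hom₃ := Θ.F.map c
  comm₁ := (Θ.F.map_comp _ _).symm.trans (h1 ▸ Θ.F.map_comp _ _)
  comm₂ := (Θ.F.map_comp _ _).symm.trans (h2 ▸ Θ.F.map_comp _ _)
  comm₃ := Θ.nat T T' a b c h1 h2

theorem five₁ (h1 : T.i ≫ b = a ≫ T'.i) (h2 : T.p ≫ c = b ≫ T'.p) (hb : UIso b) (hc : UIso c) :
    UIso a := fun Θ =>
  isIso₁_of_isIso₂₃ (T.hom T' h1 h2 Θ) (Θ.dist T) (Θ.dist T') (hb Θ) (hc Θ)
theorem five₂ (h1 : T.i ≫ b = a ≫ T'.i) (h2 : T.p ≫ c = b ≫ T'.p) (ha : UIso a) (hc : UIso c) :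
    UIso b := fun Θ =>
  isIso₂_of_isIso₁₃ (T.hom T' h1 h2 Θ) (Θ.dist T) (Θ.dist T') (ha Θ) (hc Θ)
theorem five₃ (h1 : T.i ≫ b = a ≫ T'.i) (h2 : T.p ≫ c = b ≫ T'.p) (ha : UIso a) (hb : UIso b) :
    UIso c := fun Θ =>
  isIso₃_of_isIso₁₂ (T.hom T' h1 h2 Θ) (Θ.dist T) (Θ.dist T') (ha Θ) (hb Θ)

/-- Desuspension. -/
theorem null_of_null₃ (h1 : T.i ≫ b = a ≫ T'.i) (h2 : T.p ≫ c = b ≫ T'.p) (h : UZero M₂)
    (hc : Null c) : Null a := fun Θ => by
  have : IsIso (Θ.δ T) := (Triangle.isZero₂_iff_isIso₃ _ (Θ.dist T)).1 (h Θ)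
  have h3 := Θ.nat T T' a b c h1 h2
  rw [hc Θ, zero_comp, ← comp_zero (f := Θ.δ T), cancel_epi] at h3
  exact (shiftFunctor (DM k) (1 : ℤ)).map_injective (h3.trans (Functor.map_zero _ _ _).symm)

end Tri

/-- An object all of whose points are dead vanishes. -/
theorem UZero.dead (h : ∀ {O : Aic k} (φ : M.B →ₐ[k] O), M.N.p φ → M.D.p φ) : UZero M := by
  have T : Tri M M M (.id k _) (.id k _) := ⟨fun _ h => h, fun _ _ => Iff.rfl,
    fun _ _ _ _ _ e => e, fun _ h => h, fun ψ h1 => iff_of_true (h ψ h1) (.inl (h ψ h1)),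
    fun _ _ _ _ _ e => e, fun χ h _ => ⟨χ, h, rfl⟩⟩
  exact UZero.iff_null.2 T.null_comp

/-- A map with values in dead points vanishes. -/
theorem Null.dead {f : M ⟶ M'} (h : ∀ {O : Aic k} (φ : M.B →ₐ[k] O), M.N.p φ →
    φ.toLinearMap ∘ₗ f.1 ∈ Sp (M'.N.and M'.D) O) : Null f := by
  let f' : M ⟶ ⟨M'.B, M'.N.and M'.D, M'.D⟩ := ⟨f.1, h, fun φ h1 _ =>
    Sp.le (P := M'.N.and M'.D) (Q := (M'.N.and M'.D).and M'.D) (fun _ h => ⟨h, h.2⟩) (h φ h1)⟩
  exact ((UZero.dead (M := ⟨M'.B, M'.N.and M'.D, M'.D⟩) fun _ h => h.2).null_right f').comp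
    (ofAlg (M' := M') (.id k _) (fun _ h => h.1) fun _ _ h => h)

theorem IsE.uiso {β : M'.B →ₐ[k] M.B} (h : IsE M M' β) : UIso h.hom :=
  h.tri.uzero₁_iff.1 (.dead fun _ h => h)

section Smash

open Algebra.TensorProduct

namespace Obj

/-- Symmetry of the tensor product. -/
noncomputable def swap (M N : Obj k) : M.smash N ⟶ N.smash M :=
  have e1 {O : Aic k} (φ : M.B ⊗[k] N.B →ₐ[k] O) :
      (φ.comp (Algebra.TensorProduct.comm k N.B M.B).toAlgHom).comp includeLeft =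
        φ.comp includeRight := by ext; simp
  have e2 {O : Aic k} (φ : M.B ⊗[k] N.B →ₐ[k] O) :
      (φ.comp (Algebra.TensorProduct.comm k N.B M.B).toAlgHom).comp includeRight =
        φ.comp includeLeft := by ext; simp
  ofAlg (Algebra.TensorProduct.comm k N.B M.B).toAlgHom
    (fun φ h => by simpa only [Pr.and_p, Pr.comap_p, e1, e2] using h.symm)
    fun φ _ h => by simpa only [Pr.or_p, Pr.comap_p, e1, e2] using h.symm

@[simp] theorem swap_val (M N : Obj k) :
    (swap M N).1 = (TensorProduct.comm k N.B M.B).toLinearMap := rfl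

theorem swap_swap (M N : Obj k) : swap M N ≫ swap N M = 𝟙 _ := hom_ext (by ext; simp)

instance (M N : Obj k) : IsIso (swap M N) := ⟨swap N M, swap_swap _ _, swap_swap _ _⟩

theorem swap_nat (f : M ⟶ M') (g : N ⟶ N') :
    smashMap f g ≫ swap M' N' = swap M N ≫ smashMap g f := hom_ext (by ext; simp)

theorem isE_assoc (M N P : Obj k) : IsE (M.smash (N.smash P)) ((M.smash N).smash P)
    (Algebra.TensorProduct.assoc k k k M.B N.B P.B).toAlgHom := by
  have e1 {O : Aic k} (φ : M.B ⊗[k] (N.B ⊗[k] P.B) →ₐ[k] O) :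
      ((φ.comp (Algebra.TensorProduct.assoc k k k M.B N.B P.B).toAlgHom).comp
        includeLeft).comp includeLeft = φ.comp includeLeft := by
    ext; simp [Algebra.TensorProduct.one_def]
  have e2 {O : Aic k} (φ : M.B ⊗[k] (N.B ⊗[k] P.B) →ₐ[k] O) :
      ((φ.comp (Algebra.TensorProduct.assoc k k k M.B N.B P.B).toAlgHom).comp
        includeLeft).comp includeRight = (φ.comp includeRight).comp includeLeft := by ext; simp
  have e3 {O : Aic k} (φ : M.B ⊗[k] (N.B ⊗[k] P.B) →ₐ[k] O) :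
      (φ.comp (Algebra.TensorProduct.assoc k k k M.B N.B P.B).toAlgHom).comp includeRight =
        (φ.comp includeRight).comp includeRight := by ext; simp [Algebra.TensorProduct.one_def]
  exact IsE.equiv (M := M.smash (N.smash P)) (M' := (M.smash N).smash P)
    (Algebra.TensorProduct.assoc k k k M.B N.B P.B)
    (fun φ => by simp only [Pr.and_p, Pr.comap_p, e1, e2, e3, and_assoc])
    fun φ => by simp only [Pr.or_p, Pr.comap_p, e1, e2, e3, or_assoc]

/-- Associativity of the tensor product. -/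
noncomputable def assoc (M N P : Obj k) : M.smash (N.smash P) ⟶ (M.smash N).smash P :=
  (isE_assoc M N P).hom

theorem uiso_assoc (M N P : Obj k) : UIso (assoc M N P) := (isE_assoc M N P).uiso

theorem assoc_nat {P P' : Obj k} (f : M ⟶ M') (g : N ⟶ N') (h : P ⟶ P') :
    smashMap f (smashMap g h) ≫ assoc M' N' P' = assoc M N P ≫ smashMap (smashMap f g) h :=
  hom_ext (by ext; simp [assoc])

theorem isE_rid (M : Obj k) :
    IsE M (M.smash (sm k k)) (Algebra.TensorProduct.rid k k M.B).toAlgHom := by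
  have e1 {O : Aic k} (φ : M.B →ₐ[k] O) :
      (φ.comp (Algebra.TensorProduct.rid k k M.B).toAlgHom).comp includeLeft = φ := by ext; simp
  exact IsE.equiv (M := M) (M' := M.smash (sm k k)) (Algebra.TensorProduct.rid k k M.B)
    (fun φ => by simp [e1]) fun φ => by simp [e1]

/-- The unit of the tensor product. -/
noncomputable def rid (M : Obj k) : M ⟶ M.smash (sm k k) := (isE_rid M).hom

theorem uiso_rid (M : Obj k) : UIso (rid M) := (isE_rid M).uiso

theorem rid_nat (f : M ⟶ M') : f ≫ rid M' = rid M ≫ smashMap f (𝟙 _) :=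
  hom_ext (by ext; simp [rid])

theorem isE_smash_sm (B C : Type) [CommRing B] [Algebra k B] [CommRing C] [Algebra k C] :
    IsE ((sm k B).smash (sm k C)) (sm k (B ⊗[k] C)) (.id k _) :=
  IsE.std (fun _ _ => trivial) (fun _ _ => by simp) fun _ _ _ => ⟨trivial, trivial⟩

end Obj

theorem Null.smash_left {f : M ⟶ M'} (hf : Null f) (h : Con N) : Null (smashMap (𝟙 N) f) :=
  .of_comp_uiso (.of_isIso (swap _ _)) (by rw [swap_nat]; exact (hf.smash h).precomp _)

theorem UIso.smash_comm {f : M ⟶ M'} {g : N ⟶ N'} (hf : UIso (smashMap f g)) :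
    UIso (smashMap g f) :=
  .of_comp_right (.of_isIso (swap _ _)) (by rw [swap_nat]; exact (UIso.of_isIso _).comp hf)

theorem UIso.smash_left {f : M ⟶ M'} (hf : UIso f) (h : Con N) : UIso (smashMap (𝟙 N) f) :=
  (hf.smash h).smash_comm

theorem UZero.smash_left (h : UZero M) (hN : Con N) : UZero (N.smash M) :=
  (UIso.of_isIso (swap _ _)).uzero_iff.1 (h.smash hN)

theorem smashMap_eq (f : M ⟶ M') (g : N ⟶ N') :
    smashMap f g = smashMap f (𝟙 N) ≫ smashMap (𝟙 M') g := by simp [← smashMap_comp]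

theorem smashMap_eq' (f : M ⟶ M') (g : N ⟶ N') :
    smashMap f g = smashMap (𝟙 M) g ≫ smashMap f (𝟙 N') := by simp [← smashMap_comp]

theorem UIso.smash₂ {f : M ⟶ M'} {g : N ⟶ N'} (hf : UIso f) (hg : UIso g) (hN : Con N)
    (hM : Con M') : UIso (smashMap f g) := by
  rw [smashMap_eq]; exact (hf.smash hN).comp (hg.smash_left hM)

namespace Con

protected theorem sm (C : Type) [CommRing C] [Algebra k C] [Algebra.Smooth k C] :
    Con (sm k C) := by
  rintro _ _ _ (⟨B⟩ | ⟨B, B', f, h⟩)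
  · have : Algebra.Smooth k (B ⊗[k] C) := .comp k B _
    let e : B[X] ⊗[k] C ≃ₐ[k] (B ⊗[k] C)[X] := AlgEquiv.ofAlgHom
      (lift (Polynomial.mapAlgHom includeLeft) (Polynomial.CAlgHom.comp includeRight)
        fun _ _ => .all _ _)
      (Polynomial.aevalTower (map Polynomial.CAlgHom (.id k C)) (Polynomial.X ⊗ₜ 1))
      (by ext <;> simp [← Algebra.TensorProduct.one_def])
      (by ext <;> simp [← Algebra.TensorProduct.one_def])
    have E : IsE (sm k (B ⊗[k] C)[X]) ((sm k B[X]).smash (sm k C)) e :=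
      IsE.equiv (M := sm k (B ⊗[k] C)[X]) (M' := (sm k B[X]).smash (sm k C)) e
        (fun _ => by simp) fun _ => by simp
    refine E.uiso.of_comp_left (.of_comp_right (isE_smash_sm B C).uiso ?_)
    have h := UIso.gen (k := k) (.line (B ⊗[k] C))
    convert h using 1
    exact hom_ext (by ext; simp [e, ← map_mul])
  · have := h.smooth
    have : Algebra.Smooth k (B ⊗[k] C) := .comp k B _
    let β : B' ⊗[k] C →ₐ[k] (B ⊗[k] C) ⊗[B] B' := lift (includeRight.restrictScalars k)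
      (((includeLeft : _ →ₐ[B] _).restrictScalars k).comp includeRight) fun _ _ => .all _ _
    have hβ (b : B) (c : C) : β (algebraMap B B' b ⊗ₜ c) = (b ⊗ₜ c) ⊗ₜ 1 := by
      simp [β, Algebra.algebraMap_eq_smul_one, TensorProduct.smul_tmul']
    have E : IsE (rel k (IsScalarTower.toAlgHom k (B ⊗[k] C) ((B ⊗[k] C) ⊗[B] B')
        (algebraMap B (B ⊗[k] C) f))) ((rel k (IsScalarTower.toAlgHom k B B' f)).smash (sm k C))
        β := by
      have hs : Function.Surjective β := fun x => by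
        induction x with
        | zero => exact ⟨0, map_zero _⟩
        | add x y hx hy => obtain ⟨a, rfl⟩ := hx; obtain ⟨b, rfl⟩ := hy; exact ⟨a + b, map_add ..⟩
        | tmul x b' =>
          induction x with
          | zero => exact ⟨0, by simp⟩
          | add x y hx hy =>
            obtain ⟨a, ha⟩ := hx; obtain ⟨b, hb⟩ := hy
            exact ⟨a + b, by rw [map_add, ha, hb, TensorProduct.add_tmul]⟩
          | tmul b c => exact ⟨(b • b') ⊗ₜ c, by simp [β, TensorProduct.smul_tmul']⟩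
      refine ⟨fun _ _ => ⟨trivial, trivial⟩, fun ψ _ => by simp [hβ],
        fun ψ ψ' _ _ _ e => AlgHom.ext fun x => ?_, fun {O} χ _ _ => ?_⟩
      · obtain ⟨y, rfl⟩ := hs x
        exact congr($e y)
      · let φ := (χ.comp includeLeft).comp (IsScalarTower.toAlgHom k B B')
        letI := φ.toAlgebra
        have : IsScalarTower k B O := .of_algHom φ
        refine ⟨(lift (S := B) (lift (Algebra.ofId B O) (χ.comp includeRight) fun _ _ => .all _ _)
          ⟨(χ.comp includeLeft).toRingHom, fun _ => rfl⟩ fun _ _ => .all _ _).restrictScalars k,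
          trivial, by ext <;> simp [β, ← Algebra.TensorProduct.one_def]⟩
    have E' : IsE ((rel k f).smash (sm k C)) (rel k (algebraMap B (B ⊗[k] C) f)) (.id k _) :=
      IsE.std (fun _ _ => trivial) (fun _ _ => by simp) fun _ _ _ => ⟨trivial, trivial⟩
    refine E.uiso.of_comp_left (.of_comp_right E'.uiso ?_)
    convert UIso.gen (.nis _ _ _ (h.baseChange (B ⊗[k] C))) using 1
    exact hom_ext (by ext; simp [hβ])

variable {M₁ M₂ M₃ : Obj k} {α : M₂.B →ₐ[k] M₁.B} {β : M₃.B →ₐ[k] M₂.B}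

theorem tri₁ (T : Tri M₁ M₂ M₃ α β) (h₂ : Con M₂) (h₃ : Con M₃) : Con M₁ := fun X Y u hu =>
  ((T.smash X).five₁ (T.smash Y) (by simp [T.smash_i, ← smashMap_comp])
    (by simp [T.smash_p, ← smashMap_comp]) (h₂ u hu).smash_comm (h₃ u hu).smash_comm).smash_comm

theorem tri₂ (T : Tri M₁ M₂ M₃ α β) (h₁ : Con M₁) (h₃ : Con M₃) : Con M₂ := fun X Y u hu =>
  ((T.smash X).five₂ (T.smash Y) (by simp [T.smash_i, ← smashMap_comp])
    (by simp [T.smash_p, ← smashMap_comp]) (h₁ u hu).smash_comm (h₃ u hu).smash_comm).smash_comm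

theorem tri₃ (T : Tri M₁ M₂ M₃ α β) (h₁ : Con M₁) (h₂ : Con M₂) : Con M₃ := fun X Y u hu =>
  ((T.smash X).five₃ (T.smash Y) (by simp [T.smash_i, ← smashMap_comp])
    (by simp [T.smash_p, ← smashMap_comp]) (h₁ u hu).smash_comm (h₂ u hu).smash_comm).smash_comm

theorem dead (h : ∀ {O : Aic k} (φ : M.B →ₐ[k] O), M.N.p φ → M.D.p φ) : Con M := fun X Y _ _ =>
  (UZero.dead (M := X.smash M) fun _ h1 => .inr (h _ h1.2)).uiso
    (UZero.dead (M := Y.smash M) fun _ h1 => .inr (h _ h1.2)) _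

theorem isE_iff {β : M'.B →ₐ[k] M.B} (h : IsE M M' β) : Con M ↔ Con M' :=
  ⟨tri₃ h.tri (dead fun _ h => h), tri₂ h.tri (dead fun _ h => h)⟩

end Con

theorem Obj.isE_loc {B : Type} [CommRing B] [Algebra k B] (g : B) :
    IsE (sm k (Localization.Away g)) (loc k g) (IsScalarTower.toAlgHom k B _) where
  n ψ _ := (IsLocalization.Away.algebraMap_isUnit g).map ψ
  d _ _ := Iff.rfl
  inj ψ ψ' _ _ _ e := AlgHom.coe_ringHom_injective
    (IsLocalization.ringHom_ext (Submonoid.powers g) congr(($e).toRingHom))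
  surj χ h _ := ⟨IsLocalization.Away.liftAlgHom g h, trivial, by ext; simp⟩

theorem Obj.tri_loc {B : Type} [CommRing B] [Algebra k B] (g : B) :
    Tri (loc k g) (sm k B) (rel k g) (.id k _) (.id k _) :=
  Tri.std (fun _ _ => trivial) (fun _ _ => Iff.rfl) (fun _ _ => trivial) (fun _ _ => by simp)
    fun _ _ _ => trivial

namespace Con

protected theorem loc {B : Type} [CommRing B] [Algebra k B] [Algebra.Smooth k B] (g : B) :
    Con (loc k g) :=
  have : Algebra.Smooth k (Localization.Away g) := .comp k B _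
  (isE_iff (isE_loc g)).1 (.sm _)

protected theorem rel {B : Type} [CommRing B] [Algebra k B] [Algebra.Smooth k B] (g : B) :
    Con (rel k g) := tri₃ (tri_loc g) (.loc g) (.sm B)

theorem gen {X Y : Obj k} {u : X ⟶ Y} (hu : Gn u) : Con X ∧ Con Y := by
  rcases hu with ⟨B⟩ | ⟨B, B', f, h⟩
  · exact ⟨.sm _, .sm _⟩
  · have := h.smooth
    have := h.etale
    have : Algebra.Smooth k B' := .comp k B _
    exact ⟨.rel _, .rel _⟩

theorem retract (h : Con M) {s : M' ⟶ M} {p : M ⟶ M'} (e : UIso (s ≫ p)) : Con M' :=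
  fun _ _ u hu => (h u hu).retract (s := smashMap (𝟙 _) s) (p := smashMap (𝟙 _) p)
    (s' := smashMap (𝟙 _) s) (p' := smashMap (𝟙 _) p)
    (by simpa [← smashMap_comp] using e.smash_left (gen hu).1)
    (by simpa [← smashMap_comp] using e.smash_left (gen hu).2)
    (by simp [← smashMap_comp]) (by simp [← smashMap_comp])

theorem uiso_iff {f : M ⟶ M'} (hf : UIso f) : Con M ↔ Con M' := by
  refine forall₂_congr fun X Y => forall₂_congr fun u hu => ?_
  have h1 := hf.smash_left (gen hu).1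
  have h2 := hf.smash_left (gen hu).2
  refine ⟨fun h => h1.of_comp_left ?_, fun h => h2.of_comp_right ?_⟩
  · rw [← smashMap_eq', smashMap_eq]; exact h.comp h2
  · rw [← smashMap_eq, smashMap_eq']; exact h1.comp h

theorem of_uzero (h : UZero M) : Con M :=
  fun _ _ _ hu => (h.smash_left (gen hu).1).uiso (h.smash_left (gen hu).2) _

protected theorem smash (h : Con M) (h' : Con N) : Con (M.smash N) := fun X Y u hu =>
  .of_comp_right (uiso_assoc Y M N) (by
    rw [← smashMap_id, assoc_nat]; exact (uiso_assoc X M N).comp ((h u hu).smash h'))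

end Con

end Smash

/-- Homotopy invariance: the sections of the affine line at two constants agree. -/
theorem Null.homotopy (B : Type) [CommRing B] [Algebra k B] [Algebra.Smooth k B] (a b : B) :
    Null (smMap ((Polynomial.aeval a : B[X] →ₐ[B] B).restrictScalars k) -
      smMap ((Polynomial.aeval b : B[X] →ₐ[B] B).restrictScalars k)) :=
  .of_comp_uiso (.gen (.line B)) (by
    convert Null.zero using 1
    exact hom_ext (by ext; simp))

end Pool.Agent.Lib.MP_fc2ced_ag
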